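import Mathlib

/-! An uncountable projection of a real analytic set contains an interval. -/

set_option autoImplicit false

namespace Pool.Agent.H15.Au

open Set Filter Topology

section
variable {E : Type} [NormedAddCommGroup E] [NormedSpace ℝ E]

noncomputable def dd (g : E → ℝ) (v : E) : ℕ → E → ℝ
  | 0 => g
  | k + 1 => fun x => fderiv ℝ (dd g v k) x v

theorem dd_an {g : E → ℝ} {B : Set E} (hg : AnalyticOnNhd ℝ g B) (v : E) (k : ℕ) :
    AnalyticOnNhd ℝ (dd g v k) B := by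
  induction k with
  | zero => exact hg
  | succ k ih =>
    exact fun x hx => ((ContinuousLinearMap.apply ℝ ℝ v).analyticAt _).comp (ih x hx).fderiv

theorem dd_ne {g : E → ℝ} {B : Set E} (hB : IsOpen B) (hc : Convex ℝ B)
    (hg : AnalyticOnNhd ℝ g B) {z v : E} (hz : z ∈ B) (hv : z + v ∈ B) (hne : g (z + v) ≠ 0) :
    ∃ k, dd g v k z ≠ 0 := by
  by_contra hcon
  push Not at hcon
  let T : Set ℝ := {s | z + s • v ∈ B}
  have hT : IsOpen T := hB.preimage (by fun_prop)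
  have hTc : Convex ℝ T := by
    intro s hs t ht a b ha hb hab
    have := hc hs ht ha hb hab
    show z + (a • s + b • t) • v ∈ B
    convert this using 1
    simp only [smul_eq_mul, smul_add, add_smul, mul_smul]
    rw [add_add_add_comm, ← add_smul, hab, one_smul]
  let G : ℕ → ℝ → ℝ := fun k s => dd g v k (z + s • v)
  have hl : ∀ s : ℝ, HasDerivAt (fun s : ℝ => z + s • v) v s := fun s => by
    simpa using ((hasDerivAt_id s).smul_const v).const_add z
  have hd : ∀ k, ∀ s ∈ T, deriv (G k) s = G (k + 1) s := fun k s hs =>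
    ((dd_an hg v k _ hs).differentiableAt.hasFDerivAt.comp_hasDerivAt s (hl s)).deriv
  have hi : ∀ k, ∀ s ∈ T, iteratedDeriv k (G 0) s = G k s := by
    intro k
    induction k with
    | zero => simp
    | succ k ih =>
      intro s hs
      rw [iteratedDeriv_succ, ← hd k s hs]
      exact Filter.EventuallyEq.deriv_eq (by filter_upwards [hT.mem_nhds hs] with t ht using ih t ht)
  have hGa : AnalyticOnNhd ℝ (G 0) T := fun s hs =>
    AnalyticAt.comp (g := g) (f := fun s : ℝ => z + s • v) (hg _ hs) (by fun_prop)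
  have h0 : (0 : ℝ) ∈ T := by simpa [T] using hz
  have htop : analyticOrderAt (G 0) 0 = ⊤ := by
    refine ENat.eq_top_iff_forall_ge.2 fun n => ?_
    refine (natCast_le_analyticOrderAt_iff_iteratedDeriv_eq_zero (hGa 0 h0)).2 fun i _ => ?_
    rw [hi i 0 h0]
    simpa [G] using hcon i
  have := hGa.eqOn_zero_of_preconnected_of_eventuallyEq_zero hTc.isPreconnected h0
    (analyticOrderAt_eq_top.1 htop) (show (1 : ℝ) ∈ T by simpa [T] using hv)
  exact hne (by simpa [G, dd] using this)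

theorem chart [FiniteDimensional ℝ E] {h : E → ℝ} {B : Set E} (hB : IsOpen B) {z : E} (hz : z ∈ B)
    (hh : AnalyticAt ℝ h z) (h0 : h z = 0) (hd : fderiv ℝ h z ≠ 0) :
    ∃ (K : Submodule ℝ E) (B' : Set K) (χ : K → E), K ≠ ⊤ ∧ IsOpen B' ∧ Convex ℝ B' ∧
      AnalyticOnNhd ℝ χ B' ∧ MapsTo χ B' B ∧ ∀ᶠ x in 𝓝 z, h x = 0 → x ∈ χ '' B' := by
  haveI : CompleteSpace E := FiniteDimensional.complete ℝ E
  set l := fderiv ℝ h z with hl
  obtain ⟨w0, hw0⟩ : ∃ w, l w ≠ 0 := by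
    by_contra hc
    push Not at hc
    exact hd (ContinuousLinearMap.ext hc)
  let w := (l w0)⁻¹ • w0
  have hw : l w = 1 := by simp [w, hw0]
  let K : Submodule ℝ E := LinearMap.ker (l : E →ₗ[ℝ] ℝ)
  let π : E →L[ℝ] K := (ContinuousLinearMap.id ℝ E - l.smulRight w).codRestrict K fun x => by
    simp [K, hw]
  let iv : ℝ × K →L[ℝ] E := (ContinuousLinearMap.fst ℝ ℝ K).smulRight w +
    K.subtypeL.comp (ContinuousLinearMap.snd ℝ ℝ K)
  let f' : E ≃L[ℝ] ℝ × K := ContinuousLinearEquiv.equivOfInverse (l.prod π) iv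
    (fun x => by simp [iv, π]) (fun y => by
      have : l y.2 = 0 := y.2.2
      ext <;> simp [iv, π, hw, this])
  let Φ : E → ℝ × K := fun x => (h x, π x)
  have hΦ : ContDiffAt ℝ ⊤ Φ z := (hh.prod (π.analyticAt z)).contDiffAt
  have hΦ' : HasFDerivAt Φ (f' : E →L[ℝ] ℝ × K) z :=
    hh.differentiableAt.hasFDerivAt.prodMk π.hasFDerivAt
  let Ψ := hΦ.localInverse hΦ' (by simp)
  have hΨ : AnalyticAt ℝ Ψ (Φ z) := (hΦ.to_localInverse hΦ' (by simp)).analyticAt
  have hΨz : Ψ (Φ z) = z := hΦ.localInverse_apply_image hΦ' (by simp)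
  have hli : ∀ᶠ x in 𝓝 z, Ψ (Φ x) = x := (hΦ.hasStrictFDerivAt' hΦ' (by simp)).eventually_left_inverse
  let χ : K → E := fun u => Ψ (0, u)
  have e1 : Φ z = (0, π z) := by simp [Φ, h0]
  have hχ : AnalyticAt ℝ χ (π z) :=
    AnalyticAt.comp (g := Ψ) (f := fun u : K => ((0 : ℝ), u)) (by rw [← e1]; exact hΨ) (by fun_prop)
  have hχz : χ (π z) = z := by simp only [χ]; rw [← e1]; exact hΨz
  have hev : ∀ᶠ u in 𝓝 (π z), AnalyticAt ℝ χ u ∧ χ u ∈ B :=
    hχ.eventually_analyticAt.and (hχ.continuousAt.preimage_mem_nhds (by rw [hχz]; exact hB.mem_nhds hz))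
  obtain ⟨r, hr, hb⟩ := Metric.eventually_nhds_iff_ball.1 hev
  refine ⟨K, Metric.ball (π z) r, χ, fun hK => hw0 ?_, Metric.isOpen_ball, convex_ball _ _,
    fun u hu => (hb u hu).1, fun u hu => (hb u hu).2, ?_⟩
  · have : w0 ∈ K := by rw [hK]; trivial
    exact this
  · filter_upwards [hli, π.continuous.continuousAt.preimage_mem_nhds (Metric.ball_mem_nhds (π z) hr)]
      with x hx hx' hx0
    refine ⟨π x, hx', ?_⟩
    simp only [χ]
    rw [← hx0]
    exact hx
end

universe u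

theorem arc (d : ℕ) : ∀ (E : Type) [NormedAddCommGroup E] [NormedSpace ℝ E]
    [FiniteDimensional ℝ E], Module.finrank ℝ E = d → ∀ (B : Set E), IsOpen B → Convex ℝ B →
    ∀ (ι : Type u) (g : ι → E → ℝ) (p : E → ℝ), (∀ i, AnalyticOnNhd ℝ (g i) B) → ContinuousOn p B →
    ¬ (p '' {u | u ∈ B ∧ ∀ i, g i u = 0}).Countable →
    ∃ a b, a < b ∧ Icc a b ⊆ p '' {u | u ∈ B ∧ ∀ i, g i u = 0} := by
  induction d using Nat.strong_induction_on with
  | _ d ih =>
  intro E _ _ _ hd B hB hc ι g p hg hp hu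
  by_cases hall : ∀ i, ∀ u ∈ B, g i u = 0
  · have e : {u | u ∈ B ∧ ∀ i, g i u = 0} = B := by
      ext u; exact ⟨fun h => h.1, fun h => ⟨h, fun i => hall i u h⟩⟩
    rw [e] at hu ⊢
    have hpc := hc.isPreconnected.image p hp
    obtain ⟨a, ha, b, hb, hab⟩ : (p '' B).Nontrivial := by
      by_contra hn
      exact hu (not_nontrivial_iff.1 hn).countable
    rcases lt_or_gt_of_ne hab with h | h
    · exact ⟨a, b, h, hpc.Icc_subset ha hb⟩
    · exact ⟨b, a, h, hpc.Icc_subset hb ha⟩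
  push Not at hall
  obtain ⟨i0, q, hq, hq0⟩ := hall
  by_contra hno
  apply hu
  haveI : CompleteSpace E := FiniteDimensional.complete ℝ E
  haveI : ProperSpace E := FiniteDimensional.proper ℝ E
  obtain ⟨D, hDc, hDd⟩ := TopologicalSpace.exists_countable_dense E
  let Z := {u | u ∈ B ∧ ∀ i, g i u = 0}
  let S : E → ℕ → Set E := fun v k =>
    {u | u ∈ Z ∧ dd (g i0) v k u = 0 ∧ fderiv ℝ (dd (g i0) v k) u ≠ 0}
  have hcov : Z ⊆ ⋃ v ∈ D, ⋃ k, S v k := by
    intro z hz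
    have hev : ∀ᶠ v in 𝓝 (q - z), z + v ∈ B ∧ g i0 (z + v) ≠ 0 := by
      have ht : Tendsto (fun v => z + v) (𝓝 (q - z)) (𝓝 q) := by
        have : Continuous fun v => z + v := by fun_prop
        simpa using this.tendsto (q - z)
      exact ht.eventually ((hB.eventually_mem hq).and ((hg i0 q hq).continuousAt.eventually_ne hq0))
    obtain ⟨v, hv, hvD⟩ := hDd.inter_nhds_nonempty hev
    classical
    have hex := dd_ne hB hc (hg i0) hz.1 hvD.1 hvD.2
    have h1 := Nat.find_spec hex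
    obtain ⟨k, hk⟩ : ∃ k, Nat.find hex = k + 1 := Nat.exists_eq_succ_of_ne_zero fun h => by
      rw [h] at h1; exact h1 (hz.2 i0)
    refine mem_biUnion hv (mem_iUnion.2 ⟨k, hz, ?_, fun h => ?_⟩)
    · simpa using Nat.find_min hex (show k < Nat.find hex by omega)
    · rw [hk] at h1
      exact h1 (by simp [dd, h])
  have hS : ∀ v k, (p '' S v k).Countable := by
    intro v k
    have hl : ∀ z ∈ S v k, ∃ W ∈ 𝓝[S v k] z, (p '' W).Countable := by
      intro z hz
      obtain ⟨K, B', χ, hK, h1, h2, h3, h4, h5⟩ :=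
        chart hB hz.1.1 (dd_an (hg i0) v k z hz.1.1) hz.2.1 hz.2.2
      refine ⟨_, inter_mem_nhdsWithin _ h5, ?_⟩
      by_contra hn
      obtain ⟨a, b, hab, hsub⟩ := ih _ (hd ▸ Submodule.finrank_lt hK) K rfl B' h1 h2 ι
        (fun i u => g i (χ u)) (fun u => p (χ u))
        (fun i u hu => AnalyticAt.comp (hg i _ (h4 hu)) (h3 u hu))
        (hp.comp h3.continuousOn h4) fun hcn => hn (hcn.mono (by
          rintro _ ⟨x, hx, rfl⟩
          obtain ⟨u, hu, rfl⟩ := hx.2 hx.1.2.1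
          exact ⟨u, ⟨hu, hx.1.1.2⟩, rfl⟩))
      refine hno ⟨a, b, hab, hsub.trans ?_⟩
      rintro _ ⟨u, hu, rfl⟩
      exact ⟨χ u, ⟨h4 hu.1, hu.2⟩, rfl⟩
    choose! W hW hWc using hl
    obtain ⟨t, ht, htc, hsub⟩ := TopologicalSpace.countable_cover_nhdsWithin hW
    refine (htc.biUnion fun x hx => hWc x (ht hx)).mono ?_
    rintro _ ⟨x, hx, rfl⟩
    obtain ⟨y, hy, hxy⟩ := mem_iUnion₂.1 (hsub hx)
    exact mem_biUnion hy ⟨x, hxy, rfl⟩
  refine (hDc.biUnion fun v _ => countable_iUnion fun k => hS v k).mono ?_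
  rintro _ ⟨x, hx, rfl⟩
  obtain ⟨v, hv, hx'⟩ := mem_iUnion₂.1 (hcov hx)
  obtain ⟨k, hk⟩ := mem_iUnion.1 hx'
  exact mem_biUnion hv (mem_iUnion.2 ⟨k, x, hk, rfl⟩)

end Pool.Agent.H15.Au
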