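import Pool.Agent.H15.Au1

/-! Lacunary exponential series. -/

set_option autoImplicit false

namespace Pool.Agent.H15.Au

open Set Filter Topology Real

noncomputable def M (n : ℕ) : ℝ := 2 ^ (n * n + 4 * n)

theorem M_pos (n : ℕ) : 0 < M n := by unfold M; positivity

theorem le_M (n : ℕ) : (n : ℝ) + 1 ≤ M n := by
  have : n + 1 ≤ 2 ^ (n * n + 4 * n) :=
    (Nat.lt_two_pow_self (n := n)).trans_le (Nat.pow_le_pow_right (by norm_num) (by nlinarith))
  unfold M
  exact_mod_cast this

theorem M_gap {n k : ℕ} (h : n < k) : M n * (16 * 2 ^ k) ≤ M k := by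
  unfold M
  rw [show (16 : ℝ) = 2 ^ 4 by norm_num, ← pow_add, ← pow_add]
  exact pow_le_pow_right₀ (by norm_num) (by nlinarith)

theorem sm {s : ℝ} (hs : s < 0) : Summable fun n => exp (M n * s) := by
  refine Summable.of_nonneg_of_le (fun n => (exp_pos _).le) (fun n => ?_)
    (summable_geometric_of_lt_one (exp_pos s).le (by rw [← exp_zero]; exact exp_lt_exp.2 hs))
  rw [← exp_nat_mul]
  exact exp_le_exp.2 (by nlinarith [le_M n])

noncomputable def F (y : ℕ → ℝ) (s : ℝ) : ℝ := ∑' n, y n * exp (M n * s)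

theorem F_sm {y : ℕ → ℝ} (hy : ∀ n, |y n| ≤ 1) {s : ℝ} (hs : s < 0) :
    Summable fun n => |y n| * exp (M n * s) :=
  Summable.of_nonneg_of_le (fun n => by positivity)
    (fun n => mul_le_of_le_one_left (exp_pos _).le (hy n)) (sm hs)

theorem F_sm' {y : ℕ → ℝ} (hy : ∀ n, |y n| ≤ 1) {s : ℝ} (hs : s < 0) :
    Summable fun n => y n * exp (M n * s) :=
  Summable.of_norm_bounded (F_sm hy hs) fun n => by simp [abs_mul]

theorem F_le {y : ℕ → ℝ} (hy : ∀ n, |y n| ≤ 1) {s q : ℝ} (hq : q < 0) (hs : s ≤ q) :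
    |F y s| ≤ ∑' n, |y n| * exp (M n * q) := by
  rw [← Real.norm_eq_abs]
  refine tsum_of_norm_bounded (F_sm hy hq).hasSum fun n => ?_
  simp only [norm_mul, Real.norm_eq_abs, abs_exp]
  gcongr
  exact (M_pos n).le

theorem F_an {y : ℕ → ℝ} (hy : ∀ n, |y n| ≤ 1) : AnalyticOnNhd ℝ (F y) (Iio 0) := by
  intro s hs
  have hs : s < 0 := hs
  let U : Set ℂ := {z | z.re < s / 2}
  have hU : IsOpen U := isOpen_lt Complex.continuous_re continuous_const
  let G : ℂ → ℂ := fun z => ∑' n, (y n : ℂ) * Complex.exp (M n * z)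
  have hG : DifferentiableOn ℂ G U :=
    Complex.differentiableOn_tsum_of_summable_norm (sm (show s / 2 < 0 by linarith))
      (fun n => by fun_prop) hU fun n w hw => by
        have hw : w.re < s / 2 := hw
        rw [norm_mul, Complex.norm_exp, Complex.norm_real]
        refine (mul_le_of_le_one_left (exp_pos _).le (hy n)).trans (exp_le_exp.2 ?_)
        simp only [Complex.mul_re, Complex.ofReal_re, Complex.ofReal_im, zero_mul, sub_zero]
        nlinarith [M_pos n]
  have h1 : AnalyticAt ℝ G (s : ℂ) :=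
    (hG.analyticAt (hU.mem_nhds (show (s : ℂ).re < s / 2 by simp; linarith))).restrictScalars
  have h2 : AnalyticAt ℝ (fun t : ℝ => (G t).re) s :=
    (Complex.reCLM.analyticAt _).comp
      (AnalyticAt.comp (g := G) (f := Complex.ofRealCLM) h1 (Complex.ofRealCLM.analyticAt s))
  convert h2 using 2 with t
  have : G t = (F y t : ℂ) := by simp [G, F, Complex.ofReal_tsum]
  rw [this, Complex.ofReal_re]

theorem phi_le {x c : ℝ} (hx : 0 < x) (h : x ≤ c ∨ 1 ≤ x * c) :
    |exp (-x) - exp (-x) * exp (-x)| ≤ c := by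
  have h1 : exp (-x) ≤ 1 := exp_le_one_iff.2 (by linarith)
  have h2 := exp_pos (-x)
  have h3 := add_one_le_exp (-x)
  have h4 : (x + 1) * exp (-x) ≤ 1 := by
    have := mul_le_mul_of_nonneg_right (add_one_le_exp x) h2.le
    rwa [← exp_add, add_neg_cancel, exp_zero] at this
  rw [abs_of_nonneg (by nlinarith)]
  rcases h with h | h
  · nlinarith
  · have : exp (-x) ≤ c := by
      by_contra hc
      push Not at hc
      nlinarith
    nlinarith

theorem dom {q a b K : ℝ} (hqb : q < b) (hab : a < b) (hb : b < 0) (hK : 0 ≤ K) :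
    ∃ N : ℕ, ∀ y : ℕ → ℝ, (∀ n, |y n| ≤ 1) → (∀ n < N, y n = 0) →
      (∀ s ∈ Icc a b, |F y s| ≤ K * ∑' n, |y n| * exp (M n * q)) → ∀ n, y n = 0 := by
  have hδ : (q - b) / 2 < 0 := by linarith
  set C := ∑' n, exp (M n * ((q - b) / 2))
  have hC : 0 ≤ C := tsum_nonneg fun n => (exp_pos _).le
  have t1 : Tendsto (fun N : ℕ => 2 * K * C * exp (M N * ((q - b) / 2))) atTop (𝓝 0) := by
    simpa using (sm hδ).tendsto_atTop_zero.const_mul (2 * K * C)
  obtain ⟨N, hN1, hN2⟩ := ((t1.eventually (gt_mem_nhds (show (0 : ℝ) < 0.08 by norm_num))).and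
    (tendsto_natCast_atTop_atTop.eventually_ge_atTop (2 / (b - a)))).exists
  refine ⟨N, fun y hy h0 hF n0 => ?_⟩
  by_contra hne
  let β : ℕ → ℝ := fun n => |y n| * exp (M n * b)
  have hbd : BddAbove (range β) := ⟨1, by
    rintro _ ⟨n, rfl⟩
    exact mul_le_one₀ (hy n) (exp_pos _).le (exp_le_one_iff.2 (by nlinarith [M_pos n]))⟩
  set B := ⨆ n, β n
  have hB : ∀ n, β n ≤ B := le_ciSup hbd
  have hB0 : 0 < B := lt_of_lt_of_le (by simp only [β]; positivity) (hB n0)
  obtain ⟨k, hk⟩ := exists_lt_of_lt_ciSup (show 0.9 * B < ⨆ n, β n by linarith)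
  have hkN : N ≤ k := by
    by_contra hc
    simp only [β, h0 k (not_le.1 hc), abs_zero, zero_mul] at hk
    linarith
  have hMk := M_pos k
  have hμ : 2 / M k ≤ b - a := by
    rw [div_le_iff₀ hMk]
    rw [div_le_iff₀ (by linarith)] at hN2
    have : (N : ℝ) ≤ k := by exact_mod_cast hkN
    nlinarith [le_M k]
  have hμ0 : 0 < 1 / M k := by positivity
  have hμ1 : 2 / M k = 2 * (1 / M k) := by ring
  let T : ℕ → ℝ := fun n => y n * exp (M n * b) *
    (exp (-(M n / M k)) - exp (-(M n / M k)) * exp (-(M n / M k)))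
  have hs1 := F_sm' hy (show b - 1 / M k < 0 by linarith)
  have hs2 := F_sm' hy (show b - 2 / M k < 0 by linarith)
  have hT : ∀ n, T n = y n * exp (M n * (b - 1 / M k)) - y n * exp (M n * (b - 2 / M k)) := by
    intro n
    simp only [T]
    rw [show M n * (b - 1 / M k) = M n * b + -(M n / M k) by ring,
      show M n * (b - 2 / M k) = M n * b + (-(M n / M k) + -(M n / M k)) by ring,
      exp_add, exp_add, exp_add]
    ring
  have hTs : Summable T := by rw [funext hT]; exact hs1.sub hs2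
  have hTe : ∑' n, T n = F y (b - 1 / M k) - F y (b - 2 / M k) := by
    rw [funext hT]; exact hs1.tsum_sub hs2
  have hrest : ‖∑' n, if n = k then 0 else T n‖ ≤ B / 16 * 2 := by
    refine tsum_of_norm_bounded (hasSum_geometric_two.mul_left (B / 16)) fun n => ?_
    split_ifs with h
    · simp only [norm_zero]; positivity
    · have hx : 0 < M n / M k := div_pos (M_pos n) hMk
      have hp : (0 : ℝ) < 2 ^ n := by positivity
      have e : (1 / 2 : ℝ) ^ n = 1 / 2 ^ n := by simp
      have := phi_le (c := 1 / 16 * (1 / 2) ^ n) hx (by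
        rw [e]
        rcases lt_or_gt_of_ne h with h | h
        · left
          have h1 := M_gap h
          have h2 : (2 : ℝ) ^ n ≤ 2 ^ k := pow_le_pow_right₀ (by norm_num) h.le
          rw [div_le_iff₀ hMk]
          have h3 : M n * (16 * 2 ^ n) ≤ M k := by nlinarith [M_pos n]
          calc M n = 1 / 16 * (1 / 2 ^ n) * (M n * (16 * 2 ^ n)) := by field_simp
            _ ≤ _ := by gcongr
        · right
          have h1 := M_gap h
          calc (1 : ℝ) = M k * (16 * 2 ^ n) / M k * (1 / 16 * (1 / 2 ^ n)) := by field_simp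
            _ ≤ _ := by gcongr)
      simp only [T, norm_mul, Real.norm_eq_abs, abs_exp]
      calc _ ≤ B * (1 / 16 * (1 / 2) ^ n) := mul_le_mul (hB n) this (abs_nonneg _) hB0.le
        _ = _ := by ring
  have hmain : 0.23 * β k ≤ |T k| := by
    simp only [T, β, abs_mul, abs_exp, div_self hMk.ne']
    have h1 := exp_neg_one_gt_d9
    have h2 := exp_neg_one_lt_d9
    have : 0.23 ≤ |exp (-1) - exp (-1) * exp (-1)| := le_trans (by nlinarith) (le_abs_self _)
    rw [mul_comm]
    gcongr
  have hup : ∑' n, |y n| * exp (M n * q) ≤ B * exp (M N * ((q - b) / 2)) * C := by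
    rw [← tsum_mul_left]
    refine (F_sm hy (by linarith)).tsum_le_tsum (fun n => ?_) ((sm hδ).mul_left _)
    rcases lt_or_ge n N with h | h
    · simp only [h0 n h, abs_zero, zero_mul]; positivity
    · have hM : M N ≤ M n := by
        unfold M
        exact pow_le_pow_right₀ (by norm_num) (by nlinarith)
      calc |y n| * exp (M n * q)
          = β n * exp (M n * ((q - b) / 2)) * exp (M n * ((q - b) / 2)) := by
            simp only [β, mul_assoc, ← exp_add]; congr 2; ring
        _ ≤ _ := mul_le_mul_of_nonneg_right (mul_le_mul (hB n) (exp_le_exp.2 (by nlinarith))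
            (exp_pos _).le hB0.le) (exp_pos _).le
  have e1 := hF (b - 1 / M k) ⟨by linarith, by linarith⟩
  have e2 := hF (b - 2 / M k) ⟨by linarith, by linarith⟩
  rw [hTs.tsum_eq_add_tsum_ite k] at hTe
  rw [Real.norm_eq_abs] at hrest
  have e3 : K * ∑' n, |y n| * exp (M n * q) ≤ K * (B * exp (M N * ((q - b) / 2)) * C) := by gcongr
  have e4 : B * (2 * K * C * exp (M N * ((q - b) / 2))) < B * 0.08 := by gcongr
  rw [abs_le] at e1 e2 hrest
  rcases abs_cases (T k) with h | h <;> nlinarith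

end Pool.Agent.H15.Au
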