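import Pool.Agent.H15.Eq1

/-! The renorming of the Hilbert space over the first uncountable ordinal. -/

set_option autoImplicit false

namespace Pool.Agent.H15.Eq

open Set Cardinal Filter

abbrev E : Type := lp (fun _ : W1 => ℝ) 2

theorem fibsum {P U K : Type} [Fintype U] [DecidableEq K] (F : Finset P) (κ : P → K)
    (hκ : InjOn κ F) (ν : U → K) (W : U → ℝ) (hW : ∀ u, 0 ≤ W u) :
    ∑ p ∈ F, ∑ u with ν u = κ p, W u ≤ ∑ u, W u := by
  rw [← Finset.sum_image (g := κ) (f := fun k => ∑ u with ν u = k, W u) hκ]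
  exact Finset.sum_fiberwise_le_sum_of_sum_fiber_nonneg fun _ _ =>
    Finset.sum_nonneg fun u _ => hW u

theorem sq_sum_le (x : E) (s : Finset W1) : ∑ α ∈ s, x α ^ 2 ≤ ‖x‖ ^ 2 := by
  have := lp.sum_rpow_le_norm_rpow (by norm_num) x s
  simpa using this

theorem norm_sq_le (x : E) (c : ℝ) (h : ∀ s : Finset W1, ∑ α ∈ s, x α ^ 2 ≤ c) : ‖x‖ ^ 2 ≤ c := by
  have hc : 0 ≤ c := by simpa using h ∅
  have : ‖x‖ ≤ √c := lp.norm_le_of_forall_sum_le (by norm_num) (Real.sqrt_nonneg _) fun s => by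
    simpa [Real.sq_sqrt hc] using h s
  calc ‖x‖ ^ 2 ≤ √c ^ 2 := by gcongr
    _ = c := Real.sq_sqrt hc

noncomputable def pF (F : Finset (W1 × W1)) : Seminorm ℝ E :=
  (normSeminorm ℝ (EuclideanSpace ℝ F)).comp
    ({ toFun := fun x => WithLp.toLp 2 fun p => x p.1.1 - x p.1.2
       map_add' := fun x y => by ext p; simp; ring
       map_smul' := fun c x => by ext p; simp; ring } : E →ₗ[ℝ] EuclideanSpace ℝ F)

theorem pF_sq (F : Finset (W1 × W1)) (x : E) : pF F x ^ 2 = ∑ p ∈ F, (x p.1 - x p.2) ^ 2 := by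
  simp only [pF, Seminorm.comp_apply, coe_normSeminorm, EuclideanSpace.norm_sq_eq]
  simp only [LinearMap.coe_mk, AddHom.coe_mk, Real.norm_eq_abs, sq_abs]
  exact Finset.sum_coe_sort F fun p => (x p.1 - x p.2) ^ 2

def Adm (C : W1 → W1 → Prop) (key : ℕ → W1 → Finset ℕ) (F : Finset (W1 × W1)) : Prop :=
  ∃ m, (∀ p ∈ F, C p.1 p.2 ∧ key m p.1 = key m p.2) ∧ InjOn (fun p : W1 × W1 => key m p.1) F

theorem exN (C : W1 → W1 → Prop) (key : ℕ → W1 → Finset ℕ) :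
    ∃ N : Seminorm ℝ E, (∀ x, ‖x‖ ≤ N x ∧ N x ≤ 2 * ‖x‖) ∧
      (∀ F x, Adm C key F → ∑ p ∈ F, (x p.1 - x p.2) ^ 2 ≤ N x ^ 2) ∧
      ∀ x c, ‖x‖ ^ 2 ≤ c → (∀ F, Adm C key F → ∑ p ∈ F, (x p.1 - x p.2) ^ 2 ≤ c) → N x ^ 2 ≤ c := by
  classical
  have hb : ∀ F, Adm C key F → ∀ x, pF F x ≤ 2 * ‖x‖ := by
    rintro F ⟨m, h1, h2⟩ x
    have a1 : ∑ p ∈ F, x p.1 ^ 2 ≤ ‖x‖ ^ 2 := by
      rw [← Finset.sum_image (g := fun p : W1 × W1 => p.1) (f := fun α => x α ^ 2)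
        fun p hp q hq h => h2 hp hq (by simp only at h ⊢; rw [h])]
      exact sq_sum_le _ _
    have a2 : ∑ p ∈ F, x p.2 ^ 2 ≤ ‖x‖ ^ 2 := by
      rw [← Finset.sum_image (g := fun p : W1 × W1 => p.2) (f := fun α => x α ^ 2)
        fun p hp q hq h => h2 hp hq (by
          simp only at h ⊢; rw [(h1 p hp).2, (h1 q hq).2, h])]
      exact sq_sum_le _ _
    have a3 : ∑ p ∈ F, (x p.1 - x p.2) ^ 2 ≤ ∑ p ∈ F, (2 * x p.1 ^ 2 + 2 * x p.2 ^ 2) :=
      Finset.sum_le_sum fun p _ => by nlinarith [sq_nonneg (x p.1 + x p.2)]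
    rw [Finset.sum_add_distrib, ← Finset.mul_sum, ← Finset.mul_sum, ← pF_sq] at a3
    exact abs_le_of_sq_le_sq' (by nlinarith) (by positivity) |>.2
  have hB : BddAbove (range fun F : {F // Adm C key F} => pF F.1) :=
    Seminorm.bddAbove_range_iff.2 fun x => ⟨2 * ‖x‖, by rintro _ ⟨F, rfl⟩; exact hb _ F.2 x⟩
  have hne : Nonempty {F // Adm C key F} := ⟨⟨∅, 0, by simp, by simp⟩⟩
  refine ⟨normSeminorm ℝ E ⊔ ⨆ F : {F // Adm C key F}, pF F.1, fun x => ⟨?_, ?_⟩, ?_, ?_⟩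
  · exact le_max_left _ _
  · rw [Seminorm.sup_apply, Seminorm.iSup_apply hB]
    refine max_le ?_ (ciSup_le fun F => hb _ F.2 x)
    have := norm_nonneg x
    simp only [coe_normSeminorm]; linarith
  · intro F x hF
    rw [← pF_sq]
    have : pF F x ≤ (normSeminorm ℝ E ⊔ ⨆ F : {F // Adm C key F}, pF F.1) x :=
      (le_ciSup hB ⟨F, hF⟩ x).trans (le_max_right _ _)
    have := apply_nonneg (pF F) x
    gcongr
  · intro x c h1 h2
    have hc : 0 ≤ c := (sq_nonneg _).trans h1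
    have : (normSeminorm ℝ E ⊔ ⨆ F : {F // Adm C key F}, pF F.1) x ≤ √c := by
      rw [Seminorm.sup_apply, Seminorm.iSup_apply hB]
      refine max_le (Real.le_sqrt_of_sq_le h1) (ciSup_le fun F => Real.le_sqrt_of_sq_le ?_)
      rw [pF_sq]; exact h2 _ F.2
    calc _ ≤ √c ^ 2 := pow_le_pow_left₀ (apply_nonneg _ _) this 2
      _ = c := Real.sq_sqrt hc

theorem exKey : ∃ key : ℕ → W1 → Finset ℕ,
    (∀ m m' α β, m ≤ m' → key m' α = key m' β → key m α = key m β) ∧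
    ∀ α β, α ≠ β → ∃ m, key m α ≠ key m β := by
  classical
  obtain ⟨r⟩ : Nonempty (W1 ↪ Set ℕ) := by
    rw [← Cardinal.le_def, mk_W1, mk_set_nat]
    exact aleph_one_le_continuum
  refine ⟨fun m α => (Finset.range m).filter (· ∈ r α), fun m m' α β hm h => ?_, fun α β h => ?_⟩
  · ext n
    have := Finset.ext_iff.1 h n
    simp only [Finset.mem_filter, Finset.mem_range] at this ⊢
    constructor
    · exact fun a => ⟨a.1, (this.1 ⟨by omega, a.2⟩).2⟩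
    · exact fun a => ⟨a.1, (this.2 ⟨by omega, a.2⟩).2⟩
  · by_contra hc
    push Not at hc
    refine h (r.injective (Set.ext fun n => ?_))
    simpa using Finset.ext_iff.1 (hc (n + 1)) n

noncomputable def zf {n : ℕ} (w : Fin n → ℚ) (b : Fin n → W1) : E :=
  ∑ i, lp.single 2 (b i) (w i : ℝ)

theorem approx (y : E) {ε : ℝ} (hε : 0 < ε) :
    ∃ n, ∃ w : Fin n → ℚ, ∃ b : Fin n → W1, Function.Injective b ∧ ‖y - zf w b‖ < ε := by
  classical
  have h := lp.hasSum_single (p := 2) (by simp) y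
  obtain ⟨s, hs⟩ := (Metric.tendsto_nhds.1 h (ε / 2) (by positivity)).exists
  rw [dist_comm, dist_eq_norm] at hs
  let b : Fin s.card → W1 := fun i => s.equivFin.symm i
  have hq : ∀ i, ∃ q : ℚ, |y (b i) - q| < ε / 2 / (s.card + 1) := fun i =>
    exists_rat_near _ (by positivity)
  choose w hw using hq
  refine ⟨_, w, b, fun i j h => s.equivFin.symm.injective (Subtype.ext h), ?_⟩
  have e1 : ∑ α ∈ s, lp.single 2 α (y α) = ∑ i, (lp.single 2 (b i) (y (b i)) : E) := by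
    rw [← Finset.sum_coe_sort s]
    exact (s.equivFin.symm.sum_comp fun α : s => (lp.single 2 α.1 (y α.1) : E)).symm
  have e2 : ‖∑ i, (lp.single 2 (b i) (y (b i)) : E) - zf w b‖ ≤ s.card * (ε / 2 / (s.card + 1)) := by
    rw [zf, ← Finset.sum_sub_distrib]
    refine (norm_sum_le _ _).trans ((Finset.sum_le_card_nsmul _ _ (ε / 2 / (s.card + 1))
      fun i _ => ?_).trans (by simp))
    rw [← lp.single_sub, lp.norm_single (by simp)]
    exact (hw i).le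
  have e3 : (s.card : ℝ) * (ε / 2 / (s.card + 1)) ≤ ε / 2 := by
    rw [mul_div_assoc', div_le_iff₀ (by positivity)]; nlinarith
  rw [e1] at hs
  calc _ ≤ _ := norm_sub_le_norm_sub_add_norm_sub _ (∑ i, (lp.single 2 (b i) (y (b i)) : E)) _
    _ < ε := by linarith

theorem delta {Y ι : Type} [Fintype ι] (b : Y → ι → W1) (S : Set Y) (hS : ¬ S.Countable) :
    ∃ S' ⊆ S, ¬ S'.Countable ∧ ∃ D : Finset ι, (∀ y ∈ S', ∀ y' ∈ S', ∀ i ∈ D, b y i = b y' i) ∧
      ∀ γ, ∃ y ∈ S', ∀ i ∉ D, γ < b y i := by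
  classical
  obtain ⟨D, hD, hmax⟩ := Finset.exists_max_image
    (Finset.univ.filter fun D : Finset ι => ∃ S' ⊆ S, ¬ S'.Countable ∧
      ∀ y ∈ S', ∀ y' ∈ S', ∀ i ∈ D, b y i = b y' i) Finset.card
    ⟨∅, by simpa using ⟨S, subset_rfl, hS⟩⟩
  obtain ⟨S', h1, h2, h3⟩ := (Finset.mem_filter.1 hD).2
  refine ⟨S', h1, h2, D, h3, fun γ => ?_⟩
  by_contra hc
  push Not at hc
  have : ∀ i ∉ D, ∀ α, {y ∈ S' | b y i = α}.Countable := by
    intro i hi α
    by_contra hn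
    have := hmax (insert i D) (Finset.mem_filter.2 ⟨Finset.mem_univ _, _,
      fun y hy => h1 hy.1, hn, fun y hy y' hy' k hk => ?_⟩)
    · rw [Finset.card_insert_of_notMem hi] at this; omega
    · rcases Finset.mem_insert.1 hk with rfl | hk
      · exact hy.2.trans hy'.2.symm
      · exact h3 _ hy.1 _ hy'.1 _ hk
  refine h2 ((countable_iUnion fun i : {i // i ∉ D} => (Iic_countable γ).biUnion
    fun α _ => this i.1 i.2 α).mono fun y hy => ?_)
  obtain ⟨i, hi, h⟩ := hc y hy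
  exact mem_iUnion.2 ⟨⟨i, hi⟩, mem_biUnion h ⟨hy, rfl⟩⟩

end Pool.Agent.H15.Eq
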