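import Pool.Agent.H15.Au2
import Pool.Agent.H15.Eq2

/-! Countability of linear relations between values of lacunary series; coherent injections. -/

set_option autoImplicit false

namespace Pool.Agent.H15.Au

open Set Filter Topology Real Pool.Agent.H15.Eq

universe u

theorem core {ι : Type u} (y : ι → ℕ → ℝ) (hy : ∀ i n, |y i n| ≤ 1)
    (hN : ∀ N, ∃ i, (∀ n < N, y i n = 0) ∧ ∃ n, y i n ≠ 0) :
    {t : ℝ | t < 0 ∧ ∃ (κ : Type) (_ : Fintype κ) (a s : κ → ℝ), (∀ k, s k < t) ∧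
      ∀ i, F (y i) t + ∑ k, a k * F (y i) (s k) = 0}.Countable := by
  let B : ∀ m : ℕ, ℕ → ℚ → Set (ℝ × (Fin m → ℝ) × (Fin m → ℝ)) := fun m C q =>
    Ioo (q : ℝ) 0 ×ˢ (univ.pi fun _ => Ioo (-(C : ℝ)) C) ×ˢ (univ.pi fun _ => Iio (q : ℝ))
  let g : ∀ m : ℕ, ι → ℝ × (Fin m → ℝ) × (Fin m → ℝ) → ℝ := fun m i u =>
    F (y i) u.1 + ∑ k, u.2.1 k * F (y i) (u.2.2 k)
  have hc : ∀ m C q, (Prod.fst '' {u | u ∈ B m C q ∧ ∀ i, g m i u = 0}).Countable := by
    intro m C q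
    by_contra hn
    obtain ⟨a, b, hab, hsub⟩ := arc _ _ rfl (B m C q)
      (isOpen_Ioo.prod ((isOpen_set_pi finite_univ fun _ _ => isOpen_Ioo).prod
        (isOpen_set_pi finite_univ fun _ _ => isOpen_Iio)))
      ((convex_Ioo _ _).prod ((convex_pi fun _ _ => convex_Ioo _ _).prod
        (convex_pi fun _ _ => convex_Iio _))) ι (g m) Prod.fst
      (fun i u hu => by
        refine AnalyticAt.add (AnalyticAt.comp (g := F (y i)) (F_an (hy i) _ hu.1.2) analyticAt_fst)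
          (Finset.analyticAt_fun_sum _ fun k _ => AnalyticAt.mul ?_ ?_)
        · exact ((ContinuousLinearMap.proj (R := ℝ) (φ := fun _ : Fin m => ℝ) k).analyticAt _).comp
            (analyticAt_fst.comp analyticAt_snd)
        · refine AnalyticAt.comp (g := F (y i))
            (F_an (hy i) _ (lt_trans (hu.2.2 k trivial) (hu.1.1.trans hu.1.2))) ?_
          exact ((ContinuousLinearMap.proj (R := ℝ) (φ := fun _ : Fin m => ℝ) k).analyticAt _).comp
            (analyticAt_snd.comp analyticAt_snd))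
      continuous_fst.continuousOn hn
    obtain ⟨u, hu, rfl⟩ := hsub (right_mem_Icc.2 hab.le)
    obtain ⟨N, hd⟩ := dom (K := m * C) hu.1.1.1 hab hu.1.1.2 (by positivity)
    obtain ⟨i, hi, n, hn⟩ := hN N
    refine hn (hd (y i) (hy i) hi (fun t ht => ?_) n)
    obtain ⟨w, hw, rfl⟩ := hsub ht
    rw [eq_neg_of_add_eq_zero_left (hw.2 i), abs_neg]
    refine (Finset.abs_sum_le_sum_abs _ _).trans ?_
    refine (Finset.sum_le_card_nsmul _ _ (C * ∑' n, |y i n| * exp (M n * q)) fun k _ => ?_).trans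
      (by simp [mul_assoc])
    rw [abs_mul]
    exact mul_le_mul (abs_lt.2 (hw.1.2.1 k trivial)).le
      (F_le (hy i) (hw.1.1.1.trans hw.1.1.2) (hw.1.2.2 k trivial).le) (abs_nonneg _) (by positivity)
  refine (countable_iUnion fun m => countable_iUnion fun C => countable_iUnion fun q =>
    hc m C q).mono ?_
  rintro t ⟨ht, κ, _, a, s, hs, hr⟩
  obtain ⟨C, hC⟩ : ∃ C : ℕ, ∀ k, |a k| < C := by
    obtain ⟨c, hc⟩ := (finite_range fun k => |a k|).bddAbove
    obtain ⟨C, hC⟩ := exists_nat_gt c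
    exact ⟨C, fun k => (hc ⟨k, rfl⟩).trans_lt hC⟩
  obtain ⟨q, hq1, hq2⟩ : ∃ q : ℚ, (∀ k, s k < q) ∧ (q : ℝ) < t := by
    rcases isEmpty_or_nonempty κ with h | h
    · obtain ⟨q, hq⟩ := exists_rat_lt t
      exact ⟨q, fun k => h.elim k, hq⟩
    · obtain ⟨k, hk⟩ := Finite.exists_max s
      obtain ⟨q, h1, h2⟩ := exists_rat_btwn (hs k)
      exact ⟨q, fun l => (hk l).trans_lt h1, h2⟩
  let e := (Fintype.equivFin κ).symm
  refine mem_iUnion.2 ⟨_, mem_iUnion.2 ⟨C, mem_iUnion.2 ⟨q, (t, a ∘ e, s ∘ e),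
    ⟨⟨⟨hq2, ht⟩, fun k _ => abs_lt.1 (hC _), fun k _ => hq1 _⟩, fun i => ?_⟩, rfl⟩⟩⟩
  rw [← hr i, ← e.sum_comp]
  rfl

theorem cohInj : ∃ e : W1 → W1 → ℕ, (∀ b, InjOn (e b) (Iio b)) ∧
    ∀ a b, a ≤ b → {x | x < a ∧ e a x ≠ e b x}.Finite := by
  obtain ⟨e, h1, h2⟩ := coherent
  have hf : ∀ b x, x ≤ b → ∀ n, {z | z < x ∧ e b z = n}.Finite := fun b x hx n =>
    (h1 b n).subset fun z hz => ⟨hz.1.trans_le hx, hz.2.le⟩
  refine ⟨fun b x => Nat.pair (e b x) {z | z < x ∧ e b z = e b x}.ncard, fun b => ?_,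
    fun a b hab => ?_⟩
  · have key : ∀ x x', x < x' → x' < b → e b x = e b x' →
        {z | z < x ∧ e b z = e b x}.ncard < {z | z < x' ∧ e b z = e b x'}.ncard :=
      fun x x' h h' he => ncard_lt_ncard ⟨fun z hz => ⟨hz.1.trans h, hz.2.trans he⟩,
        fun hs => lt_irrefl x (hs ⟨h, he⟩).1⟩ (hf b x' h'.le _)
    intro x hx x' hx' h
    obtain ⟨e1, e2⟩ := Nat.pair_eq_pair.1 h
    rcases lt_trichotomy x x' with l | l | l
    · exact absurd e2 (key x x' l hx' e1).ne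
    · exact l
    · exact absurd e2 (key x' x l hx e1.symm).ne'
  · rcases hab.eq_or_lt with rfl | hab
    · simp
    have hD := h2 a b hab
    obtain ⟨m, hm⟩ := ((hD.image (e a)).union (hD.image (e b))).bddAbove
    refine (hD.union (h1 a m)).subset fun x hx => ?_
    by_contra hc
    simp only [mem_union, mem_setOf_eq, not_or, not_and, not_not, not_le] at hc
    have e1 := hc.1 hx.1
    have e2 := hc.2 hx.1
    refine hx.2 ?_
    have : {z | z < x ∧ e a z = e a x} = {z | z < x ∧ e b z = e b x} := by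
      ext z
      refine and_congr_right fun hz => ?_
      by_cases hz' : e a z = e b z
      · rw [hz', e1]
      · have a1 := hm (Or.inl ⟨z, ⟨hz.trans hx.1, hz'⟩, rfl⟩)
        have a2 := hm (Or.inr ⟨z, ⟨hz.trans hx.1, hz'⟩, rfl⟩)
        constructor <;> intro h <;> omega
    show Nat.pair _ _ = Nat.pair _ _
    rw [this, e1]

theorem exS : ∃ s : W1 → ℝ, Function.Injective s ∧ ∀ β, s β < -3 := by
  have : Cardinal.mk W1 ≤ Cardinal.mk (Iio (-3 : ℝ)) := by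
    rw [mk_W1, Cardinal.mk_Iio_real]; exact Cardinal.aleph_one_le_continuum
  obtain ⟨f⟩ := this
  exact ⟨fun β => f β, fun a b h => f.injective (Subtype.ext h), fun β => (f β).2⟩

open Classical in
noncomputable def Y (e : W1 → W1 → ℕ) (β : W1) (x : W1 → ℝ) (n : ℕ) : ℝ :=
  if h : ∃ ξ, ξ < β ∧ e β ξ = n then x h.choose else 0

variable {e : W1 → W1 → ℕ}

theorem Y_ne {β : W1} {x : W1 → ℝ} {n : ℕ} (h : Y e β x n ≠ 0) :
    ∃ ξ, ξ < β ∧ e β ξ = n ∧ x ξ ≠ 0 := by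
  unfold Y at h
  split_ifs at h with h'
  · exact ⟨_, h'.choose_spec.1, h'.choose_spec.2, h⟩
  · exact absurd rfl h

theorem Y_eq (he : ∀ b, InjOn (e b) (Iio b)) {β ξ : W1} (x : W1 → ℝ) (h : ξ < β) :
    Y e β x (e β ξ) = x ξ := by
  have h' : ∃ ζ, ζ < β ∧ e β ζ = e β ξ := ⟨ξ, h, rfl⟩
  unfold Y
  rw [dif_pos h', he β h'.choose_spec.1 h h'.choose_spec.2]

theorem Y_le {β : W1} {x : W1 → ℝ} {c : ℝ} (h : ∀ ξ, |x ξ| ≤ c) (n : ℕ) : |Y e β x n| ≤ c := by
  unfold Y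
  split_ifs
  · exact h _
  · simpa using (abs_nonneg _).trans (h β)

theorem Y_same (he : ∀ b, InjOn (e b) (Iio b)) {α β : W1} (hab : α ≤ β) {x : W1 → ℝ}
    (h : ∀ ξ, x ξ ≠ 0 → ξ < α ∧ e α ξ = e β ξ) : Y e β x = Y e α x := by
  funext n
  by_cases h1 : Y e β x n = 0
  · by_contra h2
    obtain ⟨ξ, a, rfl, c⟩ := Y_ne (x := x) (fun h => h2 (h1.trans h.symm))
    rw [(h ξ c).2, Y_eq he x (a.trans_le hab)] at h1
    exact c h1
  · obtain ⟨ξ, a, rfl, c⟩ := Y_ne h1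
    rw [Y_eq he x a, ← (h ξ c).2, Y_eq he x (h ξ c).1]

theorem F_smc {y : ℕ → ℝ} {c : ℝ} (hy : ∀ n, |y n| ≤ c) {s : ℝ} (hs : s < 0) :
    Summable fun n => y n * exp (M n * s) :=
  Summable.of_norm_bounded ((sm hs).mul_left c) fun n => by
    simp only [norm_mul, Real.norm_eq_abs, abs_exp]
    exact mul_le_mul_of_nonneg_right (hy n) (exp_pos _).le

theorem F_bd {y : ℕ → ℝ} {c : ℝ} (hy : ∀ n, |y n| ≤ c) {s : ℝ} (hs : s < -3) :
    |F y s| ≤ c / 4 := by
  rw [← Real.norm_eq_abs, show c / 4 = c / 8 * 2 by ring]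
  refine tsum_of_norm_bounded (hasSum_geometric_two.mul_left (c / 8)) fun n => ?_
  simp only [norm_mul, Real.norm_eq_abs, abs_exp]
  have h1 : exp (-1) ≤ 1 / 2 := by have := exp_neg_one_lt_d9; linarith
  have h2 : exp (M n * s) ≤ 1 / 8 * (1 / 2) ^ n := by
    calc exp (M n * s) ≤ exp ((n + 3 : ℕ) * (-1)) := exp_le_exp.2 (by
          push_cast; nlinarith [le_M n, (n.cast_nonneg : (0 : ℝ) ≤ n)])
      _ = exp (-1) ^ (n + 3) := exp_nat_mul _ _
      _ ≤ (1 / 2) ^ (n + 3) := by gcongr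
      _ = _ := by ring
  calc _ ≤ c * (1 / 8 * (1 / 2) ^ n) :=
        mul_le_mul (hy n) h2 (exp_pos _).le ((abs_nonneg _).trans (hy n))
    _ = _ := by ring

theorem co_le (x : E) (ξ : W1) : |x ξ| ≤ ‖x‖ := lp.norm_apply_le_norm (by norm_num) x ξ

/-- the coordinate functionals of the new norm -/
noncomputable def gl (e : W1 → W1 → ℕ) (s : W1 → ℝ) (hs : ∀ β, s β < -3) (β : W1) : E →ₗ[ℝ] ℝ where
  toFun x := x β + F (Y e β x) (s β)
  map_add' x z := by
    have h0 : s β < 0 := by linarith [hs β]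
    have : Y e β (x + z : E) = fun n => Y e β x n + Y e β z n := by
      funext n; unfold Y; split_ifs <;> simp
    rw [this]
    simp only [F, add_mul, lp.coeFn_add, Pi.add_apply]
    rw [(F_smc (Y_le (co_le x)) h0).tsum_add (F_smc (Y_le (co_le z)) h0)]
    ring
  map_smul' c x := by
    have : Y e β (c • x : E) = fun n => c * Y e β x n := by
      funext n; unfold Y; split_ifs <;> simp
    rw [this]
    simp only [F, mul_assoc, tsum_mul_left, lp.coeFn_smul, Pi.smul_apply, smul_eq_mul,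
      RingHom.id_apply]
    ring

end Pool.Agent.H15.Au
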