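import Pool.Agent.H15.Au3

/-! A renorming of the Hilbert space over the first uncountable ordinal without normal total
biorthogonal systems. -/

set_option autoImplicit false

namespace Pool.Agent.H15.Au

open Set Filter Topology Real Pool.Agent.H15.Eq
open scoped InnerProductSpace

universe u

theorem big_fin (x : E) {c : ℝ} (hc : 0 < c) : {ξ | c ≤ |x ξ|}.Finite := by
  have h := ((lp.memℓp x).summable (by norm_num)).tendsto_cofinite_zero.eventually
    (gt_mem_nhds (show (0 : ℝ) < c ^ 2 by positivity))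
  refine (eventually_cofinite.1 h).subset fun ξ hξ => ?_
  have : c ^ 2 ≤ |x ξ| ^ 2 := by gcongr; exact hξ
  simpa using this

theorem cnt {α : Type*} (g : α → ℝ) (h : ∀ c, 0 < c → {ξ | c ≤ |g ξ|}.Finite) :
    {ξ | g ξ ≠ 0}.Countable := by
  refine (countable_iUnion fun n : ℕ => (h (1 / (n + 1)) (by positivity)).countable).mono
    fun ξ hξ => ?_
  obtain ⟨n, hn⟩ := exists_nat_one_div_lt (abs_pos.2 hξ)
  exact mem_iUnion.2 ⟨n, hn.le⟩

theorem avoid {I : Type u} (x : I → E) (f : I → E →L[ℝ] ℝ) (h2 : ∀ i j, i ≠ j → f i (x j) = 0)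
    (h3 : ∀ i, ‖x i‖ ≤ 1) (ht : ∀ y, (∀ i, f i y = 0) → y = 0) (A : Set W1) (hA : A.Countable) :
    ∃ j, ∀ ξ ∈ A, x j ξ = 0 := by
  classical
  let r : I → E := fun i => (InnerProductSpace.toDual ℝ E).symm (f i)
  have hr : ∀ i y, ⟪r i, y⟫_ℝ = f i y := fun i y => InnerProductSpace.toDual_symm_apply
  have hs : ∀ (ξ : W1) (y : E), ⟪(lp.single 2 ξ (1 : ℝ) : E), y⟫_ℝ = y ξ := fun ξ y => by
    rw [lp.inner_single_left]; simp
  have hd : (Submodule.span ℝ (range r)).topologicalClosure = ⊤ := by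
    refine Submodule.topologicalClosure_eq_top_iff.2 (eq_bot_iff.2 fun y hy => ht y fun i => ?_)
    rw [← hr]
    exact hy _ (Submodule.subset_span ⟨i, rfl⟩)
  have hsp : ∀ g ∈ Submodule.span ℝ (range r), {j | ⟪g, x j⟫_ℝ ≠ 0}.Finite := by
    intro g hg
    induction hg using Submodule.span_induction with
    | mem g hg =>
      obtain ⟨i, rfl⟩ := hg
      refine (finite_singleton i).subset fun j hj => ?_
      by_contra hne
      exact hj (by rw [hr]; exact h2 i j fun h => hne h.symm)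
    | zero => simp
    | add a b _ _ ha hb =>
      refine (ha.union hb).subset fun j hj => ?_
      by_contra hc
      simp only [mem_union, mem_setOf_eq, not_or, not_not] at hc
      exact hj (by rw [inner_add_left, hc.1, hc.2, add_zero])
    | smul c a _ ha =>
      refine ha.subset fun j hj h => hj ?_
      rw [real_inner_smul_left, h, mul_zero]
  have hp : ∀ ξ, {j | x j ξ ≠ 0}.Countable := fun ξ => cnt _ fun c hc => by
    have : (lp.single 2 ξ (1 : ℝ) : E) ∈ closure (Submodule.span ℝ (range r) : Set E) := by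
      rw [← Submodule.topologicalClosure_coe, hd]; trivial
    obtain ⟨g, hg, hgc⟩ := Metric.mem_closure_iff.1 this c hc
    refine (hsp g hg).subset fun j hj h0 => ?_
    have h1 := abs_real_inner_le_norm ((lp.single 2 ξ (1 : ℝ) : E) - g) (x j)
    rw [inner_sub_left, h0, hs, sub_zero, ← dist_eq_norm] at h1
    have h4 : c ≤ |x j ξ| := hj
    nlinarith [h3 j, dist_nonneg (x := (lp.single 2 ξ (1 : ℝ) : E)) (y := g)]
  by_contra hc
  push Not at hc
  have hI : Countable I := countable_univ_iff.1 ((hA.biUnion fun ξ _ => hp ξ).mono fun j _ => by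
    obtain ⟨ξ, h1, h2⟩ := hc j
    exact mem_biUnion h1 h2)
  obtain ⟨γ, hγ⟩ := bdd _ (countable_iUnion fun i => cnt (r i) fun c => big_fin (r i))
  have := ht (lp.single 2 γ (1 : ℝ)) fun i => by
    rw [← hr, real_inner_comm, hs]
    by_contra h
    exact lt_irrefl γ (hγ γ (mem_iUnion.2 ⟨i, h⟩))
  have h5 := hs γ (lp.single 2 γ (1 : ℝ))
  rw [this] at h5
  have h6 := congrArg (fun v : E => v γ) this
  simp at h6

theorem lower {I : Type u} (x : I → E) (av : ∀ A : Set W1, A.Countable → ∃ j, ∀ ξ ∈ A, x j ξ = 0) :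
    ∃ α, ∀ D : Set W1, D.Finite → ∃ i, ∀ ξ, x i ξ ≠ 0 → ξ < α ∧ ξ ∉ D := by
  have st : ∀ γ, ∃ i γ', γ < γ' ∧ ∀ ξ, x i ξ ≠ 0 → γ ≤ ξ ∧ ξ < γ' := fun γ => by
    obtain ⟨i, hi⟩ := av _ (Iio_countable γ)
    obtain ⟨γ', h'⟩ := bdd _ ((cnt (x i) fun c => big_fin (x i)).insert γ)
    exact ⟨i, γ', h' _ (Or.inl rfl), fun ξ h => ⟨not_lt.1 fun l => h (hi ξ l), h' _ (Or.inr h)⟩⟩
  choose i nx h1 h2 using st
  let a : ℕ → W1 := fun n => nx^[n] (Classical.arbitrary _)
  have ha : ∀ n, a (n + 1) = nx (a n) := fun n => Function.iterate_succ_apply' _ _ _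
  have hm : StrictMono a := strictMono_nat_of_lt_succ fun n => by rw [ha]; exact h1 _
  obtain ⟨α, hα⟩ := bdd _ (countable_range a)
  refine ⟨α, fun D hD => ?_⟩
  have : (⋃ ξ ∈ D, {n | x (i (a n)) ξ ≠ 0}).Finite := hD.biUnion fun ξ _ => by
    refine Set.Subsingleton.finite fun n hn m hm' => ?_
    have e1 := h2 _ _ hn
    have e2 := h2 _ _ hm'
    rw [← ha] at e1 e2
    have e3 := hm.lt_iff_lt.1 (e1.1.trans_lt e2.2)
    have e4 := hm.lt_iff_lt.1 (e2.1.trans_lt e1.2)
    omega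
  obtain ⟨n, hn⟩ := this.exists_notMem
  refine ⟨i (a n), fun ξ h => ⟨(h2 _ _ h).2.trans (hα _ ⟨n + 1, ha n⟩), fun hξ => ?_⟩⟩
  exact hn (mem_biUnion hξ h)

theorem main : ∃ N : Seminorm ℝ E, (∀ x, ‖x‖ ≤ N x ∧ N x ≤ 3 * ‖x‖) ∧
    ∀ (I : Type u) (x : I → E) (f : I → E →L[ℝ] ℝ), (∀ i, f i (x i) = 1) →
      (∀ i j, i ≠ j → f i (x j) = 0) → (∀ i, N (x i) = 1) → (∀ i y, |f i y| ≤ N y) →
      ∃ y, y ≠ 0 ∧ ∀ i, f i y = 0 := by
  classical
  obtain ⟨e, he, hco⟩ := cohInj
  obtain ⟨s, hsi, hs⟩ := exS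
  let g := gl e s hs
  have hg : ∀ β (x : E), g β x = x β + F (Y e β x) (s β) := fun _ _ => rfl
  have hg1 : ∀ β (x : E) c, (∀ ξ, |x ξ| ≤ c) → |g β x - x β| ≤ c / 4 := fun β x c h => by
    rw [hg, add_sub_cancel_left]; exact F_bd (Y_le h) (hs β)
  have hg2 : ∀ β (x : E), |g β x| ≤ 2 * ‖x‖ := fun β x => by
    have a1 := abs_le.1 (hg1 β x _ (co_le x))
    have a2 := abs_le.1 (co_le x β)
    rw [abs_le]; constructor <;> linarith [norm_nonneg x]
  let p : W1 → Seminorm ℝ E := fun β => (normSeminorm ℝ ℝ).comp (g β)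
  have hB : BddAbove (range p) :=
    Seminorm.bddAbove_range_iff.2 fun x => ⟨2 * ‖x‖, by rintro _ ⟨β, rfl⟩; exact hg2 β x⟩
  let S : Seminorm ℝ E := ⨆ β, p β
  have hS1 : ∀ x β, |g β x| ≤ S x := fun x β => by
    rw [Seminorm.iSup_apply hB]
    exact le_ciSup (f := fun β => p β x) ⟨2 * ‖x‖, by rintro _ ⟨β, rfl⟩; exact hg2 β x⟩ β
  have hS2 : ∀ x c, (∀ β, |g β x| ≤ c) → S x ≤ c := fun x c h => by
    rw [Seminorm.iSup_apply hB]; exact ciSup_le h
  refine ⟨normSeminorm ℝ E + S, fun x => ⟨?_, ?_⟩, fun I x f h1 h2 h3 h4 => ?_⟩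
  · simp
  · have := hS2 x _ fun β => hg2 β x
    simp only [Seminorm.add_apply, coe_normSeminorm]
    linarith
  simp only [Seminorm.add_apply, coe_normSeminorm] at h3 h4
  by_contra hcon
  push Not at hcon
  have hx1 : ∀ i, ‖x i‖ ≤ 1 := fun i => by linarith [h3 i, apply_nonneg S (x i)]
  have hx0 : ∀ i, ∃ ξ, x i ξ ≠ 0 := fun i => by
    by_contra hc
    push Not at hc
    have : x i = 0 := lp.ext (funext hc)
    simpa [this] using h1 i
  have av := avoid x f h2 hx1 fun y hy => by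
    by_contra h
    obtain ⟨i, hi⟩ := hcon y h
    exact hi (hy i)
  obtain ⟨α, hα⟩ := lower x av
  have hR := fun D : {D : Set W1 // D.Finite ∧ D ⊆ Iio α} =>
    core (ι := {i // ∀ ξ, x i ξ ≠ 0 → ξ < α ∧ ξ ∉ D.1}) (fun i => Y e α (x i))
      (fun i => Y_le fun ξ => (co_le _ _).trans (hx1 _)) fun N => by
        have hf : {ξ | ξ < α ∧ e α ξ < N}.Finite :=
          Set.Finite.of_finite_image ((finite_lt_nat N).subset (by
            rintro _ ⟨ξ, h, rfl⟩; exact h.2)) ((he α).mono fun ξ h => h.1)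
        obtain ⟨i, hi⟩ := hα _ (D.2.1.union hf)
        refine ⟨⟨i, fun ξ h => ⟨(hi ξ h).1, fun h' => (hi ξ h).2 (Or.inl h')⟩⟩, fun n hn => ?_, ?_⟩
        · by_contra hc
          obtain ⟨ξ, a, rfl, c⟩ := Y_ne hc
          exact (hi ξ c).2 (Or.inr ⟨a, hn⟩)
        · obtain ⟨ξ, h⟩ := hx0 i
          exact ⟨e α ξ, by simpa only [Y_eq he _ (hi ξ h).1] using h⟩
  have : Countable {D : Set W1 // D.Finite ∧ D ⊆ Iio α} :=
    (countable_setOf_finite_subset (Iio_countable α)).to_subtype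
  obtain ⟨j, hj⟩ := av _ ((Iio_countable α).union ((countable_iUnion hR).preimage hsi))
  let σ := ⨆ β, |x j β|
  have hσ : ∀ β, |x j β| ≤ σ :=
    le_ciSup (f := fun β => |x j β|) ⟨‖x j‖, by rintro _ ⟨β, rfl⟩; exact co_le _ _⟩
  have hσ0 : 0 < σ := by
    obtain ⟨ξ, h⟩ := hx0 j
    exact (abs_pos.2 h).trans_le (hσ ξ)
  have hσS : σ ≤ S (x j) + σ / 4 := ciSup_le fun β => by
    have a1 := abs_le.1 (hg1 β _ _ hσ)
    have a2 := abs_le.1 (hS1 (x j) β)
    rw [abs_le]; constructor <;> linarith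
  have hA := big_fin (x j) (show 0 < σ / 4 by positivity)
  let A := hA.toFinset
  have hA1 : ∀ β : A, x j β ≠ 0 := fun β h => by
    have : σ / 4 ≤ |x j β| := hA.mem_toFinset.1 β.2
    rw [h, abs_zero] at this
    linarith
  have hA2 : ∀ β : A, α ≤ β := fun β => not_lt.1 fun l => hA1 β (hj _ (Or.inl l))
  let G : E →ₗ[ℝ] (A → ℝ) := LinearMap.pi fun β => g β
  let V := Submodule.span ℝ {v : E | ∃ i, (∀ ξ, x i ξ ≠ 0 → ξ < α) ∧ v = x i}
  rcases (le_top (a := V.map G)).lt_or_eq with hV | hV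
  · obtain ⟨l, hl0, hl⟩ := Submodule.exists_le_ker_of_lt_top _ hV
    let a : A → ℝ := fun β => l fun k => if β = k then 1 else 0
    have hla : ∀ v, l v = ∑ β, v β * a β := fun v => LinearMap.pi_apply_eq_sum_univ l v
    have hne : (Finset.univ.filter fun β => a β ≠ 0).Nonempty := by
      by_contra hc
      refine hl0 (LinearMap.ext fun v => ?_)
      rw [hla]
      refine Finset.sum_eq_zero fun β _ => ?_
      by_contra h
      exact hc ⟨β, Finset.mem_filter.2 ⟨Finset.mem_univ _, right_ne_zero_of_mul h⟩⟩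
    obtain ⟨b, hb, hbm⟩ := Finset.exists_max_image _ (fun β : A => s β) hne
    have hb0 : a b ≠ 0 := (Finset.mem_filter.1 hb).2
    refine hA1 b (hj _ (Or.inr (mem_iUnion.2 ⟨⟨⋃ β : A, {ξ | ξ < α ∧ e α ξ ≠ e β ξ},
      finite_iUnion fun β => hco _ _ (hA2 β), iUnion_subset fun β ξ h => h.1⟩,
      by linarith [hs b], A, inferInstance, fun k => if k = b then 0 else a k / a b,
      fun k => if a k ≠ 0 ∧ k ≠ b then s k else s b - 1, fun k => ?_, fun i => ?_⟩)))
    · beta_reduce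
      split_ifs with h
      · exact lt_of_le_of_ne (hbm k (Finset.mem_filter.2 ⟨Finset.mem_univ _, h.1⟩))
          fun h' => h.2 (Subtype.ext (hsi h'))
      · linarith
    · have e1 : l (G (x i)) = 0 :=
        hl ⟨x i, Submodule.subset_span ⟨i, fun ξ h => (i.2 ξ h).1, rfl⟩, rfl⟩
      have e2 : ∀ β : A, G (x i) β = F (Y e α (x i)) (s β) := fun β => by
        have z : x i β = 0 := by
          by_contra h
          exact absurd (i.2 _ h).1 (not_lt.2 (hA2 β))
        show g β (x i) = _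
        rw [hg, z, zero_add, Y_same he (hA2 β) fun ξ h => ⟨(i.2 ξ h).1, ?_⟩]
        by_contra h'
        exact (i.2 ξ h).2 (mem_iUnion.2 ⟨β, (i.2 ξ h).1, h'⟩)
      rw [hla] at e1
      simp only [e2] at e1
      refine mul_left_cancel₀ hb0 (Eq.trans ?_ (e1.trans (mul_zero _).symm))
      beta_reduce
      rw [mul_add, Finset.mul_sum, ← Finset.add_sum_erase _ _ (Finset.mem_univ b),
        ← Finset.add_sum_erase _ _ (Finset.mem_univ b), if_pos rfl, zero_mul, mul_zero, zero_add,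
        mul_comm]
      congr 1
      refine Finset.sum_congr rfl fun k hk => ?_
      have hk := (Finset.mem_erase.1 hk).1
      by_cases h : a k = 0
      · simp [h, hk]
      · rw [if_neg hk, if_pos ⟨h, hk⟩]
        field_simp
  · obtain ⟨h, hh, hG⟩ : -G (x j) ∈ V.map G := by rw [hV]; trivial
    have hp : f j h = 0 ∧ ⟪x j, h⟫_ℝ = 0 := by
      clear hG
      induction hh using Submodule.span_induction with
      | mem v hv =>
        obtain ⟨i, hi, rfl⟩ := hv
        refine ⟨h2 _ _ ?_, ?_⟩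
        · rintro rfl
          obtain ⟨ξ, h⟩ := hx0 j
          exact h (hj _ (Or.inl (hi ξ h)))
        · rw [lp.inner_eq_tsum]
          refine (tsum_congr fun ξ => ?_).trans tsum_zero
          by_cases h : x i ξ = 0
          · simp [h]
          · simp [hj _ (Or.inl (hi ξ h))]
      | zero => simp
      | add a b _ _ ha hb => simp [inner_add_right, ha, hb]
      | smul c a _ ha => simp [real_inner_smul_right, ha]
    have hx : 0 < ‖x j‖ := by
      obtain ⟨ξ, h⟩ := hx0 j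
      exact (abs_pos.2 h).trans_le (co_le _ _)
    set T := S (x j)
    have hT : 0 < T := by linarith
    obtain ⟨τ, τ0, τ1, τ2, τ3⟩ : ∃ τ : ℝ, 0 < τ ∧ τ < 1 ∧ τ * (2 * ‖h‖ + T) < σ / 4 ∧
        τ * ‖h‖ ^ 2 < T * ‖x j‖ := by
      have t : ∀ c d : ℝ, 0 < d → ∀ᶠ τ in 𝓝[>] (0 : ℝ), τ * c < d := fun c d hd =>
        nhdsWithin_le_nhds ((by fun_prop : Continuous fun τ : ℝ => τ * c).continuousAt.eventually_lt
          continuousAt_const (by simpa using hd))
      obtain ⟨τ, a0, a1, a2, a3⟩ := ((eventually_mem_nhdsWithin (a := (0 : ℝ)) (s := Ioi 0)).and ((t 1 1 one_pos).and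
        ((t _ _ (show 0 < σ / 4 by positivity)).and (t _ _ (mul_pos hT hx))))).exists
      exact ⟨τ, a0, by linarith, a2, a3⟩
    have k1 : S (x j + τ • h) ≤ (1 - τ) * T := hS2 _ _ fun β => by
      rw [map_add, map_smul, smul_eq_mul]
      by_cases hβ : β ∈ A
      · have : g β h = -g β (x j) := congrFun hG ⟨β, hβ⟩
        rw [this, show g β (x j) + τ * -g β (x j) = (1 - τ) * g β (x j) by ring, abs_mul,
          abs_of_pos (by linarith)]
        exact mul_le_mul_of_nonneg_left (hS1 _ _) (by linarith)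
      · have a0 : |x j β| < σ / 4 := not_le.1 fun l => hβ (hA.mem_toFinset.2 l)
        have a1 := abs_le.1 (hg1 β _ _ hσ)
        have a2 := abs_le.1 (hg2 β h)
        rw [abs_lt] at a0
        rw [abs_le]; constructor <;> nlinarith
    have k2 : ‖x j + τ • h‖ < ‖x j‖ + τ * T := by
      refine lt_of_pow_lt_pow_left₀ 2 (by positivity) ?_
      rw [norm_add_sq_real, real_inner_smul_right, hp.2, norm_smul, Real.norm_eq_abs,
        abs_of_pos τ0]
      nlinarith [mul_pos τ0 (mul_pos hT hx), mul_pos τ0 hT]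
    have k3 := h4 j (x j + τ • h)
    rw [map_add, map_smul, hp.1, h1, smul_zero, add_zero, abs_one] at k3
    linarith [h3 j]

end Pool.Agent.H15.Au
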