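import Mathlib

open Set Filter

namespace Pool.Agent.H15.BQ

lemma dep_choice (P : ℕ → (ℕ → ℕ) → Prop)
    (hc : ∀ m u u', (∀ j < m, u' j = u j) → P m u → P m u') (h0 : P 0 id)
    (hs : ∀ m u, P m u → ∃ n, (∀ j < m, u j < n) ∧ P (m + 1) (Function.update u m n)) :
    ∃ H : ℕ → ℕ, StrictMono H ∧ ∀ m, P m H := by
  classical
  choose! nx hnx1 hnx2 using hs
  let u : ℕ → ℕ → ℕ := fun m => Nat.rec id (fun m v => Function.update v m (nx m v)) m
  have hu : ∀ m, u (m + 1) = Function.update (u m) m (nx m (u m)) := fun m => rfl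
  have hP : ∀ m, P m (u m) := fun m => by
    induction m with
    | zero => exact h0
    | succ m ih => rw [hu]; exact hnx2 m _ ih
  have hst : ∀ m j, j < m → u m j = u (j + 1) j := fun m => by
    induction m with
    | zero => intro j hj; omega
    | succ m ih =>
      intro j hj
      rcases Nat.lt_succ_iff_lt_or_eq.1 hj with h | h
      · rw [hu, Function.update_of_ne h.ne, ih j h]
      · rw [h]
  refine ⟨fun j => u (j + 1) j, strictMono_nat_of_lt_succ fun j => ?_,
    fun m => hc m _ _ (fun j hj => (hst m j hj).symm) (hP m)⟩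
  show u (j + 1) j < u (j + 1 + 1) (j + 1)
  rw [hu (j + 1), Function.update_self]
  exact hnx1 _ _ (hP _) j (Nat.lt_succ_self j)

section NW

variable {C : Type} (c : (ℕ → ℕ) → C)

inductive Frc (i : C) : ℕ → (ℕ → ℕ) → Prop
  | base (l : ℕ) (u : ℕ → ℕ) :
      (∀ N, StrictMono N → (∀ j < l, N j = u j) → c N = i) → Frc i l u
  | step (l : ℕ) (u : ℕ → ℕ) (S : Set ℕ) : S ∈ hyperfilter ℕ →
      (∀ n ∈ S, Frc i (l + 1) (Function.update u l n)) → Frc i l u

lemma upd_agree {l : ℕ} {u u' : ℕ → ℕ} (h : ∀ j < l, u' j = u j) (n : ℕ) :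
    ∀ j < l + 1, Function.update u' l n j = Function.update u l n j := fun j hj => by
  rcases Nat.lt_succ_iff_lt_or_eq.1 hj with h1 | h1
  · rw [Function.update_of_ne h1.ne, Function.update_of_ne h1.ne, h j h1]
  · rw [h1, Function.update_self, Function.update_self]

variable {c}

lemma Frc.congr {i : C} {l : ℕ} {u : ℕ → ℕ} (h : Frc c i l u) :
    ∀ u', (∀ j < l, u' j = u j) → Frc c i l u' := by
  induction h with
  | base l u h =>
    exact fun u' hu => Frc.base l u' fun N hN hN' => h N hN fun j hj =>
      (hN' j hj).trans (hu j hj)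
  | step l u S hS _ ih =>
    exact fun u' hu => Frc.step l u' S hS fun n hn => ih n hn _ (upd_agree hu n)

lemma Frc.next {i : C} {l : ℕ} {u : ℕ → ℕ} (h : Frc c i l u) :
    {n | Frc c i (l + 1) (Function.update u l n)} ∈ hyperfilter ℕ := by
  cases h with
  | base _ _ h =>
    refine mem_of_superset univ_mem fun n _ => Frc.base _ _ fun N hN hN' => h N hN fun j hj => ?_
    rw [hN' j (by omega), Function.update_of_ne hj.ne]
  | step _ _ S hS h => exact mem_of_superset hS h

lemma big (m : ℕ) (u : ℕ → ℕ) : {n | ∀ j < m, u j < n} ∈ hyperfilter ℕ := by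
  apply hyperfilter_le_cofinite
  rw [Nat.cofinite_eq_atTop]
  filter_upwards [eventually_gt_atTop ((Finset.range m).sup u)] with n hn j hj
  exact lt_of_le_of_lt (Finset.le_sup (f := u) (Finset.mem_range.2 hj)) hn

lemma Frc.eq {i : C} {l : ℕ} {u : ℕ → ℕ} (h : Frc c i l u) :
    ∀ N, StrictMono N → (∀ j < l, N j = u j) →
      (∀ N', StrictMono N' → (∀ j < l, N' j = N j) → c N' = c N) → c N = i := by
  induction h with
  | base l u h => exact fun N hN hN' _ => h N hN hN'
  | step l u S hS _ ih =>
    intro N hN hNu hd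
    obtain ⟨n, hn1, hn2⟩ := (hyperfilter ℕ).nonempty_of_mem (inter_mem hS (big l N))
    let N' : ℕ → ℕ := fun j => if j < l then N j else n + (j - l)
    have hN' : StrictMono N' := fun a b hab => by
      simp only [N']
      split_ifs with h1 h2 h2
      · exact hN hab
      · have := hn2 a h1; omega
      · omega
      · omega
    have ha : ∀ j < l, N' j = N j := fun j hj => if_pos hj
    rw [← hd N' hN' ha]
    refine ih n hn1 N' hN' (fun j hj => ?_) fun N'' h1 h2 => ?_
    · rcases Nat.lt_succ_iff_lt_or_eq.1 hj with h1 | h1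
      · rw [Function.update_of_ne h1.ne, ha j h1, hNu j h1]
      · rw [h1, Function.update_self]; simp [N']
    · rw [hd N' hN' ha]
      exact hd N'' h1 fun j hj => by rw [h2 j (by omega), ha j hj]

theorem nw [Finite C]
    (hc : ∀ N, StrictMono N → ∃ l, ∀ N', StrictMono N' → (∀ j < l, N' j = N j) → c N' = c N) :
    ∃ (H : ℕ → ℕ) (i : C), StrictMono H ∧ ∀ a, c (fun j => H (j + a)) = i := by
  have h1 : ∃ i, Frc c i 0 id := by
    by_contra hcon
    push Not at hcon
    obtain ⟨H, hH, hP⟩ := dep_choice (fun m u => ∀ i, ¬ Frc c i m u)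
      (fun m u u' h hu i hi => hu i (hi.congr u fun j hj => (h j hj).symm)) hcon (by
        intro m u hu
        have : ∀ i, {n | ¬ Frc c i (m + 1) (Function.update u m n)} ∈ hyperfilter ℕ := fun i => by
          have := (Ultrafilter.mem_or_compl_mem (hyperfilter ℕ)
            {n | Frc c i (m + 1) (Function.update u m n)}).resolve_left
            fun h => hu i (Frc.step _ _ _ h fun n hn => hn)
          exact this
        obtain ⟨n, hn1, hn2⟩ := (hyperfilter ℕ).nonempty_of_mem
          (inter_mem (big m u) ((iInter_mem (f := (hyperfilter ℕ : Filter ℕ))).2 this))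
        exact ⟨n, hn1, fun i => mem_iInter.1 hn2 i⟩)
    obtain ⟨l, hl⟩ := hc H hH
    exact hP l (c H) (Frc.base _ _ hl)
  obtain ⟨i, hi⟩ := h1
  obtain ⟨H, hH, hP⟩ := dep_choice (fun m u => ∀ a ≤ m, Frc c i (m - a) fun j => u (j + a))
    (fun m u u' h hu a ha => (hu a ha).congr _ fun j hj => h _ (by omega))
    (fun a ha => by
      rw [Nat.zero_sub]
      exact hi.congr _ fun j hj => by omega) (by
      intro m u hu
      have : ∀ a ∈ Iic m, {n | Frc c i (m - a + 1)
          (Function.update (fun j => u (j + a)) (m - a) n)} ∈ hyperfilter ℕ :=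
        fun a ha => (hu a ha).next
      obtain ⟨n, hn1, hn2⟩ := (hyperfilter ℕ).nonempty_of_mem
        (inter_mem (big m u) ((biInter_mem (f := (hyperfilter ℕ : Filter ℕ))
          (finite_Iic m)).2 this))
      refine ⟨n, hn1, fun a ha => ?_⟩
      rcases Nat.lt_succ_iff_lt_or_eq.1 (Nat.lt_succ_of_le ha) with h | h
      · have h2 := mem_iInter₂.1 hn2 a (show a ∈ Iic m from Nat.le_of_lt_succ h)
        rw [show m + 1 - a = m - a + 1 by omega]
        refine Frc.congr h2 _ fun j hj => ?_
        by_cases hja : j = m - a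
        · rw [hja, Function.update_self, show m - a + a = m by omega, Function.update_self]
        · rw [Function.update_of_ne hja, Function.update_of_ne (by omega)]
      · rw [h, Nat.sub_self]
        exact hi.congr _ fun j hj => by omega)
  refine ⟨H, i, hH, fun a => ?_⟩
  have hm : StrictMono fun j => H (j + a) := fun x y h => hH (by omega)
  obtain ⟨l, hl⟩ := hc _ hm
  have := hP (l + a) a (by omega)
  rw [Nat.add_sub_cancel] at this
  exact this.eq _ hm (fun _ _ => rfl) hl

end NW

end Pool.Agent.H15.BQ
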