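import Pool.Agent.H15.BQ1

open Set Filter

namespace Pool.Agent.H15.BQ

universe u

variable {I : Type u} [LinearOrder I]

def Emb (r : I → I → Prop) (A B : Set I) : Prop :=
  ∃ h : I → I, MapsTo h A B ∧ StrictMonoOn h A ∧ ∀ x ∈ A, r x (h x)

def Lt (A B : Set I) : Prop := ∀ x ∈ A, ∀ y ∈ B, x < y

variable {r : I → I → Prop}

lemma Emb.refl (hr : ∀ x, r x x) (A : Set I) : Emb r A A :=
  ⟨id, mapsTo_id A, strictMonoOn_id, fun x _ => hr x⟩

lemma Emb.trans (ht : ∀ x y z, r x y → r y z → r x z) {A B D : Set I} (h1 : Emb r A B)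
    (h2 : Emb r B D) : Emb r A D := by
  obtain ⟨f, f1, f2, f3⟩ := h1
  obtain ⟨g, g1, g2, g3⟩ := h2
  exact ⟨g ∘ f, g1.comp f1, g2.comp f2 f1, fun x hx => ht _ _ _ (f3 x hx) (g3 _ (f1 hx))⟩

lemma Emb.mono {A A' B B' : Set I} (h : Emb r A B) (hA : A' ⊆ A) (hB : B ⊆ B') :
    Emb r A' B' := by
  obtain ⟨f, f1, f2, f3⟩ := h
  exact ⟨f, fun x hx => hB (f1 (hA hx)), f2.mono hA, fun x hx => f3 x (hA hx)⟩

lemma glue {x y : ℕ → Set I} (hx : ∀ n m, n < m → Lt (x n) (x m))
    (hy : ∀ n m, n < m → Lt (y n) (y m)) (h : ∀ n, Emb r (x n) (y n)) :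
    Emb r (⋃ n, x n) (⋃ n, y n) := by
  classical
  choose f f1 f2 f3 using h
  have : ∀ a ∈ ⋃ n, x n, ∃ n, a ∈ x n := fun a ha => mem_iUnion.1 ha
  choose! k hk using this
  refine ⟨fun a => f (k a) a, fun a ha => mem_iUnion.2 ⟨_, f1 _ (hk a ha)⟩, ?_,
    fun a ha => f3 _ _ (hk a ha)⟩
  intro a ha b hb hab
  rcases lt_trichotomy (k a) (k b) with h | h | h
  · exact hy _ _ h _ (f1 _ (hk a ha)) _ (f1 _ (hk b hb))
  · show f (k a) a < f (k b) b
    rw [← h]
    exact f2 _ (hk a ha) (h ▸ hk b hb) hab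
  · exact absurd (hx _ _ h _ (hk b hb) _ (hk a ha)) (not_lt.2 hab.le)

lemma glue2 {A A' B B' : Set I} (hA : Lt A A') (hB : Lt B B') (h : Emb r A B)
    (h' : Emb r A' B') : Emb r (A ∪ A') (B ∪ B') := by
  classical
  obtain ⟨f, f1, f2, f3⟩ := h
  obtain ⟨g, g1, g2, g3⟩ := h'
  refine ⟨fun a => if a ∈ A then f a else g a, fun a ha => ?_, fun a ha b hb hab => ?_,
    fun a ha => ?_⟩
  · by_cases h : a ∈ A
    · simp only [if_pos h]; exact Or.inl (f1 h)
    · simp only [if_neg h]; exact Or.inr (g1 (ha.resolve_left h))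
  · by_cases h1 : a ∈ A <;> by_cases h2 : b ∈ A
    · simp only [if_pos h1, if_pos h2]; exact f2 h1 h2 hab
    · simp only [if_pos h1, if_neg h2]; exact hB _ (f1 h1) _ (g1 (hb.resolve_left h2))
    · exact absurd (hA _ h2 _ (ha.resolve_left h1)) (not_lt.2 hab.le)
    · simp only [if_neg h1, if_neg h2]; exact g2 (ha.resolve_left h1) (hb.resolve_left h2) hab
  · by_cases h : a ∈ A
    · simp only [if_pos h]; exact f3 a h
    · simp only [if_neg h]; exact g3 a (ha.resolve_left h)

inductive Tr (I : Type u) : Type u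
  | leaf (x : I) : Tr I
  | node (c : ℕ → Tr I) : Tr I

def Tr.set {I : Type u} : Tr I → Set I
  | leaf x => {x}
  | node c => ⋃ n, (c n).set

def Tr.ok (r : I → I → Prop) : Tr I → Prop
  | leaf _ => True
  | node c => (∀ n, (c n).ok r) ∧ (∀ n m, n < m → Lt (c n).set (c m).set) ∧
      ∀ n N, ∃ m, N ≤ m ∧ Emb r (c n).set (c m).set

lemma node_emb (ht : ∀ x y z, r x y → r y z → r x z) {x y : ℕ → Tr I}
    (hx : (Tr.node x).ok r) (hy : (Tr.node y).ok r)
    (h : ∀ n, ∃ m, Emb r (x n).set (y m).set) : Emb r (Tr.node x).set (Tr.node y).set := by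
  have h1 : ∀ n N, ∃ m, N ≤ m ∧ Emb r (x n).set (y m).set := fun n N => by
    obtain ⟨m, hm⟩ := h n
    obtain ⟨m', hm1, hm2⟩ := hy.2.2 m N
    exact ⟨m', hm1, hm.trans ht hm2⟩
  choose ch ch1 ch2 using h1
  let m : ℕ → ℕ := fun n => Nat.rec (ch 0 0) (fun n k => ch (n + 1) (k + 1)) n
  have hm : StrictMono m := strictMono_nat_of_lt_succ fun n => ch1 (n + 1) (m n + 1)
  have h2 : ∀ n, Emb r (x n).set (y (m n)).set := fun n => by
    cases n with
    | zero => exact ch2 0 0
    | succ n => exact ch2 (n + 1) (m n + 1)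
  refine (glue (y := fun n => (y (m n)).set) hx.2.1 (fun a b hab => hy.2.1 _ _ (hm hab)) h2).mono
    Subset.rfl ?_
  exact iUnion_subset fun n => subset_iUnion (fun k => (y k).set) (m n)

open Classical in
noncomputable def mv (r : I → I → Prop) : Option (Tr I) → Option (Tr I) → Option (Tr I)
  | some (Tr.node x), some (Tr.node y) =>
      some (x (if h : ∃ n, ∀ m, ¬ Emb r (x n).set (y m).set then h.choose else 0))
  | some (Tr.node _), some (Tr.leaf _) => none
  | some (Tr.node x), none => some (x 0)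
  | some (Tr.leaf a), _ => some (Tr.leaf a)
  | none, _ => none

def Rl (r : I → I → Prop) : Option (Tr I) → Option (Tr I) → Prop
  | some a, some b => ¬ Emb r a.set b.set
  | some _, none => True
  | none, some (Tr.leaf _) => True
  | none, some (Tr.node _) => False
  | none, none => False

def okO (r : I → I → Prop) : Option (Tr I) → Prop
  | some a => a.ok r
  | none => True

def Term : Option (Tr I) → Prop
  | some (Tr.node _) => False
  | _ => True

lemma mv_node (y : ℕ → Tr I) (d : Option (Tr I)) :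
    mv r (some (Tr.node y)) d = none ∨ ∃ m, mv r (some (Tr.node y)) d = some (y m) := by
  rcases d with _ | (_ | _)
  · exact Or.inr ⟨0, rfl⟩
  · exact Or.inl rfl
  · exact Or.inr ⟨_, rfl⟩

lemma mv_term {a : Option (Tr I)} (ha : Term a) (d : Option (Tr I)) : mv r a d = a := by
  rcases a with _ | (_ | _)
  · rfl
  · rfl
  · exact ha.elim

lemma mv_ok {a : Option (Tr I)} (ha : okO r a) (d : Option (Tr I)) : okO r (mv r a d) := by
  rcases a with _ | (_ | y)
  · trivial
  · trivial
  · rcases mv_node (r := r) y d with h | ⟨m, h⟩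
    · rw [h]; trivial
    · rw [h]; exact ha.1 m

lemma mv_Rl (ht : ∀ x y z, r x y → r y z → r x z) {a b : Option (Tr I)} (ha : okO r a)
    (hb : okO r b) (h : Rl r a b) (d : Option (Tr I)) : Rl r (mv r a b) (mv r b d) := by
  rcases a with _ | (a | x) <;> rcases b with _ | (b | y)
  · exact h.elim
  · trivial
  · exact h.elim
  · trivial
  · exact h
  · rcases mv_node (r := r) y d with h1 | ⟨m, h1⟩
    · rw [h1]; trivial
    · rw [h1]
      exact fun h2 => h (Emb.mono h2 Subset.rfl (subset_iUnion (fun k => (y k).set) m))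
  · trivial
  · trivial
  · have h2 : ∃ n, ∀ m, ¬ Emb r (x n).set (y m).set := by
      by_contra hcon
      push Not at hcon
      exact h (node_emb ht ha hb hcon)
    have h3 : mv r (some (Tr.node x)) (some (Tr.node y)) = some (x h2.choose) := by
      simp only [mv, dif_pos h2]
    rw [h3]
    rcases mv_node (r := r) y d with h1 | ⟨m, h1⟩
    · rw [h1]; trivial
    · rw [h1]; exact h2.choose_spec m

lemma terminates (t : Tr I) : ∀ s b : ℕ → Option (Tr I), s 0 = some t →
    (∀ k, s (k + 1) = mv r (s k) (b k)) → ∃ k, Term (s k) := by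
  induction t with
  | leaf x => intro s b h0 _; exact ⟨0, by rw [h0]; trivial⟩
  | node y ih =>
    intro s b h0 hs
    have h1 := hs 0
    rw [h0] at h1
    rcases mv_node (r := r) y (b 0) with h | ⟨m, h⟩
    · exact ⟨1, by rw [show s 1 = none from h1.trans h]; trivial⟩
    · obtain ⟨k, hk⟩ := ih m (fun k => s (k + 1)) (fun k => b (k + 1)) (h1.trans h)
        fun k => hs (k + 1)
      exact ⟨k + 1, hk⟩

noncomputable def st (r : I → I → Prop) (X : ℕ → Tr I) : ℕ → (ℕ → ℕ) → Option (Tr I)
  | 0, N => some (X (N 0))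
  | k + 1, N => mv r (st r X k N) (st r X k fun j => N (j + 1))

lemma st_agree (X : ℕ → Tr I) (k : ℕ) : ∀ N N' : ℕ → ℕ, (∀ j < k + 1, N' j = N j) →
    st r X k N' = st r X k N := by
  induction k with
  | zero => intro N N' h; simp only [st, h 0 Nat.one_pos]
  | succ k ih =>
    intro N N' h
    simp only [st]
    rw [ih N N' fun j hj => h j (by omega),
      ih (fun j => N (j + 1)) (fun j => N' (j + 1)) fun j hj => h _ (by omega)]

lemma st_stable (X : ℕ → Tr I) {k : ℕ} {N : ℕ → ℕ} (h : Term (st r X k N)) (d : ℕ) :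
    st r X (k + d) N = st r X k N := by
  induction d with
  | zero => rfl
  | succ d ih =>
    show mv r (st r X (k + d) N) _ = _
    rw [ih]; exact mv_term h _

lemma st_term (X : ℕ → Tr I) (N : ℕ → ℕ) : ∃ k, Term (st r X k N) :=
  terminates (r := r) (X (N 0)) (fun k => st r X k N) (fun k => st r X k fun j => N (j + 1)) rfl
    fun _ => rfl

def psi (φ : I → ℕ → Ordinal.{0}) : Option (Tr I) → ℕ → Ordinal.{0}
  | some (Tr.leaf _), 0 => 0
  | some (Tr.leaf _), 1 => 1
  | some (Tr.leaf x), j + 2 => φ x j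
  | _, 0 => 1
  | _, _ + 1 => 0

theorem tr_wqo (ht : ∀ x y z, r x y → r y z → r x z) (K : ℕ) (φ : I → ℕ → Ordinal.{0})
    (hφ : ∀ x y, (∀ j < K, φ x j ≤ φ y j) → r x y) (X : ℕ → Tr I) (hX : ∀ n, (X n).ok r) :
    ∃ m n, m < n ∧ Emb r (X m).set (X n).set := by
  classical
  by_contra hcon
  push Not at hcon
  have inv : ∀ k N, StrictMono N → okO r (st r X k N) ∧
      Rl r (st r X k N) (st r X k fun j => N (j + 1)) := by
    intro k
    induction k with
    | zero => exact fun N hN => ⟨hX _, hcon _ _ (hN Nat.one_pos)⟩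
    | succ k ih =>
      intro N hN
      have hN' : StrictMono fun j => N (j + 1) := fun a b h => hN (by omega)
      exact ⟨mv_ok (ih N hN).1 _, mv_Rl ht (ih N hN).1 (ih _ hN').1 (ih N hN).2 _⟩
  choose kk hkk using st_term (r := r) X
  let F : (ℕ → ℕ) → Option (Tr I) := fun N => st r X (kk N) N
  have hF : ∀ N k, Term (st r X k N) → F N = st r X k N := fun N k hk => by
    have h1 := st_stable X hk (kk N)
    have h2 := st_stable X (hkk N) k
    rw [add_comm] at h2
    exact h2.symm.trans h1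
  have hFa : ∀ N N' : ℕ → ℕ, (∀ j < kk N + 1, N' j = N j) → F N' = F N := fun N N' h => by
    have h1 := st_agree (r := r) X (kk N) N N' h
    rw [hF N' (kk N) (by rw [h1]; exact hkk N), h1]
  have hR : ∀ N, StrictMono N →
      ∃ j : Fin (K + 2), psi φ (F fun j => N (j + 1)) j < psi φ (F N) j := by
    intro N hN
    have h1 := (inv (kk N + kk fun j => N (j + 1)) N hN).2
    rw [st_stable X (hkk N), add_comm, st_stable X (hkk _)] at h1
    have h2 : Term (F N) := hkk N
    have h3 : Term (F fun j => N (j + 1)) := hkk _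
    change Rl r (F N) (F fun j => N (j + 1)) at h1
    generalize F N = a at *
    generalize (F fun j => N (j + 1)) = b at *
    rcases a with _ | (a | x) <;> rcases b with _ | (b | y)
    · exact h1.elim
    · exact ⟨⟨0, by omega⟩, by simp [psi]⟩
    · exact h3.elim
    · exact ⟨⟨1, by omega⟩, by simp [psi]⟩
    · have : ¬ r a b := fun h => h1 ⟨fun _ => b, fun _ _ => rfl, fun p hp q hq hpq => by
        rw [show p = a from hp, show q = a from hq] at hpq
        exact absurd hpq (lt_irrefl _), fun p hp => by rw [show p = a from hp]; exact h⟩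
      have h4 : ∃ j < K, φ b j < φ a j := by
        by_contra h5
        push Not at h5
        exact this (hφ _ _ h5)
      obtain ⟨j, hj, h4⟩ := h4
      exact ⟨⟨j + 2, by omega⟩, h4⟩
    · exact h3.elim
    · exact h2.elim
    · exact h2.elim
    · exact h2.elim
  let g : Option (Tr I) → Option (Tr I) → Fin (K + 2) := fun a b =>
    if h : ∃ j : Fin (K + 2), psi φ b j < psi φ a j then h.choose else 0
  obtain ⟨H, i, hH, hi⟩ := nw (c := fun N => g (F N) (F fun j => N (j + 1))) (by
    intro N _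
    refine ⟨max (kk N + 1) (kk (fun j => N (j + 1)) + 2), fun N' _ h => ?_⟩
    show g _ _ = g _ _
    rw [hFa N N' fun j hj => h j (lt_max_of_lt_left hj),
      hFa (fun j => N (j + 1)) (fun j => N' (j + 1)) fun j hj =>
        h _ (lt_max_of_lt_right (by omega))])
  have hdec : ∀ a, psi φ (F fun j => H (j + (a + 1))) i < psi φ (F fun j => H (j + a)) i := by
    intro a
    have h1 := hR (fun j => H (j + a)) fun x y h => hH (by omega)
    have h2 := hi a
    simp only [g, dif_pos h1] at h2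
    have h3 := h1.choose_spec
    rw [h2] at h3
    have h4 : (fun j => H (j + (a + 1))) = fun j => H (j + 1 + a) := by
      funext j; congr 1; omega
    rw [h4]; exact h3
  obtain ⟨a, ha⟩ := (wellFounded_lt (α := Ordinal.{0})).has_min
    (range fun a => psi φ (F fun j => H (j + a)) i) (range_nonempty _)
  obtain ⟨⟨b, rfl⟩, hb⟩ := ha
  exact hb _ ⟨b + 1, rfl⟩ (hdec b)

end Pool.Agent.H15.BQ
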