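import Pool.Agent.H15.BQ2

open Set Filter

namespace Pool.Agent.H15.BQ

universe u

variable {I : Type u} [LinearOrder I] {r : I → I → Prop}

def Un (l : List (Tr I)) : Set I := {x | ∃ t ∈ l, x ∈ t.set}

def Gd (r : I → I → Prop) (l : List (Tr I)) : Prop :=
  (∀ t ∈ l, t.ok r) ∧ l.Pairwise fun s t => Lt s.set t.set

def FS (r : I → I → Prop) (A : Set I) : Prop := ∃ l, Gd r l ∧ Un l = A

omit [LinearOrder I] in
lemma Un_append (l l' : List (Tr I)) : Un (l ++ l') = Un l ∪ Un l' := by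
  ext x; simp only [Un, List.mem_append, mem_ofPred_eq, mem_union]
  constructor
  · rintro ⟨t, h | h, hx⟩
    · exact Or.inl ⟨t, h, hx⟩
    · exact Or.inr ⟨t, h, hx⟩
  · rintro (⟨t, h, hx⟩ | ⟨t, h, hx⟩)
    · exact ⟨t, Or.inl h, hx⟩
    · exact ⟨t, Or.inr h, hx⟩

omit [LinearOrder I] in
lemma Un_single (t : Tr I) : Un [t] = t.set := by
  ext x; simp [Un]

omit [LinearOrder I] in
lemma Un_cons (t : Tr I) (l : List (Tr I)) : Un (t :: l) = t.set ∪ Un l := by
  rw [← Un_single, ← Un_append]; rfl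

lemma Gd.append {l l' : List (Tr I)} (h : Gd r l) (h' : Gd r l') (hl : Lt (Un l) (Un l')) :
    Gd r (l ++ l') :=
  ⟨fun t ht => (List.mem_append.1 ht).elim (h.1 t) (h'.1 t),
    List.pairwise_append.2 ⟨h.2, h'.2, fun a ha b hb x hx y hy => hl x ⟨a, ha, hx⟩ y ⟨b, hb, hy⟩⟩⟩

lemma Gd.single {t : Tr I} (h : t.ok r) : Gd r [t] :=
  ⟨fun s hs => by rw [List.mem_singleton.1 hs]; exact h, List.pairwise_singleton _ _⟩

def TW (r : I → I → Prop) : Prop :=
  ∀ X : ℕ → Tr I, (∀ n, (X n).ok r) → ∃ m n, m < n ∧ Emb r (X m).set (X n).set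

lemma fs_omega (hw : TW r) (t : ℕ → Tr I) (h1 : ∀ n, (t n).ok r)
    (h2 : ∀ n m, n < m → Lt (t n).set (t m).set) : FS r (⋃ n, (t n).set) := by
  have h3 : ∃ j0, ∀ j, j0 ≤ j → ∀ N, ∃ m, N ≤ m ∧ Emb r (t j).set (t m).set := by
    by_contra hcon
    push Not at hcon
    choose J hJ M hM using hcon
    let a : ℕ → ℕ := fun k => Nat.rec 0 (fun _ b => max b (M b)) k
    have ha : Monotone a := monotone_nat_of_le_succ fun k => le_max_left _ _
    obtain ⟨m, n, hmn, h⟩ := hw (fun k => t (J (a k))) fun k => h1 _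
    refine hM (a m) (J (a n)) (le_trans ?_ (hJ _)) h
    exact le_trans (le_max_right (a m) _ : M (a m) ≤ a (m + 1)) (ha hmn)
  obtain ⟨j0, hj⟩ := h3
  refine ⟨(List.range j0).map t ++ [Tr.node fun n => t (n + j0)], Gd.append ⟨?_, ?_⟩
    (Gd.single ⟨fun n => h1 _, fun n m h => h2 _ _ (by omega), fun n N => ?_⟩) ?_, ?_⟩
  · intro s hs
    obtain ⟨n, -, rfl⟩ := List.mem_map.1 hs
    exact h1 n
  · rw [List.pairwise_map]
    exact List.pairwise_lt_range.imp fun h => h2 _ _ h
  · obtain ⟨m, hm1, hm2⟩ := hj (n + j0) (by omega) (N + j0)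
    refine ⟨m - j0, by omega, ?_⟩
    show Emb r _ (t (m - j0 + j0)).set
    rw [show m - j0 + j0 = m by omega]; exact hm2
  · rintro x ⟨s, hs, hx⟩ y hy
    obtain ⟨n, hn, rfl⟩ := List.mem_map.1 hs
    rw [Un_single] at hy
    obtain ⟨m, hm⟩ := mem_iUnion.1 hy
    exact h2 n (m + j0) (by have := List.mem_range.1 hn; omega) x hx y hm
  · rw [Un_append, Un_single]
    ext x
    constructor
    · rintro (⟨s, hs, hx⟩ | hx)
      · obtain ⟨n, -, rfl⟩ := List.mem_map.1 hs
        exact mem_iUnion.2 ⟨n, hx⟩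
      · obtain ⟨m, hm⟩ := mem_iUnion.1 hx
        exact mem_iUnion.2 ⟨_, hm⟩
    · intro hx
      obtain ⟨n, hn⟩ := mem_iUnion.1 hx
      by_cases h : n < j0
      · exact Or.inl ⟨_, List.mem_map.2 ⟨n, List.mem_range.2 h, rfl⟩, hn⟩
      · refine Or.inr (mem_iUnion.2 ⟨n - j0, ?_⟩)
        show x ∈ (t (n - j0 + j0)).set
        rw [show n - j0 + j0 = n by omega]; exact hn

lemma fs_star [Countable I] (hw : TW r) (A : Set I)
    (h : ∀ b ∈ A, ∀ A' ⊆ Iio b, FS r A') : FS r A := by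
  rcases A.eq_empty_or_nonempty with rfl | hne
  · exact ⟨[], ⟨by simp, List.Pairwise.nil⟩, by ext x; simp [Un]⟩
  by_cases hmax : ∃ b ∈ A, ∀ a ∈ A, a ≤ b
  · obtain ⟨b, hb, hmax⟩ := hmax
    obtain ⟨l, hl, hlA⟩ := h b hb (A ∩ Iio b) inter_subset_right
    refine ⟨l ++ [Tr.leaf b], hl.append (Gd.single trivial) ?_, ?_⟩
    · rw [hlA, Un_single]
      intro x hx y hy
      rw [show y = b from hy]; exact hx.2
    · rw [Un_append, hlA, Un_single]
      ext x
      constructor
      · rintro (hx | hx)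
        · exact hx.1
        · rw [show x = b from hx]; exact hb
      · intro hx
        rcases (hmax x hx).lt_or_eq with h1 | h1
        · exact Or.inl ⟨hx, h1⟩
        · exact Or.inr h1
  push Not at hmax
  choose! nx hnx1 hnx2 using hmax
  obtain ⟨e, he⟩ := A.to_countable.exists_eq_range hne
  have heA : ∀ n, e n ∈ A := fun n => by rw [he]; exact mem_range_self n
  let b : ℕ → I := fun n => Nat.rec (e 0) (fun n c => nx (max c (e n))) n
  have hb : ∀ n, b (n + 1) = nx (max (b n) (e n)) := fun n => rfl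
  have hmx : ∀ c d, c ∈ A → d ∈ A → max c d ∈ A := fun c d hc hd => by
    rcases max_choice c d with h | h <;> rw [h] <;> assumption
  have hbA : ∀ n, b n ∈ A := fun n => by
    induction n with
    | zero => exact heA 0
    | succ n ih => rw [hb]; exact hnx1 _ (hmx _ _ ih (heA n))
  have hb1 : ∀ n, max (b n) (e n) < b (n + 1) := fun n => by
    rw [hb]; exact hnx2 _ (hmx _ _ (hbA n) (heA n))
  have hb2 : ∀ n, b n < b (n + 1) := fun n => lt_of_le_of_lt (le_max_left _ _) (hb1 n)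
  obtain ⟨l0, hl0, hl0A⟩ := h _ (hbA 0) (A ∩ Iio (b 0)) inter_subset_right
  have : ∀ n, FS r (A ∩ Ici (b n) ∩ Iio (b (n + 1))) := fun n =>
    h _ (hbA (n + 1)) _ inter_subset_right
  choose L hL hLA using this
  let P : ℕ → List (Tr I) := fun n => Nat.rec l0 (fun n l => l ++ L n) n
  have hP : ∀ n, P (n + 1) = P n ++ L n := fun n => rfl
  have hP1 : ∀ n, Gd r (P n) ∧ Un (P n) = A ∩ Iio (b n) ∧ n ≤ (P n).length := fun n => by
    induction n with
    | zero => exact ⟨hl0, hl0A, Nat.zero_le _⟩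
    | succ n ih =>
      rw [hP]
      refine ⟨ih.1.append (hL n) ?_, ?_, ?_⟩
      · rw [ih.2.1, hLA]
        exact fun x hx y hy => lt_of_lt_of_le hx.2 hy.1.2
      · rw [Un_append, ih.2.1, hLA]
        ext x
        constructor
        · rintro (hx | hx)
          · exact ⟨hx.1, lt_trans hx.2 (hb2 n)⟩
          · exact ⟨hx.1.1, hx.2⟩
        · intro hx
          rcases lt_or_ge x (b n) with h1 | h1
          · exact Or.inl ⟨hx.1, h1⟩
          · exact Or.inr ⟨⟨hx.1, h1⟩, hx.2⟩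
      · have h1 : b n ∈ Un (L n) := by rw [hLA]; exact ⟨⟨hbA n, le_refl _⟩, hb2 n⟩
        obtain ⟨t, ht, -⟩ := h1
        have := List.length_pos_of_mem ht
        have := ih.2.2
        rw [List.length_append]; omega
  have hpre : ∀ n m, n ≤ m → P n <+: P m := fun n m hnm => by
    induction hnm with
    | refl => exact List.prefix_refl _
    | step _ ih => rw [hP]; exact ih.trans (List.prefix_append _ _)
  let t : ℕ → Tr I := fun j => (P (j + 1))[j]'(hP1 (j + 1)).2.2
  have ht : ∀ n j (hj : j < (P n).length), t j = (P n)[j] := fun n j hj => by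
    rcases le_total n (j + 1) with h1 | h1
    · exact ((hpre _ _ h1).getElem hj).symm
    · exact (hpre _ _ h1).getElem _
  have hfin := fs_omega hw t (fun j => (hP1 (j + 1)).1.1 _ (List.getElem_mem _)) (by
    intro n m hnm
    have h1 := (hP1 (m + 1)).2.2
    rw [ht (m + 1) n (by omega), ht (m + 1) m (by omega)]
    exact List.pairwise_iff_getElem.1 (hP1 (m + 1)).1.2 n m _ _ hnm)
  have hU : (⋃ n, (t n).set) = A := by
    ext x
    constructor
    · intro hx
      obtain ⟨j, hj⟩ := mem_iUnion.1 hx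
      have : x ∈ Un (P (j + 1)) := ⟨_, List.getElem_mem _, hj⟩
      rw [(hP1 (j + 1)).2.1] at this
      exact this.1
    · intro hx
      have hx' := hx
      rw [he] at hx'
      obtain ⟨n, rfl⟩ := hx'
      have : e n ∈ Un (P (n + 1)) := by
        rw [(hP1 (n + 1)).2.1]; exact ⟨hx, lt_of_le_of_lt (le_max_right _ _) (hb1 n)⟩
      obtain ⟨s, hs, hxs⟩ := this
      obtain ⟨j, hj, rfl⟩ := List.getElem_of_mem hs
      exact mem_iUnion.2 ⟨j, by rw [ht (n + 1) j hj]; exact hxs⟩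
  rwa [hU] at hfin

lemma fs_all [Countable I] [WellFoundedLT I] (hw : TW r) (A : Set I) : FS r A := by
  have : ∀ b : I, ∀ A' ⊆ Iio b, FS r A' := fun b => by
    induction b using WellFoundedLT.induction with
    | ind b ih => exact fun A' hA' => fs_star hw A' fun c hc => ih c (hA' hc)
  exact fs_star hw A fun b _ => this b

lemma emb_of_sub {l l' : List (Tr I)}
    (h : List.SublistForall₂ (fun s t : Tr I => Emb r s.set t.set) l l') :
    Gd r l → Gd r l' → Emb r (Un l) (Un l') := by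
  induction h with
  | nil => exact fun _ _ => ⟨id, fun x hx => by simp [Un] at hx, fun x hx => by simp [Un] at hx,
      fun x hx => by simp [Un] at hx⟩
  | cons h1 _ ih =>
    intro g1 g2
    rw [Un_cons, Un_cons]
    have p1 := List.pairwise_cons.1 g1.2
    have p2 := List.pairwise_cons.1 g2.2
    refine glue2 ?_ ?_ h1 (ih ⟨fun t ht => g1.1 t (List.mem_cons_of_mem _ ht), p1.2⟩
      ⟨fun t ht => g2.1 t (List.mem_cons_of_mem _ ht), p2.2⟩)
    · rintro x hx y ⟨t, ht, hy⟩; exact p1.1 t ht x hx y hy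
    · rintro x hx y ⟨t, ht, hy⟩; exact p2.1 t ht x hx y hy
  | cons_right _ ih =>
    intro g1 g2
    rw [Un_cons]
    exact (ih g1 ⟨fun t ht => g2.1 t (List.mem_cons_of_mem _ ht),
      (List.pairwise_cons.1 g2.2).2⟩).mono Subset.rfl subset_union_right

theorem emb_wqo [Countable I] [WellFoundedLT I] (hr : ∀ x, r x x)
    (ht : ∀ x y z, r x y → r y z → r x z) (K : ℕ) (φ : I → ℕ → Ordinal.{0})
    (hφ : ∀ x y, (∀ j < K, φ x j ≤ φ y j) → r x y) (A : ℕ → Set I) :
    ∃ m n, m < n ∧ Emb r (A m) (A n) := by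
  have hw : TW r := tr_wqo ht K φ hφ
  choose l hl hlA using fun n => fs_all hw (A n)
  have : IsPreorder (Tr I) (fun s t : Tr I => Emb r s.set t.set) :=
    { refl := fun s => Emb.refl hr _
      trans := fun _ _ _ h1 h2 => h1.trans ht h2 }
  have h1 : {t : Tr I | t.ok r}.PartiallyWellOrderedOn fun s t : Tr I => Emb r s.set t.set :=
    partiallyWellOrderedOn_iff_exists_lt.2 hw
  obtain ⟨m, n, hmn, h⟩ :=
    (Set.PartiallyWellOrderedOn.partiallyWellOrderedOn_sublistForall₂ _ h1).exists_lt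
      (f := l) fun n => (hl n).1
  exact ⟨m, n, hmn, by rw [← hlA m, ← hlA n]; exact emb_of_sub h (hl m) (hl n)⟩

end Pool.Agent.H15.BQ
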