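import Mathlib

open Set Cardinal

namespace Pool.Agent.H15.BQ

def lev {T : Type} (g : List T → Set T) (S : Set T) : ℕ → Set T
  | 0 => S
  | n + 1 => lev g S n ∪ ⋃ L ∈ {L : List T | ∀ s ∈ L, s ∈ lev g S n}, g L

def clo {T : Type} (g : List T → Set T) (S : Set T) : Set T := ⋃ n, lev g S n

lemma lev_mono {T : Type} (g : List T → Set T) {S S' : Set T} (h : S ⊆ S') (n : ℕ) :
    lev g S n ⊆ lev g S' n := by
  induction n with
  | zero => exact h
  | succ n ih =>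
    exact union_subset_union ih (biUnion_subset_biUnion_left fun L hL s hs => ih (hL s hs))

lemma clo_closed {T : Type} (g : List T → Set T) (S : Set T) (L : List T)
    (hL : ∀ s ∈ L, s ∈ clo g S) : g L ⊆ clo g S := by
  have hm : Monotone (lev g S) := monotone_nat_of_le_succ fun n => subset_union_left
  have : ∃ n, ∀ s ∈ L, s ∈ lev g S n := by
    induction L with
    | nil => exact ⟨0, by simp⟩
    | cons a L ih =>
      obtain ⟨n, hn⟩ := ih fun s hs => hL s (List.mem_cons_of_mem _ hs)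
      obtain ⟨m, hm'⟩ := mem_iUnion.1 (hL a List.mem_cons_self)
      refine ⟨max n m, fun s hs => ?_⟩
      rcases List.mem_cons.1 hs with rfl | h
      · exact hm (le_max_right _ _) hm'
      · exact hm (le_max_left _ _) (hn s h)
  obtain ⟨n, hn⟩ := this
  exact fun t ht => mem_iUnion.2 ⟨n + 1, Or.inr (mem_biUnion (s := {L : List T | ∀ s ∈ L,
    s ∈ lev g S n}) hn ht)⟩

lemma clo_card {T : Type} (g : List T → Set T) (hg : ∀ L, (g L).Countable) (S : Set T) :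
    #(clo g S) ≤ max ℵ₀ #S := by
  have hμ : ℵ₀ ≤ max ℵ₀ #S := le_max_left _ _
  have h1 : ∀ n, #(lev g S n) ≤ max ℵ₀ #S := fun n => by
    induction n with
    | zero => exact le_max_right _ _
    | succ n ih =>
      refine (mk_union_le _ _).trans (add_le_of_le hμ ih ((mk_biUnion_le _ _).trans ?_))
      have h2 : #{L : List T | ∀ s ∈ L, s ∈ lev g S n} ≤ max ℵ₀ #S := by
        have : {L : List T | ∀ s ∈ L, s ∈ lev g S n} ⊆
            range fun l : List (lev g S n) => l.map Subtype.val := fun L hL => by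
          lift L to List (lev g S n) using hL
          exact mem_range_self _
        exact (mk_le_mk_of_subset this).trans (mk_range_le.trans
          ((mk_list_le_max _).trans (max_le hμ ih)))
      refine mul_le_of_le hμ h2 (ciSup_le' fun L => ?_)
      exact (le_aleph0_iff_set_countable.2 (hg _)).trans hμ
  refine (mk_iUnion_le _).trans (mul_le_of_le hμ (by simp) (ciSup_le' h1))

lemma filt {T : Type} (hT : ℵ₀ < #T) (g : List T → Set T) (hg : ∀ L, (g L).Countable) :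
    ∃ ρ : T → Ordinal.{0}, (∀ α, #{t | ρ t = α} < #T) ∧
      ∀ L, ∀ t ∈ g L, ∀ α, (∀ s ∈ L, ρ s ≤ α) → ρ t ≤ α := by
  obtain ⟨e⟩ := Cardinal.eq.1 (mk_ord_toType #T).symm
  let ix : T → Ordinal.{0} := fun s => Ordinal.typein (α := (#T).ord.ToType) (· < ·) (e s)
  let M : Ordinal.{0} → Set T := fun α => clo g {s | ix s ≤ α}
  have hM : ∀ α β, α ≤ β → M α ⊆ M β := fun α β h =>
    iUnion_mono fun n => lev_mono g (fun s (hs : ix s ≤ α) => hs.trans h) n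
  have hix : ∀ t, t ∈ M (ix t) := fun t => mem_iUnion.2 ⟨0, le_refl (ix t)⟩
  let ρ : T → Ordinal.{0} := fun t => sInf {α | t ∈ M α}
  have hρ : ∀ t α, ρ t ≤ α ↔ t ∈ M α := fun t α =>
    ⟨fun h => hM _ _ h (csInf_mem (s := {α | t ∈ M α}) ⟨_, hix t⟩), fun h => csInf_le' h⟩
  refine ⟨ρ, fun α => ?_, fun L t ht α hL => (hρ _ _).2
    (clo_closed g _ L (fun s hs => (hρ _ _).1 (hL s hs)) ht)⟩
  rcases ({t | ρ t = α} : Set T).eq_empty_or_nonempty with h | ⟨t0, ht0⟩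
  · rw [h]; simpa using aleph0_pos.trans hT
  have h1 : {t | ρ t = α} ⊆ M (ix t0) := fun t ht => (hρ _ _).1 (by
    rw [show ρ t = α from ht, ← show ρ t0 = α from ht0]; exact (hρ _ _).2 (hix t0))
  refine lt_of_le_of_lt ((mk_le_mk_of_subset h1).trans (clo_card g hg _)) (max_lt hT ?_)
  have h2 : {s | ix s ≤ ix t0} ⊆ e ⁻¹' (insert (e t0) (Iio (e t0))) := fun s hs => by
    rw [mem_preimage, Iio_insert]
    exact (Ordinal.typein_le_typein' _).1 hs
  refine lt_of_le_of_lt ((mk_le_mk_of_subset h2).trans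
    ((mk_preimage_of_injective _ _ e.injective).trans mk_insert_le)) ?_
  exact add_lt_of_lt hT.le (mk_Iio_toType_ord_lt _) (one_lt_aleph0.trans hT)

structure WQ : Type 1 where
  X : Type
  le : X → X → Prop
  refl : ∀ x, le x x
  trans : ∀ x y z, le x y → le y z → le x z
  wqo : ∀ g : ℕ → X, ∃ m n, m < n ∧ le (g m) (g n)

def SD (P : WQ) (D : Set P.X) : Prop :=
  (∀ x y, P.le x y → y ∈ D → x ∈ D) ∧ ∀ S ⊆ D, S.Countable → ∃ u ∈ D, ∀ s ∈ S, P.le s u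

def WQ.next (P : WQ) : WQ where
  X := {D : Set P.X // SD P D}
  le D E := D.1 ⊆ E.1
  refl _ := Subset.rfl
  trans _ _ _ := Subset.trans
  wqo D := by
    by_contra hcon
    push Not at hcon
    have h1 : ∀ m n, m < n → ∃ x ∈ (D m).1, x ∉ (D n).1 := fun m n h =>
      not_subset.1 (hcon m n h)
    have h2 : ∀ m, ∃ u ∈ (D m).1, ∀ n, m < n → u ∉ (D n).1 := fun m => by
      choose x hx1 hx2 using h1 m
      obtain ⟨u, hu, hu'⟩ := (D m).2.2 (range fun n : Ioi m => x n.1 n.2)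
        (range_subset_iff.2 fun n => hx1 _ _) (countable_range _)
      exact ⟨u, hu, fun n hn h => hx2 n hn ((D n).2.1 _ _ (hu' _ ⟨⟨n, hn⟩, rfl⟩) h)⟩
    choose u hu1 hu2 using h2
    obtain ⟨m, n, hmn, h⟩ := P.wqo u
    exact hu2 m n hmn ((D n).2.1 _ _ h (hu1 n))

def WQ.sub (P : WQ) (A : Set P.X) : WQ where
  X := A
  le x y := P.le x.1 y.1
  refl x := P.refl x.1
  trans x y z := P.trans x.1 y.1 z.1
  wqo g := P.wqo fun n => (g n).1

def tw (P : WQ) : ℕ → WQ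
  | 0 => P
  | i + 1 => (tw P i).next

def DF (P : WQ) (l : List P.X) : Set P.X := {x | ∀ a ∈ l, ¬ P.le a x}

lemma basis (P : WQ) (U : Set P.X) :
    ∃ l : List P.X, (∀ a ∈ l, a ∈ U) ∧ ∀ y ∈ U, ∃ a ∈ l, P.le a y := by
  by_contra hcon
  push Not at hcon
  choose ch hch1 hch2 using hcon
  let L : ℕ → {l : List P.X // ∀ a ∈ l, a ∈ U} := fun n => Nat.rec ⟨[], by simp⟩
    (fun _ l => ⟨ch l.1 l.2 :: l.1, fun a ha =>
      (List.mem_cons.1 ha).elim (fun h => h ▸ hch1 _ _) (l.2 a)⟩) n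
  have hL : ∀ n, (L (n + 1)).1 = ch (L n).1 (L n).2 :: (L n).1 := fun n => rfl
  have hm : ∀ m n, m < n → ch (L m).1 (L m).2 ∈ (L n).1 := fun m n h => by
    induction h with
    | refl => rw [hL]; exact List.mem_cons_self
    | step _ ih => rw [hL]; exact List.mem_cons_of_mem _ ih
  obtain ⟨m, n, hmn, h⟩ := P.wqo fun n => ch (L n).1 (L n).2
  exact hch2 _ _ _ (hm m n hmn) h

lemma next_card (P : WQ) : #P.next.X ≤ max ℵ₀ #P.X := by
  refine le_trans ?_ (mk_list_le_max _)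
  choose l hl1 hl2 using fun D : P.next.X => basis P D.1ᶜ
  have h : ∀ D : P.next.X, D.1 = DF P (l D) := fun D => by
    ext x
    constructor
    · exact fun hx a ha h => hl1 D a ha (D.2.1 _ _ h hx)
    · intro hx
      by_contra h
      obtain ⟨a, ha, h'⟩ := hl2 D x h
      exact hx a ha h'
  exact mk_le_of_injective (f := l) fun D E hDE => Subtype.ext (by rw [h D, h E, hDE])

lemma tw_card (P : WQ) (hP : ℵ₀ ≤ #P.X) (i : ℕ) : #(tw P i).X ≤ #P.X := by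
  induction i with
  | zero => exact le_rfl
  | succ i ih => exact (next_card _).trans (max_le hP ih)

def Good (P : WQ) : Prop :=
  ∃ (τ : P.X → ℕ) (Φ : P.X → ℕ → Ordinal.{0}),
    ∀ x y, τ x = τ y → (∀ j < τ x, Φ x j ≤ Φ y j) → P.le x y

lemma wit (P : WQ) (l : List P.X) : ∃ S ⊆ DF P l, S.Countable ∧
    ((∃ u ∈ DF P l, ∀ s ∈ S, P.le s u) → SD P (DF P l)) := by
  by_cases h : SD P (DF P l)
  · exact ⟨∅, empty_subset _, countable_empty, fun _ => h⟩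
  · have h1 : ¬ ∀ S ⊆ DF P l, S.Countable → ∃ u ∈ DF P l, ∀ s ∈ S, P.le s u := fun h2 =>
      h ⟨fun x y hxy hy a ha hax => hy a ha (P.trans _ _ _ hax hxy), h2⟩
    push Not at h1
    obtain ⟨S, hS, hSc, h2⟩ := h1
    refine ⟨S, hS, hSc, fun ⟨u, hu, hu'⟩ => ?_⟩
    obtain ⟨s, hs, hs'⟩ := h2 u hu
    exact (hs' (hu' s hs)).elim

lemma list_bd {T : Type} (ρ : T → Ordinal.{0}) {α : Ordinal.{0}} (hα : 0 < α) (L : List T)
    (hL : ∀ s ∈ L, ρ s < α) : ∃ β < α, ∀ s ∈ L, ρ s ≤ β := by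
  induction L with
  | nil => exact ⟨0, hα, by simp⟩
  | cons a L ih =>
    obtain ⟨β, hβ, h⟩ := ih fun s hs => hL s (List.mem_cons_of_mem _ hs)
    refine ⟨max β (ρ a), max_lt hβ (hL a List.mem_cons_self), fun s hs => ?_⟩
    rcases List.mem_cons.1 hs with rfl | h'
    · exact le_max_right _ _
    · exact (h s h').trans (le_max_left _ _)

lemma ranks (P : WQ) (hP : ℵ₀ < #P.X) : ∃ ρ : (Σ i, (tw P i).X) → Ordinal.{0},
    (∀ α, #{t | ρ t = α} < #P.X) ∧ ∀ i (x : (tw P i).X), 0 < ρ ⟨i, x⟩ →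
      ∃ D : (tw P (i + 1)).X, ρ ⟨i + 1, D⟩ < ρ ⟨i, x⟩ ∧ x ∈ D.1 ∧
        ∀ y, ρ ⟨i, y⟩ < ρ ⟨i, x⟩ → y ∈ D.1 → (tw P i).le y x := by
  have h1 : #(Σ i, (tw P i).X) ≤ #P.X := by
    rw [mk_sigma]
    refine (sum_le_sum _ _ (tw_card P hP.le)).trans ?_
    rw [sum_const']
    exact mul_le_of_le hP.le (by simpa using hP.le) le_rfl
  have h2 : #P.X ≤ #(Σ i, (tw P i).X) :=
    mk_le_of_injective (sigma_mk_injective (β := fun i => (tw P i).X) (i := 0))
  choose S hS1 hS2 hS3 using fun i => wit (tw P i)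
  let g' : ∀ i, List (tw P i).X → Set (Σ i, (tw P i).X) := fun i l =>
    Sigma.mk i '' S i l ∪ {t | ∃ h : SD _ (DF _ l), t = ⟨i + 1, ⟨DF _ l, h⟩⟩}
  have hg' : ∀ i l, (g' i l).Countable := fun i l => by
    refine ((hS2 i l).image _).union (Set.Subsingleton.countable ?_)
    rintro _ ⟨h, rfl⟩ _ ⟨h', rfl⟩
    rfl
  let g : List (Σ i, (tw P i).X) → Set (Σ i, (tw P i).X) := fun L =>
    ⋃ i, ⋃ l ∈ {l : List (tw P i).X | l.map (Sigma.mk i) = L}, g' i l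
  have hg : ∀ L, (g L).Countable := fun L => countable_iUnion fun i =>
    Countable.biUnion (Set.Subsingleton.countable fun l hl l' hl' =>
      List.map_injective_iff.2 (sigma_mk_injective (β := fun i => (tw P i).X) (i := i))
        (hl.trans hl'.symm)) fun l _ => hg' i l
  obtain ⟨ρ, hρ1, hρ2⟩ := filt (hP.trans_le h2) g hg
  refine ⟨ρ, fun α => (hρ1 α).trans_le h1, fun i x hx => ?_⟩
  obtain ⟨l, hl1, hl2⟩ := basis (tw P i) {y | ρ ⟨i, y⟩ < ρ ⟨i, x⟩ ∧ ¬ (tw P i).le y x}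
  obtain ⟨β, hβ, hβ'⟩ := list_bd ρ hx (l.map (Sigma.mk i)) (by
    intro s hs
    obtain ⟨a, ha, rfl⟩ := List.mem_map.1 hs
    exact (hl1 a ha).1)
  have hc : ∀ t ∈ g' i l, ρ t < ρ ⟨i, x⟩ := fun t ht => lt_of_le_of_lt (hρ2 _ t
    (mem_iUnion.2 ⟨i, mem_iUnion₂.2 ⟨l, rfl, ht⟩⟩) β hβ') hβ
  have hxD : x ∈ DF _ l := fun a ha => (hl1 a ha).2
  have hD : ∀ y, ρ ⟨i, y⟩ < ρ ⟨i, x⟩ → y ∈ DF _ l → (tw P i).le y x := fun y hy hyD => by
    by_contra h
    obtain ⟨a, ha, h'⟩ := hl2 y ⟨hy, h⟩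
    exact hyD a ha h'
  have hsd : SD _ (DF _ l) := hS3 i l ⟨x, hxD, fun s hs =>
    hD s (hc _ (Or.inl ⟨s, hs, rfl⟩)) (hS1 i l hs)⟩
  exact ⟨⟨DF _ l, hsd⟩, hc _ (Or.inr ⟨hsd, rfl⟩), hxD, hD⟩

theorem good (P : WQ) : Good P := by
  classical
  generalize hc : #P.X = c
  induction c using WellFoundedLT.induction generalizing P with
  | ind c ih =>
  subst hc
  rcases le_or_gt #P.X ℵ₀ with hP | hP
  · have : Countable P.X := mk_le_aleph0_iff.1 hP
    obtain ⟨τ, hτ⟩ := exists_injective_nat P.X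
    exact ⟨τ, fun _ _ => 0, fun x y h _ => by rw [hτ h]; exact P.refl y⟩
  obtain ⟨ρ, hρ1, hρ2⟩ := ranks P hP
  have hlay : ∀ i α, Good ((tw P i).sub {x | ρ ⟨i, x⟩ = α}) := fun i α =>
    ih _ (lt_of_le_of_lt (mk_le_of_injective
      (f := fun x : {x : (tw P i).X | ρ ⟨i, x⟩ = α} => (⟨⟨i, x.1⟩, x.2⟩ : {t | ρ t = α}))
      fun x y h => Subtype.ext (sigma_mk_injective (β := fun i => (tw P i).X) (i := i)
        (congrArg Subtype.val h))) (hρ1 α)) _ rfl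
  choose τ1 Φ1 h1 using hlay
  let τ0 : (Σ i, (tw P i).X) → ℕ := fun t => τ1 t.1 (ρ t) ⟨t.2, rfl⟩
  let Φ0 : (Σ i, (tw P i).X) → ℕ → Ordinal.{0} := fun t => Φ1 t.1 (ρ t) ⟨t.2, rfl⟩
  have h0 : ∀ i (x y : (tw P i).X), ρ ⟨i, x⟩ = ρ ⟨i, y⟩ → τ0 ⟨i, x⟩ = τ0 ⟨i, y⟩ →
      (∀ j < τ0 ⟨i, x⟩, Φ0 ⟨i, x⟩ j ≤ Φ0 ⟨i, y⟩ j) → (tw P i).le x y := by
    intro i x y hxy
    have e1 : ∀ α (h : ρ ⟨i, x⟩ = α), τ0 ⟨i, x⟩ = τ1 i α ⟨x, h⟩ ∧ Φ0 ⟨i, x⟩ = Φ1 i α ⟨x, h⟩ := by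
      intro α h; subst h; exact ⟨rfl, rfl⟩
    rw [(e1 _ hxy).1, (e1 _ hxy).2]
    exact h1 i _ ⟨x, hxy⟩ ⟨y, rfl⟩
  choose D hD1 hD2 hD3 using hρ2
  let F : (Σ i, (tw P i).X) → ℕ × (ℕ → Ordinal.{0}) :=
    (InvImage.wf ρ wellFounded_lt).fix fun t rec =>
      if h : 0 < ρ t then
        (2 * Nat.pair (τ0 t) (rec ⟨t.1 + 1, D t.1 t.2 h⟩ (hD1 t.1 t.2 h)).1 + 2,
          fun j => if j = 0 then ρ t else if j % 2 = 1 then Φ0 t (j / 2)
            else (rec ⟨t.1 + 1, D t.1 t.2 h⟩ (hD1 t.1 t.2 h)).2 (j / 2 - 1))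
      else (2 * τ0 t + 1, Φ0 t)
  have hF1 : ∀ i x (h : 0 < ρ ⟨i, x⟩), F ⟨i, x⟩ =
      (2 * Nat.pair (τ0 ⟨i, x⟩) (F ⟨i + 1, D i x h⟩).1 + 2,
        fun j => if j = 0 then ρ ⟨i, x⟩ else if j % 2 = 1 then Φ0 ⟨i, x⟩ (j / 2)
          else (F ⟨i + 1, D i x h⟩).2 (j / 2 - 1)) := fun i x h => by
    simp only [F]
    rw [WellFounded.fix_eq, dif_pos h]
  have hF2 : ∀ t, ¬ 0 < ρ t → F t = (2 * τ0 t + 1, Φ0 t) := fun t h => by
    simp only [F]
    rw [WellFounded.fix_eq, dif_neg h]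
  have key : ∀ α i (x y : (tw P i).X), ρ ⟨i, x⟩ = α → (F ⟨i, x⟩).1 = (F ⟨i, y⟩).1 →
      (∀ j < (F ⟨i, x⟩).1, (F ⟨i, x⟩).2 j ≤ (F ⟨i, y⟩).2 j) → (tw P i).le x y := by
    intro α
    induction α using WellFoundedLT.induction with
    | ind α ihα =>
    intro i x y hα
    by_cases hx : 0 < ρ ⟨i, x⟩ <;> by_cases hy : 0 < ρ ⟨i, y⟩
    · rw [hF1 i x hx, hF1 i y hy]
      intro e1 e2
      simp only at e1 e2
      have e3 := Nat.pair_eq_pair.1 (show Nat.pair (τ0 ⟨i, x⟩) (F ⟨i + 1, D i x hx⟩).1 =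
        Nat.pair (τ0 ⟨i, y⟩) (F ⟨i + 1, D i y hy⟩).1 by omega)
      have e4 := e2 0 (by omega)
      simp only [if_true] at e4
      rcases e4.lt_or_eq with e5 | e5
      · refine hD3 i y hy x e5 ?_
        refine ihα _ (hα ▸ hD1 i x hx) (i + 1) (D i x hx) (D i y hy) rfl e3.2 ?_ (hD2 i x hx)
        intro j hj
        have := Nat.right_le_pair (τ0 ⟨i, x⟩) (F ⟨i + 1, D i x hx⟩).1
        have e6 := e2 (2 * j + 2) (by omega)
        rw [if_neg (by omega), if_neg (by omega), if_neg (by omega), if_neg (by omega),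
          show (2 * j + 2) / 2 - 1 = j by omega] at e6
        exact e6
      · refine h0 i x y e5 e3.1 fun j hj => ?_
        have := Nat.left_le_pair (τ0 ⟨i, x⟩) (F ⟨i + 1, D i x hx⟩).1
        have e6 := e2 (2 * j + 1) (by omega)
        rw [if_neg (by omega), if_pos (by omega), if_neg (by omega), if_pos (by omega),
          show (2 * j + 1) / 2 = j by omega] at e6
        exact e6
    · rw [hF1 i x hx, hF2 _ hy]
      intro e1
      simp only at e1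
      omega
    · rw [hF2 _ hx, hF1 i y hy]
      intro e1
      simp only at e1
      omega
    · rw [hF2 _ hx, hF2 _ hy]
      intro e1 e2
      simp only at e1 e2
      refine h0 i x y ?_ (by omega) fun j hj => e2 j (by omega)
      rw [nonpos_iff_eq_zero.1 (not_lt.1 hx), nonpos_iff_eq_zero.1 (not_lt.1 hy)]
  exact ⟨fun x => (F ⟨0, x⟩).1, fun x => (F ⟨0, x⟩).2, fun x y => key _ 0 x y rfl⟩

end Pool.Agent.H15.BQ
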