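import Mathlib

set_option autoImplicit false

namespace Pool.Agent.H15.CC
open Set Filter Topology

abbrev I : Type := (Cardinal.aleph 1).ord.ToType

theorem I_bdd {s : Set I} (hs : s.Countable) : ∃ i, ∀ j ∈ s, j < i := by
  by_contra h
  push Not at h
  have h1 : ∀ j : I, (Iic j).Countable := fun j => by
    rw [← Iio_insert]
    refine Set.Countable.insert _ (Cardinal.countable_iff_lt_aleph_one _ |>.2 ?_)
    exact Cardinal.mk_Iio_toType_ord_lt j
  have h2 : (univ : Set I).Countable := (hs.biUnion fun j _ => h1 j).mono fun i _ => by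
    obtain ⟨j, h2, h3⟩ := h i
    exact mem_biUnion h2 h3
  have h3 := (Cardinal.countable_iff_lt_aleph_one _).1 h2
  simp at h3

def W : Set (I → Bool) := {x | ∀ i j, i ≤ j → x j = true → x i = true}

theorem cl {α : Type} (a : α) (b : Bool) : IsClopen {x : α → Bool | x a = b} :=
  (isClopen_discrete {b}).preimage (continuous_apply a)

instance : CompactSpace W := isCompact_iff_compactSpace.1 (IsClosed.isCompact (by
  simp only [W, ofPred_forall]
  refine isClosed_iInter fun i => isClosed_iInter fun j => isClosed_iInter fun _ => ?_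
  exact isClosed_imp (cl j true).isOpen (cl i true).isClosed))

def top : W := ⟨fun _ => true, fun _ _ _ _ => rfl⟩

theorem box {α : Type} {K : Set (α → Bool)} {x : K} {U : Set K} (h : U ∈ 𝓝 x) :
    ∃ T : Finset α, ∀ y : K, (∀ a ∈ T, y.1 a = x.1 a) → y ∈ U := by
  obtain ⟨V, h1, h2⟩ := (mem_nhds_subtype _ _ _).1 h
  rw [nhds_pi] at h1
  obtain ⟨B, h3, v, h4, h5⟩ := mem_pi.1 h1
  exact ⟨h3.toFinset, fun y hy => h2 (h5 fun b hb => by
    rw [hy b (h3.mem_toFinset.2 hb)]; exact mem_of_mem_nhds (h4 b))⟩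

theorem ppoint {ι : Type} [Countable ι] (U : ι → Set W) (h : ∀ i, U i ∈ 𝓝 top) :
    ∃ V : Set W, IsClopen V ∧ top ∈ V ∧ (∀ i, V ⊆ U i) ∧ ∃ a ∈ V, a ≠ top := by
  choose T hT using fun i => box (h i)
  obtain ⟨j, hj⟩ := I_bdd (countable_iUnion fun i => (T i).countable_toSet)
  obtain ⟨k, hk⟩ := I_bdd (countable_singleton j)
  refine ⟨{x | x.1 j = true}, (cl j true).preimage continuous_subtype_val, rfl, fun i x hx =>
    hT i x fun a ha => x.2 a j (hj a (mem_iUnion.2 ⟨i, ha⟩)).le hx,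
    ⟨fun i => decide (i ≤ j), fun a b h1 h2 => decide_eq_true (h1.trans (of_decide_eq_true h2))⟩,
    decide_eq_true le_rfl, fun h1 => ?_⟩
  exact not_le.2 (hk j rfl) (of_decide_eq_true (congrFun (congrArg Subtype.val h1) k))

theorem plank {K ι : Type} [TopologicalSpace K] [Countable ι] (q : K) (d : ι → K)
    (hd : DenseRange d) (hq : ∀ i, d i ≠ q) (f : C({p : W × K // p ≠ (top, q)}, ℝ)) :
    ∃ F : C(W × K, ℝ), ∀ p : {p : W × K // p ≠ (top, q)}, F p = f p := by
  classical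
  let g : ι → W → ℝ := fun i w => f ⟨(w, d i), fun h => hq i (congrArg Prod.snd h)⟩
  have hg : ∀ i, Continuous (g i) := fun i => f.continuous.comp (by fun_prop)
  obtain ⟨V, h1, h2, h3, a, h4, h5⟩ := ppoint
    (fun i : ι × ℕ => {w | |g i.1 w - g i.1 top| < 1 / (i.2 + 1)}) fun i =>
      (isOpen_lt ((hg _).sub continuous_const).abs continuous_const).mem_nhds (by
        show |g i.1 top - g i.1 top| < _
        rw [sub_self, abs_zero]; positivity)
  have h6 : ∀ w ∈ V, ∀ i, g i w = g i top := fun w hw i => by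
    by_contra h
    obtain ⟨m, hm⟩ := exists_nat_one_div_lt (abs_pos.2 (sub_ne_zero.2 h))
    exact lt_asymm hm (h3 (i, m) hw)
  let r : W → W := V.piecewise (fun _ => a) id
  have hr : Continuous r := Continuous.piecewise (by simp [h1.frontier_eq]) continuous_const
    continuous_id
  have hr' : ∀ w, r w ≠ top := fun w => by
    by_cases h : w ∈ V
    · rwa [show r w = a from piecewise_eq_of_mem _ _ _ h]
    · rw [show r w = w from piecewise_eq_of_notMem _ _ _ h]
      exact fun h' => h (h' ▸ h2)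
  refine ⟨⟨fun p => f ⟨(r p.1, p.2), fun h => hr' _ (congrArg Prod.fst h)⟩,
    f.continuous.comp (by fun_prop)⟩, ?_⟩
  rintro ⟨⟨w, y⟩, hp⟩
  by_cases h : w ∈ V
  · have h7 : r w = a := piecewise_eq_of_mem _ _ _ h
    have h8 : (comap d (𝓝 y)).NeBot := comap_neBot fun t ht => by
      obtain ⟨_, h1, i, rfl⟩ := mem_closure_iff_nhds.1 (hd y) t ht
      exact ⟨i, h1⟩
    have h9 : ∀ (w : W) (hp : (w, y) ≠ (top, q)), Tendsto (fun i => g i w) (comap d (𝓝 y))
        (𝓝 (f ⟨(w, y), hp⟩)) := fun w hp => (f.continuous.tendsto _).comp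
          (tendsto_subtype_rng.2 (tendsto_const_nhds.prodMk_nhds tendsto_comap))
    simp only [ContinuousMap.coe_mk, h7]
    exact tendsto_nhds_unique (h9 a _) ((h9 w hp).congr fun i => (h6 w h i).trans (h6 a h4 i).symm)
  · have h7 : r w = w := piecewise_eq_of_notMem _ _ _ h
    simp only [ContinuousMap.coe_mk, h7]

abbrev N : Type := ℕ × ℕ

def E (k : ℕ) : Finset N := (Finset.range (k + 1)).map ⟨fun j => (k, j), fun _ _ h => congrArg Prod.snd h⟩

noncomputable def dens (A : Set N) (k : ℕ) : ℝ := ((E k : Set N) ∩ A).ncard / (k + 1)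

theorem mem_E {k : ℕ} {n : N} : n ∈ E k ↔ n.1 = k ∧ n.2 ≤ k := by
  refine ⟨fun hn => ?_, fun h => Finset.mem_map.2 ⟨n.2, Finset.mem_range.2 (by omega),
    Prod.ext h.1.symm rfl⟩⟩
  obtain ⟨j, hj, rfl⟩ := Finset.mem_map.1 hn
  exact ⟨rfl, Nat.lt_succ_iff.1 (Finset.mem_range.1 hj)⟩

theorem dens_nonneg (A : Set N) (k : ℕ) : 0 ≤ dens A k := by unfold dens; positivity

theorem dens_mono {A B : Set N} {k : ℕ} (h : ∀ n ∈ E k, n ∈ A → n ∈ B) : dens A k ≤ dens B k :=
  div_le_div_of_nonneg_right (Nat.cast_le.2 (ncard_le_ncard (fun n hn => ⟨hn.1, h n hn.1 hn.2⟩)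
    ((E k).finite_toSet.inter_of_left _))) (by positivity)

theorem dens_un (A B : Set N) (k : ℕ) : dens (A ∪ B) k ≤ dens A k + dens B k := by
  unfold dens
  rw [← add_div, ← Nat.cast_add, inter_union_distrib_left]
  exact div_le_div_of_nonneg_right (Nat.cast_le.2 (ncard_union_le _ _)) (by positivity)

theorem dens_empty (k : ℕ) : dens ∅ k = 0 := by simp [dens]

theorem dens_zero {A : Set N} {k : ℕ} (h : ∀ n ∈ E k, n ∉ A) : dens A k ≤ 0 :=
  (dens_mono (B := ∅) h).trans (dens_empty k).le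

def Z : Set (Set N) := {A | Tendsto (dens A) atTop (𝓝 0)}

theorem Z_un {A B : Set N} (hA : A ∈ Z) (hB : B ∈ Z) : A ∪ B ∈ Z :=
  squeeze_zero (dens_nonneg _) (dens_un A B) (by simpa using Tendsto.add hA hB)

theorem Z_mono {A B : Set N} (h : A ⊆ B) (hB : B ∈ Z) : A ∈ Z :=
  squeeze_zero (dens_nonneg _) (fun _ => dens_mono fun _ _ hn => h hn) hB

theorem Z_fin {ι : Type} (T : Finset ι) (A : ι → Set N) (h : ∀ i ∈ T, A i ∈ Z) :
    (⋃ i ∈ T, A i) ∈ Z := by
  classical
  induction T using Finset.induction_on with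
  | empty => simp [Z, funext dens_empty]
  | insert a T _ ih =>
    rw [Finset.set_biUnion_insert]
    exact Z_un (h a (Finset.mem_insert_self _ _)) (ih fun i hi => h i (Finset.mem_insert_of_mem hi))

theorem Z_row (m : ℕ) : {n : N | n.1 ≤ m} ∈ Z := by
  refine tendsto_const_nhds.congr' ?_
  filter_upwards [eventually_gt_atTop m] with k hk
  exact le_antisymm (dens_nonneg _ _) (dens_zero fun n hn h => not_le.2 hk ((mem_E.1 hn).1 ▸ h))

theorem small (u : Ultrafilter N) {A : Set N} (hA : A ∈ Z) (h : A ∈ u) (m : ℕ)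
    (hm : {n : N | n.1 ≤ m} ∉ u) : ∃ C ∈ Z, C ∈ u ∧ ∀ k, dens C k ≤ 1 / (m + 1) := by
  classical
  obtain ⟨m', hm'⟩ := eventually_atTop.1 (hA.eventually (gt_mem_nhds
    (show (0 : ℝ) < 1 / (m + 1) by positivity)))
  by_cases h1 : {n : N | n.1 ≤ m' ∧ n.2 ≤ m'} ∈ u
  · obtain ⟨n, -, rfl⟩ := Ultrafilter.eq_pure_of_finite_mem
      (((finite_Iic m').prod (finite_Iic m')).subset fun n hn => hn) h1
    have h2 : m < n.1 := not_le.1 fun h2 => hm (Ultrafilter.mem_pure.2 h2)
    refine ⟨{n}, Z_mono (by simp) (Z_row n.1), Ultrafilter.mem_pure.2 rfl, fun k => ?_⟩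
    by_cases h3 : n.1 = k
    · unfold dens
      gcongr
      · exact_mod_cast (ncard_le_ncard inter_subset_right).trans (ncard_singleton n).le
      · omega
    · exact (dens_zero fun a ha h4 => h3 ((show a = n from h4) ▸ (mem_E.1 ha).1)).trans
        (by positivity)
  · refine ⟨A \ {n : N | n.1 ≤ m' ∧ n.2 ≤ m'}, Z_mono sdiff_subset hA,
      inter_mem h (Ultrafilter.compl_mem_iff_notMem.2 h1), fun k => ?_⟩
    by_cases h2 : m' ≤ k
    · exact (dens_mono fun n _ hn => hn.1).trans (hm' k h2).le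
    · refine (dens_zero fun n hn h3 => h3.2 ?_).trans (by positivity)
      have := mem_E.1 hn
      exact ⟨by omega, by omega⟩

theorem freq (u : ℕ → Ultrafilter N) (h : ∀ j, ∃ A ∈ Z, A ∈ u j) :
    ∃ A ∈ Z, ∃ᶠ j in atTop, A ∈ u j := by
  classical
  by_cases h1 : ∃ m, ∃ᶠ j in atTop, {n : N | n.1 ≤ m} ∈ u j
  · obtain ⟨m, hm⟩ := h1
    exact ⟨_, Z_row m, hm⟩
  push Not at h1
  have h2 : ∀ i : ℕ, ∃ j ≥ i, ∃ C ∈ Z, C ∈ u j ∧ ∀ k, dens C k ≤ (1 / 2) ^ i := by
    intro i
    obtain ⟨j, h2, h3⟩ := ((eventually_ge_atTop i).and (h1 (2 ^ i))).exists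
    obtain ⟨A, h4, h5⟩ := h j
    obtain ⟨C, h6, h7, h8⟩ := small (u j) h4 h5 _ h3
    refine ⟨j, h2, C, h6, h7, fun k => (h8 k).trans ?_⟩
    rw [one_div_pow]
    exact one_div_le_one_div_of_le (by positivity) (by push_cast; linarith)
  choose j hj C h3 h4 h5 using h2
  refine ⟨⋃ i, C i, ?_, frequently_atTop.2 fun i => ⟨j i, hj i, mem_of_superset (h4 i)
    (subset_iUnion _ _)⟩⟩
  have h6 : ∀ k a b, dens (⋃ i ∈ Finset.Ico a (a + b), C i) k ≤ 2 * (1 / 2) ^ a - 2 * (1 / 2) ^ (a + b) := by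
    intro k a b
    induction b with
    | zero => simp [dens_empty]
    | succ b ih =>
      rw [← add_assoc, Nat.Ico_succ_right_eq_insert_Ico (Nat.le_add_right a b), Finset.set_biUnion_insert]
      refine (dens_un _ _ k).trans ?_
      rw [pow_succ]
      linarith [h5 (a + b) k]
  have h7 : ∀ k a, dens (⋃ i, C i) k ≤ dens (⋃ i ∈ Finset.range a, C i) k + 2 * (1 / 2) ^ a := by
    intro k a
    have h7 : ∀ n : N, ∃ i, n ∈ ⋃ i, C i → n ∈ C i := fun n => by
      by_cases h7 : n ∈ ⋃ i, C i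
      · obtain ⟨i, hi⟩ := mem_iUnion.1 h7
        exact ⟨i, fun _ => hi⟩
      · exact ⟨0, fun h => absurd h h7⟩
    choose v hv using h7
    have h8 := h6 k a ((E k).sup v + 1)
    have h9 : (0 : ℝ) ≤ 2 * (1 / 2) ^ (a + ((E k).sup v + 1)) := by positivity
    refine le_trans (dens_mono fun n hn hn' => ?_)
      ((dens_un _ _ k).trans (add_le_add_right (h8.trans (sub_le_self _ h9)) _))
    have := Finset.le_sup (f := v) hn
    by_cases h10 : v n < a
    · exact Or.inl (mem_biUnion (Finset.mem_range.2 h10) (hv n hn'))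
    · exact Or.inr (mem_biUnion (Finset.mem_Ico.2 ⟨not_lt.1 h10, by omega⟩) (hv n hn'))
  refine tendsto_order.2 ⟨fun a ha => Eventually.of_forall fun k => ha.trans_le (dens_nonneg _ _),
    fun ε hε => ?_⟩
  obtain ⟨a, ha⟩ := exists_pow_lt_of_lt_one (show 0 < ε / 4 by positivity)
    (show (1 / 2 : ℝ) < 1 by norm_num)
  filter_upwards [(Z_fin (Finset.range a) C fun i _ => h3 i).eventually
    (gt_mem_nhds (show 0 < ε / 2 by positivity))] with k hk
  linarith [h7 k a]

end Pool.Agent.H15.CC
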