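import Mathlib

set_option autoImplicit false

namespace Pool.Agent.H15.TEmb
open Topology

set_option warn.classDefReducibility false in
/-- The topology of pointwise convergence on the continuous real functions on `Z`. -/
def cp (Z : Type*) [TopologicalSpace Z] : TopologicalSpace C(Z, ℝ) :=
  TopologicalSpace.induced (fun f : C(Z, ℝ) => (f : Z → ℝ)) Pi.topologicalSpace

/-- `Y`, sitting in `X` via `j`, is t-embedded: there is an extender `C_p(Y) → C_p(X)` that is
continuous for the topologies of pointwise convergence. -/
def TEmb {Y X : Type*} [TopologicalSpace Y] [TopologicalSpace X] (j : Y → X) : Prop :=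
  ∃ φ : C(Y, ℝ) → C(X, ℝ), Continuous[cp Y, cp X] φ ∧ ∀ (f : C(Y, ℝ)) (y : Y), φ f (j y) = f y

end Pool.Agent.H15.TEmb
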