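import Mathlib
import Pool.Agent.H15.CC1
import Pool.Agent.H15.TEmbDefs

set_option autoImplicit false

namespace Pool.Agent.H15.CC
open Set Filter Topology Pool.Agent.H15.TEmb OnePoint

open Classical in
noncomputable def s (u : Ultrafilter N) : Z → Bool := fun A => decide (A.1 ∈ u)

theorem s_cont : Continuous s := continuous_pi fun A =>
  (continuous_boolIndicator_iff_isClopen {u : Ultrafilter N | A.1 ∈ u}).2
    ⟨ultrafilter_isClosed_basic _, ultrafilter_isOpen_basic _⟩

def K0 : Set (Z → Bool) := insert (fun _ => false) (range s)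

instance : CompactSpace K0 := isCompact_iff_compactSpace.1 ((isCompact_range s_cont).insert _)

def q0 : K0 := ⟨fun _ => false, Or.inl rfl⟩

noncomputable def pt (n : N) : K0 := ⟨s (pure n), Or.inr ⟨_, rfl⟩⟩

theorem pt_ne (n : N) : pt n ≠ q0 := fun h => by
  have := congrFun (congrArg Subtype.val h) ⟨{n}, Z_mono (by simp) (Z_row n.1)⟩
  simp [pt, s, q0] at this

def Good (z : K0) (F : ℕ → Finset N) : Prop := (∀ k, (F k).Nonempty) ∧ ∀ U ∈ 𝓝 z,
  Tendsto (fun k => (((F k : Set N) ∩ {n | pt n ∉ U}).ncard / (F k).card : ℝ)) atTop (𝓝 0)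

theorem good_pt (n : N) : Good (pt n) fun _ => {n} := ⟨fun _ => Finset.singleton_nonempty _,
  fun U hU => by simp [mem_of_mem_nhds hU]⟩

theorem good_q : Good q0 E := by
  refine ⟨fun k => ⟨(k, 0), mem_E.2 ⟨rfl, Nat.zero_le _⟩⟩, fun U hU => ?_⟩
  obtain ⟨T, hT⟩ := box hU
  have h1 : {n | pt n ∉ U} ∈ Z := Z_mono (fun n hn => by
    by_contra h
    exact hn (hT _ fun A hA => by
      simpa [pt, s, q0] using fun h1 => h (mem_biUnion hA h1))) (Z_fin T Subtype.val fun A _ => A.2)
  refine Tendsto.congr (fun k => ?_) h1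
  simp only [dens, E, Finset.card_map, Finset.card_range, Nat.cast_succ]

theorem pt_dense : DenseRange pt := by
  rintro ⟨x, rfl | ⟨u, rfl⟩⟩
  · refine mem_closure_iff_nhds.2 fun U hU => by_contra fun h => ?_
    have h1 := good_q.2 U hU
    have h2 : {n | pt n ∉ U} = univ := eq_univ_of_forall fun n hn => h ⟨_, hn, n, rfl⟩
    simp only [h2, inter_univ, ncard_coe_finset] at h1
    have h3 := tendsto_nhds_unique h1 (tendsto_const_nhds.congr fun k =>
      (div_self (Nat.cast_ne_zero.2 (good_q.1 k).card_pos.ne')).symm)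
    exact zero_ne_one h3
  · have h1 : Continuous fun u => (⟨s u, Or.inr ⟨_, rfl⟩⟩ : K0) := s_cont.subtype_mk _
    exact map_mem_closure h1 (denseRange_pure u) (by rintro _ ⟨n, rfl⟩; exact ⟨n, rfl⟩)

theorem avg_tendsto {B : Type} [NormedAddCommGroup B] [NormedSpace ℝ B] {z : K0} {F : ℕ → Finset N}
    (h : Good z F) (G : C(K0, B)) :
    Tendsto (fun k => ((F k).card : ℝ)⁻¹ • ∑ n ∈ F k, G (pt n)) atTop (𝓝 (G z)) := by
  classical
  refine Metric.tendsto_nhds.2 fun ε hε => ?_
  have h1 := (h.2 _ ((G.continuous.tendsto z).eventually (Metric.ball_mem_nhds _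
    (half_pos hε)))).const_mul (2 * ‖G‖)
  rw [mul_zero] at h1
  filter_upwards [h1.eventually (gt_mem_nhds (half_pos hε))] with k hk
  have h2 : (0 : ℝ) < (F k).card := Nat.cast_pos.2 (h.1 k).card_pos
  have h3 : ((F k).card : ℝ)⁻¹ • ∑ n ∈ F k, G (pt n) - G z =
      ((F k).card : ℝ)⁻¹ • ∑ n ∈ F k, (G (pt n) - G z) := by
    rw [Finset.sum_sub_distrib, smul_sub, Finset.sum_const, ← Nat.cast_smul_eq_nsmul ℝ, smul_smul,
      inv_mul_cancel₀ h2.ne', one_smul]
  have h4 : ∑ n ∈ F k, ‖G (pt n) - G z‖ ≤ ∑ n ∈ F k, (ε / 2 +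
      if G (pt n) ∈ Metric.ball (G z) (ε / 2) then 0 else 2 * ‖G‖) := Finset.sum_le_sum fun n _ => by
    split_ifs with h4
    · rw [add_zero]; exact (mem_ball_iff_norm.1 h4).le
    · linarith [norm_sub_le (G (pt n)) (G z), G.norm_coe_le_norm (pt n), G.norm_coe_le_norm z]
  rw [Finset.sum_add_distrib, Finset.sum_const, Finset.sum_ite, Finset.sum_const_zero, zero_add,
    Finset.sum_const, nsmul_eq_mul, nsmul_eq_mul, ← ncard_coe_finset (Finset.filter _ _),
    Finset.coe_filter] at h4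
  rw [dist_eq_norm, h3, norm_smul, norm_inv, Real.norm_natCast, inv_mul_lt_iff₀ h2]
  rw [← mul_div_assoc, div_lt_iff₀ h2, mul_comm] at hk
  exact (norm_sum_le _ _).trans_lt (h4.trans_lt (by
    have : ((F k : Set N) ∩ {n | ¬ dist (G (pt n)) (G z) < ε / 2}) =
      {x | x ∈ F k ∧ G (pt x) ∉ Metric.ball (G z) (ε / 2)} := rfl
    rw [this] at hk
    linarith))

def K (z : K0) : Set (K0 × OnePoint ℕ) := {y | y.2 = ∞ ∨ y.1 = z}

instance (z : K0) : CompactSpace (K z) := isCompact_iff_compactSpace.1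
  ((isClosed_eq continuous_snd continuous_const).union
    (isClosed_eq continuous_fst continuous_const)).isCompact

def base (z : K0) (x : K0) : K z := ⟨(x, ∞), Or.inl rfl⟩
def sq (z : K0) (t : OnePoint ℕ) : K z := ⟨(z, t), Or.inr rfl⟩

abbrev S (z : K0) : Type := {p : W × K z // p ≠ (top, base z q0)}

noncomputable def pb (z : K0) (w : W) (n : N) : S z :=
  ⟨(w, base z (pt n)), fun h => pt_ne n (congrArg (fun p : W × K z => p.2.1.1) h)⟩

def ps (z : K0) (w : W) (k : ℕ) : S z :=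
  ⟨(w, sq z k), fun h => coe_ne_infty k (congrArg (fun p : W × K z => p.2.1.2) h)⟩

theorem ext (z : K0) (f : C(S z, ℝ)) : ∃ F : C(W × K z, ℝ), ∀ p : S z, F p = f p := by
  refine plank _ (Sum.elim (fun n => base z (pt n)) fun k : ℕ => sq z k) ?_ ?_ f
  · have h1 : Continuous (base z) := Continuous.subtype_mk (by fun_prop) _
    rintro ⟨⟨x, t⟩, h⟩
    induction t using OnePoint.rec with
    | infty => exact map_mem_closure h1 (pt_dense x) (by rintro _ ⟨n, rfl⟩; exact ⟨Sum.inl n, rfl⟩)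
    | coe k =>
      obtain rfl : x = z := h.resolve_left (coe_ne_infty k)
      exact subset_closure ⟨Sum.inr k, rfl⟩
  · rintro (n | k) h
    · exact pt_ne n (congrArg (fun p : K z => p.1.1) h)
    · exact coe_ne_infty k (congrArg (fun p : K z => p.1.2) h)

noncomputable def av (z : K0) (F : ℕ → Finset N) (f : S z → ℝ) (w : W) (k : ℕ) : ℝ :=
  ((F k).card : ℝ)⁻¹ * ∑ n ∈ F k, f (pb z w n)

open Classical in
noncomputable def opf (z z' : K0) (F F' : ℕ → Finset N) (f : S z → ℝ) (p : S z') : ℝ :=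
  OnePoint.elim p.1.2.1.2 (if h : (p.1.1, base z p.1.2.1.1) = (top, base z q0) then 0 else f ⟨_, h⟩)
    fun k => f (ps z p.1.1 k) - av z F f p.1.1 k + av z F' f p.1.1 k

theorem cases {z : K0} (p : S z) : (∃ k, p = ps z p.1.1 k) ∨
    ∃ x, p.1.2 = base z x ∧ ∀ z', (p.1.1, base z' x) ≠ (top, base z' q0) := by
  obtain ⟨⟨w, ⟨x, t⟩, h⟩, hp⟩ := p
  induction t using OnePoint.rec with
  | infty => exact Or.inr ⟨x, rfl, fun z' h1 => hp (by
      obtain rfl : w = top := congrArg Prod.fst h1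
      obtain rfl : x = q0 := congrArg (fun p : W × K z' => p.2.1.1) h1
      rfl)⟩
  | coe k =>
    obtain rfl : x = z := h.resolve_left (coe_ne_infty k)
    exact Or.inl ⟨k, rfl⟩

theorem opf_ps (z z' : K0) (F F' : ℕ → Finset N) (f : S z → ℝ) (w : W) (k : ℕ) :
    opf z z' F F' f (ps z' w k) = f (ps z w k) - av z F f w k + av z F' f w k := rfl

theorem opf_base (z z' : K0) (F F' : ℕ → Finset N) (f : S z → ℝ) (w : W) (x : K0)
    (h : (w, base z x) ≠ (top, base z q0)) (h' : (w, base z' x) ≠ (top, base z' q0)) :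
    opf z z' F F' f ⟨_, h'⟩ = f ⟨_, h⟩ := dif_neg h

theorem opf_cont {z z' : K0} {F F' : ℕ → Finset N} (h : Good z F) (h' : Good z' F')
    (f : C(S z, ℝ)) : Continuous (opf z z' F F' f) := by
  obtain ⟨G, hG⟩ := ext z f
  let H : C(K z, C(W, ℝ)) := (G.comp ⟨Prod.swap, continuous_swap⟩).curry
  let H0 : C(K0, C(W, ℝ)) := H.comp ⟨base z, Continuous.subtype_mk (by fun_prop) _⟩
  have h1 : Tendsto (fun k : ℕ => H (sq z k)) atTop (𝓝 (H0 z)) :=
    (continuous_iff_from_nat fun t => H (sq z t)).1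
      (H.continuous.comp (Continuous.subtype_mk (by fun_prop) _))
  have h2 := ((h1.sub (avg_tendsto h H0)).add (avg_tendsto h' H0)).sub_const (H0 z')
  rw [sub_self, zero_add, sub_self] at h2
  let L := continuousMapMkNat _ _ h2
  have h3 : Continuous fun p : S z' => H0 p.1.2.1.1 p.1.1 + L p.1.2.1.2 p.1.1 := by fun_prop
  have h4 : ∀ F w k, (((F k).card : ℝ)⁻¹ • ∑ n ∈ F k, H0 (pt n)) w = av z F f w k := by
    intro F w k
    simp only [av, ContinuousMap.smul_apply, ContinuousMap.sum_apply, smul_eq_mul, ← hG]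
    rfl
  refine h3.congr fun p => ?_
  rcases cases p with ⟨k, hk⟩ | ⟨x, h5, h6⟩
  · rw [hk, opf_ps, ← h4, ← h4, ← hG]
    show H0 z' _ + (_ - _ + _ - H0 z' : C(W, ℝ)) _ = _
    simp only [ContinuousMap.sub_apply, ContinuousMap.add_apply, add_sub_cancel]
    rfl
  · obtain ⟨⟨w, y⟩, hp⟩ := p
    obtain rfl : y = base z' x := h5
    rw [opf_base z z' F F' f w x (h6 z), ← hG]
    exact add_zero _

theorem av_opf (z z' : K0) (F F' G : ℕ → Finset N) (f : S z → ℝ) (w : W) (k : ℕ) :
    av z' G (opf z z' F F' f) w k = av z G f w k := by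
  unfold av
  congr 1
  exact Finset.sum_congr rfl fun n _ => opf_base z z' F F' f w (pt n) (pb z w n).2 _

theorem opf_opf (z z' : K0) (F F' : ℕ → Finset N) (f : S z → ℝ) :
    opf z' z F' F (opf z z' F F' f) = f := by
  funext p
  rcases cases p with ⟨k, hk⟩ | ⟨x, h5, h6⟩
  · rw [hk, opf_ps, opf_ps, av_opf, av_opf]
    ring
  · obtain ⟨⟨w, y⟩, hp⟩ := p
    obtain rfl : y = base z x := h5
    rw [opf_base z' z F' F _ w x (h6 z'), opf_base z z' F F' f w x hp]

noncomputable def op {z z' : K0} {F F' : ℕ → Finset N} (h : Good z F) (h' : Good z' F') :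
    C(S z, ℝ) ≃ₗ[ℝ] C(S z', ℝ) where
  toFun f := ⟨_, opf_cont h h' f⟩
  invFun f := ⟨_, opf_cont h' h f⟩
  left_inv f := ContinuousMap.ext (congrFun (opf_opf z z' F F' f))
  right_inv f := ContinuousMap.ext (congrFun (opf_opf z' z F' F f))
  map_add' f g := ContinuousMap.ext fun p => by
    rcases cases p with ⟨k, hk⟩ | ⟨x, h5, h6⟩
    · rw [hk]
      simp only [ContinuousMap.coe_mk, ContinuousMap.add_apply, opf_ps, av, Finset.sum_add_distrib]
      ring
    · obtain ⟨⟨w, y⟩, hp⟩ := p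
      obtain rfl : y = base z' x := h5
      simp only [ContinuousMap.coe_mk, ContinuousMap.add_apply, opf_base z z' F F' _ w x (h6 z)]
  map_smul' c f := ContinuousMap.ext fun p => by
    rcases cases p with ⟨k, hk⟩ | ⟨x, h5, h6⟩
    · rw [hk]
      simp only [ContinuousMap.coe_mk, ContinuousMap.smul_apply, opf_ps, av, smul_eq_mul,
        ← Finset.mul_sum, RingHom.id_apply]
      ring
    · obtain ⟨⟨w, y⟩, hp⟩ := p
      obtain rfl : y = base z' x := h5
      simp only [ContinuousMap.coe_mk, ContinuousMap.smul_apply, opf_base z z' F F' _ w x (h6 z),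
        RingHom.id_apply]

theorem op_cont {z z' : K0} {F F' : ℕ → Finset N} (h : Good z F) (h' : Good z' F') :
    Continuous[cp _, cp _] (op h h') := by
  have h1 : ∀ p, Continuous fun f : S z → ℝ => opf z z' F F' f p := by
    intro p
    rcases cases p with ⟨k, hk⟩ | ⟨x, h5, h6⟩
    · rw [hk]
      simp only [opf_ps, av]
      fun_prop
    · obtain ⟨⟨w, y⟩, hp⟩ := p
      obtain rfl : y = base z' x := h5
      simp only [opf_base z z' F F' _ w x (h6 z)]
      fun_prop
  exact continuous_induced_rng.2 (@Continuous.comp _ _ _ (cp _) Pi.topologicalSpace _ _ _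
    (continuous_pi h1) continuous_induced_dom)

theorem cc (n : N) (u : ℕ → S (pt n)) : ∃ x, MapClusterPt x atTop u := by
  classical
  suffices h : ∃ C : Set (W × K (pt n)), IsClosed C ∧ (top, base _ q0) ∉ C ∧
      ∃ᶠ j in atTop, (u j).1 ∈ C by
    obtain ⟨C, h1, h2, h3⟩ := h
    obtain ⟨x, h4, h5⟩ := h1.isCompact.exists_mapClusterPt_of_frequently h3
    refine ⟨⟨x, fun h => h2 (h ▸ h4)⟩, mapClusterPt_iff_frequently.2 fun U hU => ?_⟩
    obtain ⟨V, h6, h7⟩ := (mem_nhds_subtype _ _ _).1 hU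
    exact (mapClusterPt_iff_frequently.1 h5 V h6).mono fun j hj => h7 hj
  by_cases h : ∃ᶠ j in atTop, (u j).1.1 ≠ top
  · obtain ⟨V, h1, h2, h3, -⟩ := ppoint (fun j => {w | w = (u j).1.1 → (u j).1.1 = top}) fun j => by
      by_cases h1 : (u j).1.1 = top
      · simp [h1]
      · exact mem_of_superset (isOpen_ne.mem_nhds (Ne.symm h1)) fun w hw h2 => absurd h2 hw
    exact ⟨Prod.fst ⁻¹' Vᶜ, h1.compl.isClosed.preimage continuous_fst, fun h4 => h4 h2,
      h.mono fun j hj h4 => hj (h3 j h4 rfl)⟩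
  · have h1 : ∀ j, ∃ v : Ultrafilter N, (∃ A ∈ Z, A ∈ v) ∧
        ((u j).1.1 = top → (u j).1.2.1.1.1 = s v) := by
      intro j
      by_cases h1 : (u j).1.1 = top
      · have h2 : (u j).1.2.1.1 ≠ q0 := by
          rcases cases (u j) with ⟨k, hk⟩ | ⟨x, h5, h6⟩
          · rw [hk]; exact pt_ne n
          · rw [h5]
            rintro (rfl : x = q0)
            exact h6 (pt n) (by rw [h1])
        rcases (u j).1.2.1.1.2 with h3 | ⟨v, h3⟩
        · exact absurd (Subtype.ext h3) h2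
        · refine ⟨v, by_contra fun h4 => h2 (Subtype.ext (h3.symm.trans (funext fun A => ?_))),
            fun _ => h3.symm⟩
          exact decide_eq_false fun h5 => h4 ⟨A, A.2, h5⟩
      · exact ⟨pure n, ⟨_, Z_row n.1, Ultrafilter.mem_pure.2 (le_refl n.1)⟩, fun h => absurd h h1⟩
    choose v h1 h2 using h1
    obtain ⟨A, h3, h4⟩ := freq v h1
    refine ⟨{p | p.2.1.1.1 ⟨A, h3⟩ = true}, isClosed_eq ((continuous_apply _).comp
      (continuous_subtype_val.comp (by fun_prop))) continuous_const,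
      by simp [base, q0], (h4.and_eventually (not_frequently.1 h)).mono fun j hj => ?_⟩
    show (u j).1.2.1.1.1 _ = true
    rw [h2 j (not_not.1 hj.2)]
    exact decide_eq_true hj.1

theorem not_cc : ¬ ∃ x, MapClusterPt x atTop (ps q0 top) := by
  rintro ⟨x, hx⟩
  have h1 : Continuous fun t => (top, sq q0 t) :=
    continuous_const.prodMk (Continuous.subtype_mk (by fun_prop) _)
  have h2 := (continuous_iff_from_nat _).1 h1
  exact x.2 (eq_of_nhds_neBot (ClusterPt.mono (hx.continuousAt_comp continuous_subtype_val.continuousAt) h2))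

end Pool.Agent.H15.CC
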