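import Mathlib

set_option autoImplicit false

namespace Pool.Agent.H15.Codeg
open Finset

/-- Kim–Roush firing rule. -/
def KR {V : Type} {q : ℕ} (Y : Finset V) (g : V → ZMod q) : Prop :=
  (∃ a, ∀ y ∈ Y, g y ≠ a) ∨ ∑ y ∈ Y, g y = 0

theorem KR_congr {V : Type} {q : ℕ} (Y : Finset V) (g g' : V → ZMod q) (h : ∀ y ∈ Y, g y = g' y)
    (hk : KR Y g) : KR Y g' := by
  rcases hk with ⟨a, ha⟩ | hs
  · exact Or.inl ⟨a, fun y hy => h y hy ▸ ha y hy⟩
  · exact Or.inr (by rw [← hs]; exact sum_congr rfl (fun y hy => (h y hy).symm))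

theorem KR_exists {V : Type} [DecidableEq V] {q : ℕ} (Y : Finset V) (hY : Y.Nonempty)
    (g : V → ZMod q) : ∃ t ∈ Y, KR (Y.erase t) g := by
  by_cases h : ∃ t ∈ Y, g t = ∑ y ∈ Y, g y
  · obtain ⟨t, ht, hg⟩ := h
    refine ⟨t, ht, Or.inr ?_⟩
    have := add_sum_erase Y g ht
    rw [hg] at this
    exact add_eq_left.1 this
  · obtain ⟨t, ht⟩ := hY
    exact ⟨t, ht, Or.inl ⟨∑ y ∈ Y, g y, fun y hy hg => h ⟨y, mem_of_mem_erase hy, hg⟩⟩⟩

open Classical in
theorem KR_count {V : Type} [Fintype V] [DecidableEq V] {q : ℕ} [NeZero q] (Y : Finset V)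
    (hY : Y.Nonempty) (h : V → ZMod q) :
    ((univ.filter (fun g : V → ZMod q => KR Y (h + g))).card : ℝ) ≤
      (1 / q + q * (1 - 1 / (q : ℝ)) ^ Y.card) * Fintype.card (V → ZMod q) := by
  have hq : (0 : ℝ) < q := by exact_mod_cast Nat.pos_of_ne_zero (NeZero.ne q)
  have hsub : univ.filter (fun g : V → ZMod q => KR Y (h + g)) ⊆
      univ.filter (fun g : V → ZMod q => ∑ y ∈ Y, (h + g) y = 0) ∪
      univ.biUnion (fun a : ZMod q => Fintype.piFinset
        (fun v => if v ∈ Y then univ.erase (a - h v) else univ)) := by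
    intro g hg
    rcases (mem_filter.1 hg).2 with ⟨a, ha⟩ | hs
    · refine mem_union_right _ (mem_biUnion.2 ⟨a, mem_univ _, Fintype.mem_piFinset.2 fun v => ?_⟩)
      split_ifs with hv
      · refine mem_erase.2 ⟨fun h2 => ha v hv ?_, mem_univ _⟩
        simp [h2]
      · exact mem_univ _
    · exact mem_union_left _ (mem_filter.2 ⟨mem_univ _, hs⟩)
  have h1 : (univ.filter (fun g : V → ZMod q => ∑ y ∈ Y, (h + g) y = 0)).card * q ≤
      Fintype.card (V → ZMod q) := by
    obtain ⟨y0, hy0⟩ := hY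
    have : ((univ.filter (fun g : V → ZMod q => ∑ y ∈ Y, (h + g) y = 0)) ×ˢ
        (univ : Finset (ZMod q))).card ≤ (univ : Finset (V → ZMod q)).card := by
      apply card_le_card_of_injOn (fun p => p.1 + Pi.single y0 p.2) (fun _ _ => mem_univ _)
      rintro ⟨g, c⟩ hg ⟨g', c'⟩ hg' he
      simp only [coe_product, Set.mem_prod, mem_coe, mem_filter, mem_univ, true_and, and_true] at hg hg'
      have he : g + Pi.single y0 c = g' + Pi.single y0 c' := he
      have e1 : ∀ (g : V → ZMod q) (c : ZMod q), ∑ y ∈ Y, (h + (g + Pi.single y0 c) : V → ZMod q) y =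
          ∑ y ∈ Y, (h + g) y + c := by
        intro g c
        have : ∀ y, (h + (g + Pi.single y0 c) : V → ZMod q) y = (h + g) y + (Pi.single y0 c : V → ZMod q) y := by
          intro y; simp [add_assoc]
        simp only [this]
        rw [sum_add_distrib]
        congr 1
        rw [sum_pi_single']
        simp [hy0]
      have e2 := e1 g c
      have e3 := e1 g' c'
      rw [he, e3, hg, hg'] at e2
      have hc : c' = c := by simpa using e2
      subst hc
      rw [add_right_cancel he]
    rw [card_product, card_univ, card_univ, ZMod.card] at this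
    exact this
  have h2 : ∀ a : ZMod q, ((Fintype.piFinset
        (fun v => if v ∈ Y then univ.erase (a - h v) else (univ : Finset (ZMod q)))).card : ℝ) =
        (1 - 1 / (q : ℝ)) ^ Y.card * Fintype.card (V → ZMod q) := by
    intro a
    rw [Fintype.card_piFinset, Fintype.card_pi]
    push_cast
    have : ∀ v, (((if v ∈ Y then univ.erase (a - h v) else (univ : Finset (ZMod q))).card : ℕ) : ℝ)
        = (if v ∈ Y then (1 - 1 / (q : ℝ)) else 1) * (Fintype.card (ZMod q) : ℝ) := by
      intro v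
      split_ifs with hv
      · rw [card_erase_of_mem (mem_univ _), card_univ, ZMod.card,
          Nat.cast_sub (Nat.pos_of_ne_zero (NeZero.ne q))]
        field_simp
        simp
      · simp
    simp only [this]
    rw [prod_mul_distrib, prod_ite_mem]
    simp
  have h3 := card_le_card hsub
  have h4 := card_union_le (univ.filter (fun g : V → ZMod q => ∑ y ∈ Y, (h + g) y = 0))
      (univ.biUnion (fun a : ZMod q => Fintype.piFinset
        (fun v => if v ∈ Y then univ.erase (a - h v) else univ)))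
  have h5 := card_biUnion_le (s := (univ : Finset (ZMod q))) (t := fun a : ZMod q => Fintype.piFinset
        (fun v => if v ∈ Y then univ.erase (a - h v) else (univ : Finset (ZMod q))))
  have h6 : ((∑ a : ZMod q, (Fintype.piFinset
        (fun v => if v ∈ Y then univ.erase (a - h v) else (univ : Finset (ZMod q)))).card : ℕ) : ℝ)
        = q * ((1 - 1 / (q : ℝ)) ^ Y.card * Fintype.card (V → ZMod q)) := by
    push_cast
    simp only [h2]
    simp
  have h7 : ((univ.filter (fun g : V → ZMod q => ∑ y ∈ Y, (h + g) y = 0)).card : ℝ) ≤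
      1 / q * Fintype.card (V → ZMod q) := by
    have : (((univ.filter (fun g : V → ZMod q => ∑ y ∈ Y, (h + g) y = 0)).card * q : ℕ) : ℝ) ≤
      Fintype.card (V → ZMod q) := by exact_mod_cast h1
    push_cast at this
    rw [one_div, inv_mul_eq_div, le_div_iff₀ hq]
    exact this
  have h8 := h3.trans (h4.trans (Nat.add_le_add_left h5 _))
  have h9 : ((univ.filter (fun g : V → ZMod q => KR Y (h + g))).card : ℝ) ≤
    ((univ.filter (fun g : V → ZMod q => ∑ y ∈ Y, (h + g) y = 0)).card : ℝ) +
    ((∑ a : ZMod q, (Fintype.piFinset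
        (fun v => if v ∈ Y then univ.erase (a - h v) else (univ : Finset (ZMod q)))).card : ℕ) : ℝ) := by
    exact_mod_cast h8
  rw [h6] at h9
  nlinarith

/-- Exponential-moment union bound. -/
theorem exists_omega {V G ι : Type} [Fintype V] [DecidableEq V] [Fintype G] [DecidableEq G]
    [Nonempty G] (I : Finset ι) (B : ι → Finset G) (t : ℝ) (a : ℕ)
    (hB : ∀ i ∈ I, ((B i).card : ℝ) ≤ t * Fintype.card G)
    (hlt : (I.card : ℝ) * (1 + t) ^ Fintype.card V < 2 ^ a) :
    ∃ ω : V → G, ∀ i ∈ I, (univ.filter (fun v => ω v ∈ B i)).card ≤ a := by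
  by_contra hno
  push Not at hno
  have hG : (0 : ℝ) < Fintype.card G := by exact_mod_cast Fintype.card_pos
  have e1 : ∀ i ∈ I, ∑ ω : V → G, (2 : ℝ) ^ (univ.filter (fun v => ω v ∈ B i)).card ≤
      (1 + t) ^ Fintype.card V * (Fintype.card G : ℝ) ^ Fintype.card V := by
    intro i hi
    have : ∀ ω : V → G, (2 : ℝ) ^ (univ.filter (fun v => ω v ∈ B i)).card =
        ∏ v, (if ω v ∈ B i then (2 : ℝ) else 1) := by
      intro ω
      rw [prod_ite]
      simp
    simp only [this]
    have h2 := prod_univ_sum (fun _ : V => (univ : Finset G))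
      (fun _ g => if g ∈ B i then (2 : ℝ) else 1)
    rw [Fintype.piFinset_univ] at h2
    rw [← h2, prod_const, card_univ, ← mul_pow]
    have h3 : ∑ g : G, (if g ∈ B i then (2 : ℝ) else 1) = Fintype.card G + (B i).card := by
      have : ∀ g : G, (if g ∈ B i then (2 : ℝ) else 1) = 1 + (if g ∈ B i then (1 : ℝ) else 0) := by
        intro g; split_ifs <;> norm_num
      simp only [this]
      rw [sum_add_distrib]
      simp
    rw [h3]
    apply pow_le_pow_left₀ (by positivity)
    have := hB i hi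
    linarith
  have e2 : ∀ ω : V → G, (2 : ℝ) ^ a ≤
      ∑ i ∈ I, (2 : ℝ) ^ (univ.filter (fun v => ω v ∈ B i)).card := by
    intro ω
    obtain ⟨i, hi, hlt⟩ := hno ω
    calc (2 : ℝ) ^ a ≤ (2 : ℝ) ^ (univ.filter (fun v => ω v ∈ B i)).card :=
          pow_le_pow_right₀ (by norm_num) hlt.le
      _ ≤ _ := single_le_sum (f := fun i => (2 : ℝ) ^ (univ.filter (fun v => ω v ∈ B i)).card)
          (fun _ _ => by positivity) hi
  have e3 : ∑ _ω : V → G, (2 : ℝ) ^ a ≤ ∑ _i ∈ I,
      (1 + t) ^ Fintype.card V * (Fintype.card G : ℝ) ^ Fintype.card V := by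
    calc _ ≤ ∑ ω : V → G, ∑ i ∈ I, (2 : ℝ) ^ (univ.filter (fun v => ω v ∈ B i)).card :=
          sum_le_sum (fun ω _ => e2 ω)
      _ = ∑ i ∈ I, ∑ ω : V → G, (2 : ℝ) ^ (univ.filter (fun v => ω v ∈ B i)).card := sum_comm
      _ ≤ _ := sum_le_sum e1
  simp only [sum_const, card_univ, Fintype.card_pi, prod_const, nsmul_eq_mul, Nat.cast_pow] at e3
  have hp : (0 : ℝ) < (Fintype.card G : ℝ) ^ Fintype.card V := by positivity
  nlinarith

/-- A colouring of signatures. -/
def Good {P : Type} [Fintype P] [DecidableEq P] (χ : (P → ℕ) → P) (K m c : ℕ) : Prop :=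
  ∀ τ : P → ℕ, K ≤ ∑ i, τ i → m ≤ τ (χ τ) ∧
    (univ.filter (fun j => χ (τ + Pi.single j 2) = j)).card ≤ c

def chi3 (m : ℕ) (τ : Fin 3 → ℕ) : Fin 3 :=
  if τ 0 < m ∧ m ≤ τ 1 then 1 else if τ 1 < m ∧ m ≤ τ 2 then 2 else 0

theorem good3 (m : ℕ) : Good (chi3 m) (3 * m) m 2 := by
  intro τ hτ
  rw [Fin.sum_univ_three] at hτ
  constructor
  · unfold chi3
    split_ifs <;> omega
  · by_contra hlt
    have h3 : (univ.filter (fun j => chi3 m (τ + Pi.single j 2) = j)) = univ := by
      apply eq_univ_of_card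
      have := card_le_univ (univ.filter (fun j => chi3 m (τ + Pi.single j 2) = j))
      simp only [Fintype.card_fin] at this ⊢
      omega
    have hall : ∀ j, chi3 m (τ + Pi.single j 2) = j := fun j =>
      (mem_filter.1 (h3.symm ▸ mem_univ j : j ∈ univ.filter (fun j => chi3 m (τ + Pi.single j 2) = j))).2
    have a0 := hall 0
    have a1 := hall 1
    have a2 := hall 2
    unfold chi3 at a0 a1 a2
    simp at a0 a1 a2
    split_ifs at a0 a1 a2 <;> simp at a0 a1 a2 <;> omega

theorem good_prod {P Q : Type} [Fintype P] [DecidableEq P] [Fintype Q] [DecidableEq Q]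
    (χ1 : (P → ℕ) → P) (χ2 : (Q → ℕ) → Q) (K1 m1 c1 K2 m2 c2 : ℕ)
    (h1 : Good χ1 K1 m1 c1) (h2 : Good χ2 K2 m2 c2) (hm : K2 + 2 ≤ m1) :
    Good (fun τ : P × Q → ℕ => (χ1 (fun a => ∑ b, τ (a, b)),
      χ2 (fun b => τ (χ1 (fun a => ∑ b, τ (a, b)), b)))) K1 m2 (c1 * c2) := by
  intro τ hτ
  rw [Fintype.sum_prod_type] at hτ
  obtain ⟨a1, a2⟩ := h1 (fun a => ∑ b, τ (a, b)) hτ
  constructor
  · exact (h2 (fun b => τ (χ1 (fun a => ∑ b, τ (a, b)), b)) (by omega)).1
  · have row : ∀ (a : P) (b : Q), (fun a' => ∑ b', (τ + Pi.single (a, b) 2 : P × Q → ℕ) (a', b')) =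
        (fun a' => ∑ b', τ (a', b')) + Pi.single a 2 := by
      intro a b
      funext a'
      simp only [Pi.add_apply, sum_add_distrib]
      congr 1
      by_cases h : a' = a
      · subst h
        simp [Pi.single_apply]
      · simp [Pi.single_apply, h]
    have col : ∀ (a : P) (b : Q), (fun b' => (τ + Pi.single (a, b) 2 : P × Q → ℕ) (a, b')) =
        (fun b' => τ (a, b')) + Pi.single b 2 := by
      intro a b
      funext b'
      simp [Pi.single_apply]
    set J1 := univ.filter (fun j => χ1 ((fun a => ∑ b, τ (a, b)) + Pi.single j 2) = j) with hJ1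
    have hsub : univ.filter (fun j : P × Q => (χ1 (fun a => ∑ b, (τ + Pi.single j 2 : P × Q → ℕ) (a, b)),
      χ2 (fun b => (τ + Pi.single j 2 : P × Q → ℕ)
        (χ1 (fun a => ∑ b, (τ + Pi.single j 2 : P × Q → ℕ) (a, b)), b))) = j) ⊆
        J1.biUnion (fun a => (univ.filter (fun b =>
          χ2 ((fun b' => τ (a, b')) + Pi.single b 2) = b)).map ⟨fun b => (a, b), fun _ _ h => by simpa using h⟩) := by
      rintro ⟨a, b⟩ hab
      have hab := (mem_filter.1 hab).2
      rw [Prod.mk.injEq] at hab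
      obtain ⟨e1, e2⟩ := hab
      rw [e1, col] at e2
      rw [row] at e1
      exact mem_biUnion.2 ⟨a, mem_filter.2 ⟨mem_univ _, e1⟩,
        mem_map.2 ⟨b, mem_filter.2 ⟨mem_univ _, e2⟩, rfl⟩⟩
    refine (card_le_card hsub).trans (card_biUnion_le.trans ?_)
    refine (sum_le_card_nsmul _ _ c2 ?_).trans (by rw [smul_eq_mul]; exact Nat.mul_le_mul_right _ a2)
    intro a ha
    rw [card_map]
    have ha := (mem_filter.1 ha).2
    have h3 := (h1 ((fun a => ∑ b, τ (a, b)) + Pi.single a 2) (by
      simp only [Pi.add_apply, sum_add_distrib]; omega)).1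
    rw [ha] at h3
    simp only [Pi.add_apply, Pi.single_eq_same] at h3
    exact (h2 (fun b' => τ (a, b')) (by omega)).2

theorem exists_good (r m : ℕ) : ∃ (P : Type) (_ : Fintype P) (_ : DecidableEq P)
    (χ : (P → ℕ) → P) (K : ℕ), Fintype.card P = 3 ^ r ∧ Good χ K m (2 ^ r) := by
  induction r with
  | zero =>
    refine ⟨Unit, inferInstance, inferInstance, fun _ => (), m, by simp, fun τ hτ => ⟨by simpa using hτ, ?_⟩⟩
    simpa using card_le_univ _
  | succ r ih =>
    obtain ⟨P, _, _, χ, K, hc, hg⟩ := ih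
    have := good_prod _ χ _ _ _ K m (2 ^ r) (good3 (K + 2)) hg le_rfl
    rw [← pow_succ'] at this
    exact ⟨Fin 3 × P, inferInstance, inferInstance, _, _, by simp [hc, pow_succ, mul_comm], this⟩

theorem small_subsets {W : Type} [Fintype W] [DecidableEq W] (k : ℕ) (hW : 1 ≤ Fintype.card W) :
    ((range (k + 1)).biUnion (fun s => powersetCard s (univ : Finset W))).card ≤
      (k + 1) * Fintype.card W ^ k := by
  refine card_biUnion_le.trans ?_
  refine (sum_le_card_nsmul _ _ (Fintype.card W ^ k) ?_).trans (by simp)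
  intro s hs
  rw [card_powersetCard, card_univ]
  exact (Nat.choose_le_pow _ _).trans (Nat.pow_le_pow_right hW (by have := mem_range.1 hs; omega))

/-- The construction. -/
theorem construct {V P : Type} [Fintype V] [DecidableEq V] [Fintype P] [DecidableEq P]
    (part : V → P) (N : ℕ) (hN : ∀ j, (univ.filter (fun v => part v = j)).card ≤ N)
    (χ : (P → ℕ) → P) (K y c : ℕ) (hχ : Good χ K (y + 1) c) (hy : 1 ≤ y)
    (q : ℕ) [NeZero q] (t : ℝ) (ht0 : 0 ≤ t)
    (ht : ∀ z, y ≤ z → 1 / q + q * (1 - 1 / (q : ℝ)) ^ z ≤ t)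
    (k a : ℕ) (hk : K + 1 ≤ k) (hV : 1 ≤ Fintype.card V)
    (hlt : (((k + 1) * (Fintype.card V * q) ^ k : ℕ) : ℝ) * (1 + t) ^ Fintype.card V < 2 ^ a) :
    ∃ E : Finset (Finset V), (∀ e ∈ E, e.card = k) ∧
      (¬ ∃ T : Finset V, T.card = k + 1 ∧ ∀ e ⊆ T, e.card = k → e ∈ E) ∧
      ∀ S : Finset V, S.card = k - 1 → Fintype.card V ≤
        (univ.filter (fun v => v ∉ S ∧ insert v S ∈ E)).card + k + c * N + Fintype.card P * a := by
  classical
  let I : Finset (Finset (V × ZMod q)) :=
    (range (k + 1)).biUnion (fun s => powersetCard s (univ : Finset (V × ZMod q)))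
  let hh : Finset (V × ZMod q) → V → ZMod q := fun Γ v => ∑ p ∈ Γ.filter (fun p => p.1 = v), p.2
  let B : Finset (V × ZMod q) → Finset (V → ZMod q) := fun Γ =>
    if y ≤ (Γ.image Prod.fst).card then
      univ.filter (fun g => KR (Γ.image Prod.fst) (hh Γ + g)) else ∅
  have hq1 : 1 ≤ q := Nat.pos_of_ne_zero (NeZero.ne q)
  obtain ⟨ω, hω⟩ := exists_omega (V := V) I B t a (by
      intro Γ _
      simp only [B]
      split_ifs with h
      · refine (KR_count _ (card_pos.1 (by omega)) _).trans ?_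
        exact mul_le_mul_of_nonneg_right (ht _ h) (by positivity)
      · simp only [card_empty, Nat.cast_zero]; positivity) (by
      refine lt_of_le_of_lt ?_ hlt
      apply mul_le_mul_of_nonneg_right _ (by positivity)
      have := small_subsets (W := V × ZMod q) k (by
        rw [Fintype.card_prod, ZMod.card]; exact Nat.mul_pos hV hq1)
      rw [Fintype.card_prod, ZMod.card] at this
      exact_mod_cast this)
  let sig : Finset V → P → ℕ := fun e j => (e.filter (fun v => part v = j)).card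
  let lab : Finset V → P → V → ZMod q := fun e i => ∑ z ∈ e.filter (fun v => part v ≠ i), ω z
  let fire : Finset V → Prop := fun e => ∃ i, χ (sig e + Pi.single i 1) = i ∧
    KR (e.filter (fun v => part v = i)) (lab e i)
  have sig_sum : ∀ e, ∑ j, sig e j = e.card := fun e =>
    (card_eq_sum_card_fiberwise (f := part) (s := e) (t := univ) (fun _ _ => mem_univ _)).symm
  have sig_ins : ∀ (e : Finset V) (v : V), v ∉ e → sig (insert v e) = sig e + Pi.single (part v) 1 := by
    intro e v hv
    funext j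
    simp only [sig, Pi.add_apply, filter_insert, Pi.single_apply]
    by_cases h : part v = j
    · rw [if_pos h, if_pos h.symm, card_insert_of_notMem (fun h2 => hv (mem_filter.1 h2).1)]
    · rw [if_neg h, if_neg (fun h2 => h h2.symm), add_zero]
  refine ⟨(powersetCard k univ).filter (fun e => ¬ fire e),
    fun e he => (mem_powersetCard.1 (mem_filter.1 he).1).2, ?_, ?_⟩
  · rintro ⟨T, hT, hall⟩
    have h1 := (hχ (sig T) (by rw [sig_sum]; omega)).1
    set i := χ (sig T) with hi
    obtain ⟨x, hx, hkr⟩ := KR_exists (T.filter (fun v => part v = i))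
      (card_pos.1 (by simp only [sig] at h1; omega)) (lab T i)
    obtain ⟨hxT, hxi⟩ := mem_filter.1 hx
    have h2 := (mem_filter.1 (hall (T.erase x) (erase_subset _ _)
      (by rw [card_erase_of_mem hxT]; omega))).2
    apply h2
    refine ⟨i, ?_, ?_⟩
    · have := sig_ins (T.erase x) x (notMem_erase _ _)
      rw [insert_erase hxT, hxi] at this
      rw [← this]
    · have e1 : (T.erase x).filter (fun v => part v = i) = (T.filter (fun v => part v = i)).erase x :=
        filter_erase _ _ _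
      have e2 : lab (T.erase x) i = lab T i := by
        simp only [lab]
        rw [filter_erase, erase_eq_of_notMem (by simp [hxi])]
      rw [e1, e2]
      exact hkr
  · intro S hS
    let Γ : P → Finset (V × ZMod q) := fun i =>
      (S.filter (fun v => part v = i)).image (fun v => (v, lab S i v))
    have hΓ1 : ∀ i, (Γ i).image Prod.fst = S.filter (fun v => part v = i) := by
      intro i
      simp only [Γ, image_image]
      exact image_id'
    have hΓ2 : ∀ i, ∀ v ∈ S.filter (fun v => part v = i), hh (Γ i) v = lab S i v := by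
      intro i v hv
      have : (Γ i).filter (fun p => p.1 = v) = {(v, lab S i v)} := by
        ext p
        simp only [Γ, mem_filter, mem_image, mem_singleton]
        constructor
        · rintro ⟨⟨u, -, rfl⟩, rfl⟩; rfl
        · rintro rfl; exact ⟨⟨v, mem_filter.1 hv, rfl⟩, rfl⟩
      simp only [hh, this, sum_singleton]
    have hΓI : ∀ i, Γ i ∈ I := by
      intro i
      refine mem_biUnion.2 ⟨(Γ i).card, mem_range.2 ?_, mem_powersetCard.2 ⟨subset_univ _, rfl⟩⟩
      have h1 : (Γ i).card ≤ (S.filter (fun v => part v = i)).card := card_image_le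
      have h2 := card_filter_le S (fun v => part v = i)
      omega
    set J := univ.filter (fun j => χ (sig S + Pi.single j 2) = j) with hJ
    have hJc : J.card ≤ c := (hχ (sig S) (by rw [sig_sum]; omega)).2
    have hsub : (univ : Finset V) ⊆
        (univ.filter (fun v => v ∉ S ∧ insert v S ∈ (powersetCard k univ).filter (fun e => ¬ fire e)))
        ∪ S ∪ J.biUnion (fun j => univ.filter (fun v => part v = j)) ∪
        univ.biUnion (fun i => univ.filter (fun v => ω v ∈ B (Γ i))) := by
      intro v _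
      by_cases hv : v ∈ S
      · exact mem_union_left _ (mem_union_left _ (mem_union_right _ hv))
      by_cases hf : fire (insert v S)
      · obtain ⟨i, hi, hkr⟩ := hf
        rw [sig_ins S v hv] at hi
        by_cases hvi : part v = i
        · refine mem_union_left _ (mem_union_right _ (mem_biUnion.2 ⟨i, mem_filter.2 ⟨mem_univ _, ?_⟩,
            mem_filter.2 ⟨mem_univ _, hvi⟩⟩))
          rw [hvi, add_assoc, ← Pi.single_add] at hi
          exact hi
        · refine mem_union_right _ (mem_biUnion.2 ⟨i, mem_univ _, mem_filter.2 ⟨mem_univ _, ?_⟩⟩)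
          have h1 := (hχ (sig S + Pi.single (part v) 1 + Pi.single i 1) (by
            simp only [Pi.add_apply, sum_add_distrib, sig_sum]; omega)).1
          rw [hi] at h1
          simp only [Pi.add_apply, Pi.single_eq_same, Pi.single_eq_of_ne (Ne.symm hvi), sig] at h1
          simp only [B, hΓ1]
          rw [if_pos (by omega)]
          refine mem_filter.2 ⟨mem_univ _, ?_⟩
          rw [filter_insert, if_neg hvi] at hkr
          refine KR_congr _ _ _ ?_ hkr
          intro u hu
          simp only [lab, Pi.add_apply, hΓ2 i u hu]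
          rw [filter_insert, if_pos hvi, sum_insert (fun h2 => hv (mem_filter.1 h2).1)]
          simp [add_comm]
      · refine mem_union_left _ (mem_union_left _ (mem_union_left _ (mem_filter.2 ⟨mem_univ _, hv, ?_⟩)))
        exact mem_filter.2 ⟨mem_powersetCard.2 ⟨subset_univ _, by
          rw [card_insert_of_notMem hv]; omega⟩, hf⟩
    have c0 := card_le_card hsub
    have c1 : (J.biUnion (fun j => univ.filter (fun v => part v = j))).card ≤ c * N :=
      card_biUnion_le.trans ((sum_le_card_nsmul _ _ N (fun j _ => hN j)).trans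
        (by rw [smul_eq_mul]; exact Nat.mul_le_mul_right _ hJc))
    have c2 : (univ.biUnion (fun i => univ.filter (fun v => ω v ∈ B (Γ i)))).card ≤
        Fintype.card P * a :=
      card_biUnion_le.trans ((sum_le_card_nsmul _ _ a (fun i _ => hω _ (hΓI i))).trans (by simp))
    have c3 := c0.trans ((card_union_le _ _).trans (Nat.add_le_add_right
      ((card_union_le _ _).trans (Nat.add_le_add_right (card_union_le _ _) _)) _))
    rw [card_univ] at c3
    omega

theorem frequently_construct (ε : ℝ) (hε : 0 < ε) : ∃ k0 : ℕ, ∀ k, k0 ≤ k →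
    ∀ n0 : ℕ, ∃ n, n0 ≤ n ∧ k ≤ n ∧ 1 ≤ n ∧ ∃ E : Finset (Finset (Fin n)), (∀ e ∈ E, e.card = k) ∧
      (¬ ∃ T : Finset (Fin n), T.card = k + 1 ∧ ∀ e ⊆ T, e.card = k → e ∈ E) ∧
      ∀ S : Finset (Fin n), S.card = k - 1 → (1 - ε) * n ≤
        (univ.filter (fun v => v ∉ S ∧ insert v S ∈ E)).card := by
  classical
  obtain ⟨r, hr⟩ := exists_pow_lt_of_lt_one (show 0 < ε / 3 by positivity)
    (show (2 / 3 : ℝ) < 1 by norm_num)
  obtain ⟨L, hL⟩ := exists_nat_gt (3 * 3 ^ r / ε)
  have hL0 : (0 : ℝ) < L := lt_trans (by positivity) hL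
  have hL1 : 0 < L := by exact_mod_cast hL0
  set t : ℝ := 1 / (2 * L) with htdef
  have ht0 : 0 < t := by positivity
  have hρ : (1 + t) ^ L < 2 := by
    calc (1 + t) ^ L ≤ Real.exp t ^ L :=
          pow_le_pow_left₀ (by positivity) (by linarith [Real.add_one_le_exp t]) _
      _ = Real.exp (1 / 2) := by
          rw [← Real.exp_nat_mul]; congr 1; rw [htdef]; field_simp
      _ < 2 := by
          have h1 : Real.exp (1 / 2) ^ 2 = Real.exp 1 := by
            rw [← Real.exp_nat_mul]; norm_num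
          have h2 := Real.exp_one_lt_d9
          have h3 := Real.exp_pos (1 / 2)
          nlinarith
  obtain ⟨q, hq⟩ := exists_nat_gt (2 / t)
  have hq0 : (0 : ℝ) < q := lt_trans (by positivity) hq
  have hq1 : 1 ≤ q := by exact_mod_cast hq0
  haveI : NeZero q := ⟨by omega⟩
  have hq1' : (1 : ℝ) ≤ q := by exact_mod_cast hq1
  have hb0 : (0 : ℝ) ≤ 1 - 1 / (q : ℝ) := by
    rw [sub_nonneg, div_le_one hq0]; exact hq1'
  have hb1 : 1 - 1 / (q : ℝ) < 1 := by
    have : (0 : ℝ) < 1 / q := by positivity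
    linarith
  obtain ⟨y0, hy0⟩ := exists_pow_lt_of_lt_one (show 0 < t / (2 * q) by positivity) hb1
  have ht : ∀ z, y0 + 1 ≤ z → 1 / q + q * (1 - 1 / (q : ℝ)) ^ z ≤ t := by
    intro z hz
    have h1 : (1 - 1 / (q : ℝ)) ^ z ≤ (1 - 1 / (q : ℝ)) ^ y0 :=
      pow_le_pow_of_le_one hb0 hb1.le (by omega)
    have h2 : q * (1 - 1 / (q : ℝ)) ^ z ≤ q * (t / (2 * q)) :=
      mul_le_mul_of_nonneg_left (h1.trans hy0.le) hq0.le
    have h3 : q * (t / (2 * q)) = t / 2 := by field_simp
    have h4 : 1 / (q : ℝ) ≤ t / 2 := by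
      rw [div_lt_iff₀ ht0] at hq
      rw [div_le_iff₀ hq0]
      linarith
    linarith
  obtain ⟨P, _, _, χ, K, hc, hg⟩ := exists_good r (y0 + 1 + 1)
  refine ⟨K + 1, fun k hk n0 => ?_⟩
  set d := 3 ^ r with hd
  have hd1 : 1 ≤ d := Nat.one_le_pow _ _ (by norm_num)
  set ρ : ℝ := (1 + t) ^ L / 2 with hρdef
  have hρ0 : 0 < ρ := by positivity
  have hρ1 : ρ < 1 := by rw [hρdef]; linarith
  have hlim := (tendsto_pow_const_mul_const_pow_of_abs_lt_one k
    (show |ρ| < 1 by rw [abs_of_pos hρ0]; exact hρ1)).const_mul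
      (((k + 1) * (d * L * q) ^ k : ℕ) : ℝ)
  rw [mul_zero] at hlim
  have hev := hlim.eventually (gt_mem_nhds (show (0 : ℝ) < 1 by norm_num))
  obtain ⟨M0, hM0⟩ := Filter.eventually_atTop.1 hev
  obtain ⟨M1, hM1⟩ := exists_nat_gt (3 * k / ε)
  obtain ⟨M, hM⟩ : ∃ M, M = M0 + M1 + n0 + k + 1 := ⟨_, rfl⟩
  have hMn : M ≤ d * (L * M) := by
    calc M = 1 * (1 * M) := by ring
      _ ≤ d * (L * M) := Nat.mul_le_mul hd1 (Nat.mul_le_mul_right _ hL1)
  refine ⟨d * (L * M), by omega, by omega, by omega, ?_⟩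
  let e : Fin (d * (L * M)) ≃ P × Fin (L * M) :=
    (Fintype.equivFinOfCardEq (by simp [hc])).symm
  obtain ⟨E, h1, h2, h3⟩ := construct (V := Fin (d * (L * M))) (fun v => (e v).1) (L * M) (by
      intro j
      calc _ ≤ (univ : Finset (Fin (L * M))).card := by
            apply card_le_card_of_injOn (fun v => (e v).2) (fun _ _ => mem_univ _)
            intro u hu v hv huv
            apply e.injective
            simp only [coe_filter, mem_univ, true_and, Set.mem_setOf_eq] at hu hv
            exact Prod.ext (hu.trans hv.symm) huv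
        _ = L * M := by simp)
    χ K (y0 + 1) (2 ^ r) hg (by omega) q t ht0.le ht k (d * M) hk (by simp only [Fintype.card_fin]; omega) (by
      simp only [Fintype.card_fin]
      have a1 := hM0 M (by omega)
      have a2 : (1 + t) ^ (d * (L * M)) = ρ ^ (d * M) * 2 ^ (d * M) := by
        rw [← mul_pow, hρdef, div_mul_cancel₀ _ (two_ne_zero), ← pow_mul]
        congr 1; ring
      have a3 : ρ ^ (d * M) ≤ ρ ^ M := pow_le_pow_of_le_one hρ0.le hρ1.le
        (by calc M = 1 * M := by ring
          _ ≤ d * M := Nat.mul_le_mul_right _ hd1)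
      have a4 : (((k + 1) * (d * (L * M) * q) ^ k : ℕ) : ℝ) =
          (((k + 1) * (d * L * q) ^ k : ℕ) : ℝ) * (M : ℝ) ^ k := by
        push_cast; ring
      rw [a2, a4, ← mul_assoc]
      have a5 : (((k + 1) * (d * L * q) ^ k : ℕ) : ℝ) * (M : ℝ) ^ k * ρ ^ (d * M) < 1 := by
        refine lt_of_le_of_lt ?_ a1
        rw [mul_assoc]
        gcongr
      have a6 : (0 : ℝ) < 2 ^ (d * M) := by positivity
      nlinarith)
  refine ⟨E, h1, h2, fun S hS => ?_⟩
  have h4 := h3 S hS
  simp only [Fintype.card_fin, hc] at h4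
  have h5 : ((d * (L * M) : ℕ) : ℝ) ≤
      (((univ.filter (fun v => v ∉ S ∧ insert v S ∈ E)).card + k + 2 ^ r * (L * M) + d * (d * M) : ℕ) : ℝ) := by
    exact_mod_cast h4
  have hdR : (d : ℝ) = 3 ^ r := by rw [hd]; push_cast; rfl
  have hMR : (M1 : ℝ) ≤ ((d * (L * M) : ℕ) : ℝ) := by exact_mod_cast (by omega : M1 ≤ d * (L * M))
  have hM0' : (0 : ℝ) ≤ M := by positivity
  push_cast at h5 hMR ⊢
  have b1 : (k : ℝ) ≤ ε / 3 * (d * (L * M)) := by
    rw [div_lt_iff₀ hε] at hM1
    nlinarith
  have b2 : (2 : ℝ) ^ r * (L * M) ≤ ε / 3 * (d * (L * M)) := by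
    rw [div_pow, div_lt_iff₀ (by positivity), ← hdR] at hr
    have : (0 : ℝ) ≤ L * M := by positivity
    nlinarith
  have b3 : (d : ℝ) * (d * M) ≤ ε / 3 * (d * (L * M)) := by
    rw [div_lt_iff₀ hε, ← hdR] at hL
    have : (0 : ℝ) ≤ d * M := by positivity
    nlinarith
  linarith

end Pool.Agent.H15.Codeg
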