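import Mathlib

set_option autoImplicit false

namespace Pool.Agent.H15.CpAn

open Set Filter Topology Metric PiNat

section fusion
variable {X : Type} (P : Set X → (ℕ → ℕ) → ℕ → Set X → Prop)

theorem ext_len [TopologicalSpace X]
    (hs : ∀ W a m H, P W a m H → IsOpen H → H.Nonempty →
      ∃ a' ∈ cylinder a m, ∃ H' ⊆ H, IsOpen H' ∧ H'.Nonempty ∧ P W a' (m + 1) H')
    {W H : Set X} {a : ℕ → ℕ} (h : P W a 0 H) (h1 : IsOpen H) (h2 : H.Nonempty) (m : ℕ) :
    ∃ a', ∃ H' ⊆ H, IsOpen H' ∧ H'.Nonempty ∧ P W a' m H' := by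
  induction m with
  | zero => exact ⟨a, H, subset_rfl, h1, h2, h⟩
  | succ m ih =>
    obtain ⟨a', H', b1, b2, b3, b4⟩ := ih
    obtain ⟨a'', -, H'', c1, c2⟩ := hs W a' m H' b4 b2 b3
    exact ⟨a'', H'', c1.trans b1, c2⟩

theorem ext_fin [TopologicalSpace X] (hm : ∀ W a m H H', P W a m H → H' ⊆ H → P W a m H')
    (hs : ∀ W a m H, P W a m H → IsOpen H → H.Nonempty →
      ∃ a' ∈ cylinder a m, ∃ H' ⊆ H, IsOpen H' ∧ H'.Nonempty ∧ P W a' (m + 1) H')
    (W : ℕ → Set X) (a : ℕ → ℕ → ℕ) (j k : ℕ) {O : Set X} (h1 : IsOpen O) (h2 : O.Nonempty)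
    (h : ∀ n < k, P (W n) (a n) j O) : ∃ a' : ℕ → ℕ → ℕ, ∃ O' ⊆ O, IsOpen O' ∧ O'.Nonempty ∧
      ∀ n < k, a' n ∈ cylinder (a n) j ∧ P (W n) (a' n) (j + 1) O' := by
  induction k with
  | zero => exact ⟨a, O, subset_rfl, h1, h2, fun _ h => absurd h (Nat.not_lt_zero _)⟩
  | succ k ih =>
    obtain ⟨a', O', b1, b2, b3, b4⟩ := ih fun n hn => h n (by omega)
    obtain ⟨c, c0, O'', c1, c2, c3, c4⟩ := hs _ _ _ _ (hm _ _ _ _ _ (h k (by omega)) b1) b2 b3
    refine ⟨Function.update a' k c, O'', c1.trans b1, c2, c3, fun n hn => ?_⟩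
    rcases (Nat.lt_succ_iff.1 hn).eq_or_lt with rfl | hn
    · simpa using ⟨c0, c4⟩
    · rw [Function.update_of_ne hn.ne]
      exact ⟨(b4 n hn).1, hm _ _ _ _ _ (b4 n hn).2 c1⟩

theorem fusion [MetricSpace X] [CompleteSpace X] [Nonempty X]
    (h0 : ∀ W, IsOpen W → W.Nonempty → ∃ H ⊆ W, IsOpen H ∧ H.Nonempty ∧ P W 0 0 H)
    (hm : ∀ W a m H H', P W a m H → H' ⊆ H → P W a m H')
    (hc : ∀ W a a' m H, P W a m H → a' ∈ cylinder a m → P W a' m H)
    (hs : ∀ W a m H, P W a m H → IsOpen H → H.Nonempty →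
      ∃ a' ∈ cylinder a m, ∃ H' ⊆ H, IsOpen H' ∧ H'.Nonempty ∧ P W a' (m + 1) H') :
    ∃ x, ∀ ε > 0, ∃ W ⊆ ball x ε, ∃ a, ∀ m, ∃ m' ≥ m, ∃ H, x ∈ H ∧ P W a m' H := by
  let St := Set X × (ℕ → Set X) × (ℕ → ℕ → ℕ)
  let I : ℕ → St → Prop := fun j s =>
    IsOpen s.1 ∧ s.1.Nonempty ∧ ∀ n < j, P (s.2.1 n) (s.2.2 n) j s.1
  have step : ∀ j s, I j s → ∃ s' : St, I (j + 1) s' ∧ closure s'.1 ⊆ s.1 ∧
      (∀ n < j, s'.2.1 n = s.2.1 n ∧ s'.2.2 n ∈ cylinder (s.2.2 n) j) ∧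
      ∃ c, s'.1 ⊆ ball c (1 / (j + 1)) ∧ s'.2.1 j ⊆ ball c (1 / (j + 1)) := by
    rintro j ⟨O, W, a⟩ ⟨h1, h2, h3⟩
    obtain ⟨a1, O1, b1, b2, ⟨c, b3⟩, b4⟩ := ext_fin P hm hs W a j j h1 h2 h3
    obtain ⟨K, k1, k2, k3⟩ := exists_mem_nhds_isClosed_subset
      (inter_mem (b2.mem_nhds b3) (ball_mem_nhds c (Nat.one_div_pos_of_nat (n := j))))
    obtain ⟨H, c1, c2, c3, c4⟩ := h0 (interior K) isOpen_interior ⟨c, mem_interior_iff_mem_nhds.2 k1⟩
    obtain ⟨a2, H', d1, d2, d3, d4⟩ := ext_len P hs c4 c2 c3 (j + 1)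
    have e : H' ⊆ K := d1.trans (c1.trans interior_subset)
    refine ⟨(H', Function.update W j (interior K), Function.update a1 j a2),
      ⟨d2, d3, fun n hn => ?_⟩, (closure_minimal e k2).trans (k3.trans (inter_subset_left.trans b1)),
      fun n hn => ?_, c, e.trans (k3.trans inter_subset_right), ?_⟩
    · rcases (Nat.lt_succ_iff.1 hn).eq_or_lt with rfl | hn
      · simpa using d4
      · simp only [Function.update_of_ne hn.ne]
        exact hm _ _ _ _ _ (b4 n hn).2 (e.trans (k3.trans inter_subset_left))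
    · simp only [Function.update_of_ne hn.ne]
      exact ⟨trivial, (b4 n hn).1⟩
    · simp only [Function.update_self]
      exact interior_subset.trans (k3.trans inter_subset_right)
  choose! nx n1 n2 n3 c n4 n5 using step
  let S : ℕ → St := fun j => Nat.rec (univ, fun _ => univ, 0) nx j
  have hS : ∀ j, S (j + 1) = nx j (S j) := fun _ => rfl
  have hI : ∀ j, I j (S j) := by
    intro j
    induction j with
    | zero => exact ⟨isOpen_univ, univ_nonempty, fun _ h => absurd h (Nat.not_lt_zero _)⟩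
    | succ j ih => exact n1 j _ ih
  have anti : Antitone fun j => (S j).1 :=
    antitone_nat_of_succ_le fun j => subset_closure.trans (n2 j _ (hI j))
  obtain ⟨x, hx⟩ : (⋂ j, closure (S (j + 1)).1).Nonempty := by
    refine Metric.nonempty_iInter_of_nonempty_biInter (fun _ => isClosed_closure)
      (fun j => (isBounded_ball.subset (n4 j _ (hI j))).closure) (fun N => ?_) ?_
    · obtain ⟨y, hy⟩ := (hI (N + 1)).2.1
      exact ⟨y, mem_iInter₂.2 fun n hn => subset_closure (anti (Nat.succ_le_succ hn) hy)⟩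
    · have := (tendsto_one_div_add_atTop_nhds_zero_nat (𝕜 := ℝ)).const_mul 2
      rw [mul_zero] at this
      refine squeeze_zero (fun _ => diam_nonneg) (fun j => ?_) this
      rw [diam_closure]
      exact (diam_mono (n4 j _ (hI j)) isBounded_ball).trans
        (diam_ball (Nat.one_div_pos_of_nat (n := j)).le)
  have hx' : ∀ j, x ∈ (S j).1 := fun j => n2 j _ (hI j) (mem_iInter.1 hx j)
  refine ⟨x, fun ε hε => ?_⟩
  obtain ⟨n, hn⟩ := exists_nat_one_div_lt (half_pos hε)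
  have e1 : ∀ j, n < j → (S j).2.1 n = (S (n + 1)).2.1 n := by
    intro j hj
    induction j, hj using Nat.le_induction with
    | base => rfl
    | succ j hj ih => exact ((n3 j _ (hI j) n hj).1).trans ih
  have e2 : ∀ j, n < j → ∀ j', j ≤ j' → (S j').2.2 n ∈ cylinder ((S j).2.2 n) j := by
    intro j hj j' hj'
    induction j', hj' using Nat.le_induction with
    | base => exact self_mem_cylinder _ _
    | succ j' hj' ih =>
      exact fun i hi => ((n3 j' _ (hI j') n (by omega)).2 i (by omega)).trans (ih i hi)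
  refine ⟨(S (n + 1)).2.1 n, fun y hy => ?_, fun i => (S (n + i + 1)).2.2 n i,
    fun m => ⟨n + m + 1, by omega, _, hx' (n + m + 1), ?_⟩⟩
  · have h1 := n5 n _ (hI n) hy
    have h2 := n4 n _ (hI n) (hx' (n + 1))
    rw [mem_ball] at *
    linarith [dist_triangle_right y x (c n (S n))]
  · rw [← e1 (n + m + 1) (by omega)]
    refine hc _ _ _ _ _ ((hI (n + m + 1)).2.2 n (by omega)) fun i hi => ?_
    rcases le_total i m with h | h
    · exact (e2 (n + i + 1) (by omega) (n + m + 1) (by omega) i (by omega)).symm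
    · exact e2 (n + m + 1) (by omega) (n + i + 1) (by omega) i hi

end fusion

theorem bump {X : Type} [TopologicalSpace X] [CompletelyRegularSpace X] {U : Set X}
    (h1 : IsOpen U) (h2 : U.Nonempty) : ∃ V ⊆ U, IsOpen V ∧ V.Nonempty ∧ ∃ ψ : X → ℝ,
      Continuous ψ ∧ (∀ x ∈ V, ψ x = 1) ∧ ∀ x ∉ U, ψ x = 0 := by
  obtain ⟨x, hx⟩ := h2
  obtain ⟨f, f1, f2, f3⟩ := CompletelyRegularSpace.completely_regular_isOpen x U h1 hx
  refine ⟨{y | (f y : ℝ) < 1 / 2}, fun y hy => ?_, isOpen_lt (by fun_prop) continuous_const,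
    ⟨x, by simp [f2]⟩, fun y => min 1 (2 - 2 * f y), by fun_prop, fun y hy => ?_, fun y hy => ?_⟩
  · by_contra h
    have := f3 h
    simp only [mem_ofPred_eq, this] at hy
    norm_num at hy
  · exact min_eq_left (by simp only [mem_ofPred_eq] at hy; linarith)
  · simp [f3 hy]

def Disc (X : Type) [TopologicalSpace X] : Prop :=
  ∀ U : Set X, IsOpen U → U.Nonempty → ∃ V : ℕ → Set X, (∀ i, V i ⊆ U ∧ IsOpen (V i) ∧
    (V i).Nonempty) ∧ Pairwise (fun i j => Disjoint (V i) (V j)) ∧ LocallyFinite V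

theorem glue {X : Type} [TopologicalSpace X] [CompletelyRegularSpace X] (hD : Disc X) {U : Set X}
    (h1 : IsOpen U) (h2 : U.Nonempty) : ∃ V : ℕ → Set X, (∀ i, V i ⊆ U ∧ IsOpen (V i) ∧
      (V i).Nonempty) ∧ ∀ f : ℕ → X → ℝ, (∀ i, Continuous (f i)) →
      ∃ g : X → ℝ, Continuous g ∧ ∀ i, ∀ x ∈ V i, g x = f i x := by
  obtain ⟨V, a1, a2, a3⟩ := hD U h1 h2
  choose V' b1 b2 b3 ψ b4 b5 b6 using fun i => bump (a1 i).2.1 (a1 i).2.2
  refine ⟨V', fun i => ⟨(b1 i).trans (a1 i).1, b2 i, b3 i⟩, fun f hf =>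
    ⟨fun x => ∑ᶠ i, ψ i x * f i x, continuous_finsum (fun i => (b4 i).mul (hf i))
      (a3.subset fun i x hx => ?_), fun i x hx => ?_⟩⟩
  · by_contra h
    exact hx (by simp [b6 i x h])
  · beta_reduce
    rw [finsum_eq_single _ i fun j hj => ?_, b5 i x hx, one_mul]
    rw [b6 j x (disjoint_right.1 (a2 hj) (b1 i hx)), zero_mul]

theorem no_embed (X : Type) [TopologicalSpace X] [TopologicalSpace.IsCompletelyMetrizableSpace X]
    [Nonempty X] (hD : Disc X) (Y : Type) [TopologicalSpace Y] [RegularSpace Y]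
    (hY : MeasureTheory.AnalyticSet (univ : Set Y)) (e : {f : X → ℝ // Continuous f} → Y) :
    ¬ IsEmbedding e := by
  intro he
  let := TopologicalSpace.upgradeIsCompletelyMetrizable X
  rw [MeasureTheory.AnalyticSet] at hY
  obtain ⟨φ, hφ, hφ'⟩ := hY.resolve_left (Nonempty.ne_empty ⟨e ⟨0, continuous_const⟩, trivial⟩)
  obtain ⟨x, hx⟩ := fusion (X := X) (fun W a m H => ∀ f : X → ℝ, Continuous f →
      ∃ h : {f : X → ℝ // Continuous f}, e h ∈ φ '' cylinder a m ∧ (∀ z ∈ H, h.1 z = f z) ∧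
        ∀ z ∉ W, h.1 z = 0)
    (fun W h1 h2 => by
      obtain ⟨V, a1, a2, a3, ψ, a4, a5, a6⟩ := bump h1 h2
      refine ⟨V, a1, a2, a3, fun f hf => ⟨⟨fun z => ψ z * f z, a4.mul hf⟩, ?_,
        fun z hz => by simp [a5 z hz], fun z hz => by simp [a6 z hz]⟩⟩
      rw [cylinder_zero, image_univ, hφ']
      trivial)
    (fun W a m H H' h h' f hf => (h f hf).imp fun g hg =>
      ⟨hg.1, fun z hz => hg.2.1 z (h' hz), hg.2.2⟩)
    (fun W a a' m H h h' => by rwa [mem_cylinder_iff_eq.1 h'])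
    (fun W a m H h h1 h2 => by
      by_contra hc
      push Not at hc
      obtain ⟨V, a1, a2⟩ := glue hD h1 h2
      choose f f1 f2 using fun i => hc (Function.update a m i) (update_mem_cylinder _ _ _) (V i)
        (a1 i).1 (a1 i).2.1 (a1 i).2.2
      obtain ⟨g, g1, g2⟩ := a2 f f1
      obtain ⟨k, ⟨b, b1, b2⟩, k1, k2⟩ := h g g1
      rw [← iUnion_cylinder_update] at b1
      obtain ⟨i, hi⟩ := mem_iUnion.1 b1
      obtain ⟨z, z1, z2⟩ := f2 i k ⟨b, hi, b2⟩ fun z hz => (k1 z ((a1 i).1 hz)).trans (g2 i z hz)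
      exact z2 (k2 z z1))
  obtain ⟨O, o1, o2⟩ := he.isInducing.isOpen_iff.1
    (isOpen_lt (f := fun h : {f : X → ℝ // Continuous f} => h.1 x) (g := fun _ => (1 : ℝ))
      ((continuous_apply x).comp continuous_subtype_val) continuous_const)
  have o3 : ∀ h, e h ∈ O ↔ h.1 x < 1 := fun h => Set.ext_iff.1 o2 h
  obtain ⟨K, k1, k2, k3⟩ := exists_mem_nhds_isClosed_subset
    (o1.mem_nhds ((o3 ⟨0, continuous_const⟩).2 (by simp)))
  obtain ⟨N, n1, n2⟩ := (mem_nhds_subtype _ _ _).1 (he.continuous.continuousAt.preimage_mem_nhds k1)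
  rw [nhds_pi, Filter.mem_pi'] at n1
  obtain ⟨F, t, t1, t2⟩ := n1
  obtain ⟨ε, hε, h1⟩ := Metric.mem_nhds_iff.1
    (((F.finite_toSet.subset (sdiff_subset (t := {x}))).isClosed.isOpen_compl).mem_nhds
      (show x ∈ ((F : Set X) \ {x})ᶜ by simp))
  obtain ⟨W, w1, a, ha⟩ := hx ε hε
  have key : ∀ G : Set Y, IsOpen G → φ a ∈ G → ∀ f : X → ℝ, Continuous f →
      ∃ h : {f : X → ℝ // Continuous f}, e h ∈ G ∧ h.1 x = f x ∧ ∀ z ∉ W, h.1 z = 0 := by
    intro G g1 g2 f hf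
    obtain ⟨_, ⟨b, m, rfl⟩, b1, b2⟩ := (isTopologicalBasis_cylinders fun _ : ℕ => ℕ).exists_subset_of_mem_open
      (show a ∈ φ ⁻¹' G from g2) (g1.preimage hφ)
    obtain ⟨m', c1, H, c2, c3⟩ := ha m
    obtain ⟨h, ⟨b', d1, d2⟩, d3, d4⟩ := c3 f hf
    refine ⟨h, d2 ▸ b2 ?_, d3 x c2, d4⟩
    rw [← mem_cylinder_iff_eq.1 b1]
    exact cylinder_anti _ c1 d1
  by_cases hO : φ a ∈ O
  · obtain ⟨h, a1, a2, -⟩ := key O o1 hO 1 continuous_const
    have := (o3 h).1 a1
    simp [a2] at this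
  · obtain ⟨h, a1, a2, a3⟩ := key Kᶜ k2.isOpen_compl (fun h => hO (k3 h)) 0 continuous_const
    refine a1 (n2 (t2 fun z hz => ?_))
    have : h.1 z = 0 := by
      by_cases hzx : z = x
      · rw [hzx, a2]
        rfl
      · exact a3 z fun hW => h1 (w1 hW) ⟨hz, hzx⟩
    rw [this]
    exact mem_of_mem_nhds (t1 z)

instance : PolishSpace {x : ℝ // Irrational x} := by
  have hq : ∀ (x : {x : ℝ // Irrational x}) (q : ℚ), x.1 - q ≠ 0 := fun x q =>
    sub_ne_zero.2 (x.2.ne_rat q)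
  refine IsClosedEmbedding.polishSpace (β := ℝ × (ℚ → ℝ))
    (f := fun x => (x.1, fun q => (x.1 - q)⁻¹)) ⟨IsEmbedding.of_comp (g := Prod.fst) ?_
      continuous_fst IsEmbedding.subtypeVal, ?_⟩
  · exact continuous_subtype_val.prodMk (continuous_pi fun q =>
      (continuous_subtype_val.sub continuous_const).inv₀ fun x => hq x q)
  · have : range (fun x : {x : ℝ // Irrational x} => (x.1, fun q : ℚ => (x.1 - q)⁻¹)) =
        ⋂ q : ℚ, {p : ℝ × (ℚ → ℝ) | p.2 q * (p.1 - q) = 1} := by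
      ext p
      simp only [mem_iInter, mem_ofPred_eq]
      constructor
      · rintro ⟨x, rfl⟩ q
        exact inv_mul_cancel₀ (hq x q)
      · intro h
        refine ⟨⟨p.1, ?_⟩, Prod.ext rfl (funext fun q => (eq_inv_of_mul_eq_one_left (h q)).symm)⟩
        rintro ⟨q, hq⟩
        have := h q
        simp [hq] at this
    rw [this]
    exact isClosed_iInter fun q => isClosed_eq (by fun_prop) continuous_const

theorem disc_irr : Disc {x : ℝ // Irrational x} := by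
  rintro U hU ⟨x, hx⟩
  obtain ⟨ε, hε, h⟩ := Metric.isOpen_iff.1 hU x hx
  obtain ⟨q, q1, q2⟩ := exists_rat_btwn (show x.1 - ε / 2 < x.1 by linarith)
  let d : ℕ → ℝ := fun i => q + ε / 2 * (1 / (i + 1))
  have hd : StrictAnti d := strictAnti_nat_of_succ_lt fun i => by
    have : (1 : ℝ) / ((i + 1 : ℕ) + 1) < 1 / (i + 1) :=
      one_div_lt_one_div_of_lt (by positivity) (by push_cast; linarith)
    simp only [d]
    nlinarith
  have hq : ∀ i, (q : ℝ) < d i := fun i => lt_add_of_pos_right _ (by positivity)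
  refine ⟨fun i => Subtype.val ⁻¹' Ioo (d (i + 1)) (d i), fun i => ⟨fun y hy => h ?_,
    isOpen_Ioo.preimage continuous_subtype_val, ?_⟩, ?_, fun y => ?_⟩
  · have h1 := hq (i + 1)
    have h2 : d i ≤ d 0 := hd.antitone (Nat.zero_le i)
    have h3 : d 0 = q + ε / 2 := by simp [d]
    rw [mem_ball, Subtype.dist_eq, Real.dist_eq, abs_lt]
    constructor <;> linarith [hy.1, hy.2]
  · obtain ⟨r, r1, r2⟩ := exists_irrational_btwn (hd (Nat.lt_succ_self i))
    exact ⟨⟨r, r1⟩, r2⟩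
  · intro i j hij
    refine disjoint_left.2 ?_
    rintro y ⟨a1, a2⟩ ⟨b1, b2⟩
    have c1 := hd.lt_iff_gt.1 (a1.trans b2)
    have c2 := hd.lt_iff_gt.1 (b1.trans a2)
    omega
  · rcases lt_or_gt_of_ne (y.2.ne_rat q) with h1 | h1
    · refine ⟨Subtype.val ⁻¹' Iio q, (isOpen_Iio.preimage continuous_subtype_val).mem_nhds h1,
        finite_empty.subset ?_⟩
      rintro i ⟨z, z1, z2⟩
      exact lt_irrefl _ (((hq _).trans z1.1).trans z2)
    · have ht : Tendsto d atTop (𝓝 q) := by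
        have := ((tendsto_one_div_add_atTop_nhds_zero_nat (𝕜 := ℝ)).const_mul (ε / 2)).const_add
          (q : ℝ)
        rwa [mul_zero, add_zero] at this
      obtain ⟨N, hN⟩ := (ht.eventually (gt_mem_nhds h1)).exists
      refine ⟨Subtype.val ⁻¹' Ioi (d N), (isOpen_Ioi.preimage continuous_subtype_val).mem_nhds hN,
        (finite_Iio N).subset ?_⟩
      rintro i ⟨z, z1, z2⟩
      exact hd.lt_iff_gt.1 (lt_trans z2 z1.2)

theorem disc_pi : Disc (ℕ → ℝ) := by
  classical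
  rintro U hU ⟨x, hx⟩
  have h1 := hU.mem_nhds hx
  rw [nhds_pi, Filter.mem_pi'] at h1
  obtain ⟨F, t, t1, t2⟩ := h1
  obtain ⟨k, hk⟩ := Infinite.exists_notMem_finset F
  refine ⟨fun i => U ∩ {y | y k ∈ Ioo (i : ℝ) (i + 1)}, fun i => ⟨inter_subset_left,
    hU.inter (isOpen_Ioo.preimage (continuous_apply k)), Function.update x k (i + 1 / 2),
    t2 fun j hj => ?_, by simp; norm_num⟩, fun i j hij => ?_, fun y => ?_⟩
  · rw [Function.update_of_ne fun h : j = k => hk (h ▸ hj)]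
    exact mem_of_mem_nhds (t1 j)
  · refine disjoint_left.2 ?_
    rintro y ⟨-, a1, a2⟩ ⟨-, b1, b2⟩
    have c1 : i < j + 1 := by exact_mod_cast a1.trans b2
    have c2 : j < i + 1 := by exact_mod_cast b1.trans a2
    omega
  · obtain ⟨N, hN⟩ := exists_nat_gt (y k)
    refine ⟨{z | z k < N}, (isOpen_lt (continuous_apply k) continuous_const).mem_nhds hN,
      (finite_Iio N).subset ?_⟩
    rintro i ⟨z, ⟨-, z1, -⟩, z2⟩
    exact_mod_cast lt_trans z1 z2

theorem dual_embed {X Z : Type} [TopologicalSpace X] [TopologicalSpace Z] {r : X → Z}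
    (h1 : Continuous r) (h2 : Function.Surjective r) : IsEmbedding
      fun u : {f : Z → ℝ // Continuous f} => (⟨u.1 ∘ r, u.2.comp h1⟩ : {f : X → ℝ // Continuous f}) := by
  obtain ⟨s, hs⟩ := h2.hasRightInverse
  refine IsEmbedding.of_comp (g := fun (v : {f : X → ℝ // Continuous f}) => v.1 ∘ s)
    (Continuous.subtype_mk (f := fun u : {f : Z → ℝ // Continuous f} => u.1 ∘ r)
      (continuous_pi fun x => (continuous_apply (r x)).comp continuous_subtype_val) _)
    (continuous_pi fun z => (continuous_apply (s z)).comp continuous_subtype_val) ?_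
  convert IsEmbedding.subtypeVal using 1
  funext u
  exact funext fun z => congrArg u.1 (hs z)

theorem exists_onto {X : Type} [TopologicalSpace X] [CompletelyRegularSpace X] [Nonempty X]
    (hD : Disc X) : ∃ r : {f : X → ℝ // Continuous f} → (ℕ → ℝ),
      Continuous r ∧ Function.Surjective r := by
  obtain ⟨V, a1, a2⟩ := glue hD isOpen_univ univ_nonempty
  choose x hx using fun i => (a1 i).2.2
  refine ⟨fun f i => f.1 (x i), continuous_pi fun i =>
    (continuous_apply (x i)).comp continuous_subtype_val, fun y => ?_⟩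
  obtain ⟨g, g1, g2⟩ := a2 (fun i _ => y i) fun _ => continuous_const
  exact ⟨⟨g, g1⟩, funext fun i => g2 i _ (hx i)⟩

instance : Nonempty {x : ℝ // Irrational x} := ⟨⟨_, irrational_sqrt_two⟩⟩

end Pool.Agent.H15.CpAn
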