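import Mathlib

set_option autoImplicit false

namespace Pool.Agent.H15.Cpk

open ComplexConjugate

variable {U : Type} [AddCommGroup U] [Module ℂ U]

theorem cs0 (B : U →ₗ⋆[ℂ] U →ₗ[ℂ] ℂ) (hs : ∀ x y, B y x = conj (B x y))
    (hp : ∀ x, 0 ≤ (B x x).re) (a x : U) (ha : (B a a).re = 0) : B a x = 0 := by
  by_contra hne
  have hpos : 0 < Complex.normSq (B a x) := Complex.normSq_pos.mpr hne
  set c := B a x with hc
  set s : ℝ := ((B x x).re + 1) / Complex.normSq c with hsd
  have haa : B a a = 0 := by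
    apply Complex.ext
    · simpa using ha
    · have := congrArg Complex.im (hs a a)
      simp at this
      simp; linarith
  have h1 := hp (x - ((s : ℂ) * c) • a)
  have h2 : B (x - ((s : ℂ) * c) • a) (x - ((s : ℂ) * c) • a)
      = B x x - (s : ℂ) * (c * conj c) - (s : ℂ) * (c * conj c) := by
    simp only [map_sub, LinearMap.map_smulₛₗ, LinearMap.sub_apply, LinearMap.smul_apply,
      smul_eq_mul, haa, hs a x, ← hc, map_mul, Complex.conj_ofReal, RingHom.id_apply]
    ring
  rw [h2, Complex.mul_conj] at h1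
  have h3 : s * Complex.normSq c = (B x x).re + 1 := by
    rw [hsd]; field_simp
  have h4 := hp x
  simp only [Complex.sub_re, Complex.mul_re, Complex.ofReal_re, Complex.ofReal_im] at h1
  nlinarith

theorem proj_span (B : U →ₗ⋆[ℂ] U →ₗ[ℂ] ℂ) (hs : ∀ x y, B y x = conj (B x y))
    (hp : ∀ x, 0 ≤ (B x x).re) (s : Finset U) :
    ∀ d, ∃ p ∈ Submodule.span ℂ (s : Set U), ∀ m ∈ Submodule.span ℂ (s : Set U),
      B m (d - p) = 0 := by
  classical
  induction s using Finset.induction_on with
  | empty =>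
    intro d
    refine ⟨0, Submodule.zero_mem _, ?_⟩
    intro m hm
    simp at hm
    simp [hm]
  | insert a s _ ih =>
    intro d
    obtain ⟨pa, hpa, ha⟩ := ih a
    obtain ⟨pd, hpd, hd⟩ := ih d
    have hsub : Submodule.span ℂ (s : Set U) ≤ Submodule.span ℂ ((insert a s : Finset U) : Set U) :=
      Submodule.span_mono (by simp)
    have haa : a ∈ Submodule.span ℂ ((insert a s : Finset U) : Set U) :=
      Submodule.subset_span (by simp)
    have key : ∀ y : U, (∀ m ∈ Submodule.span ℂ (s : Set U), B m y = 0) → B (a - pa) y = 0 →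
        ∀ m ∈ Submodule.span ℂ ((insert a s : Finset U) : Set U), B m y = 0 := by
      intro y h1 h2 m hm
      rw [Finset.coe_insert, Submodule.mem_span_insert] at hm
      obtain ⟨t, m0, hm0, rfl⟩ := hm
      have h3 : B a y = 0 := by
        have := h1 pa hpa
        simpa [this] using h2
      simp [h3, h1 m0 hm0]
    by_cases hq : (B (a - pa) (a - pa)).re = 0
    · exact ⟨pd, hsub hpd, key _ hd (cs0 B hs hp _ _ hq)⟩
    · have hq' : B (a - pa) (a - pa) ≠ 0 := by
        intro h; apply hq; rw [h]; simp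
      refine ⟨pd + (B (a - pa) d / B (a - pa) (a - pa)) • (a - pa),
        Submodule.add_mem _ (hsub hpd) (Submodule.smul_mem _ _ (Submodule.sub_mem _ haa (hsub hpa))),
        key _ ?_ ?_⟩
      · intro m hm
        have e : d - (pd + (B (a - pa) d / B (a - pa) (a - pa)) • (a - pa))
            = (d - pd) - (B (a - pa) d / B (a - pa) (a - pa)) • (a - pa) := by abel
        rw [e, map_sub, map_smul, hd m hm, ha m hm]; simp
      · have e : B (a - pa) pd = 0 := by
          rw [hs pd (a - pa), ha pd hpd]; simp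
        rw [map_sub, map_add, map_smul, e, smul_eq_mul, div_mul_cancel₀ _ hq']; simp

theorem ext_lemma [FiniteDimensional ℂ U] {E : Type} [AddCommGroup E] [Module ℂ E]
    (B : U →ₗ⋆[ℂ] U →ₗ[ℂ] ℂ) (hs : ∀ x y, B y x = conj (B x y))
    (hp : ∀ x, 0 ≤ (B x x).re) (M : Submodule ℂ U) (A : U →ₗ[ℂ] E) (nrm : E → ℝ)
    (h0 : ∀ e, nrm e ≤ 0 → e = 0) (hA : ∀ m ∈ M, nrm (A m) ≤ (B m m).re) :
    ∃ A' : U →ₗ[ℂ] E, (∀ m ∈ M, A' m = A m) ∧ ∀ d, nrm (A' d) ≤ (B d d).re := by
  obtain ⟨s, rfl⟩ : M.FG := IsNoetherian.noetherian M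
  choose π hπ hπ' using proj_span B hs hp s
  have uniq : ∀ d p, p ∈ Submodule.span ℂ (s : Set U) →
      (∀ m ∈ Submodule.span ℂ (s : Set U), B m (d - p) = 0) → A (π d) = A p := by
    intro d p hpm hp2
    have hm : π d - p ∈ Submodule.span ℂ (s : Set U) := Submodule.sub_mem _ (hπ d) hpm
    have e : π d - p = (d - p) - (d - π d) := by abel
    have h1 : B (π d - p) (π d - p) = 0 := by
      conv_lhs => arg 2; rw [e]
      rw [map_sub, hp2 _ hm, hπ' d _ hm]; simp
    have h2 := hA _ hm
    rw [h1] at h2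
    have h3 := h0 _ (by simpa using h2)
    exact sub_eq_zero.mp h3
  refine ⟨{ toFun := fun d => A (π d), map_add' := ?_, map_smul' := ?_ }, ?_, ?_⟩
  · intro x y
    rw [← map_add]
    apply uniq _ _ (Submodule.add_mem _ (hπ x) (hπ y))
    intro m hm
    have e : x + y - (π x + π y) = (x - π x) + (y - π y) := by abel
    rw [e, map_add, hπ' x m hm, hπ' y m hm]; simp
  · intro c x
    rw [RingHom.id_apply, ← map_smul]
    apply uniq _ _ (Submodule.smul_mem _ _ (hπ x))
    intro m hm
    rw [← smul_sub, map_smul, hπ' x m hm]; simp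
  · intro m hm
    apply uniq _ _ hm
    intro m' _
    simp
  · intro d
    refine (hA _ (hπ d)).trans ?_
    have e1 : B (π d) (d - π d) = 0 := hπ' d _ (hπ d)
    have e2 : B (d - π d) (π d) = 0 := by rw [hs, e1]; simp
    have e3 : B d d = B (π d) (π d) + B (d - π d) (d - π d) := by
      have : B d d = B (π d + (d - π d)) (π d + (d - π d)) := by simp
      rw [this]
      generalize d - π d = r at e1 e2
      simp [e1, e2]
    have := hp (d - π d)
    rw [e3, Complex.add_re]; linarith

end Pool.Agent.H15.Cpk
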