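import Pool.Agent.H15.Cpk1

set_option autoImplicit false

namespace Pool.Agent.H15.Cpk

open ComplexConjugate Matrix

section
variable {ι σ : Type} [Fintype ι] [Fintype σ]

noncomputable def fm (σ : Type) [Fintype σ] (c : ι → ι → ℂ) :
    (ι → σ → ℂ) →ₗ⋆[ℂ] (ι → σ → ℂ) →ₗ[ℂ] ℂ :=
  LinearMap.mk₂'ₛₗ (starRingEnd ℂ) (RingHom.id ℂ)
    (fun x y => ∑ i, ∑ j, c i j * (star (x i) ⬝ᵥ y j))
    (by intro x x' y; simp [add_dotProduct, mul_add, Finset.sum_add_distrib])
    (by
      intro a x y
      simp only [Pi.smul_apply, star_smul, smul_dotProduct, smul_eq_mul, Finset.mul_sum]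
      refine Finset.sum_congr rfl fun i _ => Finset.sum_congr rfl fun j _ => ?_
      simp; ring)
    (by intro x y y'; simp [dotProduct_add, mul_add, Finset.sum_add_distrib])
    (by
      intro a x y
      simp only [Pi.smul_apply, dotProduct_smul, smul_eq_mul, Finset.mul_sum, RingHom.id_apply]
      refine Finset.sum_congr rfl fun i _ => Finset.sum_congr rfl fun j _ => ?_
      ring)

theorem fm_apply (c : ι → ι → ℂ) (x y : ι → σ → ℂ) :
    fm σ c x y = ∑ i, ∑ j, c i j * (star (x i) ⬝ᵥ y j) := rfl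

theorem fm_symm (c : ι → ι → ℂ) (hc : ∀ i j, c j i = conj (c i j)) (x y : ι → σ → ℂ) :
    fm σ c y x = conj (fm σ c x y) := by
  rw [fm_apply, fm_apply, Finset.sum_comm, map_sum]
  refine Finset.sum_congr rfl fun i _ => ?_
  rw [map_sum]
  refine Finset.sum_congr rfl fun j _ => ?_
  rw [map_mul, hc i j, star_dotProduct]
  rfl

noncomputable def dfl (c : ι → ι → ℂ) (i : ι) : ι → ι → ℂ := fun j l => c j l - c j i * c i l / c i i

theorem dfl_symm (c : ι → ι → ℂ) (hc : ∀ i j, c j i = conj (c i j)) (i : ι) :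
    ∀ j l, dfl c i l j = conj (dfl c i j l) := by
  intro j l
  simp only [dfl, map_sub, map_div₀, map_mul, ← hc]
  ring

theorem fm_dfl (c : ι → ι → ℂ) (hc : ∀ i j, c j i = conj (c i j)) (i : ι) (x : ι → σ → ℂ) :
    fm σ c x x = fm σ (dfl c i) x x
      + (star (∑ j, c i j • x j) ⬝ᵥ (∑ j, c i j • x j)) / c i i := by
  rw [fm_apply, fm_apply, star_sum, sum_dotProduct, Finset.sum_div, ← Finset.sum_add_distrib]
  refine Finset.sum_congr rfl fun j _ => ?_
  rw [dotProduct_sum, Finset.sum_div, ← Finset.sum_add_distrib]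
  refine Finset.sum_congr rfl fun l _ => ?_
  rw [star_smul, smul_dotProduct, dotProduct_smul, dfl, hc i j]
  simp only [smul_eq_mul, RCLike.star_def]
  ring

theorem fm_dfl_congr (c : ι → ι → ℂ) (i : ι) (hi : c i i ≠ 0) (x y : ι → σ → ℂ)
    (h : ∀ j, j ≠ i → x j = y j) : fm σ (dfl c i) x x = fm σ (dfl c i) y y := by
  rw [fm_apply, fm_apply]
  refine Finset.sum_congr rfl fun j _ => Finset.sum_congr rfl fun l _ => ?_
  by_cases hj : j = i
  · have : dfl c i j l = 0 := by subst hj; simp only [dfl]; field_simp; ring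
    simp [this]
  by_cases hl : l = i
  · have : dfl c i j l = 0 := by subst hl; simp only [dfl]; field_simp; ring
    simp [this]
  rw [h j hj, h l hl]

theorem dot_nonneg (y : σ → ℂ) : 0 ≤ (star y ⬝ᵥ y).re ∧ (star y ⬝ᵥ y).im = 0 := by
  open ComplexOrder in
  have h : (0 : ℂ) ≤ star y ⬝ᵥ y := dotProduct_star_self_nonneg y
  exact ⟨(Complex.le_def.mp h).1, (Complex.le_def.mp h).2.symm⟩

theorem fm_dfl_re (c : ι → ι → ℂ) (hc : ∀ i j, c j i = conj (c i j)) (i : ι) (x : ι → σ → ℂ) :
    (fm σ c x x).re = (fm σ (dfl c i) x x).re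
      + (star (∑ j, c i j • x j) ⬝ᵥ (∑ j, c i j • x j)).re / (c i i).re := by
  have h1 : c i i = ((c i i).re : ℂ) := by
    apply Complex.ext
    · simp
    · have := congrArg Complex.im (hc i i)
      simp at this
      simp; linarith
  rw [fm_dfl c hc i x, Complex.add_re]
  congr 1
  generalize (star (∑ j, c i j • x j) ⬝ᵥ (∑ j, c i j • x j)) = w
  conv_lhs => rw [h1]
  rw [Complex.div_ofReal_re]

theorem sum_sub (p : ι → Prop) [DecidablePred p] (f : ι → ℂ) (hf : ∀ i, ¬ p i → f i = 0) :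
    ∑ i, f i = ∑ i : {i // p i}, f i := by
  rw [← Finset.sum_subtype (Finset.univ.filter p) (by simp) f]
  symm
  apply Finset.sum_subset (Finset.filter_subset _ _)
  intro i _ hi
  exact hf i (by simpa using hi)

theorem fm_sub (c : ι → ι → ℂ) (p : ι → Prop) [DecidablePred p] (x : ι → σ → ℂ)
    (hx : ∀ i, ¬ p i → x i = 0) :
    fm σ c x x = fm σ (fun i j : {i // p i} => c i j) (fun i => x i) (fun i => x i) := by
  rw [fm_apply, fm_apply, sum_sub p]
  · refine Finset.sum_congr rfl fun i _ => ?_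
    rw [sum_sub p]
    intro j hj
    simp [hx j hj]
  · intro i hi
    simp [hx i hi]

def Con (cl ck : ι → ι → ℂ) (V : ι → Matrix σ σ ℂ) (x : ι → σ → ℂ) : Prop :=
  (fm σ ck (fun j => V j *ᵥ x j) (fun j => V j *ᵥ x j)).re ≤ (fm σ cl x x).re

end

variable {X : Type*}

def Glob (k l : X → X → ℂ) {σ : Type} [Fintype σ] (Φ : X → Matrix σ σ ℂ) : Prop :=
  ∀ (ι : Type) [Fintype ι] (z : ι → X) (x : ι → σ → ℂ),
    Con (fun i j => l (z i) (z j)) (fun i j => k (z i) (z j)) (fun i => Φ (z i)) x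

def CPq (k l : X → X → ℂ) (σ : Type) [Fintype σ] : Prop :=
  ∀ (ι : Type) [Fintype ι] (z : ι → X) (V : ι → Matrix σ σ ℂ),
    (∀ x, Con (fun i j => l (z i) (z j)) (fun i j => k (z i) (z j)) V x) →
      ∃ Φ : X → Matrix σ σ ℂ, Glob k l Φ ∧ ∀ i, Φ (z i) = V i

def pull {U U' : Type} [AddCommGroup U] [Module ℂ U] [AddCommGroup U'] [Module ℂ U']
    (B : U →ₗ⋆[ℂ] U →ₗ[ℂ] ℂ) (T : U' →ₗ[ℂ] U) : U' →ₗ⋆[ℂ] U' →ₗ[ℂ] ℂ :=
  (B.comp T).compl₂ T

theorem pull_apply {U U' : Type} [AddCommGroup U] [Module ℂ U] [AddCommGroup U'] [Module ℂ U']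
    (B : U →ₗ⋆[ℂ] U →ₗ[ℂ] ℂ) (T : U' →ₗ[ℂ] U) (x y : U') : pull B T x y = B (T x) (T y) := rfl

theorem tang (k l : X → X → ℂ) (hk : ∀ x y, k y x = conj (k x y))
    (hl : ∀ x y, l y x = conj (l x y)) (hk0 : ∀ x, 0 < (k x x).re)
    {σ : Type} [Fintype σ] (hcp : CPq k l σ) {ι : Type} [Fintype ι] (z : ι → X) (t : Finset ι) :
    ∀ (E : ι → Submodule ℂ (σ → ℂ)) (V : ι → Matrix σ σ ℂ), (∀ j, j ∉ t → E j = ⊥ ∨ E j = ⊤) →
      (∀ x, (∀ j, x j ∈ E j) →
        Con (fun i j => l (z i) (z j)) (fun i j => k (z i) (z j)) V x) →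
      ∃ Φ : X → Matrix σ σ ℂ, Glob k l Φ ∧ ∀ j, ∀ v ∈ E j, Φ (z j) *ᵥ v = V j *ᵥ v := by
  classical
  induction t using Finset.induction_on with
  | empty =>
    intro E V hE hV
    obtain ⟨Φ, hΦ, hΦ'⟩ := hcp {j // E j = ⊤} (fun j => z j) (fun j => V j) (by
      intro x
      let y : ι → σ → ℂ := fun j => if h : E j = ⊤ then x ⟨j, h⟩ else 0
      have hy : ∀ j, ¬ E j = ⊤ → y j = 0 := fun j hj => dif_neg hj
      have hy' : ∀ j : {j // E j = ⊤}, y j = x j := fun j => dif_pos j.2
      have h1 := hV y (by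
        intro j
        by_cases h : E j = ⊤
        · rw [h]; trivial
        · rw [hy j h]; exact Submodule.zero_mem _)
      unfold Con at h1 ⊢
      rw [fm_sub _ (fun j => E j = ⊤) y hy,
        fm_sub _ (fun j => E j = ⊤) (fun j => V j *ᵥ y j) (fun j hj => by simp [hy j hj])] at h1
      simpa only [hy'] using h1)
    refine ⟨Φ, hΦ, ?_⟩
    intro j v hv
    rcases hE j (by simp) with h | h
    · rw [h] at hv
      simp [(Submodule.mem_bot ℂ).mp hv]
    · rw [hΦ' ⟨j, h⟩]
  | insert i t _ ih =>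
    intro E V hE hV
    set ck : ι → ι → ℂ := fun i j => k (z i) (z j) with hck
    set cl : ι → ι → ℂ := fun i j => l (z i) (z j) with hcl
    have hcks : ∀ i j, ck j i = conj (ck i j) := fun i j => hk _ _
    have hcls : ∀ i j, cl j i = conj (cl i j) := fun i j => hl _ _
    have hpos : 0 < (ck i i).re := hk0 _
    have hne : ck i i ≠ 0 := by intro h; rw [h] at hpos; simp at hpos
    have hupd : ∀ F : Submodule ℂ (σ → ℂ), F = ⊥ ∨ F = ⊤ →
        ∀ j, j ∉ t → Function.update E i F j = ⊥ ∨ Function.update E i F j = ⊤ := by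
      intro F hF j hj
      by_cases h : j = i
      · subst h; simpa using hF
      · rw [Function.update_of_ne h]; exact hE j (by simp [h, hj])
    obtain ⟨Φ0, hΦ0, hΦ0'⟩ := ih (Function.update E i ⊥) V (hupd _ (Or.inl rfl)) (by
      intro x hx
      apply hV
      intro j
      by_cases h : j = i
      · subst h
        have := hx j
        rw [Function.update_self, Submodule.mem_bot] at this
        rw [this]; exact Submodule.zero_mem _
      · simpa [Function.update_of_ne h] using hx j)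
    let D : Submodule ℂ (ι → σ → ℂ) := Submodule.pi Set.univ (Function.update E i ⊤)
    have hD : ∀ x : ι → σ → ℂ, x ∈ D ↔ ∀ j, j ≠ i → x j ∈ E j := by
      intro x
      simp only [D, Submodule.mem_pi, Set.mem_univ, true_implies]
      constructor
      · intro h j hj
        simpa [Function.update_of_ne hj] using h j
      · intro h j
        by_cases hj : j = i
        · subst hj; simp
        · simpa [Function.update_of_ne hj] using h j hj
    let T : (ι → σ → ℂ) →ₗ[ℂ] (ι → σ → ℂ) :=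
      LinearMap.pi fun j => (V j).mulVecLin ∘ₗ LinearMap.proj j
    have hT : ∀ x, T x = fun j => V j *ᵥ x j := fun x => rfl
    let B : D →ₗ⋆[ℂ] D →ₗ[ℂ] ℂ := pull (fm σ cl - pull (fm σ (dfl ck i)) T) D.subtype
    have hB : ∀ x y : D, B x y = fm σ cl x y - fm σ (dfl ck i) (T x) (T y) := fun x y => rfl
    let A : D →ₗ[ℂ] (σ → ℂ) := (∑ j, ck i j • LinearMap.proj j) ∘ₗ T ∘ₗ D.subtype
    have hA : ∀ x : D, A x = ∑ j, ck i j • (V j *ᵥ x.1 j) := by
      intro x; simp [A, hT]
    obtain ⟨A', hA1, hA2⟩ := ext_lemma B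
      (by
        intro x y
        rw [hB, hB, fm_symm cl hcls, fm_symm _ (dfl_symm ck hcks i), map_sub])
      (by
        intro x
        have h1 := hΦ0 ι z x
        unfold Con at h1
        rw [fm_dfl_re _ hcks i] at h1
        have h2 := div_nonneg (dot_nonneg (∑ j, ck i j • (Φ0 (z j) *ᵥ x.1 j))).1 hpos.le
        rw [hB, Complex.sub_re, hT, fm_dfl_congr ck i hne _ (fun j => Φ0 (z j) *ᵥ x.1 j)]
        · linarith
        · intro j hj
          exact (hΦ0' j _ (by simpa [Function.update_of_ne hj] using (hD _).mp x.2 j hj)).symm)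
      ((Submodule.pi Set.univ E).comap D.subtype) A
      (fun y => (star y ⬝ᵥ y).re / (ck i i).re)
      (by
        intro y hy
        have h1 := dot_nonneg y
        have h2 : (star y ⬝ᵥ y).re ≤ 0 := by
          by_contra h
          exact absurd (div_pos (not_le.mp h) hpos) (not_lt.mpr hy)
        have h3 : star y ⬝ᵥ y = 0 := Complex.ext (by simpa using le_antisymm h2 h1.1) (by simpa using h1.2)
        open ComplexOrder in
        exact dotProduct_star_self_eq_zero.mp h3)
      (by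
        intro m hm
        have h1 := hV m (fun j => hm j trivial)
        unfold Con at h1
        rw [fm_dfl_re _ hcks i] at h1
        rw [hB, Complex.sub_re, hT, hA]
        linarith)
    have hsing : ∀ v : σ → ℂ, LinearMap.single ℂ (fun _ : ι => σ → ℂ) i v ∈ D := by
      intro v
      rw [hD]
      intro j hj
      simp [Pi.single_eq_of_ne hj]
    let S : (σ → ℂ) →ₗ[ℂ] D := (LinearMap.single ℂ (fun _ : ι => σ → ℂ) i).codRestrict D hsing
    have hS : ∀ v, (S v).1 = Pi.single i v := fun v => rfl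
    let V' : ι → Matrix σ σ ℂ :=
      Function.update V i (LinearMap.toMatrix' ((ck i i)⁻¹ • (A' ∘ₗ S)))
    have hV'i : ∀ v, V' i *ᵥ v = (ck i i)⁻¹ • A' (S v) := by
      intro v; simp only [V', Function.update_self, LinearMap.toMatrix'_mulVec]; rfl
    have hV'j : ∀ j, j ≠ i → V' j = V j := fun j hj => Function.update_of_ne hj _ _
    obtain ⟨Φ, hΦ, hΦ'⟩ := ih (Function.update E i ⊤) V' (hupd _ (Or.inr rfl)) (by
      intro x hx
      have hxD : x ∈ D := fun j _ => hx j
      have h1 := hA2 ⟨x, hxD⟩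
      have h2 : A' (⟨x, hxD⟩ - S (x i)) = A (⟨x, hxD⟩ - S (x i)) := by
        apply hA1
        intro j _
        change x j - (Pi.single i (x i) : ι → σ → ℂ) j ∈ E j
        by_cases hj : j = i
        · subst hj; simp
        · simpa [Pi.single_eq_of_ne hj] using (hD _).mp hxD j hj
      have h3 : ∑ j, ck i j • (V' j *ᵥ x j) = A' ⟨x, hxD⟩ := by
        rw [map_sub, sub_eq_iff_eq_add] at h2
        rw [h2, hA, ← Finset.add_sum_erase _ _ (Finset.mem_univ i),
          ← Finset.add_sum_erase _ _ (Finset.mem_univ i), hV'i, smul_smul,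
          mul_inv_cancel₀ hne, one_smul]
        have e1 : (⟨x, hxD⟩ - S (x i) : D).1 i = 0 := by
          change x i - (Pi.single i (x i) : ι → σ → ℂ) i = 0
          simp
        rw [e1, mulVec_zero, smul_zero, zero_add, add_comm]
        congr 1
        refine Finset.sum_congr rfl fun j hj => ?_
        have hj' : j ≠ i := Finset.ne_of_mem_erase hj
        have e2 : (⟨x, hxD⟩ - S (x i) : D).1 j = x j := by
          change x j - (Pi.single i (x i) : ι → σ → ℂ) j = x j
          simp [Pi.single_eq_of_ne hj']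
        rw [e2, hV'j j hj']
      unfold Con
      rw [fm_dfl_re _ hcks i, h3,
        fm_dfl_congr ck i hne _ (fun j => V j *ᵥ x j) (fun j hj => by rw [hV'j j hj])]
      rw [hB, Complex.sub_re, hT] at h1
      linarith)
    refine ⟨Φ, hΦ, ?_⟩
    intro j v hv
    by_cases hj : j = i
    · subst hj
      rw [hΦ' j v (by simp), hV'i, hA1 (S v), hA, Finset.sum_eq_single j]
      · rw [hS, Pi.single_eq_same, smul_smul, inv_mul_cancel₀ hne, one_smul]
      · intro b _ hb
        rw [hS, Pi.single_eq_of_ne hb, mulVec_zero, smul_zero]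
      · simp
      · intro b _
        change (Pi.single j v : ι → σ → ℂ) b ∈ E b
        by_cases hb : b = j
        · subst hb; simpa using hv
        · simp [Pi.single_eq_of_ne hb]
    · rw [hΦ' j v (by simpa [Function.update_of_ne hj] using hv), hV'j j hj]

end Pool.Agent.H15.Cpk
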