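import Pool.Agent.H15.Cpk2

set_option autoImplicit false

namespace Pool.Agent.H15.Cpk

open ComplexConjugate Matrix

variable {X : Type*}

def Kq (h : X → X → ℂ) : Prop :=
  (∀ x y, h y x = conj (h x y)) ∧
    ∀ (ι : Type) [Fintype ι] (z : ι → X) (σ : Type) [Fintype σ] (x : ι → σ → ℂ),
      0 ≤ (fm σ (fun i j => h (z i) (z j)) x x).re

theorem Kq.diag {h : X → X → ℂ} (hh : Kq h) (x : X) :
    0 ≤ (h x x).re ∧ h x x = ((h x x).re : ℂ) := by
  constructor
  · have := hh.2 Unit (fun _ => x) Unit (fun _ _ => 1)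
    simpa [fm_apply, dotProduct] using this
  · apply Complex.ext
    · simp
    · have := congrArg Complex.im (hh.1 x x)
      simp at this
      simp; linarith

theorem Kq.pos {h : X → X → ℂ} (hh : Kq h) (x : X) (hx : h x x ≠ 0) : 0 < (h x x).re := by
  rcases (hh.diag x).1.lt_or_eq with h1 | h1
  · exact h1
  · exfalso; apply hx; rw [(hh.diag x).2, ← h1]; simp

theorem Kq.row {h : X → X → ℂ} (hh : Kq h) (x y : X) (hx : h x x = 0) : h x y = 0 := by
  have := cs0 (fm Unit (fun i j : Fin 2 => h (![x, y] i) (![x, y] j)))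
    (fm_symm _ (fun i j => hh.1 _ _)) (fun v => hh.2 _ _ _ v) ![fun _ => 1, 0] ![0, fun _ => 1]
    (by simp [fm_apply, Fin.sum_univ_two, dotProduct, hx])
  simpa [fm_apply, Fin.sum_univ_two, dotProduct] using this

theorem Kq.dfl {h : X → X → ℂ} (hh : Kq h) (w : X) (hw : h w w ≠ 0) :
    Kq (fun x y => h x y - h x w * h w y / h w w) := by
  constructor
  · intro x y
    simp only [map_sub, map_div₀, map_mul, ← hh.1]
    ring
  · intro ι _ z σ _ x
    let z' : Option ι → X := fun o => o.elim w z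
    let y : Option ι → σ → ℂ := fun o => o.elim (-((h w w)⁻¹ • ∑ j, h w (z j) • x j)) x
    have h1 := hh.2 (Option ι) z' σ y
    rw [fm_dfl_re _ (fun i j => hh.1 _ _) none] at h1
    have h2 : ∑ j, h (z' none) (z' j) • y j = 0 := by
      rw [Fintype.sum_option]
      simp only [z', y, Option.elim_none, Option.elim_some, smul_neg, smul_smul,
        mul_inv_cancel₀ hw, one_smul]
      simp
    rw [h2, fm_dfl_congr _ none hw y (fun o => o.elim 0 x)
      (by intro j hj; cases j with
        | none => exact absurd rfl hj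
        | some j => rfl)] at h1
    simpa [fm_apply, Fintype.sum_option, Cpk.dfl, z'] using h1

theorem finrank (h : X → X → ℂ) (hh : Kq h) (F : Finset X) :
    ∃ (m : ℕ) (u : X → Fin m → ℂ) (r : X → X → ℂ), Kq r ∧
      (∀ x y, h x y = r x y + ∑ a, conj (u x a) * u y a) ∧ ∀ x ∈ F, r x x = 0 := by
  classical
  induction F using Finset.induction_on with
  | empty => exact ⟨0, fun _ => Fin.elim0, h, hh, by simp, by simp⟩
  | insert w F _ ih =>
    obtain ⟨m, u, r, hr, h1, h2⟩ := ih
    by_cases hw : r w w = 0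
    · refine ⟨m, u, r, hr, h1, ?_⟩
      intro x hx
      rcases Finset.mem_insert.mp hx with rfl | hx
      · exact hw
      · exact h2 x hx
    · refine ⟨m + 1, fun x => Fin.cons (r w x / (Real.sqrt (r w w).re : ℂ)) (u x), _,
        hr.dfl w hw, ?_, ?_⟩
      · intro x y
        rw [Fin.sum_univ_succ, h1 x y]
        simp only [Fin.cons_zero, Fin.cons_succ, map_div₀, Complex.conj_ofReal, ← hr.1]
        have e : ((Real.sqrt (r w w).re : ℝ) : ℂ) * (Real.sqrt (r w w).re : ℝ) = r w w := by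
          rw [← Complex.ofReal_mul, Real.mul_self_sqrt (hr.diag w).1, ← (hr.diag w).2]
        rw [div_mul_div_comm, e]
        ring
      · intro x hx
        rcases Finset.mem_insert.mp hx with rfl | hx
        · field_simp; ring
        · simp [h2 x hx, hr.row x w (h2 x hx)]

theorem fm_tensor {ι σ : Type} [Fintype ι] [Fintype σ] {m : ℕ} (c : ι → ι → ℂ)
    (u : ι → Fin m → ℂ) (v : ι → σ → ℂ) :
    fm (Fin m × σ) c (fun i p => u i p.1 * v i p.2) (fun i p => u i p.1 * v i p.2)
      = fm σ (fun i j => c i j * ∑ a, conj (u i a) * u j a) v v := by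
  rw [fm_apply, fm_apply]
  refine Finset.sum_congr rfl fun i _ => Finset.sum_congr rfl fun j _ => ?_
  rw [mul_assoc]
  congr 1
  simp only [dotProduct, Fintype.sum_prod_type, Finset.sum_mul_sum, Pi.star_apply, star_mul',
    RCLike.star_def]
  refine Finset.sum_congr rfl fun a _ => Finset.sum_congr rfl fun b _ => ?_
  ring

theorem fm_sumtype {ι σ τ : Type} [Fintype ι] [Fintype σ] [Fintype τ] (c : ι → ι → ℂ)
    (v : ι → τ ⊕ σ → ℂ) :
    fm (τ ⊕ σ) c v v = fm τ c (fun i a => v i (Sum.inl a)) (fun i a => v i (Sum.inl a))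
      + fm σ c (fun i a => v i (Sum.inr a)) (fun i a => v i (Sum.inr a)) := by
  simp only [fm_apply, dotProduct, Fintype.sum_sum_type, mul_add, Finset.sum_add_distrib,
    Pi.star_apply]

theorem fm_add_c {ι σ : Type} [Fintype ι] [Fintype σ] (c d : ι → ι → ℂ) (v : ι → σ → ℂ) :
    fm σ (fun i j => c i j + d i j) v v = fm σ c v v + fm σ d v v := by
  simp only [fm_apply, add_mul, Finset.sum_add_distrib]

theorem schur {l r : X → X → ℂ} (hl : Kq l) (hr : Kq r) {ι σ : Type} [Fintype ι] [Fintype σ]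
    (z : ι → X) (v : ι → σ → ℂ) :
    0 ≤ (fm σ (fun i j => l (z i) (z j) * r (z i) (z j)) v v).re := by
  classical
  obtain ⟨m, u, r', hr', h1, h2⟩ := finrank r hr (Finset.univ.image z)
  have h3 := hl.2 ι z (Fin m × σ) (fun i p => u (z i) p.1 * v i p.2)
  rw [fm_tensor] at h3
  have e : (fun i j => l (z i) (z j) * r (z i) (z j))
      = fun i j => l (z i) (z j) * ∑ a, conj (u (z i) a) * u (z j) a := by
    funext i j
    rw [h1, hr'.row _ _ (h2 _ (by simp)), zero_add]
  rw [e]; exact h3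

theorem cpq_mul {k l h : X → X → ℂ} (hk : Kq k) (hl : Kq l) (hh : Kq h)
    (hk0 : ∀ x, k x x ≠ 0) (hh0 : ∀ x, h x x ≠ 0)
    (hcp : ∀ (σ : Type) [Fintype σ], CPq k l σ) (σ : Type) [Fintype σ] :
    CPq k (fun x y => l x y * h x y) σ := by
  classical
  intro ι _ z V hV
  obtain ⟨m, u, r, hr, h1, h2⟩ := finrank h hh (Finset.univ.image z)
  have hr0 : ∀ i y, r (z i) y = 0 := fun i y => hr.row _ _ (h2 _ (by simp))
  let J : X → (σ → ℂ) →ₗ[ℂ] ((Fin m × σ) ⊕ σ → ℂ) := fun x =>
    { toFun := fun v => Sum.elim (fun p => u x p.1 * v p.2) 0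
      map_add' := by intro v w; ext p; cases p <;> simp [mul_add]
      map_smul' := by intro a v; ext p; cases p <;> simp [mul_left_comm] }
  let I0 : (σ → ℂ) →ₗ[ℂ] ((Fin m × σ) ⊕ σ → ℂ) :=
    { toFun := fun v => Sum.elim 0 v
      map_add' := by intro v w; ext p; cases p <;> simp
      map_smul' := by intro a v; ext p; cases p <;> simp }
  let P0 : ((Fin m × σ) ⊕ σ → ℂ) →ₗ[ℂ] (σ → ℂ) := LinearMap.funLeft ℂ ℂ Sum.inr
  have hJ : ∀ {κ : Type} [Fintype κ] (c : κ → κ → ℂ) (x : κ → X) (v : κ → σ → ℂ),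
      fm _ c (fun i => J (x i) (v i)) (fun i => J (x i) (v i))
        = fm σ (fun i j => c i j * ∑ a, conj (u (x i) a) * u (x j) a) v v := by
    intro κ _ c x v
    rw [fm_sumtype, ← fm_tensor]
    have : (fun i a => J (x i) (v i) (Sum.inr a)) = 0 := rfl
    rw [this, map_zero, add_zero]
    rfl
  have hinj : ∀ i, LinearMap.ker (J (z i)) = ⊥ := by
    intro i
    rw [LinearMap.ker_eq_bot']
    intro v hv
    have hu : ∃ a, u (z i) a ≠ 0 := by
      by_contra hn
      push Not at hn
      apply hh0 (z i)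
      rw [h1, hr0]; simp [hn]
    obtain ⟨a, ha⟩ := hu
    funext b
    have := congrFun hv (Sum.inl (a, b))
    exact (mul_eq_zero.mp this).resolve_left ha
  choose g hg using fun i => LinearMap.exists_leftInverse_of_injective _ (hinj i)
  let V' : ι → Matrix ((Fin m × σ) ⊕ σ) ((Fin m × σ) ⊕ σ) ℂ := fun i =>
    LinearMap.toMatrix' (I0 ∘ₗ (V i).mulVecLin ∘ₗ g i)
  have hV' : ∀ i v, V' i *ᵥ J (z i) v = I0 (V i *ᵥ v) := by
    intro i v
    have : g i (J (z i) v) = v := LinearMap.congr_fun (hg i) v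
    simp only [V', LinearMap.toMatrix'_mulVec, LinearMap.comp_apply, this, mulVecLin_apply]
  obtain ⟨Φ, hΦ, hΦ'⟩ := tang k l hk.1 hl.1 (fun x => hk.pos x (hk0 x)) (hcp _) z Finset.univ
    (fun i => LinearMap.range (J (z i))) V' (by simp) (by
      intro x hx
      choose v hv using hx
      have hx : x = fun i => J (z i) (v i) := funext fun i => (hv i).symm
      subst hx
      have h3 := hV v
      unfold Con at h3 ⊢
      simp only [hV']
      rw [hJ, fm_sumtype]
      have : (fun i a => I0 (V i *ᵥ v i) (Sum.inl a)) = 0 := rfl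
      rw [this, map_zero, zero_add]
      have e : (fun i j => l (z i) (z j) * h (z i) (z j))
          = fun i j => l (z i) (z j) * ∑ a, conj (u (z i) a) * u (z j) a := by
        funext i j
        rw [h1, hr0, zero_add]
      rw [← e]; exact h3)
  refine ⟨fun x => LinearMap.toMatrix' (P0 ∘ₗ (Φ x).mulVecLin ∘ₗ J x), ?_, ?_⟩
  · intro κ _ x v
    have h3 := hΦ κ x (fun i => J (x i) (v i))
    unfold Con at h3 ⊢
    rw [hJ, fm_sumtype, Complex.add_re] at h3
    have h4 := hk.2 κ x _ (fun i a => (Φ (x i) *ᵥ J (x i) (v i)) (Sum.inl a))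
    have h5 := schur hl hr x v
    have h6 : (fun i j => l (x i) (x j) * h (x i) (x j)) = fun i j => l (x i) (x j) * r (x i) (x j)
        + l (x i) (x j) * ∑ a, conj (u (x i) a) * u (x j) a := by
      funext i j; rw [h1, mul_add]
    rw [h6, fm_add_c, Complex.add_re]
    simp only [LinearMap.toMatrix'_mulVec]
    change (fm σ _ (fun i a => (Φ (x i) *ᵥ J (x i) (v i)) (Sum.inr a))
      (fun i a => (Φ (x i) *ᵥ J (x i) (v i)) (Sum.inr a))).re ≤ _
    linarith
  · intro i
    have : P0 ∘ₗ (Φ (z i)).mulVecLin ∘ₗ J (z i) = Matrix.toLin' (V i) := by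
      apply LinearMap.ext
      intro v
      simp only [LinearMap.comp_apply, mulVecLin_apply, toLin'_apply]
      rw [hΦ' i _ (LinearMap.mem_range_self _ v), hV']
      rfl
    simp only [this, LinearMap.toMatrix'_toLin']

end Pool.Agent.H15.Cpk
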