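import Pool.Agent.H15.Cpk3

set_option autoImplicit false

namespace Pool.Agent.H15.Cpk

open ComplexConjugate Matrix

variable {X : Type*}

noncomputable def sf {ι : Type} [Fintype ι] (g : ι → ι → ℂ) (a : ι → ℂ) : ℝ :=
  (∑ i, ∑ j, g i j * (conj (a i) * a j)).re

def PS {ι : Type} [Fintype ι] (g : ι → ι → ℂ) : Prop :=
  (∀ i j, g j i = conj (g i j)) ∧ ∀ a, 0 ≤ sf g a

open scoped ComplexOrder in
theorem PS.mat {ι : Type} [Fintype ι] {g : ι → ι → ℂ} (h : PS g) : (Matrix.of g).PosSemidef := by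
  refine .of_dotProduct_mulVec_nonneg ?_ fun x => ?_
  · ext i j
    simp [conjTranspose_apply, ← h.1]
  · have e : star x ⬝ᵥ (Matrix.of g *ᵥ x) = ∑ i, ∑ j, g i j * (conj (x i) * x j) := by
      simp only [dotProduct, mulVec, Finset.mul_sum, of_apply, Pi.star_apply, RCLike.star_def]
      refine Finset.sum_congr rfl fun i _ => Finset.sum_congr rfl fun j _ => by ring
    have e2 : conj (∑ i, ∑ j, g i j * (conj (x i) * x j)) = ∑ i, ∑ j, g i j * (conj (x i) * x j) := by
      conv_rhs => rw [Finset.sum_comm]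
      simp only [map_sum, map_mul, ← h.1, Complex.conj_conj]
      refine Finset.sum_congr rfl fun i _ => Finset.sum_congr rfl fun j _ => by ring
    rw [e, Complex.le_def]
    exact ⟨h.2 x, (Complex.conj_eq_iff_im.mp e2).symm⟩

open scoped ComplexOrder in
theorem PS.kq {ι : Type} [Fintype ι] {g : ι → ι → ℂ} (h : PS g) : Kq g := by
  refine ⟨h.1, fun κ _ z σ _ x => ?_⟩
  have h1 : fm σ (fun i j => g (z i) (z j)) x x
      = ∑ a, star (fun i => x i a) ⬝ᵥ ((Matrix.of g).submatrix z z *ᵥ fun i => x i a) := by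
    simp only [fm_apply, dotProduct, mulVec, Finset.mul_sum, of_apply, Pi.star_apply,
      submatrix_apply]
    symm
    rw [Finset.sum_comm]
    refine Finset.sum_congr rfl fun i _ => ?_
    rw [Finset.sum_comm]
    refine Finset.sum_congr rfl fun a _ => Finset.sum_congr rfl fun j _ => ?_
    ring
  have h2 : (0 : ℂ) ≤ fm σ (fun i j => g (z i) (z j)) x x := by
    rw [h1]
    exact Finset.sum_nonneg fun a _ => (h.mat.submatrix z).dotProduct_mulVec_nonneg _
  exact (Complex.le_def.mp h2).1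

theorem fm_opt {ι σ : Type} [Fintype ι] [Fintype σ] (c : Option ι → Option ι → ℂ)
    (hc : c none none ≠ 0) (y : Option ι → σ → ℂ) :
    fm σ (dfl c none) y y
      = ∑ i, ∑ j, dfl c none (some i) (some j) * (star (y (some i)) ⬝ᵥ y (some j)) := by
  rw [fm_dfl_congr _ none hc y (fun o => o.elim 0 fun i => y (some i))
      (by intro j hj; cases j with
        | none => exact absurd rfl hj
        | some j => rfl)]
  simp [fm_apply, Fintype.sum_option]

theorem tcp {k l : X → X → ℂ} (hk : Kq k) (hl : Kq l) (hk0 : ∀ x, k x x ≠ 0)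
    (hl0 : ∀ x, l x x ≠ 0) (hcp : ∀ (σ : Type) [Fintype σ], CPq k l σ) {ι : Type} [Fintype ι]
    (z : ι → X) (w : X) (A B : ι → ι → ℂ) (hA : Kq A) (hB : Kq B) (hA0 : ∀ i, A i i ≠ 0)
    (hM : ∀ a, sf (fun i j => k (z i) (z j) * B i j) a ≤ sf (fun i j => l (z i) (z j) * A i j) a) :
    (∑ i, ∑ j, (k (z i) (z j) - k (z i) w * k w (z j) / k w w) * B i j).re ≤
      (∑ i, ∑ j, (l (z i) (z j) - l (z i) w * l w (z j) / l w w) * A i j).re := by
  classical
  obtain ⟨m, u, r, hr, h1, h2⟩ := finrank A hA Finset.univ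
  obtain ⟨m', u', r', hr', h1', h2'⟩ := finrank B hB Finset.univ
  let ξ : ι → Fin m ⊕ Fin m' → ℂ := fun i => Sum.elim (u i) 0
  let η : ι → Fin m ⊕ Fin m' → ℂ := fun i => Sum.elim 0 (u' i)
  have hξ : ∀ i j, star (ξ i) ⬝ᵥ ξ j = A i j := by
    intro i j
    rw [h1, hr.row _ _ (h2 _ (by simp))]
    simp [dotProduct, ξ]
  have hη : ∀ i j, star (η i) ⬝ᵥ η j = B i j := by
    intro i j
    rw [h1', hr'.row _ _ (h2' _ (by simp))]
    simp [dotProduct, η]
  let V : ι → Matrix (Fin m ⊕ Fin m') (Fin m ⊕ Fin m') ℂ := fun i =>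
    (A i i)⁻¹ • vecMulVec (η i) (star (ξ i))
  have hV : ∀ i, V i *ᵥ ξ i = η i := by
    intro i
    simp only [V, smul_mulVec, vecMulVec_mulVec, hξ]
    funext a
    simp [hA0 i]
  obtain ⟨Φ, hΦ, hΦ'⟩ := tang k l hk.1 hl.1 (fun x => hk.pos x (hk0 x)) (hcp _) z Finset.univ
    (fun i => Submodule.span ℂ {ξ i}) V (by simp) (by
      intro x hx
      choose a ha using fun j => Submodule.mem_span_singleton.mp (hx j)
      have hx : x = fun i => a i • ξ i := funext fun i => (ha i).symm
      subst hx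
      have h3 := hM a
      unfold Con
      unfold sf at h3
      simp only [fm_apply, mulVec_smul, hV, star_smul, smul_dotProduct, dotProduct_smul, hξ, hη,
        smul_eq_mul, RCLike.star_def]
      refine le_of_eq_of_le ?_ (h3.trans_eq ?_) <;> congr 1 <;>
        exact Finset.sum_congr rfl fun i _ => Finset.sum_congr rfl fun j _ => by ring)
  let z' : Option ι → X := fun o => o.elim w z
  let y : Option ι → Fin m ⊕ Fin m' → ℂ :=
    fun o => o.elim (-((l w w)⁻¹ • ∑ j, l w (z j) • ξ j)) ξ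
  have h3 := hΦ (Option ι) z' y
  unfold Con at h3
  have h4 : ∑ j, l (z' none) (z' j) • y j = 0 := by
    rw [Fintype.sum_option]
    simp only [z', y, Option.elim_none, Option.elim_some, smul_neg, smul_smul,
      mul_inv_cancel₀ (hl0 w), one_smul]
    simp
  rw [fm_dfl_re _ (fun i j => hl.1 _ _) none, fm_dfl_re _ (fun i j => hk.1 _ _) none, h4,
    fm_opt _ (hk0 w), fm_opt _ (hl0 w)] at h3
  have h5 := div_nonneg (dot_nonneg (∑ j, k (z' none) (z' j) • (Φ (z' j) *ᵥ y j))).1
    (hk.pos w (hk0 w)).le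
  have h6 : ∀ i, Φ (z' (some i)) *ᵥ y (some i) = η i := fun i =>
    (hΦ' i _ (Submodule.mem_span_singleton_self _)).trans (hV i)
  have h7 : ∀ i, y (some i) = ξ i := fun i => rfl
  simp only [h6] at h3
  simp only [h7, hξ, hη, dotProduct_zero, Complex.zero_re, zero_div, add_zero] at h3
  exact le_trans (le_add_of_nonneg_right h5) h3

theorem dual_mat {ι : Type} [Fintype ι] (α : (ι → ι → ℂ) →L[ℝ] ℝ)
    (hα : ∀ g, PS g → 0 ≤ α g) :
    ∃ A : ι → ι → ℂ, PS A ∧ ∀ g : ι → ι → ℂ, (∀ i j, g j i = conj (g i j)) →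
      α g = (∑ i, ∑ j, g i j * A i j).re := by
  classical
  let E : ι → ι → ℂ → ι → ι → ℂ := fun i j c => Pi.single i (Pi.single j c)
  let a : ι → ι → ℂ := fun i j => (α (E i j 1) : ℂ) - Complex.I * α (E i j Complex.I)
  have h1 : ∀ g : ι → ι → ℂ, α g = (∑ i, ∑ j, g i j * a i j).re := by
    intro g
    have e : g = ∑ i, ∑ j, ((g i j).re • E i j 1 + (g i j).im • E i j Complex.I) := by
      funext s t
      simp only [Finset.sum_apply, Pi.add_apply, Pi.smul_apply, E]
      rw [Finset.sum_eq_single s, Finset.sum_eq_single t]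
      · simp
      · intro j _ hj; simp [Pi.single_eq_of_ne hj.symm]
      · simp
      · intro i _ hi; simp [Pi.single_eq_of_ne hi.symm]
      · simp
    conv_lhs => rw [e]
    simp [a, Complex.re_sum]
  have h2 : ∀ g : ι → ι → ℂ, (∀ i j, g j i = conj (g i j)) →
      α g = (∑ i, ∑ j, g i j * ((a i j + conj (a j i)) / 2)).re := by
    intro g hg
    have e : (∑ i, ∑ j, g i j * conj (a j i)).re = (∑ i, ∑ j, g i j * a i j).re := by
      rw [← Complex.conj_re, Finset.sum_comm]
      simp only [map_sum, map_mul, ← hg, Complex.conj_conj]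
    have e2 : ∑ i, ∑ j, g i j * ((a i j + conj (a j i)) / 2)
        = (∑ i, ∑ j, g i j * a i j + ∑ i, ∑ j, g i j * conj (a j i)) / (2 : ℝ) := by
      simp only [← Finset.sum_add_distrib, Finset.sum_div]
      refine Finset.sum_congr rfl fun i _ => Finset.sum_congr rfl fun j _ => ?_
      push_cast; ring
    rw [e2, Complex.div_ofReal_re, Complex.add_re, e, h1]; ring
  refine ⟨fun i j => (a i j + conj (a j i)) / 2, ⟨?_, fun v => ?_⟩, h2⟩
  · intro i j
    simp only [map_div₀, map_add, Complex.conj_conj, map_ofNat]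
    ring
  · have h3 := hα (fun i j => conj (v i) * v j) ⟨by intro i j; simp [mul_comm], fun x => by
      have e : ∑ i, ∑ j, conj (v i) * v j * (conj (x i) * x j)
          = conj (∑ i, v i * x i) * ∑ j, v j * x j := by
        simp only [map_sum, Finset.sum_mul_sum, map_mul]
        refine Finset.sum_congr rfl fun i _ => Finset.sum_congr rfl fun j _ => ?_
        ring
      unfold sf
      rw [e, ← Complex.normSq_eq_conj_mul_self, Complex.ofReal_re]
      exact Complex.normSq_nonneg _⟩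
    rw [h2 _ (by intro i j; simp [mul_comm])] at h3
    unfold sf
    simpa only [mul_comm] using h3

end Pool.Agent.H15.Cpk
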