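import Pool.Agent.H15.Cpk4

set_option autoImplicit false

namespace Pool.Agent.H15.Cpk

open ComplexConjugate Matrix

variable {X : Type*}

theorem sf_cont {ι : Type} [Fintype ι] (a : ι → ℂ) : Continuous fun g : ι → ι → ℂ => sf g a := by
  unfold sf; fun_prop

theorem PS_closed {ι : Type} [Fintype ι] : IsClosed {g : ι → ι → ℂ | PS g} := by
  simp only [PS, Set.setOf_and, Set.setOf_forall]
  refine IsClosed.inter (isClosed_iInter fun i => isClosed_iInter fun j =>
    isClosed_eq (by fun_prop) (by fun_prop)) (isClosed_iInter fun a =>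
    isClosed_le continuous_const (sf_cont a))

theorem sf_add {ι : Type} [Fintype ι] (g h : ι → ι → ℂ) (a : ι → ℂ) :
    sf (g + h) a = sf g a + sf h a := by
  simp [sf, add_mul, Finset.sum_add_distrib]

theorem sf_smul {ι : Type} [Fintype ι] (t : ℝ) (g : ι → ι → ℂ) (a : ι → ℂ) :
    sf (t • g) a = t * sf g a := by
  simp only [sf, Pi.smul_apply, Complex.real_smul, mul_assoc, ← Finset.mul_sum, Complex.re_ofReal_mul]

theorem PS.smul {ι : Type} [Fintype ι] {g : ι → ι → ℂ} (h : PS g) {t : ℝ} (ht : 0 ≤ t) :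
    PS (t • g) :=
  ⟨fun i j => by simp [h.1 i j], fun a => by rw [sf_smul]; exact mul_nonneg ht (h.2 a)⟩

theorem PS.add {ι : Type} [Fintype ι] {g h : ι → ι → ℂ} (hg : PS g) (hh : PS h) : PS (g + h) :=
  ⟨fun i j => by simp [hg.1 i j, hh.1 i j], fun a => by
    rw [sf_add]; exact add_nonneg (hg.2 a) (hh.2 a)⟩

theorem PS_zero {ι : Type} [Fintype ι] : PS (0 : ι → ι → ℂ) := ⟨by simp, by simp [sf]⟩

theorem PS_convex {ι : Type} [Fintype ι] : Convex ℝ {g : ι → ι → ℂ | PS g} :=
  fun _ hg _ hh _ _ ha hb _ => (PS.smul hg ha).add (PS.smul hh hb)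

theorem PS_rank {ι : Type} [Fintype ι] (v : ι → ℂ) : PS (fun i j => conj (v i) * v j) :=
  ⟨by intro i j; simp [mul_comm], fun x => by
    have e : ∑ i, ∑ j, conj (v i) * v j * (conj (x i) * x j)
        = conj (∑ i, v i * x i) * ∑ j, v j * x j := by
      simp only [map_sum, Finset.sum_mul_sum, map_mul]
      refine Finset.sum_congr rfl fun i _ => Finset.sum_congr rfl fun j _ => ?_
      ring
    unfold sf
    rw [e, ← Complex.normSq_eq_conj_mul_self, Complex.ofReal_re]
    exact Complex.normSq_nonneg _⟩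

theorem fin_cert {ι : Type} [Fintype ι] (k l kz lz : ι → ι → ℂ)
    (hk : ∀ i j, k j i = conj (k i j)) (hl : ∀ i j, l j i = conj (l i j))
    (hkz : ∀ i j, kz j i = conj (kz i j)) (hlz : ∀ i j, lz j i = conj (lz i j))
    (hl0 : ∀ i, 0 < (l i i).re) (hle : ∀ i, (lz i i).re ≤ (l i i).re)
    (H : ∀ A B : ι → ι → ℂ, PS A → PS B → (∀ i, A i i ≠ 0) →
      (∀ a, sf (fun i j => k i j * B i j) a ≤ sf (fun i j => l i j * A i j) a) →
      (∑ i, ∑ j, kz i j * B i j).re ≤ (∑ i, ∑ j, lz i j * A i j).re) :
    ∃ p : ι → ι → ℂ, PS p ∧ PS (lz - p * l) ∧ PS (p * k - kz) := by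
  classical
  by_contra hn
  set n : ℝ := Fintype.card ι + 1 with hnd
  have hn0 : 0 < n := by positivity
  let L : (ι → ι → ℂ) →ₗ[ℝ] (ι → ι → ℂ) × (ι → ι → ℂ) :=
    (-LinearMap.mulRight ℝ l).prod (LinearMap.mulRight ℝ k)
  let K : Set ((ι → ι → ℂ) × (ι → ι → ℂ)) :=
    (fun q => (lz, -kz) + q) '' (L '' ({g | PS g} ∩ Metric.closedBall 0 n))
  have hKc : IsCompact K := (((isCompact_closedBall _ _).inter_left PS_closed).image
    L.continuous_of_finiteDimensional).image (by fun_prop)
  have hKv : Convex ℝ K := ((PS_convex.inter (convex_closedBall _ _)).linear_image L).translate _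
  obtain ⟨f, u, v, hf1, huv, hf2⟩ := geometric_hahn_banach_compact_closed hKv hKc
    (PS_convex.prod PS_convex) (PS_closed.prod PS_closed) (by
      rw [Set.disjoint_left]
      rintro _ ⟨_, ⟨p, hp, rfl⟩, rfl⟩ ⟨h1, h2⟩
      refine hn ⟨p, hp.1, ?_, ?_⟩
      · simpa [L, sub_eq_add_neg] using h1
      · simpa [L, sub_eq_neg_add] using h2)
  have hv : v < 0 := by simpa using hf2 0 ⟨PS_zero, PS_zero⟩
  have hcone : ∀ q : (ι → ι → ℂ) × (ι → ι → ℂ), PS q.1 → PS q.2 → 0 ≤ f q := by
    intro q h1 h2
    by_contra h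
    push Not at h
    have ht : 0 ≤ v / f q := div_nonneg_of_nonpos hv.le h.le
    have := hf2 ((v / f q) • q) ⟨h1.smul ht, h2.smul ht⟩
    rw [map_smul, smul_eq_mul, div_mul_cancel₀ _ h.ne] at this
    exact lt_irrefl _ this
  obtain ⟨A, hA, hA'⟩ := dual_mat (f.comp (ContinuousLinearMap.inl ℝ _ _))
    (fun g hg => hcone (g, 0) hg PS_zero)
  obtain ⟨B, hB, hB'⟩ := dual_mat (f.comp (ContinuousLinearMap.inr ℝ _ _))
    (fun g hg => hcone (0, g) PS_zero hg)
  set c : ℝ := (∑ i, ∑ j, lz i j * A i j).re - (∑ i, ∑ j, kz i j * B i j).re with hc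
  have key : ∀ p : ι → ι → ℂ, PS p → ‖p‖ ≤ n → c - (∑ i, ∑ j, (p * l) i j * A i j).re
      + (∑ i, ∑ j, (p * k) i j * B i j).re < u := by
    intro p hp hp'
    have h1 := hf1 _ ⟨_, ⟨p, ⟨hp, by simpa using hp'⟩, rfl⟩, rfl⟩
    have e : (lz, -kz) + L p = ((lz, 0) - (0, kz) - (p * l, 0) + (0, p * k)) := by
      simp [L, sub_eq_add_neg]
    simp only [e, map_add, map_sub] at h1
    rw [hc, ← hA' lz hlz, ← hB' kz hkz, ← hA' (p * l) (fun i j => by simp [hp.1 i j, hl i j]),
      ← hB' (p * k) (fun i j => by simp [hp.1 i j, hk i j])]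
    exact h1
  have hcu : c < u := by simpa using key 0 PS_zero (by simpa using hn0.le)
  set δ : ℝ := (u - c) / n with hδ
  have hδ0 : 0 < δ := div_pos (by linarith) hn0
  have hlr : ∀ i, l i i = ((l i i).re : ℂ) := fun i =>
    (Complex.conj_eq_iff_re.mp (hl i i).symm).symm
  let D : ι → ι → ℂ := fun i j => if i = j then ((δ / (l i i).re : ℝ) : ℂ) else 0
  have hD : ∀ g : ι → ι → ℂ, (∑ i, ∑ j, g i j * D i j).re = ∑ i, (g i i).re * (δ / (l i i).re) := by
    intro g
    simp only [D, mul_ite, mul_zero, Finset.sum_ite_eq, Finset.mem_univ, if_true, Complex.re_sum,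
      Complex.re_mul_ofReal]
  have hDp : PS D := by
    refine ⟨fun i j => ?_, fun a => ?_⟩
    · by_cases h : i = j
      · subst h; simp only [D, if_true, Complex.conj_ofReal]
      · simp [D, h, Ne.symm h]
    · unfold sf
      simp only [mul_comm (D _ _)]
      rw [hD]
      refine Finset.sum_nonneg fun i _ => mul_nonneg ?_ (div_pos hδ0 (hl0 i)).le
      rw [← Complex.normSq_eq_conj_mul_self, Complex.ofReal_re]
      exact Complex.normSq_nonneg _
  have h3 := H (A + D) B (hA.add hDp) hB (by
      intro i h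
      have h1 := congrArg Complex.re h
      have h2 := (hA.kq.diag i).1
      have h3 := div_pos hδ0 (hl0 i)
      simp only [Pi.add_apply, D, if_true, Complex.add_re, Complex.ofReal_re,
        Complex.zero_re] at h1
      linarith) (by
      intro a
      set s : ℝ := ∑ i, Complex.normSq (a i) with hs
      have e1 : sf (fun i j => l i j * (A + D) i j) a = sf (fun i j => l i j * A i j) a + δ * s := by
        have : (fun i j => l i j * (A + D) i j) = (fun i j => l i j * A i j) + fun i j => l i j * D i j := by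
          funext i j; simp [mul_add]
        rw [this, sf_add, hs, Finset.mul_sum]
        congr 1
        unfold sf
        simp only [mul_right_comm _ (D _ _)]
        rw [hD]
        refine Finset.sum_congr rfl fun i _ => ?_
        rw [← Complex.normSq_eq_conj_mul_self, Complex.re_mul_ofReal]
        field_simp [(hl0 i).ne']
      rw [e1]
      have hs0 : 0 ≤ s := Finset.sum_nonneg fun i _ => Complex.normSq_nonneg _
      rcases hs0.lt_or_eq with hs1 | hs1
      · have h4 := key ((n / s) • fun i j => conj (a i) * a j) ((PS_rank a).smul (by positivity)) (by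
          rw [norm_smul, Real.norm_of_nonneg (by positivity), div_mul_eq_mul_div, div_le_iff₀ hs1]
          refine mul_le_mul_of_nonneg_left ?_ hn0.le
          refine (pi_norm_le_iff_of_nonneg hs0).mpr fun i => (pi_norm_le_iff_of_nonneg hs0).mpr fun j => ?_
          have hb : ∀ i, ‖a i‖ ^ 2 ≤ s := fun i => by
            rw [← Complex.normSq_eq_norm_sq]
            exact Finset.single_le_sum (f := fun i => Complex.normSq (a i))
              (fun i _ => Complex.normSq_nonneg _) (Finset.mem_univ i)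
          rw [norm_mul, Complex.norm_conj]
          nlinarith [hb i, hb j, sq_nonneg (‖a i‖ - ‖a j‖)])
        have e2 : ∀ g C : ι → ι → ℂ, (∑ i, ∑ j, (((n / s) • fun i j => conj (a i) * a j) * g) i j * C i j).re
            = n / s * sf (fun i j => g i j * C i j) a := by
          intro g C
          rw [← sf_smul]
          unfold sf
          congr 1
          refine Finset.sum_congr rfl fun i _ => Finset.sum_congr rfl fun j _ => ?_
          simp only [Pi.mul_apply, Pi.smul_apply, Complex.real_smul]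
          ring
        rw [e2, e2] at h4
        have h5 : u - c = n / s * (δ * s) := by rw [hδ]; field_simp
        have h6 : 0 < n / s := by positivity
        by_contra h7
        push Not at h7
        nlinarith [mul_lt_mul_of_pos_left h7 h6]
      · have : a = 0 := by
          funext i
          exact Complex.normSq_eq_zero.mp ((Finset.sum_eq_zero_iff_of_nonneg
            (fun i _ => Complex.normSq_nonneg (a i))).mp hs1.symm i (Finset.mem_univ i))
        subst this
        simp [sf, ← hs1])
  simp only [Pi.add_apply, mul_add, Finset.sum_add_distrib, Complex.add_re] at h3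
  rw [hD] at h3
  have h4 : ∑ i, (lz i i).re * (δ / (l i i).re) ≤ ∑ _i : ι, δ := Finset.sum_le_sum fun i _ => by
    rw [mul_div_assoc', div_le_iff₀ (hl0 i)]
    nlinarith [hle i]
  rw [Finset.sum_const, Finset.card_univ, nsmul_eq_mul] at h4
  have h5 : δ * n = u - c := by rw [hδ]; field_simp
  rw [hnd] at h5
  nlinarith

end Pool.Agent.H15.Cpk
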