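import Pool.Agent.H15.Cpk5

set_option autoImplicit false

namespace Pool.Agent.H15.Cpk

open ComplexConjugate Matrix

variable {X : Type*}

theorem tang2 (k l : X → X → ℂ) (hk : ∀ x y, k y x = conj (k x y))
    (hl : ∀ x y, l y x = conj (l x y))
    {σ : Type} [Fintype σ] (hcp : CPq k l σ) {ι : Type} [Fintype ι] (z : ι → X) (t : Finset ι)
    (hk0 : ∀ i ∈ t, 0 < (k (z i) (z i)).re) :
    ∀ (E : ι → Submodule ℂ (σ → ℂ)) (V : ι → Matrix σ σ ℂ), (∀ j, j ∉ t → E j = ⊥ ∨ E j = ⊤) →
      (∀ x, (∀ j, x j ∈ E j) →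
        Con (fun i j => l (z i) (z j)) (fun i j => k (z i) (z j)) V x) →
      ∃ Φ : X → Matrix σ σ ℂ, Glob k l Φ ∧ ∀ j, ∀ v ∈ E j, Φ (z j) *ᵥ v = V j *ᵥ v := by
  classical
  induction t using Finset.induction_on with
  | empty =>
    intro E V hE hV
    obtain ⟨Φ, hΦ, hΦ'⟩ := hcp {j // E j = ⊤} (fun j => z j) (fun j => V j) (by
      intro x
      let y : ι → σ → ℂ := fun j => if h : E j = ⊤ then x ⟨j, h⟩ else 0
      have hy : ∀ j, ¬ E j = ⊤ → y j = 0 := fun j hj => dif_neg hj
      have hy' : ∀ j : {j // E j = ⊤}, y j = x j := fun j => dif_pos j.2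
      have h1 := hV y (by
        intro j
        by_cases h : E j = ⊤
        · rw [h]; trivial
        · rw [hy j h]; exact Submodule.zero_mem _)
      unfold Con at h1 ⊢
      rw [fm_sub _ (fun j => E j = ⊤) y hy,
        fm_sub _ (fun j => E j = ⊤) (fun j => V j *ᵥ y j) (fun j hj => by simp [hy j hj])] at h1
      simpa only [hy'] using h1)
    refine ⟨Φ, hΦ, ?_⟩
    intro j v hv
    rcases hE j (by simp) with h | h
    · rw [h] at hv
      simp [(Submodule.mem_bot ℂ).mp hv]
    · rw [hΦ' ⟨j, h⟩]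
  | insert i t _ ih =>
    replace ih := ih fun j hj => hk0 j (Finset.mem_insert_of_mem hj)
    intro E V hE hV
    set ck : ι → ι → ℂ := fun i j => k (z i) (z j) with hck
    set cl : ι → ι → ℂ := fun i j => l (z i) (z j) with hcl
    have hcks : ∀ i j, ck j i = conj (ck i j) := fun i j => hk _ _
    have hcls : ∀ i j, cl j i = conj (cl i j) := fun i j => hl _ _
    have hpos : 0 < (ck i i).re := hk0 i (Finset.mem_insert_self _ _)
    have hne : ck i i ≠ 0 := by intro h; rw [h] at hpos; simp at hpos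
    have hupd : ∀ F : Submodule ℂ (σ → ℂ), F = ⊥ ∨ F = ⊤ →
        ∀ j, j ∉ t → Function.update E i F j = ⊥ ∨ Function.update E i F j = ⊤ := by
      intro F hF j hj
      by_cases h : j = i
      · subst h; simpa using hF
      · rw [Function.update_of_ne h]; exact hE j (by simp [h, hj])
    obtain ⟨Φ0, hΦ0, hΦ0'⟩ := ih (Function.update E i ⊥) V (hupd _ (Or.inl rfl)) (by
      intro x hx
      apply hV
      intro j
      by_cases h : j = i
      · subst h
        have := hx j
        rw [Function.update_self, Submodule.mem_bot] at this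
        rw [this]; exact Submodule.zero_mem _
      · simpa [Function.update_of_ne h] using hx j)
    let D : Submodule ℂ (ι → σ → ℂ) := Submodule.pi Set.univ (Function.update E i ⊤)
    have hD : ∀ x : ι → σ → ℂ, x ∈ D ↔ ∀ j, j ≠ i → x j ∈ E j := by
      intro x
      simp only [D, Submodule.mem_pi, Set.mem_univ, true_implies]
      constructor
      · intro h j hj
        simpa [Function.update_of_ne hj] using h j
      · intro h j
        by_cases hj : j = i
        · subst hj; simp
        · simpa [Function.update_of_ne hj] using h j hj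
    let T : (ι → σ → ℂ) →ₗ[ℂ] (ι → σ → ℂ) :=
      LinearMap.pi fun j => (V j).mulVecLin ∘ₗ LinearMap.proj j
    have hT : ∀ x, T x = fun j => V j *ᵥ x j := fun x => rfl
    let B : D →ₗ⋆[ℂ] D →ₗ[ℂ] ℂ := pull (fm σ cl - pull (fm σ (dfl ck i)) T) D.subtype
    have hB : ∀ x y : D, B x y = fm σ cl x y - fm σ (dfl ck i) (T x) (T y) := fun x y => rfl
    let A : D →ₗ[ℂ] (σ → ℂ) := (∑ j, ck i j • LinearMap.proj j) ∘ₗ T ∘ₗ D.subtype
    have hA : ∀ x : D, A x = ∑ j, ck i j • (V j *ᵥ x.1 j) := by
      intro x; simp [A, hT]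
    obtain ⟨A', hA1, hA2⟩ := ext_lemma B
      (by
        intro x y
        rw [hB, hB, fm_symm cl hcls, fm_symm _ (dfl_symm ck hcks i), map_sub])
      (by
        intro x
        have h1 := hΦ0 ι z x
        unfold Con at h1
        rw [fm_dfl_re _ hcks i] at h1
        have h2 := div_nonneg (dot_nonneg (∑ j, ck i j • (Φ0 (z j) *ᵥ x.1 j))).1 hpos.le
        rw [hB, Complex.sub_re, hT, fm_dfl_congr ck i hne _ (fun j => Φ0 (z j) *ᵥ x.1 j)]
        · linarith
        · intro j hj
          exact (hΦ0' j _ (by simpa [Function.update_of_ne hj] using (hD _).mp x.2 j hj)).symm)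
      ((Submodule.pi Set.univ E).comap D.subtype) A
      (fun y => (star y ⬝ᵥ y).re / (ck i i).re)
      (by
        intro y hy
        have h1 := dot_nonneg y
        have h2 : (star y ⬝ᵥ y).re ≤ 0 := by
          by_contra h
          exact absurd (div_pos (not_le.mp h) hpos) (not_lt.mpr hy)
        have h3 : star y ⬝ᵥ y = 0 := Complex.ext (by simpa using le_antisymm h2 h1.1) (by simpa using h1.2)
        open ComplexOrder in
        exact dotProduct_star_self_eq_zero.mp h3)
      (by
        intro m hm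
        have h1 := hV m (fun j => hm j trivial)
        unfold Con at h1
        rw [fm_dfl_re _ hcks i] at h1
        rw [hB, Complex.sub_re, hT, hA]
        linarith)
    have hsing : ∀ v : σ → ℂ, LinearMap.single ℂ (fun _ : ι => σ → ℂ) i v ∈ D := by
      intro v
      rw [hD]
      intro j hj
      simp [Pi.single_eq_of_ne hj]
    let S : (σ → ℂ) →ₗ[ℂ] D := (LinearMap.single ℂ (fun _ : ι => σ → ℂ) i).codRestrict D hsing
    have hS : ∀ v, (S v).1 = Pi.single i v := fun v => rfl
    let V' : ι → Matrix σ σ ℂ :=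
      Function.update V i (LinearMap.toMatrix' ((ck i i)⁻¹ • (A' ∘ₗ S)))
    have hV'i : ∀ v, V' i *ᵥ v = (ck i i)⁻¹ • A' (S v) := by
      intro v; simp only [V', Function.update_self, LinearMap.toMatrix'_mulVec]; rfl
    have hV'j : ∀ j, j ≠ i → V' j = V j := fun j hj => Function.update_of_ne hj _ _
    obtain ⟨Φ, hΦ, hΦ'⟩ := ih (Function.update E i ⊤) V' (hupd _ (Or.inr rfl)) (by
      intro x hx
      have hxD : x ∈ D := fun j _ => hx j
      have h1 := hA2 ⟨x, hxD⟩
      have h2 : A' (⟨x, hxD⟩ - S (x i)) = A (⟨x, hxD⟩ - S (x i)) := by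
        apply hA1
        intro j _
        change x j - (Pi.single i (x i) : ι → σ → ℂ) j ∈ E j
        by_cases hj : j = i
        · subst hj; simp
        · simpa [Pi.single_eq_of_ne hj] using (hD _).mp hxD j hj
      have h3 : ∑ j, ck i j • (V' j *ᵥ x j) = A' ⟨x, hxD⟩ := by
        rw [map_sub, sub_eq_iff_eq_add] at h2
        rw [h2, hA, ← Finset.add_sum_erase _ _ (Finset.mem_univ i),
          ← Finset.add_sum_erase _ _ (Finset.mem_univ i), hV'i, smul_smul,
          mul_inv_cancel₀ hne, one_smul]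
        have e1 : (⟨x, hxD⟩ - S (x i) : D).1 i = 0 := by
          change x i - (Pi.single i (x i) : ι → σ → ℂ) i = 0
          simp
        rw [e1, mulVec_zero, smul_zero, zero_add, add_comm]
        congr 1
        refine Finset.sum_congr rfl fun j hj => ?_
        have hj' : j ≠ i := Finset.ne_of_mem_erase hj
        have e2 : (⟨x, hxD⟩ - S (x i) : D).1 j = x j := by
          change x j - (Pi.single i (x i) : ι → σ → ℂ) j = x j
          simp [Pi.single_eq_of_ne hj']
        rw [e2, hV'j j hj']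
      unfold Con
      rw [fm_dfl_re _ hcks i, h3,
        fm_dfl_congr ck i hne _ (fun j => V j *ᵥ x j) (fun j hj => by rw [hV'j j hj])]
      rw [hB, Complex.sub_re, hT] at h1
      linarith)
    refine ⟨Φ, hΦ, ?_⟩
    intro j v hv
    by_cases hj : j = i
    · subst hj
      rw [hΦ' j v (by simp), hV'i, hA1 (S v), hA, Finset.sum_eq_single j]
      · rw [hS, Pi.single_eq_same, smul_smul, inv_mul_cancel₀ hne, one_smul]
      · intro b _ hb
        rw [hS, Pi.single_eq_of_ne hb, mulVec_zero, smul_zero]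
      · simp
      · intro b _
        change (Pi.single j v : ι → σ → ℂ) b ∈ E b
        by_cases hb : b = j
        · subst hb; simpa using hv
        · simp [Pi.single_eq_of_ne hb]
    · rw [hΦ' j v (by simpa [Function.update_of_ne hj] using hv), hV'j j hj]

theorem tcp2 {k l : X → X → ℂ} (hk : Kq k) (hl : Kq l)
    (hl0 : ∀ x, l x x ≠ 0) (hcp : ∀ (σ : Type) [Fintype σ], CPq k l σ) {ι : Type} [Fintype ι]
    (z : ι → X) (w : X) (A B : ι → ι → ℂ) (hA : Kq A) (hB : Kq B) (hA0 : ∀ i, A i i ≠ 0)
    (hM : ∀ a, sf (fun i j => k (z i) (z j) * B i j) a ≤ sf (fun i j => l (z i) (z j) * A i j) a) :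
    (∑ i, ∑ j, (k (z i) (z j) - k (z i) w * k w (z j) / k w w) * B i j).re ≤
      (∑ i, ∑ j, (l (z i) (z j) - l (z i) w * l w (z j) / l w w) * A i j).re := by
  classical
  obtain ⟨m, u, r, hr, h1, h2⟩ := finrank A hA Finset.univ
  obtain ⟨m', u', r', hr', h1', h2'⟩ := finrank B hB Finset.univ
  let ξ : ι → Fin m ⊕ Fin m' → ℂ := fun i => Sum.elim (u i) 0
  let η : ι → Fin m ⊕ Fin m' → ℂ := fun i => Sum.elim 0 (u' i)
  have hξ : ∀ i j, star (ξ i) ⬝ᵥ ξ j = A i j := by
    intro i j
    rw [h1, hr.row _ _ (h2 _ (by simp))]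
    simp [dotProduct, ξ]
  have hη : ∀ i j, star (η i) ⬝ᵥ η j = B i j := by
    intro i j
    rw [h1', hr'.row _ _ (h2' _ (by simp))]
    simp [dotProduct, η]
  let V : ι → Matrix (Fin m ⊕ Fin m') (Fin m ⊕ Fin m') ℂ := fun i =>
    (A i i)⁻¹ • vecMulVec (η i) (star (ξ i))
  have hV : ∀ i, V i *ᵥ ξ i = η i := by
    intro i
    simp only [V, smul_mulVec, vecMulVec_mulVec, hξ]
    funext a
    simp [hA0 i]
  obtain ⟨Φ, hΦ, hΦ'⟩ := tang2 k l hk.1 hl.1 (hcp _) z
    (Finset.univ.filter fun i => k (z i) (z i) ≠ 0)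
    (fun i hi => hk.pos _ (Finset.mem_filter.mp hi).2)
    (fun i => if k (z i) (z i) = 0 then ⊥ else Submodule.span ℂ {ξ i}) V
    (by intro j hj; left; simp at hj; simp [hj]) (by
      intro x hx
      have hx2 : ∀ j, x j ∈ Submodule.span ℂ {ξ j} := by
        intro j
        have := hx j
        split_ifs at this
        · rw [(Submodule.mem_bot ℂ).mp this]; exact Submodule.zero_mem _
        · exact this
      choose a ha using fun j => Submodule.mem_span_singleton.mp (hx2 j)
      have hx : x = fun i => a i • ξ i := funext fun i => (ha i).symm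
      subst hx
      have h3 := hM a
      unfold Con
      unfold sf at h3
      simp only [fm_apply, mulVec_smul, hV, star_smul, smul_dotProduct, dotProduct_smul, hξ, hη,
        smul_eq_mul, RCLike.star_def]
      refine le_of_eq_of_le ?_ (h3.trans_eq ?_) <;> congr 1 <;>
        exact Finset.sum_congr rfl fun i _ => Finset.sum_congr rfl fun j _ => by ring)
  let z' : Option ι → X := fun o => o.elim w z
  let y : Option ι → Fin m ⊕ Fin m' → ℂ :=
    fun o => o.elim (-((l w w)⁻¹ • ∑ j, l w (z j) • ξ j)) ξ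
  have h3 := hΦ (Option ι) z' y
  unfold Con at h3
  have h4 : ∑ j, l (z' none) (z' j) • y j = 0 := by
    rw [Fintype.sum_option]
    simp only [z', y, Option.elim_none, Option.elim_some, smul_neg, smul_smul,
      mul_inv_cancel₀ (hl0 w), one_smul]
    simp
  have hz : ∀ x y, k x x = 0 → k x y - k x w * k w y / k w w = 0 := by
    intro x y hx
    simp [hk.row x _ hx]
  have hz' : ∀ x y, k y y = 0 → k x y - k x w * k w y / k w w = 0 := by
    intro x y hy
    rw [hk.1 y x, hk.1 y w]
    simp [hk.row y _ hy]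
  have hw : ∀ y, k w y - k w w * k w y / k w w = 0 := by
    intro y
    by_cases h : k w w = 0
    · exact hz w y h
    · field_simp; ring
  have hw' : ∀ y, k y w - k y w * k w w / k w w = 0 := by
    intro y
    by_cases h : k w w = 0
    · exact hz' y w h
    · field_simp; ring
  have h8 : fm _ (dfl (fun i j => k (z' i) (z' j)) none) (fun j => Φ (z' j) *ᵥ y j)
      (fun j => Φ (z' j) *ᵥ y j)
      = ∑ i, ∑ j, (k (z i) (z j) - k (z i) w * k w (z j) / k w w) * B i j := by
    rw [fm_apply]
    simp only [Fintype.sum_option, dfl, z', Option.elim_none, Option.elim_some, hw, hw', zero_mul,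
      Finset.sum_const_zero, zero_add, y]
    refine Finset.sum_congr rfl fun i _ => Finset.sum_congr rfl fun j _ => ?_
    by_cases hi : k (z i) (z i) = 0
    · rw [hz _ _ hi, zero_mul, zero_mul]
    by_cases hj : k (z j) (z j) = 0
    · rw [hz' _ _ hj, zero_mul, zero_mul]
    rw [hΦ' i _ (by simp [hi]), hΦ' j _ (by simp [hj]), hV, hV, hη]
  rw [fm_dfl_re _ (fun i j => hl.1 _ _) none, fm_dfl_re _ (fun i j => hk.1 _ _) none, h4, h8,
    fm_opt _ (hl0 w)] at h3
  have h5 := div_nonneg (dot_nonneg (∑ j, k (z' none) (z' j) • (Φ (z' j) *ᵥ y j))).1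
    (hk.diag w).1
  have h7 : ∀ i, y (some i) = ξ i := fun i => rfl
  simp only [h7, hξ, dotProduct_zero, Complex.zero_re, zero_div, add_zero] at h3
  exact le_trans (le_add_of_nonneg_right h5) h3

end Pool.Agent.H15.Cpk
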