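import Pool.Agent.H15.DSep3
import Pool.Agent.H26.ErdosRado

/-! A scale with an exact upper bound of uncountable cofinalities. -/

set_option autoImplicit false

namespace Pool.Agent.H15.DL

open Set Cardinal Filter Pool.Agent.H15.DSep

noncomputable def mu : ℕ → Cardinal.{0}
  | 0 => 𝔠
  | n + 1 => Order.succ (mu n)

theorem mu_mono : Monotone mu := monotone_nat_of_le_succ fun _ => Order.le_succ _

noncomputable def lam : Cardinal.{0} := Cardinal.sum mu

theorem mu_le (n : ℕ) : mu n ≤ lam := Cardinal.le_sum mu n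

theorem c_le : 𝔠 ≤ lam := mu_le 0

theorem a_le : ℵ₀ ≤ lam := aleph0_le_continuum.trans c_le

theorem a_le_mu (n : ℕ) : ℵ₀ ≤ mu n := aleph0_le_continuum.trans (mu_mono (Nat.zero_le n))

abbrev Om : Type := (Order.succ lam).ord.ToType

instance : NoMaxOrder Om := Cardinal.noMaxOrder (a_le.trans (Order.le_succ _))

theorem bddO {β : Type} (hβ : #β ≤ lam) (f : β → Om) : ∃ b, ∀ x, f x < b := by
  have : ¬ IsCofinal (range f) := fun h => by
    have h1 := Order.cof_le h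
    rw [Ordinal.cof_toType, (Cardinal.isRegular_succ a_le).cof_ord] at h1
    exact (Order.lt_succ lam).not_ge (h1.trans (Cardinal.mk_range_le.trans hβ))
  obtain ⟨a, ha⟩ := not_isCofinal_iff.1 this
  exact ⟨a, fun x => ha _ ⟨x, rfl⟩⟩

instance : Nonempty Om := by
  obtain ⟨b, -⟩ := bddO (β := Empty) (by simp) fun x => x.elim
  exact ⟨b⟩

theorem mk_Iio_O (a : Om) : #(Iio a) ≤ lam := Order.lt_succ_iff.1 (mk_Iio_lt' a)

theorem unb_fiber {C : Type} (hC : #C ≤ lam) (τ : Om → C) : ∃ c, ∀ γ, ∃ α, γ < α ∧ τ α = c := by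
  by_contra hc
  push Not at hc
  choose γ hγ using hc
  obtain ⟨b, hb⟩ := bddO hC γ
  exact hγ _ b (hb _) rfl

theorem exists_reg (n : ℕ) : ∃ b : Om, ∀ {β : Type}, #β ≤ mu n → ∀ u : β → Om,
    (∀ i, u i < b) → ∃ c < b, ∀ i, u i < c := by
  have hne : {b : Om | mu n < #(Iio b)}.Nonempty := by
    obtain ⟨p, -, hp⟩ := Cardinal.le_mk_iff_exists_subset.1
      (show mu (n + 1) ≤ #(Set.univ : Set Om) by
        rw [Cardinal.mk_univ, Cardinal.mk_ord_toType]
        exact (mu_le _).trans (Order.le_succ _))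
    obtain ⟨b, hb⟩ := bddO (hp.le.trans (mu_le _)) Subtype.val
    exact ⟨b, (Order.lt_succ _).trans_le
      (hp.ge.trans (Cardinal.mk_le_mk_of_subset fun x hx => hb ⟨x, hx⟩))⟩
  obtain ⟨b, hb, hmin⟩ := (wellFounded_lt (α := Om)).has_min _ hne
  refine ⟨b, fun hβ u hu => ?_⟩
  by_contra hc
  push Not at hc
  have h1 : Iio b ⊆ ⋃ i, (Iio (u i) ∪ {u i}) := fun c h => by
    obtain ⟨i, hi⟩ := hc c h
    exact mem_iUnion.2 ⟨i, hi.lt_or_eq⟩
  refine hb.not_ge ((Cardinal.mk_le_mk_of_subset h1).trans (mk_iU_le (a_le_mu n) hβ _ fun i =>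
    mk_un_le (a_le_mu n) (not_lt.1 fun h => hmin _ h (hu i)) ?_))
  exact (countable_singleton _).le_aleph0.trans (a_le_mu n)

theorem exists_seq : ∃ (f : Om → ℕ → Om) (b : ℕ → Om), (∀ α n, f α n < b n) ∧
    ∀ α β, α < β → ∀ᶠ n in atTop, f α n < f β n := by
  choose b hb using exists_reg
  have hbd : ∀ (α : Om) (u : Iio α → {g : ℕ → Om // ∀ n, g n < b n}),
      ∃ g : {g : ℕ → Om // ∀ n, g n < b n}, ∀ i, ∀ᶠ n in atTop, (u i).1 n < g.1 n := by
    intro α u
    obtain ⟨j⟩ : Nonempty (Iio α ↪ Σ k, (mu k).out) := by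
      refine (Cardinal.le_def _ _).1 ?_
      rw [Cardinal.mk_sigma]
      simp only [Cardinal.mk_out]
      exact mk_Iio_O α
    have h1 : ∀ n, #{i | (j i).1 ≤ n} ≤ mu n := by
      intro n
      have : {i | (j i).1 ≤ n} ⊆ ⋃ k : Iic n, j ⁻¹' range (Sigma.mk k.1) := fun i hi =>
        mem_iUnion.2 ⟨⟨_, hi⟩, _, rfl⟩
      refine (Cardinal.mk_le_mk_of_subset this).trans (mk_iU_le (a_le_mu n)
        (mk_le_aleph0.trans (a_le_mu n)) _ fun k => ?_)
      refine (Cardinal.mk_preimage_of_injective _ _ j.injective).trans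
        (Cardinal.mk_range_le.trans ?_)
      rw [Cardinal.mk_out]
      exact mu_mono k.2
    choose g hg hg' using fun n => hb n (h1 n) (fun i => (u i).1 n) fun i => (u i).2 n
    exact ⟨⟨g, hg⟩, fun i => (eventually_ge_atTop (j i).1).mono fun n hn => hg' n ⟨i, hn⟩⟩
  choose B hB using hbd
  let f : Om → {g : ℕ → Om // ∀ n, g n < b n} :=
    (wellFounded_lt (α := Om)).fix fun α ih => B α fun i => ih i i.2
  have hf : ∀ α, f α = B α fun i => f i := fun α => (wellFounded_lt (α := Om)).fix_eq _ α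
  refine ⟨fun α => (f α).1, b, fun α => (f α).2, fun α β h => ?_⟩
  have := hB β (fun i => f i) ⟨α, h⟩
  rwa [← hf] at this

theorem exists_lub {f : Om → ℕ → Om} {b : ℕ → Om} (hb : ∀ α n, f α n < b n)
    (hf : ∀ α β, α < β → ∀ᶠ n in atTop, f α n < f β n) :
    ∃ H : ℕ → Om, (∀ α, ∀ᶠ n in atTop, f α n ≤ H n) ∧
      ∀ g : ℕ → Om, (∀ α, ∀ᶠ n in atTop, f α n ≤ g n) → ∀ᶠ n in atTop, H n ≤ g n := by
  by_contra hc
  push Not at hc
  choose! Φ h1 h2 using hc
  let B : ℕ ⊕ ℕ → Type := Sum.elim (fun _ => Empty) fun _ => ℕ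
  let ev : WType B → Om := WType.elim Om fun p => match p with
    | ⟨Sum.inl n, _⟩ => b n
    | ⟨Sum.inr n, t⟩ => Φ t n
  have hW : #(WType B) ≤ 𝔠 := by
    refine WType.cardinalMk_le_of_le ((Cardinal.sum_le_sum _ (fun _ => 𝔠) ?_).trans ?_)
    · rintro (n | n)
      · simp [B, one_lt_aleph0.le.trans aleph0_le_continuum]
      · simp [B]
    · simp
  have hm : ∀ α n, ∃ t : WType B, f α n ≤ ev t ∧ ∀ t', f α n ≤ ev t' → ev t ≤ ev t' := by
    intro α n
    obtain ⟨t, ht, hmin⟩ := (InvImage.wf ev (wellFounded_lt (α := Om))).has_min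
      {t | f α n ≤ ev t} ⟨WType.mk (Sum.inl n) Empty.elim, (hb α n).le⟩
    exact ⟨t, ht, fun t' h => not_lt.1 (hmin t' h)⟩
  choose τ hτ hτ' using hm
  obtain ⟨c, hc⟩ := unb_fiber (C := ℕ → WType B) (by
    rw [← Cardinal.power_def, Cardinal.mk_nat]
    exact (Cardinal.power_le_power_right hW).trans (continuum_power_aleph0.le.trans c_le)) τ
  have hH : ∀ α, ∀ᶠ n in atTop, f α n ≤ ev (c n) := by
    intro α
    obtain ⟨β, h, e⟩ := hc α
    exact (hf α β h).mono fun n hn => hn.le.trans (e ▸ hτ β n)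
  obtain ⟨β, -, e⟩ := hc (Classical.arbitrary _)
  obtain ⟨n, a1, a2⟩ := ((h2 _ hH).and_eventually (h1 _ hH β)).exists
  exact a1.not_ge (e ▸ hτ' β n (WType.mk (Sum.inr n) (τ β)) (e ▸ a2))

theorem scale : ∃ (f : Om → ℕ → Om) (H : ℕ → Om), (∀ α n, f α n < H n) ∧
    (∀ α β, α < β → ∀ᶠ n in atTop, f α n < f β n) ∧
    (∀ g : ℕ → Om, (∀ n, g n < H n) → ∃ α, ∀ᶠ n in atTop, g n < f α n) ∧
    ∀ n (s : ℕ → Om), (∀ i, s i < H n) → ∃ c < H n, ∀ i, s i < c := by
  classical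
  obtain ⟨f, b, hb, hf⟩ := exists_seq
  obtain ⟨H, h1, h2⟩ := exists_lub hb hf
  have E1 : ∀ α, ∀ᶠ n in atTop, f α n < H n := fun α => by
    obtain ⟨β, h⟩ := exists_gt α
    exact ((hf α β h).and (h1 β)).mono fun n hn => hn.1.trans_le hn.2
  have E2 : ∀ g : ℕ → Om, (∀ᶠ n in atTop, g n < H n) → ∃ α, ∀ᶠ n in atTop, g n < f α n := by
    intro g hg
    by_contra hc
    push Not at hc
    obtain ⟨A, hA⟩ := unb_fiber (C := Set ℕ) (by simp [c_le]) fun α => {n | f α n ≤ g n}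
    have h3 := h2 (fun n => if n ∈ A then g n else H n) fun α => by
      obtain ⟨β, h, e⟩ := hA α
      refine ((hf α β h).and (h1 α)).mono fun n hn => ?_
      split_ifs with hn'
      · exact hn.1.le.trans (e.symm.subset hn')
      · exact hn.2
    obtain ⟨β, -, e⟩ := hA (Classical.arbitrary _)
    obtain ⟨n, a1, a2, a3⟩ := ((hc β).and_eventually (h3.and hg)).exists
    rw [if_pos (e.subset a1)] at a2
    exact a3.not_ge a2
  let a0 : Om := Classical.arbitrary _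
  have E3 : ∀ᶠ n in atTop, ∀ s : ℕ → Om, (∀ i, s i < H n) → ∃ c < H n, ∀ i, s i < c := by
    by_contra hc
    rw [not_eventually] at hc
    have hs : ∀ n, ∃ s : ℕ → Om, (f a0 n < H n → ∀ i, s i < H n) ∧
        ((¬ ∀ s : ℕ → Om, (∀ i, s i < H n) → ∃ c < H n, ∀ i, s i < c) →
          ∀ c < H n, ∃ i, c ≤ s i) := by
      intro n
      by_cases h : ∀ s : ℕ → Om, (∀ i, s i < H n) → ∃ c < H n, ∀ i, s i < c
      · exact ⟨fun _ => f a0 n, fun h _ => h, fun h' => (h' h).elim⟩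
      · push Not at h
        obtain ⟨s, a1, a2⟩ := h
        exact ⟨s, fun _ => a1, fun _ => a2⟩
    choose s s1 s2 using hs
    choose α hα using fun φ : ℕ → ℕ => E2 (fun n => s n (φ n)) ((E1 a0).mono fun n hn => s1 n hn _)
    obtain ⟨β, hβ⟩ := bddO (by simp [c_le]) α
    have : ∀ n, ∃ i, (¬ ∀ s : ℕ → Om, (∀ i, s i < H n) → ∃ c < H n, ∀ i, s i < c) →
        f β n < H n → f β n ≤ s n i := by
      intro n
      by_cases h : (¬ ∀ s : ℕ → Om, (∀ i, s i < H n) → ∃ c < H n, ∀ i, s i < c) ∧ f β n < H n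
      · obtain ⟨i, hi⟩ := s2 n h.1 _ h.2
        exact ⟨i, fun _ _ => hi⟩
      · exact ⟨0, fun a b => (h ⟨a, b⟩).elim⟩
    choose φ hφ using this
    obtain ⟨n, a1, a2, a3, a4⟩ :=
      (hc.and_eventually ((E1 β).and ((hα φ).and (hf _ _ (hβ φ))))).exists
    exact (a3.trans a4).not_ge (hφ n a1 a2)
  obtain ⟨N, hN⟩ := eventually_atTop.1 (E3.and (E1 a0))
  have sh := tendsto_add_atTop_nat N
  have e : ∀ α, ∀ᶠ n in atTop, (if f α (n + N) < H (n + N) then f α (n + N) else f a0 (n + N)) =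
      f α (n + N) := fun α => (sh.eventually (E1 α)).mono fun n hn => if_pos hn
  refine ⟨fun α n => if f α (n + N) < H (n + N) then f α (n + N) else f a0 (n + N),
    fun n => H (n + N), fun α n => ?_, fun α β h => ?_, fun g hg => ?_,
    fun n => (hN _ (Nat.le_add_left _ _)).1⟩
  · dsimp only
    split_ifs with h
    · exact h
    · exact (hN _ (Nat.le_add_left _ _)).2
  · filter_upwards [e α, e β, sh.eventually (hf α β h)] with n a1 a2 a3
    rwa [a1, a2]
  · obtain ⟨α, hα⟩ := E2 (fun m => g (m - N)) ((eventually_ge_atTop N).mono fun m hm => by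
      have : g (m - N) < H (m - N + N) := hg (m - N)
      rwa [Nat.sub_add_cancel hm] at this)
    refine ⟨α, ?_⟩
    filter_upwards [e α, sh.eventually hα] with n a1 a2
    rw [a1]
    rwa [Nat.add_sub_cancel] at a2

theorem dom_pair {S : Type} (hS : 𝔠 < #S) (x : S → ℕ → Om) :
    ∃ s s', s ≠ s' ∧ ∀ n, x s n ≤ x s' n := by
  by_contra hc
  push Not at hc
  choose! c hc using hc
  obtain ⟨T, g, d, hT, hg, hd⟩ := H26.ErdosRado.erdos_rado (ν := ℵ₀) le_rfl
    (Cardinal.mk_nat.le) hS c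
  obtain ⟨e⟩ : Nonempty (((· < ·) : ℕ → ℕ → Prop) ↪r ((· < ·) : T → T → Prop)) := by
    refine Ordinal.type_le_iff'.1 (not_lt.1 fun h => ?_)
    have h2 := Ordinal.card_le_card h.le
    rw [Ordinal.card_type, Ordinal.card_type, Cardinal.mk_nat] at h2
    exact (Order.lt_succ _).not_ge (hT.trans h2)
  obtain ⟨n, hn⟩ := WellFounded.not_rel_apply_succ (r := (· < ·)) fun n : ℕ => x (g (e n)) d
  have h1 : e n < e (n + 1) := e.map_rel_iff.2 (Nat.lt_succ_self n)
  have h2 := hc (g (e n)) (g (e (n + 1))) fun h => h1.ne (Subtype.ext (hg h))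
  rw [hd _ (e n).2 _ h1] at h2
  exact hn h2

end Pool.Agent.H15.DL
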