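import Pool.Agent.H15.DL1

/-! Compact sets of sequences well ordered by eventual dominance are countable. -/

set_option autoImplicit false

namespace Pool.Agent.H15.DL

open Set Cardinal Filter Topology Pool.Agent.H15.DSep Order

noncomputable instance : TopologicalSpace Om := Preorder.topology Om

instance : OrderTopology Om := ⟨rfl⟩

theorem compact_Iic (a : Om) : IsCompact (Iic a) := by
  let _i : OrderBot Om := WellFoundedLT.toOrderBot Om
  let _j := WellFoundedLT.conditionallyCompleteLinearOrderBot Om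
  have := ConditionallyCompleteLinearOrder.toCompactIccSpace Om
  rw [← Icc_bot]
  exact isCompact_Icc

theorem open_Iic (a : Om) : IsOpen (Iic a) := by
  rw [← Iio_succ]; exact isOpen_Iio

theorem closed_Ioi (a : Om) : IsClosed (Ioi a) := by
  rw [← compl_Iic]; exact (open_Iic a).isClosed_compl

theorem open_succ (a : Om) : IsOpen ({succ a} : Set Om) := by
  have : ({succ a} : Set Om) = Ioi a ∩ Iic (succ a) := by
    ext x
    exact ⟨by rintro rfl; exact ⟨lt_succ a, mem_Iic.2 le_rfl⟩, fun h => h.2.antisymm (succ_le_of_lt h.1)⟩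
  rw [this]
  exact isOpen_Ioi.inter (open_Iic _)

def cyl (c : ℕ → Om) (m : ℕ) : Set (ℕ → Om) := {h | ∀ n < m, h n = c n}

theorem cyl_sub' {B : Set (ℕ → Om)} (hB : IsOpen B) {h : ℕ → Om} (hh : h ∈ B) :
    ∃ m, cyl h m ⊆ B := by
  obtain ⟨I, u, h1, h2⟩ := isOpen_pi_iff.1 hB h hh
  obtain ⟨m, hm⟩ := I.bddAbove
  exact ⟨m + 1, fun g hg => h2 fun i hi => by
    rw [hg i (Nat.lt_succ_of_le (hm hi))]; exact (h1 i hi).2⟩

theorem open_cyl {c : ℕ → Om} (hc : ∀ n, IsOpen ({c n} : Set Om)) (m : ℕ) : IsOpen (cyl c m) := by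
  have : cyl c m = ⋂ n ∈ Finset.range m, (fun h => h n) ⁻¹' {c n} := by
    ext h; simp [cyl]
  rw [this]
  exact isOpen_biInter_finset fun n _ => (hc n).preimage (continuous_apply n)

theorem closed_tail (j : ℕ) (s : ℕ → Set Om) (hs : ∀ n, IsClosed (s n)) :
    IsClosed {h : ℕ → Om | ∀ n, j ≤ n → h n ∈ s n} := by
  simp only [ofPred_forall]
  exact isClosed_iInter fun n => isClosed_iInter fun _ => (hs n).preimage (continuous_apply n)

theorem core_countable {C : Set (ℕ → Om)} (hC : IsCompact C) (r : (ℕ → Om) → Om)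
    (ha : ∀ c ∈ C, ∀ n, IsOpen ({c n} : Set Om))
    (hb : ∀ c ∈ C, ∀ c' ∈ C, r c < r c' ↔ ∀ᶠ n in atTop, c n < c' n)
    (hd : ∀ x ∈ C, {c ∈ C | r c ≤ r x}.Countable) : C.Countable := by
  classical
  by_contra hunc
  choose t ht htf ht' using fun m => hC.elim_finite_subcover_image
    (fun c hc => open_cyl (ha c hc) m) fun c hc => mem_biUnion hc fun _ _ => rfl
  let N : Set (ℕ → Om) := ⋃ m, ⋃ c ∈ t m ∩ {c | (C ∩ cyl c m).Countable}, cyl c m
  have hN : (C ∩ N).Countable := by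
    simp only [N, inter_iUnion]
    exact countable_iUnion fun m => Countable.biUnion ((htf m).countable.mono inter_subset_left)
      fun c hc => hc.2
  have hP : IsCompact (C \ N) := hC.diff (isOpen_iUnion fun m =>
    isOpen_biUnion fun c hc => open_cyl (ha c (ht m hc.1)) m)
  have hPu : ¬ (C \ N).Countable := fun h => hunc (by
    rw [← inter_union_sdiff C N]; exact hN.union h)
  have hq : ∀ m c, ∃ q, (C \ N ∩ cyl c m).Nonempty → q ∈ C \ N ∩ cyl c m := fun m c => by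
    by_cases h : (C \ N ∩ cyl c m).Nonempty
    · exact ⟨_, fun _ => h.choose_spec⟩
    · exact ⟨c, fun h' => (h h').elim⟩
  choose q hq using hq
  obtain ⟨x, hx, hxq⟩ : ∃ x ∈ C \ N, ∀ m, ∀ c ∈ t m, q m c ∈ C → r (q m c) < r x := by
    by_contra hc
    push Not at hc
    refine hPu ((countable_iUnion fun m => Countable.biUnion
      ((htf m).countable.mono (inter_subset_left (t := {c | q m c ∈ C})))
      fun c hc => hd _ hc.2).mono fun x hx => ?_)
    obtain ⟨m, c, h1, h2, h3⟩ := hc x hx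
    exact mem_iUnion.2 ⟨m, mem_iUnion₂.2 ⟨c, ⟨h1, h2⟩, hx.1, h3⟩⟩
  have := isCompact_iff_compactSpace.1 hP
  have : Nonempty (C \ N : Set _) := ⟨⟨x, hx⟩⟩
  have := (hd x hx.1).to_subtype
  let F : ℕ ⊕ {c ∈ C | r c ≤ r x} → Set (ℕ → Om) :=
    Sum.elim (fun j => {h | ∀ n, j ≤ n → h n ∈ Ioi (x n)}) fun e => {e.1}
  obtain ⟨i, p, hp⟩ := nonempty_interior_of_iUnion_of_closed (X := (C \ N : Set _))
    (f := fun i => Subtype.val ⁻¹' F i) (fun i => IsClosed.preimage continuous_subtype_val (by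
      rcases i with j | e
      · exact closed_tail j _ fun n => closed_Ioi _
      · exact isClosed_singleton)) (eq_univ_of_forall fun p => by
      rcases le_or_gt (r p) (r x) with h | h
      · exact mem_iUnion.2 ⟨Sum.inr ⟨p, p.2.1, h⟩, rfl⟩
      · obtain ⟨j, hj⟩ := eventually_atTop.1 ((hb _ hx.1 _ p.2.1).1 h)
        exact mem_iUnion.2 ⟨Sum.inl j, hj⟩)
  obtain ⟨O, h1, h2, h3⟩ := mem_interior.1 hp
  obtain ⟨B, hB, rfl⟩ := isOpen_induced_iff.1 h2
  obtain ⟨m, hm⟩ := cyl_sub' hB h3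
  obtain ⟨c, hc, hpc⟩ := mem_iUnion₂.1 (ht' m p.2.1)
  have hsub : C \ N ∩ cyl c m ⊆ F i := fun h hh =>
    h1 (show (⟨h, hh.1⟩ : (C \ N : Set _)) ∈ Subtype.val ⁻¹' B from
      hm fun n hn => (hh.2 n hn).trans (hpc n hn).symm)
  have hq' := hq m c ⟨p, p.2, hpc⟩
  rcases i with j | e
  · exact (hxq m c hc hq'.1.1).not_gt ((hb _ hx.1 _ hq'.1.1).2 (eventually_atTop.2 ⟨j, hsub hq'⟩))
  · refine p.2.2 (mem_iUnion.2 ⟨m, mem_biUnion (x := c) ⟨hc, ?_⟩ hpc⟩)
    refine (hN.union (countable_singleton e.1)).mono fun h hh => ?_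
    by_cases hn : h ∈ N
    · exact Or.inl ⟨hh.1, hn⟩
    · exact Or.inr (hsub ⟨⟨hh.1, hn⟩, hh.2⟩)

theorem cpt_countable {C : Set (ℕ → Om)} (hC : IsCompact C) (r : (ℕ → Om) → Om)
    (ha : ∀ c ∈ C, ∀ n, IsOpen ({c n} : Set Om))
    (hb : ∀ c ∈ C, ∀ c' ∈ C, r c < r c' ↔ ∀ᶠ n in atTop, c n < c' n)
    (hd : ∀ α, {c ∈ C | r c = α}.Countable) : C.Countable := by
  have key : ∀ α, ∀ x ∈ C, r x = α → {c ∈ C | r c ≤ r x}.Countable := by
    intro α
    induction α using WellFoundedLT.induction with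
    | ind α ih =>
      rintro x hx rfl
      have h1 : ∀ j, (C ∩ {h : ℕ → Om | ∀ n, j ≤ n → h n ∈ Iic (x n) \ {x n}}).Countable := by
        intro j
        refine core_countable (hC.inter_right (closed_tail j _ fun n =>
          isClosed_Iic.sdiff (ha x hx n))) r (fun c hc => ha c hc.1)
          (fun c hc c' hc' => hb c hc.1 c' hc'.1) fun y hy => ?_
        refine Countable.mono ?_ (ih (r y) ((hb _ hy.1 _ hx).2 (eventually_atTop.2 ⟨j, fun n hn =>
          lt_of_le_of_ne (hy.2 n hn).1 (hy.2 n hn).2⟩)) y hy.1 rfl)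
        exact fun c hc => ⟨hc.1.1, hc.2⟩
      refine ((countable_iUnion h1).union (hd (r x))).mono fun c hc => ?_
      rcases hc.2.lt_or_eq with h | h
      · obtain ⟨j, hj⟩ := eventually_atTop.1 ((hb _ hc.1 _ hx).1 h)
        exact Or.inl (mem_iUnion.2 ⟨j, hc.1, fun n hn => ⟨(hj n hn).le, (hj n hn).ne⟩⟩)
      · exact Or.inr ⟨hc.1, h⟩
  exact core_countable hC r ha hb fun x hx => key _ x hx rfl

end Pool.Agent.H15.DL
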