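import Pool.Agent.H15.DL2

/-! A Hausdorff discretely Lindelof space that is not weakly Lindelof. -/

set_option autoImplicit false

namespace Pool.Agent.H15.DL

open Set Cardinal Filter Topology Pool.Agent.H15.DSep Order TopologicalSpace

noncomputable def ff : Om → ℕ → Om := scale.choose

noncomputable def HH : ℕ → Om := scale.choose_spec.choose

theorem f_lt (α : Om) (n : ℕ) : ff α n < HH n := scale.choose_spec.choose_spec.1 α n

theorem f_mono {α β : Om} (h : α < β) : ∀ᶠ n in atTop, ff α n < ff β n :=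
  scale.choose_spec.choose_spec.2.1 α β h

theorem f_eub (g : ℕ → Om) (h : ∀ n, g n < HH n) : ∃ α, ∀ᶠ n in atTop, g n < ff α n :=
  scale.choose_spec.choose_spec.2.2.1 g h

theorem H_cof (n : ℕ) (s : ℕ → Om) (h : ∀ i, s i < HH n) : ∃ c < HH n, ∀ i, s i < c :=
  scale.choose_spec.choose_spec.2.2.2 n s h

theorem f_mono' {α β : Om} (h : α ≤ β) : ∀ᶠ n in atTop, ff α n ≤ ff β n := by
  rcases h.eq_or_lt with rfl | h
  · exact Eventually.of_forall fun _ => le_rfl
  · exact (f_mono h).mono fun _ => le_of_lt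

theorem succ_f_lt (α : Om) (n : ℕ) : succ (ff α n) < HH n := by
  obtain ⟨c, h1, h2⟩ := H_cof n (fun _ => ff α n) fun _ => f_lt α n
  exact (succ_le_of_lt (h2 0)).trans_lt h1

noncomputable def yy (α : Om) (k n : ℕ) : Om := if n < k then succ (HH n) else succ (ff α n)

theorem yy_ev (α : Om) (k : ℕ) : ∀ᶠ n in atTop, yy α k n = succ (ff α n) :=
  (eventually_ge_atTop k).mono fun _ hn => if_neg hn.not_gt

theorem yy_le (α : Om) (k n : ℕ) : yy α k n ≤ succ (HH n) := by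
  unfold yy
  split_ifs
  · exact le_rfl
  · exact succ_le_succ (f_lt α n).le

theorem yy_open (α : Om) (k n : ℕ) : IsOpen ({yy α k n} : Set Om) := by
  unfold yy
  split_ifs <;> exact open_succ _

def XX : Type := {h : ℕ → Om // (∀ n, h n ≤ succ (HH n)) ∧ ∃ α, ∀ᶠ n in atTop, h n ≤ succ (ff α n)}

def LL (γ : Om) : Set XX := {x | ∀ᶠ n in atTop, x.1 n ≤ succ (ff γ n)}

def YY : Set XX := {x | ∃ α k, x.1 = yy α k}

theorem LL_mono : Monotone LL := fun _ _ h _ hx =>
  (hx.and (f_mono' h)).mono fun _ hn => hn.1.trans (succ_le_succ hn.2)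

def gens : Set (Set XX) := {s | ∃ B, IsOpen B ∧ s = {x | x.1 ∈ B}} ∪ {s | ∃ δ, s = (LL δ)ᶜ} ∪
  {s | ∃ g : ℕ → Om, s = {x ∈ YY | ∀ n, g n < x.1 n}}

noncomputable instance : TopologicalSpace XX := generateFrom gens

theorem cont_val : Continuous fun x : XX => x.1 :=
  continuous_def.2 fun B hB => isOpen_generateFrom_of_mem (Or.inl (Or.inl ⟨B, hB, rfl⟩))

instance : T2Space XX := T2Space.of_injective_continuous Subtype.val_injective cont_val

theorem closed_LL (δ : Om) : IsClosed (LL δ) :=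
  ⟨isOpen_generateFrom_of_mem (Or.inl (Or.inr ⟨δ, rfl⟩))⟩

theorem nbhd {V : Set XX} (hV : IsOpen V) : ∀ x ∈ V, ∃ B, IsOpen B ∧ x.1 ∈ B ∧ ∃ Δ : Finset Om,
    (∀ δ ∈ Δ, x ∉ LL δ) ∧ ∀ z : XX, z.1 ∈ B → (∀ δ ∈ Δ, z ∉ LL δ) →
      (x ∈ YY → z ∈ YY ∧ ∀ n, x.1 n ≤ z.1 n) → z ∈ V := by
  classical
  induction hV with
  | basic s hs =>
    intro x hx
    rcases hs with (⟨B, hB, rfl⟩ | ⟨δ, rfl⟩) | ⟨g, rfl⟩
    · exact ⟨B, hB, hx, ∅, by simp, fun z h _ _ => h⟩
    · exact ⟨_, isOpen_univ, trivial, {δ}, by simpa using hx,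
        fun z _ h _ => h δ (Finset.mem_singleton_self δ)⟩
    · exact ⟨_, isOpen_univ, trivial, ∅, by simp,
        fun z _ _ h => ⟨(h hx.1).1, fun n => (hx.2 n).trans_le ((h hx.1).2 n)⟩⟩
  | univ => exact fun x _ => ⟨_, isOpen_univ, trivial, ∅, by simp, fun _ _ _ _ => trivial⟩
  | inter s t _ _ hs ht =>
    intro x hx
    obtain ⟨B, a1, a2, Δ, a3, a4⟩ := hs x hx.1
    obtain ⟨B', b1, b2, Δ', b3, b4⟩ := ht x hx.2
    refine ⟨B ∩ B', a1.inter b1, ⟨a2, b2⟩, Δ ∪ Δ', fun δ h => ?_, fun z h1 h2 h3 =>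
      ⟨a4 z h1.1 (fun δ h => h2 δ (Finset.mem_union_left _ h)) h3,
        b4 z h1.2 (fun δ h => h2 δ (Finset.mem_union_right _ h)) h3⟩⟩
    exact (Finset.mem_union.1 h).elim (a3 δ) (b3 δ)
  | sUnion S _ ih =>
    rintro x ⟨s, hs, hx⟩
    obtain ⟨B, a1, a2, Δ, a3, a4⟩ := ih s hs x hx
    exact ⟨B, a1, a2, Δ, a3, fun z h1 h2 h3 => ⟨s, hs, a4 z h1 h2 h3⟩⟩

theorem cpt_yy {C : Set (ℕ → Om)} (hC : IsCompact C) (h : ∀ c ∈ C, ∃ α k, c = yy α k) :
    C.Countable := by
  choose! r k hr using h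
  have hev : ∀ c ∈ C, ∀ᶠ n in atTop, c n = succ (ff (r c) n) := fun c hc =>
    (yy_ev (r c) (k c)).mono fun n hn => (congrFun (hr c hc) n).trans hn
  refine cpt_countable hC r (fun c hc n => by rw [hr c hc]; exact yy_open _ _ _)
    (fun c hc c' hc' => ⟨fun h => ?_, fun h => not_le.1 fun h' => ?_⟩) fun α => ?_
  · filter_upwards [hev c hc, hev c' hc', f_mono h] with n a1 a2 a3
    rw [a1, a2]
    exact succ_lt_succ a3
  · obtain ⟨n, a1, a2, a3, a4⟩ := ((hev c hc).and ((hev c' hc').and (h.and (f_mono' h')))).exists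
    rw [a1, a2] at a3
    exact a3.not_ge (succ_le_succ a4)
  · refine (countable_range (yy α)).mono ?_
    rintro c ⟨hc, rfl⟩
    exact ⟨k c, (hr c hc).symm⟩

theorem cover_LL (V : XX → Set XX) (hV : ∀ x, IsOpen (V x) ∧ x ∈ V x) (γ : Om) :
    ∃ s ⊆ LL γ, s.Countable ∧ LL γ ⊆ ⋃ x ∈ s, V x := by
  classical
  choose B hB hxB Δ hΔ hN using fun x => nbhd (hV x).1 x (hV x).2
  induction γ using WellFoundedLT.induction with
  | ind γ ih =>
    choose! S S1 S2 S3 using ih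
    let G : Set (ℕ → Om) := ⋃ x ∈ LL γ \ YY, B x
    have hG : IsOpen G := isOpen_biUnion fun x _ => hB x
    let K : ℕ → Set (ℕ → Om) := fun k => {h | ∀ n, h n ∈ Iic (yy γ k n)}
    have hK : ∀ k, IsCompact (K k) := fun k => isCompact_pi_infinite fun n => compact_Iic _
    have hC : ∀ k, IsCompact (K k \ G) := fun k => (hK k).diff hG
    have hmem : ∀ k, ∀ h ∈ K k, ∃ x ∈ LL γ, x.1 = h := fun k h hh => by
      have : ∀ᶠ n in atTop, h n ≤ succ (ff γ n) := (yy_ev γ k).mono fun n hn => hn ▸ hh n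
      exact ⟨⟨h, fun n => le_trans (hh n) (yy_le γ k n), γ, this⟩, this, rfl⟩
    have hCY : ∀ k, ∀ c ∈ K k \ G, ∃ α j, c = yy α j := fun k c hc => by
      obtain ⟨x, hx, rfl⟩ := hmem k c hc.1
      by_contra hn
      exact hc.2 (mem_biUnion (x := x) ⟨hx, hn⟩ (hxB x))
    choose t ht htf ht' using fun k m => IsCompact.elim_finite_subcover_image
      (s := K k \ ⋃ c ∈ K k \ G, cyl c m) (b := LL γ \ YY) (c := B)
      ((hK k).diff (isOpen_biUnion fun c hc => open_cyl (fun n => by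
        obtain ⟨α, j, rfl⟩ := hCY k c hc; exact yy_open _ _ _) m)) (fun x _ => hB x)
      fun h hh => by
        by_contra hn
        exact hh.2 (mem_biUnion (x := h) ⟨hh.1, hn⟩ fun _ _ => rfl)
    have hlt : ∀ k m, ∀ x ∈ t k m, ∀ δ ∈ Δ x, δ < γ := fun k m x hx δ hδ =>
      not_le.1 fun h => hΔ x δ hδ (LL_mono h (ht k m hx).1)
    refine ⟨(⋃ k, ⋃ m, (t k m ∪ ⋃ x ∈ t k m, ⋃ δ ∈ Δ x, S δ)) ∪
      ⋃ k, Subtype.val ⁻¹' (K k \ G), ?_, ?_, fun z hz => ?_⟩
    · refine union_subset (iUnion_subset fun k => iUnion_subset fun m => union_subset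
        (fun x hx => (ht k m hx).1) (iUnion₂_subset fun x hx => iUnion₂_subset fun δ hδ =>
          (S1 δ (hlt k m x hx δ hδ)).trans (LL_mono (hlt k m x hx δ hδ).le)))
        (iUnion_subset fun k z hz => ?_)
      obtain ⟨x, hx, e⟩ := hmem k _ hz.1
      exact Subtype.ext e ▸ hx
    · refine (countable_iUnion fun k => countable_iUnion fun m => (htf k m).countable.union
        ((htf k m).countable.biUnion fun x hx => (Δ x).countable_toSet.biUnion fun δ hδ =>
          S2 δ (hlt k m x hx δ hδ))).union (countable_iUnion fun k => ?_)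
      exact (cpt_yy (hC k) (hCY k)).preimage Subtype.val_injective
    · obtain ⟨k, hk⟩ := eventually_atTop.1 hz
      have hzK : z.1 ∈ K k := fun n => by
        change z.1 n ≤ yy γ k n
        unfold yy
        split_ifs with h
        · exact z.2.1 n
        · exact hk n (not_lt.1 h)
      by_cases hzG : z.1 ∈ K k \ G
      · exact mem_biUnion (x := z) (Or.inr (mem_iUnion.2 ⟨k, hzG⟩)) (hV z).2
      obtain ⟨m, hm⟩ := cyl_sub' (hC k).isClosed.isOpen_compl hzG
      obtain ⟨x, hx, hzx⟩ := mem_iUnion₂.1 (ht' k m (show z.1 ∈ _ from ⟨hzK, fun h => by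
        obtain ⟨c, hc, h⟩ := mem_iUnion₂.1 h
        exact hm (fun n hn => (h n hn).symm) hc⟩))
      by_cases hδ : ∀ δ ∈ Δ x, z ∉ LL δ
      · exact mem_biUnion (x := x) (Or.inl (mem_iUnion₂.2 ⟨k, m, Or.inl hx⟩))
          (hN x z hzx hδ fun h => ((ht k m hx).2 h).elim)
      · push Not at hδ
        obtain ⟨δ, h1, h2⟩ := hδ
        obtain ⟨w, hw, hzw⟩ := mem_iUnion₂.1 (S3 δ (hlt k m x hx δ h1) h2)
        exact mem_biUnion (x := w) (Or.inl (mem_iUnion₂.2 ⟨k, m, Or.inr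
          (mem_biUnion hx (mem_biUnion h1 hw))⟩)) hzw

theorem lindelof_LL (γ : Om) : IsLindelof (LL γ) := by
  classical
  refine isLindelof_of_countable_subcover fun {ι} U hU hc => ?_
  choose i hi using fun x : LL γ => mem_iUnion.1 (hc x.2)
  obtain ⟨s, h1, h2, h3⟩ := cover_LL (fun x => if h : x ∈ LL γ then U (i ⟨x, h⟩) else Set.univ)
    (fun x => by
      split_ifs with h
      · exact ⟨hU _, hi ⟨x, h⟩⟩
      · exact ⟨isOpen_univ, trivial⟩) γ
  refine ⟨i '' (Subtype.val ⁻¹' s), (h2.preimage Subtype.val_injective).image _, fun z hz => ?_⟩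
  obtain ⟨x, hx, h⟩ := mem_iUnion₂.1 (h3 hz)
  rw [dif_pos (h1 hx)] at h
  exact mem_biUnion (mem_image_of_mem i (show (⟨x, h1 hx⟩ : LL γ) ∈ _ from hx)) h

theorem discrete_bdd {D : Set XX} (hD : DiscreteTopology D) : ∃ γ, D ⊆ LL γ := by
  classical
  choose ρ hρ hmin using fun x : XX => (wellFounded_lt (α := Om)).has_min {γ | x ∈ LL γ} x.2.2
  have hR : #(ρ '' D) ≤ lam := by
    by_contra hR
    choose x hx hx' using fun a : ρ '' D => a.2
    choose O hO he using fun a => discreteTopology_subtype_iff'.1 hD _ (hx a)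
    choose B hB hxB Δ hΔ hN using fun a => nbhd (hO a) (x a) ((he a).symm.subset rfl).1
    choose m hm using fun a => cyl_sub' (hB a) (hxB a)
    obtain ⟨T, hT⟩ := bddO (mk_le_aleph0.trans a_le) fun n => succ (HH n)
    let code : ρ '' D → List (Iio T) × Prop := fun a =>
      ((List.range (m a)).map fun n => ⟨(x a).1 n, ((x a).2.1 n).trans_lt (hT n)⟩, x a ∈ YY)
    obtain ⟨c, hc⟩ : ∃ c, 𝔠 < #(code ⁻¹' {c}) := by
      by_contra hc
      push Not at hc
      refine hR ((Cardinal.mk_le_mk_mul_of_mk_preimage_le code hc).trans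
        ((mul_le_mul' ?_ c_le).trans (Cardinal.mul_eq_self a_le).le))
      rw [Cardinal.mk_prod, Cardinal.lift_id, Cardinal.lift_id]
      exact (mul_le_mul' ((Cardinal.mk_list_le_max _).trans (max_le a_le (mk_Iio_O T)))
        (mk_le_aleph0.trans a_le)).trans (Cardinal.mul_eq_self a_le).le
    obtain ⟨a, b, hab, hle⟩ := dom_pair hc fun a n => Nat.casesOn n a.1.1 fun n => (x a).1 n
    have hcode : code a = code b := a.2.trans b.2.symm
    have h1 := congrArg Prod.fst hcode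
    have h2 : (x a ∈ YY) = (x b ∈ YY) := congrArg Prod.snd hcode
    have h3 : m a = m b := by simpa [code] using congrArg List.length h1
    simp only [code, ← h3, List.map_inj_left, List.mem_range, Subtype.mk.injEq] at h1
    have h4 : x b = x a := (he a).subset ⟨hN a (x b) (hm a fun n hn => (h1 n hn).symm)
      (fun δ hδ h => hΔ a δ hδ (LL_mono (((hx' a).le.trans ((hle 0).trans (hx' b).ge)).trans
        (not_lt.1 (hmin _ δ h))) (hρ _))) (fun h => ⟨h2 ▸ h, fun n => hle (n + 1)⟩), hx b⟩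
    exact hab (Subtype.ext (Subtype.ext ((hx' a).symm.trans (h4 ▸ hx' b))))
  obtain ⟨b, hb⟩ := bddO hR Subtype.val
  exact ⟨b, fun x hx => LL_mono (hb ⟨_, x, hx, rfl⟩).le (hρ x)⟩

theorem disc_lindelof {D : Set XX} (hD : DiscreteTopology D) : IsLindelof (closure D) := by
  obtain ⟨γ, h⟩ := discrete_bdd hD
  exact (lindelof_LL γ).of_isClosed_subset isClosed_closure (closure_minimal h (closed_LL γ))

theorem not_weakly : ∃ 𝒰 : Set (Set XX), (∀ U ∈ 𝒰, IsOpen U) ∧ ⋃₀ 𝒰 = Set.univ ∧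
    ∀ 𝒱 ⊆ 𝒰, 𝒱.Countable → ¬ Dense (⋃₀ 𝒱) := by
  classical
  refine ⟨{U | ∃ n, ∃ β < HH n, U = {x | x.1 n ≤ β}}, ?_, eq_univ_of_forall fun x => ?_,
    fun 𝒱 h1 h2 h3 => ?_⟩
  · rintro _ ⟨n, β, -, rfl⟩
    exact (open_Iic β).preimage ((continuous_apply n).comp cont_val)
  · obtain ⟨α, hα⟩ := x.2.2
    obtain ⟨n, hn⟩ := hα.exists
    exact ⟨_, ⟨n, _, succ_f_lt α n, rfl⟩, hn⟩
  · have hne : 𝒱.Nonempty := by
      obtain ⟨x, U, hU, -⟩ := h3.nonempty_iff.2 ⟨⟨yy (Classical.arbitrary _) 0, yy_le _ _, _,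
        (yy_ev _ _).mono fun _ => le_of_eq⟩⟩
      exact ⟨U, hU⟩
    obtain ⟨u, rfl⟩ := h2.exists_eq_range hne
    choose p β hβ hu using fun i => h1 (mem_range_self i)
    choose g hg hg' using fun n => H_cof n
      (fun i => if p i = n then β i else ff (Classical.arbitrary _) n) fun i => by
        split_ifs with h
        · exact h ▸ hβ i
        · exact f_lt _ _
    obtain ⟨α, hα⟩ := f_eub g hg
    obtain ⟨k, hk⟩ := eventually_atTop.1 hα
    obtain ⟨z, hz, _, ⟨i, rfl⟩, hi⟩ := dense_iff_inter_open.1 h3 {x ∈ YY | ∀ n, g n < x.1 n}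
      (isOpen_generateFrom_of_mem (Or.inr ⟨g, rfl⟩))
      ⟨⟨yy α k, yy_le _ _, _, (yy_ev _ _).mono fun _ => le_of_eq⟩, ⟨α, k, rfl⟩, fun n => by
        change g n < yy α k n
        unfold yy
        split_ifs with h
        · exact (hg n).trans (lt_succ _)
        · exact (hk n (not_lt.1 h)).trans (lt_succ _)⟩
    rw [hu i] at hi
    have := hg' (p i) i
    rw [if_pos rfl] at this
    exact (this.trans (hz.2 _)).not_ge hi

end Pool.Agent.H15.DL
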