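import Pool.Agent.H15.DL3

/-! A non-Lindelof T1 space with discretely Lindelof co-diagonal. -/

set_option autoImplicit false

namespace Pool.Agent.H15.DL

open Set Cardinal Filter Topology Pool.Agent.H15.DSep Order TopologicalSpace

theorem lind_of_rem {X : Type} [TopologicalSpace X] {S : Set X}
    (h : ∀ V : X → Set X, (∀ x ∈ S, IsOpen (V x) ∧ x ∈ V x) → ∃ s ⊆ S, s.Countable ∧
      ∃ R ⊆ S, IsLindelof R ∧ S ⊆ (⋃ x ∈ s, V x) ∪ R) : IsLindelof S := by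
  refine isLindelof_of_countable_subcover fun {ι} U hU hc => ?_
  rcases S.eq_empty_or_nonempty with rfl | ⟨x0, h0⟩
  · exact ⟨∅, countable_empty, empty_subset _⟩
  have : Nonempty ι := ⟨(mem_iUnion.1 (hc h0)).choose⟩
  choose! i hi using fun x (hx : x ∈ S) => mem_iUnion.1 (hc hx)
  obtain ⟨s, -, h2, R, h3, h4, h5⟩ := h (fun x => U (i x)) fun x hx => ⟨hU _, hi x hx⟩
  obtain ⟨r, h6, h7⟩ := h4.elim_countable_subcover U hU (h3.trans hc)
  refine ⟨i '' s ∪ r, (h2.image _).union h6, fun z hz => ?_⟩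
  rcases h5 hz with h | h
  · obtain ⟨x, hx, h⟩ := mem_iUnion₂.1 h
    exact mem_biUnion (Or.inl (mem_image_of_mem i hx)) h
  · obtain ⟨j, hj, h⟩ := mem_iUnion₂.1 (h7 h)
    exact mem_biUnion (Or.inr hj) h

def ZZ : Type := Om × ℕ

def gz : Set (Set ZZ) := {s | ∃ n β, s = {x | yy x.1 x.2 n ≤ β}} ∪ {s | ∃ δ, s = {x | δ < x.1}} ∪
  {s | ∃ p, s = {p}ᶜ}

noncomputable instance : TopologicalSpace ZZ := generateFrom gz

instance : T1Space ZZ := ⟨fun p => ⟨isOpen_generateFrom_of_mem (Or.inr ⟨p, rfl⟩)⟩⟩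

theorem closed_rk (γ : Om) : IsClosed {x : ZZ | x.1 ≤ γ} := by
  refine ⟨?_⟩
  have : {x : ZZ | x.1 ≤ γ}ᶜ = {x | γ < x.1} := by ext x; simp
  rw [this]
  exact isOpen_generateFrom_of_mem (Or.inl (Or.inr ⟨γ, rfl⟩))

theorem nbz {V : Set ZZ} (hV : IsOpen V) : ∀ x ∈ V, ∃ (m : ℕ) (Δ : Set Om) (F : Set ZZ),
    Δ.Finite ∧ F.Finite ∧ (∀ δ ∈ Δ, δ < x.1) ∧ x ∉ F ∧ ∀ z : ZZ,
      (∀ n < m, yy z.1 z.2 n ≤ yy x.1 x.2 n) → (∀ δ ∈ Δ, δ < z.1) → z ∉ F → z ∈ V := by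
  induction hV with
  | basic s hs =>
    intro x hx
    rcases hs with (⟨n, β, rfl⟩ | ⟨δ, rfl⟩) | ⟨p, rfl⟩
    · exact ⟨n + 1, ∅, ∅, finite_empty, finite_empty, by simp, by simp,
        fun z h _ _ => (h n (Nat.lt_succ_self n)).trans hx⟩
    · exact ⟨0, {δ}, ∅, finite_singleton _, finite_empty, by simpa using hx, by simp,
        fun z _ h _ => h δ rfl⟩
    · exact ⟨0, ∅, {p}, finite_empty, finite_singleton _, by simp, hx, fun z _ _ h => h⟩
  | univ => exact fun x _ => ⟨0, ∅, ∅, finite_empty, finite_empty, by simp, by simp,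
      fun _ _ _ _ => trivial⟩
  | inter s t _ _ hs ht =>
    intro x hx
    obtain ⟨m, Δ, F, a1, a2, a3, a4, a5⟩ := hs x hx.1
    obtain ⟨m', Δ', F', b1, b2, b3, b4, b5⟩ := ht x hx.2
    exact ⟨max m m', Δ ∪ Δ', F ∪ F', a1.union b1, a2.union b2, fun δ h => h.elim (a3 δ) (b3 δ),
      fun h => h.elim a4 b4, fun z h1 h2 h3 =>
      ⟨a5 z (fun n hn => h1 n (lt_max_of_lt_left hn)) (fun δ h => h2 δ (Or.inl h))
        fun h => h3 (Or.inl h),
       b5 z (fun n hn => h1 n (lt_max_of_lt_right hn)) (fun δ h => h2 δ (Or.inr h))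
        fun h => h3 (Or.inr h)⟩⟩
  | sUnion S _ ih =>
    rintro x ⟨s, hs, hx⟩
    obtain ⟨m, Δ, F, a1, a2, a3, a4, a5⟩ := ih s hs x hx
    exact ⟨m, Δ, F, a1, a2, a3, a4, fun z h1 h2 h3 => ⟨s, hs, a5 z h1 h2 h3⟩⟩

theorem ev_le {γ : Om} {z : ZZ} (h : z.1 ≤ γ) : ∀ᶠ k in atTop, ∀ n, yy z.1 z.2 n ≤ yy γ k n := by
  obtain ⟨N, hN⟩ := eventually_atTop.1 ((yy_ev z.1 z.2).and (f_mono' h))
  refine (eventually_ge_atTop N).mono fun k hk n => ?_
  by_cases hn : n < k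
  · exact (yy_le _ _ _).trans (if_pos hn).ge
  · have := hN n (hk.trans (not_lt.1 hn))
    exact this.1.le.trans ((succ_le_succ this.2).trans (if_neg hn).ge)

theorem lind1 (w : ZZ) (γ : Om) : IsLindelof {z : ZZ | z.1 ≤ γ ∧ z ≠ w} := by
  induction γ using WellFoundedLT.induction with
  | ind γ ih =>
    refine lind_of_rem fun V hV => ?_
    let p : ℕ → ZZ := fun k => (γ, k + w.2 + 1)
    have hp : ∀ k, p k ∈ {z : ZZ | z.1 ≤ γ ∧ z ≠ w} := fun k =>
      ⟨le_rfl, fun h => by have : k + w.2 + 1 = w.2 := congrArg Prod.snd h; omega⟩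
    choose m Δ F a1 a2 a3 a4 a5 using fun k => nbz (hV _ (hp k)).1 _ (hV _ (hp k)).2
    refine ⟨range p, range_subset_iff.2 hp, countable_range _,
      ⋃ k, (F k ∩ {z : ZZ | z.1 ≤ γ ∧ z ≠ w} ∪ ⋃ δ ∈ Δ k, {z : ZZ | z.1 ≤ δ ∧ z ≠ w}),
      iUnion_subset fun k => union_subset inter_subset_right
        (iUnion₂_subset fun δ hδ z hz => ⟨hz.1.trans (a3 k δ hδ).le, hz.2⟩),
      isLindelof_iUnion fun k => ((a2 k).inter_of_left _).isLindelof.union
        ((a1 k).isLindelof_biUnion fun δ hδ => ih δ (a3 k δ hδ)), fun z hz => ?_⟩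
    obtain ⟨k, hk⟩ := ((tendsto_add_atTop_nat (w.2 + 1)).eventually (ev_le hz.1)).exists
    by_contra hc
    simp only [mem_union, mem_iUnion, not_or, not_exists] at hc
    refine hc.1 (p k) ⟨k, rfl⟩ (a5 k z (fun n _ => hk n) (fun δ hδ => not_le.1 fun h => ?_)
      fun h => (hc.2 k).1 ⟨h, hz⟩)
    exact (hc.2 k).2 δ hδ ⟨h, hz.2⟩

def SS (γ γ' : Om) : Set (ZZ × ZZ) := {p | p.1.1 ≤ γ ∧ p.2.1 ≤ γ' ∧ p.1 ≠ p.2}

theorem lind2 (γ γ' : Om) : IsLindelof (SS γ γ') := by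
  induction γ using WellFoundedLT.induction generalizing γ' with
  | ind γ ih =>
  induction γ' using WellFoundedLT.induction with
  | ind γ' ih' =>
    refine lind_of_rem fun V hV => ?_
    let p : ℕ → ZZ × ZZ := fun k => ((γ, k), (γ', k + 1))
    have hp : ∀ k, p k ∈ SS γ γ' := fun k =>
      ⟨le_rfl, le_rfl, fun h => by have : k = k + 1 := congrArg Prod.snd h; omega⟩
    choose O O' o1 o2 o3 o4 o5 using fun k =>
      isOpen_prod_iff.1 (hV _ (hp k)).1 _ _ (hV _ (hp k)).2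
    choose m Δ F a1 a2 a3 a4 a5 using fun k => nbz (o1 k) _ (o3 k)
    choose m' Δ' F' b1 b2 b3 b4 b5 using fun k => nbz (o2 k) _ (o4 k)
    refine ⟨range p, range_subset_iff.2 hp, countable_range _,
      ⋃ k, (((⋃ x ∈ F k, Prod.mk x '' {z : ZZ | z.1 ≤ γ' ∧ z ≠ x} ∩ {q | q.1.1 ≤ γ}) ∪
        ⋃ x ∈ F' k, (fun z => (z, x)) '' {z : ZZ | z.1 ≤ γ ∧ z ≠ x} ∩ {q | q.2.1 ≤ γ'}) ∪
        ((⋃ δ ∈ Δ k, SS δ γ') ∪ ⋃ δ ∈ Δ' k, SS γ δ)),
      iUnion_subset fun k => union_subset (union_subset (iUnion₂_subset ?_) (iUnion₂_subset ?_))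
        (union_subset (iUnion₂_subset fun δ hδ z hz => ⟨hz.1.trans (a3 k δ hδ).le, hz.2⟩)
          (iUnion₂_subset fun δ hδ z hz => ⟨hz.1, hz.2.1.trans (b3 k δ hδ).le, hz.2.2⟩)),
      isLindelof_iUnion fun k => (((a2 k).isLindelof_biUnion fun x _ =>
          ((lind1 x γ').image (by fun_prop)).inter_right ((closed_rk γ).preimage continuous_fst)).union
        ((b2 k).isLindelof_biUnion fun x _ =>
          ((lind1 x γ).image (by fun_prop)).inter_right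
            ((closed_rk γ').preimage continuous_snd))).union
        (((a1 k).isLindelof_biUnion fun δ hδ => ih δ (a3 k δ hδ) γ').union
          ((b1 k).isLindelof_biUnion fun δ hδ => ih' δ (b3 k δ hδ))), fun z hz => ?_⟩
    · rintro x - _ ⟨⟨z, hz, rfl⟩, h⟩
      exact ⟨h, hz.1, hz.2.symm⟩
    · rintro x - _ ⟨⟨z, hz, rfl⟩, h⟩
      exact ⟨hz.1, h, hz.2⟩
    obtain ⟨k, hk, hk'⟩ := ((ev_le hz.1).and
      ((tendsto_add_atTop_nat 1).eventually (ev_le hz.2.1))).exists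
    by_contra hc
    simp only [mem_union, mem_iUnion, not_or, not_exists] at hc
    obtain ⟨⟨c1, c2⟩, c3, c4⟩ := hc.2 k
    exact hc.1 (p k) ⟨k, rfl⟩ (o5 k (show z ∈ O k ×ˢ O' k from
      ⟨a5 k z.1 (fun n _ => hk n) (fun δ hδ => not_le.1 fun h => c3 δ hδ ⟨h, hz.2⟩)
        fun h => c1 _ h ⟨⟨z.2, ⟨hz.2.1, hz.2.2.symm⟩, rfl⟩, hz.1⟩,
       b5 k z.2 (fun n _ => hk' n) (fun δ hδ => not_le.1 fun h => c4 δ hδ ⟨hz.1, h, hz.2.2⟩)
        fun h => c2 _ h ⟨⟨z.1, ⟨hz.1, hz.2.2⟩, rfl⟩, hz.2.1⟩⟩))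

theorem side {α : Type} (x y : ℕ → α) (F F' : ℕ → Set α) (h0 : (F 0).Finite)
    (hF' : ∀ i, (F' i).Finite) (hx : ∀ i, x i ∉ F i)
    (hinj : ∀ i j, x i = x j → y i = y j → i = j) (h : ∀ i j, i < j → x j ∈ F i ∨ y j ∈ F' i) :
    {j | x j ∈ F 0}.Finite := by
  have : {j | x j ∈ F 0} = ⋃ u ∈ F 0, {j | x j = u} := by ext; simp
  rw [this]
  refine h0.biUnion fun u _ => ?_
  rcases {j | x j = u}.eq_empty_or_nonempty with e | ⟨i, hi⟩
  · rw [e]; exact finite_empty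
  refine ((finite_Iic i).union (
    Finite.of_finite_image (s := {j | x j = u ∧ y j ∈ F' i}) (f := y)
      ((hF' i).subset (by rintro _ ⟨j, hj, rfl⟩; exact hj.2))
      fun a ha b hb e => hinj a b (ha.1.trans hb.1.symm) e)).subset fun j hj => ?_
  rcases le_or_gt j i with e | e
  · exact Or.inl e
  · exact Or.inr ⟨hj, (h i j e).resolve_left fun h' => hx i (by rwa [hi.trans hj.symm])⟩

theorem codiag_card {D : Set (ZZ × ZZ)} (hD : DiscreteTopology D) : #D ≤ lam := by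
  by_contra hc
  choose O hO he using fun a : D => discreteTopology_subtype_iff'.1 hD _ a.2
  choose U U' o1 o2 o3 o4 o5 using fun a : D =>
    isOpen_prod_iff.1 (hO a) a.1.1 a.1.2 ((he a).symm.subset rfl).1
  choose m Δ F a1 a2 a3 a4 a5 using fun a => nbz (o1 a) _ (o3 a)
  choose m' Δ' F' b1 b2 b3 b4 b5 using fun a => nbz (o2 a) _ (o4 a)
  obtain ⟨T, hT⟩ := bddO (mk_le_aleph0.trans a_le) fun n => succ (HH n)
  let cd : ℕ → ZZ → List (Iio T) := fun m z =>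
    (List.range m).map fun n => ⟨yy z.1 z.2 n, (yy_le _ _ n).trans_lt (hT n)⟩
  have hcd : ∀ m m' z z', cd m z = cd m' z' → ∀ n < m, yy z'.1 z'.2 n ≤ yy z.1 z.2 n := by
    intro m m' z z' h
    have h3 : m = m' := by simpa [cd] using congrArg List.length h
    simp only [cd, ← h3, List.map_inj_left, List.mem_range, Subtype.mk.injEq] at h
    exact fun n hn => (h n hn).ge
  have hL : #(List (Iio T)) ≤ lam := (Cardinal.mk_list_le_max _).trans (max_le a_le (mk_Iio_O T))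
  have : Infinite D := Cardinal.infinite_iff.2 (a_le.trans (not_le.1 hc).le)
  obtain ⟨c, hc'⟩ := Cardinal.exists_infinite_fiber
    (fun a : D => (cd (m a) a.1.1, cd (m' a) a.1.2)) (lt_of_le_of_lt (by
      rw [Cardinal.mk_prod, Cardinal.lift_id]
      exact (mul_le_mul' hL hL).trans (Cardinal.mul_eq_self a_le).le) (not_le.1 hc))
  let e := Infinite.natEmbedding ((fun a : D => (cd (m a) a.1.1, cd (m' a) a.1.2)) ⁻¹' {c})
  obtain ⟨g, hg⟩ := ((isPWO_of_wellQuasiOrderedLE (Set.univ : Set (Om × Om))).exists_monotone_subseq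
    (f := fun i => ((e i).1.1.1.1, (e i).1.1.2.1)) fun _ => trivial)
  let s : ℕ → D := fun i => (e (g i)).1
  have hinj : ∀ i j, (s i).1.1 = (s j).1.1 → (s i).1.2 = (s j).1.2 → i = j := fun i j h h' =>
    g.injective (e.injective (Subtype.ext (Subtype.ext (Prod.ext h h'))))
  have hbad : ∀ i j, i < j → (s j).1.1 ∈ F (s i) ∨ (s j).1.2 ∈ F' (s i) := by
    intro i j hij
    by_contra hn
    push Not at hn
    have h1 : (cd (m (s i)) (s i).1.1, cd (m' (s i)) (s i).1.2) =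
      (cd (m (s j)) (s j).1.1, cd (m' (s j)) (s j).1.2) := (e (g i)).2.trans (e (g j)).2.symm
    have h2 := hg hij.le
    have h3 : (s j).1 = (s i).1 := (he (s i)).subset ⟨o5 _ (show (s j).1 ∈ U (s i) ×ˢ U' (s i) from
      ⟨a5 _ _ (hcd _ _ _ _ (congrArg Prod.fst h1)) (fun δ hδ => (a3 _ δ hδ).trans_le h2.1) hn.1,
       b5 _ _ (hcd _ _ _ _ (congrArg Prod.snd h1)) (fun δ hδ => (b3 _ δ hδ).trans_le h2.2) hn.2⟩),
      (s j).2⟩
    exact hij.ne' (hinj _ _ (congrArg Prod.fst h3) (congrArg Prod.snd h3))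
  have f1 := side _ _ _ _ (a2 (s 0)) (fun i => b2 (s i)) (fun i => a4 (s i)) hinj hbad
  have f2 := side _ _ _ _ (b2 (s 0)) (fun i => a2 (s i)) (fun i => b4 (s i))
    (fun i j h h' => hinj i j h' h) fun i j h => (hbad i j h).symm
  exact Set.Ioi_infinite 0 ((f1.union f2).subset fun j hj => hbad 0 j hj)

theorem codiag_lind {D : Set {p : ZZ × ZZ // p.1 ≠ p.2}} (hD : DiscreteTopology D) :
    IsLindelof (closure D) := by
  have h1 : DiscreteTopology (Subtype.val '' D) :=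
    (IsEmbedding.subtypeVal.homeomorphImage D).symm.isEmbedding.discreteTopology
  obtain ⟨γ, hγ⟩ := bddO (codiag_card h1) fun a => max a.1.1.1 a.1.2.1
  have h2 : IsLindelof (Subtype.val ⁻¹' SS γ γ : Set {p : ZZ × ZZ // p.1 ≠ p.2}) := by
    rw [IsEmbedding.subtypeVal.isLindelof_iff, image_preimage_eq_of_subset]
    · exact lind2 γ γ
    · exact fun p hp => ⟨⟨p, hp.2.2⟩, rfl⟩
  refine h2.of_isClosed_subset isClosed_closure fun p hp => ?_
  have := closure_minimal (t := {p : {p : ZZ × ZZ // p.1 ≠ p.2} | p.1.1.1 ≤ γ ∧ p.1.2.1 ≤ γ})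
    (fun a ha => by
      have := (hγ ⟨_, a, ha, rfl⟩).le
      exact ⟨(le_max_left _ _).trans this, (le_max_right _ _).trans this⟩)
    (((closed_rk γ).preimage (continuous_fst.comp continuous_subtype_val)).inter
      ((closed_rk γ).preimage (continuous_snd.comp continuous_subtype_val))) hp
  exact ⟨this.1, this.2, p.2⟩

theorem not_lind : ¬ LindelofSpace ZZ := by
  classical
  intro h
  obtain ⟨r, h1, h2⟩ := isLindelof_univ.elim_countable_subcover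
    (fun i : Σ n, Iio (HH n) => {x : ZZ | yy x.1 x.2 i.1 ≤ i.2})
    (fun i => isOpen_generateFrom_of_mem (Or.inl (Or.inl ⟨_, _, rfl⟩))) fun x _ =>
      mem_iUnion.2 ⟨⟨x.2, _, succ_f_lt x.1 x.2⟩, (if_neg (lt_irrefl x.2) : yy x.1 x.2 x.2 = _).le⟩
  have hne : r.Nonempty := by
    obtain ⟨i, hi, -⟩ := mem_iUnion₂.1 (h2 (mem_univ (Classical.arbitrary Om, 0)))
    exact ⟨i, hi⟩
  obtain ⟨u, rfl⟩ := h1.exists_eq_range hne
  choose g hg hg' using fun n => H_cof n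
    (fun i => if (u i).1 = n then (u i).2.1 else ff (Classical.arbitrary _) n) fun i => by
      split_ifs with h
      · exact h ▸ (u i).2.2
      · exact f_lt _ _
  obtain ⟨α, hα⟩ := f_eub g hg
  obtain ⟨k, hk⟩ := eventually_atTop.1 hα
  obtain ⟨_, ⟨i, rfl⟩, hi⟩ := mem_iUnion₂.1 (h2 (mem_univ (α, k)))
  have h3 := hg' (u i).1 i
  rw [if_pos rfl] at h3
  refine (h3.trans ?_).not_ge hi
  change g _ < yy α k _
  unfold yy
  split_ifs with h
  · exact (hg _).trans (lt_succ _)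
  · exact (hk _ (not_lt.1 h)).trans (lt_succ _)

end Pool.Agent.H15.DL
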