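import Mathlib

/-! Combinatorial core: Pixley-Roy type spaces are not D-separable. -/

set_option autoImplicit false

namespace Pool.Agent.H15.DSep

open Set Cardinal

universe u

theorem fin_closed {Z : Type*} (M0 : Set Z) (h0 : M0.Countable) (Φ : Finset Z → Set Z)
    (h : ∀ E, (Φ E).Countable) :
    ∃ M : Set Z, M.Countable ∧ M0 ⊆ M ∧ ∀ E : Finset Z, ↑E ⊆ M → Φ E ⊆ M := by
  let s : ℕ → Set Z := fun n =>
    Nat.rec M0 (fun _ s => s ∪ ⋃ E ∈ {E : Finset Z | ↑E ⊆ s}, Φ E) n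
  have h1 : ∀ n, (s n).Countable := by
    intro n
    induction n with
    | zero => exact h0
    | succ n ih =>
      refine ih.union (Countable.biUnion ?_ fun E _ => h E)
      refine ((countable_ofPred_finite_subset ih).preimage_of_injOn
        (f := fun E : Finset Z => (↑E : Set Z)) Finset.coe_injective.injOn).mono ?_
      intro E hE
      exact ⟨E.finite_toSet, hE⟩
  have h2 : Monotone s := monotone_nat_of_le_succ fun n => subset_union_left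
  refine ⟨⋃ n, s n, countable_iUnion h1, subset_iUnion s 0, fun E hE => ?_⟩
  obtain ⟨n, hn⟩ := h2.directed_le.exists_mem_subset_of_finset_subset_biUnion hE
  refine Subset.trans ?_ (subset_iUnion s (n + 1))
  exact (subset_biUnion_of_mem (u := Φ) (show E ∈ {E : Finset Z | ↑E ⊆ s n} from hn)).trans
    subset_union_right

/-- countable representative subfamilies of finite two-valued patterns -/
theorem rep_family {Z : Type*} (P : Set (Finset Z × Finset Z)) :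
    ∃ A ⊆ P, A.Countable ∧ ∀ p ∈ P, ∀ G K : Finset Z, Disjoint p.1 K → Disjoint G p.2 →
      ∃ q ∈ A, Disjoint q.1 K ∧ Disjoint G q.2 := by
  classical
  rcases P.eq_empty_or_nonempty with rfl | ⟨p0, hp0⟩
  · exact ⟨∅, Subset.rfl, countable_empty, fun p hp => hp.elim⟩
  have hex : ∀ E a b : Finset Z, ∃ q ∈ P, (∃ p ∈ P, p.1 ∩ E = a ∧ p.2 ∩ E = b) →
      q.1 ∩ E = a ∧ q.2 ∩ E = b := by
    intro E a b
    by_cases h : ∃ p ∈ P, p.1 ∩ E = a ∧ p.2 ∩ E = b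
    · obtain ⟨p, hp, h⟩ := h
      exact ⟨p, hp, fun _ => h⟩
    · exact ⟨p0, hp0, fun h' => (h h').elim⟩
  choose c hcP hc using hex
  obtain ⟨M, hM, -, hcl⟩ := fin_closed ∅ countable_empty
    (fun E => ⋃ a ∈ E.powerset, ⋃ b ∈ E.powerset, (↑((c E a b).1 ∪ (c E a b).2) : Set Z))
    fun E => E.powerset.countable_toSet.biUnion fun a _ =>
      E.powerset.countable_toSet.biUnion fun b _ => Finset.countable_toSet _
  have hF : {E : Finset Z | ↑E ⊆ M}.Countable := by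
    refine ((countable_ofPred_finite_subset hM).preimage_of_injOn
      (f := fun E : Finset Z => (↑E : Set Z)) Finset.coe_injective.injOn).mono ?_
    intro E hE
    exact ⟨E.finite_toSet, hE⟩
  refine ⟨⋃ E ∈ {E : Finset Z | ↑E ⊆ M}, ⋃ a ∈ E.powerset, ⋃ b ∈ E.powerset, {c E a b}, ?_, ?_, ?_⟩
  · intro q hq
    simp only [mem_iUnion, mem_singleton_iff] at hq
    obtain ⟨E, -, a, -, b, -, rfl⟩ := hq
    exact hcP E a b
  · exact hF.biUnion fun E _ => E.powerset.countable_toSet.biUnion fun a _ =>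
      E.powerset.countable_toSet.biUnion fun b _ => countable_singleton _
  · intro p hp G K h1 h2
    let E := (G ∪ K).filter (· ∈ M)
    have hE : ↑E ⊆ M := fun z hz => (Finset.mem_filter.1 hz).2
    have ha : p.1 ∩ E ∈ E.powerset := Finset.mem_powerset.2 Finset.inter_subset_right
    have hb : p.2 ∩ E ∈ E.powerset := Finset.mem_powerset.2 Finset.inter_subset_right
    obtain ⟨e1, e2⟩ := hc E (p.1 ∩ E) (p.2 ∩ E) ⟨p, hp, rfl, rfl⟩
    have hsub : ∀ z, z ∈ (c E (p.1 ∩ E) (p.2 ∩ E)).1 ∪ (c E (p.1 ∩ E) (p.2 ∩ E)).2 → z ∈ M := by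
      intro z hz
      refine hcl E hE ?_
      simp only [mem_iUnion]
      exact ⟨_, ha, _, hb, hz⟩
    refine ⟨c E (p.1 ∩ E) (p.2 ∩ E), ?_, ?_, ?_⟩
    · simp only [mem_iUnion, mem_singleton_iff]
      exact ⟨E, hE, _, ha, _, hb, rfl⟩
    · refine Finset.disjoint_left.2 fun z hz hK => ?_
      have hzE : z ∈ E := Finset.mem_filter.2
        ⟨Finset.mem_union_right _ hK, hsub z (Finset.mem_union_left _ hz)⟩
      have : z ∈ p.1 ∩ E := e1 ▸ Finset.mem_inter.2 ⟨hz, hzE⟩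
      exact Finset.disjoint_left.1 h1 (Finset.mem_inter.1 this).1 hK
    · refine Finset.disjoint_left.2 fun z hG hz => ?_
      have hzE : z ∈ E := Finset.mem_filter.2
        ⟨Finset.mem_union_left _ hG, hsub z (Finset.mem_union_right _ hz)⟩
      have : z ∈ p.2 ∩ E := e2 ▸ Finset.mem_inter.2 ⟨hz, hzE⟩
      exact Finset.disjoint_left.1 h2 hG (Finset.mem_inter.1 this).1

theorem mk_Iio_lt' {κ : Cardinal.{u}} (i : κ.ord.ToType) : #(Iio i) < κ := by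
  simpa using Cardinal.mk_Iio_lt i (by simp)

theorem fresh {Z : Type u} {κ : Cardinal.{u}} (hκ : κ ≤ #Z) (hZ : ℵ₀ < #Z)
    (supp : κ.ord.ToType → Set Z) (hs : ∀ i, (supp i).Countable) :
    ∃ x : κ.ord.ToType → Z, Function.Injective x ∧ ∀ i j, x i ∈ supp j → i < j := by
  classical
  have hne : Nonempty Z := by
    rw [← Cardinal.mk_ne_zero_iff]
    exact (lt_of_le_of_lt bot_le hZ).ne'
  let pick : Set Z → Z := fun s => if h : s.Nonempty then h.choose else Classical.arbitrary Z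
  have hpick : ∀ s : Set Z, s.Nonempty → pick s ∈ s := fun s h => by
    simp only [pick, dif_pos h]; exact h.choose_spec
  let x : κ.ord.ToType → Z := (wellFounded_lt (α := κ.ord.ToType)).fix fun i ih =>
    pick {y | y ∉ supp i ∧ ∀ j (h : j < i), y ≠ ih j h ∧ y ∉ supp j}
  have hx : ∀ i, x i = pick {y | y ∉ supp i ∧ ∀ j, j < i → y ≠ x j ∧ y ∉ supp j} :=
    fun i => (wellFounded_lt (α := κ.ord.ToType)).fix_eq _ i
  have key : ∀ i, x i ∉ supp i ∧ ∀ j, j < i → x i ≠ x j ∧ x i ∉ supp j := by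
    intro i
    have : {y | y ∉ supp i ∧ ∀ j, j < i → y ≠ x j ∧ y ∉ supp j}.Nonempty := by
      by_contra hc
      have hsub : (Set.univ : Set Z) ⊆ supp i ∪ ⋃ j : Iio i, insert (x j) (supp j) := by
        intro y _
        by_contra hy
        simp only [mem_union, mem_iUnion, mem_insert_iff, not_or, not_exists] at hy
        exact hc ⟨y, hy.1, fun j hj => hy.2 ⟨j, hj⟩⟩
      have h1 := Cardinal.mk_le_mk_of_subset hsub
      rw [Cardinal.mk_univ] at h1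
      refine h1.not_gt ((Cardinal.mk_union_le _ _).trans_lt (Cardinal.add_lt_of_lt hZ.le
        ((hs i).le_aleph0.trans_lt hZ) ?_))
      refine (Cardinal.mk_iUnion_le _).trans_lt (Cardinal.mul_lt_of_lt hZ.le
        ((mk_Iio_lt' i).trans_le hκ) ?_)
      refine lt_of_le_of_lt ?_ hZ
      exact ciSup_le' fun j => ((hs j).insert _).le_aleph0
    have := hpick _ this
    rw [← hx] at this
    exact this
  refine ⟨x, fun i j e => ?_, fun i j h => ?_⟩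
  · rcases lt_trichotomy i j with h | h | h
    · exact (((key j).2 i h).1 e.symm).elim
    · exact h
    · exact (((key i).2 j h).1 e).elim
  · by_contra hc
    rcases (not_lt.1 hc).eq_or_lt with rfl | h'
    · exact (key j).1 h
    · exact ((key i).2 j h').2 h

theorem pr_core {Z 𝒰 C : Type*} [LinearOrder C] [WellFoundedLT C] (ev : 𝒰 → Set Z)
    (hinter : ∀ U V, ∃ W, ev W = ev U ∩ ev V) (A : C → Set (Finset Z × 𝒰)) (x : C → Z)
    (hx : Function.Injective x) (hlt : ∀ i j, ∀ p ∈ A j, x i ∈ p.1 → i < j)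
    (H : Finset Z) (V : 𝒰) (hH : ↑H ⊆ ev V) :
    ∃ G : Finset Z, H ⊆ G ∧ ↑G ⊆ ev V ∧ ∀ σ, x σ ∈ G →
      (∃ p ∈ A σ, p.1 ⊆ G ∧ ↑G ⊆ ev p.2) ∨
      ∃ W, ↑G ⊆ ev W ∧ ¬ ∃ p ∈ A σ, ↑p.1 ⊆ ev p.2 ∧ ↑p.1 ⊆ ev W ∧ ↑G ⊆ ev p.2 := by
  classical
  let good : C → Finset Z → Prop := fun σ G => (∃ p ∈ A σ, p.1 ⊆ G ∧ ↑G ⊆ ev p.2) ∨
      ∃ W, ↑G ⊆ ev W ∧ ¬ ∃ p ∈ A σ, ↑p.1 ⊆ ev p.2 ∧ ↑p.1 ⊆ ev W ∧ ↑G ⊆ ev p.2
  have step : ∀ τ (H : Finset Z) V, ↑H ⊆ ev V → ∃ (H' : Finset Z) (V' : 𝒰), H ⊆ H' ∧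
      ↑H' ⊆ ev V' ∧ ev V' ⊆ ev V ∧ (∀ G : Finset Z, H' ⊆ G → ↑G ⊆ ev V' → good τ G) ∧
      ∀ ρ, x ρ ∈ H' → x ρ ∈ H ∨ ρ < τ := by
    intro τ H V hH
    by_cases h : ∃ p ∈ A τ, ↑p.1 ⊆ ev p.2 ∧ ↑p.1 ⊆ ev V ∧ ↑H ⊆ ev p.2
    · obtain ⟨p, hp, h1, h2, h3⟩ := h
      obtain ⟨W, hW⟩ := hinter V p.2
      refine ⟨H ∪ p.1, W, Finset.subset_union_left, ?_, hW ▸ inter_subset_left, ?_, ?_⟩
      · rw [hW, Finset.coe_union]
        exact union_subset (subset_inter hH h3) (subset_inter h2 h1)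
      · intro G hG hG'
        exact Or.inl ⟨p, hp, Finset.subset_union_right.trans hG,
          hG'.trans (hW ▸ inter_subset_right)⟩
      · intro ρ hρ
        rcases Finset.mem_union.1 hρ with h | h
        · exact Or.inl h
        · exact Or.inr (hlt _ _ p hp h)
    · refine ⟨H, V, Finset.Subset.refl _, hH, Subset.rfl, fun G hG hG' => Or.inr ⟨V, hG', ?_⟩,
        fun ρ hρ => Or.inl hρ⟩
      rintro ⟨p, hp, h1, h2, h3⟩
      exact h ⟨p, hp, h1, h2, (Finset.coe_subset.2 hG).trans h3⟩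
  have hfin : ∀ (H : Finset Z) (S : Set C), (S ∩ {σ | x σ ∈ H}).Finite := fun H S =>
    (H.finite_toSet.preimage hx.injOn).subset inter_subset_right
  have main : ∀ τ (H : Finset Z) V, ↑H ⊆ ev V → ∃ (H' : Finset Z) (V' : 𝒰), H ⊆ H' ∧
      ↑H' ⊆ ev V' ∧ ev V' ⊆ ev V ∧
      (∀ σ ≤ τ, x σ ∈ H' → ∀ G : Finset Z, H' ⊆ G → ↑G ⊆ ev V' → good σ G) ∧
      ∀ ρ, x ρ ∈ H' → x ρ ∈ H ∨ ρ < τ := by
    intro τ
    induction τ using WellFoundedLT.induction with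
    | ind τ ih =>
      intro H V hH
      obtain ⟨H1, V1, a1, a2, a3, a4, a5⟩ := step τ H V hH
      rcases (Iio τ ∩ {σ | x σ ∈ H1}).eq_empty_or_nonempty with he | hne
      · refine ⟨H1, V1, a1, a2, a3, fun σ hσ hs => ?_, a5⟩
        rcases hσ.eq_or_lt with rfl | hσ
        · exact a4
        · exact (he.subset ⟨hσ, hs⟩).elim
      · obtain ⟨σ0, ⟨h0, -⟩, hmax⟩ := (hfin H1 (Iio τ)).exists_maximalFor id _ hne
        obtain ⟨H2, V2, b1, b2, b3, b4, b5⟩ := ih σ0 h0 H1 V1 a2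
        refine ⟨H2, V2, a1.trans b1, b2, b3.trans a3, fun σ hσ hs => ?_, fun ρ hρ => ?_⟩
        · rcases hσ.eq_or_lt with rfl | hσ
          · exact fun G hG hG' => a4 G (b1.trans hG) (hG'.trans b3)
          · refine b4 σ ?_ hs
            rcases b5 σ hs with h | h
            · by_contra hc
              exact hc (hmax ⟨hσ, h⟩ (not_le.1 hc).le)
            · exact h.le
        · rcases b5 ρ hρ with h | h
          · exact a5 ρ h
          · exact Or.inr (h.trans h0)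
  rcases ((Set.univ : Set C) ∩ {σ | x σ ∈ H}).eq_empty_or_nonempty with he | hne
  · exact ⟨H, Finset.Subset.refl _, hH, fun σ hs => (he.subset ⟨trivial, hs⟩).elim⟩
  · obtain ⟨τ, -, hmax⟩ := (hfin H Set.univ).exists_maximalFor id _ hne
    obtain ⟨H2, V2, b1, b2, b3, b4, b5⟩ := main τ H V hH
    refine ⟨H2, b1, b2.trans b3, fun σ hs => b4 σ ?_ hs H2 (Finset.Subset.refl _) b2⟩
    rcases b5 σ hs with h | h
    · by_contra hc
      exact hc (hmax ⟨trivial, h⟩ (not_le.1 hc).le)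
    · exact h.le

theorem pr_lemma {Z 𝒰 : Type u} (ev : 𝒰 → Set Z) (hinter : ∀ U V, ∃ W, ev W = ev U ∩ ev V)
    (hZ : ℵ₀ ≤ #Z) (hpow : #Z ^ ℵ₀ = #Z) (hU : #𝒰 ≤ #Z)
    (happ : ∀ (F : Set (Finset Z)) (U : Finset Z → 𝒰), (∀ G ∈ F, ↑G ⊆ ev (U G)) →
      ∃ A ⊆ F, A.Countable ∧ ∀ G ∈ F, ∀ V, ↑G ⊆ ev V → ∃ G' ∈ A, ↑G' ⊆ ev V ∧ ↑G ⊆ ev (U G')) :
    ∃ D : ℕ → Set (Finset Z), (∀ n (H : Finset Z) V, ↑H ⊆ ev V →
        ∃ G ∈ D n, H ⊆ G ∧ ↑G ⊆ ev V) ∧
      ∀ (F : ℕ → Set (Finset Z)) (U : ℕ → Finset Z → 𝒰), (∀ n, F n ⊆ D n) →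
        (∀ n, ∀ G ∈ F n, ↑G ⊆ ev (U n G)) →
        (∀ n, ∀ G ∈ F n, ∀ G' ∈ F n, G ⊆ G' → ↑G' ⊆ ev (U n G) → G' = G) →
        ∃ z, ∀ n, ∀ G ∈ F n, z ∉ G := by
  classical
  let C := ℕ → ℕ → Option (Finset Z × 𝒰)
  have hZ' : ℵ₀ < #Z := by
    refine lt_of_lt_of_le ?_ hpow.le
    exact (Cardinal.cantor ℵ₀).trans_le
      (Cardinal.power_le_power_right ((Cardinal.natCast_lt_aleph0 (n := 2)).le.trans hZ))
  have hinf : Infinite Z := Cardinal.infinite_iff.2 hZ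
  have hC : #C ≤ #Z := by
    have h1 : #(Option (Finset Z × 𝒰)) ≤ #Z := by
      rw [Cardinal.mk_option, Cardinal.mk_prod, Cardinal.lift_id, Cardinal.lift_id,
        Cardinal.mk_finset_of_infinite]
      refine Cardinal.add_le_of_le hZ ?_ (Cardinal.one_lt_aleph0.le.trans hZ)
      exact (mul_le_mul_right hU _).trans (Cardinal.mul_eq_self hZ).le
    have h2 : #C = (#(Option (Finset Z × 𝒰)) ^ ℵ₀) ^ ℵ₀ := by
      simp only [C, Cardinal.mk_pi, Cardinal.prod_const, Cardinal.mk_nat, Cardinal.lift_aleph0,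
        Cardinal.lift_uzero]
    rw [h2]
    refine (Cardinal.power_le_power_right (Cardinal.power_le_power_right h1)).trans ?_
    rw [hpow, hpow]
  obtain ⟨e⟩ : Nonempty ((#C).ord.ToType ≃ C) := Cardinal.eq.1 (Cardinal.mk_ord_toType _)
  let A : ℕ → (#C).ord.ToType → Set (Finset Z × 𝒰) := fun n i => {p | ∃ k, e i n k = some p}
  have hA : ∀ n i, (A n i).Countable := fun n i =>
    ((countable_range (e i n)).preimage (Option.some_injective _)).mono fun p hp => hp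
  obtain ⟨x, hx, hlt⟩ := fresh hC hZ' (fun i => ⋃ n, ⋃ p ∈ A n i, (↑p.1 : Set Z))
    fun i => countable_iUnion fun n => (hA n i).biUnion fun p _ => p.1.countable_toSet
  have hlt' : ∀ n i j, ∀ p ∈ A n j, x i ∈ p.1 → i < j := fun n i j p hp h =>
    hlt i j (mem_iUnion.2 ⟨n, mem_biUnion hp h⟩)
  refine ⟨fun n => {G | ∀ σ, x σ ∈ G → (∃ p ∈ A n σ, p.1 ⊆ G ∧ ↑G ⊆ ev p.2) ∨
      ∃ W, ↑G ⊆ ev W ∧ ¬ ∃ p ∈ A n σ, ↑p.1 ⊆ ev p.2 ∧ ↑p.1 ⊆ ev W ∧ ↑G ⊆ ev p.2}, ?_, ?_⟩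
  · intro n H V hH
    obtain ⟨G, h1, h2, h3⟩ := pr_core ev hinter (A n) x hx (hlt' n) H V hH
    exact ⟨G, h3, h1, h2⟩
  · intro F U hFD hU hdisc
    choose B hBF hBc hB using fun n => happ (F n) (U n) (hU n)
    have hcode : ∀ n, ∃ f : ℕ → Option (Finset Z × 𝒰),
        ∀ p, (∃ k, f k = some p) ↔ ∃ G ∈ B n, p = (G, U n G) := by
      intro n
      obtain ⟨f, hf⟩ := (((hBc n).image fun G => some (G, U n G)).insert none).exists_eq_range
        (insert_nonempty _ _)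
      refine ⟨f, fun p => ?_⟩
      rw [← mem_range, ← hf]
      simp [eq_comm]
    choose f hf using hcode
    have hAe : ∀ n p, p ∈ A n (e.symm f) ↔ ∃ G ∈ B n, p = (G, U n G) := by
      intro n p
      simp only [A, Equiv.apply_symm_apply, mem_ofPred_eq]
      exact hf n p
    refine ⟨x (e.symm f), fun n G hG hxG => ?_⟩
    rcases hFD n hG _ hxG with ⟨p, hp, h1, h2⟩ | ⟨W, h1, h2⟩
    · obtain ⟨G', hG', rfl⟩ := (hAe n p).1 hp
      have := hdisc n G' (hBF n hG') G hG h1 h2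
      subst this
      exact lt_irrefl _ (hlt' n _ _ _ hp hxG)
    · obtain ⟨G', hG', h3, h4⟩ := hB n G hG W h1
      exact h2 ⟨(G', U n G'), (hAe n _).2 ⟨G', hG', rfl⟩, hU n G' (hBF n hG'), h3, h4⟩

end Pool.Agent.H15.DSep
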