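import Mathlib

set_option autoImplicit false

namespace Pool.Agent.H15.DSep

/-- d-separable: some countable union of discrete subsets is dense. -/
def IsDSep (X : Type*) [TopologicalSpace X] : Prop :=
  ∃ E : ℕ → Set X, (∀ n, DiscreteTopology (E n)) ∧ Dense (⋃ n, E n)

/-- D-separable: from every sequence of dense sets one can select discrete subsets with dense
union. -/
def IsSelDSep (X : Type*) [TopologicalSpace X] : Prop :=
  ∀ D : ℕ → Set X, (∀ n, Dense (D n)) →
    ∃ F : ℕ → Set X, (∀ n, F n ⊆ D n ∧ DiscreteTopology (F n)) ∧ Dense (⋃ n, F n)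

/-- The Sigma-product of the Cantor cube: points with countably many nonzero coordinates. -/
def SigmaCube (ι : Type*) : Set (ι → Bool) := {x | {i | x i ≠ false}.Countable}

end Pool.Agent.H15.DSep
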