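import Pool.Agent.H15.DSep1
import Pool.Agent.H15.DSepDefs

/-! Sigma-products and a Pixley-Roy space that are not D-separable. -/

set_option autoImplicit false

namespace Pool.Agent.H15.DSep

open Set Cardinal TopologicalSpace Topology Filter

universe u

theorem cyl_sub {ι : Type*} {s : Set (ι → Bool)} (hs : IsOpen s) {f : ι → Bool} (hf : f ∈ s) :
    ∃ I : Finset ι, ∀ g : ι → Bool, (∀ i ∈ I, g i = f i) → g ∈ s := by
  obtain ⟨I, u, h1, h2⟩ := isOpen_pi_iff.1 hs f hf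
  exact ⟨I, fun g hg => h2 fun i hi => by rw [hg i hi]; exact (h1 i hi).2⟩

theorem isOpen_coord {ι : Type*} (i : ι) (b : Bool) : IsOpen {g : ι → Bool | g i = b} :=
  (isOpen_discrete ({b} : Set Bool)).preimage (continuous_apply (A := fun _ : ι => Bool) i)

theorem isOpen_cyl {ι : Type*} (I : Finset ι) (f : ι → Bool) :
    IsOpen {g : ι → Bool | ∀ i ∈ I, g i = f i} := by
  rw [ofPred_forall]
  simp_rw [ofPred_forall]
  exact isOpen_biInter_finset fun i _ =>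
    isOpen_coord i (f i)

open Classical in
/-- indicator of a finite set -/
noncomputable def ind {ι : Type*} (G : Finset ι) : ι → Bool := fun i => decide (i ∈ G)

theorem ind_true {ι : Type*} {G : Finset ι} {i : ι} : ind G i = true ↔ i ∈ G := by simp [ind]

theorem ind_false {ι : Type*} {G : Finset ι} {i : ι} : ind G i = false ↔ i ∉ G := by simp [ind]

theorem ind_inj {ι : Type*} {G G' : Finset ι} (h : ind G = ind G') : G = G' := by
  ext i
  rw [← ind_true, ← ind_true, h]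

theorem not_dsep_cube {ι : Type u} (hZ : ℵ₀ ≤ #ι) (hpow : #ι ^ ℵ₀ = #ι) (S : Set (ι → Bool))
    (hS : ∀ G : Finset ι, ind G ∈ S) : ¬ IsSelDSep S := by
  classical
  intro h
  have hinf : Infinite ι := Cardinal.infinite_iff.2 hZ
  obtain ⟨D, hD, hF⟩ := pr_lemma (Z := ι) (𝒰 := Finset ι) (fun K => (↑K : Set ι)ᶜ)
    (fun U V => ⟨U ∪ V, by rw [Finset.coe_union, compl_union]⟩) hZ hpow
    (Cardinal.mk_finset_of_infinite ι).le (by
      intro F U _
      obtain ⟨A, hA, hc, hrep⟩ := rep_family ((fun G => (G, U G)) '' F)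
      refine ⟨Prod.fst '' A, ?_, hc.image _, fun G hG V hV => ?_⟩
      · rintro _ ⟨p, hp, rfl⟩
        obtain ⟨G, hG, rfl⟩ := hA hp
        exact hG
      · obtain ⟨q, hq, h1, h2⟩ := hrep (G, U G) ⟨G, hG, rfl⟩ G V
          (Finset.disjoint_left.2 fun z hz => hV hz)
          (Finset.disjoint_left.2 fun z hz => ‹∀ G ∈ F, ↑G ⊆ (↑(U G) : Set ι)ᶜ› G hG hz)
        obtain ⟨G', -, rfl⟩ := hA hq
        exact ⟨G', ⟨_, hq, rfl⟩, fun z hz => Finset.disjoint_left.1 h1 hz,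
          fun z hz => Finset.disjoint_left.1 h2 hz⟩)
  obtain ⟨F', hF', hd⟩ := h (fun n => {x | ∃ G ∈ D n, x.1 = ind G}) (by
    intro n
    refine dense_iff_inter_open.2 fun O hO ⟨x, hx⟩ => ?_
    obtain ⟨O', hO', rfl⟩ := isOpen_induced_iff.1 hO
    obtain ⟨I, hI⟩ := cyl_sub hO' hx
    obtain ⟨G, hG, h1, h2⟩ := hD n (I.filter (x.1 · = true)) (I.filter (x.1 · = false)) (by
      intro z hz hz'
      have a := (Finset.mem_filter.1 hz).2
      have b := (Finset.mem_filter.1 hz').2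
      rw [a] at b
      exact Bool.noConfusion b)
    refine ⟨⟨ind G, hS G⟩, hI _ fun i hi => ?_, G, hG, rfl⟩
    cases hxi : x.1 i
    · exact ind_false.2 fun hiG => h2 hiG (Finset.mem_filter.2 ⟨hi, hxi⟩)
    · exact ind_true.2 (h1 (Finset.mem_filter.2 ⟨hi, hxi⟩)))
  have hK : ∀ n (G : Finset ι), ∃ K : Finset ι, (⟨ind G, hS G⟩ : S) ∈ F' n →
      ↑G ⊆ (↑K : Set ι)ᶜ ∧ ∀ G' : Finset ι, (⟨ind G', hS G'⟩ : S) ∈ F' n → G ⊆ G' →
        ↑G' ⊆ (↑K : Set ι)ᶜ → G' = G := by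
    intro n G
    by_cases hG : (⟨ind G, hS G⟩ : S) ∈ F' n
    · obtain ⟨O, hO, he⟩ := discreteTopology_subtype_iff'.1 (hF' n).2 _ hG
      obtain ⟨O', hO', rfl⟩ := isOpen_induced_iff.1 hO
      have hx : ind G ∈ O' := (he.symm.subset rfl).1
      obtain ⟨I, hI⟩ := cyl_sub hO' hx
      refine ⟨I \ G, fun _ => ⟨fun z hz hz' => (Finset.mem_sdiff.1 hz').2 hz,
        fun G' hG' h1 h2 => ?_⟩⟩
      have : (⟨ind G', hS G'⟩ : S) ∈ ({⟨ind G, hS G⟩} : Set S) := by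
        refine he.subset ⟨hI (ind G') fun i hi => ?_, hG'⟩
        by_cases hiG : i ∈ G
        · rw [ind_true.2 hiG, ind_true.2 (h1 hiG)]
        · rw [ind_false.2 hiG, ind_false.2 fun h => h2 h (Finset.mem_sdiff.2 ⟨hi, hiG⟩)]
      exact ind_inj (congrArg Subtype.val this)
    · exact ⟨∅, fun h => (hG h).elim⟩
  choose K hK using hK
  obtain ⟨z, hz⟩ := hF (fun n => {G | (⟨ind G, hS G⟩ : S) ∈ F' n}) K
    (fun n G hG => by
      obtain ⟨G', hG', e⟩ := (hF' n).1 hG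
      exact ind_inj e ▸ hG')
    (fun n G hG => (hK n G hG).1) fun n G hG G' hG' => (hK n G hG).2 G' hG'
  obtain ⟨x, hx1, hx2⟩ := dense_iff_inter_open.1 hd {x | x.1 z = true}
    ((isOpen_coord z true).preimage continuous_subtype_val)
    ⟨⟨ind {z}, hS _⟩, ind_true.2 (Finset.mem_singleton_self z)⟩
  obtain ⟨n, hn⟩ := mem_iUnion.1 hx2
  obtain ⟨G, -, e⟩ := (hF' n).1 hn
  have : x = ⟨ind G, hS G⟩ := Subtype.ext e
  subst this
  exact hz n G hn (ind_true.1 hx1)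

theorem ind_mem_sigma {ι : Type*} (G : Finset ι) : ind G ∈ SigmaCube ι :=
  G.countable_toSet.mono fun i hi => by
    by_contra h
    exact hi (ind_false.2 h)

/-- the Pixley-Roy hyperspace of the Cantor set (with the empty set added) -/
def PR : Type := Finset (ℕ → Bool)

open Classical in
noncomputable def prEmb (G : Finset (ℕ → Bool)) : (ℕ → Bool) ⊕ Clopens (ℕ → Bool) → Bool
  | Sum.inl z => ind G z
  | Sum.inr U => decide ((↑G : Set (ℕ → Bool)) ⊆ U)

noncomputable instance : TopologicalSpace PR := .induced prEmb inferInstance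

theorem prEmb_emb : IsEmbedding (fun G : PR => prEmb G) :=
  ⟨⟨rfl⟩, fun _ _ h => ind_inj (funext fun z => congrFun h (Sum.inl z))⟩

instance : T35Space PR := prEmb_emb.t35Space

def nb (G : Finset (ℕ → Bool)) (U : Clopens (ℕ → Bool)) : Set PR :=
  {G' : Finset (ℕ → Bool) | G ⊆ G' ∧ (↑G' : Set (ℕ → Bool)) ⊆ U}

theorem isOpen_nb (G : Finset (ℕ → Bool)) (U : Clopens (ℕ → Bool)) : IsOpen (nb G U) := by
  classical
  refine isOpen_induced_iff.2 ⟨_, isOpen_cyl (insert (Sum.inr U) (G.image Sum.inl))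
    (fun _ => true), ?_⟩
  ext G'
  simp only [mem_preimage, mem_ofPred_eq, Finset.mem_insert, Finset.mem_image, forall_eq_or_imp,
    forall_exists_index, and_imp, forall_apply_eq_imp_iff₂, prEmb, decide_eq_true_eq, ind_true]
  exact ⟨fun h => ⟨h.2, h.1⟩, fun h => ⟨h.2, h.1⟩⟩

theorem nb_sub {O : Set PR} (hO : IsOpen O) {G : Finset (ℕ → Bool)} (hG : G ∈ O) :
    ∃ U : Clopens (ℕ → Bool), (↑G : Set (ℕ → Bool)) ⊆ U ∧ nb G U ⊆ O := by
  classical
  obtain ⟨O', hO', rfl⟩ := isOpen_induced_iff.1 hO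
  obtain ⟨I, hI⟩ := cyl_sub hO' hG
  have h1 : ∀ i, ∃ U : Clopens (ℕ → Bool), (↑G : Set (ℕ → Bool)) ⊆ U ∧
      ∀ G' ∈ nb G U, prEmb G' i = prEmb G i := by
    rintro (z | V)
    · by_cases hz : z ∈ G
      · exact ⟨⊤, subset_univ _, fun G' hG' => by
          simp only [prEmb]; rw [ind_true.2 hz, ind_true.2 (hG'.1 hz)]⟩
      · obtain ⟨U, hU, h1, h2⟩ := exists_clopen_of_closed_subset_open
          G.finite_toSet.isClosed (isOpen_compl_singleton (x := z))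
          (subset_compl_singleton_iff.2 hz)
        refine ⟨⟨U, hU⟩, h1, fun G' hG' => ?_⟩
        simp only [prEmb]
        rw [ind_false.2 hz, ind_false.2 fun h => h2 (hG'.2 h) rfl]
    · by_cases hV : (↑G : Set (ℕ → Bool)) ⊆ V
      · exact ⟨V, hV, fun G' hG' => by simp only [prEmb]; rw [decide_eq_decide]; simp [hV, hG'.2]⟩
      · refine ⟨⊤, subset_univ _, fun G' hG' => ?_⟩
        simp only [prEmb]
        rw [decide_eq_decide]
        exact ⟨fun h => (Finset.coe_subset.2 hG'.1).trans h, fun h => (hV h).elim⟩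
  have h2 : ∀ J : Finset ((ℕ → Bool) ⊕ Clopens (ℕ → Bool)), ∃ U : Clopens (ℕ → Bool),
      (↑G : Set (ℕ → Bool)) ⊆ U ∧ ∀ G' ∈ nb G U, ∀ i ∈ J, prEmb G' i = prEmb G i := by
    intro J
    induction J using Finset.induction_on with
    | empty => exact ⟨⊤, subset_univ _, by simp⟩
    | insert i J _ ih =>
      obtain ⟨U, a1, a2⟩ := ih
      obtain ⟨V, b1, b2⟩ := h1 i
      refine ⟨U ⊓ V, subset_inter a1 b1, fun G' hG' j hj => ?_⟩
      rcases Finset.mem_insert.1 hj with rfl | hj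
      · exact b2 G' ⟨hG'.1, hG'.2.trans inter_subset_right⟩
      · exact a2 G' ⟨hG'.1, hG'.2.trans inter_subset_left⟩ j hj
  obtain ⟨U, a1, a2⟩ := h2 I
  exact ⟨U, a1, fun G' hG' => hI _ (a2 G' hG')⟩

instance countable_clopens : Countable (Clopens (ℕ → Bool)) :=
  Clopens.countable_iff_secondCountable.2 inferInstance

instance : FirstCountableTopology PR := by
  refine ⟨fun G => ?_⟩
  have : (𝓝 G).HasBasis
      (fun U : Clopens (ℕ → Bool) => ((show Finset (ℕ → Bool) from G) : Set (ℕ → Bool)) ⊆ U)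
      (nb G) := by
    refine ⟨fun t => ⟨fun ht => ?_, fun ⟨U, h1, h2⟩ => ?_⟩⟩
    · obtain ⟨O, h1, h2, h3⟩ := mem_nhds_iff.1 ht
      obtain ⟨U, a1, a2⟩ := nb_sub h2 h3
      exact ⟨U, a1, a2.trans h1⟩
    · exact mem_of_superset ((isOpen_nb G U).mem_nhds ⟨Finset.Subset.refl _, h1⟩) h2
  exact HasCountableBasis.isCountablyGenerated ⟨this, to_countable _⟩

theorem pr_dsep : IsDSep PR := by
  refine ⟨fun n => {G : Finset (ℕ → Bool) | G.card = n}, fun n => ?_, ?_⟩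
  · refine discreteTopology_subtype_iff'.2 fun G hG => ⟨nb G ⊤, isOpen_nb _ _, ?_⟩
    ext G'
    refine ⟨fun h => ?_, ?_⟩
    · exact (Finset.eq_of_subset_of_card_le h.1.1 (h.2.trans hG.symm).le).symm
    · rintro rfl
      exact ⟨⟨Finset.Subset.refl _, subset_univ _⟩, hG⟩
  · intro G
    exact subset_closure (mem_iUnion.2 ⟨_, rfl⟩)

theorem pr_not_dsep : ¬ IsSelDSep PR := by
  classical
  intro h
  have hc : #(ℕ → Bool) = 𝔠 := by simp
  obtain ⟨D, hD, hF⟩ := pr_lemma (Z := ℕ → Bool) (𝒰 := Clopens (ℕ → Bool)) (fun U => ↑U)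
    (fun U V => ⟨U ⊓ V, rfl⟩) (hc ▸ aleph0_le_continuum) (by rw [hc, continuum_power_aleph0])
    (mk_le_aleph0.trans (hc ▸ aleph0_le_continuum)) (by
      intro F U hU
      have hex : ∀ V W : Clopens (ℕ → Bool), ∃ A : Set (Finset (ℕ → Bool)), A ⊆ F ∧
          A.Countable ∧ ((∃ G ∈ F, ↑G ⊆ (V : Set (ℕ → Bool)) ∧ U G = W) →
            ∃ G ∈ A, ↑G ⊆ (V : Set (ℕ → Bool)) ∧ U G = W) := by
        intro V W
        by_cases h : ∃ G ∈ F, ↑G ⊆ (V : Set (ℕ → Bool)) ∧ U G = W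
        · obtain ⟨G, hG, h⟩ := h
          exact ⟨{G}, singleton_subset_iff.2 hG, countable_singleton _, fun _ => ⟨G, rfl, h⟩⟩
        · exact ⟨∅, empty_subset _, countable_empty, fun h' => (h h').elim⟩
      choose A h1 h2 h3 using hex
      refine ⟨⋃ V, ⋃ W, A V W, iUnion_subset fun V => iUnion_subset fun W => h1 V W,
        countable_iUnion fun V => countable_iUnion fun W => h2 V W, fun G hG V hV => ?_⟩
      obtain ⟨G', a1, a2, a3⟩ := h3 V (U G) ⟨G, hG, hV, rfl⟩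
      exact ⟨G', mem_iUnion₂.2 ⟨V, U G, a1⟩, a2, a3 ▸ hU G hG⟩)
  obtain ⟨F, hF', hd⟩ := h D (by
    intro n
    refine dense_iff_inter_open.2 fun O hO ⟨G, hG⟩ => ?_
    obtain ⟨U, a1, a2⟩ := nb_sub hO hG
    obtain ⟨G', b1, b2, b3⟩ := hD n G U a1
    exact ⟨G', a2 ⟨b2, b3⟩, b1⟩)
  have hK : ∀ n (G : Finset (ℕ → Bool)), ∃ U : Clopens (ℕ → Bool), G ∈ F n →
      ↑G ⊆ (U : Set (ℕ → Bool)) ∧ ∀ G' : Finset (ℕ → Bool), G' ∈ F n → G ⊆ G' →
        ↑G' ⊆ (U : Set (ℕ → Bool)) → G' = G := by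
    intro n G
    by_cases hG : G ∈ F n
    · obtain ⟨O, hO, he⟩ := discreteTopology_subtype_iff'.1 (hF' n).2 _ hG
      obtain ⟨U, a1, a2⟩ := nb_sub hO (he.symm.subset rfl).1
      exact ⟨U, fun _ => ⟨a1, fun G' hG' h1 h2 => he.subset ⟨a2 ⟨h1, h2⟩, hG'⟩⟩⟩
    · exact ⟨⊤, fun h => (hG h).elim⟩
  choose K hK using hK
  obtain ⟨z, hz⟩ := hF F K (fun n => (hF' n).1) (fun n G hG => (hK n G hG).1)
    fun n G hG G' hG' => (hK n G hG).2 G' hG'
  obtain ⟨G, hx1, hx2⟩ := dense_iff_inter_open.1 hd (nb {z} ⊤) (isOpen_nb _ _)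
    ⟨({z} : Finset (ℕ → Bool)), Finset.Subset.refl _, subset_univ _⟩
  obtain ⟨n, hn⟩ := mem_iUnion.1 hx2
  exact hz n G hn (hx1.1 (Finset.mem_singleton_self z))

end Pool.Agent.H15.DSep
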