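import Pool.Agent.H15.DSep2

/-! Sigma-products of Cantor cubes over cardinals of countable cofinality are D-separable. -/

set_option autoImplicit false

namespace Pool.Agent.H15.DSep

open Set Cardinal TopologicalSpace Topology Filter

universe u

theorem mk_iU_le {α β : Type u} {l : Cardinal.{u}} (hl : ℵ₀ ≤ l) (hβ : #β ≤ l) (f : β → Set α)
    (hf : ∀ b, #(f b) ≤ l) : #(⋃ b, f b) ≤ l :=
  (Cardinal.mk_iUnion_le f).trans
    ((mul_le_mul' hβ (ciSup_le' hf)).trans (Cardinal.mul_eq_self hl).le)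

theorem mk_un_le {α : Type u} {l : Cardinal.{u}} (hl : ℵ₀ ≤ l) {s t : Set α} (hs : #s ≤ l)
    (ht : #t ≤ l) : #(s ∪ t : Set α) ≤ l :=
  (Cardinal.mk_union_le s t).trans (Cardinal.add_le_of_le hl hs ht)

theorem exists_notMem {α : Type u} {W B : Set α} (h : #B < #W) : ∃ c ∈ W, c ∉ B := by
  by_contra hc
  push Not at hc
  exact h.not_ge (Cardinal.mk_le_mk_of_subset hc)

theorem free_set {ι : Type u} {l : Cardinal.{u}} (hl : ℵ₀ ≤ l) (W : Set ι)
    (hW : Order.succ l < #W) (g : ι → Set ι) (hg : ∀ c, #(g c) ≤ l) :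
    ∃ S ⊆ W, l < #S ∧ ∀ c ∈ S, ∀ c' ∈ S, c' ∈ g c → c' = c := by
  classical
  let H : Set (Set ι) := {S | #S ≤ l ∧ ∃ B : Set ι, #B ≤ l ∧ ∀ c ∈ W, c ∉ B → (g c ∩ S).Nonempty}
  obtain ⟨𝒮, h𝒮⟩ := zorn_subset {𝒮 : Set (Set ι) | 𝒮 ⊆ H ∧ 𝒮.PairwiseDisjoint id} (by
    intro c hc hch
    refine ⟨⋃₀ c, ⟨sUnion_subset fun s hs => (hc hs).1, ?_⟩, fun s hs => subset_sUnion_of_mem hs⟩
    exact (pairwiseDisjoint_sUnion hch.directedOn).2 fun s hs => (hc hs).2)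
  have hl' : ℵ₀ ≤ Order.succ l := hl.trans (Order.le_succ l)
  have h1 : #𝒮 ≤ l := by
    by_contra hc
    obtain ⟨𝒯, hsub, hT⟩ := Cardinal.le_mk_iff_exists_subset.1
      (Order.succ_le_of_lt (not_le.1 hc))
    choose B hB hB' using fun S : 𝒯 => (h𝒮.prop.1 (hsub S.2)).2
    obtain ⟨c, hcW, hcB⟩ := exists_notMem
      ((mk_iU_le hl' hT.le B fun S => (hB S).trans (Order.le_succ l)).trans_lt hW)
    choose y hy using fun S : 𝒯 => hB' S c hcW fun h => hcB (mem_iUnion.2 ⟨S, h⟩)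
    have : #𝒯 ≤ #(g c) := by
      refine Cardinal.mk_le_of_injective (f := fun S => ⟨y S, (hy S).1⟩) fun S S' e => ?_
      have e' : y S = y S' := congrArg Subtype.val e
      by_contra hne
      have := h𝒮.prop.2 (hsub S.2) (hsub S'.2) fun h => hne (Subtype.ext h)
      exact Set.disjoint_left.1 this (hy S).2 (e' ▸ (hy S').2)
    exact (Order.lt_succ l).not_ge (hT.ge.trans (this.trans (hg c)))
  have h2 : #(⋃₀ 𝒮) ≤ l := by
    rw [sUnion_eq_iUnion]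
    exact mk_iU_le hl h1 _ fun S => (h𝒮.prop.1 S.2).1
  obtain ⟨S, hS⟩ := zorn_subset
    {S : Set ι | S ⊆ W \ ⋃₀ 𝒮 ∧ ∀ c ∈ S, ∀ c' ∈ S, c' ∈ g c → c' = c} (by
    intro c hc hch
    refine ⟨⋃₀ c, ⟨sUnion_subset fun s hs => (hc hs).1, ?_⟩, fun s hs => subset_sUnion_of_mem hs⟩
    rintro a ⟨s, hs, ha⟩ b ⟨t, ht, hb⟩
    rcases hch.total hs ht with h | h
    · exact (hc ht).2 a (h ha) b hb
    · exact (hc hs).2 a ha b (h hb))
  refine ⟨S, fun c hc => (hS.prop.1 hc).1, ?_, hS.prop.2⟩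
  by_contra hc
  have hSl : #S ≤ l := not_lt.1 hc
  have hB : #((⋃₀ 𝒮 ∪ S ∪ ⋃ c : S, g c : Set ι)) ≤ l :=
    mk_un_le hl (mk_un_le hl h2 hSl) (mk_iU_le hl hSl _ fun c => hg c)
  have hhit : ∀ c ∈ W, c ∉ (⋃₀ 𝒮 ∪ S ∪ ⋃ c : S, g c : Set ι) → (g c ∩ S).Nonempty := by
    intro c hcW hcB
    by_contra hne
    refine hcB (Or.inl (Or.inr (hS.mem_of_prop_insert ⟨?_, ?_⟩)))
    · exact insert_subset ⟨hcW, fun h => hcB (Or.inl (Or.inl h))⟩ hS.prop.1
    · rintro a (rfl | ha) b (rfl | hb) h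
      · rfl
      · exact (hne ⟨b, h, hb⟩).elim
      · exact (hcB (Or.inr (mem_iUnion.2 ⟨⟨a, ha⟩, h⟩))).elim
      · exact hS.prop.2 a ha b hb h
  have hmem : S ∈ 𝒮 := by
    refine h𝒮.mem_of_prop_insert ⟨insert_subset ⟨hSl, _, hB, hhit⟩ h𝒮.prop.1, ?_⟩
    refine h𝒮.prop.2.insert fun T hT _ => Set.disjoint_left.2 fun z hz hz' => ?_
    exact (hS.prop.1 hz).2 ⟨T, hT, hz'⟩
  obtain ⟨c, hcW, hcB⟩ := exists_notMem (hB.trans_lt ((Order.lt_succ l).trans hW))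
  obtain ⟨z, -, hz⟩ := hhit c hcW hcB
  exact (hS.prop.1 hz).2 ⟨S, hmem, hz⟩

theorem hit {ι X : Type*} [TopologicalSpace X] {e : X → ι → Bool} (he : IsInducing e)
    (hr : ∀ G : Finset ι, ind G ∈ range e) {D : Set X} (hD : Dense D) (J : Finset ι)
    (f : ι → Bool) : ∃ x ∈ D, ∀ i ∈ J, e x i = f i := by
  obtain ⟨y, hy⟩ := hr (J.filter (f · = true))
  obtain ⟨x, h1, h2⟩ := dense_iff_inter_open.1 hD _ ((isOpen_cyl J f).preimage he.continuous)
    ⟨y, fun i hi => by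
      rw [hy]
      cases hf : f i
      · exact ind_false.2 fun h => by simpa [hf] using (Finset.mem_filter.1 h).2
      · exact ind_true.2 (Finset.mem_filter.2 ⟨hi, hf⟩)⟩
  exact ⟨x, h2, h1⟩

theorem seldsep_of_blocks {ι X : Type*} [TopologicalSpace X] {e : X → ι → Bool}
    (he : IsInducing e) (I : ℕ → Set ι) (hI : Monotone I) (hU : ∀ i, ∃ n, i ∈ I n)
    (h : ∀ n (D : Set X), Dense D → ∃ F ⊆ D, DiscreteTopology F ∧
      ∀ E A : Finset (I n), ∃ x ∈ F, ∀ i ∈ E, e x i = ind A i) : IsSelDSep X := by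
  classical
  intro D hD
  choose F h1 h2 h3 using fun n => h n (D n) (hD n)
  refine ⟨F, fun n => ⟨h1 n, h2 n⟩, dense_iff_inter_open.2 fun O hO ⟨y, hy⟩ => ?_⟩
  obtain ⟨O', hO', rfl⟩ := he.isOpen_iff.1 hO
  obtain ⟨J, hJ⟩ := cyl_sub hO' hy
  obtain ⟨n, hn⟩ := hI.directed_le.exists_mem_subset_of_finset_subset_biUnion (s := J)
    fun i _ => mem_iUnion.2 (hU i)
  obtain ⟨x, hx, hx'⟩ := h3 n (J.subtype (· ∈ I n))
    ((J.subtype (· ∈ I n)).filter fun i => e y i = true)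
  refine ⟨x, hJ _ fun i hi => ?_, mem_iUnion.2 ⟨n, hx⟩⟩
  have hi' : (⟨i, hn hi⟩ : I n) ∈ J.subtype (· ∈ I n) := Finset.mem_subtype.2 hi
  rw [hx' _ hi']
  cases hf : e y i
  · exact ind_false.2 fun h => by simpa [hf] using (Finset.mem_filter.1 h).2
  · exact ind_true.2 (Finset.mem_filter.2 ⟨hi', hf⟩)

theorem card_R {α : Type u} {l : Cardinal.{u}} (hl : ℵ₀ ≤ l) (h : #α ≤ l) :
    #(Finset α × Finset α) ≤ l := by
  have h1 : #(Finset α) ≤ l := by
    rcases finite_or_infinite α with hf | hf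
    · exact Cardinal.mk_le_aleph0.trans hl
    · exact (Cardinal.mk_finset_of_infinite α).le.trans h
  rw [Cardinal.mk_prod, Cardinal.lift_id]
  exact (mul_le_mul' h1 h1).trans (Cardinal.mul_eq_self hl).le

/-- points of a dense set with a prescribed pattern on a finite part of I and on a, b outside -/
theorem hit2 {ι X : Type*} [TopologicalSpace X] {e : X → ι → Bool} (he : IsInducing e)
    (hr : ∀ G : Finset ι, ind G ∈ range e) {D : Set X} (hD : Dense D) (I : Set ι)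
    (O : Finset I × Finset I) (a b : ι) : ∃ x ∈ D, (∀ i ∈ O.1, e x i = ind O.2 i) ∧
      (a ∉ I → e x a = true) ∧ (b ∉ I → b ≠ a → e x b = false) := by
  classical
  obtain ⟨x, hx, h⟩ := hit he hr hD (insert a (insert b (O.1.map (Function.Embedding.subtype _))))
    fun i => if h : i ∈ I then ind O.2 ⟨i, h⟩ else decide (i = a)
  refine ⟨x, hx, fun i hi => ?_, fun ha => ?_, fun hb hba => ?_⟩
  · rw [h i (by simp [hi]), dif_pos i.2]
  · rw [h a (by simp), dif_neg ha]; simp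
  · rw [h b (by simp), dif_neg hb]; simp [hba]

theorem seldsep_of_secondCountable {X : Type*} [TopologicalSpace X] [SecondCountableTopology X] :
    IsSelDSep X := by
  intro D hD
  rcases isEmpty_or_nonempty X with hX | hX
  · exact ⟨fun _ => ∅, fun n => ⟨empty_subset _, inferInstance⟩, fun x => isEmptyElim x⟩
  obtain ⟨b, hbc, hbe, hb⟩ := exists_countable_basis X
  have hne : b.Nonempty := by
    obtain ⟨x⟩ := hX
    obtain ⟨t, ht, -⟩ := hb.exists_subset_of_mem_open (mem_univ x) isOpen_univ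
    exact ⟨t, ht⟩
  obtain ⟨f, rfl⟩ := hbc.exists_eq_range hne
  choose x hx using fun n => dense_iff_inter_open.1 (hD n) (f n) (hb.isOpen ⟨n, rfl⟩)
    (nonempty_iff_ne_empty.2 fun h => hbe ⟨n, h⟩)
  refine ⟨fun n => {x n}, fun n => ⟨singleton_subset_iff.2 (hx n).2, inferInstance⟩, ?_⟩
  refine hb.dense_iff.2 ?_
  rintro _ ⟨n, rfl⟩ -
  exact ⟨x n, (hx n).1, mem_iUnion.2 ⟨n, rfl⟩⟩

theorem blocks_of_cof {ι : Type u} (hι : ℵ₀ ≤ #ι) (hc : (#ι).ord.cof = ℵ₀) :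
    ∃ I : ℕ → Set ι, Monotone I ∧ (∀ i, ∃ n, i ∈ I n) ∧ ∀ n, #(I n) < #ι := by
  obtain ⟨e⟩ : Nonempty (ι ≃ (#ι).ord.ToType) := Cardinal.eq.1 (Cardinal.mk_ord_toType _).symm
  obtain ⟨s, hs, hs'⟩ := Order.exists_cof_eq (#ι).ord.ToType
  rw [Ordinal.cof_toType, hc] at hs'
  have hne : s.Nonempty := by
    rw [← Set.nonempty_coe_sort, ← Cardinal.mk_ne_zero_iff, hs']
    exact Cardinal.aleph0_ne_zero
  obtain ⟨a, rfl⟩ := (Cardinal.le_aleph0_iff_set_countable.1 hs'.le).exists_eq_range hne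
  refine ⟨fun n => e ⁻¹' Iic (partialSups a n), fun m n h =>
    preimage_mono (Iic_subset_Iic.2 ((partialSups a).monotone h)), fun i => ?_, fun n => ?_⟩
  · obtain ⟨_, ⟨n, rfl⟩, h⟩ := hs (e i)
    exact ⟨n, h.trans (le_partialSups a n)⟩
  · rw [Cardinal.mk_preimage_equiv]
    simpa using Cardinal.mk_Iic_lt (partialSups a n) (by simp) (by simpa using hι)

theorem sigma_dsep {ι : Type u} (hι : ℵ₀ ≤ #ι) (hc : (#ι).ord.cof = ℵ₀) :
    IsSelDSep (SigmaCube ι) := by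
  classical
  rcases hι.eq_or_lt with h | h
  · have : Countable ι := Cardinal.mk_le_aleph0_iff.1 h.ge
    exact seldsep_of_secondCountable
  have hinf : Infinite ι := Cardinal.infinite_iff.2 hι
  obtain ⟨I, h1, h2, h3⟩ := blocks_of_cof hι hc
  have hr : ∀ G : Finset ι, ind G ∈ range (Subtype.val : SigmaCube ι → ι → Bool) :=
    fun G => ⟨⟨_, ind_mem_sigma G⟩, rfl⟩
  refine seldsep_of_blocks IsInducing.subtypeVal I h1 h2 fun n D hD => ?_
  have hl : ℵ₀ ≤ max ℵ₀ #(I n) := le_max_left _ _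
  have hlt : max ℵ₀ #(I n) < #ι := max_lt h (h3 n)
  have hW : Order.succ (max ℵ₀ #(I n)) < #((I n)ᶜ : Set ι) := by
    rw [Cardinal.mk_compl_of_infinite _ (h3 n)]
    refine (Order.succ_le_of_lt hlt).lt_of_ne fun he => ?_
    have := (Cardinal.isRegular_succ hl).cof_ord
    rw [he, hc] at this
    exact h.ne this
  choose x hxD hx1 hx2 hx3 using fun O a => hit2 IsInducing.subtypeVal hr hD (I n) O a a
  have hR := card_R hl (le_max_right ℵ₀ #(I n))
  obtain ⟨S, hSW, hS, hfree⟩ := free_set hl _ hW (fun c => ⋃ O, {i | (x O c).1 i ≠ false})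
    fun c => mk_iU_le hl hR _ fun O => (x O c).2.le_aleph0.trans hl
  obtain ⟨k⟩ : Nonempty ((Finset (I n) × Finset (I n)) ↪ S) :=
    Cardinal.le_def _ _ |>.1 (hR.trans hS.le)
  refine ⟨range fun O => x O (k O), ?_, ?_, fun E A => ⟨_, ⟨(E, A), rfl⟩, hx1 (E, A) _⟩⟩
  · rintro _ ⟨O, rfl⟩
    exact hxD _ _
  · refine discreteTopology_subtype_iff'.2 ?_
    rintro _ ⟨O, rfl⟩
    refine ⟨_, (isOpen_coord (k O).1 true).preimage continuous_subtype_val, ?_⟩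
    refine Subset.antisymm ?_ (singleton_subset_iff.2 ⟨hx2 _ _ (hSW (k O).2), O, rfl⟩)
    rintro _ ⟨hy, O', rfl⟩
    have : (k O).1 = (k O').1 := hfree _ (k O').2 _ (k O).2 (mem_iUnion.2 ⟨O', by
      have hy' : (x O' (k O')).1 (k O) = true := hy
      simp [hy']⟩)
    rw [k.injective (Subtype.ext this)]
    rfl

end Pool.Agent.H15.DSep
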