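import Pool.Agent.H15.DSep3
import Pool.Agent.H26.ErdosRado

/-! The Cantor cube of weight beth omega is D-separable and has no sigma-disjoint pi-base. -/

set_option autoImplicit false

namespace Pool.Agent.H15.DSep

open Set Cardinal TopologicalSpace Topology Filter

universe u

theorem end_homog2 {X C I : Type u} [LinearOrder I] [WellFoundedLT I]
    (hX : #(Σ i : I, (Iio i × Iio i → C)) < #X) (c : X → X → X → C) :
    ∃ (f : I → X) (x : X), Function.Injective f ∧
      ∀ j k i, j < i → k < i → c (f j) (f k) (f i) = c (f j) (f k) x := by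
  classical
  have hne : Nonempty X := by
    rw [← Cardinal.mk_ne_zero_iff]
    exact (lt_of_le_of_lt bot_le hX).ne'
  let pick : Set X → X := fun s => if h : s.Nonempty then h.choose else Classical.arbitrary X
  have hpick : ∀ s : Set X, s.Nonempty → pick s ∈ s := fun s h => by
    simp only [pick, dif_pos h]; exact h.choose_spec
  let a : X → I → X := fun x => (wellFounded_lt (α := I)).fix fun i ih =>
    pick {y | ∀ j (h : j < i), y ≠ ih j h ∧
      ∀ k (h' : k < i), c (ih j h) (ih k h') y = c (ih j h) (ih k h') x}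
  have ha : ∀ x i, a x i = pick {y | ∀ j, j < i → y ≠ a x j ∧
      ∀ k, k < i → c (a x j) (a x k) y = c (a x j) (a x k) x} :=
    fun x i => (wellFounded_lt (α := I)).fix_eq _ i
  by_cases hit : ∀ x, ∃ i, a x i = x
  · exfalso
    choose idx hidx using hit
    refine hX.not_ge (Cardinal.mk_le_of_injective (f := fun x =>
      (⟨idx x, fun j => c (a x j.1) (a x j.2) x⟩ : Σ i : I, (Iio i × Iio i → C))) ?_)
    intro x x' e
    have e1 : idx x = idx x' := congrArg Sigma.fst e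
    have e2 : ∀ j k, j < idx x → k < idx x →
        c (a x j) (a x k) x = c (a x' j) (a x' k) x' := by
      intro j k hj hk
      have key : ∀ (s t : Σ i : I, (Iio i × Iio i → C)), s = t →
          ∀ (h : j < s.1) (h' : j < t.1) (g : k < s.1) (g' : k < t.1),
          s.2 (⟨j, h⟩, ⟨k, g⟩) = t.2 (⟨j, h'⟩, ⟨k, g'⟩) := by
        rintro s t rfl h h' g g'; rfl
      exact key _ _ e hj (lt_of_lt_of_eq hj e1) hk (lt_of_lt_of_eq hk e1)
    have e3 : ∀ j, j ≤ idx x → a x j = a x' j := by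
      intro j
      induction j using WellFoundedLT.induction with
      | ind j ih =>
        intro hj
        rw [ha, ha]
        congr 1
        ext y
        simp only [mem_ofPred_eq]
        refine forall₂_congr fun l hl => and_congr (by rw [ih l hl (hl.le.trans hj)])
          (forall₂_congr fun k hk => ?_)
        rw [e2 l k (hl.trans_le hj) (hk.trans_le hj), ih l hl (hl.le.trans hj),
          ih k hk (hk.le.trans hj)]
    rw [← hidx x, ← hidx x', e3 _ le_rfl, e1]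
  · push Not at hit
    obtain ⟨x, hx⟩ := hit
    have key : ∀ i j, j < i → a x i ≠ a x j ∧
        ∀ k, k < i → c (a x j) (a x k) (a x i) = c (a x j) (a x k) x := by
      intro i
      have := hpick {y | ∀ j, j < i → y ≠ a x j ∧
          ∀ k, k < i → c (a x j) (a x k) y = c (a x j) (a x k) x}
        ⟨x, fun j _ => ⟨(hx j).symm, fun _ _ => rfl⟩⟩
      rw [← ha] at this
      exact this
    refine ⟨a x, x, fun i j e => ?_, fun j k i h h' => (key i j h).2 k h'⟩
    rcases lt_trichotomy i j with h | h | h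
    · exact ((key j i h).1 e.symm).elim
    · exact h
    · exact ((key i j h).1 e).elim

theorem transversal {J R : Type} {l : Cardinal.{0}} (hl : ℵ₀ ≤ l) (hR : #R ≤ l)
    (hJ : (2 : Cardinal.{0}) ^ ((2 : Cardinal.{0}) ^ ((2 : Cardinal.{0}) ^ l)) < #J) (x : R → J → J → J → Bool) :
    ∃ a b : R → J, (∀ O, a O ≠ b O) ∧
      ∀ O O', O ≠ O' → x O (a O) (b O) (a O') = x O (a O) (b O) (b O') := by
  classical
  have hL : ℵ₀ ≤ 2 ^ l := hl.trans (Cardinal.cantor l).le
  have hM : ℵ₀ ≤ (2 : Cardinal.{0}) ^ ((2 : Cardinal.{0}) ^ l) := hL.trans (Cardinal.cantor _).le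
  have hN : ℵ₀ ≤ (2 : Cardinal.{0}) ^ ((2 : Cardinal.{0}) ^ ((2 : Cardinal.{0}) ^ l)) := hM.trans (Cardinal.cantor _).le
  have hRB : #(R → Bool) ≤ 2 ^ l := by
    rw [← Cardinal.power_def, Cardinal.mk_bool]
    exact Cardinal.power_le_power_left two_ne_zero hR
  have hC1 : #((R → Bool) × (R → Bool)) ≤ 2 ^ l := by
    rw [Cardinal.mk_prod, Cardinal.lift_id]
    exact (mul_le_mul' hRB hRB).trans (Cardinal.mul_eq_self hL).le
  have hC2 : #((R → Bool) × Prop) ≤ 2 ^ l := by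
    rw [Cardinal.mk_prod, Cardinal.lift_id, Cardinal.lift_id]
    exact (mul_le_mul' hRB (Cardinal.mk_le_aleph0.trans hL)).trans (Cardinal.mul_eq_self hL).le
  have h1 : #(Σ i : (Order.succ ((2 : Cardinal.{0}) ^ ((2 : Cardinal.{0}) ^ l))).ord.ToType,
      (Iio i × Iio i → (R → Bool) × (R → Bool))) ≤ (2 : Cardinal.{0}) ^ ((2 : Cardinal.{0}) ^ ((2 : Cardinal.{0}) ^ l)) := by
    rw [Cardinal.mk_sigma]
    refine (Cardinal.sum_le_sum _ (fun _ => (2 : Cardinal.{0}) ^ ((2 : Cardinal.{0}) ^ ((2 : Cardinal.{0}) ^ l))) fun i => ?_).trans ?_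
    · rw [← Cardinal.power_def]
      have hi : #(Iio i) ≤ (2 : Cardinal.{0}) ^ ((2 : Cardinal.{0}) ^ l) := Order.lt_succ_iff.1 (mk_Iio_lt' i)
      have hi2 : #(Iio i × Iio i) ≤ (2 : Cardinal.{0}) ^ ((2 : Cardinal.{0}) ^ l) := by
        rw [Cardinal.mk_prod, Cardinal.lift_id]
        exact (mul_le_mul' hi hi).trans (Cardinal.mul_eq_self hM).le
      calc _ ≤ ((2 : Cardinal.{0}) ^ ((2 : Cardinal.{0}) ^ ((2 : Cardinal.{0}) ^ l))) ^ #(Iio i × Iio i) := Cardinal.power_le_power_right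
            (hC1.trans ((Cardinal.cantor _).le.trans (Cardinal.cantor _).le))
        _ ≤ ((2 : Cardinal.{0}) ^ ((2 : Cardinal.{0}) ^ ((2 : Cardinal.{0}) ^ l))) ^ ((2 : Cardinal.{0}) ^ ((2 : Cardinal.{0}) ^ l) : Cardinal) :=
            Cardinal.power_le_power_left (Cardinal.power_ne_zero _ two_ne_zero) hi2
        _ = (2 : Cardinal.{0}) ^ ((2 : Cardinal.{0}) ^ ((2 : Cardinal.{0}) ^ l)) := by rw [← Cardinal.power_mul, Cardinal.mul_eq_self hM]
    · rw [Cardinal.sum_const', Cardinal.mk_ord_toType]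
      exact (mul_le_mul_left (Order.succ_le_of_lt (Cardinal.cantor _)) _).trans
        (Cardinal.mul_eq_self hN).le
  obtain ⟨f, z, hf, hc⟩ := end_homog2 (h1.trans_lt hJ)
    fun u v w => ((fun O => x O u v w), fun O => x O v w u)
  obtain ⟨T, g, d, hT, hg, hd⟩ := H26.ErdosRado.erdos_rado
    (X := (Order.succ ((2 : Cardinal.{0}) ^ ((2 : Cardinal.{0}) ^ l))).ord.ToType) hL hC2
    (by rw [Cardinal.mk_ord_toType]; exact Order.lt_succ _)
    fun j k => ((fun O => x O (f k) z (f j)), j < k)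
  obtain ⟨_, _⟩ := exists_wellFoundedLT R
  obtain ⟨e⟩ : Nonempty (((· < ·) : R ×ₗ ℕ → R ×ₗ ℕ → Prop) ↪r ((· < ·) : T → T → Prop)) := by
    refine Ordinal.type_le_iff'.1 (not_lt.1 fun h => ?_)
    have h2 := Ordinal.card_le_card h.le
    rw [Ordinal.card_type, Ordinal.card_type] at h2
    have h3 : #(R ×ₗ ℕ) ≤ l := by
      change #(R × ℕ) ≤ l
      rw [Cardinal.mk_prod, Cardinal.lift_id, Cardinal.lift_id, Cardinal.mk_nat]
      exact (mul_le_mul' hR hl).trans (Cardinal.mul_eq_self hl).le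
    exact ((Cardinal.cantor l).trans (Order.lt_succ _)).not_ge (hT.trans (h2.trans h3))
  have hd' : ∀ p q : R ×ₗ ℕ, p < q →
      (fun O => x O (f (g (e q))) z (f (g (e p)))) = d.1 ∧ (g (e p) < g (e q)) = d.2 := by
    intro p q h
    have := hd _ (e p).2 (e q) (e.map_rel_iff.2 h)
    exact ⟨congrArg Prod.fst this, congrArg Prod.snd this⟩
  have hlt : ∀ (O : R) (m n : ℕ), m < n → toLex (O, m) < toLex (O, n) := fun O m n h =>
    Prod.Lex.toLex_lt_toLex.2 (Or.inr ⟨rfl, h⟩)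
  have hlt' : ∀ (O O' : R) (m n : ℕ), O < O' → toLex (O, m) < toLex (O', n) := fun O O' m n h =>
    Prod.Lex.toLex_lt_toLex.2 (Or.inl h)
  have hmono : ∀ p q : R ×ₗ ℕ, p < q → g (e p) < g (e q) := by
    intro p q h
    rw [(hd' p q h).2]
    by_contra hn
    obtain ⟨n, hn'⟩ := WellFounded.not_rel_apply_succ (r := (· < ·))
      fun n : ℕ => g (e (toLex ((ofLex p).1, n)))
    have h1 := hlt (ofLex p).1 n (n + 1) (Nat.lt_succ_self n)
    have h2 : ¬ _ := (hd' _ _ h1).2 ▸ hn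
    exact h1.ne (e.injective (Subtype.ext (hg (le_antisymm (not_lt.1 hn') (not_lt.1 h2)))))
  refine ⟨fun O => f (g (e (toLex (O, 0)))), fun O => f (g (e (toLex (O, 1)))),
    fun O h => (hmono _ _ (hlt O 0 1 one_pos)).ne (hf h), fun O O' hne => ?_⟩
  rcases hne.lt_or_gt with h | h
  · have a1 := congrFun (congrArg Prod.fst (hc _ _ _ (hmono _ _ (hlt' O O' 0 0 h))
      (hmono _ _ (hlt' O O' 1 0 h)))) O
    have a2 := congrFun (congrArg Prod.fst (hc _ _ _ (hmono _ _ (hlt' O O' 0 1 h))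
      (hmono _ _ (hlt' O O' 1 1 h)))) O
    exact a1.trans a2.symm
  · have a1 := congrFun (congrArg Prod.snd (hc _ _ _ (hmono _ _ (hlt' O' O 0 1 h))
      (hmono _ _ (hlt O 0 1 one_pos)))) O
    have a2 := congrFun (congrArg Prod.snd (hc _ _ _ (hmono _ _ (hlt' O' O 1 1 h))
      (hmono _ _ (hlt O 0 1 one_pos)))) O
    have a3 := congrFun (hd' _ _ (hlt' O' O 0 0 h)).1 O
    have a4 := congrFun (hd' _ _ (hlt' O' O 1 0 h)).1 O
    exact a1.trans (a3.trans (a4.symm.trans a2.symm))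

theorem cube_dsep {ι : Type} (hι : ℵ₀ ≤ #ι) (hc : (#ι).ord.cof = ℵ₀)
    (hs : ∀ l < #ι, 2 ^ l < #ι) : IsSelDSep (ι → Bool) := by
  classical
  rcases hι.eq_or_lt with h | h
  · have : Countable ι := Cardinal.mk_le_aleph0_iff.1 h.ge
    exact seldsep_of_secondCountable
  have hinf : Infinite ι := Cardinal.infinite_iff.2 hι
  obtain ⟨I, h1, h2, h3⟩ := blocks_of_cof hι hc
  have hr : ∀ G : Finset ι, ind G ∈ range (id : (ι → Bool) → ι → Bool) := fun G => ⟨_, rfl⟩
  refine seldsep_of_blocks IsInducing.id I h1 h2 fun n D hD => ?_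
  have hl : ℵ₀ ≤ max ℵ₀ #(I n) := le_max_left _ _
  have hlt : max ℵ₀ #(I n) < #ι := max_lt h (h3 n)
  have hW : 2 ^ ((2 : Cardinal.{0}) ^ ((2 : Cardinal.{0}) ^ (max ℵ₀ #(I n)))) < #((I n)ᶜ : Set ι) := by
    rw [Cardinal.mk_compl_of_infinite _ (h3 n)]
    exact hs _ (hs _ (hs _ hlt))
  choose x hxD hx1 hx2 hx3 using fun O a b => hit2 IsInducing.id hr hD (I n) O a b
  obtain ⟨a, b, hab, hx⟩ := transversal hl (card_R hl (le_max_right ℵ₀ #(I n))) hW
    fun O u v w => x O u v w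
  refine ⟨range fun O => x O (a O) (b O), ?_, ?_,
    fun E A => ⟨_, ⟨(E, A), rfl⟩, hx1 (E, A) _ _⟩⟩
  · rintro _ ⟨O, rfl⟩
    exact hxD _ _ _
  · refine discreteTopology_subtype_iff'.2 ?_
    rintro _ ⟨O, rfl⟩
    refine ⟨_, (isOpen_coord (a O).1 true).inter (isOpen_coord (b O).1 false), ?_⟩
    refine Subset.antisymm ?_ (singleton_subset_iff.2 ⟨⟨hx2 _ _ _ (a O).2,
      hx3 _ _ _ (b O).2 fun h => hab O (Subtype.ext h).symm⟩, O, rfl⟩)
    rintro _ ⟨⟨hy, hy'⟩, O', rfl⟩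
    by_cases hO : O' = O
    · rw [hO]; rfl
    · have h4 := hx O' O hO
      have h5 : x O' (a O') (b O') (a O) = true := hy
      have h6 : x O' (a O') (b O') (b O) = false := hy'
      exact Bool.noConfusion (h5.symm.trans (h4.trans h6))

theorem cube_no_pibase {ι : Type} (hι : ℵ₀ < #ι) (B : ℕ → Set (Set (ι → Bool)))
    (h1 : ∀ n, ∀ U ∈ B n, IsOpen U ∧ U.Nonempty) (h2 : ∀ n, (B n).PairwiseDisjoint id)
    (h3 : ∀ V : Set (ι → Bool), IsOpen V → V.Nonempty → ∃ n, ∃ U ∈ B n, U ⊆ V) : False := by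
  classical
  have hp : ∀ n, ∀ U ∈ B n, ∃ p : Finset ι × Finset ι, Disjoint p.1 p.2 ∧
      ∀ G : Finset ι, p.1 ⊆ G → Disjoint G p.2 → ind G ∈ U := by
    intro n U hU
    obtain ⟨y, hy⟩ := (h1 n U hU).2
    obtain ⟨I, hI⟩ := cyl_sub (h1 n U hU).1 hy
    refine ⟨(I.filter (y · = true), I.filter (y · = false)), Finset.disjoint_left.2 ?_,
      fun G a b => hI _ fun i hi => ?_⟩
    · intro z hz hz'
      exact Bool.noConfusion ((Finset.mem_filter.1 hz).2.symm.trans (Finset.mem_filter.1 hz').2)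
    · cases hy : y i
      · exact ind_false.2 fun h => Finset.disjoint_left.1 b h (Finset.mem_filter.2 ⟨hi, hy⟩)
      · exact ind_true.2 (a (Finset.mem_filter.2 ⟨hi, hy⟩))
  choose! p hp1 hp2 using hp
  have hc : ∀ n, (p n '' B n).Countable := by
    intro n
    obtain ⟨A, hA, hAc, hrep⟩ := rep_family (p n '' B n)
    refine hAc.mono ?_
    rintro _ ⟨U, hU, rfl⟩
    obtain ⟨q, hq, a1, a2⟩ := hrep _ ⟨U, hU, rfl⟩ _ _ (hp1 n U hU) (hp1 n U hU)
    obtain ⟨U', hU', rfl⟩ := hA hq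
    by_cases hUU : U = U'
    · exact hUU ▸ hq
    · exact (Set.disjoint_left.1 (h2 n hU hU' hUU)
        (hp2 n U hU (_ ∪ _) Finset.subset_union_left
          (Finset.disjoint_union_left.2 ⟨hp1 n U hU, a1⟩))
        (hp2 n U' hU' (_ ∪ _) Finset.subset_union_right
          (Finset.disjoint_union_left.2 ⟨a2, hp1 n U' hU'⟩))).elim
  have hM : (⋃ n, ⋃ q ∈ p n '' B n, (↑q.1 : Set ι)).Countable :=
    countable_iUnion fun n => (hc n).biUnion fun q _ => q.1.countable_toSet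
  obtain ⟨c, -, hcM⟩ := exists_notMem (W := Set.univ)
    (hM.le_aleph0.trans_lt (by rwa [Cardinal.mk_univ]))
  obtain ⟨n, U, hU, hUV⟩ := h3 _ (isOpen_coord c true) ⟨fun _ => true, rfl⟩
  exact hcM (mem_iUnion.2 ⟨n, mem_biUnion (mem_image_of_mem _ hU)
    (ind_true.1 (hUV (hp2 n U hU _ (Finset.Subset.refl _) (hp1 n U hU))))⟩)

theorem beth_cube : ∃ ι : Type, ℵ₀ < #ι ∧ IsSelDSep (ι → Bool) := by
  have h1 : ℵ₀ < ℶ_ Ordinal.omega0.{0} := by
    rw [← Cardinal.beth_zero]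
    exact Cardinal.beth_strictMono Ordinal.omega0_pos
  refine ⟨(ℶ_ Ordinal.omega0).out, by rwa [Cardinal.mk_out], cube_dsep ?_ ?_ ?_⟩
  · rw [Cardinal.mk_out]; exact h1.le
  · rw [Cardinal.mk_out, ← Ordinal.cof_omega0]
    exact Ordinal.cof_map_of_isNormal (Cardinal.isNormal_ord.comp Cardinal.isNormal_beth)
      Ordinal.isSuccLimit_omega0
  · rw [Cardinal.mk_out]
    exact fun l hl => (Cardinal.isStrongLimit_beth.2
      Ordinal.isSuccLimit_omega0.isSuccPrelimit).isStrongPrelimit hl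

end Pool.Agent.H15.DSep
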