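import Pool.Agent.H15.DSep3

/-! Splitting the cofinality omega points of the successor of the continuum; a game lemma. -/

set_option autoImplicit false

namespace Pool.Agent.H15.DSep

open Set Cardinal

/-- the successor of the continuum, as a well order -/
abbrev W : Type := (Order.succ 𝔠).ord.ToType

theorem bdd {β : Type} (hβ : #β ≤ 𝔠) (f : β → W) : ∃ b, ∀ x, f x < b := by
  have : ¬ IsCofinal (range f) := fun h => by
    have h1 := Order.cof_le h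
    rw [Ordinal.cof_toType, (Cardinal.isRegular_succ aleph0_le_continuum).cof_ord] at h1
    exact (Order.lt_succ 𝔠).not_ge (h1.trans (Cardinal.mk_range_le.trans hβ))
  obtain ⟨a, ha⟩ := not_isCofinal_iff.1 this
  exact ⟨a, fun x => ha _ ⟨x, rfl⟩⟩

theorem mk_Iic_W (a : W) : #(Iic a) ≤ 𝔠 := by
  have := Cardinal.mk_Iic_lt a (by simp) (by
    rw [Cardinal.mk_ord_toType]; exact aleph0_le_continuum.trans (Order.le_succ _))
  rwa [Cardinal.mk_ord_toType, Order.lt_succ_iff] at this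

theorem exists_gt_W (a : W) : ∃ b, a < b := by
  obtain ⟨b, hb⟩ := bdd (β := Unit) (mk_le_aleph0.trans aleph0_le_continuum) fun _ => a
  exact ⟨b, hb ()⟩

instance : Nonempty W := by
  obtain ⟨b, -⟩ := bdd (β := Empty) (by simp) fun x => x.elim
  exact ⟨b⟩

def Lim (δ : W) : Prop := ∃ γ : ℕ → W, (∀ n, γ n < δ) ∧ ∀ α < δ, ∃ n, α < γ n

def Stat (A : Set W) : Prop := ∀ g : W → W, ∃ δ ∈ A, Lim δ ∧ ∀ α < δ, g α < δ

theorem exists_lub (γ : ℕ → W) : ∃ δ, (∀ n, γ n < δ) ∧ ∀ α < δ, ∃ n, α ≤ γ n := by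
  obtain ⟨δ, hδ, hmin⟩ := (wellFounded_lt (α := W)).has_min {b | ∀ n, γ n < b}
    (bdd (by simp [aleph0_le_continuum]) γ)
  refine ⟨δ, hδ, fun α hα => ?_⟩
  by_contra hc
  push Not at hc
  exact hmin α hc hα

theorem stat_univ : Stat Set.univ := by
  intro g
  have : ∀ a : W, ∃ b, a < b ∧ ∀ α ≤ a, g α < b := by
    intro a
    obtain ⟨b, hb⟩ := bdd (mk_Iic_W a) fun x => max a (g x)
    exact ⟨b, (le_max_left _ _).trans_lt (hb ⟨a, mem_Iic.2 le_rfl⟩),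
      fun α hα => (le_max_right _ _).trans_lt (hb ⟨α, hα⟩)⟩
  choose s h1 h2 using this
  obtain ⟨δ, a1, a2⟩ := exists_lub fun n => s^[n] (Classical.arbitrary W)
  refine ⟨δ, trivial, ⟨_, a1, fun α hα => ?_⟩, fun α hα => ?_⟩
  · obtain ⟨n, hn⟩ := a2 α hα
    exact ⟨n + 1, by rw [Function.iterate_succ_apply']; exact hn.trans_lt (h1 _)⟩
  · obtain ⟨n, hn⟩ := a2 α hα
    refine (h2 _ α hn).trans ?_
    have := a1 (n + 1)
    rwa [Function.iterate_succ_apply'] at this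

theorem fodor {A : Set W} (hA : Stat A) (h : W → W) (hh : ∀ δ ∈ A, Lim δ → h δ < δ) :
    ∃ ζ, Stat {δ ∈ A | h δ = ζ} := by
  by_contra hc
  simp only [Stat, not_exists, not_forall] at hc
  choose g hg using hc
  have : ∀ β : W, ∃ b, ∀ x : Iic β × Iic β, g x.1 x.2 < b := fun β => bdd (by
    rw [Cardinal.mk_prod, Cardinal.lift_id]
    exact (mul_le_mul' (mk_Iic_W β) (mk_Iic_W β)).trans
      (Cardinal.mul_eq_self aleph0_le_continuum).le) _
  choose G hG using this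
  obtain ⟨δ, h1, h2, h3⟩ := hA G
  refine hg (h δ) δ ⟨⟨h1, rfl⟩, h2, fun α hα => ?_⟩
  exact (hG (max α (h δ)) (⟨h δ, mem_Iic.2 (le_max_right _ _)⟩, ⟨α, mem_Iic.2 (le_max_left _ _)⟩)).trans
    (h3 _ (max_lt hα (hh δ h1 h2)))

theorem split {T : Type} (hT : #T ≤ 𝔠) [Nonempty T] :
    ∃ φ : W → T, ∀ t, Stat {δ | φ δ = t} := by
  have ha : ∀ δ : W, ∃ γ : ℕ → W, Lim δ → (∀ n, γ n < δ) ∧ ∀ α < δ, ∃ n, α < γ n := by
    intro δ
    by_cases h : Lim δ
    · obtain ⟨γ, hγ⟩ := h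
      exact ⟨γ, fun _ => hγ⟩
    · exact ⟨fun _ => δ, fun h' => (h h').elim⟩
  choose a ha using ha
  have h1 : ∃ n, ∀ η, Stat {δ | η ≤ a δ n} := by
    by_contra hc
    simp only [Stat, not_exists, not_forall] at hc
    choose η g hg using hc
    obtain ⟨ζ, hζ⟩ := bdd (by simp [aleph0_le_continuum]) η
    choose G hG using fun α : W => bdd (β := ℕ) (by simp [aleph0_le_continuum])
      fun n => max ζ (g n α)
    obtain ⟨δ, -, h2, h3⟩ := stat_univ G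
    have h4 : ζ < δ := ((le_max_left _ _).trans_lt (hG _ 0)).trans (h3 _ ((ha δ h2).1 0))
    obtain ⟨n, hn⟩ := (ha δ h2).2 ζ h4
    exact hg n δ ⟨((hζ n).trans hn).le, h2,
      fun α hα => ((le_max_right _ _).trans_lt (hG α n)).trans (h3 α hα)⟩
  obtain ⟨n, hn⟩ := h1
  have h2 : ∀ η, ∃ ζ, η ≤ ζ ∧ Stat {δ | a δ n = ζ} := by
    intro η
    obtain ⟨ζ, hζ⟩ := fodor (hn η) (fun δ => a δ n) fun δ _ h => (ha δ h).1 n
    obtain ⟨δ, ⟨h3, h4⟩, -⟩ := hζ id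
    refine ⟨ζ, h4 ▸ h3, fun g => ?_⟩
    obtain ⟨δ, h5, h6⟩ := hζ g
    exact ⟨δ, h5.2, h6⟩
  have h3 : 𝔠 ≤ #{ζ | Stat {δ | a δ n = ζ}} := by
    by_contra hc
    obtain ⟨b, hb⟩ := bdd (not_le.1 hc).le Subtype.val
    obtain ⟨ζ, h4, h5⟩ := h2 b
    exact (hb ⟨ζ, h5⟩).not_ge h4
  obtain ⟨j⟩ := (Cardinal.le_def _ _).1 (hT.trans h3)
  have hj : Function.Injective fun t => (j t).1 := Subtype.val_injective.comp j.injective
  refine ⟨fun δ => Function.invFun (fun t => (j t).1) (a δ n), fun t g => ?_⟩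
  obtain ⟨δ, h4, h5⟩ := (j t).2 g
  refine ⟨δ, ?_, h5⟩
  have h4' : a δ n = (j t).1 := h4
  simp only [mem_ofPred_eq, h4']
  exact Function.leftInverse_invFun hj t

inductive Lose {P : Type} (V : ℕ → P → P → Prop) (ht : P → W) : Ordinal.{0} → ℕ → P → Prop
  | mk (α : Ordinal.{0}) (n : ℕ) (p : P) (γ : W) (rk : P → Ordinal.{0})
    (h1 : ∀ q, V n p q → γ < ht q → rk q < α)
    (h2 : ∀ q, V n p q → γ < ht q → Lose V ht (rk q) (n + 1) q) : Lose V ht α n p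

theorem game {P : Type} (V : ℕ → P → P → Prop) (ht : P → W) (p0 : P) :
    (∃ S : ℕ → Set P, p0 ∈ S 0 ∧ ∀ n, ∀ p ∈ S n, ∀ γ, ∃ q, V n p q ∧ γ < ht q ∧ q ∈ S (n + 1)) ∨
    ∃ σ : ℕ → P → W, ∀ q : ℕ → P, q 0 = p0 →
      ¬ ∀ n, V n (q n) (q (n + 1)) ∧ σ n (q n) < ht (q (n + 1)) := by
  classical
  by_cases h : ∃ α, Lose V ht α 0 p0
  · right
    have hs : ∀ n p, ∃ (α : Ordinal.{0}) (γ : W), (∃ β, Lose V ht β n p) →
        (∀ β, Lose V ht β n p → α ≤ β) ∧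
        ∀ q, V n p q → γ < ht q → ∃ β < α, Lose V ht β (n + 1) q := by
      intro n p
      by_cases hp : ∃ β, Lose V ht β n p
      · obtain ⟨α, hα, hmin⟩ := (wellFounded_lt (α := Ordinal.{0})).has_min _ hp
        obtain ⟨_, _, _, γ, rk, h1, h2⟩ := hα
        exact ⟨α, γ, fun _ => ⟨fun β hβ => not_lt.1 (hmin β hβ),
          fun q a b => ⟨_, h1 q a b, h2 q a b⟩⟩⟩
      · exact ⟨0, ht p, fun h' => (hp h').elim⟩
    choose r σ hs using hs
    refine ⟨σ, fun q h0 hq => ?_⟩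
    have h1 : ∀ n, ∃ β, Lose V ht β n (q n) := by
      intro n
      induction n with
      | zero => exact h0 ▸ h
      | succ n ih =>
        obtain ⟨β, -, hβ⟩ := (hs n _ ih).2 _ (hq n).1 (hq n).2
        exact ⟨β, hβ⟩
    obtain ⟨n, hn⟩ := WellFounded.not_rel_apply_succ (r := (· < ·)) fun n => r n (q n)
    obtain ⟨β, hβ, hβ'⟩ := (hs n _ (h1 n)).2 _ (hq n).1 (hq n).2
    exact hn (((hs _ _ (h1 (n + 1))).1 β hβ').trans_lt hβ)
  · left
    refine ⟨fun n => {p | ¬ ∃ α, Lose V ht α n p}, h, fun n p hp γ => ?_⟩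
    by_contra hc
    have : ∀ q, ∃ β, V n p q → γ < ht q → Lose V ht β (n + 1) q := by
      intro q
      by_cases hq : ∃ β, Lose V ht β (n + 1) q
      · obtain ⟨β, hβ⟩ := hq
        exact ⟨β, fun _ _ => hβ⟩
      · exact ⟨0, fun a b => (hc ⟨q, a, b, hq⟩).elim⟩
    choose rk hrk using this
    exact hp ⟨⨆ q, (rk q + 1), Lose.mk _ n p γ rk
      (fun q _ _ => (lt_add_one _).trans_le (Ordinal.le_iSup (fun q => rk q + 1) q)) hrk⟩

end Pool.Agent.H15.DSep
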