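import Pool.Agent.H15.DSep5

/-! A Baire tree in the style of Fleissner and Kunen. -/

set_option autoImplicit false

namespace Pool.Agent.H15.DSep

open Set Cardinal

abbrev Lab : Type := ℝ × Bool

theorem mk_ctble : #{s : Set Lab // s.Countable} ≤ 𝔠 := by
  have h := Cardinal.mk_bounded_set_le Lab ℵ₀
  have h1 : #Lab = 𝔠 := by simp [Cardinal.mk_real]
  rw [h1, max_eq_left aleph0_le_continuum, continuum_power_aleph0] at h
  refine le_trans (le_of_eq ?_) h
  exact Cardinal.mk_congr (Equiv.subtypeEquivRight fun s => Cardinal.le_aleph0_iff_set_countable.symm)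

theorem exists_phi : ∃ φ : W → Set Lab, ∀ s : Set Lab, s.Countable → Stat {δ | φ δ = s} := by
  have : Nonempty {s : Set Lab // s.Countable} := ⟨⟨∅, countable_empty⟩⟩
  obtain ⟨φ, h⟩ := split mk_ctble
  refine ⟨fun δ => (φ δ).1, fun s hs g => ?_⟩
  obtain ⟨δ, h1, h2⟩ := h ⟨s, hs⟩ g
  exact ⟨δ, congrArg Subtype.val h1, h2⟩

noncomputable def phi : W → Set Lab := exists_phi.choose

theorem phi_stat {s : Set Lab} (hs : s.Countable) : Stat {δ | phi δ = s} :=
  exists_phi.choose_spec s hs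

def LimPt (f : W → Option Lab) (δ : W) : Prop :=
  (∃ α, α < δ) ∧ ∀ α < δ, ∃ β, α < β ∧ β < δ ∧ f β ≠ none

@[ext] structure Node where
  b : W
  f : W → Option Lab
  hb : ∀ α, b ≤ α → f α = none
  cnt : {α | f α ≠ none}.Countable
  cons : ∀ α β r, f α = some (r, true) → f β ≠ some (r, false)
  lim : ∀ δ ≤ b, LimPt f δ → phi δ = {l | ∃ β < δ, f β = some l}

instance : PartialOrder Node where
  le p q := p.b ≤ q.b ∧ ∀ α < p.b, q.f α = p.f α
  le_refl _ := ⟨le_rfl, fun _ _ => rfl⟩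
  le_trans _ _ _ h h' := ⟨h.1.trans h'.1, fun α hα => (h'.2 α (hα.trans_le h.1)).trans (h.2 α hα)⟩
  le_antisymm p q h h' := by
    have hb := h.1.antisymm h'.1
    refine Node.ext hb (funext fun α => ?_)
    rcases lt_or_ge α p.b with hα | hα
    · exact (h.2 α hα).symm
    · rw [p.hb α hα, q.hb α (hb ▸ hα)]

namespace Node

theorem le_def {p q : Node} : p ≤ q ↔ p.b ≤ q.b ∧ ∀ α < p.b, q.f α = p.f α := Iff.rfl

theorem le_of_common {p q y : Node} (h : p ≤ y) (h' : q ≤ y) (hb : p.b ≤ q.b) : p ≤ q :=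
  ⟨hb, fun α hα => (h'.2 α (hα.trans_le hb)).symm.trans (h.2 α hα)⟩

theorem lt_b {p : Node} {α : W} (h : p.f α ≠ none) : α < p.b :=
  not_le.1 fun h' => h (p.hb α h')

theorem f_mono {p q : Node} (h : p ≤ q) {α : W} (hα : p.f α ≠ none) : q.f α = p.f α :=
  h.2 α (lt_b hα)

theorem some_mono {p q : Node} (h : p ≤ q) {α : W} {l : Lab} (hα : p.f α = some l) :
    q.f α = some l :=
  (f_mono h (by simp [hα])).trans hα

def lab (p : Node) : Set Lab := {l | ∃ β, p.f β = some l}

theorem lab_countable (p : Node) : p.lab.Countable := by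
  refine ((p.cnt.image p.f).preimage (Option.some_injective _)).mono ?_
  rintro l ⟨β, h⟩
  exact ⟨β, by simp [h], h⟩

noncomputable def root : Node where
  b := Classical.arbitrary W
  f _ := none
  hb _ _ := rfl
  cnt := by simp
  cons _ _ _ h := by simp at h
  lim δ _ h := by
    obtain ⟨⟨α, hα⟩, h⟩ := h
    obtain ⟨β, -, -, h⟩ := h α hα
    exact (h rfl).elim

theorem extend (p : Node) (o : Option Lab) (b' : W) (hb : p.b < b')
    (ho : ∀ l, o = some l → (l.1, !l.2) ∉ p.lab) : ∃ q : Node, p ≤ q ∧ q.b = b' ∧ q.f p.b = o ∧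
      ∀ α, α ≠ p.b → q.f α = p.f α := by
  classical
  have hne : ∀ α, α ≠ p.b → Function.update p.f p.b o α = p.f α :=
    fun α h => Function.update_of_ne h _ _
  refine ⟨⟨b', Function.update p.f p.b o, fun α h => ?_, ?_, fun α β r h h' => ?_,
    fun δ _ h => ?_⟩, ⟨hb.le, fun α h => hne α h.ne⟩, rfl, Function.update_self .., hne⟩
  · rw [hne α (hb.trans_le h).ne', p.hb α (hb.le.trans h)]
  · refine (p.cnt.insert p.b).mono fun α h => ?_
    by_cases e : α = p.b
    · exact Or.inl e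
    · exact Or.inr (by rwa [mem_ofPred_eq, hne α e] at h)
  · by_cases e : α = p.b
    · by_cases e' : β = p.b
      · rw [e'] at h'; rw [e, h'] at h; simp at h
      · rw [e, Function.update_self] at h
        rw [hne β e'] at h'
        exact ho _ h ⟨β, h'⟩
    · by_cases e' : β = p.b
      · rw [e', Function.update_self] at h'
        rw [hne α e] at h
        exact ho _ h' ⟨α, h⟩
      · rw [hne α e] at h
        rw [hne β e'] at h'
        exact p.cons α β r h h'
  · have hδ : δ ≤ p.b := by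
      by_contra hc
      obtain ⟨β, h1, -, h2⟩ := h.2 p.b (not_le.1 hc)
      rw [hne β h1.ne'] at h2
      exact h2 (p.hb β h1.le)
    rw [p.lim δ hδ ⟨h.1, fun α hα => ?_⟩]
    · ext l
      exact exists_congr fun β => and_congr_right fun hβ => by rw [hne β (hβ.trans_le hδ).ne]
    · obtain ⟨β, h1, h2, h3⟩ := h.2 α hα
      exact ⟨β, h1, h2, by rwa [hne β (h2.trans_le hδ).ne] at h3⟩

theorem extend0 (p : Node) (γ : W) : ∃ q : Node, p ≤ q ∧ γ < q.b := by
  obtain ⟨b', hb⟩ := exists_gt_W (max p.b γ)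
  obtain ⟨q, h1, h2, -⟩ := p.extend none b' ((le_max_left _ _).trans_lt hb) (by simp)
  exact ⟨q, h1, h2 ▸ (le_max_right _ _).trans_lt hb⟩

theorem limit (p : ℕ → Node) (hm : Monotone p) (δ : W) (h1 : ∀ n, (p n).b < δ)
    (h2 : ∀ α < δ, ∃ n, α < (p n).b) (h3 : phi δ = ⋃ n, (p n).lab) : ∃ q, ∀ n, p n ≤ q := by
  classical
  choose! m hm' using h2
  let f : W → Option Lab := fun α => if α < δ then (p (m α)).f α else none
  have hf : ∀ n α, α < (p n).b → f α = (p n).f α := by
    intro n α h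
    have hα := h.trans (h1 n)
    simp only [f, if_pos hα]
    rcases le_total n (m α) with e | e
    · exact (hm e).2 α h
    · exact ((hm e).2 α (hm' α hα)).symm
  have hlt : ∀ α, f α ≠ none → α < δ := fun α h => by
    by_contra hc
    exact h (if_neg hc)
  have hs : ∀ α l, f α = some l → ∀ n, m α ≤ n → (p n).f α = some l := fun α l h n hn => by
    rw [← h, hf n α ((hm' α (hlt α (by simp [h]))).trans_le (hm hn).1)]
  refine ⟨⟨δ, f, fun α h => if_neg h.not_gt, ?_, fun α β r h h' => ?_, fun δ' hδ h => ?_⟩,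
    fun n => ⟨(h1 n).le, hf n⟩⟩
  · refine (countable_iUnion fun n => (p n).cnt).mono fun α h => mem_iUnion.2 ⟨m α, ?_⟩
    rwa [mem_ofPred_eq, hf _ α (hm' α (hlt α h))] at h
  · exact (p (max (m α) (m β))).cons α β r (hs _ _ h _ (le_max_left _ _))
      (hs _ _ h' _ (le_max_right _ _))
  · rcases hδ.eq_or_lt with rfl | hδ
    · rw [h3]
      ext l
      simp only [mem_iUnion, mem_ofPred_eq]
      constructor
      · rintro ⟨n, β, hβ⟩
        have := lt_b (p := p n) (α := β) (by simp [hβ])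
        exact ⟨β, this.trans (h1 n), (hf n β this).trans hβ⟩
      · rintro ⟨β, -, hβ⟩
        exact ⟨m β, β, hs _ _ hβ _ le_rfl⟩
    · have hb := hm' δ' hδ
      rw [(p (m δ')).lim δ' hb.le ⟨h.1, fun α hα => ?_⟩]
      · ext l
        exact exists_congr fun β => and_congr_right fun hβ => by rw [hf _ β (hβ.trans hb)]
      · obtain ⟨β, a1, a2, a3⟩ := h.2 α hα
        exact ⟨β, a1, a2, by rwa [hf _ β (a2.trans hb)] at a3⟩

theorem baire (D : ℕ → Set Node) (hD : ∀ n p, ∃ q ∈ D n, p ≤ q)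
    (hU : ∀ n, ∀ p ∈ D n, ∀ q, p ≤ q → q ∈ D n) : ∃ q, ∀ n, q ∈ D n := by
  classical
  let V : (ℕ → {s : Set Lab // s.Countable}) → ℕ → Node → Node → Prop :=
    fun t n p q => p ≤ q ∧ q ∈ D n ∧ q.lab = t n
  have hT : #(ℕ → {s : Set Lab // s.Countable}) ≤ 𝔠 := by
    rw [← Cardinal.power_def, Cardinal.mk_nat]
    exact (Cardinal.power_le_power_right mk_ctble).trans continuum_power_aleph0.le
  have hwin : ∃ t, ∃ S : ℕ → Set Node, root ∈ S 0 ∧
      ∀ n, ∀ p ∈ S n, ∀ γ, ∃ q, V t n p q ∧ γ < q.b ∧ q ∈ S (n + 1) := by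
    by_contra hc
    choose σ hσ using fun t => (game (V t) Node.b root).resolve_left fun h => hc ⟨t, h⟩
    have hstep : ∀ n p, ∃ q ∈ D n, p ≤ q ∧ ∀ t, σ t n p < q.b := by
      intro n p
      obtain ⟨γ, hγ⟩ := bdd hT fun t => σ t n p
      obtain ⟨q, h1, h2⟩ := p.extend0 γ
      obtain ⟨q', h3, h4⟩ := hD n q
      exact ⟨q', h3, h1.trans h4, fun t => (hγ t).trans (h2.trans_le h4.1)⟩
    choose s h1 h2 h3 using hstep
    let q : ℕ → Node := fun n => Nat.rec root s n
    exact hσ (fun n => ⟨_, (q (n + 1)).lab_countable⟩) q rfl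
      fun n => ⟨⟨h2 _ _, h1 _ _, rfl⟩, h3 _ _ _⟩
  obtain ⟨t, S, h0, hS⟩ := hwin
  choose! ρ hρ1 hρ2 hρ3 using hS
  let pl : (ℕ → W) → ℕ → Node := fun γ n => Nat.rec root (fun n p => ρ n p (γ n)) n
  have hpl : ∀ γ n, pl γ n ∈ S n := by
    intro γ n
    induction n with
    | zero => exact h0
    | succ n ih => exact hρ3 n _ ih _
  have hdep : ∀ γ γ' n, (∀ k < n, γ k = γ' k) → pl γ n = pl γ' n := by
    intro γ γ' n
    induction n with
    | zero => exact fun _ => rfl
    | succ n ih =>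
      intro h
      change ρ n (pl γ n) (γ n) = ρ n (pl γ' n) (γ' n)
      rw [ih fun k hk => h k (hk.trans (Nat.lt_succ_self n)), h n (Nat.lt_succ_self n)]
  have hg : ∀ α : W, ∃ b, ∀ x : ℕ × (ℕ → Iic α), (pl (fun k => x.2 k) x.1).b < b := by
    refine fun α => bdd ?_ _
    rw [Cardinal.mk_prod, Cardinal.lift_id, Cardinal.lift_id, ← Cardinal.power_def,
      Cardinal.mk_nat]
    exact (mul_le_mul' aleph0_le_continuum ((Cardinal.power_le_power_right (mk_Iic_W α)).trans
      continuum_power_aleph0.le)).trans (Cardinal.mul_eq_self aleph0_le_continuum).le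
  choose g hg using hg
  obtain ⟨δ, h1, ⟨γ, h2, h3⟩, h4⟩ := phi_stat (countable_iUnion fun n => (t n).2) g
  have hm : Monotone (pl γ) := monotone_nat_of_le_succ fun n => (hρ1 n _ (hpl γ n) _).1
  obtain ⟨q, hq⟩ := limit (fun n => pl γ (n + 1)) (fun a b h => hm (Nat.succ_le_succ h)) δ
    (fun n => by
      have hα : partialSups γ n < δ := by
        obtain ⟨k, -, hk⟩ := exists_partialSups_eq γ n
        exact hk ▸ h2 k
      have := hg (partialSups γ n) (n + 1, fun k => ⟨min (γ k) (partialSups γ n),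
        mem_Iic.2 (min_le_right _ _)⟩)
      rw [hdep γ (fun k => min (γ k) (partialSups γ n)) (n + 1) fun k hk =>
        (min_eq_left (le_partialSups_of_le γ (Nat.lt_succ_iff.1 hk))).symm]
      exact this.trans (h4 _ hα))
    (fun α hα => by
      obtain ⟨n, hn⟩ := h3 α hα
      exact ⟨n, hn.trans (hρ2 n _ (hpl γ n) _)⟩)
    (h1.trans (iUnion_congr fun n => (hρ1 n _ (hpl γ n) _).2.2.symm))
  exact ⟨q, fun n => hU n _ (hρ1 n _ (hpl γ n) _).2.1 q (hq n)⟩

theorem fresh_label (S : Set Lab) (hS : S.Countable) : ∃ r : ℝ, ∀ c, (r, c) ∉ S := by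
  obtain ⟨r, -, hr⟩ := exists_notMem (W := Set.univ) ((hS.image Prod.fst).le_aleph0.trans_lt
    (by rw [Cardinal.mk_univ, Cardinal.mk_real]; exact aleph0_lt_continuum))
  exact ⟨r, fun c h => hr ⟨_, h, rfl⟩⟩

end Node

end Pool.Agent.H15.DSep
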