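import Pool.Agent.H15.DSep6

/-! A Tychonoff space that is not d-separable and has a D-separable square. -/

set_option autoImplicit false

namespace Pool.Agent.H15.DSep

open Set Cardinal Topology

theorem seldsep_of_pibase {X ι : Type*} [TopologicalSpace X] (C : ℕ → Set ι) (B : ι → Set X)
    (h1 : ∀ i, IsOpen (B i) ∧ (B i).Nonempty)
    (h2 : ∀ n, ∀ i ∈ C n, ∀ j ∈ C n, (B i ∩ B j).Nonempty → i = j)
    (h3 : ∀ V : Set X, IsOpen V → V.Nonempty → ∃ n, ∃ i ∈ C n, B i ⊆ V) : IsSelDSep X := by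
  intro D hD
  choose x hx using fun n i => dense_iff_inter_open.1 (hD n) _ (h1 i).1 (h1 i).2
  refine ⟨fun n => x n '' C n, fun n => ⟨?_, ?_⟩, dense_iff_inter_open.2 fun V hV hne => ?_⟩
  · rintro _ ⟨i, -, rfl⟩
    exact (hx n i).2
  · refine discreteTopology_subtype_iff'.2 ?_
    rintro _ ⟨i, hi, rfl⟩
    refine ⟨B i, (h1 i).1, Subset.antisymm ?_ (singleton_subset_iff.2 ⟨(hx n i).1, i, hi, rfl⟩)⟩
    rintro _ ⟨hy, j, hj, rfl⟩
    rw [h2 n i hi j hj ⟨_, hy, (hx n j).1⟩]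
    rfl
  · obtain ⟨n, i, hi, h⟩ := h3 V hV hne
    exact ⟨x n i, h (hx n i).1, mem_iUnion.2 ⟨n, i, hi, rfl⟩⟩

namespace Node

open Classical in
noncomputable def emb (q : Node) : Node → Bool := fun p => decide (p ≤ q)

noncomputable instance : TopologicalSpace Node := .induced emb inferInstance

theorem emb_emb : IsEmbedding emb := by
  refine ⟨⟨rfl⟩, fun p q h => ?_⟩
  have h1 := congrFun h p
  have h2 := congrFun h q
  simp only [emb, le_refl, decide_true, true_eq_decide_iff, decide_eq_true_eq] at h1 h2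
  exact le_antisymm h1 h2

instance : T35Space Node := emb_emb.t35Space

theorem isOpen_cone (p : Node) : IsOpen (Ici p) := by
  refine isOpen_induced_iff.2 ⟨_, isOpen_coord p true, ?_⟩
  ext q
  simp [emb]

theorem cone_sub {O : Set Node} (hO : IsOpen O) {q : Node} (hq : q ∈ O) : ∃ q', Ici q' ⊆ O := by
  obtain ⟨O', hO', rfl⟩ := isOpen_induced_iff.1 hO
  obtain ⟨I, hI⟩ := cyl_sub hO' hq
  obtain ⟨r, hr⟩ := fresh_label (q.lab ∪ ⋃ p ∈ I, p.lab)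
    (q.lab_countable.union (I.countable_toSet.biUnion fun p _ => p.lab_countable))
  obtain ⟨b', hb⟩ := exists_gt_W q.b
  obtain ⟨q', h1, h2, h3, -⟩ := q.extend (some (r, true)) b' hb (by
    rintro _ ⟨rfl⟩ h
    exact hr _ (Or.inl h))
  refine ⟨q', fun y hy => hI _ fun p hp => ?_⟩
  simp only [emb, decide_eq_decide]
  refine ⟨fun h => ?_, fun h => h.trans (h1.trans hy)⟩
  rcases le_or_gt p.b q.b with e | e
  · exact le_of_common h (h1.trans hy) e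
  · exact (hr true (Or.inr (mem_biUnion hp ⟨q.b, (h.2 _ e).symm.trans (some_mono hy h3)⟩))).elim

theorem not_dsep : ¬ IsDSep Node := by
  rintro ⟨E, hE, hd⟩
  obtain ⟨q, hq⟩ := baire (fun n => {q | ∀ y ∈ E n, ¬ q ≤ y}) (by
    intro n p
    by_cases h : ∀ y ∈ E n, ¬ p ≤ y
    · exact ⟨p, h, le_rfl⟩
    push Not at h
    obtain ⟨x, hx, hpx⟩ := h
    obtain ⟨O, hO, he⟩ := discreteTopology_subtype_iff'.1 (hE n) x hx
    obtain ⟨q, hq⟩ := cone_sub (hO.inter (isOpen_cone p)) ⟨(he.symm.subset rfl).1, hpx⟩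
    obtain ⟨b', hb⟩ := exists_gt_W q.b
    have : ∃ q', q ≤ q' ∧ ¬ q' ≤ x := by
      by_cases h : x.f q.b = none
      · obtain ⟨r, hr⟩ := fresh_label _ q.lab_countable
        obtain ⟨q', h1, -, h3, -⟩ := q.extend (some (r, true)) b' hb (by
          rintro _ ⟨rfl⟩ h
          exact hr _ h)
        exact ⟨q', h1, fun h' => by simpa [h] using some_mono h' h3⟩
      · obtain ⟨q', h1, h2, h3, -⟩ := q.extend none b' hb (by simp)
        exact ⟨q', h1, fun h' => h ((h'.2 _ (h2 ▸ hb)).trans h3)⟩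
    obtain ⟨q', h1, h2⟩ := this
    refine ⟨q', fun y hy h => h2 ?_, (hq (mem_Ici.2 h1)).2⟩
    have : y = x := he.subset ⟨(hq (mem_Ici.2 (h1.trans h))).1, hy⟩
    exact this ▸ h) fun n p hp q h y hy h' => hp y hy (h.trans h')
  obtain ⟨y, h1, h2⟩ := dense_iff_inter_open.1 hd _ (isOpen_cone q) ⟨q, mem_Ici.2 le_rfl⟩
  obtain ⟨n, hn⟩ := mem_iUnion.1 h2
  exact hq n y hn h1

def Alt (p q : Node) : ℕ → W → Prop
  | 0, _ => True
  | k + 1, α => ∃ a c, p.f a ≠ none ∧ q.f c ≠ none ∧ α < a ∧ α < c ∧ Alt p q k (max a c)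

theorem Alt.mono {p q p' q' : Node} (hp : p ≤ p') (hq : q ≤ q') :
    ∀ (k : ℕ) {α α' : W}, α' ≤ α → Alt p q k α → Alt p' q' k α'
  | 0, _, _, _, _ => trivial
  | k + 1, _, _, h, ⟨a, c, h1, h2, h3, h4, h5⟩ =>
    ⟨a, c, by rwa [f_mono hp h1], by rwa [f_mono hq h2], h.trans_lt h3, h.trans_lt h4,
      Alt.mono hp hq k le_rfl h5⟩

def Sep (p q : Node) (α : W) : Prop :=
  ∃ r a c, a ≤ α ∧ c ≤ α ∧ p.f a = some (r, true) ∧ q.f c = some (r, false)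

def EE (k : ℕ) (p q : Node) : Prop := ∃ α, Sep p q α ∧ Alt p q k α

theorem EE.mono {k : ℕ} {p q p' q' : Node} (hp : p ≤ p') (hq : q ≤ q') : EE k p q → EE k p' q'
  | ⟨α, ⟨r, a, c, h1, h2, h3, h4⟩, h⟩ =>
    ⟨α, ⟨r, a, c, h1, h2, some_mono hp h3, some_mono hq h4⟩, h.mono hp hq k le_rfl⟩

theorem not_all (p q : Node) : ∃ k, ¬ EE k p q := by
  by_contra hc
  push Not at hc
  obtain ⟨α0, ⟨r, a0, c0, g1, g2, g3, g4⟩, hmin⟩ := (wellFounded_lt (α := W)).has_min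
    {α | Sep p q α} ((hc 0).imp fun _ h => h.1)
  have h0 : ∀ k, Alt p q k α0 := fun k => by
    obtain ⟨α, h1, h2⟩ := hc k
    exact h2.mono le_rfl le_rfl k (not_lt.1 (hmin α h1))
  have step : ∀ α : {α // ∀ k, Alt p q k α}, ∃ α' : {α // ∀ k, Alt p q k α},
      (∃ a, α.1 < a ∧ a ≤ α'.1 ∧ p.f a ≠ none) ∧ ∃ c, α.1 < c ∧ c ≤ α'.1 ∧ q.f c ≠ none := by
    rintro ⟨α, hα⟩
    obtain ⟨a1, c1, h1, h2, h3, h4, -⟩ := hα 1
    obtain ⟨a, ha, hma⟩ := (wellFounded_lt (α := W)).has_min {a | α < a ∧ p.f a ≠ none}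
      ⟨a1, h3, h1⟩
    obtain ⟨c, hc, hmc⟩ := (wellFounded_lt (α := W)).has_min {c | α < c ∧ q.f c ≠ none}
      ⟨c1, h4, h2⟩
    refine ⟨⟨max a c, fun k => ?_⟩, ⟨a, ha.1, le_max_left _ _, ha.2⟩,
      c, hc.1, le_max_right _ _, hc.2⟩
    obtain ⟨a', c', e1, e2, e3, e4, e5⟩ := hα (k + 1)
    exact e5.mono le_rfl le_rfl k
      (max_le_max (not_lt.1 (hma a' ⟨e3, e1⟩)) (not_lt.1 (hmc c' ⟨e4, e2⟩)))
  choose s hs1 hs2 using step
  obtain ⟨δ, d1, d2⟩ := exists_lub fun n => (s^[n] ⟨α0, h0⟩).1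
  have key : ∀ y : Node, (∀ α, ∃ a, α.1 < a ∧ a ≤ (s α).1 ∧ y.f a ≠ none) →
      phi δ = {l | ∃ β < δ, y.f β = some l} := by
    intro y hy
    have h1 : ∀ β < δ, ∃ a, β < a ∧ a < δ ∧ y.f a ≠ none := by
      intro β hβ
      obtain ⟨n, hn⟩ := d2 β hβ
      obtain ⟨a, e1, e2, e3⟩ := hy (s^[n] ⟨α0, h0⟩)
      have := d1 (n + 1)
      rw [Function.iterate_succ_apply'] at this
      exact ⟨a, hn.trans_lt e1, e2.trans_lt this, e3⟩
    refine y.lim δ (not_lt.1 fun h => ?_) ⟨⟨_, d1 0⟩, h1⟩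
    obtain ⟨a, e1, -, e3⟩ := h1 _ h
    exact e3 (y.hb a e1.le)
  obtain ⟨β, -, hβ⟩ := ((key q hs2).symm.trans (key p hs1)).subset
    (⟨c0, g2.trans_lt (d1 0), g4⟩ : (r, false) ∈ {l | ∃ β < δ, q.f β = some l})
  exact p.cons a0 β r g3 hβ

theorem ext2 (r : ℝ) (p q : Node) (h : p.b = q.b) (hp : (r, false) ∉ p.lab)
    (hq : (r, true) ∉ q.lab) : ∃ p' q', p ≤ p' ∧ q ≤ q' ∧ p'.b = q'.b ∧
      p'.f p.b = some (r, true) ∧ q'.f p.b = some (r, false) := by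
  obtain ⟨b', hb⟩ := exists_gt_W p.b
  obtain ⟨p', a1, a2, a3, -⟩ := p.extend (some (r, true)) b' hb (by rintro _ ⟨rfl⟩; exact hp)
  obtain ⟨q', b1, b2, b3, -⟩ := q.extend (some (r, false)) b' (h ▸ hb)
    (by rintro _ ⟨rfl⟩; exact hq)
  exact ⟨p', q', a1, b1, a2.trans b2.symm, a3, h ▸ b3⟩

theorem alt_dense (r : ℝ) (k : ℕ) : ∀ (p q : Node) (α : W), p.b = q.b →
    p.f α = some (r, true) → q.f α = some (r, false) →
    ∃ p' q', p ≤ p' ∧ q ≤ q' ∧ p'.b = q'.b ∧ Alt p' q' k α := by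
  induction k with
  | zero => exact fun p q _ h _ _ => ⟨p, q, le_rfl, le_rfl, h, trivial⟩
  | succ k ih =>
    intro p q α h hp hq
    obtain ⟨p1, q1, a1, a2, a3, a4, a5⟩ := ext2 r p q h (fun ⟨β, e⟩ => p.cons α β r hp e)
      fun ⟨β, e⟩ => q.cons β α r e hq
    obtain ⟨p2, q2, b1, b2, b3, b4⟩ := ih p1 q1 p.b a3 a4 a5
    have hα : α < p.b := lt_b (by simp [hp])
    exact ⟨p2, q2, a1.trans b1, a2.trans b2, b3, p.b, p.b, by simp [some_mono b1 a4],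
      by simp [some_mono b2 a5], hα, hα, by rwa [max_self]⟩

theorem ee_dense (k : ℕ) (p q : Node) :
    ∃ p' q', p ≤ p' ∧ q ≤ q' ∧ p'.b = q'.b ∧ EE k p' q' := by
  obtain ⟨b', hb⟩ := exists_gt_W (max p.b q.b)
  obtain ⟨p1, a1, a2, -⟩ := p.extend none b' ((le_max_left _ _).trans_lt hb) (by simp)
  obtain ⟨q1, a3, a4, -⟩ := q.extend none b' ((le_max_right _ _).trans_lt hb) (by simp)
  obtain ⟨r, hr⟩ := fresh_label _ (p1.lab_countable.union q1.lab_countable)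
  obtain ⟨p2, q2, b1, b2, b3, b4, b5⟩ := ext2 r p1 q1 (a2.trans a4.symm)
    (fun h => hr _ (Or.inl h)) fun h => hr _ (Or.inr h)
  obtain ⟨p3, q3, c1, c2, c3, c4⟩ := alt_dense r k p2 q2 p1.b b3 b4 b5
  exact ⟨p3, q3, a1.trans (b1.trans c1), a3.trans (b2.trans c2), c3, p1.b,
    ⟨r, _, _, le_rfl, le_rfl, some_mono c1 b4, some_mono c2 b5⟩, c4⟩

theorem sq_dsep : IsSelDSep (Node × Node) := by
  refine seldsep_of_pibase (fun k => {u : Node × Node | u.1.b = u.2.b ∧ EE k u.1 u.2 ∧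
      ∀ v : Node × Node, v.1.b = v.2.b → EE k v.1 v.2 → v.1 ≤ u.1 → v.2 ≤ u.2 → u.1.b ≤ v.1.b})
    (fun u => Ici u.1 ×ˢ Ici u.2)
    (fun u => ⟨(isOpen_cone _).prod (isOpen_cone _), u, mem_Ici.2 le_rfl, mem_Ici.2 le_rfl⟩) ?_ ?_
  · intro k u hu v hv ⟨y, ⟨a1, a2⟩, a3, a4⟩
    wlog h : u.1.b ≤ v.1.b generalizing u v
    · exact (this v hv u hu a3 a4 a1 a2 (not_le.1 h).le).symm
    have b1 := le_of_common a1 a3 h
    have b2 := le_of_common a2 a4 (hu.1 ▸ hv.1 ▸ h)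
    have h' := hv.2.2 u hu.1 hu.2.1 b1 b2
    exact Prod.ext (le_antisymm b1 (le_of_common a3 a1 h'))
      (le_antisymm b2 (le_of_common a4 a2 (hu.1 ▸ hv.1 ▸ h')))
  · intro V hV ⟨y, hy⟩
    obtain ⟨O1, O2, h1, h2, h3, h4, h5⟩ := isOpen_prod_iff.1 hV y.1 y.2 hy
    obtain ⟨p, hp⟩ := cone_sub h1 h3
    obtain ⟨q, hq⟩ := cone_sub h2 h4
    obtain ⟨p1, q1, a1, a2, a3, -⟩ := ee_dense 0 p q
    obtain ⟨k, hk⟩ := not_all p1 q1
    obtain ⟨p2, q2, b1, b2, b3, b4⟩ := ee_dense k p1 q1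
    obtain ⟨u, ⟨c1, c2, c3, c4⟩, hmin⟩ :=
      (InvImage.wf (fun u : Node × Node => u.1.b) (wellFounded_lt (α := W))).has_min
      {u | u.1.b = u.2.b ∧ EE k u.1 u.2 ∧ u.1 ≤ p2 ∧ u.2 ≤ q2} ⟨(p2, q2), b3, b4, le_rfl, le_rfl⟩
    have hle : p1.b ≤ u.1.b := by
      by_contra hc
      have hc' := (not_le.1 hc).le
      exact hk (c2.mono (le_of_common c3 b1 hc') (le_of_common c4 b2 (c1 ▸ a3 ▸ hc')))
    refine ⟨k, u, ⟨c1, c2, fun v d1 d2 d3 d4 =>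
      not_lt.1 (hmin v ⟨d1, d2, d3.trans c3, d4.trans c4⟩)⟩, fun z hz => h5 ⟨hp ?_, hq ?_⟩⟩
    · exact (a1.trans (le_of_common b1 c3 hle)).trans hz.1
    · exact (a2.trans (le_of_common b2 c4 (c1 ▸ a3 ▸ hle))).trans hz.2

end Node

end Pool.Agent.H15.DSep
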