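import Pool.Agent.H15.Inj2

set_option autoImplicit false
open Set Cardinal Order
universe u

namespace Pool.Agent.H15.Inj

theorem out_of {W : Type u} {B S : Set W} (h : #S < #B) : ∃ a ∈ B, a ∉ S := by
  by_contra hc
  push Not at hc
  exact absurd (Cardinal.mk_le_mk_of_subset hc) (not_le.2 h)

theorem mk_bi {W : Type u} {B : Set W} {ν : Cardinal.{u}} (h0 : ℵ₀ ≤ ν) (hB : #B ≤ ν)
    (f : W → Set W) (hf : ∀ b ∈ B, #(f b) ≤ ν) : #(⋃ b ∈ B, f b) ≤ ν := by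
  refine (Cardinal.mk_biUnion_le _ _).trans ?_
  calc #B * ⨆ x : B, #(f x.1) ≤ ν * ν :=
        mul_le_mul' hB (ciSup_le' fun x => hf x.1 x.2)
    _ = ν := Cardinal.mul_eq_self h0

section
variable {W : Type u} (J : W → W → Set W)

theorem clique (h2 : ∀ a b c, a ∉ J b c → J b c ⊆ J a b ∨ J b c ⊆ J a c)
    (h3 : ∀ a b, a ∈ J a b) (h4 : ∀ a b, b ∈ J a b) {μ : Cardinal.{u}} (h0 : ℵ₀ ≤ μ) {B : Set W}
    (hB : ∀ b ∈ B, ∀ c ∈ B, #(J b c) ≤ μ) : #B ≤ succ (succ μ) := by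
  by_contra hc
  have hc' := not_le.1 hc
  have s1 : μ ≤ succ μ := le_succ _
  have s2 : succ μ ≤ succ (succ μ) := le_succ _
  obtain ⟨B0, hB0, c0⟩ := Cardinal.le_mk_iff_exists_subset.1 hc'.le
  obtain ⟨a, ha, haS⟩ := out_of (B := B) (S := ⋃ b ∈ B0, ⋃ c ∈ B0, J b c) (lt_of_le_of_lt
    (mk_bi (h0.trans (s1.trans s2)) c0.le _ fun b hb => mk_bi (h0.trans (s1.trans s2)) c0.le _
      fun c hc => (hB b (hB0 hb) c (hB0 hc)).trans (s1.trans s2)) hc')
  obtain ⟨B1, hB1, c1⟩ := Cardinal.le_mk_iff_exists_subset.1 (c0 ▸ s2 : succ μ ≤ #B0)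
  obtain ⟨c, hc0, hcS⟩ := out_of (B := B0) (S := ⋃ b ∈ B1, J a b) (lt_of_le_of_lt
    (mk_bi (h0.trans s1) c1.le _ fun b hb => (hB a ha b (hB0 (hB1 hb))).trans s1)
    (c0 ▸ lt_succ _))
  have : B1 ⊆ J a c := by
    intro b hb
    have hn : a ∉ J b c := fun h => haS (mem_biUnion (hB1 hb) (mem_biUnion hc0 h))
    rcases h2 a b c hn with h | h
    · exact absurd (mem_biUnion hb (h (h4 b c))) hcS
    · exact h (h3 b c)
  have := (Cardinal.mk_le_mk_of_subset this).trans (hB a ha c (hB0 hc0))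
  rw [c1] at this
  exact absurd this (not_le.2 (lt_succ μ))

end

theorem greedy {W L : Type u} [LinearOrder W] [WellFoundedLT W] (R : W → Set W)
    (hR : ∀ β, R β ⊆ Iio β) (hc : ∀ β, #(R β) < #L) :
    ∃ F : W → L, ∀ β, ∀ b ∈ R β, F b ≠ F β := by
  classical
  have key : ∀ (β : W) (f : ∀ b, b < β → L), ∃ l : L, ∀ b (hb : b ∈ R β), f b (hR β hb) ≠ l := by
    intro β f
    obtain ⟨l, -, hl⟩ := out_of (B := Set.univ) (S := range fun b : R β => f b.1 (hR β b.2))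
      (lt_of_le_of_lt Cardinal.mk_range_le (by simpa using hc β))
    exact ⟨l, fun b hb h => hl ⟨⟨b, hb⟩, h⟩⟩
  choose G hG using key
  refine ⟨(wellFounded_lt (α := W)).fix G, fun β b hb => ?_⟩
  rw [(wellFounded_lt (α := W)).fix_eq G β]
  exact hG β (fun y _ => (wellFounded_lt (α := W)).fix G y) b hb

/-- the colouring obtained from a breadth two semilattice -/
theorem dit_col {lam : Cardinal.{u}} (h0 : ℵ₀ < lam) (hlim : ∀ μ < lam, succ μ < lam)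
    {L W I : Type u} [LinearOrder W] [WellFoundedLT W] [NoMaxOrder W] (hL : #L = lam)
    (hW : ∀ a : W, #(Iio a) ≤ lam) (hcW : lam < Order.cof W)
    (m : I → Cardinal.{u}) (hm : ∀ i, m i < lam) (hm' : ∀ ν < lam, ∃ i, ν ≤ m i)
    (J : W → W → Set W) (h1 : ∀ b c, #(J b c) < lam)
    (h2 : ∀ a b c, a ∉ J b c → J b c ⊆ J a b ∨ J b c ⊆ J a c)
    (h3 : ∀ a b, a ∈ J a b) (h4 : ∀ a b, b ∈ J a b) :
    ∃ (F : I → W → L) (C : Set W), IsClub C ∧ ∀ a ∈ C, #I < Order.cof (Iio a) →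
      ∀ B, B ⊆ Iio a ∧ IsLUB B a → B.Nonempty →
        ∃ i, ∃ B' ⊆ B, (B' ⊆ Iio a ∧ IsLUB B' a) ∧ InjOn (F i) B' := by
  classical
  have hic : ∀ γ : W, #(Iic γ) ≤ lam := by
    intro γ
    rw [← Set.Iio_insert]
    exact Cardinal.mk_insert_le.trans (Cardinal.add_le_of_le h0.le (hW γ)
      (one_le_aleph0.trans h0.le))
  have hg : ∀ γ : W, ∃ δ, ∀ γ' ≤ γ, ∀ b ≤ γ', ∀ c ≤ γ', ∀ w ∈ J b c, w < δ := by
    intro γ
    obtain ⟨δ, hδ⟩ := bdd (x := ⋃ b ∈ Iic γ, ⋃ c ∈ Iic γ, J b c) (lt_of_le_of_lt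
      (mk_bi h0.le (hic γ) _ fun b _ => mk_bi h0.le (hic γ) _ fun c _ => (h1 b c).le) hcW)
    exact ⟨δ, fun γ' h' b hb c hc w hw =>
      hδ w (mem_biUnion (hb.trans h') (mem_biUnion (hc.trans h') hw))⟩
  choose g0 hg0 using hg
  -- least bound, monotone
  let g : W → W := fun γ => wellFounded_lt.min {δ | ∀ b ≤ γ, ∀ c ≤ γ, ∀ w ∈ J b c, w < δ}
    ⟨g0 γ, hg0 γ γ le_rfl⟩
  have hg1 : ∀ γ, ∀ b ≤ γ, ∀ c ≤ γ, ∀ w ∈ J b c, w < g γ := fun γ =>
    wellFounded_lt.min_mem {δ | ∀ b ≤ γ, ∀ c ≤ γ, ∀ w ∈ J b c, w < δ} ⟨g0 γ, hg0 γ γ le_rfl⟩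
  have hgm : Monotone g := by
    intro γ γ' h
    have : g γ' ∈ {δ | ∀ b ≤ γ, ∀ c ≤ γ, ∀ w ∈ J b c, w < δ} :=
      fun b hb c hc => hg1 γ' b (hb.trans h) c (hc.trans h)
    exact not_lt.1 (wellFounded_lt.not_lt_min _ this)
  have hgl : ∀ γ, γ < g γ := fun γ => hg1 γ γ le_rfl γ le_rfl γ (h3 _ _)
  have hout : ∀ a b c, g b ≤ a → g c ≤ a → a ∉ J b c := by
    intro a b c hb hc h
    have := hg1 (max b c) b (le_max_left _ _) c (le_max_right _ _) a h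
    rcases max_choice b c with h' | h' <;> rw [h'] at this <;> exact absurd this (not_lt.2 ‹_›)
  have hcl : ∀ (ν : Cardinal.{u}) a b c, a ∉ J b c → #(J a b) ≤ ν → #(J a c) ≤ ν →
      #(J b c) ≤ ν := by
    intro ν a b c h hb hc
    rcases h2 a b c h with h' | h'
    · exact (Cardinal.mk_le_mk_of_subset h').trans hb
    · exact (Cardinal.mk_le_mk_of_subset h').trans hc
  have hF : ∀ i, ∃ F : W → L, ∀ β, ∀ b ∈ {b | g b ≤ β ∧ #(J β b) ≤ m i}, F b ≠ F β := by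
    intro i
    refine greedy (fun β => {b | g b ≤ β ∧ #(J β b) ≤ m i})
      (fun β b hb => lt_of_lt_of_le (hgl b) hb.1) fun β => ?_
    rw [hL]
    refine lt_of_le_of_lt (clique J h2 h3 h4 (μ := max ℵ₀ (m i)) (le_max_left _ _) ?_)
      (hlim _ (hlim _ (max_lt h0 (hm i))))
    intro b hb c hc
    exact (hcl _ β b c (hout β b c hb.1 hc.1) hb.2 hc.2).trans (le_max_right _ _)
  choose F hF using hF
  refine ⟨F, {a | ∀ b < a, g b < a}, ⟨?_, ?_⟩, ?_⟩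
  · intro d hd hne _ a ha b hb
    have : ∃ y ∈ d, b < y := by
      by_contra hh
      push Not at hh
      exact absurd (ha.2 hh) (not_le.2 hb)
    obtain ⟨y, hy, hby⟩ := this
    exact lt_of_lt_of_le (hd hy b hby) (ha.1 hy)
  · intro γ
    obtain ⟨δ, hδ⟩ := bdd (x := range fun n : ULift.{u} ℕ => g^[n.down] γ) (lt_of_le_of_lt
      Cardinal.mk_range_le (by simpa using h0.trans hcW))
    obtain ⟨a, ha⟩ := exists_lub (x := range fun n : ULift.{u} ℕ => g^[n.down] γ)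
      ⟨δ, fun b hb => (hδ b hb).le⟩
    refine ⟨a, fun b hb => ?_, ha.1 ⟨⟨0⟩, rfl⟩⟩
    have : ∃ n : ℕ, b < g^[n] γ := by
      by_contra hh
      push Not at hh
      exact absurd (ha.2 (by rintro _ ⟨n, rfl⟩; exact hh _)) (not_le.2 hb)
    obtain ⟨n, hn⟩ := this
    have e1 : g b ≤ g^[n + 1] γ := by rw [Function.iterate_succ_apply']; exact hgm hn.le
    have e2 : g^[n + 1] γ < g^[n + 2] γ := by
      rw [Function.iterate_succ_apply' g (n + 1)]; exact hgl _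
    exact lt_of_le_of_lt e1 (lt_of_lt_of_le e2 (ha.1 ⟨⟨n + 2⟩, rfl⟩))
  · intro a ha hcof B hB hBne
    have hI : ∃ i, ∀ γ < a, ∃ β ∈ B, γ < β ∧ #(J a β) ≤ m i := by
      by_contra hh
      push Not at hh
      choose γ hγ1 hγ2 using hh
      obtain ⟨δ, hδ⟩ := bdd (W := Iio a) (x := range fun i => (⟨γ i, hγ1 i⟩ : Iio a))
        (lt_of_le_of_lt Cardinal.mk_range_le hcof)
      have : ∃ β ∈ B, δ.1 < β := by
        by_contra h'
        push Not at h'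
        exact absurd (hB.2.2 h') (not_le.2 δ.2)
      obtain ⟨β, hβ, hδβ⟩ := this
      obtain ⟨i, hi⟩ := hm' _ (h1 a β)
      have h6 : γ i < δ.1 := hδ _ ⟨i, rfl⟩
      exact absurd hi (not_le.2 (hγ2 i β hβ (h6.trans hδβ)))
    obtain ⟨i, hi⟩ := hI
    obtain ⟨B', hB'⟩ := zorn_subset {S : Set W | S ⊆ {β ∈ B | #(J a β) ≤ m i} ∧
        S.Pairwise fun b β => b < β → g b ≤ β} (by
      intro c hc hch
      refine ⟨⋃₀ c, ⟨sUnion_subset fun S hS => (hc hS).1, ?_⟩, fun S hS => subset_sUnion_of_mem hS⟩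
      rintro b ⟨S, hS, hb⟩ β ⟨S', hS', hβ⟩ hne
      rcases hch.total hS hS' with h | h
      · exact (hc hS').2 (h hb) hβ hne
      · exact (hc hS).2 hb (h hβ) hne)
    have hsub : B' ⊆ B := fun b hb => (hB'.prop.1 hb).1
    refine ⟨i, B', hsub, ⟨hsub.trans hB.1, fun b hb => (hB.1 (hsub hb)).le, ?_⟩, ?_⟩
    · intro γ hγ
      by_contra hlt
      have hlt' := not_le.1 hlt
      obtain ⟨β, hβ, h6, h7⟩ := hi (g γ) (ha γ hlt')
      have hins : insert β B' ∈ {S : Set W | S ⊆ {β ∈ B | #(J a β) ≤ m i} ∧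
          S.Pairwise fun b β => b < β → g b ≤ β} := by
        refine ⟨insert_subset ⟨hβ, h7⟩ hB'.prop.1, ?_⟩
        rintro x (rfl | hx) y (rfl | hy) hne hxy
        · exact absurd rfl hne
        · exact absurd ((hγ hy).trans_lt ((hgl γ).trans h6)) (not_lt.2 hxy.le)
        · exact (hgm (hγ hx)).trans h6.le
        · exact hB'.prop.2 hx hy hne hxy
      have := hB'.eq_of_subset hins (subset_insert _ _)
      have hmem : β ∈ B' := this ▸ mem_insert _ _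
      exact absurd (hγ hmem) (not_le.2 ((hgl γ).trans h6))
    · have key : ∀ b ∈ B', ∀ β ∈ B', b < β → F i b ≠ F i β := by
        intro b hb β hβ hlt
        refine hF i β b ⟨hB'.prop.2 hb hβ hlt.ne hlt, ?_⟩
        exact hcl _ a β b (hout a β b (ha β (hB.1 (hsub hβ))).le (ha b (hB.1 (hsub hb))).le)
          (hB'.prop.1 hβ).2 (hB'.prop.1 hb).2
      intro b hb β hβ h
      rcases lt_trichotomy b β with h' | h' | h'
      · exact absurd h (key b hb β hβ h')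
      · exact h'
      · exact absurd h.symm (key β hβ b hb h')

end Pool.Agent.H15.Inj
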