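import Pool.Agent.H15.Dit1

set_option autoImplicit false
open Set Cardinal Order
universe u

namespace Pool.Agent.H15.Inj

theorem cc0 {lam : Cardinal.{u}} (h0 : ℵ₁ ≤ lam)
    {L W I : Type u} [LinearOrder W] [WellFoundedLT W] [NoMaxOrder W] [Countable I] [Nonempty I]
    (hL : #L = lam) (hW : ∀ a : W, #(Iio a) ≤ lam) (hcW : lam < Order.cof W)
    (hcc : ∀ [LL.Structure W] (r : LL.Relations 1),
      #{m : W | FirstOrder.Language.Structure.RelMap r ![m]} = lam →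
      ∃ N : LL.ElementarySubstructure W, #N = ℵ₁ ∧
        #{m : W | m ∈ N ∧ FirstOrder.Language.Structure.RelMap r ![m]} = ℵ₀)
    (F : I → W → L) {C : Set W} (hC : IsClub C) :
    ∃ a ∈ C, ℵ₀ < Order.cof (Iio a) ∧ ∃ B, (B ⊆ Iio a ∧ IsLUB B a) ∧ B.Nonempty ∧
      ∀ i, ∀ B' ⊆ B, (B' ⊆ Iio a ∧ IsLUB B' a) → ¬ InjOn (F i) B' := by
  classical
  have h00 : ℵ₀ ≤ lam := (aleph0_lt_aleph_one.le).trans h0
  have hWne : Nonempty W := by
    rw [← Order.cof_ne_zero_iff]; exact (lt_of_le_of_lt (zero_le) hcW).ne'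
  have hLne : Nonempty L := by
    rw [← Cardinal.mk_ne_zero_iff, hL]; exact (lt_of_lt_of_le aleph0_pos h00).ne'
  have he : ∀ a : W, ∃ e : W → L, InjOn e (Iio a) := by
    intro a
    obtain ⟨f⟩ : Nonempty (Iio a ↪ L) := by rw [← Cardinal.le_def, hL]; exact hW a
    refine ⟨fun x => if h : x < a then f ⟨x, h⟩ else Classical.arbitrary L, ?_⟩
    intro x hx y hy hxy
    have hx' : x < a := hx
    have hy' : y < a := hy
    simp only [hx', hy', dif_pos] at hxy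
    exact congrArg Subtype.val (f.injective hxy)
  choose e he using he
  obtain ⟨s, hs⟩ := exists_surjective_nat I
  have hnx : ∀ β : W, ∃ γ, β < γ ∧ γ ∈ C := by
    intro β
    obtain ⟨b, hb⟩ := exists_gt β
    obtain ⟨γ, h1, h2⟩ := hC.isCofinal b
    exact ⟨γ, lt_of_lt_of_le hb h2, h1⟩
  choose nx hnx1 hnx2 using hnx
  obtain ⟨j⟩ : Nonempty (L ↪ W) := by
    rw [← Cardinal.le_def, hL]; exact hcW.le.trans (Order.cof_le_cardinalMk W)
  let G : ℕ → W → W → W := fun n a b => match n with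
    | 0 => nx a
    | 1 => j (e a b)
    | (m + 2) => j (F (s m) a)
  obtain ⟨x, hx1, hx2, hx3⟩ := cc_closed (range j) G (fun r hr => hcc r (by
    rw [hr, Cardinal.mk_range_eq _ j.injective, hL]))
  have hxu : ¬ x.Countable := by
    rw [← Cardinal.le_aleph0_iff_set_countable, hx1]; exact not_le.2 aleph0_lt_aleph_one
  have hne : x.Nonempty := by
    rw [nonempty_iff_ne_empty]; rintro rfl; exact hxu countable_empty
  have hseg : ∀ β ∈ x, (x ∩ Iio β).Countable := by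
    intro β hβ
    refine Set.MapsTo.countable_of_injOn (f := fun η => j (e β η)) (t := x ∩ range j) ?_ ?_ hx2
    · intro η hη
      exact ⟨hx3 1 β hβ η hη.1, ⟨_, rfl⟩⟩
    · intro η hη η' hη' h
      exact he β hη.2 hη'.2 (j.injective h)
  have hcnt : ∀ B ⊆ x, B.Countable → ∃ γ ∈ x, γ ∈ upperBounds B := by
    intro B hB hBc
    by_contra hh
    push Not at hh
    refine hxu ((hBc.biUnion fun β hβ => hseg β (hB hβ)).mono ?_)
    intro γ hγ
    have := hh γ hγ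
    rw [mem_upperBounds] at this
    push Not at this
    obtain ⟨β, h1, h2⟩ := this
    exact mem_biUnion h1 ⟨hγ, h2⟩
  obtain ⟨γ, hγ⟩ := bdd (x := x) (by rw [hx1]; exact lt_of_le_of_lt h0 hcW)
  obtain ⟨a, ha⟩ := exists_lub (x := x) ⟨γ, fun b hb => (hγ b hb).le⟩
  obtain ⟨h1, h2⟩ := sup_club hC hne
    (fun β hβ => ⟨nx β, hx3 0 β hβ β hβ, hnx1 β, hnx2 β⟩) ha
  refine ⟨a, h2, ?_, x, ⟨h1, ha⟩, hne, ?_⟩
  · by_contra hh
    obtain ⟨h, h3, h4⟩ := cof_fam hne h1 ha (I := ULift ℕ) (by simpa using hh)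
    obtain ⟨γ, h5, h6⟩ := hcnt (range h) (by rintro _ ⟨i, rfl⟩; exact h3 i) (countable_range _)
    obtain ⟨i, hi⟩ := h4 γ h5
    exact absurd (h6 ⟨i, rfl⟩) (not_le.2 hi)
  · intro i B' hB hB' hinj
    obtain ⟨n, rfl⟩ := hs i
    have hBc : B'.Countable := by
      refine Set.MapsTo.countable_of_injOn (f := fun β => j (F (s n) β)) ?_
        (fun b hb c hc h => hinj hb hc (j.injective h)) hx2
      intro β hβ
      exact ⟨hx3 (n + 2) β (hB hβ) β (hB hβ), ⟨_, rfl⟩⟩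
    obtain ⟨γ, h5, h6⟩ := hcnt B' hB hBc
    exact absurd (hB'.2.2 h6) (not_le.2 (h1 h5))

theorem cof_cards {lam : Cardinal.{u}} (h0 : ℵ₀ ≤ lam) :
    ∃ (I : Type u) (m : I → Cardinal.{u}), #I = lam.ord.cof ∧ (∀ i, m i < lam) ∧
      ∀ ν < lam, ∃ i, ν ≤ m i := by
  obtain ⟨I, hI, hc⟩ := Order.exists_cof_eq lam.ord.ToType
  refine ⟨I, fun i => #(Iic i.1), by rw [hc, Ordinal.cof_toType], fun i => iic_lt h0 _, ?_⟩
  intro ν hν
  have h1 : ν.ord < Ordinal.type (α := lam.ord.ToType) (· < ·) := by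
    rw [Ordinal.type_toType]; exact Cardinal.ord_lt_ord.2 hν
  obtain ⟨l, hl, hle⟩ := hI (Ordinal.enum (α := lam.ord.ToType) (· < ·) ⟨ν.ord, h1⟩)
  refine ⟨⟨l, hl⟩, ?_⟩
  have h2 := Ordinal.card_typein (r := ((· < ·) : lam.ord.ToType → lam.ord.ToType → Prop))
    (Ordinal.enum (α := lam.ord.ToType) (· < ·) ⟨ν.ord, h1⟩)
  rw [Ordinal.typein_enum, Cardinal.card_ord] at h2
  refine h2.le.trans ?_
  exact Cardinal.mk_subtype_mono fun y hy => (le_of_lt hy).trans hle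

/-- transfer of a breadth two semilattice to the well-order -/
theorem dit_sl {lam : Cardinal.{u}} (h0 : ℵ₀ < lam) (hlim : ∀ μ < lam, succ μ < lam)
    {L W S : Type u} [LinearOrder W] [WellFoundedLT W] [NoMaxOrder W] (hL : #L = lam)
    (hW : ∀ a : W, #(Iio a) ≤ lam) (hcW : lam < Order.cof W) [SemilatticeSup S]
    (hS : #S = #W) (hi : ∀ a : S, #(Iic a) < lam)
    (hb : ∀ a b c : S, a ≤ b ⊔ c ∨ b ≤ a ⊔ c ∨ c ≤ a ⊔ b) :
    ∃ (I : Type u) (F : I → W → L) (C : Set W), #I = lam.ord.cof ∧ IsClub C ∧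
      ∀ a ∈ C, #I < Order.cof (Iio a) → ∀ B, B ⊆ Iio a ∧ IsLUB B a → B.Nonempty →
        ∃ i, ∃ B' ⊆ B, (B' ⊆ Iio a ∧ IsLUB B' a) ∧ InjOn (F i) B' := by
  obtain ⟨I, m, hI, hm, hm'⟩ := cof_cards h0.le
  obtain ⟨φ⟩ := Cardinal.eq.1 hS.symm
  obtain ⟨F, C, h⟩ := dit_col h0 hlim hL hW hcW m hm hm' (fun b c => {w | φ w ≤ φ b ⊔ φ c})
    (fun b c => lt_of_le_of_lt
      (Cardinal.mk_preimage_of_injective φ (Iic (φ b ⊔ φ c)) φ.injective) (hi _))
    (fun a b c h => by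
      rcases hb (φ a) (φ b) (φ c) with h' | h' | h'
      · exact absurd h' h
      · exact Or.inr fun w hw => le_trans hw (sup_le h' le_sup_right)
      · exact Or.inl fun w hw => le_trans hw (sup_le le_sup_right h'))
    (fun a b => le_sup_left (a := φ a)) (fun a b => le_sup_right (b := φ b))
  exact ⟨I, F, C, hI, h⟩

end Pool.Agent.H15.Inj
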