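import Mathlib

set_option autoImplicit false

namespace Pool.Agent.H15.Ent
open Finset
open scoped BigOperators

variable {I V : Type} [Fintype I] [DecidableEq I] [Fintype V] [DecidableEq V] [Nonempty V]

/-- Conditional expectation on the coordinates in `U`. -/
noncomputable def cond (U : Finset I) (f : (I → V) → ℝ) (φ : I → V) : ℝ :=
  𝔼 ψ : I → V, f (U.piecewise φ ψ)

/-- `g` depends only on the coordinates in `U`. -/
def Meas (U : Finset I) (g : (I → V) → ℝ) : Prop :=
  ∀ φ ψ : I → V, (∀ i ∈ U, φ i = ψ i) → g φ = g ψ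

/-- `g` does not depend on coordinate `x`. -/
def Indep (x : I) (g : (I → V) → ℝ) : Prop :=
  ∀ (φ : I → V) (a : V), g (Function.update φ x a) = g φ

omit [Fintype I] [Fintype V] [DecidableEq V] [Nonempty V] in
theorem Meas.indep {U : Finset I} {g : (I → V) → ℝ} (h : Meas U g) {x : I} (hx : x ∉ U) :
    Indep x g := fun φ a => h _ _ (fun i hi => by
      rw [Function.update_of_ne (by rintro rfl; exact hx hi)])

omit [Fintype I] [DecidableEq I] [Fintype V] [DecidableEq V] [Nonempty V] in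
theorem Meas.mono {U W : Finset I} {g : (I → V) → ℝ} (h : Meas U g) (hUW : U ⊆ W) : Meas W g :=
  fun φ ψ hh => h φ ψ (fun i hi => hh i (hUW hi))

omit [DecidableEq V] [Nonempty V] in
theorem meas_cond (U : Finset I) (f : (I → V) → ℝ) : Meas U (cond U f) := by
  intro φ ψ h
  unfold cond
  refine expect_congr rfl (fun ρ _ => ?_)
  congr 1
  exact piecewise_congr U h (fun _ _ => rfl)

omit [DecidableEq V] [Nonempty V] in
theorem indep_cond (U : Finset I) (f : (I → V) → ℝ) (x : I) (hf : Indep x f) :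
    Indep x (cond U f) := by
  intro φ a
  unfold cond
  refine expect_congr rfl (fun ρ _ => ?_)
  by_cases hx : x ∈ U
  · rw [← update_piecewise_of_mem U φ ρ hx, hf]
  · congr 1
    exact piecewise_congr U (fun i hi => by
      rw [Function.update_of_ne (by rintro rfl; exact hx hi)]) (fun _ _ => rfl)

omit [DecidableEq V] [Nonempty V] in
theorem cond_nonneg (U : Finset I) {f : (I → V) → ℝ} (hf : ∀ φ, 0 ≤ f φ) (φ : I → V) :
    0 ≤ cond U f φ := expect_nonneg (fun _ _ => hf _)

omit [DecidableEq V] [Nonempty V] in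
theorem cond_pos (U : Finset I) {f : (I → V) → ℝ} (hf : ∀ φ, 0 ≤ f φ) (φ : I → V)
    (h : f φ ≠ 0) : 0 < cond U f φ :=
  expect_pos' (fun _ _ => hf _) ⟨φ, mem_univ _, by
    rw [piecewise_same]; exact lt_of_le_of_ne (hf φ) h.symm⟩

omit [DecidableEq V] in
theorem tower (U : Finset I) (f g : (I → V) → ℝ) (hg : Meas U g) :
    𝔼 φ, cond U f φ * g φ = 𝔼 φ, f φ * g φ := by
  let e : (I → V) × (I → V) ≃ (I → V) × (I → V) :=
    { toFun := fun p => (U.piecewise p.1 p.2, U.piecewise p.2 p.1)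
      invFun := fun p => (U.piecewise p.1 p.2, U.piecewise p.2 p.1)
      left_inv := by
        rintro ⟨a, b⟩
        ext i <;> by_cases h : i ∈ U <;> simp [h]
      right_inv := by
        rintro ⟨a, b⟩
        ext i <;> by_cases h : i ∈ U <;> simp [h] }
  have h1 : 𝔼 φ, cond U f φ * g φ =
      𝔼 p : (I → V) × (I → V), f (e p).1 * g (e p).1 := by
    rw [← univ_product_univ, expect_product]
    refine expect_congr rfl (fun φ _ => ?_)
    unfold cond
    rw [expect_mul]
    refine expect_congr rfl (fun ψ _ => ?_)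
    congr 1
    exact hg _ _ (fun i hi => by simp [e, hi])
  rw [h1, Fintype.expect_equiv e _ (fun p => f p.1 * g p.1) (fun _ => rfl),
    ← univ_product_univ, expect_product]
  refine expect_congr rfl (fun φ _ => ?_)
  simp

omit [DecidableEq V] in
theorem expect_cond (U : Finset I) (f : (I → V) → ℝ) : 𝔼 φ, cond U f φ = 𝔼 φ, f φ := by
  simpa using tower U f (fun _ => 1) (fun _ _ _ => rfl)

omit [DecidableEq V] in
theorem expect_update (x : I) (F : (I → V) → ℝ) :
    𝔼 φ, F φ = 𝔼 φ : I → V, 𝔼 a : V, F (Function.update φ x a) := by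
  let e : (I → V) × V ≃ (I → V) × V :=
    { toFun := fun p => (Function.update p.1 x p.2, p.1 x)
      invFun := fun p => (Function.update p.1 x p.2, p.1 x)
      left_inv := by rintro ⟨a, b⟩; simp
      right_inv := by rintro ⟨a, b⟩; simp }
  have h1 : 𝔼 φ : I → V, 𝔼 a : V, F (Function.update φ x a) = 𝔼 p : (I → V) × V, F (e p).1 := by
    rw [← univ_product_univ, expect_product]; rfl
  rw [h1, Fintype.expect_equiv e _ (fun p => F p.1) (fun _ => rfl),
    ← univ_product_univ, expect_product]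
  refine expect_congr rfl (fun φ _ => ?_)
  simp

/-- Relative entropy of the marginal on `U`. -/
noncomputable def D (U : Finset I) (f : (I → V) → ℝ) : ℝ := 𝔼 φ, f φ * Real.log (cond U f φ)

theorem log_aux {a g h : ℝ} (ha : 0 ≤ a) (hg : a ≠ 0 → 0 < g) (hh : a ≠ 0 → 0 < h) :
    a * Real.log g ≤ a * Real.log h + (a * (g / h) - a) := by
  by_cases h0 : a = 0
  · simp [h0]
  · have h1 := hg h0
    have h2 := hh h0
    have h3 := Real.log_le_sub_one_of_pos (div_pos h1 h2)
    rw [Real.log_div h1.ne' h2.ne'] at h3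
    nlinarith

theorem mul_div_le {g h : ℝ} (hg : 0 ≤ g) : h * (g / h) ≤ g := by
  by_cases h0 : h = 0
  · simp [h0, hg]
  · rw [mul_div_cancel₀ _ h0]

omit [DecidableEq V] in
theorem gibbs (U : Finset I) (f g : (I → V) → ℝ) (hf : ∀ φ, 0 ≤ f φ) (hf1 : 𝔼 φ, f φ = 1)
    (hg : ∀ φ, 0 ≤ g φ) (hgm : Meas U g) (hg1 : 𝔼 φ, g φ ≤ 1) (hs : ∀ φ, f φ ≠ 0 → 0 < g φ) :
    𝔼 φ, f φ * Real.log (g φ) ≤ D U f := by
  have h1 : 𝔼 φ, f φ * Real.log (g φ) ≤
      𝔼 φ, (f φ * Real.log (cond U f φ) + (f φ * (g φ / cond U f φ) - f φ)) :=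
    expect_le_expect (fun φ _ => log_aux (hf φ) (hs φ) (cond_pos U hf φ))
  rw [expect_add_distrib, expect_sub_distrib, hf1,
    ← tower U f (fun φ => g φ / cond U f φ)
      (fun φ ψ h => by simp only [hgm φ ψ h, meas_cond U f φ ψ h])] at h1
  have h2 : 𝔼 φ, cond U f φ * (g φ / cond U f φ) ≤ 𝔼 φ, g φ :=
    expect_le_expect (fun φ _ => mul_div_le (hg φ))
  unfold D
  linarith

omit [DecidableEq V] in
theorem D_nonneg (U : Finset I) (f : (I → V) → ℝ) (hf : ∀ φ, 0 ≤ f φ) (hf1 : 𝔼 φ, f φ = 1) :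
    0 ≤ D U f := by
  simpa using gibbs U f (fun _ => 1) hf hf1 (fun _ => zero_le_one) (fun _ _ _ => rfl) (by simp)
    (fun _ _ => one_pos)

omit [DecidableEq V] in
theorem D_mono {U W : Finset I} (h : U ⊆ W) (f : (I → V) → ℝ) (hf : ∀ φ, 0 ≤ f φ)
    (hf1 : 𝔼 φ, f φ = 1) : D U f ≤ D W f :=
  gibbs W f (cond U f) hf hf1 (cond_nonneg U hf) ((meas_cond U f).mono h)
    (by rw [expect_cond, hf1]) (cond_pos U hf)

omit [DecidableEq V] in
/-- Removing normalised one-coordinate kernels. -/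
theorem remove (k : I → (I → V) → ℝ) (S : Finset I) (P : (I → V) → Prop)
    (hk1 : ∀ x ∈ S, ∀ φ, P φ → 𝔼 a : V, k x (Function.update φ x a) = 1)
    (hk2 : ∀ x ∈ S, ∀ y ∈ S, x ≠ y → Indep y (k x))
    (F : (I → V) → ℝ) (hF : ∀ x ∈ S, Indep x F) (hFP : ∀ φ, F φ ≠ 0 → P φ) :
    𝔼 φ, F φ * ∏ x ∈ S, k x φ = 𝔼 φ, F φ := by
  induction S using Finset.induction_on with
  | empty => simp
  | insert y S hy ih =>
    rw [← ih (fun x hx => hk1 x (mem_insert_of_mem hx))
      (fun x hx z hz => hk2 x (mem_insert_of_mem hx) z (mem_insert_of_mem hz))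
      (fun x hx => hF x (mem_insert_of_mem hx))]
    rw [expect_update y]
    refine expect_congr rfl (fun φ _ => ?_)
    have h1 : ∀ a, F (Function.update φ y a) * ∏ x ∈ insert y S, k x (Function.update φ y a) =
        (F φ * ∏ x ∈ S, k x φ) * k y (Function.update φ y a) := by
      intro a
      rw [prod_insert hy, hF y (mem_insert_self _ _),
        prod_congr rfl (fun x hx => hk2 x (mem_insert_of_mem hx) y (mem_insert_self _ _)
          (by rintro rfl; exact hy hx) φ a)]
      ring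
    simp only [h1]
    rw [← mul_expect]
    by_cases h0 : F φ = 0
    · simp [h0]
    · rw [hk1 y (mem_insert_self _ _) φ (hFP φ h0), mul_one]

end Pool.Agent.H15.Ent
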