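import Pool.Agent.H15.Ent

set_option autoImplicit false

namespace Pool.Agent.H15.Ent
open Finset
open scoped BigOperators

variable {I V : Type} [Fintype I] [DecidableEq I] [Fintype V] [DecidableEq V] [Nonempty V]

omit [DecidableEq V] in
theorem step (π : I → ℕ) (N : I → Finset I) (Dg : ℕ) (hN : ∀ x, ∀ y ∈ N x, π y < π x)
    (hD : ∀ x, (N x).card ≤ Dg) (r : ℕ) (c L : ℝ) (hc : 0 ≤ c) (hL : 0 ≤ L)
    (w : V → ℝ) (hw0 : ∀ a, 0 ≤ w a) (hw1 : ∑ a, w a = 1)
    (hwL : ∀ a, w a ≠ 0 → Real.log (Fintype.card V * w a) ≤ L)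
    (f : V → (I → V) → ℝ) (hf0 : ∀ a φ, 0 ≤ f a φ) (hf1 : ∀ a, 𝔼 φ, f a φ = 1)
    (hfi : ∀ a x, r ≤ π x → Indep x (f a))
    (ℓ : V → ℝ) (hfD : ∀ a, w a ≠ 0 → ∀ U : Finset I, D U (f a) ≤ c * U.card * ℓ a)
    (hℓ : ∑ a, w a * ℓ a ≤ L) :
    ∃ g : (I → V) → ℝ, (∀ φ, 0 ≤ g φ) ∧ 𝔼 φ, g φ = 1 ∧ (∀ x, r + 1 ≤ π x → Indep x g) ∧
      (∀ φ, g φ ≠ 0 → ∀ x, π x = r → w (φ x) ≠ 0 ∧ cond (N x) (f (φ x)) φ ≠ 0) ∧
      ∀ U : Finset I, D U g ≤ (c * (1 + Dg) + 1 + c * Dg) * U.card * L := by
  have hn : (0 : ℝ) < Fintype.card V := by exact_mod_cast Fintype.card_pos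
  let fb : (I → V) → ℝ := fun φ => ∑ a, w a * f a φ
  have fb0 : ∀ φ, 0 ≤ fb φ := fun φ => sum_nonneg (fun a _ => mul_nonneg (hw0 a) (hf0 a φ))
  have fbE : ∀ G : (I → V) → ℝ, 𝔼 φ, fb φ * G φ = ∑ a, w a * 𝔼 φ, f a φ * G φ := by
    intro G
    simp only [fb, sum_mul, expect_sum_comm, mul_expect, mul_assoc]
  have fb1 : 𝔼 φ, fb φ = 1 := by
    have := fbE (fun _ => 1)
    simp only [mul_one, hf1] at this
    rw [this, hw1]
  have fbi : ∀ x, r ≤ π x → Indep x fb := fun x hx φ a => by
    simp only [fb, hfi _ x hx φ a]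
  have fbc : ∀ U φ, cond U fb φ = ∑ a, w a * cond U (f a) φ := by
    intro U φ
    simp only [cond, fb, expect_sum_comm, mul_expect]
  have fbpos : ∀ a φ, w a ≠ 0 → f a φ ≠ 0 → fb φ ≠ 0 := by
    intro a φ h1 h2
    have h3 : 0 < w a * f a φ :=
      mul_pos (lt_of_le_of_ne (hw0 a) h1.symm) (lt_of_le_of_ne (hf0 a φ) h2.symm)
    have h4 : w a * f a φ ≤ fb φ := single_le_sum (f := fun a => w a * f a φ)
      (fun a _ => mul_nonneg (hw0 a) (hf0 a φ)) (mem_univ a)
    linarith
  have mixD : ∀ U : Finset I, ∑ a, w a * D U (f a) ≤ c * U.card * L := by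
    intro U
    calc _ ≤ ∑ a, c * U.card * (w a * ℓ a) := by
          refine sum_le_sum (fun a _ => ?_)
          by_cases h : w a = 0
          · simp [h]
          · have := mul_le_mul_of_nonneg_left (hfD a h U) (hw0 a)
            linarith
      _ = c * U.card * ∑ a, w a * ℓ a := by rw [mul_sum]
      _ ≤ _ := mul_le_mul_of_nonneg_left hℓ (by positivity)
  have fbD : ∀ U : Finset I, D U fb ≤ c * U.card * L := by
    intro U
    refine le_trans ?_ (mixD U)
    unfold D
    rw [fbE]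
    refine sum_le_sum (fun a _ => ?_)
    by_cases h : w a = 0
    · simp [h]
    · refine mul_le_mul_of_nonneg_left ?_ (hw0 a)
      exact gibbs U (f a) (cond U fb) (hf0 a) (hf1 a) (cond_nonneg U fb0) (meas_cond U fb)
        (by rw [expect_cond, fb1]) (fun φ h2 => cond_pos U fb0 φ (fbpos a φ h h2))
  let κ : I → V → (I → V) → ℝ := fun x a φ =>
    Fintype.card V * w a * cond (N x) (f a) φ / cond (N x) fb φ
  have κ0 : ∀ x a φ, 0 ≤ κ x a φ := fun x a φ =>
    div_nonneg (mul_nonneg (mul_nonneg hn.le (hw0 a)) (cond_nonneg _ (hf0 a) φ)) (cond_nonneg _ fb0 φ)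
  have κm : ∀ x a, Meas (N x) (κ x a) := fun x a φ ψ h => by
    simp only [κ, meas_cond (N x) (f a) φ ψ h, meas_cond (N x) fb φ ψ h]
  have hxN : ∀ x, x ∉ N x := fun x h => lt_irrefl _ (hN x x h)
  let k : I → (I → V) → ℝ := fun x φ => κ x (φ x) φ
  have k0 : ∀ x φ, 0 ≤ k x φ := fun x φ => κ0 _ _ _
  have km : ∀ x, Meas (insert x (N x)) (k x) := fun x φ ψ h => by
    simp only [k]
    rw [h x (mem_insert_self _ _), κm x _ φ ψ (fun i hi => h i (mem_insert_of_mem hi))]
  have kup : ∀ x φ a, k x (Function.update φ x a) = κ x a φ := fun x φ a => by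
    simp only [k, Function.update_self]
    exact (κm x a).indep (hxN x) φ a
  have k1 : ∀ x φ, fb φ ≠ 0 → 𝔼 a : V, k x (Function.update φ x a) = 1 := by
    intro x φ h
    have h2 := cond_pos (N x) fb0 φ h
    simp only [kup, κ]
    rw [← expect_div, Fintype.expect_eq_sum_div_card, div_eq_one_iff_eq h2.ne', fbc,
      div_eq_iff hn.ne', sum_mul]
    exact sum_congr rfl (fun a _ => by ring)
  have kind : ∀ x y, x ≠ y → π x ≤ π y → Indep y (k x) := fun x y hxy h =>
    (km x).indep (by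
      rw [mem_insert, not_or]
      exact ⟨hxy.symm, fun h2 => by have := hN x y h2; omega⟩)
  let A : Finset I := univ.filter (fun x => π x = r)
  have hA : ∀ x, x ∈ A ↔ π x = r := fun x => by simp [A]
  have rem : ∀ (T : Finset I), T ⊆ A → ∀ G : (I → V) → ℝ, (∀ x ∈ A, x ∉ T → Indep x G) →
      𝔼 φ, (fb φ * ∏ x ∈ A, k x φ) * G φ = 𝔼 φ, (fb φ * ∏ x ∈ T, k x φ) * G φ := by
    intro T hT G hG
    rw [← remove k (A \ T) (fun φ => fb φ ≠ 0) (fun x _ φ h => k1 x φ h)
      (fun x hx y hy hxy => kind x y hxy (by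
        rw [(hA x).1 (mem_sdiff.1 hx).1, (hA y).1 (mem_sdiff.1 hy).1]))
      (fun φ => (fb φ * ∏ x ∈ T, k x φ) * G φ) ?_ (fun φ h h2 => h (by simp [h2]))]
    · refine expect_congr rfl (fun φ _ => ?_)
      rw [← prod_sdiff hT]; ring
    · intro x hx φ a
      obtain ⟨hxA, hxT⟩ := mem_sdiff.1 hx
      have e := (hA x).1 hxA
      simp only
      rw [fbi x e.ge φ a, hG x hxA hxT φ a,
        prod_congr rfl (fun y hy => kind y x (by rintro rfl; exact hxT hy)
          (by rw [e, (hA y).1 (hT hy)]) φ a)]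
  let g : (I → V) → ℝ := fun φ => fb φ * ∏ x ∈ A, k x φ
  have g0 : ∀ φ, 0 ≤ g φ := fun φ => mul_nonneg (fb0 φ) (prod_nonneg (fun x _ => k0 x φ))
  have g1 : 𝔼 φ, g φ = 1 := by
    have := rem ∅ (empty_subset _) (fun _ => 1) (fun _ _ _ _ _ => rfl)
    simpa [fb1] using this
  have gne : ∀ φ, g φ ≠ 0 → fb φ ≠ 0 ∧ ∀ x ∈ A, k x φ ≠ 0 := fun φ h =>
    ⟨left_ne_zero_of_mul h, fun x hx => prod_ne_zero_iff.1 (right_ne_zero_of_mul h) x hx⟩
  have klog : ∀ x ∈ A, 𝔼 φ, g φ * Real.log (k x φ) ≤ L + c * Dg * L := by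
    intro x hx
    have e := (hA x).1 hx
    have h1 := rem {x} (singleton_subset_iff.2 hx) (fun φ => Real.log (k x φ))
      (fun y hy hyx φ a => by
        simp only
        rw [kind x y (by rintro rfl; exact hyx (mem_singleton_self _)) (by rw [e, (hA y).1 hy]) φ a])
    simp only [g]
    rw [h1, expect_update x]
    simp only [prod_singleton, kup, fbi x e.ge _ _]
    rw [expect_comm]
    have h2 : ∀ a, 𝔼 φ, fb φ * κ x a φ * Real.log (κ x a φ) ≤ Fintype.card V *
        (w a * L + w a * D (N x) (f a) - w a * 𝔼 φ, f a φ * Real.log (cond (N x) fb φ)) := by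
      intro a
      by_cases hwa : w a = 0
      · simp [κ, hwa]
      have hwp : 0 < w a := lt_of_le_of_ne (hw0 a) (Ne.symm hwa)
      have t1 := tower (N x) fb (fun φ => κ x a φ * Real.log (κ x a φ))
        (fun φ ψ h => by simp only [κm x a φ ψ h])
      have t2 := tower (N x) (f a) (fun φ => Fintype.card V * w a * Real.log (κ x a φ))
        (fun φ ψ h => by simp only [κm x a φ ψ h])
      have t3 : 𝔼 φ, cond (N x) fb φ * (κ x a φ * Real.log (κ x a φ)) =
          𝔼 φ, cond (N x) (f a) φ * (Fintype.card V * w a * Real.log (κ x a φ)) := by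
        refine expect_congr rfl (fun φ _ => ?_)
        by_cases h0 : cond (N x) fb φ = 0
        · simp [κ, h0]
        · simp only [κ]; field_simp
      have t4 : 𝔼 φ, f a φ * (Fintype.card V * w a * Real.log (κ x a φ)) =
          𝔼 φ, Fintype.card V * w a * (f a φ * Real.log (Fintype.card V * w a) +
            f a φ * Real.log (cond (N x) (f a) φ) - f a φ * Real.log (cond (N x) fb φ)) := by
        refine expect_congr rfl (fun φ _ => ?_)
        by_cases h0 : f a φ = 0
        · simp [h0]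
        · have p1 := cond_pos (N x) (hf0 a) φ h0
          have p2 := cond_pos (N x) fb0 φ (fbpos a φ hwa h0)
          simp only [κ]
          rw [Real.log_div (by positivity) p2.ne', Real.log_mul (by positivity) p1.ne']
          ring
      simp only [mul_assoc (fb _)]
      rw [← t1, t3, t2, t4, ← mul_expect, expect_sub_distrib, expect_add_distrib, ← expect_mul, hf1]
      have := mul_le_mul_of_nonneg_left (hwL a hwa) (mul_pos hn hwp).le
      unfold D
      nlinarith
    refine (expect_le_expect (fun a _ => h2 a)).trans ?_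
    rw [← mul_expect, Fintype.card_mul_expect, sum_sub_distrib, sum_add_distrib, ← sum_mul, hw1,
      ← fbE]
    have h3 := D_nonneg (N x) fb fb0 fb1
    have h4 := mixD (N x)
    have h5 : c * (N x).card * L ≤ c * Dg * L := by
      have : ((N x).card : ℝ) ≤ Dg := by exact_mod_cast hD x
      gcongr
    unfold D at h3
    linarith
  refine ⟨g, g0, g1, ?_, ?_, ?_⟩
  · intro x hx φ a
    simp only [g]
    rw [fbi x (by omega) φ a, prod_congr rfl (fun y hy => kind y x
      (by rintro rfl; have := (hA y).1 hy; omega) (by have := (hA y).1 hy; omega) φ a)]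
  · intro φ h x hx
    have := (gne φ h).2 x ((hA x).2 hx)
    simp only [k, κ] at this
    constructor
    · intro h2; simp [h2] at this
    · intro h2; simp [h2] at this
  · intro U
    let T := U ∩ A
    let W := U ∪ T.biUnion N
    have hTA : T ⊆ A := inter_subset_right
    have hW : ∀ x ∈ A, x ∉ T → x ∉ W := by
      intro x hx hxT hxW
      rcases mem_union.1 hxW with h | h
      · exact hxT (mem_inter.2 ⟨h, hx⟩)
      · obtain ⟨y, hy, hxy⟩ := mem_biUnion.1 h
        have := hN y x hxy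
        rw [(hA x).1 hx, (hA y).1 (hTA hy)] at this
        exact lt_irrefl _ this
    have kW : ∀ x ∈ T, Meas W (k x) := fun x hx => (km x).mono (by
      intro y hy
      rcases mem_insert.1 hy with rfl | hy
      · exact mem_union_left _ (mem_inter.1 hx).1
      · exact mem_union_right _ (mem_biUnion.2 ⟨x, hx, hy⟩))
    have pW : Meas W (fun φ => ∏ x ∈ T, k x φ) := fun φ ψ h =>
      prod_congr rfl (fun x hx => kW x hx φ ψ h)
    let m : (I → V) → ℝ := fun φ => cond W fb φ * ∏ x ∈ T, k x φ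
    have mW : Meas W m := fun φ ψ h => by
      have e1 := pW φ ψ h
      simp only [m] at e1 ⊢
      rw [meas_cond W fb φ ψ h, e1]
    have mpos : ∀ φ, g φ ≠ 0 → 0 < m φ := fun φ h =>
      mul_pos (cond_pos W fb0 φ (gne φ h).1) (prod_pos (fun x hx =>
        lt_of_le_of_ne (k0 x φ) ((gne φ h).2 x (hTA hx)).symm))
    have qW : Meas W (fun φ => cond W g φ / m φ) := fun φ ψ h => by
      simp only [meas_cond W g φ ψ h, mW φ ψ h]
    have s1 : D W g ≤ 𝔼 φ, (g φ * Real.log (m φ) + (g φ * (cond W g φ / m φ) - g φ)) :=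
      expect_le_expect (fun φ _ => log_aux (g0 φ) (cond_pos W g0 φ) (mpos φ))
    have s2 : 𝔼 φ, g φ * (cond W g φ / m φ) ≤ 1 := by
      simp only [g]
      rw [rem T hTA _ (fun x hx hxT => qW.indep (hW x hx hxT))]
      simp only [mul_assoc (fb _)]
      rw [← tower W fb _ (fun φ ψ h => by
        have e1 := pW φ ψ h
        have e2 := qW φ ψ h
        simp only at e1 e2 ⊢
        rw [e1, e2])]
      rw [← g1, ← expect_cond W g]
      refine expect_le_expect (fun φ _ => ?_)
      rw [← mul_assoc]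
      exact mul_div_le (cond_nonneg W g0 φ)
    have s3 : 𝔼 φ, g φ * Real.log (m φ) =
        𝔼 φ, g φ * Real.log (cond W fb φ) + ∑ x ∈ T, 𝔼 φ, g φ * Real.log (k x φ) := by
      rw [← expect_sum_comm, ← expect_add_distrib]
      refine expect_congr rfl (fun φ _ => ?_)
      by_cases h0 : g φ = 0
      · simp [h0]
      · simp only [m]
        rw [Real.log_mul (cond_pos W fb0 φ (gne φ h0).1).ne'
          (prod_ne_zero_iff.2 (fun x hx => (gne φ h0).2 x (hTA hx))),
          Real.log_prod (fun x hx => (gne φ h0).2 x (hTA hx)), mul_add, mul_sum]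
    have s4 : 𝔼 φ, g φ * Real.log (cond W fb φ) = D W fb := by
      simp only [g]
      rw [rem ∅ (empty_subset _) _ (fun x hx _ φ a => by
        show Real.log _ = Real.log _
        rw [indep_cond W fb x (fbi x ((hA x).1 hx).ge) φ a])]
      simp [D]
    have s5 : ∑ x ∈ T, 𝔼 φ, g φ * Real.log (k x φ) ≤ T.card * (L + c * Dg * L) := by
      have := sum_le_card_nsmul T _ _ (fun x hx => klog x (hTA hx))
      rwa [nsmul_eq_mul] at this
    have s6 : (T.card : ℝ) ≤ U.card := by exact_mod_cast card_le_card inter_subset_left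
    have s7 : (W.card : ℝ) ≤ U.card * (1 + Dg) := by
      have h1 : W.card ≤ U.card + T.card * Dg := (card_union_le _ _).trans (Nat.add_le_add_left
        (card_biUnion_le.trans (by simpa using sum_le_card_nsmul T _ _ (fun x _ => hD x))) _)
      have h2 : (W.card : ℝ) ≤ U.card + T.card * Dg := by exact_mod_cast h1
      have h3 : (T.card : ℝ) * Dg ≤ U.card * Dg := by gcongr
      linarith
    have s8 := D_mono (subset_union_left : U ⊆ W) g g0 g1
    have s9 := fbD W
    rw [expect_add_distrib, expect_sub_distrib, g1, s3, s4] at s1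
    have s10 : c * W.card * L ≤ c * (U.card * (1 + Dg)) * L := by gcongr
    have s11 : (T.card : ℝ) * (L + c * Dg * L) ≤ U.card * (L + c * Dg * L) := by gcongr
    nlinarith

/-- The constants. -/
def cc (Dg : ℕ) : ℕ → ℕ
  | 0 => 0
  | r + 1 => cc Dg r * (1 + Dg) + 1 + cc Dg r * Dg

theorem core (π : I → ℕ) (N : I → Finset I) (Dg : ℕ) (hN : ∀ x, ∀ y ∈ N x, π y < π x)
    (hD : ∀ x, (N x).card ≤ Dg) (r : ℕ) : ∀ (G : Finset (Fin r → V)), G.Nonempty →
    ∀ 𝓔 : Set (Fin r → I), (∀ ε ∈ 𝓔, ∀ j : Fin r, π (ε j) + j.val + 1 = r) →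
    (∀ ε ∈ 𝓔, ∀ j j' : Fin r, j < j' → ε j' ∈ N (ε j)) →
    ∃ g : (I → V) → ℝ, (∀ φ, 0 ≤ g φ) ∧ 𝔼 φ, g φ = 1 ∧ (∀ x, r ≤ π x → Indep x g) ∧
      (∀ φ, g φ ≠ 0 → ∀ ε ∈ 𝓔, φ ∘ ε ∈ G) ∧
      ∀ U : Finset I, D U g ≤ cc Dg r * U.card * Real.log ((Fintype.card V : ℝ) ^ r / G.card) := by
  induction r with
  | zero =>
    intro G hG 𝓔 _ _
    refine ⟨fun _ => 1, fun _ => zero_le_one, by simp, fun _ _ _ _ => rfl, ?_, ?_⟩
    · intro φ _ ε _
      obtain ⟨x, hx⟩ := hG
      rwa [Subsingleton.elim (φ ∘ ε) x]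
    · intro U
      simp [D, cond, cc]
  | succ r ih =>
    intro G hG 𝓔 h1 h2
    have hn : (0 : ℝ) < Fintype.card V := by exact_mod_cast Fintype.card_pos
    have hGp : (0 : ℝ) < G.card := by exact_mod_cast hG.card_pos
    let Ga : V → Finset (Fin r → V) := fun a => univ.filter (fun x => (Fin.cons a x : Fin (r + 1) → V) ∈ G)
    have hsum : ∑ a, (Ga a).card = G.card := by
      have e1 : ∑ a, (Ga a).card = (univ.filter (fun p : V × (Fin r → V) =>
          (Fin.cons p.1 p.2 : Fin (r + 1) → V) ∈ G)).card := by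
        rw [card_filter, Fintype.sum_prod_type]
        simp only [Ga, card_filter]
      rw [e1]
      refine card_bij (fun p _ => (Fin.cons p.1 p.2 : Fin (r + 1) → V)) (fun p hp => (mem_filter.1 hp).2)
        ?_ ?_
      · rintro ⟨a, x⟩ _ ⟨b, y⟩ _ h
        simpa using h
      · intro x hx
        exact ⟨(x 0, Fin.tail x), by simpa using hx, by simp⟩
    have hle : ∀ a, ((Ga a).card : ℝ) ≤ (Fintype.card V : ℝ) ^ r := by
      intro a
      have := card_le_univ (Ga a)
      rw [Fintype.card_pi, prod_const, card_univ, Fintype.card_fin] at this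
      exact_mod_cast this
    have hGle : (G.card : ℝ) ≤ (Fintype.card V : ℝ) ^ (r + 1) := by
      have := card_le_univ G
      rw [Fintype.card_pi, prod_const, card_univ, Fintype.card_fin] at this
      exact_mod_cast this
    have hex : ∀ a, ∃ g : (I → V) → ℝ, (∀ φ, 0 ≤ g φ) ∧ 𝔼 φ, g φ = 1 ∧ (∀ x, r ≤ π x → Indep x g) ∧
        ((Ga a).Nonempty → (∀ φ, g φ ≠ 0 → ∀ ε ∈ Fin.tail '' 𝓔, φ ∘ ε ∈ Ga a) ∧
        ∀ U : Finset I, D U g ≤
          cc Dg r * U.card * Real.log ((Fintype.card V : ℝ) ^ r / (Ga a).card)) := by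
      intro a
      by_cases ha : (Ga a).Nonempty
      · obtain ⟨g, a1, a2, a3, a4, a5⟩ := ih (Ga a) ha (Fin.tail '' 𝓔) (by
          rintro _ ⟨ε, hε, rfl⟩ j
          have := h1 ε hε j.succ
          simp only [Fin.val_succ] at this
          simp only [Fin.tail]
          omega) (by
          rintro _ ⟨ε, hε, rfl⟩ j j' hj
          exact h2 ε hε j.succ j'.succ (Fin.succ_lt_succ_iff.2 hj))
        exact ⟨g, a1, a2, a3, fun _ => ⟨a4, a5⟩⟩
      · exact ⟨fun _ => 1, fun _ => zero_le_one, by simp, fun _ _ _ _ => rfl, fun h => absurd h ha⟩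
    choose f f0 f1 fi fs using hex
    let w : V → ℝ := fun a => (Ga a).card / G.card
    have hwne : ∀ a, w a ≠ 0 → (Ga a).Nonempty := by
      intro a h
      rw [← card_pos]
      by_contra h0
      have : (Ga a).card = 0 := by omega
      simp [w, this] at h
    have hw1 : ∑ a, w a = 1 := by
      simp only [w]
      rw [← sum_div, div_eq_one_iff_eq hGp.ne']
      exact_mod_cast hsum
    set L := Real.log ((Fintype.card V : ℝ) ^ (r + 1) / G.card) with hLdef
    obtain ⟨g, g0, g1, gi, gs, gD⟩ := step π N Dg hN hD r (cc Dg r) L (by positivity)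
      (Real.log_nonneg (by rw [le_div_iff₀ hGp]; linarith)) w (fun a => by positivity) hw1
      (by
        intro a h
        have hp : (0 : ℝ) < (Ga a).card := by exact_mod_cast (hwne a h).card_pos
        apply Real.log_le_log (by simp only [w]; positivity)
        simp only [w]
        rw [← mul_div_assoc, pow_succ']
        gcongr
        exact hle a)
      f f0 f1 fi (fun a => Real.log ((Fintype.card V : ℝ) ^ r / (Ga a).card))
      (fun a h U => (fs a (hwne a h)).2 U) (by
        have e : ∀ a, w a * Real.log ((Fintype.card V : ℝ) ^ r / (Ga a).card) ≤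
            w a * L + (1 / Fintype.card V - w a) := by
          intro a
          by_cases h : w a = 0
          · simp [h]
          · have hp : (0 : ℝ) < (Ga a).card := by exact_mod_cast (hwne a h).card_pos
            have := log_aux (a := w a) (g := (Fintype.card V : ℝ) ^ r / (Ga a).card)
              (h := (Fintype.card V : ℝ) ^ (r + 1) / G.card) (by positivity) (fun _ => by positivity)
              (fun _ => by positivity)
            have e2 : w a * ((Fintype.card V : ℝ) ^ r / (Ga a).card /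
                ((Fintype.card V : ℝ) ^ (r + 1) / G.card)) = 1 / Fintype.card V := by
              simp only [w]; field_simp; ring
            rw [e2] at this
            exact this
        refine (sum_le_sum (fun a _ => e a)).trans ?_
        rw [sum_add_distrib, sum_sub_distrib, ← sum_mul, hw1]
        simp only [sum_const, card_univ, nsmul_eq_mul]
        rw [mul_one_div_cancel hn.ne']
        linarith)
    refine ⟨g, g0, g1, gi, ?_, ?_⟩
    · intro φ hφ ε hε
      obtain ⟨a1, a2⟩ := gs φ hφ (ε 0) (by have := h1 ε hε 0; simpa using this)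
      obtain ⟨ψ, -, hψ⟩ := exists_ne_zero_of_expect_ne_zero a2
      have a3 := (mem_filter.1 ((fs _ (hwne _ a1)).1 _ hψ _ ⟨ε, hε, rfl⟩)).2
      have a4 : (Fin.cons (φ (ε 0)) ((N (ε 0)).piecewise φ ψ ∘ Fin.tail ε) : Fin (r + 1) → V) =
          φ ∘ ε := by
        funext j
        refine Fin.cases rfl (fun j => ?_) j
        simp only [Fin.cons_succ, Function.comp, Fin.tail]
        exact piecewise_eq_of_mem _ _ _ (h2 ε hε 0 j.succ (Fin.succ_pos j))
      rwa [a4] at a3
    · intro U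
      have := gD U
      simp only [cc]
      push_cast
      exact this

/-- Counting form. -/
theorem count (π : I → ℕ) (N : I → Finset I) (Dg : ℕ) (hN : ∀ x, ∀ y ∈ N x, π y < π x)
    (hD : ∀ x, (N x).card ≤ Dg) (r : ℕ) (G : Finset (Fin r → V)) (hG : G.Nonempty)
    (𝓔 : Set (Fin r → I)) (h1 : ∀ ε ∈ 𝓔, ∀ j : Fin r, π (ε j) + j.val + 1 = r)
    (h2 : ∀ ε ∈ 𝓔, ∀ j j' : Fin r, j < j' → ε j' ∈ N (ε j))
    (U : Finset I) (Hom : Finset (I → V)) (hH : ∀ φ, (∀ ε ∈ 𝓔, φ ∘ ε ∈ G) → φ ∈ Hom)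
    (hU : ∀ φ ψ : I → V, (∀ i ∈ U, φ i = ψ i) → (φ ∈ Hom ↔ ψ ∈ Hom)) :
    - Real.log ((Hom.card : ℝ) / (Fintype.card V : ℝ) ^ Fintype.card I) ≤
      cc Dg r * U.card * (- Real.log (G.card / (Fintype.card V : ℝ) ^ r)) := by
  obtain ⟨g, g0, g1, -, gs, gD⟩ := core π N Dg hN hD r G hG 𝓔 h1 h2
  have hn : (0 : ℝ) < Fintype.card V := by exact_mod_cast Fintype.card_pos
  set t : ℝ := (Hom.card : ℝ) / (Fintype.card V : ℝ) ^ Fintype.card I with ht
  have hne : Hom.Nonempty := by
    obtain ⟨φ, -, hφ⟩ := exists_ne_zero_of_expect_ne_zero (s := univ) (f := g) (by rw [g1]; norm_num)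
    exact ⟨φ, hH φ (gs φ hφ)⟩
  have htp : 0 < t := by
    have : (0 : ℝ) < Hom.card := by exact_mod_cast hne.card_pos
    positivity
  have h3 := gibbs U g (fun φ => if φ ∈ Hom then t⁻¹ else 0) g0 g1
    (fun φ => by split_ifs <;> positivity)
    (fun φ ψ h => by simp only [hU φ ψ h]) (by
      rw [Fintype.expect_eq_sum_div_card, sum_ite_mem, univ_inter, sum_const, nsmul_eq_mul,
        Fintype.card_pi, prod_const, card_univ]
      push_cast
      rw [mul_div_right_comm, ← ht, mul_inv_cancel₀ htp.ne'])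
    (fun φ h => by rw [if_pos (hH φ (gs φ h))]; positivity)
  have h4 : 𝔼 φ, g φ * Real.log (if φ ∈ Hom then t⁻¹ else 0) = 𝔼 φ, g φ * (- Real.log t) := by
    refine expect_congr rfl (fun φ _ => ?_)
    by_cases h : g φ = 0
    · simp [h]
    · rw [if_pos (hH φ (gs φ h)), Real.log_inv]
  rw [h4, ← expect_mul, g1, one_mul] at h3
  refine h3.trans ((gD U).trans (le_of_eq ?_))
  rw [← Real.log_inv, inv_div]

end Pool.Agent.H15.Ent
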