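import Mathlib

/-! A colouring of pairs of countable ordinals with constant patterns on diagonals of tuples. -/

set_option autoImplicit false

namespace Pool.Agent.H15.Eq

open Set Cardinal Filter

abbrev W1 : Type := (ℵ₁ : Cardinal.{0}).ord.ToType

instance : NoMaxOrder W1 := Cardinal.noMaxOrder aleph0_lt_aleph_one.le

theorem mk_W1 : #W1 = ℵ₁ := mk_ord_toType _

instance : Nonempty W1 := by
  rw [← mk_ne_zero_iff, mk_W1]
  exact (aleph0_pos.trans aleph0_lt_aleph_one).ne'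

theorem Iio_countable (a : W1) : (Iio a).Countable := by
  have := mk_Iio_lt a (by simp)
  exact le_aleph0_iff_set_countable.1
    (Order.lt_succ_iff.1 (this.trans_eq (mk_W1.trans succ_aleph0.symm)))

theorem en_ex (b : W1) : ∃ en : ℕ → W1, ∀ x < b, (∀ k, en k < b) ∧ ∃ k, en k = x := by
  rcases (Iio b).eq_empty_or_nonempty with h | h
  · exact ⟨fun _ => b, fun x hx => absurd (show x ∈ Iio b from hx) (by rw [h]; simp)⟩
  · obtain ⟨en, hen⟩ := (Iio_countable b).exists_eq_range h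
    refine ⟨en, fun x hx => ⟨fun k => ?_, ?_⟩⟩
    · show en k ∈ Iio b
      rw [hen]; exact ⟨k, rfl⟩
    · have : x ∈ Iio b := hx
      rwa [hen] at this

/-- a coherent sequence of finite-to-one maps -/
theorem coherent : ∃ e : W1 → W1 → ℕ, (∀ b m, {x | x < b ∧ e b x ≤ m}.Finite) ∧
    ∀ a b, a < b → {x | x < a ∧ e a x ≠ e b x}.Finite := by
  classical
  choose en hen using en_ex
  have hex : ∀ b x, x < b → ∃ k, x ≤ en b k := fun b x h => by
    obtain ⟨k, hk⟩ := (hen b x h).2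
    exact ⟨k, hk.ge⟩
  let step : ∀ b : W1, (∀ c, c < b → W1 → ℕ) → W1 → ℕ := fun b rc x =>
    if h : x < b then
      max (rc (en b (Nat.find (hex b x h))) ((hen b x h).1 _) x) (Nat.find (hex b x h))
    else 0
  let e : W1 → W1 → ℕ := (wellFounded_lt (α := W1)).fix step
  have he : ∀ b x (h : x < b),
      e b x = max (e (en b (Nat.find (hex b x h))) x) (Nat.find (hex b x h)) := by
    intro b x h
    have : e b = step b fun c _ => e c := WellFounded.fix_eq _ _ _
    rw [this]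
    simp only [step, dif_pos h]
  refine ⟨e, ?_⟩
  have key : ∀ b, (∀ m, {x | x < b ∧ e b x ≤ m}.Finite) ∧
      ∀ a, a < b → {x | x < a ∧ e a x ≠ e b x}.Finite := by
    intro b
    induction b using WellFoundedLT.induction with
    | ind b ih =>
    constructor
    · intro m
      rcases (Iio b).eq_empty_or_nonempty with h | ⟨x0, hx0⟩
      · exact Set.finite_empty.subset fun x hx => h ▸ hx.1
      refine ((Set.finite_le_nat m).biUnion fun k _ =>
        ((ih (en b k) ((hen b x0 hx0).1 k)).1 m).insert (en b k)).subset fun x hx => ?_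
      have h1 := hx.2
      rw [he b x hx.1] at h1
      refine mem_biUnion (x := Nat.find (hex b x hx.1)) (le_trans (le_max_right _ _) h1) ?_
      rcases (Nat.find_spec (hex b x hx.1)).lt_or_eq with h | h
      · exact Or.inr ⟨h, le_trans (le_max_left _ _) h1⟩
      · exact Or.inl h
    · intro a hab
      obtain ⟨j, hj⟩ := (hen b a hab).2
      have hc : ∀ c, c < b → {x | x < a ∧ x < c ∧ e a x ≠ e c x}.Finite := by
        intro c hc
        rcases lt_trichotomy a c with h | rfl | h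
        · exact ((ih c hc).2 a h).subset fun x hx => ⟨hx.1, hx.2.2⟩
        · exact Set.finite_empty.subset fun x hx => hx.2.2 rfl
        · exact ((ih a hab).2 c h).subset fun x hx => ⟨hx.2.1, hx.2.2.symm⟩
      refine ((Set.finite_le_nat j).biUnion fun k _ =>
        (((ih (en b k) ((hen b a hab).1 k)).1 k).union
          (hc _ ((hen b a hab).1 k))).insert (en b k)).subset fun x hx => ?_
      have hxb := hx.1.trans hab
      refine mem_biUnion (x := Nat.find (hex b x hxb))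
        (Nat.find_min' _ (by rw [hj]; exact hx.1.le)) ?_
      rcases (Nat.find_spec (hex b x hxb)).lt_or_eq with h | h
      · right
        rcases le_total (e (en b (Nat.find (hex b x hxb))) x) (Nat.find (hex b x hxb)) with h1 | h1
        · exact Or.inl ⟨h, h1⟩
        · refine Or.inr ⟨hx.1, h, ?_⟩
          have h2 := hx.2
          rwa [he b x hxb, max_eq_left h1] at h2
      · exact Or.inl h
  exact ⟨fun b => (key b).1, fun a b => (key b).2 a⟩


theorem unc : ¬ (univ : Set W1).Countable := fun h => by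
  have := le_aleph0_iff_set_countable.2 h
  rw [mk_univ, mk_W1] at this
  exact absurd aleph0_lt_aleph_one (not_lt.2 this)

theorem Iic_countable (a : W1) : (Iic a).Countable := by
  rw [← Iio_insert]; exact (Iio_countable a).insert a

theorem bdd (S : Set W1) (hS : S.Countable) : ∃ γ, ∀ x ∈ S, x < γ := by
  by_contra hc
  push Not at hc
  refine unc ((hS.biUnion fun x _ => Iic_countable x).mono fun γ _ => ?_)
  obtain ⟨x, hx, h⟩ := hc γ
  exact mem_biUnion hx h

variable {J ι : Type}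

def Unb (μ : J → W1) (P : J → Prop) : Prop := ∀ γ, ∃ j, P j ∧ γ < μ j

theorem Unb.fib {μ : J → W1} {P : J → Prop} {T : Type} [Countable T] (h : Unb μ P) (f : J → T) :
    ∃ t, Unb μ fun j => P j ∧ f j = t := by
  by_contra hc
  simp only [Unb, not_exists, not_forall] at hc
  choose γ hγ using hc
  obtain ⟨g, hg⟩ := bdd (range γ) (countable_range _)
  obtain ⟨j, hj, hlt⟩ := h g
  exact hγ (f j) j ⟨⟨hj, rfl⟩, (hg _ ⟨_, rfl⟩).trans hlt⟩

theorem limit [Fintype ι] (g : J → W1 → ι → ℕ) (a : J → ι → W1) (μ : J → W1) (i0 : ι)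
    (h1 : ∀ j m, {x | x < μ j ∧ g j x i0 ≤ m}.Finite) (P : J → Prop) (hP : Unb μ P)
    (R : (ι → ℕ) → (ι → ℕ) → Prop)
    (hT : ∀ j j' ξ, P j → P j' → ξ < μ j → ξ < μ j' → (∀ ζ < ξ, g j ζ = g j' ζ) →
      g j ξ = g j' ξ ∨ R (g j ξ) (g j' ξ) ∨ R (g j' ξ) (g j ξ)) :
    ∃ j j' ξ, P j ∧ P j' ∧ (∀ i, a j i < μ j') ∧ ξ < μ j ∧ ξ < μ j' ∧ (∀ ζ < ξ, g j ζ = g j' ζ) ∧
      R (g j ξ) (g j' ξ) := by
  by_contra hc
  push Not at hc
  choose top htop using fun j => bdd (range (a j)) (countable_range _)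
  have key : ∀ ξ, ∃ γ v, ∀ j, P j → γ < μ j → g j ξ = v := by
    intro ξ
    induction ξ using WellFoundedLT.induction with
    | ind ξ ih =>
    choose! γ v hv using ih
    obtain ⟨γ0, h0⟩ := bdd (insert ξ (γ '' Iio ξ)) (((Iio_countable ξ).image _).insert _)
    have hξ : ξ < γ0 := h0 _ (mem_insert _ _)
    have ag : ∀ j j', P j → P j' → γ0 < μ j → γ0 < μ j' → ∀ ζ < ξ, g j ζ = g j' ζ := by
      intro j j' p p' l l' ζ hζ
      have : γ ζ < γ0 := h0 _ (mem_insert_of_mem _ ⟨ζ, hζ, rfl⟩)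
      rw [hv ζ hζ j p (this.trans l), hv ζ hζ j' p' (this.trans l')]
    obtain ⟨w, hw⟩ := hP.fib fun j => g j ξ
    obtain ⟨j0, ⟨p0, e0⟩, l0⟩ := hw γ0
    refine ⟨max γ0 (top j0), w, fun j p l => ?_⟩
    have l1 := (le_max_left _ _).trans_lt l
    obtain ⟨j1, ⟨p1, e1⟩, l2⟩ := hw (max γ0 (top j))
    have l3 := (le_max_left _ _).trans_lt l2
    have n0 := hc j0 j ξ p0 p (fun i => ((htop j0 _ ⟨i, rfl⟩).trans_le (le_max_right _ _)).trans l)
      (hξ.trans l0) (hξ.trans l1) (ag _ _ p0 p l0 l1)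
    have n1 := hc j j1 ξ p p1 (fun i => ((htop j _ ⟨i, rfl⟩).trans_le (le_max_right _ _)).trans l2)
      (hξ.trans l1) (hξ.trans l3) (ag _ _ p p1 l1 l3)
    rcases hT j0 j ξ p0 p (hξ.trans l0) (hξ.trans l1) (ag _ _ p0 p l0 l1) with h | h | h
    · rw [← h]; exact e0
    · exact absurd h n0
    · rw [e0, ← e1] at h; exact absurd h n1
  choose γ v hv using key
  have : ∃ m, {ξ | v ξ i0 = m}.Infinite := by
    by_contra h
    push Not at h
    exact unc ((countable_iUnion fun m => (h m).countable).mono fun ξ _ =>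
      mem_iUnion.2 ⟨v ξ i0, rfl⟩)
  obtain ⟨m, hm⟩ := this
  obtain ⟨S, hS, hcn, hi⟩ := hm.exists_subset_countable_infinite
  obtain ⟨b, hb⟩ := bdd (S ∪ γ '' S) (hcn.union (hcn.image _))
  obtain ⟨j, p, l⟩ := hP b
  refine hi ((h1 j m).subset fun x hx => ⟨(hb _ (Or.inl hx)).trans l, ?_⟩)
  rw [hv x j p ((hb _ (Or.inr ⟨x, hx, rfl⟩)).trans l)]
  exact (hS hx).le

theorem types [Fintype ι] (g : J → W1 → ι → ℕ) (μ : J → W1) (i0 : ι)
    (h1 : ∀ j m i, {x | x < μ j ∧ g j x i ≤ m}.Finite)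
    (h2 : ∀ j i i', {x | x < μ j ∧ g j x i ≠ g j x i'}.Finite) (hU : Unb μ fun _ => True) :
    ∃ P, Unb μ P ∧ ∀ j j' ξ, P j → P j' → ξ < μ j → ξ < μ j' → (∀ ζ < ξ, g j ζ = g j' ζ) →
      g j ξ = g j' ξ ∨ (∀ i, g j ξ i < g j' ξ i) ∨ ∀ i, g j' ξ i < g j ξ i := by
  classical
  have hn : ∀ j, ∃ n, ∀ i i' x, x < μ j → g j x i ≠ g j x i' → g j x i ≤ n := by
    intro j
    obtain ⟨n, hn⟩ := (finite_iUnion fun i => finite_iUnion fun i' =>
      (h2 j i i').image fun x => g j x i).bddAbove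
    exact ⟨n, fun i i' x hx h => hn (mem_iUnion.2 ⟨i, mem_iUnion.2 ⟨i', x, ⟨hx, h⟩, rfl⟩⟩)⟩
  choose n hn using hn
  have hF : ∀ j, ∃ F : Finset W1, ∀ x, x ∈ F ↔ x < μ j ∧ ∃ i, g j x i ≤ n j := by
    intro j
    refine ⟨(finite_iUnion fun i => h1 j (n j) i).toFinset, fun x => ?_⟩
    simp
  choose F hF using hF
  obtain ⟨t, ht⟩ := hU.fib fun j =>
    (n j, (F j).image fun ξ => (((F j).filter (· < ξ)).card, g j ξ))
  refine ⟨_, ht, ?_⟩
  have one : ∀ j j' ξ, n j = n j' → ξ < μ j' → ξ ∈ F j → ξ ∉ F j' → ∀ i, g j ξ i < g j' ξ i := by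
    intro j j' ξ en l' m m' i
    obtain ⟨l, i1, hi1⟩ := (hF _ _).1 m
    have a1 : g j ξ i ≤ n j := by
      by_cases c : g j ξ i = g j ξ i1
      · rw [c]; exact hi1
      · exact hn j i i1 ξ l c
    have a2 : ¬ g j' ξ i ≤ n j' := fun c => m' ((hF _ _).2 ⟨l', i, c⟩)
    omega
  rintro j j' ξ ⟨-, p⟩ ⟨-, p'⟩ l l' ag
  have e := p.trans p'.symm
  simp only [Prod.mk.injEq] at e
  obtain ⟨en, eF⟩ := e
  by_cases m : ξ ∈ F j <;> by_cases m' : ξ ∈ F j'
  · left
    have ef : (F j).filter (· < ξ) = (F j').filter (· < ξ) := by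
      ext ζ
      simp only [Finset.mem_filter, hF]
      constructor
      · rintro ⟨⟨-, h⟩, hζ⟩
        exact ⟨⟨hζ.trans l', by rwa [← ag ζ hζ, ← en]⟩, hζ⟩
      · rintro ⟨⟨-, h⟩, hζ⟩
        exact ⟨⟨hζ.trans l, by rwa [ag ζ hζ, en]⟩, hζ⟩
    have := Finset.mem_image_of_mem (fun ξ => (((F j).filter (· < ξ)).card, g j ξ)) m
    rw [eF] at this
    obtain ⟨ζ, hζ, h⟩ := Finset.mem_image.1 this
    simp only [Prod.mk.injEq] at h
    rw [ef] at h
    have mono : ∀ x y, x ∈ F j' → x < y →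
        ((F j').filter (· < x)).card < ((F j').filter (· < y)).card := by
      intro x y hx hxy
      refine Finset.card_lt_card ⟨fun z hz => ?_, fun hs => ?_⟩
      · simp only [Finset.mem_filter] at hz ⊢
        exact ⟨hz.1, hz.2.trans hxy⟩
      · have := hs (Finset.mem_filter.2 ⟨hx, hxy⟩)
        simp at this
    rcases lt_trichotomy ζ ξ with c | c | c
    · exact absurd h.1 (mono _ _ hζ c).ne
    · rw [← h.2, c]
    · exact absurd h.1 (mono _ _ m' c).ne'
  · exact Or.inr (Or.inl (one j j' ξ en l' m m'))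
  · exact Or.inr (Or.inr (one j' j ξ en.symm l m' m))
  · have c : ∀ j, ξ < μ j → ξ ∉ F j → ∀ i, g j ξ i = g j ξ i0 := by
      intro j l m i
      by_contra c
      exact m ((hF _ _).2 ⟨l, i, hn j i i0 ξ l c⟩)
    rcases lt_trichotomy (g j ξ i0) (g j' ξ i0) with d | d | d
    · exact Or.inr (Or.inl fun i => by rwa [c j l m, c j' l' m'])
    · exact Or.inl (funext fun i => by rw [c j l m, c j' l' m', d])
    · exact Or.inr (Or.inr fun i => by rwa [c j l m, c j' l' m'])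

/-- the colouring -/
theorem colour : ∃ C : W1 → W1 → Prop, (∀ α β, C α β → α < β) ∧
    ∀ (J ι : Type) [Fintype ι] [Nonempty ι] (a : J → ι → W1), (∀ γ, ∃ j, ∀ i, γ < a j i) →
      (∃ j j', ∀ i, a j i < a j' i ∧ C (a j i) (a j' i)) ∧
      (∃ j j', ∀ i, a j i < a j' i ∧ ¬ C (a j i) (a j' i)) := by
  obtain ⟨e, h1, h2⟩ := coherent
  refine ⟨fun α β => α < β ∧ ∃ ξ, (∀ ζ < ξ, e α ζ = e β ζ) ∧ e α ξ < e β ξ, fun _ _ h => h.1, ?_⟩
  intro J ι _ hι a ha
  obtain ⟨i0⟩ := hι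
  have hμ : ∀ j, ∃ i, ∀ i', a j i ≤ a j i' := fun j => by
    have : Nonempty ι := ⟨i0⟩
    exact Finite.exists_min (a j)
  choose k hk using hμ
  have f1 : ∀ j m i, {x | x < a j (k j) ∧ e (a j i) x ≤ m}.Finite := fun j m i =>
    (h1 (a j i) m).subset fun x hx => ⟨hx.1.trans_le (hk j i), hx.2⟩
  obtain ⟨P, hP, hT⟩ := types (fun j x i => e (a j i) x) (fun j => a j (k j)) i0 f1
    (fun j i i' => by
      rcases lt_trichotomy (a j i) (a j i') with c | c | c
      · exact (h2 _ _ c).subset fun x hx => ⟨hx.1.trans_le (hk j i), hx.2⟩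
      · exact finite_empty.subset fun x hx => hx.2 (by simp only [c])
      · exact (h2 _ _ c).subset fun x hx => ⟨hx.1.trans_le (hk j i'), hx.2.symm⟩)
    (fun γ => by
      obtain ⟨j, hj⟩ := ha γ
      exact ⟨j, trivial, hj _⟩)
  constructor
  · obtain ⟨j, j', ξ, -, -, l, -, -, ag, hR⟩ := limit (fun j x i => e (a j i) x) a
      (fun j => a j (k j)) i0 (fun j m => f1 j m i0) P hP (fun x y => ∀ i, x i < y i) hT
    exact ⟨j, j', fun i => ⟨(l i).trans_le (hk _ _), (l i).trans_le (hk _ _), ξ,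
      fun ζ hζ => congrFun (ag ζ hζ) i, hR i⟩⟩
  · obtain ⟨j, j', ξ, -, -, l, -, -, ag, hR⟩ := limit (fun j x i => e (a j i) x) a
      (fun j => a j (k j)) i0 (fun j m => f1 j m i0) P hP (fun x y => ∀ i, y i < x i)
      (fun j j' ξ p p' l l' h => (hT j j' ξ p p' l l' h).imp_right Or.symm)
    refine ⟨j, j', fun i => ⟨(l i).trans_le (hk _ _), ?_⟩⟩
    rintro ⟨-, ζ, h, h'⟩
    have a1 : e (a j' i) ξ < e (a j i) ξ := hR i
    rcases lt_trichotomy ζ ξ with c | c | c
    · exact h'.ne (congrFun (ag ζ c) i)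
    · rw [c] at h'; omega
    · exact a1.ne' (h ξ c)

end Pool.Agent.H15.Eq
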