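import Pool.Agent.H15.Eq2

/-! Estimates for differences of two finitely supported vectors. -/

set_option autoImplicit false

namespace Pool.Agent.H15.Eq

open Set Cardinal Filter

theorem zf_at {n : ℕ} (w : Fin n → ℚ) (b : Fin n → W1) (hb : Function.Injective b) (i : Fin n) :
    zf w b (b i) = w i := by
  simp only [zf, lp.coeFn_sum, Finset.sum_apply]
  rw [Finset.sum_eq_single i (fun j _ h => lp.single_apply_ne _ _ _ (hb.ne h.symm)) (by simp)]
  exact lp.single_apply_self _ _ _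

theorem zf_off {n : ℕ} (w : Fin n → ℚ) (b : Fin n → W1) (α : W1) (h : ∀ i, α ≠ b i) :
    zf w b α = 0 := by
  simp only [zf, lp.coeFn_sum, Finset.sum_apply]
  exact Finset.sum_eq_zero fun j _ => lp.single_apply_ne _ _ _ (h j)

theorem est (C : W1 → W1 → Prop) (hC : ∀ α β, C α β → α < β) (key : ℕ → W1 → Finset ℕ)
    (hkey : ∀ m m' α β, m ≤ m' → key m' α = key m' β → key m α = key m β)
    {n : ℕ} (w : Fin n → ℚ) (m : ℕ) (s : Fin n → Finset ℕ) (hs : Function.Injective s)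
    (b b' : Fin n → W1) (hb : ∀ i, key m (b i) = s i) (hb' : ∀ i, key m (b' i) = s i)
    (D : Finset (Fin n)) (hD : ∀ i ∈ D, b i = b' i) (hl : ∀ i ∉ D, b i < b' i) :
    ((∀ i ∉ D, C (b i) (b' i)) → ∃ F, Adm C key F ∧ 4 * ∑ i ∈ Dᶜ, (w i : ℝ) ^ 2 =
      ∑ p ∈ F, ((zf w b - zf w b') p.1 - (zf w b - zf w b') p.2) ^ 2) ∧
    ‖zf w b - zf w b'‖ ^ 2 ≤ 2 * ∑ i ∈ Dᶜ, (w i : ℝ) ^ 2 ∧
    ((∀ i ∉ D, ¬ C (b i) (b' i)) → ∀ F, Adm C key F →
      ∑ p ∈ F, ((zf w b - zf w b') p.1 - (zf w b - zf w b') p.2) ^ 2 ≤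
        2 * ∑ i ∈ Dᶜ, (w i : ℝ) ^ 2) := by
  classical
  set x := zf w b - zf w b' with hx
  have ib : Function.Injective b := fun i j h => hs (by rw [← hb, ← hb, h])
  have ib' : Function.Injective b' := fun i j h => hs (by rw [← hb', ← hb', h])
  have ne : ∀ i ∉ D, ∀ j, b i ≠ b' j := fun i hi j h => by
    obtain rfl : i = j := hs (by rw [← hb, ← hb', h])
    exact (hl i hi).ne h
  have ne' : ∀ i ∉ D, ∀ j, b' i ≠ b j := fun i hi j h => by
    obtain rfl : i = j := hs (by rw [← hb' i, ← hb j, h])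
    exact (hl i hi).ne' h
  have xe : ∀ α, x α = zf w b α - zf w b' α := fun α => rfl
  have v1 : ∀ i ∉ D, x (b i) = w i := fun i hi => by
    rw [xe, zf_at w b ib, zf_off w b' _ (ne i hi), sub_zero]
  have v2 : ∀ i ∉ D, x (b' i) = - w i := fun i hi => by
    rw [xe, zf_at w b' ib', zf_off w b _ (ne' i hi), zero_sub]
  have str : ∀ α, x α = 0 ∨ ∃ i ∉ D, α = b i ∨ α = b' i := by
    intro α
    by_cases h : ∃ i, α = b i
    · obtain ⟨i, rfl⟩ := h
      by_cases hi : i ∈ D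
      · left
        rw [xe, zf_at w b ib, hD i hi, zf_at w b' ib', sub_self]
      · exact Or.inr ⟨i, hi, Or.inl rfl⟩
    · by_cases h' : ∃ i, α = b' i
      · obtain ⟨i, rfl⟩ := h'
        exact Or.inr ⟨i, fun hi => h ⟨i, (hD i hi).symm⟩, Or.inr rfl⟩
      · push Not at h h'
        left
        rw [xe, zf_off w b _ h, zf_off w b' _ h', sub_self]
  let c : Fin n ⊕ Fin n → W1 := Sum.elim b b'
  let V : Fin n → ℝ := fun i => if i ∈ Dᶜ then (w i : ℝ) ^ 2 else 0
  let W : Fin n ⊕ Fin n → ℝ := Sum.elim V V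
  have hV : ∀ i ∉ D, V i = (w i : ℝ) ^ 2 := fun i hi => if_pos (Finset.mem_compl.2 hi)
  have hW : ∀ u, 0 ≤ W u := by
    rintro (i | i) <;> simp only [W, V, Sum.elim_inl, Sum.elim_inr] <;> split_ifs <;> positivity
  have sW : ∑ u, W u = 2 * ∑ i ∈ Dᶜ, (w i : ℝ) ^ 2 := by
    rw [Fintype.sum_sum_type]
    simp only [W, V, Sum.elim_inl, Sum.elim_inr, Finset.sum_ite_mem, Finset.univ_inter]
    ring
  have pt : ∀ (K : Type) [DecidableEq K] (ν : W1 → K) (α : W1) (k : K), ν α = k →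
      x α ^ 2 ≤ ∑ u with ν (c u) = k, W u := by
    intro K _ ν α k hk
    rcases str α with h | ⟨i, hi, rfl | rfl⟩
    · rw [h]; simpa using Finset.sum_nonneg fun u _ => hW u
    · rw [v1 i hi, ← hV i hi]
      exact Finset.single_le_sum (f := W) (a := Sum.inl i) (fun u _ => hW u) (by simpa [c] using hk)
    · rw [v2 i hi, neg_sq, ← hV i hi]
      exact Finset.single_le_sum (f := W) (a := Sum.inr i) (fun u _ => hW u) (by simpa [c] using hk)
  refine ⟨fun h => ⟨Dᶜ.image fun i => (b i, b' i), ⟨m, ?_, ?_⟩, ?_⟩, ?_, ?_⟩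
  · intro p hp
    obtain ⟨i, hi, rfl⟩ := Finset.mem_image.1 hp
    exact ⟨h i (Finset.mem_compl.1 hi), (hb i).trans (hb' i).symm⟩
  · intro p hp q hq e
    obtain ⟨i, hi, rfl⟩ := Finset.mem_image.1 hp
    obtain ⟨j, hj, rfl⟩ := Finset.mem_image.1 hq
    obtain rfl : i = j := hs (by simpa only [hb] using e)
    rfl
  · rw [Finset.sum_image fun i _ j _ e => ib (congrArg Prod.fst e), Finset.mul_sum]
    refine Finset.sum_congr rfl fun i hi => ?_
    simp only
    rw [v1 i (Finset.mem_compl.1 hi), v2 i (Finset.mem_compl.1 hi)]; ring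
  · refine norm_sq_le _ _ fun t => ?_
    rw [← sW]
    exact (Finset.sum_le_sum fun α _ => pt W1 id α α rfl).trans
      (fibsum t id (injOn_id _) (fun u => id (c u)) W hW)
  · rintro h F ⟨m', h1, h2⟩
    rw [← sW]
    refine (Finset.sum_le_sum fun p hp => ?_).trans
      (fibsum F (fun p => key m' p.1) h2 (fun u => key m' (c u)) W hW)
    obtain ⟨cp, kp⟩ := h1 p hp
    have lt := hC _ _ cp
    rcases str p.1 with z1 | ⟨i, hi, e1⟩
    · rw [z1, zero_sub, neg_sq]; exact pt _ (key m') _ _ kp.symm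
    rcases str p.2 with z2 | ⟨j, hj, e2⟩
    · rw [z2, sub_zero]; exact pt _ (key m') _ _ rfl
    have k1 : key m p.1 = s i := by rcases e1 with e | e <;> rw [e] <;> simp [hb, hb']
    have k2 : key m p.2 = s j := by rcases e2 with e | e <;> rw [e] <;> simp [hb, hb']
    have ij : i ≠ j := by
      rintro rfl
      rcases e1 with e | e <;> rcases e2 with e' | e' <;> rw [e, e'] at lt cp
      · exact lt.false
      · exact h i hi cp
      · exact lt.asymm (hl i hi)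
      · exact lt.false
    have mm : m' ≤ m := by
      by_contra hc
      exact ij (hs (by rw [← k1, ← k2]; exact hkey _ _ _ _ (not_le.1 hc).le kp))
    have q1 : x p.1 ^ 2 = (w i : ℝ) ^ 2 := by
      rcases e1 with e | e <;> rw [e] <;> simp [v1 i hi, v2 i hi]
    have q2 : x p.2 ^ 2 = (w j : ℝ) ^ 2 := by
      rcases e2 with e | e <;> rw [e] <;> simp [v1 j hj, v2 j hj]
    have sub : ({Sum.inl i, Sum.inr i, Sum.inl j, Sum.inr j} : Finset (Fin n ⊕ Fin n)) ⊆
        Finset.univ.filter fun u => key m' (c u) = key m' p.1 := by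
      intro u hu
      simp only [Finset.mem_insert, Finset.mem_singleton] at hu
      refine Finset.mem_filter.2 ⟨Finset.mem_univ _, ?_⟩
      rcases hu with rfl | rfl | rfl | rfl
      · exact hkey _ _ _ _ mm ((hb i).trans k1.symm)
      · exact hkey _ _ _ _ mm ((hb' i).trans k1.symm)
      · exact (hkey _ _ _ _ mm ((hb j).trans k2.symm)).trans kp.symm
      · exact (hkey _ _ _ _ mm ((hb' j).trans k2.symm)).trans kp.symm
    refine le_trans ?_ (Finset.sum_le_sum_of_subset_of_nonneg sub fun u _ _ => hW u)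
    rw [Finset.sum_insert (by simp [ij]), Finset.sum_insert (by simp [ij]),
      Finset.sum_insert (by simp), Finset.sum_singleton]
    simp only [W, Sum.elim_inl, Sum.elim_inr, hV i hi, hV j hj]
    nlinarith [sq_nonneg (x p.1 + x p.2)]

theorem main : ∃ N : Seminorm ℝ E, (∀ x, ‖x‖ ≤ N x ∧ N x ≤ 2 * ‖x‖) ∧
    ∀ (Y : Set E) (δ : ℝ), 0 < δ → (∀ y ∈ Y, ∀ y' ∈ Y, y ≠ y' → N (y - y') = δ) → Y.Countable := by
  classical
  obtain ⟨C, hC, hcol⟩ := colour
  obtain ⟨key, hkey, hsep⟩ := exKey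
  obtain ⟨N, h1, h2, h3⟩ := exN C key
  refine ⟨N, h1, fun Y δ hδ hY => ?_⟩
  by_contra hn
  have hex : ∃ t : Σ n : ℕ, (Fin n → ℚ) × ℕ × (Fin n → Finset ℕ), ¬ {y ∈ Y |
      Function.Injective t.2.2.2 ∧ ∃ b : Fin t.1 → W1, (∀ i, key t.2.2.1 (b i) = t.2.2.2 i) ∧
        ‖y - zf t.2.1 b‖ < δ / 40}.Countable := by
    by_contra hc
    push Not at hc
    refine hn ((countable_iUnion hc).mono fun y hy => ?_)
    obtain ⟨n, w, b, hb, hlt⟩ := approx y (ε := δ / 40) (by positivity)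
    have : ∀ q : Fin n × Fin n, ∃ m, q.1 ≠ q.2 → key m (b q.1) ≠ key m (b q.2) := fun q => by
      by_cases c : q.1 = q.2
      · exact ⟨0, fun h => absurd c h⟩
      · obtain ⟨m, hm⟩ := hsep _ _ (hb.ne c)
        exact ⟨m, fun _ => hm⟩
    choose f hf using this
    obtain ⟨m, hm⟩ := (finite_range f).bddAbove
    refine mem_iUnion.2 ⟨⟨n, w, m, fun i => key m (b i)⟩, hy, fun i j e => ?_, b, fun _ => rfl, hlt⟩
    by_contra c
    exact hf (i, j) c (hkey _ _ _ _ (hm ⟨_, rfl⟩) e)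
  obtain ⟨⟨n, w, m, s⟩, ht⟩ := hex
  simp only at ht
  set S := {y ∈ Y | Function.Injective s ∧ ∃ b : Fin n → W1, (∀ i, key m (b i) = s i) ∧
        ‖y - zf w b‖ < δ / 40} with hS
  have : ∀ y, ∃ b : Fin n → W1, y ∈ S → (∀ i, key m (b i) = s i) ∧ ‖y - zf w b‖ < δ / 40 :=
    fun y => by
      by_cases c : y ∈ S
      · obtain ⟨b, hb⟩ := c.2.2
        exact ⟨b, fun _ => hb⟩
      · exact ⟨fun _ => Classical.arbitrary _, fun h => absurd h c⟩
  choose b hb using this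
  obtain ⟨S', sub, hS', D, hD, hγ⟩ := delta b S ht
  have close : ∀ y ∈ S', ∀ y' ∈ S', y ≠ y' →
      δ * (9 / 10) ≤ N (zf w (b y) - zf w (b y')) ∧ N (zf w (b y) - zf w (b y')) ≤ δ * (11 / 10) := by
    intro y hy y' hy' ne
    have a1 := (hb y (sub hy)).2
    have a2 := (hb y' (sub hy')).2
    have a3 := hY y (sub hy).1 y' (sub hy').1 ne
    have a4 : N ((y - y') - (zf w (b y) - zf w (b y'))) ≤ δ / 10 := by
      rw [show (y - y') - (zf w (b y) - zf w (b y')) = (y - zf w (b y)) - (y' - zf w (b y')) by abel]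
      have := norm_sub_le (y - zf w (b y)) (y' - zf w (b y'))
      linarith [(h1 ((y - zf w (b y)) - (y' - zf w (b y')))).2]
    have a5 := abs_sub_map_le_sub N (y - y') (zf w (b y) - zf w (b y'))
    rw [abs_le] at a5
    constructor <;> linarith [a5.1, a5.2]
  have E0 := fun y (hy : y ∈ S') y' (hy' : y' ∈ S') =>
    est C hC key hkey w m s (sub hy).2.1 (b y) (b y') (hb y (sub hy)).1 (hb y' (sub hy')).1 D
      (hD y hy y' hy')
  have up : ∀ y ∈ S', ∀ y' ∈ S', y ≠ y' → (∀ i ∉ D, b y i < b y' i ∧ ¬ C (b y i) (b y' i)) →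
      (δ * (9 / 10)) ^ 2 ≤ 2 * ∑ i ∈ Dᶜ, (w i : ℝ) ^ 2 := by
    intro y hy y' hy' ne h
    obtain ⟨-, a1, a2⟩ := E0 y hy y' hy' fun i hi => (h i hi).1
    refine le_trans ?_ (h3 _ _ a1 (a2 fun i hi => (h i hi).2))
    have := (close y hy y' hy' ne).1
    gcongr
  by_cases hne : Nonempty {i // i ∉ D}
  · obtain ⟨⟨y, y', p⟩, z, z', q⟩ := hcol S' {i // i ∉ D} (fun y i => b y.1 i.1) fun γ => by
      obtain ⟨y, hy, h⟩ := hγ γ
      exact ⟨⟨y, hy⟩, fun i => h i.1 i.2⟩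
    obtain ⟨i0⟩ := hne
    have n1 : y.1 ≠ y'.1 := fun e => (p i0).1.ne (by simp only [e])
    have n2 : z.1 ≠ z'.1 := fun e => (q i0).1.ne (by simp only [e])
    have a1 := up _ z.2 _ z'.2 n2 fun i hi => q ⟨i, hi⟩
    obtain ⟨F, hF, a2⟩ := (E0 _ y.2 _ y'.2 fun i hi => (p ⟨i, hi⟩).1).1 fun i hi => (p ⟨i, hi⟩).2
    have a3 := h2 F (zf w (b y) - zf w (b y')) hF
    have a4 : N (zf w (b y) - zf w (b y')) ^ 2 ≤ (δ * (11 / 10)) ^ 2 :=
      pow_le_pow_left₀ (apply_nonneg _ _) (close _ y.2 _ y'.2 n1).2 2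
    nlinarith [sq_pos_of_pos hδ]
  · have hall : ∀ i, i ∈ D := fun i => by
      by_contra c
      exact hne ⟨⟨i, c⟩⟩
    obtain ⟨y, hy, y', hy', ne⟩ : S'.Nontrivial := by
      by_contra c
      exact hS' (not_nontrivial_iff.1 c).countable
    have a1 := up y hy y' hy' ne fun i hi => absurd (hall i) hi
    rw [Finset.sum_eq_zero fun i hi => absurd (hall i) (Finset.mem_compl.1 hi)] at a1
    nlinarith [sq_pos_of_pos hδ]

end Pool.Agent.H15.Eq
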