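import Mathlib

/-! Kernels of the attack digraph of an ordered set covered by finitely many strong chains. -/

open Set

namespace Pool.Agent.H15.FB

structure St {V κ : Type} [PartialOrder V] (ll : V → V → Prop) (c : V → κ) : Prop where
  irr : ∀ u, ¬ ll u u
  le : ∀ u v, ll u v → u ≤ v
  l1 : ∀ u u' v, u ≤ u' → ll u' v → ll u v
  l2 : ∀ u v v', ll u v → v ≤ v' → ll u v'
  col : ∀ u v, c u = c v → u = v ∨ ll u v ∨ ll v u

variable {V κ : Type} [PartialOrder V]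

def att (ll : V → V → Prop) (u v : V) : Prop := ¬ v ≤ u ∧ ¬ ll u v

def Ind (ll : V → V → Prop) (K : Set V) : Prop := ∀ u ∈ K, ∀ v ∈ K, ¬ att ll u v

def Ker (ll : V → V → Prop) (R K : Set V) : Prop :=
  K ⊆ R ∧ Ind ll K ∧ ∀ v ∈ R, v ∉ K → ∃ u ∈ K, att ll u v

variable {ll : V → V → Prop} {c : V → κ}

lemma St.asym (h : St ll c) {u v : V} (h1 : att ll u v) (h2 : ¬ att ll v u) : u < v := by
  have : u ≤ v := by
    by_contra h3
    exact h2 ⟨h3, fun h4 => h1.1 (h.le _ _ h4)⟩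
  exact lt_of_le_not_ge this h1.1

lemma St.finKer (h : St ll c) (s : Finset V) : ∃ K, Ker ll (s : Set V) K := by
  classical
  induction s using Finset.strongInduction with
  | H s ih =>
    rcases s.eq_empty_or_nonempty with rfl | hs
    · exact ⟨∅, by simp, by simp [Ind], by simp⟩
    obtain ⟨m, hm⟩ := s.exists_maximal hs
    obtain ⟨K, hK1, hK2, hK3⟩ := ih (s.erase m) (Finset.erase_ssubset hm.1)
    have hs' : ∀ v ∈ s, v ≠ m → v ∈ ((s.erase m : Finset V) : Set V) := fun v hv hne => by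
      simp [hv, hne]
    by_cases hx : ∃ u ∈ K, att ll u m
    · refine ⟨K, fun v hv => Finset.mem_of_mem_erase (hK1 hv), hK2, fun v hv hvK => ?_⟩
      by_cases e : v = m
      · exact e ▸ hx
      · exact hK3 v (hs' v hv e) hvK
    · push Not at hx
      refine ⟨insert m K, ?_, ?_, ?_⟩
      · rintro v (rfl | hv)
        · exact hm.1
        · exact Finset.mem_of_mem_erase (hK1 hv)
      · rintro u (rfl | hu) v (rfl | hv)
        · exact fun a => a.1 le_rfl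
        · intro a
          have := h.asym a (hx v hv)
          exact this.not_ge (hm.2 (Finset.mem_of_mem_erase (hK1 hv)) this.le)
        · exact hx u hu
        · exact hK2 u hu v hv
      · intro v hv hvK
        have e : v ≠ m := fun e => hvK (Or.inl e)
        obtain ⟨u, hu, a⟩ := hK3 v (hs' v hv e) fun a => hvK (Or.inr a)
        exact ⟨u, Or.inr hu, a⟩

lemma St.lfKer (h : St ll c) (T : Set V) (hfin : ∀ v ∈ T, {u ∈ T | att ll u v}.Finite) :
    ∃ K, Ker ll T K := by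
  classical
  choose K hK using fun s : Finset V => h.finKer (s.filter (· ∈ T))
  obtain ⟨χ, hχ⟩ := Finset.rado_selection (β := fun _ : V => Prop) (fun s v => v ∈ K s)
  refine ⟨{v | v ∈ T ∧ χ v}, fun v hv => hv.1, ?_, ?_⟩
  · intro u hu v hv
    obtain ⟨t, -, ht⟩ := hχ {u, v}
    exact (hK t).2.1 u ((ht u (by simp)) ▸ hu.2) v ((ht v (by simp)) ▸ hv.2)
  · intro v hv hvK
    obtain ⟨t, hst, ht⟩ := hχ (insert v (hfin v hv).toFinset)
    have h1 : v ∉ K t := fun a => hvK ⟨hv, (ht v (by simp)) ▸ a⟩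
    obtain ⟨u, hu, a⟩ := (hK t).2.2 v (by simp [hv, hst (Finset.mem_insert_self _ _)]) h1
    have huT : u ∈ T := by simpa using (Finset.mem_filter.1 ((hK t).1 hu)).2
    exact ⟨u, ⟨huT, (ht u (by simp [huT, a])) ▸ hu⟩, a⟩

def Semi (ll : V → V → Prop) (R S : Set V) : Prop :=
  S ⊆ R ∧ Ind ll S ∧ ∀ a ∈ R, ∀ s ∈ S, att ll a s → ∃ t ∈ S, att ll t a

lemma St.semi [Finite κ] (h : St ll c) (R : Set V) (hR : R.Nonempty) :
    ∃ S, S.Nonempty ∧ Semi ll R S := by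
  classical
  let arr : V → V → Prop := fun s a => a ∈ R ∧ a < s ∧ ¬ ll a s
  have harr : ∀ s, {a | arr s a}.Finite := fun s => by
    refine Set.Finite.of_finite_image (f := c) (toFinite _) fun a ha a' ha' e => ?_
    rcases h.col a a' e with e | e | e
    · exact e
    · exact absurd (h.l2 _ _ _ e ha'.2.1.le) ha.2.2
    · exact absurd (h.l2 _ _ _ e ha.2.1.le) ha'.2.2
  by_cases h0 : ∃ s ∈ R, ∀ a, ¬ arr s a
  · obtain ⟨s, hs, h0⟩ := h0
    refine ⟨{s}, singleton_nonempty _, by simpa, ?_, ?_⟩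
    · rintro u rfl v rfl a
      exact a.1 le_rfl
    · rintro a ha t rfl hat
      refine ⟨t, rfl, by_contra fun hn => h0 a ⟨ha, h.asym hat hn, hat.2⟩⟩
  push Not at h0
  obtain ⟨s0, hs0⟩ := hR
  let Anc : Set V := {u | Relation.ReflTransGen arr s0 u}
  have hAR : ∀ u ∈ Anc, u ∈ R ∧ u ≤ s0 := fun u hu => by
    induction hu with
    | refl => exact ⟨hs0, le_rfl⟩
    | tail _ h2 ih => exact ⟨h2.1, h2.2.1.le.trans ih.2⟩
  have hAc : ∀ u ∈ Anc, ∀ a, arr u a → a ∈ Anc := fun u hu a ha => hu.tail ha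
  let F : Set V := {u ∈ Anc | {v ∈ Anc | u ≤ v}.Finite}
  have hF : F.Infinite := by
    intro hF
    let A : Set V := {a | a ∉ F ∧ ∃ u ∈ F, arr u a}
    have hA : A.Finite := (hF.biUnion fun u _ => harr u).subset fun a ha => by
      obtain ⟨u, hu, h1⟩ := ha.2
      exact mem_biUnion hu h1
    have hP : ∀ v ∈ Anc, v ∈ F ∨ ∃ a ∈ A, v ≤ a := fun v hv => by
      induction hv with
      | refl =>
        refine Or.inl ⟨Relation.ReflTransGen.refl, (finite_singleton s0).subset fun v hv => ?_⟩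
        exact le_antisymm (hAR v hv.1).2 hv.2
      | @tail u v _ h2 ih =>
        rcases ih with ih | ⟨a, ha, ih⟩
        · by_cases hv : v ∈ F
          · exact Or.inl hv
          · exact Or.inr ⟨v, ⟨hv, u, ih, h2⟩, le_rfl⟩
        · exact Or.inr ⟨a, ha, h2.2.1.le.trans ih⟩
    rcases A.eq_empty_or_nonempty with e | hne
    · have hfin : Anc.Finite := hF.subset fun v hv => by
        rcases hP v hv with h1 | ⟨a, ha, -⟩
        · exact h1
        · simp [e] at ha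
      obtain ⟨m, hm⟩ := hfin.exists_minimal ⟨s0, Relation.ReflTransGen.refl⟩
      obtain ⟨a, ha⟩ := h0 m (hAR m hm.1).1
      exact ha.2.1.not_ge (hm.2 (hAc m hm.1 a ha) ha.2.1.le)
    · obtain ⟨a, ha⟩ := hA.exists_maximal hne
      obtain ⟨u, hu, h1⟩ := ha.1.2
      refine ha.1.1 ⟨hAc u hu.1 a h1, (hF.insert a).subset fun v hv => ?_⟩
      rcases hP v hv.1 with h2 | ⟨a', ha', h2⟩
      · exact Or.inr h2
      · exact Or.inl (le_antisymm (h2.trans (ha.2 ha' (hv.2.trans h2))) hv.2)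
  obtain ⟨j, hj⟩ : ∃ j, (F ∩ c ⁻¹' {j}).Infinite := by
    by_contra hn
    push Not at hn
    exact hF (Set.Finite.of_finite_fibers c (toFinite _) fun x _ => hn x)
  set G := F ∩ c ⁻¹' {j} with hG
  have hcmp : ∀ u v, c u = c v → u ≤ v ∨ v ≤ u := fun u v e => by
    rcases h.col u v e with e | e | e
    · exact Or.inl e.le
    · exact Or.inl (h.le _ _ e)
    · exact Or.inr (h.le _ _ e)
  have hGc : ∀ u ∈ G, ∀ v ∈ G, c u = c v := fun u hu v hv => hu.2.trans hv.2.symm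
  have hGl : ∀ g ∈ G, ∃ g' ∈ G, ll g' g := fun g hg => by
    by_contra hn
    push Not at hn
    refine hj (hg.1.2.subset fun v hv => ⟨hv.1.1, ?_⟩)
    rcases h.col g v (hGc g hg v hv) with e | e | e
    · exact e.le
    · exact h.le _ _ e
    · exact absurd e (hn v hv)
  let T : Set V := {u ∈ Anc | ∃ g ∈ G, g ≤ u}
  have hTf : ∀ u ∈ T, {v ∈ Anc | u ≤ v}.Finite := fun u hu => by
    obtain ⟨g, hg, h1⟩ := hu.2
    exact hg.1.2.subset fun v hv => ⟨hv.1, h1.trans hv.2⟩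
  have hi : ∀ i, ∃ g ∈ G, (∀ g' ∈ G, {u ∈ T | c u = i ∧ ¬ u ≤ g'}.Finite) ∨
      ∀ u ∈ T, c u = i → ¬ u ≤ g := fun i => by
    by_cases h1 : ∀ g' ∈ G, {u ∈ T | c u = i ∧ ¬ u ≤ g'}.Finite
    · obtain ⟨g, hg⟩ := hj.nonempty
      exact ⟨g, hg, Or.inl h1⟩
    · push Not at h1
      obtain ⟨g, hg, h1⟩ := h1
      refine ⟨g, hg, Or.inr fun u hu e hle => h1 ((hTf u hu).subset fun v hv => ⟨hv.1.1, ?_⟩)⟩
      rcases hcmp u v (e.trans hv.2.1.symm) with a | a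
      · exact a
      · exact absurd (a.trans hle) hv.2.2
  choose gi hgi hgi' using hi
  obtain ⟨gN, hgN, hgN'⟩ : ∃ g ∈ G, ∀ i, g ≤ gi i := by
    obtain ⟨m, hm⟩ := (finite_range gi).exists_minimal ⟨gi j, j, rfl⟩
    obtain ⟨i0, rfl⟩ := hm.1
    refine ⟨gi i0, hgi i0, fun i => ?_⟩
    rcases hcmp _ _ (hGc _ (hgi i0) _ (hgi i)) with a | a
    · exact a
    · exact hm.2 ⟨i, rfl⟩ a
  let T2 : Set V := {u ∈ T | u ≤ gN}
  have hT2 : ∀ g ∈ G, {u ∈ T2 | ¬ u ≤ g}.Finite := fun g hg => by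
    refine Set.Finite.of_finite_fibers c (toFinite _) fun i _ => ?_
    rcases hgi' i with a | a
    · exact (a g hg).subset fun u hu => ⟨hu.1.1.1, hu.2, hu.1.2⟩
    · refine finite_empty.subset fun u hu => a u hu.1.1.1 hu.2 (hu.1.1.2.trans (hgN' i))
  obtain ⟨K, hK1, hK2, hK3⟩ := h.lfKer T2 fun v hv => by
    obtain ⟨g, hg, h1⟩ := hv.1.2
    obtain ⟨g', hg', h2⟩ := hGl g hg
    exact (hT2 g' hg').subset fun u hu =>
      ⟨hu.1, fun a => hu.2.2 (h.l1 _ _ _ a (h.l2 _ _ _ h2 h1))⟩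
  have hKl : ∀ s ∈ K, ∃ t ∈ K, ll t s := fun s hs => by
    obtain ⟨g, hg, h1⟩ := (hK1 hs).1.2
    obtain ⟨g', hg', h2⟩ := hGl g hg
    have h3 := h.l2 _ _ _ h2 h1
    by_cases h4 : g' ∈ K
    · exact ⟨g', h4, h3⟩
    · obtain ⟨t, ht, a⟩ := hK3 g' ⟨⟨hg'.1.1, g', hg', le_rfl⟩, (h.le _ _ h3).trans (hK1 hs).2⟩ h4
      refine ⟨t, ht, by_contra fun hn => hK2 t ht s hs ⟨fun b => a.1 ((h.le _ _ h3).trans b), hn⟩⟩
  refine ⟨K, ?_, fun u hu => (hAR u (hK1 hu).1.1).1, hK2, fun a ha s hs has => ?_⟩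
  · by_cases h4 : gN ∈ K
    · exact ⟨gN, h4⟩
    · obtain ⟨t, ht, -⟩ := hK3 gN ⟨⟨hgN.1.1, gN, hgN, le_rfl⟩, le_rfl⟩ h4
      exact ⟨t, ht⟩
  · by_contra hn
    push Not at hn
    have h1 := h.asym has (hn s hs)
    have h2 : a ∈ Anc := hAc s (hK1 hs).1.1 a ⟨ha, h1, has.2⟩
    obtain ⟨t, ht, h3⟩ := hKl s hs
    have h4 : ll t a := by_contra fun h4 => hn t ht ⟨fun b => has.2 (h.l1 _ _ _ b h3), h4⟩
    obtain ⟨g, hg, h5⟩ := (hK1 ht).1.2
    obtain ⟨u, hu, h6⟩ := hK3 a ⟨⟨h2, g, hg, h5.trans (h.le _ _ h4)⟩, h1.le.trans (hK1 hs).2⟩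
      fun b => hK2 a b s hs has
    exact hn u hu h6

theorem St.ker [Finite κ] (h : St ll c) (R : Set V) : ∃ K, Ker ll R K := by
  obtain ⟨S, hS⟩ := zorn_subset {S | Semi ll R S} fun C hC hc => by
    refine ⟨⋃₀ C, ⟨sUnion_subset fun S hS => (hC hS).1, ?_, ?_⟩, fun S hS => subset_sUnion_of_mem hS⟩
    · rintro u ⟨S, hS, hu⟩ v ⟨S', hS', hv⟩
      rcases hc.total hS hS' with a | a
      · exact (hC hS').2.1 u (a hu) v hv
      · exact (hC hS).2.1 u hu v (a hv)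
    · rintro a ha s ⟨S, hS, hs⟩ has
      obtain ⟨t, ht, h1⟩ := (hC hS).2.2 a ha s hs has
      exact ⟨t, ⟨S, hS, ht⟩, h1⟩
  refine ⟨S, hS.1.1, hS.1.2.1, fun v hv hvS => by_contra fun hn => ?_⟩
  push Not at hn
  obtain ⟨S', ⟨x, hx⟩, h1, h2, h3⟩ :=
    h.semi {v ∈ R | v ∉ S ∧ ∀ t ∈ S, ¬ att ll t v} ⟨v, hv, hvS, hn⟩
  have : Semi ll R (S ∪ S') := by
    refine ⟨union_subset hS.1.1 fun u hu => (h1 hu).1, ?_, ?_⟩
    · rintro u (hu | hu) w (hw | hw)
      · exact hS.1.2.1 u hu w hw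
      · exact (h1 hw).2.2 u hu
      · intro a
        obtain ⟨t, ht, b⟩ := hS.1.2.2 u (h1 hu).1 w hw a
        exact (h1 hu).2.2 t ht b
      · exact h2 u hu w hw
    · rintro a ha s (hs | hs) has
      · obtain ⟨t, ht, b⟩ := hS.1.2.2 a ha s hs has
        exact ⟨t, Or.inl ht, b⟩
      · by_cases h4 : ∃ t ∈ S, att ll t a
        · obtain ⟨t, ht, b⟩ := h4
          exact ⟨t, Or.inl ht, b⟩
        · push Not at h4
          obtain ⟨t, ht, b⟩ := h3 a ⟨ha, fun b => (h1 hs).2.2 a b has, h4⟩ s hs has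
          exact ⟨t, Or.inr ht, b⟩
  exact (h1 hx).2.1 (hS.2 this subset_union_left (Or.inr hx))

end Pool.Agent.H15.FB
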