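import Pool.Agent.H15.FB1

/-! Degree kernels in posets covered by finitely many chains. -/

open Set Cardinal

namespace Pool.Agent.H15.FB

variable {α κ : Type} [PartialOrder α]

def inc (x y : α) : Prop := ¬ x ≤ y ∧ ¬ y ≤ x

def Idl (I : Set α) : Prop := I.Nonempty ∧ IsLowerSet I ∧ DirectedOn (· ≤ ·) I

def Hv (ν : Cardinal) (Q I : Set α) : Prop := ∀ x ∈ I, ν ≤ #{y | y ∈ I ∧ y ∈ Q ∧ x < y}

def Mid (I : Set α) : Set α := {z | z ∉ I ∧ z ∉ upperBounds I}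

def Col (col : α → κ) : Prop := ∀ x y, col x = col y → x ≤ y ∨ y ≤ x

lemma Col.dual {col : α → κ} (h : Col col) : Col (α := αᵒᵈ) col := fun x y e => (h x y e).symm

lemma sm_sub {β : Type} {ν : Cardinal} {X Y : Set β} (h : #Y < ν) (s : X ⊆ Y) : #X < ν :=
  (mk_le_mk_of_subset s).trans_lt h

lemma bg_sub {β : Type} {ν : Cardinal} {X Y : Set β} (h : ν ≤ #X) (s : X ⊆ Y) : ν ≤ #Y :=
  h.trans (mk_le_mk_of_subset s)

lemma sm_union {β : Type} {ν : Cardinal} (hν : ℵ₀ ≤ ν) {X Y : Set β} (h : #X < ν) (h' : #Y < ν) :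
    #(X ∪ Y : Set β) < ν := (mk_union_le X Y).trans_lt (add_lt_of_lt hν h h')

lemma sm_fin {β : Type} {ν : Cardinal} (hν : ℵ₀ ≤ ν) {X : Set β} (h : X.Finite) : #X < ν :=
  h.lt_aleph0.trans_le hν

lemma bg_ne {β : Type} {ν : Cardinal} (hν : ℵ₀ ≤ ν) {X : Set β} (h : ν ≤ #X) : X.Nonempty := by
  rcases X.eq_empty_or_nonempty with rfl | h1
  · exact absurd (sm_fin hν finite_empty) h.not_gt
  · exact h1

lemma bg_ex {β : Type} {ν : Cardinal} {X Y : Set β} (h : ν ≤ #X) (h' : #Y < ν) :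
    ∃ x ∈ X, x ∉ Y := by
  by_contra hn
  push Not at hn
  exact (sm_sub h' hn).not_ge h

lemma sm_iUnion {β : Type} [Finite κ] {ν : Cardinal} (hν : ℵ₀ ≤ ν) (X : κ → Set β)
    (h : ∀ i, #(X i) < ν) : #(⋃ i, X i) < ν := by
  have : ∀ s : Set κ, s.Finite → #(⋃ i ∈ s, X i) < ν := fun s hs => by
    induction s, hs using Set.Finite.induction_on with
    | empty => simpa using aleph0_pos.trans_le hν
    | insert _ _ ih => rw [biUnion_insert]; exact sm_union hν (h _) ih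
  simpa using this univ (toFinite _)

lemma Idl.fin {I : Set α} (hI : Idl I) [Finite κ] (p : κ → α → Prop)
    (hp : ∀ i x y, p i x → x ≤ y → p i y) (h : ∀ i, ∃ x ∈ I, p i x) : ∃ x ∈ I, ∀ i, p i x := by
  have : ∀ s : Set κ, s.Finite → ∃ x ∈ I, ∀ i ∈ s, p i x := fun s hs => by
    induction s, hs using Set.Finite.induction_on with
    | empty => obtain ⟨x, hx⟩ := hI.1; exact ⟨x, hx, by simp⟩
    | @insert a s _ _ ih =>
      obtain ⟨x, hx, h1⟩ := ih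
      obtain ⟨y, hy, h2⟩ := h a
      obtain ⟨z, hz, h3, h4⟩ := hI.2.2 x hx y hy
      refine ⟨z, hz, ?_⟩
      rintro i (rfl | hi)
      · exact hp _ _ _ h2 h4
      · exact hp _ _ _ (h1 i hi) h3
  simpa using this univ (toFinite _)

lemma big_col {β : Type} [Finite κ] {ν : Cardinal} (hν : ℵ₀ ≤ ν) (col : β → κ) {X : Set β}
    (h : ν ≤ #X) : ∃ i, ν ≤ #{x | x ∈ X ∧ col x = i} := by
  by_contra hn
  push Not at hn
  exact (sm_sub (sm_iUnion hν _ hn) fun x hx => mem_iUnion.2 ⟨col x, hx, rfl⟩).not_ge h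

lemma Idl.heavy_col {I : Set α} (hI : Idl I) [Finite κ] {ν : Cardinal} (hν : ℵ₀ ≤ ν)
    (col : α → κ) (X : α → Set α) (hX : ∀ x y, x ≤ y → X y ⊆ X x) (h : ∀ x ∈ I, ν ≤ #(X x)) :
    ∃ i, ∀ x ∈ I, ν ≤ #{y | y ∈ X x ∧ col y = i} := by
  by_contra hn
  push Not at hn
  obtain ⟨x, hx, h1⟩ := hI.fin (fun i x => #{y | y ∈ X x ∧ col y = i} < ν)
    (fun i x y a b => sm_sub a fun z hz => ⟨hX x y b hz.1, hz.2⟩) hn
  obtain ⟨i, hi⟩ := big_col hν col (h x hx)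
  exact (h1 i).not_ge hi

/-- an ascending heavy chain -/
def Asc (ν : Cardinal) (Y : Set α) : Prop :=
  Y.Nonempty ∧ (∀ x ∈ Y, ∀ y ∈ Y, x ≤ y ∨ y ≤ x) ∧ ∀ x ∈ Y, ν ≤ #{y | y ∈ Y ∧ x < y}

lemma asc_of {ν : Cardinal} (hν : ℵ₀ ≤ ν) {A : Set α} (hA : ∀ x ∈ A, ∀ y ∈ A, x ≤ y ∨ y ≤ x)
    (h : ν ≤ #A) (h' : ∀ x ∈ A, #{u | u ∈ A ∧ u ≤ x} < ν) : Asc ν A := by
  refine ⟨bg_ne hν h, hA, fun x hx => by_contra fun hn => ?_⟩
  push Not at hn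
  refine (sm_sub (sm_union hν (h' x hx) hn) fun y hy => ?_).not_ge h
  rcases hA y hy x hx with a | a
  · exact Or.inl ⟨hy, a⟩
  · rcases a.eq_or_lt with rfl | a
    · exact Or.inl ⟨hy, le_rfl⟩
    · exact Or.inr ⟨hy, a⟩

lemma end_lem {ν : Cardinal} (hν : ℵ₀ ≤ ν) {X : Set α} (hX : ∀ x ∈ X, ∀ y ∈ X, x ≤ y ∨ y ≤ x)
    (h : ν ≤ #X) : ∃ Y ⊆ X, Asc ν Y ∨ Asc (α := αᵒᵈ) ν Y := by
  let A : Set α := {x | x ∈ X ∧ #{u | u ∈ X ∧ u ≤ x} < ν}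
  by_cases hA : ν ≤ #A
  · exact ⟨A, fun x hx => hx.1, Or.inl (asc_of hν (fun x hx y hy => hX x hx.1 y hy.1) hA
      fun x hx => sm_sub hx.2 fun u hu => ⟨hu.1.1, hu.2⟩)⟩
  · push Not at hA
    obtain ⟨x, hx, hxA⟩ := bg_ex h hA
    refine ⟨X \ A, sdiff_subset, Or.inr ⟨⟨x, hx, hxA⟩, fun x hx y hy => (hX x hx.1 y hy.1).symm,
      fun y hy => by_contra fun hn => ?_⟩⟩
    push Not at hn
    refine hy.2 ⟨hy.1, sm_sub (sm_union hν (sm_union hν hA hn) (sm_fin hν (finite_singleton y)))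
      fun u hu => ?_⟩
    by_cases h1 : u ∈ A
    · exact Or.inl (Or.inl h1)
    · rcases hu.2.eq_or_lt with rfl | a
      · exact Or.inr rfl
      · exact Or.inl (Or.inr ⟨⟨hu.1, h1⟩, a⟩)

def lowc (Y : Set α) : Set α := {x | ∃ y ∈ Y, x ≤ y}

lemma Asc.idl {ν : Cardinal} {Y : Set α} (h : Asc ν Y) : Idl (lowc Y) := by
  obtain ⟨y, hy⟩ := h.1
  refine ⟨⟨y, y, hy, le_rfl⟩, ?_, ?_⟩
  · rintro a b hab ⟨y, hy, h1⟩
    exact ⟨y, hy, hab.trans h1⟩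
  · rintro a ⟨y, hy, h1⟩ b ⟨z, hz, h2⟩
    rcases h.2.1 y hy z hz with c | c
    · exact ⟨z, ⟨z, hz, le_rfl⟩, h1.trans c, h2⟩
    · exact ⟨y, ⟨y, hy, le_rfl⟩, h1, h2.trans c⟩

lemma Asc.hv {ν : Cardinal} {Y Q : Set α} (h : Asc ν Y) (hQ : Y ⊆ Q) : Hv ν Q (lowc Y) := by
  rintro x ⟨y, hy, h1⟩
  exact bg_sub (h.2.2 y hy) fun z hz => ⟨⟨z, hz.1, le_rfl⟩, hQ hz.1, h1.trans_lt hz.2⟩

lemma Asc.mid {ν : Cardinal} {Y : Set α} (h : Asc ν Y) {z : α} (hz : ∀ y ∈ Y, inc z y) :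
    z ∈ Mid (lowc Y) := by
  obtain ⟨y, hy⟩ := h.1
  exact ⟨fun ⟨y, hy, h1⟩ => (hz y hy).1 h1, fun h1 => (hz y hy).2 (h1 ⟨y, hy, le_rfl⟩)⟩

lemma Hv.mono {ν : Cardinal} {Q Q' I : Set α} (h : Hv ν Q I) (hQ : Q ⊆ Q') : Hv ν Q' I :=
  fun x hx => bg_sub (h x hx) fun _ hy => ⟨hy.1, hQ hy.2.1, hy.2.2⟩

lemma Idl.mid {I : Set α} (hI : Idl I) {z : α} (hz : z ∈ Mid I) :
    ∃ x ∈ I, ∀ y ∈ I, x ≤ y → inc z y := by
  obtain ⟨h1, h2⟩ := hz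
  simp only [mem_upperBounds] at h2
  push Not at h2
  obtain ⟨x, hx, h2⟩ := h2
  exact ⟨x, hx, fun y hy hxy => ⟨fun a => h1 (hI.2.1 a hy), fun a => h2 (hxy.trans a)⟩⟩

lemma Idl.mid_nbr {ν : Cardinal} {I Q : Set α} (hI : Idl I) (h : Hv ν Q I) {z : α}
    (hz : z ∈ Mid I) {a : α} (ha : a ∈ I) : ν ≤ #{y | y ∈ I ∧ y ∈ Q ∧ a < y ∧ inc z y} := by
  obtain ⟨x, hx, h1⟩ := hI.mid hz
  obtain ⟨w, hw, h2, h3⟩ := hI.2.2 x hx a ha
  exact bg_sub (h w hw) fun y hy =>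
    ⟨hy.1, hy.2.1, h3.trans_lt hy.2.2, h1 y hy.1 (h2.trans hy.2.2.le)⟩

def cof (col : α → κ) (I : Set α) (i : κ) : Prop := ∀ x ∈ I, ∃ y ∈ I, col y = i ∧ x ≤ y

lemma Idl.cof_ex [Finite κ] {I : Set α} (hI : Idl I) (col : α → κ) : ∃ i, cof col I i := by
  by_contra hn
  simp only [cof] at hn
  push Not at hn
  obtain ⟨x, hx, h1⟩ := hI.fin (fun i x => ∀ y ∈ I, col y = i → ¬ x ≤ y)
    (fun i x y a b z hz e c => a z hz e (b.trans c)) hn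
  exact h1 _ x hx rfl le_rfl

lemma cof_mid {col : α → κ} (hc : Col col) {I : Set α} (hI : Idl I) {z : α}
    (h : cof col I (col z)) : z ∉ Mid I := fun hz => hz.2 fun x hx => by
  obtain ⟨y, hy, e, h1⟩ := h x hx
  rcases hc y z e with a | a
  · exact h1.trans a
  · exact absurd (hI.2.1 a hy) hz.1

def lls (I J : Set α) : Prop := ∃ y ∈ J, y ∈ upperBounds I

lemma cof_tri {col : α → κ} (hc : Col col) {I J : Set α} (hI : Idl I) (hJ : Idl J) {i : κ}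
    (h1 : cof col I i) (h2 : cof col J i) : I = J ∨ lls I J ∨ lls J I := by
  by_contra hn
  push Not at hn
  have : ∀ I J : Set α, Idl I → Idl J → cof col I i → cof col J i → ¬ lls J I → I ⊆ J := by
    intro I J _ hJ h1 h2 h3 x hx
    obtain ⟨y, hy, e, h4⟩ := h1 x hx
    have := cof_mid hc hJ (z := y) (e ▸ h2)
    by_contra h5
    exact this ⟨fun a => h5 (hJ.2.1 h4 a), fun a => h3 ⟨y, hy, a⟩⟩
  exact hn.1 ((this I J hI hJ h1 h2 hn.2.2).antisymm (this J I hJ hI h2 h1 hn.2.1))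

abbrev VV (α : Type) [PartialOrder α] := {I : Set α // Idl I ∧ ∀ x ∈ I, ∃ y ∈ I, x < y}

lemma st_VV [Finite κ] {col : α → κ} (hc : Col col) :
    St (V := VV α) (fun I J => lls I.1 J.1) (fun I => (I.2.1.cof_ex col).choose) where
  irr := fun I ⟨y, hy, h⟩ => by
    obtain ⟨z, hz, h1⟩ := I.2.2 y hy
    exact h1.not_ge (h hz)
  le := fun _ J ⟨_, hy, h⟩ _ hx => J.2.1.2.1 (h hx) hy
  l1 := fun _ _ _ h ⟨y, hy, h1⟩ => ⟨y, hy, fun _ hx => h1 (h hx)⟩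
  l2 := fun _ _ _ ⟨y, hy, h1⟩ h => ⟨y, h hy, h1⟩
  col := fun I J e => by
    have h1 := (I.2.1.cof_ex col).choose_spec
    have h2 := (J.2.1.cof_ex col).choose_spec
    rw [← e] at h2
    rcases cof_tri hc I.2.1 J.2.1 h1 h2 with a | a | a
    · exact Or.inl (Subtype.ext a)
    · exact Or.inr (Or.inl a)
    · exact Or.inr (Or.inr a)

lemma Hv.nomax {ν : Cardinal} (hν : ℵ₀ ≤ ν) {Q I : Set α} (h : Hv ν Q I) :
    ∀ x ∈ I, ∃ y ∈ I, x < y := fun x hx => by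
  obtain ⟨y, hy⟩ := bg_ne hν (h x hx)
  exact ⟨y, hy.1, hy.2.2⟩

theorem half [Finite κ] {col : α → κ} (hc : Col col) {ν : Cardinal} (hν : ℵ₀ ≤ ν) (Q : Set α) :
    ∃ S ⊆ Q, (∀ J, Idl J → Hv ν S J → ∀ z ∈ S, z ∉ Mid J) ∧
      ∀ z ∈ Q, z ∉ S → ∃ I, Idl I ∧ Hv ν S I ∧ z ∈ Mid I := by
  have st := st_VV hc
  obtain ⟨K, hK1, hK2, hK3⟩ := st.ker {I : VV α | Hv ν Q I.1}
  let S : Set α := {z | z ∈ Q ∧ ∀ I ∈ K, z ∉ Mid I.1}
  have tri : ∀ I ∈ K, ∀ J ∈ K, I = J ∨ lls I.1 J.1 ∨ lls J.1 I.1 := fun I hI J hJ => by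
    by_contra hn
    push Not at hn
    refine hn.1 (le_antisymm ?_ ?_)
    · exact by_contra fun a => hK2 J hJ I hI ⟨a, hn.2.2⟩
    · exact by_contra fun a => hK2 I hI J hJ ⟨a, hn.2.1⟩
  have cmp : ∀ I ∈ K, ∀ J ∈ K, I.1 ⊆ J.1 ∨ J.1 ⊆ I.1 := fun I hI J hJ => by
    rcases tri I hI J hJ with a | a | a
    · exact Or.inl (a ▸ subset_rfl)
    · exact Or.inl (st.le I J a)
    · exact Or.inr (st.le J I a)
  have key : ∀ s : Set κ, ∀ I ∈ K, {i | cof col I.1 i} = s → Hv ν S I.1 := by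
    intro s
    induction s using WellFoundedLT.induction with
    | ind s ih =>
    intro I hI hs x0 hx0
    by_contra hn
    push Not at hn
    have hId := I.2.1
    obtain ⟨i, hi⟩ := hId.heavy_col hν col (fun x => {y | y ∈ I.1 ∧ y ∈ Q ∧ x < y})
      (fun x y h z hz => ⟨hz.1, hz.2.1, h.trans_lt hz.2.2⟩) (hK1 hI)
    let E : Set (VV α) := {J | J ∈ K ∧ lls J.1 I.1 ∧ ¬ cof col J.1 i}
    have hA : ∀ x ∈ I.1, ∃ J ∈ E, ∃ y ∈ I.1, x < y ∧ y ∈ Mid J.1 := fun x hx => by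
      obtain ⟨w, hw, h1, h2⟩ := hId.2.2 x hx x0 hx0
      obtain ⟨y, hy, h3⟩ := bg_ex (hi w hw) hn
      have h4 : ¬ ∀ J ∈ K, y ∉ Mid J.1 := fun a =>
        h3 ⟨hy.1.1, ⟨hy.1.2.1, a⟩, h2.trans_lt hy.1.2.2⟩
      push Not at h4
      obtain ⟨J, hJ, h4⟩ := h4
      refine ⟨J, ⟨hJ, ?_, fun a => cof_mid hc J.2.1 (hy.2 ▸ a) h4⟩, y, hy.1.1,
        h1.trans_lt hy.1.2.2, h4⟩
      rcases tri J hJ I hI with a | a | a
      · exact absurd (a ▸ hy.1.1) h4.1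
      · exact a
      · exact absurd (st.le I J a hy.1.1) h4.1
    let U : Set α := {x | ∃ J ∈ E, x ∈ J.1}
    have hUh : Hv ν Q U := by
      rintro x ⟨J, hJ, hx⟩
      exact bg_sub (hK1 hJ.1 x hx) fun y hy => ⟨⟨J, hJ, hy.1⟩, hy.2⟩
    have hU : Idl U := by
      refine ⟨?_, ?_, ?_⟩
      · obtain ⟨J, hJ, -⟩ := hA x0 hx0
        obtain ⟨y, hy⟩ := J.2.1.1
        exact ⟨y, J, hJ, hy⟩
      · rintro a b hab ⟨J, hJ, h1⟩
        exact ⟨J, hJ, J.2.1.2.1 hab h1⟩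
      · rintro a ⟨J, hJ, h1⟩ b ⟨J', hJ', h2⟩
        rcases cmp J hJ.1 J' hJ'.1 with c | c
        · obtain ⟨z, hz, h3⟩ := J'.2.1.2.2 a (c h1) b h2
          exact ⟨z, ⟨J', hJ', hz⟩, h3⟩
        · obtain ⟨z, hz, h3⟩ := J.2.1.2.2 a h1 b (c h2)
          exact ⟨z, ⟨J, hJ, hz⟩, h3⟩
    have hIU : I.1 ⊆ U := by
      by_contra h1
      let U' : VV α := ⟨U, hU, hUh.nomax hν⟩
      have h2 : att (fun I J : VV α => lls I.1 J.1) U' I := by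
        refine ⟨h1, ?_⟩
        rintro ⟨x, hx, h2⟩
        obtain ⟨J, hJ, y, -, h3, h4⟩ := hA x hx
        exact h4.2 fun z hz => (h2 ⟨J, hJ, hz⟩).trans h3.le
      obtain ⟨f, hf, h3, h4⟩ := hK3 U' hUh fun a => hK2 U' a I hI h2
      refine h3 ?_
      rintro x ⟨J, hJ, hx⟩
      have : J ≤ f := by_contra fun a =>
        hK2 f hf J hJ.1 ⟨a, fun ⟨y, hy, b⟩ => h4 ⟨y, ⟨J, hJ, hy⟩, b⟩⟩
      exact this hx
    obtain ⟨xs, hxs, h1⟩ := hId.fin (fun j x => cof col I.1 j ∨ ∀ y ∈ I.1, col y = j → ¬ x ≤ y)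
      (fun j x y a b => a.imp id fun a z hz e c => a z hz e (b.trans c)) fun j => by
        by_cases h1 : cof col I.1 j
        · exact ⟨x0, hx0, Or.inl h1⟩
        · simp only [cof] at h1
          push Not at h1
          obtain ⟨x, hx, h1⟩ := h1
          exact ⟨x, hx, Or.inr h1⟩
    obtain ⟨w, hw, h2, h3⟩ := hId.2.2 xs hxs x0 hx0
    obtain ⟨J, hJ, hwJ⟩ := hIU hw
    have hJI : J.1 ⊆ I.1 := st.le J I hJ.2.1
    have hlt : {j | cof col J.1 j} < s := by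
      rw [← hs]
      refine lt_of_le_of_ne (fun j hj => ?_) fun e => hJ.2.2 ?_
      · refine (h1 j).resolve_right fun a => ?_
        obtain ⟨y, hy, e, b⟩ := hj w hwJ
        exact a y (hJI hy) e (h2.trans b)
      · have : i ∈ {j | cof col I.1 j} := fun x hx => by
          obtain ⟨y, hy⟩ := bg_ne hν (hi x hx)
          exact ⟨y, hy.1.1, hy.2, hy.1.2.2.le⟩
        rw [← e] at this
        exact this
    exact hn.not_ge (bg_sub (ih _ hlt J hJ.1 rfl x0 (J.2.1.2.1 h3 hwJ))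
      fun y hy => ⟨hJI hy.1, hy.2⟩)
  refine ⟨S, fun z hz => hz.1, fun J hJ hh z hz => ?_, fun z hz hzS => ?_⟩
  · let J' : VV α := ⟨J, hJ, hh.nomax hν⟩
    by_cases h1 : J' ∈ K
    · exact hz.2 J' h1
    · obtain ⟨I, hI, h2, h3⟩ := hK3 J' (hh.mono fun z hz => hz.1) h1
      obtain ⟨x, hx, h4⟩ := not_subset.1 h2
      obtain ⟨y, hy⟩ := bg_ne hν (hh x hx)
      exact absurd ⟨fun a => h4 (I.2.1.2.1 hy.2.2.le a), fun a => h3 ⟨y, hy.1, a⟩⟩ (hy.2.1.2 I hI)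
  · have h4 : ¬ ∀ J ∈ K, z ∉ Mid J.1 := fun a => hzS ⟨hz, a⟩
    push Not at h4
    obtain ⟨J, hJ, h4⟩ := h4
    exact ⟨J.1, J.2.1, key _ J hJ rfl, h4⟩

def DKer (ν : Cardinal) (Q S : Set α) : Prop :=
  S ⊆ Q ∧ ∀ z ∈ Q, (z ∈ S ↔ #{y | y ∈ S ∧ inc z y} < ν)

theorem dker [Finite κ] {col : α → κ} (hc : Col col) {ν : Cardinal} (hν : ℵ₀ ≤ ν) (Q : Set α) :
    ∃ S, DKer ν Q S := by
  obtain ⟨S1, h1, a1, b1⟩ := half hc hν Q
  obtain ⟨S2, h2, a2, b2⟩ := half (α := αᵒᵈ) hc.dual hν S1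
  refine ⟨S2, h2.trans h1, fun z hz => ⟨fun hzS => by_contra fun hn => ?_, fun hs => ?_⟩⟩
  · push Not at hn
    obtain ⟨i, hi⟩ := big_col hν col hn
    obtain ⟨Y, hY, h3 | h3⟩ := end_lem hν (fun x hx y hy => hc x y (hx.2.trans hy.2.symm)) hi
    · exact a1 _ h3.idl (h3.hv fun y hy => h2 (hY hy).1.1) z (h2 hzS)
        (h3.mid fun y hy => (hY hy).1.2)
    · exact a2 _ h3.idl (h3.hv fun y hy => (hY hy).1.1) z hzS
        (h3.mid fun y hy => (hY hy).1.2.symm)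
  by_contra hzS
  refine hs.not_ge ?_
  by_cases hz1 : z ∈ S1
  · obtain ⟨F, hF, h3, h4⟩ := b2 z hz1 hzS
    obtain ⟨a, ha⟩ := hF.1
    exact bg_sub (hF.mid_nbr h3 h4 ha) fun y hy => ⟨hy.2.1, hy.2.2.2.symm⟩
  obtain ⟨I, hI, h3, h4⟩ := b1 z hz hz1
  obtain ⟨a, ha⟩ := hI.1
  suffices hS2 : Hv (α := α) ν S2 I from
    bg_sub (Idl.mid_nbr (α := α) hI hS2 h4 ha) fun y hy => ⟨hy.2.1, hy.2.2.2⟩
  intro x1 hx1
  by_contra hn
  push Not at hn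
  obtain ⟨x0, hx0, hx0S, hx01⟩ := bg_ne hν (h3 x1 hx1)
  let X : α → Set α := fun x => {v | v ∈ I ∧ v ∈ S2 ∧ inc x0 v ∧ ¬ v ≤ x}
  have hX : ∀ x ∈ I, ν ≤ #(X x) := fun x hx => by
    obtain ⟨w, hw, h5, h6⟩ := hI.2.2 x hx x0 hx0
    obtain ⟨y, hy, h7⟩ := bg_ex (h3 w hw) hn
    have hy0 : x0 < y := h6.trans_lt hy.2.2
    obtain ⟨F, hF, h8, h9⟩ := b2 y hy.2.1 fun a => h7 ⟨hy.1, a, hx01.trans hy0⟩
    have hI' : ∀ v ∈ S2, inc y v → v ∈ I := fun v hv a => by_contra fun b =>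
      a1 I hI h3 v (h2 hv) ⟨b, fun c => a.1 (c hy.1)⟩
    have hm : x0 ∈ Mid (α := αᵒᵈ) F := by
      refine ⟨fun a => h9.1 (hF.2.1 hy0.le a), fun a => ?_⟩
      obtain ⟨u, hu⟩ := hF.1
      exact hn.not_ge (bg_sub (hF.mid_nbr h8 h9 hu) fun v hv =>
        ⟨hI' v hv.2.1 hv.2.2.2.symm, hv.2.1, hx01.trans_le (a hv.1)⟩)
    obtain ⟨u, hu, h10⟩ := hF.mid hm
    refine bg_sub (hF.mid_nbr h8 h9 hu) fun v hv => ⟨hI' v hv.2.1 hv.2.2.2.symm, hv.2.1,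
      (h10 v hv.1 hv.2.2.1.le).symm, fun b => hv.2.2.2.1 ?_⟩
    exact (b.trans h5).trans hy.2.2.le
  obtain ⟨j, hj⟩ := hI.heavy_col hν col X
    (fun x y h v hv => ⟨hv.1, hv.2.1, hv.2.2.1, fun a => hv.2.2.2 (a.trans h)⟩) hX
  let Y : Set α := {v | v ∈ I ∧ v ∈ S2 ∧ inc x0 v ∧ col v = j}
  have hY : Asc ν Y := by
    refine ⟨?_, fun x hx y hy => hc x y (hx.2.2.2.trans hy.2.2.2.symm), fun x hx => ?_⟩
    · obtain ⟨v, hv⟩ := bg_ne hν (hj x0 hx0)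
      exact ⟨v, hv.1.1, hv.1.2.1, hv.1.2.2.1, hv.2⟩
    · refine bg_sub (hj x hx.1) fun v hv => ⟨⟨hv.1.1, hv.1.2.1, hv.1.2.2.1, hv.2⟩, ?_⟩
      exact lt_of_le_not_ge ((hc x v (hx.2.2.2.trans hv.2.symm)).resolve_right hv.1.2.2.2)
        hv.1.2.2.2
  exact a1 _ hY.idl (hY.hv fun y hy => h2 hy.2.1) x0 hx0S (hY.mid fun y hy => hy.2.2.1)

end Pool.Agent.H15.FB
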