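import Pool.Agent.H15.FB2

/-! Spines: finite and locally finite case, gluing, absorption. -/

open Set Cardinal

namespace Pool.Agent.H15.FB

variable {α κ : Type} [PartialOrder α]

structure Sp (A : Set α) (f : α → α) : Prop where
  mem : ∀ x ∈ A, f x ∈ A
  idem : ∀ x ∈ A, f (f x) = f x
  ch : ∀ x ∈ A, ∀ y ∈ A, f x ≤ f y ∨ f y ≤ f x
  an : ∀ x ∈ A, ∀ y ∈ A, f x = f y → x ≤ y → x = y

lemma Sp.nb {A : Set α} {f : α → α} (h : Sp A f) {x : α} (hx : x ∈ A) : f x = x ∨ inc x (f x) := by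
  by_cases e : f x = x
  · exact Or.inl e
  · exact Or.inr ⟨fun a => e (h.an x hx _ (h.mem x hx) (h.idem x hx).symm a).symm,
      fun a => e (h.an _ (h.mem x hx) x hx (h.idem x hx) a)⟩

lemma sp_fin (s : Finset α) : ∃ f, Sp (s : Set α) f := by
  classical
  induction s using Finset.strongInduction with
  | H s ih =>
    rcases s.eq_empty_or_nonempty with rfl | hs
    · exact ⟨id, by simp, by simp, by simp, by simp⟩
    let s' := s.filter fun x => ¬ Minimal (· ∈ s) x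
    obtain ⟨m, hm⟩ := s.exists_minimal hs
    have h0 : s' ⊆ s := Finset.filter_subset _ _
    obtain ⟨f, hf⟩ := ih s' (Finset.filter_ssubset.2 ⟨m, hm.1, not_not.2 hm⟩)
    obtain ⟨a, ha, ha'⟩ : ∃ a, Minimal (· ∈ s) a ∧ ∀ y ∈ s', a ≤ f y := by
      rcases s'.eq_empty_or_nonempty with e | hne
      · exact ⟨m, hm, by simp [e]⟩
      · obtain ⟨c, hc⟩ := (s'.image f).exists_minimal (hne.image f)
        obtain ⟨x, hx, rfl⟩ := Finset.mem_image.1 hc.1
        obtain ⟨a, h1, h2⟩ := s.finite_toSet.exists_le_minimal (h0 (hf.mem x hx))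
        refine ⟨a, h2, fun y hy => h1.trans ?_⟩
        rcases hf.ch x hx y hy with b | b
        · exact b
        · exact hc.2 (Finset.mem_image_of_mem f hy) b
    have has : a ∉ s' := fun b => (Finset.mem_filter.1 b).2 ha
    have hmin : ∀ x ∈ s, x ∉ s' → Minimal (· ∈ s) x := fun x hx b =>
      by_contra fun c => b (Finset.mem_filter.2 ⟨hx, c⟩)
    refine ⟨fun x => if x ∈ s' then f x else a, fun x hx => ?_, fun x hx => ?_,
      fun x hx y hy => ?_, fun x hx y hy => ?_⟩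
    · split_ifs with h1
      · exact h0 (hf.mem x h1)
      · exact ha.1
    · by_cases h1 : x ∈ s'
      · have := hf.mem x h1
        simp only [Finset.mem_coe] at this
        simp only [h1, this, if_true, hf.idem x h1]
      · simp only [h1, has, if_false]
    · split_ifs with h1 h2 h2
      · exact hf.ch x h1 y h2
      · exact Or.inr (ha' x h1)
      · exact Or.inl (ha' y h2)
      · exact Or.inl le_rfl
    · split_ifs with h1 h2 h2
      · exact hf.an x h1 y h2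
      · exact fun e => absurd (e ▸ hf.mem x h1) has
      · exact fun e => absurd (e ▸ hf.mem y h2) has
      · exact fun _ b => le_antisymm b ((hmin y hy h2).2 hx b)

lemma sp_lf (Q : Set α) (h : ∀ x ∈ Q, {y | y ∈ Q ∧ inc x y}.Finite) : ∃ f, Sp Q f := by
  classical
  choose F hF using fun s : Finset α => sp_fin (s.filter (· ∈ Q))
  let L : α → Set α := fun a => {y | y = a ∨ (a ∈ Q ∧ y ∈ Q ∧ inc a y)}
  have hL : ∀ a, (L a).Finite := fun a => by
    by_cases ha : a ∈ Q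
    · exact ((h a ha).insert a).subset fun y hy => hy.imp id fun b => b.2
    · exact (finite_singleton a).subset fun y hy => hy.resolve_right fun b => ha b.1
  have : ∀ a, Finite (L a) := fun a => (hL a).to_subtype
  have hm : ∀ (s : Finset α) a, a ∈ s → a ∈ Q → a ∈ ((s.filter (· ∈ Q) : Finset α) : Set α) :=
    fun s a h1 h2 => by simp [h1, h2]
  have hm' : ∀ (s : Finset α) a, a ∈ ((s.filter (· ∈ Q) : Finset α) : Set α) → a ∈ Q :=
    fun s a h1 => (Finset.mem_filter.1 h1).2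
  let G : Finset α → α → α := fun s a => if a ∈ s ∧ a ∈ Q then F s a else a
  have hG : ∀ s a, G s a ∈ L a := fun s a => by
    simp only [G]
    split_ifs with h1
    · exact ((hF s).nb (hm s a h1.1 h1.2)).imp id fun b =>
        ⟨h1.2, hm' s _ ((hF s).mem a (hm s a h1.1 h1.2)), b⟩
    · exact Or.inl rfl
  obtain ⟨χ, hχ⟩ := Finset.rado_selection (β := fun a => L a) (fun s a => ⟨G s a, hG s a⟩)
  have key : ∀ s : Finset α, ∃ t : Finset α, s ⊆ t ∧ ∀ x ∈ s, x ∈ Q → (χ x).1 = F t x := fun s => by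
    obtain ⟨t, h1, h2⟩ := hχ s
    refine ⟨t, h1, fun x hx hQ => ?_⟩
    rw [h2 x hx]
    simp only [G, h1 hx, hQ, and_self, if_true]
  have hmem : ∀ x ∈ Q, (χ x).1 ∈ Q := fun x hx => by
    rcases (χ x).2 with e | e
    · rw [e]; exact hx
    · exact e.2.1
  refine ⟨fun x => (χ x).1, hmem, fun x hx => ?_, fun x hx y hy => ?_, fun x hx y hy => ?_⟩
  · obtain ⟨t, h1, h2⟩ := key {x, (χ x).1}
    rw [h2 _ (by simp) (hmem x hx), h2 x (by simp) hx]
    exact (hF t).idem x (hm t x (h1 (by simp)) hx)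
  · obtain ⟨t, h1, h2⟩ := key {x, y}
    rw [h2 x (by simp) hx, h2 y (by simp) hy]
    exact (hF t).ch x (hm t x (h1 (by simp)) hx) y (hm t y (h1 (by simp)) hy)
  · obtain ⟨t, h1, h2⟩ := key {x, y}
    rw [h2 x (by simp) hx, h2 y (by simp) hy]
    exact (hF t).an x (hm t x (h1 (by simp)) hx) y (hm t y (h1 (by simp)) hy)

lemma Sp.glue {A B : Set α} {f g : α → α} (hf : Sp A f) (hg : Sp B g)
    (hd : ∀ x ∈ B, x ∉ A) (hc : ∀ x ∈ A, ∀ y ∈ B, x ≤ y ∨ y ≤ x) :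
    ∃ k, Sp (A ∪ B) k ∧ ∀ x ∈ A, k x = f x := by
  classical
  have hB : ∀ x ∈ A ∪ B, x ∉ A → x ∈ B := fun x hx h => hx.resolve_left h
  refine ⟨fun x => if x ∈ A then f x else g x, ⟨fun x hx => ?_, fun x hx => ?_,
    fun x hx y hy => ?_, fun x hx y hy => ?_⟩, fun x hx => if_pos hx⟩
  · split_ifs with h1
    · exact Or.inl (hf.mem x h1)
    · exact Or.inr (hg.mem x (hB x hx h1))
  · by_cases h1 : x ∈ A
    · simp only [h1, hf.mem x h1, if_true, hf.idem x h1]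
    · simp only [h1, hd _ (hg.mem x (hB x hx h1)), if_false, hg.idem x (hB x hx h1)]
  · split_ifs with h1 h2 h2
    · exact hf.ch x h1 y h2
    · exact hc _ (hf.mem x h1) _ (hg.mem y (hB y hy h2))
    · exact (hc _ (hf.mem y h2) _ (hg.mem x (hB x hx h1))).symm
    · exact hg.ch x (hB x hx h1) y (hB y hy h2)
  · split_ifs with h1 h2 h2
    · exact hf.an x h1 y h2
    · exact fun e => absurd (e ▸ hf.mem x h1) (hd _ (hg.mem y (hB y hy h2)))
    · exact fun e => absurd (e ▸ hf.mem y h2) (hd _ (hg.mem x (hB x hx h1)))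
    · exact hg.an x (hB x hx h1) y (hB y hy h2)

lemma sp_comp (Q : Set α) (cl : α → Set α) (h1 : ∀ x ∈ Q, x ∈ cl x) (h2 : ∀ x ∈ Q, cl x ⊆ Q)
    (h3 : ∀ x ∈ Q, ∀ y ∈ cl x, cl y = cl x) (h4 : ∀ x ∈ Q, ∀ y ∈ Q, inc x y → y ∈ cl x)
    (h5 : ∀ x ∈ Q, ∃ f, Sp (cl x) f) : ∃ f, Sp Q f := by
  classical
  have : ∀ A : Set α, ∃ f, (∃ f, Sp A f) → Sp A f := fun A => by
    by_cases h : ∃ f, Sp A f
    · obtain ⟨f, hf⟩ := h
      exact ⟨f, fun _ => hf⟩
    · exact ⟨id, fun a => absurd a h⟩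
  choose F hF using this
  have hs : ∀ x ∈ Q, Sp (cl x) (F (cl x)) := fun x hx => hF _ (h5 x hx)
  have hm : ∀ x ∈ Q, F (cl x) x ∈ cl x := fun x hx => (hs x hx).mem x (h1 x hx)
  refine ⟨fun x => F (cl x) x, fun x hx => h2 x hx (hm x hx), fun x hx => ?_,
    fun x hx y hy => ?_, fun x hx y hy e => ?_⟩
  · rw [h3 x hx _ (hm x hx)]
    exact (hs x hx).idem x (h1 x hx)
  · by_cases e : cl y = cl x
    · rw [e]
      exact (hs x hx).ch x (h1 x hx) y (e ▸ h1 y hy)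
    · by_contra hn
      push Not at hn
      have := h4 _ (h2 x hx (hm x hx)) _ (h2 y hy (hm y hy)) hn
      rw [h3 x hx _ (hm x hx)] at this
      exact e ((h3 y hy _ (hm y hy)).symm.trans (h3 x hx _ this))
  · have e' : cl y = cl x := by
      rw [← h3 x hx _ (hm x hx), ← h3 y hy _ (hm y hy)]
      exact congrArg cl e.symm
    rw [e'] at e
    exact (hs x hx).an x (h1 x hx) y (e' ▸ h1 y hy) e

lemma comp_card {Z : Type} {ν : Cardinal} (hν : ℵ₀ ≤ ν) (r : Z → Z → Prop)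
    (h : ∀ x, #{y | r x y} ≤ ν) (x : Z) : #{y | Relation.ReflTransGen r x y} ≤ ν := by
  obtain ⟨B, B0, B1⟩ : ∃ B : ℕ → Set Z, B 0 = {x} ∧ ∀ n, B (n + 1) = ⋃ y ∈ B n, {z | r y z} :=
    ⟨fun n => Nat.rec {x} (fun _ S => ⋃ y ∈ S, {z | r y z}) n, rfl, fun _ => rfl⟩
  have hB : ∀ n, #(B n) ≤ ν := fun n => by
    induction n with
    | zero => rw [B0]; exact (sm_fin le_rfl (finite_singleton x)).le.trans hν
    | succ n ih =>
      rw [B1]
      refine (mk_biUnion_le _ _).trans ?_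
      exact (mul_le_mul' ih (ciSup_le' fun _ => h _)).trans (mul_eq_self hν).le
  have h1 : {y | Relation.ReflTransGen r x y} ⊆ ⋃ n, B n := fun y hy => by
    induction hy with
    | refl => exact mem_iUnion.2 ⟨0, B0 ▸ rfl⟩
    | tail _ h2 ih =>
      obtain ⟨n, hn⟩ := mem_iUnion.1 ih
      exact mem_iUnion.2 ⟨n + 1, B1 n ▸ mem_biUnion hn h2⟩
  refine (mk_le_mk_of_subset h1).trans ((mk_iUnion_le _).trans ?_)
  exact (mul_le_mul' (mk_nat.le.trans hν) (ciSup_le' hB)).trans (mul_eq_self hν).le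

lemma sdr {Z β : Type} {ν : Cardinal} (hν : ℵ₀ ≤ ν) (A : Z → Set β) (h1 : ∀ z, ν ≤ #(A z))
    (h2 : ∀ z, #(A z) ≤ ν) (h3 : ∀ c, #{z | c ∈ A z} ≤ ν) :
    ∃ e : Z → β, (∀ z, e z ∈ A z) ∧ Function.Injective e := by
  classical
  let r : Z → Z → Prop := fun z z' => ∃ c ∈ A z, c ∈ A z'
  have hr : ∀ z, #{z' | r z z'} ≤ ν := fun z => by
    have : {z' | r z z'} = ⋃ c ∈ A z, {z' | c ∈ A z'} := by ext; simp [r]
    rw [this]
    exact (mk_biUnion_le _ _).trans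
      ((mul_le_mul' (h2 z) (ciSup_le' fun _ => h3 _)).trans (mul_eq_self hν).le)
  let cl : Z → Set Z := fun z => {y | Relation.ReflTransGen r z y}
  have hcl : ∀ z z', r z z' → cl z' = cl z := fun z z' h => by
    ext y
    obtain ⟨c, a, b⟩ := h
    exact ⟨fun h => .head ⟨c, a, b⟩ h, fun h => .head ⟨c, b, a⟩ h⟩
  have hne : Nonempty ν.ord.ToType := by
    rw [← mk_ne_zero_iff, mk_ord_toType]
    exact (aleph0_pos.trans_le hν).ne'
  have : ∀ S : Set Z, ∃ H : Z → ν.ord.ToType, #S ≤ ν → InjOn H S := fun S => by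
    by_cases h : #S ≤ ν
    · rw [← mk_ord_toType ν] at h
      obtain ⟨e⟩ := (Cardinal.le_def _ _).1 h
      refine ⟨fun z => if hz : z ∈ S then e ⟨z, hz⟩ else hne.some, fun _ x hx y hy a => ?_⟩
      simp only [hx, hy, dif_pos] at a
      exact congrArg Subtype.val (e.injective a)
    · exact ⟨fun _ => hne.some, fun a => absurd a h⟩
  choose H hH using this
  let h : Z → ν.ord.ToType := fun z => H (cl z) z
  have hinj : ∀ z x y, r z x → r z y → h x = h y → x = y := fun z x y a b e => by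
    simp only [h, hcl z x a, hcl z y b] at e
    exact hH _ (comp_card hν r hr z) (.single a) (.single b) e
  have hex : ∀ z (rc : ∀ z', h z' < h z → β), ∃ c ∈ A z, ∀ z' hz', r z z' → rc z' hz' ≠ c := by
    intro z rc
    let W := {z' // h z' < h z ∧ r z z'}
    have hW : #W < ν := by
      refine lt_of_le_of_lt ?_ (mk_Iio_toType_ord_lt (h z))
      exact mk_le_of_injective (f := fun w : W => (⟨h w.1, w.2.1⟩ : Iio (h z))) fun x y e =>
        Subtype.ext (hinj z _ _ x.2.2 y.2.2 (congrArg Subtype.val e))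
    obtain ⟨c, hc, h4⟩ := bg_ex (h1 z) ((mk_range_le (f := fun w : W => rc w.1 w.2.1)).trans_lt hW)
    exact ⟨c, hc, fun z' hz' a e => h4 ⟨⟨z', hz', a⟩, e⟩⟩
  choose st hst hst' using hex
  have wf : WellFounded fun x y : Z => h x < h y := InvImage.wf h wellFounded_lt
  let e : Z → β := wf.fix st
  have he : ∀ z, e z = st z fun y _ => e y := fun z => wf.fix_eq st z
  have hA : ∀ z, e z ∈ A z := fun z => he z ▸ hst z _
  refine ⟨e, hA, fun x y a => ?_⟩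
  have rxy : r x y := ⟨e x, hA x, a ▸ hA y⟩
  have ryx : r y x := ⟨e x, a ▸ hA y, hA x⟩
  rcases lt_trichotomy (h x) (h y) with b | b | b
  · exact absurd (a.trans (he y)) (hst' y (fun y _ => e y) x b ryx)
  · exact hinj x x y ⟨e x, hA x, hA x⟩ rxy b
  · exact absurd (a.symm.trans (he x)) (hst' x (fun y _ => e y) y b rxy)

lemma bad_sm {ν : Cardinal} (hν : ℵ₀ ≤ ν) {S X : Set α} {f : α → α} {z : α}
    (han : ∀ x ∈ S, ∀ y ∈ S, f x = f y → x ≤ y → x = y)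
    (hd : ∀ x ∈ S, #{y | y ∈ S ∧ inc x y} < ν) (hX : ∀ y ∈ X, y ∈ S ∧ inc z y)
    (hc : ∀ x ∈ X, ∀ y ∈ X, x ≤ y ∨ y ≤ x) :
    #{y | y ∈ X ∧ ∃ k ∈ S, f k = f y ∧ k ≤ z} < ν := by
  set B := {y | y ∈ X ∧ ∃ k ∈ S, f k = f y ∧ k ≤ z} with hB
  rcases B.eq_empty_or_nonempty with e | ⟨y0, hy0⟩
  · rw [e]; exact sm_fin hν finite_empty
  have key : ∀ y ∈ X, ∀ k ∈ S, f k = f y → k ≤ z → ∀ u ∈ X, u ≤ y → inc k u :=
    fun y hy k hk e a u hu b =>
      ⟨fun c => (hX y hy).2.2 (han k hk y (hX y hy).1 e (c.trans b) ▸ a),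
        fun c => (hX u hu).2.2 (c.trans a)⟩
  obtain ⟨k0, hk0, e0, a0⟩ := hy0.2
  have s1 : #{u | u ∈ X ∧ u ≤ y0} < ν :=
    sm_sub (hd k0 hk0) fun u hu => ⟨(hX u hu.1).1, key y0 hy0.1 k0 hk0 e0 a0 u hu.1 hu.2⟩
  have s2 : #{u | u ∈ B ∧ y0 ≤ u} < ν := by
    have : ∀ u : {u | u ∈ B ∧ y0 ≤ u}, ∃ k ∈ S, f k = f u ∧ k ≤ z := fun u => u.2.1.2
    choose k hk he ha using this
    refine lt_of_le_of_lt ?_ (hd y0 (hX y0 hy0.1).1)
    refine mk_le_of_injective (f := fun u => (⟨k u, hk u,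
      (key u.1 u.2.1.1 (k u) (hk u) (he u) (ha u) y0 hy0.1 u.2.2).symm⟩ :
        {y | y ∈ S ∧ inc y0 y})) fun u v e => ?_
    have e1 : f u = f v := (he u).symm.trans ((congrArg (fun w => f w.1) e).trans (he v))
    rcases hc u u.2.1.1 v v.2.1.1 with b | b
    · exact Subtype.ext (han _ (hX _ u.2.1.1).1 _ (hX _ v.2.1.1).1 e1 b)
    · exact Subtype.ext (han _ (hX _ v.2.1.1).1 _ (hX _ u.2.1.1).1 e1.symm b).symm
  refine sm_sub (sm_union hν s1 s2) fun u hu => ?_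
  rcases hc u hu.1 y0 hy0.1 with b | b
  · exact Or.inl ⟨hu.1, b⟩
  · exact Or.inr ⟨hu, b⟩

lemma lemB [Finite κ] {col : α → κ} (hc : Col col) {ν : Cardinal} (hν : ℵ₀ ≤ ν) {S : Set α}
    {f : α → α} (hf : Sp S f) (hd : ∀ x ∈ S, #{y | y ∈ S ∧ inc x y} < ν) {z : α}
    (hz : ν ≤ #{y | y ∈ S ∧ inc z y}) :
    ν ≤ #{c | c ∈ S ∧ f c = c ∧ ∀ y ∈ S, f y = c → inc z y} := by
  obtain ⟨i, hi⟩ := big_col hν col hz
  set X := {x | x ∈ {y | y ∈ S ∧ inc z y} ∧ col x = i} with hX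
  have hXc : ∀ x ∈ X, ∀ y ∈ X, x ≤ y ∨ y ≤ x := fun x hx y hy => hc x y (hx.2.trans hy.2.symm)
  have b1 := bad_sm hν hf.an hd (X := X) (z := z) (fun y hy => hy.1) hXc
  have b2 := bad_sm (α := αᵒᵈ) hν (S := S) (f := f)
    (fun x hx y hy e a => (hf.an y hy x hx e.symm a).symm)
    (fun x hx => sm_sub (hd x hx) fun y hy => ⟨hy.1, hy.2.symm⟩) (X := X) (z := z)
    (fun y hy => ⟨hy.1.1, hy.1.2.symm⟩) (fun x hx y hy => (hXc x hx y hy).symm)
  let G : Set α := {x | x ∈ X ∧ ∀ y ∈ S, f y = f x → inc z y}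
  have hG : ν ≤ #G := by
    by_contra hn
    push Not at hn
    refine (sm_sub (sm_union hν hn (sm_union hν b1 b2)) fun x hx => ?_).not_ge hi
    by_cases h1 : ∀ y ∈ S, f y = f x → inc z y
    · exact Or.inl ⟨hx, h1⟩
    · push Not at h1
      obtain ⟨y, hy, e, h1⟩ := h1
      by_cases h2 : y ≤ z
      · exact Or.inr (Or.inl ⟨hx, y, hy, e, h2⟩)
      · exact Or.inr (Or.inr ⟨hx, y, hy, e, by_contra fun a => h1 ⟨a, h2⟩⟩)
  refine hG.trans (mk_le_of_injective (f := fun u : G => ⟨f u, hf.mem _ u.2.1.1.1,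
    hf.idem _ u.2.1.1.1, u.2.2⟩) fun u v e => ?_)
  have e1 : f u = f v := congrArg Subtype.val e
  rcases hXc u u.2.1 v v.2.1 with b | b
  · exact Subtype.ext (hf.an _ u.2.1.1.1 _ v.2.1.1.1 e1 b)
  · exact Subtype.ext (hf.an _ v.2.1.1.1 _ u.2.1.1.1 e1.symm b).symm

lemma absorb [Finite κ] {col : α → κ} (hc : Col col) {ν : Cardinal} (hν : ℵ₀ ≤ ν) {Q S : Set α}
    (hk : DKer ν Q S) {f : α → α} (hf : Sp S f) (hQ : ∀ x ∈ Q, #{y | y ∈ Q ∧ inc x y} ≤ ν) :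
    ∃ g, Sp Q g ∧ ∀ x ∈ S, g x = f x := by
  classical
  have hd : ∀ x ∈ S, #{y | y ∈ S ∧ inc x y} < ν := fun x hx => (hk.2 x (hk.1 hx)).1 hx
  let A : {z // z ∈ Q ∧ z ∉ S} → Set α := fun z =>
    {c | c ∈ S ∧ f c = c ∧ ∀ y ∈ S, f y = c → inc z.1 y}
  obtain ⟨e, he, hinj⟩ := sdr hν A
    (fun z => lemB hc hν hf hd (not_lt.1 fun a => z.2.2 ((hk.2 z z.2.1).2 a)))
    (fun z => le_trans (mk_le_mk_of_subset (t := {y | y ∈ Q ∧ inc z.1 y})
      fun c hc' => ⟨hk.1 hc'.1, hc'.2.2 c hc'.1 hc'.2.1⟩) (hQ z z.2.1)) fun c => by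
      by_cases h1 : c ∈ S
      · refine le_trans ?_ (hQ c (hk.1 h1))
        exact mk_le_of_injective (f := fun u : {z | c ∈ A z} => (⟨u.1.1, u.1.2.1,
          (u.2.2.2 c u.2.1 u.2.2.1).symm⟩ : {y | y ∈ Q ∧ inc c y})) fun u v a =>
          Subtype.ext (Subtype.ext (congrArg (fun w => w.1) a))
      · exact (sm_fin hν (finite_empty.subset fun z hz => h1 hz.1)).le
  let g : α → α := fun x => if h : x ∈ Q ∧ x ∉ S then e ⟨x, h⟩ else f x
  have g1 : ∀ x ∈ S, g x = f x := fun x hx => dif_neg fun a => a.2 hx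
  have g2 : ∀ x (h : x ∈ Q ∧ x ∉ S), g x = e ⟨x, h⟩ := fun x h => dif_pos h
  have g3 : ∀ x ∈ Q, g x ∈ S ∧ f (g x) = g x := fun x hx => by
    by_cases h : x ∈ S
    · rw [g1 x h]; exact ⟨hf.mem x h, hf.idem x h⟩
    · rw [g2 x ⟨hx, h⟩]; exact ⟨(he _).1, (he _).2.1⟩
  refine ⟨g, ⟨fun x hx => hk.1 (g3 x hx).1, fun x hx => (g1 _ (g3 x hx).1).trans (g3 x hx).2,
    fun x hx y hy => ?_, fun x hx y hy a b => ?_⟩, g1⟩
  · have := hf.ch _ (g3 x hx).1 _ (g3 y hy).1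
    rwa [(g3 x hx).2, (g3 y hy).2] at this
  · by_cases h1 : x ∈ S <;> by_cases h2 : y ∈ S
    · exact hf.an x h1 y h2 ((g1 x h1).symm.trans (a.trans (g1 y h2))) b
    · rw [g1 x h1, g2 y ⟨hy, h2⟩] at a
      exact absurd b ((he ⟨y, hy, h2⟩).2.2 x h1 a).2
    · rw [g1 y h2, g2 x ⟨hx, h1⟩] at a
      exact absurd b ((he ⟨x, hx, h1⟩).2.2 y h2 a.symm).1
    · rw [g2 x ⟨hx, h1⟩, g2 y ⟨hy, h2⟩] at a
      exact congrArg Subtype.val (hinj a)

end Pool.Agent.H15.FB
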