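import Pool.Agent.H15.FB3

/-! Cuts at a cardinal level and the one-level step. -/

open Set Cardinal

namespace Pool.Agent.H15.FB

variable {α κ : Type} [PartialOrder α]

def bt (P : Set α) (x0 x : α) : Set α := {u | u ∈ P ∧ x0 ≤ u ∧ u ≤ x}

def TA (ν : Cardinal) (P : Set α) (x0 : α) (I : Set α) : Prop :=
  Idl I ∧ Hv ν P I ∧ x0 ∈ I ∧ ∀ x ∈ I, #(bt P x0 x) < ν

def TD (ν : Cardinal) (P : Set α) (x0 : α) (F : Set α) : Prop :=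
  Idl (α := αᵒᵈ) F ∧ Hv (α := αᵒᵈ) ν P F ∧ x0 ∈ lowerBounds F ∧
    #{u | u ∈ P ∧ x0 ≤ u ∧ u ∈ lowerBounds F} < ν

def Cut (ν : Cardinal) (P : Set α) (x0 : α) (L : Set α) : Prop :=
  (L = Set.univ ∧ ∀ x ∈ P, #(bt P x0 x) < ν) ∨ TA ν P x0 L ∨ ∃ F, TD ν P x0 F ∧ L = lowerBounds F

def Incl (μ : Cardinal) (P : Set α) (x0 : α) (L M : Set α) : Prop :=
  L ⊆ M ∧ ∀ x ∈ M, x ∈ P → x ∉ L →
    μ ≤ #{v | v ∈ P ∧ v ∈ M ∧ x0 ≤ v ∧ inc x v} ∨ μ ≤ #(bt P x0 x)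

variable {ν : Cardinal} {P : Set α} {x0 : α}

lemma Incl.trans {μ : Cardinal} {L M N : Set α} (h : μ ≤ ν) (a : Incl μ P x0 L M)
    (b : Incl ν P x0 M N) : Incl μ P x0 L N := by
  refine ⟨a.1.trans b.1, fun x hx hP hL => ?_⟩
  by_cases h1 : x ∈ M
  · exact (a.2 x h1 hP hL).imp (fun c => bg_sub c fun v hv => ⟨hv.1, b.1 hv.2.1, hv.2.2⟩) id
  · exact (b.2 x hx hP h1).imp h.trans h.trans

lemma Cut.prop {L : Set α} (h : Cut ν P x0 L) :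
    IsLowerSet L ∧ x0 ∈ L ∧ ∀ x ∈ L, x ∈ P → #(bt P x0 x) < ν := by
  rcases h with ⟨rfl, h⟩ | h | ⟨F, h, rfl⟩
  · exact ⟨isLowerSet_univ, trivial, fun x _ hx => h x hx⟩
  · exact ⟨h.1.2.1, h.2.2.1, fun x hx _ => h.2.2.2 x hx⟩
  · exact ⟨fun a b hab ha y hy => hab.trans (ha hy), h.2.2.1, fun x hx _ =>
      sm_sub h.2.2.2 fun u hu => ⟨hu.1, hu.2.1, fun y hy => hu.2.2.trans (hx hy)⟩⟩

lemma cut_fin [Finite κ] {col : α → κ} (hc : Col col) : {L | Cut ν P x0 L}.Finite := by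
  have h1 : {L | TA ν P x0 L}.Finite := by
    refine (finite_iUnion fun i => Set.Subsingleton.finite
      (s := {L | TA ν P x0 L ∧ cof col L i}) ?_).subset fun L hL => ?_
    · have : ∀ I J, TA ν P x0 I → TA ν P x0 J → ¬ lls I J := fun I J hI hJ ⟨y, hy, a⟩ =>
        (hJ.2.2.2 y hy).not_ge (bg_sub (hI.2.1 x0 hI.2.2.1)
          fun v hv => ⟨hv.2.1, hv.2.2.le, a hv.1⟩)
      intro I hI J hJ
      rcases cof_tri hc hI.1.1 hJ.1.1 hI.2 hJ.2 with a | a | a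
      · exact a
      · exact absurd a (this I J hI.1 hJ.1)
      · exact absurd a (this J I hJ.1 hI.1)
    · obtain ⟨i, hi⟩ := hL.1.cof_ex col
      exact mem_iUnion.2 ⟨i, hL, hi⟩
  have h2 : {F | TD ν P x0 F}.Finite := by
    refine (finite_iUnion fun i => Set.Subsingleton.finite
      (s := {F | TD ν P x0 F ∧ cof (α := αᵒᵈ) col F i}) ?_).subset fun L hL => ?_
    · have : ∀ I J, TD ν P x0 I → TD ν P x0 J → ¬ lls (α := αᵒᵈ) I J :=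
        fun I J hI hJ ⟨y, hy, a⟩ => hI.2.2.2.not_ge (bg_sub (hJ.2.1 y hy)
          fun v hv => ⟨hv.2.1, hJ.2.2.1 hv.1, fun z hz => le_trans (α := α) hv.2.2.le (a hz)⟩)
      intro I hI J hJ
      rcases cof_tri hc.dual hI.1.1 hJ.1.1 hI.2 hJ.2 with a | a | a
      · exact a
      · exact absurd a (this I J hI.1 hJ.1)
      · exact absurd a (this J I hJ.1 hI.1)
    · obtain ⟨i, hi⟩ := Idl.cof_ex (α := αᵒᵈ) hL.1 col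
      exact mem_iUnion.2 ⟨i, hL, hi⟩
  refine (((h2.image lowerBounds).union h1).insert Set.univ).subset ?_
  rintro L (h | h | ⟨F, h, rfl⟩)
  · exact Or.inl h.1
  · exact Or.inr (Or.inr h)
  · exact Or.inr (Or.inl ⟨F, h, rfl⟩)

lemma step1 [Finite κ] {col : α → κ} (hc : Col col) (hν : ℵ₀ ≤ ν) {ν' : Cardinal} (hν' : ν ≤ ν')
    {M Q S : Set α} (hM : Cut ν' P x0 M) (hQP : Q ⊆ P) (hQM : Q ⊆ M)
    (hQ : ∀ u ∈ P, u ∈ M → x0 ≤ u → u ∈ Q) (hk : DKer ν Q S) (h0 : x0 ∈ S) :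
    ∃ L, Cut ν P x0 L ∧ Incl ν P x0 L M ∧ (∀ x ∈ S, #(bt S x0 x) < ν → x ∈ L) ∧
      ∀ x ∈ L, #{v | v ∈ S ∧ x0 ≤ v ∧ inc x v} < ν := by
  have hd : ∀ x ∈ S, #{y | y ∈ S ∧ inc x y} < ν := fun x hx => (hk.2 x (hk.1 hx)).1 hx
  have hSP : S ⊆ P := hk.1.trans hQP
  have hSM : S ⊆ M := hk.1.trans hQM
  have hMl := hM.prop.1
  have hin : ∀ u ∈ P, u ∈ M → x0 ≤ u → #{v | v ∈ S ∧ x0 ≤ v ∧ inc u v} < ν → u ∈ S :=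
    fun u hu hu' h1 h2 => (hk.2 u (hQ u hu hu' h1)).2 (sm_sub (sm_union hν h2 (hd x0 h0))
      fun v hv => by
        by_cases h3 : x0 ≤ v
        · exact Or.inl ⟨hv.1, h3, hv.2⟩
        · exact Or.inr ⟨hv.1, h3, fun a => hv.2.2 (a.trans h1)⟩)
  let A : Set α := {x | x ∈ S ∧ x0 ≤ x ∧ #(bt S x0 x) < ν}
  by_cases hA : ν ≤ #A
  · obtain ⟨i, hi⟩ := big_col hν col hA
    set Y := {x | x ∈ A ∧ col x = i} with hY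
    have hasc : Asc ν Y := asc_of hν (fun x hx y hy => hc x y (hx.2.trans hy.2.symm)) hi
      fun x hx => sm_sub hx.1.2.2 fun u hu => ⟨hu.1.1.1, hu.1.1.2.1, hu.2⟩
    have hI := hasc.idl
    have hv : Hv ν S (lowc Y) := hasc.hv fun y hy => hy.1.1
    have hx0 : x0 ∈ lowc Y := by
      obtain ⟨y, hy⟩ := hasc.1
      exact ⟨y, hy, hy.1.2.1⟩
    have hIM : lowc Y ⊆ M := fun x ⟨y, hy, a⟩ => hMl a (hSM hy.1.1)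
    have h2 : ∀ x ∈ lowc Y, #{v | v ∈ S ∧ x0 ≤ v ∧ inc x v} < ν := fun x ⟨y, hy, a⟩ =>
      sm_sub (sm_union hν hy.1.2.2 (hd y hy.1.1)) fun v hv => by
        by_cases h3 : v ≤ y
        · exact Or.inl ⟨hv.1, hv.2.1, h3⟩
        · exact Or.inr ⟨hv.1, fun b => hv.2.2.1 (a.trans b), h3⟩
    have hub : ∀ x ∈ upperBounds (lowc Y), ν ≤ #(bt S x0 x) := fun x hx =>
      bg_sub hi fun y hy => ⟨hy.1.1, hy.1.2.1, hx ⟨y, hy, le_rfl⟩⟩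
    refine ⟨lowc Y, Or.inr (Or.inl ⟨hI, hv.mono hSP, hx0, fun x ⟨y, hy, a⟩ =>
      sm_sub hy.1.2.2 fun u hu => ?_⟩), ⟨hIM, fun x _ _ hx => ?_⟩, fun x hx h3 => ?_, h2⟩
    · have h3 : u ∈ lowc Y := ⟨y, hy, hu.2.2.trans a⟩
      exact ⟨hin u hu.1 (hIM h3) hu.2.1 (h2 u h3), hu.2.1, hu.2.2.trans a⟩
    · by_cases h3 : x ∈ upperBounds (lowc Y)
      · exact Or.inr (bg_sub (hub x h3) fun u hu => ⟨hSP hu.1, hu.2⟩)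
      · exact Or.inl (bg_sub (hI.mid_nbr hv ⟨hx, h3⟩ hx0)
          fun u hu => ⟨hSP hu.2.1, hSM hu.2.1, hu.2.2.1.le, hu.2.2.2⟩)
    · by_contra h4
      by_cases h5 : x ∈ upperBounds (lowc Y)
      · exact h3.not_ge (hub x h5)
      · exact (hd x hx).not_ge (bg_sub (hI.mid_nbr hv ⟨h4, h5⟩ hx0) fun u hu => ⟨hu.2.1, hu.2.2.2⟩)
  push Not at hA
  let B : Set α := {x | x ∈ S ∧ x0 ≤ x ∧ ν ≤ #(bt S x0 x)}
  have hAB : ∀ x ∈ S, x0 ≤ x → x ∈ A ∨ x ∈ B := fun x hx h =>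
    (lt_or_ge #(bt S x0 x) ν).imp (fun a => ⟨hx, h, a⟩) fun a => ⟨hx, h, a⟩
  rcases B.eq_empty_or_nonempty with e | ⟨b, hb⟩
  · have h1 : ∀ x ∈ S, x0 ≤ x → x ∈ A := fun x hx h => (hAB x hx h).resolve_right (by simp [e])
    have h2 : ∀ x, #{v | v ∈ S ∧ x0 ≤ v ∧ inc x v} < ν := fun x =>
      sm_sub hA fun v hv => h1 v hv.1 hv.2.1
    have h3 : #{u | u ∈ P ∧ x0 ≤ u ∧ u ∈ M} < ν :=
      sm_sub hA fun u hu => h1 u (hin u hu.1 hu.2.2 hu.2.1 (h2 u)) hu.2.1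
    refine ⟨M, ?_, ⟨subset_rfl, fun x hx _ a => absurd hx a⟩, fun x hx _ => hSM hx, fun x _ => h2 x⟩
    rcases hM with ⟨rfl, -⟩ | h | ⟨F, h, rfl⟩
    · exact Or.inl ⟨rfl, fun x _ => sm_sub h3 fun u hu => ⟨hu.1, hu.2.1, trivial⟩⟩
    · exact (h3.not_ge (bg_sub (hν'.trans (h.2.1 x0 h.2.2.1))
        fun u hu => ⟨hu.2.1, hu.2.2.le, hu.1⟩)).elim
    · exact Or.inr (Or.inr ⟨F, ⟨h.1, fun x hx => hν'.trans (h.2.1 x hx), h.2.2.1, h3⟩, rfl⟩)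
  have hB : ∀ x ∈ B, ν ≤ #{y | y ∈ B ∧ y < x} := fun x hx => by
    by_contra hn
    push Not at hn
    refine (sm_sub (sm_union hν (sm_union hν hA hn) (sm_fin hν (finite_singleton x)))
      fun u hu => ?_).not_ge hx.2.2
    rcases hAB u hu.1 hu.2.1 with a | a
    · exact Or.inl (Or.inl a)
    · rcases hu.2.2.eq_or_lt with c | c
      · exact Or.inr c
      · exact Or.inl (Or.inr ⟨a, c⟩)
  let F : Set α := {x | ∃ y ∈ B, y ≤ x}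
  have hF : Idl (α := αᵒᵈ) F := by
    refine ⟨⟨b, b, hb, le_rfl⟩, fun x y h ⟨z, hz, a⟩ => ⟨z, hz, a.trans h⟩, ?_⟩
    rintro x ⟨y, hy, a⟩ x' ⟨y', hy', a'⟩
    obtain ⟨w, hw, h1⟩ := bg_ex (hB y hy) (hd y' hy'.1)
    by_cases h2 : w ≤ y'
    · exact ⟨w, ⟨w, hw.1, le_rfl⟩, le_trans (α := α) hw.2.le a, le_trans (α := α) h2 a'⟩
    · have h3 : y' ≤ w := by_contra fun c => h1 ⟨hw.1.1, c, h2⟩
      exact ⟨y', ⟨y', hy', le_rfl⟩, le_trans (α := α) (h3.trans hw.2.le) a, a'⟩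
  have hv : Hv (α := αᵒᵈ) ν S F := fun x ⟨y, hy, a⟩ =>
    bg_sub (hB y hy) fun u hu => ⟨⟨u, hu.1, le_rfl⟩, hu.1.1, lt_of_lt_of_le (α := α) hu.2 a⟩
  have hbF : b ∈ F := ⟨b, hb, le_rfl⟩
  have hx0 : x0 ∈ lowerBounds F := fun x ⟨y, hy, a⟩ => hy.2.1.trans a
  have hLM : lowerBounds F ⊆ M := fun x hx => hMl (hx hbF) (hSM hb.1)
  have h2 : ∀ x ∈ lowerBounds F, #{v | v ∈ S ∧ x0 ≤ v ∧ inc x v} < ν := fun x hx =>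
    sm_sub hA fun v hv => (hAB v hv.1 hv.2.1).resolve_right fun a => hv.2.2.1 (hx ⟨v, a, le_rfl⟩)
  have hub : ∀ x ∈ F, ν ≤ #(bt S x0 x) := fun x ⟨y, hy, a⟩ =>
    bg_sub hy.2.2 fun u hu => ⟨hu.1, hu.2.1, hu.2.2.trans a⟩
  refine ⟨lowerBounds F, Or.inr (Or.inr ⟨F, ⟨hF, Hv.mono (α := αᵒᵈ) hv hSP, hx0,
    sm_sub hA fun u hu => ?_⟩, rfl⟩), ⟨hLM, fun x _ _ hx => ?_⟩, fun x hx h3 => ?_, h2⟩
  · refine (hAB u (hin u hu.1 (hLM hu.2.2) hu.2.1 (h2 u hu.2.2)) hu.2.1).resolve_right fun a => ?_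
    obtain ⟨w, hw⟩ := bg_ne hν (hB u a)
    exact hw.2.not_ge (hu.2.2 ⟨w, hw.1, le_rfl⟩)
  · by_cases h3 : x ∈ F
    · exact Or.inr (bg_sub (hub x h3) fun u hu => ⟨hSP hu.1, hu.2⟩)
    · exact Or.inl (bg_sub (hF.mid_nbr hv (z := x) ⟨h3, hx⟩ hbF)
        fun u hu => ⟨hSP hu.2.1, hSM hu.2.1, hx0 hu.1, hu.2.2.2.symm⟩)
  · by_contra h4
    by_cases h5 : x ∈ F
    · exact h3.not_ge (hub x h5)
    · exact (hd x hx).not_ge (bg_sub (hF.mid_nbr hv (z := x) ⟨h5, h4⟩ hbF)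
        fun u hu => ⟨hu.2.1, hu.2.2.2.symm⟩)

lemma step1' [Finite κ] {col : α → κ} (hc : Col col) (hν : ℵ₀ ≤ ν) {ν' : Cardinal} (hν' : ν ≤ ν')
    {M Q S : Set α} (hM : Cut ν' P x0 M) (hQP : Q ⊆ P) (hQM : Q ⊆ M)
    (hQ : ∀ u ∈ P, u ∈ M → x0 ≤ u → u ∈ Q) (hk : DKer ν Q S) (h0 : x0 ∈ S) :
    ∃ L, Cut ν P x0 L ∧ Incl ν P x0 L M ∧ (∀ x ∈ S, x ∉ L → ∀ y ∈ S, y ∈ L → x ≤ y ∨ y ≤ x) ∧
      ∀ x ∈ L, #{v | v ∈ S ∧ x0 ≤ v ∧ inc x v} < ν := by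
  obtain ⟨L, h1, h2, h3, h4⟩ := step1 hc hν hν' hM hQP hQM hQ hk h0
  refine ⟨L, h1, h2, fun x hx hxL y hy hyL => by_contra fun hn => hxL (h3 x hx ?_), h4⟩
  push Not at hn
  refine sm_sub (sm_union hν (h1.prop.2.2 y hyL (hQP (hk.1 hy))) ((hk.2 y (hk.1 hy)).1 hy))
    fun u hu => ?_
  by_cases h5 : u ≤ y
  · exact Or.inl ⟨hQP (hk.1 hu.1), hu.2.1, h5⟩
  · exact Or.inr ⟨hu.1, fun a => hn.2 (a.trans hu.2.2), h5⟩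

lemma DKer.dual {Q S : Set α} (h : DKer ν Q S) : DKer (α := αᵒᵈ) ν Q S :=
  ⟨h.1, fun z hz => (h.2 z hz).trans ⟨fun a => sm_sub a fun _ hy => ⟨hy.1, hy.2.symm⟩,
    fun a => sm_sub a fun _ hy => ⟨hy.1, hy.2.symm⟩⟩⟩

def Rg (P : Set α) (p : Set α × Set α) : Set α := {x | x ∈ P ∧ x ∈ p.1 ∧ x ∈ p.2}

def C2 (ν : Cardinal) (P : Set α) (x0 : α) (p : Set α × Set α) : Prop :=
  Cut ν P x0 p.1 ∧ Cut (α := αᵒᵈ) ν P x0 p.2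

def I2 (ν : Cardinal) (P : Set α) (x0 : α) (p q : Set α × Set α) : Prop :=
  Incl ν P x0 p.1 q.1 ∧ Incl (α := αᵒᵈ) ν P x0 p.2 q.2

def Stp (ν : Cardinal) (P : Set α) (p q : Set α × Set α) : Prop :=
  ∃ S, DKer ν (Rg P q) S ∧ Rg P p ⊆ S ∧ ∀ x ∈ S, x ∉ Rg P p → ∀ y ∈ Rg P p, x ≤ y ∨ y ≤ x

lemma step2 [Finite κ] {col : α → κ} (hc : Col col) (hν : ℵ₀ ≤ ν) {ν' : Cardinal} (hν' : ν ≤ ν')
    (h0 : x0 ∈ P) (hd : #{y | y ∈ P ∧ inc x0 y} < ν) {q : Set α × Set α} (hq : C2 ν' P x0 q) :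
    ∃ p, C2 ν P x0 p ∧ I2 ν P x0 p q ∧ Stp ν P p q := by
  obtain ⟨S, hS⟩ := dker hc hν (Rg P q)
  have a1 := hq.1.prop
  have a2 := hq.2.prop
  have hx : x0 ∈ S := (hS.2 x0 ⟨h0, a1.2.1, a2.2.1⟩).2
    (sm_sub hd fun y hy => ⟨(hS.1 hy.1).1, hy.2⟩)
  obtain ⟨L, l1, l2, l3, l4⟩ := step1' hc hν hν' hq.1 (Q := Rg P q)
    (fun x hx => hx.1) (fun x hx => hx.2.1)
    (fun u hu a b => show u ∈ Rg P q from ⟨hu, a, a2.1 b a2.2.1⟩) hS hx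
  obtain ⟨H, k1, k2, k3, k4⟩ := step1' (α := αᵒᵈ) hc.dual hν hν' hq.2 (Q := Rg P q)
    (fun x hx => hx.1) (fun x hx => hx.2.2) (fun u hu a b => show u ∈ Rg P q from ⟨hu, a1.1 b a1.2.1, a⟩) hS.dual hx
  have hR : Rg P (L, H) ⊆ S := fun x hx' => by
    refine (hS.2 x ⟨hx'.1, l2.1 hx'.2.1, k2.1 hx'.2.2⟩).2
      (sm_sub (sm_union hν (sm_union hν (l4 x hx'.2.1) (k4 x hx'.2.2)) hd) fun v hv => ?_)
    by_cases b1 : x0 ≤ v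
    · exact Or.inl (Or.inl ⟨hv.1, b1, hv.2⟩)
    · by_cases b2 : v ≤ x0
      · exact Or.inl (Or.inr ⟨hv.1, b2, hv.2.symm⟩)
      · exact Or.inr ⟨(hS.1 hv.1).1, b1, b2⟩
  refine ⟨(L, H), ⟨l1, k1⟩, ⟨l2, k2⟩, S, hS, hR, fun x hx hxR y hy => ?_⟩
  by_cases b : x ∈ L
  · exact (k3 x hx (fun c => hxR ⟨(hS.1 hx).1, b, c⟩) y (hR hy) hy.2.2).symm
  · exact l3 x hx b y (hR hy) hy.2.1

lemma Stp.deg {p q : Set α × Set α} (h : Stp ν P p q) :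
    ∀ x ∈ Rg P p, #{y | y ∈ Rg P p ∧ inc x y} < ν := fun x hx => by
  obtain ⟨S, h1, h2, -⟩ := h
  exact sm_sub ((h1.2 x (h1.1 (h2 hx))).1 (h2 hx)) fun y hy => ⟨h2 hy.1, hy.2⟩

lemma Stp.ext [Finite κ] {col : α → κ} (hc : Col col) (hν : ℵ₀ ≤ ν) {p q : Set α × Set α}
    (h : Stp ν P p q)
    (hT : ∀ A : Set α, (∀ x ∈ A, #{y | y ∈ A ∧ inc x y} < ν) → ∃ f, Sp A f)
    (hd : ∀ x ∈ Rg P q, #{y | y ∈ Rg P q ∧ inc x y} ≤ ν) {f : α → α} (hf : Sp (Rg P p) f) :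
    ∃ g, Sp (Rg P q) g ∧ ∀ x ∈ Rg P p, g x = f x := by
  obtain ⟨S, h1, h2, h3⟩ := h
  obtain ⟨g, hg⟩ := hT (S \ Rg P p) fun x hx =>
    sm_sub ((h1.2 x (h1.1 hx.1)).1 hx.1) fun y hy => ⟨hy.1.1, hy.2⟩
  obtain ⟨k, hk, hk'⟩ := hf.glue hg (fun x hx => hx.2) fun x hx y hy => (h3 y hy.1 hy.2 x hx).symm
  rw [union_sdiff_cancel h2] at hk
  obtain ⟨g', h4, h5⟩ := absorb hc hν h1 hk hd
  exact ⟨g', h4, fun x hx => (h5 x (h2 hx)).trans (hk' x hx)⟩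

lemma I2.cont {p q : Set α × Set α} (h : I2 ν P x0 p q) {ν' : Cardinal} (hq : C2 ν' P x0 q)
    {x : α} (hx : x ∈ Rg P q) (h1 : #{y | y ∈ Rg P q ∧ inc x y} < ν) (h2 : #(bt P x0 x) < ν)
    (h3 : #(bt (α := αᵒᵈ) P x0 x) < ν) : x ∈ Rg P p := by
  have a1 := hq.1.prop
  have a2 := hq.2.prop
  refine ⟨hx.1, by_contra fun hn => ?_, by_contra fun hn => ?_⟩
  · rcases h.1.2 x hx.2.1 hx.1 hn with a | a
    · exact h1.not_ge (bg_sub a fun v hv => ⟨⟨hv.1, hv.2.1, a2.1 hv.2.2.1 a2.2.1⟩, hv.2.2.2⟩)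
    · exact h2.not_ge a
  · rcases h.2.2 x hx.2.2 hx.1 hn with a | a
    · exact h1.not_ge (bg_sub a fun v hv => ⟨⟨hv.1, a1.1 hv.2.2.1 a1.2.1, hv.2.1⟩, hv.2.2.2.symm⟩)
    · exact h3.not_ge a

end Pool.Agent.H15.FB
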