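import Pool.Agent.H15.FB4
import Pool.Agent.H37.Dilw

/-! Every poset of finite width has a spine. -/

open Set Cardinal

namespace Pool.Agent.H15.FB

lemma tower_sel {ι σ : Type*} [LinearOrder ι] (C : ι → σ → Prop) (hfin : ∀ i, {p | C i p}.Finite)
    (I St : ι → σ → σ → Prop) (top : σ)
    (htr : ∀ i j p q r, i ≤ j → I i p q → I j q r → I i p r)
    (h0 : ∀ i, ∃ p, C i p ∧ I i p top)
    (h1 : ∀ i j q, i ≤ j → C j q → ∃ p, C i p ∧ I i p q ∧ St i p q) :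
    ∃ g : ι → σ, ∀ i, C i (g i) ∧ I i (g i) top ∧
      ∀ j, i < j → I i (g i) (g j) ∧ (i ⋖ j → St i (g i) (g j)) := by
  classical
  have key : ∀ s : Finset ι, ∃ g : ι → σ, (∀ i, C i (g i)) ∧ ∀ i ∈ s, I i (g i) top ∧
      ∀ j ∈ s, i < j → I i (g i) (g j) ∧ (i ⋖ j → St i (g i) (g j)) := by
    intro s
    induction s using Finset.induction_on_min with
    | empty =>
      choose g hg _ using h0
      exact ⟨g, hg, by simp⟩
    | insert a s ha ih =>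
      obtain ⟨g, hg, ih⟩ := ih
      obtain ⟨p, hp, hp1, hp2⟩ : ∃ p, C a p ∧ I a p top ∧
          ∀ j ∈ s, I a p (g j) ∧ (a ⋖ j → St a p (g j)) := by
        rcases s.eq_empty_or_nonempty with rfl | hs
        · obtain ⟨p, a1, a2⟩ := h0 a
          exact ⟨p, a1, a2, by simp⟩
        · have hm := s.min'_mem hs
          obtain ⟨p, a1, a2, a3⟩ := h1 a (s.min' hs) _ (ha _ hm).le (hg _)
          refine ⟨p, a1, htr _ _ _ _ _ (ha _ hm).le a2 (ih _ hm).1, fun j hj => ?_⟩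
          rcases (s.min'_le j hj).eq_or_lt with e | e
          · exact e ▸ ⟨a2, fun _ => a3⟩
          · exact ⟨htr _ _ _ _ _ (ha _ hm).le a2 ((ih _ hm).2 j hj e).1,
              fun c => absurd e (c.2 (ha _ hm))⟩
      have hne : ∀ j ∈ s, Function.update g a p j = g j := fun j hj =>
        Function.update_of_ne (ha j hj).ne' _ _
      refine ⟨Function.update g a p, fun i => ?_, fun i hi => ?_⟩
      · by_cases e : i = a
        · subst e; simpa using hp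
        · rw [Function.update_of_ne e]; exact hg i
      · rcases Finset.mem_insert.1 hi with rfl | hi
        · rw [Function.update_self]
          refine ⟨hp1, fun j hj hij => ?_⟩
          have hj' := (Finset.mem_insert.1 hj).resolve_left hij.ne'
          rw [hne j hj']
          exact hp2 j hj'
        · rw [hne i hi]
          refine ⟨(ih i hi).1, fun j hj hij => ?_⟩
          have hj' := (Finset.mem_insert.1 hj).resolve_left ((ha i hi).trans hij).ne'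
          rw [hne j hj']
          exact (ih i hi).2 j hj' hij
  choose G hG hG' using key
  have : ∀ i, Finite {p | C i p} := fun i => (hfin i).to_subtype
  obtain ⟨χ, hχ⟩ := Finset.rado_selection (β := fun i => {p | C i p}) fun s i => ⟨G s i, hG s i⟩
  refine ⟨fun i => (χ i).1, fun i => ⟨(χ i).2, ?_, fun j hij => ?_⟩⟩
  · obtain ⟨t, h2, h3⟩ := hχ {i}
    beta_reduce
    rw [h3 i (by simp)]
    exact (hG' t i (h2 (by simp))).1
  · obtain ⟨t, h2, h3⟩ := hχ {i, j}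
    beta_reduce
    rw [h3 i (by simp), h3 j (by simp)]
    exact (hG' t i (h2 (by simp))).2 j (h2 (by simp)) hij

variable {α κ : Type} [PartialOrder α]

lemma tower_zorn (P : Set α) {ι : Type*} [LinearOrder ι] [WellFoundedLT ι] (R : ι → Set α)
    (mono : ∀ i j, i ≤ j → R i ⊆ R j) (hP : ∀ i, R i ⊆ P) (hcov : ∀ x ∈ P, ∃ i, x ∈ R i)
    (hlim : ∀ j, (∃ i, i < j) → (∃ i, i ⋖ j) ∨ ∀ x ∈ R j, ∃ i < j, x ∈ R i)
    (hext : ∀ i j, i ⋖ j → ∀ f, Sp (R i) f → ∃ g, Sp (R j) g ∧ ∀ x ∈ R i, g x = f x)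
    (h0 : ∃ i f, Sp (R i) f) : ∃ f, Sp P f := by
  classical
  have clos : ∀ U : Set α, U ⊆ P → (∀ x ∈ U, ∃ i, x ∈ R i ∧ R i ⊆ U) → (∃ i, R i ⊆ U) → U ≠ P →
      ∃ i j, i ⋖ j ∧ U = R i ∧ ¬ R j ⊆ U := fun U h1 h2 h3 h4 => by
    obtain ⟨j, hj, hj'⟩ := (wellFounded_lt (α := ι)).has_min {j | ¬ R j ⊆ U} (by
      by_contra hn
      refine h4 (h1.antisymm fun x hx => ?_)
      obtain ⟨i, hi⟩ := hcov x hx
      exact (by_contra fun a => hn ⟨i, a⟩ : R i ⊆ U) hi)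
    have hl : ∀ i, i < j ↔ R i ⊆ U := fun i =>
      ⟨fun a => by_contra fun b => hj' i b a, fun a => lt_of_not_ge fun b => hj ((mono _ _ b).trans a)⟩
    obtain ⟨i0, hi0⟩ := h3
    rcases hlim j ⟨i0, (hl _).2 hi0⟩ with ⟨i, hi⟩ | h5
    · refine ⟨i, j, hi, subset_antisymm (fun x hx => ?_) ((hl i).1 hi.1), hj⟩
      obtain ⟨k, a, b⟩ := h2 x hx
      exact mono k i (hi.le_of_lt ((hl k).2 b)) a
    · refine absurd (fun x hx => ?_) hj
      obtain ⟨i, a, b⟩ := h5 x hx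
      exact (hl i).1 a b
  let T := {p : Set α × (α → α) // Sp p.1 p.2 ∧ (p.1 = P ∨ ∃ i, p.1 = R i)}
  let r : T → T → Prop := fun p q => p.1.1 ⊆ q.1.1 ∧ ∀ x ∈ p.1.1, q.1.2 x = p.1.2 x
  obtain ⟨i0, f0, hf0⟩ := h0
  have : Nonempty T := ⟨⟨(R i0, f0), hf0, Or.inr ⟨i0, rfl⟩⟩⟩
  have hTP : ∀ p : T, p.1.1 ⊆ P := fun p => by
    rcases p.2.2 with e | ⟨i, e⟩
    · exact e.le
    · exact e ▸ hP i
  obtain ⟨m, hm⟩ := exists_maximal_of_nonempty_chains_bounded (r := r) (fun c hc hne => by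
    let U : Set α := {x | ∃ p ∈ c, x ∈ p.1.1}
    have htot : ∀ p ∈ c, ∀ q ∈ c, r p q ∨ r q p := fun p hp q hq => by
      by_cases e : p = q
      · exact Or.inl (e ▸ ⟨subset_rfl, fun _ _ => rfl⟩)
      · exact hc hp hq e
    let f : α → α := fun x => if h : x ∈ U then h.choose.1.2 x else x
    have hf : ∀ p ∈ c, ∀ x ∈ p.1.1, f x = p.1.2 x := fun p hp x hx => by
      have h : x ∈ U := ⟨p, hp, hx⟩
      simp only [f, dif_pos h]
      rcases htot p hp _ h.choose_spec.1 with a | a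
      · exact a.2 x hx
      · exact (a.2 x h.choose_spec.2).symm
    have h2 : ∀ x ∈ U, ∀ y ∈ U, ∃ p ∈ c, x ∈ p.1.1 ∧ y ∈ p.1.1 :=
      fun x ⟨p, hp, hx⟩ y ⟨q, hq, hy⟩ => by
        rcases htot p hp q hq with a | a
        · exact ⟨q, hq, a.1 hx, hy⟩
        · exact ⟨p, hp, hx, a.1 hy⟩
    have hU : Sp U f := by
      refine ⟨fun x ⟨p, hp, hx⟩ => ⟨p, hp, hf p hp x hx ▸ p.2.1.mem x hx⟩, fun x ⟨p, hp, hx⟩ => ?_,
        fun x hx y hy => ?_, fun x hx y hy => ?_⟩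
      · rw [hf p hp x hx, hf p hp _ (p.2.1.mem x hx)]
        exact p.2.1.idem x hx
      · obtain ⟨p, hp, a, b⟩ := h2 x hx y hy
        rw [hf p hp x a, hf p hp y b]
        exact p.2.1.ch x a y b
      · obtain ⟨p, hp, a, b⟩ := h2 x hx y hy
        rw [hf p hp x a, hf p hp y b]
        exact p.2.1.an x a y b
    have hU' : U = P ∨ ∃ i, U = R i := by
      by_cases e : U = P
      · exact Or.inl e
      have hUP : U ⊆ P := fun x ⟨p, _, hx⟩ => hTP p hx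
      have h3 : ∀ p ∈ c, ∃ i, p.1.1 = R i := fun p hp => p.2.2.resolve_left fun a =>
        e (hUP.antisymm fun x hx => ⟨p, hp, a.ge hx⟩)
      obtain ⟨i, -, -, h4, -⟩ := clos U hUP (fun x ⟨p, hp, hx⟩ => by
        obtain ⟨i, hi⟩ := h3 p hp
        exact ⟨i, hi ▸ hx, fun y hy => ⟨p, hp, hi ▸ hy⟩⟩) (by
        obtain ⟨p, hp⟩ := hne
        obtain ⟨i, hi⟩ := h3 p hp
        exact ⟨i, fun y hy => ⟨p, hp, hi ▸ hy⟩⟩) e
      exact Or.inr ⟨i, h4⟩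
    exact ⟨⟨(U, f), hU, hU'⟩, fun p hp => ⟨fun x hx => ⟨p, hp, hx⟩, hf p hp⟩⟩)
    (fun {a b c} h1 h2 => ⟨h1.1.trans h2.1, fun x hx => (h2.2 x (h1.1 hx)).trans (h1.2 x hx)⟩)
  by_cases e : m.1.1 = P
  · have := m.2.1
    rw [e] at this
    exact ⟨_, this⟩
  obtain ⟨k, hk⟩ := m.2.2.resolve_left e
  obtain ⟨i, j, h1, h2, h3⟩ := clos m.1.1 (hTP m) (fun x hx => ⟨k, hk ▸ hx, hk.ge⟩) ⟨k, hk.ge⟩ e
  obtain ⟨g, hg, hg'⟩ := hext i j h1 m.1.2 (h2 ▸ m.2.1)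
  exact absurd (hm ⟨(R j, g), hg, Or.inr ⟨j, rfl⟩⟩
    ⟨h2.le.trans (mono i j h1.le), fun x hx => hg' x (h2 ▸ hx)⟩).1 h3

def TT (α : Type) [PartialOrder α] (ν : Cardinal) : Prop :=
  ∀ A : Set α, (∀ x ∈ A, #{y | y ∈ A ∧ inc x y} < ν) → ∃ f, Sp A f

lemma tower [Finite κ] {col : α → κ} (hc : Col col) {l : Cardinal} (hl0 : ℵ₀ < l)
    (hl : ∀ ν < l, Order.succ ν < l) (hT : ∀ ν < l, ℵ₀ ≤ ν → TT α ν) (P : Set α) {x0 : α}
    (h0 : x0 ∈ P) (hd : ∀ x ∈ P, #{y | y ∈ P ∧ inc x y} < l) (hb : ∀ x ∈ P, #(bt P x0 x) < l)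
    (hb' : ∀ x ∈ P, #(bt (α := αᵒᵈ) P x0 x) < l) : ∃ f, Sp P f := by
  obtain ⟨ν0, n1, n2, n3⟩ : ∃ ν0, ℵ₀ ≤ ν0 ∧ ν0 < l ∧ #{y | y ∈ P ∧ inc x0 y} < ν0 :=
    ⟨Order.succ (max ℵ₀ #{y | y ∈ P ∧ inc x0 y}), (le_max_left _ _).trans (Order.le_succ _),
      hl _ (max_lt hl0 (hd x0 h0)), Order.lt_succ_of_le (le_max_right _ _)⟩
  let ι := {ν : Cardinal.{0} // ν0 ≤ ν ∧ ν < l}
  have htop : C2 l P x0 (Set.univ, Set.univ) := ⟨Or.inl ⟨rfl, hb⟩, Or.inl ⟨rfl, hb'⟩⟩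
  obtain ⟨g, hg⟩ := tower_sel (ι := ι) (fun i => C2 i.1 P x0)
    (fun i => ((cut_fin hc).prod (cut_fin (α := αᵒᵈ) hc.dual)).subset fun p hp => hp)
    (fun i => I2 i.1 P x0) (fun i => Stp i.1 P) (Set.univ, Set.univ)
    (fun i j p q r h a b => ⟨a.1.trans h b.1, a.2.trans h b.2⟩)
    (fun i => by
      obtain ⟨p, a, b, -⟩ := step2 hc (n1.trans i.2.1) i.2.2.le h0 (n3.trans_le i.2.1) htop
      exact ⟨p, a, b⟩)
    (fun i j q h hq => step2 hc (n1.trans i.2.1) h h0 (n3.trans_le i.2.1) hq)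
  let sc : ι → ι := fun i => ⟨Order.succ i.1, i.2.1.trans (Order.le_succ _), hl _ i.2.2⟩
  have hsc : ∀ i, i ⋖ sc i := fun i =>
    ⟨Order.lt_succ i.1, fun c a b => (Order.lt_succ_iff (a := c.1) (b := i.1).1 b).not_gt a⟩
  have hdeg : ∀ i, ∀ x ∈ Rg P (g i), #{y | y ∈ Rg P (g i) ∧ inc x y} < i.1 := fun i =>
    (((hg i).2.2 _ (hsc i).1).2 (hsc i)).deg
  have big : ∀ (m a b c : Cardinal.{0}), ν0 < m → (∀ ν < m, Order.succ ν < m) → a < m → b < m →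
      c < m → ∃ μ, ν0 ≤ μ ∧ μ < m ∧ a < μ ∧ b < μ ∧ c < μ := fun m a b c h1 h2 h3 h4 h5 =>
    ⟨Order.succ (max ν0 (max a (max b c))), (le_max_left _ _).trans (Order.le_succ _),
      h2 _ (max_lt h1 (max_lt h3 (max_lt h4 h5))), Order.lt_succ_of_le (by simp),
      Order.lt_succ_of_le (by simp), Order.lt_succ_of_le (by simp)⟩
  refine tower_zorn P (fun i : ι => Rg P (g i)) (fun i j h => ?_) (fun i x hx => hx.1)
    (fun x hx => ?_) (fun j ⟨i, hi⟩ => ?_) (fun i j hij f hf => ?_)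
    ⟨⟨ν0, le_rfl, n2⟩, hT ν0 n2 n1 _ (hdeg ⟨ν0, le_rfl, n2⟩)⟩
  · rcases h.eq_or_lt with rfl | h
    · exact subset_rfl
    · have := ((hg i).2.2 j h).1
      exact fun x hx => ⟨hx.1, this.1.1 hx.2.1, this.2.1 hx.2.2⟩
  · obtain ⟨μ, a1, a2, a3, a4, a5⟩ := big l _ _ _ n2 hl (hd x hx) (hb x hx) (hb' x hx)
    exact ⟨⟨μ, a1, a2⟩, (hg ⟨μ, a1, a2⟩).2.1.cont htop ⟨hx, trivial, trivial⟩
      (sm_sub a3 fun y hy => ⟨hy.1.1, hy.2⟩) a4 a5⟩
  · by_cases h1 : ∀ ν < j.1, Order.succ ν < j.1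
    · refine Or.inr fun x hx => ?_
      obtain ⟨μ, a1, a2, a3, a4, a5⟩ := big j.1 _ _ _ (i.2.1.trans_lt hi) h1 (hdeg j x hx)
        ((hg j).1.1.prop.2.2 x hx.2.1 hx.1) ((hg j).1.2.prop.2.2 x hx.2.2 hx.1)
      exact ⟨⟨μ, a1, a2.trans j.2.2⟩, a2,
        ((hg ⟨μ, a1, a2.trans j.2.2⟩).2.2 j a2).1.cont (hg j).1 hx a3 a4 a5⟩
    · push Not at h1
      obtain ⟨μ, a1, a2⟩ := h1
      have a3 : i.1 ≤ μ := Order.lt_succ_iff.1 (lt_of_lt_of_le hi a2)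
      exact Or.inl ⟨⟨μ, i.2.1.trans a3, a1.trans j.2.2⟩, a1, fun c b1 b2 =>
        (Order.lt_succ_iff.1 (lt_of_lt_of_le (show c.1 < j.1 from b2) a2)).not_gt b1⟩
  · refine (((hg i).2.2 j hij.1).2 hij).ext hc (n1.trans i.2.1)
      (hT _ i.2.2 (n1.trans i.2.1)) (fun x hx => ?_) hf
    have : j.1 ≤ Order.succ i.1 := not_lt.1 (hij.2 (hsc i).1)
    exact Order.lt_succ_iff.1 ((hdeg j x hx).trans_le this)

lemma path_sm {l : Cardinal} (hl : ℵ₀ ≤ l) {Q : Set α} (r : α → α → Prop)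
    (hr : ∀ a b, r a b → b ∈ Q ∧ inc a b) (hd : ∀ x ∈ Q, #{y | y ∈ Q ∧ inc x y} < l) {x0 x : α}
    (h : Relation.ReflTransGen r x0 x) : #{u | u ∈ Q ∧ x0 ≤ u ∧ ¬ x < u} < l := by
  induction h with
  | refl => exact sm_fin hl ((finite_singleton x0).subset fun u hu =>
      (hu.2.1.eq_or_lt.resolve_right hu.2.2).symm)
  | @tail a b _ h2 ih =>
    refine sm_sub (sm_union hl ih (hd b (hr a b h2).1)) fun u hu => ?_
    by_cases h3 : a < u
    · refine Or.inr ⟨hu.1, fun c => hu.2.2 (lt_of_le_of_ne c fun e => ?_),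
        fun c => (hr a b h2).2.1 (h3.le.trans c)⟩
      exact (hr a b h2).2.1 (e ▸ h3.le)
    · exact Or.inl ⟨hu.1, hu.2.1, h3⟩

theorem tt_all [Finite κ] {col : α → κ} (hc : Col col) (ν : Cardinal) : ℵ₀ ≤ ν → TT α ν := by
  induction ν using WellFoundedLT.induction with
  | ind ν ih =>
  intro hν Q hQ
  rcases hν.eq_or_lt with rfl | hν'
  · exact sp_lf Q fun x hx => lt_aleph0_iff_set_finite.1 (hQ x hx)
  by_cases h1 : ∀ μ < ν, Order.succ μ < ν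
  · let r : α → α → Prop := fun a b => a ∈ Q ∧ b ∈ Q ∧ inc a b
    have hsub : ∀ x ∈ Q, {y | Relation.ReflTransGen r x y} ⊆ Q := fun x hx y hy => by
      induction hy with
      | refl => exact hx
      | tail _ h _ => exact h.2.1
    refine sp_comp Q (fun x => {y | Relation.ReflTransGen r x y}) (fun x _ => .refl) hsub
      (fun x _ y hy => ?_) (fun x hx y hy h => .single ⟨hx, hy, h⟩) fun x hx => ?_
    · have : Relation.ReflTransGen r y x := by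
        induction hy with
        | refl => exact .refl
        | tail _ h ih => exact .head ⟨h.2.1, h.1, h.2.2.symm⟩ ih
      ext z
      exact ⟨fun h => hy.trans h, fun h => this.trans h⟩
    · refine tower hc hν' h1 ih _ (x0 := x) .refl
        (fun y hy => sm_sub (hQ y (hsub x hx hy)) fun z hz => ⟨hsub x hx hz.1, hz.2⟩)
        (fun y hy => ?_) fun y hy => ?_
      · exact sm_sub (path_sm hν r (fun a b h => h.2) hQ hy)
          fun u hu => ⟨hsub x hx hu.1, hu.2.1, hu.2.2.not_gt⟩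
      · exact sm_sub (path_sm (α := αᵒᵈ) hν r (fun a b h => ⟨h.2.1, h.2.2.symm⟩)
          (fun x hx => sm_sub (hQ x hx) fun y hy => ⟨hy.1, hy.2.symm⟩) hy)
          fun u hu => ⟨hsub x hx hu.1, hu.2.1, hu.2.2.not_gt⟩
  · push Not at h1
    obtain ⟨μ, a1, a2⟩ := h1
    have a3 : ℵ₀ ≤ μ := Order.lt_succ_iff.1 (hν'.trans_le a2)
    obtain ⟨S, hS⟩ := dker hc a3 Q
    obtain ⟨f, hf⟩ := ih μ a1 a3 S fun x hx => (hS.2 x (hS.1 hx)).1 hx
    obtain ⟨g, hg, -⟩ := absorb hc a3 hS hf fun x hx =>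
      Order.lt_succ_iff.1 ((hQ x hx).trans_le a2)
    exact ⟨g, hg⟩

theorem spine (α : Type) [PartialOrder α]
    (h : ∃ k : ℕ, ∀ A : Set α, IsAntichain (· ≤ ·) A → A.encard ≤ (k : ℕ∞)) :
    ∃ C : Set α, IsChain (· ≤ ·) C ∧ ∃ D : Set (Set α), Setoid.IsPartition D ∧
      (∀ A ∈ D, IsAntichain (· ≤ ·) A) ∧ (∀ A ∈ D, (A ∩ C).Nonempty) := by
  obtain ⟨k, hk⟩ := h
  obtain ⟨c, hc1, hc2⟩ := Pool.Agent.H37.PD.dilw (X := α) (R := (· ≤ ·)) le_refl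
    (fun _ _ _ => le_trans) (fun _ _ => le_antisymm) Set.univ k fun M _ hM => by
      have := hk M fun x hx y hy hne a => hne (hM x hx y hy a)
      rw [encard_coe_eq_coe_finsetCard] at this
      exact_mod_cast this
  have hc : Col (fun x => (⟨c x, hc1 x trivial⟩ : Fin k)) := fun x y e =>
    hc2 x trivial y trivial (congrArg Fin.val e)
  obtain ⟨f, hf⟩ := tt_all hc (Order.succ (max ℵ₀ #α)) ((le_max_left _ _).trans (Order.le_succ _))
    Set.univ fun x _ => Order.lt_succ_of_le ((mk_set_le _).trans (le_max_right _ _))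
  refine ⟨range f, ?_, (Setoid.ker f).classes, Setoid.isPartition_classes _, ?_, ?_⟩
  · rintro _ ⟨x, rfl⟩ _ ⟨y, rfl⟩ _
    exact hf.ch x trivial y trivial
  · rintro A ⟨y, rfl⟩ a ha b hb hne hab
    exact hne (hf.an a trivial b trivial (Eq.trans ha (Eq.symm hb)) hab)
  · rintro A ⟨y, rfl⟩
    exact ⟨f y, hf.idem y trivial, y, rfl⟩

end Pool.Agent.H15.FB
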