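import Mathlib

set_option autoImplicit false

namespace Pool.Agent.H15.Girth
open Finset SimpleGraph

/-- every subgraph on at most `L` vertices is a forest -/
def Loc {n : ℕ} (L : ℕ) (T : SimpleGraph (Fin n)) : Prop :=
  ∀ m ≤ L, ∀ f : Fin m ↪ Fin n, (T.comap f).IsAcyclic

theorem ball {n : ℕ} (T : SimpleGraph (Fin n)) (D : ℕ) (hD : ∀ v, (T.neighborSet v).ncard ≤ D)
    (u : Fin n) (r : ℕ) : {w | ∃ p : T.Walk w u, p.length ≤ r}.ncard ≤ (D + 1) ^ r := by
  classical
  induction r with
  | zero =>
    have : {w | ∃ p : T.Walk w u, p.length ≤ 0} ⊆ {u} := by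
      rintro w ⟨p, hp⟩
      exact Walk.eq_of_length_eq_zero (Nat.le_zero.1 hp)
    simpa using Set.ncard_le_ncard this
  | succ r ih =>
    set B := {w | ∃ p : T.Walk w u, p.length ≤ r} with hB
    have hsub : {w | ∃ p : T.Walk w u, p.length ≤ r + 1} ⊆
        ↑(B.toFinset.biUnion (fun x => insert x (T.neighborSet x).toFinset)) := by
      rintro w ⟨p, hp⟩
      cases p with
      | nil => exact mem_coe.2 (mem_biUnion.2 ⟨u, Set.mem_toFinset.2 ⟨Walk.nil, by simp⟩, by simp⟩)
      | cons h q =>
        refine mem_coe.2 (mem_biUnion.2 ⟨_, Set.mem_toFinset.2 ⟨q, by simpa using hp⟩, ?_⟩)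
        simp [h.symm]
    refine (Set.ncard_le_ncard hsub).trans ?_
    rw [Set.ncard_coe_finset]
    refine (card_biUnion_le_card_mul _ _ (D + 1) (fun x _ => ?_)).trans ?_
    · refine (card_insert_le _ _).trans ?_
      rw [← Set.ncard_eq_toFinset_card']
      exact Nat.add_le_add_right (hD x) 1
    · rw [← Set.ncard_eq_toFinset_card', pow_succ]
      exact Nat.mul_le_mul_right _ ih

theorem loc_add {n L : ℕ} (T : SimpleGraph (Fin n)) (hT : Loc L T) (u v : Fin n)
    (h : ¬ ∃ p : T.Walk v u, p.length ≤ L) : Loc L (T ⊔ edge u v) := by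
  intro m hm f
  by_cases hex : ∃ a b, f a = u ∧ f b = v
  · obtain ⟨a, b, rfl, rfl⟩ := hex
    have hnr : ¬ (T.comap f).Reachable b a := by
      intro hr
      obtain ⟨p, hp⟩ := hr.exists_isPath
      refine h ⟨p.map (Hom.comap f T), ?_⟩
      have := hp.length_lt
      simp only [Fintype.card_fin] at this
      exact (Walk.length_map _ p).le.trans (by omega)
    refine ((hT m hm f).sup_edge_of_not_reachable hnr).anti ?_
    intro x y hxy
    simp only [comap_adj, sup_adj, edge_adj, EmbeddingLike.apply_eq_iff_eq, ne_eq] at hxy ⊢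
    tauto
  · refine (hT m hm f).anti ?_
    intro x y hxy
    simp only [comap_adj, sup_adj, edge_adj] at hxy ⊢
    rcases hxy with h1 | ⟨h1 | h1, -⟩
    · exact h1
    · exact (hex ⟨x, y, h1.1, h1.2⟩).elim
    · exact (hex ⟨y, x, h1.2, h1.1⟩).elim

theorem exists_girth (k L : ℕ) (h0 : 0 < L) : ∃ n, L < n ∧ ∃ T : SimpleGraph (Fin n), Loc L T ∧
    k * n ≤ T.edgeSet.ncard := by
  classical
  set D := 4 * k with hD
  set B := (D + 1) ^ L with hB
  refine ⟨2 * B + L + 1, by omega, ?_⟩
  set n := 2 * B + L + 1 with hn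
  have hne : (univ.filter (fun T : SimpleGraph (Fin n) =>
      Loc L T ∧ ∀ v, (T.neighborSet v).ncard ≤ D)).Nonempty := by
    refine ⟨⊥, mem_filter.2 ⟨mem_univ _, fun m _ f => ?_, fun v => by simp⟩⟩
    exact (isAcyclic_bot).of_comap f
  obtain ⟨T, hT, hmax⟩ := exists_max_image _ (fun T : SimpleGraph (Fin n) => T.edgeSet.ncard) hne
  obtain ⟨hT1, hT2⟩ := (mem_filter.1 hT).2
  refine ⟨T, hT1, ?_⟩
  set Low := univ.filter (fun v => (T.neighborSet v).ncard < D) with hLow
  have hlow : Low.card ≤ B := by
    by_contra hc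
    push Not at hc
    obtain ⟨u, hu⟩ : Low.Nonempty := card_pos.1 (by omega)
    obtain ⟨v, hv, hvb⟩ : ∃ v ∈ Low, ¬ ∃ p : T.Walk v u, p.length ≤ L := by
      by_contra hall
      push Not at hall
      have : (Low : Set (Fin n)) ⊆ {w | ∃ p : T.Walk w u, p.length ≤ L} := fun w hw => hall w hw
      have h2 := (Set.ncard_le_ncard this).trans (ball T D hT2 u L)
      rw [Set.ncard_coe_finset] at h2
      omega
    have huv : u ≠ v := by
      rintro rfl
      exact hvb ⟨Walk.nil, by simp⟩
    by_cases hadj : T.Adj u v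
    · exact hvb ⟨Walk.cons hadj.symm Walk.nil, h0⟩
    have hmem : T ⊔ edge u v ∈ univ.filter (fun T : SimpleGraph (Fin n) =>
        Loc L T ∧ ∀ v, (T.neighborSet v).ncard ≤ D) := by
      refine mem_filter.2 ⟨mem_univ _, loc_add T hT1 u v hvb, fun x => ?_⟩
      by_cases hxu : x = u
      · subst hxu
        have : (T ⊔ edge x v).neighborSet x ⊆ insert v (T.neighborSet x) := by
          intro y hy
          simp only [mem_neighborSet, sup_adj, edge_adj, Set.mem_insert_iff] at hy ⊢
          tauto
        have h2 := (Set.ncard_le_ncard this).trans (Set.ncard_insert_le _ _)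
        have := (mem_filter.1 hu).2
        omega
      by_cases hxv : x = v
      · subst hxv
        have : (T ⊔ edge u x).neighborSet x ⊆ insert u (T.neighborSet x) := by
          intro y hy
          simp only [mem_neighborSet, sup_adj, edge_adj, Set.mem_insert_iff] at hy ⊢
          tauto
        have h2 := (Set.ncard_le_ncard this).trans (Set.ncard_insert_le _ _)
        have := (mem_filter.1 hv).2
        omega
      · refine le_trans (Set.ncard_le_ncard ?_) (hT2 x)
        intro y hy
        simp only [mem_neighborSet, sup_adj, edge_adj] at hy ⊢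
        tauto
    have h1 := hmax _ hmem
    have h2 : T.edgeSet ⊂ (T ⊔ edge u v).edgeSet := by
      refine edgeSet_ssubset_edgeSet.2 (lt_sup_edge T u v huv hadj)
    have := Set.ncard_lt_ncard h2
    omega
  have hsum := T.sum_degrees_eq_twice_card_edges
  have hdeg : ∀ v, T.degree v = (T.neighborSet v).ncard := fun v => by
    rw [← card_neighborFinset_eq_degree, neighborFinset_def, Set.ncard_eq_toFinset_card']
  have h3 : (univ \ Low).card * D ≤ ∑ v, T.degree v := by
    refine le_trans ?_ (sum_le_sum_of_subset (subset_univ (univ \ Low)))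
    rw [← smul_eq_mul]
    refine card_nsmul_le_sum _ _ _ (fun x hx => ?_)
    have := (mem_sdiff.1 hx).2
    simp only [hLow, mem_filter, mem_univ, true_and, not_lt] at this
    rw [hdeg]; exact this
  rw [card_sdiff_of_subset (subset_univ _), card_univ, Fintype.card_fin] at h3
  have h4 : T.edgeSet.ncard = T.edgeFinset.card := by
    rw [edgeFinset, Set.ncard_eq_toFinset_card']
  have h5 : n ≤ 2 * (n - Low.card) := by omega
  rw [h4]
  nlinarith

end Pool.Agent.H15.Girth
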