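import Mathlib

set_option autoImplicit false

namespace Pool.Agent.H15.Hold3
open Finset

theorem holder3 {ι : Type*} (I : Finset ι) (s x y z : ι → ℝ) (hs : ∀ i, 0 ≤ s i)
    (hx : ∀ i, 0 ≤ x i) (hy : ∀ i, 0 ≤ y i) (hz : ∀ i, 0 ≤ z i)
    (h : ∀ i, s i ^ 3 ≤ x i * y i * z i) :
    (∑ i ∈ I, s i) ^ 3 ≤ (∑ i ∈ I, x i) * (∑ i ∈ I, y i) * (∑ i ∈ I, z i) := by
  set X := ∑ i ∈ I, x i with hX
  set Y := ∑ i ∈ I, y i with hY
  set Z := ∑ i ∈ I, z i with hZ
  have hX0 : 0 ≤ X := sum_nonneg (fun i _ => hx i)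
  have hY0 : 0 ≤ Y := sum_nonneg (fun i _ => hy i)
  have hZ0 : 0 ≤ Z := sum_nonneg (fun i _ => hz i)
  have zero : (∀ i ∈ I, x i * y i * z i = 0) → (∑ i ∈ I, s i) ^ 3 ≤ X * Y * Z := by
    intro h0
    have : ∑ i ∈ I, s i = 0 := sum_eq_zero (fun i hi => by
      have h1 := h i
      rw [h0 i hi] at h1
      have h2 : s i ^ 3 = 0 := le_antisymm h1 (pow_nonneg (hs i) 3)
      exact pow_eq_zero_iff (by norm_num) |>.1 h2)
    rw [this]
    have : 0 ≤ X * Y * Z := by positivity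
    simpa using this
  rcases hX0.eq_or_lt with hX1 | hX1
  · exact zero (fun i hi => by
      rw [(sum_eq_zero_iff_of_nonneg (fun i _ => hx i)).1 hX1.symm i hi]; ring)
  rcases hY0.eq_or_lt with hY1 | hY1
  · exact zero (fun i hi => by
      rw [(sum_eq_zero_iff_of_nonneg (fun i _ => hy i)).1 hY1.symm i hi]; ring)
  rcases hZ0.eq_or_lt with hZ1 | hZ1
  · exact zero (fun i hi => by
      rw [(sum_eq_zero_iff_of_nonneg (fun i _ => hz i)).1 hZ1.symm i hi]; ring)
  obtain ⟨T, hT0, hT⟩ : ∃ T : ℝ, 0 ≤ T ∧ T ^ 3 = X * Y * Z :=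
    ⟨(X * Y * Z) ^ ((3 : ℕ) : ℝ)⁻¹, by positivity,
      Real.rpow_inv_natCast_pow (by positivity) (by norm_num)⟩
  have key : ∀ i, s i ≤ T * ((x i / X + y i / Y + z i / Z) / 3) := by
    intro i
    have ha : 0 ≤ x i / X := div_nonneg (hx i) hX0
    have hb : 0 ≤ y i / Y := div_nonneg (hy i) hY0
    have hc : 0 ≤ z i / Z := div_nonneg (hz i) hZ0
    have am : (x i / X) * (y i / Y) * (z i / Z) ≤ ((x i / X + y i / Y + z i / Z) / 3) ^ 3 := by
      generalize x i / X = a at *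
      generalize y i / Y = b at *
      generalize z i / Z = c at *
      nlinarith [mul_nonneg ha (sq_nonneg (b - c)), mul_nonneg hb (sq_nonneg (a - c)),
        mul_nonneg hc (sq_nonneg (a - b)), mul_nonneg ha (sq_nonneg (a - b)),
        mul_nonneg ha (sq_nonneg (a - c)), mul_nonneg hb (sq_nonneg (b - a)),
        mul_nonneg hb (sq_nonneg (b - c)), mul_nonneg hc (sq_nonneg (c - a)),
        mul_nonneg hc (sq_nonneg (c - b)),
        mul_nonneg (add_nonneg (add_nonneg ha hb) hc) (sq_nonneg (a - b)),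
        mul_nonneg (add_nonneg (add_nonneg ha hb) hc) (sq_nonneg (a - c)),
        mul_nonneg (add_nonneg (add_nonneg ha hb) hc) (sq_nonneg (b - c))]
    refine le_of_pow_le_pow_left₀ (n := 3) (by norm_num) (by positivity) ?_
    rw [mul_pow, hT]
    calc s i ^ 3 ≤ x i * y i * z i := h i
      _ = X * Y * Z * ((x i / X) * (y i / Y) * (z i / Z)) := by field_simp
      _ ≤ _ := by gcongr
  have : ∑ i ∈ I, s i ≤ T := by
    calc ∑ i ∈ I, s i ≤ ∑ i ∈ I, T * ((x i / X + y i / Y + z i / Z) / 3) := sum_le_sum (fun i _ => key i)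
      _ = T * ((X / X + Y / Y + Z / Z) / 3) := by
        rw [← mul_sum, ← sum_div, sum_add_distrib, sum_add_distrib, ← sum_div, ← sum_div, ← sum_div]
      _ = T := by field_simp; ring
  rw [← hT]
  exact pow_le_pow_left₀ (sum_nonneg (fun i _ => hs i)) this 3

section
variable {V : Type*} [Fintype V] (g : V → V → V → ℝ)

noncomputable def W (b c : V) : ℝ := ∑ a, g a b c
noncomputable def U2 (v b : V) : ℝ := ∑ u, W g v u * W g u b
noncomputable def U3 (v c : V) : ℝ := ∑ u, ∑ w, W g v u * W g u w * W g w c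
noncomputable def C7 : ℝ :=
  ∑ v, ∑ a, (∑ b, U2 g v b * W g b a) * (∑ c, U3 g v c * W g c a)
noncomputable def FF : ℝ := ∑ v, ∑ b, ∑ c, U2 g v b * U2 g v b * U3 g v c * U3 g v c * W g b c

theorem main (h0 : ∀ a b c, 0 ≤ g a b c) (h1 : ∀ a b c, g a b c = g b a c)
    (h2 : ∀ a b c, g a b c = g a c b) :
    (∑ b, ∑ c, W g b c) ^ 18 ≤ C7 g * FF g * (Fintype.card V : ℝ) ^ 20 := by
  set n : ℝ := (Fintype.card V : ℝ) with hn
  have hW : ∀ b c, 0 ≤ W g b c := fun b c => sum_nonneg (fun a _ => h0 a b c)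
  have hWs : ∀ b c, W g b c = W g c b := fun b c => sum_congr rfl (fun a _ => h2 a b c)
  have hU2 : ∀ b c, 0 ≤ U2 g b c := fun b c => sum_nonneg (fun a _ => mul_nonneg (hW _ _) (hW _ _))
  have hU3 : ∀ b c, 0 ≤ U3 g b c := fun b c => sum_nonneg (fun a _ => sum_nonneg (fun a _ =>
    mul_nonneg (mul_nonneg (hW _ _) (hW _ _)) (hW _ _)))
  -- inner step
  have inner : ∀ v a, (∑ p : V × V, U2 g v p.1 * U3 g v p.2 * g a p.1 p.2) ^ 3 ≤
      ((∑ b, U2 g v b * W g b a) * (∑ c, U3 g v c * W g c a)) *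
        (∑ p : V × V, U2 g v p.1 * U2 g v p.1 * U3 g v p.2 * U3 g v p.2 * g a p.1 p.2) * 1 := by
    intro v a
    have h := holder3 univ (fun p : V × V => U2 g v p.1 * U3 g v p.2 * g a p.1 p.2)
      (fun p => U2 g v p.1 * g a p.1 p.2) (fun p => U3 g v p.2 * g a p.1 p.2)
      (fun p => U2 g v p.1 * U2 g v p.1 * U3 g v p.2 * U3 g v p.2 * g a p.1 p.2)
      (fun p => mul_nonneg (mul_nonneg (hU2 _ _) (hU3 _ _)) (h0 _ _ _))
      (fun p => mul_nonneg (hU2 _ _) (h0 _ _ _)) (fun p => mul_nonneg (hU3 _ _) (h0 _ _ _))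
      (fun p => mul_nonneg (mul_nonneg (mul_nonneg (mul_nonneg (hU2 _ _) (hU2 _ _)) (hU3 _ _))
        (hU3 _ _)) (h0 _ _ _)) (fun p => le_of_eq (by ring))
    have e1 : ∑ p : V × V, U2 g v p.1 * g a p.1 p.2 = ∑ b, U2 g v b * W g b a := by
      rw [Fintype.sum_prod_type]
      refine sum_congr rfl (fun b _ => ?_)
      rw [W, mul_sum]
      refine sum_congr rfl (fun c _ => ?_)
      rw [h1 a b c, h2 b a c, h1 b c a]
    have e2 : ∑ p : V × V, U3 g v p.2 * g a p.1 p.2 = ∑ c, U3 g v c * W g c a := by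
      rw [Fintype.sum_prod_type_right]
      refine sum_congr rfl (fun c _ => ?_)
      rw [W, mul_sum]
      refine sum_congr rfl (fun b _ => ?_)
      rw [h1 a b c, h2 b a c]
    rw [e1, e2] at h
    rw [mul_one]; exact h
  have outer := holder3 (univ : Finset (V × V))
    (fun q => ∑ p : V × V, U2 g q.1 p.1 * U3 g q.1 p.2 * g q.2 p.1 p.2)
    (fun q => (∑ b, U2 g q.1 b * W g b q.2) * (∑ c, U3 g q.1 c * W g c q.2))
    (fun q => ∑ p : V × V, U2 g q.1 p.1 * U2 g q.1 p.1 * U3 g q.1 p.2 * U3 g q.1 p.2 * g q.2 p.1 p.2)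
    (fun _ => 1)
    (fun q => sum_nonneg (fun p _ => mul_nonneg (mul_nonneg (hU2 _ _) (hU3 _ _)) (h0 _ _ _)))
    (fun q => mul_nonneg (sum_nonneg (fun _ _ => mul_nonneg (hU2 _ _) (hW _ _)))
      (sum_nonneg (fun _ _ => mul_nonneg (hU3 _ _) (hW _ _))))
    (fun q => sum_nonneg (fun p _ => mul_nonneg (mul_nonneg (mul_nonneg (mul_nonneg (hU2 _ _)
      (hU2 _ _)) (hU3 _ _)) (hU3 _ _)) (h0 _ _ _)))
    (fun _ => zero_le_one) (fun q => inner q.1 q.2)
  have e3 : ∑ q : V × V, (∑ b, U2 g q.1 b * W g b q.2) * (∑ c, U3 g q.1 c * W g c q.2) = C7 g := by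
    rw [Fintype.sum_prod_type]; rfl
  have e4 : ∑ q : V × V, ∑ p : V × V,
      U2 g q.1 p.1 * U2 g q.1 p.1 * U3 g q.1 p.2 * U3 g q.1 p.2 * g q.2 p.1 p.2 = FF g := by
    rw [Fintype.sum_prod_type]
    refine sum_congr rfl (fun v _ => ?_)
    rw [sum_comm, Fintype.sum_prod_type]
    refine sum_congr rfl (fun b _ => sum_congr rfl (fun c _ => ?_))
    rw [W, mul_sum]
  have e5 : ∑ q : V × V, ∑ p : V × V, U2 g q.1 p.1 * U3 g q.1 p.2 * g q.2 p.1 p.2
      = ∑ q : V × V, U3 g q.1 q.2 ^ 2 := by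
    rw [Fintype.sum_prod_type, Fintype.sum_prod_type]
    refine sum_congr rfl (fun v _ => ?_)
    rw [sum_comm, Fintype.sum_prod_type_right]
    refine sum_congr rfl (fun c _ => ?_)
    have : U3 g v c = ∑ b, U2 g v b * W g b c := by
      rw [U3, sum_comm]
      refine sum_congr rfl (fun b _ => ?_)
      rw [U2, sum_mul]
    show _ = U3 g v c ^ 2
    rw [sq]
    nth_rewrite 2 [this]
    rw [mul_sum]
    refine sum_congr rfl (fun b _ => ?_)
    dsimp only
    rw [W, ← mul_sum]; ring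
  have e6 : ∑ _q : V × V, (1 : ℝ) = n ^ 2 := by simp [hn, sq]
  rw [e3, e4, e5, e6] at outer
  have cs : (∑ q : V × V, U3 g q.1 q.2) ^ 2 ≤ n ^ 2 * ∑ q : V × V, U3 g q.1 q.2 ^ 2 := by
    have := sq_sum_le_card_mul_sum_sq (s := (univ : Finset (V × V))) (f := fun q => U3 g q.1 q.2)
    simpa [hn, sq] using this
  set d : V → ℝ := fun x => ∑ y, W g x y with hd
  have hd0 : ∀ x, 0 ≤ d x := fun x => sum_nonneg (fun _ _ => hW _ _)
  have p3 := holder3 (univ : Finset (V × V)) (fun q => W g q.1 q.2)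
    (fun q => d q.1 * W g q.1 q.2 * d q.2) (fun q => W g q.1 q.2 / d q.1) (fun q => W g q.1 q.2 / d q.2)
    (fun _ => hW _ _) (fun _ => mul_nonneg (mul_nonneg (hd0 _) (hW _ _)) (hd0 _))
    (fun _ => div_nonneg (hW _ _) (hd0 _)) (fun _ => div_nonneg (hW _ _) (hd0 _)) (by
      intro q
      rcases (hW q.1 q.2).eq_or_lt with h | h
      · rw [← h]; simp
      · have a1 : 0 < d q.1 := lt_of_lt_of_le h (single_le_sum (f := fun y => W g q.1 y)
          (fun _ _ => hW _ _) (mem_univ q.2))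
        have a2 : 0 < d q.2 := lt_of_lt_of_le (by rw [hWs]; exact h) (single_le_sum
          (f := fun y => W g q.2 y) (fun _ _ => hW _ _) (mem_univ q.1))
        apply le_of_eq; field_simp)
  have f1 : ∑ q : V × V, W g q.1 q.2 / d q.1 ≤ n := by
    rw [Fintype.sum_prod_type]
    calc _ ≤ ∑ _x : V, (1 : ℝ) := sum_le_sum (fun x _ => by
          dsimp only
          rw [← sum_div]; exact div_self_le_one _)
      _ = n := by simp [hn]
  have f2 : ∑ q : V × V, W g q.1 q.2 / d q.2 ≤ n := by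
    rw [Fintype.sum_prod_type_right]
    calc _ ≤ ∑ _x : V, (1 : ℝ) := sum_le_sum (fun x _ => by
          dsimp only
          rw [← sum_div]
          simp only [hWs _ x]
          exact div_self_le_one _)
      _ = n := by simp [hn]
  have f3 : ∑ q : V × V, d q.1 * W g q.1 q.2 * d q.2 = ∑ q : V × V, U3 g q.1 q.2 := by
    rw [Fintype.sum_prod_type, Fintype.sum_prod_type]
    simp only [U3, hd, sum_mul, mul_sum]
    calc ∑ u, ∑ w, ∑ c, ∑ v, W g u v * W g u w * W g w c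
        = ∑ u, ∑ v, ∑ c, ∑ w, W g u v * W g u w * W g w c := by
          refine sum_congr rfl (fun u _ => ?_)
          rw [sum_comm]
          conv_rhs => rw [sum_comm]
          refine sum_congr rfl (fun c _ => sum_comm)
      _ = ∑ v, ∑ u, ∑ c, ∑ w, W g u v * W g u w * W g w c := sum_comm
      _ = _ := by
          refine sum_congr rfl (fun v _ => ?_)
          rw [sum_comm]
          refine sum_congr rfl (fun c _ => sum_congr rfl (fun u _ => sum_congr rfl (fun w _ => ?_)))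
          rw [hWs u v]
  rw [f3] at p3
  have hn0 : 0 ≤ n := by positivity
  set P := ∑ q : V × V, U3 g q.1 q.2 with hP
  have hP0 : 0 ≤ P := sum_nonneg (fun _ _ => hU3 _ _)
  have g1 : (∑ q : V × V, W g q.1 q.2) ^ 3 ≤ P * n * n := by
    refine p3.trans ?_
    have : 0 ≤ ∑ q : V × V, W g q.1 q.2 / d q.2 := sum_nonneg (fun _ _ => div_nonneg (hW _ _) (hd0 _))
    gcongr
  rw [← Fintype.sum_prod_type']
  set E := ∑ q : V × V, W g q.1 q.2 with hE
  have hE0 : 0 ≤ E := sum_nonneg (fun _ _ => hW _ _)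
  set Q := ∑ q : V × V, U3 g q.1 q.2 ^ 2 with hQ
  calc E ^ 18 = (E ^ 3) ^ 6 := by ring
    _ ≤ (P * n * n) ^ 6 := by gcongr
    _ = (P ^ 2) ^ 3 * n ^ 12 := by ring
    _ ≤ (n ^ 2 * Q) ^ 3 * n ^ 12 := by gcongr
    _ = Q ^ 3 * n ^ 18 := by ring
    _ ≤ (C7 g * FF g * n ^ 2) * n ^ 18 := by gcongr
    _ = _ := by ring
end

end Pool.Agent.H15.Hold3
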