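import Mathlib

set_option autoImplicit false
open Set Cardinal Order
universe u

namespace Pool.Agent.H15.Inj

/-- coding of the values of a colouring -/
theorem code {lam : Cardinal.{u}} (hl : lam.IsStrongLimit) (h0 : ℵ₀ ≤ lam)
    {L W : Type u} [LinearOrder L] [LinearOrder W] (hL : #L = lam) (hLi : ∀ l : L, #(Iic l) < lam)
    (hW : ∀ a : W, #(Iio a) ≤ lam) (d : W → W → L) :
    ∃ (K : Type u) (e : W → W → L) (c : W → W → L → L → K) (ev : K → W → W → L),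
      #K ≤ lam ∧ (∀ a, InjOn (e a) (Iio a)) ∧
      ∀ a η β k i, η < a → e a η ≤ k → d η β ≤ i → ev (c a β k i) a η = d η β := by
  classical
  have hne : Nonempty L := by
    rw [← Cardinal.mk_ne_zero_iff, hL]; exact (lt_of_lt_of_le aleph0_pos h0).ne'
  have he : ∀ a : W, ∃ e : W → L, InjOn e (Iio a) := by
    intro a
    obtain ⟨f⟩ : Nonempty (Iio a ↪ L) := by rw [← Cardinal.le_def, hL]; exact hW a
    refine ⟨fun x => if h : x < a then f ⟨x, h⟩ else Classical.arbitrary L, ?_⟩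
    intro x hx y hy hxy
    have hx' : x < a := hx
    have hy' : y < a := hy
    simp only [hx', hy', dif_pos] at hxy
    exact congrArg Subtype.val (f.injective hxy)
  choose e he using he
  refine ⟨Σ p : L × L, (Iic p.1 → Iic p.2), e,
    fun a β k i => ⟨(k, i), fun ξ => if h : ∃ η, η < a ∧ e a η = ξ.1 ∧ d η β ≤ i then
      ⟨d h.choose β, h.choose_spec.2.2⟩ else ⟨i, le_refl i⟩⟩,
    fun g a η => if h : e a η ≤ g.1.1 then (g.2 ⟨e a η, h⟩).1 else g.1.2, ?_, he, ?_⟩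
  · rw [Cardinal.mk_sigma]
    refine (Cardinal.sum_le_sum _ (fun _ => lam) ?_).trans ?_
    · intro p
      rw [← Cardinal.power_def]
      have h1 := hLi p.1
      have h2 := hLi p.2
      calc #(Iic p.2) ^ #(Iic p.1) ≤ (2 ^ #(Iic p.2)) ^ #(Iic p.1) :=
            Cardinal.power_le_power_right (Cardinal.cantor _).le
        _ = 2 ^ (#(Iic p.2) * #(Iic p.1)) := by rw [Cardinal.power_mul]
        _ ≤ lam := (hl.two_power_lt (Cardinal.mul_lt_of_lt h0 h2 h1)).le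
    · rw [Cardinal.sum_const', Cardinal.mk_prod, hL]
      simp [Cardinal.mul_eq_self h0]
  · intro a η β k i hη hk hi
    have hex : ∃ η', η' < a ∧ e a η' = e a η ∧ d η' β ≤ i := ⟨η, hη, rfl, hi⟩
    simp only [hk, dif_pos, hex]
    have : hex.choose = η := he a hex.choose_spec.1 hη hex.choose_spec.2.1
    rw [this]

theorem exists_lub {W : Type u} [LinearOrder W] [WellFoundedLT W] {x : Set W} (h : BddAbove x) :
    ∃ a, IsLUB x a := by
  refine ⟨wellFounded_lt.min (upperBounds x) h, wellFounded_lt.min_mem _ h, ?_⟩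
  intro b hb
  exact not_lt.1 (wellFounded_lt.not_lt_min _ hb)

theorem bdd {W : Type u} [LinearOrder W] {x : Set W} (h : #x < Order.cof W) :
    ∃ γ, ∀ b ∈ x, b < γ := by
  by_contra hc
  push Not at hc
  have : IsCofinal x := fun γ => by
    obtain ⟨b, hb, h⟩ := hc γ
    exact ⟨b, hb, h⟩
  exact absurd (Order.cof_le this) (not_le.2 h)

/-- sup of a set closed under a next-element-of-C function -/
theorem sup_club {W : Type u} [LinearOrder W] {C x : Set W} {a : W} (hC : IsClub C)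
    (hne : x.Nonempty) (hx : ∀ β ∈ x, ∃ γ ∈ x, β < γ ∧ γ ∈ C) (ha : IsLUB x a) :
    x ⊆ Iio a ∧ a ∈ C := by
  refine ⟨fun β hβ => ?_, ?_⟩
  · obtain ⟨γ, hγ, h1, -⟩ := hx β hβ
    exact lt_of_lt_of_le h1 (ha.1 hγ)
  · refine hC.isLUB_mem (t := x ∩ C) inter_subset_right ?_ ⟨fun b hb => ha.1 hb.1, ?_⟩
    · obtain ⟨β, hβ⟩ := hne
      obtain ⟨γ, hγ, -, h2⟩ := hx β hβ
      exact ⟨γ, hγ, h2⟩
    · intro b hb
      refine ha.2 fun β hβ => ?_
      obtain ⟨γ, hγ, h1, h2⟩ := hx β hβ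
      exact h1.le.trans (hb ⟨hγ, h2⟩)

/-- a small cofinal family inside x -/
theorem cof_fam {W : Type u} [LinearOrder W] {x : Set W} {a : W} (hne : x.Nonempty)
    (hx : x ⊆ Iio a) (ha : IsLUB x a) {I : Type u} [Nonempty I] (hI : Order.cof (Iio a) ≤ #I) :
    ∃ h : I → W, (∀ i, h i ∈ x) ∧ ∀ β ∈ x, ∃ i, β < h i := by
  obtain ⟨s, hs, hc⟩ := Order.exists_cof_eq (Iio a)
  obtain ⟨β0, hβ0⟩ := hne
  obtain ⟨y0, hy0, -⟩ := hs ⟨β0, hx hβ0⟩
  haveI : Nonempty s := ⟨⟨y0, hy0⟩⟩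
  obtain ⟨f⟩ : Nonempty (s ↪ I) := by rw [← Cardinal.le_def, hc]; exact hI
  have hg := Function.invFun_surjective f.injective
  have : ∀ i : I, ∃ b ∈ x, ((Function.invFun f i : s) : Iio a).1 < b := by
    intro i
    by_contra hcon
    push Not at hcon
    exact absurd (ha.2 hcon) (not_le.2 (Function.invFun f i : s).1.2)
  choose h h1 h2 using this
  refine ⟨h, h1, fun β hβ => ?_⟩
  obtain ⟨y, hy, hle⟩ := hs ⟨β, hx hβ⟩
  obtain ⟨i, hi⟩ := hg ⟨y, hy⟩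
  refine ⟨i, lt_of_le_of_lt ?_ (h2 i)⟩
  rw [hi]; exact hle

section U
variable {W : Type u} {κ : Cardinal.{u}} {U : Ultrafilter (Set W)}

theorem u_inter (hc : ∀ S : Set (Set (Set W)), #S < κ → (∀ s ∈ S, s ∈ U) → ⋂₀ S ∈ U)
    {I : Type u} (hI : #I < κ) (Y : I → Set (Set W)) (hY : ∀ i, Y i ∈ U) :
    {x | ∀ i, x ∈ Y i} ∈ U := by
  have := hc (range Y) (lt_of_le_of_lt Cardinal.mk_range_le hI) (by rintro _ ⟨i, rfl⟩; exact hY i)
  refine Filter.mem_of_superset this ?_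
  intro x hx i
  exact hx _ ⟨i, rfl⟩

theorem u_small (hc : ∀ S : Set (Set (Set W)), #S < κ → (∀ s ∈ S, s ∈ U) → ⋂₀ S ∈ U)
    {I : Type u} (hI : #I < κ) (f : Set W → I) : ∃ i, {x | f x = i} ∈ U := by
  by_contra h
  push Not at h
  have := u_inter hc hI (fun i => {x | f x = i}ᶜ) (fun i => Ultrafilter.compl_mem_iff_notMem.2 (h i))
  obtain ⟨x, hx⟩ := U.nonempty_of_mem this
  exact hx (f x) rfl

theorem u_const [Nonempty W]
    (hn : ∀ f : Set W → W, {x | f x ∈ x} ∈ U → ∃ t, {x | f x = t} ∈ U) (f : Set W → W) :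
    ∃ t, {x | f x ∈ x → f x = t} ∈ U := by
  by_cases h : {x | f x ∈ x} ∈ U
  · obtain ⟨t, ht⟩ := hn f h
    exact ⟨t, Filter.mem_of_superset ht fun x hx _ => hx⟩
  · exact ⟨Classical.arbitrary W, Filter.mem_of_superset (Ultrafilter.compl_mem_iff_notMem.2 h)
      fun x hx h' => absurd h' hx⟩

theorem u_diag [Nonempty W]
    (hn : ∀ f : Set W → W, {x | f x ∈ x} ∈ U → ∃ t, {x | f x = t} ∈ U)
    (Y : W → Set (Set W)) (hY : ∀ t, Y t ∈ U) : {x | ∀ t ∈ x, x ∈ Y t} ∈ U := by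
  by_contra h
  have h' := Ultrafilter.compl_mem_iff_notMem.2 h
  have : ∀ x : Set W, ∃ t, x ∈ {x | ∀ t ∈ x, x ∈ Y t}ᶜ → t ∈ x ∧ x ∉ Y t := by
    intro x
    by_cases hx : x ∈ {x | ∀ t ∈ x, x ∈ Y t}ᶜ
    · have hx' : ¬ ∀ t ∈ x, x ∈ Y t := hx
      push Not at hx'
      obtain ⟨t, h1, h2⟩ := hx'
      exact ⟨t, fun _ => ⟨h1, h2⟩⟩
    · exact ⟨Classical.arbitrary W, fun h => absurd h hx⟩
  choose f hf using this
  obtain ⟨t, ht⟩ := hn f (Filter.mem_of_superset h' fun x hx => (hf x hx).1)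
  obtain ⟨x, ⟨h1, h2⟩, h3⟩ := U.nonempty_of_mem (Filter.inter_mem (Filter.inter_mem h' ht) (hY t))
  have h2' : f x = t := h2
  exact (hf x h1).2 (h2' ▸ h3)

end U

/-- main theorem from a normal fine measure -/
theorem sc_main {lam κ : Cardinal.{u}} (hl : lam.IsStrongLimit) (h0 : ℵ₀ ≤ lam)
    {L W : Type u} [LinearOrder L] [LinearOrder W] [WellFoundedLT W] [NoMaxOrder W]
    (hL : #L = lam) (hLi : ∀ l : L, #(Iic l) < lam)
    (hW : ∀ a : W, #(Iio a) ≤ lam) (hcW : lam < Order.cof W) (hcL : Order.cof L < κ)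
    (hκ : κ ≤ lam) (U : Ultrafilter (Set W)) (hs : {x : Set W | #x < κ} ∈ U)
    (hc : ∀ S : Set (Set (Set W)), #S < κ → (∀ s ∈ S, s ∈ U) → ⋂₀ S ∈ U)
    (hf : ∀ t, {x : Set W | t ∈ x} ∈ U)
    (hn : ∀ f : Set W → W, {x | f x ∈ x} ∈ U → ∃ t, {x | f x = t} ∈ U)
    (d : W → W → L) {C : Set W} (hC : IsClub C) :
    ∃ a ∈ C, Order.cof L < Order.cof (Iio a) ∧ ∃ B, (B ⊆ Iio a ∧ IsLUB B a) ∧
      ∀ η < a, ∀ B' ⊆ B, (B' ⊆ Iio a ∧ IsLUB B' a) → ¬ InjOn (d η) B' := by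
  classical
  haveI hWne : Nonempty W := by
    rw [← Order.cof_ne_zero_iff]; exact (lt_of_le_of_lt (zero_le) hcW).ne'
  haveI hLne : Nonempty L := by
    rw [← Cardinal.mk_ne_zero_iff, hL]; exact (lt_of_lt_of_le aleph0_pos h0).ne'
  obtain ⟨K, e, c, ev, hK, -, hev⟩ := code hl h0 hL hLi hW d
  obtain ⟨I, hI, hIc⟩ := Order.exists_cof_eq L
  haveI : Nonempty I := hI.nonempty.to_subtype
  have hIκ : #I < κ := hIc ▸ hcL
  have hnx : ∀ β : W, ∃ γ, β < γ ∧ γ ∈ C := by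
    intro β
    obtain ⟨b, hb⟩ := exists_gt β
    obtain ⟨γ, h1, h2⟩ := hC.isCofinal b
    exact ⟨γ, lt_of_lt_of_le hb h2, h1⟩
  choose nx hnx1 hnx2 using hnx
  set G : Set (Set W) := {x | #x < κ ∧ x.Nonempty ∧ ∀ β ∈ x, nx β ∈ x} with hG
  have hGU : G ∈ U := by
    refine Filter.mem_of_superset (Filter.inter_mem hs (Filter.inter_mem (hf (Classical.arbitrary W))
      (u_diag hn (fun β => {x | nx β ∈ x}) fun β => hf _))) ?_
    rintro x ⟨h1, h2, h3⟩
    exact ⟨h1, ⟨_, h2⟩, h3⟩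
  have hA : ∀ x : Set W, ∃ a, x ∈ G → IsLUB x a ∧ x ⊆ Iio a ∧ a ∈ C := by
    intro x
    by_cases hx : x ∈ G
    · obtain ⟨γ, hγ⟩ := bdd (lt_of_lt_of_le hx.1 (hκ.trans hcW.le))
      obtain ⟨a, ha⟩ := exists_lub (x := x) ⟨γ, fun b hb => (hγ b hb).le⟩
      exact ⟨a, fun _ => ⟨ha, sup_club hC hx.2.1
        (fun β hβ => ⟨nx β, hx.2.2 β hβ, hnx1 β, hnx2 β⟩) ha⟩⟩
    · exact ⟨Classical.arbitrary W, fun h => absurd h hx⟩
  choose a ha using hA
  by_contra hcon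
  push Not at hcon
  by_cases hcase : {x | Order.cof (Iio (a x)) ≤ Order.cof L} ∈ U
  · have : ∀ x : Set W, ∃ h : I → W, x ∈ G → Order.cof (Iio (a x)) ≤ Order.cof L →
        (∀ i, h i ∈ x) ∧ ∀ β ∈ x, ∃ i, β < h i := by
      intro x
      by_cases hx : x ∈ G ∧ Order.cof (Iio (a x)) ≤ Order.cof L
      · obtain ⟨h, hh⟩ := cof_fam hx.1.2.1 (ha x hx.1).2.1 (ha x hx.1).1 (I := I) (hIc ▸ hx.2)
        exact ⟨h, fun _ _ => hh⟩
      · exact ⟨fun _ => Classical.arbitrary W, fun h1 h2 => absurd ⟨h1, h2⟩ hx⟩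
    choose h hh using this
    have : ∀ i, ∃ t, {x | h x i ∈ x → h x i = t} ∈ U := fun i => u_const hn fun x => h x i
    choose H hH using this
    obtain ⟨γ, hγ⟩ := bdd (x := range H) (lt_of_le_of_lt Cardinal.mk_range_le
      (lt_of_lt_of_le hIκ (hκ.trans hcW.le)))
    obtain ⟨x, ⟨⟨h1, h2⟩, h3⟩, h4⟩ := U.nonempty_of_mem (Filter.inter_mem (Filter.inter_mem
      (Filter.inter_mem hGU hcase) (u_inter hc hIκ _ hH)) (hf γ))
    obtain ⟨i, hi⟩ := (hh x h1 h2).2 γ h4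
    have := h3 i ((hh x h1 h2).1 i)
    exact absurd (hγ _ ⟨i, rfl⟩) (not_lt.2 (this ▸ hi.le))
  · have hcase' := Ultrafilter.compl_mem_iff_notMem.2 hcase
    set G' := G ∩ {x | Order.cof (Iio (a x)) ≤ Order.cof L}ᶜ with hG'
    have hG'U : G' ∈ U := Filter.inter_mem hGU hcase'
    have : ∀ x : Set W, ∃ (η η0 : W) (B' : Set W), x ∈ G' →
        η0 ∈ x ∧ η < η0 ∧ B' ⊆ x ∧ IsLUB B' (a x) ∧ InjOn (d η) B' := by
      intro x
      by_cases hx : x ∈ G'
      · obtain ⟨h1, h2, h3⟩ := ha x hx.1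
        obtain ⟨η, hη, B', hB, hB', hinj⟩ := hcon (a x) h3 (not_le.1 hx.2) x ⟨h2, h1⟩
        have : ∃ η0 ∈ x, η < η0 := by
          by_contra hh
          push Not at hh
          exact absurd (h1.2 hh) (not_le.2 hη)
        obtain ⟨η0, h4, h5⟩ := this
        exact ⟨η, η0, B', fun _ => ⟨h4, h5, hB, hB'.2, hinj⟩⟩
      · exact ⟨Classical.arbitrary W, Classical.arbitrary W, ∅, fun h => absurd h hx⟩
    choose η η0 B' hB using this
    obtain ⟨t0, ht0⟩ := u_const hn η0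
    have hup : ∀ l : L, ∃ i : I, l ≤ i.1 := fun l => by
      obtain ⟨i, hi, h⟩ := hI l
      exact ⟨⟨i, hi⟩, h⟩
    choose up hup using hup
    obtain ⟨k, hk⟩ := u_small hc hIκ fun x => up (e t0 (η x))
    have : ∀ β, ∃ i, {x | up (d (η x) β) = i} ∈ U := fun β => u_small hc hIκ _
    choose ii hii using this
    set cc : W → K := fun β => c t0 β k.1 (ii β).1 with hcc
    set h : Set W → K → W := fun x ξ =>
      if hh : ∃ β ∈ B' x, cc β = ξ then hh.choose else Classical.arbitrary W with hh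
    have : ∀ ξ, ∃ t, {x | h x ξ ∈ x → h x ξ = t} ∈ U := fun ξ => u_const hn fun x => h x ξ
    choose H hH using this
    obtain ⟨γ, hγ⟩ := bdd (x := range H) (lt_of_le_of_lt Cardinal.mk_range_le
      (lt_of_le_of_lt hK hcW))
    have hd := u_diag hn (fun β => {x | up (d (η x) β) = ii β} ∩
      {x | h x (cc β) ∈ x → h x (cc β) = H (cc β)}) fun β => Filter.inter_mem (hii β) (hH _)
    obtain ⟨x, ⟨⟨⟨h1, h2⟩, h3⟩, h4⟩, h5⟩ := U.nonempty_of_mem (Filter.inter_mem (Filter.inter_mem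
      (Filter.inter_mem (Filter.inter_mem hG'U ht0) hk) hd) (hf γ))
    obtain ⟨b1, b2, b3, b4, b5⟩ := hB x h1
    have e0 : η0 x = t0 := h2 b1
    have hk' : e t0 (η x) ≤ k.1 := by
      have h3' : up (e t0 (η x)) = k := h3
      rw [← h3']; exact hup _
    have hval : ∀ β ∈ x, ev (cc β) t0 (η x) = d (η x) β := by
      intro β hβ
      refine hev t0 (η x) β k.1 (ii β).1 (e0 ▸ b2) hk' ?_
      have h6 : up (d (η x) β) = ii β := (h4 β hβ).1
      rw [← h6]; exact hup _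
    have hub : γ ∈ upperBounds (B' x) := by
      intro β hβ
      have hex : ∃ β' ∈ B' x, cc β' = cc β := ⟨β, hβ, rfl⟩
      have h7 : h x (cc β) = hex.choose := by simp only [hh, hex, dif_pos]
      have h8 : hex.choose = β := by
        refine b5 hex.choose_spec.1 hβ ?_
        rw [← hval _ (b3 hex.choose_spec.1), ← hval _ (b3 hβ), hex.choose_spec.2]
      have h9 := (h4 β (b3 hβ)).2 (by rw [h7, h8]; exact b3 hβ)
      rw [h7, h8] at h9
      rw [h9]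
      exact (hγ _ ⟨_, rfl⟩).le
    exact absurd (b4.2 hub) (not_le.2 ((ha x h1.1).2.1 h5))

end Pool.Agent.H15.Inj
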