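import Pool.Agent.H15.Inj1

set_option autoImplicit false
open Set Cardinal Order
universe u

namespace Pool.Agent.H15.Inj

/-- auxiliary language: countably many function symbols of each arity, one relation symbol -/
def LL : FirstOrder.Language.{0, 0} where
  Functions _ := ℕ
  Relations _ := Unit

instance : Countable LL.Symbols := by
  unfold FirstOrder.Language.Symbols LL
  infer_instance

theorem cc_closed {W : Type u} [Nonempty W] (P : Set W) (G : ℕ → W → W → W)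
    (hcc : ∀ [LL.Structure W] (r : LL.Relations 1), {m : W | FirstOrder.Language.Structure.RelMap r ![m]} = P →
      ∃ N : LL.ElementarySubstructure W, #N = ℵ₁ ∧
        #{m : W | m ∈ N ∧ FirstOrder.Language.Structure.RelMap r ![m]} = ℵ₀) :
    ∃ x : Set W, #x = ℵ₁ ∧ (x ∩ P).Countable ∧ ∀ n, ∀ a ∈ x, ∀ b ∈ x, G n a b ∈ x := by
  classical
  letI : LL.Structure W :=
    { funMap := fun {n} (f : ℕ) v =>
        if h : 2 ≤ n then G f (v ⟨0, by omega⟩) (v ⟨1, by omega⟩) else Classical.arbitrary W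
      RelMap := fun {_} _ v => ∀ i, v i ∈ P }
  have hP : {m : W | FirstOrder.Language.Structure.RelMap (L := LL) (n := 1) () ![m]} = P := by
    ext m
    change (∀ i, (![m] : Fin 1 → W) i ∈ P) ↔ m ∈ P
    simp
  obtain ⟨N, h1, h2⟩ := hcc (() : LL.Relations 1) hP
  refine ⟨N, h1, ?_, fun n a ha b hb => ?_⟩
  · rw [← Cardinal.le_aleph0_iff_set_countable, ← h2, ← hP]
    exact le_of_eq rfl
  · have := N.toSubstructure.fun_mem (n := 2) (n : LL.Functions 2) ![a, b]
      (by intro i; fin_cases i <;> assumption)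
    exact this

theorem cc_main {lam : Cardinal.{u}} (hl : lam.IsStrongLimit) (h0 : ℵ₁ ≤ lam)
    {L W : Type u} [LinearOrder L] [LinearOrder W] [WellFoundedLT W] [NoMaxOrder W]
    (hL : #L = lam) (hLi : ∀ l : L, #(Iic l) < lam)
    (hW : ∀ a : W, #(Iio a) ≤ lam) (hcW : lam < Order.cof W) (hcL : Order.cof L = ℵ₀)
    (hcc : ∀ [LL.Structure W] (r : LL.Relations 1),
      #{m : W | FirstOrder.Language.Structure.RelMap r ![m]} = lam →
      ∃ N : LL.ElementarySubstructure W, #N = ℵ₁ ∧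
        #{m : W | m ∈ N ∧ FirstOrder.Language.Structure.RelMap r ![m]} = ℵ₀)
    (d : W → W → L) {C : Set W} (hC : IsClub C) :
    ∃ a ∈ C, Order.cof L < Order.cof (Iio a) ∧ ∃ B, (B ⊆ Iio a ∧ IsLUB B a) ∧
      ∀ η < a, ∀ B' ⊆ B, (B' ⊆ Iio a ∧ IsLUB B' a) → ¬ InjOn (d η) B' := by
  classical
  have h00 : ℵ₀ ≤ lam := (aleph0_lt_aleph_one.le).trans h0
  have hWne : Nonempty W := by
    rw [← Order.cof_ne_zero_iff]; exact (lt_of_le_of_lt (zero_le) hcW).ne'
  obtain ⟨K, e, c, ev, hK, he, hev⟩ := code hl h00 hL hLi hW d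
  obtain ⟨I, hI, hIc⟩ := Order.exists_cof_eq L
  have hLne : Nonempty L := by
    rw [← Cardinal.mk_ne_zero_iff, hL]; exact (lt_of_lt_of_le aleph0_pos h00).ne'
  have hIco : I.Countable := by rw [← Cardinal.le_aleph0_iff_set_countable, hIc, hcL]
  obtain ⟨s, hs⟩ := hIco.exists_eq_range hI.nonempty
  have hup : ∀ l : L, ∃ i : ℕ, l ≤ s i := fun l => by
    obtain ⟨i, hi, h⟩ := hI l
    rw [hs] at hi
    obtain ⟨n, rfl⟩ := hi
    exact ⟨n, h⟩
  have hnx : ∀ β : W, ∃ γ, β < γ ∧ γ ∈ C := by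
    intro β
    obtain ⟨b, hb⟩ := exists_gt β
    obtain ⟨γ, h1, h2⟩ := hC.isCofinal b
    exact ⟨γ, lt_of_lt_of_le hb h2, h1⟩
  choose nx hnx1 hnx2 using hnx
  obtain ⟨j⟩ : Nonempty (L ↪ W) := by
    rw [← Cardinal.le_def, hL]; exact hcW.le.trans (Order.cof_le_cardinalMk W)
  obtain ⟨q⟩ : Nonempty (K ↪ L) := by rw [← Cardinal.le_def, hL]; exact hK
  let G : ℕ → W → W → W := fun n a b => match n with
    | 0 => nx a
    | 1 => j (e a b)
    | (m + 2) => j (q (c a b (s m.unpair.1) (s m.unpair.2)))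
  obtain ⟨x, hx1, hx2, hx3⟩ := cc_closed (range j) G (fun r hr => hcc r (by
    rw [hr, Cardinal.mk_range_eq _ j.injective, hL]))
  have hxu : ¬ x.Countable := by
    rw [← Cardinal.le_aleph0_iff_set_countable, hx1]; exact not_le.2 aleph0_lt_aleph_one
  have hne : x.Nonempty := by
    rw [nonempty_iff_ne_empty]; rintro rfl; exact hxu countable_empty
  have hseg : ∀ β ∈ x, (x ∩ Iio β).Countable := by
    intro β hβ
    refine Set.MapsTo.countable_of_injOn (f := fun η => j (e β η)) (t := x ∩ range j) ?_ ?_ hx2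
    · intro η hη
      exact ⟨hx3 1 β hβ η hη.1, ⟨_, rfl⟩⟩
    · intro η hη η' hη' h
      exact he β hη.2 hη'.2 (j.injective h)
  have hcnt : ∀ B ⊆ x, B.Countable → ∃ γ ∈ x, γ ∈ upperBounds B := by
    intro B hB hBc
    by_contra hh
    push Not at hh
    refine hxu ((hBc.biUnion fun β hβ => hseg β (hB hβ)).mono ?_)
    intro γ hγ
    have := hh γ hγ
    rw [mem_upperBounds] at this
    push Not at this
    obtain ⟨β, h1, h2⟩ := this
    exact mem_biUnion h1 ⟨hγ, h2⟩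
  obtain ⟨γ, hγ⟩ := bdd (x := x) (by rw [hx1]; exact lt_of_le_of_lt h0 hcW)
  obtain ⟨a, ha⟩ := exists_lub (x := x) ⟨γ, fun b hb => (hγ b hb).le⟩
  obtain ⟨h1, h2⟩ := sup_club hC hne
    (fun β hβ => ⟨nx β, hx3 0 β hβ β hβ, hnx1 β, hnx2 β⟩) ha
  refine ⟨a, h2, ?_, x, ⟨h1, ha⟩, ?_⟩
  · by_contra hh
    obtain ⟨h, h3, h4⟩ := cof_fam hne h1 ha (I := ULift ℕ) (by
      rw [hcL] at hh; simpa using hh)
    obtain ⟨γ, h5, h6⟩ := hcnt (range h) (by rintro _ ⟨i, rfl⟩; exact h3 i) (countable_range _)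
    obtain ⟨i, hi⟩ := h4 γ h5
    exact absurd (h6 ⟨i, rfl⟩) (not_le.2 hi)
  · intro η hη B' hB hB' hinj
    have : ∃ η0 ∈ x, η < η0 := by
      by_contra hh
      push Not at hh
      exact absurd (ha.2 hh) (not_le.2 hη)
    obtain ⟨t, ht, hηt⟩ := this
    obtain ⟨k, hk⟩ := hup (e t η)
    have hKc : {g : K | j (q g) ∈ x}.Countable := by
      refine Set.MapsTo.countable_of_injOn (f := fun g => j (q g)) (t := x ∩ range j) ?_ ?_ hx2
      · intro g hg
        exact ⟨hg, ⟨_, rfl⟩⟩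
      · intro g _ g' _ h
        exact q.injective (j.injective h)
    have hBc : B'.Countable := by
      refine Set.MapsTo.countable_of_injOn ?_ hinj (hKc.image fun g => ev g t η)
      intro β hβ
      obtain ⟨i, hi⟩ := hup (d η β)
      refine ⟨c t β (s k) (s i), ?_, hev t η β _ _ hηt hk hi⟩
      have := hx3 (Nat.pair k i + 2) t ht β (hB hβ)
      simp only [G, Nat.unpair_pair] at this
      exact this
    obtain ⟨γ, h5, h6⟩ := hcnt B' hB hBc
    exact absurd (hB'.2.2 h6) (not_le.2 (h1 h5))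

theorem iic_lt {lam : Cardinal.{u}} (h0 : ℵ₀ ≤ lam) (l : lam.ord.ToType) : #(Iic l) < lam := by
  rw [← Set.Iio_insert]
  refine lt_of_le_of_lt Cardinal.mk_insert_le ?_
  exact Cardinal.add_lt_of_lt h0 (Cardinal.mk_Iio_toType_ord_lt l) (lt_of_lt_of_le one_lt_aleph0 h0)

theorem exists_lam (κ : Cardinal.{u}) :
    ∃ lam : Cardinal.{u}, lam.IsStrongLimit ∧ lam.ord.cof = ℵ₀ ∧ κ ≤ lam := by
  have hlim : IsSuccLimit (κ.ord + Ordinal.omega0) :=
    Ordinal.isSuccLimit_add _ Ordinal.isSuccLimit_omega0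
  refine ⟨beth (κ.ord + Ordinal.omega0), isStrongLimit_beth.2 hlim.isSuccPrelimit, ?_, ?_⟩
  · have := Ordinal.cof_map_of_isNormal (isNormal_ord.comp isNormal_beth) hlim
    rw [Ordinal.cof_add _ Ordinal.omega0_ne_zero, Ordinal.cof_omega0] at this
    exact this
  · exact (le_beth_ord κ).trans (beth_strictMono.monotone le_self_add)

end Pool.Agent.H15.Inj
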