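import Mathlib
import Pool.Agent.H15.Brouwer

set_option autoImplicit false

namespace Pool.Agent.H15.SphereSep
open Metric Set

theorem fixed_pi {n : ℕ} (T : (Fin n → ℝ) → (Fin n → ℝ)) (hT : Continuous T) (R : ℝ)
    (hR : ∀ x, ‖T x‖ ≤ R) : ∃ x, T x = x := by
  let L := EuclideanSpace.equiv (Fin n) ℝ
  obtain ⟨x, hx⟩ := Brouwer.fixed_of_bounded (fun x => L.symm (T (L x))) (by fun_prop)
    (‖(L.symm : (Fin n → ℝ) →L[ℝ] EuclideanSpace ℝ (Fin n))‖ * R) (fun x =>
      (L.symm : (Fin n → ℝ) →L[ℝ] EuclideanSpace ℝ (Fin n)).le_opNorm_of_le (hR _))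
  exact ⟨L x, by simpa using congrArg L hx⟩

/-- Euclidean space is not separated by a set whose image in another space has small dimension. -/
theorem sep_aux {W : Type} [NormedAddCommGroup W] [NormedSpace ℝ W] [FiniteDimensional ℝ W] (d : ℕ)
    (A B : Set W) (hA : IsClosed A) (hB : IsClosed B) (hAn : A.Nonempty) (hBn : B.Nonempty)
    (ρ : (Fin (d + 1) → ℝ) → W) (hρ : Continuous ρ) (hAB : ∀ x, ρ x ∈ A ∪ B) (h0 : ρ 0 ∉ B)
    (R : ℝ) (hR0 : 0 ≤ R) (hR : ∀ x, ρ x ∈ A → ‖x‖ < R)
    (g : W → Fin d → ℝ) (hg : Continuous g) (hgρ : ∀ x, ρ x ∈ A ∩ B → ∀ i, g (ρ x) i = x i.succ)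
    (hdim : dimH (A ∩ B) < d) : False := by
  let D : (Fin (d + 1) → ℝ) → ℝ := fun x => infDist (ρ x) B - infDist (ρ x) A
  have hD : Continuous D := ((continuous_infDist_pt B).comp hρ).sub ((continuous_infDist_pt A).comp hρ)
  have Dpos : ∀ x, ρ x ∉ B → 0 < D x := by
    intro x hx
    have h1 : ρ x ∈ A := (hAB x).resolve_right hx
    simp only [D, infDist_zero_of_mem h1, sub_zero]
    exact (hB.notMem_iff_infDist_pos hBn).1 hx
  have Dneg : ∀ x, ρ x ∉ A → D x < 0 := by
    intro x hx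
    have h1 : ρ x ∈ B := (hAB x).resolve_left hx
    simp only [D, infDist_zero_of_mem h1, zero_sub, neg_lt_zero]
    exact (hA.notMem_iff_infDist_pos hAn).1 hx
  obtain ⟨δ, hδ, hδ'⟩ := Metric.eventually_nhds_iff.1 (hD.continuousAt.eventually (lt_mem_nhds (Dpos 0 h0)))
  set ε := δ / 2 with hε
  have hε0 : 0 < ε := by positivity
  obtain ⟨g', hg', h1, -⟩ := hg.exists_contDiff_approx 1 (continuous_const (y := ε / 2))
    (fun _ => by positivity)
  have hdense : Dense (g' '' (A ∩ B))ᶜ :=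
    ContDiffOn.dense_compl_image_of_dimH_lt_finrank (s := univ) (by exact_mod_cast hg'.contDiffOn)
      convex_univ (subset_univ _) (by simpa using hdim)
  obtain ⟨c, hc1, hc2⟩ := hdense.inter_open_nonempty (ball 0 (ε / 2)) isOpen_ball ⟨0, by simp [hε0]⟩
  have hg'c := hg'.continuous
  let T : (Fin (d + 1) → ℝ) → (Fin (d + 1) → ℝ) := fun x =>
    Fin.cons (max 0 (min R (x 0 + D x))) (fun i => -max (-ε) (min ε (g' (ρ x) i - c i - x i.succ)))
  obtain ⟨x, hx⟩ := fixed_pi T (by
      refine continuous_pi (fun i => ?_)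
      refine Fin.cases ?_ (fun i => ?_) i
      · simp only [T, Fin.cons_zero]; fun_prop
      · simp only [T, Fin.cons_succ]; fun_prop) (R + ε) (fun x => by
      refine (pi_norm_le_iff_of_nonneg (by positivity)).2 (fun i => ?_)
      refine Fin.cases ?_ (fun i => ?_) i
      · simp only [T, Fin.cons_zero, Real.norm_eq_abs, abs_le]
        constructor
        · linarith [le_max_left 0 (min R (x 0 + D x))]
        · exact max_le (by positivity) ((min_le_left _ _).trans (by linarith))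
      · simp only [T, Fin.cons_succ, Real.norm_eq_abs, abs_neg, abs_le]
        constructor
        · linarith [le_max_left (-ε) (min ε (g' (ρ x) i - c i - x i.succ))]
        · exact max_le (by linarith) ((min_le_left _ _).trans (by linarith)))
  have e0 : max 0 (min R (x 0 + D x)) = x 0 := by simpa [T] using congrFun hx 0
  have e1 : ∀ i : Fin d, -max (-ε) (min ε (g' (ρ x) i - c i - x i.succ)) = x i.succ := fun i => by
    simpa only [T, Fin.cons_succ] using congrFun hx i.succ
  have hxA : ρ x ∈ A := by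
    by_contra h
    have h2 := Dneg x h
    have h3 : x 0 = 0 := by
      rcases le_total 0 (min R (x 0 + D x)) with h4 | h4
      · rw [max_eq_right h4] at e0
        linarith [min_le_right R (x 0 + D x)]
      · rw [max_eq_left h4] at e0; exact e0.symm
    have h5 : dist x 0 < δ := by
      rw [dist_zero_right]
      refine lt_of_le_of_lt ((pi_norm_le_iff_of_nonneg hε0.le).2 (fun i => ?_)) (by linarith)
      refine Fin.cases ?_ (fun i => ?_) i
      · simp [h3, hε0.le]
      · rw [← e1 i, Real.norm_eq_abs, abs_neg, abs_le]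
        exact ⟨le_max_left _ _, max_le (by linarith) (min_le_left _ _)⟩
    linarith [hδ' h5]
  have hxB : ρ x ∈ B := by
    by_contra h
    have h2 := Dpos x h
    have h3 := (norm_le_pi_norm x 0).trans_lt (hR x hxA)
    rw [Real.norm_eq_abs, abs_lt] at h3
    have h4 : x 0 < min R (x 0 + D x) := lt_min h3.2 (by linarith)
    linarith [le_max_right 0 (min R (x 0 + D x))]
  refine hc2 ⟨ρ x, ⟨hxA, hxB⟩, funext (fun i => ?_)⟩
  have h2 := (norm_le_pi_norm (g' (ρ x) - g (ρ x)) i).trans_lt (by rw [← dist_eq_norm]; exact h1 (ρ x))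
  have h3 := (norm_le_pi_norm c i).trans_lt (mem_ball_zero_iff.1 hc1)
  rw [Pi.sub_apply, hgρ x ⟨hxA, hxB⟩ i, Real.norm_eq_abs, abs_lt] at h2
  rw [Real.norm_eq_abs, abs_lt] at h3
  have h4 := e1 i
  rw [min_eq_right (by linarith), max_eq_right (by linarith)] at h4
  linarith

/-- A sphere of dimension `d+1` is not separated by a set of Hausdorff dimension below `d`. -/
theorem sphere_sep {W : Type} [NormedAddCommGroup W] [NormedSpace ℝ W] [FiniteDimensional ℝ W] (d : ℕ)
    (A B : Set W) (hA : IsClosed A) (hB : IsClosed B)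
    (ψ : ↥(A ∪ B) ≃ₜ ↥(sphere (0 : EuclideanSpace ℝ (Fin (d + 2))) 1))
    (a b : W) (ha : a ∈ A) (ha' : a ∉ B) (hb : b ∈ B) (hb' : b ∉ A) (hdim : dimH (A ∩ B) < d) :
    False := by
  haveI : Fact (Module.finrank ℝ (EuclideanSpace ℝ (Fin (d + 2))) = (d + 1) + 1) := ⟨by simp⟩
  haveI : CompactSpace ↥(A ∪ B) := ψ.symm.compactSpace
  let L := EuclideanSpace.equiv (Fin (d + 1)) ℝ
  let σ := stereographic' (d + 1) (ψ ⟨b, Or.inr hb⟩)
  let a' := σ (ψ ⟨a, Or.inl ha⟩)
  let ρ : (Fin (d + 1) → ℝ) → ↥(A ∪ B) := fun x => ψ.symm (σ.symm (L.symm x + a'))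
  let θ : ↥(A ∪ B) → (Fin (d + 1) → ℝ) := fun z => L (σ (ψ z) - a')
  have hsrc : ∀ z : ↥(A ∪ B), z.1 ∈ A → ψ z ∈ σ.source := by
    intro z hz
    simp only [σ, stereographic'_source, mem_compl_iff, mem_singleton_iff, EmbeddingLike.apply_eq_iff_eq]
    rintro rfl
    exact hb' hz
  have hσ : Continuous σ.symm := by
    have := σ.continuousOn_symm
    rwa [stereographic'_target, continuousOn_univ] at this
  have hρ : Continuous ρ := by fun_prop
  have hθ : ContinuousOn θ {z | z.1 ∈ A} :=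
    L.continuous.comp_continuousOn ((σ.continuousOn.comp ψ.continuous.continuousOn hsrc).sub
      continuousOn_const)
  have hθρ : ∀ x, θ (ρ x) = x := by
    intro x
    simp only [θ, ρ, Homeomorph.apply_symm_apply]
    rw [σ.right_inv (by simp [σ])]
    simp
  have hρ0 : (ρ 0).1 = a := by
    simp only [ρ, map_zero, zero_add, a']
    rw [σ.left_inv (hsrc _ ha)]
    simp
  obtain ⟨R, hR⟩ := (((hA.preimage continuous_subtype_val).isCompact.image_of_continuousOn
    hθ).isBounded).exists_norm_le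
  let f : C(↥(A ∩ B), Fin d → ℝ) := ⟨fun y i => θ ⟨y.1, Or.inl y.2.1⟩ i.succ, by
    refine continuous_pi (fun i => (continuous_apply i.succ).comp ?_)
    exact hθ.comp_continuous (continuous_subtype_val.subtype_mk _) (fun y => y.2.1)⟩
  obtain ⟨g, hg⟩ := f.exists_restrict_eq (hA.inter hB)
  refine sep_aux d A B hA hB ⟨a, ha⟩ ⟨b, hb⟩ (fun x => (ρ x).1) (continuous_subtype_val.comp hρ)
    (fun x => (ρ x).2) (by rwa [hρ0]) (max R 0 + 1) (by positivity) (fun x hx => ?_) g g.continuous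
    (fun x hx i => ?_) hdim
  · have := hR _ ⟨ρ x, hx, hθρ x⟩
    linarith [le_max_left R 0]
  · have := congrFun (ContinuousMap.congr_fun hg ⟨(ρ x).1, hx⟩) i
    simp only [ContinuousMap.restrict_apply, f, ContinuousMap.coe_mk] at this
    rw [this, hθρ]

/-- The closed simplex spanned by the basis vectors indexed by `e`. -/
def simplex {n : ℕ} (e : Finset (Fin n)) : Set (EuclideanSpace ℝ (Fin n)) :=
  convexHull ℝ ((fun v : Fin n => EuclideanSpace.single v (1 : ℝ)) '' (↑e : Set (Fin n)))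

theorem mem_simplex {n : ℕ} (e : Finset (Fin n)) (x : EuclideanSpace ℝ (Fin n)) :
    x ∈ simplex e ↔ (∀ v, 0 ≤ x v) ∧ ∑ v, x v = 1 ∧ ∀ v, v ∉ e → x v = 0 := by
  constructor
  · intro hx
    refine convexHull_min (t := {x : EuclideanSpace ℝ (Fin n) |
      (∀ v, 0 ≤ x v) ∧ ∑ v, x v = 1 ∧ ∀ v, v ∉ e → x v = 0}) ?_ ?_ hx
    · rintro _ ⟨u, hu, rfl⟩
      refine ⟨fun v => ?_, by simp, fun v hv => ?_⟩
      · simp only [PiLp.single_apply]; split_ifs <;> norm_num
      · have : v ≠ u := by rintro rfl; exact hv hu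
        simp [this]
    · intro x hx y hy s t hs ht hst
      refine ⟨fun v => ?_, ?_, fun v hv => ?_⟩
      · simp only [PiLp.add_apply, PiLp.smul_apply, smul_eq_mul]
        exact add_nonneg (mul_nonneg hs (hx.1 v)) (mul_nonneg ht (hy.1 v))
      · simp only [PiLp.add_apply, PiLp.smul_apply, smul_eq_mul, Finset.sum_add_distrib,
          ← Finset.mul_sum, hx.2.1, hy.2.1]
        linarith
      · simp [hx.2.2 v hv, hy.2.2 v hv]
  · rintro ⟨h1, h2, h3⟩
    have h4 : ∑ v ∈ e, x v = 1 := by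
      rw [← h2]; exact Finset.sum_subset (Finset.subset_univ _) (fun v _ hv => h3 v hv)
    have h5 : x = ∑ v ∈ e, x v • EuclideanSpace.single v (1 : ℝ) := by
      ext u
      simp only [WithLp.ofLp_sum, Finset.sum_apply, PiLp.smul_apply, PiLp.single_apply, smul_eq_mul,
        mul_ite, mul_one, mul_zero, Finset.sum_ite_eq]
      split_ifs with h
      · rfl
      · exact h3 u h
    rw [h5]
    exact (convex_convexHull ℝ _).sum_mem (fun v _ => h1 v) h4
      (fun v hv => subset_convexHull ℝ _ ⟨v, hv, rfl⟩)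

theorem dimH_simplex {n : ℕ} (e : Finset (Fin n)) (d : ℕ) (h : e.card ≤ d + 1) :
    dimH (simplex e) ≤ d := by
  classical
  rcases e.eq_empty_or_nonempty with rfl | hne
  · simp [simplex]
  · obtain ⟨m, hm⟩ : ∃ m, e.card = m + 1 := ⟨e.card - 1, by have := hne.card_pos; omega⟩
    have h1 := finrank_vectorSpan_image_finset_le ℝ
      (fun v : Fin n => EuclideanSpace.single v (1 : ℝ)) e hm
    rw [simplex, Real.Convex.dimH_eq_finrank_vectorSpan (convex_convexHull ℝ _)
      (convexHull_nonempty_iff.2 ((Finset.coe_nonempty.2 hne).image _)), ← direction_affineSpan,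
      affineSpan_convexHull, direction_affineSpan, ← Finset.coe_image]
    exact_mod_cast h1.trans (by omega)

theorem isClosed_simplex {n : ℕ} (e : Finset (Fin n)) : IsClosed (simplex e) :=
  ((e.finite_toSet.image _).isCompact_convexHull ℝ).isClosed

/-- A pure complex homeomorphic to a sphere of its own dimension is strongly connected: a labelling
of the facets that is constant across ridges is constant. -/
theorem const_of_sphere {n d : ℕ} (F : Finset (Finset (Fin n))) (hF : ∀ e ∈ F, e.card = d + 3)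
    (ψ : ↥(⋃ e ∈ F, simplex e) ≃ₜ ↥(sphere (0 : EuclideanSpace ℝ (Fin (d + 3))) 1))
    {α : Type} (κ : Finset (Fin n) → α) (hκ : ∀ e ∈ F, ∀ f ∈ F, d + 2 ≤ (e ∩ f).card → κ e = κ f) :
    ∀ e ∈ F, ∀ f ∈ F, κ e = κ f := by
  classical
  intro e he f hf
  by_contra hne
  let A := ⋃ g ∈ F.filter (fun g => κ g = κ e), simplex g
  let B := ⋃ g ∈ F.filter (fun g => ¬ κ g = κ e), simplex g
  have hU : A ∪ B = ⋃ e ∈ F, simplex e := by
    rw [← Finset.set_biUnion_union, Finset.filter_union_filter_not_eq]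
  let bar : Finset (Fin n) → EuclideanSpace ℝ (Fin n) := fun g =>
    WithLp.toLp 2 (fun v => if v ∈ g then ((d : ℝ) + 3)⁻¹ else 0)
  have b1 : ∀ g ∈ F, bar g ∈ simplex g := by
    intro g hg
    refine (mem_simplex _ _).2 ⟨fun v => ?_, ?_, fun v hv => by simp [bar, hv]⟩
    · simp only [bar]; split_ifs <;> positivity
    · simp only [bar, Finset.sum_ite_mem, Finset.univ_inter, Finset.sum_const, hF g hg, nsmul_eq_mul]
      push_cast; field_simp
  have b2 : ∀ g ∈ F, ∀ g' ∈ F, bar g ∈ simplex g' → g = g' := by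
    intro g hg g' hg' h
    refine Finset.eq_of_subset_of_card_le (fun v hv => ?_) (by rw [hF g hg, hF g' hg'])
    by_contra h2
    have := ((mem_simplex _ _).1 h).2.2 v h2
    simp only [bar, if_pos hv] at this
    exact absurd this (by positivity)
  refine sphere_sep (d + 1) A B
    ((Finset.finite_toSet _).isClosed_biUnion (fun g _ => isClosed_simplex g))
    ((Finset.finite_toSet _).isClosed_biUnion (fun g _ => isClosed_simplex g))
    ((Homeomorph.setCongr hU).trans ψ) (bar e) (bar f) ?_ ?_ ?_ ?_ ?_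
  · exact mem_biUnion (Finset.mem_filter.2 ⟨he, rfl⟩) (b1 e he)
  · intro h
    obtain ⟨g, hg, h2⟩ := mem_iUnion₂.1 h
    obtain ⟨h3, h4⟩ := Finset.mem_filter.1 hg
    exact h4 (by rw [b2 e he g h3 h2])
  · exact mem_biUnion (Finset.mem_filter.2 ⟨hf, Ne.symm hne⟩) (b1 f hf)
  · intro h
    obtain ⟨g, hg, h2⟩ := mem_iUnion₂.1 h
    obtain ⟨h3, h4⟩ := Finset.mem_filter.1 hg
    exact hne (by rw [b2 f hf g h3 h2, h4])
  · have hsub : A ∩ B ⊆ ⋃ S : {S : Finset (Fin n) // S.card ≤ d + 1}, simplex S.1 := by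
      rintro x ⟨h1, h2⟩
      obtain ⟨g, hg, h3⟩ := mem_iUnion₂.1 h1
      obtain ⟨g', hg', h4⟩ := mem_iUnion₂.1 h2
      obtain ⟨h5, h6⟩ := Finset.mem_filter.1 hg
      obtain ⟨h7, h8⟩ := Finset.mem_filter.1 hg'
      refine mem_iUnion.2 ⟨⟨g ∩ g', ?_⟩, ?_⟩
      · by_contra h9
        exact h8 ((hκ g h5 g' h7 (by omega)).symm.trans h6)
      · rw [mem_simplex] at h3 h4 ⊢
        refine ⟨h3.1, h3.2.1, fun v hv => ?_⟩
        by_cases h9 : v ∈ g
        · exact h4.2.2 v (fun h => hv (Finset.mem_inter.2 ⟨h9, h⟩))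
        · exact h3.2.2 v h9
    refine lt_of_le_of_lt (dimH_mono hsub) ?_
    rw [dimH_iUnion]
    refine lt_of_le_of_lt (iSup_le (fun S => dimH_simplex S.1 d S.2)) ?_
    exact_mod_cast Nat.lt_succ_self d

end Pool.Agent.H15.SphereSep
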