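import Mathlib
import Pool.Agent.H15.SphereSep

set_option autoImplicit false

namespace Pool.Agent.H15.TEmb
open Set Metric Filter Topology

theorem strat {k : ℕ} (A B : Fin k → Set (Fin k → ℝ)) (hc : ∀ z, ∃ j, z ∈ A j ∨ z ∈ B j)
    (hA : ∀ j, ∀ z ∈ A j, z j < 1) (hB : ∀ j, ∀ z ∈ B j, 0 < z j)
    (hAB : ∀ j, ∀ z ∈ A j, z ∉ closure (B j)) (hBA : ∀ j, ∀ z ∈ B j, z ∉ closure (A j)) :
    False := by
  let A' : Fin k → Set (Fin k → ℝ) := fun j => A j ∪ {z | z j ≤ -1}
  let B' : Fin k → Set (Fin k → ℝ) := fun j => B j ∪ {z | 2 ≤ z j}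
  have nA : ∀ j, (A' j).Nonempty := fun j => ⟨fun _ => -1, Or.inr (le_refl (-1 : ℝ))⟩
  have nB : ∀ j, (B' j).Nonempty := fun j => ⟨fun _ => 2, Or.inr (le_refl (2 : ℝ))⟩
  have c1 : ∀ j, IsClosed {z : Fin k → ℝ | z j ≤ -1} := fun j =>
    isClosed_le (continuous_apply j) continuous_const
  have c2 : ∀ j, IsClosed {z : Fin k → ℝ | 2 ≤ z j} := fun j =>
    isClosed_le continuous_const (continuous_apply j)
  have dA : ∀ j, ∀ z ∈ closure (A j), z j ≤ 1 := fun j =>
    closure_minimal (t := {z : Fin k → ℝ | z j ≤ 1}) (fun z hz => (hA j z hz).le)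
      (isClosed_le (continuous_apply j) continuous_const)
  have dB : ∀ j, ∀ z ∈ closure (B j), 0 ≤ z j := fun j =>
    closure_minimal (t := {z : Fin k → ℝ | 0 ≤ z j}) (fun z hz => (hB j z hz).le)
      (isClosed_le continuous_const (continuous_apply j))
  let g : Fin k → (Fin k → ℝ) → ℝ := fun j z => infDist z (A' j) - infDist z (B' j)
  have gA : ∀ j, ∀ z ∈ A' j, g j z < 0 := by
    intro j z hz
    have h1 : z ∉ closure (B' j) := by
      rw [closure_union, (c2 j).closure_eq]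
      rintro (h | h)
      · rcases hz with hz | hz
        · exact hAB j z hz h
        · have := dB j z h
          have : z j ≤ -1 := hz
          linarith
      · have h' : 2 ≤ z j := h
        rcases hz with hz | hz
        · linarith [hA j z hz]
        · have : z j ≤ -1 := hz
          linarith
    have := (infDist_pos_iff_notMem_closure (nB j)).1 h1
    simp only [g, infDist_zero_of_mem hz]
    linarith
  have gB : ∀ j, ∀ z ∈ B' j, 0 < g j z := by
    intro j z hz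
    have h1 : z ∉ closure (A' j) := by
      rw [closure_union, (c1 j).closure_eq]
      rintro (h | h)
      · rcases hz with hz | hz
        · exact hBA j z hz h
        · have := dA j z h
          have : 2 ≤ z j := hz
          linarith
      · have h' : z j ≤ -1 := h
        rcases hz with hz | hz
        · linarith [hB j z hz]
        · have : 2 ≤ z j := hz
          linarith
    have := (infDist_pos_iff_notMem_closure (nA j)).1 h1
    simp only [g, infDist_zero_of_mem hz]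
    linarith
  have gc : ∀ j, Continuous (g j) := fun j =>
    (continuous_infDist_pt _).sub (continuous_infDist_pt _)
  obtain ⟨z, hz⟩ := Pool.Agent.H15.SphereSep.fixed_pi
    (fun z j => max (-1) (min 2 (z j - g j z))) (by fun_prop) 2 (fun z => by
      refine (pi_norm_le_iff_of_nonneg (by norm_num)).2 fun j => ?_
      rw [Real.norm_eq_abs, abs_le]
      exact ⟨le_trans (by norm_num) (le_max_left _ _), max_le (by norm_num) (min_le_left _ _)⟩)
  have h0 : ∀ j, g j z = 0 := by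
    intro j
    have h1 : max (-1) (min 2 (z j - g j z)) = z j := congrFun hz j
    have h2 : z j ≤ -1 → g j z < 0 := fun h => gA j z (Or.inr h)
    have h3 : 2 ≤ z j → 0 < g j z := fun h => gB j z (Or.inr h)
    rcases max_cases (-1) (min 2 (z j - g j z)) with h | h <;>
      rcases min_cases 2 (z j - g j z) with h' | h' <;>
      rcases lt_trichotomy (g j z) 0 with h4 | h4 | h4 <;>
      first | exact h4 | linarith | linarith [h2 (by linarith)] | linarith [h3 (by linarith)]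
  obtain ⟨j, h | h⟩ := hc z
  · exact (gA j z (Or.inl h)).ne (h0 j)
  · exact (gB j z (Or.inl h)).ne' (h0 j)

theorem rank_bound {α : Type} (n : ℕ) (x : α → ℝ) :
    ∃ M : Submodule ℝ ((Fin n → α) → ℝ), Module.Finite ℝ M ∧ Module.finrank ℝ M ≤ (n + 1) ^ n ∧
      ∀ a : Fin n → ℝ, (fun ρ : Fin n → α => ∏ l', ∏ l, (x (ρ l') - a l)) ∈ M := by
  let m : (Fin n → Fin (n + 1)) → (Fin n → α) → ℝ := fun e ρ => ∏ l', x (ρ l') ^ (e l' : ℕ)
  refine ⟨Submodule.span ℝ (range m), Module.Finite.span_of_finite ℝ (finite_range m), ?_,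
    fun a => ?_⟩
  · exact (finrank_range_le_card m).trans (by simp)
  · let p : Polynomial ℝ := ∏ l, (Polynomial.X - Polynomial.C (a l))
    have hp : p.natDegree < n + 1 := by
      rw [Polynomial.natDegree_finsetProd_X_sub_C_eq_card]
      simp
    have e1 : ∀ s : ℝ, ∏ l, (s - a l) = ∑ i : Fin (n + 1), p.coeff i * s ^ (i : ℕ) := by
      intro s
      rw [Fin.sum_univ_eq_sum_range (fun i => p.coeff i * s ^ i), ← Polynomial.eval_eq_sum_range' hp]
      simp [p, Polynomial.eval_prod]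
    have e2 : (fun ρ : Fin n → α => ∏ l', ∏ l, (x (ρ l') - a l)) =
        ∑ e : Fin n → Fin (n + 1), (∏ l', p.coeff (e l')) • m e := by
      ext ρ
      simp only [e1, Finset.sum_apply, Pi.smul_apply, smul_eq_mul, m, ← Finset.prod_mul_distrib]
      rw [Finset.prod_univ_sum]
      simp
    rw [e2]
    exact Submodule.sum_mem _ fun e _ => Submodule.smul_mem _ _ (Submodule.subset_span ⟨e, rfl⟩)

theorem cert_false (n : ℕ) {D : Type} [Finite D] (col : Fin ((n + 1) ^ n + 1) → D → Bool)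
    (ψ : (D → Bool) → (Fin ((n + 1) ^ n + 1) → ℝ) → ℝ) (hψ : ∀ C, Continuous (ψ C))
    (h0 : ∀ j z, z j ≤ 0 → ∃ t : Fin n → D, ∀ C, (∀ l, C (t l) = col j (t l)) → ψ C z ≤ 1 / 4)
    (h1 : ∀ j z, 1 ≤ z j → ∃ t : Fin n → D, ∀ C, (∀ l, C (t l) = col j (t l)) → 3 / 4 ≤ ψ C z) :
    False := by
  classical
  obtain ⟨x0, hx0⟩ := exists_injective_nat (D × Bool)
  let x : D × Bool → ℝ := fun a => x0 a
  have hx : ∀ a b, x a - x b = 0 → a = b := fun a b h =>
    hx0 (by have := sub_eq_zero.1 h; simp only [x] at this; exact_mod_cast this)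
  obtain ⟨M, hM0, hM1, hM2⟩ := rank_bound n x
  let 𝒜 : (Fin ((n + 1) ^ n + 1) → ℝ) → Set ((Fin n → D) × (D → Bool)) := fun z =>
    {π | ∀ C, (∀ l, C (π.1 l) = π.2 (π.1 l)) → ψ C z ≤ 1 / 4}
  let F : (Fin n → D) × (D → Bool) → (Fin n → D × Bool) → ℝ := fun π ρ =>
    ∏ l', ∏ l, (x (ρ l') - x (π.1 l, π.2 (π.1 l)))
  let W := fun z => Submodule.span ℝ (F '' 𝒜 z)
  have hWM : ∀ z, W z ≤ M := fun z => Submodule.span_le.2 (by
    rintro _ ⟨π, -, rfl⟩
    exact hM2 _)
  let rk : (Fin ((n + 1) ^ n + 1) → ℝ) → Fin ((n + 1) ^ n + 1) := fun z =>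
    ⟨Module.finrank ℝ (W z), Nat.lt_succ_of_le ((Submodule.finrank_mono (hWM z)).trans hM1)⟩
  have usc : ∀ z, ∀ᶠ z' in 𝓝 z, rk z' = rk z → W z' = W z := by
    intro z
    have : ∀ᶠ z' in 𝓝 z, ∀ π, π ∈ 𝒜 z' → π ∈ 𝒜 z := by
      refine eventually_all.2 fun π => ?_
      by_cases h : π ∈ 𝒜 z
      · exact Eventually.of_forall fun _ _ => h
      · obtain ⟨C, hC⟩ := not_forall.1 h
        obtain ⟨hC1, hC2⟩ := Classical.not_imp.1 hC
        filter_upwards [((hψ C).tendsto z).eventually (lt_mem_nhds (not_le.1 hC2))] with z' h2 h3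
        exact absurd (h3 C hC1) (not_le.2 h2)
    filter_upwards [this] with z' h2 h3
    exact Submodule.eq_of_le_of_finrank_eq (Submodule.span_mono (image_mono h2))
      (congrArg Fin.val h3)
  let P : Fin ((n + 1) ^ n + 1) → Submodule ℝ ((Fin n → D × Bool) → ℝ) → Prop := fun j V =>
    ∃ t : Fin n → D, ∀ f ∈ V, f (fun l => (t l, !col j (t l))) = 0
  refine strat (fun j => {z | rk z = j ∧ ¬ P j (W z)}) (fun j => {z | rk z = j ∧ P j (W z)})
    (fun z => ⟨rk z, by by_cases h : P (rk z) (W z) <;> simp [h]⟩) ?_ ?_ ?_ ?_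
  · rintro j z ⟨-, hz⟩
    by_contra h
    obtain ⟨t, ht⟩ := h1 j z (not_lt.1 h)
    refine hz ⟨t, fun f hf => ?_⟩
    refine (Submodule.span_le (p := LinearMap.ker (LinearMap.proj (R := ℝ)
      (φ := fun _ : Fin n → D × Bool => ℝ) (fun l => (t l, !col j (t l)))))).2 ?_ hf
    rintro _ ⟨π, hπ, rfl⟩
    by_contra hn
    have h2 : ∀ l' l, (t l', !col j (t l')) ≠ (π.1 l, π.2 (π.1 l)) := by
      intro l' l h3
      refine hn (Finset.prod_eq_zero (Finset.mem_univ l') (Finset.prod_eq_zero (Finset.mem_univ l) ?_))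
      show x (t l', !col j (t l')) - _ = 0
      rw [h3, sub_self]
    have h3 := hπ (fun d => if d ∈ range π.1 then π.2 d else col j d) (fun l => by simp)
    have h4 := ht (fun d => if d ∈ range π.1 then π.2 d else col j d) (fun l' => by
      split_ifs with h5
      · obtain ⟨l, hl⟩ := h5
        have := h2 l' l
        rw [hl] at this
        revert this
        cases π.2 (t l') <;> cases col j (t l') <;> simp
      · rfl)
    linarith
  · rintro j z ⟨-, t, ht⟩
    by_contra h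
    obtain ⟨t0, ht0⟩ := h0 j z (not_lt.1 h)
    have := ht (F (t0, col j)) (Submodule.subset_span ⟨(t0, col j), ht0, rfl⟩)
    obtain ⟨l', -, h2⟩ := Finset.prod_eq_zero_iff.1 this
    obtain ⟨l, -, h3⟩ := Finset.prod_eq_zero_iff.1 h2
    have h4 := hx _ _ h3
    simp only [Prod.mk.injEq] at h4
    obtain ⟨h5, h6⟩ := h4
    rw [h5] at h6
    simp at h6
  · rintro j z ⟨hz, hz'⟩ h
    obtain ⟨z', ⟨h2, h3⟩, h4⟩ := ((mem_closure_iff_frequently.1 h).and_eventually (usc z)).exists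
    exact hz' (h4 (h2.trans hz.symm) ▸ h3)
  · rintro j z ⟨hz, hz'⟩ h
    obtain ⟨z', ⟨h2, h3⟩, h4⟩ := ((mem_closure_iff_frequently.1 h).and_eventually (usc z)).exists
    exact h3 (h4 (h2.trans hz.symm) ▸ hz')

theorem pigeon {α β : Type*} (S : Set α) (hS : ¬ S.Countable) (f : α → β) (Q : Set β)
    (hQ : Q.Countable) (h : ∀ ξ ∈ S, f ξ ∈ Q) : ∃ b, ¬ {ξ ∈ S | f ξ = b}.Countable := by
  by_contra hn
  push Not at hn
  refine hS ((hQ.biUnion fun b _ => hn b).mono fun ξ hξ => ?_)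
  exact mem_biUnion (h ξ hξ) ⟨hξ, rfl⟩

theorem blocks {α ι Y : Type*} [Nonempty Y] (E : α → Finset ι) (p : α → ι → Y) (Q : Set Y)
    (hQ : Q.Countable) (k N : ℕ) : ∀ (S : Set α) (H : α → Finset ι), ¬ S.Countable →
      (∀ a, {ξ ∈ S | a ∈ E ξ}.Countable) → (∀ ξ ∈ S, (H ξ).card ≤ N) →
      (∀ ξ ∈ S, ∀ a ∈ H ξ, p ξ a ∈ Q) →
      ∃ (T : Finset α) (c : ι → Y), T.card = k ∧ (∀ ξ ∈ T, ξ ∈ S) ∧
        (∀ ξ ∈ T, ∀ a ∈ H ξ, c a = p ξ a) ∧
        ∀ ξ ∈ T, ∀ η ∈ T, ξ ≠ η → ∀ a ∈ E ξ, a ∉ E η ∧ a ∉ H η := by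
  classical
  have caseB : ∀ (S : Set α) (H : α → Finset ι), ¬ S.Countable →
      (∀ a, {ξ ∈ S | a ∈ E ξ}.Countable) → (∀ a, {ξ ∈ S | a ∈ H ξ}.Countable) →
      ∃ (T : Finset α) (c : ι → Y), T.card = k ∧ (∀ ξ ∈ T, ξ ∈ S) ∧
        (∀ ξ ∈ T, ∀ a ∈ H ξ, c a = p ξ a) ∧
        ∀ ξ ∈ T, ∀ η ∈ T, ξ ≠ η → ∀ a ∈ E ξ, a ∉ E η ∧ a ∉ H η := by
    intro S H hS hE hH
    induction k with
    | zero => exact ⟨∅, fun _ => Classical.arbitrary Y, rfl, by simp, by simp, by simp⟩
    | succ k ih =>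
      obtain ⟨T, c, h1, h2, h3, h4⟩ := ih
      have hb : ((T : Set α) ∪ ⋃ a ∈ (T.biUnion fun η => E η ∪ H η : Finset ι),
          ({ξ ∈ S | a ∈ E ξ} ∪ {ξ ∈ S | a ∈ H ξ})).Countable :=
        T.countable_toSet.union ((Finset.countable_toSet _).biUnion fun a _ => (hE a).union (hH a))
      obtain ⟨ξ, hξ, hξ'⟩ := not_subset.1 fun h => hS (hb.mono h)
      have h5 : ξ ∉ T := fun h => hξ' (Or.inl h)
      have h6 : ∀ η ∈ T, ∀ a, a ∈ E η ∨ a ∈ H η → a ∉ E ξ ∧ a ∉ H ξ := by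
        intro η hη a ha
        have h7 : a ∈ (T.biUnion fun η => E η ∪ H η : Finset ι) :=
          Finset.mem_biUnion.2 ⟨η, hη, Finset.mem_union.2 ha⟩
        exact ⟨fun h => hξ' (Or.inr (mem_biUnion h7 (Or.inl ⟨hξ, h⟩))),
          fun h => hξ' (Or.inr (mem_biUnion h7 (Or.inr ⟨hξ, h⟩)))⟩
      refine ⟨insert ξ T, fun a => if a ∈ H ξ then p ξ a else c a,
        by rw [Finset.card_insert_of_notMem h5, h1], ?_, ?_, ?_⟩
      · intro η hη
        rcases Finset.mem_insert.1 hη with rfl | hη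
        · exact hξ
        · exact h2 η hη
      · intro η hη a ha
        rcases Finset.mem_insert.1 hη with rfl | hη
        · exact if_pos ha
        · exact (if_neg (h6 η hη a (Or.inr ha)).2).trans (h3 η hη a ha)
      · intro η hη ζ hζ hne a ha
        rcases Finset.mem_insert.1 hη with rfl | hη' <;>
          rcases Finset.mem_insert.1 hζ with rfl | hζ'
        · exact absurd rfl hne
        · exact ⟨fun h => (h6 ζ hζ' a (Or.inl h)).1 ha, fun h => (h6 ζ hζ' a (Or.inr h)).1 ha⟩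
        · exact h6 η hη' a (Or.inl ha)
        · exact h4 η hη' ζ hζ' hne a ha
  induction N with
  | zero =>
    intro S H hS hE hN _
    refine caseB S H hS hE fun a => countable_empty.mono fun ξ hξ => ?_
    have := Finset.card_pos.2 ⟨a, hξ.2⟩
    have := hN ξ hξ.1
    omega
  | succ N ih =>
    intro S H hS hE hN hp
    by_cases hA : ∀ a, {ξ ∈ S | a ∈ H ξ}.Countable
    · exact caseB S H hS hE hA
    obtain ⟨a, ha⟩ := not_forall.1 hA
    obtain ⟨b, hb⟩ := pigeon _ ha (fun ξ => p ξ a) Q hQ fun ξ hξ => hp ξ hξ.1 a hξ.2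
    obtain ⟨T, c, h1, h2, h3, h4⟩ := ih {ξ | ξ ∈ S ∧ a ∈ H ξ ∧ p ξ a = b ∧ a ∉ E ξ}
      (fun ξ => (H ξ).erase a) (fun h => hb ((h.union (hE a)).mono fun ξ hξ => by
        by_cases h' : a ∈ E ξ
        · exact Or.inr ⟨hξ.1.1, h'⟩
        · exact Or.inl ⟨hξ.1.1, hξ.1.2, hξ.2, h'⟩))
      (fun a' => (hE a').mono fun ξ hξ => And.intro hξ.1.1 hξ.2)
      (fun ξ hξ => by
        have := hN ξ hξ.1
        rw [Finset.card_erase_of_mem hξ.2.1]
        omega)
      (fun ξ hξ a' ha' => hp ξ hξ.1 a' (Finset.mem_of_mem_erase ha'))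
    refine ⟨T, Function.update c a b, h1, fun ξ hξ => (h2 ξ hξ).1, fun ξ hξ a' ha' => ?_,
      fun ξ hξ η hη hne a' ha' => ⟨(h4 ξ hξ η hη hne a' ha').1, fun h => ?_⟩⟩
    · by_cases h : a' = a
      · subst h
        rw [Function.update_self, (h2 ξ hξ).2.2.1]
      · rw [Function.update_of_ne h, h3 ξ hξ a' (Finset.mem_erase.2 ⟨h, ha'⟩)]
    · refine (h4 ξ hξ η hη hne a' ha').2 (Finset.mem_erase.2 ⟨?_, h⟩)
      rintro rfl
      exact (h2 ξ hξ).2.2.2 ha'

end Pool.Agent.H15.TEmb
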