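import Mathlib
import Pool.Agent.H15.TEmb1
import Pool.Agent.H15.TEmbDefs

set_option autoImplicit false

namespace Pool.Agent.H15.TEmb
open Set Metric Filter Topology unitInterval

variable {ι K : Type*} [TopologicalSpace K]

def Cert0 (φ : C(K, Bool) → C(ι → I, ℝ)) {n : ℕ} (t : Fin n → K) (g : C(K, Bool)) (y : ι → I) :
    Prop := ∀ g' : C(K, Bool), (∀ l, g' (t l) = g (t l)) → φ g' y ≤ 1 / 4

def Cert1 (φ : C(K, Bool) → C(ι → I, ℝ)) {n : ℕ} (t : Fin n → K) (g : C(K, Bool)) (y : ι → I) :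
    Prop := ∀ g' : C(K, Bool), (∀ l, g' (t l) = g (t l)) → 3 / 4 ≤ φ g' y

theorem open_box {U : Set (ι → I)} (hU : IsOpen U) {x : ι → I} (hx : x ∈ U) :
    ∃ (G : Finset ι) (u : ι → Set I), (∀ a, IsOpen (u a) ∧ x a ∈ u a) ∧
      ∀ y : ι → I, (∀ a ∈ G, y a ∈ u a) → y ∈ U := by
  classical
  obtain ⟨G, u, h1, h2⟩ := isOpen_pi_iff.1 hU x hx
  refine ⟨G, fun a => if a ∈ G then u a else univ, fun a => ?_, fun y hy => h2 fun a ha => ?_⟩
  · by_cases h : a ∈ G
    · simp only [if_pos h]; exact h1 a h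
    · simp [h]
  · have := hy a ha
    simp only [if_pos (show a ∈ G from ha)] at this
    exact this

theorem package [CompactSpace K] (Q : Set I) (hQ : Dense Q) (e : K → ι → I)
    (φ : C(K, Bool) → C(ι → I, ℝ))
    (hφ : ∀ (g : C(K, Bool)) (y : ι → I), ∃ T : Finset K, ∀ g' : C(K, Bool),
      (∀ x ∈ T, g' x = g x) → |φ g' y - φ g y| < 1 / 8)
    (g : C(K, Bool)) (x0 x1 : K) (h0 : φ g (e x0) = 0) (h1 : φ g (e x1) = 1) :
    ∃ (n : ℕ) (E H : Finset ι) (p w0 w1 : ι → I), (∀ a ∈ E, e x0 a ≠ e x1 a) ∧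
      (∀ a ∈ E, a ∉ H) ∧ (∀ a ∈ H, p a ∈ Q) ∧ ∀ y : ι → I, (∀ a ∈ H, y a = p a) →
        ((∀ a ∈ E, y a = w0 a) → ∃ t : Fin n → K, Cert0 φ t g y) ∧
        ((∀ a ∈ E, y a = w1 a) → ∃ t : Fin n → K, Cert1 φ t g y) := by
  classical
  obtain ⟨G0, u0, hu0, hG0⟩ := open_box (U := {y | φ g y < 1 / 8})
    (isOpen_lt (φ g).continuous continuous_const) (x := e x0) (by simp [h0])
  obtain ⟨G1, u1, hu1, hG1⟩ := open_box (U := {y | 7 / 8 < φ g y})
    (isOpen_lt continuous_const (φ g).continuous) (x := e x1) (by simp only [mem_ofPred_eq, h1]; norm_num)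
  have hq : ∀ a, ∃ q, e x0 a = e x1 a → q ∈ Q ∧ q ∈ u0 a ∧ q ∈ u1 a := by
    intro a
    by_cases h : e x0 a = e x1 a
    · obtain ⟨q, hq, hq'⟩ := hQ.exists_mem_open ((hu0 a).1.inter (hu1 a).1)
        ⟨e x0 a, (hu0 a).2, h ▸ (hu1 a).2⟩
      exact ⟨q, fun _ => ⟨hq, hq'⟩⟩
    · exact ⟨0, fun h' => absurd h' h⟩
  choose q hq using hq
  let w0 : ι → I := fun a => if e x0 a = e x1 a then q a else e x0 a
  let w1 : ι → I := fun a => if e x0 a = e x1 a then q a else e x1 a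
  have hw0 : ∀ a, w0 a ∈ u0 a := fun a => by
    simp only [w0]; split_ifs with h
    · exact (hq a h).2.1
    · exact (hu0 a).2
  have hw1 : ∀ a, w1 a ∈ u1 a := fun a => by
    simp only [w1]; split_ifs with h
    · exact (hq a h).2.2
    · exact (hu1 a).2
  let G := G0 ∪ G1
  let m : (ι → I) → (ι → I) → ι → I := fun w y a => if a ∈ G then w a else y a
  have mc : ∀ w, Continuous (m w) := fun w => continuous_pi fun a => by
    simp only [m]; split_ifs <;> fun_prop
  let X : ℕ → Set (ι → I) := fun n =>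
    {y | ∃ t : Fin n → K, Cert0 φ t g (m w0 y) ∧ Cert1 φ t g (m w1 y)}
  have hX : ∀ n, IsClosed (X n) := by
    intro n
    have hop : ∀ g' : C(K, Bool), IsOpen {z : (ι → I) × (Fin n → K) | ∀ l, g' (z.2 l) = g (z.2 l)} := by
      intro g'
      rw [ofPred_forall]
      refine isOpen_iInter_of_finite fun l => ?_
      have : Continuous fun z : (ι → I) × (Fin n → K) => (g' (z.2 l), g (z.2 l)) := by fun_prop
      exact (isOpen_discrete {b : Bool × Bool | b.1 = b.2}).preimage this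
    have hc : IsClosed {z : (ι → I) × (Fin n → K) |
        Cert0 φ z.2 g (m w0 z.1) ∧ Cert1 φ z.2 g (m w1 z.1)} := by
      refine IsClosed.inter ?_ ?_
      · show IsClosed {z : (ι → I) × (Fin n → K) | ∀ g' : C(K, Bool), _ → _}
        rw [ofPred_forall]
        refine isClosed_iInter fun g' => isClosed_imp (hop g') (isClosed_le ?_ continuous_const)
        exact (φ g').continuous.comp ((mc w0).comp continuous_fst)
      · show IsClosed {z : (ι → I) × (Fin n → K) | ∀ g' : C(K, Bool), _ → _}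
        rw [ofPred_forall]
        refine isClosed_iInter fun g' => isClosed_imp (hop g') (isClosed_le continuous_const ?_)
        exact (φ g').continuous.comp ((mc w1).comp continuous_fst)
    have := isClosedMap_fst_of_compactSpace _ hc
    convert this using 1
    ext y
    exact ⟨fun ⟨t, ht⟩ => ⟨(y, t), ht, rfl⟩, fun ⟨z, hz, h⟩ => ⟨z.2, h ▸ hz⟩⟩
  have hU : ⋃ n, X n = univ := by
    refine eq_univ_of_forall fun y => ?_
    obtain ⟨T0, hT0⟩ := hφ g (m w0 y)
    obtain ⟨T1, hT1⟩ := hφ g (m w1 y)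
    have a0 : φ g (m w0 y) < 1 / 8 := hG0 _ fun a ha => by
      simp only [m, if_pos (show a ∈ G from Finset.mem_union_left _ ha)]; exact hw0 a
    have a1 : 7 / 8 < φ g (m w1 y) := hG1 _ fun a ha => by
      simp only [m, if_pos (show a ∈ G from Finset.mem_union_right _ ha)]; exact hw1 a
    refine mem_iUnion.2 ⟨(T0 ∪ T1).card, fun l => (T0 ∪ T1).equivFin.symm l, fun g' h => ?_,
      fun g' h => ?_⟩
    · have := abs_lt.1 (hT0 g' fun x hx => by
        simpa using h ((T0 ∪ T1).equivFin ⟨x, Finset.mem_union_left _ hx⟩))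
      linarith [this.2]
    · have := abs_lt.1 (hT1 g' fun x hx => by
        simpa using h ((T0 ∪ T1).equivFin ⟨x, Finset.mem_union_right _ hx⟩))
      linarith [this.1]
  obtain ⟨n, y0, hy0⟩ := nonempty_interior_of_iUnion_of_closed hX hU
  obtain ⟨F, v, hv, hF⟩ := open_box isOpen_interior hy0
  choose u hu hu' using fun a => hQ.exists_mem_open (hv a).1 ⟨_, (hv a).2⟩
  let E := G.filter fun a => e x0 a ≠ e x1 a
  refine ⟨n, E, (F ∪ G) \ E, fun a => if a ∈ G then q a else u a, w0, w1,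
    fun a ha => (Finset.mem_filter.1 ha).2, fun a ha h => (Finset.mem_sdiff.1 h).2 ha, ?_, ?_⟩
  · intro a ha
    simp only
    split_ifs with h
    · refine (hq a ?_).1
      by_contra h'
      exact (Finset.mem_sdiff.1 ha).2 (Finset.mem_filter.2 ⟨h, h'⟩)
    · exact hu a
  · intro y hy
    simp only at hy
    obtain ⟨t, ht0, ht1⟩ := interior_subset (hF (m u y) fun a ha => by
      simp only [m]
      split_ifs with h
      · exact hu' a
      · rw [hy a (Finset.mem_sdiff.2 ⟨Finset.mem_union_left _ ha,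
          fun h' => h (Finset.mem_filter.1 h').1⟩), if_neg h]
        exact hu' a)
    have key : ∀ w : ι → I, (∀ a, e x0 a = e x1 a → w a = q a) → (∀ a ∈ E, y a = w a) →
        m w (m u y) = y := by
      intro w hw hE
      ext1 a
      simp only [m]
      split_ifs with h
      · by_cases h' : e x0 a = e x1 a
        · rw [hy a (Finset.mem_sdiff.2 ⟨Finset.mem_union_right _ h,
            fun h'' => (Finset.mem_filter.1 h'').2 h'⟩), if_pos h, hw a h']
        · exact (hE a (Finset.mem_filter.2 ⟨h, h'⟩)).symm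
      · rfl
    exact ⟨fun h => ⟨t, key w0 (fun a h => if_pos h) h ▸ ht0⟩,
      fun h => ⟨t, key w1 (fun a h => if_pos h) h ▸ ht1⟩⟩

theorem core [CompactSpace K] (e : K → ι → I) (φ : C(K, Bool) → C(ι → I, ℝ))
    (hφ : ∀ (g : C(K, Bool)) (y : ι → I), ∃ T : Finset K, ∀ g' : C(K, Bool),
      (∀ x ∈ T, g' x = g x) → |φ g' y - φ g y| < 1 / 8)
    (hext : ∀ (g : C(K, Bool)) (x : K), φ g (e x) = if g x = true then 1 else 0)
    (hsep : ∀ A : Set ι, A.Countable → ∃ (g : C(K, Bool)) (x0 x1 : K), g x0 = false ∧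
      g x1 = true ∧ ∀ a ∈ A, e x0 a = e x1 a) : False := by
  classical
  obtain ⟨Q, hQc, hQ⟩ := TopologicalSpace.exists_countable_dense I
  let Θ := {θ : C(K, Bool) × K × K // θ.1 θ.2.1 = false ∧ θ.1 θ.2.2 = true}
  choose n E H p w0 w1 hE hEH hp hy using fun θ : Θ => package Q hQ e φ hφ θ.1.1 θ.1.2.1 θ.1.2.2
    (by rw [hext, θ.2.1]; simp) (by rw [hext, θ.2.2]; simp)
  have hne : ∀ θ, (E θ).Nonempty := by
    intro θ
    by_contra h
    rw [Finset.not_nonempty_iff_eq_empty] at h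
    obtain ⟨h0, h1⟩ := hy θ (p θ) fun _ _ => rfl
    obtain ⟨t0, h0⟩ := h0 (by simp [h])
    obtain ⟨t1, h1⟩ := h1 (by simp [h])
    linarith [h0 _ fun _ => rfl, h1 _ fun _ => rfl]
  obtain ⟨S, hS⟩ := zorn_subset {S : Set Θ | ∀ θ ∈ S, ∀ η ∈ S, ∀ a ∈ E θ, a ∈ E η → θ = η}
    (fun c hc hch => ⟨⋃₀ c, by
      rintro θ ⟨s, hs, hθ⟩ η ⟨t, ht, hη⟩
      rcases hch.total hs ht with h | h
      · exact hc ht θ (h hθ) η hη
      · exact hc hs θ hθ η (h hη), fun s hs => subset_sUnion_of_mem hs⟩)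
  have hSu : ¬ S.Countable := by
    intro h
    obtain ⟨g, x0, x1, h0, h1, h2⟩ := hsep (⋃ θ ∈ S, (E θ : Set ι))
      (h.biUnion fun θ _ => (E θ).countable_toSet)
    let θ : Θ := ⟨(g, x0, x1), h0, h1⟩
    have h3 : ∀ η ∈ S, ∀ a ∈ E θ, a ∉ E η := fun η hη a ha h =>
      hE θ a ha (h2 a (mem_biUnion hη h))
    have h4 : θ ∈ S := hS.2 (y := insert θ S) (by
      rintro ζ (rfl | hζ) η (rfl | hη) a ha ha'
      · rfl
      · exact (h3 η hη a ha ha').elim
      · exact (h3 ζ hζ a ha' ha).elim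
      · exact hS.1 ζ hζ η hη a ha ha') (subset_insert _ _) (mem_insert _ _)
    obtain ⟨a, ha⟩ := hne θ
    exact h3 θ h4 a ha ha
  obtain ⟨⟨n0, N⟩, hb⟩ := pigeon S hSu (fun θ => (n θ, (H θ).card)) univ countable_univ
    fun _ _ => trivial
  obtain ⟨T, c, hT, hTS, hc, hd⟩ := blocks E p Q hQc ((n0 + 1) ^ n0 + 1) N _ H hb
    (fun a => Set.Subsingleton.countable fun θ hθ η hη => hS.1 θ hθ.1.1 η hη.1.1 a hθ.2 hη.2)
    (fun θ hθ => (congrArg Prod.snd hθ.2).le) (fun θ _ => hp θ)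
  let ξ : Fin ((n0 + 1) ^ n0 + 1) → Θ := fun j => (T.equivFinOfCardEq hT).symm j
  have hξ : ∀ j, ξ j ∈ T := fun j => ((T.equivFinOfCardEq hT).symm j).2
  have hξi : ∀ j j', ξ j = ξ j' → j = j' := fun j j' h =>
    (T.equivFinOfCardEq hT).symm.injective (Subtype.ext h)
  have hn : ∀ j, n (ξ j) = n0 := fun j => congrArg Prod.fst (hTS _ (hξ j)).2
  let y : (Fin ((n0 + 1) ^ n0 + 1) → ℝ) → ι → I := fun z a =>
    if h : ∃ j, a ∈ E (ξ j) then projIcc 0 1 zero_le_one ((w0 (ξ h.choose) a : ℝ) +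
      max 0 (min 1 (z h.choose)) * (w1 (ξ h.choose) a - w0 (ξ h.choose) a)) else c a
  have yc : Continuous y := continuous_pi fun a => by
    simp only [y]
    split_ifs
    · exact continuous_projIcc.comp (by fun_prop)
    · exact continuous_const
  have yH : ∀ z j, ∀ a ∈ H (ξ j), y z a = p (ξ j) a := by
    intro z j a ha
    have : ¬ ∃ j, a ∈ E (ξ j) := by
      rintro ⟨j', hj'⟩
      by_cases h : ξ j' = ξ j
      · exact hEH _ a hj' (h ▸ ha)
      · exact (hd _ (hξ j') _ (hξ j) h a hj').2 ha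
    simp only [y, dif_neg this]
    exact hc _ (hξ j) a ha
  have yE : ∀ z j, ∀ a ∈ E (ξ j), y z a = projIcc 0 1 zero_le_one ((w0 (ξ j) a : ℝ) +
      max 0 (min 1 (z j)) * (w1 (ξ j) a - w0 (ξ j) a)) := by
    intro z j a ha
    have h : ∃ j, a ∈ E (ξ j) := ⟨j, ha⟩
    have : h.choose = j := hξi _ _ (by
      by_contra h'
      exact (hd _ (hξ _) _ (hξ j) h' a h.choose_spec).1 ha)
    simp only [y, dif_pos h, this]
  let G : K → Fin ((n0 + 1) ^ n0 + 1) → Bool := fun x j => (ξ j).1.1 x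
  have Gc : Continuous G := continuous_pi fun j => (ξ j).1.1.continuous
  let lift : ((Fin ((n0 + 1) ^ n0 + 1) → Bool) → Bool) → C(K, Bool) := fun C =>
    ⟨fun x => C (G x), continuous_of_discreteTopology.comp Gc⟩
  refine cert_false n0 (fun j d => d j) (fun C z => φ (lift C) (y z))
    (fun C => (φ _).continuous.comp yc) (fun j z hz => ?_) (fun j z hz => ?_)
  · obtain ⟨t, ht⟩ := (hy (ξ j) (y z) (yH z j)).1 fun a ha => by
      rw [yE z j a ha, max_eq_left (min_le_of_right_le hz), zero_mul, add_zero, projIcc_val]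
    refine ⟨fun l => G (t (l.cast (hn j).symm)), fun C hC => ht _ fun l => ?_⟩
    exact hC (l.cast (hn j))
  · obtain ⟨t, ht⟩ := (hy (ξ j) (y z) (yH z j)).2 fun a ha => by
      rw [yE z j a ha, min_eq_left hz, max_eq_right zero_le_one, one_mul, add_sub_cancel,
        projIcc_val]
    refine ⟨fun l => G (t (l.cast (hn j).symm)), fun C hC => ht _ fun l => ?_⟩
    exact hC (l.cast (hn j))

theorem not_temb [CompactSpace K] (e : K → ι → I)
    (hsep : ∀ A : Set ι, A.Countable → ∃ (g : C(K, Bool)) (x0 x1 : K), g x0 = false ∧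
      g x1 = true ∧ ∀ a ∈ A, e x0 a = e x1 a) : ¬ TEmb e := by
  rintro ⟨φ, hφ, hext⟩
  let lift : C(K, Bool) → C(K, ℝ) := fun g => ⟨fun x => if g x = true then 1 else 0,
    (continuous_of_discreteTopology (f := fun b : Bool => if b = true then (1 : ℝ) else 0)).comp
      g.continuous⟩
  refine core e (fun g => φ (lift g)) (fun g y => ?_) (fun g x => hext _ x) hsep
  have h1 : Continuous[cp (ι → I), _] fun f : C(ι → I, ℝ) => f y :=
    @Continuous.comp _ _ _ (cp _) Pi.topologicalSpace _ _ _ (continuous_apply y)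
      continuous_induced_dom
  have h2 : Continuous[cp K, _] fun f : C(K, ℝ) => φ f y :=
    @Continuous.comp _ _ _ (cp K) (cp _) _ _ _ h1 hφ
  have h3 : IsOpen[cp K] ((fun f : C(K, ℝ) => φ f y) ⁻¹' ball (φ (lift g) y) (1 / 8)) :=
    @IsOpen.preimage _ _ (cp K) _ _ h2 _ isOpen_ball
  obtain ⟨U, hU, hU'⟩ := h3
  have h4 : ((lift g : C(K, ℝ)) : K → ℝ) ∈ U := by
    have : lift g ∈ (fun f : C(K, ℝ) => φ f y) ⁻¹' ball (φ (lift g) y) (1 / 8) :=
      mem_ball_self (by norm_num)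
    rwa [← hU'] at this
  obtain ⟨T, u, h5, h6⟩ := isOpen_pi_iff.1 hU _ h4
  refine ⟨T, fun g' h => ?_⟩
  have : lift g' ∈ (fun f : C(K, ℝ) => φ f y) ⁻¹' ball (φ (lift g) y) (1 / 8) := by
    rw [← hU']
    refine h6 fun x hx => ?_
    have h7 := (h5 x hx).2
    simp only [lift, ContinuousMap.coe_mk] at h7 ⊢
    rwa [h x hx]
  exact this

end Pool.Agent.H15.TEmb
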