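import Mathlib
import Pool.Agent.H15.TEmb2

set_option autoImplicit false

namespace Pool.Agent.H15.TEmb
open Set Metric Filter Topology unitInterval

theorem pair_of_not_metrizable {X ι : Type*} [TopologicalSpace X] [CompactSpace X] [T2Space X]
    (e : X → ι → I) (he : Continuous e) (h : ¬ TopologicalSpace.MetrizableSpace X) (A : Set ι)
    (hA : A.Countable) : ∃ x0 x1, x0 ≠ x1 ∧ ∀ a ∈ A, e x0 a = e x1 a := by
  by_contra hn
  push Not at hn
  have : Countable A := hA.to_subtype
  have h1 : Continuous fun (x : X) (a : A) => e x a :=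
    continuous_pi fun a => (continuous_apply a.1).comp he
  have h2 : Function.Injective fun (x : X) (a : A) => e x a := by
    intro x y hxy
    by_contra h3
    obtain ⟨a, ha, h4⟩ := hn x y h3
    exact h4 (congrFun hxy ⟨a, ha⟩)
  have := (h1.isClosedEmbedding h2).isEmbedding.secondCountableTopology
  exact h inferInstance

theorem exists_sep {X : Type*} [TopologicalSpace X] [NormalSpace X] {s t : Set X}
    (hs : IsClosed s) (ht : IsClosed t) (h : Disjoint s t) :
    ∃ f : C(X, I), (∀ x ∈ s, f x = 0) ∧ ∀ x ∈ t, f x = 1 := by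
  obtain ⟨f, h0, h1, h2⟩ := exists_continuous_zero_one_of_isClosed hs ht h
  exact ⟨⟨fun x => ⟨f x, h2 x⟩, f.continuous.subtype_mk _⟩, fun x hx => Subtype.ext (h0 hx),
    fun x hx => Subtype.ext (h1 hx)⟩

theorem cube_emb (X : Type*) [TopologicalSpace X] [CompactSpace X] [T2Space X] :
    IsClosedEmbedding fun (x : X) (f : C(X, I)) => f x := by
  refine (continuous_pi fun f : C(X, I) => f.continuous).isClosedEmbedding fun x y hxy => ?_
  by_contra h
  obtain ⟨f, h0, h1⟩ := exists_sep (isClosed_singleton (x := x)) (isClosed_singleton (x := y))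
    (disjoint_singleton.2 h)
  have := congrFun hxy f
  simp only [h0 x rfl, h1 y rfl] at this
  exact zero_ne_one this

theorem metrizable_of_temb {X ι : Type*} [TopologicalSpace X] [CompactSpace X] [T2Space X]
    [TotallyDisconnectedSpace X] (e : X → ι → I) (he : Continuous e) (h : TEmb e) :
    TopologicalSpace.MetrizableSpace X := by
  by_contra hn
  refine not_temb e (fun A hA => ?_) h
  obtain ⟨x0, x1, h1, h2⟩ := pair_of_not_metrizable e he hn A hA
  obtain ⟨U, hU, h3, h4⟩ := exists_isClopen_of_totally_separated h1.symm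
  exact ⟨⟨_, (continuous_boolIndicator_iff_isClopen _).2 hU⟩, x0, x1,
    (Set.notMem_iff_boolIndicator _ _).1 h4, (Set.mem_iff_boolIndicator _ _).1 h3, h2⟩

end Pool.Agent.H15.TEmb
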