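import Mathlib
import Pool.Agent.H15.TEmb3

set_option autoImplicit false

namespace Pool.Agent.H15.TEmb
open Set Metric Filter Topology unitInterval

theorem blocksU {α ι Y : Type*} [Nonempty Y] (E : α → Finset ι) (p : α → ι → Y) (Q : Set Y)
    (hQ : Q.Countable) (S : Set α) (H : α → Finset ι) (hS : ¬ S.Countable)
    (hE : ∀ a, {ξ ∈ S | a ∈ E ξ}.Countable) (hp : ∀ ξ ∈ S, ∀ a ∈ H ξ, p ξ a ∈ Q) :
    ∃ (T : Set α) (c : ι → Y), ¬ T.Countable ∧ T ⊆ S ∧ (∀ ξ ∈ T, ∀ a ∈ H ξ, c a = p ξ a) ∧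
      ∀ ξ ∈ T, ∀ η ∈ T, ξ ≠ η → ∀ a ∈ E ξ, a ∉ E η ∧ a ∉ H η := by
  classical
  have caseB : ∀ (S : Set α) (H : α → Finset ι), ¬ S.Countable →
      (∀ a, {ξ ∈ S | a ∈ E ξ}.Countable) → (∀ a, {ξ ∈ S | a ∈ H ξ}.Countable) →
      ∃ (T : Set α) (c : ι → Y), ¬ T.Countable ∧ T ⊆ S ∧ (∀ ξ ∈ T, ∀ a ∈ H ξ, c a = p ξ a) ∧
        ∀ ξ ∈ T, ∀ η ∈ T, ξ ≠ η → ∀ a ∈ E ξ, a ∉ E η ∧ a ∉ H η := by
    intro S H hS hE hH
    obtain ⟨T, hT⟩ := zorn_subset {T : Set α | T ⊆ S ∧ ∀ ξ ∈ T, ∀ η ∈ T, ∀ a ∈ E ξ ∪ H ξ,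
        a ∈ E η ∪ H η → ξ = η} (fun c hc hch => ⟨⋃₀ c, ⟨sUnion_subset fun s hs => (hc hs).1, by
      rintro θ ⟨s, hs, hθ⟩ η ⟨t, ht, hη⟩
      rcases hch.total hs ht with h | h
      · exact (hc ht).2 θ (h hθ) η hη
      · exact (hc hs).2 θ hθ η (h hη)⟩, fun s hs => subset_sUnion_of_mem hs⟩)
    refine ⟨T, fun a => if h : ∃ ξ ∈ T, a ∈ H ξ then p h.choose a else Classical.arbitrary Y,
      fun hc => ?_, hT.1.1, fun ξ hξ a ha => ?_, fun ξ hξ η hη hne a ha => ⟨fun h => hne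
        (hT.1.2 ξ hξ η hη a (Finset.mem_union_left _ ha) (Finset.mem_union_left _ h)), fun h => hne
        (hT.1.2 ξ hξ η hη a (Finset.mem_union_left _ ha) (Finset.mem_union_right _ h))⟩⟩
    · have hb : (T ∪ ⋃ η ∈ T, ⋃ a ∈ (E η ∪ H η : Finset ι),
          ({ξ ∈ S | a ∈ E ξ} ∪ {ξ ∈ S | a ∈ H ξ})).Countable :=
        hc.union (hc.biUnion fun η _ => (Finset.countable_toSet _).biUnion fun a _ =>
          (hE a).union (hH a))
      obtain ⟨ξ, hξ, hξ'⟩ := not_subset.1 fun h => hS (hb.mono h)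
      have h6 : ∀ η ∈ T, ∀ a ∈ E η ∪ H η, a ∉ E ξ ∪ H ξ := by
        intro η hη a ha h
        refine hξ' (Or.inr (mem_biUnion hη (mem_biUnion ha ?_)))
        rcases Finset.mem_union.1 h with h | h
        · exact Or.inl ⟨hξ, h⟩
        · exact Or.inr ⟨hξ, h⟩
      refine hξ' (Or.inl (hT.2 (y := insert ξ T) ⟨insert_subset hξ hT.1.1, ?_⟩ (subset_insert _ _)
        (mem_insert _ _)))
      rintro ζ (rfl | hζ) η (rfl | hη) a ha ha'
      · rfl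
      · exact (h6 η hη a ha' ha).elim
      · exact (h6 ζ hζ a ha ha').elim
      · exact hT.1.2 ζ hζ η hη a ha ha'
    · have h : ∃ ξ ∈ T, a ∈ H ξ := ⟨ξ, hξ, ha⟩
      have : h.choose = ξ := hT.1.2 _ h.choose_spec.1 ξ hξ a
        (Finset.mem_union_right _ h.choose_spec.2) (Finset.mem_union_right _ ha)
      simp only [dif_pos h, this]
  have key : ∀ (N : ℕ) (S : Set α) (H : α → Finset ι), ¬ S.Countable →
      (∀ a, {ξ ∈ S | a ∈ E ξ}.Countable) → (∀ ξ ∈ S, (H ξ).card ≤ N) →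
      (∀ ξ ∈ S, ∀ a ∈ H ξ, p ξ a ∈ Q) →
      ∃ (T : Set α) (c : ι → Y), ¬ T.Countable ∧ T ⊆ S ∧ (∀ ξ ∈ T, ∀ a ∈ H ξ, c a = p ξ a) ∧
        ∀ ξ ∈ T, ∀ η ∈ T, ξ ≠ η → ∀ a ∈ E ξ, a ∉ E η ∧ a ∉ H η := by
    intro N
    induction N with
    | zero =>
      intro S H hS hE hN _
      refine caseB S H hS hE fun a => countable_empty.mono fun ξ hξ => ?_
      have := Finset.card_pos.2 ⟨a, hξ.2⟩
      have := hN ξ hξ.1
      omega
    | succ N ih =>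
      intro S H hS hE hN hp
      by_cases hA : ∀ a, {ξ ∈ S | a ∈ H ξ}.Countable
      · exact caseB S H hS hE hA
      obtain ⟨a, ha⟩ := not_forall.1 hA
      obtain ⟨b, hb⟩ := pigeon _ ha (fun ξ => p ξ a) Q hQ fun ξ hξ => hp ξ hξ.1 a hξ.2
      obtain ⟨T, c, h1, h2, h3, h4⟩ := ih {ξ | ξ ∈ S ∧ a ∈ H ξ ∧ p ξ a = b ∧ a ∉ E ξ}
        (fun ξ => (H ξ).erase a) (fun h => hb ((h.union (hE a)).mono fun ξ hξ => by
          by_cases h' : a ∈ E ξ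
          · exact Or.inr ⟨hξ.1.1, h'⟩
          · exact Or.inl ⟨hξ.1.1, hξ.1.2, hξ.2, h'⟩))
        (fun a' => (hE a').mono fun ξ hξ => And.intro hξ.1.1 hξ.2)
        (fun ξ hξ => by
          have := hN ξ hξ.1
          rw [Finset.card_erase_of_mem hξ.2.1]
          omega)
        (fun ξ hξ a' ha' => hp ξ hξ.1 a' (Finset.mem_of_mem_erase ha'))
      refine ⟨T, Function.update c a b, h1, fun ξ hξ => (h2 hξ).1, fun ξ hξ a' ha' => ?_,
        fun ξ hξ η hη hne a' ha' => ⟨(h4 ξ hξ η hη hne a' ha').1, fun h => ?_⟩⟩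
      · by_cases h : a' = a
        · subst h
          rw [Function.update_self, (h2 hξ).2.2.1]
        · rw [Function.update_of_ne h, h3 ξ hξ a' (Finset.mem_erase.2 ⟨h, ha'⟩)]
      · refine (h4 ξ hξ η hη hne a' ha').2 (Finset.mem_erase.2 ⟨?_, h⟩)
        rintro rfl
        exact (h2 hξ).2.2.2 ha'
  obtain ⟨N, hN⟩ := pigeon S hS (fun ξ => (H ξ).card) univ countable_univ fun _ _ => trivial
  obtain ⟨T, c, h1, h2, h3⟩ := key N _ H hN (fun a => (hE a).mono fun ξ hξ => And.intro hξ.1.1 hξ.2)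
    (fun ξ hξ => hξ.2.le) (fun ξ hξ => hp ξ hξ.1)
  exact ⟨T, c, h1, fun ξ hξ => (h2 hξ).1, h3⟩

section Refine
variable {W Θ : Type*} [TopologicalSpace W] [CompactSpace W]

def Onto (π : W → Θ → Bool) (Z : Set W) (H : Set Θ) : Prop :=
  ∀ τ : Θ → Bool, ∃ z ∈ Z, ∀ ξ ∈ H, π z ξ = τ ξ

theorem refine_cells {L : Type*} (π : W → Θ → Bool) (hπ : ∀ ξ, Continuous fun z => π z ξ)
    (i : Bool) (C : Θ → L → Set W) (hC : ∀ ξ a, IsClosed (C ξ a)) (Λ : Finset L) :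
    ∀ (Z : Set W) (H : Set Θ), IsClosed Z → ¬ H.Countable → Onto π Z H →
      (∀ ξ ∈ H, ∀ z ∈ Z, π z ξ = i → ∃ a ∈ Λ, z ∈ C ξ a) →
      ∃ (Z' : Set W) (H' : Set Θ) (a : L), a ∈ Λ ∧ Z' ⊆ Z ∧ H' ⊆ H ∧ IsClosed Z' ∧ ¬ H'.Countable ∧
        Onto π Z' H' ∧ ∀ ξ ∈ H', ∀ z ∈ Z', π z ξ = i → z ∈ C ξ a := by
  classical
  have hcl : ∀ ξ b, IsClosed {z | π z ξ = b} := fun ξ b => isClosed_eq (hπ ξ) continuous_const
  induction Λ using Finset.induction_on with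
  | empty =>
    intro Z H _ hH hO h
    obtain ⟨ξ, hξ⟩ := nonempty_iff_ne_empty.2 fun h : H = ∅ => hH (h ▸ countable_empty)
    obtain ⟨z, hz, hz'⟩ := hO fun _ => i
    obtain ⟨a, ha, -⟩ := h ξ hξ z hz (hz' ξ hξ)
    simp at ha
  | insert a Λ _ ih =>
    intro Z H hZ hH hO h
    let D : Θ → Set W := fun ξ => {z | π z ξ = i → z ∈ C ξ a}
    have hD : ∀ ξ, IsClosed (D ξ) := fun ξ =>
      isClosed_imp ((isOpen_discrete {i}).preimage (hπ ξ)) (hC ξ a)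
    have hZ' : ∀ s : Set Θ, IsClosed (Z ∩ ⋂ ξ ∈ s, D ξ) := fun s =>
      hZ.inter (isClosed_biInter fun ξ _ => hD ξ)
    obtain ⟨S, -, hS⟩ := zorn_subset_nonempty {s : Set Θ | s ⊆ H ∧ Onto π (Z ∩ ⋂ ξ ∈ s, D ξ) H}
      (fun c hc hch hne => ⟨⋃₀ c, ⟨sUnion_subset fun s hs => (hc hs).1, fun τ => by
        have : Nonempty c := hne.to_subtype
        have hk : ∀ s : c, IsClosed ((Z ∩ ⋂ ξ ∈ (s : Set Θ), D ξ) ∩ ⋂ ξ ∈ H, {z | π z ξ = τ ξ}) :=
          fun s => (hZ' s).inter (isClosed_biInter fun ξ _ => hcl ξ _)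
        obtain ⟨z, hz⟩ := IsCompact.nonempty_iInter_of_directed_nonempty_isCompact_isClosed
          (fun s : c => (Z ∩ ⋂ ξ ∈ (s : Set Θ), D ξ) ∩ ⋂ ξ ∈ H, {z | π z ξ = τ ξ}) (fun s t => by
            rcases hch.total s.2 t.2 with h | h
            · exact ⟨t, inter_subset_inter_left _ (inter_subset_inter_right _
                (biInter_subset_biInter_left h)), Subset.rfl⟩
            · exact ⟨s, Subset.rfl, inter_subset_inter_left _ (inter_subset_inter_right _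
                (biInter_subset_biInter_left h))⟩)
          (fun s => by
            obtain ⟨z, hz, hz'⟩ := (hc s.2).2 τ
            exact ⟨z, hz, mem_iInter₂.2 hz'⟩) (fun s => (hk s).isCompact) hk
        rw [mem_iInter] at hz
        obtain ⟨s0⟩ := this
        refine ⟨z, ⟨(hz s0).1.1, mem_iInter₂.2 ?_⟩, mem_iInter₂.1 (hz s0).2⟩
        rintro ξ ⟨s, hs, hξ⟩
        exact mem_iInter₂.1 (hz ⟨s, hs⟩).1.2 ξ hξ⟩, fun s hs => subset_sUnion_of_mem hs⟩)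
      ∅ ⟨empty_subset _, by simpa using hO⟩
    by_cases hSc : ¬ S.Countable
    · refine ⟨Z ∩ ⋂ ξ ∈ S, D ξ, S, a, Finset.mem_insert_self _ _, inter_subset_left, hS.1.1, hZ' S,
        hSc, fun τ => ?_, fun ξ hξ z hz => mem_iInter₂.1 hz.2 ξ hξ⟩
      obtain ⟨z, hz, hz'⟩ := hS.1.2 τ
      exact ⟨z, hz, fun ξ hξ => hz' ξ (hS.1.1 hξ)⟩
    rw [not_not] at hSc
    have key : ∀ ξ, ∃ (t : Finset Θ) (τ : Θ → Bool), ξ ∈ H \ S → (∀ b ∈ t, b ∈ H ∧ b ≠ ξ) ∧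
        ∀ z ∈ Z ∩ ⋂ ξ ∈ S, D ξ, (∀ b ∈ t, π z b = τ b) → π z ξ = i → z ∉ C ξ a := by
      intro ξ
      by_cases hξ : ξ ∉ H \ S
      · exact ⟨∅, fun _ => i, fun h => absurd h hξ⟩
      rw [not_not] at hξ
      have h1 : ¬ Onto π (Z ∩ ⋂ ζ ∈ insert ξ S, D ζ) H := fun h1 =>
        hξ.2 (hS.2 (y := insert ξ S) ⟨insert_subset hξ.1 hS.1.1, h1⟩ (subset_insert _ _)
          (mem_insert _ _))
      obtain ⟨τ, hτ⟩ := not_forall.1 h1
      obtain ⟨t, ht⟩ := (hZ' (insert ξ S)).isCompact.elim_finite_subfamily_closed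
        (fun b : H => {z | π z b = τ b}) (fun b => hcl _ _) (by
          rw [eq_empty_iff_forall_notMem]
          rintro z ⟨hz, hz'⟩
          exact hτ ⟨z, hz, fun b hb => mem_iInter.1 hz' ⟨b, hb⟩⟩)
      have hτi : τ ξ = i := by
        by_contra h2
        obtain ⟨z, hz, hz'⟩ := hS.1.2 τ
        refine hτ ⟨z, ⟨hz.1, ?_⟩, hz'⟩
        rw [biInter_insert]
        exact ⟨fun h3 => absurd ((hz' ξ hξ.1).symm.trans h3) h2, hz.2⟩
      refine ⟨(t.image Subtype.val).erase ξ, τ, fun _ => ⟨fun b hb => ?_, fun z hz h2 h3 h4 => ?_⟩⟩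
      · obtain ⟨h2, h3⟩ := Finset.mem_erase.1 hb
        obtain ⟨b', -, rfl⟩ := Finset.mem_image.1 h3
        exact ⟨b'.2, h2⟩
      · refine eq_empty_iff_forall_notMem.1 ht z ⟨⟨hz.1, ?_⟩, mem_iInter₂.2 fun b hb => ?_⟩
        · rw [biInter_insert]
          exact ⟨fun _ => h4, hz.2⟩
        · by_cases h5 : (b : Θ) = ξ
          · show π z b = τ b
            rw [h5, h3, hτi]
          · exact h2 b (Finset.mem_erase.2 ⟨h5, Finset.mem_image_of_mem _ hb⟩)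
    choose t τ ht using key
    obtain ⟨T, c, hT, hTS, hc, hd⟩ := blocksU (fun ξ : Θ => ({ξ} : Finset Θ)) τ univ countable_univ
      (H \ S) t (fun h => hH ((h.union hSc).mono (subset_sdiff_union H S)))
      (fun a => (countable_singleton a).mono fun ξ hξ => (Finset.mem_singleton.1 hξ.2).symm)
      (fun _ _ _ _ => trivial)
    obtain ⟨Z', H', b, h1, h2, h3, h4⟩ := ih
      ((Z ∩ ⋂ ξ ∈ S, D ξ) ∩ ⋂ ξ ∈ T, ⋂ b ∈ t ξ, {z | π z b = c b}) T
      ((hZ' S).inter (isClosed_biInter fun _ _ => isClosed_biInter fun _ _ => hcl _ _)) hT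
      (fun ρ => by
        obtain ⟨z, hz, hz'⟩ := hS.1.2 fun b => if b ∈ T then ρ b else c b
        refine ⟨z, ⟨hz, mem_iInter₂.2 fun ξ hξ => mem_iInter₂.2 fun b hb => ?_⟩, fun ξ hξ => ?_⟩
        · have h5 := (ht ξ (hTS hξ)).1 b hb
          have h6 : b ∉ T := fun h6 => (hd b h6 ξ hξ h5.2 b (Finset.mem_singleton_self _)).2 hb
          exact (hz' b h5.1).trans (if_neg h6)
        · exact (hz' ξ (hTS hξ).1).trans (if_pos hξ))
      (fun ξ hξ z hz hi => by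
        obtain ⟨b, hb, hb'⟩ := h ξ (hTS hξ).1 z hz.1.1 hi
        rcases Finset.mem_insert.1 hb with rfl | hb
        · refine absurd hb' ((ht ξ (hTS hξ)).2 z hz.1 (fun b' hb'' => ?_) hi)
          exact (mem_iInter₂.1 (mem_iInter₂.1 hz.2 ξ hξ) b' hb'').trans (hc ξ hξ b' hb'')
        · exact ⟨b, hb, hb'⟩)
    exact ⟨Z', H', b, Finset.mem_insert_of_mem h1, fun z hz => (h2 hz).1.1,
      fun ξ hξ => (hTS (h3 hξ)).1, h4⟩

end Refine

def Indep {X Θ : Type*} [TopologicalSpace X] (H : Set Θ) (F : Θ → Bool → Set X) : Prop :=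
  ¬ H.Countable ∧ (∀ ξ b, IsClosed (F ξ b)) ∧ (∀ ξ, Disjoint (F ξ false) (F ξ true)) ∧
    ∀ τ : Θ → Bool, ∃ x, ∀ ξ ∈ H, x ∈ F ξ (τ ξ)

theorem positions {X Θ : Type*} [TopologicalSpace X] [CompactSpace X] [T2Space X] (n : ℕ)
    (f : Θ → C(X, I)) (δ : ℝ) (hδ : 0 < δ) (P : Finset (Fin n)) :
    ∀ (Z : Set ((Θ → Bool) × (Θ → Fin n → X))) (H : Set Θ), IsClosed Z → ¬ H.Countable →
      Onto Prod.fst Z H → (∀ z ∈ Z, ∀ ξ ∈ H, ∀ η ∈ H, z.1 ξ = false → z.1 η = true →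
        ∃ l ∈ P, ∃ l', z.2 ξ l = z.2 η l' ∧ δ ≤ dist (f ξ (z.2 ξ l)) (f η (z.2 ξ l))) →
      ∃ (H' : Set Θ) (F : Θ → Bool → Set X), Indep H' F := by
  classical
  induction P using Finset.strongInduction with
  | H P ih =>
    intro Z H hZ hH hO h
    have hπ : ∀ ξ, Continuous fun z : (Θ → Bool) × (Θ → Fin n → X) => z.1 ξ := fun ξ => by fun_prop
    obtain ⟨η0, hη0⟩ := nonempty_iff_ne_empty.2 fun h : H = ∅ => hH (h ▸ countable_empty)
    obtain ⟨Z2, H2, ⟨l1, l1'⟩, h21, h22, h23, h24, h25, h26, h27⟩ := refine_cells Prod.fst hπ false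
      (fun ξ (a : Fin n × Fin n) => {z | z.2 ξ a.1 = z.2 η0 a.2})
      (fun ξ a => isClosed_eq (by fun_prop) (by fun_prop)) (P ×ˢ Finset.univ)
      (Z ∩ {z | z.1 η0 = true}) (H \ {η0}) (hZ.inter (isClosed_eq (hπ _) continuous_const))
      (fun h' => hH ((h'.union (countable_singleton η0)).mono (subset_sdiff_union H _)))
      (fun τ => by
        obtain ⟨z, hz, hz'⟩ := hO (Function.update τ η0 true)
        exact ⟨z, ⟨hz, (hz' η0 hη0).trans (Function.update_self _ _ _)⟩, fun ξ hξ =>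
          (hz' ξ hξ.1).trans (Function.update_of_ne hξ.2 _ _)⟩)
      (fun ξ hξ z hz hi => by
        obtain ⟨l, hl, l', h1, -⟩ := h z hz.1 ξ hξ.1 η0 hη0 hi hz.2
        exact ⟨(l, l'), Finset.mem_product.2 ⟨hl, Finset.mem_univ _⟩, h1⟩)
    obtain ⟨R, -, hR, hR'⟩ := finite_cover_balls_of_compact (isCompact_univ (X := I))
      (show 0 < δ / 5 by positivity)
    have hcell : ∀ (ξ : Θ) (z : (Θ → Bool) × (Θ → Fin n → X)), ∃ r ∈ hR.toFinset,
        z ∈ {z : (Θ → Bool) × (Θ → Fin n → X) | f ξ (z.2 η0 l1') ∈ closedBall r (δ / 5)} := by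
      intro ξ z
      obtain ⟨r, hr, hr'⟩ := mem_iUnion₂.1 (hR' (mem_univ (f ξ (z.2 η0 l1'))))
      exact ⟨r, hR.mem_toFinset.2 hr, ball_subset_closedBall hr'⟩
    have hcl : ∀ (ξ : Θ) (r : I), IsClosed
        {z : (Θ → Bool) × (Θ → Fin n → X) | f ξ (z.2 η0 l1') ∈ closedBall r (δ / 5)} :=
      fun ξ r => isClosed_closedBall.preimage (by fun_prop)
    obtain ⟨Z3, H3, r0, -, h32, h33, h34, h35, h36, h37⟩ := refine_cells Prod.fst hπ false _ hcl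
      hR.toFinset Z2 H2 h24 h25 h26 fun ξ _ z _ _ => hcell ξ z
    obtain ⟨Z4, H4, r1, -, h42, h43, h44, h45, h46, h47⟩ := refine_cells Prod.fst hπ true _ hcl
      hR.toFinset Z3 H3 h34 h35 h36 fun ξ _ z _ _ => hcell ξ z
    by_cases hd : Disjoint (closedBall r0 (δ / 5)) (closedBall r1 (δ / 5))
    · refine ⟨H4, fun ξ b => f ξ ⁻¹' closedBall (if b = true then r1 else r0) (δ / 5), h45,
        fun ξ b => isClosed_closedBall.preimage (f ξ).continuous, fun ξ => hd.preimage _,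
        fun τ => ?_⟩
      obtain ⟨z, hz, hz'⟩ := h46 τ
      refine ⟨z.2 η0 l1', fun ξ hξ => ?_⟩
      have h1 := hz' ξ hξ
      cases h2 : τ ξ
      · exact h37 ξ (h43 hξ) z (h42 hz) (h1.trans h2)
      · exact h47 ξ hξ z hz (h1.trans h2)
    · obtain ⟨r, hr0, hr1⟩ := not_disjoint_iff.1 hd
      refine ih (P.erase l1) (Finset.erase_ssubset (Finset.mem_product.1 h21).1) Z4 H4 h44 h45 h46
        fun z hz ξ hξ η hη h1 h2 => ?_
      obtain ⟨l, hl, l', h3, h4⟩ := h z (h22 (h32 (h42 hz))).1 ξ (h23 (h33 (h43 hξ))).1 η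
        (h23 (h33 (h43 hη))).1 h1 h2
      refine ⟨l, Finset.mem_erase.2 ⟨?_, hl⟩, l', h3, h4⟩
      rintro rfl
      have h5 : z.2 ξ l = z.2 η0 l1' := h27 ξ (h33 (h43 hξ)) z (h32 (h42 hz)) h1
      have h6 : dist (f ξ (z.2 η0 l1')) r0 ≤ δ / 5 := h37 ξ (h43 hξ) z (h42 hz) h1
      have h7 : dist (f η (z.2 η0 l1')) r1 ≤ δ / 5 := h47 η hη z hz h2
      rw [h5] at h4
      have h8 := dist_triangle4 (f ξ (z.2 η0 l1')) r0 r (f η (z.2 η0 l1'))
      have h9 := dist_triangle r r1 (f η (z.2 η0 l1'))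
      rw [mem_closedBall] at hr0 hr1
      rw [dist_comm r0 r] at h8
      rw [dist_comm r1] at h9
      linarith

theorem sep_of_indep {X Θ ι : Type*} [TopologicalSpace X] [CompactSpace X] {H : Set Θ}
    {F : Θ → Bool → Set X} (h : Indep H F) (e : X → ι → I) (he : Continuous e) :
    ∃ Y : Set X, IsClosed Y ∧ ∀ A : Set ι, A.Countable → ∃ (g : C(Y, Bool)) (x0 x1 : Y),
      g x0 = false ∧ g x1 = true ∧ ∀ a ∈ A, e x0 a = e x1 a := by
  obtain ⟨hH, hc, hd, hi⟩ := h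
  have hY : IsClosed (⋂ ξ ∈ H, F ξ false ∪ F ξ true) :=
    isClosed_biInter fun ξ _ => (hc ξ _).union (hc ξ _)
  refine ⟨_, hY, fun A hA => ?_⟩
  set Y := ⋂ ξ ∈ H, F ξ false ∪ F ξ true with hYd
  have : Countable A := hA.to_subtype
  let r : X → A → I := fun x a => e x a
  have hr : Continuous r := continuous_pi fun a => (continuous_apply a.1).comp he
  by_cases h : ∃ ξ ∈ H, ∃ x0 ∈ Y ∩ F ξ false, ∃ x1 ∈ Y ∩ F ξ true, r x0 = r x1
  · obtain ⟨ξ, hξ, x0, h0, x1, h1, h2⟩ := h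
    have h3 : IsClopen {y : Y | y.1 ∈ F ξ true} := by
      refine ⟨(hc ξ _).preimage continuous_subtype_val, ?_⟩
      have : {y : Y | y.1 ∈ F ξ true} = {y : Y | y.1 ∈ F ξ false}ᶜ := by
        ext y
        refine ⟨fun h4 h5 => disjoint_left.1 (hd ξ) h5 h4, fun h4 => ?_⟩
        exact (mem_iInter₂.1 y.2 ξ hξ).resolve_left h4
      rw [this]
      exact ((hc ξ _).preimage continuous_subtype_val).isOpen_compl
    exact ⟨⟨_, (continuous_boolIndicator_iff_isClopen _).2 h3⟩, ⟨x0, h0.1⟩, ⟨x1, h1.1⟩,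
      (Set.notMem_iff_boolIndicator _ _).1 fun h4 => disjoint_left.1 (hd ξ) h0.2 h4,
      (Set.mem_iff_boolIndicator _ _).1 h1.2, fun a ha => congrFun h2 ⟨a, ha⟩⟩
  exfalso
  have key : ∀ ξ, ∃ s : Set (Set (A → I)), ξ ∈ H →
      (s.Finite ∧ s ⊆ TopologicalSpace.countableBasis (A → I)) ∧
      (∀ x ∈ Y ∩ F ξ true, r x ∈ ⋃₀ s) ∧ ∀ x ∈ Y ∩ F ξ false, r x ∉ ⋃₀ s := by
    intro ξ
    by_cases hξ : ξ ∉ H
    · exact ⟨∅, fun h => absurd h hξ⟩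
    rw [not_not] at hξ
    have h0 : IsClosed (r '' (Y ∩ F ξ false)) := ((hY.inter (hc ξ _)).isCompact.image hr).isClosed
    obtain ⟨s, h1, h2, h3⟩ := ((hY.inter (hc ξ true)).isCompact.image hr).elim_finite_subcover_image
      (b := {u ∈ TopologicalSpace.countableBasis (A → I) | u ⊆ (r '' (Y ∩ F ξ false))ᶜ}) (c := id)
      (fun u hu => TopologicalSpace.isOpen_of_mem_countableBasis hu.1) (by
        rintro _ ⟨x1, hx1, rfl⟩
        obtain ⟨u, hu, h4, h5⟩ := (TopologicalSpace.isBasis_countableBasis _).exists_subset_of_mem_open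
          (a := r x1) (u := (r '' (Y ∩ F ξ false))ᶜ)
          (fun ⟨x0, hx0, h4⟩ => h ⟨ξ, hξ, x0, hx0, x1, hx1, h4⟩) h0.isOpen_compl
        exact mem_biUnion ⟨hu, h5⟩ h4)
    refine ⟨s, fun _ => ⟨⟨h2, fun u hu => (h1 hu).1⟩, fun x hx => ?_, fun x hx => ?_⟩⟩
    · obtain ⟨u, hu, h4⟩ := mem_iUnion₂.1 (h3 ⟨x, hx, rfl⟩)
      exact ⟨u, hu, h4⟩
    · rintro ⟨u, hu, h4⟩
      exact (h1 hu).2 h4 ⟨x, hx, rfl⟩
  choose s hs using key
  obtain ⟨b, hb⟩ := pigeon H hH s _ (countable_ofPred_finite_subset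
    (TopologicalSpace.countable_countableBasis (A → I))) fun ξ hξ => (hs ξ hξ).1
  obtain ⟨ξ, hξ, η, hη, hne⟩ := not_subsingleton_iff.1 fun h' => hb h'.countable
  classical
  obtain ⟨x, hx⟩ := hi fun ζ => decide (ζ = ξ)
  have hxY : x ∈ Y := mem_iInter₂.2 fun ζ hζ => by
    have := hx ζ hζ
    cases h4 : decide (ζ = ξ) <;> rw [h4] at this
    · exact Or.inl this
    · exact Or.inr this
  have h1 := (hs ξ hξ.1).2.1 x ⟨hxY, by simpa using hx ξ hξ.1⟩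
  have h2 := (hs η hη.1).2.2 x ⟨hxY, by simpa [hne.symm] using hx η hη.1⟩
  rw [hξ.2] at h1
  rw [hη.2] at h2
  exact h2 h1

end Pool.Agent.H15.TEmb
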