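import Mathlib
import Pool.Agent.H15.TEmb4

set_option autoImplicit false

namespace Pool.Agent.H15.TEmb
open Set Metric Filter Topology unitInterval

theorem packageA {ι J : Type*} [Countable J] (Q : Set I) (hQ : Dense Q) (F : C(ι → I, ℝ))
    (x0 x1 : ι → I) (h0 : F x0 = 0) (h1 : F x1 = 1) (C0 C1 : J → Set (ι → I))
    (hC0 : ∀ j, IsClosed (C0 j)) (hC1 : ∀ j, IsClosed (C1 j))
    (hcov : ∀ y y', F y < 1 / 8 → 7 / 8 < F y' → ∃ j, y ∈ C0 j ∧ y' ∈ C1 j) :
    ∃ (j : J) (E H : Finset ι) (p w0 w1 : ι → I), (∀ a ∈ E, x0 a ≠ x1 a) ∧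
      (∀ a ∈ E, a ∉ H) ∧ (∀ a ∈ H, p a ∈ Q) ∧ ∀ y : ι → I, (∀ a ∈ H, y a = p a) →
        ((∀ a ∈ E, y a = w0 a) → y ∈ C0 j) ∧ ((∀ a ∈ E, y a = w1 a) → y ∈ C1 j) := by
  classical
  obtain ⟨G0, u0, hu0, hG0⟩ := open_box (U := {y | F y < 1 / 8})
    (isOpen_lt F.continuous continuous_const) (x := x0) (by simp [h0])
  obtain ⟨G1, u1, hu1, hG1⟩ := open_box (U := {y | 7 / 8 < F y})
    (isOpen_lt continuous_const F.continuous) (x := x1) (by simp only [mem_ofPred_eq, h1]; norm_num)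
  have hq : ∀ a, ∃ q, x0 a = x1 a → q ∈ Q ∧ q ∈ u0 a ∧ q ∈ u1 a := by
    intro a
    by_cases h : x0 a = x1 a
    · obtain ⟨q, hq, hq'⟩ := hQ.exists_mem_open ((hu0 a).1.inter (hu1 a).1)
        ⟨x0 a, (hu0 a).2, h ▸ (hu1 a).2⟩
      exact ⟨q, fun _ => ⟨hq, hq'⟩⟩
    · exact ⟨0, fun h' => absurd h' h⟩
  choose q hq using hq
  let w0 : ι → I := fun a => if x0 a = x1 a then q a else x0 a
  let w1 : ι → I := fun a => if x0 a = x1 a then q a else x1 a
  have hw0 : ∀ a, w0 a ∈ u0 a := fun a => by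
    simp only [w0]; split_ifs with h
    · exact (hq a h).2.1
    · exact (hu0 a).2
  have hw1 : ∀ a, w1 a ∈ u1 a := fun a => by
    simp only [w1]; split_ifs with h
    · exact (hq a h).2.2
    · exact (hu1 a).2
  let G := G0 ∪ G1
  let m : (ι → I) → (ι → I) → ι → I := fun w y a => if a ∈ G then w a else y a
  have mc : ∀ w, Continuous (m w) := fun w => continuous_pi fun a => by
    simp only [m]; split_ifs <;> fun_prop
  let X : J → Set (ι → I) := fun j => m w0 ⁻¹' C0 j ∩ m w1 ⁻¹' C1 j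
  have hX : ∀ j, IsClosed (X j) := fun j =>
    ((hC0 j).preimage (mc w0)).inter ((hC1 j).preimage (mc w1))
  have hU : ⋃ n, X n = univ := by
    refine eq_univ_of_forall fun y => mem_iUnion.2 (hcov _ _ (hG0 _ fun a ha => ?_)
      (hG1 _ fun a ha => ?_))
    · simp only [m, if_pos (show a ∈ G from Finset.mem_union_left _ ha)]; exact hw0 a
    · simp only [m, if_pos (show a ∈ G from Finset.mem_union_right _ ha)]; exact hw1 a
  obtain ⟨n, y0, hy0⟩ := nonempty_interior_of_iUnion_of_closed hX hU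
  obtain ⟨F', v, hv, hF⟩ := open_box isOpen_interior hy0
  choose u hu hu' using fun a => hQ.exists_mem_open (hv a).1 ⟨_, (hv a).2⟩
  let E := G.filter fun a => x0 a ≠ x1 a
  refine ⟨n, E, (F' ∪ G) \ E, fun a => if a ∈ G then q a else u a, w0, w1,
    fun a ha => (Finset.mem_filter.1 ha).2, fun a ha h => (Finset.mem_sdiff.1 h).2 ha, ?_, ?_⟩
  · intro a ha
    simp only
    split_ifs with h
    · refine (hq a ?_).1
      by_contra h'
      exact (Finset.mem_sdiff.1 ha).2 (Finset.mem_filter.2 ⟨h, h'⟩)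
    · exact hu a
  · intro y hy
    simp only at hy
    obtain ⟨ht0, ht1⟩ := interior_subset (hF (m u y) fun a ha => by
      simp only [m]
      split_ifs with h
      · exact hu' a
      · rw [hy a (Finset.mem_sdiff.2 ⟨Finset.mem_union_left _ ha,
          fun h' => h (Finset.mem_filter.1 h').1⟩), if_neg h]
        exact hu' a)
    have key : ∀ w : ι → I, (∀ a, x0 a = x1 a → w a = q a) → (∀ a ∈ E, y a = w a) →
        m w (m u y) = y := by
      intro w hw hE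
      ext1 a
      simp only [m]
      split_ifs with h
      · by_cases h' : x0 a = x1 a
        · rw [hy a (Finset.mem_sdiff.2 ⟨Finset.mem_union_right _ h,
            fun h'' => (Finset.mem_filter.1 h'').2 h'⟩), if_pos h, hw a h']
        · exact (hE a (Finset.mem_filter.2 ⟨h, h'⟩)).symm
      · rfl
    exact ⟨fun h => key w0 (fun a h => if_pos h) h ▸ ht0, fun h => key w1 (fun a h => if_pos h) h ▸ ht1⟩

theorem cp_nhds {X Y : Type*} [TopologicalSpace X] [TopologicalSpace Y]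
    {φ : C(X, ℝ) → C(Y, ℝ)} (hφ : Continuous[cp X, cp Y] φ) (f : C(X, ℝ)) (y : Y) {ε : ℝ}
    (hε : 0 < ε) : ∃ (T : Finset X) (m : ℕ), ∀ g : C(X, ℝ),
      (∀ x ∈ T, |g x - f x| < 1 / (m + 1)) → |φ g y - φ f y| < ε := by
  have h1 : Continuous[cp Y, _] fun f : C(Y, ℝ) => f y :=
    @Continuous.comp _ _ _ (cp _) Pi.topologicalSpace _ _ _ (continuous_apply y)
      continuous_induced_dom
  have h2 : Continuous[cp X, _] fun f : C(X, ℝ) => φ f y :=
    @Continuous.comp _ _ _ (cp X) (cp _) _ _ _ h1 hφ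
  have h3 : IsOpen[cp X] ((fun f : C(X, ℝ) => φ f y) ⁻¹' ball (φ f y) ε) :=
    @IsOpen.preimage _ _ (cp X) _ _ h2 _ isOpen_ball
  obtain ⟨U, hU, hU'⟩ := h3
  have h4 : (f : X → ℝ) ∈ U := by
    have : f ∈ (fun f : C(X, ℝ) => φ f y) ⁻¹' ball (φ f y) ε := mem_ball_self hε
    rwa [← hU'] at this
  obtain ⟨T, u, h5, h6⟩ := isOpen_pi_iff.1 hU _ h4
  have h7 : ∀ᶠ m : ℕ in atTop, ∀ x ∈ T, ball (f x) (1 / (m + 1)) ⊆ u x := by
    refine (eventually_all_finset T).2 fun x hx => ?_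
    obtain ⟨r, hr, hr'⟩ := Metric.isOpen_iff.1 (h5 x hx).1 _ (h5 x hx).2
    filter_upwards [tendsto_one_div_add_atTop_nhds_zero_nat.eventually (gt_mem_nhds hr)] with m hm
    exact (ball_subset_ball hm.le).trans hr'
  obtain ⟨m, hm⟩ := h7.exists
  refine ⟨T, m, fun g h => ?_⟩
  have : g ∈ (fun f : C(X, ℝ) => φ f y) ⁻¹' ball (φ f y) ε := by
    rw [← hU']
    exact h6 fun x hx => hm x hx (h x hx)
  exact this

theorem conflict {X : Type*} [TopologicalSpace X] [T4Space X] {n : ℕ} (t t' : Fin n → X)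
    (f f' : X → ℝ) {δ : ℝ} (hδ : 0 < δ) (h : ∀ l l', t l = t' l' → |f (t l) - f' (t l)| < δ) :
    ∃ g : C(X, ℝ), (∀ l, |g (t l) - f (t l)| < δ) ∧ ∀ l, |g (t' l) - f' (t' l)| < δ := by
  classical
  have hs : (range t ∪ range t').Finite := (finite_range t).union (finite_range t')
  have := hs.to_subtype
  obtain ⟨g, hg⟩ := ContinuousMap.exists_restrict_eq hs.isClosed
    (⟨fun x : ↥(range t ∪ range t') => if x.1 ∈ range t then f x else f' x,
      continuous_of_discreteTopology⟩ : C(↥(range t ∪ range t'), ℝ))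
  have hg' : ∀ x ∈ range t ∪ range t', g x = if x ∈ range t then f x else f' x := fun x hx =>
    congrArg (fun k : C(↥(range t ∪ range t'), ℝ) => k ⟨x, hx⟩) hg
  refine ⟨g, fun l => ?_, fun l' => ?_⟩
  · rw [hg' _ (Or.inl ⟨l, rfl⟩), if_pos ⟨l, rfl⟩, sub_self, abs_zero]
    exact hδ
  · rw [hg' _ (Or.inr ⟨l', rfl⟩)]
    split_ifs with h1
    · obtain ⟨l, hl⟩ := h1
      have := h l l' hl
      rwa [hl] at this
    · rwa [sub_self, abs_zero]

theorem indep_of_temb {X ι : Type*} [TopologicalSpace X] [CompactSpace X] [T2Space X]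
    (e : X → ι → I) (he : Continuous e) (h : TEmb e) (hn : ¬ TopologicalSpace.MetrizableSpace X) :
    ∃ (H : Set (C(X, I) × X × X)) (F : C(X, I) × X × X → Bool → Set X), Indep H F := by
  classical
  obtain ⟨φ, hφ, hext⟩ := h
  obtain ⟨Q, hQc, hQ⟩ := TopologicalSpace.exists_countable_dense I
  let lift : C(X, I) → C(X, ℝ) := fun f => ⟨fun x => f x, continuous_subtype_val.comp f.continuous⟩
  let C0 : C(X, I) → ℕ × ℕ → Set (ι → I) := fun f j => {y | ∃ t : Fin j.1 → X, ∀ g : C(X, ℝ),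
    (∀ l, |g (t l) - f (t l)| < 1 / (j.2 + 1)) → φ g y ≤ 1 / 4}
  let C1 : C(X, I) → ℕ × ℕ → Set (ι → I) := fun f j => {y | ∃ t : Fin j.1 → X, ∀ g : C(X, ℝ),
    (∀ l, |g (t l) - f (t l)| < 1 / (j.2 + 1)) → 3 / 4 ≤ φ g y}
  have hop : ∀ (f : C(X, I)) (j : ℕ × ℕ) (g : C(X, ℝ)), IsOpen {z : (ι → I) × (Fin j.1 → X) |
      ∀ l, |g (z.2 l) - f (z.2 l)| < 1 / (j.2 + 1)} := by
    intro f j g
    rw [ofPred_forall]
    exact isOpen_iInter_of_finite fun l => isOpen_lt (by fun_prop) continuous_const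
  have hC0 : ∀ f j, IsClosed (C0 f j) := by
    intro f j
    have hc : IsClosed {z : (ι → I) × (Fin j.1 → X) | ∀ g : C(X, ℝ),
        (∀ l, |g (z.2 l) - f (z.2 l)| < 1 / (j.2 + 1)) → φ g z.1 ≤ 1 / 4} := by
      rw [ofPred_forall]
      exact isClosed_iInter fun g => isClosed_imp (hop f j g)
        (isClosed_le ((φ g).continuous.comp continuous_fst) continuous_const)
    convert isClosedMap_fst_of_compactSpace _ hc using 1
    ext y
    exact ⟨fun ⟨t, ht⟩ => ⟨(y, t), ht, rfl⟩, fun ⟨z, hz, h⟩ => ⟨z.2, h ▸ hz⟩⟩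
  have hC1 : ∀ f j, IsClosed (C1 f j) := by
    intro f j
    have hc : IsClosed {z : (ι → I) × (Fin j.1 → X) | ∀ g : C(X, ℝ),
        (∀ l, |g (z.2 l) - f (z.2 l)| < 1 / (j.2 + 1)) → 3 / 4 ≤ φ g z.1} := by
      rw [ofPred_forall]
      exact isClosed_iInter fun g => isClosed_imp (hop f j g)
        (isClosed_le continuous_const ((φ g).continuous.comp continuous_fst))
    convert isClosedMap_fst_of_compactSpace _ hc using 1
    ext y
    exact ⟨fun ⟨t, ht⟩ => ⟨(y, t), ht, rfl⟩, fun ⟨z, hz, h⟩ => ⟨z.2, h ▸ hz⟩⟩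
  have hcov : ∀ (f : C(X, I)) y y', φ (lift f) y < 1 / 8 → 7 / 8 < φ (lift f) y' →
      ∃ j, y ∈ C0 f j ∧ y' ∈ C1 f j := by
    intro f y y' a0 a1
    obtain ⟨T0, m0, hT0⟩ := cp_nhds hφ (lift f) y (show (0 : ℝ) < 1 / 8 by norm_num)
    obtain ⟨T1, m1, hT1⟩ := cp_nhds hφ (lift f) y' (show (0 : ℝ) < 1 / 8 by norm_num)
    have b0 : (1 : ℝ) / ((max m0 m1 : ℕ) + 1) ≤ 1 / (m0 + 1) :=
      Nat.one_div_le_one_div (le_max_left _ _)
    have b1 : (1 : ℝ) / ((max m0 m1 : ℕ) + 1) ≤ 1 / (m1 + 1) :=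
      Nat.one_div_le_one_div (le_max_right _ _)
    refine ⟨((T0 ∪ T1).card, max m0 m1), ⟨fun l => (T0 ∪ T1).equivFin.symm l, fun g h => ?_⟩,
      ⟨fun l => (T0 ∪ T1).equivFin.symm l, fun g h => ?_⟩⟩
    · have := abs_lt.1 (hT0 g fun x hx => lt_of_lt_of_le (by
        have := h ((T0 ∪ T1).equivFin ⟨x, Finset.mem_union_left _ hx⟩)
        simp only [Equiv.symm_apply_apply] at this
        exact this) b0)
      linarith [this.2]
    · have := abs_lt.1 (hT1 g fun x hx => lt_of_lt_of_le (by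
        have := h ((T0 ∪ T1).equivFin ⟨x, Finset.mem_union_right _ hx⟩)
        simp only [Equiv.symm_apply_apply] at this
        exact this) b1)
      linarith [this.1]
  let V : Set (C(X, I) × X × X) := {θ | θ.1 θ.2.1 = 0 ∧ θ.1 θ.2.2 = 1}
  have hpk : ∀ θ : C(X, I) × X × X, ∃ (j : ℕ × ℕ) (E H : Finset ι) (p w0 w1 : ι → I), θ ∈ V →
      (∀ a ∈ E, e θ.2.1 a ≠ e θ.2.2 a) ∧ (∀ a ∈ E, a ∉ H) ∧ (∀ a ∈ H, p a ∈ Q) ∧
      ∀ y : ι → I, (∀ a ∈ H, y a = p a) →
        ((∀ a ∈ E, y a = w0 a) → y ∈ C0 θ.1 j) ∧ ((∀ a ∈ E, y a = w1 a) → y ∈ C1 θ.1 j) := by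
    intro θ
    by_cases hθ : θ ∈ V
    · obtain ⟨j, E, H, p, w0, w1, h⟩ := packageA Q hQ (φ (lift θ.1)) (e θ.2.1) (e θ.2.2)
        (by rw [hext]; exact congrArg Subtype.val hθ.1) (by rw [hext]; exact congrArg Subtype.val hθ.2)
        _ _ (hC0 θ.1) (hC1 θ.1) (hcov θ.1)
      exact ⟨j, E, H, p, w0, w1, fun _ => h⟩
    · exact ⟨(0, 0), ∅, ∅, 0, 0, 0, fun h => absurd h hθ⟩
  choose j E H p w0 w1 hh using hpk
  have hne : ∀ θ ∈ V, (E θ).Nonempty := by
    intro θ hθ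
    by_contra h
    rw [Finset.not_nonempty_iff_eq_empty] at h
    obtain ⟨h0, h1⟩ := (hh θ hθ).2.2.2 (p θ) fun _ _ => rfl
    obtain ⟨t0, h0⟩ := h0 (by simp [h])
    obtain ⟨t1, h1⟩ := h1 (by simp [h])
    have b : ∀ x, |lift θ.1 x - θ.1 x| < 1 / ((j θ).2 + 1) := fun x => by
      rw [show lift θ.1 x = θ.1 x from rfl, sub_self, abs_zero]; positivity
    linarith [h0 _ fun _ => b _, h1 _ fun _ => b _]
  obtain ⟨S, hS⟩ := zorn_subset {S : Set (C(X, I) × X × X) | S ⊆ V ∧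
      ∀ θ ∈ S, ∀ η ∈ S, ∀ a ∈ E θ, a ∈ E η → θ = η}
    (fun c hc hch => ⟨⋃₀ c, ⟨sUnion_subset fun s hs => (hc hs).1, by
      rintro θ ⟨s, hs, hθ⟩ η ⟨t, ht, hη⟩
      rcases hch.total hs ht with h | h
      · exact (hc ht).2 θ (h hθ) η hη
      · exact (hc hs).2 θ hθ η (h hη)⟩, fun s hs => subset_sUnion_of_mem hs⟩)
  have hSu : ¬ S.Countable := by
    intro h
    obtain ⟨x0, x1, h1, h2⟩ := pair_of_not_metrizable e he hn (⋃ θ ∈ S, (E θ : Set ι))
      (h.biUnion fun θ _ => (E θ).countable_toSet)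
    obtain ⟨f, hf0, hf1⟩ := exists_sep (isClosed_singleton (x := x0)) (isClosed_singleton (x := x1))
      (disjoint_singleton.2 h1)
    have hθ : (f, x0, x1) ∈ V := ⟨hf0 x0 rfl, hf1 x1 rfl⟩
    have h3 : ∀ η ∈ S, ∀ a ∈ E (f, x0, x1), a ∉ E η := fun η hη a ha h =>
      (hh _ hθ).1 a ha (h2 a (mem_biUnion hη h))
    have h4 : (f, x0, x1) ∈ S := hS.2 (y := insert (f, x0, x1) S) ⟨insert_subset hθ hS.1.1, by
      rintro ζ (rfl | hζ) η (rfl | hη) a ha ha'
      · rfl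
      · exact (h3 η hη a ha ha').elim
      · exact (h3 ζ hζ a ha' ha).elim
      · exact hS.1.2 ζ hζ η hη a ha ha'⟩ (subset_insert _ _) (mem_insert _ _)
    obtain ⟨a, ha⟩ := hne _ hθ
    exact h3 _ h4 a ha ha
  obtain ⟨j0, hb⟩ := pigeon S hSu j univ countable_univ fun _ _ => trivial
  obtain ⟨T, c, hT, hTS, hc, hd⟩ := blocksU E p Q hQc _ H hb
    (fun a => Set.Subsingleton.countable fun θ hθ η hη => hS.1.2 θ hθ.1.1 η hη.1.1 a hθ.2 hη.2)
    (fun θ hθ => (hh θ (hS.1.1 hθ.1)).2.2.1)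
  have hTV : ∀ θ ∈ T, θ ∈ V := fun θ hθ => hS.1.1 (hTS hθ).1
  have hδ : (0 : ℝ) < 1 / (j0.2 + 1) := by positivity
  refine positions j0.1 Prod.fst (1 / (j0.2 + 1)) hδ Finset.univ
    {z | ∀ ξ ∈ T, ∀ η ∈ T, z.1 ξ = false → z.1 η = true → ∃ l l', z.2 ξ l = z.2 η l' ∧
      1 / (j0.2 + 1 : ℝ) ≤ dist (ξ.1 (z.2 ξ l)) (η.1 (z.2 ξ l))} T ?_ hT (fun τ => ?_)
    (fun z hz ξ hξ η hη h1 h2 => by
      obtain ⟨l, l', h3⟩ := hz ξ hξ η hη h1 h2
      exact ⟨l, Finset.mem_univ _, l', h3⟩)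
  · rw [ofPred_forall]
    refine isClosed_iInter fun ξ => ?_
    rw [ofPred_forall]
    refine isClosed_iInter fun _ => ?_
    rw [ofPred_forall]
    refine isClosed_iInter fun η => ?_
    rw [ofPred_forall]
    refine isClosed_iInter fun _ => ?_
    refine isClosed_imp ((isOpen_discrete {false}).preimage (by fun_prop))
      (isClosed_imp ((isOpen_discrete {true}).preimage (by fun_prop)) ?_)
    simp only [ofPred_exists]
    refine isClosed_iUnion_of_finite fun l => isClosed_iUnion_of_finite fun l' => ?_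
    refine IsClosed.and (isClosed_eq ?_ ?_) (isClosed_le continuous_const ?_) <;> fun_prop
  · let y : ι → I := fun a => if h : ∃ ξ ∈ T, a ∈ E ξ then
      (if τ h.choose = true then w1 h.choose a else w0 h.choose a) else c a
    have yH : ∀ ξ ∈ T, ∀ a ∈ H ξ, y a = p ξ a := by
      intro ξ hξ a ha
      have : ¬ ∃ ξ ∈ T, a ∈ E ξ := by
        rintro ⟨η, hη, h'⟩
        by_cases h : η = ξ
        · exact (hh _ (hTV η hη)).2.1 a h' (h ▸ ha)
        · exact (hd η hη ξ hξ h a h').2 ha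
      simp only [y, dif_neg this]
      exact hc ξ hξ a ha
    have yE : ∀ ξ ∈ T, ∀ a ∈ E ξ, y a = if τ ξ = true then w1 ξ a else w0 ξ a := by
      intro ξ hξ a ha
      have h : ∃ ξ ∈ T, a ∈ E ξ := ⟨ξ, hξ, ha⟩
      have : h.choose = ξ := by
        by_contra h'
        exact (hd _ h.choose_spec.1 ξ hξ h' a h.choose_spec.2).1 ha
      simp only [y, dif_pos h, this]
    have hX : Nonempty X := by
      obtain ⟨θ, -⟩ := nonempty_iff_ne_empty.2 fun h : T = ∅ => hT (h ▸ countable_empty)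
      exact ⟨θ.2.1⟩
    have key : ∀ ξ, ∃ t : Fin j0.1 → X, ξ ∈ T → ∀ g : C(X, ℝ),
        (∀ l, |g (t l) - ξ.1 (t l)| < 1 / (j0.2 + 1)) →
          (τ ξ = false → φ g y ≤ 1 / 4) ∧ (τ ξ = true → 3 / 4 ≤ φ g y) := by
      intro ξ
      by_cases hξ : ξ ∈ T
      · obtain ⟨h0, h1⟩ := (hh ξ (hTV ξ hξ)).2.2.2 y (yH ξ hξ)
        rw [(hTS hξ).2] at h0 h1
        cases hτ : τ ξ
        · obtain ⟨t, ht⟩ := h0 fun a ha => by rw [yE ξ hξ a ha, hτ]; simp
          exact ⟨t, fun _ g hg => ⟨fun _ => ht g hg, fun h => by simp at h⟩⟩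
        · obtain ⟨t, ht⟩ := h1 fun a ha => by rw [yE ξ hξ a ha, hτ]; simp
          exact ⟨t, fun _ g hg => ⟨fun h => by simp at h, fun _ => ht g hg⟩⟩
      · exact ⟨fun _ => Classical.arbitrary X, fun h => absurd h hξ⟩
    choose t ht using key
    refine ⟨(τ, t), fun ξ hξ η hη h1 h2 => ?_, fun _ _ => rfl⟩
    by_contra hc'
    push Not at hc'
    obtain ⟨g, hg0, hg1⟩ := conflict (t ξ) (t η) (fun x => ξ.1 x) (fun x => η.1 x) hδ hc'
    linarith [(ht ξ hξ g hg0).1 h1, (ht η hη g hg1).2 h2]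

theorem temb_comp {X Y Z : Type*} [TopologicalSpace X] [TopologicalSpace Y] [TopologicalSpace Z]
    {i : X → Y} {j : Y → Z} (hi : TEmb i) (hj : TEmb j) : TEmb (fun x => j (i x)) := by
  obtain ⟨φ, h1, h2⟩ := hi
  obtain ⟨ψ, h3, h4⟩ := hj
  exact ⟨fun f => ψ (φ f), @Continuous.comp _ _ _ (cp X) (cp Y) (cp Z) _ _ h3 h1,
    fun f x => by rw [h4, h2]⟩

theorem metrizable_of_hered {X ι : Type*} [TopologicalSpace X] [CompactSpace X] [T2Space X]
    (e : X → ι → I) (he : Continuous e) (h : TEmb e)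
    (h' : ∀ Y : Set X, IsClosed Y → TEmb (Subtype.val : Y → X)) :
    TopologicalSpace.MetrizableSpace X := by
  by_contra hn
  obtain ⟨H, F, hI⟩ := indep_of_temb e he h hn
  obtain ⟨Y, hY, hs⟩ := sep_of_indep hI e he
  have : CompactSpace Y := isCompact_iff_compactSpace.1 hY.isCompact
  exact not_temb _ hs (temb_comp (h' Y hY) h)

theorem compact_of_extral {X : Type} [TopologicalSpace X] [T35Space X]
    (h : ∀ (Y : Type) [TopologicalSpace Y] [T35Space Y] (j : X → Y), IsClosedEmbedding j → TEmb j) :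
    CompactSpace X := by
  classical
  by_contra hn
  have hi : IsEmbedding (stoneCechUnit : X → StoneCech X) := isEmbedding_stoneCechUnit
  obtain ⟨p, hp⟩ : ∃ p : StoneCech X, p ∉ range stoneCechUnit := by
    by_contra h'
    push Not at h'
    exact hn ⟨hi.isCompact_iff.2 (by
      rw [image_univ, eq_univ_of_forall h']; exact isCompact_univ)⟩
  let κ := Set (C(X, ℝ) × X × ℕ × ℕ)
  let _ : TopologicalSpace κ := ⊥
  have : DiscreteTopology κ := ⟨rfl⟩
  let Y : Set (StoneCech X × OnePoint κ) := {z | z.2 = OnePoint.infty → z.1 ∈ range stoneCechUnit}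
  let j : X → Y := fun x => ⟨(stoneCechUnit x, OnePoint.infty), fun _ => ⟨x, rfl⟩⟩
  have hj : IsClosedEmbedding j := by
    refine ⟨IsEmbedding.of_comp (g := fun z : Y => z.1.1) (by
      exact (hi.continuous.prodMk continuous_const).subtype_mk _) (by fun_prop) hi, ?_⟩
    have : range j = {z : Y | z.1.2 = OnePoint.infty} := by
      ext ⟨⟨a, b⟩, hz⟩
      constructor
      · rintro ⟨x, hx⟩
        exact (congrArg (fun z : Y => z.1.2) hx).symm
      · intro hb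
        obtain ⟨x, rfl⟩ := hz hb
        obtain rfl : b = OnePoint.infty := hb
        exact ⟨x, rfl⟩
    rw [this]
    exact isClosed_eq (by fun_prop) continuous_const
  obtain ⟨φ, hφ, hext⟩ := h Y j hj
  let k : κ → StoneCech X → Y := fun α a => ⟨(a, (α : OnePoint κ)), fun h => absurd h (by simp)⟩
  have hfin : ∀ (f : C(X, ℝ)) (x : X) (m : ℕ),
      {α : κ | 1 / (m + 1 : ℝ) ≤ |φ f (k α (stoneCechUnit x)) - f x|}.Finite := by
    intro f x m
    let u : OnePoint κ → Y := fun b => ⟨(stoneCechUnit x, b), fun _ => ⟨x, rfl⟩⟩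
    have hu : Continuous u := (continuous_const.prodMk continuous_id).subtype_mk _
    have h1 : IsOpen {b : OnePoint κ | |φ f (u b) - f x| < 1 / (m + 1 : ℝ)} :=
      isOpen_lt (by fun_prop) continuous_const
    have h2 := ((OnePoint.isOpen_iff_of_mem (s := {b : OnePoint κ | |φ f (u b) - f x| <
      1 / (m + 1 : ℝ)}) (by
        show |φ f (j x) - f x| < _
        rw [hext, sub_self, abs_zero]; positivity)).1 h1).2.finite_of_discrete
    refine h2.subset fun α hα h3 => ?_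
    have h4 : 1 / (m + 1 : ℝ) ≤ |φ f (k α (stoneCechUnit x)) - f x| := hα
    have h5 : |φ f (k α (stoneCechUnit x)) - f x| < 1 / (m + 1 : ℝ) := h3
    linarith
  obtain ⟨α, hα⟩ : ∃ α : κ, ∀ (f : C(X, ℝ)) (x : X) (m : ℕ),
      ¬ 1 / (m + 1 : ℝ) ≤ |φ f (k α (stoneCechUnit x)) - f x| := by
    by_contra h'
    push Not at h'
    choose en hen using fun f x m => (Set.countable_iff_exists_subset_range.1 (hfin f x m).countable)
    refine Function.cantor_surjective (fun z : C(X, ℝ) × X × ℕ × ℕ => en z.1 z.2.1 z.2.2.1 z.2.2.2)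
      fun α => ?_
    obtain ⟨f, x, m, h1⟩ := h' α
    obtain ⟨i, hi⟩ := hen f x m h1
    exact ⟨(f, x, m, i), hi⟩
  have hα' : ∀ (f : C(X, ℝ)) (x : X), φ f (k α (stoneCechUnit x)) = f x := by
    intro f x
    by_contra h'
    obtain ⟨m, hm⟩ := exists_nat_one_div_lt (abs_pos.2 (sub_ne_zero.2 h'))
    exact hα f x m hm.le
  have hk : Continuous (k α) := (continuous_id.prodMk continuous_const).subtype_mk _
  have hext' : ∀ g : C(StoneCech X, ℝ), φ (g.comp ⟨_, hi.continuous⟩) (k α p) = g p := by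
    intro g
    have := denseRange_stoneCechUnit.equalizer ((φ (g.comp ⟨_, hi.continuous⟩)).continuous.comp hk)
      g.continuous (funext fun x => hα' _ x)
    exact congrFun this p
  obtain ⟨T, m, hT⟩ := cp_nhds hφ ((0 : C(StoneCech X, ℝ)).comp ⟨_, hi.continuous⟩) (k α p) one_pos
  obtain ⟨g, hg0, hg1, -⟩ := exists_continuous_zero_one_of_isClosed
    (T.finite_toSet.image (stoneCechUnit : X → StoneCech X)).isClosed (isClosed_singleton (x := p))
    (disjoint_singleton_right.2 fun ⟨x, _, hx⟩ => hp ⟨x, hx⟩)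
  have := hT (g.comp ⟨_, hi.continuous⟩) fun x hx => by
    have h1 : g (stoneCechUnit x) = 0 := hg0 ⟨x, hx, rfl⟩
    simp only [ContinuousMap.comp_apply, ContinuousMap.coe_mk, h1, ContinuousMap.zero_apply,
      sub_self, abs_zero]
    positivity
  rw [hext', hext', hg1 rfl] at this
  simp at this

end Pool.Agent.H15.TEmb
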