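import Mathlib
import Pool.Agent.H15.TEmb5

set_option autoImplicit false

namespace Pool.Agent.H15.TEmb
open Set Metric Filter Topology

variable {X Y : Type*} [TopologicalSpace X] [TopologicalSpace Y]

theorem lin_supp (T : C(Y, ℝ) →ₗ[ℝ] C(X, ℝ)) (hT : Continuous[cp Y, cp X] T) (x : X) :
    ∃ S : Finset Y, ∀ f f' : C(Y, ℝ), (∀ y ∈ S, f y = f' y) → T f x = T f' x := by
  obtain ⟨S, m, h⟩ := cp_nhds hT 0 x one_pos
  refine ⟨S, fun f f' hf => by_contra fun h1 => ?_⟩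
  have h2 : T (f - f') x ≠ 0 := by
    rw [map_sub]; exact sub_ne_zero.2 h1
  have := h ((T (f - f') x)⁻¹ • (f - f')) fun y hy => by
    simp only [ContinuousMap.smul_apply, ContinuousMap.sub_apply, hf y hy, sub_self, smul_zero,
      ContinuousMap.zero_apply, abs_zero]
    positivity
  rw [map_smul, map_zero, ContinuousMap.smul_apply, smul_eq_mul, inv_mul_cancel₀ h2] at this
  simp at this

theorem lin_emb (T : C(Y, ℝ) →ₗ[ℝ] C(X, ℝ)) (hT : @IsInducing _ _ (cp Y) (cp X) T) (y : Y) :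
    ∃ S : Finset X, ∀ f : C(Y, ℝ), (∀ x ∈ S, T f x = 0) → f y ≠ 1 := by
  have h1 : IsOpen[cp Y] {f : C(Y, ℝ) | f y ≠ 1} :=
    ⟨{f | f y ≠ 1}, isOpen_ne_fun (continuous_apply y) continuous_const, rfl⟩
  rw [@IsInducing.eq_induced _ _ (cp Y) (cp X) _ hT] at h1
  obtain ⟨U, ⟨V, hV, rfl⟩, h2⟩ := h1
  have h3 : ((T 0 : C(X, ℝ)) : X → ℝ) ∈ V := by
    have : (0 : C(Y, ℝ)) ∈ {f : C(Y, ℝ) | f y ≠ 1} := by simp
    rwa [← h2] at this
  obtain ⟨S, u, h4, h5⟩ := isOpen_pi_iff.1 hV _ h3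
  refine ⟨S, fun f hf => ?_⟩
  have : f ∈ {f : C(Y, ℝ) | f y ≠ 1} := by
    rw [← h2]
    refine h5 fun x hx => ?_
    have := (h4 x hx).2
    rw [map_zero] at this
    show T f x ∈ u x
    rw [hf x hx]
    exact this
  exact this

theorem exists_closed {α : Type*} (a : α) (Φ : α → α → Set α) (h : ∀ a b, (Φ a b).Countable) :
    ∃ A : Set α, A.Countable ∧ a ∈ A ∧ ∀ b ∈ A, ∀ c ∈ A, Φ b c ⊆ A := by
  let s : ℕ → Set α := fun n => Nat.rec {a} (fun _ s => s ∪ ⋃ b ∈ s, ⋃ c ∈ s, Φ b c) n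
  have h1 : ∀ n, (s n).Countable := by
    intro n
    induction n with
    | zero => exact countable_singleton a
    | succ n ih => exact ih.union (ih.biUnion fun b _ => ih.biUnion fun c _ => h b c)
  have h2 : Monotone s := monotone_nat_of_le_succ fun n => subset_union_left
  refine ⟨⋃ n, s n, countable_iUnion h1, mem_iUnion.2 ⟨0, rfl⟩, fun b hb c hc d hd => ?_⟩
  obtain ⟨n, hn⟩ := mem_iUnion.1 hb
  obtain ⟨m, hm⟩ := mem_iUnion.1 hc
  exact mem_iUnion.2 ⟨max n m + 1, Or.inr (mem_iUnion₂.2 ⟨b, h2 (le_max_left _ _) hn,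
    mem_iUnion₂.2 ⟨c, h2 (le_max_right _ _) hm, hd⟩⟩)⟩

noncomputable def clip (q : ℚ × ℚ) (f : C(Y, ℝ)) : C(Y, ℝ) :=
  ⟨fun y => max 0 (min 1 (q.1 * (f y - q.2))), by fun_prop⟩

theorem exists_clip {a b : ℝ} (h : a ≠ b) : ∃ q : ℚ × ℚ, ∀ (f : C(Y, ℝ)) (y : Y),
    (f y = a → clip q f y = 0) ∧ (f y = b → clip q f y = 1) := by
  obtain ⟨q, r, h1, h2⟩ : ∃ q r : ℚ, q * (a - r) ≤ 0 ∧ 1 ≤ q * (b - r) := by
    rcases lt_or_gt_of_ne h with h | h
    · obtain ⟨r, h1, h2⟩ := exists_rat_btwn h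
      obtain ⟨q, hq⟩ := exists_rat_gt (b - r)⁻¹
      have h3 : 0 < b - r := sub_pos.2 h2
      exact ⟨q, r, mul_nonpos_of_nonneg_of_nonpos ((inv_pos.2 h3).trans hq).le (by linarith),
        by rw [inv_lt_iff_one_lt_mul₀ h3] at hq; exact hq.le⟩
    · obtain ⟨r, h1, h2⟩ := exists_rat_btwn h
      obtain ⟨q, hq⟩ := exists_rat_gt (r - b)⁻¹
      have h3 : 0 < r - b := sub_pos.2 h1
      have h4 := (inv_pos.2 h3).trans hq
      rw [inv_lt_iff_one_lt_mul₀ h3] at hq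
      refine ⟨-q, r, ?_, ?_⟩ <;> push_cast <;> nlinarith
  refine ⟨(q, r), fun f y => ⟨fun h3 => ?_, fun h3 => ?_⟩⟩
  · exact max_eq_left (min_le_of_right_le (h3 ▸ h1))
  · show max 0 (min 1 _) = (1 : ℝ)
    rw [min_eq_left (h3 ▸ h2), max_eq_right zero_le_one]

theorem exists_bump [CompletelyRegularSpace Y] (S : Finset Y) (U : Set Y) (hU : IsOpen U)
    (h : ∀ y ∈ S, y ∈ U) : ∃ e : C(Y, ℝ), (∀ y ∈ S, e y = 0) ∧ ∀ y, y ∉ U → e y = 1 := by
  choose f h1 h2 h3 using fun y : S =>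
    CompletelyRegularSpace.completely_regular y.1 Uᶜ hU.isClosed_compl (not_not.2 (h y y.2))
  refine ⟨⟨fun y => ∏ s : S, (f s y : ℝ), continuous_finsetProd _ fun s _ =>
    continuous_subtype_val.comp (h1 s)⟩, fun y hy => Finset.prod_eq_zero (Finset.mem_univ ⟨y, hy⟩)
      (by rw [h2]; rfl), fun y hy => Finset.prod_eq_one fun s _ => by rw [h3 s hy]; rfl⟩

theorem lindelof_of_lin [CompletelyRegularSpace Y] [LindelofSpace X] (T : C(Y, ℝ) →ₗ[ℝ] C(X, ℝ))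
    (hT : @IsInducing _ _ (cp Y) (cp X) T) : LindelofSpace Y := by
  classical
  refine ⟨isLindelof_of_countable_subcover fun {ι} U hU hc => ?_⟩
  choose S hS using lin_supp T
    (continuous_iff_le_induced.2 (@IsInducing.eq_induced _ _ (cp Y) (cp X) _ hT).le)
  choose i hi using fun y => mem_iUnion.1 (hc (mem_univ y))
  choose e he0 he1 using fun x => exists_bump (S x) (⋃ y ∈ S x, U (i y))
    (isOpen_biUnion fun y _ => hU _) fun y hy => mem_biUnion hy (hi y)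
  choose C hC hC' using fun (g : C(Y, ℝ)) (k : ℕ) => isLindelof_univ.elim_countable_subcover
    (fun x0 => {x | |T (g * e x0) x| < 1 / (k + 1)})
    (fun x0 => isOpen_lt (by fun_prop) continuous_const) (fun x _ => mem_iUnion.2 ⟨x, by
      show |T (g * e x) x| < _
      rw [hS x _ 0 fun y hy => by simp [he0 x y hy], map_zero, ContinuousMap.zero_apply, abs_zero]
      positivity⟩)
  obtain ⟨A, hA, h1, h2⟩ := exists_closed (1 : C(Y, ℝ))
    (fun f g => insert (f * g) (range (fun q => clip q f) ∪ ⋃ k, e '' C f k))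
    fun f g => ((countable_range _).union (countable_iUnion fun k => (hC f k).image _)).insert _
  refine ⟨⋃ g ∈ A, ⋃ k, ⋃ x ∈ C g k, i '' S x, hA.biUnion fun g _ => countable_iUnion fun k =>
    (hC g k).biUnion fun x _ => (S x).countable_toSet.image _, fun y _ => by_contra fun hy => ?_⟩
  have h3 : ∀ F : Finset Y, ∃ g ∈ A, g y = 1 ∧ ∀ s ∈ F, g s = 0 ∨ ∀ f ∈ A, f s = f y := by
    intro F
    induction F using Finset.induction_on with
    | empty => exact ⟨1, h1, rfl, by simp⟩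
    | insert s F _ ih =>
      obtain ⟨g, h3, h4, h5⟩ := ih
      by_cases h6 : ∀ f ∈ A, f s = f y
      · exact ⟨g, h3, h4, Finset.forall_mem_insert _ _ _ |>.2 ⟨Or.inr h6, h5⟩⟩
      · push Not at h6
        obtain ⟨f, h6, h7⟩ := h6
        obtain ⟨q, hq⟩ := exists_clip (Y := Y) h7
        refine ⟨g * clip q f, h2 g h3 _ (h2 f h6 f h6 (Or.inr (Or.inl ⟨q, rfl⟩))) (Or.inl rfl),
          by simp [h4, (hq f y).2 rfl], Finset.forall_mem_insert _ _ _ |>.2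
            ⟨Or.inl (by simp [(hq f s).1 rfl]), fun t ht => (h5 t ht).imp_left fun h8 => by simp [h8]⟩⟩
  obtain ⟨Z, hZ⟩ := lin_emb T hT y
  obtain ⟨g, h4, h5, h6⟩ := h3 (Z.biUnion S)
  refine hZ g (fun x hx => by_contra fun h7 => ?_) h5
  obtain ⟨k, hk⟩ := exists_nat_one_div_lt (abs_pos.2 h7)
  obtain ⟨x0, h8, h9⟩ := mem_iUnion₂.1 (hC' g k (mem_univ x))
  have h10 : e x0 y = 1 := he1 x0 y fun h10 => by
    obtain ⟨s, h11, h12⟩ := mem_iUnion₂.1 h10
    exact hy (mem_biUnion (mem_biUnion h4 (mem_iUnion.2 ⟨k, mem_biUnion h8 ⟨s, h11, rfl⟩⟩)) h12)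
  rw [mem_ofPred_eq, hS x _ g fun s hs => by
    rcases h6 s (Finset.mem_biUnion.2 ⟨x, hx, hs⟩) with h11 | h11
    · simp [h11]
    · simp [h11 _ (h2 g h4 g h4 (Or.inr (Or.inr (mem_iUnion.2 ⟨k, x0, h8, rfl⟩)))), h10]] at h9
  exact lt_asymm hk h9

end Pool.Agent.H15.TEmb
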