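import Mathlib
import Pool.Agent.H15.Lin1

set_option autoImplicit false

namespace Pool.Agent.H15.TEmb
open Set Metric Filter Topology Cardinal

theorem small_bU {α ι : Type} {κ : Cardinal} (hκ : aleph0 ≤ κ) {s : Set ι} {A : ι → Set α}
    (hs : Cardinal.mk s ≤ κ) (h : ∀ i ∈ s, Cardinal.mk (A i) ≤ κ) :
    Cardinal.mk (⋃ i ∈ s, A i : Set α) ≤ κ :=
  (mk_biUnion_le A s).trans ((mul_le_mul' hs (ciSup_le' fun i : s => h i i.2)).trans (mul_eq_self hκ).le)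

theorem small_un {α : Type} {κ : Cardinal} (hκ : aleph0 ≤ κ) {s t : Set α}
    (hs : Cardinal.mk s ≤ κ) (ht : Cardinal.mk t ≤ κ) : Cardinal.mk (s ∪ t : Set α) ≤ κ :=
  (mk_union_le s t).trans (add_le_of_le hκ hs ht)

theorem pigeonK {α β : Type} [Countable β] {κ : Cardinal} (hκ : aleph0 ≤ κ) {s : Set α}
    (hs : ¬ Cardinal.mk s ≤ κ) (f : α → β) : ∃ b, ¬ Cardinal.mk {a ∈ s | f a = b} ≤ κ := by
  by_contra h
  push Not at h
  refine hs ((mk_le_mk_of_subset fun a ha => ?_).trans (small_bU hκ (s := univ)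
    (mk_le_aleph0.trans hκ) fun b _ => h b))
  exact mem_biUnion (mem_univ (f a)) ⟨ha, rfl⟩

variable {X Y : Type} [TopologicalSpace X] [TopologicalSpace Y]

theorem ext_disc [NormalSpace Y] {D : Set Y} (hD : IsClosed D) (hD' : IsDiscrete D) (h : Y → ℝ) :
    ∃ f : C(Y, ℝ), ∀ d ∈ D, f d = h d := by
  have := hD'.to_subtype
  obtain ⟨g, hg⟩ := ContinuousMap.exists_restrict_eq hD
    (⟨fun x : D => h x, continuous_of_discreteTopology⟩ : C(D, ℝ))
  exact ⟨g, fun d hd => congrArg (fun k : C(D, ℝ) => k ⟨d, hd⟩) hg⟩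

theorem sep1 [T4Space Y] {κ : Cardinal} (hκ : aleph0 ≤ κ) {D D' : Set Y} (hD : IsClosed D)
    (hD' : IsDiscrete D) (h1 : D' ⊆ D) (h2 : ¬ Cardinal.mk D' ≤ κ) (e : Y → Y) (he : ∀ d, e d ≠ d) :
    ∃ D2 ⊆ D', ¬ Cardinal.mk D2 ≤ κ ∧ ∃ g : C(Y, ℝ), ∀ d ∈ D2, g d = 1 ∧ g (e d) = 0 := by
  classical
  by_contra H
  have hA : ∀ f : C(Y, ℝ), Cardinal.mk {d ∈ D' | f (e d) ≠ f d} ≤ κ := by
    intro f
    by_contra h3
    have h4 : ∀ d, ∃ q : ℚ × ℚ, f (e d) ≠ f d → clip q f d = 1 ∧ clip q f (e d) = 0 := by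
      intro d
      by_cases h4 : f (e d) = f d
      · exact ⟨0, fun h => absurd h4 h⟩
      · obtain ⟨q, hq⟩ := exists_clip (Y := Y) h4
        exact ⟨q, fun _ => ⟨(hq f d).2 rfl, (hq f (e d)).1 rfl⟩⟩
    choose q hq using h4
    obtain ⟨b, hb⟩ := pigeonK hκ h3 q
    exact H ⟨_, fun d hd => hd.1.1, hb, clip b f, fun d hd => hd.2 ▸ hq d hd.1.2⟩
  have hC : ∀ D2 ⊆ D', ¬ Cardinal.mk D2 ≤ κ → ∃ d ∈ D2, ∃ A ⊆ D2, d ∉ A ∧ Cardinal.mk A ≤ κ ∧
      d ∈ closure (e '' A) := by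
    intro D2 h3 h4
    obtain ⟨d, h5, h6⟩ : ∃ d ∈ D2, d ∈ closure (e '' D2) := by
      by_contra h5
      obtain ⟨g, h6, h7, -⟩ := exists_continuous_zero_one_of_isClosed isClosed_closure
        (isClosed_of_subset_discrete_closed (h3.trans h1) hD' hD)
        (disjoint_right.2 fun d hd h6 => h5 ⟨d, hd, h6⟩)
      exact H ⟨D2, h3, h4, g, fun d hd => ⟨h7 hd, h6 (subset_closure ⟨d, hd, rfl⟩)⟩⟩
    obtain ⟨f, hf⟩ := ext_disc hD hD' fun y => if y = d then 0 else 1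
    refine ⟨d, h5, {a ∈ D2 | a ≠ d ∧ f (e a) ≠ f a}, fun a ha => ha.1, fun h => h.2.1 rfl,
      le_trans (mk_le_mk_of_subset fun a ha => And.intro (h3 ha.1) ha.2.2) (hA f), ?_⟩
    have h7 : e '' D2 ⊆ closure (e '' {a ∈ D2 | a ≠ d ∧ f (e a) ≠ f a}) ∪ ({e d} ∪ {y | f y = 1}) := by
      rintro _ ⟨a, ha, rfl⟩
      by_cases h7 : a = d
      · exact Or.inr (Or.inl (h7 ▸ rfl))
      · by_cases h8 : f (e a) = f a
        · exact Or.inr (Or.inr (h8.trans ((hf a (h1 (h3 ha))).trans (if_neg h7))))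
        · exact Or.inl (subset_closure ⟨a, ⟨ha, h7, h8⟩, rfl⟩)
    rcases closure_minimal h7 (isClosed_closure.union (isClosed_singleton.union
      (isClosed_eq f.continuous continuous_const))) h6 with h8 | h8 | h8
    · exact h8
    · exact absurd h8.symm (he d)
    · have := hf d (h1 (h3 h5))
      rw [if_pos rfl, show f d = 1 from h8] at this
      exact absurd this one_ne_zero
  obtain ⟨M, hM⟩ := zorn_subset {M : Set (Y × Set Y) | (∀ m ∈ M, m.1 ∈ D' ∧ m.2 ⊆ D' ∧ m.1 ∉ m.2 ∧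
      Cardinal.mk m.2 ≤ κ ∧ m.1 ∈ closure (e '' m.2)) ∧
      ∀ m ∈ M, ∀ m' ∈ M, ∀ a ∈ insert m.1 m.2, a ∈ insert m'.1 m'.2 → m = m'}
    (fun c hc hch => ⟨⋃₀ c, ⟨fun m ⟨s, hs, hm⟩ => (hc hs).1 m hm, by
      rintro θ ⟨s, hs, hθ⟩ η ⟨t, ht, hη⟩
      rcases hch.total hs ht with h | h
      · exact (hc ht).2 θ (h hθ) η hη
      · exact (hc hs).2 θ hθ η (h hη)⟩, fun s hs => subset_sUnion_of_mem hs⟩)
  have hMb : ¬ Cardinal.mk M ≤ κ := by
    intro h3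
    have h4 := small_bU hκ (A := fun m : Y × Set Y => insert m.1 m.2) h3 fun m hm =>
      small_un hκ (s := {m.1}) (mk_le_aleph0.trans hκ) (hM.1.1 m hm).2.2.2.1
    obtain ⟨d, h5, A, h6, h7⟩ := hC (D' \ ⋃ m ∈ M, insert m.1 m.2) sdiff_subset fun h5 =>
      h2 ((mk_le_mk_of_subset (subset_sdiff_union _ _)).trans (small_un hκ h5 h4))
    have h8 : ∀ m ∈ M, ∀ a ∈ insert d A, a ∉ insert m.1 m.2 := fun m hm a ha h8 =>
      (insert_subset h5 h6 ha).2 (mem_biUnion hm h8)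
    refine h8 (d, A) (hM.2 (y := insert (d, A) M) ⟨?_, ?_⟩ (subset_insert _ _) (mem_insert _ _)) d
      (mem_insert _ _) (mem_insert _ _)
    · rintro m (rfl | hm)
      · exact ⟨h5.1, fun a ha => (h6 ha).1, h7⟩
      · exact hM.1.1 m hm
    · rintro ζ (rfl | hζ) η (rfl | hη) a ha ha'
      · rfl
      · exact (h8 η hη a ha ha').elim
      · exact (h8 ζ hζ a ha' ha).elim
      · exact hM.1.2 ζ hζ η hη a ha ha'
  obtain ⟨f, hf⟩ := ext_disc hD hD' fun y => if y ∈ Prod.fst '' M then 0 else 1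
  obtain ⟨m, hm, h3⟩ : ∃ m ∈ M, ∀ a ∈ m.2, f (e a) = f a := by
    by_contra h3
    push Not at h3
    refine hMb ((mk_le_mk_of_subset fun m hm => ?_).trans (small_bU hκ
      (A := fun a => {m ∈ M | a ∈ m.2}) (hA f) fun a _ => le_trans (Set.Countable.le_aleph0
        (Set.Subsingleton.countable fun m hm m' hm' =>
          hM.1.2 m hm.1 m' hm'.1 a (Or.inr hm.2) (Or.inr hm'.2))) hκ))
    obtain ⟨a, h4, h5⟩ := h3 m hm
    exact mem_biUnion (show a ∈ {d ∈ D' | f (e d) ≠ f d} from ⟨(hM.1.1 m hm).2.1 h4, h5⟩) ⟨hm, h4⟩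
  obtain ⟨h4, h5, h6, -, h7⟩ := hM.1.1 m hm
  have h8 : f m.1 = 1 := closure_minimal (t := {y | f y = 1}) (by
    rintro _ ⟨a, ha, rfl⟩
    refine (h3 a ha).trans ((hf a (h1 (h5 ha))).trans (if_neg ?_))
    rintro ⟨m', h8, rfl⟩
    exact h6 (hM.1.2 m hm m' h8 _ (Or.inr ha) (Or.inl rfl) ▸ ha))
    (isClosed_eq f.continuous continuous_const) h7
  have := hf m.1 (h1 h4)
  rw [if_pos ⟨m, hm, rfl⟩, h8] at this
  exact one_ne_zero this

theorem sepN [T4Space Y] {κ : Cardinal} (hκ : aleph0 ≤ κ) {D : Set Y} (hD : IsClosed D)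
    (hD' : IsDiscrete D) (N : ℕ) : ∀ D' ⊆ D, ¬ Cardinal.mk D' ≤ κ → ∀ F : Y → Finset Y,
      (∀ d, d ∉ F d) → (∀ d ∈ D', (F d).card = N) → ∃ D2 ⊆ D', ¬ Cardinal.mk D2 ≤ κ ∧
        ∃ g : C(Y, ℝ), ∀ d ∈ D2, g d = 1 ∧ ∀ y ∈ F d, g y = 0 := by
  classical
  induction N with
  | zero =>
    exact fun D' _ h2 F _ h4 => ⟨D', Subset.rfl, h2, 1, fun d hd => ⟨rfl, by
      simp [Finset.card_eq_zero.1 (h4 d hd)]⟩⟩
  | succ N ih =>
    intro D' h1 h2 F h3 h4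
    have : Nontrivial Y := by
      by_contra h
      have := not_nontrivial_iff_subsingleton.1 h
      exact h2 (mk_le_aleph0.trans hκ)
    have h5 : ∀ d, ∃ y, y ≠ d ∧ (d ∈ D' → y ∈ F d) := by
      intro d
      by_cases h5 : d ∈ D'
      · obtain ⟨y, hy⟩ := Finset.card_pos.1 (show 0 < (F d).card by rw [h4 d h5]; omega)
        exact ⟨y, fun h => h3 d (by rwa [h] at hy), fun _ => hy⟩
      · obtain ⟨y, hy⟩ := exists_ne d
        exact ⟨y, hy, fun h => absurd h h5⟩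
    choose e he he' using h5
    obtain ⟨D2, h6, h7, g, hg⟩ := sep1 hκ hD hD' h1 h2 e he
    obtain ⟨D3, h8, h9, g', hg'⟩ := ih D2 (h6.trans h1) h7 (fun d => (F d).erase (e d))
      (fun d h => h3 d (Finset.mem_of_mem_erase h)) fun d hd => by
        rw [Finset.card_erase_of_mem (he' d (h6 hd)), h4 d (h6 hd)]; rfl
    refine ⟨D3, h8.trans h6, h9, g * g', fun d hd => ⟨by simp [(hg d (h8 hd)).1, (hg' d hd).1],
      fun y hy => ?_⟩⟩
    by_cases h10 : y = e d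
    · simp [h10, (hg d (h8 hd)).2]
    · simp [(hg' d hd).2 y (Finset.mem_erase.2 ⟨h10, hy⟩)]

theorem extent_of_lin [T4Space Y] [T1Space X] (T : C(Y, ℝ) →ₗ[ℝ] C(X, ℝ))
    (hT : @IsInducing _ _ (cp Y) (cp X) T) {κ : Cardinal} (hκ : aleph0 ≤ κ)
    (h : ∀ E : Set X, IsClosed E → IsDiscrete E → Cardinal.mk E ≤ κ) {D : Set Y} (hD : IsClosed D)
    (hD' : IsDiscrete D) : Cardinal.mk D ≤ κ := by
  classical
  by_contra h1
  choose S hS using lin_supp T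
    (continuous_iff_le_induced.2 (@IsInducing.eq_induced _ _ (cp Y) (cp X) _ hT).le)
  choose Z hZ using lin_emb T hT
  obtain ⟨N, hN⟩ := pigeonK hκ h1 fun d => (((Z d).biUnion S).erase d).card
  obtain ⟨D2, h2, h3, g, hg⟩ := sepN hκ hD hD' N _ (fun d hd => hd.1) hN
    (fun d => ((Z d).biUnion S).erase d) (fun d => Finset.notMem_erase _ _) fun d hd => hd.2
  have h4 : ∀ d : D2, ∃ x ∈ Z d, T g x ≠ 0 := fun d => by
    by_contra h4
    push Not at h4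
    exact hZ d g h4 (hg d d.2).1
  choose x hx hx' using h4
  have h5 : ∀ p, ∃ W ∈ 𝓝 p, {d : D2 | x d ∈ W}.Finite := by
    intro p
    obtain ⟨f, hf⟩ := ext_disc hD hD' fun y => if h : y ∈ D2 then (T g (x ⟨y, h⟩))⁻¹ else 0
    obtain ⟨u, hu0, hu1, -⟩ := exists_continuous_zero_one_of_isClosed (S p).finite_toSet.isClosed
      (isClosed_of_subset_discrete_closed (s := D \ S p) sdiff_subset hD' hD) disjoint_sdiff_right
    refine ⟨{w | T (f * u * g) w < 1}, (isOpen_lt (T _).continuous continuous_const).mem_nhds ?_,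
      ((S p).finite_toSet.preimage Subtype.val_injective.injOn).subset fun d hd => by_contra fun h5 => ?_⟩
    · show T (f * u * g) p < 1
      rw [hS p _ 0 fun y hy => by simp [show u y = 0 from hu0 hy], map_zero]
      simp
    · have h6 : T (f * u * g) (x d) < 1 := hd
      rw [hS _ _ (f d • g) fun y hy => by
        by_cases h7 : y = d
        · simp [h7, show u d = 1 from hu1 ⟨(h2 d.2).1, h5⟩]
        · simp [(hg d d.2).2 y (Finset.mem_erase.2 ⟨h7, Finset.mem_biUnion.2 ⟨_, hx d, hy⟩⟩)],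
        map_smul, ContinuousMap.smul_apply, hf d (h2 d.2).1, dif_pos d.2, smul_eq_mul,
        inv_mul_cancel₀ (hx' d)] at h6
      exact lt_irrefl _ h6
  obtain ⟨h6, h7⟩ : IsClosed (range x) ∧ IsDiscrete (range x) := by
    refine isClosed_and_discrete_iff.2 fun p => disjoint_principal_right.2 ?_
    obtain ⟨W, h6, h7⟩ := h5 p
    have h8 : (x '' {d | x d ∈ W} \ {p})ᶜ ∈ 𝓝 p :=
      ((h7.image x).subset sdiff_subset).isClosed.isOpen_compl.mem_nhds fun h => h.2 rfl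
    filter_upwards [mem_nhdsWithin_of_mem_nhds h6, mem_nhdsWithin_of_mem_nhds h8,
      self_mem_nhdsWithin] with w h9 h10 h11
    rintro ⟨d, rfl⟩
    exact h10 ⟨⟨d, h9, rfl⟩, h11⟩
  refine h3 (le_trans ?_ (small_bU hκ (A := fun p => {d : D2 | x d = p}) (h _ h6 h7) fun p _ => ?_))
  · rw [← mk_univ]
    exact mk_le_mk_of_subset fun d _ => mem_biUnion ⟨d, rfl⟩ rfl
  · obtain ⟨W, h8, h9⟩ := h5 p
    exact (h9.subset fun d hd => by
      rw [mem_ofPred_eq, show x d = p from hd]; exact mem_of_mem_nhds h8).countable.le_aleph0.trans hκ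

end Pool.Agent.H15.TEmb
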