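import Mathlib

set_option autoImplicit false

namespace Pool.Agent.H15.Psc
open Cardinal Finsupp Function

abbrev T := AddCircle (1 : ℝ)
abbrev Q := ℚ × AddCircle (1 : ℚ)

/-- divisible groups -/
def Dv (D : Type) [AddCommGroup D] : Prop := ∀ n : ℤ, n ≠ 0 → ∀ x : D, ∃ y, n • y = x

lemma dvT : Dv T := fun n hn x => ⟨DivisibleBy.div x n, DivisibleBy.div_cancel x hn⟩

lemma dvQ : Dv Q := by
  rintro n hn ⟨a, b⟩
  obtain ⟨b, rfl⟩ := QuotientAddGroup.mk_surjective b
  have : (n : ℚ) ≠ 0 := by exact_mod_cast hn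
  refine ⟨(a / n, ((b / n : ℚ) : AddCircle (1 : ℚ))), Prod.ext ?_ ?_⟩
  · simp only [Prod.smul_fst, zsmul_eq_mul]; field_simp
  · simp only [Prod.smul_snd, ← AddCircle.coe_zsmul, zsmul_eq_mul]
    congr 1; field_simp

lemma Dv.finsupp {D : Type} [AddCommGroup D] (h : Dv D) (Ξ : Type) : Dv (Ξ →₀ D) := by
  classical
  intro n hn x
  choose f hf using h n hn
  refine ⟨x.mapRange (fun d => if d = 0 then 0 else f d) (by simp), ?_⟩
  ext ξ
  simp only [Finsupp.smul_apply, mapRange_apply]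
  split_ifs with h0
  · simp [h0]
  · exact hf _

instance : Countable Q := by
  have : Countable (AddCircle (1 : ℚ)) := QuotientAddGroup.mk_surjective.countable
  infer_instance

variable {F M D G Ξ B : Type} [AddCommGroup F] [AddCommGroup M] [AddCommGroup D] [AddCommGroup G]

lemma ext0 (hD : Dv D) (f : F →+ M) (h : F →+ D) (H : ∀ z, f z = 0 → h z = 0) :
    ∃ θ : M →+ D, ∀ z, θ (f z) = h z := by
  let : DivisibleBy D ℤ := divisibleByOfSMulRightSurj D ℤ fun {n} hn x => hD n hn x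
  obtain ⟨θ, hθ⟩ := (Module.Baer.of_divisible D).extension_property_addMonoidHom
    (QuotientAddGroup.kerLift f) (QuotientAddGroup.kerLift_injective f)
    (QuotientAddGroup.lift f.ker h fun z hz => H z hz)
  exact ⟨θ, fun z => by simpa using DFunLike.congr_fun hθ (z : F ⧸ f.ker)⟩

lemma ext1 (hD : Dv D) (x : M) (y : D) (H : ∀ k : ℤ, k • x = 0 → k • y = 0) :
    ∃ θ : M →+ D, θ x = y := by
  obtain ⟨θ, hθ⟩ := ext0 hD (zmultiplesHom M x) (zmultiplesHom D y) (by simpa using H)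
  exact ⟨θ, by simpa using hθ 1⟩

/-- an element of each order -/
noncomputable def tq (m : ℕ) : Q := if m = 0 then (1, 0) else (0, ((1 / m : ℚ) : AddCircle (1 : ℚ)))

lemma ord_tq (m : ℕ) : addOrderOf (tq m) = m := by
  unfold tq
  split_ifs with h
  · rw [h, addOrderOf_eq_zero_iff']
    intro n hn h
    have := congrArg Prod.fst h
    simp at this
    omega
  · rw [Prod.addOrderOf_mk, addOrderOf_zero, AddCircle.addOrderOf_period_div (Nat.pos_of_ne_zero h)]
    simp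

lemma tq_zsmul (m : ℕ) (k : ℤ) : k • tq m = 0 ↔ (m : ℤ) ∣ k := by
  rw [← addOrderOf_dvd_iff_zsmul_eq_zero, ord_tq]

lemma tq_iff (x : G) (k : ℤ) : k • tq (addOrderOf x) = 0 ↔ k • x = 0 := by
  rw [tq_zsmul, addOrderOf_dvd_iff_zsmul_eq_zero]

/-- a character taking a value of norm at least 1/4 -/
lemma exists_char {x : M} (hx : x ≠ 0) : ∃ θ : M →+ T, 1 / 4 ≤ ‖θ x‖ := by
  by_cases h0 : addOrderOf x = 0
  · obtain ⟨θ, hθ⟩ := ext1 dvT x ((1 / 2 : ℝ) : T) fun k hk => by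
      rw [← addOrderOf_dvd_iff_zsmul_eq_zero, h0] at hk
      simp at hk
      simp [hk]
    refine ⟨θ, ?_⟩
    rw [hθ, (AddCircle.norm_coe_eq_abs_iff 1 one_ne_zero).2 (by norm_num [abs_of_pos])]
    norm_num [abs_of_pos]
  · set m := addOrderOf x with hm
    have h1 : m ≠ 1 := fun h => hx (AddMonoid.addOrderOf_eq_one_iff.1 h)
    have h2 : 2 ≤ m := by omega
    have hp : (0 : ℝ) < m := by exact_mod_cast (by omega : 0 < m)
    have a1 : 2 * ((m / 2 : ℕ) : ℝ) ≤ m := by exact_mod_cast (by omega : 2 * (m / 2) ≤ m)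
    have a2 : (m : ℝ) ≤ 4 * ((m / 2 : ℕ) : ℝ) := by exact_mod_cast (by omega : m ≤ 4 * (m / 2))
    obtain ⟨θ, hθ⟩ := ext1 dvT x ((((m / 2 : ℕ) : ℝ) / m : ℝ) : T) fun k hk => by
      rw [← addOrderOf_dvd_iff_zsmul_eq_zero] at hk
      obtain ⟨r, rfl⟩ := hk
      rw [← AddCircle.coe_zsmul, AddCircle.coe_eq_zero_iff]
      refine ⟨r * (m / 2 : ℕ), ?_⟩
      simp only [zsmul_eq_mul, mul_one, ← hm]
      generalize (m / 2 : ℕ) = a
      push_cast
      field_simp
    refine ⟨θ, ?_⟩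
    have a3 : 0 ≤ ((m / 2 : ℕ) : ℝ) / m := by positivity
    rw [hθ, (AddCircle.norm_coe_eq_abs_iff 1 one_ne_zero).2, abs_of_nonneg a3, le_div_iff₀ hp]
    · linarith
    · rw [abs_of_nonneg a3, abs_one, div_le_iff₀ hp]; linarith

lemma exists_char' {x : M} (hx : x ≠ 0) : ∃ θ : M →+ T, θ x ≠ 0 := by
  obtain ⟨θ, h⟩ := exists_char hx
  exact ⟨θ, fun h0 => by rw [h0, norm_zero] at h; norm_num at h⟩

/-- independent families -/
def Ind (g : Ξ → G) : Prop := ∀ l : Ξ →₀ ℤ, linearCombination ℤ g l = 0 → ∀ ξ, l ξ • g ξ = 0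

/-- the span is essential -/
def Ess (g : Ξ → G) : Prop :=
  ∀ x : G, x ≠ 0 → ∃ (k : ℤ) (l : Ξ →₀ ℤ), k • x ≠ 0 ∧ linearCombination ℤ g l = k • x

lemma embQ {g : Ξ → G} (h1 : Ind g) (h2 : Ess g) : ∃ ρ : G →+ (Ξ →₀ Q), Injective ρ ∧
    ∀ ξ, ρ (g ξ) = single ξ (tq (addOrderOf (g ξ))) := by
  classical
  let h : (Ξ →₀ ℤ) →ₗ[ℤ] (Ξ →₀ Q) := linearCombination ℤ fun ξ => single ξ (tq (addOrderOf (g ξ)))
  have hh : ∀ l ξ, h l ξ = l ξ • tq (addOrderOf (g ξ)) := fun l ξ => by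
    simp only [h, linearCombination_apply, Finsupp.sum, Finsupp.finsetSum_apply, smul_single,
      single_apply, Finset.sum_ite_eq', mem_support_iff]
    split_ifs with h0
    · rfl
    · rw [not_not.1 h0, zero_smul]
  obtain ⟨ρ, hρ⟩ := ext0 (dvQ.finsupp Ξ) (linearCombination ℤ g).toAddMonoidHom h.toAddMonoidHom
    fun l hl => by
      ext1 ξ
      exact (hh l ξ).trans ((tq_iff _ _).2 (h1 l hl ξ))
  refine ⟨ρ, (injective_iff_map_eq_zero ρ).2 fun x hx => ?_, fun ξ => ?_⟩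
  · by_contra h0
    obtain ⟨k, l, hk, hl⟩ := h2 x h0
    have e : h l = 0 := by
      rw [← show ρ (linearCombination ℤ g l) = h l from hρ l, hl, map_zsmul, hx, smul_zero]
    refine hk (hl ▸ ?_)
    rw [linearCombination_apply]
    exact Finset.sum_eq_zero fun ξ _ => (tq_iff _ _).1 (by rw [← hh, e]; rfl)
  · simpa [h] using hρ (single ξ 1)

lemma exists_ess {e : B → G} (he : Ind e) : ∃ (Ξ : Type) (g : Ξ → G) (j : B → Ξ), Injective j ∧
    (∀ b, g (j b) = e b) ∧ Ind g ∧ Ess g ∧ #Ξ ≤ #B + #G ∧ ∀ ξ, ξ ∉ Set.range j → g ξ ≠ 0 := by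
  classical
  let g : B ⊕ G → G := Sum.elim e id
  let P : Set (B ⊕ G) → Prop := fun s => Sum.inr 0 ∉ s ∧ ∀ l : (B ⊕ G) →₀ ℤ, ↑l.support ⊆ s →
    linearCombination ℤ g l = 0 → ∀ ξ, l ξ • g ξ = 0
  obtain ⟨s, hs0, hs⟩ := zorn_subset_nonempty {s | P s} (fun c hc hch hne =>
    ⟨⋃₀ c, ⟨fun ⟨t, ht, h⟩ => (hc ht).1 h, fun l hl => by
      obtain ⟨t, ht, h⟩ := hch.directedOn.exists_mem_subset_of_finset_subset_biUnion hne
        (f := id) (s := l.support) (by simpa [Set.sUnion_eq_biUnion] using hl)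
      exact (hc ht).2 l h⟩, fun t ht => Set.subset_sUnion_of_mem ht⟩) (Set.range Sum.inl)
    ⟨by simp, fun l hl h0 ξ => by
      have e1 : l = mapDomain Sum.inl (l.comapDomain Sum.inl Sum.inl_injective.injOn) :=
        (mapDomain_comapDomain _ Sum.inl_injective l hl).symm
      rw [e1, linearCombination_mapDomain] at h0
      rcases ξ with b | x
      · simpa [g] using he _ h0 b
      · have : l (Sum.inr x) = 0 := by
          by_contra h
          simpa using hl (mem_support_iff.2 h)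
        simp [this]⟩
  refine ⟨s, fun ξ => g ξ, fun b => ⟨Sum.inl b, hs0 ⟨b, rfl⟩⟩, fun a b h => by simpa using h,
    fun _ => rfl, fun l hl ξ => ?_, fun x hx => ?_, (mk_set_le s).trans (by simp), fun ξ hξ => ?_⟩
  · have := hs.1.2 (mapDomain Subtype.val l) (fun a ha => by
      obtain ⟨b, -, rfl⟩ := Finset.mem_image.1 (mapDomain_support ha)
      exact b.2) (by rw [linearCombination_mapDomain]; exact hl) ξ
    rwa [mapDomain_apply Subtype.val_injective] at this
  · have key : ∃ k : ℤ, k • x ≠ 0 ∧ k • x ∈ Submodule.span ℤ (g '' s) := by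
      by_cases hxs : Sum.inr x ∈ s
      · exact ⟨1, by simpa using hx, Submodule.subset_span ⟨_, hxs, by simp [g]⟩⟩
      by_contra hcon
      push Not at hcon
      refine hxs (hs.2 (y := insert (Sum.inr x) s) ⟨?_, fun l hl h0 ξ => ?_⟩ (Set.subset_insert _ _)
        (Set.mem_insert _ _))
      · rintro (h | h)
        · exact hx (Sum.inr_injective h).symm
        · exact hs.1.1 h
      have hs' : ↑(l.erase (Sum.inr x)).support ⊆ s := fun a ha => by
        simp only [support_erase, Finset.coe_erase, Set.mem_sdiff, Set.mem_singleton_iff] at ha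
        exact (hl ha.1).resolve_left ha.2
      have e1 : linearCombination ℤ g (l.erase (Sum.inr x)) + l (Sum.inr x) • x = 0 := by
        rw [← h0]
        conv_rhs => rw [← erase_add_single (Sum.inr x) l]
        simp [g]
      have e2 : l (Sum.inr x) • x = 0 := by
        by_contra h
        refine hcon _ h ?_
        rw [eq_neg_of_add_eq_zero_right e1]
        exact neg_mem ((mem_span_image_iff_linearCombination ℤ).2 ⟨_, hs', rfl⟩)
      by_cases hξ : ξ = Sum.inr x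
      · rw [hξ]; exact e2
      · have := hs.1.2 _ hs' (by simpa [e2] using e1) ξ
        rwa [erase_ne hξ] at this
    obtain ⟨k, h1, h2⟩ := key
    rw [Set.image_eq_range, mem_span_range_iff_exists_finsupp] at h2
    obtain ⟨l, hl⟩ := h2
    exact ⟨k, l, h1, by rw [linearCombination_apply]; exact hl⟩
  · obtain ⟨b | x, h⟩ := ξ
    · exact absurd ⟨b, rfl⟩ hξ
    · rintro (rfl : x = 0)
      exact hs.1.1 h

lemma mk_finsupp_le (Ξ D : Type) [Zero D] [Countable D] : #(Ξ →₀ D) ≤ max #Ξ ℵ₀ := by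
  classical
  have : #(Ξ →₀ D) ≤ #(Finset (Ξ × D)) := mk_le_of_injective (graph_injective Ξ D)
  refine this.trans ?_
  rcases finite_or_infinite Ξ with h | h
  · exact mk_le_aleph0.trans (le_max_right _ _)
  · have : Nonempty D := ⟨0⟩
    rw [mk_finset_of_infinite, mk_prod, lift_id, lift_id]
    exact mul_le_of_le (by simp) (le_max_left _ _) (mk_le_aleph0.trans (le_max_right _ _))

/-- a large independent family of nonzero elements -/
lemma exists_big (G : Type) [AddCommGroup G] : ∃ (Ξ : Type) (g : Ξ → G), Ind g ∧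
    (∀ ξ, g ξ ≠ 0) ∧ #G ≤ max #Ξ ℵ₀ ∧ ∀ b : Ξ → Prop, ∃ φ : G →+ T, ∀ ξ, φ (g ξ) ≠ 0 ↔ b ξ := by
  classical
  obtain ⟨Ξ, g, j, -, -, h1, h2, -, h3⟩ := exists_ess (B := Empty) (G := G) (e := Empty.elim)
    fun _ _ ξ => ξ.elim
  have h4 : ∀ ξ, g ξ ≠ 0 := fun ξ => h3 ξ fun ⟨b, _⟩ => b.elim
  obtain ⟨ρ, hρ, hg⟩ := embQ h1 h2
  refine ⟨Ξ, g, h1, h4, (mk_le_of_injective hρ).trans (mk_finsupp_le _ _), fun b => ?_⟩
  choose θ hθ using fun ξ => exists_char' (x := tq (addOrderOf (g ξ))) fun h =>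
    h4 ξ (by simpa using (tq_iff (g ξ) 1).1 (by simpa using h))
  refine ⟨(liftAddHom fun ξ => if b ξ then θ ξ else 0).comp ρ, fun ξ => ?_⟩
  by_cases hb : b ξ <;> simp [hg, hb, hθ]

/-- size of a group from image and kernel -/
lemma mk_le_mul {A C : Type} [AddCommGroup A] [AddCommGroup C] (f : A →+ C) (S : AddSubgroup A) :
    #S ≤ #(S.map f) * #(S ⊓ f.ker : AddSubgroup A) := by
  choose s hs hs' using fun y : S.map f => y.2
  rw [mul_def]
  refine mk_le_of_injective (f := fun x : S => (⟨f x, x, x.2, rfl⟩, ⟨x - s ⟨f x, x, x.2, rfl⟩,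
    S.sub_mem x.2 (hs _), by simp [hs']⟩)) fun x y h => ?_
  simp only [Prod.mk.injEq, Subtype.mk.injEq] at h
  obtain ⟨h1, h2⟩ := h
  simp only [h1, sub_left_inj] at h2
  exact Subtype.ext h2

end Pool.Agent.H15.Psc
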