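import Mathlib
import Pool.Agent.H15.Psc1

set_option autoImplicit false

namespace Pool.Agent.H15.Psc
open Cardinal Function Filter Topology

variable {G Γ M : Type} [AddCommGroup G] [AddCommGroup Γ] [AddCommGroup M]

/-- the subgroup dG -/
abbrev sm (d : ℕ) (G : Type) [AddCommGroup G] : AddSubgroup G :=
  (nsmulAddMonoidHom d : G →+ G).range

lemma mem_sm {d : ℕ} {x : G} : x ∈ sm d G ↔ ∃ y, d • y = x := Iff.rfl

/-- algebraic shadow of a pseudocompact group topology -/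
structure DD (ev : G →+ Γ →+ T) : Prop where
  sep : ∀ g, g ≠ 0 → ∃ γ, ev g γ ≠ 0
  fill : ∀ (φ : Γ →+ T) (S : Set Γ), S.Countable → ∃ g, ∀ γ ∈ S, ev g γ = φ γ

/-- few functions, one of them injective on any given countable set -/
def Pd (τ σ : Cardinal.{0}) : Prop := ∃ (J ι : Type) (f : J → ι → ℕ → Bool), #J ≤ τ ∧ σ ≤ #ι ∧
  ∀ S : Set ι, S.Countable → ∃ j, Set.InjOn (f j) S

lemma mk_cantor : #(ℕ → Bool) = 𝔠 := by simp

lemma mk_T : #T = 𝔠 := by
  rw [mk_congr (AddCircle.equivIco (1 : ℝ) 0), mk_Ico_real (by norm_num)]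

lemma Pd.mono {τ τ' σ : Cardinal.{0}} (h : Pd τ σ) (h' : τ ≤ τ') : Pd τ' σ :=
  let ⟨J, ι, f, h1, h2, h3⟩ := h; ⟨J, ι, f, h1.trans h', h2, h3⟩

lemma lim (q : Ultrafilter ℕ) (φ : ℕ → M →+ T) :
    ∃ ψ : M →+ T, ∀ x, Tendsto (fun k => φ k x) q (𝓝 (ψ x)) := by
  have h : ∀ x, ∃ y, Tendsto (fun k => φ k x) q (𝓝 y) := fun x =>
    ⟨_, (q.map fun k => φ k x).le_nhds_lim⟩
  choose ψ hψ using h
  exact ⟨AddMonoidHom.mk' ψ fun a b => tendsto_nhds_unique (hψ (a + b))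
    (by simpa using (hψ a).add (hψ b)), hψ⟩

lemma lim' (φ : ℕ → M →+ T) : ∃ ψ : M →+ T, ∀ x n y, (∀ k, n ≤ k → φ k x = y) → ψ x = y := by
  obtain ⟨ψ, h⟩ := lim (hyperfilter ℕ) φ
  refine ⟨ψ, fun x n y hy => tendsto_nhds_unique (h x) (tendsto_const_nhds.congr' ?_)⟩
  exact Nat.hyperfilter_le_atTop ((eventually_ge_atTop n).mono fun k hk => (hy k hk).symm)

lemma fin_hom [Finite M] : Finite (M →+ T) := by
  have := (AddCircle.finite_torsion (1 : ℝ) (Nat.card_pos (α := M))).to_subtype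
  refine Finite.of_injective (fun (φ : M →+ T) (x : M) =>
    (⟨φ x, ?_⟩ : {u : T | Nat.card M • u = 0})) fun a b h => ?_
  · show Nat.card M • φ x = 0
    rw [← map_nsmul, card_nsmul_eq_zero', map_zero]
  · ext x; simpa using congrFun h x

lemma inj_sm {ev : G →+ Γ →+ T} (sep : ∀ g, g ≠ 0 → ∃ γ, ev g γ ≠ 0) (d : ℕ) :
    ∃ f : sm d G → (sm d Γ →+ T), Injective f := by
  choose s hs using fun y : sm d G => mem_sm.1 y.2
  refine ⟨fun y => (ev (s y)).comp (sm d Γ).subtype, fun a b h => Subtype.ext ?_⟩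
  by_contra hne
  obtain ⟨γ, hγ⟩ := sep _ (sub_ne_zero.2 hne)
  have := DFunLike.congr_fun h ⟨d • γ, γ, rfl⟩
  simp only [AddMonoidHom.coe_comp, comp_apply, AddSubgroup.subtype_apply, map_nsmul] at this
  apply hγ
  rw [← hs, ← hs]
  simp [this]

lemma fin_sm {ev : G →+ Γ →+ T} (sep : ∀ g, g ≠ 0 → ∃ γ, ev g γ ≠ 0) (d : ℕ)
    (h : Finite (sm d Γ)) : Finite (sm d G) := by
  obtain ⟨f, hf⟩ := inj_sm sep d
  have := fin_hom (M := sm d Γ)
  exact Finite.of_injective f hf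

lemma mk_sm_le {ev : G →+ Γ →+ T} (sep : ∀ g, g ≠ 0 → ∃ γ, ev g γ ≠ 0) (d : ℕ)
    (h : ℵ₀ ≤ #(sm d Γ)) : #(sm d G) ≤ 2 ^ #(sm d Γ) := by
  obtain ⟨f, hf⟩ := inj_sm sep d
  refine (mk_le_of_injective (DFunLike.coe_injective.comp hf)).trans ?_
  rw [← power_def, mk_T, ← two_power_aleph0, ← power_mul, mul_eq_right h h aleph0_ne_zero]

variable {ev : G →+ Γ →+ T}

lemma DD.faith (h : DD ev) (γ : Γ) (hγ : γ ≠ 0) : ∃ g, ev.flip γ g ≠ 0 := by
  obtain ⟨φ, hφ⟩ := exists_char' hγ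
  obtain ⟨g, hg⟩ := h.fill φ {γ} (Set.countable_singleton _)
  exact ⟨g, by simpa [hg γ rfl] using hφ⟩

lemma le_of_cov {R : Type} (h : 𝔠 ≤ #(ℕ × R) * ℵ₀) : 𝔠 ≤ #R := by
  by_contra hc
  push Not at hc
  refine h.not_gt (mul_lt_of_lt aleph0_le_continuum ?_ aleph0_lt_continuum)
  rw [mk_prod, lift_id, lift_id]
  exact mul_lt_of_lt aleph0_le_continuum (by simpa using aleph0_lt_continuum) hc

lemma DD.step (h : DD ev) (tor : ∀ γ : Γ, ∃ k : ℕ, 0 < k ∧ k • γ = 0) {a : ℕ}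
    (ha : Infinite (sm a Γ)) (F : Finset Γ) (W : Finset G) :
    ∃ x : G, (∀ γ ∈ F, ev x γ = 0) ∧ ∀ w ∈ W, ∃ γ, a • ev (x - w) γ ≠ 0 := by
  classical
  by_contra hc
  push Not at hc
  choose k k0 hk using tor
  let f : G → (F → T) := fun g γ => ev g γ
  have f1 : (Set.range f).Finite := by
    refine (Set.Finite.pi' fun γ : F => AddCircle.finite_torsion (1 : ℝ) (k0 γ)).subset ?_
    rintro _ ⟨g, rfl⟩ γ
    show k γ • ev g γ = 0
    rw [← map_nsmul, hk, map_zero]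
  have := f1.to_subtype
  choose s hs using fun y : Set.range f => y.2
  refine ha.not_finite (fin_sm h.faith a ?_)
  refine Set.Finite.to_subtype (s := (sm a G : Set G)) ?_
  refine (Set.finite_range fun p : Set.range f × W => a • (s p.1 + p.2)).subset ?_
  rintro _ ⟨g, rfl⟩
  obtain ⟨w, hw, h0⟩ := hc (g - s ⟨_, g, rfl⟩) fun γ hγ => by
    have : ev (s ⟨_, g, rfl⟩) γ = ev g γ := congrFun (hs ⟨_, g, rfl⟩) ⟨γ, hγ⟩
    rw [map_sub, AddMonoidHom.sub_apply, this, sub_self]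
  refine ⟨(⟨_, g, rfl⟩, ⟨w, hw⟩), ?_⟩
  by_contra hne
  obtain ⟨γ, hγ⟩ := h.sep _ (sub_ne_zero.2 (Ne.symm hne))
  apply hγ
  rw [← h0 γ, nsmulAddMonoidHom_apply, ← smul_sub, map_nsmul, sub_sub]
  rfl

lemma DD.tree (h : DD ev) (tor : ∀ γ : Γ, ∃ k : ℕ, 0 < k ∧ k • γ = 0) {a : ℕ → ℕ}
    (ha : ∀ m, Infinite (sm (a m) Γ)) :
    ∃ g : (ℕ → Bool) → G, ∀ s t n, s n ≠ t n → a n • g s ≠ a n • g t := by
  classical
  choose st h1 h2 using fun m => h.step tor (ha m)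
  choose! wit hw using h2
  let P : ℕ → Finset Γ × Finset G := fun n => Nat.rec (∅, {0}) (fun n p =>
    (p.1 ∪ p.2.image (wit n p.1 p.2),
      p.2 ∪ p.2.image (· + st n p.1 p.2) ∪ p.2.image (· - st n p.1 p.2))) n
  let x : ℕ → G := fun n => st n (P n).1 (P n).2
  have P1 : ∀ n, (P (n + 1)).1 = (P n).1 ∪ (P n).2.image (wit n (P n).1 (P n).2) := fun _ => rfl
  have P2 : ∀ n, (P (n + 1)).2 = (P n).2 ∪ (P n).2.image (· + x n) ∪ (P n).2.image (· - x n) :=
    fun _ => rfl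
  have mono : Monotone fun n => (P n).1 := monotone_nat_of_le_succ fun n => by
    rw [P1]; exact Finset.subset_union_left
  let y : (ℕ → Bool) → ℕ → G := fun s n => ∑ i ∈ Finset.range n, if s i then x i else 0
  have ys : ∀ s n, y s (n + 1) = y s n + if s n then x n else 0 := fun s n =>
    Finset.sum_range_succ _ _
  have yW : ∀ s t n, y s n - y t n ∈ (P n).2 := by
    intro s t n
    induction n with
    | zero => simp [y, P]
    | succ n ih =>
      rw [P2, ys, ys]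
      simp only [Finset.mem_union, Finset.mem_image]
      cases s n <;> cases t n
      · left; left; simpa using ih
      · right; exact ⟨_, ih, by simp [sub_sub]⟩
      · left; right; exact ⟨_, ih, by simp; abel⟩
      · left; left; simpa using ih
  have yF : ∀ s n k, n ≤ k → ∀ γ ∈ (P n).1, ev (y s k) γ = ev (y s n) γ := by
    intro s n k hk γ hγ
    induction k, hk using Nat.le_induction with
    | base => rfl
    | succ k hk ih =>
      have := h1 k (P k).1 (P k).2 γ (mono hk hγ)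
      rw [ys, map_add, AddMonoidHom.add_apply, ih]
      split_ifs
      · rw [this, add_zero]
      · simp
  choose ψ hψ using fun s => lim' fun k => ev (y s k)
  choose g hg using fun s => h.fill (ψ s) (⋃ n, ((P n).1 : Set Γ))
    (Set.countable_iUnion fun n => (P n).1.countable_toSet)
  have gF : ∀ s n, ∀ γ ∈ (P n).1, ev (g s) γ = ev (y s n) γ := fun s n γ hγ => by
    rw [hg s γ (Set.mem_iUnion.2 ⟨n, hγ⟩)]
    exact hψ s γ n _ fun k hk => yF s n k hk γ hγ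
  have key : ∀ s t n, s n = true → t n = false → a n • g s ≠ a n • g t := by
    intro s t n hs ht he
    have hm := yW t s n
    apply hw n _ _ _ hm
    set γ := wit n (P n).1 (P n).2 (y t n - y s n)
    have hγ : γ ∈ (P (n + 1)).1 := by
      rw [P1]; exact Finset.mem_union_right _ (Finset.mem_image_of_mem _ hm)
    have e : st n (P n).1 (P n).2 - (y t n - y s n) = y s (n + 1) - y t (n + 1) := by
      rw [ys, ys, hs, ht]; simp [x]; abel
    rw [e, map_sub, AddMonoidHom.sub_apply, ← gF s _ _ hγ, ← gF t _ _ hγ, smul_sub,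
      ← AddMonoidHom.nsmul_apply, ← map_nsmul, he, map_nsmul, AddMonoidHom.nsmul_apply, sub_self]
  refine ⟨g, fun s t n hn => ?_⟩
  cases hs : s n <;> cases ht : t n
  · simp [hs, ht] at hn
  · exact (key t s n ht hs).symm
  · exact key s t n hs ht
  · simp [hs, ht] at hn

lemma DD.cont_le (h : DD ev) {a : ℕ → ℕ} (mono : ∀ m n, m ≤ n → a m ∣ a n)
    (ha : ∀ m, Infinite (sm (a m) Γ)) {R : Set G}
    (hR : ∀ g, ∃ m, ∃ r ∈ R, a m • g = a m • r) : 𝔠 ≤ #R := by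
  apply le_of_cov
  by_cases tor : ∀ γ : Γ, ∃ k : ℕ, 0 < k ∧ k • γ = 0
  · obtain ⟨g, hg⟩ := h.tree tor ha
    choose m r hr e using hR
    refine le_trans ?_ (Cardinal.le_mul_right aleph0_ne_zero)
    rw [← mk_cantor]
    let u : (ℕ → Bool) → G := fun s => g fun n => s n.unpair.1
    refine mk_le_of_injective (f := fun s => (m (u s), ⟨r (u s), hr _⟩)) fun s t hst => ?_
    simp only [Prod.mk.injEq, Subtype.mk.injEq] at hst
    ext k
    by_contra hk
    refine hg (fun n => s n.unpair.1) (fun n => t n.unpair.1) (k.pair (m (u s))) (by simpa using hk) ?_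
    obtain ⟨c, hc⟩ := mono _ _ (Nat.right_le_pair k (m (u s)))
    show _ • u s = _ • u t
    rw [hc, mul_comm, mul_smul, mul_smul, e, hst.2, hst.1, ← e]
  · push Not at tor
    obtain ⟨γ, hγ⟩ := tor
    have a0 : ∀ m, 0 < a m := fun m => Nat.pos_of_ne_zero fun h0 => (ha m).not_finite (by
      refine Set.Finite.to_subtype (s := (sm (a m) Γ : Set Γ)) ((Set.finite_singleton 0).subset ?_)
      rintro _ ⟨g, rfl⟩
      simp [h0])
    let S : ℕ × R → Set T := fun p => (fun u => u + ev p.2 γ) '' {u | a p.1 • u = 0}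
    have hS : Set.univ ⊆ ⋃ p, S p := fun t _ => by
      obtain ⟨φ, hφ⟩ := ext1 dvT γ t fun k hk => by
        by_cases h0 : k = 0
        · simp [h0]
        · exact absurd (natAbs_nsmul_eq_zero.2 hk) (hγ _ (Int.natAbs_pos.2 h0))
      obtain ⟨g, hg⟩ := h.fill φ {γ} (Set.countable_singleton _)
      obtain ⟨m, r, hr, e⟩ := hR g
      refine Set.mem_iUnion.2 ⟨(m, ⟨r, hr⟩), t - ev r γ, ?_, by simp⟩
      show a m • (t - ev r γ) = 0
      rw [← hφ, ← hg γ rfl, smul_sub, ← AddMonoidHom.nsmul_apply, ← map_nsmul, e, map_nsmul,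
        AddMonoidHom.nsmul_apply, sub_self]
    rw [← mk_T, ← mk_univ]
    refine (mk_le_mk_of_subset hS).trans ((mk_iUnion_le _).trans (mul_le_mul_right ?_ _))
    exact ciSup_le' fun p => le_aleph0_iff_set_countable.2
      ((AddCircle.finite_torsion (1 : ℝ) (a0 _)).image _).countable

lemma DD.baire (h : DD ev) {a : ℕ → ℕ} {R : Set G} (hR : ∀ g, ∃ m, ∃ r ∈ R, a m • g = a m • r) :
    ∃ (m : ℕ) (S : Set Γ) (g : G), S.Countable ∧ ∀ (S' : Set Γ) (g' : G), S'.Countable → S ⊆ S' →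
      (∀ γ ∈ S, ev g' γ = ev g γ) → ∃ r ∈ R, ∃ x, a m • x = a m • r ∧ ∀ γ ∈ S', ev x γ = ev g' γ := by
  by_contra hc
  push Not at hc
  choose S' g' h1 h2 h3 h4 using fun m (p : {p : Set Γ × G // p.1.Countable}) => hc m p.1.1 p.1.2 p.2
  let P : ℕ → {p : Set Γ × G // p.1.Countable} := fun n => Nat.rec ⟨(∅, 0), Set.countable_empty⟩
    (fun n p => ⟨(S' n p, g' n p), h1 n p⟩) n
  have mono : Monotone fun n => (P n).1.1 := monotone_nat_of_le_succ fun n => h2 n (P n)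
  have yF : ∀ n k, n ≤ k → ∀ γ ∈ (P n).1.1, ev (P k).1.2 γ = ev (P n).1.2 γ := by
    intro n k hk γ hγ
    induction k, hk using Nat.le_induction with
    | base => rfl
    | succ k hk ih => exact (h3 k (P k) γ (mono hk hγ)).trans ih
  obtain ⟨ψ, hψ⟩ := lim' fun k => ev (P k).1.2
  obtain ⟨g, hg⟩ := h.fill ψ (⋃ n, (P n).1.1) (Set.countable_iUnion fun n => (P n).2)
  obtain ⟨m, r, hr, e⟩ := hR g
  obtain ⟨γ, hγ, hne⟩ := h4 m (P m) r hr g e
  refine hne ((hg γ (Set.mem_iUnion.2 ⟨m + 1, hγ⟩)).trans ?_)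
  exact hψ γ (m + 1) _ fun k hk => yF (m + 1) k hk γ hγ

theorem DD.key (h : DD ev) {a : ℕ → ℕ} (mono : ∀ m n, m ≤ n → a m ∣ a n) {σ : Cardinal.{0}}
    (hσ : ℵ₀ ≤ σ) (ha : ∀ m, σ ≤ #(sm (a m) Γ)) {R : Set G}
    (hR : ∀ g, ∃ m, ∃ r ∈ R, a m • g = a m • r) : 𝔠 ≤ #R ∧ Pd #R σ := by
  classical
  have hc := h.cont_le mono (fun m => infinite_iff.2 (hσ.trans (ha m))) hR
  refine ⟨hc, ?_⟩
  rcases le_or_gt σ 𝔠 with hs | hs
  · exact ⟨Unit, ℕ → Bool, fun _ => id, by simpa using one_le_aleph0.trans (aleph0_le_continuum.trans hc),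
      by rwa [mk_cantor], fun S _ => ⟨(), Set.injOn_id _⟩⟩
  replace hs := aleph0_lt_continuum.trans hs
  obtain ⟨m, S₀, g₀, c₀, hB⟩ := h.baire hR
  let H := AddSubgroup.closure S₀
  have cH : #H ≤ ℵ₀ := by
    have := c₀.to_subtype
    have : Countable H := by
      have e : (H : Set Γ) = Submodule.span ℤ S₀ := by
        rw [← Submodule.coe_toAddSubgroup, Submodule.span_int_eq_addSubgroupClosure]
      have : (H : Set Γ).Countable := by
        rw [e]
        exact (Set.countable_range (Finsupp.linearCombination ℤ (Subtype.val : S₀ → Γ))).mono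
          fun x hx => (Finsupp.mem_span_iff_linearCombination ℤ S₀ x).1 hx
      exact this.to_subtype
    exact mk_le_aleph0
  let π := QuotientAddGroup.mk' H
  let Λ := (sm (a m) Γ).map π
  obtain ⟨Ξ, δ, -, -, h1, h2⟩ := exists_big Λ
  have hΞ : σ ≤ #Ξ := by
    by_contra hlt
    push Not at hlt
    refine ((ha m).trans (mk_le_mul π _)).not_gt (mul_lt_of_lt hσ (h1.trans_lt (max_lt hlt hs))
      (lt_of_le_of_lt (le_trans (mk_le_mk_of_subset fun x hx => ?_) cH) hs))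
    simpa [π] using hx.2
  have : Infinite Ξ := infinite_iff.2 (hσ.trans hΞ)
  obtain ⟨E⟩ : Nonempty (Ξ × ℕ ≃ Ξ) := Cardinal.eq.1 (by simp)
  have hδ : ∀ ξ, ∃ γ, π (a m • γ) = δ ξ := fun ξ => by
    obtain ⟨_, ⟨γ, rfl⟩, e⟩ := (δ ξ).2
    exact ⟨γ, e⟩
  choose γ hγ using hδ
  refine ⟨R, Ξ, fun r ξ n => decide (ev (r - g₀) (a m • γ (E (ξ, n))) ≠ 0), le_rfl, hΞ,
    fun S hS => ?_⟩
  obtain ⟨c, hc⟩ := Set.countable_iff_exists_injOn.1 hS
  obtain ⟨φ, hφ⟩ := h2 fun ξ => (E.symm ξ).2 = c (E.symm ξ).1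
  obtain ⟨θ, hθ⟩ := ext0 dvT Λ.subtype φ fun z hz => by
    rw [show z = 0 from Subtype.ext hz, map_zero]
  let S' := S₀ ∪ (fun p : Ξ × ℕ => a m • γ (E p)) '' (S ×ˢ Set.univ)
  have cS : S'.Countable := c₀.union ((hS.prod Set.countable_univ).image _)
  obtain ⟨y, hy⟩ := h.fill (θ.comp π) S' cS
  obtain ⟨r, hr, x, e1, e2⟩ := hB S' (g₀ + y) cS Set.subset_union_left fun z hz => by
    have : π z = 0 := (QuotientAddGroup.eq_zero_iff z).2 (AddSubgroup.subset_closure hz)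
    simp [hy z (Or.inl hz), this]
  have k : ∀ ξ ∈ S, ∀ n, ev (r - g₀) (a m • γ (E (ξ, n))) ≠ 0 ↔ n = c ξ := fun ξ hξ n => by
    have hm : a m • γ (E (ξ, n)) ∈ S' := Or.inr ⟨(ξ, n), ⟨hξ, trivial⟩, rfl⟩
    have e3 : ev r (a m • γ (E (ξ, n))) = ev x (a m • γ (E (ξ, n))) := by
      rw [map_nsmul, map_nsmul, ← AddMonoidHom.nsmul_apply, ← map_nsmul, ← e1, map_nsmul,
        AddMonoidHom.nsmul_apply]
    rw [map_sub, AddMonoidHom.sub_apply, e3, e2 _ hm, map_add, AddMonoidHom.add_apply,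
      add_sub_cancel_left, hy _ hm, AddMonoidHom.comp_apply, hγ]
    have := hφ (E (ξ, n))
    rw [← hθ] at this
    simpa using this
  refine ⟨⟨r, hr⟩, fun ξ hξ η hη e => hc hξ hη ?_⟩
  have := congrFun e (c ξ)
  simp only [k ξ hξ, k η hη, decide_true] at this
  simpa using this

end Pool.Agent.H15.Psc
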