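import Mathlib
import Pool.Agent.H15.Psc2

set_option autoImplicit false

namespace Pool.Agent.H15.Psc
open Cardinal Function

variable {G : Type} [AddCommGroup G]

lemma zorn_sub (P : AddSubgroup G → Prop) (B₀ : AddSubgroup G) (h0 : P B₀)
    (h : ∀ (c : Set (AddSubgroup G)) (U : AddSubgroup G), (∀ B ∈ c, P B) → c.Nonempty →
      (∀ B ∈ c, B ≤ U) → (∀ x ∈ U, ∃ B ∈ c, x ∈ B) → P U) :
    ∃ B, P B ∧ ∀ B', P B' → B ≤ B' → B' ≤ B := by
  obtain ⟨B, -, hB⟩ := zorn_le_nonempty₀ {B | P B} (fun c hc hch y hy =>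
    ⟨sSup c, h c _ hc ⟨y, hy⟩ (fun B hB => le_sSup hB) fun x hx =>
      (AddSubgroup.mem_sSup_of_directedOn ⟨y, hy⟩ hch.directedOn).1 hx, fun B hB => le_sSup hB⟩) B₀ h0
  exact ⟨B, hB.1, fun B' h1 h2 => hB.2 h1 h2⟩

lemma split1 {p : ℤ} (hp : Prime p) (k : ℕ) (G' : AddSubgroup G)
    (h : ∀ y ∈ G', p • y = 0 → ∃ x ∈ G', y = p ^ k • x) :
    ∃ B H : AddSubgroup G, B ≤ G' ∧ H ≤ G' ∧ (∀ x ∈ B, x ∈ H → x = 0) ∧
      (∀ g ∈ G', ∃ b ∈ B, ∃ h ∈ H, g = b + h) ∧ (∀ b ∈ B, p ^ (k + 1) • b = 0) ∧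
      ∀ y ∈ H, p • y = 0 → ∃ x ∈ H, y = p ^ (k + 1) • x := by
  have cop : ∀ r : ℤ, ¬ p ∣ r → ∃ u v : ℤ, u * p + v * r = 1 := fun r hr =>
    (hp.irreducible.coprime_iff_not_dvd.2 hr)
  obtain ⟨B, ⟨b1, b2, b3, b4⟩, hB⟩ := zorn_sub (fun B => B ≤ G' ∧ (∀ b ∈ B, p ^ (k + 1) • b = 0) ∧
    (∀ b ∈ B, ∀ x ∈ G', b = p ^ (k + 1) • x → b = 0) ∧ ∀ b ∈ B, p ^ k • b = 0 → ∃ b' ∈ B, b = p • b')
    ⊥ ⟨bot_le, by simp, by simp +contextual, by simp⟩ fun c U hc _ h1 h2 =>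
      ⟨fun x hx => let ⟨B, hB, hx⟩ := h2 x hx; (hc B hB).1 hx,
       fun x hx => let ⟨B, hB, hx⟩ := h2 x hx; (hc B hB).2.1 x hx,
       fun x hx => let ⟨B, hB, hx⟩ := h2 x hx; (hc B hB).2.2.1 x hx,
       fun x hx h0 => let ⟨B, hB, hx⟩ := h2 x hx; let ⟨b, hb, e⟩ := (hc B hB).2.2.2 x hx h0
        ⟨b, h1 B hB hb, e⟩⟩
  obtain ⟨H, ⟨c1, c2, c3⟩, hH⟩ := zorn_sub (fun H => H ≤ G' ∧ (∀ x ∈ G', p ^ (k + 1) • x ∈ H) ∧
    ∀ x ∈ B, x ∈ H → x = 0) (G'.map (zsmulAddGroupHom (p ^ (k + 1))))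
    ⟨by rintro _ ⟨x, hx, rfl⟩; exact G'.zsmul_mem hx _, fun x hx => ⟨x, hx, rfl⟩,
      fun x hx ⟨y, hy, e⟩ => b3 x hx y hy e.symm⟩ fun c U hc ⟨B, hB⟩ h1 h2 =>
      ⟨fun x hx => let ⟨B, hB, hx⟩ := h2 x hx; (hc B hB).1 hx,
       fun x hx => h1 B hB ((hc B hB).2.1 x hx),
       fun x hx hx' => let ⟨B, hB, hx'⟩ := h2 x hx'; (hc B hB).2.2 x hx hx'⟩
  have s1 : ∀ g ∈ G', p • g ∈ B ⊔ H → g ∈ B ⊔ H := by
    intro g hg hpg
    obtain ⟨b, hb, y, hy, e⟩ := AddSubgroup.mem_sup.1 hpg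
    have e1 : p ^ k • b = p ^ (k + 1) • g - p ^ k • y := by
      rw [pow_succ, mul_smul, ← e, smul_add, add_sub_cancel_right]
    obtain ⟨b', hb', rfl⟩ := b4 b hb (c3 _ (B.zsmul_mem hb _)
      (e1 ▸ H.sub_mem (c2 g hg) (H.zsmul_mem hy _)))
    have e2 : p • (g - b') = y := by rw [smul_sub, ← e, add_sub_cancel_left]
    suffices g - b' ∈ B ⊔ H by simpa using add_mem this (AddSubgroup.mem_sup_left hb')
    by_contra hn
    refine hn (AddSubgroup.mem_sup_right (hH (H ⊔ AddSubgroup.zmultiples (g - b')) ⟨sup_le c1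
      (AddSubgroup.zmultiples_le_of_mem (G'.sub_mem hg (b1 hb'))),
      fun x hx => AddSubgroup.mem_sup_left (c2 x hx), fun x hx hx' => ?_⟩ le_sup_left
      (AddSubgroup.mem_sup_right (AddSubgroup.mem_zmultiples _))))
    obtain ⟨z, hz, _, ⟨r, rfl⟩, e3⟩ := AddSubgroup.mem_sup.1 hx'
    by_cases hr : p ∣ r
    · obtain ⟨r, rfl⟩ := hr
      refine c3 x hx (e3 ▸ H.add_mem hz ?_)
      show (p * r) • (g - b') ∈ H
      rw [mul_comm, mul_smul, e2]
      exact H.zsmul_mem hy _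
    · obtain ⟨u, v, e4⟩ := cop r hr
      refine absurd ?_ hn
      have : g - b' = u • y + v • (x - z) := by
        rw [← e2, ← e3, add_sub_cancel_left, smul_smul, smul_smul, ← add_smul, e4, one_smul]
      rw [this]
      exact add_mem (AddSubgroup.mem_sup_right (H.zsmul_mem hy _)) (zsmul_mem (sub_mem
        (AddSubgroup.mem_sup_left hx) (AddSubgroup.mem_sup_right hz)) _)
  have s2 : ∀ j : ℕ, ∀ g ∈ G', p ^ j • g ∈ B ⊔ H → g ∈ B ⊔ H := by
    intro j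
    induction j with
    | zero => simp
    | succ j ih =>
      intro g hg h
      rw [pow_succ, mul_smul] at h
      exact s1 g hg (ih _ (G'.zsmul_mem hg _) h)
  have s3 : ∀ g ∈ G', ∃ b ∈ B, ∃ h ∈ H, g = b + h := fun g hg => by
    obtain ⟨b, hb, y, hy, e⟩ := AddSubgroup.mem_sup.1 (s2 _ g hg (AddSubgroup.mem_sup_right (c2 g hg)))
    exact ⟨b, hb, y, hy, e.symm⟩
  refine ⟨B, H, b1, c1, c3, s3, b2, fun y hy h0 => ?_⟩
  obtain ⟨x₀, hx₀, e⟩ := h y (c1 hy) h0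
  obtain ⟨b, hb, x, hx, rfl⟩ := s3 x₀ hx₀
  have e1 : p ^ k • b = 0 := c3 _ (B.zsmul_mem hb _) (by
    rw [show p ^ k • b = y - p ^ k • x by rw [e, smul_add, add_sub_cancel_right]]
    exact H.sub_mem hy (H.zsmul_mem hx _))
  rw [smul_add, e1, zero_add] at e
  by_contra hc
  push Not at hc
  have x0 : p ^ (k + 1) • x = 0 := by rw [pow_succ', mul_smul, ← e, h0]
  have hx' : x ∈ B := hB (B ⊔ AddSubgroup.zmultiples x) ⟨sup_le b1
    (AddSubgroup.zmultiples_le_of_mem (c1 hx)), ?_, ?_, ?_⟩ le_sup_left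
      (AddSubgroup.mem_sup_right (AddSubgroup.mem_zmultiples _))
  · exact hc 0 H.zero_mem (by rw [e, c3 x hx' hx]; simp)
  · intro z hz
    obtain ⟨b, hb, _, ⟨r, rfl⟩, rfl⟩ := AddSubgroup.mem_sup.1 hz
    show p ^ (k + 1) • (b + r • x) = 0
    rw [smul_add, b2 b hb, smul_comm, x0]; simp
  · intro z hz w₀ hw₀ e2
    obtain ⟨b, hb, _, ⟨r, rfl⟩, rfl⟩ := AddSubgroup.mem_sup.1 hz
    obtain ⟨b', hb', w, hw, rfl⟩ := s3 w₀ hw₀
    replace e2 : b + r • x = p ^ (k + 1) • w := by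
      rw [smul_add, b2 b' hb', zero_add] at e2; exact e2
    have b0 : b = 0 := c3 b hb (by
      rw [eq_sub_of_add_eq e2]; exact H.sub_mem (H.zsmul_mem hw _) (H.zsmul_mem hx _))
    rw [b0, zero_add] at e2
    have : ∀ j, j ≤ k + 1 → p ^ j ∣ r := by
      intro j
      induction j with
      | zero => simp
      | succ j ih =>
        intro hj
        obtain ⟨r, rfl⟩ := ih (by omega)
        obtain ⟨i, rfl⟩ : ∃ i, k = i + j := ⟨k - j, by omega⟩
        rw [pow_succ]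
        refine mul_dvd_mul_left _ (by_contra fun hr => ?_)
        obtain ⟨u, v, e4⟩ := cop r hr
        refine hc ((v * p ^ i) • w) (H.zsmul_mem hw _) ?_
        have : p ^ (i + j) = v * p ^ i * (p ^ j * r) + u * p ^ (i + j + 1) := by
          linear_combination (-p ^ (i + j)) * e4
        rw [smul_comm, ← e2, e, smul_smul, this, add_smul, mul_smul u, x0, smul_zero, add_zero]
    obtain ⟨r, rfl⟩ := this _ le_rfl
    show b + (p ^ (k + 1) * r) • x = 0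
    rw [b0, mul_comm, mul_smul, x0]; simp
  · intro z hz e2
    obtain ⟨b, hb, _, ⟨r, rfl⟩, rfl⟩ := AddSubgroup.mem_sup.1 hz
    replace e2 : p ^ k • b + r • y = 0 := by
      rw [e, smul_comm, ← smul_add]; exact e2
    have b0 : p ^ k • b = 0 := c3 _ (B.zsmul_mem hb _) (by
      rw [eq_neg_of_add_eq_zero_left e2]; exact H.neg_mem (H.zsmul_mem hy _))
    rw [b0, zero_add] at e2
    obtain ⟨b', hb', rfl⟩ := b4 b hb b0
    obtain ⟨r, rfl⟩ : p ∣ r := by_contra fun hr => by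
      obtain ⟨u, v, e4⟩ := cop r hr
      refine hc 0 H.zero_mem ?_
      rw [← one_smul ℤ y, ← e4, add_smul, mul_smul, mul_smul, h0, e2]; simp
    refine ⟨b' + r • x, add_mem (AddSubgroup.mem_sup_left hb') (AddSubgroup.mem_sup_right ⟨r, rfl⟩), ?_⟩
    show p • b' + (p * r) • x = _
    rw [mul_smul, smul_add]

lemma split {p : ℤ} (hp : Prime p) (k : ℕ) : ∃ W H : AddSubgroup G, (∀ x ∈ W, x ∈ H → x = 0) ∧
    (∀ g, ∃ b ∈ W, ∃ h ∈ H, g = b + h) ∧ (∀ b ∈ W, p ^ k • b = 0) ∧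
      ∀ y ∈ H, p • y = 0 → ∃ x ∈ H, y = p ^ k • x := by
  induction k with
  | zero => exact ⟨⊥, ⊤, by simp, by simp, by simp, by simp⟩
  | succ k ih =>
    obtain ⟨W, G', h1, h2, h3, h4⟩ := ih
    obtain ⟨B, H, b1, b2, b3, b4, b5, b6⟩ := split1 hp k G' h4
    refine ⟨W ⊔ B, H, fun x hx hx' => ?_, fun g => ?_, fun x hx => ?_, b6⟩
    · obtain ⟨w, hw, b, hb, rfl⟩ := AddSubgroup.mem_sup.1 hx
      have : w = 0 := h1 w hw (by simpa using G'.sub_mem (b2 hx') (b1 hb))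
      rw [this, zero_add] at hx' ⊢
      exact b3 b hb hx'
    · obtain ⟨w, hw, g, hg, rfl⟩ := h2 g
      obtain ⟨b, hb, y, hy, rfl⟩ := b4 g hg
      exact ⟨w + b, AddSubgroup.add_mem_sup hw hb, y, hy, (add_assoc _ _ _).symm⟩
    · obtain ⟨w, hw, b, hb, rfl⟩ := AddSubgroup.mem_sup.1 hx
      rw [smul_add, b5 b hb, pow_succ', mul_smul, h3 w hw]; simp

lemma sm_anti {d D : ℕ} (h : d ∣ D) : #(sm D G) ≤ #(sm d G) := by
  obtain ⟨c, rfl⟩ := h
  refine mk_le_mk_of_subset (s := (sm (d * c) G : Set G)) (t := (sm d G : Set G)) ?_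
  rintro _ ⟨g, rfl⟩
  exact ⟨c • g, (mul_smul _ _ _).symm⟩

lemma sm_sub (H : AddSubgroup G) (d : ℕ) : #(sm d H) ≤ #(sm d G) :=
  mk_le_of_injective (f := fun x => ⟨x.1.1, by obtain ⟨_, y, rfl⟩ := x; exact ⟨y, rfl⟩⟩)
    fun a b h => by simpa using h

lemma sm_mul {W H : AddSubgroup G} (h : ∀ g, ∃ b ∈ W, ∃ h ∈ H, g = b + h) (d : ℕ) :
    #(sm d G) ≤ #(sm d W) * #(sm d H) := by
  rw [mul_def]
  refine mk_le_of_surjective (f := fun x : sm d W × sm d H => (⟨x.1.1.1 + x.2.1.1, by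
    obtain ⟨⟨_, a, rfl⟩, _, b, rfl⟩ := x; exact ⟨a + b, by simp⟩⟩ : sm d G)) ?_
  rintro ⟨_, g, rfl⟩
  obtain ⟨a, ha, b, hb, rfl⟩ := h g
  exact ⟨(⟨_, ⟨a, ha⟩, rfl⟩, ⟨_, ⟨b, hb⟩, rfl⟩), by simp⟩

lemma sm_lt {p k : ℕ} (hp : p.Prime) (h : ∀ y : G, p • y = 0 → ∃ x, y = p ^ k • x) {d : ℕ}
    (hd : ¬ p ∣ d) {θ : Cardinal.{0}} (hθ : ℵ₀ ≤ θ) (h1 : #(sm (p ^ k * d) G) < θ) :
    #(sm d G) < θ := by
  have h2 : #(nsmulAddMonoidHom p : G →+ G).ker < θ := by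
    refine lt_of_le_of_lt (mk_le_mk_of_subset (s := ((nsmulAddMonoidHom p : G →+ G).ker : Set G))
      (t := (sm (p ^ k * d) G : Set G)) fun y hy => ?_) h1
    replace hy : p • y = 0 := hy
    obtain ⟨x, hx⟩ := h y hy
    obtain ⟨u, -, hu⟩ := Nat.exists_mul_mod_eq_one_of_coprime
      ((Nat.Prime.coprime_iff_not_dvd hp).2 hd).symm hp.one_lt
    refine ⟨u • x, ?_⟩
    show (p ^ k * d) • u • x = y
    rw [smul_smul, mul_assoc, mul_comm, mul_smul, ← hx, ← Nat.div_add_mod (d * u) p, hu, add_smul,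
      mul_comm, mul_smul, hy]
    simp
  have h3 : ∀ i, #(sm (p ^ i * d) G) < θ → #(sm d G) < θ := by
    intro i
    induction i with
    | zero => simp
    | succ i ih =>
      refine fun h4 => ih ((mk_le_mul (nsmulAddMonoidHom p) _).trans_lt (mul_lt_of_lt hθ
        (lt_of_le_of_lt ?_ h4) (lt_of_le_of_lt ?_ h2)))
      · refine mk_le_mk_of_subset (s := ((sm (p ^ i * d) G).map (nsmulAddMonoidHom p) : Set G))
          (t := (sm (p ^ (i + 1) * d) G : Set G)) ?_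
        rintro _ ⟨_, ⟨g, rfl⟩, rfl⟩
        exact ⟨g, by simp [smul_smul, pow_succ', mul_assoc]⟩
      · exact mk_le_mk_of_subset fun x hx => hx.2
  exact h3 k h1

lemma Ind.inj {Ξ : Type} {g : Ξ → G} (h : Ind g) (h0 : ∀ ξ, g ξ ≠ 0) : Injective g := by
  classical
  intro a b e
  by_contra hne
  have := h (Finsupp.single a 1 - Finsupp.single b 1) (by simp [e]) a
  simp [Ne.symm hne, h0] at this

/-- groups with a large homogeneous independent family -/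
def CLH (G : Type) [AddCommGroup G] : Prop := ∃ (n : ℕ) (B : Type) (e : B → G) (σ : Cardinal.{0}),
  (∀ g : G, n • g = 0) ∧ Ind e ∧ (∀ b, addOrderOf (e b) = n) ∧ 𝔠 ≤ #B ∧ Pd #B σ ∧ #B ≤ 2 ^ σ ∧
    #G ≤ 2 ^ σ

/-- admissible cardinals -/
def Adm (l : Cardinal.{0}) : Prop := 𝔠 ≤ l ∧ ∃ σ, l ≤ 2 ^ σ ∧ Pd l σ

lemma clh_of {p j : ℕ} (hp : p.Prime) (h0 : ∀ g : G, p ^ (j + 1) • g = 0) {l : Cardinal.{0}}
    (hl : Adm l) (h1 : #G ≤ l) (h2 : l ≤ #(sm (p ^ j) G)) : CLH G := by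
  obtain ⟨hc, σ, hσ, hP⟩ := hl
  obtain ⟨Ξ, g, i1, i2, i3, -⟩ := exists_big (sm (p ^ j) G)
  have hΞ : l ≤ #Ξ := (le_max_iff.1 (h2.trans i3)).resolve_right
    (aleph0_lt_continuum.trans_le hc).not_ge
  choose e he using fun ξ => mem_sm.1 (g ξ).2
  have : Fact p.Prime := ⟨hp⟩
  have ho : ∀ ξ, addOrderOf (e ξ) = p ^ (j + 1) := fun ξ =>
    addOrderOf_eq_prime_pow (fun h => i2 ξ (Subtype.ext ((he ξ).symm.trans h))) (h0 _)
  have og : ∀ ξ, addOrderOf (g ξ) = p := fun ξ => addOrderOf_eq_prime (Subtype.ext (by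
    show p • (g ξ).1 = 0
    rw [← he, smul_smul, ← pow_succ', h0])) (i2 ξ)
  refine ⟨p ^ (j + 1), Ξ, e, σ, h0, fun l hl ξ => ?_, ho, hc.trans hΞ, hP.mono hΞ,
    (mk_le_of_injective (Subtype.val_injective.comp (i1.inj i2))).trans (h1.trans hσ), h1.trans hσ⟩
  have : ∀ i, i ≤ j + 1 → ∃ l' : Ξ →₀ ℤ, l = (p : ℤ) ^ i • l' := by
    intro i
    induction i with
    | zero => exact fun _ => ⟨l, by simp⟩
    | succ i ih =>
      intro hi
      obtain ⟨l, rfl⟩ := ih (by omega)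
      obtain ⟨r, rfl⟩ : ∃ r, j = r + i := ⟨j - i, by omega⟩
      have e1 : Finsupp.linearCombination ℤ g l = 0 := by
        apply Subtype.val_injective
        have : ((Finsupp.linearCombination ℤ g l : sm (p ^ (r + i)) G) : G) =
            (p : ℤ) ^ r • Finsupp.linearCombination ℤ e ((p : ℤ) ^ i • l) := by
          rw [map_smul, smul_smul, ← pow_add, Finsupp.linearCombination_apply,
            Finsupp.linearCombination_apply, Finsupp.sum, Finsupp.sum, Finset.smul_sum,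
            AddSubmonoidClass.coe_finsetSum]
          refine Finset.sum_congr rfl fun ξ _ => ?_
          rw [AddSubgroupClass.coe_zsmul, ← he, smul_comm ((p : ℤ) ^ (r + i)), ← Nat.cast_pow,
            natCast_zsmul]
        rw [this, hl, smul_zero]; rfl
      have e2 : ∀ ξ, (p : ℤ) ∣ l ξ := fun ξ => by
        rw [← og ξ, addOrderOf_dvd_iff_zsmul_eq_zero]; exact i1 l e1 ξ
      refine ⟨l.mapRange (· / p) (by simp), ?_⟩
      ext ξ
      simp [pow_succ, mul_assoc, Int.mul_ediv_cancel' (e2 ξ)]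
  obtain ⟨l, rfl⟩ := this _ le_rfl
  rw [← addOrderOf_dvd_iff_zsmul_eq_zero, ho]
  simp

/-- closure properties of a class of abelian groups -/
structure Cl (Good : ∀ (G : Type) [AddCommGroup G], Prop) : Prop where
  prod : ∀ (G A B : Type) [AddCommGroup G] [AddCommGroup A] [AddCommGroup B] (_ : G ≃+ A × B),
    Good A → Good B → Good G
  fin : ∀ (G : Type) [AddCommGroup G], Finite G → Good G
  clh : ∀ (G : Type) [AddCommGroup G], CLH G → Good G

variable {Good : ∀ (G : Type) [AddCommGroup G], Prop}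

lemma Cl.ind (hC : Cl Good) {n : ℕ} (hn : 0 < n) {ν : Cardinal.{0}} (hν : ℵ₀ ≤ ν) (B₀ : Type)
    (base : ∀ (G : Type) [AddCommGroup G], (∃ e : B₀ → G, LinearIndependent ℤ e) → #G < ν → Good G)
    (φ : Fin (n + 1) → Cardinal.{0}) : ∀ (G : Type) [AddCommGroup G],
      (fun d : Fin (n + 1) => #(sm d G)) = φ → (∃ e : B₀ → G, LinearIndependent ℤ e) →
      #(sm n G) < ν → (∀ d, 0 < d → #(sm d G) < ν ∨ Adm #(sm d G)) → Good G := by
  classical
  induction φ using WellFoundedLT.induction with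
  | ind φ ih =>
  intro G _ hφ he h1 h2
  by_cases hG : #G < ν
  · exact base G he hG
  push Not at hG
  have s1 : #G ≤ #(sm 1 G) := mk_le_of_injective (f := fun g => ⟨g, g, one_smul _ _⟩)
    fun a b h => by simpa using h
  have s2 : ∀ d, #(sm d G) ≤ #G := fun d => mk_set_le _
  have hA : Adm #G := by
    have := (h2 1 one_pos).resolve_left (hG.trans s1).not_gt
    rwa [le_antisymm (s2 1) s1] at this
  let P : ℕ → Prop := fun m => m ∣ n ∧ #G ≤ #(sm m G)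
  obtain ⟨⟨c, hc⟩, hm⟩ : P (n.findGreatest P) := Nat.findGreatest_spec hn ⟨one_dvd _, s1⟩
  have hmax := fun k => Nat.findGreatest_is_greatest (P := P) (n := n) (k := k)
  generalize n.findGreatest P = m at hc hm hmax
  have c1 : c ≠ 1 := by
    rintro rfl
    rw [mul_one] at hc
    exact (h1.trans_le hG).not_ge (hc ▸ hm)
  have m0 : 0 < m := Nat.pos_of_mul_pos_right (hc ▸ hn)
  obtain ⟨p, hp, c, rfl⟩ := Nat.exists_prime_and_dvd c1
  have hpm : #(sm (m * p) G) < #G := by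
    have hd : m * p ∣ n := ⟨c, by rw [hc, mul_assoc]⟩
    exact lt_of_not_ge fun h => hmax (m * p) (by nlinarith [hp.one_lt]) (Nat.le_of_dvd hn hd) ⟨hd, h⟩
  obtain ⟨j, m', hm', rfl⟩ := Nat.exists_eq_pow_mul_and_not_dvd m0.ne' p hp.ne_one
  obtain ⟨W, H, w1, w2, w3, w4⟩ := split (G := G) (Nat.prime_iff_prime_int.1 hp) (j + 1)
  simp only [← Nat.cast_pow, natCast_zsmul] at w3 w4
  have w5 : ∀ y : H, p • y = 0 → ∃ x, y = p ^ (j + 1) • x := fun y hy => by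
    obtain ⟨x, hx, e⟩ := w4 y y.2 (congrArg Subtype.val hy)
    exact ⟨⟨x, hx⟩, Subtype.ext e⟩
  have w6 : ∀ d, p ^ (j + 1) ∣ d → #(sm d H) = #(sm d G) := by
    rintro _ ⟨d, rfl⟩
    refine le_antisymm (sm_sub H _) ((sm_mul w2 _).trans ?_)
    refine (mul_le_mul_left (le_one_iff_subsingleton.2 ⟨?_⟩) _).trans (one_mul _).le
    rintro ⟨_, a, rfl⟩ ⟨_, b, rfl⟩
    ext
    simp [mul_comm _ d, mul_smul, w3]
  have hi := hν.trans hG
  have hH : #(sm (p ^ j * m') H) < #G := (sm_anti (dvd_mul_left _ _)).trans_lt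
    (sm_lt hp w5 hm' hi ((sm_sub H _).trans_lt (by rwa [pow_succ, mul_right_comm])))
  refine hC.prod G W H (AddEquiv.ofBijective (W.subtype.coprod H.subtype) ⟨?_, fun g => ?_⟩).symm
    (hC.clh _ (clh_of hp (fun g => Subtype.ext (w3 _ g.2)) hA (mk_set_le _) ?_))
    (ih _ ?_ H rfl ?_ ((sm_sub H _).trans_lt h1) fun d hd => ?_)
  · refine (injective_iff_map_eq_zero _).2 fun x hx => ?_
    simp only [AddMonoidHom.coprod_apply, AddSubgroup.subtype_apply] at hx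
    have : x.1.1 = 0 := w1 _ x.1.2 (by rw [eq_neg_of_add_eq_zero_left hx]; exact H.neg_mem x.2.2)
    rw [this, zero_add] at hx
    exact Prod.ext (Subtype.ext this) (Subtype.ext hx)
  · obtain ⟨a, ha, b, hb, rfl⟩ := w2 g
    exact ⟨(⟨a, ha⟩, ⟨b, hb⟩), rfl⟩
  · refine le_trans (le_of_not_gt fun h => ?_) (sm_anti (dvd_mul_right _ m'))
    exact (mul_lt_of_lt hi h hH).not_ge (hm.trans (sm_mul w2 _))
  · rw [← hφ]
    refine lt_of_le_not_ge (fun d => sm_sub H d) fun h => ?_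
    exact (hH.trans_le hm).not_ge (h ⟨p ^ j * m', Nat.lt_succ_of_le (Nat.le_of_dvd hn ⟨_, hc⟩)⟩)
  · obtain ⟨e, he⟩ := he
    have hmem : ∀ g : G, p ^ (j + 1) • g ∈ H := fun g => by
      obtain ⟨a, ha, b, hb, rfl⟩ := w2 g
      rw [smul_add, w3 a ha, zero_add]
      exact H.nsmul_mem hb _
    refine ⟨fun b => ⟨_, hmem (e b)⟩, LinearIndependent.of_comp H.subtype.toIntLinearMap ?_⟩
    rw [linearIndependent_iff'] at he ⊢
    intro s g hg i hi
    have := he s (fun i => g i * (p ^ (j + 1) : ℕ)) (by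
      simp only [mul_smul, natCast_zsmul]; exact hg) i hi
    exact (mul_eq_zero.1 this).resolve_right (by exact_mod_cast (pow_pos hp.pos _).ne')
  · obtain ⟨i, d', hd', rfl⟩ := Nat.exists_eq_pow_mul_and_not_dvd hd.ne' p hp.ne_one
    by_cases hij : j + 1 ≤ i
    · rw [w6 _ ((pow_dvd_pow _ hij).mul_right _)]; exact h2 _ hd
    have e := w6 _ (dvd_mul_right _ d')
    rcases h2 (p ^ (j + 1) * d') (Nat.mul_pos (pow_pos hp.pos _) (Nat.pos_of_mul_pos_left hd))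
      with h | h
    · exact Or.inl ((sm_anti (dvd_mul_left _ _)).trans_lt (sm_lt hp w5 hd' hν (e ▸ h)))
    · right
      rw [← e] at h
      rwa [le_antisymm ((sm_anti (dvd_mul_left _ _)).trans (Order.lt_succ_iff.1 (sm_lt hp w5 hd'
        ((aleph0_le_continuum.trans h.1).trans (Order.le_succ _)) (Order.lt_succ _))))
        (sm_anti (mul_dvd_mul_right (pow_dvd_pow _ (by omega)) _))]

theorem Cl.main (hC : Cl Good) {G Γ : Type} [AddCommGroup G] [AddCommGroup Γ] {ev : G →+ Γ →+ T}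
    (h : DD ev) : Good G := by
  classical
  obtain ⟨_, ⟨n, hn, rfl⟩, hmin⟩ := Cardinal.lt_wf.has_min {c | ∃ d, 0 < d ∧ #(sm d Γ) = c}
    ⟨_, 1, one_pos, rfl⟩
  have hA : ∀ {ν}, ℵ₀ ≤ ν → ∀ d, 0 < d → #(sm d G) < ν ∨ Adm #(sm d G) := fun hν d _ => by
    rcases finite_or_infinite (sm d Γ) with hf | hf
    · have := fin_sm h.sep d hf
      exact Or.inl ((lt_aleph0_of_finite _).trans_le hν)
    · choose s hs using fun y : sm d G => mem_sm.1 y.2
      obtain ⟨k1, k2⟩ := h.key (a := fun _ => d) (fun _ _ _ => dvd_rfl) (infinite_iff.1 hf)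
        (fun _ => le_rfl) (R := Set.range s) fun g => ⟨0, _, ⟨⟨_, g, rfl⟩, rfl⟩, (hs ⟨_, g, rfl⟩).symm⟩
      exact Or.inr ⟨k1.trans mk_range_le, _, mk_sm_le h.sep d (infinite_iff.1 hf), k2.mono mk_range_le⟩
  rcases finite_or_infinite (sm n Γ) with hf | hf
  · have := fin_sm h.sep n hf
    exact hC.ind hn le_rfl Empty (fun G _ _ hG => hC.fin G (lt_aleph0_iff_finite.1 hG)) _ G rfl
      ⟨Empty.elim, linearIndependent_empty_type⟩ (lt_aleph0_of_finite _) (hA le_rfl)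
  replace hf := infinite_iff.1 hf
  obtain ⟨s, s1, s2⟩ := exists_maximal_linearIndepOn ℤ (id : G → G)
  let r : ℕ × (s →₀ ℤ) → G := fun p => Classical.epsilon fun g =>
    (p.1.factorial * n) • g = Finsupp.linearCombination ℤ Subtype.val p.2
  obtain ⟨k1, k2⟩ := h.key (a := fun m => m.factorial * n)
    (fun _ _ h => mul_dvd_mul_right (Nat.factorial_dvd_factorial h) _) hf
    (fun m => le_of_not_gt (hmin _ ⟨_, Nat.mul_pos m.factorial_pos hn, rfl⟩)) (R := Set.range r)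
    fun g => by
      obtain ⟨a, ha, hg⟩ : ∃ a : ℤ, a ≠ 0 ∧ a • g ∈ Submodule.span ℤ s := by
        by_cases hg : g ∈ s
        · exact ⟨1, one_ne_zero, by simpa using Submodule.subset_span hg⟩
        · simpa using s2 g hg
      obtain ⟨c, hc⟩ : a ∣ ((a.natAbs.factorial * n : ℕ) : ℤ) := by
        rw [← Int.natAbs_dvd, Int.natCast_dvd_natCast]
        exact (Nat.dvd_factorial (Int.natAbs_pos.2 ha) le_rfl).mul_right _
      have : (a.natAbs.factorial * n) • g ∈ Submodule.span ℤ s := by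
        rw [← natCast_zsmul, hc, mul_comm, mul_smul]
        exact Submodule.smul_mem _ _ hg
      obtain ⟨l, hl⟩ := (Finsupp.mem_span_iff_linearCombination ℤ s _).1 this
      exact ⟨_, _, ⟨(a.natAbs, l), rfl⟩, hl.symm.trans (Classical.epsilon_spec (p := fun g =>
        (a.natAbs.factorial * n) • g = Finsupp.linearCombination ℤ Subtype.val l) ⟨g, hl.symm⟩).symm⟩
  have k3 : #(Set.range r) ≤ max #s ℵ₀ := by
    refine mk_range_le.trans ?_
    rw [mk_prod, lift_id, lift_id]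
    exact mul_le_of_le (by simp) (by simp) (mk_finsupp_le _ _)
  have k4 : 𝔠 ≤ #s := (le_max_iff.1 (k1.trans k3)).resolve_right aleph0_lt_continuum.not_ge
  rw [max_eq_left (aleph0_le_continuum.trans k4)] at k3
  have hν : ℵ₀ ≤ Order.succ (2 ^ #(sm n Γ)) := hf.trans ((cantor _).le.trans (Order.le_succ _))
  refine hC.ind hn hν s (fun G _ ⟨e, he⟩ hG => hC.clh G ⟨0, s, e, _, by simp, fun l hl ξ => ?_,
    fun b => ?_, k4, k2.mono k3, (mk_le_of_injective he.injective).trans (Order.lt_succ_iff.1 hG),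
    Order.lt_succ_iff.1 hG⟩) _ G rfl ⟨_, s1⟩ (Order.lt_succ_iff.2 (mk_sm_le h.sep n hf)) (hA hν)
  · rw [linearIndependent_iff.1 he l hl]; simp
  · rw [addOrderOf_eq_zero_iff']
    intro k hk h0
    have := linearIndependent_iff.1 he (Finsupp.single b k) (by simpa using h0)
    simp at this
    omega

end Pool.Agent.H15.Psc
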