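import Mathlib
import Pool.Agent.H15.Psc3

set_option autoImplicit false

namespace Pool.Agent.H15.Psc
open Cardinal Function

open Classical in
/-- look up a value in a countable table -/
noncomputable def look {Y V : Type} [Nonempty V] (r : ℕ → Y × V) (y : Y) : V :=
  if h : ∃ n, (r n).1 = y then (r h.choose).2 else Classical.arbitrary V

lemma exists_look {I Y V : Type} [Nonempty V] [Nonempty Y] {S : Set I} (hS : S.Countable)
    {F : I → Y} (hF : Set.InjOn F S) (u : I → V) : ∃ r : ℕ → Y × V, ∀ i ∈ S, look r (F i) = u i := by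
  rcases S.eq_empty_or_nonempty with rfl | hne
  · exact ⟨Classical.arbitrary _, by simp⟩
  obtain ⟨en, rfl⟩ := hS.exists_eq_range hne
  refine ⟨fun n => (F (en n), u (en n)), fun i hi => ?_⟩
  have h : ∃ n, F (en n) = F i := by obtain ⟨n, rfl⟩ := hi; exact ⟨n, rfl⟩
  rw [look, dif_pos h, hF ⟨_, rfl⟩ hi h.choose_spec]

lemma exists_enum {Y : Type} [Nonempty Y] {S : Set Y} (hS : S.Countable) :
    ∃ s : ℕ → Y, S ⊆ Set.range s := by
  have : Inhabited Y := ⟨Classical.arbitrary Y⟩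
  exact ⟨_, Set.subset_range_enumerate hS default⟩

lemma le_c_prod {A B : Type} (hA : #A ≤ 𝔠) (hB : #B ≤ 𝔠) : #(A × B) ≤ 𝔠 := by
  rw [mk_prod, lift_id, lift_id]; exact mul_le_of_le aleph0_le_continuum hA hB

lemma le_c_seq {A : Type} (hA : #A ≤ 𝔠) : #(ℕ → A) ≤ 𝔠 := by
  rw [← power_def, mk_nat]
  exact (power_le_power_right hA).trans continuum_power_aleph0.le

theorem matrix {τ σ : Cardinal.{0}} (h : Pd τ σ) (hτ : 𝔠 ≤ τ) (hτσ : τ ≤ 2 ^ σ) (V : Type)
    [Nonempty V] (hV : #V ≤ 𝔠) : ∃ J : Type, #J ≤ τ ∧ ∀ R : Type, #R ≤ 2 ^ σ →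
      ∃ (ι : Type) (w : ι → J ⊕ R → V),
        (∀ S : Set ι, S.Countable → ∀ u : ι → V, ∃ j, ∀ i ∈ S, w i (Sum.inl j) = u i) ∧
        ∀ D : Set (J ⊕ R), D.Countable → ∀ u : J ⊕ R → V, ∃ i, ∀ a ∈ D, w i a = u a := by
  classical
  obtain ⟨J, κ, f, hJ, hκ, hf⟩ := h
  let Z := ℕ → Bool
  have hZ : #Z ≤ 𝔠 := mk_cantor.le
  let Y := (ℕ → Z) × (ℕ → Z) × (ℕ → Z × V)
  have hY : #Y ≤ 𝔠 := le_c_prod (le_c_seq hZ) (le_c_prod (le_c_seq hZ) (le_c_seq (le_c_prod hZ hV)))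
  have i1 := aleph0_le_continuum.trans hτ
  have hJ' : #((J × (ℕ → Y × V)) × Z) ≤ τ := by
    simp only [mk_prod (J × _), mk_prod J, lift_id]
    exact mul_le_of_le i1 (mul_le_of_le i1 hJ ((le_c_seq (le_c_prod hY hV)).trans hτ)) (hZ.trans hτ)
  refine ⟨(J × (ℕ → Y × V)) × Z, hJ', fun R hR => ?_⟩
  have hA : #(((J × (ℕ → Y × V)) × Z) ⊕ R) ≤ #(κ → Bool) := by
    rw [mk_sum, lift_id, lift_id, ← power_def, mk_bool]
    exact (add_le_of_le (i1.trans hτσ) (hJ'.trans hτσ) hR).trans (power_le_power_left two_ne_zero hκ)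
  obtain ⟨c⟩ := (le_def _ _).1 hA
  have : Nonempty κ := by
    by_contra h0
    rw [not_nonempty_iff] at h0
    rw [mk_eq_zero κ, nonpos_iff_eq_zero] at hκ
    rw [hκ, power_zero] at hτσ
    exact (i1.trans hτσ).not_gt one_lt_aleph0
  let ι := (ℕ → Z) × (ℕ → κ) × (ℕ → Z × V)
  let F : J → ι → Y := fun j i => (i.1, f j ∘ i.2.1, i.2.2)
  let w : ι → ((J × (ℕ → Y × V)) × Z) ⊕ R → V := fun i a => match a with
    | Sum.inl j => if j.2 ∈ Set.range i.1 then look i.2.2 (c a ∘ i.2.1) else look j.1.2 (F j.1.1 i)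
    | Sum.inr _ => look i.2.2 (c a ∘ i.2.1)
  refine ⟨ι, w, fun S hS u => ?_, fun D hD u => ?_⟩
  · obtain ⟨j, hj⟩ := hf (⋃ i ∈ S, Set.range i.2.1) (hS.biUnion fun _ _ => Set.countable_range _)
    obtain ⟨r, hr⟩ := exists_look hS (F := F j) (fun a ha b hb e => by
      simp only [F, Y, Prod.mk.injEq] at e
      refine Prod.ext e.1 (Prod.ext (funext fun n => ?_) e.2.2)
      exact hj (Set.mem_biUnion ha ⟨n, rfl⟩) (Set.mem_biUnion hb ⟨n, rfl⟩) (congrFun e.2.1 n)) u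
    obtain ⟨β, hβ⟩ : ∃ β : Z, β ∉ ⋃ i ∈ S, Set.range i.1 := by
      by_contra hc
      push Not at hc
      have := (hS.biUnion fun i _ => Set.countable_range i.1).mono (fun β _ => hc β : Set.univ ⊆ _)
      rw [Set.countable_univ_iff, ← mk_le_aleph0_iff, mk_cantor] at this
      exact this.not_gt aleph0_lt_continuum
    refine ⟨((j, r), β), fun i hi => ?_⟩
    simp only [w]
    rw [if_neg fun h => hβ (Set.mem_biUnion hi h), hr i hi]
  · obtain ⟨Φ, hΦ⟩ := exists_enum (hD.image (Sum.elim (fun j => j.2) fun _ => (default : Z)))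
    let sp := fun p : _ × _ => Classical.epsilon fun k => c p.1 k ≠ c p.2 k
    obtain ⟨s, hs⟩ := exists_enum ((hD.prod hD).image sp)
    obtain ⟨k, hk⟩ := exists_look hD (F := fun a => c a ∘ s) (fun a ha b hb e => by
      by_contra hne
      obtain ⟨n, hn⟩ := hs ⟨(a, b), ⟨ha, hb⟩, rfl⟩
      have := Classical.epsilon_spec (Function.ne_iff.1 (c.injective.ne hne))
      exact this (by have := congrFun e n; simp only [comp_apply, hn] at this; exact this)) u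
    refine ⟨(Φ, s, k), fun a ha => ?_⟩
    rcases a with j | x
    · simp only [w]
      rw [if_pos (show j.2 ∈ Set.range Φ from hΦ ⟨_, ha, rfl⟩)]
      exact hk _ ha
    · exact hk _ ha

lemma Ind.comp {G B C : Type} [AddCommGroup G] {e : B → G} (h : Ind e) {f : C → B}
    (hf : Injective f) : Ind (e ∘ f) := fun l hl ξ => by
  have := h (Finsupp.mapDomain f l) (by rw [Finsupp.linearCombination_mapDomain]; exact hl) (f ξ)
  rwa [Finsupp.mapDomain_apply hf] at this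

theorem CLH.gen {G : Type} [AddCommGroup G] (h : CLH G) (X : Type) [Nonempty X] (hX : #X ≤ 𝔠) :
    ∃ n : ℕ, (∀ g : G, n • g = 0) ∧ ∀ (V : Type) [Nonempty V], #V ≤ 𝔠 →
      ∃ (A ι J : Type) (ja : J → A) (e : J → X → G) (ρ : G →+ (A × X →₀ Q)) (w : ι → A → V),
        Injective ρ ∧ (∀ j x, ρ (e j x) = Finsupp.single (ja j, x) (tq n)) ∧
        (∀ S : Set ι, S.Countable → ∀ u : ι → V, ∃ j, ∀ i ∈ S, w i (ja j) = u i) ∧
        ∀ D : Set A, D.Countable → ∀ u : A → V, ∃ i, ∀ a ∈ D, w i a = u a := by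
  classical
  obtain ⟨n, B, e, σ, h0, h1, h2, h3, h4, h5, h6⟩ := h
  refine ⟨n, h0, fun V _ hV => ?_⟩
  obtain ⟨J, hJ, hM⟩ := matrix h4 h3 h5 V hV
  have i1 := aleph0_le_continuum.trans h3
  have hJX : #(J × X) ≤ #B := by
    rw [mk_prod, lift_id, lift_id]; exact mul_le_of_le i1 hJ (hX.trans h3)
  obtain ⟨ε⟩ := (le_def _ _).1 hJX
  obtain ⟨Ξ, g, j, j1, j2, g1, g2, g3, -⟩ := exists_ess (h1.comp ε.injective)
  obtain ⟨ρ, r1, r2⟩ := embQ g1 g2
  obtain ⟨ι, w, w1, w2⟩ := hM Ξ (g3.trans (add_le_of_le (i1.trans h5) (hJX.trans h5) h6))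
  let κ : Ξ → (J ⊕ Ξ) × X := extend j (fun p => (Sum.inl p.1, p.2))
    fun ξ => (Sum.inr ξ, Classical.arbitrary X)
  have k1 : ∀ p, κ (j p) = (Sum.inl p.1, p.2) := fun p => j1.extend_apply _ _ p
  have k2 : ∀ ξ, (¬ ∃ p, j p = ξ) → κ ξ = (Sum.inr ξ, Classical.arbitrary X) := fun ξ h =>
    extend_apply' _ _ _ h
  have k3 : Injective κ := by
    intro a b hab
    by_cases ha : ∃ p, j p = a <;> by_cases hb : ∃ p, j p = b
    · obtain ⟨p, rfl⟩ := ha
      obtain ⟨q, rfl⟩ := hb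
      simp only [k1, Prod.mk.injEq, Sum.inl.injEq] at hab
      rw [Prod.ext hab.1 hab.2]
    · obtain ⟨p, rfl⟩ := ha
      simp [k1, k2 b hb] at hab
    · obtain ⟨p, rfl⟩ := hb
      simp [k1, k2 a ha] at hab
    · simpa [k2 a ha, k2 b hb] using hab
  refine ⟨J ⊕ Ξ, ι, J, Sum.inl, fun a x => g (j (a, x)), (Finsupp.mapDomain.addMonoidHom κ).comp ρ,
    w, (Finsupp.mapDomain_injective k3).comp r1, fun a x => ?_, w1, w2⟩
  show Finsupp.mapDomain κ (ρ _) = _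
  rw [r2, Finsupp.mapDomain_single, k1, j2, comp_apply, h2]

lemma mk_homQ : #(Q →+ T) ≤ 𝔠 := by
  refine (mk_le_of_injective DFunLike.coe_injective).trans ?_
  rw [← power_def, mk_T]
  exact (power_le_power_left continuum_ne_zero mk_le_aleph0).trans continuum_power_aleph0.le

lemma exists_theta (n : ℕ) : ∃ θ : T → Q →+ T, ∀ y, n • y = 0 → θ y (tq n) = y := by
  have : ∀ y : T, ∃ θ : Q →+ T, n • y = 0 → θ (tq n) = y := fun y => by
    by_cases hy : n • y = 0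
    · obtain ⟨θ, h⟩ := ext1 dvT (tq n) y fun k hk => by
        obtain ⟨c, rfl⟩ := (tq_zsmul _ _).1 hk
        rw [mul_comm, mul_smul, natCast_zsmul, hy, smul_zero]
      exact ⟨θ, fun _ => h⟩
    · exact ⟨0, fun h => absurd h hy⟩
  choose θ h using this
  exact ⟨θ, h⟩

end Pool.Agent.H15.Psc
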