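import Mathlib
import Pool.Agent.H15.Psc2
import Pool.Agent.H71.Compl
import Pool.Agent.H71.Dual

set_option autoImplicit false

namespace Pool.Agent.H15.Psc
open Function Filter Topology Pool.Agent.H71

/-- pseudocompact spaces -/
def Pseudo (X : Type) [TopologicalSpace X] : Prop :=
  ∀ f : X → ℝ, Continuous f → ∃ M : ℝ, ∀ x, |f x| ≤ M

lemma Pseudo.precompact {G : Type} [CommGroup G] [TopologicalSpace G] [IsTopologicalGroup G]
    (h : Pseudo G) : Lie.Precompact G := by
  intro U hU
  by_contra hcon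
  push Not at hcon
  obtain ⟨u, hu⟩ := Lie.sep_seq hcon
  have t3 : Tendsto (fun p : (G × G) × G × G => p.1.1 * p.1.2⁻¹ * p.2.1 * p.2.2⁻¹)
      (𝓝 ((1, 1), 1, 1)) (𝓝 1) := Continuous.tendsto' (by fun_prop) _ _ (by simp)
  have h2 := t3 hU
  rw [nhds_prod_eq, nhds_prod_eq, mem_map, mem_prod_self_iff] at h2
  obtain ⟨V', hV', hVU⟩ := h2
  obtain ⟨V'', hV'', h3⟩ := mem_prod_self_iff.1 hV'
  obtain ⟨V, hV, oV, h1V⟩ := mem_nhds_iff.1 hV''
  have key : ∀ x m n, ∀ a ∈ V, ∀ c ∈ V, (u m)⁻¹ * (x * a) ∈ V → (u n)⁻¹ * (x * c) ∈ V → ¬ m < n := by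
    intro x m n a ha c hc hb hd hmn
    have := hVU (Set.mk_mem_prod (h3 (Set.mk_mem_prod (hV hb) (hV ha)))
      (h3 (Set.mk_mem_prod (hV hc) (hV hd))))
    refine hu m n hmn ?_
    have e : (u m)⁻¹ * u n = (u m)⁻¹ * (x * a) * a⁻¹ * c * ((u n)⁻¹ * (x * c))⁻¹ := by
      apply Additive.ofMul.injective
      simp only [ofMul_mul, ofMul_inv]
      abel
    rw [e]; exact this
  have : CompletelyRegularSpace G := by
    let u : UniformSpace G := IsTopologicalGroup.rightUniformSpace G
    exact UniformSpace.toCompletelyRegularSpace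
  obtain ⟨f, f1, f2, f3⟩ := CompletelyRegularSpace.completely_regular (1 : G) Vᶜ oV.isClosed_compl
    (by simpa using h1V)
  let g : ℕ → G → ℝ := fun n x => n * (1 - f ((u n)⁻¹ * x))
  have gs : ∀ n x, g n x ≠ 0 → (u n)⁻¹ * x ∈ V := fun n x hx => by
    by_contra hc
    simp [g, f3 hc] at hx
  obtain ⟨M, hM⟩ := h (fun x => ∑ᶠ n, g n x) (continuous_finsum (fun n => by fun_prop) fun x => by
    refine ⟨(fun y => x⁻¹ * y) ⁻¹' V, (oV.preimage (by fun_prop)).mem_nhds (by simpa using h1V),
      Set.Subsingleton.finite ?_⟩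
    rintro m ⟨a, a1, a2⟩ n ⟨b, b1, b2⟩
    have k1 := key x m n _ a2 _ b2 (by simpa using gs m a a1) (by simpa using gs n b b1)
    have k2 := key x n m _ b2 _ a2 (by simpa using gs n b b1) (by simpa using gs m a a1)
    omega)
  obtain ⟨n, hn⟩ := exists_nat_gt M
  have := hM (u n)
  rw [finsum_eq_single _ n fun m hm => by
    by_contra hc
    have k1 := key (u n) m n _ h1V _ h1V (by simpa using gs m _ hc) (by simpa using h1V)
    have k2 := key (u n) n m _ h1V _ h1V (by simpa using h1V) (by simpa using gs m _ hc)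
    omega] at this
  simp [g, f2] at this
  linarith

/-- logarithm -/
noncomputable def lg : Circle ≃ₜ T := (AddCircle.homeomorphCircle one_ne_zero).symm

lemma to_lg (z : Circle) : (lg z).toCircle = z := by
  rw [← AddCircle.homeomorphCircle_apply one_ne_zero]
  exact (AddCircle.homeomorphCircle one_ne_zero).apply_symm_apply z

lemma lg_to (t : T) : lg t.toCircle = t := by
  rw [← AddCircle.homeomorphCircle_apply one_ne_zero]
  exact (AddCircle.homeomorphCircle one_ne_zero).symm_apply_apply t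

lemma lg_mul (a b : Circle) : lg (a * b) = lg a + lg b := by
  rw [← lg_to (lg a + lg b), AddCircle.toCircle_add, to_lg, to_lg]

lemma lg_one : lg 1 = 0 := by rw [← lg_to 0, AddCircle.toCircle_zero]

lemma Pseudo.gd {G K : Type} [TopologicalSpace G] [TopologicalSpace K] (h : Pseudo G) {j : G → K}
    (hj : Continuous j) (hd : DenseRange j) {f : ℕ → K → T} (hf : ∀ n, Continuous (f n)) (c : K) :
    ∃ g, ∀ n, f n (j g) = f n c := by
  let : MetricSpace (ℕ → T) := TopologicalSpace.metrizableSpaceMetric _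
  let F : K → ℕ → T := fun x n => f n x
  have hF : Continuous F := continuous_pi hf
  by_contra hc
  push Not at hc
  have h0 : ∀ g, 0 < dist (F (j g)) (F c) := fun g => dist_pos.2 fun e =>
    let ⟨n, hn⟩ := hc g; hn (congrFun e n)
  obtain ⟨M, hM⟩ := h (fun g => (dist (F (j g)) (F c))⁻¹)
    (Continuous.inv₀ (by fun_prop) fun g => (h0 g).ne')
  obtain ⟨g, hg⟩ := hd.exists_mem_open (s := {x | dist (F x) (F c) < (|M| + 1)⁻¹})
    (isOpen_lt (by fun_prop) continuous_const) ⟨c, by simp; positivity⟩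
  have h1 := (le_abs_self _).trans (hM g)
  have h2 := (lt_inv_comm₀ (h0 g) (by positivity)).1 hg
  linarith [le_abs_self M]

theorem exists_DD (G : Type) [AddCommGroup G] [TopologicalSpace G] [IsTopologicalAddGroup G]
    [T2Space G] (h : Pseudo G) :
    ∃ (Γ : Type) (_ : AddCommGroup Γ) (ev : G →+ Γ →+ T), DD ev := by
  have : T2Space (Multiplicative G) := ‹T2Space G›
  obtain ⟨K, gK, _, _, _, _, j, h1, h2⟩ := Lie.exists_completion (G := Multiplicative G)
    (Pseudo.precompact h)
  let cK : CommGroup K := { gK with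
    mul_comm := fun a b => h2.induction_on₂ (p := fun a b => a * b = b * a)
      (isClosed_eq (by fun_prop) (by fun_prop)) (fun a b => by rw [← map_mul, mul_comm, map_mul]) a b }
  let ev : G →+ Additive (K →ₜ* Circle) →+ T := AddMonoidHom.mk' (fun g => AddMonoidHom.mk'
    (fun γ => lg (γ.toMul (j (Multiplicative.ofAdd g)))) fun a b => lg_mul _ _) fun a b => by
      ext γ
      simp [ofAdd_add, lg_mul]
  refine ⟨_, inferInstance, ev, fun g hg => ?_, fun φ S hS => ?_⟩
  · obtain ⟨χ, hχ⟩ := Dual.sepChar (C := K) (x := j (Multiplicative.ofAdd g)) fun e =>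
      hg (Multiplicative.ofAdd.injective (h1.injective (e.trans (map_one j).symm)))
    exact ⟨Additive.ofMul χ, fun e => hχ (lg.injective (e.trans lg_one.symm))⟩
  · obtain ⟨c, hc⟩ := Dual.duality (C := K) (MonoidHom.mk' (fun a => (φ (Additive.ofMul a)).toCircle)
      fun a b => by rw [ofMul_mul, map_add, AddCircle.toCircle_add])
    rcases S.eq_empty_or_nonempty with rfl | hne
    · exact ⟨0, by simp⟩
    obtain ⟨s, rfl⟩ := hS.exists_eq_range hne
    obtain ⟨g, hg⟩ := h.gd (j := fun g => j (Multiplicative.ofAdd g)) h1.continuous h2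
      (f := fun n x => lg ((s n).toMul x)) (fun n => by fun_prop) c
    refine ⟨g, ?_⟩
    rintro _ ⟨n, rfl⟩
    refine (hg n).trans ?_
    rw [hc]
    exact lg_to _

end Pool.Agent.H15.Psc
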