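import Mathlib
import Pool.Agent.H15.Psc4
import Pool.Agent.H15.Psc5

set_option autoImplicit false

namespace Pool.Agent.H15.Psc
open Function Filter Topology Cardinal

/-- G carries a Hausdorff group topology with property P -/
def KV (P : ∀ (X : Type) [TopologicalSpace X], Prop) (G : Type) [AddCommGroup G] : Prop :=
  ∃ t : TopologicalSpace G, @IsTopologicalAddGroup G t _ ∧ @T2Space G t ∧ @P G t

variable {P : ∀ (X : Type) [TopologicalSpace X], Prop}

lemma KV.of_inj {G K : Type} [AddCommGroup G] [AddCommGroup K] [TopologicalSpace K]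
    [IsTopologicalAddGroup K] [T2Space K] (ψ : G →+ K) (hψ : Injective ψ)
    (h : ∀ [TopologicalSpace G], IsEmbedding ψ → P G) : KV P G := by
  let t : TopologicalSpace G := .induced ψ inferInstance
  have he : IsEmbedding ψ := ⟨⟨rfl⟩, hψ⟩
  exact ⟨t, he.isInducing.topologicalAddGroup, he.t2Space, h he⟩

lemma KV.cl (h1 : ∀ (X Y : Type) [TopologicalSpace X] [TopologicalSpace Y] (_ : X ≃ₜ Y), P Y → P X)
    (h2 : ∀ (X Y : Type) [TopologicalSpace X] [TopologicalSpace Y], P X → P Y → P (X × Y))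
    (h3 : ∀ (X : Type) [TopologicalSpace X] [DiscreteTopology X] [Finite X], P X)
    (h4 : ∀ (G : Type) [AddCommGroup G], CLH G → KV P G) : Cl (KV P) where
  prod G A B _ _ _ e := fun ⟨_, _, _, a⟩ ⟨_, _, _, b⟩ => KV.of_inj e.toAddMonoidHom e.injective
    fun he => h1 _ _ (e.toEquiv.toHomeomorphOfIsInducing he.isInducing) (h2 _ _ a b)
  fin G _ _ := by
    let t : TopologicalSpace G := ⊥
    have : DiscreteTopology G := ⟨rfl⟩
    exact ⟨t, inferInstance, inferInstance, h3 G⟩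
  clh := h4

lemma basic_seq {G ι : Type} [TopologicalSpace G] {ψ : G → ι → T} (hψ : IsInducing ψ)
    {U : ℕ → Set G} (hU : ∀ n, IsOpen (U n) ∧ (U n).Nonempty) : ∃ (g : ℕ → G) (S : Set ι),
      S.Countable ∧ ∀ n x, (∀ i ∈ S, ψ x i = ψ (g n) i) → x ∈ U n := by
  choose g hg using fun n => (hU n).2
  have : ∀ n, ∃ F : Finset ι, ∀ x, (∀ i ∈ F, ψ x i = ψ (g n) i) → x ∈ U n := fun n => by
    obtain ⟨W, hW, e⟩ := hψ.isOpen_iff.1 (hU n).1
    obtain ⟨F, u, h1, h2⟩ := isOpen_pi_iff.1 hW (ψ (g n)) (show g n ∈ ψ ⁻¹' W from e ▸ hg n)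
    exact ⟨F, fun x hx => e ▸ h2 fun i hi => (hx i hi).symm ▸ (h1 i hi).2⟩
  choose F hF using this
  exact ⟨g, ⋃ n, F n, Set.countable_iUnion fun n => (F n).countable_toSet,
    fun n x hx => hF n x fun i hi => hx i (Set.mem_iUnion.2 ⟨n, hi⟩)⟩

/-- some compact set meets all members of any sequence of nonempty open sets -/
def P1 (X : Type) [TopologicalSpace X] : Prop :=
  ∀ U : ℕ → Set X, (∀ n, IsOpen (U n) ∧ (U n).Nonempty) →
    ∃ C : Set X, IsCompact C ∧ ∀ n, (C ∩ U n).Nonempty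

lemma box_seq {X Y : Type} [TopologicalSpace X] [TopologicalSpace Y] {U : ℕ → Set (X × Y)}
    (hU : ∀ n, IsOpen (U n) ∧ (U n).Nonempty) : ∃ (A : ℕ → Set X) (B : ℕ → Set Y),
      (∀ n, IsOpen (A n) ∧ (A n).Nonempty) ∧ (∀ n, IsOpen (B n) ∧ (B n).Nonempty) ∧
        ∀ n, A n ×ˢ B n ⊆ U n := by
  choose p hp using fun n => (hU n).2
  choose A B h1 h2 h3 h4 h5 using fun n => isOpen_prod_iff.1 (hU n).1 (p n).1 (p n).2 (hp n)
  exact ⟨A, B, fun n => ⟨h1 n, _, h3 n⟩, fun n => ⟨h2 n, _, h4 n⟩, h5⟩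

lemma clh1 (G : Type) [AddCommGroup G] (h : CLH G) : KV P1 G := by
  classical
  let X := ℕ → Bool
  obtain ⟨n, h0, h⟩ := h.gen X mk_cantor.le
  let V := ℕ ⊕ ((Q →+ T) × ℕ × X)
  have c0 : #ℕ ≤ 𝔠 := mk_le_aleph0.trans aleph0_le_continuum
  obtain ⟨A, ι, J, ja, e, ρ, w, r1, r2, w1, w2⟩ := h V (by
    rw [mk_sum, lift_id, lift_id]
    exact add_le_of_le aleph0_le_continuum c0 (le_c_prod mk_homQ (le_c_prod c0 mk_cantor.le)))
  let Z := {y : T // n • y = 0}
  have : CompactSpace Z := isCompact_iff_compactSpace.1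
    (isClosed_eq (continuous_nsmul n) continuous_const).isCompact
  have : Nonempty Z := ⟨⟨0, smul_zero _⟩⟩
  obtain ⟨q, q1, q2⟩ : ∃ q : X → ℕ → Z, Continuous q ∧ Surjective q := by
    let : MetricSpace (ℕ → Z) := TopologicalSpace.metrizableSpaceMetric _
    exact exists_nat_bool_continuous_surjective_of_compact _
  obtain ⟨θ, hθ⟩ := exists_theta n
  let val : V → X → Q →+ T := fun v x => match v with
    | Sum.inl k => θ (q x k)
    | Sum.inr p => if (fun i : Fin p.2.1 => x i) = fun i : Fin p.2.1 => p.2.2 i then p.1 else 0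
  have vc : ∀ v, Continuous fun x => val v x (tq n) := by
    rintro (k | p)
    · exact (continuous_subtype_val.comp ((continuous_apply k).comp q1)).congr
        fun x => (hθ _ (q x k).2).symm
    · exact (continuous_of_discreteTopology (f := fun y : Fin p.2.1 → Bool =>
        (if y = fun i : Fin p.2.1 => p.2.2 i then p.1 else 0) (tq n))).comp
        (continuous_pi fun i => continuous_apply _)
  let χ : ι → G →+ T := fun i => (Finsupp.liftAddHom fun p : A × X => val (w i p.1) p.2).comp ρ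
  have he : ∀ i j x, χ i (e j x) = val (w i (ja j)) x (tq n) := fun i j x => by simp [χ, r2]
  refine KV.of_inj (AddMonoidHom.pi χ) ((injective_iff_map_eq_zero _).2 fun g hg => ?_)
    fun hψ U hU => ?_
  · by_contra hne
    obtain ⟨p₀, hp₀⟩ := Finsupp.support_nonempty_iff.2 ((map_ne_zero_iff ρ r1).2 hne)
    obtain ⟨φ, hφ⟩ := exists_char' (Finsupp.mem_support_iff.1 hp₀)
    obtain ⟨m, hm⟩ := ((eventually_all_finset (ρ g).support (l := atTop) (p := fun p (m : ℕ) =>
        ((fun i : Fin m => p.2 i) = fun i : Fin m => p₀.2 i) → p.2 = p₀.2)).2 fun p _ => by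
      by_cases hp : p.2 = p₀.2
      · exact Eventually.of_forall fun _ _ => hp
      · obtain ⟨k, hk⟩ := Function.ne_iff.1 hp
        filter_upwards [eventually_gt_atTop k] with m hm h
        exact absurd (congrFun h ⟨k, hm⟩) hk).exists
    obtain ⟨i, hi⟩ := w2 (Prod.fst '' ((ρ g).support : Set (A × X)))
      ((Finset.countable_toSet _).image _)
      fun a => Sum.inr (if a = p₀.1 then φ else 0, m, p₀.2)
    apply hφ
    rw [← show χ i g = 0 from congrFun hg i]
    simp only [χ, AddMonoidHom.comp_apply, Finsupp.liftAddHom_apply, Finsupp.sum]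
    rw [Finset.sum_eq_single_of_mem p₀ hp₀]
    · simp [hi _ ⟨_, hp₀, rfl⟩, val]
    · intro p hp hne
      simp only [hi _ ⟨_, hp, rfl⟩, val]
      split_ifs with h1 h2
      · exact absurd (Prod.ext h2 (hm p hp h1)) hne
      · rfl
      · rfl
  · obtain ⟨g, S, hS, hg⟩ := basic_seq hψ.isInducing hU
    obtain ⟨c, hc⟩ := Set.countable_iff_exists_injOn.1 hS
    obtain ⟨j, hj⟩ := w1 S hS fun i => Sum.inl (c i)
    refine ⟨Set.range (e j), isCompact_range (hψ.continuous_iff.2 (continuous_pi fun i => ?_)),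
      fun k => ?_⟩
    · exact (vc (w i (ja j))).congr fun x => (he i j x).symm
    · let y : ι → Z := fun i => ⟨χ i (g k), by rw [← map_nsmul, h0, map_zero]⟩
      obtain ⟨x, hx⟩ := q2 (extend (fun i : S => c i) (fun i => y i) fun _ => Classical.arbitrary Z)
      refine ⟨e j x, ⟨x, rfl⟩, hg k _ fun i hi => ?_⟩
      show χ i (e j x) = χ i (g k)
      rw [he, hj i hi]
      simp only [val]
      rw [hθ _ (q x _).2, hx]
      exact congrArg Subtype.val ((Set.injOn_iff_injective.1 hc).extend_apply _ _ ⟨i, hi⟩)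

theorem cl1 : Cl (KV P1) := by
  refine KV.cl (fun X Y _ _ e h U hU => ?_) (fun X Y _ _ h1 h2 U hU => ?_)
    (fun X _ _ _ U hU => ⟨_, isCompact_univ, fun n => by simpa using (hU n).2⟩) clh1
  · obtain ⟨C, h1, h2⟩ := h (fun n => e '' U n) fun n => ⟨e.isOpenMap _ (hU n).1, (hU n).2.image _⟩
    refine ⟨e ⁻¹' C, e.isCompact_preimage.2 h1, fun n => ?_⟩
    obtain ⟨_, a, x, b, rfl⟩ := h2 n
    exact ⟨x, a, b⟩
  · obtain ⟨A, B, hA, hB, h⟩ := box_seq hU
    obtain ⟨C, c1, c2⟩ := h1 A hA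
    obtain ⟨D, d1, d2⟩ := h2 B hB
    refine ⟨C ×ˢ D, c1.prod d1, fun n => ?_⟩
    obtain ⟨x, a, b⟩ := c2 n
    obtain ⟨y, c, d⟩ := d2 n
    exact ⟨(x, y), ⟨a, c⟩, h n ⟨b, d⟩⟩

theorem Cl.pseudo {Good : ∀ (G : Type) [AddCommGroup G], Prop} (hC : Cl Good) {G : Type}
    [AddCommGroup G] (h : KV Pseudo G) : Good G := by
  obtain ⟨_, _, _, h⟩ := h
  obtain ⟨Γ, _, ev, h⟩ := exists_DD G h
  exact hC.main h

end Pool.Agent.H15.Psc
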