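import Mathlib
import Pool.Agent.H15.Psc6

set_option autoImplicit false

namespace Pool.Agent.H15.Psc
open Function Filter Topology Cardinal

variable {M : Type} [AddCommGroup M]

lemma bt (χ : ℕ → M →+ T) (x : ℕ → M) (h1 : ∀ n, 1 / 4 ≤ ‖χ n (x n)‖)
    (h2 : ∀ m n, m < n → ‖χ m (x n)‖ ≤ (1 / 2) ^ m / 32) :
    ∃ ψ : M →+ T, (∀ n, 1 / 16 ≤ ‖ψ (x n)‖) ∧ ∀ y, (∀ m, χ m y = 0) → ψ y = 0 := by
  have h3 : ∀ n, ∑ m ∈ Finset.range n, ‖χ m (x n)‖ ≤ 1 / 16 := fun n => by
    refine (Finset.sum_le_sum fun m hm => h2 m n (Finset.mem_range.1 hm)).trans ?_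
    rw [← Finset.sum_div]
    linarith [sum_geometric_two_le n]
  have key : ∀ (N : ℕ) (β : M →+ T), ∃ ψ : M →+ T, (∀ n < N, 1 / 16 ≤ ‖ψ (x n)‖) ∧
      ∀ y, ‖ψ y - β y‖ ≤ ∑ m ∈ Finset.range N, ‖χ m y‖ := by
    intro N
    induction N with
    | zero => exact fun β => ⟨β, by simp, by simp⟩
    | succ N ih =>
      intro β
      obtain ⟨β', b1, b2⟩ : ∃ β' : M →+ T, 1 / 8 ≤ ‖β' (x N)‖ ∧ ∀ y, ‖β' y - β y‖ ≤ ‖χ N y‖ := by
        by_cases h : 1 / 8 ≤ ‖β (x N)‖
        · exact ⟨β, h, by simp⟩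
        · refine ⟨β + χ N, ?_, by simp⟩
          have := norm_sub_le (β (x N) + χ N (x N)) (β (x N))
          rw [add_sub_cancel_left] at this
          rw [AddMonoidHom.add_apply]
          linarith [h1 N]
      obtain ⟨ψ, p1, p2⟩ := ih β'
      refine ⟨ψ, fun n hn => ?_, fun y => ?_⟩
      · rcases Nat.lt_succ_iff_lt_or_eq.1 hn with h | rfl
        · exact p1 n h
        · have := norm_sub_norm_le (β' (x n)) (ψ (x n))
          rw [norm_sub_rev] at this
          linarith [p2 (x n), h3 n]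
      · rw [Finset.sum_range_succ]
        linarith [norm_sub_le_norm_sub_add_norm_sub (ψ y) (β' y) (β y), p2 y, b2 y]
  choose ψ p1 p2 using fun N => key N 0
  obtain ⟨φ, hφ⟩ := lim (hyperfilter ℕ) ψ
  refine ⟨φ, fun n => ge_of_tendsto (hφ (x n)).norm (Nat.hyperfilter_le_atTop
    ((eventually_gt_atTop n).mono fun N hN => p1 N n hN)), fun y hy => ?_⟩
  refine tendsto_nhds_unique (hφ y) (tendsto_const_nhds.congr fun N => ?_)
  simpa [hy, eq_comm] using p2 N y

lemma nc {z : ℕ → M} (hz : ∃ᶠ k in atTop, z k ≠ 0) :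
    ∃ φ : M →+ T, ¬ Tendsto (fun k => φ (z k)) atTop (𝓝 0) := by
  by_contra hc
  push Not at hc
  have : ∀ k, ∃ θ : M →+ T, z k ≠ 0 → 1 / 4 ≤ ‖θ (z k)‖ := fun k => by
    by_cases h : z k = 0
    · exact ⟨0, fun h' => absurd h h'⟩
    · exact (exists_char h).imp fun _ h _ => h
  choose θ hθ using this
  obtain ⟨f, f1, f2⟩ := exists_seq_of_forall_finset_exists (fun k => z k ≠ 0)
    (fun a b => a < b ∧ ‖θ a (z b)‖ ≤ (1 / 2) ^ a / 32) fun s _ =>
      (hz.and_eventually ((eventually_all_finset s).2 fun a _ => (eventually_gt_atTop a).and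
        ((tendsto_zero_iff_norm_tendsto_zero.1 (hc (θ a))).eventually
          (ge_mem_nhds (by positivity))))).exists
  have hf : StrictMono f := fun a b h => (f2 a b h).1
  obtain ⟨ψ, h, -⟩ := bt (fun n => θ (f n)) (fun n => z (f n)) (fun n => hθ _ (f1 n))
    fun m n h => (f2 m n h).2.trans (by
      gcongr ?_ / _
      exact pow_le_pow_of_le_one (by norm_num) (by norm_num) hf.le_apply)
  have := ge_of_tendsto' (((hc ψ).comp hf.tendsto_atTop).norm) h
  norm_num at this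

lemma sel {A : Type} {q : Ultrafilter ℕ} (hq : ∀ n : ℕ, ({n} : Set ℕ) ∉ q) {p : ℕ → Prop}
    (hp : ∃ᶠ k in atTop, p k) (L : ℕ → A × ℕ) :
    ∃ N : A → Set ℕ, (∀ a, N a ∉ q) ∧ ∃ᶠ k in atTop, p k ∧ (L k).2 ∈ N (L k).1 := by
  by_cases h : ∀ a, {n | ∃ k, p k ∧ L k = (a, n)} ∉ q
  · exact ⟨_, h, hp.mono fun k hk => ⟨hk, k, hk, rfl⟩⟩
  push Not at h
  obtain ⟨a, ha⟩ := h
  have hi : {n | ∃ k, p k ∧ L k = (a, n)}.Infinite := fun hf => by
    obtain ⟨n, -, hn⟩ := Ultrafilter.eq_pure_of_finite_mem hf ha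
    exact hq n (by rw [hn]; rfl)
  let f := hi.natEmbedding
  obtain ⟨g, g1, g2⟩ : ∃ g : ℕ → ℕ, Injective g ∧ Set.range (fun n => (f (g n) : ℕ)) ∉ q := by
    by_cases h : Set.range (fun n => (f (2 * n) : ℕ)) ∈ q
    · refine ⟨fun n => 2 * n + 1, fun a b h => by simpa using h, fun h' => ?_⟩
      obtain ⟨_, ⟨a, rfl⟩, b, e⟩ := Ultrafilter.nonempty_of_mem (inter_mem h h')
      have : 2 * b + 1 = 2 * a := f.injective (Subtype.ext e)
      omega
    · exact ⟨fun n => 2 * n, fun a b h => by simpa using h, h⟩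
  refine ⟨fun _ => _, fun _ => g2, Nat.frequently_atTop_iff_infinite.2 ?_⟩
  refine Set.Infinite.of_image (fun k => (L k).2) ((Set.infinite_range_of_injective
    (f := fun n => (f (g n) : ℕ)) (Subtype.val_injective.comp (f.injective.comp g1))).mono ?_)
  rintro _ ⟨n, rfl⟩
  obtain ⟨k, h1, h2⟩ := (f (g n)).2
  exact ⟨k, ⟨h1, n, by rw [h2]⟩, by simp [h2]⟩

lemma mapDomain_at {A B : Type} {κ : A → B} {y : A →₀ M} {a : A}
    (h : ∀ b, y b ≠ 0 → κ b = κ a → b = a) : Finsupp.mapDomain κ y (κ a) = y a := by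
  classical
  rw [Finsupp.mapDomain, Finsupp.sum_apply, Finsupp.sum, Finset.sum_eq_single a]
  · simp
  · intro b hb hne
    exact Finsupp.single_eq_of_ne' fun e => hne (h b (Finsupp.mem_support_iff.1 hb) e)
  · intro ha
    simp [Finsupp.notMem_support_iff.1 ha]

/-- strongly q-pseudocompact, and convergent sequences are eventually constant -/
def P2 (q : Ultrafilter ℕ) (X : Type) [TopologicalSpace X] : Prop :=
  (∀ U : ℕ → Set X, (∀ n, IsOpen (U n) ∧ (U n).Nonempty) →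
    ∃ x : ℕ → X, (∀ n, x n ∈ U n) ∧ ∃ a, Tendsto x q (𝓝 a)) ∧
  ∀ (x : ℕ → X) (a : X), Tendsto x atTop (𝓝 a) → ∀ᶠ n in atTop, x n = a

lemma lift_agree {A X V : Type} (val : V → X → Q →+ T) {u u' : A → V} (y : A × X →₀ Q)
    (h : ∀ p ∈ y.support, u p.1 = u' p.1) :
    Finsupp.liftAddHom (fun p : A × X => val (u p.1) p.2) y =
      Finsupp.liftAddHom (fun p : A × X => val (u' p.1) p.2) y := by
  simp only [Finsupp.liftAddHom_apply, Finsupp.sum]
  exact Finset.sum_congr rfl fun p hp => by rw [h p hp]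

lemma clh2 {q : Ultrafilter ℕ} (hq : ∀ n : ℕ, ({n} : Set ℕ) ∉ q) (G : Type) [AddCommGroup G]
    (h : CLH G) : KV (P2 q) G := by
  classical
  obtain ⟨n, h0, h⟩ := h.gen (Option ℕ) (mk_le_aleph0.trans aleph0_le_continuum)
  let V := {v : Option ℕ → Q →+ T // Tendsto (fun k => v (some k) (tq n)) q (𝓝 (v none (tq n)))}
  have : Nonempty V := ⟨⟨0, tendsto_const_nhds⟩⟩
  obtain ⟨A, ι, J, ja, e, ρ, w, r1, r2, w1, w2⟩ := h V ((mk_subtype_le _).trans (by
    rw [← power_def]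
    exact (power_le_power_right mk_homQ).trans
      ((power_le_power_left continuum_ne_zero mk_le_aleph0).trans continuum_power_aleph0.le)))
  obtain ⟨θ, hθ⟩ := exists_theta n
  let χ : ι → G →+ T := fun i => (Finsupp.liftAddHom fun p : A × Option ℕ => (w i p.1).1 p.2).comp ρ
  have he : ∀ i j x, χ i (e j x) = (w i (ja j)).1 x (tq n) := fun i j x => by simp [χ, r2]
  have key : ∀ z : ℕ → G, (∀ i, Tendsto (fun k => χ i (z k)) atTop (𝓝 0)) →
      ∀ᶠ k in atTop, z k = 0 := by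
    intro z hz
    by_contra hc
    replace hc : ∃ᶠ k in atTop, z k ≠ 0 := not_eventually.1 hc
    have hA : Nonempty A := by
      obtain ⟨k, hk⟩ := hc.exists
      obtain ⟨p, -⟩ := Finsupp.support_nonempty_iff.2 ((map_ne_zero_iff ρ r1).2 hk)
      exact ⟨p.1⟩
    have : ∀ k, ∃ l : A × ℕ, z k ≠ 0 → ρ (z k) (l.1, some l.2) ≠ 0 ∨
        (ρ (z k) (l.1, none) ≠ 0 ∧ ∀ a m, ρ (z k) (a, some m) = 0) := fun k => by
      by_cases h1 : ∀ a m, ρ (z k) (a, some m) = 0
      · by_cases hk : z k = 0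
        · exact ⟨Classical.arbitrary _, fun h => absurd hk h⟩
        obtain ⟨⟨a, _ | m⟩, hp⟩ := Finsupp.support_nonempty_iff.2 ((map_ne_zero_iff ρ r1).2 hk)
        · exact ⟨(a, 0), fun _ => Or.inr ⟨Finsupp.mem_support_iff.1 hp, h1⟩⟩
        · exact absurd (h1 a m) (Finsupp.mem_support_iff.1 hp)
      · push Not at h1
        obtain ⟨a, m, h1⟩ := h1
        exact ⟨(a, m), fun _ => Or.inl h1⟩
    choose L hL using this
    obtain ⟨N, n1, n2⟩ := sel hq hc L
    let κ : A × Option ℕ → A × Option ℕ := fun p =>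
      (p.1, p.2.bind fun m => if m ∈ N p.1 then some m else none)
    obtain ⟨φ, hφ⟩ := nc (z := fun k => Finsupp.mapDomain κ (ρ (z k))) (n2.mono fun k hk e => by
      rcases hL k hk.1 with h | h
      · refine h ((mapDomain_at (κ := κ) ?_).symm.trans (DFunLike.congr_fun e _))
        rintro ⟨a, _ | m⟩ - h1
        · simp [κ, hk.2] at h1
        · simp only [κ, hk.2, Prod.mk.injEq, Option.bind_some, if_true] at h1
          split_ifs at h1 with h2
          · exact Prod.ext h1.1 h1.2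
          · simp at h1
      · refine h.1 ((mapDomain_at (κ := κ) ?_).symm.trans (DFunLike.congr_fun e _))
        rintro ⟨a, _ | m⟩ h1 h2
        · simpa [κ] using h2
        · exact absurd (h.2 a m) h1)
    let u : A → V := fun a => ⟨fun x => φ.comp (Finsupp.singleAddHom (κ (a, x))),
      tendsto_const_nhds.congr' (by
        filter_upwards [Ultrafilter.compl_mem_iff_notMem.2 (n1 a)] with m hm
        simp [κ, show m ∉ N a from hm])⟩
    obtain ⟨i, hi⟩ := w2 (⋃ k, Prod.fst '' ((ρ (z k)).support : Set (A × Option ℕ)))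
      (Set.countable_iUnion fun k => (Finset.countable_toSet _).image _) u
    refine hφ ((hz i).congr fun k => ?_)
    refine (lift_agree (fun v : V => v.1) (u := w i) (u' := u) _ fun p hp =>
      hi _ (Set.mem_iUnion.2 ⟨k, p, hp, rfl⟩)).trans ?_
    simp only [Finsupp.liftAddHom_apply, Finsupp.sum, Finsupp.mapDomain, map_sum]
    rfl
  refine KV.of_inj (AddMonoidHom.pi χ) ((injective_iff_map_eq_zero _).2 fun g hg => ?_)
    fun hψ => ⟨fun U hU => ?_, fun x a hx => ?_⟩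
  · exact (key (fun _ => g) fun i => tendsto_const_nhds.congr
      fun _ => (congrFun hg i).symm).exists.elim fun _ h => h
  · obtain ⟨g, S, hS, hg⟩ := basic_seq hψ.isInducing hU
    have hn : ∀ i g, n • χ i g = 0 := fun i g => by rw [← map_nsmul, h0, map_zero]
    have : ∀ i, ∃ y, Tendsto (fun k => χ i (g k)) q (𝓝 y) := fun i =>
      ⟨_, (q.map fun k => χ i (g k)).le_nhds_lim⟩
    choose y hy using this
    have hn' : ∀ i, n • y i = 0 := fun i => tendsto_nhds_unique ((hy i).nsmul n)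
      (tendsto_const_nhds.congr fun k => (hn i _).symm)
    obtain ⟨j, hj⟩ := w1 S hS fun i => ⟨fun x => θ (x.elim (y i) fun k => χ i (g k)), by
      simpa [hθ _ (hn i _), hθ _ (hn' i)] using hy i⟩
    refine ⟨fun k => e j (some k), fun k => hg k _ fun i hi => ?_, e j none,
      hψ.tendsto_nhds_iff.2 (tendsto_pi_nhds.2 fun i => ?_)⟩
    · show χ i _ = χ i _
      rw [he, hj i hi]
      exact hθ _ (hn i _)
    · show Tendsto (fun k => χ i _) _ (𝓝 (χ i _))
      simp only [he]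
      exact (w i (ja j)).2
  · refine (key (fun k => x k - a) fun i => ?_).mono fun k hk => sub_eq_zero.1 hk
    have := (tendsto_pi_nhds.1 (hψ.tendsto_nhds_iff.1 hx) i).sub_const (χ i a)
    simpa using this

theorem cl2 {q : Ultrafilter ℕ} (hq : ∀ n : ℕ, ({n} : Set ℕ) ∉ q) : Cl (KV (P2 q)) := by
  refine KV.cl (fun X Y _ _ e h => ⟨fun U hU => ?_, fun x a hx => ?_⟩)
    (fun X Y _ _ h1 h2 => ⟨fun U hU => ?_, fun x a hx => ?_⟩)
    (fun X _ _ _ => ⟨fun U hU => ?_, fun x a hx => by simpa using hx⟩) (clh2 hq)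
  · obtain ⟨x, h1, a, h2⟩ := h.1 (fun n => e.symm ⁻¹' U n) fun n =>
      ⟨(hU n).1.preimage e.symm.continuous, (hU n).2.preimage e.symm.surjective⟩
    exact ⟨fun n => e.symm (x n), h1, _, (e.symm.continuous.tendsto a).comp h2⟩
  · exact (h.2 _ _ ((e.continuous.tendsto a).comp hx)).mono fun n hn => e.injective hn
  · obtain ⟨A, B, hA, hB, h⟩ := box_seq hU
    obtain ⟨x, c1, a, c2⟩ := h1.1 A hA
    obtain ⟨y, d1, b, d2⟩ := h2.1 B hB
    exact ⟨fun n => (x n, y n), fun n => h n ⟨c1 n, d1 n⟩, (a, b), c2.prodMk_nhds d2⟩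
  · filter_upwards [h1.2 _ _ ((continuous_fst.tendsto a).comp hx),
      h2.2 _ _ ((continuous_snd.tendsto a).comp hx)] with n a b using Prod.ext a b
  · choose x hx using fun n => (hU n).2
    have : Nonempty X := ⟨x 0⟩
    exact ⟨x, hx, _, (q.map x).le_nhds_lim⟩

end Pool.Agent.H15.Psc
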