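import Mathlib
import Pool.Agent.H15.Psc7

set_option autoImplicit false

namespace Pool.Agent.H15.Psc
open Function Filter Topology Cardinal Pool.Agent.H71

variable {G Γ M : Type} [AddCommGroup G] [AddCommGroup Γ] [AddCommGroup M]

lemma norm_coe_T {r : ℝ} (h : |r| ≤ 1 / 2) : ‖(r : T)‖ = |r| :=
  (AddCircle.norm_coe_eq_abs_iff 1 one_ne_zero).2 (by simpa using h)

lemma small_zero {t : T} (h : ∀ k : ℕ, ‖k • t‖ ≤ 1 / 4) : t = 0 := by
  obtain ⟨r, hr, rfl⟩ : ∃ r : ℝ, |r| ≤ 1 / 2 ∧ (r : T) = t := by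
    obtain ⟨r, rfl⟩ := QuotientAddGroup.mk_surjective t
    exact ⟨r - round r, abs_sub_round r, by simp⟩
  by_contra h0
  have r0 : 0 < |r| := abs_pos.2 fun e => h0 (by simp [e])
  have h1 := h 1
  rw [one_smul, norm_coe_T hr] at h1
  have h2 := h ⌊1 / (2 * |r|)⌋₊
  have a1 : (⌊1 / (2 * |r|)⌋₊ : ℝ) * (2 * |r|) ≤ 1 :=
    (le_div_iff₀ (by positivity)).1 (Nat.floor_le (by positivity))
  have a2 : 1 < ((⌊1 / (2 * |r|)⌋₊ : ℝ) + 1) * (2 * |r|) :=
    (div_lt_iff₀ (by positivity)).1 (Nat.lt_floor_add_one _)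
  rw [← AddCircle.coe_nsmul, nsmul_eq_mul, norm_coe_T, abs_mul, Nat.abs_cast] at h2
  · linarith
  · rw [abs_mul, Nat.abs_cast]; linarith

lemma exists_char3 {x : M} (hx : x ≠ 0) : ∃ θ : M →+ T, 1 / 4 < ‖θ x‖ := by
  obtain ⟨θ, h⟩ := exists_char' hx
  by_contra hc
  push Not at hc
  exact h (small_zero fun k => hc (k • θ))

/-- every character of Γ is given on a countable set by an element of G -/
def Fill (ev : G →+ Γ →+ T) : Prop :=
  ∀ (φ : Γ →+ T) (S : Set Γ), S.Countable → ∃ g, ∀ γ ∈ S, ev g γ = φ γ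

lemma cr [TopologicalSpace G] {ev : G →+ Γ →+ T} (hi : IsInducing fun g => (ev g : Γ → T))
    (Θ : G →+ T) (hΘ : Continuous Θ) : ∃ γ, ∀ g, Θ g = ev g γ := by
  classical
  obtain ⟨W, hW, e⟩ := hi.isOpen_iff.1 (isOpen_lt hΘ.norm (continuous_const (y := (1 / 4 : ℝ))))
  obtain ⟨F, u, h1, h2⟩ := isOpen_pi_iff.1 hW (ev 0) (by
    show 0 ∈ (fun g => (ev g : Γ → T)) ⁻¹' W
    rw [e]; simp)
  let ρ : G →+ (Option F → T) := AddMonoidHom.pi fun o => o.elim Θ fun γ => ev.flip γ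
  let C := ρ.range.topologicalClosure
  have : CompactSpace C := isCompact_iff_compactSpace.1 ρ.range.isClosed_topologicalClosure.isCompact
  have : CompactSpace (Multiplicative C) := ‹CompactSpace C›
  have : T2Space (Multiplicative C) := inferInstanceAs (T2Space C)
  let ch : (Option F → ℤ) → Multiplicative C →ₜ* Circle := fun c =>
    { toFun := fun x => (∑ o, c o • x.toAdd.1 o).toCircle
      map_one' := by simp
      map_mul' := fun a b => by simp [Finset.sum_add_distrib, AddCircle.toCircle_add]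
      continuous_toFun := AddCircle.continuous_toCircle.comp (continuous_finsetSum _ fun o _ =>
        ((continuous_apply o).comp continuous_subtype_val).zsmul _) }
  have cha : ∀ c x, ch c x = (∑ o, c o • x.toAdd.1 o).toCircle := fun _ _ => rfl
  let B : Subgroup (Multiplicative C →ₜ* Circle) :=
    { carrier := {b | ∃ c, c none = 0 ∧ ch c = b}
      one_mem' := ⟨0, rfl, by ext x; simp [cha]⟩
      mul_mem' := by
        rintro _ _ ⟨a, a0, rfl⟩ ⟨b, b0, rfl⟩
        exact ⟨a + b, by simp [a0, b0], by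
          ext x; simp [cha, add_smul, Finset.sum_add_distrib, AddCircle.toCircle_add]⟩
      inv_mem' := by
        rintro _ ⟨a, a0, rfl⟩
        refine ⟨-a, by simp [a0], ContinuousMonoidHom.ext fun x => ?_⟩
        show _ = (ch a x)⁻¹
        rw [cha, cha, ← AddCircle.toCircle_neg, ← Finset.sum_neg_distrib]
        simp only [Pi.neg_apply, neg_smul] }
  have hC : ∀ x ∈ C, (∀ γ : F, x (some γ) ∈ u γ) → ‖x none‖ ≤ 1 / 4 := by
    have : IsClosed {x : Option F → T | (∀ γ : F, x (some γ) ∈ u γ) → ‖x none‖ ≤ 1 / 4} := by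
      refine isClosed_imp ?_ (isClosed_le (by fun_prop) continuous_const)
      rw [Set.ofPred_forall]
      exact isOpen_iInter_of_finite fun γ => (h1 γ γ.2).1.preimage (continuous_apply (some γ))
    refine closure_minimal ?_ this
    rintro _ ⟨g, rfl⟩ hg
    have : g ∈ (fun g => (ev g : Γ → T)) ⁻¹' W := h2 fun γ hγ => hg ⟨γ, hγ⟩
    rw [e] at this
    exact le_of_lt this
  obtain ⟨c, c0, hc⟩ := Dual.mem_of_sep B (fun x hx => by
    by_contra hc
    push Not at hc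
    have h3 : ∀ γ : F, x.toAdd.1 (some γ) = 0 := fun γ => by
      have := hc _ ⟨Pi.single (some γ) 1, by simp, rfl⟩
      simp only [cha, Pi.single_apply, ite_smul, one_smul, zero_smul, Finset.sum_ite_eq',
        Finset.mem_univ, if_true] at this
      exact AddCircle.injective_toCircle one_ne_zero (this.trans AddCircle.toCircle_zero.symm)
    refine hx (Subtype.ext (funext fun o => ?_))
    rcases o with _ | γ
    · exact small_zero fun k => hC _ (C.nsmul_mem x.toAdd.2 k) fun γ => by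
        simpa [h3] using (h1 γ γ.2).2
    · exact h3 γ) (ch (Pi.single none 1))
  refine ⟨∑ γ : F, c (some γ) • γ.1, fun g => AddCircle.injective_toCircle one_ne_zero ?_⟩
  have := DFunLike.congr_fun hc (Multiplicative.ofAdd ⟨ρ g, subset_closure ⟨g, rfl⟩⟩)
  simp only [cha, Pi.single_apply, ite_smul, one_smul, zero_smul, Finset.sum_ite_eq',
    Finset.mem_univ, if_true] at this
  rw [Fintype.sum_option, c0, zero_smul, zero_add] at this
  rw [map_sum]
  simp only [map_zsmul]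
  exact this.symm

variable {ev : G →+ Γ →+ T}

lemma Fill.sep (h : Fill ev.flip) {g : G} (hg : g ≠ 0) : ∃ γ, 1 / 4 < ‖ev g γ‖ := by
  obtain ⟨φ, hφ⟩ := exists_char3 hg
  obtain ⟨γ, hγ⟩ := h φ {g} (Set.countable_singleton _)
  exact ⟨γ, by rwa [← hγ g rfl] at hφ⟩

lemma Fill.inj (h : Fill ev.flip) : Injective fun g => (ev g : Γ → T) := fun a b e => by
  by_contra hne
  obtain ⟨γ, hγ⟩ := h.sep (sub_ne_zero.2 hne)
  rw [map_sub, AddMonoidHom.sub_apply, show ev a γ = ev b γ from congrFun e γ] at hγ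
  norm_num at hγ

lemma Fill.pairs (h : Fill ev.flip) {u : ℕ → G} (hu : Injective u) : ∃ (y : ℕ → G) (γ : ℕ → Γ),
    (∀ n, ∃ i j, y n = u i - u j) ∧ (∀ n, 1 / 4 < ‖ev (y n) (γ n)‖) ∧
      ∀ m n, m < n → ‖ev (y n) (γ m)‖ < (1 / 2) ^ n / 32 := by
  obtain ⟨ψ, hψ⟩ := lim (hyperfilter ℕ) fun k => ev (u k)
  obtain ⟨f, f1, f2⟩ := exists_seq_of_forall_finset_exists
    (fun p : ℕ × G × Γ => (∃ i j, p.2.1 = u i - u j) ∧ 1 / 4 < ‖ev p.2.1 p.2.2‖)
    (fun a b => a.1 < b.1 ∧ ‖ev b.2.1 a.2.2‖ < (1 / 2) ^ b.1 / 32) fun s _ => by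
      let k := s.sup Prod.fst + 1
      have : ∀ᶠ i in hyperfilter ℕ, ∀ a ∈ s, dist (ev (u i) a.2.2) (ψ a.2.2) < (1 / 2) ^ k / 64 :=
        (eventually_all_finset s).2 fun a _ => Metric.tendsto_nhds.1 (hψ _) _ (by positivity)
      obtain ⟨i, hi, j, hj, hij⟩ := Set.Infinite.nontrivial fun hf =>
        Set.Finite.notMem_hyperfilter hf this
      obtain ⟨γ, hγ⟩ := h.sep (sub_ne_zero.2 (hu.ne hij))
      refine ⟨(k, u i - u j, γ), ⟨⟨i, j, rfl⟩, hγ⟩, fun a ha =>
        ⟨Nat.lt_succ_of_le (Finset.le_sup (f := Prod.fst) ha), ?_⟩⟩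
      rw [map_sub, AddMonoidHom.sub_apply, ← dist_eq_norm]
      linarith [dist_triangle_right (ev (u i) a.2.2) (ev (u j) a.2.2) (ψ a.2.2), hi a ha, hj a ha]
  have hf : StrictMono fun n => (f n).1 := fun a b h => (f2 a b h).1
  refine ⟨fun n => (f n).2.1, fun n => (f n).2.2, fun n => (f1 n).1, fun n => (f1 n).2,
    fun m n h => (f2 m n h).2.trans_le ?_⟩
  gcongr ?_ / _
  exact pow_le_pow_of_le_one (by norm_num) (by norm_num) hf.le_apply

section top
variable [TopologicalSpace G] (hi : IsInducing fun g => (ev g : Γ → T))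
include hi

lemma cont_ev (γ : Γ) : Continuous fun g => ev g γ := (continuous_apply γ).comp hi.continuous

lemma Fill.noacc (h : Fill ev.flip) {y : ℕ → G} {γ : ℕ → Γ} (h1 : ∀ n, 1 / 4 < ‖ev (y n) (γ n)‖)
    (h2 : ∀ m n, m < n → ‖ev (y n) (γ m)‖ < (1 / 2) ^ n / 32) (a : G) :
    ¬ MapClusterPt a atTop y := by
  intro ha
  obtain ⟨ψ, p1, p2⟩ := bt (fun n => ev.flip (γ n)) y (fun n => (h1 n).le) fun m n h =>
    (h2 m n h).le.trans (by
      gcongr ?_ / _
      exact pow_le_pow_of_le_one (by norm_num) (by norm_num) h.le)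
  have a0 : ψ a = 0 := p2 a fun m => by
    have t0 : Tendsto (fun n => ev (y n) (γ m)) atTop (𝓝 0) := by
      refine squeeze_zero_norm' ((eventually_gt_atTop m).mono fun n hn => (h2 m n hn).le) ?_
      simpa using (tendsto_pow_atTop_nhds_zero_of_lt_one (r := (1 / 2 : ℝ)) (by norm_num)
        (by norm_num)).div_const 32
    exact eq_of_nhds_neBot ((ha.tendsto_comp ((cont_ev hi (γ m)).tendsto a)).clusterPt.mono t0)
  obtain ⟨δ, hδ⟩ := h ψ (insert a (Set.range y)) ((Set.countable_range y).insert a)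
  obtain ⟨n, hn⟩ := (mapClusterPt_iff_frequently.1 ha {x | ‖ev x δ‖ < 1 / 16}
    ((isOpen_lt (cont_ev hi δ).norm continuous_const).mem_nhds (by
      show ‖ev.flip δ a‖ < _
      rw [hδ a (Or.inl rfl), a0]; norm_num))).exists
  exact (p1 n).not_gt (by rw [← hδ _ (Or.inr ⟨n, rfl⟩)]; exact hn)

lemma Fill.fin_compact [IsTopologicalAddGroup G] (h : Fill ev.flip) {C : Set G} (hC : IsCompact C) :
    C.Finite := by
  by_contra hf
  let f := Set.Infinite.natEmbedding C hf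
  obtain ⟨y, γ, h0, h1, h2⟩ := h.pairs (Subtype.val_injective.comp f.injective)
  obtain ⟨a, -, ha⟩ := ((hC.prod hC).image continuous_sub).exists_mapClusterPt (f := atTop) (u := y)
    (le_principal_iff.2 (univ_mem' (f := atTop) fun n => by
      obtain ⟨i, j, e⟩ := h0 n
      exact ⟨((f i).1, (f j).1), ⟨(f i).2, (f j).2⟩, e.symm⟩))
  exact h.noacc hi h1 h2 a ha

lemma Fill.nonsel [Infinite G] (h : Fill ev.flip) : ∃ U : ℕ → Set G,
    (∀ n, IsOpen (U n) ∧ (U n).Nonempty) ∧ ∀ x : ℕ → G, (∀ n, x n ∈ U n) →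
      ∀ a, ¬ MapClusterPt a atTop x := by
  obtain ⟨y, γ, -, h1, h2⟩ := h.pairs (Infinite.natEmbedding G).injective
  refine ⟨fun n => {x | 1 / 4 < ‖ev x (γ n)‖} ∩
    ⋂ m ∈ Finset.range n, {x | ‖ev x (γ m)‖ < (1 / 2) ^ n / 32}, fun n =>
      ⟨(isOpen_lt continuous_const (cont_ev hi _).norm).inter (isOpen_biInter_finset fun m _ =>
        isOpen_lt (cont_ev hi _).norm continuous_const), y n, h1 n,
        Set.mem_iInter₂.2 fun m hm => h2 m n (Finset.mem_range.1 hm)⟩, fun x hx =>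
    h.noacc hi (fun n => (hx n).1) fun m n hm => Set.mem_iInter₂.1 (hx n).2 m (Finset.mem_range.2 hm)⟩

lemma Fill.pseudo (h : Fill ev) : Pseudo G := by
  intro f hf
  by_contra hc
  push Not at hc
  obtain ⟨g, S, hS, hg⟩ := basic_seq hi (U := fun n => {x | (n : ℝ) < |f x|}) fun n =>
    ⟨isOpen_lt continuous_const hf.abs, hc n⟩
  obtain ⟨φ, hφ⟩ := lim (hyperfilter ℕ) fun n => ev (g n)
  obtain ⟨a, ha⟩ := h φ S hS
  obtain ⟨W, hW, e⟩ := hi.isOpen_iff.1 (isOpen_lt hf.abs (continuous_const (y := |f a| + 1)))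
  obtain ⟨F, u, h1, h2⟩ := isOpen_pi_iff.1 hW (ev a) (by
    show a ∈ (fun g => (ev g : Γ → T)) ⁻¹' W
    rw [e]; simp)
  obtain ⟨N, hN⟩ := exists_nat_gt (|f a| + 1)
  have : ∀ᶠ n in hyperfilter ℕ, ∀ γ ∈ F, ev (g n) γ - φ γ + ev a γ ∈ u γ :=
    (eventually_all_finset F).2 fun γ hγ => (((hφ γ).sub_const (φ γ)).add_const (ev a γ)).eventually
      ((h1 γ hγ).1.mem_nhds (by simpa using (h1 γ hγ).2))
  obtain ⟨n, n1, n2⟩ := (this.and (Nat.hyperfilter_le_atTop (eventually_ge_atTop N))).exists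
  obtain ⟨x, hx⟩ := h (ev (g n) - φ + ev a) (S ∪ F) (hS.union F.countable_toSet)
  have x1 : (n : ℝ) < |f x| := hg n x fun γ hγ => by simp [hx γ (Or.inl hγ), ha γ hγ]
  have x2 : x ∈ (fun g => (ev g : Γ → T)) ⁻¹' W := h2 fun γ hγ => by
    show ev x γ ∈ u γ
    rw [hx γ (Or.inr hγ)]; exact n1 γ hγ
  rw [e] at x2
  have : (N : ℝ) ≤ n := by exact_mod_cast n2
  linarith [show |f x| < |f a| + 1 from x2]

end top

/-- pairings with the filling property on both sides -/
def G3 (G : Type) [AddCommGroup G] : Prop :=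
  ∃ (Γ : Type) (_ : AddCommGroup Γ) (ev : G →+ Γ →+ T), Fill ev ∧ Fill ev.flip

lemma clh3 (G : Type) [AddCommGroup G] (h : CLH G) : G3 G := by
  classical
  obtain ⟨n, h0, h⟩ := h.gen Unit (mk_le_aleph0.trans aleph0_le_continuum)
  obtain ⟨A, ι, J, ja, e, ρ, w, r1, r2, w1, w2⟩ := h (Q →+ T) mk_homQ
  obtain ⟨θ, hθ⟩ := exists_theta n
  let χ : ι → G →+ T := fun i => (Finsupp.liftAddHom fun p : A × Unit => w i p.1).comp ρ
  let L := (Finsupp.linearCombination ℤ χ).toAddMonoidHom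
  have hL : ∀ i, L (Finsupp.single i 1) = χ i := fun i => by simp [L]
  refine ⟨L.range, inferInstance, L.range.subtype.flip, fun φ S hS => ?_, fun φ S hS => ?_⟩
  · choose l hl using fun γ : L.range => γ.2
    obtain ⟨j, hj⟩ := w1 (⋃ γ ∈ S, (l γ).support) (hS.biUnion fun _ _ => Finset.countable_toSet _)
      fun i => θ (φ (L.rangeRestrict (Finsupp.single i 1)))
    refine ⟨e j (), fun γ hγ => ?_⟩
    rw [show γ = L.rangeRestrict (l γ) from Subtype.ext (hl γ).symm, ← Finsupp.sum_single (l γ),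
      Finsupp.sum, map_sum, map_sum, map_sum]
    refine Finset.sum_congr rfl fun i hi => ?_
    rw [← Finsupp.smul_single_one, map_zsmul, map_zsmul, map_zsmul]
    congr 1
    show L (Finsupp.single i 1) (e j ()) = _
    simp only [hL, χ, AddMonoidHom.comp_apply, r2, Finsupp.liftAddHom_apply_single]
    rw [hj i (Set.mem_biUnion hγ hi), hθ]
    rw [← map_nsmul, show n • L.rangeRestrict (Finsupp.single i 1) = 0 from Subtype.ext ?_, map_zero]
    ext g
    show n • L (Finsupp.single i 1) g = 0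
    rw [← map_nsmul, h0, map_zero]
  · obtain ⟨Θ, hΘ⟩ := ext0 dvT ρ φ fun z hz => by rw [(map_eq_zero_iff ρ r1).1 hz, map_zero]
    obtain ⟨i, hi⟩ := w2 (⋃ g ∈ S, Prod.fst '' ((ρ g).support : Set (A × Unit)))
      (hS.biUnion fun _ _ => (Finset.countable_toSet _).image _)
      fun a => Θ.comp (Finsupp.singleAddHom (a, ()))
    refine ⟨⟨χ i, _, hL i⟩, fun g hg => ?_⟩
    refine (lift_agree (fun (v : Q →+ T) (_ : Unit) => v) (u := w i)
      (u' := fun a => Θ.comp (Finsupp.singleAddHom (a, ()))) _ fun p hp =>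
      hi _ (Set.mem_biUnion hg ⟨p, hp, rfl⟩)).trans ?_
    rw [← hΘ]
    conv_rhs => rw [← Finsupp.sum_single (ρ g)]
    simp only [Finsupp.liftAddHom_apply, Finsupp.sum, map_sum]
    rfl

theorem cl3 : Cl G3 where
  prod G A B _ _ _ e := by
    rintro ⟨Γ, _, ev, h1, h2⟩ ⟨Γ', _, ev', h1', h2'⟩
    let E : G →+ Γ × Γ' →+ T := AddMonoidHom.mk' (fun g => (ev (e g).1).coprod (ev' (e g).2))
      fun a b => by ext; simp; abel
    have hE : ∀ g γ, E g γ = ev (e g).1 γ.1 + ev' (e g).2 γ.2 := fun _ _ => rfl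
    refine ⟨Γ × Γ', inferInstance, E, fun φ S hS => ?_, fun φ S hS => ?_⟩
    · obtain ⟨a, ha⟩ := h1 (φ.comp (AddMonoidHom.inl _ _)) _ (hS.image Prod.fst)
      obtain ⟨b, hb⟩ := h1' (φ.comp (AddMonoidHom.inr _ _)) _ (hS.image Prod.snd)
      refine ⟨e.symm (a, b), fun γ hγ => ?_⟩
      simp [hE, ha _ ⟨γ, hγ, rfl⟩, hb _ ⟨γ, hγ, rfl⟩, ← map_add]
    · obtain ⟨a, ha⟩ := h2 ((φ.comp e.symm.toAddMonoidHom).comp (AddMonoidHom.inl _ _)) _
        (hS.image fun g => (e g).1)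
      obtain ⟨b, hb⟩ := h2' ((φ.comp e.symm.toAddMonoidHom).comp (AddMonoidHom.inr _ _)) _
        (hS.image fun g => (e g).2)
      refine ⟨(a, b), fun g hg => ?_⟩
      have k1 := ha _ ⟨g, hg, rfl⟩
      have k2 := hb _ ⟨g, hg, rfl⟩
      simp only [AddMonoidHom.flip_apply] at k1 k2 ⊢
      simp [hE, k1, k2, ← map_add]
  fin G _ _ := by
    let t : TopologicalSpace G := ⊥
    have : DiscreteTopology G := ⟨rfl⟩
    obtain ⟨Γ, _, ev, h⟩ := exists_DD G fun f _ => by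
      obtain ⟨M, hM⟩ := (Set.finite_range fun x => |f x|).bddAbove
      exact ⟨M, fun x => hM ⟨x, rfl⟩⟩
    refine ⟨Γ, _, ev, h.fill, fun φ S _ => ?_⟩
    obtain ⟨γ, hγ⟩ := cr (ev := ev) (Continuous.isClosedEmbedding continuous_of_discreteTopology
      fun a b e => by
        by_contra hne
        obtain ⟨γ, hγ⟩ := h.sep _ (sub_ne_zero.2 hne)
        exact hγ (by rw [map_sub, AddMonoidHom.sub_apply, show ev a γ = ev b γ from congrFun e γ,
          sub_self])).isInducing φ continuous_of_discreteTopology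
    exact ⟨γ, fun g _ => (hγ g).symm⟩
  clh := clh3

end Pool.Agent.H15.Psc
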