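import Mathlib
import Pool.Agent.H15.Psc8

set_option autoImplicit false

namespace Pool.Agent.H15.Psc
open Function Filter Topology

variable {A Γ : Type} [CommGroup A] [TopologicalSpace A] [IsTopologicalGroup A] [AddCommGroup Γ]

/-- the canonical pairing -/
noncomputable def evd (A : Type) [CommGroup A] [TopologicalSpace A] :
    Additive (PontryaginDual A) →+ Additive A →+ T :=
  AddMonoidHom.mk' (fun χ => AddMonoidHom.mk' (fun a => lg (χ.toMul a.toMul)) fun a b => by
    rw [toMul_add, map_mul, lg_mul]) fun a b => by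
      ext x
      exact lg_mul _ _

omit [IsTopologicalGroup A] in
lemma ind_of_fin (hK : ∀ K : Set A, IsCompact K → K.Finite) :
    IsInducing fun (χ : PontryaginDual A) (a : A) => lg (χ a) := by
  have h0 : IsInducing fun (χ : A →ₜ* Circle) (a : A) => χ a := by
    refine isInducing_iff_nhds.2 fun χ => le_antisymm (Continuous.tendsto (continuous_pi fun a =>
      continuous_eval_const a) χ).le_comap ?_
    refine le_trans ?_ ((ContinuousMonoidHom.isInducing_toContinuousMap A Circle).nhds_eq_comap χ).ge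
    refine tendsto_iff_comap.1 (ContinuousMap.tendsto_nhds_compactOpen.2 fun K k U hU h => ?_)
    refine (eventually_all_finite (hK K k)).2 fun a ha => ?_
    exact (tendsto_pi_nhds.1 (tendsto_comap (f := fun (χ : A →ₜ* Circle) (a : A) => χ a)
      (x := 𝓝 fun a => χ a)) a).eventually (hU.mem_nhds (h ha))
  exact (Homeomorph.piCongrRight fun _ : A => lg).isInducing.comp h0

lemma dual_step {ev : Additive A →+ Γ →+ T} (hi : IsInducing fun g => (ev g : Γ → T))
    (h1 : Fill ev) (h2 : Fill ev.flip) : ∃ c : Γ →+ Additive (PontryaginDual A), Surjective c ∧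
      (∀ γ a, evd A (c γ) a = ev a γ) ∧ Fill (evd A) ∧ Fill (evd A).flip ∧
      IsInducing fun χ => (evd A χ : Additive A → T) := by
  let c : Γ →+ Additive (PontryaginDual A) := AddMonoidHom.mk' (fun γ => Additive.ofMul
    { toFun := fun a => (ev (Additive.ofMul a) γ).toCircle
      map_one' := by simp
      map_mul' := fun a b => by simp [AddCircle.toCircle_add]
      continuous_toFun := AddCircle.continuous_toCircle.comp (cont_ev hi γ) }) fun a b => by
        refine Additive.toMul.injective (PontryaginDual.ext fun x => ?_)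
        show (ev (Additive.ofMul x) (a + b)).toCircle =
          (ev (Additive.ofMul x) a).toCircle * (ev (Additive.ofMul x) b).toCircle
        rw [map_add, AddCircle.toCircle_add]
  have hc : ∀ γ a, evd A (c γ) a = ev a γ := fun γ a => lg_to _
  have cs : Surjective c := fun χ => by
    obtain ⟨γ, hγ⟩ := cr hi (evd A χ) (lg.continuous.comp (map_continuous χ.toMul))
    refine ⟨γ, Additive.toMul.injective (PontryaginDual.ext fun a => lg.injective ?_)⟩
    exact (hc γ (Additive.ofMul a)).trans (hγ _).symm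
  refine ⟨c, cs, hc, fun φ S hS => ?_, fun φ S hS => ?_, ?_⟩
  · obtain ⟨γ, hγ⟩ := h2 φ S hS
    exact ⟨c γ, fun a ha => (hc γ a).trans (hγ a ha)⟩
  · obtain ⟨g, hg⟩ := h1 (φ.comp c) _ (hS.image (surjInv cs))
    refine ⟨g, fun χ hχ => ?_⟩
    have := hg _ ⟨χ, hχ, rfl⟩
    rw [← hc, AddMonoidHom.comp_apply, surjInv_eq cs] at this
    exact this
  · exact ind_of_fin fun K hK => h2.fin_compact hi (C := K) hK

theorem reflexive {ev : Additive A →+ Γ →+ T} (hi : IsInducing fun g => (ev g : Γ → T))
    (h1 : Fill ev) (h2 : Fill ev.flip) :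
    ∃ e : A ≃ₜ* PontryaginDual (PontryaginDual A), ∀ x χ, e x χ = χ x := by
  obtain ⟨c, -, hc, f1, f2, i1⟩ := dual_step hi h1 h2
  obtain ⟨d, ds, hd, -, -, i2⟩ := dual_step i1 f1 f2
  have c1 : Continuous d := i2.continuous_iff.2 (continuous_pi fun χ =>
    (lg.continuous.comp (map_continuous (Additive.toMul χ))).congr fun a => (hd a χ).symm)
  have c2 : Continuous fun Θ γ => evd (PontryaginDual A) Θ (c γ) :=
    continuous_pi fun γ => cont_ev i2 _
  have e : (fun Θ γ => evd (PontryaginDual A) Θ (c γ)) ∘ d = fun g => (ev g : Γ → T) := by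
    ext g γ
    exact (hd g _).trans (hc γ g)
  have i3 : IsInducing d := IsInducing.of_comp c1 c2 (e ▸ hi)
  let E := (Equiv.ofBijective d ⟨Injective.of_comp (f := fun Θ γ => evd (PontryaginDual A) Θ (c γ))
    (e ▸ h2.inj), ds⟩).toHomeomorphOfIsInducing i3
  exact ⟨{ E with map_mul' := fun a b => map_add d (Additive.ofMul a) (Additive.ofMul b) }, fun x χ => lg.injective (hd x χ)⟩

theorem main3 (G : Type) [CommGroup G] [Infinite G]
    (h : ∃ t : TopologicalSpace G, @IsTopologicalGroup G t _ ∧ @T2Space G t ∧ @Pseudo G t) :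
    ∃ _ : TopologicalSpace G, IsTopologicalGroup G ∧ T2Space G ∧ Pseudo G ∧
      (∃ U : ℕ → Set G, (∀ n, IsOpen (U n) ∧ (U n).Nonempty) ∧ ∀ x : ℕ → G, (∀ n, x n ∈ U n) →
        ∀ a, ¬ MapClusterPt a atTop x) ∧
      ∃ e : G ≃ₜ* PontryaginDual (PontryaginDual G), ∀ x χ, e x χ = χ x := by
  obtain ⟨t, h1, h2, h3⟩ := h
  obtain ⟨Γ, _, ev, f1, f2⟩ := cl3.pseudo (G := Additive G) ⟨t, inferInstance, h2, h3⟩
  clear h1 h2 h3 t
  let ψ : Additive G →+ (Γ → T) := AddMonoidHom.pi fun γ => ev.flip γ
  let t : TopologicalSpace G := .induced ψ inferInstance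
  have he : IsEmbedding ψ := ⟨⟨rfl⟩, f2.inj⟩
  have : IsTopologicalGroup G := IsInducing.topologicalGroup
    (H := G) (G := Multiplicative (Γ → T)) (AddMonoidHom.toMultiplicativeRight ψ) he.isInducing
  exact ⟨t, this, he.t2Space, Fill.pseudo (G := Additive G) he.isInducing f1,
    Fill.nonsel (G := Additive G) he.isInducing f2, reflexive he.isInducing f1 f2⟩

end Pool.Agent.H15.Psc
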