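import Mathlib

/-! Closing-off tools and compact lines that are images of Valdivia compacta. -/

set_option autoImplicit false

namespace Pool.Agent.H15.Vald
open Set Filter Topology Cardinal Function

theorem small_bU {α ι : Type} {κ : Cardinal} (hκ : aleph0 ≤ κ) {s : Set ι} {A : ι → Set α}
    (hs : #s ≤ κ) (h : ∀ i ∈ s, #(A i) ≤ κ) : #(⋃ i ∈ s, A i : Set α) ≤ κ :=
  (mk_biUnion_le A s).trans
    ((mul_le_mul' hs (ciSup_le' fun i : s => h i i.2)).trans (mul_eq_self hκ).le)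

theorem small_un {α : Type} {κ : Cardinal} (hκ : aleph0 ≤ κ) {s t : Set α}
    (hs : #s ≤ κ) (ht : #t ≤ κ) : #(s ∪ t : Set α) ≤ κ :=
  (mk_union_le s t).trans (add_le_of_le hκ hs ht)

theorem small_fin {α : Type} {κ : Cardinal} (hκ : aleph0 ≤ κ) {s : Set α} (hs : #s ≤ κ) :
    #{E : Finset α | ↑E ⊆ s} ≤ κ := by
  classical
  have h1 : {E : Finset α | ↑E ⊆ s} ⊆ range fun l : List s => (l.map Subtype.val).toFinset := by
    intro E hE
    refine ⟨(E.attach.toList).map fun x => ⟨x.1, hE x.2⟩, ?_⟩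
    ext x
    simp
  exact (mk_le_mk_of_subset h1).trans (mk_range_le.trans ((mk_list_le_max _).trans
    (max_le hκ hs)))

theorem cnt_fin {α : Type} {s : Set α} (hs : s.Countable) :
    {E : Finset α | ↑E ⊆ s}.Countable :=
  le_aleph0_iff_set_countable.1 (small_fin le_rfl (le_aleph0_iff_set_countable.2 hs))

def Closed {Z : Type} (Φ : Finset Z → Set Z) (M : Set Z) : Prop :=
  ∀ E : Finset Z, ↑E ⊆ M → Φ E ⊆ M

theorem fin_closed {Z : Type} {κ : Cardinal} (hκ : aleph0 ≤ κ) (M0 : Set Z) (h0 : #M0 ≤ κ)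
    (Φ : Finset Z → Set Z) (h : ∀ E, #(Φ E) ≤ κ) :
    ∃ M : Set Z, #M ≤ κ ∧ M0 ⊆ M ∧ Closed Φ M := by
  let s : ℕ → Set Z := fun n =>
    Nat.rec M0 (fun _ s => s ∪ ⋃ E ∈ {E : Finset Z | ↑E ⊆ s}, Φ E) n
  have h1 : ∀ n, #↥(s n) ≤ κ := by
    intro n
    induction n with
    | zero => exact h0
    | succ n ih => exact small_un hκ ih (small_bU hκ (small_fin hκ ih) fun E _ => h E)
  have h2 : Monotone s := monotone_nat_of_le_succ fun n => subset_union_left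
  refine ⟨⋃ n, s n, ?_, subset_iUnion s 0, fun E hE => ?_⟩
  · rw [← biUnion_univ]
    exact small_bU hκ (mk_le_aleph0.trans hκ) fun n _ => h1 n
  obtain ⟨n, hn⟩ := h2.directed_le.exists_mem_subset_of_finset_subset_biUnion hE
  refine Subset.trans ?_ (subset_iUnion s (n + 1))
  exact (subset_biUnion_of_mem (u := Φ) (show E ∈ {E : Finset Z | ↑E ⊆ s n} from hn)).trans
    subset_union_right

abbrev I : Type := (Cardinal.aleph 1).ord.ToType

theorem I_Iio (j : I) : (Iio j).Countable :=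
  Cardinal.countable_iff_lt_aleph_one _ |>.2 (Cardinal.mk_Iio_toType_ord_lt j)

theorem I_bdd {s : Set I} (hs : s.Countable) : ∃ i, ∀ j ∈ s, j < i := by
  by_contra h
  push Not at h
  have h1 : ∀ j : I, (Iic j).Countable := fun j => by
    rw [← Iio_insert]
    exact (I_Iio j).insert _
  have h2 : (univ : Set I).Countable := (hs.biUnion fun j _ => h1 j).mono fun i _ => by
    obtain ⟨j, h2, h3⟩ := h i
    exact mem_biUnion h2 h3
  have h3 := (Cardinal.countable_iff_lt_aleph_one _).1 h2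
  simp at h3

theorem chain {Z : Type} (Φ : Finset Z → Set Z) (h : ∀ E, (Φ E).Countable) (c : Z)
    (y : Set Z → Z) : ∃ N : I → Set Z, ∀ α, (N α).Countable ∧ Closed Φ (N α) ∧ c ∈ N α ∧
      ∀ β < α, N β ⊆ N α ∧ y (N β) ∈ N α := by
  have : ∀ M0 : Set Z, ∃ M : Set Z, M0.Countable → M.Countable ∧ M0 ⊆ M ∧ Closed Φ M := by
    intro M0
    by_cases h0 : M0.Countable
    · obtain ⟨M, h1, h2⟩ := fin_closed le_rfl M0 (le_aleph0_iff_set_countable.2 h0) Φ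
        fun E => le_aleph0_iff_set_countable.2 (h E)
      exact ⟨M, fun _ => ⟨le_aleph0_iff_set_countable.1 h1, h2⟩⟩
    · exact ⟨∅, fun h' => absurd h' h0⟩
  choose G hG using this
  let N : I → Set Z := WellFoundedLT.fix fun α rec =>
    G (insert c (⋃ β : Iio α, insert (y (rec β β.2)) (rec β β.2)))
  have hN : ∀ α, N α = G (insert c (⋃ β : Iio α, insert (y (N β)) (N β))) := fun α =>
    WellFoundedLT.fix_eq _ α
  have h1 : ∀ α, (N α).Countable := by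
    intro α
    induction α using WellFoundedLT.induction with
    | ind α ih =>
      rw [hN]
      have := (I_Iio α).to_subtype
      exact (hG _ ((countable_iUnion fun β : Iio α => (ih β β.2).insert _).insert _)).1
  refine ⟨N, fun α => ?_⟩
  have := (I_Iio α).to_subtype
  have h2 := hG (insert c (⋃ β : Iio α, insert (y (N β)) (N β)))
    ((countable_iUnion fun β : Iio α => (h1 β).insert _).insert _)
  rw [← hN] at h2
  exact ⟨h2.1, h2.2.2, h2.2.1 (mem_insert _ _), fun β hβ =>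
    ⟨fun z hz => h2.2.1 (Or.inr (mem_iUnion.2 ⟨⟨β, hβ⟩, Or.inr hz⟩)),
      h2.2.1 (Or.inr (mem_iUnion.2 ⟨⟨β, hβ⟩, Or.inl rfl⟩))⟩⟩

variable {Γ : Type}

def Box (β : Finset (Γ × ℚ × ℚ)) : Set (Γ → ℝ) :=
  {y | ∀ t ∈ β, (t.2.1 : ℝ) < y t.1 ∧ y t.1 < t.2.2}

def UU (c : Finset (Finset (Γ × ℚ × ℚ))) : Set (Γ → ℝ) := {y | ∃ β ∈ c, y ∈ Box β}

theorem open_Box (β : Finset (Γ × ℚ × ℚ)) : IsOpen (Box β) := by
  have : Box β = ⋂ t ∈ β, (fun y : Γ → ℝ => y t.1) ⁻¹' Ioo (t.2.1 : ℝ) t.2.2 := by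
    ext y
    simp [Box]
  rw [this]
  exact isOpen_biInter_finset fun t _ => isOpen_Ioo.preimage (continuous_apply _)

theorem box {W : Set (Γ → ℝ)} (hW : IsOpen W) {w : Γ → ℝ} (hw : w ∈ W) {S : Set Γ}
    (hS : support w ⊆ S) : ∃ β : Finset (Γ × ℚ × ℚ), (∀ t ∈ β, t.1 ∈ S) ∧ w ∈ Box β ∧
      ∀ y, support y ⊆ S → y ∈ Box β → y ∈ W := by
  classical
  obtain ⟨T, u, h1, h2⟩ := isOpen_pi_iff.1 hW w hw
  have : ∀ γ, ∃ q : ℚ × ℚ, γ ∈ T → ((q.1 : ℝ) < w γ ∧ w γ < q.2) ∧ Ioo (q.1 : ℝ) q.2 ⊆ u γ := by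
    intro γ
    by_cases h : γ ∈ T
    · obtain ⟨a, b, h3, h4⟩ := mem_nhds_iff_exists_Ioo_subset.1 ((h1 γ h).1.mem_nhds (h1 γ h).2)
      obtain ⟨q, h5, h6⟩ := exists_rat_btwn h3.1
      obtain ⟨r, h7, h8⟩ := exists_rat_btwn h3.2
      exact ⟨(q, r), fun _ => ⟨⟨h6, h7⟩, (Ioo_subset_Ioo h5.le h8.le).trans h4⟩⟩
    · exact ⟨(0, 0), fun h' => absurd h' h⟩
  choose q hq using this
  refine ⟨(T.filter (· ∈ S)).image fun γ => (γ, q γ), fun t ht => ?_, fun t ht => ?_,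
    fun y hy h => h2 fun γ hγ => ?_⟩
  · obtain ⟨γ, h, rfl⟩ := Finset.mem_image.1 ht
    exact (Finset.mem_filter.1 h).2
  · obtain ⟨γ, h, rfl⟩ := Finset.mem_image.1 ht
    exact (hq γ (Finset.mem_filter.1 h).1).1
  · by_cases h' : γ ∈ S
    · exact (hq γ hγ).2 (h _ (Finset.mem_image.2 ⟨γ, Finset.mem_filter.2 ⟨hγ, h'⟩, rfl⟩))
    · have e1 : y γ = 0 := by_contra fun h'' => h' (hy h'')
      have e2 : w γ = 0 := by_contra fun h'' => h' (hS h'')
      rw [e1, ← e2]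
      exact (h1 γ hγ).2

theorem sep {L0 L1 : Set (Γ → ℝ)} (h0 : IsCompact L0) (h1 : IsClosed L1) (hd : Disjoint L0 L1)
    {S : Set Γ} (s0 : ∀ y ∈ L0, support y ⊆ S) (s1 : ∀ y ∈ L1, support y ⊆ S) :
    ∃ c : Finset (Finset (Γ × ℚ × ℚ)), (∀ β ∈ c, ∀ t ∈ β, t.1 ∈ S) ∧ L0 ⊆ UU c ∧
      ∀ y ∈ L1, y ∉ UU c := by
  classical
  choose β h2 h3 h4 using fun x : L0 =>
    box h1.isOpen_compl (disjoint_left.1 hd x.2) (s0 x x.2)
  obtain ⟨T, hT⟩ := h0.elim_finite_subcover (fun x : L0 => Box (β x)) (fun x => open_Box _)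
    fun x hx => mem_iUnion.2 ⟨⟨x, hx⟩, h3 _⟩
  refine ⟨T.image β, fun b hb => ?_, fun y hy => ?_, fun y hy ⟨b, hb, h⟩ => ?_⟩
  · obtain ⟨x, _, rfl⟩ := Finset.mem_image.1 hb
    exact h2 x
  · obtain ⟨x, hx, h⟩ := mem_iUnion₂.1 (hT hy)
    exact ⟨β x, Finset.mem_image_of_mem _ hx, h⟩
  · obtain ⟨x, _, rfl⟩ := Finset.mem_image.1 hb
    exact h4 x y (s1 y hy) h hy

theorem cnt_code {T : Set Γ} (hT : T.Countable) :
    {c : Finset (Finset (Γ × ℚ × ℚ)) | ∀ β ∈ c, ∀ t ∈ β, t.1 ∈ T}.Countable := by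
  have h1 : {t : Γ × ℚ × ℚ | t.1 ∈ T}.Countable :=
    (hT.prod countable_univ).mono fun t ht => mk_mem_prod ht (mem_univ _)
  exact (cnt_fin (cnt_fin h1)).mono fun c hc β hβ t ht => hc β hβ t ht

theorem exists_lub {K : Type} [LinearOrder K] [TopologicalSpace K] [OrderTopology K]
    [CompactSpace K] [Nonempty K] (s : Set K) : ∃ a, IsLUB s a := by
  rcases s.eq_empty_or_nonempty with rfl | h
  · obtain ⟨a, ha⟩ := (isCompact_univ (X := K)).exists_isLeast univ_nonempty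
    exact ⟨a, fun _ h => h.elim, fun b _ => ha.2 (mem_univ b)⟩
  · obtain ⟨a, ha⟩ := (isClosed_closure (s := s)).isCompact.exists_isGreatest h.closure
    exact ⟨a, fun b hb => ha.2 (subset_closure hb),
      fun b hb => closure_minimal (t := Iic b) hb isClosed_Iic ha.1⟩

theorem cg_of {K : Type} [LinearOrder K] [TopologicalSpace K] [OrderTopology K] {x : K}
    {P : Set K} (hP : P.Countable) (h1 : ∀ a < x, ∃ p ∈ P, a < p ∧ p < x)
    (h2 : ∀ b, x < b → ∃ p ∈ P, x < p ∧ p < b) : (𝓝 x).IsCountablyGenerated := by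
  have e1 : (⨅ l ∈ Iio x, 𝓟 (Ioi l)) = ⨅ p : (P ∩ Iio x : Set K), 𝓟 (Ioi p.1) := by
    refine le_antisymm (le_iInf fun p => iInf₂_le p.1 p.2.2) (le_iInf₂ fun a ha => ?_)
    obtain ⟨p, h3, h4, h5⟩ := h1 a ha
    exact (iInf_le _ (⟨p, h3, h5⟩ : (P ∩ Iio x : Set K))).trans
      (principal_mono.2 (Ioi_subset_Ioi h4.le))
  have e2 : (⨅ l ∈ Ioi x, 𝓟 (Iio l)) = ⨅ p : (P ∩ Ioi x : Set K), 𝓟 (Iio p.1) := by
    refine le_antisymm (le_iInf fun p => iInf₂_le p.1 p.2.2) (le_iInf₂ fun a ha => ?_)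
    obtain ⟨p, h3, h4, h5⟩ := h2 a ha
    exact (iInf_le _ (⟨p, h3, h4⟩ : (P ∩ Ioi x : Set K))).trans
      (principal_mono.2 (Iio_subset_Iio h5.le))
  rw [nhds_eq_order, e1, e2]
  have := (hP.mono (inter_subset_left (t := Iio x))).to_subtype
  have := (hP.mono (inter_subset_left (t := Ioi x))).to_subtype
  infer_instance

end Pool.Agent.H15.Vald
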