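import Mathlib
import Pool.Agent.H15.Psc9
import Pool.Agent.H15.Vald1

set_option autoImplicit false

namespace Pool.Agent.H15.Psc
open Function Filter Topology Cardinal Pool.Agent.H71

section refl
variable {A Γ : Type} [CommGroup A] [TopologicalSpace A] [AddCommGroup Γ]

lemma dual_step' {ev : Additive A →+ Γ →+ T} (hi : IsInducing fun g => (ev g : Γ → T)) :
    ∃ c : Γ →+ Additive (PontryaginDual A), Surjective c ∧ ∀ γ a, evd A (c γ) a = ev a γ := by
  let c : Γ →+ Additive (PontryaginDual A) := AddMonoidHom.mk' (fun γ => Additive.ofMul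
    { toFun := fun a => (ev (Additive.ofMul a) γ).toCircle
      map_one' := by simp
      map_mul' := fun a b => by simp [AddCircle.toCircle_add]
      continuous_toFun := AddCircle.continuous_toCircle.comp (cont_ev hi γ) }) fun a b => by
        refine Additive.toMul.injective (PontryaginDual.ext fun x => ?_)
        show (ev (Additive.ofMul x) (a + b)).toCircle =
          (ev (Additive.ofMul x) a).toCircle * (ev (Additive.ofMul x) b).toCircle
        rw [map_add, AddCircle.toCircle_add]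
  have hc : ∀ γ a, evd A (c γ) a = ev a γ := fun γ a => lg_to _
  refine ⟨c, fun χ => ?_, hc⟩
  obtain ⟨γ, hγ⟩ := cr hi (evd A χ) (lg.continuous.comp (map_continuous χ.toMul))
  refine ⟨γ, Additive.toMul.injective (PontryaginDual.ext fun a => lg.injective ?_)⟩
  exact (hc γ (Additive.ofMul a)).trans (hγ _).symm

theorem reflexive' {ev : Additive A →+ Γ →+ T} (hi : IsEmbedding fun g => (ev g : Γ → T))
    (h1 : ∀ K : Set A, IsCompact K → K.Finite)
    (h2 : ∀ C : Set (Additive A → T), IsCompact C → (∀ x ∈ C, ∃ γ, x = fun a => ev a γ) → C.Finite) :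
    ∃ e : A ≃ₜ* PontryaginDual (PontryaginDual A), ∀ x χ, e x χ = χ x := by
  obtain ⟨c, cs, hc⟩ := dual_step' hi.isInducing
  have i1 : IsInducing fun χ => (evd A χ : Additive A → T) := ind_of_fin h1
  obtain ⟨d, ds, hd⟩ := dual_step' i1
  have i2 : IsInducing fun χ => (evd (PontryaginDual A) χ : Additive (PontryaginDual A) → T) :=
    ind_of_fin fun K hK => Set.Finite.of_finite_image (h2 _ (hK.image i1.continuous) (by
      rintro _ ⟨χ, -, rfl⟩
      obtain ⟨γ, rfl⟩ := cs χ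
      exact ⟨γ, funext (hc γ)⟩)) fun a _ b _ e =>
        PontryaginDual.ext fun x => lg.injective (congrFun e (Additive.ofMul x))
  have c1 : Continuous d := i2.continuous_iff.2 (continuous_pi fun χ =>
    (lg.continuous.comp (map_continuous (Additive.toMul χ))).congr fun a => (hd a χ).symm)
  have c2 : Continuous fun Θ γ => evd (PontryaginDual A) Θ (c γ) :=
    continuous_pi fun γ => cont_ev i2 _
  have e : (fun Θ γ => evd (PontryaginDual A) Θ (c γ)) ∘ d = fun g => (ev g : Γ → T) := by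
    ext g γ
    exact (hd g _).trans (hc γ g)
  have i3 : IsInducing d := IsInducing.of_comp c1 c2 (e ▸ hi.isInducing)
  let E := (Equiv.ofBijective d ⟨Injective.of_comp (f := fun Θ γ => evd (PontryaginDual A) Θ (c γ))
    (e ▸ hi.injective), ds⟩).toHomeomorphOfIsInducing i3
  exact ⟨{ E with map_mul' := fun a b => map_add d (Additive.ofMul a) (Additive.ofMul b) },
    fun x χ => lg.injective (hd x χ)⟩

end refl

/-- character of a free abelian group -/
noncomputable abbrev lc {ι : Type} (x : ι → T) : (ι →₀ ℤ) →+ T :=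
  (Finsupp.linearCombination ℤ x).toAddMonoidHom

/-- the pairing of a torus with the free abelian group -/
noncomputable def lcp (ι : Type) : (ι → T) →+ (ι →₀ ℤ) →+ T :=
  AddMonoidHom.mk' lc fun a b => by ext; simp

lemma lcp_apply {ι : Type} (x : ι → T) (γ : ι →₀ ℤ) : lcp ι x γ = lc x γ := rfl

lemma cont_lc {ι : Type} (γ : ι →₀ ℤ) : Continuous fun x : ι → T => lc x γ := by
  simp only [lc, LinearMap.toAddMonoidHom_coe, Finsupp.linearCombination_apply, Finsupp.sum]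
  fun_prop

lemma ind_lcp (ι : Type) : IsInducing fun x => (lcp ι x : (ι →₀ ℤ) → T) :=
  IsInducing.of_comp (g := fun y i => y (Finsupp.single i 1)) (continuous_pi cont_lc) (by fun_prop)
    (by convert IsInducing.id; ext; simp [lcp_apply])

lemma dense_of_ann {ι : Type} (K : AddSubgroup (ι → T))
    (h : ∀ γ : ι →₀ ℤ, (∀ x ∈ K, lc x γ = 0) → γ = 0) : Dense (K : Set (ι → T)) := by
  intro x
  by_contra hx
  let N := K.topologicalClosure
  have : IsClosed (N : Set (ι → T)) := K.isClosed_topologicalClosure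
  have : CompactSpace (Multiplicative ((ι → T) ⧸ N)) := inferInstanceAs (CompactSpace ((ι → T) ⧸ N))
  have : T2Space (Multiplicative ((ι → T) ⧸ N)) := inferInstanceAs (T2Space ((ι → T) ⧸ N))
  obtain ⟨χ, hχ⟩ := Dual.sepChar (C := Multiplicative ((ι → T) ⧸ N))
    (x := Multiplicative.ofAdd (x : (ι → T) ⧸ N)) fun e => hx ((QuotientAddGroup.eq_zero_iff x).1 e)
  obtain ⟨γ, hγ⟩ := cr (ind_lcp ι) (AddMonoidHom.mk' (fun y => lg (χ (Multiplicative.ofAdd
    (y : (ι → T) ⧸ N)))) fun a b => by rw [QuotientAddGroup.mk_add, ofAdd_add, map_mul, lg_mul])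
    (lg.continuous.comp ((map_continuous χ).comp QuotientAddGroup.continuous_mk))
  have := h γ fun y hy => by
    rw [← lcp_apply, ← hγ, AddMonoidHom.mk'_apply,
      (QuotientAddGroup.eq_zero_iff y).2 (subset_closure hy), ofAdd_zero, map_one, lg_one]
  refine hχ (lg.injective ?_)
  rw [lg_one]
  exact (hγ x).trans (by rw [this, map_zero])

lemma bock {G ι : Type} [TopologicalSpace G] {ψ : G → ι → T} (hi : IsInducing ψ) (hd : DenseRange ψ)
    {O₁ O₂ : Set G} (h1 : IsOpen O₁) (h2 : IsOpen O₂) (h : Disjoint O₁ O₂) :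
    ∃ S : Set ι, S.Countable ∧ ∀ g ∈ O₁, ∃ (F : Finset ι) (u : ι → Set T), ↑F ⊆ S ∧
      (∀ i ∈ F, IsOpen (u i) ∧ ψ g i ∈ u i) ∧ ∀ x, (∀ i ∈ F, ψ x i ∈ u i) → x ∉ O₂ := by
  classical
  have box : ∀ {O : Set G}, IsOpen O → ∀ g ∈ O, ∃ (F : Finset ι) (u : ι → Set T),
      (∀ i ∈ F, IsOpen (u i) ∧ ψ g i ∈ u i) ∧ ∀ x, (∀ i ∈ F, ψ x i ∈ u i) → x ∈ O := by
    intro O hO g hg
    obtain ⟨W, hW, rfl⟩ := hi.isOpen_iff.1 hO
    obtain ⟨F, u, a, b⟩ := isOpen_pi_iff.1 hW _ hg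
    exact ⟨F, u, a, fun x hx => b hx⟩
  choose! F₂ u₂ a₂ b₂ using box h2
  let B := TopologicalSpace.countableBasis T
  have : Countable B := (TopologicalSpace.countable_countableBasis T).to_subtype
  let P : (E : Finset ι) → (E → B) → G → Prop := fun E v g => g ∈ O₂ ∧ ∀ i : E, ψ g i ∈ (v i).1
  obtain ⟨S, s1, -, s2⟩ := Vald.fin_closed le_rfl ∅ (by simp) (fun E => ⋃ v : E → B,
    ⋃ h : ∃ g, P E v g, (F₂ h.choose : Set ι)) fun E => le_aleph0_iff_set_countable.2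
      (Set.countable_iUnion fun _ => Set.countable_iUnion fun _ => Finset.countable_toSet _)
  refine ⟨S, le_aleph0_iff_set_countable.1 s1, fun g hg => ?_⟩
  obtain ⟨F, u, a, b⟩ := box h1 g hg
  choose! v v1 v2 v3 using fun i hi => (TopologicalSpace.isBasis_countableBasis T).exists_subset_of_mem_open
    (a i hi).2 (a i hi).1
  refine ⟨F.filter (· ∈ S), v, fun i hi => (Finset.mem_filter.1 hi).2, fun i hi =>
    ⟨TopologicalSpace.isOpen_of_mem_countableBasis (v1 i (Finset.mem_filter.1 hi).1),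
      v2 i (Finset.mem_filter.1 hi).1⟩, fun x hx hx' => ?_⟩
  have hP : ∃ g, P (F.filter (· ∈ S)) (fun i => ⟨v i, v1 i (Finset.mem_filter.1 i.2).1⟩) g :=
    ⟨x, hx', fun i => hx i i.2⟩
  have hS : ↑(F₂ hP.choose) ⊆ S := fun i hi =>
    s2 (F.filter (· ∈ S)) (fun i hi => (Finset.mem_filter.1 hi).2)
      (Set.mem_iUnion.2 ⟨_, Set.mem_iUnion.2 ⟨hP, hi⟩⟩)
  obtain ⟨p1, p2⟩ := hP.choose_spec
  obtain ⟨y, y1, y2⟩ := hd.exists_mem_open (s := Set.pi F u ∩ Set.pi (F₂ hP.choose) (u₂ hP.choose))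
    ((isOpen_set_pi F.finite_toSet fun i hi => (a i hi).1).inter
      (isOpen_set_pi (Finset.finite_toSet _) fun i hi => (a₂ _ p1 i hi).1))
    ⟨fun i => if i ∈ S then ψ hP.choose i else ψ g i, fun i hi => by
      dsimp only
      split_ifs with hs
      · exact v3 i hi (p2 ⟨i, Finset.mem_filter.2 ⟨hi, hs⟩⟩)
      · exact (a i hi).2, fun i hi => by
      simp only [hS hi, if_true]
      exact (a₂ _ p1 i hi).2⟩
  exact Set.disjoint_left.1 h (b y y1) (b₂ _ p1 y y2)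

lemma norm_ne {X : AddSubgroup T} (hX : X ≠ ⊤) {ε : ℝ} (hε : 0 < ε) :
    ∃ ρ, 0 < ρ ∧ ρ < ε ∧ ∀ z ∈ X, ‖z‖ ≠ ρ := by
  by_contra hc
  push Not at hc
  have h1 : ∀ ρ : ℝ, 0 < ρ → ρ < ε → (ρ : T) ∈ X := fun ρ a b => by
    obtain ⟨z, hz, e⟩ := hc ρ a b
    obtain ⟨r, hr, rfl⟩ : ∃ r : ℝ, |r| ≤ 1 / 2 ∧ (r : T) = z := by
      obtain ⟨r, rfl⟩ := QuotientAddGroup.mk_surjective z
      exact ⟨r - round r, abs_sub_round r, by simp⟩
    rw [norm_coe_T hr] at e
    rcases abs_choice r with h | h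
    · rwa [← e, h]
    · rw [← e, h, AddCircle.coe_neg]; exact X.neg_mem hz
  refine hX (eq_top_iff.2 fun t _ => ?_)
  obtain ⟨r, hr, rfl⟩ := AddCircle.eq_coe_Ioc (p := 1) t
  obtain ⟨n, hn⟩ := exists_nat_gt (1 / ε)
  have n0 : (0 : ℝ) < n := lt_trans (by positivity) hn
  have := X.nsmul_mem (h1 (r / n) (div_pos hr.1 n0) (by
    rw [div_lt_iff₀ n0]; rw [div_lt_iff₀ hε] at hn; linarith [hr.2])) n
  rwa [← AddCircle.coe_nsmul, nsmul_eq_mul, mul_div_cancel₀ _ n0.ne'] at this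

theorem zero_dim {G ι : Type} [AddCommGroup G] [TopologicalSpace G] {χ : ι → G →+ T}
    (hi : IsInducing fun g i => χ i g) (hd : DenseRange fun g i => χ i g)
    (hs : ∀ i, (χ i).range ≠ ⊤) (f : G → ℝ) (hf : Continuous f) :
    ∃ U : Set G, IsClopen U ∧ f ⁻¹' {0} ⊆ U ∧ Disjoint U (f ⁻¹' {1}) := by
  classical
  have dj : ∀ c : ℝ, Disjoint {x | f x < c} {x | c < f x} := fun c =>
    Set.disjoint_left.2 fun x a b => lt_asymm (show f x < c from a) b
  obtain ⟨S₁, a1, a2⟩ := bock hi hd (isOpen_lt hf continuous_const) (isOpen_lt continuous_const hf)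
    (dj (2 / 3))
  obtain ⟨S₂, b1, b2⟩ := bock hi hd (isOpen_lt continuous_const hf) (isOpen_lt hf continuous_const)
    (dj (1 / 3)).symm
  let S := S₁ ∪ S₂
  have : Countable S := (a1.union b1).to_subtype
  let π : G → S → T := fun g i => χ i g
  have hc : ∀ i, Continuous (χ i) := fun i => (continuous_apply i).comp hi.continuous
  have key : ∀ (g : G) (F : Finset ι) (u : ι → Set T), ↑F ⊆ S → (∀ i ∈ F, IsOpen (u i) ∧ χ i g ∈ u i) →
      ∃ W : Set (S → T), IsOpen W ∧ g ∈ π ⁻¹' W ∧ IsClosed (π ⁻¹' W) ∧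
        ∀ x ∈ π ⁻¹' W, ∀ i ∈ F, χ i x ∈ u i := by
    intro g F u hF hu
    have : ∀ i : F, ∃ ρ, 0 < ρ ∧ Metric.ball (χ i g) ρ ⊆ u i ∧ ∀ z ∈ (χ i).range, ‖z‖ ≠ ρ := fun i => by
      obtain ⟨ε, e1, e2⟩ := Metric.isOpen_iff.1 (hu i i.2).1 _ (hu i i.2).2
      obtain ⟨ρ, r1, r2, r3⟩ := norm_ne (hs i) e1
      exact ⟨ρ, r1, (Metric.ball_subset_ball r2.le).trans e2, r3⟩
    choose ρ r1 r2 r3 using this
    refine ⟨⋂ i : F, {y | ‖y ⟨i, hF i.2⟩ - χ i g‖ < ρ i}, isOpen_iInter_of_finite fun i =>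
      isOpen_lt (by fun_prop) continuous_const, Set.mem_iInter.2 fun i => by simpa [π] using r1 i,
      ?_, fun x hx i hi => r2 ⟨i, hi⟩ (mem_ball_iff_norm.2 (Set.mem_iInter.1 hx ⟨i, hi⟩))⟩
    rw [Set.preimage_iInter]
    refine isClosed_iInter fun i => ?_
    convert isClosed_le ((hc i).sub (continuous_const (y := χ i g))).norm (continuous_const (y := ρ i))
      using 1
    ext x
    exact ⟨fun h => le_of_lt (show ‖χ i x - χ i g‖ < ρ i from h), fun h => lt_of_le_of_ne h (r3 i _ ⟨x - g, map_sub _ _ _⟩)⟩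
  have : ∀ g, ∃ W : Set (S → T), IsOpen W ∧ g ∈ π ⁻¹' W ∧ IsClosed (π ⁻¹' W) ∧
      ((∀ x ∈ π ⁻¹' W, f x ≠ 1) ∨ ∀ x ∈ π ⁻¹' W, f x ≠ 0) := fun g => by
    by_cases hg : f g < 2 / 3
    · obtain ⟨F, u, c1, c2, c3⟩ := a2 g hg
      obtain ⟨W, w1, w2, w3, w4⟩ := key g F u (c1.trans Set.subset_union_left) c2
      exact ⟨W, w1, w2, w3, Or.inl fun x hx e => c3 x (w4 x hx) (by simp only [Set.mem_ofPred_eq, e]; norm_num)⟩
    · obtain ⟨F, u, c1, c2, c3⟩ := b2 g (by simp only [Set.mem_ofPred_eq]; linarith)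
      obtain ⟨W, w1, w2, w3, w4⟩ := key g F u (c1.trans Set.subset_union_right) c2
      exact ⟨W, w1, w2, w3, Or.inr fun x hx e => c3 x (w4 x hx) (by simp only [Set.mem_ofPred_eq, e]; norm_num)⟩
  choose W w1 w2 w3 w4 using this
  obtain ⟨D, d1, d2⟩ := TopologicalSpace.isOpen_iUnion_countable W w1
  obtain ⟨s, hs'⟩ := exists_enum d1
  let V : ℕ → Set G := fun n => π ⁻¹' W (s n)
  have v1 : ∀ n, IsClopen (V n) := fun n => ⟨w3 _, (w1 _).preimage (continuous_pi fun i : S => hc i)⟩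
  have v2 : ∀ g, ∃ n, g ∈ V n := fun g => by
    have : π g ∈ ⋃ i ∈ D, W i := d2 ▸ Set.mem_iUnion.2 ⟨g, w2 g⟩
    obtain ⟨i, hi, h⟩ := Set.mem_iUnion₂.1 this
    obtain ⟨n, rfl⟩ := hs' hi
    exact ⟨n, h⟩
  have op : ∀ p : ℕ → Prop, IsOpen {g | p (Nat.find (v2 g))} := fun p => by
    refine isOpen_iff_mem_nhds.2 fun g hg => ?_
    have : ∀ᶠ x in 𝓝 g, ∀ m ∈ Finset.range (Nat.find (v2 g)), x ∉ V m :=
      (eventually_all_finset _).2 fun m hm => (v1 m).1.isOpen_compl.mem_nhds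
        (Nat.find_min _ (Finset.mem_range.1 hm))
    filter_upwards [this, (v1 _).2.mem_nhds (Nat.find_spec (v2 g))] with x h1 h2
    rw [(Nat.find_eq_iff _).2 ⟨h2, fun m hm => h1 m (Finset.mem_range.2 hm)⟩]
    exact hg
  refine ⟨{g | ∀ x ∈ V (Nat.find (v2 g)), f x ≠ 1}, ⟨isOpen_compl_iff.1 (op fun n => ¬ ∀ x ∈ V n, f x ≠ 1),
    op fun n => ∀ x ∈ V n, f x ≠ 1⟩, fun g hg => (w4 _).resolve_right fun h =>
      h g (Nat.find_spec (v2 g)) hg, Set.disjoint_left.2 fun g hg hg' => hg g (Nat.find_spec (v2 g)) hg'⟩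

end Pool.Agent.H15.Psc
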