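import Mathlib
import Pool.Agent.H15.Rfl1

set_option autoImplicit false

namespace Pool.Agent.H15.Psc
open Function Filter Topology Cardinal Submodule

variable {ι : Type}

lemma lc_congr {x y : ι → T} {l : ι →₀ ℤ} (h : ∀ i ∈ l.support, x i = y i) : lc x l = lc y l := by
  simp only [lc, LinearMap.toAddMonoidHom_coe, Finsupp.linearCombination_apply, Finsupp.sum]
  exact Finset.sum_congr rfl fun i hi => by rw [h i hi]

lemma lc_mem {x : ι → T} {l : ι →₀ ℤ} {B : Submodule ℤ T} (h : ∀ i ∈ l.support, x i ∈ B) :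
    lc x l ∈ B := by
  simp only [lc, LinearMap.toAddMonoidHom_coe, Finsupp.linearCombination_apply, Finsupp.sum]
  exact sum_mem fun i hi => B.smul_mem _ (h i hi)

lemma lc_single (x : ι → T) (i : ι) (k : ℤ) : lc x (Finsupp.single i k) = k • x i := by simp [lc]

lemma lc_hom (φ : (ι →₀ ℤ) →+ T) (l : ι →₀ ℤ) : lc (fun i => φ (Finsupp.single i 1)) l = φ l := by
  have : lc (fun i => φ (Finsupp.single i 1)) = φ := by ext; simp
  rw [this]

lemma mk_span_lt {A : Set T} (hA : #A < 𝔠) : #(span ℤ A : Set T) < 𝔠 := by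
  refine lt_of_le_of_lt (mk_le_mk_of_subset (t := Set.range (Finsupp.linearCombination ℤ
    (Subtype.val : A → T))) fun x hx => (Finsupp.mem_span_iff_linearCombination ℤ A x).1 hx) ?_
  exact mk_range_le.trans_lt ((mk_finsupp_le _ _).trans_lt (max_lt hA aleph0_lt_continuum))

lemma un_lt {α : Type} {A B : Set α} (hA : #A < 𝔠) (hB : #B < 𝔠) : #(A ∪ B : Set α) < 𝔠 :=
  (mk_union_le _ _).trans_lt (add_lt_of_lt aleph0_le_continuum hA hB)

lemma cnt_lt {α : Type} {A : Set α} (hA : A.Countable) : #A < 𝔠 :=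
  hA.le_aleph0.trans_lt aleph0_lt_continuum

lemma not_cov {α β : Type} (hα : 𝔠 ≤ #α) (hβ : #β < 𝔠) (S : β → Set α) (hS : ∀ b, (S b).Countable) :
    ∃ a, ∀ b, a ∉ S b := by
  by_contra hc
  push Not at hc
  have := mk_le_mk_of_subset (fun a _ => Set.mem_iUnion.2 (hc a) : Set.univ ⊆ ⋃ b, S b)
  rw [mk_univ] at this
  exact (hα.trans (this.trans (mk_iUnion_le _))).not_gt (mul_lt_of_lt aleph0_le_continuum hβ
    ((ciSup_le' fun b => (hS b).le_aleph0).trans_lt aleph0_lt_continuum))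

lemma indep {J : Set ι} (hJ : #J < 𝔠) {A : Set T} (hA : #A < 𝔠) :
    ∃ w : ι → T, ∀ l : ι →₀ ℤ, ↑l.support ⊆ J → lc w l ∈ span ℤ A → l = 0 := by
  classical
  obtain ⟨s, s1, s2⟩ := exists_maximal_linearIndepOn ℤ (span ℤ A).mkQ
  have hs : #J ≤ #s := by
    by_contra h
    have hB := mk_span_lt (un_lt hA ((not_le.1 h).trans hJ))
    obtain ⟨t, ht⟩ := not_cov mk_T.ge (β := ℕ × (span ℤ (A ∪ s) : Set T)) (by
      rw [mk_prod, lift_id, lift_id]
      exact mul_lt_of_lt aleph0_le_continuum (by simpa using aleph0_lt_continuum) hB)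
      (fun p => {t | (p.1 + 1) • t = p.2.1}) fun p => by
        rcases Set.eq_empty_or_nonempty {t : T | (p.1 + 1) • t = p.2.1} with h | ⟨t₀, h⟩
        · rw [h]; exact Set.countable_empty
        · refine ((AddCircle.finite_torsion (1 : ℝ) p.1.succ_pos).image (· + t₀)).countable.mono ?_
          refine fun t ht => ⟨t - t₀, ?_, by simp⟩
          show (p.1 + 1) • (t - t₀) = 0
          rw [smul_sub, show (p.1 + 1) • t = _ from ht, show (p.1 + 1) • t₀ = _ from h, sub_self]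
    obtain ⟨a, ha, h⟩ : ∃ a : ℤ, a ≠ 0 ∧ a • t ∈ span ℤ (A ∪ s) := by
      by_cases hts : t ∈ s
      · exact ⟨1, one_ne_zero, by rw [one_smul]; exact subset_span (Or.inr hts)⟩
      obtain ⟨a, ha, h⟩ := s2 t hts
      refine ⟨a, ha, ?_⟩
      rw [← map_span, ← map_smul, ← Submodule.mem_comap, comap_map_mkQ] at h
      rwa [span_union]
    obtain ⟨m, hm⟩ := Nat.exists_eq_succ_of_ne_zero (Int.natAbs_ne_zero.2 ha)
    refine ht (m, ⟨(m + 1) • t, ?_⟩) rfl
    rw [← natCast_zsmul, show ((m + 1 : ℕ) : ℤ) = a.sign * a by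
      rw [Int.sign_mul_self_eq_natAbs, hm], mul_smul]
    exact smul_mem _ _ h
  obtain ⟨ε⟩ := (le_def _ _).1 hs
  refine ⟨extend Subtype.val (fun j : J => (ε j).1) 0, fun l hl h => ?_⟩
  have e1 := (Finsupp.mapDomain_comapDomain _ Subtype.val_injective l
    (show ↑l.support ⊆ Set.range (Subtype.val : J → ι) by rwa [Subtype.range_coe])).symm
  rw [e1] at h ⊢
  have := linearIndependent_iff.1 (LinearIndependent.comp s1 ε ε.injective)
    (l.comapDomain Subtype.val Subtype.val_injective.injOn) (by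
    rw [← (Quotient.mk_eq_zero _).2 h, ← mkQ_apply]
    simp only [lc, LinearMap.toAddMonoidHom_coe, Finsupp.linearCombination_mapDomain,
      Finsupp.apply_linearCombination]
    congr 2
    ext j
    simp)
  rw [this, Finsupp.mapDomain_zero]

lemma gen {J P : Set ι} (hJ : #J < 𝔠) (hP : P.Countable) {A : Set T} (hA : #A < 𝔠) (f : ι → T) :
    ∃ v : ι → T, (∀ i ∈ P, v i = f i) ∧
      ∀ l : ι →₀ ℤ, ↑l.support ⊆ J → ¬ ↑l.support ⊆ P → lc v l ∉ span ℤ A := by
  classical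
  obtain ⟨w, hw⟩ := indep hJ (un_lt hA (cnt_lt (hP.image f)))
  refine ⟨fun i => if i ∈ P then f i else w i, fun i hi => if_pos hi, fun l h1 h2 h3 => h2 ?_⟩
  rw [← Finsupp.filter_add_filter_not l (· ∈ P), map_add] at h3
  have := hw (l.filter (· ∉ P)) (fun i hi => h1 (Finset.mem_filter.1 hi).1) (by
    rw [← lc_congr (x := fun i => if i ∈ P then f i else w i) fun i hi =>
      if_neg ((Finset.mem_filter (p := (· ∉ P))).1 hi).2]
    refine (Submodule.add_mem_iff_right _ (lc_mem fun i hi => ?_)).1 (span_mono Set.subset_union_left h3)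
    rw [if_pos (Finset.mem_filter.1 hi).2]
    exact subset_span (Or.inr ⟨i, (Finset.mem_filter.1 hi).2, rfl⟩))
  intro i hi
  by_contra h
  have := DFunLike.congr_fun this i
  rw [Finsupp.filter_apply_pos (· ∉ P) _ h] at this
  exact Finsupp.mem_support_iff.1 hi this

lemma close {M : Type} [AddCommGroup M] {u : ℕ → M} (hu : Injective u) {α : Type} (F : Finset α)
    (φ : α → M →+ T) {ε : ℝ} (hε : 0 < ε) :
    ∃ i j, u i - u j ≠ 0 ∧ ∀ a ∈ F, ‖φ a (u i - u j)‖ < ε := by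
  have h : ∀ a, ∃ y, Tendsto (fun k => φ a (u k)) (hyperfilter ℕ) (𝓝 y) := fun a =>
    ⟨_, ((hyperfilter ℕ).map fun k => φ a (u k)).le_nhds_lim⟩
  choose ψ hψ using h
  have : ∀ᶠ i in hyperfilter ℕ, ∀ a ∈ F, dist (φ a (u i)) (ψ a) < ε / 2 :=
    (eventually_all_finset F).2 fun a _ => Metric.tendsto_nhds.1 (hψ _) _ (by positivity)
  obtain ⟨i, hi, j, hj, hij⟩ := Set.Infinite.nontrivial fun hf =>
    Set.Finite.notMem_hyperfilter hf this
  refine ⟨i, j, sub_ne_zero.2 (hu.ne hij), fun a ha => ?_⟩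
  rw [map_sub, ← dist_eq_norm]
  linarith [dist_triangle_right (φ a (u i)) (φ a (u j)) (ψ a), hi a ha, hj a ha]

lemma norm_le_abs (r : ℝ) : ‖(r : T)‖ ≤ |r| := QuotientAddGroup.norm_mk_le_norm

lemma sparse {M : Type} [AddCommGroup M] {u : ℕ → M} (hu : Injective u) (w : M →+ ℝ) :
    ∃ (y : ℕ → M) (σ : (ℕ → Bool) → ℝ), (∀ n, y n ≠ 0 ∧ ∃ i j, y n = u i - u j) ∧ Injective σ ∧
      ∀ b, Tendsto (fun n => ((σ b * w (y n) : ℝ) : T)) atTop (𝓝 0) := by
  let φ : ℕ × M × ℝ → M →+ T := fun a => (QuotientAddGroup.mk' _).comp (a.2.2 • w)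
  obtain ⟨f, f1, f2⟩ := exists_seq_of_forall_finset_exists
    (fun p : ℕ × M × ℝ => (p.2.1 ≠ 0 ∧ ∃ i j, p.2.1 = u i - u j) ∧ 0 < p.2.2 ∧
      p.2.2 * |w p.2.1| ≤ (1 / 2) ^ p.1)
    (fun a b => a.1 < b.1 ∧ b.2.2 ≤ a.2.2 / 4 ∧ ‖φ a b.2.1‖ < (1 / 2) ^ b.1) fun s hs => by
      let k := s.sup Prod.fst + 1
      obtain ⟨i, j, h1, h2⟩ := close hu s φ (ε := (1 / 2) ^ k) (by positivity)
      have t0 : ∀ᶠ r in 𝓝[>] (0 : ℝ), 0 < r ∧ r * |w (u i - u j)| ≤ (1 / 2) ^ k ∧
          ∀ a ∈ s, r ≤ a.2.2 / 4 := by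
        refine Eventually.and self_mem_nhdsWithin (nhdsWithin_le_nhds (Eventually.and ?_ ?_))
        · exact (Continuous.tendsto' (f := fun r : ℝ => r * |w (u i - u j)|) (by fun_prop) 0 0
            (by simp)).eventually (ge_mem_nhds (by positivity))
        · exact (eventually_all_finset s).2 fun a ha => ge_mem_nhds (by linarith [(hs a ha).2.1])
      obtain ⟨r, r1, r2, r3⟩ := t0.exists
      exact ⟨(k, u i - u j, r), ⟨⟨h1, i, j, rfl⟩, r1, r2⟩, fun a ha =>
        ⟨Nat.lt_succ_of_le (Finset.le_sup (f := Prod.fst) ha), r3 a ha, h2 a ha⟩⟩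
  have hf : StrictMono fun n => (f n).1 := fun a b h => (f2 a b h).1
  have hp : ∀ n, (1 / 2 : ℝ) ^ (f n).1 ≤ (1 / 2) ^ n := fun n =>
    pow_le_pow_of_le_one (by norm_num) (by norm_num) hf.le_apply
  let s : ℕ → ℝ := fun n => (f n).2.2
  have s0 : ∀ n, 0 < s n := fun n => (f1 n).2.1
  have s1 : ∀ n, s (n + 1) ≤ s n / 4 := fun n => (f2 n _ n.lt_succ_self).2.1
  let p : (ℕ → Bool) → ℕ → ℝ := fun b N => ∑ j ∈ Finset.range N, if b j then s j else 0
  have ps : ∀ b N, p b (N + 1) = p b N + if b N then s N else 0 := fun b N =>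
    Finset.sum_range_succ _ _
  have p1 : ∀ b, Monotone (p b) := fun b => monotone_nat_of_le_succ fun n => by
    rw [ps]; split_ifs <;> linarith [s0 n]
  have p2 : ∀ b, Antitone fun N => p b N + 2 * s N := fun b => antitone_nat_of_succ_le fun n => by
    rw [ps]; split_ifs <;> linarith [s0 n, s1 n]
  have p3 : ∀ b N K, p b K ≤ p b N + 2 * s N := fun b N K => by
    linarith [p1 b (le_max_left K N), p2 b (le_max_right K N), s0 (max K N)]
  have p4 : ∀ b N, p b N ≤ ⨆ K, p b K := fun b N =>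
    le_ciSup ⟨_, by rintro _ ⟨K, rfl⟩; exact p3 b 0 K⟩ N
  have p5 : ∀ b N, ⨆ K, p b K ≤ p b N + 2 * s N := fun b N => ciSup_le (p3 b N)
  refine ⟨fun n => (f n).2.1, fun b => ⨆ K, p b K, fun n => (f1 n).1, fun b c e => ?_, fun b => ?_⟩
  · have key : ∀ b c : ℕ → Bool, ⨆ K, p b K = ⨆ K, p c K → ∀ j, p b j = p c j → b j = true →
        c j = true := fun b c e j h1 h2 => by
      by_contra h3
      have a1 := p4 b (j + 1)
      have a2 := p5 c (j + 1)
      rw [ps, if_pos h2] at a1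
      rw [ps, if_neg h3] at a2
      linarith [s0 j, s1 j]
    ext j
    induction j using Nat.strong_induction_on with
    | h j ih =>
      have : p b j = p c j := Finset.sum_congr rfl fun i hi => by rw [ih i (Finset.mem_range.1 hi)]
      exact Bool.eq_iff_iff.2 ⟨key b c e j this, key c b e.symm j this.symm⟩
  · refine squeeze_zero_norm (E := T) (a := fun n : ℕ => (n * (1 / 2) ^ n + 2 * (1 / 2) ^ n : ℝ))
      (fun n => ?_) ?_
    · have e : (⨆ K, p b K) * w (f n).2.1 = p b n * w (f n).2.1 +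
          ((⨆ K, p b K) - p b n) * w (f n).2.1 := by ring
      rw [e, AddCircle.coe_add]
      refine (norm_add_le _ _).trans (add_le_add ?_ ((norm_le_abs _).trans ?_))
      · rw [Finset.sum_mul, ← QuotientAddGroup.mk'_apply, map_sum]
        refine (norm_sum_le_of_le _ (n := fun _ => (1 / 2) ^ n) fun j hj => ?_).trans (by simp)
        split_ifs
        · exact ((f2 j n (Finset.mem_range.1 hj)).2.2.le).trans (hp n)
        · simp
      · rw [abs_mul, abs_of_nonneg (sub_nonneg.2 (p4 b n))]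
        nlinarith [p5 b n, abs_nonneg (w (f n).2.1), (f1 n).2.2, hp n]
    · simpa using (tendsto_self_mul_const_pow_of_lt_one (r := 1 / 2) (by norm_num) (by norm_num)).add
        ((tendsto_pow_atTop_nhds_zero_of_lt_one (r := (1 / 2 : ℝ)) (by norm_num)
          (by norm_num)).const_mul 2)

/-- support of a sequence -/
def sp (y : ℕ → ι →₀ ℤ) : Set ι := ⋃ n, (y n).support

lemma sp_cnt (y : ℕ → ι →₀ ℤ) : (sp y).Countable :=
  Set.countable_iUnion fun _ => Finset.countable_toSet _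

/-- sequences that can be approximated by generic points -/
def Rich (y : ℕ → ι →₀ ℤ) : Prop := ∀ (f : ι → T) (A : Set T), #A < 𝔠 → ∃ x : ι → T,
  Tendsto (fun n => lc x (y n) - lc f (y n)) atTop (𝓝 0) ∧
    ∀ γ : ι →₀ ℤ, γ ≠ 0 → ↑γ.support ⊆ sp y → lc x γ ∉ A

lemma exists_rich {u : ℕ → ι →₀ ℤ} (hu : Injective u) :
    ∃ y, (∀ n, y n ≠ 0 ∧ ∃ i j, y n = u i - u j) ∧ Rich y := by
  classical
  obtain ⟨v, hv⟩ := indep (cnt_lt (sp_cnt u)) (A := ∅) (cnt_lt Set.countable_empty)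
  choose r hr using fun i => QuotientAddGroup.mk_surjective (v i)
  let w := (Finsupp.linearCombination ℤ r).toAddMonoidHom
  have hw : ∀ (c : ℝ) γ, lc (fun i => ((c * r i : ℝ) : T)) γ = ((c * w γ : ℝ) : T) := fun c γ => by
    have : lc (fun i => ((c * r i : ℝ) : T)) = (QuotientAddGroup.mk' _).comp (c • w) := by
      ext; simp [w]
    rw [this]; rfl
  obtain ⟨y, σ, y1, y2, y3⟩ := sparse hu w
  have hs : sp y ⊆ sp u := Set.iUnion_subset fun n => by
    obtain ⟨-, i, j, e⟩ := y1 n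
    rw [e]
    exact fun a ha => (Finset.mem_union.1 (Finsupp.support_sub ha)).elim
      (fun h => Set.mem_iUnion.2 ⟨i, h⟩) fun h => Set.mem_iUnion.2 ⟨j, h⟩
  refine ⟨y, y1, fun f A hA => ?_⟩
  let Λ := {γ : ι →₀ ℤ | γ ≠ 0 ∧ ↑γ.support ⊆ sp y}
  have hΛ : Λ.Countable := by
    have := (sp_cnt y).to_subtype
    refine (Set.countable_range (Finsupp.mapDomain (M := ℤ) (Subtype.val : sp y → ι))).mono ?_
    refine fun γ hγ => ⟨_, Finsupp.mapDomain_comapDomain _ Subtype.val_injective γ ?_⟩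
    rw [Subtype.range_coe]; exact hγ.2
  obtain ⟨b, hb⟩ := not_cov mk_cantor.ge (β := Λ × A) (by
    rw [mk_prod, lift_id, lift_id]; exact mul_lt_of_lt aleph0_le_continuum (cnt_lt hΛ) hA)
    (fun p => {b | lc f p.1.1 + ((σ b * w p.1.1 : ℝ) : T) = p.2.1}) fun p => by
      have w0 : w p.1.1 ≠ 0 := fun h => p.1.2.1 (hv _ (p.1.2.2.trans hs) (by
        have := hw 1 p.1.1
        simp only [one_mul, hr, h] at this
        rw [this]; exact zero_mem _))
      obtain ⟨t, ht⟩ := QuotientAddGroup.mk_surjective (p.2.1 - lc f p.1.1)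
      refine ((Set.countable_range fun k : ℤ => (t + k) / w p.1.1).preimage_of_injOn
        y2.injOn).mono fun b hb => ?_
      have : ((σ b * w p.1.1 - t : ℝ) : T) = 0 := by
        rw [AddCircle.coe_sub, ht, ← show _ = _ from hb]; abel
      obtain ⟨k, hk⟩ := (AddCircle.coe_eq_zero_iff _).1 this
      refine ⟨k, ?_⟩
      simp only [zsmul_eq_mul, mul_one] at hk
      simp only [hk]
      field_simp
      ring
  have e : ∀ γ, lc (f + fun i => ((σ b * r i : ℝ) : T)) γ = lc f γ + ((σ b * w γ : ℝ) : T) :=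
    fun γ => by rw [← lcp_apply, map_add, AddMonoidHom.add_apply, lcp_apply, lcp_apply, hw]
  refine ⟨f + fun i => ((σ b * r i : ℝ) : T), by simpa [e] using y3 b, fun γ h1 h2 h3 =>
    hb (⟨γ, h1, h2⟩, ⟨_, h3⟩) (e γ).symm⟩

end Pool.Agent.H15.Psc
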