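import Mathlib
import Pool.Agent.H15.Rfl2

set_option autoImplicit false

namespace Pool.Agent.H15.Psc
open Function Filter Topology Cardinal Submodule Set

abbrev Om : Type := (𝔠 : Cardinal.{0}).ord.ToType

lemma mk_Om : #Om = 𝔠 := by simp

instance : Nonempty Om := mk_ne_zero_iff.1 (by rw [mk_Om]; exact continuum_ne_zero)

lemma Om_Iio (i : Om) : #(Iio i) < 𝔠 := by simpa using Cardinal.mk_Iio_lt i (by simp)

lemma Om_Iic (i : Om) : #(Iic i) < 𝔠 := by
  rw [← Iio_union_right]; exact un_lt (Om_Iio i) (cnt_lt (countable_singleton _))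

lemma exists_tasks (K : Type) [Nonempty K] (hK : #K ≤ 𝔠) : ∃ e : Om → K, ∀ (k : K) (S : Set Om),
    S.Countable → ¬ {ξ | e ξ = k ∧ ∀ s ∈ S, s < ξ}.Countable := by
  obtain ⟨E⟩ : Nonempty (K × Om ≃ Om) := Cardinal.eq.1 (by
    rw [mk_prod, lift_id, lift_id, mk_Om]
    exact mul_eq_right aleph0_le_continuum hK (mk_ne_zero K))
  refine ⟨fun ξ => (E.symm ξ).1, fun k S hS h => ?_⟩
  have h1 : #(⋃ s : S, Iic s.1 : Set Om) < 𝔠 := by
    refine (mk_iUnion_le _).trans_lt (mul_lt_of_lt aleph0_le_continuum (cnt_lt hS)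
      (iSup_lt_of_lt_cof_ord (hS.le_aleph0.trans_lt ?_) fun s => Om_Iic _))
    rw [← two_power_aleph0]
    exact lt_cof_ord_power le_rfl (by norm_num)
  refine (un_lt (cnt_lt h) h1).not_ge (mk_Om.ge.trans (mk_le_of_injective
    (f := fun η => ⟨E (k, η), ?_⟩) fun a b h => by simpa using h))
  by_contra hc
  simp only [mem_union, mem_iUnion, mem_Iic, not_or, not_exists, not_le] at hc
  exact hc.1 ⟨by simp, fun s hs => hc.2 ⟨s, hs⟩⟩

lemma look_graph {Y V : Type} [Nonempty V] (en : ℕ → Y) (f : Y → V) {y : Y} (h : y ∈ range en) :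
    look (fun n => (en n, f (en n))) y = f y := by
  have h' : ∃ n, en n = y := h
  rw [look, dif_pos h', h'.choose_spec]

/-- pairing given by a matrix -/
noncomputable def mev {ι κ : Type} (a : ι → κ → T) : (κ →₀ ℤ) →+ (ι →₀ ℤ) →+ T :=
  (lcp ι).comp (AddMonoidHom.pi fun i => lc (a i))

lemma mev_apply {ι κ : Type} (a : ι → κ → T) (g : κ →₀ ℤ) (γ : ι →₀ ℤ) :
    mev a g γ = lc (fun i => lc (a i) g) γ := rfl

lemma mev_left {ι κ : Type} (a : ι → κ → T) (α : κ) (k : ℤ) (γ : ι →₀ ℤ) :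
    mev a (Finsupp.single α k) γ = lc (fun i => a i α) (k • γ) := by
  rw [← Finsupp.smul_single_one, map_zsmul, map_zsmul, AddMonoidHom.zsmul_apply, mev_apply]
  simp only [lc_single, one_smul]

lemma mev_right {ι κ : Type} (a : ι → κ → T) (g : κ →₀ ℤ) (i : ι) (k : ℤ) :
    mev a g (Finsupp.single i k) = lc (a i) (k • g) := by
  rw [mev_apply, lc_single, map_zsmul]

theorem exists_matrix : ∃ a : Om → Om → T,
    (∀ γ, γ ≠ 0 → ∃ D : Set Om, D.Countable ∧ ∀ g, mev a g γ = 0 → ↑g.support ⊆ D) ∧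
    (∀ i, ∃ t, ∀ g, lc (a i) g ≠ t) ∧
    (∀ (f : Om → T) (S : Set Om), S.Countable → ∃ i, ∀ α ∈ S, a i α = f α) ∧
    ∀ (y : ℕ → Om →₀ ℤ) (f : Om → T), Rich y →
      ¬ {α | Tendsto (fun n => lc (fun i => a i α) (y n) - lc f (y n)) atTop (𝓝 0)}.Countable := by
  classical
  obtain ⟨e, he⟩ := exists_tasks ((ℕ → Om →₀ ℤ) × (ℕ → Om × T)) (le_c_prod (le_c_seq
    ((mk_finsupp_le _ _).trans (max_le mk_Om.le aleph0_le_continuum)))
    (le_c_seq (le_c_prod mk_Om.le mk_T.le)))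
  let D : Om → Set Om := fun ξ => (range fun n => ((e ξ).2 n).1) ∩ Iio ξ
  let φ : Om → Om → T := fun ξ => look (e ξ).2
  have hD : ∀ ξ, (D ξ).Countable := fun ξ => (countable_range _).mono inter_subset_left
  have ht : ∀ ξ, ∃ t, t ∉ span ℤ (φ ξ '' D ξ) := fun ξ => by
    obtain ⟨t, ht⟩ := not_cov mk_T.ge (mk_span_lt (cnt_lt ((hD ξ).image (φ ξ)))) (fun b => {b.1})
      fun _ => countable_singleton _
    exact ⟨t, fun h => ht ⟨t, h⟩ rfl⟩
  choose t ht using ht
  have step : ∀ (ξ : Om) (A : Set T), ∃ p : (Om → T) × (Om → T), #A < 𝔠 →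
      (∀ α ∈ D ξ, p.1 α = φ ξ α) ∧
      (∀ g : Om →₀ ℤ, ↑g.support ⊆ Iio ξ → ¬ ↑g.support ⊆ D ξ → lc p.1 g ∉ span ℤ A) ∧
      (Rich (e ξ).1 → Tendsto (fun n => lc p.2 ((e ξ).1 n) - lc (φ ξ) ((e ξ).1 n)) atTop (𝓝 0)) ∧
      ∀ γ : Om →₀ ℤ, γ ≠ 0 → ↑γ.support ⊆ Iic ξ → lc p.2 γ ∉ span ℤ (A ∪ p.1 '' Iio ξ) := by
    intro ξ A
    by_cases hA : #A < 𝔠
    swap
    · exact ⟨0, fun h => absurd h hA⟩
    obtain ⟨r, r1, r2⟩ := gen (Om_Iio ξ) (hD ξ) hA (φ ξ)
    have hA' := un_lt hA (mk_image_le.trans_lt (Om_Iio ξ) : #(r '' Iio ξ) < 𝔠)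
    by_cases hR : Rich (e ξ).1
    · obtain ⟨x, x1, x2⟩ := hR (φ ξ) _ (mk_span_lt hA')
      obtain ⟨c, c1, c2⟩ := gen (Om_Iic ξ) (sp_cnt (e ξ).1) hA' x
      refine ⟨(r, c), fun _ => ⟨r1, r2, fun _ => x1.congr fun n => ?_, fun γ h0 h1 => ?_⟩⟩
      · rw [lc_congr (x := c) fun i hi => c1 i (mem_iUnion.2 ⟨n, hi⟩)]
      · by_cases h : ↑γ.support ⊆ sp (e ξ).1
        · rw [lc_congr (x := c) fun i hi => c1 i (h hi)]
          exact x2 γ h0 h
        · exact c2 γ h1 h
    · obtain ⟨c, c2⟩ := indep (Om_Iic ξ) hA'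
      exact ⟨(r, c), fun _ => ⟨r1, r2, fun h => absurd h hR, fun γ h0 h1 h => h0 (c2 γ h1 h)⟩⟩
  choose st hst using step
  let vals : Om → (Om → T) × (Om → T) → Set T := fun η p => p.1 '' Iio η ∪ p.2 '' Iic η
  let F : Om → (Om → T) × (Om → T) := (wellFounded_lt (α := Om)).fix fun ξ ih =>
    st ξ (t '' Iic ξ ∪ ⋃ η : Iio ξ, vals η (ih η η.2))
  let A : Om → Set T := fun ξ => t '' Iic ξ ∪ ⋃ η : Iio ξ, vals η (F η)
  have hF : ∀ ξ, F ξ = st ξ (A ξ) := fun ξ => (wellFounded_lt (α := Om)).fix_eq _ ξ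
  have hA : ∀ ξ, #(A ξ) < 𝔠 := fun ξ => by
    refine un_lt (mk_image_le.trans_lt (Om_Iic ξ)) ((mk_iUnion_le _).trans_lt (mul_lt_of_lt
      aleph0_le_continuum (Om_Iio ξ) (lt_of_le_of_lt (ciSup_le' fun η => (mk_union_le _ _).trans
        (add_le_add (mk_image_le.trans (mk_le_mk_of_subset (Iio_subset_Iio (le_of_lt η.2))))
          (mk_image_le.trans (mk_le_mk_of_subset (Iic_subset_Iio.2 η.2)))))
        (add_lt_of_lt aleph0_le_continuum (Om_Iio ξ) (Om_Iio ξ)))))
  have hs := fun ξ => hst ξ _ (hA ξ)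
  simp only [← hF] at hs
  let a : Om → Om → T := fun i α => if α < i then (F i).1 α else (F α).2 i
  have aA : ∀ ξ i α, i < ξ → α < ξ → a i α ∈ A ξ := fun ξ i α hi hα => by
    simp only [a]
    split_ifs with h
    · exact Or.inr (mem_iUnion.2 ⟨⟨i, hi⟩, Or.inl ⟨α, h, rfl⟩⟩)
    · exact Or.inr (mem_iUnion.2 ⟨⟨α, hα⟩, Or.inr ⟨i, not_lt.1 h, rfl⟩⟩)
  have key : ∀ (γ g : Om →₀ ℤ) (i : Om), IsGreatest (γ.support : Set Om) i → ¬ ↑g.support ⊆ D i →
      mev a g γ ∉ span ℤ (t '' Iic i) := by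
    intro γ g i hi hg hm
    obtain ⟨α, hα, hα'⟩ := g.support.exists_max_image id (Finset.nonempty_iff_ne_empty.2 fun h =>
      hg (by simp [h]))
    have g0 := Finsupp.mem_support_iff.1 hα
    have γ0 := Finsupp.mem_support_iff.1 hi.1
    rcases le_or_gt i α with h | h
    · rw [← Finsupp.single_add_erase α g, map_add, AddMonoidHom.add_apply, mev_left] at hm
      refine (hs α).2.2.2 (g α • γ) (smul_ne_zero g0 fun e => γ0 (by simp [e]))
        (fun j hj => (hi.2 (Finsupp.support_smul hj)).trans h) ?_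
      rw [← lc_congr (x := fun i => a i α) fun j hj =>
        if_neg (not_lt.2 ((hi.2 (Finsupp.support_smul hj)).trans h))]
      refine (Submodule.add_mem_iff_left _ (lc_mem fun j hj => lc_mem fun β hβ => subset_span ?_)).1
        (span_mono (fun x hx => Or.inl (Or.inl (image_mono (Iic_subset_Iic.2 h) hx))) hm)
      rw [Finsupp.support_erase, Finset.mem_erase] at hβ
      have hβ' : β < α := lt_of_le_of_ne (hα' β hβ.2) hβ.1
      rcases ((hi.2 hj).trans h).eq_or_lt with rfl | h'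
      · exact Or.inr ⟨β, hβ', (if_pos hβ').symm⟩
      · exact Or.inl (aA α j β h' hβ')
    · rw [← Finsupp.single_add_erase i γ, map_add, mev_right] at hm
      have hsup : (γ i • g).support = g.support := Finsupp.support_smul_eq γ0
      refine (hs i).2.1 (γ i • g) (fun β hβ => (hα' β (hsup ▸ hβ)).trans_lt h) (by rwa [hsup]) ?_
      rw [← lc_congr (x := a i) fun β hβ => if_pos ((hα' β (hsup ▸ hβ)).trans_lt h)]
      refine (Submodule.add_mem_iff_left _ (lc_mem fun j hj => lc_mem fun β hβ => subset_span ?_)).1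
        (span_mono subset_union_left hm)
      rw [Finsupp.support_erase, Finset.mem_erase] at hj
      exact aA i j β (lt_of_le_of_ne (hi.2 hj.2) hj.1) ((hα' β hβ).trans_lt h)
  refine ⟨a, fun γ h0 => ?_, fun i => ⟨t i, fun g hg => ?_⟩, fun f S hS => ?_, fun y f hy h => ?_⟩
  · obtain ⟨i, h1, h2⟩ := γ.support.exists_max_image id (Finsupp.support_nonempty_iff.2 h0)
    exact ⟨D i, hD i, fun g hg => by_contra fun h => key γ g i ⟨h1, h2⟩ h (hg ▸ zero_mem _)⟩
  · by_cases h : ↑g.support ⊆ D i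
    · refine ht i (hg ▸ lc_mem fun α hα => subset_span ?_)
      exact ⟨α, h hα, ((if_pos (h hα).2).trans ((hs i).1 α (h hα))).symm⟩
    · refine key (Finsupp.single i 1) g i (by simp) h (subset_span ⟨i, self_mem_Iic, ?_⟩)
      rw [mev_right, one_smul, hg]
  · obtain ⟨en, hen⟩ := exists_enum hS
    obtain ⟨i, h1, h2⟩ : {ξ | e ξ = (0, fun n => (en n, f (en n))) ∧ ∀ s ∈ S, s < ξ}.Nonempty :=
      nonempty_iff_ne_empty.2 fun h => he _ S hS (h ▸ countable_empty)
    refine ⟨i, fun α hα => (if_pos (h2 α hα)).trans (((hs i).1 α ?_).trans ?_)⟩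
    · exact ⟨by simpa only [h1] using hen hα, h2 α hα⟩
    · simpa only [φ, h1] using look_graph en f (hen hα)
  · obtain ⟨en, hen⟩ := exists_enum (sp_cnt y)
    refine he (y, fun n => (en n, f (en n))) _ (sp_cnt y) (h.mono ?_)
    rintro α ⟨h1, h2⟩
    have := (hs α).2.2.1 (by rwa [h1])
    simp only [φ, h1] at this
    refine this.congr fun n => ?_
    rw [lc_congr (y := f) fun i hi => look_graph en f (hen (mem_iUnion.2 ⟨n, hi⟩)),
      lc_congr (x := fun i => a i α) fun i hi => if_neg (h2 i (mem_iUnion.2 ⟨n, hi⟩)).not_gt]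

theorem exists_K : ∃ K : AddSubgroup (Om → T),
    (∀ (φ : K →+ T) (S : Set K), S.Countable → ∃ i, ∀ x ∈ S, x.1 i = φ x) ∧
    (∀ γ, γ ≠ 0 → {x | x ∈ K ∧ lc x γ = 0}.Countable) ∧ (∀ i, ∃ t, ∀ x ∈ K, x i ≠ t) ∧
    ¬ (K : Set (Om → T)).Countable ∧ ∀ (y : ℕ → Om →₀ ℤ) (f : Om → T), Rich y →
      ¬ {x | x ∈ K ∧ Tendsto (fun n => lc x (y n) - lc f (y n)) atTop (𝓝 0)}.Countable := by
  classical
  obtain ⟨a, h1, h2, h3, h4⟩ := exists_matrix
  let Ψ : (Om →₀ ℤ) →+ (Om → T) := AddMonoidHom.pi fun i => lc (a i)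
  have hc : Injective fun α => Ψ (Finsupp.single α 1) := fun α β e => by
    obtain ⟨i, hi⟩ := h3 (Pi.single α ((1 / 2 : ℝ) : T)) {α, β} (to_countable _)
    have := congrFun e i
    simp only [Ψ, AddMonoidHom.pi_apply, lc_single, one_smul, hi α (by simp), hi β (by simp)] at this
    by_contra hne
    rw [Pi.single_eq_same, Pi.single_eq_of_ne' hne] at this
    have h := norm_coe_T (r := 1 / 2) (by norm_num [abs_of_pos])
    rw [this] at h
    norm_num [abs_of_pos] at h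
  refine ⟨Ψ.range, fun φ S hS => ?_, fun γ hγ => ?_, fun i => ?_, fun h => ?_, fun y f hy h => ?_⟩
  · choose l hl using fun x : Ψ.range => x.2
    obtain ⟨i, hi⟩ := h3 (fun α => φ.comp Ψ.rangeRestrict (Finsupp.single α 1)) (⋃ x ∈ S, (l x).support)
      (hS.biUnion fun _ _ => Finset.countable_toSet _)
    refine ⟨i, fun x hx => ?_⟩
    rw [← hl, show Ψ (l x) i = lc (a i) (l x) from rfl, lc_congr fun α hα => hi α (mem_biUnion hx hα),
      lc_hom]
    exact congrArg φ (Subtype.ext (hl x))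
  · obtain ⟨D, d1, d2⟩ := h1 γ hγ
    have := d1.to_subtype
    refine (countable_range fun l => Ψ (Finsupp.mapDomain (M := ℤ) (Subtype.val : D → Om) l)).mono ?_
    rintro _ ⟨⟨g, rfl⟩, hg⟩
    exact ⟨_, congrArg Ψ (Finsupp.mapDomain_comapDomain _ Subtype.val_injective g
      (by rw [Subtype.range_coe]; exact d2 g hg))⟩
  · obtain ⟨t, ht⟩ := h2 i
    exact ⟨t, by rintro _ ⟨g, rfl⟩; exact ht g⟩
  · have := (h.preimage_of_injOn hc.injOn).mono (s₁ := Set.univ) fun α _ => (⟨_, rfl⟩ : _ ∈ Ψ.range)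
    rw [countable_univ_iff, ← mk_le_aleph0_iff, mk_Om] at this
    exact this.not_gt aleph0_lt_continuum
  · refine h4 y f hy ((h.preimage_of_injOn hc.injOn).mono ?_)
    refine fun α hα => ⟨⟨_, rfl⟩, ?_⟩
    dsimp only
    rw [show Ψ (Finsupp.single α 1) = fun i => a i α from funext fun i =>
      (lc_single _ _ _).trans (one_smul _ _)]
    exact hα

theorem exists_S : ∃ H : Subgroup (ℝ → Circle),
      Dense (H : Set (ℝ → Circle)) ∧
      ¬ (H : Set (ℝ → Circle)).Countable ∧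
      (∀ f : H → ℝ, Continuous f →
        ∃ U : Set H, IsClopen U ∧ f ⁻¹' {0} ⊆ U ∧ Disjoint U (f ⁻¹' {1})) ∧
      (∀ K : Subgroup H, (K : Set H).Countable → IsClosed (K : Set H)) ∧
      (∀ K : Subgroup H, ¬ (K : Set H).Countable → Dense (K : Set H)) ∧
      (∃ e : H ≃ₜ* PontryaginDual (PontryaginDual H),
        ∀ (g : H) (χ : PontryaginDual H), e g χ = χ g) := by
  obtain ⟨K, h1, h2, h3, h4, h5⟩ := exists_K
  obtain ⟨E⟩ : Nonempty (ℝ ≃ Om) := Cardinal.eq.1 (by simp [mk_real])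
  let π : (ℝ → Circle) ≃ₜ (Om → T) :=
    (Homeomorph.piCongrLeft (Y := fun _ => Circle) E).trans (Homeomorph.piCongrRight fun _ => lg)
  have hπ : ∀ x i, π x i = lg (x (E.symm i)) := fun x i => by
    simp [π, Homeomorph.piCongrLeft, Equiv.piCongrLeft_apply_eq_cast]
  let p : Additive (ℝ → Circle) →+ (Om → T) := AddMonoidHom.mk' (fun x => π x.toMul) fun a b => by
    ext i; simp [hπ, lg_mul]
  let H : Subgroup (ℝ → Circle) := (K.comap p).toSubgroup'
  let ψ : Additive H →+ (Om → T) := p.comp H.subtype.toAdditive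
  have he : IsEmbedding ψ := π.isEmbedding.comp IsEmbedding.subtypeVal
  have hK : ∀ x, ψ x ∈ K := fun x => x.toMul.2
  have hK' : ∀ x ∈ K, ∃ g, ψ g = x := fun x hx =>
    ⟨Additive.ofMul ⟨π.symm x, show π (π.symm x) ∈ K by rwa [π.apply_symm_apply]⟩,
      π.apply_symm_apply x⟩
  let ev := (lcp Om).comp ψ
  have hi : IsInducing fun g => (ev g : (Om →₀ ℤ) → T) := (ind_lcp Om).comp he.isInducing
  have f2 : Fill ev.flip := fun φ S hS => by
    obtain ⟨θ, hθ⟩ := ext0 dvT (ψ.codRestrict K hK) φ fun z hz => by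
      rw [he.injective (a₂ := 0) ((congrArg Subtype.val hz).trans (map_zero ψ).symm), map_zero]
    obtain ⟨i, hi⟩ := h1 θ _ (hS.image (ψ.codRestrict K hK))
    exact ⟨Finsupp.single i 1, fun g hg => ((lc_single _ _ _).trans (one_smul _ _)).trans
      ((hi _ ⟨g, hg, rfl⟩).trans (hθ g))⟩
  have hd : ∀ L : AddSubgroup (Additive H), ¬ (L : Set (Additive H)).Countable →
      Dense (L.map ψ : Set (Om → T)) := fun L hL => dense_of_ann _ fun γ hγ => by_contra fun h0 =>
    hL (((h2 γ h0).preimage_of_injOn he.injective.injOn).mono fun x hx => And.intro (hK x) (hγ _ ⟨x, hx, rfl⟩))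
  have hu : ¬ (Set.univ : Set (Additive H)).Countable := fun h => h4 ((h.image ψ).mono fun x hx =>
    (hK' x hx).imp fun g hg => And.intro trivial hg)
  have hd' : DenseRange ψ := (hd ⊤ hu).mono (image_subset_range _ _)
  refine ⟨H, ?_, fun h => hu (countable_univ_iff.2 h.to_subtype), fun f hf => ?_, fun L hL => ?_,
    fun L hL => ?_, reflexive' ⟨hi, f2.inj⟩ (fun C hC => f2.fin_compact hi (C := C) hC)
      fun C hC hC' => ?_⟩
  · refine (hd'.preimage π.isOpenMap).mono ?_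
    rintro x ⟨g, hg⟩
    show π x ∈ K
    exact hg ▸ hK g
  · refine zero_dim (G := Additive H) (χ := fun i => (Pi.evalAddMonoidHom _ i).comp ψ) he.isInducing hd'
      (fun i h => ?_) f hf
    obtain ⟨t, ht⟩ := h3 i
    obtain ⟨g, hg⟩ := (AddMonoidHom.range_eq_top.1 h) t
    exact ht _ (hK g) hg
  · refine isClosed_of_closure_subset fun g hg => by_contra fun hn => ?_
    obtain ⟨φ, hφ⟩ := exists_char' (M := Additive H ⧸ L.toAddSubgroup)
      (x := QuotientAddGroup.mk (Additive.ofMul g)) fun e => hn ((QuotientAddGroup.eq_zero_iff _).1 e)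
    obtain ⟨γ, hγ⟩ := f2 (φ.comp (QuotientAddGroup.mk' _)) (insert g L : Set H) (hL.insert g)
    refine hφ ((hγ g (Or.inl rfl)).symm.trans ?_)
    refine closure_minimal (t := {x : H | ev (Additive.ofMul x) γ = 0}) (fun x hx => ?_)
      (isClosed_eq (cont_ev hi γ) continuous_const) hg
    refine (hγ x (Or.inr hx)).trans ?_
    rw [AddMonoidHom.comp_apply, QuotientAddGroup.mk'_apply,
      (QuotientAddGroup.eq_zero_iff (N := L.toAddSubgroup) _).2 hx, map_zero]
  · exact fun x => he.isInducing.closure_eq_preimage_closure_image _ ▸ hd L.toAddSubgroup hL _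
  · by_contra hf
    let c := Set.Infinite.natEmbedding C hf
    choose u hu using fun n => hC' _ (c n).2
    obtain ⟨y, y1, y2⟩ := exists_rich (u := u) fun m n e => c.injective (Subtype.ext
      ((hu m).trans (e ▸ (hu n).symm)))
    let Y : ℕ → Additive H → T := fun n a => ev a (y n)
    have cl : ∀ l : Filter ℕ, l.NeBot → l ≤ atTop → ClusterPt 0 (map Y l) := fun l _ hl => by
      obtain ⟨_, ⟨⟨x, x'⟩, ⟨a, b⟩, rfl⟩, h⟩ := ((hC.prod hC).image continuous_sub).exists_mapClusterPt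
        (f := l) (u := Y) (le_principal_iff.2 (univ_mem' (f := l) fun n => by
          obtain ⟨-, i, j, e⟩ := y1 n
          exact ⟨((c i).1, (c j).1), ⟨(c i).2, (c j).2⟩, by ext a; simp [Y, e, hu]⟩))
      obtain ⟨γ, rfl⟩ := hC' x a
      obtain ⟨δ, rfl⟩ := hC' x' b
      have : γ - δ = 0 := by_contra fun h0 => h5 y 0 y2 ((h2 _ h0).mono fun x hx => And.intro hx.1 (by
        obtain ⟨g, rfl⟩ := hK' x hx.1
        have t0 : Tendsto (fun n => Y n g) l (𝓝 0) := by
          refine (hx.2.congr fun n => ?_).mono_left hl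
          rw [← lcp_apply 0, map_zero]; exact sub_zero _
        rw [map_sub]
        exact eq_of_nhds_neBot ((h.tendsto_comp ((continuous_apply g).tendsto _)).clusterPt.mono t0)))
      simpa [sub_eq_zero.1 this] using h.clusterPt
    obtain ⟨φ, hφ⟩ := nc (z := y) (Frequently.of_forall fun n => (y1 n).1)
    obtain ⟨_, hx, h⟩ : {x | x ∈ K ∧ Tendsto (fun n => lc x (y n) -
        lc (fun i => φ (Finsupp.single i 1)) (y n)) atTop (𝓝 0)}.Nonempty :=
      nonempty_iff_ne_empty.2 fun h => h5 y _ y2 (h ▸ countable_empty)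
    obtain ⟨g, rfl⟩ := hK' _ hx
    simp only [lc_hom] at h
    have h' : ¬ Tendsto (fun n => Y n g) atTop (𝓝 0) := fun t => hφ (by simpa [Y, ev, lcp_apply] using t.sub h)
    obtain ⟨s, hs, hs'⟩ := not_tendsto_iff_exists_frequently_notMem.1 h'
    have := cl (atTop ⊓ 𝓟 {n | Y n g ∉ s}) (frequently_iff_neBot.1 hs') inf_le_left
    obtain ⟨_, a, b⟩ := clusterPt_iff_nonempty.1 this ((continuous_apply g).continuousAt hs)
      (V := {x | x g ∉ s}) (mem_inf_of_right (mem_principal_self _))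
    exact b a

end Pool.Agent.H15.Psc
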