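import Mathlib
import Pool.Agent.H15.Rfl3

set_option autoImplicit false

namespace Pool.Agent.H15.Ltg
open Function Cardinal Set Pool.Agent.H15.Psc
open FreeGroup (of lift_apply_of closure_range_of)

lemma wf_choice {α β : Type} [LinearOrder α] [WellFoundedLT α] (P : (a : α) → (Iio a → β) → β → Prop)
    (h : ∀ a f, ∃ b, P a f b) : ∃ g : α → β, ∀ a, P a (fun i => g i) (g a) := by
  choose F hF using h
  let g : α → β := wellFounded_lt.fix fun a ih => F a fun i => ih i i.2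
  refine ⟨g, fun a => ?_⟩
  have : g a = F a fun i => g i := wellFounded_lt.fix_eq _ a
  rw [this]
  exact hF _ _

lemma letters {I : Type} (v : FreeGroup I) : ∃ s : Set I, s.Finite ∧ v ∈ Subgroup.closure (of '' s) := by
  induction v using FreeGroup.induction_on with
  | C1 => exact ⟨∅, finite_empty, one_mem _⟩
  | of i => exact ⟨{i}, finite_singleton i, Subgroup.subset_closure ⟨i, rfl, rfl⟩⟩
  | inv_of i h => exact h.imp fun s hs => ⟨hs.1, inv_mem hs.2⟩
  | mul a b ha hb =>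
    obtain ⟨s, s1, s2⟩ := ha
    obtain ⟨t, t1, t2⟩ := hb
    exact ⟨s ∪ t, s1.union t1, mul_mem (Subgroup.closure_mono (image_mono subset_union_left) s2)
      (Subgroup.closure_mono (image_mono subset_union_right) t2)⟩

theorem simply_trans {X Q I : Type} [Group Q] (ψ : FreeGroup I →* Q) (hψ : Injective ψ) (e : X)
    (κ : X → Q) (hX : #X ≤ 𝔠) (hI : 𝔠 ≤ #I) (H : Subgroup (Equiv.Perm X))
    (hf : ∀ x ξ, ∃ f ∈ H, f e = x ∧ ∀ q ≠ e, κ (f q) = ψ (of ξ) * κ q) :
    ∃ (G : Type) (_ : Group G) (ρ : G →* Equiv.Perm X), (∀ g, ρ g ∈ H) ∧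
      Bijective fun g => ρ g e := by
  classical
  choose f f1 f2 f3 using hf
  have : Nonempty X := ⟨e⟩
  obtain ⟨emb⟩ : #X ≤ #Om := hX.trans mk_Om.ge
  let t : Om → X := invFun emb.1
  have ht : Surjective t := invFun_surjective emb.2
  choose lt l1 l2 using letters (I := I)
  let Pt : Om → Set X := fun a => insert e (t '' Iic a)
  have hP : ∀ a, #(Pt a) < 𝔠 := fun a =>
    un_lt (cnt_lt (countable_singleton e)) (mk_image_le.trans_lt (Om_Iic a))
  let Bad : Om → Set I := fun a => ⋃ p : Pt a × Pt a, lt (invFun ψ (κ p.1 * (κ p.2)⁻¹))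
  obtain ⟨ξ, hξ⟩ := wf_choice (fun (a : Om) (g : Iio a → I) b => b ∉ Bad a ∪ range g) fun a g => by
    by_contra hc
    push Not at hc
    refine (un_lt (A := Bad a) (B := range g) ((mk_iUnion_le _).trans_lt (mul_lt_of_lt aleph0_le_continuum ?_
      ((ciSup_le' fun p => (l1 _).countable.le_aleph0).trans_lt aleph0_lt_continuum)))
      (mk_range_le.trans_lt (Om_Iio a))).not_ge (hI.trans ?_)
    · simpa using mul_lt_of_lt aleph0_le_continuum (hP a) (hP a)
    · rw [eq_univ_of_forall hc, mk_univ]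
  have xi : Injective ξ := fun a b h => by
    by_contra hne
    rcases lt_or_gt_of_ne hne with c | c
    · exact hξ b (Or.inr ⟨⟨a, c⟩, h⟩)
    · exact hξ a (Or.inr ⟨⟨b, c⟩, h.symm⟩)
  obtain ⟨Act, hA⟩ := wf_choice (fun (a : Om) (g : Iio a → Prop) (b : Prop) => b ↔ ¬ ∃ u ∈
    Subgroup.closure {σ | ∃ i : Iio a, g i ∧ σ = f (t i) (ξ i)}, u e = t a) fun a g => ⟨_, Iff.rfl⟩
  let ρ : FreeGroup {a // Act a} →* Equiv.Perm X := FreeGroup.lift fun a => f (t a) (ξ a)
  let j : FreeGroup {a // Act a} →* Q := ψ.comp (FreeGroup.map fun a => ξ a)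
  let Cl : Om → Subgroup (FreeGroup {a // Act a}) := fun a => Subgroup.closure (of '' {b | b.1 < a})
  have hρ : ∀ a, ρ (of a) = f (t a) (ξ a) := fun a => FreeGroup.lift_apply_of
  have act : ∀ a : {a // Act a}, ∀ u ∈ Cl a, ρ u e ≠ t a := fun a u hu h => (hA a).1 a.2 ⟨ρ u, by
    have := Subgroup.mem_map_of_mem ρ hu
    rw [MonoidHom.map_closure] at this
    refine Subgroup.closure_mono ?_ this
    rintro _ ⟨_, ⟨b, hb, rfl⟩, rfl⟩
    exact ⟨⟨b, hb⟩, b.2, hρ b⟩, h⟩
  let P : FreeGroup I →* FreeGroup {a // Act a} :=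
    FreeGroup.lift fun i => if h : ∃ a : {a // Act a}, ξ a = i then of h.choose else 1
  have hPm : ∀ u, P (FreeGroup.map (fun a : {a // Act a} => ξ a) u) = u := fun u =>
    DFunLike.congr_fun (FreeGroup.ext_hom (P.comp (FreeGroup.map _)) (MonoidHom.id _) fun a => by
      have h : ∃ b : {a // Act a}, ξ b = ξ a := ⟨a, rfl⟩
      simp only [P, MonoidHom.comp_apply, FreeGroup.map.of, lift_apply_of, dif_pos h, MonoidHom.id_apply]
      rw [Subtype.ext (xi h.choose_spec)]) u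
  have fresh : ∀ a u, ∀ x ∈ Pt a, ∀ y ∈ Pt a, κ x = j u * κ y → u ∈ Cl a := fun a u x hx y hy h => by
    have h1 := Subgroup.mem_map_of_mem P (l2 (invFun ψ (κ x * (κ y)⁻¹)))
    rw [MonoidHom.map_closure] at h1
    nth_rw 2 [← eq_mul_inv_of_mul_eq h.symm] at h1
    rw [show invFun ψ (j u) = _ from leftInverse_invFun hψ _, hPm] at h1
    refine (Subgroup.closure_le _).2 ?_ h1
    rintro _ ⟨_, ⟨i, hi, rfl⟩, rfl⟩
    simp only [P, lift_apply_of]
    split_ifs with c
    · refine Subgroup.subset_closure ⟨_, ?_, rfl⟩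
      refine lt_of_not_ge (a := c.choose.1) fun hc => hξ c.choose (Or.inl ?_)
      rw [c.choose_spec]
      have s := insert_subset_insert (a := e) (image_mono (f := t) (Iic_subset_Iic.2 hc))
      exact mem_iUnion.2 ⟨(⟨x, s hx⟩, ⟨y, s hy⟩), hi⟩
    · exact one_mem _
  have j1 : ∀ u x, κ x = j u * κ x → u = 1 := fun u x h => by
    have : j u = 1 := by simpa using h.symm
    rw [← hPm u, hψ (this.trans (map_one ψ).symm), map_one]
  have pe : ∀ a, e ∈ Pt a := fun a => mem_insert _ _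
  have pt : ∀ {a b}, b ≤ a → t b ∈ Pt a := fun h => Or.inr ⟨_, h, rfl⟩
  let R : FreeGroup {a // Act a} → Prop := fun g => κ (ρ g e) = j g * κ e ∨
    ∃ (a : {a // Act a}) (u : _), g = u * of a ∧ κ (ρ g e) = j u * κ (t a)
  have c1 : ∀ g, R g → ρ g e = e → g = 1 := by
    rintro g (h | ⟨a, u, rfl, h⟩) h0 <;> rw [h0] at h
    · exact j1 g e h
    · refine (act a u⁻¹ (inv_mem (fresh a u e (pe _) _ (pt le_rfl) h)) ?_).elim
      rw [map_mul, hρ, Equiv.Perm.mul_apply, f2] at h0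
      rw [map_inv, Equiv.Perm.inv_eq_iff_eq, h0]
  have c2 : ∀ g a, R g → ρ g e = t a.1 → g = of a := by
    rintro g a (h | ⟨b, u, rfl, h⟩) h0 <;> rw [h0] at h
    · exact (act a g (fresh a g _ (pt le_rfl) e (pe _) h) h0).elim
    · rcases lt_trichotomy a b with c | rfl | c
      · refine (act b (u⁻¹ * of a) (mul_mem (inv_mem (fresh b u _ (pt c.le) _ (pt le_rfl) h))
          (Subgroup.subset_closure ⟨a, c, rfl⟩)) ?_).elim
        rw [map_mul, hρ, Equiv.Perm.mul_apply, f2] at h0 ⊢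
        rw [map_inv, Equiv.Perm.inv_eq_iff_eq, h0]
      · rw [j1 u _ h, one_mul]
      · exact (act a _ (mul_mem (fresh a u _ (pt le_rfl) _ (pt c.le) h)
          (Subgroup.subset_closure ⟨b, c, rfl⟩)) h0).elim
  have step : ∀ x g, R g → κ (ρ (x * g) e) = j x * κ (ρ g e) → R (x * g) := by
    rintro x g (h | ⟨a, u, rfl, h⟩) h0
    · exact Or.inl (by rw [h0, h, map_mul, mul_assoc])
    · exact Or.inr ⟨a, x * u, (mul_assoc _ _ _).symm, by rw [h0, h, map_mul, mul_assoc]⟩
  have hj : ∀ a, j (of a) = ψ (of (ξ a)) := fun a => by simp [j]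
  have all : ∀ g, R g := fun g => by
    have hg : g ∈ Subgroup.closure (range of) := by rw [closure_range_of]; trivial
    induction hg using Subgroup.closure_induction_left with
    | one => exact Or.inl (by simp)
    | mul_left x hx y _ ih =>
      obtain ⟨a, rfl⟩ := hx
      by_cases c : ρ y e = e
      · rw [c1 y ih c]
        exact Or.inr ⟨a, 1, by simp, by simp [hρ, f2]⟩
      · exact step _ _ ih (by rw [map_mul, hρ, Equiv.Perm.mul_apply, f3 _ _ _ c, hj])
    | inv_mul_cancel x hx y _ ih =>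
      obtain ⟨a, rfl⟩ := hx
      have h0 : f (t a) (ξ a) (ρ ((of a)⁻¹ * y) e) = ρ y e := by
        rw [← hρ, ← Equiv.Perm.mul_apply, ← map_mul, mul_inv_cancel_left]
      by_cases c : ρ ((of a)⁻¹ * y) e = e
      · rw [c, f2] at h0
        rw [c2 y a ih h0.symm]
        exact Or.inl (by simp)
      · exact step _ _ ih (by rw [← h0, f3 _ _ _ c, map_inv, hj, inv_mul_cancel_left])
  refine ⟨_, inferInstance, ρ, fun g => ?_, fun a b h => ?_, fun x => ?_⟩
  · refine (?_ : ρ.range ≤ H) ⟨g, rfl⟩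
    rw [FreeGroup.range_lift_eq_closure, Subgroup.closure_le]
    rintro _ ⟨a, rfl⟩
    exact f1 _ _
  · exact (inv_mul_eq_one.1 (c1 _ (all _) (by
      rw [map_mul, map_inv, Equiv.Perm.mul_apply, Equiv.Perm.inv_eq_iff_eq]; exact h.symm)))
  · obtain ⟨a, rfl⟩ := ht x
    by_cases c : Act a
    · exact ⟨of ⟨a, c⟩, by simp only [hρ, f2]⟩
    · obtain ⟨u, hu, h⟩ := not_not.1 (mt (hA a).2 c)
      obtain ⟨g, rfl⟩ : u ∈ ρ.range := (Subgroup.closure_le _).2 (by
        rintro _ ⟨i, hi, rfl⟩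
        exact ⟨of ⟨i, hi⟩, hρ _⟩) hu
      exact ⟨g, h⟩

end Pool.Agent.H15.Ltg
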