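import Mathlib

set_option autoImplicit false

namespace Pool.Agent.H15.Ltg
open Function Set Filter Topology

variable {Y : Type} [TopologicalSpace Y]

/-- mutually inverse continuous maps between two subsets -/
def HE (f g : Y → Y) (A B : Set Y) : Prop :=
  (ContinuousOn f A ∧ MapsTo f A B ∧ LeftInvOn g f A) ∧ ContinuousOn g B ∧ MapsTo g B A ∧ LeftInvOn f g B

/-- homeomorphic subsets -/
def E (A B : Set Y) : Prop := ∃ f g, HE f g A B

lemma E.refl (A : Set Y) : E A A :=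
  ⟨id, id, ⟨continuousOn_id, mapsTo_id A, fun _ _ => rfl⟩, continuousOn_id, mapsTo_id A, fun _ _ => rfl⟩

lemma E.symm {A B : Set Y} : E A B → E B A := fun ⟨f, g, h⟩ => ⟨g, f, h.symm⟩

lemma E.trans {A B C : Set Y} : E A B → E B C → E A C :=
  fun ⟨f, g, ⟨a1, a2, a3⟩, a4, a5, a6⟩ ⟨f', g', ⟨b1, b2, b3⟩, b4, b5, b6⟩ =>
    ⟨f' ∘ f, g ∘ g', ⟨b1.comp a1 a2, b2.comp a2, a3.comp b3 a2⟩, a4.comp b4 b5, a5.comp b5,
      b6.comp a6 b5⟩

lemma glue {ι : Type} {A : ι → Set Y} (ho : ∀ i, IsOpen (A i)) (hd : Pairwise (Disjoint on A))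
    (f : ι → Y → Y) (hf : ∀ i, ContinuousOn (f i) (A i)) :
    ∃ F : Y → Y, ContinuousOn F (⋃ i, A i) ∧ ∀ i, EqOn F (f i) (A i) := by
  classical
  have h : ∀ i, EqOn (fun y => if h : ∃ i, y ∈ A i then f h.choose y else y) (f i) (A i) := by
    intro i y hy
    have h : ∃ i, y ∈ A i := ⟨i, hy⟩
    simp only [dif_pos h]
    rw [hd.eq fun c => disjoint_left.1 c h.choose_spec hy]
  exact ⟨_, ContinuousOn.iUnion_of_isOpen (fun i => (hf i).congr (h i)) ho, h⟩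

lemma E.iUnion {ι : Type} {A B : ι → Set Y} (a1 : ∀ i, IsOpen (A i)) (a2 : Pairwise (Disjoint on A))
    (b1 : ∀ i, IsOpen (B i)) (b2 : Pairwise (Disjoint on B)) (h : ∀ i, E (A i) (B i)) :
    E (⋃ i, A i) (⋃ i, B i) := by
  choose f g h using h
  obtain ⟨F, F1, F2⟩ := glue a1 a2 f fun i => (h i).1.1
  obtain ⟨G, G1, G2⟩ := glue b1 b2 g fun i => (h i).2.1
  refine ⟨F, G, ⟨F1, fun y hy => ?_, fun y hy => ?_⟩, G1, fun y hy => ?_, fun y hy => ?_⟩ <;>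
    obtain ⟨i, hi⟩ := mem_iUnion.1 hy
  · exact mem_iUnion.2 ⟨i, F2 i hi ▸ (h i).1.2.1 hi⟩
  · rw [F2 i hi, G2 i ((h i).1.2.1 hi), (h i).1.2.2 hi]
  · exact mem_iUnion.2 ⟨i, G2 i hi ▸ (h i).2.2.1 hi⟩
  · rw [G2 i hi, F2 i ((h i).2.2.1 hi), (h i).2.2.2 hi]

variable [CompactSpace Y] [T2Space Y]

lemma onept1 [DecidableEq Y] {C D : Set Y} (hD : IsClosed D) {p q : Y} (hq : q ∈ D) {f g : Y → Y}
    (h : HE f g (C \ {p}) (D \ {q})) : ContinuousOn (update f p q) C ∧ MapsTo (update f p q) C D ∧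
      LeftInvOn (update g q p) (update f p q) C := by
  obtain ⟨⟨a1, a2, a3⟩, a4, a5, a6⟩ := h
  refine ⟨continuousOn_update_iff.2 ⟨a1, fun _ => tendsto_nhds.2 fun W hW hqW => ?_⟩, fun y hy => ?_,
    fun y hy => ?_⟩
  · have s : D \ W ⊆ D \ {q} := sdiff_subset_sdiff_right (singleton_subset_iff.2 hqW)
    have := (((hD.sdiff hW).isCompact.image_of_continuousOn (a4.mono s)).isClosed.isOpen_compl.mem_nhds
      (x := p) fun ⟨z, hz, e⟩ => (a5 (s hz)).2 e)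
    filter_upwards [mem_nhdsWithin_of_mem_nhds this, self_mem_nhdsWithin] with y h1 h2
    by_contra c
    exact h1 ⟨f y, ⟨(a2 h2).1, c⟩, a3 h2⟩
  · by_cases c : y = p
    · simpa [c]
    · rw [update_of_ne c]; exact (a2 ⟨hy, c⟩).1
  · by_cases c : y = p
    · simp [c]
    · rw [update_of_ne c, update_of_ne (a2 ⟨hy, c⟩).2, a3 ⟨hy, c⟩]

lemma onept {C D : Set Y} (hC : IsClosed C) (hD : IsClosed D) {p q : Y} (hp : p ∈ C) (hq : q ∈ D)
    (h : E (C \ {p}) (D \ {q})) : ∃ f g, HE f g C D ∧ f p = q := by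
  classical
  obtain ⟨f, g, h⟩ := h
  exact ⟨_, _, ⟨onept1 hD hq h, onept1 hC hp h.symm⟩, update_self ..⟩

omit [CompactSpace Y] [T2Space Y] in
lemma pieces {p : Y} (hp : ¬ IsOpen {p}) {U : ℕ → Set Y} (h1 : ∀ n, IsClopen (U n)) (h2 : Antitone U)
    (h0 : U 0 = univ) (h3 : ⋂ n, U n = {p}) {D : Set Y} (hD : IsClopen D) (hpD : p ∈ D) :
    ∃ V : ℕ → Set Y, (∀ n, IsClopen (V n) ∧ (V n).Nonempty) ∧ Pairwise (Disjoint on V) ∧
      ⋃ n, V n = D \ {p} := by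
  classical
  have pU : ∀ n, p ∈ U n := mem_iInter.1 (h3.ge rfl)
  have : ∀ n, ∃ m, n < m ∧ ((D ∩ U n) \ U m).Nonempty := fun n => by
    by_contra c
    push Not at c
    refine hp ((?_ : D ∩ U n = {p}) ▸ (hD.inter (h1 n)).isOpen)
    refine subset_antisymm (fun y hy => h3 ▸ mem_iInter.2 fun m => ?_)
      (singleton_subset_iff.2 ⟨hpD, pU n⟩)
    exact h2 (le_max_right (n + 1) m) (sdiff_eq_empty.1 (c _ (lt_max_of_lt_left n.lt_succ_self)) hy)
  choose φ f1 f2 using this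
  have hs : StrictMono fun k => φ^[k] 0 := strictMono_nat_of_lt_succ fun k => by
    rw [iterate_succ_apply']; exact f1 _
  refine ⟨fun k => (D ∩ U (φ^[k] 0)) \ U (φ^[k + 1] 0), fun k => ⟨(hD.inter (h1 _)).diff (h1 _), by
    simp only [iterate_succ_apply']; exact f2 _⟩, (pairwise_disjoint_on _).2 fun a b h =>
      disjoint_left.2 fun y h1 h3 => h1.2 (h2 (hs.monotone h) h3.1.2), subset_antisymm
        (iUnion_subset fun k y hy => ⟨hy.1.1, fun e => hy.2 (e ▸ pU _)⟩) fun y hy => ?_⟩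
  have ex : ∃ k, y ∉ U (φ^[k + 1] 0) := by
    by_contra c
    push Not at c
    exact hy.2 (h3 ▸ mem_iInter.2 fun m => h2 ((Nat.le_succ m).trans hs.le_apply) (c m))
  refine mem_iUnion.2 ⟨Nat.find ex, ⟨hy.1, ?_⟩, Nat.find_spec ex⟩
  rcases h : Nat.find ex with _ | k
  · simp [h0]
  · exact not_not.1 (Nat.find_min ex (h ▸ k.lt_succ_self))

theorem homog (ha : ∀ O : Set Y, IsOpen O → O.Nonempty → ∃ K ⊆ O, IsOpen K ∧ E univ K)
    (hb : ∀ (p : Y) (D : Set Y), IsClopen D → p ∈ D → ∃ V : ℕ → Set Y,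
      (∀ n, IsClopen (V n) ∧ (V n).Nonempty) ∧ Pairwise (Disjoint on V) ∧ ⋃ n, V n = D \ {p})
    (p q : Y) : ∃ h : Y ≃ₜ Y, h p = q := by
  have key : ∀ D : Set Y, IsClopen D → D.Nonempty → E univ D := fun D hD ⟨p, hp⟩ => by
    obtain ⟨V, v1, v2, v3⟩ := hb p D hD hp
    have : ∀ n, ∃ B ⊆ V n, IsClopen B ∧ E Dᶜ B := fun n => by
      obtain ⟨K, k1, k2, f, g, ⟨a1, a2, a3⟩, a4, a5, a6⟩ := ha _ (v1 n).1.isOpen (v1 n).2
      have e : f '' Dᶜ = K ∩ g ⁻¹' Dᶜ := subset_antisymm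
        (by rintro _ ⟨y, hy, rfl⟩; exact ⟨a2 trivial, by rwa [mem_preimage, a3 trivial]⟩)
        fun y hy => ⟨g y, hy.2, a6 hy.1⟩
      refine ⟨f '' Dᶜ, (e ▸ inter_subset_left).trans k1, ⟨(hD.compl.isClosed.isCompact.image
        (continuousOn_univ.1 a1)).isClosed, e ▸ a4.isOpen_inter_preimage k2 hD.compl.isOpen⟩, f, g,
        ⟨a1.mono (subset_univ _), mapsTo_image _ _, a3.mono (subset_univ _)⟩,
        a4.mono (e ▸ inter_subset_left), fun y hy => (e ▸ hy).2, a6.mono (e ▸ inter_subset_left)⟩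
    choose B b1 b2 b3 using this
    have vD : ∀ n, V n ⊆ D := fun n => (subset_iUnion V n).trans (v3 ▸ sdiff_subset)
    let A : ℕ ⊕ ℕ → Set Y := Sum.elim (fun n => V n \ B n) B
    let A' : ℕ ⊕ ℕ → Set Y := Sum.elim (fun n => V n \ B n) fun n => n.casesOn Dᶜ B
    have d : ∀ a b : ℕ, ∀ y ∈ V a, y ∈ V b → a = b := fun a b y h1 h2 =>
      v2.eq fun c => disjoint_left.1 c h1 h2
    have := E.iUnion (A := A') (B := A) (by
      rintro (n | _ | n)
      exacts [((v1 n).1.diff (b2 n)).isOpen, hD.compl.isOpen, (b2 n).isOpen]) (by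
      clear ha hb v1 v2 v3 b2 b3
      rintro (a | _ | a) (b | _ | b) h <;> refine disjoint_left.2 fun y h1 h2 => ?_ <;>
        simp only [A', Sum.elim_inl, Sum.elim_inr, Nat.rec_zero] at h1 h2 <;> grind) (by
      rintro (n | n)
      exacts [((v1 n).1.diff (b2 n)).isOpen, (b2 n).isOpen]) (by
      clear ha hb v1 v2 v3 b2 b3
      rintro (a | a) (b | b) h <;> refine disjoint_left.2 fun y h1 h2 => ?_ <;>
        simp only [A, Sum.elim_inl, Sum.elim_inr] at h1 h2 <;> grind) (by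
      rintro (n | _ | n)
      exacts [E.refl _, b3 0, (b3 n).symm.trans (b3 _)])
    have e1 : ⋃ i, A i = D \ {p} := by
      rw [← v3, iUnion_sum, ← iUnion_union_distrib]
      exact iUnion_congr fun n => sdiff_union_of_subset (b1 n)
    have e2 : ⋃ i, A' i = univ \ {p} := by
      rw [iUnion_sum] at e1 ⊢
      rw [← union_iUnion_nat_succ fun n => A' (Sum.inr n), union_left_comm]
      refine (congrArg (Dᶜ ∪ ·) e1).trans ?_
      clear * - hp
      grind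
    obtain ⟨f, g, h, -⟩ := onept isClosed_univ hD.isClosed trivial hp (e1 ▸ e2 ▸ this)
    exact ⟨f, g, h⟩
  obtain ⟨V, v1, v2, v3⟩ := hb p univ isClopen_univ trivial
  obtain ⟨W, w1, w2, w3⟩ := hb q univ isClopen_univ trivial
  obtain ⟨f, g, ⟨⟨a1, -, a3⟩, a4, -, a6⟩, h⟩ := onept isClosed_univ isClosed_univ trivial trivial
    (v3 ▸ w3 ▸ E.iUnion (fun n => (v1 n).1.isOpen) v2 (fun n => (w1 n).1.isOpen) w2 fun n =>
      (key _ (v1 n).1 (v1 n).2).symm.trans (key _ (w1 n).1 (w1 n).2))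
  exact ⟨⟨⟨f, g, fun y => a3 trivial, fun y => a6 trivial⟩, continuousOn_univ.1 a1,
    continuousOn_univ.1 a4⟩, h⟩

end Pool.Agent.H15.Ltg
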