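import Mathlib
import Pool.Agent.H15.Ltg1
import Pool.Agent.H15.Ltg2
import Pool.Agent.H65.RaagRF

set_option autoImplicit false

namespace Pool.Agent.H15.Ltg
open Function Set Filter Topology Cardinal

abbrev C : Type := ℕ → Bool

/-- the Alexandroff duplicate of the Cantor set -/
abbrev AD : Type := {p : C × (C → Bool) // ∀ s, p.2 s = true → s = p.1}

instance : CompactSpace AD := isCompact_iff_compactSpace.1 (IsClosed.isCompact
    (s := {p : C × (C → Bool) | ∀ s, p.2 s = true → s = p.1}) (by
  simp only [ofPred_forall (p := fun s (p : C × (C → Bool)) => p.2 s = true → s = p.1)]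
  exact isClosed_iInter fun s => isClosed_imp ((isOpen_discrete {true}).preimage
    (f := fun p : C × (C → Bool) => p.2 s) (by fun_prop)) (isClosed_eq continuous_const continuous_fst)))

lemma pi_not_open {X : Type} [TopologicalSpace X] [Nontrivial X] (p : ℕ → X) : ¬ IsOpen {p} := by
  intro h
  obtain ⟨I, u, u1, u2⟩ := isOpen_pi_iff.1 h p rfl
  obtain ⟨n, hn⟩ := I.exists_notMem
  obtain ⟨x, hx⟩ := exists_ne (p n)
  refine hx ((update_self n x p).symm.trans (congrFun (u2 fun i hi => ?_) n))
  rw [update_of_ne fun e : i = n => hn (e ▸ hi)]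
  exact (u1 i hi).2

open Classical in
/-- isolated points -/
noncomputable def iso (t : C) : AD := ⟨(t, fun s => decide (s = t)), fun _ h => of_decide_eq_true h⟩

lemma AD_ext {a b : AD} (h1 : a.1.1 = b.1.1) (h2 : a.1.2 b.1.1 = b.1.2 b.1.1) : a = b := by
  refine Subtype.ext (Prod.ext h1 (funext fun s => ?_))
  by_cases c : s = b.1.1
  · rw [c, h2]
  · rw [Bool.eq_false_iff.2 fun h => c (b.2 s h), Bool.eq_false_iff.2 fun h => c ((a.2 s h).trans h1)]

lemma iso_open (t : C) : IsOpen {iso t} := by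
  have : {iso t} = {a : AD | a.1.2 t = true} := subset_antisymm (by rintro _ rfl; simp [iso])
    fun a ha => AD_ext (a.2 t ha).symm (ha.trans (by simp [iso]))
  rw [this]
  exact (isOpen_discrete {true}).preimage (f := fun a : AD => a.1.2 t) (by fun_prop)

lemma iso_dense : DenseRange iso := fun a => by
  classical
  by_cases c : a.1.2 a.1.1 = true
  · exact subset_closure ⟨a.1.1, (AD_ext (a := a) (b := iso _) rfl (c.trans (by simp [iso]))).symm⟩
  have : (𝓝[≠] a.1.1).NeBot := ⟨mt (isOpen_singleton_iff_punctured_nhds _).2 (pi_not_open _)⟩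
  refine mem_closure_of_tendsto (f := iso) (b := 𝓝[≠] a.1.1) (tendsto_subtype_rng.2
    (Tendsto.prodMk_nhds nhdsWithin_le_nhds (tendsto_pi_nhds.2 fun s => ?_)))
    (.of_forall fun t => ⟨t, rfl⟩)
  have e : a.1.2 s = false := Bool.eq_false_iff.2 fun h => c (a.2 s h ▸ h)
  refine tendsto_const_nhds.congr' ?_
  by_cases h : s = a.1.1
  · filter_upwards [self_mem_nhdsWithin] with t ht
    rw [e]
    exact (decide_eq_false fun h' => ht (h'.symm.trans h)).symm
  · filter_upwards [mem_nhdsWithin_of_mem_nhds (isOpen_compl_singleton.mem_nhds (Ne.symm h))] with t ht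
    rw [e]
    exact (decide_eq_false (Ne.symm ht)).symm

abbrev YY : Type := ℕ → AD

/-- cylinders -/
def cyl (p : YY) (n : ℕ) : Set YY :=
  {z | ∀ i < n, (∀ k < n, (z i).1.1 k = (p i).1.1 k) ∧ (z i).1.2 (p i).1.1 = (p i).1.2 (p i).1.1}

lemma cyl_clopen (p : YY) (n : ℕ) : IsClopen (cyl p n) := by
  simp only [cyl, ofPred_forall, ofPred_and]
  refine (finite_lt_nat n).isClopen_biInter fun i _ => IsClopen.inter
    ((finite_lt_nat n).isClopen_biInter fun k _ => ?_) ?_
  · exact (isClopen_discrete {_}).preimage (f := fun z : YY => (z i).1.1 k) (by fun_prop)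
  · exact (isClopen_discrete {_}).preimage (f := fun z : YY => (z i).1.2 _) (by fun_prop)

lemma cyl_anti (p : YY) : Antitone (cyl p) := fun _ _ h _ hz i hi =>
  ⟨fun k hk => (hz i (hi.trans_le h)).1 k (hk.trans_le h), (hz i (hi.trans_le h)).2⟩

lemma cyl_inter (p : YY) : ⋂ n, cyl p n = {p} := subset_antisymm (fun z hz => funext fun i =>
  AD_ext (funext fun k => (mem_iInter.1 hz (max i k + 1) i (by omega)).1 k (by omega))
    (mem_iInter.1 hz (i + 1) i (by omega)).2)
  (by rintro _ rfl; exact mem_iInter.2 fun n i _ => ⟨fun _ _ => rfl, rfl⟩)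

instance : Nontrivial AD := ⟨iso fun _ => true, iso fun _ => false, fun h => by
  simpa [iso] using congrFun (congrArg (·.1.1) h) 0⟩

lemma copies (O : Set YY) (hO : IsOpen O) (hne : O.Nonempty) : ∃ K ⊆ O, IsOpen K ∧ E univ K := by
  obtain ⟨y, hy⟩ := hne
  obtain ⟨I, u, u1, u2⟩ := isOpen_pi_iff.1 hO y hy
  have : ∀ i, ∃ t, i ∈ I → iso t ∈ u i := fun i => by
    by_cases c : i ∈ I
    · exact (iso_dense.exists_mem_open (u1 i c).1 ⟨_, (u1 i c).2⟩).imp fun _ h _ => h
    · exact ⟨default, fun h => (c h).elim⟩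
  choose o ho using this
  obtain ⟨n, hn⟩ := I.exists_nat_subset_range
  refine ⟨(Iio n).pi fun i => {iso (o i)}, fun z hz => u2 fun i hi => ?_,
    isOpen_set_pi (finite_lt_nat n) fun i _ => iso_open _,
    fun z i => if i < n then iso (o i) else z (i - n), fun z i => z (i + n),
    ⟨(continuous_pi fun i => ?_).continuousOn, fun z _ i hi => if_pos hi, fun z _ => by simp⟩,
    Continuous.continuousOn (by fun_prop), mapsTo_univ _ _, fun z hz => funext fun i => ?_⟩
  · rw [hz i (Finset.mem_range.1 (hn hi))]; exact ho i hi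
  · split_ifs <;> fun_prop
  · dsimp only
    split_ifs with c
    · exact (hz i c).symm
    · rw [Nat.sub_add_cancel (not_lt.1 c)]

lemma YY_homog (p q : YY) : ∃ h : YY ≃ₜ YY, h p = q :=
  homog copies (fun p _ hD hp => pieces (pi_not_open p) (cyl_clopen p) (cyl_anti p)
    (by simp [cyl]) (cyl_inter p) hD hp) p q

lemma mk_YY : #YY ≤ 𝔠 := by
  have : #AD ≤ 𝔠 := (mk_le_of_injective (f := fun a : AD => (a.1.1, a.1.2 a.1.1)) fun a b h =>
    AD_ext (Prod.mk.inj h).1 (by rw [← (Prod.mk.inj h).2, (Prod.mk.inj h).1])).trans (by simp)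
  rw [← power_def, mk_nat]
  exact (power_le_power_right this).trans continuum_power_aleph0.le

theorem exists_L : ∃ (S : ℕ → Type) (_ : ∀ j, Group (S j)) (_ : ∀ j, Finite (S j))
    (θ : C → ∀ j, S j), ∀ w ≠ 1, ∃ᶠ j in atTop, FreeGroup.lift θ w j ≠ 1 := by
  have : ∀ w : FreeGroup (List Bool), ∃ H : FiniteIndexNormalSubgroup (FreeGroup (List Bool)),
      w ≠ 1 → w ∉ H := fun w => by
    by_cases c : w = 1
    · exact ⟨.ofSubgroup ⊤, fun h => (h c).elim⟩
    · exact (Group.exists_finiteIndexNormalSubgroup_notMem w c).imp fun _ h _ => h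
  choose H hH using this
  obtain ⟨en, hen⟩ := exists_surjective_nat (ℕ × FreeGroup (List Bool))
  let res : ℕ → C → List Bool := fun m t => (List.range m).map t
  refine ⟨fun j => _ ⧸ (H (en j).2).toSubgroup, inferInstance, inferInstance,
    fun t j => QuotientGroup.mk (.of (res (en j).1 t)), fun w hw => frequently_atTop.2 fun b => ?_⟩
  obtain ⟨s, s1, s2⟩ := letters w
  have : ∀ᶠ m in atTop, ∀ a ∈ s, ∀ c ∈ s, res m a = res m c → a = c :=
    (eventually_all_finite s1).2 fun a _ => (eventually_all_finite s1).2 fun c _ => by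
      by_cases e : a = c
      · exact .of_forall fun _ _ => e
      obtain ⟨k, hk⟩ := Function.ne_iff.1 e
      exact (eventually_gt_atTop k).mono fun m hm h =>
        (hk (List.map_inj_left.1 h k (List.mem_range.2 hm))).elim
  obtain ⟨m, m1, m2⟩ := (this.and (eventually_gt_atTop ((Finset.range b).sup fun j => (en j).1))).exists
  obtain ⟨j, hj⟩ := hen (m, FreeGroup.map (res m) w)
  refine ⟨j, not_lt.1 fun c => m2.not_ge ?_, fun h => hH (en j).2 (fun e => hw ?_) ?_⟩
  · exact (congrArg Prod.fst hj).ge.trans (Finset.le_sup (f := fun j => (en j).1) (Finset.mem_range.2 c))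
  · rw [hj] at e
    have := (MonoidHom.eqOn_closure (f := (FreeGroup.map (invFunOn (res m) s)).comp (FreeGroup.map (res m)))
      (g := MonoidHom.id _) (by
        rintro _ ⟨a, ha, rfl⟩
        simpa using congrArg FreeGroup.of (InjOn.leftInvOn_invFunOn (fun a ha c hc => m1 a ha c hc) ha))) s2
    rw [MonoidHom.comp_apply, show FreeGroup.map (res m) w = 1 from e, map_one] at this
    exact this.symm
  · refine (QuotientGroup.eq_one_iff _).1 (Eq.trans ?_ h)
    refine (congrArg QuotientGroup.mk (congrArg Prod.snd hj)).trans ?_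
    exact DFunLike.congr_fun (FreeGroup.ext_hom ((QuotientGroup.mk' _).comp (FreeGroup.map (res m)))
      ((Pi.evalMonoidHom (fun j => _ ⧸ (H (en j).2).toSubgroup) j).comp (FreeGroup.lift _)) fun a => by
        simp [show (en j).1 = m from congrArg Prod.fst hj]) w

section tri
variable {Y : Type} {S : ℕ → Type} [∀ j, Group (S j)] {U : ℕ → Set Y}

open Classical in
/-- triangular maps -/
noncomputable def tri (U : ℕ → Set Y) (θ a b : ∀ j, S j) (q : Y × ∀ j, S j) : Y × ∀ j, S j :=
  (q.1, fun j => (if q.1 ∈ U j ∧ ∀ i < j, q.2 i = a i then b j * (a j)⁻¹ else θ j) * q.2 j)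

lemma tri_inv (hU : Antitone U) (θ a b : ∀ j, S j) (q : Y × ∀ j, S j) :
    tri U θ⁻¹ b a (tri U θ a b q) = q := by
  refine Prod.ext rfl (funext fun j => ?_)
  have : (q.1 ∈ U j ∧ ∀ i < j, (tri U θ a b q).2 i = b i) ↔ q.1 ∈ U j ∧ ∀ i < j, q.2 i = a i := by
    refine and_congr_right fun h => ⟨fun c i hi => ?_, fun c i hi => ?_⟩
    · induction i using Nat.strong_induction_on with
      | h i ih =>
        have := c i hi
        simp only [tri] at this
        rw [if_pos ⟨hU hi.le h, fun k hk => ih k hk (hk.trans hi)⟩, mul_assoc] at this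
        exact (inv_mul_eq_one.1 (mul_left_cancel (this.trans (mul_one _).symm))).symm
    · simp only [tri]
      rw [if_pos ⟨hU hi.le h, fun k hk => c k (hk.trans hi)⟩, c i hi, inv_mul_cancel_right]
  by_cases c : q.1 ∈ U j ∧ ∀ i < j, q.2 i = a i
  · refine (congrArg₂ (· * ·) (if_pos (this.2 c)) (congrArg (· * _) (if_pos c))).trans ?_
    simp [mul_assoc]
  · refine (congrArg₂ (· * ·) (if_neg (mt this.1 c)) (congrArg (· * _) (if_neg c))).trans ?_
    simp

lemma tri_cont [TopologicalSpace Y] [∀ j, TopologicalSpace (S j)] [∀ j, DiscreteTopology (S j)]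
    (hU : ∀ j, IsClopen (U j)) (θ a b : ∀ j, S j) : Continuous (tri U θ a b) := by
  classical
  refine continuous_fst.prodMk (continuous_pi fun j => Continuous.mul ?_ (by fun_prop))
  refine continuous_const.if (fun q hq => ?_) continuous_const
  rw [IsClopen.frontier_eq] at hq
  · exact hq.elim
  simp only [ofPred_forall, ofPred_and]
  exact ((hU j).preimage continuous_fst).inter ((finite_lt_nat j).isClopen_biInter fun i _ =>
    (isClopen_discrete {_}).preimage (f := fun q : Y × ∀ j, S j => q.2 i) (by fun_prop))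

end tri

theorem main : ∃ (G : Type) (_ : Group G) (_ : TopologicalSpace G), CompactSpace G ∧ T2Space G ∧
    (∀ g : G, Continuous fun x => g * x) ∧ ∃ W : C → Set G, (∀ t, IsOpen (W t) ∧ (W t).Nonempty) ∧
      Pairwise (Disjoint on W) := by
  obtain ⟨S, _, _, θ, hθ⟩ := exists_L
  let _ : ∀ j, TopologicalSpace (S j) := fun _ => ⊥
  have : ∀ j, DiscreteTopology (S j) := fun _ => ⟨rfl⟩
  let M : Subgroup (∀ j, S j) :=
    { carrier := {g | ∀ᶠ j in atTop, g j = 1}
      one_mem' := .of_forall fun _ => rfl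
      mul_mem' := fun h1 h2 => (h1.and h2).mono fun j h => by simp [h.1, h.2]
      inv_mem' := fun h => h.mono fun j h => by simp [h] }
  have : M.Normal := ⟨fun g h k => Eventually.mono h fun j h => by simp [h]⟩
  let H : Subgroup (Equiv.Perm (YY × ∀ j, S j)) :=
    { carrier := {σ | Continuous σ ∧ Continuous σ.symm}
      one_mem' := ⟨continuous_id, continuous_id⟩
      mul_mem' := fun h1 h2 => ⟨h1.1.comp h2.1, h2.2.comp h1.2⟩
      inv_mem' := fun h => h.symm }
  let p : YY := fun _ => iso default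
  obtain ⟨G, _, ρ, h1, h2⟩ := simply_trans ((QuotientGroup.mk' M).comp (FreeGroup.lift θ))
    ((injective_iff_map_eq_one _).2 fun w h => by_contra fun c =>
      hθ w c (((QuotientGroup.eq_one_iff _).1 h).mono fun j h => not_not.2 h)) (p, 1)
    (fun q => QuotientGroup.mk q.2) (by
      rw [mk_prod, lift_id, lift_id, ← continuum_mul_self]
      refine mul_le_mul' mk_YY ?_
      rw [mk_pi]
      exact (prod_le_prod _ (fun _ => ℵ₀) fun j => mk_le_aleph0).trans (by simp)) (by simp) H (by
      rintro ⟨y, k⟩ ξ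
      obtain ⟨h, hh⟩ := YY_homog p y
      refine ⟨Equiv.trans ⟨tri (cyl p) (θ ξ) 1 k, tri (cyl p) (θ ξ)⁻¹ k 1, tri_inv (cyl_anti p) _ _ _,
        fun q => by simpa using tri_inv (cyl_anti p) (θ ξ)⁻¹ k 1 q⟩ (h.toEquiv.prodCongr (.refl _)),
        ⟨(h.continuous.prodMap continuous_id).comp (tri_cont (cyl_clopen p) _ _ _),
          (tri_cont (cyl_clopen p) _ _ _).comp (h.symm.continuous.prodMap continuous_id)⟩,
        Prod.ext hh (funext fun j => by simp [tri, cyl]), fun q hq => ?_⟩
      obtain ⟨n, hn⟩ : ∃ n, ¬ (q.1 ∈ cyl p n ∧ ∀ i < n, q.2 i = 1) := by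
        by_contra c
        push Not at c
        exact hq (Prod.ext ((cyl_inter p).le (mem_iInter.2 fun n => (c n).1))
          (funext fun i => (c (i + 1)).2 i i.lt_succ_self))
      rw [MonoidHom.comp_apply, FreeGroup.lift_apply_of, QuotientGroup.mk'_apply,
        ← QuotientGroup.mk_mul, QuotientGroup.eq]
      refine (eventually_ge_atTop n).mono fun j hj => ?_
      have : ¬ (q.1 ∈ cyl p j ∧ ∀ i < j, q.2 i = 1) := fun c =>
        hn ⟨cyl_anti p hj c.1, fun i hi => c.2 i (hi.trans_le hj)⟩
      simp [tri, this])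
  let _ : TopologicalSpace G := .induced (fun g => ρ g (p, 1)) inferInstance
  let e := (Equiv.ofBijective _ h2).toHomeomorphOfIsInducing ⟨rfl⟩
  refine ⟨G, inferInstance, inferInstance, e.symm.compactSpace, e.symm.t2Space, fun g =>
    continuous_induced_rng.2 (((h1 g).1.comp e.continuous).congr fun x => by simp [e]),
    fun t => e ⁻¹' {q | q.1 0 = iso t}, fun t => ⟨(iso_open t).preimage (f := fun x => (e x).1 0)
      (by fun_prop), e.symm (fun _ => iso t, 1), by simp⟩, fun a b h => disjoint_left.2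
        fun x c d => h (congrArg (·.1.1) (c.symm.trans d))⟩

end Pool.Agent.H15.Ltg
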