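import Mathlib
import Pool.Agent.H15.Ltg3

set_option autoImplicit false

namespace Pool.Agent.H15.Ltg
open Function Cardinal Set Pool.Agent.H15.Psc Filter Topology
open FreeGroup (of lift_apply_of closure_range_of)

theorem simply_trans' {X Q I : Type} [Group Q] (ψ : FreeGroup I →* Q) (hψ : Injective ψ) (e : X)
    (κ : X → Q) (hX : #X ≤ 𝔠) (hI : 𝔠 ≤ #I) (H : Subgroup (Equiv.Perm X)) (W : Equiv.Perm X → Prop) [Nontrivial X]
    (hf : ∀ x ξ, ∃ f, (f ∈ H ∧ W f) ∧ f e = x ∧ ∀ q ≠ e, κ (f q) = ψ (of ξ) * κ q) :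
    ∃ (G : Type) (_ : Group G) (ρ : G →* Equiv.Perm X), (∀ g, ρ g ∈ H) ∧
      (∃ g, W (ρ g)) ∧ Bijective fun g => ρ g e := by
  classical
  choose f f1 f2 f3 using hf
  have : Nonempty X := ⟨e⟩
  obtain ⟨emb⟩ : #X ≤ #Om := hX.trans mk_Om.ge
  let t : Om → X := invFun emb.1
  have ht : Surjective t := invFun_surjective emb.2
  choose lt l1 l2 using letters (I := I)
  let Pt : Om → Set X := fun a => insert e (t '' Iic a)
  have hP : ∀ a, #(Pt a) < 𝔠 := fun a =>
    un_lt (cnt_lt (countable_singleton e)) (mk_image_le.trans_lt (Om_Iic a))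
  let Bad : Om → Set I := fun a => ⋃ p : Pt a × Pt a, lt (invFun ψ (κ p.1 * (κ p.2)⁻¹))
  obtain ⟨ξ, hξ⟩ := wf_choice (fun (a : Om) (g : Iio a → I) b => b ∉ Bad a ∪ range g) fun a g => by
    by_contra hc
    push Not at hc
    refine (un_lt (A := Bad a) (B := range g) ((mk_iUnion_le _).trans_lt (mul_lt_of_lt aleph0_le_continuum ?_
      ((ciSup_le' fun p => (l1 _).countable.le_aleph0).trans_lt aleph0_lt_continuum)))
      (mk_range_le.trans_lt (Om_Iio a))).not_ge (hI.trans ?_)
    · simpa using mul_lt_of_lt aleph0_le_continuum (hP a) (hP a)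
    · rw [eq_univ_of_forall hc, mk_univ]
  have xi : Injective ξ := fun a b h => by
    by_contra hne
    rcases lt_or_gt_of_ne hne with c | c
    · exact hξ b (Or.inr ⟨⟨a, c⟩, h⟩)
    · exact hξ a (Or.inr ⟨⟨b, c⟩, h.symm⟩)
  obtain ⟨Act, hA⟩ := wf_choice (fun (a : Om) (g : Iio a → Prop) (b : Prop) => b ↔ ¬ ∃ u ∈
    Subgroup.closure {σ | ∃ i : Iio a, g i ∧ σ = f (t i) (ξ i)}, u e = t a) fun a g => ⟨_, Iff.rfl⟩
  let ρ : FreeGroup {a // Act a} →* Equiv.Perm X := FreeGroup.lift fun a => f (t a) (ξ a)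
  let j : FreeGroup {a // Act a} →* Q := ψ.comp (FreeGroup.map fun a => ξ a)
  let Cl : Om → Subgroup (FreeGroup {a // Act a}) := fun a => Subgroup.closure (of '' {b | b.1 < a})
  have hρ : ∀ a, ρ (of a) = f (t a) (ξ a) := fun a => FreeGroup.lift_apply_of
  have act : ∀ a : {a // Act a}, ∀ u ∈ Cl a, ρ u e ≠ t a := fun a u hu h => (hA a).1 a.2 ⟨ρ u, by
    have := Subgroup.mem_map_of_mem ρ hu
    rw [MonoidHom.map_closure] at this
    refine Subgroup.closure_mono ?_ this
    rintro _ ⟨_, ⟨b, hb, rfl⟩, rfl⟩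
    exact ⟨⟨b, hb⟩, b.2, hρ b⟩, h⟩
  let P : FreeGroup I →* FreeGroup {a // Act a} :=
    FreeGroup.lift fun i => if h : ∃ a : {a // Act a}, ξ a = i then of h.choose else 1
  have hPm : ∀ u, P (FreeGroup.map (fun a : {a // Act a} => ξ a) u) = u := fun u =>
    DFunLike.congr_fun (FreeGroup.ext_hom (P.comp (FreeGroup.map _)) (MonoidHom.id _) fun a => by
      have h : ∃ b : {a // Act a}, ξ b = ξ a := ⟨a, rfl⟩
      simp only [P, MonoidHom.comp_apply, FreeGroup.map.of, lift_apply_of, dif_pos h, MonoidHom.id_apply]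
      rw [Subtype.ext (xi h.choose_spec)]) u
  have fresh : ∀ a u, ∀ x ∈ Pt a, ∀ y ∈ Pt a, κ x = j u * κ y → u ∈ Cl a := fun a u x hx y hy h => by
    have h1 := Subgroup.mem_map_of_mem P (l2 (invFun ψ (κ x * (κ y)⁻¹)))
    rw [MonoidHom.map_closure] at h1
    nth_rw 2 [← eq_mul_inv_of_mul_eq h.symm] at h1
    rw [show invFun ψ (j u) = _ from leftInverse_invFun hψ _, hPm] at h1
    refine (Subgroup.closure_le _).2 ?_ h1
    rintro _ ⟨_, ⟨i, hi, rfl⟩, rfl⟩
    simp only [P, lift_apply_of]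
    split_ifs with c
    · refine Subgroup.subset_closure ⟨_, ?_, rfl⟩
      refine lt_of_not_ge (a := c.choose.1) fun hc => hξ c.choose (Or.inl ?_)
      rw [c.choose_spec]
      have s := insert_subset_insert (a := e) (image_mono (f := t) (Iic_subset_Iic.2 hc))
      exact mem_iUnion.2 ⟨(⟨x, s hx⟩, ⟨y, s hy⟩), hi⟩
    · exact one_mem _
  have j1 : ∀ u x, κ x = j u * κ x → u = 1 := fun u x h => by
    have : j u = 1 := by simpa using h.symm
    rw [← hPm u, hψ (this.trans (map_one ψ).symm), map_one]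
  have pe : ∀ a, e ∈ Pt a := fun a => mem_insert _ _
  have pt : ∀ {a b}, b ≤ a → t b ∈ Pt a := fun h => Or.inr ⟨_, h, rfl⟩
  let R : FreeGroup {a // Act a} → Prop := fun g => κ (ρ g e) = j g * κ e ∨
    ∃ (a : {a // Act a}) (u : _), g = u * of a ∧ κ (ρ g e) = j u * κ (t a)
  have c1 : ∀ g, R g → ρ g e = e → g = 1 := by
    rintro g (h | ⟨a, u, rfl, h⟩) h0 <;> rw [h0] at h
    · exact j1 g e h
    · refine (act a u⁻¹ (inv_mem (fresh a u e (pe _) _ (pt le_rfl) h)) ?_).elim
      rw [map_mul, hρ, Equiv.Perm.mul_apply, f2] at h0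
      rw [map_inv, Equiv.Perm.inv_eq_iff_eq, h0]
  have c2 : ∀ g a, R g → ρ g e = t a.1 → g = of a := by
    rintro g a (h | ⟨b, u, rfl, h⟩) h0 <;> rw [h0] at h
    · exact (act a g (fresh a g _ (pt le_rfl) e (pe _) h) h0).elim
    · rcases lt_trichotomy a b with c | rfl | c
      · refine (act b (u⁻¹ * of a) (mul_mem (inv_mem (fresh b u _ (pt c.le) _ (pt le_rfl) h))
          (Subgroup.subset_closure ⟨a, c, rfl⟩)) ?_).elim
        rw [map_mul, hρ, Equiv.Perm.mul_apply, f2] at h0 ⊢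
        rw [map_inv, Equiv.Perm.inv_eq_iff_eq, h0]
      · rw [j1 u _ h, one_mul]
      · exact (act a _ (mul_mem (fresh a u _ (pt le_rfl) _ (pt c.le) h)
          (Subgroup.subset_closure ⟨b, c, rfl⟩)) h0).elim
  have step : ∀ x g, R g → κ (ρ (x * g) e) = j x * κ (ρ g e) → R (x * g) := by
    rintro x g (h | ⟨a, u, rfl, h⟩) h0
    · exact Or.inl (by rw [h0, h, map_mul, mul_assoc])
    · exact Or.inr ⟨a, x * u, (mul_assoc _ _ _).symm, by rw [h0, h, map_mul, mul_assoc]⟩
  have hj : ∀ a, j (of a) = ψ (of (ξ a)) := fun a => by simp [j]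
  have all : ∀ g, R g := fun g => by
    have hg : g ∈ Subgroup.closure (range of) := by rw [closure_range_of]; trivial
    induction hg using Subgroup.closure_induction_left with
    | one => exact Or.inl (by simp)
    | mul_left x hx y _ ih =>
      obtain ⟨a, rfl⟩ := hx
      by_cases c : ρ y e = e
      · rw [c1 y ih c]
        exact Or.inr ⟨a, 1, by simp, by simp [hρ, f2]⟩
      · exact step _ _ ih (by rw [map_mul, hρ, Equiv.Perm.mul_apply, f3 _ _ _ c, hj])
    | inv_mul_cancel x hx y _ ih =>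
      obtain ⟨a, rfl⟩ := hx
      have h0 : f (t a) (ξ a) (ρ ((of a)⁻¹ * y) e) = ρ y e := by
        rw [← hρ, ← Equiv.Perm.mul_apply, ← map_mul, mul_inv_cancel_left]
      by_cases c : ρ ((of a)⁻¹ * y) e = e
      · rw [c, f2] at h0
        rw [c2 y a ih h0.symm]
        exact Or.inl (by simp)
      · exact step _ _ ih (by rw [← h0, f3 _ _ _ c, map_inv, hj, inv_mul_cancel_left])
  suffices hb : Bijective fun g => ρ g e by
    refine ⟨_, inferInstance, ρ, fun g => ?_, ?_, hb⟩
    · refine (?_ : ρ.range ≤ H) ⟨g, rfl⟩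
      rw [FreeGroup.range_lift_eq_closure, Subgroup.closure_le]
      rintro _ ⟨a, rfl⟩
      exact (f1 _ _).1
    · by_contra c
      have : IsEmpty {a // Act a} := ⟨fun a => c ⟨of a, hρ a ▸ (f1 _ _).2⟩⟩
      obtain ⟨x, hx⟩ := exists_ne e
      obtain ⟨g, hg⟩ := hb.2 x
      exact hx (by simpa [Subsingleton.elim g 1] using hg.symm)
  refine ⟨fun a b h => ?_, fun x => ?_⟩
  · exact (inv_mul_eq_one.1 (c1 _ (all _) (by
      rw [map_mul, map_inv, Equiv.Perm.mul_apply, Equiv.Perm.inv_eq_iff_eq]; exact h.symm)))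
  · obtain ⟨a, rfl⟩ := ht x
    by_cases c : Act a
    · exact ⟨of ⟨a, c⟩, by simp only [hρ, f2]⟩
    · obtain ⟨u, hu, h⟩ := not_not.1 (mt (hA a).2 c)
      obtain ⟨g, rfl⟩ : u ∈ ρ.range := (Subgroup.closure_le _).2 (by
        rintro _ ⟨i, hi, rfl⟩
        exact ⟨of ⟨i, hi⟩, hρ _⟩) hu
      exact ⟨g, h⟩

/-- a Thompson-type map -/
def tw (x : C) (n : ℕ) : Bool :=
  if x 0 then (if n = 0 then true else x (n - 1)) else if x 1 then
    (if n = 0 then true else if n = 1 then false else x n) else x (n + 1)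

/-- its inverse -/
def tw' (y : C) (n : ℕ) : Bool :=
  if y 0 then (if y 1 then y (n + 1) else if n = 0 then false else if n = 1 then true else y n)
    else if n = 0 then false else y (n - 1)

lemma cont_ite {X Z : Type} [TopologicalSpace X] [TopologicalSpace Z] {b : X → Bool} {f g : X → Z}
    (hb : Continuous b) (hf : Continuous f) (hg : Continuous g) :
    Continuous fun x => if b x then f x else g x :=
  hf.if (fun _ hx => ((IsClopen.frontier_eq ((isClopen_discrete {true}).preimage hb)).le hx).elim) hg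

/-- as a homeomorphism -/
def twH : C ≃ₜ C where
  toFun := tw
  invFun := tw'
  left_inv x := by
    ext n
    cases h0 : x 0 <;> cases h1 : x 1 <;> rcases n with _ | _ | n <;> simp [tw, tw', h0, h1]
  right_inv x := by
    ext n
    cases h0 : x 0 <;> cases h1 : x 1 <;> rcases n with _ | _ | n <;> simp [tw, tw', h0, h1]
  continuous_toFun := continuous_pi fun n => cont_ite (continuous_apply 0) (by split_ifs <;> fun_prop)
    (cont_ite (continuous_apply 1) (by split_ifs <;> fun_prop) (by fun_prop))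
  continuous_invFun := continuous_pi fun n => cont_ite (continuous_apply 0)
    (cont_ite (continuous_apply 1) (by fun_prop) (by split_ifs <;> fun_prop)) (by split_ifs <;> fun_prop)

lemma exists_compress (y : Fin 3 × C) : ∃ h : Fin 3 × C ≃ₜ Fin 3 × C, h (0, fun _ => false) = y ∧
    ∃ j, ∀ c, h (j, c) = (j, tw c) := by
  obtain ⟨i, d⟩ := y
  obtain ⟨j, j0, ji⟩ : ∃ j : Fin 3, j ≠ 0 ∧ j ≠ i := by revert i; decide
  have s : ∀ k, Equiv.swap 0 i k = j ↔ k = j := fun k => by
    rw [Equiv.swap_apply_eq_iff, Equiv.swap_apply_of_ne_of_ne j0 ji]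
  have ct : ∀ w : C → C, Continuous w → Continuous fun q : Fin 3 × C =>
      (Equiv.swap 0 i q.1, if q.1 = j then w q.2 else fun n => xor (q.2 n) (d n)) := fun w hw =>
    continuous_prod_of_discrete_left.2 fun k => by
      dsimp only
      split_ifs <;> fun_prop
  refine ⟨⟨⟨fun q => (Equiv.swap 0 i q.1, if q.1 = j then tw q.2 else fun n => xor (q.2 n) (d n)),
    fun q => (Equiv.swap 0 i q.1, if q.1 = j then tw' q.2 else fun n => xor (q.2 n) (d n)),
    fun q => ?_, fun q => ?_⟩, ct _ twH.continuous, ct _ twH.symm.continuous⟩, by simp [j0.symm],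
    j, fun c => by simp [Equiv.swap_apply_of_ne_of_ne j0 ji]⟩
  · by_cases c : q.1 = j
    · simp only [s, if_pos c, Equiv.swap_apply_self]
      exact Prod.ext rfl (twH.left_inv _)
    · simp [s, c]
  · by_cases c : q.1 = j
    · simp only [s, if_pos c, Equiv.swap_apply_self]
      exact Prod.ext rfl (twH.right_inv _)
    · simp [s, c]

theorem main2 : ∃ (G : Type) (_ : Group G) (_ : TopologicalSpace G), CompactSpace G ∧
    TopologicalSpace.MetrizableSpace G ∧ (∀ g : G, Continuous fun x => x * g) ∧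
    ∃ (g : G) (U V : Set G), IsOpen U ∧ IsOpen V ∧ V.Nonempty ∧ V ⊆ U ∧
      (· * g) '' U ⊆ U \ V := by
  obtain ⟨S, _, _, θ, hθ⟩ := exists_L
  let _ : ∀ j, TopologicalSpace (S j) := fun _ => ⊥
  have : ∀ j, DiscreteTopology (S j) := fun _ => ⟨rfl⟩
  let M : Subgroup (∀ j, S j) :=
    { carrier := {g | ∀ᶠ j in atTop, g j = 1}
      one_mem' := .of_forall fun _ => rfl
      mul_mem' := fun h1 h2 => (h1.and h2).mono fun j h => by simp [h.1, h.2]
      inv_mem' := fun h => h.mono fun j h => by simp [h] }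
  have : M.Normal := ⟨fun g h k => Eventually.mono h fun j h => by simp [h]⟩
  let H : Subgroup (Equiv.Perm ((Fin 3 × C) × ∀ j, S j)) :=
    { carrier := {σ | Continuous σ ∧ Continuous σ.symm}
      one_mem' := ⟨continuous_id, continuous_id⟩
      mul_mem' := fun h1 h2 => ⟨h1.1.comp h2.1, h2.2.comp h1.2⟩
      inv_mem' := fun h => h.symm }
  let p : Fin 3 × C := (0, fun _ => false)
  let U : ℕ → Set (Fin 3 × C) := fun n => {0} ×ˢ (Iio n).pi fun _ => {false}
  have u1 : ∀ n, IsClopen (U n) := fun n => (isClopen_discrete _).prod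
    ⟨isClosed_set_pi fun _ _ => isClosed_discrete _,
      isOpen_set_pi (finite_lt_nat n) fun _ _ => isOpen_discrete _⟩
  have u2 : Antitone U := fun a b h z hz => ⟨hz.1, fun i hi => hz.2 i (lt_of_lt_of_le hi h)⟩
  obtain ⟨G, _, ρ, h1, ⟨g, j, hg⟩, h2⟩ := simply_trans' ((QuotientGroup.mk' M).comp (FreeGroup.lift θ))
    ((injective_iff_map_eq_one _).2 fun w h => by_contra fun c =>
      hθ w c (((QuotientGroup.eq_one_iff _).1 h).mono fun j h => not_not.2 h)) (p, 1)
    (fun q => QuotientGroup.mk q.2) (by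
      rw [mk_prod, lift_id, lift_id, ← continuum_mul_self]
      refine mul_le_mul' (by simp) ?_
      rw [mk_pi]
      exact (prod_le_prod _ (fun _ => ℵ₀) fun j => mk_le_aleph0).trans (by simp)) (by simp) H
      (fun σ => ∃ j, ∀ c k, (σ ((j, c), k)).1 = (j, tw c)) (by
      rintro ⟨y, k⟩ ξ
      obtain ⟨h, hh, j, hj⟩ := exists_compress y
      refine ⟨Equiv.trans ⟨tri U (θ ξ) 1 k, tri U (θ ξ)⁻¹ k 1, tri_inv u2 _ _ _,
        fun q => by simpa using tri_inv u2 (θ ξ)⁻¹ k 1 q⟩ (h.toEquiv.prodCongr (.refl _)),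
        ⟨⟨(h.continuous.prodMap continuous_id).comp (tri_cont u1 _ _ _),
          (tri_cont u1 _ _ _).comp (h.symm.continuous.prodMap continuous_id)⟩, j, fun c _ => hj c⟩,
        Prod.ext hh (funext fun j => by simp [tri, U, p]), fun q hq => ?_⟩
      obtain ⟨n, hn⟩ : ∃ n, ¬ (q.1 ∈ U n ∧ ∀ i < n, q.2 i = 1) := by
        by_contra c
        push Not at c
        exact hq (Prod.ext (Prod.ext (c 0).1.1 (funext fun i => (c (i + 1)).1.2 i i.lt_succ_self))
          (funext fun i => (c (i + 1)).2 i i.lt_succ_self))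
      rw [MonoidHom.comp_apply, FreeGroup.lift_apply_of, QuotientGroup.mk'_apply,
        ← QuotientGroup.mk_mul, QuotientGroup.eq]
      refine (eventually_ge_atTop n).mono fun j hj => ?_
      have : ¬ (q.1 ∈ U j ∧ ∀ i < j, q.2 i = 1) := fun c =>
        hn ⟨u2 hj c.1, fun i hi => c.2 i (hi.trans_le hj)⟩
      simp [tri, this])
  let _ : TopologicalSpace G := .induced (fun g => ρ g⁻¹ (p, 1)) inferInstance
  let e := (Equiv.ofBijective _ (h2.comp inv_bijective)).toHomeomorphOfIsInducing ⟨rfl⟩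
  have he : ∀ x g, e (x * g) = ρ g⁻¹ (e x) := fun x g => by simp [e]
  have o : ∀ n b, IsOpen {x | (e x).1.2 n = b} := fun n b =>
    (isOpen_discrete {b}).preimage (f := fun x => (e x).1.2 n) (by fun_prop)
  have o' : IsOpen {x | (e x).1.1 = j} :=
    (isOpen_discrete {j}).preimage (f := fun x => (e x).1.1) (by fun_prop)
  refine ⟨G, inferInstance, inferInstance, e.symm.compactSpace, e.isEmbedding.metrizableSpace, fun g =>
    continuous_induced_rng.2 (((h1 g⁻¹).1.comp e.continuous).congr fun x => (he x g).symm), g⁻¹, _, _,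
    o'.inter (o 0 true), (o'.inter (o 0 true)).inter (o 1 false),
    ⟨e.symm ((j, fun n => n = 0), 1), by simp⟩, inter_subset_left, ?_⟩
  rintro _ ⟨x, ⟨x1, x2⟩, rfl⟩
  have : (e (x * g⁻¹)).1 = (j, tw (e x).1.2) := by
    rw [he, inv_inv, ← hg _ (e x).2, ← show (e x).1.1 = j from x1]
  simp [this, tw, show (e x).1.2 0 = true from x2]

end Pool.Agent.H15.Ltg
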