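import Mathlib

set_option autoImplicit false

namespace Pool.Agent.H15.Mantel
open Finset

/-- Mantel for 2-uniform set systems. -/
theorem mantel {n : ℕ} (G : Finset (Finset (Fin n))) (h2 : ∀ e ∈ G, e.card = 2)
    (ht : ∀ a b c : Fin n, a ≠ b → a ≠ c → b ≠ c → ({a, b} : Finset (Fin n)) ∈ G →
      ({a, c} : Finset (Fin n)) ∈ G → ({b, c} : Finset (Fin n)) ∈ G → False) :
    4 * G.card ≤ n ^ 2 := by
  classical
  let Γ : SimpleGraph (Fin n) :=
    { Adj := fun u v => u ≠ v ∧ ({u, v} : Finset (Fin n)) ∈ G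
      symm := ⟨fun u v h => ⟨h.1.symm, by rw [Finset.pair_comm]; exact h.2⟩⟩
      loopless := ⟨fun u h => h.1 rfl⟩ }
  have hcf : Γ.CliqueFree (2 + 1) := by
    intro s hs
    rw [SimpleGraph.is3Clique_iff] at hs
    obtain ⟨a, b, c, hab, hac, hbc, -⟩ := hs
    exact ht a b c hab.1 hac.1 hbc.1 hab.2 hac.2 hbc.2
  have hb := hcf.card_edgeFinset_le
  simp only [Fintype.card_fin] at hb
  have hsub : G ⊆ Γ.edgeFinset.image (fun e => e.toFinset) := by
    intro e he
    obtain ⟨u, v, huv, rfl⟩ := Finset.card_eq_two.1 (h2 e he)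
    refine Finset.mem_image.2 ⟨s(u, v), ?_, ?_⟩
    · rw [SimpleGraph.mem_edgeFinset]; exact ⟨huv, he⟩
    · ext x; simp
  have h1 : G.card ≤ Γ.edgeFinset.card := (Finset.card_le_card hsub).trans Finset.card_image_le
  have hm : n % 2 = 0 ∨ n % 2 = 1 := by omega
  have h3 : (n % 2).choose 2 = 0 := by rcases hm with h | h <;> rw [h] <;> decide
  rw [h3] at hb
  omega

theorem star_le {n : ℕ} (G : Finset (Finset (Fin n))) (h2 : ∀ e ∈ G, e.card = 2) (a : Fin n) :
    (G.filter (fun e => a ∈ e)).card ≤ n := by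
  classical
  have hsub : G.filter (fun e => a ∈ e) ⊆
      (Finset.univ : Finset (Fin n)).image (fun b => ({a, b} : Finset (Fin n))) := by
    intro e he
    rw [Finset.mem_filter] at he
    obtain ⟨u, v, huv, rfl⟩ := Finset.card_eq_two.1 (h2 e he.1)
    have := he.2
    simp only [Finset.mem_insert, Finset.mem_singleton] at this
    rcases this with rfl | rfl
    · exact Finset.mem_image.2 ⟨v, Finset.mem_univ _, rfl⟩
    · exact Finset.mem_image.2 ⟨u, Finset.mem_univ _, Finset.pair_comm _ _⟩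
  calc _ ≤ _ := Finset.card_le_card hsub
    _ ≤ (Finset.univ : Finset (Fin n)).card := Finset.card_image_le
    _ = n := by simp

/-- Either Mantel's bound or a triangle whose removal costs at most `3n` edges. -/
theorem step {n : ℕ} (G : Finset (Finset (Fin n))) (h2 : ∀ e ∈ G, e.card = 2) :
    4 * G.card ≤ n ^ 2 ∨ ∃ a b c : Fin n, a ≠ b ∧ a ≠ c ∧ b ≠ c ∧ ({a, b} : Finset (Fin n)) ∈ G ∧
      ({a, c} : Finset (Fin n)) ∈ G ∧ ({b, c} : Finset (Fin n)) ∈ G ∧
      G.card ≤ (G.filter (fun e => a ∉ e ∧ b ∉ e ∧ c ∉ e)).card + 3 * n := by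
  classical
  by_cases h : ∃ a b c : Fin n, a ≠ b ∧ a ≠ c ∧ b ≠ c ∧ ({a, b} : Finset (Fin n)) ∈ G ∧
      ({a, c} : Finset (Fin n)) ∈ G ∧ ({b, c} : Finset (Fin n)) ∈ G
  · right
    obtain ⟨a, b, c, h1, h3, h4, h5, h6, h7⟩ := h
    refine ⟨a, b, c, h1, h3, h4, h5, h6, h7, ?_⟩
    have hsub : G ⊆ G.filter (fun e => a ∉ e ∧ b ∉ e ∧ c ∉ e) ∪
        (G.filter (fun e => a ∈ e) ∪ (G.filter (fun e => b ∈ e) ∪ G.filter (fun e => c ∈ e))) := by
      intro e he
      simp only [Finset.mem_union, Finset.mem_filter]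
      tauto
    have := Finset.card_le_card hsub
    have e1 := Finset.card_union_le (G.filter (fun e => a ∉ e ∧ b ∉ e ∧ c ∉ e))
      (G.filter (fun e => a ∈ e) ∪ (G.filter (fun e => b ∈ e) ∪ G.filter (fun e => c ∈ e)))
    have e2 := Finset.card_union_le (G.filter (fun e => a ∈ e))
      (G.filter (fun e => b ∈ e) ∪ G.filter (fun e => c ∈ e))
    have e3 := Finset.card_union_le (G.filter (fun e => b ∈ e)) (G.filter (fun e => c ∈ e))
    have s1 := star_le G h2 a
    have s2 := star_le G h2 b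
    have s3 := star_le G h2 c
    omega
  · left
    apply mantel G h2
    intro a b c h1 h3 h4 h5 h6 h7
    exact h ⟨a, b, c, h1, h3, h4, h5, h6, h7⟩

end Pool.Agent.H15.Mantel
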