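import Mathlib
import Pool.Agent.H83.Entang

set_option autoImplicit false

namespace Pool.Agent.H15.Syn

open Set Cardinal Function

/-- unbounded subsets -/
def Cof {J : Type} [LinearOrder J] (C : Set J) : Prop := ∀ α, ∃ β ∈ C, α < β

/-- a regular uncountable well order with a strong colouring -/
structure Col (J : Type) [LinearOrder J] where
  κ : Cardinal.{0}
  hκ : ℵ₀ < κ
  iic : ∀ a : J, #(Iic a) < κ
  bd : ∀ (S : Type) (g : S → J), #S < κ → ∃ α, ∀ z, g z < α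
  s : J → ℕ → Bool
  hs : Injective s
  c : J → J → ℕ → ZMod 2
  hc : ∀ (n : ℕ) (a : J → Fin n → J) (C : Set J), Cof C → (∀ α ∈ C, StrictMono (a α)) →
    (∀ α ∈ C, ∀ i, α < a α i) → ∀ (K : ℕ) (ε : Fin n → ℕ → ZMod 2), ∃ α ∈ C, ∃ β ∈ C,
      (∀ i j, a α i < a β j) ∧ ∀ i, ∀ k < K, c (a α i) (a β i) k = ε i k

lemma wfc {α β : Type} [LinearOrder α] [WellFoundedLT α] (P : (a : α) → (Iio a → β) → β → Prop)
    (h : ∀ a f, ∃ b, P a f b) : ∃ g : α → β, ∀ a, P a (fun i => g i) (g a) := by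
  choose F hF using h
  let g : α → β := wellFounded_lt.fix fun a ih => F a fun i => ih i i.2
  refine ⟨g, fun a => ?_⟩
  have : g a = F a fun i => g i := wellFounded_lt.fix_eq _ a
  rw [this]
  exact hF _ _

open Pool.Agent.H83.Entang in
lemma base : ∃ (I : Type) (_ : LinearOrder I) (_ : WellFoundedLT I), #I = 2 ^ ℵ₀ ∧
    ℵ₀ < Order.cof I ∧ ∃ c : I → I → ZMod 2,
    ∀ (n : ℕ) (A : Set (ℕ → I)), (∀ a ∈ A, ∀ i j, i < j → j < n → a i < a j) →
      (∀ α, ∃ a ∈ A, ∀ i < n, α < a i) →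
      ∀ ε : ℕ → ZMod 2, ∃ a ∈ A, ∃ b ∈ A, (∀ i < n, ∀ j < n, b i < a j) ∧
        (∀ i < n, c (b i) (a i) = ε i) := by
  classical
  let I := (2 ^ ℵ₀ : Cardinal.{0}).ord.ToType
  have hI : #I = 2 ^ ℵ₀ := mk_ord_toType _
  have hcof : ℵ₀ < Order.cof I := by
    rw [Ordinal.cof_toType]; exact lt_cof_ord_power le_rfl one_lt_two
  have hbd : ∀ s : Set I, #s ≤ ℵ₀ → ∃ α, ∀ β ∈ s, β < α := by
    intro s hs
    by_contra hc
    push Not at hc
    exact absurd ((Order.cof_le hc).trans hs) (not_le.2 hcof)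
  let res : ℕ → Set ℕ → Finset ℕ := fun ξ x => (Finset.range (ξ + 1)).filter (· ∈ x)
  have hres : ∀ ξ x y, res ξ x = res ξ y ↔ ∀ γ ≤ ξ, (γ ∈ x ↔ γ ∈ y) := by
    intro ξ x y
    simp only [res, Finset.ext_iff, Finset.mem_filter, Finset.mem_range, Nat.lt_succ_iff]
    refine forall_congr' fun γ => ?_
    tauto
  obtain ⟨r, hr⟩ := entangled (X := Set ℕ) (T := Finset ℕ) (O := ℕ) (I := I) ℵ₀ le_rfl
    mk_le_aleph0 mk_le_aleph0
    (by rw [mk_set, mk_nat]) (fun α => mk_Iio_toType_ord_lt α) hI.ge hbd res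
    (fun ξ η x y hle hxy => (hres _ _ _).2 fun γ hγ => (hres _ _ _).1 hxy γ (hγ.trans hle))
    lexc (fun u a hua => by
      obtain ⟨δ, h1, h2⟩ := exists_first hua
      have e1 := lexc_eq h1 h2
      have e2 := lexc_eq (u := a) (a := u) (δ := δ) (by tauto) (fun γ hγ => (h2 γ hγ).symm)
      simp only [lexc, e1, e2]
      by_cases hd : δ ∈ u
      · have : δ ∉ a := by tauto
        simp [hd, this]
      · have : δ ∈ a := by tauto
        simp [hd, this])
    (fun u a hua => by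
      obtain ⟨δ, h1, h2⟩ := exists_first hua
      refine ⟨δ, fun u' hu' => ?_⟩
      have h3 := (hres _ _ _).1 hu'
      have e1 := lexc_eq h1 h2
      have e2 := lexc_eq (u := u') (a := a) (δ := δ) (by rw [h3 δ le_rfl]; exact h1)
        (fun γ hγ => (h3 γ hγ.le).trans (h2 γ hγ))
      simp only [lexc, e1, e2, h3 δ le_rfl])
  refine ⟨I, inferInstance, inferInstance, hI, hcof, fun α β => lexc (r α) (r β), ?_⟩
  intro n A h1 h2 ε
  obtain ⟨a, ha, h3⟩ := hr n A h1 h2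
  obtain ⟨b, hb, h4, h5, -⟩ := h3 ε
  exact ⟨a, ha, b, hb, h4, h5⟩

theorem exists_col : ∃ (J : Type) (_ : LinearOrder J), Nonempty (Col J) := by
  classical
  obtain ⟨I, _, _, hI, hcof, c, hc⟩ := base
  obtain ⟨S, hS, hS'⟩ := Ordinal.exists_ord_cof_eq I
  have hcard : #S = Order.cof I := by
    rw [← Ordinal.card_type (α := S) (· < ·), hS', card_ord]
  have hiio : ∀ a : S, #(Iio a) < Order.cof I := fun a => by
    rw [← hcard]; exact mk_Iio_lt a (by rw [hcard, hS'])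
  have hiic : ∀ a : S, #(Iic a) < Order.cof I := fun a => by
    rw [← Iio_insert, mk_insert self_notMem_Iio]
    exact add_one_lt_of_lt hcof.le (hiio a)
  have hbd : ∀ (Z : Type) (g : Z → I), #Z < Order.cof I → ∃ α : S, ∀ z, g z < α := by
    intro Z g hZ
    have : ¬ IsCofinal (range g) := fun h => absurd ((Order.cof_le h).trans mk_range_le) (not_le.2 hZ)
    obtain ⟨x, hx⟩ := not_isCofinal_iff.1 this
    obtain ⟨y, hy, hxy⟩ := hS x
    exact ⟨⟨y, hy⟩, fun z => (hx _ ⟨z, rfl⟩).trans_le hxy⟩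
  obtain ⟨e, he⟩ := wfc (α := S ×ₗ ℕ) (β := I)
    (fun p g b => ((ofLex p).1 : I) < b ∧ ∀ q, g q < b) (by
      intro p g
      have h1 : #(Iio p) < Order.cof I := by
        have : #(Iio p) ≤ #(Iic (ofLex p).1 × ℕ) := by
          refine mk_le_of_injective (f := fun q => (⟨(ofLex q.1).1, ?_⟩, (ofLex q.1).2)) ?_
          · rcases Prod.Lex.lt_iff.1 (show q.1 < p from q.2) with h | h
            · exact h.le
            · exact h.1.le
          · intro q q' h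
            simp only [Prod.mk.injEq, Subtype.mk.injEq] at h
            exact Subtype.ext (ofLex.injective (Prod.ext h.1 h.2))
        refine this.trans_lt ?_
        rw [mk_prod, lift_id, lift_id, mk_nat]
        exact mul_lt_of_lt hcof.le (hiic _) hcof
      obtain ⟨b, hb⟩ := hbd (Option (Iio p)) (fun o => o.elim (ofLex p).1 g) (by
        rw [mk_option]; exact add_one_lt_of_lt hcof.le h1)
      exact ⟨b, hb none, fun q => hb (some q)⟩)
  have emono : StrictMono e := fun p q h => (he q).2 ⟨p, h⟩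
  obtain ⟨s⟩ : Nonempty (S ↪ (ℕ → Bool)) := by
    rw [← Cardinal.le_def]
    refine (mk_set_le S).trans ?_
    rw [hI]; simp
  refine ⟨S, inferInstance, ⟨⟨Order.cof I, hcof, hiic, fun Z g hZ => hbd Z (fun z => g z) hZ, s,
    s.injective, fun γ β k => c (e (toLex (γ, k))) (e (toLex (β, k))), ?_⟩⟩⟩
  intro n a C hC hm hlt K ε
  obtain ⟨α0, hα0⟩ := hbd Empty Empty.elim (by simpa using aleph0_pos.trans hcof)
  let φ := monoEquivOfFin (Fin n ×ₗ Fin (K + 1)) rfl
  let N := Fintype.card (Fin n ×ₗ Fin (K + 1))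
  let t : S → ℕ → I := fun α p => if h : p < N then
    e (toLex (a α (ofLex (φ ⟨p, h⟩)).1, ((ofLex (φ ⟨p, h⟩)).2 : ℕ))) else α
  have ht : ∀ α (i : Fin n) (k : Fin (K + 1)), t α (φ.symm (toLex (i, k))) = e (toLex (a α i, (k : ℕ))) := by
    intro α i k
    simp only [t, N, Fin.is_lt, dif_pos, Fin.eta, OrderIso.apply_symm_apply, ofLex_toLex]
  obtain ⟨_, ⟨β, hβ, rfl⟩, _, ⟨α, hα, rfl⟩, h1, h2⟩ := hc N (t '' C) (by
      rintro _ ⟨α, hα, rfl⟩ i j hij hj
      have hi : i < N := hij.trans hj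
      simp only [t, dif_pos hi, dif_pos hj]
      apply emono
      have : φ ⟨i, hi⟩ < φ ⟨j, hj⟩ := φ.strictMono hij
      rw [Prod.Lex.lt_iff] at this ⊢
      simp only [ofLex_toLex]
      rcases this with h | ⟨h, h'⟩
      · exact Or.inl (hm α hα h)
      · exact Or.inr ⟨by rw [h], h'⟩)
    (by
      intro x
      obtain ⟨y, hy, hxy⟩ := hS x
      obtain ⟨α, hα, h⟩ := hC ⟨y, hy⟩
      refine ⟨_, ⟨α, hα, rfl⟩, fun i hi => ?_⟩
      simp only [t, dif_pos hi]
      refine hxy.trans_lt (lt_trans ?_ (he _).1)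
      exact h.trans (hlt α hα _))
    (fun p => if h : p < N then ε (ofLex (φ ⟨p, h⟩)).1 (ofLex (φ ⟨p, h⟩)).2 else 0)
  refine ⟨α, hα, β, hβ, fun i j => ?_, fun i k hk => ?_⟩
  · have := h1 _ (φ.symm (toLex (i, 0))).2 _ (φ.symm (toLex (j, 0))).2
    rw [ht, ht, emono.lt_iff_lt, Prod.Lex.lt_iff] at this
    simpa using this
  · have := h2 _ (φ.symm (toLex (i, ⟨k, by omega⟩))).2
    rw [ht, ht] at this
    simpa only [N, Fin.is_lt, dif_pos, Fin.eta, OrderIso.apply_symm_apply, ofLex_toLex] using this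

namespace Col

variable {J : Type} [LinearOrder J] (Q : Col J)
include Q

lemma up (α : J) : ∃ β, α < β := by
  obtain ⟨β, h⟩ := Q.bd Unit (fun _ => α) (by simpa using one_lt_aleph0.trans Q.hκ)
  exact ⟨β, h ()⟩

lemma cof_univ : Cof (univ : Set J) := fun α => by simpa using Q.up α

lemma fin_bd (F : Finset J) : ∃ α, ∀ x ∈ F, x < α := by
  obtain ⟨β, h⟩ := Q.bd F (fun x => x) ((lt_aleph0_of_finite _).trans Q.hκ)
  exact ⟨β, fun x hx => h ⟨x, hx⟩⟩

lemma ph {S : Type} (hS : #S < Q.κ) (g : J → S) {C : Set J} (hC : Cof C) :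
    ∃ z, Cof {α | α ∈ C ∧ g α = z} := by
  by_contra hc
  simp only [Cof, not_exists, not_forall, not_and, not_lt] at hc
  choose b hb using hc
  obtain ⟨α, hα⟩ := Q.bd S b hS
  obtain ⟨β, hβ, h⟩ := hC α
  exact absurd (hb (g β) β ⟨hβ, rfl⟩) (not_le.2 ((hα _).trans h))

lemma ph' {S : Type} [Countable S] (g : J → S) {C : Set J} (hC : Cof C) :
    ∃ z, Cof {α | α ∈ C ∧ g α = z} := Q.ph (mk_le_aleph0.trans_lt Q.hκ) g hC

omit Q in
lemma cof_tail {C : Set J} (hC : Cof C) (b : J) : Cof {α | α ∈ C ∧ b < α} := fun α => by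
  obtain ⟨β, hβ, h⟩ := hC (max α b)
  exact ⟨β, ⟨hβ, (le_max_right _ _).trans_lt h⟩, (le_max_left _ _).trans_lt h⟩

lemma uncountable : Uncountable J := by
  by_contra h
  rw [not_uncountable_iff] at h
  obtain ⟨α, hα⟩ := Q.bd J id (mk_le_aleph0.trans_lt Q.hκ)
  exact lt_irrefl _ (hα α)

/-- the root lemma for finite sets -/
lemma root (F : J → Finset J) {A : Set J} (hA : Cof A) (R0 : Finset J) :
    ∃ (R : Finset J) (n : ℕ) (ξ : J → J) (a : J → Fin n → J) (C : Set J), R0 ⊆ R ∧ Cof C ∧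
      (∀ α ∈ C, StrictMono (a α)) ∧ (∀ α ∈ C, ∀ i, α < a α i) ∧ (∀ α ∈ C, ∀ r ∈ R, r < α) ∧
      (∀ α ∈ C, ξ α ∈ A ∧ α < ξ α) ∧ ∀ α ∈ C, ∀ x ∈ F (ξ α), x ∈ R ∨ x ∈ range (a α) := by
  classical
  obtain ⟨α0, h0⟩ : ∃ α0, ∀ α, ∃ ξ ∈ A, α < ξ ∧ ∀ x ∈ F ξ, x ≤ α0 ∨ α < x := by
    by_contra hc
    push Not at hc
    choose h hh using hc
    obtain ⟨z, -⟩ := Q.bd Empty Empty.elim (by simpa using aleph0_pos.trans Q.hκ)
    let u : ℕ → J := fun k => h^[k] z
    obtain ⟨w, hw⟩ := Q.bd ℕ u (by simpa using Q.hκ)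
    obtain ⟨ξ, hξ, hwξ⟩ := hA w
    have hu : ∀ k, u (k + 1) = h (u k) := fun k => iterate_succ_apply' _ _ _
    have key : ∀ k, ∃ x ∈ F ξ, u k < x ∧ x ≤ u (k + 1) := fun k => by
      rw [hu]; exact hh (u k) ξ hξ (by rw [← hu]; exact (hw _).trans hwξ)
    choose x hx1 hx2 hx3 using key
    have : StrictMono x := strictMono_nat_of_lt_succ fun k => (hx3 k).trans_lt (hx2 (k + 1))
    exact (F ξ).finite_toSet.not_infinite (infinite_of_injective_forall_mem this.injective hx1)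
  choose ξ h1 h2 h3 using h0
  obtain ⟨⟨R1, n⟩, hC⟩ := Q.ph (S := Finset (Iic α0) × ℕ) (by
      rw [mk_prod, lift_id, lift_id, mk_nat]
      refine mul_lt_of_lt Q.hκ.le ?_ Q.hκ
      refine (mk_le_of_surjective (f := fun l : List (Iic α0) => l.toFinset) fun s =>
        ⟨s.toList, s.toList_toFinset⟩).trans_lt ((mk_list_le_max _).trans_lt (max_lt Q.hκ (Q.iic _))))
    (fun α => ((F (ξ α)).subtype (· ∈ Iic α0), ((F (ξ α)).filter (α < ·)).card)) Q.cof_univ
  let R := R0 ∪ R1.map (Embedding.subtype _)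
  obtain ⟨b, hb⟩ := Q.fin_bd R
  refine ⟨R, n, ξ, fun α => if h : ((F (ξ α)).filter (α < ·)).card = n then
    Finset.orderEmbOfFin _ h else fun _ => α, _, Finset.subset_union_left, cof_tail hC b, ?_, ?_, ?_,
    fun α _ => ⟨h1 α, h2 α⟩, ?_⟩
  · rintro α ⟨⟨-, h⟩, -⟩
    simp only [Prod.mk.injEq] at h
    simp only [dif_pos h.2]
    exact (Finset.orderEmbOfFin _ h.2).strictMono
  · rintro α ⟨⟨-, h⟩, -⟩ i
    simp only [Prod.mk.injEq] at h
    simp only [dif_pos h.2]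
    exact (Finset.mem_filter.1 (Finset.orderEmbOfFin_mem _ h.2 i)).2
  · rintro α ⟨-, h⟩ r hr
    exact (hb r hr).trans h
  · rintro α ⟨⟨-, h⟩, -⟩ x hx
    simp only [Prod.mk.injEq] at h
    simp only [dif_pos h.2]
    rcases h3 α x hx with h' | h'
    · left
      refine Finset.mem_union_right _ (Finset.mem_map.2 ⟨⟨x, h'⟩, ?_, rfl⟩)
      rw [← h.1]; simpa using hx
    · right
      rw [Finset.range_orderEmbOfFin]
      simpa using ⟨hx, h'⟩

end Col

end Pool.Agent.H15.Syn
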