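import Pool.Agent.H15.CC1
import Pool.Agent.H15.Syn1

set_option autoImplicit false

namespace Pool.Agent.H15.NL
open Set Filter Topology Function CC

variable {X : Type} [TopologicalSpace X]

/-- continuous two-valued functions -/
abbrev G (X : Type) [TopologicalSpace X] := {f : X → Bool // Continuous f}

/-- agreement on a finite set -/
def Ag (F : Finset X) (f g : G X) : Prop := ∀ x ∈ F, f.1 x = g.1 x

lemma bx {g : G X} {U : Set (G X)} (h : U ∈ 𝓝 g) : ∃ F, ∀ f, Ag F f g → f ∈ U :=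
  box (K := {f : X → Bool | Continuous f}) h

lemma ag_open (F : Finset X) (g : G X) : IsOpen {f | Ag F f g} := by
  simp only [Ag, ofPred_forall]
  exact isOpen_biInter_finset fun x _ => (cl x _).isOpen.preimage continuous_subtype_val

lemma closed_of {P : Set (G X)} (h : ∀ g, (∀ F, ∃ f ∈ P, Ag F f g) → g ∈ P) : IsClosed P :=
  isClosed_of_closure_subset fun g hg => h g fun F => by
    obtain ⟨f, h1, h2⟩ := mem_closure_iff.1 hg _ (ag_open F g) fun _ _ => rfl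
    exact ⟨f, h2, h1⟩

lemma fs_ct {α : Type} {s : Set α} (hs : s.Countable) : {F : Finset α | ↑F ⊆ s}.Countable :=
  ((countable_ofPred_finite_subset hs).preimage Finset.coe_injective).mono
    fun F hF => And.intro F.finite_toSet hF

lemma clo {α : Type} (φ : Finset α → Set α) (h : ∀ F, (φ F).Countable) :
    ∃ S : Set α, S.Countable ∧ ∀ F : Finset α, ↑F ⊆ S → φ F ⊆ S := by
  let s : ℕ → Set α := Nat.rec ∅ fun _ t => t ∪ ⋃ F ∈ {F : Finset α | ↑F ⊆ t}, φ F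
  have h1 : ∀ n, (s n).Countable := fun n => by
    induction n with
    | zero => exact countable_empty
    | succ n ih => exact ih.union ((fs_ct ih).biUnion fun F _ => h F)
  have h2 : Monotone s := monotone_nat_of_le_succ fun n => subset_union_left
  refine ⟨⋃ n, s n, countable_iUnion h1, fun F hF => ?_⟩
  obtain ⟨n, hn⟩ := h2.directed_le.exists_mem_subset_of_finset_subset_biUnion hF
  exact subset_iUnion_of_subset (n + 1) (subset_union_of_subset_right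
    (subset_biUnion_of_mem (u := φ) hn) _)

lemma unc {α β : Type} {M : Set α} (hM : ¬ M.Countable) (φ : α → β) {T : Set β} (hT : T.Countable)
    (h : ∀ a ∈ M, φ a ∈ T) : ∃ b, ¬ {a ∈ M | φ a = b}.Countable := by
  by_contra! hc
  exact hM ((hT.biUnion fun b _ => hc b).mono fun a ha => mem_biUnion (h a ha) (And.intro ha rfl))

open Classical in
/-- gluing along a clopen set -/
noncomputable def patch {C : Set X} (hC : IsClopen C) (f g : G X) : G X :=
  ⟨C.piecewise f.1 g.1, Continuous.piecewise (by simp [hC.frontier_eq]) f.2 g.2⟩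

lemma patch_in {C : Set X} (hC : IsClopen C) (f g : G X) {x : X} (h : x ∈ C) :
    (patch hC f g).1 x = f.1 x := by
  classical exact piecewise_eq_of_mem _ _ _ h

lemma patch_out {C : Set X} (hC : IsClopen C) (f g : G X) {x : X} (h : x ∉ C) :
    (patch hC f g).1 x = g.1 x := by
  classical exact piecewise_eq_of_notMem _ _ _ h

lemma cdQ {ι : Type} (q : ι → G X) (M : Set ι)
    (h : ∀ g, ∃ F β, ∀ γ ∈ M, Ag F (q γ) g → γ = β) : IsClosed (q '' M) := by
  classical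
  refine closed_of fun g hg => ?_
  obtain ⟨F, β, hF⟩ := h g
  obtain ⟨_, ⟨γ, h1, rfl⟩, h2⟩ := hg F
  refine ⟨γ, h1, Subtype.ext (funext fun x => ?_)⟩
  obtain ⟨_, ⟨γ', h3, rfl⟩, h4⟩ := hg (insert x F)
  rw [(hF γ h1 h2).trans (hF γ' h3 fun y hy => h4 y (by simp [hy])).symm]
  exact h4 x (by simp)

variable [CompactSpace X]

lemma det {ι : Type} (d : ι → G X) {K : Set X} (hK : IsClosed K) (g : G X) (J : Set ι)
    (h : ∀ x ∈ K, ∀ y ∈ K, (∀ i ∈ J, (d i).1 x = (d i).1 y) → g.1 x = g.1 y) :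
    ∃ H : Finset ι, ↑H ⊆ J ∧ ∀ x ∈ K, ∀ y ∈ K, (∀ i ∈ H, (d i).1 x = (d i).1 y) → g.1 x = g.1 y := by
  have op : ∀ f : G X, IsClopen {p : X × X | f.1 p.1 ≠ f.1 p.2} := fun f =>
    (isClopen_discrete {b : Bool × Bool | b.1 ≠ b.2}).preimage (f.2.prodMap f.2)
  obtain ⟨H, h1, h2, h3⟩ := ((hK.prod hK).inter (op g).isClosed).isCompact.elim_finite_subcover_image
    (b := J) (c := fun i => {p : X × X | (d i).1 p.1 ≠ (d i).1 p.2}) (fun i _ => (op _).isOpen) (by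
      rintro ⟨x, y⟩ ⟨⟨hx, hy⟩, hg⟩
      by_contra hc
      refine hg (h x hx y hy fun i hi => ?_)
      by_contra h4
      exact hc (mem_biUnion hi h4))
  refine ⟨h2.toFinset, by simpa using h1, fun x hx y hy h4 => ?_⟩
  by_contra hc
  obtain ⟨i, hi, h5⟩ := mem_iUnion₂.1 (h3 (show (x, y) ∈ _ from ⟨⟨hx, hy⟩, hc⟩))
  exact h5 (h4 i (by simpa using hi))

lemma Iic_ct (j : I) : (Iic j).Countable := by
  rw [← Iio_insert]
  refine Set.Countable.insert _ (Cardinal.le_aleph0_iff_set_countable.1 (Order.lt_succ_iff.1 ?_))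
  simpa using Cardinal.mk_Iio_lt j (by simp)

theorem baturov (h : ¬ LindelofSpace (G X)) :
    ∃ d : I → G X, ∀ g, ∃ F β, ∀ γ, Ag F (d γ) g → γ = β := by
  classical
  obtain ⟨ι, U, hU, hc, hn⟩ : ∃ (ι : Type) (U : ι → Set (G X)), (∀ i, IsOpen (U i)) ∧
      univ ⊆ ⋃ i, U i ∧ ∀ t : Set ι, t.Countable → ¬ univ ⊆ ⋃ i ∈ t, U i := by
    by_contra! hc
    exact h ⟨isLindelof_of_countable_subcover fun U h1 h2 => hc _ U h1 h2⟩
  let O : (Σ n : ℕ, (Fin n → X) × (Fin n → Bool)) → Set (G X) := fun w =>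
    {f | ∀ k, f.1 (w.2.1 k) = w.2.2 k}
  let W := {w // ∃ i, O w ⊆ U i}
  have cov : ∀ g : G X, ∃ w : W, g ∈ O w.1 := fun g => by
    obtain ⟨i, hi⟩ := mem_iUnion.1 (hc (mem_univ g))
    obtain ⟨F, hF⟩ := bx ((hU i).mem_nhds hi)
    exact ⟨⟨⟨F.card, fun k => F.equivFin.symm k, fun k => g.1 (F.equivFin.symm k)⟩, i,
      fun f hf => hF f fun x hx => by simpa using hf (F.equivFin ⟨x, hx⟩)⟩, fun _ => rfl⟩
  have : Nonempty W := ⟨(cov ⟨fun _ => true, continuous_const⟩).choose⟩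
  let ty : (H : Finset (G X)) → W → Σ n : ℕ, (Fin n → Bool) × (Fin n → H → Bool) := fun H w =>
    ⟨w.1.1, w.1.2.2, fun k f => f.1.1 (w.1.2.1 k)⟩
  obtain ⟨d, hd⟩ := Syn.wfc (fun (a : I) (g : Iio a → G X) (f : G X) =>
      ∀ H : Finset (G X), ↑H ⊆ range g → ∀ t, f ∉ O (invFun (ty H) t).1) (by
    intro a g
    have := ((Iic_ct a).mono Iio_subset_Iic_self).to_subtype
    choose j hj using fun w : W => w.2
    by_contra! hc
    refine hn (⋃ H ∈ {H : Finset (G X) | ↑H ⊆ range g}, range fun t => j (invFun (ty H) t))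
      ((fs_ct (countable_range g)).biUnion fun H _ => countable_range _) fun f _ => ?_
    obtain ⟨H, h1, t, h2⟩ := hc f
    exact mem_biUnion (mem_biUnion h1 ⟨t, rfl⟩) (hj _ h2))
  refine ⟨d, fun g => ?_⟩
  obtain ⟨w, hw⟩ := cov g
  have key : ∀ J : Set I, IsLowerSet J → (∀ F, ∃ γ ∈ J, Ag F (d γ) g) →
      ∃ β ∈ J, ∃ E, ∀ γ, β < γ → ¬ Ag E (d γ) g := by
    intro J hJ h1
    obtain ⟨H, h2, h3⟩ := det d isClosed_univ g J fun x _ y _ h4 => by
      obtain ⟨γ, h5, h6⟩ := h1 {x, y}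
      rw [← h6 x (by simp), ← h6 y (by simp), h4 γ h5]
    obtain ⟨γ0, h0, -⟩ := h1 ∅
    have hne : (insert γ0 H).Nonempty := Finset.insert_nonempty _ _
    have e := invFun_eq (f := ty (H.image d)) ⟨w, rfl⟩
    have hv : ∀ γ, (insert γ0 H).max' hne < γ → d γ ∉ O (invFun (ty (H.image d)) (ty _ w)).1 :=
      fun γ hγ => hd γ _ (by
        intro f hf
        obtain ⟨i, hi, rfl⟩ := Finset.mem_image.1 hf
        exact ⟨⟨i, (Finset.le_max' _ i (by simp [hi])).trans_lt hγ⟩, rfl⟩) _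
    generalize invFun (ty (H.image d)) (ty _ w) = v at e hv
    obtain ⟨⟨n, xs, ε⟩, hw1⟩ := w
    obtain ⟨⟨n', ys, ε'⟩, hv1⟩ := v
    obtain ⟨rfl, e2⟩ := Sigma.mk.inj_iff.1 e
    obtain ⟨rfl, e3⟩ := Prod.ext_iff.1 (eq_of_heq e2)
    refine ⟨(insert γ0 H).max' hne, ?_, Finset.univ.image ys, fun γ hγ h7 => hv γ hγ fun k => ?_⟩
    · rcases Finset.mem_insert.1 (Finset.max'_mem _ hne) with h | h
      · rwa [h]
      · exact h2 h
    · refine (h7 _ (Finset.mem_image_of_mem _ (Finset.mem_univ k))).trans (Eq.trans ?_ (hw k))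
      exact h3 _ trivial _ trivial fun i hi =>
        congrFun (congrFun e3 k) ⟨d i, Finset.mem_image_of_mem _ hi⟩
  by_cases h1 : ∀ F, ∃ γ ∈ (univ : Set I), Ag F (d γ) g
  swap
  · push Not at h1
    obtain ⟨F, hF⟩ := h1
    obtain ⟨i, -⟩ := I_bdd countable_empty
    exact ⟨F, i, fun γ h => absurd h (hF γ trivial)⟩
  obtain ⟨β, ⟨E, hE⟩, hmin⟩ := wellFounded_lt.has_min {β | ∃ E, ∀ γ, β < γ → ¬ Ag E (d γ) g}
    (by obtain ⟨β, -, h⟩ := key univ isLowerSet_univ h1; exact ⟨β, h⟩)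
  by_cases h2 : ∀ F, ∃ γ ∈ Iio β, Ag F (d γ) g
  · obtain ⟨β', h3, h4⟩ := key _ (isLowerSet_Iio β) h2
    exact absurd h3 (hmin β' h4)
  push Not at h2
  obtain ⟨F, hF⟩ := h2
  refine ⟨E ∪ F, β, fun γ h => ?_⟩
  rcases lt_trichotomy γ β with h3 | h3 | h3
  · exact absurd (fun x hx => h x (by simp [hx])) (hF γ h3)
  · exact h3
  · exact absurd (fun x hx => h x (by simp [hx])) (hE γ h3)

variable [T2Space X] [TotallyDisconnectedSpace X]

lemma dense (F : Finset X) (σ : X → Bool) : ∃ g : G X, ∀ x ∈ F, g.1 x = σ x := by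
  classical
  obtain ⟨C, h1, h2, h3⟩ := exists_clopen_of_closed_subset_open
    (Z := {x ∈ (F : Set X) | σ x = true}) (U := {x ∈ (F : Set X) | σ x = false}ᶜ)
    (F.finite_toSet.subset fun _ h => h.1).isClosed
    (F.finite_toSet.subset fun _ h => h.1).isClosed.isOpen_compl (by
      rintro x ⟨-, h1⟩ ⟨-, h2⟩
      simp [h1] at h2)
  refine ⟨patch h1 ⟨fun _ => true, continuous_const⟩ ⟨fun _ => false, continuous_const⟩,
    fun x hx => ?_⟩
  cases h : σ x
  · exact patch_out _ _ _ fun h' => h3 h' ⟨hx, h⟩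
  · exact patch_in _ _ _ (h2 ⟨hx, h⟩)

theorem sep [NormalSpace (G X)] {P Q : Set (G X)} (hP : IsClosed P) (hQ : IsClosed Q)
    (h : Disjoint P Q) : ∃ S : Set X, S.Countable ∧
      ∀ g ∈ Q, ∃ F : Finset X, ↑F ⊆ S ∧ ∀ f ∈ P, ¬ Ag F f g := by
  classical
  obtain ⟨U, V, hU, hV, h1, h2, h3⟩ := normal_separation hP hQ h
  have : ∀ F T : Finset X, ∃ F' : Finset X, (∃ f : G X, ∃ E, (∀ x ∈ F, f.1 x = decide (x ∈ T)) ∧
      ∀ u, Ag E u f → u ∈ U) → ∃ f : G X, (∀ x ∈ F, f.1 x = decide (x ∈ T)) ∧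
      ∀ u, Ag F' u f → u ∈ U := fun F T => by
    by_cases h : ∃ f : G X, ∃ E, (∀ x ∈ F, f.1 x = decide (x ∈ T)) ∧ ∀ u, Ag E u f → u ∈ U
    · obtain ⟨f, E, h⟩ := h
      exact ⟨E, fun _ => ⟨f, h⟩⟩
    · exact ⟨∅, fun h' => absurd h' h⟩
  choose φ hφ using this
  obtain ⟨S, hS, h4⟩ := clo (fun F => ⋃ T ∈ F.powerset, (φ F T : Set X)) fun F =>
    (F.powerset.countable_toSet).biUnion fun T _ => (φ F T).countable_toSet
  refine ⟨S, hS, fun g hg => ?_⟩
  obtain ⟨E, hE⟩ := bx (hV.mem_nhds (h2 hg))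
  refine ⟨E.filter (· ∈ S), fun x hx => (Finset.mem_filter.1 hx).2, fun f0 h5 h6 => ?_⟩
  obtain ⟨E0, h7⟩ := bx (hU.mem_nhds (h1 h5))
  have pat : ∀ x ∈ E.filter (· ∈ S), g.1 x =
      decide (x ∈ (E.filter (· ∈ S)).filter fun x => g.1 x = true) := fun x hx => by
    simp only [Finset.mem_filter (s := E.filter (· ∈ S)), hx, true_and, Bool.decide_eq_true]
  obtain ⟨f, h8, h9⟩ := hφ _ _ ⟨f0, E0, fun x hx => (h6 x hx).trans (pat x hx), h7⟩
  obtain ⟨u, hu⟩ := dense (E ∪ φ (E.filter (· ∈ S)) ((E.filter (· ∈ S)).filter fun x => g.1 x = true))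
    fun x => if x ∈ E then g.1 x else f.1 x
  refine disjoint_left.1 h3 (h9 u fun x hx => ?_) (hE u fun x hx => ?_)
  · rw [hu x (Finset.mem_union_right _ hx)]
    split_ifs with h10
    · have : x ∈ E.filter (· ∈ S) := Finset.mem_filter.2 ⟨h10, h4 _ (fun x hx =>
        (Finset.mem_filter.1 hx).2) (mem_biUnion (Finset.mem_powerset.2 (Finset.filter_subset _ _)) hx)⟩
      exact (pat x this).trans (h8 x this).symm
    · rfl
  · rw [hu x (Finset.mem_union_left _ hx), if_pos hx]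

theorem pig [NormalSpace (G X)] {ι : Type} {P : Set (G X)} (hP : IsClosed P) (q : ι → G X) {M : Set ι}
    (hM : ¬ M.Countable) (hQ : IsClosed (q '' M)) (h : ∀ a ∈ M, q a ∉ P) :
    ∃ (E : Finset X) (M' : Set ι), M' ⊆ M ∧ ¬ M'.Countable ∧ (∀ a ∈ M', ∀ f ∈ P, ¬ Ag E f (q a)) ∧
      ∀ a ∈ M', ∀ b ∈ M', Ag E (q a) (q b) := by
  classical
  obtain ⟨S, hS, h1⟩ := sep hP hQ (disjoint_right.2 (by rintro _ ⟨a, ha, rfl⟩; exact h a ha))
  choose! E h2 h3 using fun a (ha : a ∈ M) => h1 _ ⟨a, ha, rfl⟩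
  obtain ⟨⟨E0, T⟩, h4⟩ := unc hM (fun a => (E a, (E a).filter fun x => (q a).1 x = true))
    ((fs_ct hS).prod (fs_ct hS)) fun a ha => ⟨h2 a ha, fun x hx => h2 a ha (Finset.mem_filter.1 hx).1⟩
  refine ⟨E0, _, fun a ha => ha.1, h4, fun a ha => ?_, fun a ha b hb x hx => ?_⟩
  · obtain rfl : E a = E0 := congrArg Prod.fst ha.2
    exact h3 a ha.1
  · have e1 := Prod.ext_iff.1 ha.2
    have e2 := Prod.ext_iff.1 hb.2
    have := Finset.ext_iff.1 (e1.2.trans e2.2.symm) x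
    simp only at e1 e2
    simpa [e1.1, e2.1, hx] using this

end Pool.Agent.H15.NL
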