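import Pool.Agent.H15.NL1

set_option autoImplicit false

namespace Pool.Agent.H15.NL
open Set Filter Topology Function CC

variable {X : Type} [TopologicalSpace X]

/-- `g` is determined on `C` by the first `ξ` members of `d` -/
def Det (d : I → G X) (C : Set X) (ξ : I) (g : G X) : Prop :=
  ∀ x ∈ C, ∀ y ∈ C, (∀ i ∈ Iio ξ, (d i).1 x = (d i).1 y) → g.1 x = g.1 y

/-- countably many traces -/
def Sm (d : I → G X) (C : Set X) : Prop := (range fun β => C.domRestrict (d β).1).Countable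

lemma fac {α Y : Type} [Finite Y] (π : α → Y) :
    {u : α → Bool | ∀ x y, π x = π y → u x = u y}.Countable :=
  (countable_range fun φ : Y → Bool => φ ∘ π).mono fun u hu =>
    mem_range.2 ⟨extend π u fun _ => false, FactorsThrough.extend_comp _ fun x y h => hu x y h⟩

lemma diag (d : I → G X) {𝒞 : Set (Set X)} (h1 : 𝒞.Countable) (h2 : ∀ C ∈ 𝒞, Sm d C) {M : Set I}
    (hM : ¬ M.Countable) : ∃ δ ∈ M, ∀ T : Finset (Set X), ↑T ⊆ 𝒞 → ∃ γ ∈ M, γ ≠ δ ∧
      ∀ C ∈ T, ∀ x ∈ C, (d γ).1 x = (d δ).1 x := by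
  by_contra! hc
  refine hM (((fs_ct h1).biUnion (t := fun T _ => {δ ∈ M | ∀ γ ∈ M, γ ≠ δ →
    ∃ C ∈ T, ∃ x ∈ C, (d γ).1 x ≠ (d δ).1 x}) fun T hT => ?_).mono fun δ hδ => ?_)
  · refine MapsTo.countable_of_injOn (f := fun δ (C : T) => C.1.domRestrict (d δ).1)
      (t := Set.pi univ fun C : T => range fun β => C.1.domRestrict (d β).1)
      (fun δ _ C _ => ⟨δ, rfl⟩) (fun δ hδ γ hγ e => ?_) (countable_univ_pi fun C => h2 _ (hT C.2))
    by_contra hne
    obtain ⟨C, h3, x, h4, h5⟩ := hγ.2 δ hδ.1 hne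
    exact h5 (congrFun (congrFun e ⟨C, h3⟩) ⟨x, h4⟩)
  · obtain ⟨T, h3, h4⟩ := hc δ hδ
    exact mem_biUnion h3 (And.intro hδ h4)

variable [CompactSpace X]

lemma sm_of (d : I → G X) {C : Set X} (hC : IsClosed C) {η : I} (h : ∀ β, Det d C η (d β)) :
    Sm d C := by
  refine ((fs_ct ((Iic_ct η).mono Iio_subset_Iic_self)).biUnion fun H _ =>
    fac fun (x : C) (i : H) => (d i).1 x).mono ?_
  rintro _ ⟨β, rfl⟩
  obtain ⟨H, h1, h2⟩ := det d hC (d β) _ (h β)
  exact mem_biUnion h1 fun x y e => h2 x x.2 y y.2 fun i hi => congrFun e ⟨i, hi⟩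

variable [T2Space X] [TotallyDisconnectedSpace X] [NormalSpace (G X)]

theorem star {d : I → G X} (hd : ∀ g, ∃ F β, ∀ γ, Ag F (d γ) g → γ = β) {C : Set X}
    (hC : IsClopen C) (big : ∀ ξ, ∃ β, ¬ Det d C ξ (d β)) {M : Set I} (hM : ¬ M.Countable)
    (F : I → Finset X) (hF : ∀ α ∈ M, ∀ x ∈ F α, x ∉ C)
    (iso : ∀ α γ, Ag (F α) (d γ) (d α) → γ = α) : False := by
  classical
  obtain ⟨E, M', h1, h2, h3, h4⟩ := pig (P := {g | ∀ E : Finset X, (∀ x ∈ E, x ∉ C) → ∀ β,
      ∃ γ ∈ M, γ ≠ β ∧ Ag E (d γ) g}) (closed_of fun g hg E hE β => by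
        obtain ⟨f, h1, h2⟩ := hg E
        obtain ⟨γ, h3, h4, h5⟩ := h1 E hE β
        exact ⟨γ, h3, h4, fun x hx => (h5 x hx).trans (h2 x hx)⟩) d hM
    (cdQ d M fun g => (hd g).imp fun _ h => h.imp fun _ h γ _ => h γ) (fun α hα h => by
      obtain ⟨γ, -, h1, h2⟩ := h _ (hF α hα) α
      exact h1 (iso α γ h2))
  obtain ⟨α, hα⟩ : M'.Nonempty := Set.Infinite.nonempty fun h => h2 h.countable
  have na : ∀ g : G X, ∃ E : Finset X, (∀ x ∈ E, x ∉ C) ∧ ∃ β, ∀ γ ∈ M', Ag E (d γ) g → γ = β := by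
    intro g
    by_contra! hc
    refine h3 α hα (patch hC (d α) g) (fun E' hE' β => ?_) fun x hx => ?_
    · obtain ⟨γ, h5, h6, h7⟩ := hc E' hE' β
      exact ⟨γ, h1 h5, h7, fun x hx => (h6 x hx).trans (patch_out _ _ _ (hE' x hx)).symm⟩
    · by_cases h5 : x ∈ C
      · exact patch_in _ _ _ h5
      · obtain ⟨γ, h6, h7, -⟩ := hc {x} (by simpa using h5) α
        rw [patch_out _ _ _ h5, ← h7 x (by simp)]
        exact h4 γ h6 α hα x hx
  choose b hb using big
  obtain ⟨E', M'', k1, k2, k3, k4⟩ := pig (P := {g | ∃ γ ∈ M', (∀ x ∉ C, g.1 x = (d γ).1 x) ∧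
      Det d C γ g}) (closed_of fun g hg => by
        obtain ⟨E', k1, β, k2⟩ := na g
        have k3 : ∀ E'' : Finset X, ∃ f : G X, β ∈ M' ∧ (∀ x ∉ C, f.1 x = (d β).1 x) ∧
            Det d C β f ∧ Ag E'' f g := fun E'' => by
          obtain ⟨f, ⟨γ, k3, k4, k5⟩, k6⟩ := hg (E' ∪ E'')
          obtain rfl := k2 γ k3 fun x hx => (k4 x (k1 x hx)).symm.trans (k6 x (by simp [hx]))
          exact ⟨f, k3, k4, k5, fun x hx => k6 x (by simp [hx])⟩
        refine ⟨β, (k3 ∅).choose_spec.1, fun x hx => ?_, fun x hx y hy h => ?_⟩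
        · obtain ⟨f, -, k4, -, k5⟩ := k3 {x}
          exact (k5 x (by simp)).symm.trans (k4 x hx)
        · obtain ⟨f, -, -, k4, k5⟩ := k3 {x, y}
          rw [← k5 x (by simp), ← k5 y (by simp)]
          exact k4 x hx y hy h) (fun γ => patch hC (d (b γ)) (d γ)) h2
    (cdQ _ _ fun g => by
      obtain ⟨E', k1, β, k2⟩ := na g
      exact ⟨E', β, fun γ hγ h => k2 γ hγ fun x hx =>
        (patch_out _ _ _ (k1 x hx)).symm.trans (h x hx)⟩) (by
      rintro γ hγ ⟨γ', -, k1, k2⟩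
      obtain rfl := iso γ γ' fun x hx => (k1 x (hF γ (h1 hγ) x hx)).symm.trans
        (patch_out _ _ _ (hF γ (h1 hγ) x hx))
      exact hb _ fun x hx y hy h => by
        simpa only [patch_in _ _ _ hx, patch_in _ _ _ hy] using k2 x hx y hy h)
  obtain ⟨γ0, h0⟩ : M''.Nonempty := Set.Infinite.nonempty fun h => k2 h.countable
  obtain ⟨γ1, k5, k6⟩ : ∃ γ ∈ M'', b γ0 < γ := by
    by_contra! hc
    exact k2 ((Iic_ct _).mono hc)
  refine k3 γ1 k5 (patch hC (d (b γ0)) (d γ1)) ⟨γ1, k1 k5, fun x hx => patch_out _ _ _ hx,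
    fun x hx y hy h => ?_⟩ fun x hx => ?_
  · simpa only [patch_in _ _ _ hx, patch_in _ _ _ hy] using h _ k6
  · by_cases h5 : x ∈ C
    · rw [← k4 γ0 h0 γ1 k5 x hx, patch_in _ _ _ h5, patch_in _ _ _ h5]
    · rw [patch_out _ _ _ h5, patch_out _ _ _ h5]

theorem main : LindelofSpace (G X) := by
  classical
  by_contra hL
  obtain ⟨d, hd⟩ := baturov hL
  have hI : ¬ (univ : Set I).Countable := fun h => by
    obtain ⟨i, hi⟩ := I_bdd h
    exact lt_irrefl _ (hi i trivial)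
  have : ∀ α, ∃ F, ∀ γ, Ag F (d γ) (d α) → γ = α := fun α => by
    obtain ⟨F, β, h⟩ := hd (d α)
    exact ⟨F, fun γ hγ => (h γ hγ).trans (h α fun _ _ => rfl).symm⟩
  choose F iso using this
  let B : Finset I → X → Set X := fun H p => {x | ∀ i ∈ H, (d i).1 x = (d i).1 p}
  have hB : ∀ H p, IsClopen (B H p) := fun H p => by
    simp only [B, ofPred_forall]
    exact isClopen_biInter_finset fun i _ => (isClopen_discrete {_}).preimage (d i).2
  let N : Set X := {p | ∀ H ξ, ∃ β, ¬ Det d (B H p) ξ (d β)}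
  let t : X → I → Bool := fun x i => (d i).1 x
  have fin : (t '' N).Finite := by
    by_contra hc
    have inj := (Set.Infinite.natEmbedding _ hc).injective
    choose p hp1 hp2 using fun n => (Set.Infinite.natEmbedding _ hc n).2
    have : ∀ m n, ∃ i, m ≠ n → (d i).1 (p m) ≠ (d i).1 (p n) := fun m n => by
      by_contra! h
      obtain ⟨i, -⟩ := I_bdd countable_empty
      exact (h i).1 (inj (Subtype.ext (by rw [← hp2, ← hp2]; exact funext fun i => (h i).2)))
    choose s hs using this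
    let H : ℕ → Finset I := fun k => (Finset.range (k + 1) ×ˢ Finset.range (k + 1)).image
      fun q => s q.1 q.2
    have : ∀ α, ∃ q : ℕ × ℕ, ∀ x ∈ F α, x ∉ B (H q.1) (p q.2) := fun α => by
      by_contra! h
      choose x h1 h2 using fun j => h ((F α).card, j)
      have := Finset.card_le_card_of_injOn (s := Finset.range ((F α).card + 1)) (t := F α) x
        (fun j _ => h1 j) fun m hm n hn e => by
          by_contra hne
          have k : s m n ∈ H (F α).card :=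
            Finset.mem_image.2 ⟨(m, n), Finset.mem_product.2 ⟨hm, hn⟩, rfl⟩
          exact hs m n hne ((h2 m _ k).symm.trans (e ▸ h2 n _ k))
      simp at this
    choose q hq using this
    obtain ⟨r, hr⟩ := unc hI q countable_univ fun _ _ => trivial
    exact star hd (hB (H r.1) (p r.2)) (hp1 _ _) hr F (fun α hα => hα.2 ▸ hq α) iso
  have smN : Sm d N := by
    have := fin.to_subtype
    refine (fac fun x : N => (⟨t x, x, x.2, rfl⟩ : t '' N)).mono ?_
    rintro _ ⟨β, rfl⟩ x y e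
    exact congrFun (congrArg Subtype.val e) β
  obtain ⟨e⟩ : Nonempty (I × I ↪ I) := Cardinal.le_def _ _ |>.1 (by
    simp [Cardinal.mul_eq_self (Cardinal.aleph0_le_aleph 1)])
  let 𝒞 : I → Set (Set X) := fun ξ => insert N {C | Sm d C ∧ ∃ H p, ↑H ⊆ Iio ξ ∧ C = B H p}
  have h𝒞 : ∀ ξ, (𝒞 ξ).Countable := fun ξ => by
    refine Set.Countable.insert _ (((fs_ct ((Iic_ct ξ).mono Iio_subset_Iic_self)).biUnion
      fun H _ => countable_range fun u : H → Bool => {x | ∀ i : H, (d i).1 x = u i}).mono ?_)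
    rintro _ ⟨-, H, p, h1, rfl⟩
    exact mem_biUnion h1 ⟨fun i => (d i).1 p, Set.ext fun x => Subtype.forall⟩
  choose δ h1 h2 using fun ξ => diag d (h𝒞 ξ) (M := range fun j => e (ξ, j))
    (by rintro C (rfl | h); exacts [smN, h.1]) fun h =>
      hI ((h.preimage (f := fun j => e (ξ, j)) fun a b h =>
        congrArg Prod.snd (e.injective h)).mono fun j _ => mem_preimage.2 (mem_range_self j))
  have cq : ∀ M, IsClosed (d '' M) := fun M =>
    cdQ d M fun g => (hd g).imp fun _ h => h.imp fun _ h γ _ => h γ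
  obtain ⟨S, hS, h3⟩ := sep (cq (range δ)ᶜ) (cq (range δ)) (by
    rw [disjoint_image_iff fun a b h => iso b a (by rw [h]; exact fun _ _ => rfl)]
    exact disjoint_compl_left)
  have : ∀ x, ∃ H, x ∉ N → Sm d (B H x) := fun x => by
    by_cases hx : x ∈ N
    · exact ⟨∅, fun h => absurd hx h⟩
    simp only [N, mem_ofPred_eq] at hx
    push Not at hx
    obtain ⟨H, ξ, h⟩ := hx
    exact ⟨H, fun _ => sm_of d (hB H x).isClosed h⟩
  choose H hH using this
  obtain ⟨ξ, hξ⟩ := I_bdd (hS.biUnion fun x _ => (H x).countable_toSet)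
  obtain ⟨E, h4, h5⟩ := h3 _ ⟨δ ξ, ⟨ξ, rfl⟩, rfl⟩
  obtain ⟨γ, ⟨j, rfl⟩, h6, h7⟩ := h2 ξ (E.image fun x => if x ∈ N then N else B (H x) x) (by
    intro C hC
    obtain ⟨x, hx, rfl⟩ := Finset.mem_image.1 hC
    split_ifs with h
    · exact Or.inl rfl
    · exact Or.inr ⟨hH x h, _, _, fun i hi => hξ i (mem_biUnion (h4 hx) hi), rfl⟩)
  refine h5 _ ⟨_, ?_, rfl⟩ fun x hx => h7 _ (Finset.mem_image_of_mem _ hx) x ?_
  · rintro ⟨ξ', h⟩
    obtain ⟨j', h'⟩ := h1 ξ'
    obtain rfl : ξ' = ξ := congrArg Prod.fst (e.injective (h'.trans h))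
    exact h6 h.symm
  · split_ifs with h
    · exact h
    · exact fun _ _ => rfl

end Pool.Agent.H15.NL
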