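import Mathlib

set_option autoImplicit false

namespace Pool.Agent.H15.Oll

open Classical in
/-- The finite set of neighbours of a vertex (of a locally finite graph). -/
noncomputable def nbrs {V : Type*} (G : SimpleGraph V) (x : V) : Finset V :=
  if h : (G.neighborSet x).Finite then h.toFinset else ∅

/-- `π` is a coupling of the uniform probability measures on the finite sets `A` and `B`. -/
def IsCoupling {V : Type*} (A B : Finset V) (π : V → V → ℝ) : Prop :=
  (∀ a b, 0 ≤ π a b) ∧ (∀ a ∈ A, ∑ b ∈ B, π a b = 1 / (A.card : ℝ)) ∧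
    ∀ b ∈ B, ∑ a ∈ A, π a b = 1 / (B.card : ℝ)

/-- The `L^1` Wasserstein distance, for the graph metric of `G`, between the uniform probability
measures on the finite sets `A` and `B`. -/
noncomputable def W1 {V : Type*} (G : SimpleGraph V) (A B : Finset V) : ℝ :=
  sInf {r | ∃ π : V → V → ℝ, IsCoupling A B π ∧ r = ∑ a ∈ A, ∑ b ∈ B, π a b * (G.dist a b : ℝ)}

/-- Ollivier-Ricci curvature for the non-lazy simple random walk. -/
noncomputable def kappa {V : Type*} (G : SimpleGraph V) (x y : V) : ℝ :=
  1 - W1 G (nbrs G x) (nbrs G y) / (G.dist x y : ℝ)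

end Pool.Agent.H15.Oll
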