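import Mathlib
import Pool.Agent.H15.OllDefs

set_option autoImplicit false

namespace Pool.Agent.H15.Oll
open Finset

theorem le_W1 {V : Type*} (G : SimpleGraph V) (A B : Finset V) (hA : A.Nonempty) (hB : B.Nonempty)
    (E F : V → ℝ) (h : ∀ a ∈ A, ∀ b ∈ B, F b - E a ≤ G.dist a b) :
    (∑ b ∈ B, F b) / B.card - (∑ a ∈ A, E a) / A.card ≤ W1 G A B := by
  have hA' : (0 : ℝ) < A.card := by exact_mod_cast hA.card_pos
  have hB' : (0 : ℝ) < B.card := by exact_mod_cast hB.card_pos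
  refine le_csInf ⟨_, fun _ _ => 1 / (A.card * B.card : ℝ), ⟨fun _ _ => by positivity,
    fun a _ => ?_, fun b _ => ?_⟩, rfl⟩ ?_
  · simp only [sum_const, nsmul_eq_mul]; field_simp
  · simp only [sum_const, nsmul_eq_mul]; field_simp
  · rintro _ ⟨π, ⟨h0, h1, h2⟩, rfl⟩
    calc _ = ∑ b ∈ B, (∑ a ∈ A, π a b) * F b - ∑ a ∈ A, (∑ b ∈ B, π a b) * E a := by
          have e1 : ∑ b ∈ B, (∑ a ∈ A, π a b) * F b = ∑ b ∈ B, 1 / (B.card : ℝ) * F b :=
            sum_congr rfl fun b hb => by rw [h2 b hb]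
          have e2 : ∑ a ∈ A, (∑ b ∈ B, π a b) * E a = ∑ a ∈ A, 1 / (A.card : ℝ) * E a :=
            sum_congr rfl fun a ha => by rw [h1 a ha]
          rw [e1, e2, ← mul_sum, ← mul_sum]
          ring
      _ = ∑ a ∈ A, ∑ b ∈ B, π a b * (F b - E a) := by
          simp only [sum_mul, mul_sub, sum_sub_distrib]
          rw [sum_comm]
      _ ≤ _ := sum_le_sum fun a ha => sum_le_sum fun b hb =>
          mul_le_mul_of_nonneg_left (h a ha b hb) (h0 a b)

variable {Γ : Type*} [Group Γ]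

theorem adj_iff {S : Finset Γ} (h1 : (1 : Γ) ∉ S) (hs : ∀ s ∈ S, s⁻¹ ∈ S) (x y : Γ) :
    (SimpleGraph.mulCayley (S : Set Γ)).Adj x y ↔ x⁻¹ * y ∈ S := by
  rw [SimpleGraph.mulCayley_adj']
  constructor
  · rintro ⟨-, g, hg, rfl | rfl⟩
    · simpa using hg
    · simpa using hs g hg
  · intro h
    refine ⟨?_, x⁻¹ * y, h, Or.inl (by simp)⟩
    rintro rfl
    exact h1 (by simpa using h)

open Classical in
theorem nbrs_eq {S : Finset Γ} (h1 : (1 : Γ) ∉ S) (hs : ∀ s ∈ S, s⁻¹ ∈ S) (x : Γ) :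
    nbrs (SimpleGraph.mulCayley (S : Set Γ)) x = S.image (x * ·) := by
  have : (SimpleGraph.mulCayley (S : Set Γ)).neighborSet x = (S.image (x * ·) : Finset Γ) := by
    ext y
    rw [SimpleGraph.mem_neighborSet, adj_iff h1 hs, mem_coe, mem_image]
    exact ⟨fun h => ⟨_, h, by simp⟩, by rintro ⟨s, h, rfl⟩; simpa using h⟩
  unfold nbrs
  rw [dif_pos (this ▸ Finset.finite_toSet _)]
  ext y
  rw [Set.Finite.mem_toFinset, this, mem_coe]

theorem reach {S : Finset Γ} (h1 : (1 : Γ) ∉ S) (hs : ∀ s ∈ S, s⁻¹ ∈ S)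
    (hg : Subgroup.closure (S : Set Γ) = ⊤) (x y : Γ) :
    (SimpleGraph.mulCayley (S : Set Γ)).Reachable x y := by
  have key : ∀ g ∈ Subgroup.closure (S : Set Γ), ∀ x : Γ,
      (SimpleGraph.mulCayley (S : Set Γ)).Reachable x (x * g) := by
    intro g hg
    induction hg using Subgroup.closure_induction with
    | mem s h => exact fun x => ((adj_iff h1 hs _ _).2 (by simpa using h)).reachable
    | one => intro x; simp
    | mul a b _ _ ha hb => intro x; rw [← mul_assoc]; exact (ha x).trans (hb _)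
    | inv a _ ha => intro x; have := (ha (x * a⁻¹)).symm; simpa using this
  simpa using key (x⁻¹ * y) (hg ▸ Subgroup.mem_top _) x

/-- A group with a nontrivial Heisenberg-type coordinate has no non-negatively curved
Cayley graph. -/
theorem heis_neg (B : Γ → Γ → ℝ) (c : Γ → ℝ) (hB : ∀ x y z, B x (y * z) = B x y + B x z)
    (hB' : ∀ x y, B x y = - B y x) (hc : ∀ x y, c (x * y) = c x + c y + B x y)
    (hne : ∃ x y, B x y ≠ 0) (S : Finset Γ) (h1 : (1 : Γ) ∉ S) (hs : ∀ s ∈ S, s⁻¹ ∈ S)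
    (hg : Subgroup.closure (S : Set Γ) = ⊤) :
    ∃ s ∈ S, kappa (SimpleGraph.mulCayley (S : Set Γ)) 1 s < 0 := by
  classical
  have B1 : ∀ x, B x 1 = 0 := fun x => by have := hB x 1 1; rw [mul_one] at this; linarith
  have Bi : ∀ x y, B x y⁻¹ = - B x y := fun x y => by
    have := hB x y y⁻¹; rw [mul_inv_cancel, B1] at this; linarith
  have Bs : ∀ x, B x x = 0 := fun x => by have := hB' x x; linarith
  have c1 : c 1 = 0 := by have := hc 1 1; rw [mul_one, B1] at this; linarith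
  have ci : ∀ x, c x⁻¹ = - c x := fun x => by
    have := hc x x⁻¹; rw [mul_inv_cancel, c1, Bi, Bs] at this; linarith
  have ext : ∀ u v : Γ, (∀ a ∈ S, B a u = B a v) → ∀ x, B x u = B x v := by
    intro u v h x
    have hx : x ∈ Subgroup.closure (S : Set Γ) := hg ▸ Subgroup.mem_top _
    induction hx using Subgroup.closure_induction with
    | mem s h' => exact h s h'
    | one => rw [hB' 1 u, hB' 1 v, B1, B1]
    | mul a b _ _ ha hb => rw [hB' _ u, hB' _ v, hB, hB, hB' u a, hB' u b, hB' v a, hB' v b, ha, hb]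
    | inv a _ ha => rw [hB' _ u, hB' _ v, Bi, Bi, hB' u a, hB' v a, ha]
  let q : Γ → Γ → ℝ := fun x y => ∑ a ∈ S, B a x * B a y
  have hS : ∃ b ∈ S, 0 < q b b := by
    by_contra h
    push Not at h
    obtain ⟨x, y, hxy⟩ := hne
    refine hxy ?_
    have h2 : ∀ b ∈ S, ∀ a ∈ S, B a b = 0 := by
      intro b hb a ha
      have := (sum_eq_zero_iff_of_nonneg fun a _ => mul_self_nonneg (B a b)).1
        (le_antisymm (h b hb) (sum_nonneg fun a _ => mul_self_nonneg _)) a ha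
      exact mul_self_eq_zero.1 this
    have h3 : ∀ b ∈ S, B b x = B b 1 := fun b hb => by
      rw [hB' b x, ext b 1 (fun a ha => by rw [h2 b hb a ha, B1]) x, B1, B1, neg_zero]
    rw [hB' x y, ext x 1 h3 y, B1, neg_zero]
  obtain ⟨b0, hb0, hq0⟩ := hS
  obtain ⟨s0, hs0, hmax⟩ := exists_max_image S (fun x => q x x) ⟨b0, hb0⟩
  obtain ⟨s, hsm, hcmax⟩ := exists_max_image (S.filter fun u => ∀ a ∈ S, B a u = B a s0) c
    ⟨s0, mem_filter.2 ⟨hs0, fun _ _ => rfl⟩⟩
  obtain ⟨hsS, hss0⟩ := mem_filter.1 hsm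
  have hqs : q s s = q s0 s0 := sum_congr rfl fun a ha => by rw [hss0 a ha]
  have hq : 0 < q s s := by rw [hqs]; exact hq0.trans_le (hmax b0 hb0)
  let l : Γ → ℝ := fun x => q s x / q s s
  have lm : ∀ x y, l (x * y) = l x + l y := fun x y => by
    simp only [l, q, hB, mul_add, sum_add_distrib, add_div]
  have l1 : l 1 = 0 := by have := lm 1 1; rw [mul_one] at this; linarith
  have li : ∀ x, l x⁻¹ = - l x := fun x => by
    have := lm x x⁻¹; rw [mul_inv_cancel, l1] at this; linarith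
  have ls : l s = 1 := div_self hq.ne'
  have hl : ∀ u ∈ S, l u ≤ 1 ∧ (l u = 1 → (∀ x, B x u = B x s) ∧ c u ≤ c s) := by
    intro u hu
    have e : ∑ a ∈ S, (B a s - B a u) ^ 2 = q s s - 2 * q s u + q u u := by
      simp only [q, mul_sum, ← sum_sub_distrib, ← sum_add_distrib]
      exact sum_congr rfl fun a _ => by ring
    have h2 : 0 ≤ ∑ a ∈ S, (B a s - B a u) ^ 2 := sum_nonneg fun a _ => sq_nonneg _
    have h3 : q u u ≤ q s s := hqs ▸ hmax u hu
    refine ⟨(div_le_one hq).2 (by linarith), fun h => ?_⟩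
    have h4 : q s u = q s s := by rwa [div_eq_one_iff_eq hq.ne'] at h
    have h5 : ∀ a ∈ S, B a u = B a s := fun a ha => by
      have := (sum_eq_zero_iff_of_nonneg fun a _ => sq_nonneg (B a s - B a u)).1
        (by linarith) a ha
      have := pow_eq_zero_iff (two_ne_zero) |>.1 this
      linarith
    exact ⟨ext u s h5, hcmax u (mem_filter.2 ⟨hu, fun a ha => by rw [h5 a ha, hss0 a ha]⟩)⟩
  set G := SimpleGraph.mulCayley (S : Set Γ) with hG
  have walk : ∀ (x y : Γ) (p : G.Walk x y), l (x⁻¹ * y) ≤ p.length ∧ (l (x⁻¹ * y) = p.length →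
      (∀ z, B z (x⁻¹ * y) = p.length * B z s) ∧ c (x⁻¹ * y) ≤ p.length * c s) := by
    intro x y p
    induction p with
    | nil => simp [l1, B1, c1]
    | @cons x x' y h p ih =>
      have hu := (adj_iff h1 hs _ _).1 h
      have e : x⁻¹ * y = (x⁻¹ * x') * (x'⁻¹ * y) := by group
      obtain ⟨h2, h3⟩ := hl _ hu
      rw [e, lm, SimpleGraph.Walk.length_cons]
      push_cast
      refine ⟨by linarith [ih.1], fun h4 => ?_⟩
      obtain ⟨h5, h6⟩ := h3 (by linarith [ih.1])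
      obtain ⟨h7, h8⟩ := ih.2 (by linarith [ih.1])
      refine ⟨fun z => by rw [hB, h5, h7]; ring, ?_⟩
      rw [hc, h7, hB' _ s, h5 s, Bs]
      linarith
  let w : Γ → ℝ := fun t => B t s
  let K : Γ → ℝ := fun t => if w t < 0 then c t - c s * l t else 0
  let φ : Γ → Γ → ℝ := fun t t' => K t' - K t - min (w t) 0
  let sl : Γ → Γ → ℝ := fun t t' => G.dist t (s * t') - (1 + l t' - l t)
  have hsl : ∀ t t', 0 ≤ sl t t' ∧ (sl t t' = 0 → φ t t' ≤ 0) := by
    intro t t'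
    obtain ⟨p, hp⟩ := (reach h1 hs hg t (s * t')).exists_walk_length_eq_dist
    obtain ⟨h2, h3⟩ := walk t (s * t') p
    have e : l (t⁻¹ * (s * t')) = 1 + l t' - l t := by rw [lm, lm, li, ls]; ring
    rw [hp, e] at h2 h3
    refine ⟨sub_nonneg.2 h2, fun h4 => ?_⟩
    have h4' : (G.dist t (s * t') : ℝ) = 1 + l t' - l t := by simp only [sl] at h4; linarith
    obtain ⟨h5, h6⟩ := h3 h4'.symm
    have h7 := h5 s
    have h8 := h5 t
    rw [hB, hB, Bi, Bs] at h7 h8
    have hw : w t' = w t := by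
      simp only [w]
      rw [hB' t' s, hB' t s]
      linarith
    rw [hc, hc, ci, hB' t⁻¹, Bi, hB' (s * t') t, hB, hB' s t'] at h6
    have hL : (0 : ℝ) ≤ G.dist t (s * t') := Nat.cast_nonneg _
    simp only [φ, K, hw]
    simp only [w] at hw ⊢
    split_ifs with h9
    · rw [min_eq_left h9.le]
      rw [h4'] at h6 h8 hL
      nlinarith
    · rw [min_eq_right (not_lt.1 h9)]
      simp
  obtain ⟨ε, hε, hε'⟩ : ∃ ε : ℝ, 0 < ε ∧ ∀ p ∈ S ×ˢ S, ε * φ p.1 p.2 ≤ sl p.1 p.2 := by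
    have : ∀ᶠ ε in nhdsWithin (0 : ℝ) (Set.Ioi 0), ∀ p ∈ S ×ˢ S, ε * φ p.1 p.2 ≤ sl p.1 p.2 := by
      refine (Filter.eventually_all_finset _).2 fun p _ => ?_
      rcases (hsl p.1 p.2).1.eq_or_lt with h | h
      · filter_upwards [self_mem_nhdsWithin] with ε hε
        rw [← h]
        exact mul_nonpos_of_nonneg_of_nonpos (le_of_lt hε) ((hsl _ _).2 h.symm)
      · have : Filter.Tendsto (fun ε : ℝ => ε * φ p.1 p.2) (nhds 0) (nhds (0 * φ p.1 p.2)) :=
          Filter.tendsto_id.mul_const _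
        rw [zero_mul] at this
        exact ((this.eventually (gt_mem_nhds h)).mono fun _ h => h.le).filter_mono
          nhdsWithin_le_nhds
    obtain ⟨ε, h2, h3⟩ := (this.and self_mem_nhdsWithin).exists
    exact ⟨ε, h3, h2⟩
  refine ⟨s, hsS, ?_⟩
  have hd : G.dist 1 s = 1 :=
    SimpleGraph.dist_eq_one_iff_adj.2 ((adj_iff h1 hs _ _).2 (by simpa using hsS))
  have hN1 : nbrs G 1 = S := by rw [hG, nbrs_eq h1 hs]; simp
  have hinj : Set.InjOn (s * ·) (S : Set Γ) := fun a _ b _ h => mul_left_cancel h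
  have key := le_W1 G S (S.image (s * ·)) ⟨s, hsS⟩ (Nonempty.image ⟨s, hsS⟩ _)
    (fun a => l a + ε * K a + ε * min (w a) 0) (fun b => 1 + l (s⁻¹ * b) + ε * K (s⁻¹ * b)) (by
      intro a ha b hb
      obtain ⟨t, ht, rfl⟩ := mem_image.1 hb
      have := hε' (a, t) (mem_product.2 ⟨ha, ht⟩)
      simp only [φ, sl, inv_mul_cancel_left] at this ⊢
      linarith)
  rw [sum_image hinj, card_image_of_injOn hinj] at key
  simp only [inv_mul_cancel_left, sum_add_distrib, sum_const, nsmul_eq_mul, ← mul_sum] at key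
  have hc0 : (0 : ℝ) < S.card := by exact_mod_cast card_pos.2 ⟨s, hsS⟩
  have hneg : ∑ a ∈ S, min (w a) 0 < 0 := by
    obtain ⟨a, ha, ha'⟩ : ∃ a ∈ S, w a < 0 := by
      by_contra h
      push Not at h
      refine hq.ne' (sum_eq_zero fun a ha => ?_)
      have h2 := h a ha
      have h3 := h _ (hs a ha)
      simp only [w] at h2 h3
      rw [hB' a⁻¹ s, Bi, hB' s a] at h3
      rw [show B a s = 0 by linarith, mul_zero]
    calc _ < ∑ a ∈ S, (0 : ℝ) := sum_lt_sum (fun a _ => min_le_right _ _)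
          ⟨a, ha, by rw [min_eq_left ha'.le]; exact ha'⟩
      _ = 0 := by simp
  unfold kappa
  rw [hd, hN1, nbrs_eq h1 hs, Nat.cast_one, div_one, sub_neg]
  refine lt_of_lt_of_le ?_ key
  rw [← sub_div, lt_div_iff₀ hc0]
  nlinarith

end Pool.Agent.H15.Oll
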