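import Mathlib

open Set Filter Topology TopologicalSpace

namespace Pool.Agent.H15.PRad

abbrev Cp (X : Type) [TopologicalSpace X] : Type := {f : X → ℝ // Continuous f}

def zero (X : Type) [TopologicalSpace X] : Cp X := ⟨fun _ => 0, continuous_const⟩

lemma nhds_zero {X : Type} [TopologicalSpace X] {N : Set (Cp X)} (hN : N ∈ 𝓝 (zero X)) :
    ∃ F : Finset X, ∀ f : Cp X, (∀ s ∈ F, f.1 s = 0) → f ∈ N := by
  obtain ⟨M, hM, hMN⟩ := (mem_nhds_subtype _ _ _).1 hN
  rw [nhds_pi, Filter.mem_pi] at hM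
  obtain ⟨I, hI, t, ht, hIt⟩ := hM
  refine ⟨hI.toFinset, fun f hf => hMN (hIt fun s hs => ?_)⟩
  rw [hf s (hI.mem_toFinset.2 hs)]
  exact mem_of_mem_nhds (ht s)

lemma step1 {X : Type} [TopologicalSpace X] {Z : Type*} [TopologicalSpace Z] [T3Space Z]
    {e : Cp X → Z} (he : IsEmbedding e) (t : X) :
    ∃ (U : Set Z) (F : Finset X), IsClosed U ∧
      (∀ z ∈ U, z ∉ closure (e '' {f : Cp X | 1 / 2 ≤ f.1 t})) ∧
      ∀ f : Cp X, (∀ s ∈ F, f.1 s = 0) → e f ∈ U := by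
  have hc : IsClosed {f : Cp X | 1 / 2 ≤ f.1 t} :=
    isClosed_le continuous_const ((continuous_apply t).comp continuous_subtype_val)
  have h0 : e (zero X) ∉ closure (e '' {f : Cp X | 1 / 2 ≤ f.1 t}) := by
    intro h
    have h1 : zero X ∈ closure {f : Cp X | 1 / 2 ≤ f.1 t} := by
      rw [he.isInducing.closure_eq_preimage_closure_image]; exact h
    rw [hc.closure_eq] at h1
    have h2 : (1 / 2 : ℝ) ≤ 0 := h1
    norm_num at h2
  obtain ⟨U, hU, hUc, hUs⟩ :=
    exists_mem_nhds_isClosed_subset (isClosed_closure.isOpen_compl.mem_nhds h0)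
  obtain ⟨F, hF⟩ := nhds_zero (he.continuous.continuousAt.preimage_mem_nhds hU)
  exact ⟨U, F, hUc, fun z hz => hUs hz, hF⟩

lemma inj_seq {X : Type} (b : ℕ → Set X) (hb : ∀ i, (b i).Infinite) :
    ∃ d : ℕ → X, Function.Injective d ∧ ∀ k, d k ∈ b k := by
  classical
  have h : ∀ (k : ℕ) (s : Finset X), ∃ x, x ∈ b k ∧ x ∉ s := fun k s => by
    obtain ⟨x, hx, hxs⟩ := (hb k).exists_notMem_finset s
    exact ⟨x, hx, hxs⟩
  choose g hg1 hg2 using h
  let S : ℕ → Finset X := fun k => Nat.rec ∅ (fun k s => insert (g k s) s) k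
  have hS : ∀ k, S (k + 1) = insert (g k (S k)) (S k) := fun k => rfl
  have hmono : Monotone S := monotone_nat_of_le_succ fun k => by
    rw [hS]; exact Finset.subset_insert _ _
  have key : ∀ k l, k < l → g k (S k) ≠ g l (S l) := fun k l hkl h => by
    have : g k (S k) ∈ S l := hmono (Nat.succ_le_of_lt hkl) (by
      rw [hS]; exact Finset.mem_insert_self _ _)
    rw [h] at this
    exact hg2 _ _ this
  refine ⟨fun k => g k (S k), fun k l h => ?_, fun k => hg1 _ _⟩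
  rcases lt_trichotomy k l with h1 | h1 | h1
  · exact (key k l h1 h).elim
  · exact h1
  · exact (key l k h1 h.symm).elim

lemma fam {X : Type} [TopologicalSpace X] [T4Space X] [SecondCountableTopology X]
    (hinf : ∀ O : Set X, IsOpen O → O.Nonempty → O.Infinite) {J : Set X} (hJ : IsOpen J)
    (hJn : J.Nonempty) :
    ∃ (a : ℕ → ℕ → Cp X) (V : ℕ → ℕ → Set X) (d : ℕ → ℕ → X),
      (∀ n j, IsOpen (V n j)) ∧ (∀ n j, V n j ⊆ J) ∧
      (∀ n j s, s ∉ V n j → (a n j).1 s = 0) ∧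
      (∀ n j j', j ≤ n → j' ≤ n → j ≠ j' → ∀ s ∈ V n j, s ∉ V n j') ∧
      (∀ n i j, i ≤ n → d i j ∈ V n j ∧ (a n j).1 (d i j) = 1) ∧
      (∀ O : Set X, IsOpen O → (O ∩ J).Nonempty → ∃ i, ∀ j, d i j ∈ O) := by
  classical
  have hB := isBasis_countableBasis X
  have hPc : {B ∈ countableBasis X | B ⊆ J ∧ B.Nonempty}.Countable :=
    (countable_countableBasis X).mono (sep_subset _ _)
  have hsub : ∀ O : Set X, IsOpen O → (O ∩ J).Nonempty →
      ∃ B ∈ {B ∈ countableBasis X | B ⊆ J ∧ B.Nonempty}, B ⊆ O := by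
    rintro O hO ⟨x, hx⟩
    obtain ⟨B, hBm, hxB, hBs⟩ := hB.exists_subset_of_mem_open hx (hO.inter hJ)
    exact ⟨B, ⟨hBm, fun y hy => (hBs hy).2, x, hxB⟩, fun y hy => (hBs hy).1⟩
  have hPn : {B ∈ countableBasis X | B ⊆ J ∧ B.Nonempty}.Nonempty := by
    obtain ⟨B, hB1, -⟩ := hsub univ isOpen_univ (by simpa using hJn)
    exact ⟨B, hB1⟩
  obtain ⟨b, hb⟩ := hPc.exists_eq_range hPn
  have hbm : ∀ i, b i ∈ {B ∈ countableBasis X | B ⊆ J ∧ B.Nonempty} := fun i => by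
    rw [hb]; exact mem_range_self i
  obtain ⟨d0, hd0, hd1⟩ := inj_seq (fun k => b k.unpair.1)
    (fun k => hinf _ (hB.isOpen (hbm _).1) (hbm _).2.2)
  let d : ℕ → ℕ → X := fun i j => d0 (Nat.pair i j)
  have hdb : ∀ i j, d i j ∈ b i := fun i j => by
    have := hd1 (Nat.pair i j)
    simpa using this
  have hdi : ∀ i j i' j', d i j = d i' j' → j = j' := fun i j i' j' h =>
    (Nat.pair_eq_pair.1 (hd0 h)).2
  have hfin : ∀ n : ℕ, ((fun p : ℕ × ℕ => d p.1 p.2) '' (Iic n ×ˢ Iic n)).Finite :=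
    fun n => ((finite_Iic n).prod (finite_Iic n)).image _
  choose U hU1 hU2 using fun n => (hfin n).t2_separation
  let V : ℕ → ℕ → Set X := fun n j => J ∩ ⋃ i ∈ Iic n, U n (d i j)
  have hVo : ∀ n j, IsOpen (V n j) := fun n j =>
    hJ.inter (isOpen_biUnion fun i _ => (hU1 n _).2)
  have hdV : ∀ n i j, i ≤ n → d i j ∈ V n j := fun n i j hi =>
    ⟨(hbm i).2.1 (hdb i j), mem_biUnion (show i ∈ Iic n from hi) (hU1 n _).1⟩
  have hex : ∀ n j, ∃ f : C(X, ℝ), EqOn f 0 (V n j)ᶜ ∧ EqOn f 1 ((fun i => d i j) '' Iic n) ∧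
      ∀ x, f x ∈ Icc (0 : ℝ) 1 := fun n j =>
    exists_continuous_zero_one_of_isClosed (hVo n j).isClosed_compl
      ((finite_Iic n).image _).isClosed (by
        rw [Set.disjoint_right]
        rintro _ ⟨i, hi, rfl⟩ h
        exact h (hdV n i j hi))
  choose f hf1 hf2 _ using hex
  refine ⟨fun n j => ⟨f n j, (f n j).continuous⟩, V, d, hVo, fun n j => inter_subset_left,
    fun n j s hs => hf1 n j hs, ?_, fun n i j hi => ⟨hdV n i j hi, hf2 n j ⟨i, hi, rfl⟩⟩, ?_⟩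
  · rintro n j j' hj hj' hne s ⟨-, hs⟩ ⟨-, hs'⟩
    simp only [mem_iUnion] at hs hs'
    obtain ⟨i, hi, hs⟩ := hs
    obtain ⟨i', hi', hs'⟩ := hs'
    have := hU2 n (x := d i j) ⟨(i, j), ⟨hi, hj⟩, rfl⟩ (y := d i' j') ⟨(i', j'), ⟨hi', hj'⟩, rfl⟩
      (fun h => hne (hdi _ _ _ _ h))
    exact Set.disjoint_left.1 this hs hs'
  · intro O hO hOJ
    obtain ⟨B, hB1, hB2⟩ := hsub O hO hOJ
    rw [hb] at hB1
    obtain ⟨i, rfl⟩ := hB1
    exact ⟨i, fun j => hB2 (hdb i j)⟩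

lemma res_of {X : Type} [TopologicalSpace X] {J O : Set X} (hO : IsOpen O)
    (h : ∀ W : Set X, IsOpen W → (W ∩ J).Nonempty → (W ∩ O).Nonempty) :
    O ∪ (closure J)ᶜ ∈ residual X := by
  refine residual_of_dense_open (hO.union isClosed_closure.isOpen_compl) ?_
  rw [dense_iff_inter_open]
  rintro W hW ⟨x, hx⟩
  by_cases hxJ : x ∈ closure J
  · obtain ⟨y, hy⟩ := h W hW (mem_closure_iff.1 hxJ W hW hx)
    exact ⟨y, hy.1, Or.inl hy.2⟩
  · exact ⟨x, hx, Or.inr hxJ⟩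

theorem main {X : Type} [TopologicalSpace X] [T4Space X] [SecondCountableTopology X]
    [BaireSpace X] [Nonempty X] (hinf : ∀ O : Set X, IsOpen O → O.Nonempty → O.Infinite)
    {Z : Type*} [TopologicalSpace Z] [T3Space Z] {e : Cp X → Z} (he : IsEmbedding e) :
    ∃ A : Set Z, ¬ IsClosed A ∧ ∀ (ι : Type*) [LinearOrder ι] (x : ι → Z) (z : Z),
      (∀ α, x α ∈ A) → (∀ N ∈ 𝓝 z, ∃ β, ∀ α, β ≤ α → x α ∈ N) → z ∈ A := by
  classical
  choose U F hUc hUd hUF using step1 he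
  have hB := isBasis_countableBasis X
  let T : Set X → Set X := fun J => {t | t ∈ J ∧ ∀ s ∈ F t, s ≠ t → s ∉ J}
  have hcov : ∀ t, ∃ J ∈ countableBasis X, t ∈ T J := fun t => by
    have ho : IsOpen ((F t : Set X) \ {t})ᶜ :=
      ((F t).finite_toSet.subset sdiff_subset).isClosed.isOpen_compl
    obtain ⟨J, hJ, htJ, hJs⟩ := hB.exists_subset_of_mem_open
      (show t ∈ ((F t : Set X) \ {t})ᶜ from fun h => h.2 rfl) ho
    exact ⟨J, hJ, htJ, fun s hs hst hsJ => hJs hsJ ⟨hs, hst⟩⟩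
  have hJ : ∃ J ∈ countableBasis X, (T J)ᶜ ∉ residual X := by
    by_contra hcon
    push Not at hcon
    have h1 : (⋂ J ∈ countableBasis X, (T J)ᶜ) ∈ residual X :=
      (countable_bInter_mem (countable_countableBasis X)).2 hcon
    obtain ⟨t, ht⟩ := (dense_of_mem_residual h1).nonempty
    obtain ⟨J, hJ, htJ⟩ := hcov t
    exact (mem_iInter₂.1 ht) J hJ htJ
  obtain ⟨J, hJB, hJ⟩ := hJ
  have hJo := hB.isOpen hJB
  have hJn : J.Nonempty := by
    by_contra hn
    apply hJ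
    have : (T J)ᶜ = univ := eq_univ_of_forall fun t ht => hn ⟨t, ht.1⟩
    rw [this]; exact univ_mem
  obtain ⟨a, V, d, hVo, hVJ, ha0, hVd, hd, hdO⟩ := fam hinf hJo hJn
  refine ⟨{z | ∃ n j, j ≤ n ∧ z = e (a n j)}, fun hcl => ?_, ?_⟩
  · have h0 : e (zero X) ∈ closure {z | ∃ n j, j ≤ n ∧ z = e (a n j)} := by
      rw [mem_closure_iff_nhds]
      intro N hN
      obtain ⟨G, hG⟩ := nhds_zero (he.continuous.continuousAt.preimage_mem_nhds hN)
      have : ∃ j ≤ G.card, ∀ s ∈ G, s ∉ V G.card j := by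
        by_contra hcon
        push Not at hcon
        choose! s hs1 hs2 using hcon
        have := Finset.card_le_card_of_injOn (s := Finset.range (G.card + 1)) (t := G) s
          (fun j hj => hs1 j (by simpa [Nat.lt_succ_iff] using hj)) (fun j hj j' hj' h => by
            have hj1 : j ≤ G.card := by simpa [Nat.lt_succ_iff] using hj
            have hj2 : j' ≤ G.card := by simpa [Nat.lt_succ_iff] using hj'
            by_contra hne
            exact hVd _ j j' hj1 hj2 hne _ (hs2 j hj1) (h ▸ hs2 j' hj2))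
        simp at this
      obtain ⟨j, hj, hjG⟩ := this
      exact ⟨e (a G.card j), hG _ fun s hs => ha0 _ _ _ (hjG s hs), G.card, j, hj, rfl⟩
    rw [hcl.closure_eq] at h0
    obtain ⟨n, j, -, h⟩ := h0
    have h1 := (hd n 0 j (Nat.zero_le _)).2
    rw [← he.injective h] at h1
    have h2 : (0 : ℝ) = 1 := h1
    norm_num at h2
  · intro ι _ x z hxA hconv
    by_contra hz
    choose n j hjn hx using hxA
    have hβ : ∀ m : ℕ, ∃ β, ∀ α, β ≤ α → m ≤ n α := fun m => by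
      have hf : ((fun p : ℕ × ℕ => e (a p.1 p.2)) '' {p | p.1 < m ∧ p.2 ≤ p.1}).Finite :=
        (((finite_Iic m).prod (finite_Iic m)).subset fun p hp =>
          ⟨hp.1.le, hp.2.trans hp.1.le⟩).image _
      obtain ⟨β, hβ⟩ := hconv _ (hf.isClosed.isOpen_compl.mem_nhds (by
        rintro ⟨p, hp, rfl⟩
        exact hz ⟨p.1, p.2, hp.2, rfl⟩))
      refine ⟨β, fun α hα => ?_⟩
      by_contra hlt
      exact hβ α hα ⟨(n α, j α), ⟨not_le.1 hlt, hjn α⟩, (hx α).symm⟩
    choose β hβ using hβ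
    have hcof : ∀ γ, ∃ m, γ ≤ β m := fun γ => by
      refine ⟨n γ + 1, ?_⟩
      by_contra hlt
      have := hβ _ γ (not_le.1 hlt).le
      omega
    let O1 : ℕ → Set X := fun m => ⋃ α ∈ Ici (β m), {t | 1 / 2 < (a (n α) (j α)).1 t}
    let O2 : ℕ → Set X := fun m =>
      ⋃ α ∈ Ici (β m), V (n α) (if j α = 0 then 1 else 0) ∩ {_t | 1 ≤ n α}
    have h1 : ∀ m, O1 m ∪ (closure J)ᶜ ∈ residual X := fun m => by
      refine res_of (isOpen_biUnion fun α _ => isOpen_lt continuous_const (a _ _).2) ?_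
      intro W hW hWJ
      obtain ⟨i, hi⟩ := hdO W hW hWJ
      have hα := hβ i (max (β m) (β i)) (le_max_right _ _)
      refine ⟨d i (j (max (β m) (β i))), hi _, mem_biUnion (show max (β m) (β i) ∈ Ici (β m) from
        le_max_left _ _) ?_⟩
      rw [mem_ofPred_eq, (hd _ i _ hα).2]; norm_num
    have h2 : ∀ m, O2 m ∪ (closure J)ᶜ ∈ residual X := fun m => by
      refine res_of (isOpen_biUnion fun α _ => (hVo _ _).inter isOpen_const) ?_
      intro W hW hWJ
      obtain ⟨i, hi⟩ := hdO W hW hWJ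
      have hα := hβ (i + 1) (max (β m) (β (i + 1))) (le_max_right _ _)
      refine ⟨d i _, hi _, mem_biUnion (show max (β m) (β (i + 1)) ∈ Ici (β m) from
        le_max_left _ _) ⟨(hd _ i _ (by omega)).1, ?_⟩⟩
      show 1 ≤ _
      omega
    apply hJ
    filter_upwards [countable_iInter_mem.2 h1, countable_iInter_mem.2 h2] with t ht1 ht2 htT
    have htc : t ∈ closure J := subset_closure htT.1
    have ht1' : ∀ m, t ∈ O1 m := fun m => (mem_iInter.1 ht1 m).resolve_right fun h => h htc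
    have ht2' : ∀ m, t ∈ O2 m := fun m => (mem_iInter.1 ht2 m).resolve_right fun h => h htc
    apply hUd t z
    · rw [← (hUc t).closure_eq, mem_closure_iff_nhds]
      intro N hN
      obtain ⟨γ, hγ⟩ := hconv N hN
      obtain ⟨m, hm⟩ := hcof γ
      obtain ⟨α, hα, ht, hn1⟩ := mem_iUnion₂.1 (ht2' m)
      refine ⟨x α, hγ α (hm.trans hα), ?_⟩
      rw [hx α]
      refine hUF t _ fun s hs => ha0 _ _ _ ?_
      by_cases hst : s = t
      · rw [hst]
        have hn1' : 1 ≤ n α := hn1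
        refine hVd _ _ _ ?_ (hjn α) ?_ t ht
        · split_ifs <;> omega
        · split_ifs <;> omega
      · exact fun h => htT.2 s hs hst (hVJ _ _ h)
    · rw [mem_closure_iff_nhds]
      intro N hN
      obtain ⟨γ, hγ⟩ := hconv N hN
      obtain ⟨m, hm⟩ := hcof γ
      obtain ⟨α, hα, ht⟩ := mem_iUnion₂.1 (ht1' m)
      exact ⟨x α, hγ α (hm.trans hα), a (n α) (j α),
        le_of_lt (a := (1 / 2 : ℝ)) (b := (a (n α) (j α)).1 t) ht, (hx α).symm⟩

end Pool.Agent.H15.PRad
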