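import Mathlib

set_option autoImplicit false

namespace Pool.Agent.H15.Pat
open Finset

theorem embed {V : Type} [DecidableEq V] (A C : V → V → Prop) (x y : V) (hxy : x ≠ y)
    (hx : ∀ S : Finset V, S.card ≤ 10 → ∃ u, u ∉ S ∧ A x u)
    (hy : ∀ S : Finset V, S.card ≤ 10 → ∃ u, u ∉ S ∧ A y u)
    (hC : ∀ S : Finset V, S.card ≤ 10 → ∃ u v, u ∉ S ∧ v ∉ S ∧ u ≠ v ∧ C u v) :
    ∃ φ : Fin 12 → V, Function.Injective φ ∧ φ 0 = x ∧ φ 1 = y ∧ A x (φ 2) ∧ A x (φ 3) ∧
      A y (φ 4) ∧ A y (φ 5) ∧ C (φ 6) (φ 7) ∧ C (φ 8) (φ 9) ∧ C (φ 10) (φ 11) := by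
  have hl : ∀ l : List V, l.length ≤ 10 → l.toFinset.card ≤ 10 := fun l h =>
    (List.toFinset_card_le l).trans h
  obtain ⟨a, ha, ha'⟩ := hx _ (hl [y, x] (by simp))
  obtain ⟨b, hb, hb'⟩ := hx _ (hl [a, y, x] (by simp))
  obtain ⟨c, hc, hc'⟩ := hy _ (hl [b, a, y, x] (by simp))
  obtain ⟨d, hd, hd'⟩ := hy _ (hl [c, b, a, y, x] (by simp))
  obtain ⟨e, f, he, hf, hef, h1⟩ := hC _ (hl [d, c, b, a, y, x] (by simp))
  obtain ⟨g, h, hg, hh, hgh, h2⟩ := hC _ (hl [f, e, d, c, b, a, y, x] (by simp))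
  obtain ⟨i, j, hi, hj, hij, h3⟩ := hC _ (hl [h, g, f, e, d, c, b, a, y, x] (by simp))
  rw [List.mem_toFinset] at ha hb hc hd he hf hg hh hi hj
  have nd : [j, i, h, g, f, e, d, c, b, a, y, x].Nodup := by
    refine List.nodup_cons.2 ⟨fun h => (List.mem_cons.1 h).elim (fun h => hij h.symm) hj, ?_⟩
    refine List.nodup_cons.2 ⟨hi, ?_⟩
    refine List.nodup_cons.2 ⟨fun h => (List.mem_cons.1 h).elim (fun h => hgh h.symm) hh, ?_⟩
    refine List.nodup_cons.2 ⟨hg, ?_⟩
    refine List.nodup_cons.2 ⟨fun h => (List.mem_cons.1 h).elim (fun h => hef h.symm) hf, ?_⟩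
    refine List.nodup_cons.2 ⟨he, ?_⟩
    refine List.nodup_cons.2 ⟨hd, List.nodup_cons.2 ⟨hc, List.nodup_cons.2 ⟨hb,
      List.nodup_cons.2 ⟨ha, ?_⟩⟩⟩⟩
    simp [hxy.symm]
  refine ⟨![x, y, a, b, c, d, e, f, g, h, i, j], ?_, rfl, rfl, ha', hb', hc', hd', h1, h2, h3⟩
  rw [← List.nodup_ofFn]
  exact List.nodup_reverse.1 nd

variable {V : Type} [Fintype V] [DecidableEq V] (col : V → V → Fin 6)

def NoCopy : Prop := ∀ φ : Fin 12 → V, Function.Injective φ → ∀ α β γ : Fin 6,
  α ≠ β → α ≠ γ → β ≠ γ → col (φ 0) (φ 1) = β → col (φ 0) (φ 2) = α → col (φ 0) (φ 3) = α →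
  col (φ 1) (φ 4) = α → col (φ 1) (φ 5) = α → col (φ 6) (φ 7) = γ → col (φ 8) (φ 9) = γ →
  col (φ 10) (φ 11) = γ → False

def nb (x : V) (α : Fin 6) : Finset V := univ.filter (fun y => y ≠ x ∧ col x y = α)

def Big (γ : Fin 6) : Prop :=
  ∀ S : Finset V, S.card ≤ 10 → ∃ u v, u ∉ S ∧ v ∉ S ∧ u ≠ v ∧ col u v = γ

theorem ex_nb (x : V) (α : Fin 6) (S : Finset V) (h : S.card < (nb col x α).card) :
    ∃ u, u ∉ S ∧ u ≠ x ∧ col x u = α := by
  obtain ⟨u, hu, hu'⟩ := exists_mem_notMem_of_card_lt_card h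
  exact ⟨u, hu', (mem_filter.1 hu).2⟩

variable {col}

theorem lemL (hN : NoCopy col) (x y : V) (hxy : x ≠ y) (α γ : Fin 6)
    (hx : 10 < (nb col x α).card) (hy : 10 < (nb col y α).card) (h1 : α ≠ col x y) (h2 : α ≠ γ)
    (h3 : col x y ≠ γ) (hγ : Big col γ) : False := by
  obtain ⟨φ, hφ, e0, e1, a2, a3, a4, a5, a6, a8, a10⟩ := embed (fun u v => col u v = α)
    (fun u v => col u v = γ) x y hxy
    (fun S hS => (ex_nb col x α S (by omega)).imp (fun u hu => ⟨hu.1, hu.2.2⟩))
    (fun S hS => (ex_nb col y α S (by omega)).imp (fun u hu => ⟨hu.1, hu.2.2⟩)) hγ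
  subst e0 e1
  exact hN φ hφ α _ γ h1 h2 h3 rfl a2 a3 a4 a5 a6 a8 a10

theorem sum_nb (x : V) : ∑ α, (nb col x α).card + 1 = Fintype.card V := by
  have h1 : (univ.erase x).card = ∑ α, (nb col x α).card := by
    rw [card_eq_sum_card_fiberwise (f := col x) (t := univ) (fun _ _ => mem_univ _)]
    refine sum_congr rfl (fun α _ => ?_)
    congr 1; ext y; simp [nb]
  rw [← h1, card_erase_add_one (mem_univ x), card_univ]

theorem struct (hs : ∀ u v, col u v = col v u) (hN : NoCopy col) (hn : 200 ≤ Fintype.card V) :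
    ∃ (a b : Fin 6) (Z : Finset V), Z.card ≤ 100 ∧
      ∀ u v, u ∉ Z → v ∉ Z → u ≠ v → col u v = a ∨ col u v = b := by
  classical
  by_cases h3 : 2 < (univ.filter (fun γ => Big col γ)).card
  · have key : ∀ x y α, x ≠ y → 10 < (nb col x α).card → 10 < (nb col y α).card → col x y = α := by
      intro x y α hxy hx hy
      by_contra hne
      obtain ⟨γ, hγ, hγ'⟩ := exists_mem_notMem_of_card_lt_card
        (lt_of_le_of_lt (card_le_two (a := α) (b := col x y)) h3)
      simp only [mem_insert, mem_singleton, not_or] at hγ'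
      exact lemL hN x y hxy α γ hx hy (Ne.symm hne) (Ne.symm hγ'.1) (Ne.symm hγ'.2) (mem_filter.1 hγ).2
    set VV : Fin 6 → Finset V := fun α => univ.filter (fun x => 10 < (nb col x α).card) with hVV
    have hcov : (univ : Finset V) ⊆ univ.biUnion VV := by
      intro x _
      by_contra hx
      have h1 : ∑ α, (nb col x α).card ≤ 60 := by
        refine (sum_le_card_nsmul _ _ 10 (fun α _ => ?_)).trans (by simp)
        by_contra h2
        exact hx (mem_biUnion.2 ⟨α, mem_univ _, mem_filter.2 ⟨mem_univ _, by omega⟩⟩)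
      have := sum_nb (col := col) x
      omega
    obtain ⟨α, hα⟩ : ∃ α, 30 ≤ (VV α).card := by
      by_contra hh
      push Not at hh
      have := (card_le_card hcov).trans (card_biUnion_le_card_mul _ _ 30 (fun α _ => (hh α).le))
      simp only [card_univ, Fintype.card_fin] at this
      omega
    refine ⟨α, α, univ \ VV α, ?_, fun u v hu hv huv => Or.inl (key u v α huv ?_ ?_)⟩
    rotate_left
    · simpa [hVV] using hu
    · simpa [hVV] using hv
    set Y := (VV α).filter (fun y => ∀ δ, δ ≠ α → (nb col y δ).card ≤ 10) with hY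
    have hYc : (VV α).card ≤ Y.card + 5 := by
      have hsub : VV α ⊆ Y ∪ (univ.erase α).biUnion (fun δ => VV α ∩ VV δ) := by
        intro y hy
        by_cases hh : ∀ δ, δ ≠ α → (nb col y δ).card ≤ 10
        · exact mem_union_left _ (mem_filter.2 ⟨hy, hh⟩)
        · push Not at hh
          obtain ⟨δ, h1, h2⟩ := hh
          exact mem_union_right _ (mem_biUnion.2 ⟨δ, by simp [h1],
            mem_inter.2 ⟨hy, mem_filter.2 ⟨mem_univ _, h2⟩⟩⟩)
      refine (card_le_card hsub).trans ((card_union_le _ _).trans (Nat.add_le_add_left ?_ _))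
      refine (card_biUnion_le_card_mul _ _ 1 (fun δ hδ => card_le_one.2 (fun x hx y hy => ?_))).trans
        (by simp)
      by_contra hxy
      have e1 := key x y α hxy (mem_filter.1 (mem_inter.1 hx).1).2 (mem_filter.1 (mem_inter.1 hy).1).2
      have e2 := key x y δ hxy (mem_filter.1 (mem_inter.1 hx).2).2 (mem_filter.1 (mem_inter.1 hy).2).2
      exact (mem_erase.1 hδ).1 (e2.symm.trans e1)
    have dc := card_mul_le_card_mul (s := univ \ VV α) (t := Y) (fun x y => col x y ≠ α)
      (m := Y.card - 10) (n := 50) (by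
        intro x hx
        have hx' : (nb col x α).card ≤ 10 := by simpa [hVV] using hx
        have hsub : Y ⊆ Y.bipartiteAbove (fun x y => col x y ≠ α) x ∪ nb col x α := by
          intro y hy
          by_cases hh : col x y = α
          · refine mem_union_right _ (mem_filter.2 ⟨mem_univ _, ?_, hh⟩)
            rintro rfl
            exact (mem_sdiff.1 hx).2 (mem_filter.1 hy).1
          · exact mem_union_left _ (mem_filter.2 ⟨hy, hh⟩)
        have := (card_le_card hsub).trans (card_union_le _ _)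
        omega) (by
        intro y hy
        have hsub : (univ \ VV α).bipartiteBelow (fun x y => col x y ≠ α) y ⊆
            (univ.erase α).biUnion (fun δ => nb col y δ) := by
          intro x hx
          obtain ⟨h1, h2⟩ := mem_filter.1 hx
          refine mem_biUnion.2 ⟨col x y, by simp [h2], mem_filter.2 ⟨mem_univ _, ?_, hs _ _⟩⟩
          rintro rfl
          exact (mem_sdiff.1 h1).2 (mem_filter.1 hy).1
        refine (card_le_card hsub).trans ((card_biUnion_le_card_mul _ _ 10 (fun δ hδ =>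
          (mem_filter.1 hy).2 δ (mem_erase.1 hδ).1)).trans (by simp)))
    by_contra hc
    push Not at hc
    have h5 : 101 * (Y.card - 10) ≤ (univ \ VV α).card * (Y.card - 10) := Nat.mul_le_mul_right _ hc
    omega
  · push Not at h3
    obtain ⟨a, b, hab⟩ : ∃ a b : Fin 6, ∀ γ, Big col γ → γ = a ∨ γ = b := by
      have : ∀ s : Finset (Fin 6), s.card ≤ 2 → ∃ a b : Fin 6, ∀ γ ∈ s, γ = a ∨ γ = b := by
        decide +kernel
      obtain ⟨a, b, h⟩ := this _ h3
      exact ⟨a, b, fun γ hγ => h γ (mem_filter.2 ⟨mem_univ _, hγ⟩)⟩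
    have : ∀ γ, ∃ S : Finset V, S.card ≤ 10 ∧
        (¬ Big col γ → ∀ u v, u ∉ S → v ∉ S → u ≠ v → col u v ≠ γ) := by
      intro γ
      by_cases hγ : Big col γ
      · exact ⟨∅, by simp, fun h => (h hγ).elim⟩
      · unfold Big at hγ
        push Not at hγ
        obtain ⟨S, hS, h⟩ := hγ
        exact ⟨S, hS, fun _ => h⟩
    choose S hS hS' using this
    refine ⟨a, b, univ.biUnion S, (card_biUnion_le_card_mul _ _ 10 (fun γ _ => hS γ)).trans (by simp),
      fun u v hu hv huv => hab _ ?_⟩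
    by_contra hb
    exact hS' _ hb u v (fun h => hu (mem_biUnion.2 ⟨_, mem_univ _, h⟩))
      (fun h => hv (mem_biUnion.2 ⟨_, mem_univ _, h⟩)) huv rfl

def hv (col : V → V → Fin 6) (x : V) : Finset (Fin 6) := univ.filter (fun α => 300 < (nb col x α).card)

def wz (s : Finset (Fin 6)) : ℕ :=
  if s.card ≤ 1 then 0 else if s.card ≤ 2 then 1 else if s.card ≤ 4 then 2 else 3

theorem card_le_wz (s : Finset (Fin 6)) : s.card ≤ 2 ^ wz s := by
  have : s.card ≤ 6 := by simpa using card_le_univ s
  unfold wz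
  split_ifs <;> omega

theorem struct2 (hs : ∀ u v, col u v = col v u) (hN : NoCopy col) (hn : 400 ≤ Fintype.card V) :
    ∃ (a b : Fin 6) (W : Finset V), W.card ≤ 300 ∧
      (∀ u v, u ∉ W → v ∉ W → u ≠ v → col u v = a ∨ col u v = b) ∧
      ∑ z ∈ W, wz (hv col z) ≤ W.card + 1 := by
  classical
  obtain ⟨a, b, Z, hZ, hab⟩ := struct hs hN (by omega)
  set U := (univ \ Z).filter (fun x => (hv col x).card ≤ 1) with hU
  have w3 : ∀ s, wz s ≤ 3 := fun s => by unfold wz; split_ifs <;> omega
  by_cases hUc : 200 ≤ U.card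
  · obtain ⟨U', hU', hU'c⟩ := exists_subset_card_eq hUc
    have hdisj : Disjoint Z U' := disjoint_left.2 (fun x hx hx' =>
      (mem_sdiff.1 (mem_filter.1 (hU' hx')).1).2 hx)
    refine ⟨a, b, Z ∪ U', (card_union_le _ _).trans (by omega), fun u v hu hv huv =>
      hab u v (fun h => hu (mem_union_left _ h)) (fun h => hv (mem_union_left _ h)) huv, ?_⟩
    rw [sum_union hdisj, card_union_of_disjoint hdisj]
    have h1 : ∑ z ∈ Z, wz (hv col z) ≤ Z.card * 3 := sum_le_card_nsmul _ _ 3 (fun _ _ => w3 _)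
    have h2 : ∑ z ∈ U', wz (hv col z) = 0 := sum_eq_zero (fun z hz => by
      unfold wz; rw [if_pos (mem_filter.1 (hU' hz)).2])
    omega
  · refine ⟨a, b, Z, by omega, hab, ?_⟩
    have hZU : (Z ∪ U).card ≤ 300 := (card_union_le _ _).trans (by omega)
    have typ : ∀ x, x ∉ Z ∪ U → hv col x = {a, b} ∧ a ≠ b := by
      intro x hx
      have hxZ : x ∉ Z := fun h => hx (mem_union_left _ h)
      have h1 : 1 < (hv col x).card := by
        by_contra h
        exact hx (mem_union_right _ (mem_filter.2 ⟨by simp [hxZ], by omega⟩))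
      have h2 : hv col x ⊆ {a, b} := by
        intro α hα
        obtain ⟨u, hu, hux, rfl⟩ := ex_nb col x α Z (by have := (mem_filter.1 hα).2; omega)
        simpa using hab x u hxZ hu hux.symm
      have h3 : a ≠ b := by
        rintro rfl
        have := card_le_card h2
        simp at this; omega
      exact ⟨eq_of_subset_of_card_le h2 (by rw [card_pair h3]; omega), h3⟩
    have big : ∀ γ ∈ ({a, b} : Finset (Fin 6)), Big col γ := by
      intro γ hγ S hS
      obtain ⟨x, -, hx⟩ := exists_mem_notMem_of_card_lt_card (s := (Z ∪ U) ∪ S) (t := univ)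
        (lt_of_le_of_lt (card_union_le _ _) (by rw [card_univ]; omega))
      rw [← (typ x (fun h => hx (mem_union_left _ h))).1] at hγ
      obtain ⟨u, hu, hux, h⟩ := ex_nb col x γ S (by have := (mem_filter.1 hγ).2; omega)
      exact ⟨x, u, fun h => hx (mem_union_right _ h), hu, hux.symm, h⟩
    have hne : a ≠ b := by
      obtain ⟨x, -, hx⟩ := exists_mem_notMem_of_card_lt_card (s := (Z ∪ U)) (t := univ)
        (by rw [card_univ]; omega)
      exact (typ x hx).2
    have three : ∀ z, 2 < (hv col z).card → hv col z ⊆ univ \ {a, b} := by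
      intro z hz
      obtain ⟨δ, hδ, hδ'⟩ := exists_mem_notMem_of_card_lt_card
        (lt_of_le_of_lt (card_le_two (a := a) (b := b)) hz)
      obtain ⟨x, hx, hxz, hc⟩ := ex_nb col z δ (Z ∪ U) (by have := (mem_filter.1 hδ).2; omega)
      simp only [mem_insert, mem_singleton, not_or] at hδ'
      intro α hα
      refine mem_sdiff.2 ⟨mem_univ _, fun hα' => ?_⟩
      have hxα : α ∈ hv col x := by rw [(typ x hx).1]; exact hα'
      have h1 := (mem_filter.1 hα).2
      have h2 := (mem_filter.1 hxα).2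
      simp only [mem_insert, mem_singleton] at hα'
      rcases hα' with rfl | rfl
      · exact lemL hN z x hxz.symm α b (by omega) (by omega) (by rw [hc]; exact Ne.symm hδ'.1) hne
          (by rw [hc]; exact hδ'.2) (big b (by simp))
      · exact lemL hN z x hxz.symm α a (by omega) (by omega) (by rw [hc]; exact Ne.symm hδ'.2) hne.symm
          (by rw [hc]; exact hδ'.1) (big a (by simp))
    have c4 : (univ \ ({a, b} : Finset (Fin 6))).card = 4 := by
      rw [card_sdiff_of_subset (subset_univ _), card_pair hne]; simp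
    have one : (Z.filter (fun z => 2 < (hv col z).card)).card ≤ 1 := by
      refine card_le_one.2 (fun z hz z' hz' => ?_)
      by_contra hzz
      have t1 := (mem_filter.1 hz).2
      have t2 := (mem_filter.1 hz').2
      have h1 : (hv col z ∪ hv col z').card ≤ 4 := c4 ▸ card_le_card (union_subset (three z t1) (three z' t2))
      have h2 := card_union_add_card_inter (hv col z) (hv col z')
      obtain ⟨α, hα, hα'⟩ := exists_mem_notMem_of_card_lt_card (s := {col z z'})
        (t := hv col z ∩ hv col z') (by rw [card_singleton]; omega)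
      obtain ⟨γ, hγ, hγ'⟩ := exists_mem_notMem_of_card_lt_card (s := {col z z'})
        (t := {a, b}) (by rw [card_singleton, card_pair hne]; omega)
      have h3 := (mem_filter.1 (mem_inter.1 hα).1).2
      have h4 := (mem_filter.1 (mem_inter.1 hα).2).2
      refine lemL hN z z' hzz α γ (by omega) (by omega) (by simpa using hα') ?_
        (by simpa [eq_comm] using hγ') (big γ hγ)
      rintro rfl
      exact (mem_sdiff.1 (three z t1 (mem_inter.1 hα).1)).2 hγ
    calc ∑ z ∈ Z, wz (hv col z) ≤ ∑ z ∈ Z, (1 + if 2 < (hv col z).card then 1 else 0) := by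
          refine sum_le_sum (fun z _ => ?_)
          by_cases h : 2 < (hv col z).card
          · have := c4 ▸ card_le_card (three z h)
            unfold wz; split_ifs <;> omega
          · unfold wz; split_ifs <;> omega
      _ ≤ Z.card + 1 := by
          rw [sum_add_distrib, ← card_filter]
          simpa using one

end Pool.Agent.H15.Pat
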