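import Mathlib
import Pool.Agent.H15.Pat1
import Pool.Agent.H15.Codeg

set_option autoImplicit false

namespace Pool.Agent.H15.Pat
open Finset

def FF : Finset (Finset (Fin 12)) := {{0,1},{0,2},{0,3},{1,4},{1,5},{6,7},{8,9},{10,11}}

def pp (e : Finset (Fin 12)) : Fin 3 := if e = {0,1} then 1 else if 0 ∈ e ∨ 1 ∈ e then 0 else 2

theorem FF_card : ∀ e ∈ FF, e.card = 2 := by
  intro e he
  simp only [FF, mem_insert, mem_singleton] at he
  rcases he with rfl | rfl | rfl | rfl | rfl | rfl | rfl | rfl <;> decide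

def Good {n : ℕ} (H : Finset (Finset (Fin n))) (c : Finset (Fin n) → Option (Fin 6)) : Prop :=
  (∀ e : Finset (Fin n), c e = none ↔ e ∉ H) ∧
    ¬ ∃ φ : Fin 12 → Fin n, Function.Injective φ ∧ (∀ e ∈ FF, e.image φ ∈ H) ∧
      (∀ e ∈ FF, ∀ e' ∈ FF, (c (e.image φ) = c (e'.image φ) ↔ pp e = pp e'))

abbrev EE (n : ℕ) : Finset (Finset (Fin n)) := powersetCard 2 univ

theorem deg_EE {n : ℕ} (z : Fin n) : ((EE n).filter (fun e => z ∈ e)).card = n - 1 := by
  have := card_filter_powersetCard_subset ({z} : Finset (Fin n)) univ 2 (subset_univ _) (by simp)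
  simp only [singleton_subset_iff, card_singleton, card_univ, Fintype.card_fin] at this
  simpa using this

theorem pair_mem {n : ℕ} {u v : Fin n} (h : u ≠ v) : ({u, v} : Finset (Fin n)) ∈ EE n :=
  mem_powersetCard.2 ⟨subset_univ _, card_pair h⟩

def colOf {n : ℕ} (c : Finset (Fin n) → Option (Fin 6)) (u v : Fin n) : Fin 6 := (c {u, v}).getD 0

theorem colOf_spec {n : ℕ} {c : Finset (Fin n) → Option (Fin 6)} (hc : Good (EE n) c) {u v : Fin n}
    (h : u ≠ v) : c {u, v} = some (colOf c u v) := by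
  have := (hc.1 {u, v}).not.2 (not_not.2 (pair_mem h))
  unfold colOf
  cases h2 : c {u, v} with
  | none => exact (this h2).elim
  | some a => rfl

theorem noCopy {n : ℕ} {c : Finset (Fin n) → Option (Fin 6)} (hc : Good (EE n) c) :
    NoCopy (colOf c) := by
  intro φ hφ α β γ h1 h2 h3 a1 a2 a3 a4 a5 a6 a7 a8
  refine hc.2 ⟨φ, hφ, fun e he => mem_powersetCard.2 ⟨subset_univ _, ?_⟩, ?_⟩
  · rw [card_image_of_injective _ hφ]
    exact FF_card e he
  · have key : ∀ e ∈ FF, c (e.image φ) = some (![α, β, γ] (pp e)) := by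
      intro e he
      simp only [FF, mem_insert, mem_singleton] at he
      rcases he with rfl | rfl | rfl | rfl | rfl | rfl | rfl | rfl <;>
        rw [image_insert, image_singleton, colOf_spec hc (hφ.ne (by decide))]
      · rw [a1]; rfl
      · rw [a2]; rfl
      · rw [a3]; rfl
      · rw [a4]; rfl
      · rw [a5]; rfl
      · rw [a6]; rfl
      · rw [a7]; rfl
      · rw [a8]; rfl
    have inj : Function.Injective ![α, β, γ] := by
      rw [← List.nodup_ofFn]; simp [h1, h2, h3]
    intro e he e' he'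
    rw [key e he, key e' he', Option.some_inj, inj.eq_iff]

open Classical in
noncomputable def LL {n : ℕ} (a b : Fin 6) (T : Finset (Fin n × Finset (Fin 6))) (E0 : Finset (Fin n × Fin n))
    (e : Finset (Fin n)) : Finset (Option (Fin 6)) :=
  if e ∈ EE n then
    (if e ∈ E0.image (fun q => ({q.1, q.2} : Finset (Fin n))) then univ.image some else
      (univ.filter (fun κ => (∀ t ∈ T, t.1 ∈ e → κ ∈ t.2) ∧
        ((∀ t ∈ T, t.1 ∉ e) → κ = a ∨ κ = b))).image some)
  else {none}

def Valid {n : ℕ} (T : Finset (Fin n × Finset (Fin 6))) (E0 : Finset (Fin n × Fin n)) : Prop :=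
  ∑ t ∈ T, wz t.2 ≤ T.card + 1 ∧ ∀ e, e ∉ E0.image (fun q => ({q.1, q.2} : Finset (Fin n))) →
    e ∈ EE n → (T.filter (fun t => t.1 ∈ e)).card ≤ 1

theorem box_bound {n : ℕ} (hn : 1 ≤ n) (a b : Fin 6) (T : Finset (Fin n × Finset (Fin 6)))
    (E0 : Finset (Fin n × Fin n)) (K : ℕ) (hT : T.card ≤ 300) (hE : E0.card ≤ K) (hV : Valid T E0) :
    ((Fintype.piFinset (LL a b T E0)).card : ℝ) ≤ (2 : ℝ) ^ (((EE n).card : ℝ) + n + 302 * K) := by
  classical
  set E1 := E0.image (fun q => ({q.1, q.2} : Finset (Fin n))) with hE1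
  set w : Finset (Fin n) → ℝ := fun e => 1 + ∑ t ∈ T, (if t.1 ∈ e then ((wz t.2 : ℝ) - 1) else 0) +
    (if e ∈ E1 then 302 else 0) with hw
  rw [Fintype.card_piFinset, Nat.cast_prod, ← prod_subset (subset_univ (EE n))
    (fun e _ he => by simp [LL, he])]
  calc _ ≤ ∏ e ∈ EE n, (2 : ℝ) ^ w e := by
        refine prod_le_prod (fun _ _ => by positivity) (fun e he => ?_)
        unfold LL
        rw [if_pos he]
        by_cases h1 : e ∈ E1
        · rw [if_pos h1, card_image_of_injective _ (Option.some_injective (Fin 6))]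
          have h2 : (-300 : ℝ) ≤ ∑ t ∈ T, (if t.1 ∈ e then ((wz t.2 : ℝ) - 1) else 0) := by
            have h3 := card_nsmul_le_sum T (fun t => if t.1 ∈ e then ((wz t.2 : ℝ) - 1) else 0) (-1)
              (fun t _ => by
                have : (0 : ℝ) ≤ wz t.2 := by positivity
                split_ifs <;> linarith)
            have h4 : (T.card : ℝ) ≤ 300 := by exact_mod_cast hT
            simp only [nsmul_eq_mul] at h3
            linarith
          have h3 : (3 : ℝ) ≤ w e := by simp only [hw, if_pos h1]; linarith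
          calc _ ≤ (2 : ℝ) ^ (3 : ℝ) := by simp; norm_num
            _ ≤ _ := Real.rpow_le_rpow_of_exponent_le (by norm_num) h3
        · rw [if_neg h1, card_image_of_injective _ (Option.some_injective (Fin 6))]
          simp only [hw, if_neg h1, add_zero]
          rw [← sum_filter]
          rcases Nat.le_one_iff_eq_zero_or_eq_one.1 (hV.2 e h1 he) with h2 | h2
          · rw [card_eq_zero] at h2
            rw [h2, sum_empty, add_zero, Real.rpow_one]
            have : (univ.filter (fun κ => (∀ t ∈ T, t.1 ∈ e → κ ∈ t.2) ∧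
                ((∀ t ∈ T, t.1 ∉ e) → κ = a ∨ κ = b))) ⊆ {a, b} := by
              intro κ hκ
              have := (mem_filter.1 hκ).2.2 (fun t ht => filter_eq_empty_iff.1 h2 ht)
              simpa using this
            exact_mod_cast (card_le_card this).trans card_le_two
          · obtain ⟨t, ht⟩ := card_eq_one.1 h2
            have ht' : t ∈ T.filter (fun t => t.1 ∈ e) := by rw [ht]; simp
            rw [ht, sum_singleton, add_sub_cancel, Real.rpow_natCast]
            have : (univ.filter (fun κ => (∀ t ∈ T, t.1 ∈ e → κ ∈ t.2) ∧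
                ((∀ t ∈ T, t.1 ∉ e) → κ = a ∨ κ = b))) ⊆ t.2 := fun κ hκ =>
              (mem_filter.1 hκ).2.1 t (mem_filter.1 ht').1 (mem_filter.1 ht').2
            exact_mod_cast (card_le_card this).trans (card_le_wz _)
    _ = (2 : ℝ) ^ ∑ e ∈ EE n, w e := (Real.rpow_sum_of_pos (by norm_num) _ _).symm
    _ ≤ _ := by
        refine Real.rpow_le_rpow_of_exponent_le (by norm_num) ?_
        simp only [hw, sum_add_distrib]
        have h1 : ∑ e ∈ EE n, ∑ t ∈ T, (if t.1 ∈ e then ((wz t.2 : ℝ) - 1) else 0) ≤ n := by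
          rw [sum_comm]
          have : ∀ t ∈ T, ∑ e ∈ EE n, (if t.1 ∈ e then ((wz t.2 : ℝ) - 1) else 0) =
              ((n - 1 : ℕ) : ℝ) * ((wz t.2 : ℝ) - 1) := by
            intro t _
            rw [← sum_filter, sum_const, deg_EE, nsmul_eq_mul]
          rw [sum_congr rfl this, ← mul_sum, sum_sub_distrib]
          have h2 : ((∑ t ∈ T, wz t.2 : ℕ) : ℝ) ≤ (T.card + 1 : ℕ) := by exact_mod_cast hV.1
          push_cast at h2
          have h3 : ((n - 1 : ℕ) : ℝ) ≤ n := by exact_mod_cast Nat.sub_le _ _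
          have h4 : (0 : ℝ) ≤ ((n - 1 : ℕ) : ℝ) := by positivity
          simp only [sum_const, nsmul_eq_mul, mul_one]
          nlinarith
        have h2 : ∑ e ∈ EE n, (if e ∈ E1 then (302 : ℝ) else 0) ≤ 302 * K := by
          rw [← sum_filter, sum_const, nsmul_eq_mul]
          have : ((EE n).filter (fun e => e ∈ E1)).card ≤ K :=
            (card_le_card (fun e he => (mem_filter.1 he).2)).trans (card_image_le.trans hE)
          have : (((EE n).filter (fun e => e ∈ E1)).card : ℝ) ≤ K := by exact_mod_cast this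
          linarith
        simp only [sum_const, nsmul_eq_mul, mul_one]
        linarith

theorem cover {n : ℕ} (hn : 400 ≤ n) {c : Finset (Fin n) → Option (Fin 6)} (hc : Good (EE n) c) :
    ∃ (a b : Fin 6) (T : Finset (Fin n × Finset (Fin 6))) (E0 : Finset (Fin n × Fin n)),
      T.card ≤ 300 ∧ E0.card ≤ 630000 ∧ Valid T E0 ∧ c ∈ Fintype.piFinset (LL a b T E0) := by
  classical
  have hs : ∀ u v, colOf c u v = colOf c v u := fun u v => by unfold colOf; rw [pair_comm]
  obtain ⟨a, b, W, hW, hab, hsum⟩ := struct2 hs (noCopy hc) (by simpa using hn)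
  have hinj : Function.Injective (fun z : Fin n => (z, hv (colOf c) z)) :=
    fun _ _ h => congrArg Prod.fst h
  set E0 : Finset (Fin n × Fin n) := W.biUnion (fun z => ({z} : Finset (Fin n)) ×ˢ
    (W ∪ (univ \ hv (colOf c) z).biUnion (fun α => nb (colOf c) z α))) with hE0
  have memE : ∀ z ∈ W, ∀ y, y ≠ z → ({z, y} : Finset (Fin n)) ∉
      E0.image (fun q => ({q.1, q.2} : Finset (Fin n))) → y ∉ W ∧ colOf c z y ∈ hv (colOf c) z := by
    intro z hz y hy h
    by_contra h2
    refine h (mem_image.2 ⟨(z, y), mem_biUnion.2 ⟨z, hz, mem_product.2 ⟨by simp, ?_⟩⟩, rfl⟩)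
    by_cases h3 : y ∈ W
    · exact mem_union_left _ h3
    · refine mem_union_right _ (mem_biUnion.2 ⟨colOf c z y, ?_, mem_filter.2 ⟨mem_univ _, hy, rfl⟩⟩)
      exact mem_sdiff.2 ⟨mem_univ _, fun h4 => h2 ⟨h3, h4⟩⟩
  refine ⟨a, b, W.image (fun z => (z, hv (colOf c) z)), E0, card_image_le.trans hW, ?_, ⟨?_, ?_⟩, ?_⟩
  · refine (card_biUnion_le_card_mul _ _ 2100 (fun z _ => ?_)).trans (by omega)
    rw [card_product, card_singleton, one_mul]
    refine (card_union_le _ _).trans ?_
    have h1 := card_biUnion_le_card_mul (univ \ hv (colOf c) z) (fun α => nb (colOf c) z α) 300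
      (fun α hα => by simpa [hv] using hα)
    have h2 : (univ \ hv (colOf c) z).card ≤ 6 := by simpa using card_le_univ (univ \ hv (colOf c) z)
    omega
  · rw [sum_image (fun _ _ _ _ h => hinj h), card_image_of_injective _ hinj]
    exact hsum
  · intro e he he'
    refine card_le_one.2 (fun t ht t' ht' => ?_)
    obtain ⟨z, hz, rfl⟩ := mem_image.1 (mem_filter.1 ht).1
    obtain ⟨z', hz', rfl⟩ := mem_image.1 (mem_filter.1 ht').1
    by_contra hne
    have hzz : z' ≠ z := by rintro rfl; exact hne rfl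
    have : ({z, z'} : Finset (Fin n)) = e := eq_of_subset_of_card_le
      (insert_subset (mem_filter.1 ht).2 (singleton_subset_iff.2 (mem_filter.1 ht').2))
      (by rw [(mem_powersetCard.1 he').2, card_pair hzz.symm])
    exact (memE z hz z' hzz (this ▸ he)).1 hz'
  · refine Fintype.mem_piFinset.2 (fun e => ?_)
    unfold LL
    split_ifs with h1 h2
    · obtain ⟨u, v, huv, rfl⟩ := card_eq_two.1 (mem_powersetCard.1 h1).2
      rw [colOf_spec hc huv]; simp
    · obtain ⟨u, v, huv, rfl⟩ := card_eq_two.1 (mem_powersetCard.1 h1).2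
      rw [colOf_spec hc huv]
      refine mem_image_of_mem _ (mem_filter.2 ⟨mem_univ _, fun t ht hte => ?_, fun h => ?_⟩)
      · obtain ⟨z, hz, rfl⟩ := mem_image.1 ht
        simp only [mem_insert, mem_singleton] at hte
        rcases hte with rfl | rfl
        · exact (memE z hz v huv.symm h2).2
        · rw [hs]; exact (memE z hz u huv (by rwa [pair_comm])).2
      · refine hab u v (fun hu => h _ (mem_image_of_mem _ hu) (by simp))
          (fun hu => h _ (mem_image_of_mem _ hu) (by simp)) huv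
    · simpa using (hc.1 e).2 h1

open Classical in
theorem upper : ∃ (A : ℝ) (d : ℕ), 0 < A ∧ ∀ n : ℕ, 400 ≤ n →
    ((univ.filter (fun c => Good (EE n) c)).card : ℝ) ≤ A * (n : ℝ) ^ d * 2 ^ ((EE n).card + n) := by
  obtain ⟨K, hK⟩ : ∃ K : ℕ, 630000 ≤ K := ⟨_, le_rfl⟩
  obtain ⟨J, hJ⟩ : ∃ J : ℕ, J = 300 := ⟨_, rfl⟩
  refine ⟨36 * ((J + 1) * 64 ^ J) * (K + 1) * 2 ^ (302 * K), J + 2 * K, by positivity, fun n hn => ?_⟩
  set S1 := (range (J + 1)).biUnion (fun s => powersetCard s (univ : Finset (Fin n × Finset (Fin 6))))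
  set S2 := (range (K + 1)).biUnion (fun s => powersetCard s (univ : Finset (Fin n × Fin n)))
  have c1 : S1.card ≤ (J + 1) * (n * 64) ^ J := by
    have := Pool.Agent.H15.Codeg.small_subsets (W := Fin n × Finset (Fin 6)) J (by simp; omega)
    simpa using this
  have c2 : S2.card ≤ (K + 1) * (n * n) ^ K := by
    have := Pool.Agent.H15.Codeg.small_subsets (W := Fin n × Fin n) K (by
      simp only [Fintype.card_prod, Fintype.card_fin]; nlinarith)
    simpa using this
  set P := (((univ : Finset (Fin 6 × Fin 6)) ×ˢ S1 ×ˢ S2).filter (fun q => Valid q.2.1 q.2.2))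
  have hsub : univ.filter (fun c => Good (EE n) c) ⊆
      P.biUnion (fun q => Fintype.piFinset (LL q.1.1 q.1.2 q.2.1 q.2.2)) := by
    intro c hc
    obtain ⟨a, b, T, E0, h1, h2, h3, h4⟩ := cover hn (mem_filter.1 hc).2
    refine mem_biUnion.2 ⟨((a, b), T, E0), mem_filter.2 ⟨mem_product.2 ⟨mem_univ _,
      mem_product.2 ⟨?_, ?_⟩⟩, h3⟩, h4⟩
    · exact mem_biUnion.2 ⟨T.card, mem_range.2 (by omega), mem_powersetCard.2 ⟨subset_univ _, rfl⟩⟩
    · exact mem_biUnion.2 ⟨E0.card, mem_range.2 (by omega), mem_powersetCard.2 ⟨subset_univ _, rfl⟩⟩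
  have h1 : ((univ.filter (fun c => Good (EE n) c)).card : ℝ) ≤
      ∑ q ∈ P, ((Fintype.piFinset (LL q.1.1 q.1.2 q.2.1 q.2.2)).card : ℝ) := by
    exact_mod_cast (card_le_card hsub).trans card_biUnion_le
  have h2 := sum_le_card_nsmul P (fun q => ((Fintype.piFinset (LL q.1.1 q.1.2 q.2.1 q.2.2)).card : ℝ))
    ((2 : ℝ) ^ (((EE n).card : ℝ) + n + 302 * K)) (fun q hq => by
      obtain ⟨h3, h4⟩ := mem_filter.1 hq
      obtain ⟨h5, h6⟩ := mem_product.1 (mem_product.1 h3).2
      obtain ⟨s, hs, h7⟩ := mem_biUnion.1 h5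
      obtain ⟨s', hs', h8⟩ := mem_biUnion.1 h6
      have := (mem_powersetCard.1 h7).2
      have := (mem_powersetCard.1 h8).2
      have := mem_range.1 hs
      have := mem_range.1 hs'
      exact box_bound (by omega) _ _ _ _ K (by omega) (by omega) h4)
  have h3 : P.card ≤ 36 * (((J + 1) * (n * 64) ^ J) * ((K + 1) * (n * n) ^ K)) := by
    refine (card_filter_le _ _).trans ?_
    rw [card_product, card_product]
    exact Nat.mul_le_mul (by simp) (Nat.mul_le_mul c1 c2)
  have h4 : (P.card : ℝ) ≤ 36 * (((J + 1) * (n * 64) ^ J) * ((K + 1) * (n * n) ^ K)) := by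
    exact_mod_cast h3
  have h5 : (2 : ℝ) ^ (((EE n).card : ℝ) + n + 302 * K) = 2 ^ ((EE n).card + n) * 2 ^ (302 * K) := by
    rw [← pow_add, ← Real.rpow_natCast]; push_cast; rfl
  rw [nsmul_eq_mul, h5] at h2
  refine h1.trans (h2.trans ?_)
  calc _ ≤ 36 * (((J + 1) * ((n : ℝ) * 64) ^ J) * ((K + 1) * (n * n) ^ K)) *
        (2 ^ ((EE n).card + n) * 2 ^ (302 * K)) := by gcongr
    _ = _ := by rw [mul_pow, mul_pow, pow_add (n : ℝ), two_mul K, pow_add (n : ℝ)]; ring

end Pool.Agent.H15.Pat
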