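import Mathlib

set_option autoImplicit false

namespace Pool.Agent.H15.PiB

open Set

inductive Nd : Type
  | mk (tag : ℝ) (n : ℕ) (par : Fin n → Nd) (pr : Prop) (lb : pr → ℕ → Bool → Nd) : Nd

abbrev Lab := ℕ → Bool → Nd

def slow : Nd → Set Nd
  | .mk _ _ par _ _ => ⋃ i, insert (par i) (slow (par i))

def ht : Nd → ℕ
  | .mk _ _ par _ _ => (Finset.univ.sup fun i => ht (par i)) + 1

def tg : Nd → ℝ
  | .mk t _ _ _ _ => t

def HasLab : Nd → Lab → Prop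
  | .mk _ _ _ pr lb, A => ∃ h : pr, lb h = A

theorem slow_fin (s : Nd) : (slow s).Finite := by
  induction s with
  | mk t n par pr lb ih _ => exact finite_iUnion fun i => (ih i).insert _

theorem slow_trans (s : Nd) : ∀ u ∈ slow s, slow u ⊆ slow s := by
  induction s with
  | mk t n par pr lb ih _ =>
    intro u hu
    obtain ⟨i, hi⟩ := mem_iUnion.1 hu
    intro w hw
    refine mem_iUnion.2 ⟨i, Or.inr ?_⟩
    rcases hi with rfl | hi
    exacts [hw, ih i u hi hw]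

theorem ht_lt (s : Nd) : ∀ u ∈ slow s, ht u < ht s := by
  induction s with
  | mk t n par pr lb ih _ =>
    intro u hu
    obtain ⟨i, hi⟩ := mem_iUnion.1 hu
    have h1 : ht (par i) ≤ Finset.univ.sup fun i => ht (par i) :=
      Finset.le_sup (f := fun i => ht (par i)) (Finset.mem_univ i)
    have h2 : ht u ≤ ht (par i) := by
      rcases hi with rfl | hi
      exacts [le_rfl, (ih i u hi).le]
    show _ < _ + 1
    omega

instance : PartialOrder Nd where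
  le u s := u = s ∨ u ∈ slow s
  le_refl _ := Or.inl rfl
  le_trans a b c h1 h2 := by
    rcases h1 with rfl | h1
    · exact h2
    · rcases h2 with rfl | h2
      exacts [Or.inr h1, Or.inr (slow_trans _ _ h2 h1)]
  le_antisymm a b h1 h2 := by
    rcases h1 with rfl | h1
    · rfl
    · rcases h2 with rfl | h2
      · rfl
      · exact absurd (ht_lt _ _ h1) (ht_lt _ _ h2).le.not_gt

theorem Iio_eq (s : Nd) : Iio s = slow s := by
  ext u
  rw [mem_Iio, lt_iff_le_and_ne]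
  constructor
  · rintro ⟨h | h, h'⟩
    exacts [absurd h h', h]
  · intro h
    exact ⟨Or.inr h, fun h' => absurd (ht_lt _ _ h) (h' ▸ lt_irrefl _)⟩

theorem Iic_fin (s : Nd) : (Iic s).Finite := by
  rw [← Iio_insert, Iio_eq]
  exact (slow_fin s).insert _

noncomputable def lev (s : Nd) : ℕ := (Iic s).ncard

theorem lev_mono : StrictMono lev := fun _ b h =>
  ncard_lt_ncard (Iic_ssubset_Iic.2 h) (Iic_fin b)

theorem lab_unique {r : Nd} {A A' : Lab} (h : HasLab r A) (h' : HasLab r A') : A = A' := by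
  cases r with
  | mk t n par pr lb =>
    obtain ⟨_, rfl⟩ := h
    obtain ⟨_, rfl⟩ := h'
    rfl

theorem exists_node {S : Set Nd} (h1 : S.Finite) (h2 : IsLowerSet S) (t : ℝ) {E : Set Lab}
    (hE : E.Subsingleton) : ∃ s, Iio s = S ∧ tg s = t ∧ ∀ A, HasLab s A ↔ A ∈ E := by
  obtain ⟨n, f, -, hf⟩ := h1.fin_param
  refine ⟨.mk t n f E.Nonempty fun h => h.some, ?_, rfl, fun A => ⟨?_, fun h => ?_⟩⟩
  · rw [Iio_eq]
    ext u
    simp only [slow, mem_iUnion]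
    constructor
    · rintro ⟨i, rfl | hi⟩
      · exact hf ▸ mem_range_self i
      · exact h2 (show u ≤ f i from Or.inr hi) (hf ▸ mem_range_self i)
    · intro hu
      obtain ⟨i, rfl⟩ : u ∈ range f := hf ▸ hu
      exact ⟨i, Or.inl rfl⟩
  · rintro ⟨h, rfl⟩
    exact h.some_mem
  · exact ⟨⟨A, h⟩, hE (Nonempty.some_mem _) h⟩

def Rt (A : Lab) : Set Nd := {u | ∀ k, u ≤ A k true}

def Cl (v w : Nd) : Prop := v ≤ w ∧ IsChain (· ≤ ·) (Icc v w)

def Dom (S T : Set Nd) (v : Nd) : Prop := ∀ w ∈ S, Cl v w → ∃ w' ∈ T, Cl v w' ∧ lev w ≤ lev w'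

theorem Dom.trans {S T U : Set Nd} {v : Nd} (h : Dom S T v) (h' : Dom T U v) : Dom S U v := by
  intro w hw hc
  obtain ⟨w1, a1, a2, a3⟩ := h w hw hc
  obtain ⟨w2, b1, b2, b3⟩ := h' w1 a1 a2
  exact ⟨w2, b1, b2, a3.trans b3⟩

theorem Dom.of_sub {S T : Set Nd} (h : S ⊆ T) (v : Nd) : Dom S T v :=
  fun w hw hc => ⟨w, h hw, hc, le_rfl⟩

theorem Cl.mono {v w w' : Nd} (h : Cl v w) (h1 : v ≤ w') (h2 : w' ≤ w) : Cl v w' :=
  ⟨h1, h.2.mono (Icc_subset_Icc_right h2)⟩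

def Via (Λ : Set Lab) (b : Nd) : Prop := ∀ A ∈ Λ, b ∉ Rt A

def Labs (S : Set Nd) : Set Lab := {A | ∃ r ∈ S, HasLab r A}

theorem Labs_fin {S : Set Nd} (h : S.Finite) : (Labs S).Finite := by
  have : Labs S = ⋃ r ∈ S, {A | HasLab r A} := by
    ext A
    simp [Labs]
  rw [this]
  exact h.biUnion fun r _ => Set.Subsingleton.finite fun A h A' h' => lab_unique h h'

structure Val (A : Lab) : Prop where
  le : ∀ k, A k false ≤ A k true
  delta : ∀ k k', k ≠ k' → ∀ u, u ≤ A k true → u ≤ A k' true → u ∈ Rt A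
  nb : ∀ k, A k false ∉ Rt A
  unif : ∀ v ∈ Rt A, ∀ k k', Dom (Iic (A k true)) (Iic (A k' true)) v
  via : ∀ k, Via (Labs (Iic (A k true))) (A k false)

structure Prot (S : Set Nd) (Λ : Set Lab) (b q : Nd) : Prop where
  mem : q ∈ S
  cl : ∀ u ∈ S, b ≤ u → u ≤ q
  via : Via Λ b
  tight : ∀ v ≤ q, Dom S (Iic q) v

def Ful (S : Set Nd) (Λ : Set Lab) (A : Lab) : Prop :=
  ∃ k, k ≠ 0 ∧ Prot S Λ (A k false) (A k true)

def Seal (S : Set Nd) (A : Lab) : Prop := ∀ v ∈ Rt A, Dom S (Iic (A 0 true)) v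

inductive Good : Nd → Prop
  | mk (s : Nd) (h1 : ∀ u, u < s → Good u) (h2 : ∀ A k, HasLab s A → Good (A k true))
      (h3 : ∀ A, HasLab s A → Val A ∧ A 0 true < s)
      (h4 : ∀ A ∈ Labs (Iic s), Seal (Iio s) A ∧ Ful (Iio s) (Labs (Iic s)) A) : Good s

theorem Good.low {s u : Nd} (h : Good s) (hu : u ≤ s) : Good u := by
  rcases hu.eq_or_lt with rfl | hu
  · exact h
  · cases h with
    | mk _ h1 _ _ _ => exact h1 u hu

theorem Good.lab {s : Nd} (h : Good s) {A : Lab} (hA : HasLab s A) :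
    Val A ∧ (∀ k, Good (A k true)) ∧ A 0 true < s := by
  cases h with
  | mk _ _ h2 h3 _ => exact ⟨(h3 A hA).1, fun k => h2 A k hA, (h3 A hA).2⟩

theorem Good.ful {s : Nd} (h : Good s) {A : Lab} (hA : A ∈ Labs (Iic s)) :
    Seal (Iio s) A ∧ Ful (Iio s) (Labs (Iic s)) A := by
  cases h with
  | mk _ _ _ _ h4 => exact h4 A hA

theorem Good.seal {s : Nd} (h : Good s) {A : Lab} (hA : A ∈ Labs (Iic s)) : Seal (Iic s) A := by
  obtain ⟨h1, k, hk, h2⟩ := h.ful hA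
  obtain ⟨r, hr, hA'⟩ := hA
  obtain ⟨h3, -, h4⟩ := (h.low hr).lab hA'
  intro v hv w hw hc
  rcases (mem_Iic.1 hw).eq_or_lt with rfl | hw
  · exfalso
    rcases hc.2.total (x := A 0 true) (y := A k true) ⟨hv 0, h4.le.trans hr⟩
      ⟨hv k, le_of_lt h2.mem⟩ with h5 | h5
    · exact h3.nb 0 (h3.delta 0 k hk.symm _ (h3.le 0) ((h3.le 0).trans h5))
    · exact h3.nb k (h3.delta k 0 hk _ (h3.le k) ((h3.le k).trans h5))
  · exact h1 v hv w hw hc

structure Coh (E : Set Lab) (S : Set Nd) : Prop where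
  fin : S.Finite
  lower : IsLowerSet S
  good : ∀ u ∈ S, Good u
  act : ∀ A ∈ E ∪ Labs S, Val A ∧ (∀ k, Good (A k true)) ∧ A 0 true ∈ S ∧ Seal S A

structure Cons (E : Set Lab) (S S' : Set Nd) : Prop where
  sub : S ⊆ S'
  dom : ∀ v ∈ S, Dom S' S v
  up : ∀ b ∈ S, ∀ u ∈ S', u ∉ S → b ≤ u → ∃ A ∈ E ∪ Labs S, b ∈ Rt A

theorem Cons.act {E : Set Lab} {S S' : Set Nd} (h : Cons E S S') (h' : Coh E S') {b : Nd}
    (hb : b ∈ S) {A : Lab} (hA : A ∈ E ∪ Labs S') (hbA : b ∈ Rt A) :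
    ∃ A ∈ E ∪ Labs S, b ∈ Rt A := by
  rcases hA with hA | ⟨r, hr, hA⟩
  · exact ⟨A, Or.inl hA, hbA⟩
  · by_cases hrS : r ∈ S
    · exact ⟨A, Or.inr ⟨r, hrS, hA⟩, hbA⟩
    · exact h.up b hb r hr hrS ((hbA 0).trans ((h'.good r hr).lab hA).2.2.le)

theorem Cons.trans {E : Set Lab} {S S' S'' : Set Nd} (h : Cons E S S') (h' : Cons E S' S'')
    (hc : Coh E S') : Cons E S S'' := by
  refine ⟨h.sub.trans h'.sub, fun v hv => (h'.dom v (h.sub hv)).trans (h.dom v hv),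
    fun b hb u hu hu' hbu => ?_⟩
  by_cases h1 : u ∈ S'
  · exact h.up b hb u h1 hu' hbu
  · obtain ⟨A, hA, h2⟩ := h'.up b (h.sub hb) u hu h1 hbu
    exact h.act hc hb hA h2

theorem Prot.ext {E : Set Lab} {S S' : Set Nd} (hS : Coh E S) (hS' : Coh E S') (h : Cons E S S')
    {b q : Nd} (hb : b ≤ q) (hp : Prot S (E ∪ Labs S) b q) : Prot S' (E ∪ Labs S') b q := by
  have hbS : b ∈ S := hS.lower hb hp.mem
  refine ⟨h.sub hp.mem, fun u hu hbu => ?_, fun A hA hbA => ?_,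
    fun v hv => (h.dom v (hS.lower hv hp.mem)).trans (hp.tight v hv)⟩
  · by_cases h1 : u ∈ S
    · exact hp.cl u h1 hbu
    · obtain ⟨A, hA, h2⟩ := h.up b hbS u hu h1 hbu
      exact absurd h2 (hp.via A hA)
  · obtain ⟨A', hA', h2⟩ := h.act hS' hbS hA hbA
    exact hp.via A' hA' h2

theorem act_mono {E : Set Lab} {S S' : Set Nd} (h : S ⊆ S') : E ∪ Labs S ⊆ E ∪ Labs S' :=
  union_subset_union_right _ fun _ ⟨r, hr, hA⟩ => ⟨r, h hr, hA⟩

theorem Ful.ext {E : Set Lab} {S S' : Set Nd} (hS : Coh E S) (hS' : Coh E S') (h : Cons E S S')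
    {A : Lab} (hA : A ∈ E ∪ Labs S) (hp : Ful S (E ∪ Labs S) A) : Ful S' (E ∪ Labs S') A := by
  obtain ⟨k, hk, hp⟩ := hp
  exact ⟨k, hk, hp.ext hS hS' h ((hS.act A hA).1.le k)⟩

theorem step {E : Set Lab} {S Z : Set Nd} (hS : Coh E S) (hZ : Z.Finite) {A : Lab}
    (hA : A ∈ E ∪ Labs S) : ∃ k, Coh E (S ∪ Iic (A k true)) ∧ Cons E S (S ∪ Iic (A k true)) ∧
      Ful (S ∪ Iic (A k true)) (E ∪ Labs (S ∪ Iic (A k true))) A ∧
      ∀ u ∈ S ∪ Iic (A k true), u ∉ S → u ∉ Z := by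
  obtain ⟨hV, hG, h0, hs⟩ := hS.act A hA
  have hRS : Rt A ⊆ S := fun u hu => hS.lower (hu 0) h0
  obtain ⟨k, hk⟩ : ∃ k, ∀ u ∈ S ∪ Z, u ≤ A k true → u ∈ Rt A := by
    have : (⋃ u ∈ S ∪ Z, {k | u ≤ A k true ∧ u ∉ Rt A}).Finite :=
      (hS.fin.union hZ).biUnion fun u _ => Set.Subsingleton.finite fun k h k' h' => by
        by_contra hk
        exact h.2 (hV.delta k k' hk u h.1 h'.1)
    obtain ⟨k, hk⟩ := this.infinite_compl.nonempty
    refine ⟨k, fun u hu h => ?_⟩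
    by_contra h'
    exact hk (mem_biUnion hu ⟨h, h'⟩)
  have hb : A k false ∉ S := fun h => hV.nb k (hk _ (Or.inl h) (hV.le k))
  have d1 : ∀ v ∈ S, Dom (S ∪ Iic (A k true)) S v := by
    rintro v hv w (hw | hw) hc
    · exact ⟨w, hw, hc, le_rfl⟩
    · exact ((hV.unif v (hk v (Or.inl hv) (hc.1.trans hw)) k 0).trans
        (Dom.of_sub (fun u hu => hS.lower hu h0) v)) w hw hc
  have d2 : ∀ v ≤ A k true, Dom (S ∪ Iic (A k true)) (Iic (A k true)) v := by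
    rintro v hv w (hw | hw) hc
    · have h1 := hk v (Or.inl (hS.lower hc.1 hw)) hv
      exact ((hs v h1).trans (hV.unif v h1 0 k)) w hw hc
    · exact ⟨w, hw, hc, le_rfl⟩
  have sp : ∀ A' ∈ E ∪ Labs (S ∪ Iic (A k true)), A' ∈ E ∪ Labs S ∨ A' ∈ Labs (Iic (A k true)) := by
    rintro A' (h | ⟨r, h | h, h'⟩)
    exacts [Or.inl (Or.inl h), Or.inl (Or.inr ⟨r, h, h'⟩), Or.inr ⟨r, h, h'⟩]
  refine ⟨k, ⟨hS.fin.union (Iic_fin _), hS.lower.union (isLowerSet_Iic _), ?_, fun A' hA' => ?_⟩,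
    ⟨subset_union_left, d1, ?_⟩, ⟨k, ?_, Or.inr self_mem_Iic, ?_, fun A' hA' h => ?_, d2⟩, ?_⟩
  · rintro u (hu | hu)
    exacts [hS.good u hu, (hG k).low hu]
  · rcases sp A' hA' with h | h
    · obtain ⟨a1, a2, a3, a4⟩ := hS.act A' h
      exact ⟨a1, a2, Or.inl a3, fun v hv => (d1 v (hS.lower (hv 0) a3)).trans (a4 v hv)⟩
    · obtain ⟨r, hr, h'⟩ := id h
      obtain ⟨a1, a2, a3⟩ := ((hG k).low hr).lab h'
      exact ⟨a1, a2, Or.inr (a3.le.trans hr),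
        fun v hv => (d2 v ((hv 0).trans (a3.le.trans hr))).trans ((hG k).seal h v hv)⟩
  · rintro b hb' u (hu | hu) hu' hbu
    exacts [absurd hu hu', ⟨A, hA, hk b (Or.inl hb') (hbu.trans hu)⟩]
  · rintro rfl
    exact hb (hS.lower (hV.le 0) h0)
  · rintro u (hu | hu) hbu
    exacts [absurd (hS.lower hbu hu) hb, hu]
  · rcases sp A' hA' with h' | h'
    · exact hb (hS.lower (h 0) (hS.act A' h').2.2.1)
    · exact hV.via k A' h' h
  · rintro u (hu | hu) hu' hZ'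
    exacts [hu' hu, hu' (hRS (hk u (Or.inr hZ') hu))]

structure Out (E : Set Lab) (Z S S' : Set Nd) : Prop where
  coh : Coh E S'
  cons : Cons E S S'
  av : ∀ u ∈ S', u ∉ S → u ∉ Z
  ful : ∀ r ∈ S', r ∉ S → ∀ A, HasLab r A → Ful S' (E ∪ Labs S') A

def PP (E : Set Lab) (Z : Set Nd) (A : Lab) : Prop :=
  ∀ S, Coh E S → A ∈ E ∪ Labs S → ∃ S', Out E Z S S' ∧ Ful S' (E ∪ Labs S') A

theorem QQ {E : Set Lab} {Z : Set Nd} {F : Set Lab} (hF : F.Finite) : (∀ A ∈ F, PP E Z A) →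
    ∀ S, Coh E S → F ⊆ E ∪ Labs S → ∃ S', Out E Z S S' ∧ ∀ A ∈ F, Ful S' (E ∪ Labs S') A := by
  induction F, hF using Set.Finite.induction_on with
  | empty =>
    exact fun _ S hS _ => ⟨S, ⟨hS, ⟨subset_rfl, fun v _ => Dom.of_sub subset_rfl v,
      fun _ _ u h h' => absurd h h'⟩, fun u h h' => absurd h h', fun u h h' => absurd h h'⟩,
      fun _ h => h.elim⟩
  | @insert A F _ _ ih =>
    intro h S hS hF
    obtain ⟨S1, o1, f1⟩ := h A (mem_insert _ _) S hS (hF (mem_insert _ _))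
    obtain ⟨S2, o2, f2⟩ := ih (fun A' h' => h A' (Or.inr h')) S1 o1.coh
      (fun A' h' => act_mono o1.cons.sub (hF (Or.inr h')))
    refine ⟨S2, ⟨o2.coh, o1.cons.trans o2.cons o1.coh, fun u hu hu' => ?_,
      fun r hr hr' A' hA' => ?_⟩, ?_⟩
    · by_cases h1 : u ∈ S1
      exacts [o1.av u h1 hu', o2.av u hu h1]
    · by_cases h1 : r ∈ S1
      exacts [(o1.ful r h1 hr' A' hA').ext o1.coh o2.coh o2.cons (Or.inr ⟨r, h1, hA'⟩),
        o2.ful r hr h1 A' hA']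
    · rintro A' (rfl | h')
      exacts [f1.ext o1.coh o2.coh o2.cons (act_mono o1.cons.sub (hF (mem_insert _ _))), f2 A' h']

theorem PP_of {E : Set Lab} {Z : Set Nd} (hZ : Z.Finite) {A : Lab}
    (h : ∀ k, ∀ A' ∈ Labs (Iic (A k true)), PP E Z A') : PP E Z A := by
  intro S hS hA
  obtain ⟨k, a1, a2, a3, a4⟩ := step hS hZ hA
  obtain ⟨S2, o2, f2⟩ := QQ (Labs_fin (Iic_fin _)) (h k) _ a1
    fun A' ⟨r, hr, h'⟩ => Or.inr ⟨r, Or.inr hr, h'⟩
  refine ⟨S2, ⟨o2.coh, a2.trans o2.cons a1, fun u hu hu' => ?_, fun r hr hr' A' hA' => ?_⟩,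
    a3.ext a1 o2.coh o2.cons (act_mono subset_union_left hA)⟩
  · by_cases h1 : u ∈ S ∪ Iic (A k true)
    exacts [a4 u h1 hu', o2.av u hu h1]
  · by_cases h1 : r ∈ S ∪ Iic (A k true)
    exacts [f2 A' ⟨r, h1.resolve_left hr', hA'⟩, o2.ful r hr h1 A' hA']

theorem PP_all {E : Set Lab} {Z : Set Nd} (hZ : Z.Finite) (A : Lab) : PP E Z A := by
  have : ∀ t : Nd, ∀ A' ∈ Labs (Iic t), PP E Z A' := by
    intro t
    induction t with
    | mk t n par pr lb ih1 ih2 =>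
      rintro A' ⟨r, rfl | hr, h⟩
      · obtain ⟨h, rfl⟩ := h
        exact PP_of hZ fun k => ih2 h k true
      · obtain ⟨i, hi⟩ := mem_iUnion.1 hr
        exact ih1 i A' ⟨r, hi, h⟩
  exact PP_of hZ fun k => this _

theorem build {E : Set Lab} (hE : E.Subsingleton) {S : Set Nd} (hS : Coh E S) {z : Nd}
    (hz : z ∉ S) : ∃ s, Good s ∧ ¬ z ≤ s ∧ (∀ A, HasLab s A ↔ A ∈ E) ∧
      ∀ b q, b ≤ q → Prot S (E ∪ Labs S) b q → Prot (Iio s) (Labs (Iic s)) b q := by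
  obtain ⟨S', o, f⟩ := QQ (Z := {z}) (hE.finite.union (Labs_fin hS.fin))
    (fun A _ => PP_all (finite_singleton z) A) S hS subset_rfl
  obtain ⟨s, h1, h2, h3⟩ := exists_node o.coh.fin o.coh.lower (tg z + 1) hE
  have h4 : Labs (Iic s) = E ∪ Labs S' := by
    ext A
    constructor
    · rintro ⟨r, hr, h⟩
      rcases (mem_Iic.1 hr).eq_or_lt with rfl | hr
      exacts [Or.inl ((h3 A).1 h), Or.inr ⟨r, h1 ▸ hr, h⟩]
    · rintro (h | ⟨r, hr, h⟩)
      exacts [⟨s, self_mem_Iic, (h3 A).2 h⟩, ⟨r, Iio_subset_Iic_self (h1.symm ▸ hr), h⟩]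
  refine ⟨s, Good.mk s (fun u hu => o.coh.good u (h1 ▸ hu))
    (fun A k h => (o.coh.act A (Or.inl ((h3 A).1 h))).2.1 k) (fun A h => ?_) (fun A hA => ?_),
    fun h => ?_, h3, fun b q hb hp => ?_⟩
  · obtain ⟨a1, -, a2, -⟩ := o.coh.act A (Or.inl ((h3 A).1 h))
    exact ⟨a1, show _ ∈ Iio s from h1 ▸ a2⟩
  · rw [h1, h4] at *
    refine ⟨(o.coh.act A hA).2.2.2, ?_⟩
    rcases hA with hA | ⟨r, hr, hA⟩
    · exact f A (Or.inl hA)
    · by_cases h5 : r ∈ S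
      exacts [f A (Or.inr ⟨r, h5, hA⟩), o.ful r hr h5 A hA]
  · rcases h.eq_or_lt with rfl | h
    · simp at h2
    · exact o.av z (h1 ▸ h) hz rfl
  · rw [h1, h4]
    exact hp.ext hS o.coh o.cons hb

theorem coh_Iic {p : Nd} (hp : Good p) {E : Set Lab}
    (hE : ∀ A ∈ E, Val A ∧ (∀ k, Good (A k true)) ∧ A 0 true = p) : Coh E (Iic p) := by
  refine ⟨Iic_fin p, isLowerSet_Iic p, fun u hu => hp.low hu, ?_⟩
  rintro A (hA | hA)
  · obtain ⟨a1, a2, a3⟩ := hE A hA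
    exact ⟨a1, a2, a3.le, fun v _ => Dom.of_sub (by rw [a3]) v⟩
  · obtain ⟨r, hr, h'⟩ := id hA
    obtain ⟨a1, a2, a3⟩ := (hp.low hr).lab h'
    exact ⟨a1, a2, a3.le.trans hr, hp.seal hA⟩

end Pool.Agent.H15.PiB
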