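import Mathlib
import Pool.Agent.H15.PiB1

set_option autoImplicit false

namespace Pool.Agent.H15.PiB

open Set Filter Topology TopologicalSpace

def Ext (b q s : Nd) : Prop := Prot (Iio s) (Labs (Iic s)) b q

def St (b q : Nd) : Prop := Good q ∧ b ≤ q ∧ Via (Labs (Iic q)) b

theorem St.refl {b : Nd} (h : Good b) : St b b := by
  refine ⟨h, le_rfl, ?_⟩
  rintro A ⟨r, hr, hA⟩ hb
  exact lt_irrefl _ ((hb 0).trans_lt (((h.low hr).lab hA).2.2.trans_le hr))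

theorem St.next {b q s : Nd} (h : St b q) (hs : Good s) (he : Ext b q s) : St b s :=
  ⟨hs, h.2.1.trans (le_of_lt he.mem), he.via⟩

theorem succ {b q z : Nd} (h : St b q) (hz : ¬ z ≤ q) : ∃ s, Good s ∧ ¬ z ≤ s ∧ Ext b q s := by
  obtain ⟨s, a1, a2, -, a3⟩ := build subsingleton_empty
    (coh_Iic h.1 (E := ∅) fun _ h => h.elim) (z := z) hz
  refine ⟨s, a1, a2, a3 b q h.2.1 ⟨self_mem_Iic, fun u hu _ => hu, ?_,
    fun v _ => Dom.of_sub subset_rfl v⟩⟩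
  rw [empty_union]
  exact h.2.2

theorem promise {A : Lab} (h : Val A) (h' : ∀ k, Good (A k true)) : ∃ r, Good r ∧ HasLab r A := by
  obtain ⟨z, hz⟩ : ∃ z, z ∉ Iic (A 0 true) := by
    obtain ⟨s, h1, -⟩ := exists_node (Iic_fin (A 0 true)) (isLowerSet_Iic _) 0 subsingleton_empty
    exact ⟨s, fun h => lt_irrefl s (show s ∈ Iio s from h1 ▸ h)⟩
  obtain ⟨s, a1, -, a2, -⟩ := build (E := {A}) subsingleton_singleton
    (coh_Iic (h' 0) (by rintro _ rfl; exact ⟨h, h', rfl⟩)) hz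
  exact ⟨s, a1, (a2 A).2 rfl⟩

def IsPt (p : ℕ → Nd) : Prop := (∀ n, Good (p n)) ∧ ∀ n, Ext (p 0) (p n) (p (n + 1))

theorem exists_pt (K : Nd → Prop) {b : Nd} (hb : Good b) (h0 : K b)
    (h : ∀ q, St b q → K q → ∃ s, Good s ∧ K s ∧ Ext b q s) :
    ∃ p, IsPt p ∧ p 0 = b ∧ ∀ n, K (p n) := by
  choose! f h1 h2 h3 using h
  have : ∀ n, St b (f^[n] b) ∧ K (f^[n] b) := by
    intro n
    induction n with
    | zero => exact ⟨St.refl hb, h0⟩
    | succ n ih =>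
      rw [Function.iterate_succ_apply']
      exact ⟨ih.1.next (h1 _ ih.1 ih.2) (h3 _ ih.1 ih.2), h2 _ ih.1 ih.2⟩
  refine ⟨fun n => f^[n] b, ⟨fun n => (this n).1.1, fun n => ?_⟩, rfl, fun n => (this n).2⟩
  simp only [Function.iterate_succ_apply']
  exact h3 _ (this n).1 (this n).2

theorem exists_pt_avoid {b z : Nd} (hb : Good b) (hz : ¬ z ≤ b) :
    ∃ p, IsPt p ∧ p 0 = b ∧ ∀ n, ¬ z ≤ p n :=
  exists_pt (fun q => ¬ z ≤ q) hb hz fun _ h h' => succ h h'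

theorem IsPt.mono {p : ℕ → Nd} (h : IsPt p) : StrictMono p :=
  strictMono_nat_of_lt_succ fun n => (h.2 n).mem

theorem IsPt.eq {p : ℕ → Nd} (h : IsPt p) (n : ℕ) : ∀ u, p 0 ≤ u → u ≤ p n → ∃ i, u = p i := by
  induction n with
  | zero => exact fun u h1 h2 => ⟨0, le_antisymm h2 h1⟩
  | succ n ih =>
    intro u h1 h2
    rcases h2.eq_or_lt with rfl | h2
    exacts [⟨_, rfl⟩, ih u h1 ((h.2 n).cl u h2 h1)]

theorem IsPt.cl {p : ℕ → Nd} (h : IsPt p) (n : ℕ) : Cl (p 0) (p n) := by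
  refine ⟨h.mono.monotone (Nat.zero_le n), fun u hu w hw _ => ?_⟩
  obtain ⟨i, rfl⟩ := h.eq n u hu.1 hu.2
  obtain ⟨j, rfl⟩ := h.eq n w hw.1 hw.2
  exact (le_total i j).imp (fun h' => h.mono.monotone h') fun h' => h.mono.monotone h'

theorem IsPt.lev {p : ℕ → Nd} (h : IsPt p) (n : ℕ) : n ≤ lev (p n) :=
  (lev_mono.comp h.mono).le_apply

theorem sub_eq {v p : ℕ → Nd} (hv : IsPt v) (hp : IsPt p) (h : ∀ i, ∃ n, v i ≤ p n) (n : ℕ) :
    ∃ i, p n ≤ v i := by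
  obtain ⟨m, hm⟩ := h 0
  have M := hp.mono.monotone
  by_cases hc : ∀ N, m ≤ N → Cl (v 0) (p N)
  · obtain ⟨N, hN⟩ := h (lev (p (max m n)) + 1)
    have h1 := hv.lev (lev (p (max m n)) + 1)
    rcases (hc (max N (max m n)) (by omega)).2.total (x := p (max m n))
      (y := v (lev (p (max m n)) + 1)) ⟨hm.trans (M (by omega)), M (by omega)⟩
      ⟨(hv.cl _).1, hN.trans (M (by omega))⟩ with h2 | h2
    · exact ⟨_, (M (by omega)).trans h2⟩
    · have := lev_mono.monotone h2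
      omega
  · exfalso
    push Not at hc
    obtain ⟨N, h1, h2⟩ := hc
    have h3 : ∀ j, Dom (Iic (p (N + j))) (Iic (p N)) (v 0) := by
      intro j
      induction j with
      | zero => exact Dom.of_sub subset_rfl _
      | succ j ih =>
        intro w hw hc
        rcases (mem_Iic.1 hw).eq_or_lt with rfl | hw
        · exact absurd (hc.mono (hm.trans (M h1)) (M (by omega))) h2
        · exact (((hp.2 (N + j)).tight _ (hm.trans (M (by omega)))).trans ih) w hw hc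
    obtain ⟨j, hj⟩ := h (lev (p N) + 1)
    obtain ⟨w, a1, -, a2⟩ := h3 j _ (hj.trans (M (by omega))) (hv.cl _)
    have := hv.lev (lev (p N) + 1)
    have := lev_mono.monotone a1
    omega

theorem exists_lab (a b q : ℝ → Nd) (ha : Function.Injective a) (hab : ∀ α, a α ≤ b α)
    (h : ∀ α, St (b α) (q α)) :
    ∃ f : ℕ → ℝ, Val fun k c => if c then q (f k) else b (f k) := by
  classical
  obtain ⟨l, hl⟩ : ∃ l, {α | lev (q α) = l}.Infinite := by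
    by_contra hc
    push Not at hc
    have : (⋃ l, {α | lev (q α) = l}) = univ := eq_univ_of_forall fun α => mem_iUnion.2 ⟨_, rfl⟩
    exact Cardinal.not_countable_real (this ▸ countable_iUnion fun l => (hc l).countable)
  have : (cofinite ⊓ 𝓟 {α | lev (q α) = l}).NeBot := cofinite_inf_principal_neBot_iff.2 hl
  obtain ⟨W, hW⟩ := Ultrafilter.exists_le (cofinite ⊓ 𝓟 {α | lev (q α) = l})
  have w1 : ∀ᶠ α in W, lev (q α) = l := le_principal_iff.1 (hW.trans inf_le_right)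
  let R : Set Nd := {u | ∀ᶠ α in W, u ≤ q α}
  have hR : R.Finite := by
    by_contra hc
    obtain ⟨t, h1, h2⟩ := Set.Infinite.exists_subset_card_eq hc (l + 1)
    obtain ⟨α, h3, h4⟩ := (w1.and ((eventually_all_finset t).2 fun u hu => h1 hu)).exists
    have := ncard_le_ncard (show (t : Set Nd) ⊆ Iic (q α) from h4) (Iic_fin _)
    rw [ncard_coe_finset] at this
    unfold lev at h3
    omega
  let L : ℝ → Nd → ℕ := fun α v => sSup (lev '' {w | w ≤ q α ∧ Cl v w})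
  have hb : ∀ α v, BddAbove (lev '' {w | w ≤ q α ∧ Cl v w}) := fun α v =>
    ⟨lev (q α), by rintro _ ⟨w, hw, rfl⟩; exact lev_mono.monotone hw.1⟩
  have w2 : ∀ v, ∃ c, ∀ᶠ α in W, L α v = c := by
    intro v
    have : (⋃ c ∈ Iic l, {α | L α v = c}) ∈ W := by
      filter_upwards [w1] with α hα
      refine mem_biUnion (x := L α v) (mem_Iic.2 (csSup_le' ?_)) rfl
      rintro _ ⟨w, hw, rfl⟩
      exact hα ▸ lev_mono.monotone hw.1
    obtain ⟨c, -, hc⟩ := (Ultrafilter.finite_biUnion_mem_iff (finite_Iic l)).1 this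
    exact ⟨c, hc⟩
  choose c hc using w2
  have w3 : ∀ᶠ α in W, (∀ u ∈ R, u ≤ q α) ∧ (∀ v ∈ R, L α v = c v) ∧ a α ∉ R :=
    ((eventually_all_finite hR).2 fun u hu => hu).and
      (((eventually_all_finite hR).2 fun v _ => hc v).and
      ((hW.trans inf_le_left) (hR.preimage ha.injOn).compl_mem_cofinite))
  obtain ⟨f, f1, f2⟩ := exists_seq_of_forall_finset_exists
    (fun α => (∀ u ∈ R, u ≤ q α) ∧ (∀ v ∈ R, L α v = c v) ∧ a α ∉ R)
    (fun α β => ∀ u ≤ q α, u ≤ q β → u ∈ R) fun s _ => by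
      have : ∀ᶠ β in W, ∀ α ∈ s, ∀ u ∈ Iic (q α), u ≤ q β → u ∈ R := by
        refine (eventually_all_finset s).2 fun α _ => (eventually_all_finite (Iic_fin _)).2 ?_
        intro u _
        by_cases hu : u ∈ R
        · exact Eventually.of_forall fun _ _ => hu
        · filter_upwards [Ultrafilter.eventually_not.2 hu] with β h1 h2 using absurd h2 h1
      exact (w3.and this).exists
  have e : Rt (fun k c => if c then q (f k) else b (f k)) = R := by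
    ext u
    exact ⟨fun hu => f2 0 1 zero_lt_one u (hu 0) (hu 1), fun hu k => (f1 k).1 u hu⟩
  refine ⟨f, fun k => (h _).2.1, fun k k' hk u h1 h2 => ?_, fun k hk => ?_,
    fun v hv k k' w hw hcl => ?_, fun k => (h _).2.2⟩
  · rw [e]
    rcases lt_or_gt_of_ne hk with h3 | h3
    exacts [f2 k k' h3 u h1 h2, f2 k' k h3 u h2 h1]
  · rw [e] at hk
    exact (f1 k).2.2 (Eventually.mono hk fun α hα => (hab _).trans hα)
  · rw [e] at hv
    obtain ⟨w', h1, h2⟩ := Nat.sSup_mem (s := lev '' {w | w ≤ q (f k') ∧ Cl v w})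
      ⟨_, v, ⟨(f1 k').1 v hv, le_rfl, by simp⟩, rfl⟩ (hb _ _)
    refine ⟨w', h1.1, h1.2, ?_⟩
    rw [h2]
    change _ ≤ L (f k') v
    rw [(f1 k').2.1 v hv, ← (f1 k).2.1 v hv]
    exact le_csSup (hb _ _) ⟨w, ⟨hw, hcl⟩, rfl⟩

theorem exists_root (t : ℝ) : ∃ s, Good s ∧ tg s = t := by
  obtain ⟨s, h1, h2, h3⟩ := exists_node finite_empty isLowerSet_empty t subsingleton_empty
  have h4 : ∀ u, ¬ u < s := fun u hu => (h1 ▸ hu : u ∈ (∅ : Set Nd))
  refine ⟨s, Good.mk s (fun u hu => (h4 u hu).elim) (fun A _ h => ((h3 A).1 h).elim)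
    (fun A h => ((h3 A).1 h).elim) ?_, h2⟩
  rintro A ⟨r, hr, h⟩
  rcases (mem_Iic.1 hr).eq_or_lt with rfl | hr
  exacts [((h3 A).1 h).elim, (h4 r hr).elim]

theorem main (C : Nd → Prop) (hC : ∀ r, Good r → ∃ p, Good p ∧ r ≤ p ∧ C p) :
    ∃ p, IsPt p ∧ ∀ n, C (p n) := by
  choose a a1 a2 using exists_root
  choose b b1 b2 b3 using fun α => hC (a α) (a1 α)
  by_contra hc
  have : ∀ α, ∃ q, St (b α) q ∧ ∀ s, Good s → C s → ¬ Ext (b α) q s := by
    intro α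
    by_contra h
    push Not at h
    obtain ⟨p, h1, -, h2⟩ := exists_pt C (b1 α) (b3 α) fun q hq _ => h q hq
    exact hc ⟨p, h1, h2⟩
  choose q q1 q2 using this
  obtain ⟨f, hf⟩ := exists_lab a b q (fun α β h => by rw [← a2 α, h, a2]) b2 q1
  obtain ⟨r, r1, r2⟩ := promise hf fun k => (q1 _).1
  obtain ⟨s, s1, s2, s3⟩ := hC r r1
  obtain ⟨k, -, hk⟩ := (s1.ful ⟨r, s2, r2⟩).2
  exact q2 _ s s1 s3 hk

def Pt : Type := {x : Set Nd // ∃ p, IsPt p ∧ x = {u | ∃ n, u ≤ p n}}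

def UU (r : Nd) : Set Pt := {x | r ∈ x.1}

def BB : Set (Set Pt) := {V | ∃ r, Good r ∧ V = UU r}

instance : TopologicalSpace Pt := generateFrom BB

theorem basis_BB : IsTopologicalBasis BB := by
  refine ⟨?_, ?_, rfl⟩
  · rintro _ ⟨r, -, rfl⟩ _ ⟨r', -, rfl⟩ ⟨_, p, hp, rfl⟩ ⟨⟨n, hn⟩, m, hm⟩
    refine ⟨UU (p (max n m)), ⟨_, hp.1 _, rfl⟩, ⟨_, le_rfl⟩, ?_⟩
    rintro ⟨_, p', hp', rfl⟩ ⟨j, hj⟩
    exact ⟨⟨j, hn.trans ((hp.mono.monotone (le_max_left _ _)).trans hj)⟩,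
      j, hm.trans ((hp.mono.monotone (le_max_right _ _)).trans hj)⟩
  · refine eq_univ_of_forall ?_
    rintro ⟨_, p, hp, rfl⟩
    exact ⟨UU (p 0), ⟨_, hp.1 0, rfl⟩, 0, le_rfl⟩

theorem le_of_sub {p r : Nd} (hp : Good p) (h : UU p ⊆ UU r) : r ≤ p := by
  by_contra hc
  obtain ⟨y, h1, h2, h3⟩ := exists_pt_avoid hp hc
  obtain ⟨n, hn⟩ := @h ⟨_, y, h1, rfl⟩ ⟨0, h2.ge⟩
  exact h3 n hn

instance : T1Space Pt := by
  refine t1Space_iff_exists_open.2 ?_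
  rintro ⟨_, v, hv, rfl⟩ ⟨_, p, hp, rfl⟩ hne
  by_contra hc
  push Not at hc
  have h : ∀ i, ∃ n, v i ≤ p n := fun i =>
    hc (UU (v i)) (basis_BB.isOpen ⟨_, hv.1 i, rfl⟩) ⟨i, le_rfl⟩
  refine hne (Subtype.ext (Set.ext fun u => ⟨?_, ?_⟩))
  · rintro ⟨i, hi⟩
    exact (h i).imp fun n hn => hi.trans hn
  · rintro ⟨n, hn⟩
    exact (sub_eq hv hp h n).imp fun i hi => hn.trans hi

theorem no_isol (x : Pt) : ¬ IsOpen {x} := by
  intro h
  obtain ⟨_, ⟨r, hr, rfl⟩, h1, h2⟩ := basis_BB.exists_subset_of_mem_open (mem_singleton x) h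
  obtain ⟨_, p, hp, rfl⟩ := x
  have h4 : UU r ⊆ UU (p (lev r + 1)) := fun y hy => by
    rw [h2 hy]
    exact ⟨_, le_rfl⟩
  have := lev_mono.monotone (le_of_sub hr h4)
  have := hp.lev (lev r + 1)
  omega

theorem no_split (B0 B1 : Set (Set Pt)) (h0 : B0 ⊆ BB) (h1 : B1 ⊆ BB) (hd : Disjoint B0 B1)
    (hb : IsTopologicalBasis B0) (hπ : ∀ U : Set Pt, IsOpen U → U.Nonempty → ∃ V ∈ B1, V ⊆ U) :
    False := by
  obtain ⟨p, hp, hC⟩ := main (fun p => UU p ∈ B1) fun r hr => by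
    obtain ⟨y, a1, a2, -⟩ := exists_pt (fun _ => True) hr trivial fun q hq _ => by
      obtain ⟨z, hz⟩ : ∃ z, ¬ z ≤ q := by
        obtain ⟨s, h1, -⟩ := exists_node (Iic_fin q) (isLowerSet_Iic _) 0 subsingleton_empty
        exact ⟨s, fun h => lt_irrefl s (show s ∈ Iio s from h1 ▸ h)⟩
      obtain ⟨s, b1, -, b2⟩ := succ hq hz
      exact ⟨s, b1, trivial, b2⟩
    obtain ⟨V, b1, b2⟩ := hπ (UU r) (basis_BB.isOpen ⟨r, hr, rfl⟩) ⟨⟨_, y, a1, rfl⟩, 0, a2.ge⟩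
    obtain ⟨p, b3, rfl⟩ := h1 b1
    exact ⟨p, b3, le_of_sub b3 b2, b1⟩
  obtain ⟨V, a1, a2, a3⟩ := hb.exists_subset_of_mem_open (a := ⟨_, p, hp, rfl⟩) (u := UU (p 0))
    ⟨0, le_rfl⟩ (basis_BB.isOpen ⟨_, hp.1 0, rfl⟩)
  obtain ⟨u, hu, rfl⟩ := h0 a1
  obtain ⟨n, hn⟩ := a2
  obtain ⟨i, rfl⟩ := hp.eq n u (le_of_sub hu a3) hn
  exact disjoint_left.1 hd a1 (hC i)

end Pool.Agent.H15.PiB
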