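import Pool.Agent.H15.Rfl3
import Pool.Agent.H15.Syn1

set_option autoImplicit false

namespace Pool.Agent.H15.Ps
open Function Filter Topology Cardinal Submodule Set Pool.Agent.H15.Psc

/-- the space of summable families -/
noncomputable abbrev L1 (ι : Type) := lp (fun _ : ι => ℂ) 1

lemma hs_cg {ι M : Type} [AddCommMonoid M] [TopologicalSpace M] {f g : ι → M} {a b : M}
    (h : HasSum f a) (e : ∀ i, g i = f i) (e' : b = a) : HasSum g b := by
  rw [funext e, e']; exact h

section l1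
variable {ι W : Type} [NormedAddCommGroup W] [NormedSpace ℂ W] [CompleteSpace W]

lemma nrm (a : L1 ι) : HasSum (fun i => ‖a i‖) ‖a‖ := by
  simpa using lp.hasSum_norm (p := 1) (by simp) a

omit [CompleteSpace W] in
lemma bd (z : ι → W) (hz : ∀ i, ‖z i‖ ≤ 1) (a : L1 ι) (i : ι) : ‖a i • z i‖ ≤ ‖a i‖ := by
  rw [norm_smul]; exact mul_le_of_le_one_right (norm_nonneg _) (hz i)

lemma sm (z : ι → W) (hz : ∀ i, ‖z i‖ ≤ 1) (a : L1 ι) : Summable fun i => a i • z i :=
  .of_norm_bounded (nrm a).summable (bd z hz a)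

/-- the operator with given values on the unit vectors -/
noncomputable def lift (z : ι → W) (hz : ∀ i, ‖z i‖ ≤ 1) : L1 ι →L[ℂ] W :=
  LinearMap.mkContinuous
    { toFun := fun a => ∑' i, a i • z i
      map_add' := fun a b => by
        rw [← (sm z hz a).tsum_add (sm z hz b)]; simp [add_smul]
      map_smul' := fun c a => by
        rw [RingHom.id_apply, ← (sm z hz a).tsum_const_smul]; simp [mul_smul] } 1
    fun a => by simpa using tsum_of_norm_bounded (nrm a) (bd z hz a)

lemma lift_sum (z : ι → W) (hz : ∀ i, ‖z i‖ ≤ 1) (a : L1 ι) :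
    HasSum (fun i => a i • z i) (lift z hz a) := (sm z hz a).hasSum

lemma lift_norm (z : ι → W) (hz : ∀ i, ‖z i‖ ≤ 1) : ‖lift z hz‖ ≤ 1 :=
  LinearMap.mkContinuous_norm_le _ zero_le_one _

lemma lift_single [DecidableEq ι] (z : ι → W) (hz : ∀ i, ‖z i‖ ≤ 1) (i : ι) (c : ℂ) :
    lift z hz (lp.single 1 i c) = c • z i := by
  refine (lift_sum z hz _).unique ?_
  convert hasSum_ite_eq i (c • z i) with j
  by_cases h : j = i
  · subst h; simp
  · simp [h]

/-- truncation -/
noncomputable def tr (S : Set ι) : L1 ι →L[ℂ] L1 ι := by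
  classical
  exact lp.mapCLM 1 (fun i => if i ∈ S then ContinuousLinearMap.id ℂ ℂ else 0) zero_le_one
    fun i => by split_ifs <;> simp

lemma tr_mem {S : Set ι} (a : L1 ι) {i : ι} (h : i ∈ S) : tr S a i = a i := by
  simp [tr, h]

lemma tr_not {S : Set ι} (a : L1 ι) {i : ι} (h : i ∉ S) : tr S a i = 0 := by
  simp [tr, h]

lemma tr_c (F : Finset ι) (v : L1 ι) : ‖tr (↑F)ᶜ v‖ = ‖v‖ - ∑ l ∈ F, ‖v l‖ := by
  classical
  refine (nrm _).unique (hs_cg ((nrm v).sub (hasSum_sum_of_ne_finset_zero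
    (f := fun l => if l ∈ F then ‖v l‖ else 0) (s := F) (fun l hl => if_neg hl))) (fun l => ?_) ?_)
  · by_cases hl : l ∈ F
    · simp [tr_not, hl]
    · simp [tr_mem, hl]
  · simp

lemma tail (V : Submodule ℂ (L1 ι)) [FiniteDimensional ℂ V] :
    ∃ F : Finset ι, ∀ v ∈ V, 3 / 4 * ‖v‖ ≤ ∑ l ∈ F, ‖v l‖ := by
  classical
  let b := Module.finBasis ℂ V
  let φ := fun k => LinearMap.toContinuousLinearMap (b.coord k)
  have h1 : ∀ k, Tendsto (fun F : Finset ι => ‖φ k‖ * ‖tr (↑F)ᶜ (b k : L1 ι)‖) atTop (𝓝 0) := by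
    intro k
    simp only [tr_c]
    simpa using (((nrm (b k : L1 ι)).const_sub ‖(b k : L1 ι)‖).const_mul ‖φ k‖)
  have h2 := tendsto_finsetSum Finset.univ fun k _ => h1 k
  rw [Finset.sum_const_zero] at h2
  obtain ⟨F, hF⟩ := (h2.eventually (gt_mem_nhds (by norm_num : (0 : ℝ) < 1 / 4))).exists
  refine ⟨F, fun v hv => ?_⟩
  have e := tr_c F v
  have h3 : v = ∑ k, φ k ⟨v, hv⟩ • (b k : L1 ι) := by
    have := congrArg Subtype.val (b.sum_repr ⟨v, hv⟩)
    rw [Submodule.coe_sum] at this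
    exact this.symm
  have h4 : ‖tr (↑F)ᶜ v‖ ≤ (∑ k, ‖φ k‖ * ‖tr (↑F)ᶜ (b k : L1 ι)‖) * ‖v‖ := by
    conv_lhs => rw [h3, map_sum]
    rw [Finset.sum_mul]
    refine norm_sum_le_of_le _ fun k _ => ?_
    rw [map_smul, norm_smul, mul_right_comm]
    exact mul_le_mul_of_nonneg_right ((φ k).le_opNorm ⟨v, hv⟩) (norm_nonneg _)
  nlinarith [norm_nonneg v]

lemma card_L1 (h : #ι ≤ 𝔠) : #(L1 ι) ≤ 𝔠 := by
  have hc : ∀ a : L1 ι, {p : ι × ℂ | a p.1 = p.2 ∧ p.2 ≠ 0}.Countable := fun a => by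
    refine ((nrm a).summable.countable_support.image fun i => (i, a i)).mono ?_
    rintro ⟨i, c⟩ ⟨h1, h2⟩
    obtain rfl : a i = c := h1
    exact ⟨i, by simpa using h2, rfl⟩
  refine (mk_le_of_injective (f := fun a : L1 ι => (⟨_, (hc a).le_aleph0⟩ :
    {t : Set (ι × ℂ) // #t ≤ ℵ₀})) fun a b hab => ?_).trans ((mk_bounded_set_le _ _).trans ?_)
  · have e := Set.ext_iff.1 (congrArg Subtype.val hab)
    ext i
    by_cases h1 : a i = 0
    · by_contra h2
      have := (e (i, b i)).2 ⟨rfl, fun h => h2 (h1.trans h.symm)⟩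
      exact h2 this.1
    · exact ((e (i, a i)).1 ⟨rfl, h1⟩).1.symm
  · rw [← continuum_power_aleph0]
    exact power_le_power_right (max_le (le_c_prod h mk_complex.le) aleph0_le_continuum)

end l1

/-- the target space -/
noncomputable abbrev ZZ := L1 (ℕ ⊕ Om × Om)
/-- the unit ball of the extended target space -/
abbrev B1 := {w : ZZ × ℂ // ‖w‖ ≤ 1}

open Classical in
/-- values on pairs of unit vectors -/
noncomputable def zz (x : Om → B1) (i l : Om) : ZZ × ℂ :=
  if l = i then x i else (lp.single 1 (.inr (i, l)) 1, 0)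

lemma zz_le (x : Om → B1) (i l : Om) : ‖zz x i l‖ ≤ 1 := by
  unfold zz
  split_ifs
  · exact (x i).2
  · simp [lp.norm_single]

/-- rows -/
noncomputable def row (x : Om → B1) (i : Om) : L1 Om →L[ℂ] ZZ × ℂ := lift (zz x i) (zz_le x i)

/-- the bilinear map -/
noncomputable def bil (x : Om → B1) : L1 Om →L[ℂ] L1 Om →L[ℂ] ZZ × ℂ :=
  lift (row x) fun _ => lift_norm _ _

lemma bil_sum (x : Om → B1) (a b : L1 Om) : HasSum (fun i => a i • row x i b) (bil x a b) :=
  (lift_sum (row x) (fun _ => lift_norm _ _) a).mapL (ContinuousLinearMap.apply ℂ _ b)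

lemma bil_le (x : Om → B1) (a b : L1 Om) : ‖bil x a b‖ ≤ ‖a‖ * ‖b‖ := by
  refine ((bil x).le_opNorm₂ a b).trans ?_
  gcongr
  exact mul_le_of_le_one_left (norm_nonneg _) (lift_norm _ _)

/-- base vectors -/
noncomputable def ee (n : ℕ) : ZZ := by
  classical
  exact lp.single 1 (.inl n) 1

/-- the base subspace -/
noncomputable def G0 : Submodule ℂ (ZZ × ℂ) := span ℂ (range fun n : ℕ => (ee n, (n : ℂ)))

/-- span of products supported in `S` -/
noncomputable def Sp (x : Om → B1) (S : Set Om) : Submodule ℂ (ZZ × ℂ) :=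
  G0 ⊔ span ℂ {w | ∃ a b : L1 Om, (∀ i ∉ S, a i = 0) ∧ (∀ i ∉ S, b i = 0) ∧ bil x a b = w}

lemma Sp_congr {x x' : Om → B1} {S : Set Om} (h : ∀ i ∈ S, x i = x' i) : Sp x S = Sp x' S := by
  have : ∀ a b : L1 Om, (∀ i ∉ S, a i = 0) → bil x a b = bil x' a b := by
    intro a b ha
    refine (bil_sum x a b).unique ?_
    convert bil_sum x' a b using 2 with i
    by_cases hi : i ∈ S
    · have : zz x i = zz x' i := by funext l; simp [zz, h i hi]
      simp only [row, this]
    · simp [ha i hi]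
  unfold Sp
  congr 2
  ext w
  refine exists_congr fun a => exists_congr fun b => and_congr_right fun ha => ?_
  rw [this a b ha]

lemma G0_cross {g : ZZ × ℂ} (hg : g ∈ G0) (q : Om × Om) : g.1 (.inr q) = 0 := by
  induction hg using span_induction with
  | mem w h => obtain ⟨n, rfl⟩ := h; simp [ee]
  | zero => rfl
  | add u v _ _ h1 h2 => simp [h1, h2]
  | smul c u _ h => simp [h]

lemma r_G0 : ((0 : ZZ), (1 : ℂ)) ∉ G0 := by
  intro h
  obtain ⟨c, hc⟩ := Finsupp.mem_span_range_iff_exists_finsupp.1 h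
  have : c = 0 := by
    ext n
    have := congrArg (fun w : ZZ × ℂ => (lp.evalCLM ℂ (fun _ => ℂ) 1 (.inl n)) w.1) hc
    simp only [Finsupp.sum, Prod.fst_sum, map_sum, Prod.smul_fst, map_smul, map_zero] at this
    rw [Finset.sum_eq_single n] at this
    · simpa [ee, lp.evalCLM] using this
    · intro m _ hm
      simp [ee, lp.evalCLM, hm.symm]
    · intro hn; simp [Finsupp.notMem_support_iff.1 hn]
  subst this
  simpa using congrArg Prod.snd hc

lemma row_co (x : Om → B1) (p : Om) (v : L1 Om) {i l : Om} (h : i ≠ l) :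
    (row x p v).1 (.inr (i, l)) = (if p = i then v l else 0) + v p * (x p).1.1 (.inr (i, l)) := by
  classical
  have := (lift_sum (zz x p) (zz_le x p) v).mapL
    ((lp.evalCLM ℂ (fun _ => ℂ) 1 (.inr (i, l))).comp (ContinuousLinearMap.fst ℂ ZZ ℂ))
  refine this.unique ?_
  refine hs_cg ((hasSum_ite_eq l (if p = i then v l else 0)).add
    (hasSum_ite_eq p (v p * (x p).1.1 (.inr (i, l))))) (fun q => ?_) rfl
  by_cases hq : q = p
  · subst hq
    by_cases h1 : q = l
    · subst h1; simp [zz, lp.evalCLM, h.symm]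
    · simp [zz, lp.evalCLM, h1]
  · by_cases h1 : q = l
    · subst h1
      by_cases h2 : p = i
      · subst h2; simp [zz, lp.evalCLM, hq]
      · simp [zz, lp.evalCLM, hq, h2, Ne.symm h2]
    · simp [zz, lp.evalCLM, hq, h1, Ne.symm h1]

theorem key (x : Om → B1) (hx : ∀ p i l, (x p).1.1 (.inr (i, l)) ≠ 0 → i < p ∧ l < p) (S : Set Om)
    (h : ((0 : ZZ), (1 : ℂ)) ∈ Sp x S) :
    ∃ m ∈ S, ((0 : ZZ), (1 : ℂ)) ∈ Sp x (Iio m) ⊔ span ℂ {(x m).1} := by
  classical
  obtain ⟨g, hg, w, hw, e⟩ := mem_sup.1 h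
  obtain ⟨n, c, u, rfl⟩ := mem_span_set'.1 hw
  choose a0 b ha hb hab using fun k => (u k).2
  let a : Fin n → L1 Om := fun k => c k • a0 k
  have e1 : ∑ k, c k • (u k : ZZ × ℂ) = ∑ k, bil x (a k) (b k) :=
    Finset.sum_congr rfl fun k _ => by simp [a, hab]
  rw [e1] at e
  have rows : ∀ a b : Fin n → L1 Om, HasSum (fun i => row x i (∑ k, a k i • b k))
      (∑ k, bil x (a k) (b k)) := fun a b => by
    simpa using hasSum_sum fun k (_ : k ∈ Finset.univ) => bil_sum x (a k) (b k)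
  let ρ : Om → L1 Om := fun i => ∑ k, a k i • b k
  have sρ : Summable fun i => ‖ρ i‖ := by
    refine .of_nonneg_of_le (fun _ => norm_nonneg _) (fun i => ?_)
      (summable_sum fun k (_ : k ∈ Finset.univ) => (nrm (a k)).summable.mul_right ‖b k‖)
    exact norm_sum_le_of_le _ fun k _ => (norm_smul _ _).le
  have s1 : ∀ i l, Summable fun p => ‖ρ p p‖ * ‖(x p).1.1 (.inr (i, l))‖ := fun i l =>
    .of_nonneg_of_le (fun _ => by positivity) (fun p => (mul_le_of_le_one_right (norm_nonneg _)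
      ((lp.norm_apply_le_norm one_ne_zero _ _).trans ((norm_fst_le _).trans (x p).2))).trans
      (lp.norm_apply_le_norm one_ne_zero _ _)) sρ
  have co : ∀ i l, i ≠ l → HasSum (fun p => ρ p p * (x p).1.1 (.inr (i, l))) (-ρ i l) := by
    intro i l hil
    have h1 := (rows a b).mapL
      ((lp.evalCLM ℂ (fun _ => ℂ) 1 (.inr (i, l))).comp (ContinuousLinearMap.fst ℂ ZZ ℂ))
    have h2 : (∑ k, bil x (a k) (b k)).1 (.inr (i, l)) = 0 := by
      have := congrArg (fun w : ZZ × ℂ => w.1 (.inr (i, l))) e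
      simpa [G0_cross hg] using this
    have h3 : HasSum (fun p => (row x p (ρ p)).1 (.inr (i, l))) 0 := h2 ▸ h1
    simp only [row_co x _ _ hil] at h3
    refine hs_cg (h3.sub (hasSum_ite_eq i (ρ i l))) (fun p => ?_) (by simp)
    by_cases hp : p = i
    · subst hp; simp
    · simp [hp]
  have := FiniteDimensional.span_of_finite ℂ (finite_range b)
  obtain ⟨F, hF⟩ := tail (span ℂ (range b))
  let F' := F.filter (· ∈ S)
  have hF' : ∀ i, 3 / 4 * ‖ρ i‖ ≤ ∑ l ∈ F', ‖ρ i l‖ := fun i => by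
    refine (hF _ (sum_mem fun k _ => smul_mem _ _ (subset_span ⟨k, rfl⟩))).trans_eq ?_
    refine (Finset.sum_filter_of_ne fun l _ hl => ?_).symm
    by_contra hs
    refine hl ?_
    simp only [lp.coeFn_sum, Finset.sum_apply, lp.coeFn_smul, Pi.smul_apply, hb _ l hs]
    simp
  let hh : Om → ℝ := fun p => if ∀ l ∈ F', l < p then ‖ρ p‖ else 0
  have h0 : ∀ p, 0 ≤ hh p := fun p => by simp only [hh]; split_ifs <;> positivity
  have shh : Summable hh := .of_nonneg_of_le h0 (fun p => by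
    simp only [hh]; split_ifs <;> simp) sρ
  have hz : ∀ p, (∀ l ∈ F', l < p) → ρ p = 0 := by
    have k1 : ∑' p, hh p ≤ 1 / 3 * ∑' p, hh p := by
      refine shh.tsum_le_of_sum_le fun U => ?_
      let U' := U.filter fun p => ∀ l ∈ F', l < p
      have k2 : ∑ p ∈ U, hh p = ∑ p ∈ U', ‖ρ p‖ := (Finset.sum_filter _ _).symm
      have k3 : ∑ q ∈ U' ×ˢ F', ‖ρ q.1 q.2‖ ≤ ∑' p, 1 / 4 * hh p := by
        refine (Finset.sum_le_sum fun q hq => ?_).trans (hasSum_le (fun p => ?_)
          (hasSum_sum fun q (_ : q ∈ U' ×ˢ F') => (s1 q.1 q.2).hasSum) (shh.mul_left _).hasSum)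
        · obtain ⟨q1, q2⟩ := Finset.mem_product.1 hq
          rw [← norm_neg]
          exact (co _ _ ((Finset.mem_filter.1 q1).2 _ q2).ne').norm_le_of_bounded (s1 _ _).hasSum
            fun p => (norm_mul _ _).le
        · rw [← Finset.mul_sum]
          by_cases hp : ∀ l ∈ F', l < p
          · have k4 : ∑ q ∈ U' ×ˢ F', ‖(x p).1.1 (.inr (q.1, q.2))‖ ≤ 1 := by
              refine (Finset.sum_map _ ⟨Sum.inr, Sum.inr_injective⟩
                fun j => ‖(x p).1.1 j‖).symm.trans_le ?_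
              exact (sum_le_hasSum _ (fun _ _ => norm_nonneg _) (nrm _)).trans
                ((norm_fst_le _).trans (x p).2)
            have k5 := sum_le_hasSum (insert p F') (fun _ _ => norm_nonneg _) (nrm (ρ p))
            rw [Finset.sum_insert fun h => lt_irrefl _ (hp p h)] at k5
            have := hF' p
            simp only [hh, if_pos hp]
            nlinarith [norm_nonneg (ρ p p)]
          · rw [Finset.sum_eq_zero, mul_zero]
            · exact mul_nonneg (by norm_num) (h0 p)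
            · intro q hq
              by_contra hc
              exact hp fun l hl => ((Finset.mem_filter.1 (Finset.mem_product.1 hq).1).2 l hl).trans
                (hx p _ _ (norm_ne_zero_iff.1 hc)).1
      rw [tsum_mul_left, Finset.sum_product] at k3
      have k6 := Finset.sum_le_sum fun p (_ : p ∈ U') => hF' p
      rw [← Finset.mul_sum] at k6
      linarith
    intro p hp
    have := shh.le_tsum p fun q _ => h0 q
    simp only [hh, if_pos hp] at this
    exact norm_le_zero_iff.1 (by linarith [norm_nonneg (ρ p)])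
  rcases F'.eq_empty_or_nonempty with hE | hE
  · have : ∑ k, bil x (a k) (b k) = 0 := (rows a b).unique (by
      convert hasSum_zero with i
      rw [show ∑ k, a k i • b k = 0 from hz i (by simp [hE]), map_zero])
    rw [this, add_zero] at e
    exact absurd (e ▸ hg) r_G0
  let m := F'.max' hE
  have hm : ∀ p, m < p → ρ p = 0 := fun p hp => hz p fun l hl => (F'.le_max' l hl).trans_lt hp
  have off : ∀ i l, i ≠ l → m ≤ i ∨ m ≤ l → ρ i l = 0 := by
    intro i l hil hml
    rw [← neg_eq_zero]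
    refine (co i l hil).unique ?_
    convert hasSum_zero with p
    by_contra hc
    obtain ⟨k1, k2⟩ := hx p _ _ (right_ne_zero_of_mul hc)
    exact left_ne_zero_of_mul hc (by rw [hm p (hml.elim (·.trans_lt k1) (·.trans_lt k2))]; rfl)
  refine ⟨m, (Finset.mem_filter.1 (F'.max'_mem hE)).2, ?_⟩
  have e2 : ∑ k, bil x (a k) (b k) =
      ∑ k, bil x (tr (Iio m) (a k)) (tr (Iio m) (b k)) + ρ m m • (x m).1 := by
    refine (rows a b).unique ?_
    convert (rows (fun k => tr (Iio m) (a k)) fun k => tr (Iio m) (b k)).add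
      (hasSum_ite_eq m (ρ m m • (x m).1)) using 2 with i
    rcases lt_trichotomy i m with hi | rfl | hi
    · rw [if_neg hi.ne, add_zero]
      congr 1
      have : ∑ k, tr (Iio m) (a k) i • tr (Iio m) (b k) = tr (Iio m) (ρ i) := by
        simp [ρ, tr_mem _ (mem_Iio.2 hi)]
      rw [this]
      ext l
      by_cases hl : l ∈ Iio m
      · rw [tr_mem _ hl]
      · rw [tr_not _ hl]
        exact off i l (hi.trans_le (not_lt.1 hl)).ne (Or.inr (not_lt.1 hl))
    · have : ρ m = lp.single 1 m (ρ m m) := by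
        ext l
        by_cases hl : l = m
        · subst hl; simp
        · rw [lp.single_apply_ne _ _ _ hl]
          exact off m l (Ne.symm hl) (Or.inl le_rfl)
      change row x m (ρ m) = _
      rw [this, row, lift_single]
      simp [tr_not, zz]
    · change row x i (ρ i) = _
      simp [hm i hi, tr_not _ (notMem_Iio.2 hi.le), hi.ne']
  rw [← e, e2, ← add_assoc]
  refine add_mem (mem_sup_left (add_mem (mem_sup_left hg) (mem_sup_right (sum_mem fun k _ =>
    subset_span ⟨_, _, fun i => tr_not _, fun i => tr_not _, rfl⟩))))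
    (mem_sup_right (smul_mem _ _ (subset_span rfl)))

theorem bilin : ∃ β : L1 Om →L[ℂ] L1 Om →L[ℂ] ZZ, (∀ z, ∃ a b, β a b = z) ∧
    ∀ (n : ℕ) (l : List (L1 Om × L1 Om)), (l.map fun p => β p.1 p.2).sum = ee n →
      (n : ℝ) ≤ (l.map fun p => ‖p.1‖ * ‖p.2‖).sum := by
  classical
  obtain ⟨y, hy⟩ := exists_tasks ZZ (card_L1 (by
    rw [mk_sum, lift_id, lift_id]
    exact add_le_of_le aleph0_le_continuum (mk_le_aleph0.trans aleph0_le_continuum)
      (le_c_prod mk_Om.le mk_Om.le)))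
  let ex : (p : Om) → (Iio p → B1) → Om → B1 := fun p g i => if h : i < p then g ⟨i, h⟩ else ⟨0, by simp⟩
  obtain ⟨x, hx⟩ := Syn.wfc (fun (p : Om) (g : Iio p → B1) (w : B1) =>
      (∀ i l, w.1.1 (.inr (i, l)) ≠ 0 → i < p ∧ l < p) ∧
      (((0 : ZZ), (1 : ℂ)) ∉ Sp (ex p g) (Iio p) →
        ((0 : ZZ), (1 : ℂ)) ∉ Sp (ex p g) (Iio p) ⊔ span ℂ {w.1}) ∧
      ((∀ i l, y p (.inr (i, l)) ≠ 0 → i < p ∧ l < p) → ∃ t : ℂ, t ≠ 0 ∧ w.1.1 = t • y p)) (by
    intro p g
    by_cases hp : ∀ i l, y p (.inr (i, l)) ≠ 0 → i < p ∧ l < p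
    swap
    · exact ⟨⟨0, by simp⟩, by simp, by simp, fun h => absurd h hp⟩
    obtain ⟨c, hc⟩ : ∃ c : ℂ, ((0 : ZZ), (1 : ℂ)) ∉ Sp (ex p g) (Iio p) →
        ((0 : ZZ), (1 : ℂ)) ∉ Sp (ex p g) (Iio p) ⊔ span ℂ {(y p, c)} := by
      by_cases h : ∃ c : ℂ, (y p, c) ∈ Sp (ex p g) (Iio p)
      · obtain ⟨c, hc⟩ := h
        exact ⟨c, by rw [sup_eq_left.2 ((span_singleton_le_iff_mem _ _).2 hc)]; exact id⟩
      · refine ⟨0, fun h1 h2 => h ?_⟩
        obtain ⟨s, hs, w, hw, e⟩ := mem_sup.1 h2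
        obtain ⟨t, rfl⟩ := mem_span_singleton.1 hw
        have ht : t ≠ 0 := by rintro rfl; exact h1 (by simpa [← e] using hs)
        refine ⟨-t⁻¹, ?_⟩
        convert smul_mem _ (-t⁻¹) hs using 1
        rw [eq_sub_of_add_eq e]
        ext1 <;> simp [smul_smul, ht]
    have pos : (0 : ℝ) < 1 + ‖(y p, c)‖ := by positivity
    have ne : (((1 + ‖(y p, c)‖)⁻¹ : ℝ) : ℂ) ≠ 0 := by simpa using (by exact_mod_cast pos.ne')
    refine ⟨⟨(((1 + ‖(y p, c)‖)⁻¹ : ℝ) : ℂ) • (y p, c), ?_⟩, fun i l h => hp i l fun h' => h ?_, ?_,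
      fun _ => ⟨_, ne, rfl⟩⟩
    · rw [norm_smul, Complex.norm_real, Real.norm_of_nonneg (inv_nonneg.2 pos.le), inv_mul_le_iff₀ pos]
      linarith
    · simp [h']
    · rwa [span_singleton_smul_eq ne.isUnit])
  have hex : ∀ p, Sp (ex p fun i => x i) (Iio p) = Sp x (Iio p) := fun p =>
    Sp_congr fun i hi => dif_pos hi
  simp only [hex] at hx
  have all : ∀ p, ((0 : ZZ), (1 : ℂ)) ∉ Sp x (Iio p) := by
    intro p
    induction p using WellFoundedLT.induction with
    | ind p ih =>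
      intro h
      obtain ⟨m, hm, h'⟩ := key x (fun p => (hx p).1) _ h
      exact (hx m).2.1 (ih m hm) h'
  have top : ((0 : ZZ), (1 : ℂ)) ∉ Sp x univ := fun h => by
    obtain ⟨m, -, h'⟩ := key x (fun p => (hx p).1) _ h
    exact (hx m).2.1 (all m) h'
  refine ⟨(ContinuousLinearMap.compL ℂ _ _ _ (ContinuousLinearMap.fst ℂ ZZ ℂ)).comp (bil x),
    fun z => ?_, fun n l hl => ?_⟩
  · have hc : {q : Om × Om | z (.inr q) ≠ 0}.Countable :=
      ((nrm z).summable.countable_support.preimage Sum.inr_injective).mono fun q hq => by simpa using hq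
    have hu := hy z _ ((hc.image Prod.fst).union (hc.image Prod.snd))
    obtain ⟨p, rfl, hp⟩ := (Set.Infinite.nonempty fun h => hu h.countable)
    obtain ⟨t, ht, e⟩ := (hx p).2.2 fun i l h =>
      ⟨hp i (Or.inl ⟨(i, l), h, rfl⟩), hp l (Or.inr ⟨(i, l), h, rfl⟩)⟩
    refine ⟨lp.single 1 p t⁻¹, lp.single 1 p 1, ?_⟩
    simp [bil, row, lift_single, zz, e, smul_smul, ht]
  · have h1 : (l.map fun p => bil x p.1 p.2).sum ∈ Sp x univ :=
      list_sum_mem fun w hw => by
        obtain ⟨p, -, rfl⟩ := List.mem_map.1 hw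
        exact mem_sup_right (subset_span ⟨_, _, by simp, by simp, rfl⟩)
    have h2 : (l.map fun p => bil x p.1 p.2).sum.1 = ee n := by
      rw [← hl]
      induction l with
      | nil => simp
      | cons p l ih =>
        simpa [Function.comp_def] using List.sum_map_hom l _ (AddMonoidHom.fst ZZ ℂ) |>.symm
    have h3 : ‖(l.map fun p => bil x p.1 p.2).sum‖ ≤ (l.map fun p => ‖p.1‖ * ‖p.2‖).sum := by
      clear h1 h2 hl
      induction l with
      | nil => simp
      | cons p l ih => simpa using norm_add_le_of_le (bil_le x _ _) ih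
    set w := (l.map fun p => bil x p.1 p.2).sum
    have h4 : w.2 = n := by
      by_contra hc
      refine top ?_
      convert smul_mem _ (w.2 - n)⁻¹ (sub_mem h1 (mem_sup_left (subset_span ⟨n, rfl⟩))) using 1
      ext1 <;> simp [h2, sub_ne_zero.2 hc]
    refine le_trans ?_ ((norm_snd_le w).trans h3)
    simp [h4]

end Pool.Agent.H15.Ps
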