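import Pool.Agent.H15.Ps1
import Pool.Agent.H41.PropSDefs

set_option autoImplicit false

namespace Pool.Agent.H15.Ps
open Function Filter Topology Set Pool.Agent.H15.Psc Pool.Agent.H41.PropS OnePoint

section env
variable {B : Type} [NormedRing B] [NormedAlgebra ℂ B]

/-- convergent sequences of operators whose limit lies in `A0` -/
noncomputable def Env (A0 : NonUnitalSubalgebra ℂ B) :
    NonUnitalSubalgebra ℂ C(OnePoint ℕ, B) where
  carrier := {f | f ∞ ∈ A0}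
  add_mem' := fun {f g} ha hb => show f ∞ + g ∞ ∈ A0 from add_mem ha hb
  zero_mem' := zero_mem A0
  mul_mem' := fun {f g} ha hb => show f ∞ * g ∞ ∈ A0 from mul_mem ha hb
  smul_mem' := fun c f ha => show c • f ∞ ∈ A0 from SMulMemClass.smul_mem c ha

variable (A0 : NonUnitalSubalgebra ℂ B)

/-- constants -/
noncomputable def cst (T : B) (h : T ∈ A0) : Env A0 := ⟨ContinuousMap.const _ T, h⟩

lemma env_complete [CompleteSpace B] (h : IsClosed (A0 : Set B)) :
    CompleteSpace (Env A0) :=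
  (h.preimage (continuous_eval_const (∞ : OnePoint ℕ))).completeSpace_coe

lemma env_rad (hB : ∀ T : B, T ≠ 0 → ∃ R : B, ∀ U : B, U * R * T + U - 1 ≠ 0) :
    rad (Env A0) = {0} := by
  classical
  refine Subset.antisymm (fun f hf => ?_) (by rintro _ rfl; simp [rad])
  have key : ∀ n : ℕ, f.1 n = 0 := by
    intro n
    by_contra hv
    obtain ⟨R, hR⟩ := hB _ hv
    let g : Env A0 := ⟨continuousMapMkNat (fun k => if k = n then R else 0) 0
      (tendsto_const_nhds.congr' ((eventually_ne_atTop n).mono fun k hk => (if_neg hk).symm)),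
      zero_mem A0⟩
    let ev : Env A0 →ₙₐ[ℂ] B :=
      { toFun := fun a => a.1 n
        map_smul' := fun _ _ => rfl
        map_zero' := rfl
        map_add' := fun _ _ => rfl
        map_mul' := fun _ _ => rfl }
    have hf' : (f : Unitization ℂ (Env A0)) ∈ Ideal.jacobson ⊥ := by
      rw [Ideal.jacobson_bot]; exact hf
    obtain ⟨z, hz⟩ := Ideal.mem_jacobson_iff.1 hf' (g : Unitization ℂ (Env A0))
    have h1 := congrArg (Unitization.lift ev) (Ideal.mem_bot.1 hz)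
    have h2 : ev g = R := if_pos rfl
    have h3 : ev f = f.1 n := rfl
    refine hR (Unitization.lift ev z) ?_
    rw [map_sub, map_add, map_mul, map_mul, map_one, map_zero] at h1
    simpa [h2, h3] using h1
  refine Subtype.ext (ContinuousMap.ext fun x => ?_)
  exact (denseRange_coe (X := ℕ)).induction_on (p := fun x => f.1 x = 0) x
    (isClosed_eq f.1.continuous continuous_const) key

lemma env_sq (h : ∀ T (hT : T ∈ A0), cst A0 T hT ∈ Sq (Env A0)) : Sq (Env A0) = univ := by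
  refine eq_univ_of_forall fun f => ?_
  let k : ℕ → B := fun n => f.1 n - f.1 ∞
  have hk : Tendsto (fun n => √‖k n‖) atTop (𝓝 0) := by
    have := ((continuous_iff_from_nat _).1 f.1.continuous).sub_const (f.1 ∞)
    rw [sub_self] at this
    simpa using this.norm.sqrt
  let a : Env A0 := ⟨continuousMapMkNat (fun n => ((√‖k n‖ : ℝ) : ℂ) • (1 : B)) 0 (by
    simpa using ((Complex.continuous_ofReal.tendsto 0).comp hk).smul_const (1 : B)),
    zero_mem A0⟩
  let b : Env A0 := ⟨continuousMapMkNat (fun n => ((√‖k n‖ : ℝ) : ℂ)⁻¹ • k n) 0 (by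
    refine squeeze_zero_norm (fun n => ?_) hk
    rw [norm_smul, norm_inv, Complex.norm_real, Real.norm_of_nonneg (Real.sqrt_nonneg _),
      ← div_eq_inv_mul, Real.div_sqrt]), zero_mem A0⟩
  have : f = cst A0 _ f.2 + a * b := by
    refine Subtype.ext (ContinuousMap.ext fun x => ?_)
    induction x using OnePoint.rec with
    | infty => change f.1 ∞ = f.1 ∞ + 0 * 0; simp
    | coe n =>
      change f.1 n = f.1 ∞ + (((√‖k n‖ : ℝ) : ℂ) • (1 : B)) * (((√‖k n‖ : ℝ) : ℂ)⁻¹ • k n)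
      rw [smul_mul_assoc, one_mul, smul_smul]
      by_cases h0 : k n = 0
      · rw [h0, smul_zero, add_zero]; exact sub_eq_zero.1 h0
      · rw [mul_inv_cancel₀ (by simpa using h0), one_smul]; simp [k]
  rw [this]
  exact add_mem (h _ _) (Submodule.subset_span ⟨(a, b), rfl⟩)

theorem env_main [CompleteSpace B] (hc : IsClosed (A0 : Set B))
    (hB : ∀ T : B, T ≠ 0 → ∃ R : B, ∀ U : B, U * R * T + U - 1 ≠ 0)
    (hs : ∀ T ∈ A0, ∃ l : List (B × B), (∀ p ∈ l, p.1 ∈ A0 ∧ p.2 ∈ A0) ∧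
      T = (l.map fun p => p.1 * p.2).sum)
    (hn : ∀ n : ℕ, ∃ T ∈ A0, ‖T‖ ≤ 1 ∧ ∀ l : List (B × B), (∀ p ∈ l, p.1 ∈ A0 ∧ p.2 ∈ A0) →
      T = (l.map fun p => p.1 * p.2).sum → (n : ℝ) ≤ (l.map fun p => ‖p.1‖ * ‖p.2‖).sum) :
    ∃ (A : Type) (_ : NonUnitalNormedRing A) (_ : NormedSpace ℂ A)
    (_ : IsScalarTower ℂ A A) (_ : SMulCommClass ℂ A A) (_ : CompleteSpace A),
    rad A = {0} ∧ Sq A = univ ∧ ¬ HasS A := by
  have sq : Sq (Env A0) = univ := by
    refine env_sq _ fun T hT => ?_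
    obtain ⟨l, hl, rfl⟩ := hs T hT
    induction l with
    | nil => exact zero_mem (Submodule.span ℂ _)
    | cons p l ih =>
      have h1 := hl p (by simp)
      have h2 : (l.map fun p => p.1 * p.2).sum ∈ A0 := list_sum_mem fun x hx => by
        obtain ⟨q, hq, rfl⟩ := List.mem_map.1 hx
        exact mul_mem (hl q (by simp [hq])).1 (hl q (by simp [hq])).2
      have h3 : cst A0 _ h1.1 * cst A0 _ h1.2 ∈ Sq (Env A0) :=
        Submodule.subset_span ⟨(cst A0 _ h1.1, cst A0 _ h1.2), rfl⟩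
      exact Submodule.add_mem _ h3 (ih (fun q hq => hl q (by simp [hq])) h2)
  refine ⟨Env A0, inferInstance, ⟨fun c f => norm_smul_le c f.1⟩, inferInstance, inferInstance,
    env_complete _ hc, env_rad _ hB, sq, ?_⟩
  rintro ⟨C, hC, h⟩
  obtain ⟨n, hn'⟩ := exists_nat_gt C
  obtain ⟨T, hT, n1, hl⟩ := hn n
  obtain ⟨l, h1, h2⟩ := h (cst _ T hT) (sq ▸ mem_univ _)
  have n2 : ‖cst _ T hT‖ ≤ 1 := (ContinuousMap.norm_le _ zero_le_one).2 fun x => n1
  let F : Env A0 × Env A0 → B × B := fun p => (p.1.1 ∞, p.2.1 ∞)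
  have e1 : ∀ l : List (Env A0 × Env A0), (l.map fun p : Env A0 × Env A0 => p.1 * p.2).sum.1 ∞ =
      ((l.map F).map fun p => p.1 * p.2).sum := by
    intro l
    induction l with
    | nil => rfl
    | cons p l ih => simp only [List.map_cons, List.sum_cons, ← ih]; rfl
  have e2 := hl (l.map F) (fun q hq => by
    obtain ⟨p, -, rfl⟩ := List.mem_map.1 hq
    exact ⟨p.1.2, p.2.2⟩) (by rw [← e1, ← h1]; rfl)
  have e3 : ((l.map F).map fun p => ‖p.1‖ * ‖p.2‖).sum ≤ (l.map fun p => ‖p.1‖ * ‖p.2‖).sum := by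
    rw [List.map_map]
    exact List.sum_le_sum fun p _ => mul_le_mul (p.1.1.norm_coe_le_norm ∞)
      (p.2.1.norm_coe_le_norm ∞) (norm_nonneg _) (norm_nonneg _)
  nlinarith

end env

lemma op_rad {E : Type} [NormedAddCommGroup E] [NormedSpace ℂ E] (T : E →L[ℂ] E) (hT : T ≠ 0) :
    ∃ R : E →L[ℂ] E, ∀ U : E →L[ℂ] E, U * R * T + U - 1 ≠ 0 := by
  obtain ⟨v, hv⟩ : ∃ v, T v ≠ 0 := by
    by_contra! h
    exact hT (ContinuousLinearMap.ext h)
  obtain ⟨φ, -, hφ⟩ := exists_dual_vector ℂ (T v) (norm_ne_zero_iff.2 hv)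
  refine ⟨(-(‖T v‖ : ℂ)⁻¹) • φ.smulRight v, fun U h => hv ?_⟩
  have := congrArg (fun S : E →L[ℂ] E => S v) h
  have h1 : (‖T v‖ : ℂ)⁻¹ • ‖T v‖ • U v = U v := by
    rw [← Complex.coe_smul, smul_smul, inv_mul_cancel₀ (by simpa using hv), one_smul]
  have h2 : v = 0 := by simpa [hφ, h1] using this
  simp [h2]

/-- the space acted on -/
abbrev EE := ZZ × L1 Om × L1 Om × ℂ × ℂ

variable (β : L1 Om →L[ℂ] L1 Om →L[ℂ] ZZ)

open ContinuousLinearMap in
/-- the operators -/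
noncomputable def op (t : ℂ) (n m : L1 Om) (z : ZZ) : EE →L[ℂ] EE :=
  let p2 : EE →L[ℂ] L1 Om × L1 Om × ℂ × ℂ := snd ℂ _ _
  let p3 : EE →L[ℂ] L1 Om × ℂ × ℂ := (snd ℂ _ _).comp p2
  let p4 : EE →L[ℂ] ℂ × ℂ := (snd ℂ _ _).comp p3
  let μ : EE →L[ℂ] L1 Om := (fst ℂ _ _).comp p3
  let s : EE →L[ℂ] ℂ := (fst ℂ _ _).comp p4
  let s' : EE →L[ℂ] ℂ := (snd ℂ _ _).comp p4
  ((β n).comp μ + s.smulRight z).prod ((s'.smulRight n).prod ((t • μ + s.smulRight m).prod
    ((0 : EE →L[ℂ] ℂ).prod (t • s'))))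

lemma op_apply (t : ℂ) (n m : L1 Om) (z : ZZ) (v : EE) : op β t n m z v =
    (β n v.2.2.1 + v.2.2.2.1 • z, v.2.2.2.2 • n, t • v.2.2.1 + v.2.2.2.1 • m, 0, t * v.2.2.2.2) := rfl

lemma op_mul (t t' : ℂ) (n m n' m' : L1 Om) (z z' : ZZ) :
    op β t n m z * op β t' n' m' z' = op β (t * t') (t' • n) (t • m') (β n m') := by
  refine ContinuousLinearMap.ext fun v => ?_
  simp [op_apply, smul_smul, mul_comm, mul_left_comm]

lemma op_add (t t' : ℂ) (n m n' m' : L1 Om) (z z' : ZZ) :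
    op β t n m z + op β t' n' m' z' = op β (t + t') (n + n') (m + m') (z + z') := by
  refine ContinuousLinearMap.ext fun v => ?_
  simp [op_apply, add_smul, add_mul, add_add_add_comm]

/-- first test vector -/
noncomputable def v1 : EE := (0, 0, 0, 0, 1)
/-- second test vector -/
noncomputable def v2 : EE := (0, 0, 0, 1, 0)

/-- the operator algebra -/
noncomputable def A0 : NonUnitalSubalgebra ℂ (EE →L[ℂ] EE) where
  carrier := {T | ∃ t n m z, T = op β t n m z}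
  add_mem' := by
    rintro _ _ ⟨t, n, m, z, rfl⟩ ⟨t', n', m', z', rfl⟩
    exact ⟨_, _, _, _, op_add ..⟩
  zero_mem' := ⟨0, 0, 0, 0, ContinuousLinearMap.ext fun v => by simp [op_apply]; rfl⟩
  mul_mem' := by
    rintro _ _ ⟨t, n, m, z, rfl⟩ ⟨t', n', m', z', rfl⟩
    exact ⟨_, _, _, _, op_mul ..⟩
  smul_mem' := by
    rintro c _ ⟨t, n, m, z, rfl⟩
    exact ⟨c * t, c • n, c • m, c • z, ContinuousLinearMap.ext fun v => by
      simp [op_apply, smul_smul, mul_comm, mul_left_comm]⟩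

lemma A0_closed : IsClosed (A0 β : Set (EE →L[ℂ] EE)) := by
  have : (A0 β : Set (EE →L[ℂ] EE)) = ⋂ v, {T | T v = (β (T v1).2.1 v.2.2.1 + v.2.2.2.1 • (T v2).1,
      v.2.2.2.2 • (T v1).2.1, (T v1).2.2.2.2 • v.2.2.1 + v.2.2.2.1 • (T v2).2.2.1, 0,
      (T v1).2.2.2.2 * v.2.2.2.2)} := by
    ext T
    simp only [mem_iInter, mem_ofPred_eq]
    refine ⟨?_, fun h => ⟨_, _, _, _, ContinuousLinearMap.ext h⟩⟩
    rintro ⟨t, n, m, z, rfl⟩ v
    simp [op_apply, v1, v2]
  rw [this]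
  exact isClosed_iInter fun v => isClosed_eq (by fun_prop) (by fun_prop)

theorem main : ∃ (A : Type) (_ : NonUnitalNormedRing A) (_ : NormedSpace ℂ A)
    (_ : IsScalarTower ℂ A A) (_ : SMulCommClass ℂ A A) (_ : CompleteSpace A),
    rad A = {0} ∧ Sq A = univ ∧ ¬ HasS A := by
  obtain ⟨β, hs, hb⟩ := bilin
  have mem : ∀ t n m z, op β t n m z ∈ A0 β := fun t n m z => ⟨t, n, m, z, rfl⟩
  refine env_main (A0 β) (A0_closed β) op_rad ?_ fun n => ⟨op β 0 0 0 (ee n), mem .., ?_, ?_⟩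
  · rintro _ ⟨t, n, m, z, rfl⟩
    obtain ⟨a, b, rfl⟩ := hs z
    refine ⟨[(op β t n 0 0, op β 1 0 0 0), (op β 1 0 0 0, op β 0 0 m 0),
      (op β 0 a 0 0, op β 0 0 b 0)], by simp [mem], ?_⟩
    simp [op_mul, op_add]
  · refine ContinuousLinearMap.opNorm_le_bound _ zero_le_one fun v => ?_
    simp [op_apply, ee, norm_smul, lp.norm_single, Prod.norm_def]
  intro l hl h1
  let F : (EE →L[ℂ] EE) × (EE →L[ℂ] EE) → L1 Om × L1 Om := fun p => ((p.1 v1).2.1, (p.2 v2).2.2.1)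
  have e1 : ((l.map F).map fun p => β p.1 p.2).sum = ((l.map fun p => p.1 * p.2).sum v2).1 := by
    clear h1
    induction l with
    | nil => rfl
    | cons p l ih =>
      simp only [List.map_cons, List.sum_cons, ih fun q hq => hl q (by simp [hq])]
      change _ = ((p.1 * p.2) v2).1 + _
      congr 1
      obtain ⟨⟨t, n, m, z, e⟩, t', n', m', z', e'⟩ := hl p (by simp)
      simp [F, e, e', op_mul, op_apply, v1, v2]
  refine (hb n (l.map F) (by rw [e1, ← h1]; simp [op_apply, v2])).trans ?_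
  rw [List.map_map]
  refine List.sum_le_sum fun p _ => ?_
  have k : ∀ (f : EE →L[ℂ] EE) (v : EE), ‖v‖ ≤ 1 → ‖f v‖ ≤ ‖f‖ := fun f v hv =>
    (f.le_opNorm v).trans (mul_le_of_le_one_right (norm_nonneg _) hv)
  refine mul_le_mul ?_ ?_ (norm_nonneg _) (norm_nonneg _)
  · exact (norm_fst_le (p.1 v1).2).trans ((norm_snd_le _).trans (k p.1 v1 (by simp [v1, Prod.norm_def])))
  · exact (norm_fst_le (p.2 v2).2.2).trans ((norm_snd_le _).trans ((norm_snd_le _).trans
      (k p.2 v2 (by simp [v2, Prod.norm_def]))))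

end Pool.Agent.H15.Ps
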