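import Mathlib
import Pool.Agent.H15.Psc9

set_option autoImplicit false

namespace Pool.Agent.H15.Psc
open Function Filter Topology Pointwise

lemma precomp {A Γ : Type} [CommGroup A] [TopologicalSpace A] [AddCommGroup Γ]
    {ev : Additive A →+ Γ →+ T} (hi : IsInducing fun g => (ev g : Γ → T)) (U : Set A)
    (hU : U ∈ 𝓝 (1 : A)) : ∃ F : Set A, F.Finite ∧ F * U = Set.univ := by
  obtain ⟨W, hW, hs⟩ : ∃ W ∈ 𝓝 (0 : Γ → T), (fun g => (ev g : Γ → T)) ⁻¹' W ⊆ U := by
    have := hi.nhds_eq_comap (0 : Additive A)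
    rw [map_zero] at this
    exact mem_comap.1 (this.ge hU)
  obtain ⟨t, ht⟩ := (isClosed_closure (s := Set.range fun g => (ev g : Γ → T))).isCompact.elim_finite_subcover
    (fun h : Additive A => {x | x - ev h ∈ interior W})
    (fun h => isOpen_interior.preimage (continuous_id.sub continuous_const)) fun x hx => by
      obtain ⟨_, h1, h, rfl⟩ := mem_closure_iff.1 hx {y | x - y ∈ interior W}
        (isOpen_interior.preimage (continuous_const.sub continuous_id))
        (by simpa using mem_interior_iff_mem_nhds.2 hW)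
      exact Set.mem_iUnion.2 ⟨h, h1⟩
  refine ⟨(t : Set (Additive A)), t.finite_toSet, Set.eq_univ_of_forall fun a => ?_⟩
  obtain ⟨h, h1, h2⟩ := Set.mem_iUnion₂.1 (ht (subset_closure ⟨Additive.ofMul a, rfl⟩))
  refine ⟨h.toMul, h1, a / h.toMul, hs (a := Additive.ofMul a - h) ?_, by simp⟩
  show (ev (Additive.ofMul a - h) : Γ → T) ∈ W
  rw [map_sub]
  exact interior_subset h2

/-- the integers, to carry the Bohr topology -/
def ZB : Type := Multiplicative ℤ

instance : CommGroup ZB := inferInstanceAs (CommGroup (Multiplicative ℤ))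

/-- evaluation -/
def zev : Additive ZB →+ (ℤ →+ T) →+ T := AddMonoidHom.eval (M := ℤ) (N := T)

instance : TopologicalSpace ZB := .induced (fun g => (zev (Additive.ofMul g) : (ℤ →+ T) → T)) inferInstance

lemma zind : IsInducing fun g => (zev g : (ℤ →+ T) → T) := ⟨rfl⟩

lemma zfill : Fill zev.flip := fun φ _ _ => ⟨φ, fun _ _ => rfl⟩

instance : IsTopologicalGroup ZB :=
  have : IsTopologicalAddGroup (Additive ZB) := zind.topologicalAddGroup
    (AddMonoidHom.mk' (fun g => (zev g : (ℤ →+ T) → T)) fun a b => by rw [map_add]; rfl)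
  inferInstanceAs (IsTopologicalGroup (Multiplicative (Additive ZB)))

instance : T2Space ZB := (IsEmbedding.mk zind zfill.inj).t2Space

universe u

theorem no_img (G : Type u) [CommGroup G] [TopologicalSpace G]
    (h1 : ∀ U ∈ 𝓝 (1 : G), ∃ F : Set G, F.Finite ∧ F * U = Set.univ)
    (h2 : ∃ e : G ≃ₜ* PontryaginDual (PontryaginDual G), ∀ x χ, e x χ = χ x)
    (f : G →* ZB) (hf : Continuous f) : ¬ Surjective f := by
  intro hs
  obtain ⟨e, he⟩ := h2
  let n : ZB →* Multiplicative ℤ := MonoidHom.id _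
  let Φ : T → PontryaginDual G := fun t =>
    { toFun := fun g => ((n (f g)).toAdd • t).toCircle
      map_one' := by simp
      map_mul' := fun a b => by simp [add_zsmul, AddCircle.toCircle_add]
      continuous_toFun := AddCircle.continuous_toCircle.comp
        ((cont_ev zind (zmultiplesHom T t)).comp hf) }
  have hΦ : Continuous Φ := by
    refine (ContinuousMonoidHom.isInducing_toContinuousMap G Circle).continuous_iff.2
      (continuous_iff_continuousAt.2 fun t => ContinuousMap.tendsto_nhds_compactOpen.2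
        fun K k U hU h => ?_)
    have : ∀ᶠ s in 𝓝 t, ∀ a ∈ f '' K, ((n a).toAdd • s).toCircle ∈ U :=
      (eventually_all_finite (zfill.fin_compact zind (k.image hf))).2 (by
        rintro _ ⟨a, ha, rfl⟩
        exact (AddCircle.continuous_toCircle.comp (continuous_id.zsmul _)).continuousAt.eventually
          (hU.mem_nhds (h ha)))
    exact this.mono fun s hs a ha => hs _ ⟨a, ha, rfl⟩
  have ho := (ContinuousMap.isOpen_setOfPred_mapsTo (isCompact_range hΦ) (U := {z | ‖lg z‖ < 1 / 2})
    (isOpen_lt lg.continuous.norm continuous_const)).preimage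
      ((ContinuousMonoidHom.isInducing_toContinuousMap _ Circle).continuous.comp e.continuous)
  obtain ⟨F, F1, F2⟩ := h1 _ (ho.mem_nhds fun χ _ => by
    show ‖lg (e 1 χ)‖ < _
    rw [he, map_one, lg_one]; norm_num)
  refine Set.infinite_univ (α := ℤ) ((F1.image fun g => (n (f g)).toAdd).subset fun k _ => ?_)
  obtain ⟨g, hg⟩ := hs (Multiplicative.ofAdd k)
  obtain ⟨a, ha, b, hb, rfl⟩ : g ∈ F * _ := F2 ▸ Set.mem_univ g
  refine ⟨a, ha, ?_⟩
  have : (n (f b)).toAdd = 0 := by
    by_contra hne
    obtain ⟨t, ht⟩ := dvT _ hne ((1 / 2 : ℝ) : T)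
    have : ‖lg (e b (Φ t))‖ < 1 / 2 := hb ⟨t, rfl⟩
    rw [he, show lg (Φ t b) = _ from (lg_to _).trans ht, norm_coe_T (by norm_num [abs_of_pos])] at this
    norm_num [abs_of_pos] at this
  have h3 : (n (f (a * b))).toAdd = k := congrArg Multiplicative.toAdd hg
  rwa [map_mul, map_mul, toAdd_mul, this, add_zero] at h3

end Pool.Agent.H15.Psc
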