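import Pool.Agent.H15.NL1
import Pool.Agent.H15.Rfl3

set_option autoImplicit false

namespace Pool.Agent.H15.SQ
open Set Filter Topology Function Cardinal Psc NL

/-- the Cantor set -/
abbrev C := ℕ → Bool

lemma exh (T : Type) [Countable T] [Nonempty T] :
    ∃ H : ℕ → Finset T, Monotone H ∧ ∀ t, ∃ n, t ∈ H n := by
  classical
  obtain ⟨f, hf⟩ := exists_surjective_nat T
  refine ⟨fun n => (Finset.range n).image f, fun m n h =>
    Finset.image_subset_image (Finset.range_mono h), fun t => ?_⟩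
  obtain ⟨n, rfl⟩ := hf t
  exact ⟨n + 1, Finset.mem_image_of_mem _ (by simp)⟩

lemma cun {J T : Type} [Countable J] (B : J → Set T) (h : ∀ j, #(B j) < 𝔠) : #(⋃ j, B j) < 𝔠 := by
  refine (mk_iUnion_le _).trans_lt (mul_lt_of_lt aleph0_le_continuum
    (mk_le_aleph0.trans_lt aleph0_lt_continuum)
    (iSup_lt_of_lt_cof_ord (mk_le_aleph0.trans_lt ?_) h))
  rw [← two_power_aleph0]
  exact lt_cof_ord_power le_rfl (by norm_num)

lemma ne_of_unc {ι : Type} {M A : Set ι} (hM : ¬ M.Countable) (hA : A.Countable) : ∃ a ∈ M, a ∉ A := by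
  by_contra! h
  exact hM (hA.mono h)

variable {ι K J : Type}

lemma cond [Countable K] (d : ι → K → ℕ) (M : Set ι) :
    {α | ∃ F : Finset K, {γ ∈ M | ∀ k ∈ F, d γ k = d α k}.Countable ∧ α ∈ M}.Countable := by
  classical
  refine ((to_countable {H : Finset (K × ℕ) | {γ ∈ M | ∀ q ∈ H, d γ q.1 = q.2}.Countable}).biUnion
    fun H hH => hH).mono ?_
  rintro α ⟨F, h1, h2⟩
  refine mem_biUnion (x := F.image fun k => (k, d α k)) ?_ (And.intro h2 (by simp))
  simpa using h1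

lemma shrink (v : ι → J → C) (H : Finset J) {M : Set ι} (hM : ¬ M.Countable) :
    ∃ M' ⊆ M, ¬ M'.Countable ∧ ∀ j ∈ H, (∃ w, ∀ α ∈ M', v α j = w) ∨
      ∀ w, {α ∈ M' | v α j = w}.Countable := by
  classical
  induction H using Finset.induction_on with
  | empty => exact ⟨M, Subset.rfl, hM, by simp⟩
  | insert j H _ ih =>
    obtain ⟨M', h1, h2, h3⟩ := ih
    by_cases h : ∀ w, {α ∈ M' | v α j = w}.Countable
    · exact ⟨M', h1, h2, Finset.forall_mem_insert _ _ _ |>.2 ⟨Or.inr h, h3⟩⟩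
    push Not at h
    obtain ⟨w, hw⟩ := h
    refine ⟨_, fun α hα => h1 hα.1, hw, Finset.forall_mem_insert _ _ _ |>.2
      ⟨Or.inl ⟨w, fun α hα => hα.2⟩, fun i hi => (h3 i hi).imp ?_ ?_⟩⟩
    · exact fun ⟨u, hu⟩ => ⟨u, fun α hα => hu α hα.1⟩
    · exact fun h u => (h u).mono fun α hα => And.intro hα.1.1 hα.2

variable (pos : J → ℕ → K) (lab : J → K)

/-- the coded points of the Cantor set -/
def sv (x : K → ℕ) (j : J) : C := fun k => x (pos j k) == 1

/-- labels depend on the values only -/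
def Cons (x : K → ℕ) : Prop := ∀ j j', sv pos x j = sv pos x j' → x (lab j) = x (lab j')

lemma step [Countable K] (d : ι → K → ℕ) (hd : ∀ α, Cons pos lab (d α)) (FK : Finset K) (H : Finset J)
    (M : {M : Set ι // ¬ M.Countable}) : ∃ N : Bool → {M : Set ι // ¬ M.Countable},
    (∀ b, (N b).1 ⊆ M.1 ∧ (∀ α ∈ (N b).1, ∀ β ∈ (N b).1, ∀ k ∈ FK, d α k = d β k) ∧
      ∀ j ∈ H, ∀ j' ∈ H, (∀ α ∈ (N b).1, d α (lab j) = d α (lab j')) ∨
        ∃ k, ∀ α ∈ (N b).1, sv pos (d α) j k ≠ sv pos (d α) j' k) ∧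
    ∀ j ∈ H, (∃ w, ∀ b, ∀ α ∈ (N b).1, sv pos (d α) j = w) ∨
      ∃ k, ∀ α ∈ (N false).1, ∀ β ∈ (N true).1, sv pos (d α) j k ≠ sv pos (d β) j k := by
  obtain ⟨M', h1, h2, h3⟩ := shrink (fun α => sv pos (d α)) H M.2
  obtain ⟨a0, h4, h5⟩ := ne_of_unc h2 (cond d M')
  obtain ⟨a1, h6, h7⟩ := ne_of_unc h2 ((cond d M').union
    ((H.countable_toSet.mono (inter_subset_left (t := {j | ∀ w, {α ∈ M' |
      sv pos (d α) j = w}.Countable}))).biUnion fun j hj => hj.2 (sv pos (d a0) j)))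
  let a : Bool → ι := fun b => if b then a1 else a0
  have ha : ∀ b (F : Finset K), ¬ {γ ∈ M' | ∀ k ∈ F, d γ k = d (a b) k}.Countable := by
    rintro (_ | _) F h
    · exact h5 ⟨F, h, h4⟩
    · exact h7 (Or.inl ⟨F, h, h6⟩)
  have ev : ∀ k, ∀ᶠ F : Finset K in atTop, k ∈ F := fun k =>
    (eventually_ge_atTop {k}).mono fun F h => h (by simp)
  have e1 : ∀ᶠ F : Finset K in atTop, ∀ b, ∀ j ∈ H, ∀ j' ∈ H,
      (∀ α, (∀ k ∈ F, d α k = d (a b) k) → d α (lab j) = d α (lab j')) ∨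
      ∃ k, ∀ α, (∀ k ∈ F, d α k = d (a b) k) → sv pos (d α) j k ≠ sv pos (d α) j' k := by
    simp only [eventually_all, eventually_all_finset]
    intro b j _ j' _
    by_cases h : sv pos (d (a b)) j = sv pos (d (a b)) j'
    · filter_upwards [ev (lab j), ev (lab j')] with F k1 k2
      exact Or.inl fun α hα => by rw [hα _ k1, hα _ k2, hd _ _ _ h]
    · obtain ⟨k, hk⟩ := ne_iff.1 h
      filter_upwards [ev (pos j k), ev (pos j' k)] with F k1 k2
      exact Or.inr ⟨k, fun α hα => by simpa only [sv, hα _ k1, hα _ k2] using hk⟩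
  have e2 : ∀ᶠ F : Finset K in atTop, ∀ j ∈ H, (∃ w, ∀ α ∈ M', sv pos (d α) j = w) ∨
      ∃ k, ∀ α β, (∀ k ∈ F, d α k = d a0 k) → (∀ k ∈ F, d β k = d a1 k) →
        sv pos (d α) j k ≠ sv pos (d β) j k := by
    simp only [eventually_all_finset]
    intro j hj
    rcases h3 j hj with h | h
    · exact Eventually.of_forall fun _ => Or.inl h
    obtain ⟨k, hk⟩ := ne_iff.1 fun h' => h7 (Or.inr (mem_biUnion (x := j) ⟨hj, h⟩ (And.intro h6 h')))
    filter_upwards [ev (pos j k)] with F k1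
    exact Or.inr ⟨k, fun α β hα hβ => by simpa only [sv, hα _ k1, hβ _ k1] using hk.symm⟩
  obtain ⟨F, k1, k2, k3⟩ := (e1.and (e2.and (eventually_ge_atTop FK))).exists
  refine ⟨fun b => ⟨_, ha b F⟩, fun b => ⟨fun α hα => h1 hα.1, fun α hα β hβ k hk =>
    (hα.2 k (k3 hk)).trans (hβ.2 k (k3 hk)).symm, fun j hj j' hj' => (k1 b j hj j' hj').imp
    (fun h α hα => h α hα.2) fun ⟨k, h⟩ => ⟨k, fun α hα => h α hα.2⟩⟩, fun j hj => (k2 j hj).imp
    (fun ⟨w, h⟩ => ⟨w, fun b α hα => h α hα.1⟩) fun ⟨k, h⟩ => ⟨k, fun α hα β hβ => h α β hα.2 hβ.2⟩⟩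

variable [Countable K] [Countable J] [Nonempty K] [Nonempty J]

theorem perf (d : ι → K → ℕ) (hd : ∀ α, Cons pos lab (d α)) {M : Set ι} (hM : ¬ M.Countable)
    {U : Set C} (hU : #U < 𝔠) : ∃ x : K → ℕ,
    (∀ F : Finset K, ¬ {α ∈ M | ∀ k ∈ F, d α k = x k}.Countable) ∧ Cons pos lab x ∧
    ∀ j, sv pos x j ∈ U → ¬ {α ∈ M | sv pos (d α) j = sv pos x j ∧ d α (lab j) = x (lab j)}.Countable := by
  classical
  obtain ⟨FK, m1, s1⟩ := exh K
  obtain ⟨H, m2, s2⟩ := exh J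
  choose f f1 f2 using fun n => step pos lab d hd (FK n) (H n)
  let sq : C → ℕ → {M : Set ι // ¬ M.Countable} := fun b =>
    Nat.rec ⟨M, hM⟩ fun n N => f n N (b n)
  have anti : ∀ b, Antitone fun n => (sq b n).1 := fun b =>
    antitone_nat_of_succ_le fun n => (f1 n _ _).1
  have loc : ∀ b b' n, (∀ i < n, b i = b' i) → sq b n = sq b' n := by
    intro b b' n h
    induction n with
    | zero => rfl
    | succ n ih =>
      change f n (sq b n) (b n) = f n (sq b' n) (b' n)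
      rw [ih fun i hi => h i (by omega), h n (by omega)]
  choose el hel using fun b n => Set.Infinite.nonempty fun h => (sq b n).2 h.countable
  choose nk hnk using s1
  let x : C → K → ℕ := fun b k => d (el b (nk k + 1)) k
  have hx : ∀ b k, ∀ᶠ n in atTop, ∀ α ∈ (sq b n).1, d α k = x b k := fun b k =>
    (eventually_ge_atTop (nk k + 1)).mono fun n hn α hα =>
      (f1 _ _ _).2.1 α (anti b hn hα) _ (hel b (nk k + 1)) k (hnk k)
  have hx' : ∀ b (F : Finset K) n, ∃ m ≥ n, ∀ α ∈ (sq b m).1, ∀ k ∈ F, d α k = x b k := fun b F n => by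
    obtain ⟨m, h1, h2⟩ := (((eventually_all_finset F).2 fun k _ => hx b k).and
      (eventually_ge_atTop n)).exists
    exact ⟨m, h2, fun α hα k hk => h1 k hk α hα⟩
  choose nj hnj using s2
  obtain ⟨b, hb⟩ : ∃ b, b ∉ ⋃ j, {b | (¬ ∃ n w, ∀ α ∈ (sq b n).1, sv pos (d α) j = w) ∧
      sv pos (x b) j ∈ U} := by
    by_contra hc
    refine (cun _ fun j => ?_).ne (by
      rw [eq_univ_of_forall fun b => by_contra fun h => hc ⟨b, h⟩]; simp)
    refine (mk_le_of_injective (f := fun b => ((fun i : Fin (nj j) => b.1 i),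
      (⟨_, b.2.2⟩ : U))) ?_).trans_lt ?_
    · rintro ⟨b, h1, h2⟩ ⟨b', h3, h4⟩ e
      by_contra hne
      have hex : ∃ n, b n ≠ b' n := ne_iff.1 fun h => hne (Subtype.ext h)
      have k1 := Nat.find_spec hex
      have k2 : nj j ≤ Nat.find hex := not_lt.1 fun h => by
        have := congrFun (congrArg Prod.fst e) ⟨_, h⟩
        exact k1 this
      have k3 := loc b b' (Nat.find hex) fun i hi => not_not.1 (Nat.find_min hex hi)
      generalize Nat.find hex = n at k1 k2 k3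
      rcases f2 n (sq b n) j (m2 k2 (hnj j)) with ⟨w, h⟩ | ⟨k, h⟩
      · exact h1 ⟨n + 1, w, h _⟩
      obtain ⟨m, k4, k5⟩ := hx' b {pos j k} (n + 1)
      obtain ⟨m', k6, k7⟩ := hx' b' {pos j k} (n + 1)
      have k8 : el b m ∈ (f n (sq b n) (b n)).1 := anti b k4 (hel b m)
      have k9 : el b' m' ∈ (f n (sq b n) (b' n)).1 := k3 ▸ anti b' k6 (hel b' m')
      have k10 : sv pos (d (el b m)) j k = sv pos (d (el b' m')) j k := by
        simpa only [sv, k5 _ (hel b m) _ (Finset.mem_singleton_self _),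
          k7 _ (hel b' m') _ (Finset.mem_singleton_self _)] using
          congrFun (congrArg Subtype.val (congrArg Prod.snd e)) k
      cases hbn : b n <;> cases hbn' : b' n <;> simp only [hbn, hbn'] at k1 k8 k9
      · exact k1 rfl
      · exact h _ k8 _ k9 k10
      · exact h _ k9 _ k8 k10.symm
      · exact k1 rfl
    · rw [mk_prod, lift_id, lift_id]
      exact mul_lt_of_lt aleph0_le_continuum (mk_le_aleph0.trans_lt aleph0_lt_continuum) hU
  refine ⟨x b, fun F h => ?_, fun j j' e => ?_, fun j hj h => ?_⟩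
  · obtain ⟨m, -, h1⟩ := hx' b F 0
    exact (sq b m).2 (h.mono fun α hα => And.intro (anti b (Nat.zero_le m) hα) (h1 α hα))
  · rcases (f1 (nj j + nj j') (sq b _) (b _)).2.2 j (m2 (by omega) (hnj j)) j'
      (m2 (by omega) (hnj j')) with h | ⟨k, h⟩
    · obtain ⟨m, k4, k5⟩ := hx' b {lab j, lab j'} (nj j + nj j' + 1)
      rw [← k5 _ (hel b m) _ (by simp), ← k5 _ (hel b m) (lab j') (by simp)]
      exact h _ (anti b k4 (hel b m))
    · obtain ⟨m, k4, k5⟩ := hx' b {pos j k, pos j' k} (nj j + nj j' + 1)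
      refine absurd ?_ (h _ (anti b k4 (hel b m)))
      simpa only [sv, k5 _ (hel b m) (pos j k) (by simp), k5 _ (hel b m) (pos j' k) (by simp)]
        using congrFun e k
  · obtain ⟨n, w, h1⟩ : ∃ n w, ∀ α ∈ (sq b n).1, sv pos (d α) j = w := by
      by_contra hc
      exact hb (mem_iUnion.2 ⟨j, hc, hj⟩)
    obtain rfl : sv pos (x b) j = w := funext fun k => by
      obtain ⟨m, k4, k5⟩ := hx' b {pos j k} n
      simpa only [sv, k5 _ (hel b m) (pos j k) (by simp)] using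
        congrFun (h1 _ (anti b k4 (hel b m))) k
    obtain ⟨m, k4, k5⟩ := hx' b {lab j} n
    exact (sq b m).2 (h.mono fun α hα => And.intro (anti b (Nat.zero_le m) hα) ⟨h1 α (anti b k4 hα),
      k5 α hα _ (by simp)⟩)

theorem bern : ∃ typ : C → ℕ, ∀ (ι : Type) (d : ι → K → ℕ) (M : Set ι), ¬ M.Countable →
    (∀ α, Cons pos lab (d α)) →
    (∀ j v, {α ∈ M | sv pos (d α) j = v ∧ d α (lab j) ≠ typ v}.Countable) →
    ∃ x : K → ℕ, (∀ F : Finset K, ¬ {α ∈ M | ∀ k ∈ F, d α k = x k}.Countable) ∧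
      ∀ j, typ (sv pos x j) = x (lab j) := by
  classical
  obtain ⟨e, he⟩ := exists_tasks (Set (Finset (K × ℕ))) (by
    rw [mk_set, ← two_power_aleph0]
    exact power_le_power_left two_ne_zero mk_le_aleph0)
  let Ok : (ξ : Om) → (Iio ξ → Option (K → ℕ)) → (K → ℕ) → Prop := fun ξ g y =>
    (∀ H : Finset (K × ℕ), (∀ q ∈ H, y q.1 = q.2) → H ∈ e ξ) ∧ Cons pos lab y ∧
      ∀ η z, g η = some z → ∀ j j', sv pos y j = sv pos z j' → y (lab j) = z (lab j')
  obtain ⟨w, hw⟩ := Syn.wfc (fun ξ g (w : Option (K → ℕ)) => (∀ y, w = some y → Ok ξ g y) ∧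
      ((∃ y, Ok ξ g y) → ∃ y, w = some y)) (by
    intro ξ g
    by_cases h : ∃ y, Ok ξ g y
    · obtain ⟨y, hy⟩ := h
      exact ⟨some y, by rintro _ ⟨⟩; exact hy, fun _ => ⟨y, rfl⟩⟩
    · exact ⟨none, by simp, fun h' => absurd h' h⟩)
  have : ∀ v, ∃ n, ∀ ξ y j, w ξ = some y → sv pos y j = v → y (lab j) = n := fun v => by
    by_cases h : ∃ ξ y j, w ξ = some y ∧ sv pos y j = v
    · obtain ⟨ξ, y, j, h1, rfl⟩ := h
      refine ⟨y (lab j), fun η z j' h2 h3 => ?_⟩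
      rcases lt_trichotomy ξ η with h | rfl | h
      · exact ((hw η).1 z h2).2.2 ⟨ξ, h⟩ y h1 _ _ h3
      · obtain rfl := Option.some.inj (h1.symm.trans h2)
        exact ((hw ξ).1 y h1).2.1 _ _ h3
      · exact (((hw ξ).1 y h1).2.2 ⟨η, h⟩ z h2 _ _ h3.symm).symm
    · exact ⟨0, fun ξ y j h1 h2 => absurd ⟨ξ, y, j, h1, h2⟩ h⟩
  choose typ ht using this
  refine ⟨typ, fun ι d M hM hd hc => ?_⟩
  obtain ⟨ξ, hξ, -⟩ := Set.Infinite.nonempty fun h =>
    he {H | ¬ {α ∈ M | ∀ q ∈ H, d α q.1 = q.2}.Countable} ∅ countable_empty h.countable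
  obtain ⟨x, h1, h2, h3⟩ := perf pos lab d hd hM
    (U := ⋃ j, range fun η : Iio ξ => sv pos ((w η).getD 0) j)
    (cun _ fun j => mk_range_le.trans_lt (Om_Iio ξ))
  obtain ⟨y, hy⟩ := (hw ξ).2 ⟨x, fun H hH => by
    rw [hξ]
    exact fun h => h1 (H.image Prod.fst) (h.mono fun α hα => And.intro hα.1 fun q hq =>
      (hα.2 _ (Finset.mem_image_of_mem _ hq)).trans (hH q hq)), h2, fun η z hz j j' h => by
    obtain ⟨α, k1, k2⟩ := ne_of_unc (h3 j (mem_iUnion.2 ⟨j', η, by simp [hz, h]⟩)) (hc j (sv pos x j))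
    rw [← k1.2.2, ht _ η z j' hz h.symm]
    by_contra hne
    exact k2 ⟨k1.1, k1.2.1, hne⟩⟩
  refine ⟨y, fun F => ?_, fun j => (ht _ ξ y j hy rfl).symm⟩
  have := ((hw ξ).1 y hy).1 (F.image fun k => (k, y k)) (by simp)
  rw [hξ] at this
  simpa using this

end Pool.Agent.H15.SQ
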