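import Pool.Agent.H15.SQ1

set_option autoImplicit false

namespace Pool.Agent.H15.SQ
open Set Filter Topology Function NL

/-- nodes of the binary tree -/
abbrev Nd := List Bool
/-- initial segments -/
def pre (r : C) (n : ℕ) : Nd := (List.range n).map r
/-- a node lies on a branch -/
def On (r : C) (τ : Nd) : Prop := pre r τ.length = τ

@[simp] lemma len_pre (r : C) (n : ℕ) : (pre r n).length = n := by simp [pre]

lemma on_pre (r : C) (n : ℕ) : On r (pre r n) := by simp [On]

lemma pre_eq {r r' : C} {n : ℕ} : pre r n = pre r' n ↔ ∀ i < n, r i = r' i := by simp [pre]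

lemma on_congr {r r' : C} {n : ℕ} (h : pre r n = pre r' n) {τ : Nd} (hn : τ.length ≤ n) :
    On r τ ↔ On r' τ := by
  unfold On
  rw [pre_eq.2 fun i hi => pre_eq.1 h i (hi.trans_le hn)]

lemma ex_on (τ : Nd) : ∃ r, On r τ := ⟨fun i => τ.getD i false, List.ext_getElem (by simp)
  fun i h1 h2 => by simp [pre, h2]⟩

lemma off {A : Finset C} {r : C} (h : r ∉ A) : ∀ᶠ n in atTop, ∀ a ∈ A, ¬ On a (pre r n) := by
  refine (eventually_all_finset A).2 fun a ha => ?_
  obtain ⟨i, hi⟩ := ne_iff.1 (show a ≠ r from fun e => h (e ▸ ha))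
  exact (eventually_gt_atTop i).mono fun n hn e => hi (pre_eq.1 (by simpa [On] using e) i hn)

/-- indices of coded branches -/
abbrev JJ := ℕ ⊕ Nd × ℕ
/-- positions of the data -/
abbrev KK := JJ × ℕ ⊕ JJ ⊕ Nd × Option Nd ⊕ Nd ⊕ Option ℕ
/-- positions of bits -/
def pos (j : JJ) (k : ℕ) : KK := .inl (j, k)
/-- positions of labels -/
def lab (j : JJ) : KK := .inr (.inl j)

/-- the Bernstein type labelling -/
noncomputable def typ : C → ℕ := (bern pos lab).choose

/-- the points -/
inductive Pt : Type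
  | lo (τ : Nd) (o : Option Nd) : Pt
  | tp (r : C) (h : typ r = 0) (x : ZMod 3) : Pt
  | inf : Pt

open Pt

/-- the branch inside a block -/
def Br (r : C) : Option Nd → Prop
  | none => False
  | some σ => On r σ

open Classical in
/-- colours -/
noncomputable def col (r : C) (n : ℕ) (o : Option Nd) : ZMod 3 := if Br r o then n + 1 else n

/-- small branches of a block -/
def TT (τ : Nd) : Set C := {r | ¬ (On r τ ∧ typ r = τ.length + 1)}

/-- columns -/
def In (a : C) : Pt → Prop
  | lo τ _ => On a τ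
  | tp r _ _ => r = a
  | inf => False

/-- the filters -/
def Ev : Pt → (Pt → Prop) → Prop
  | lo _ (some _), _ => True
  | lo τ none, P => ∃ A : Finset C, ↑A ⊆ TT τ ∧ ∃ n, ∀ σ : Nd, n ≤ σ.length → (∀ a ∈ A, ¬ On a σ) →
      P (lo τ (some σ))
  | tp r _ x, P => ∃ n, ∀ m, n ≤ m → ∀ o, col r m o = x → P (lo (pre r m) o)
  | inf, P => ∃ A : Finset C, ∀ z, (∀ a ∈ A, ¬ In a z) → P z

lemma ev_and {z : Pt} {P Q S : Pt → Prop} (h1 : Ev z P) (h2 : Ev z Q) (h : ∀ w, P w → Q w → S w) :
    Ev z S := by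
  classical
  rcases z with ⟨τ, _ | σ⟩ | ⟨r, hr, x⟩ | _
  · obtain ⟨A, a1, n, a2⟩ := h1
    obtain ⟨B, b1, m, b2⟩ := h2
    exact ⟨A ∪ B, by simp [a1, b1], n + m, fun σ k1 k2 => h _
      (a2 σ (by omega) fun a ha => k2 a (by simp [ha])) (b2 σ (by omega) fun a ha => k2 a (by simp [ha]))⟩
  · trivial
  · obtain ⟨n, a2⟩ := h1
    obtain ⟨m, b2⟩ := h2
    exact ⟨n + m, fun k k1 o k2 => h _ (a2 k (by omega) o k2) (b2 k (by omega) o k2)⟩
  · obtain ⟨A, a2⟩ := h1
    obtain ⟨B, b2⟩ := h2
    exact ⟨A ∪ B, fun z k2 => h _ (a2 z fun a ha => k2 a (by simp [ha]))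
      (b2 z fun a ha => k2 a (by simp [ha]))⟩

lemma ev_true (z : Pt) {P : Pt → Prop} (h : ∀ w, P w) : Ev z P := by
  rcases z with ⟨τ, _ | σ⟩ | ⟨r, hr, x⟩ | _
  · exact ⟨∅, by simp, 0, fun _ _ _ => h _⟩
  · trivial
  · exact ⟨0, fun _ _ _ _ => h _⟩
  · exact ⟨∅, fun _ _ => h _⟩

/-- the functions which will be continuous -/
def Good (g : Pt → Bool) : Prop := ∀ z, Ev z fun w => g w = g z

/-- the embedding -/
def emb (z : Pt) (g : {g // Good g}) : Bool := g.1 z

instance : TopologicalSpace Pt := .induced emb inferInstance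

lemma cont_iff {g : Pt → Bool} : Continuous g ↔ Good g := by
  classical
  refine ⟨fun h z => ?_, fun h => (continuous_apply (⟨g, h⟩ : {g // Good g})).comp
    (continuous_induced_dom (f := emb))⟩
  obtain ⟨V, h1, h2⟩ := (mem_nhds_induced emb z _).1
    (((isOpen_discrete {g z}).preimage h).mem_nhds rfl)
  rw [nhds_pi] at h1
  obtain ⟨B, h3, v, h4, h5⟩ := Filter.mem_pi.1 h1
  have : ∀ T : Finset {g // Good g}, Ev z fun w => ∀ f ∈ T, f.1 w = f.1 z := fun T => by
    induction T using Finset.induction_on with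
    | empty => exact ev_true _ (by simp)
    | insert f T _ ih => exact ev_and (f.2 z) ih fun w k1 k2 => by simpa using ⟨k1, by simpa using k2⟩
  refine ev_and (this h3.toFinset) (this ∅) fun w k _ => h2 (h5 fun f hf => ?_)
  rw [show emb w f = emb z f from k f (h3.mem_toFinset.2 hf)]
  exact mem_of_mem_nhds (h4 f)

open Classical in
/-- colourings of a column -/
noncomputable def W (r : C) (φ : ZMod 3 → Bool) : Pt → Bool
  | lo τ o => decide (On r τ) && φ (col r τ.length o)
  | tp r' _ x => decide (r' = r) && φ x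
  | inf => false

lemma good_W {r : C} (h : typ r = 0) (φ : ZMod 3 → Bool) : Good (W r φ) := by
  rintro (⟨τ, _ | σ⟩ | ⟨r', hr, x⟩ | _)
  · exact ⟨{r}, by simp [TT, h], 0, fun σ _ k => by simp [W, col, Br, k r (by simp)]⟩
  · trivial
  · by_cases e : r' = r
    · subst e
      exact ⟨0, fun m _ o k => by simp [W, on_pre, k]⟩
    · obtain ⟨n, hn⟩ := eventually_atTop.1 (off (A := {r}) (r := r') (by simpa using e))
      exact ⟨n, fun m k o _ => by simp [W, e, hn m k r (by simp)]⟩
  · refine ⟨{r}, ?_⟩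
    rintro (⟨τ, o⟩ | ⟨r', hr, x⟩ | _) k
    · simp [W, show ¬ On r τ from k r (by simp)]
    · simp [W, show ¬ r' = r from k r (by simp)]
    · rfl

lemma W_loc (z : Pt) : ∀ᶠ n in atTop, ∀ r r' φ, pre r n = pre r' n →
    (∀ a h x, z = tp a h x → a ≠ r ∧ a ≠ r') → W r φ z = W r' φ z := by
  rcases z with ⟨τ, _ | σ⟩ | ⟨a, ha, x⟩ | _
  · filter_upwards [eventually_ge_atTop τ.length] with n k r r' φ e _
    have := on_congr e k
    by_cases h : On r τ <;> simp_all [W, col, Br]
  · filter_upwards [eventually_ge_atTop τ.length, eventually_ge_atTop σ.length] with n k k' r r' φ e _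
    have := on_congr e k
    have := on_congr e k'
    by_cases h : On r τ <;> by_cases h' : On r σ <;> simp_all [W, col, Br]
  · exact Eventually.of_forall fun n r r' φ _ h => by simp [W, h a ha x rfl]
  · exact Eventually.of_forall fun n r r' φ _ _ => rfl

lemma sepa (τ : Nd) (o : Option Nd) (z : Pt) (h1 : lo τ o ≠ z) (h2 : z ≠ lo τ none) :
    emb (lo τ o) ≠ emb z := by
  classical
  let g : Pt → Bool := fun w => decide ((∃ u, w = lo τ u) ∧ w ≠ z)
  have hg : Good g := by
    rintro (⟨τ', _ | σ⟩ | ⟨r', hr, x⟩ | _)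
    · refine ⟨∅, by simp, ?_⟩
      rcases z with ⟨τ'', _ | σ⟩ | _ | _
      · refine ⟨0, fun σ' _ _ => ?_⟩
        have : τ ≠ τ'' := by rintro rfl; exact h2 rfl
        by_cases e : τ' = τ
        · simp [g, e, this]
        · simp [g, e]
      · refine ⟨σ.length + 1, fun σ' k _ => ?_⟩
        have : σ' ≠ σ := by rintro rfl; omega
        simp [g, this]
      · exact ⟨0, fun σ' _ _ => by simp [g]⟩
      · exact ⟨0, fun σ' _ _ => by simp [g]⟩
    · trivial
    · refine ⟨τ.length + 1, fun m k o _ => ?_⟩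
      have : pre r' m ≠ τ := by rintro rfl; simp at k
      simp [g, this]
    · obtain ⟨r, hr⟩ := ex_on τ
      refine ⟨{r}, fun w k => ?_⟩
      have : ¬ ∃ u, w = lo τ u := by rintro ⟨u, rfl⟩; exact k r (by simp) hr
      simp only [g, this]; simp
  intro e
  simpa [emb, g, h1] using congrFun e ⟨g, hg⟩

lemma emb_inj : Injective emb := by
  have k1 : ∀ τ o z, emb (lo τ o) = emb z → lo τ o = z := fun τ o z e => by
    by_contra h
    by_cases h2 : z = lo τ none
    · subst h2
      exact sepa τ none _ (Ne.symm h) h e.symm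
    · exact sepa τ o z h h2 e
  have k2 : ∀ r h x z, emb (tp r h x) = emb z → tp r h x = z := fun r h x z e => by
    have := congrFun e ⟨_, good_W h fun y => decide (y = x)⟩
    rcases z with _ | ⟨r', hr, x'⟩ | _
    · exact (k1 _ _ _ e.symm).symm
    · simp only [emb, W, decide_true, Bool.and_self, Bool.true_eq, Bool.and_eq_true,
        decide_eq_true_eq] at this
      obtain ⟨rfl, rfl⟩ := this
      rfl
    · simp [emb, W] at this
  rintro (_ | _ | _) z e
  · exact k1 _ _ _ e
  · exact k2 _ _ _ _ e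
  · rcases z with _ | _ | _
    · exact (k1 _ _ _ e.symm).symm
    · exact (k2 _ _ _ _ e.symm).symm
    · rfl

lemma emb_emb : IsEmbedding emb := ⟨⟨rfl⟩, emb_inj⟩

lemma dens (F : Finset Pt) (σ : Pt → Bool) : ∃ g : G Pt, ∀ x ∈ F, g.1 x = σ x := by
  classical
  obtain ⟨g, hg⟩ := dense (F.image emb) (extend emb σ fun _ => false)
  exact ⟨⟨g.1 ∘ emb, g.2.comp emb_emb.continuous⟩, fun x hx =>
    (hg _ (Finset.mem_image_of_mem _ hx)).trans (emb_inj.extend_apply _ _ _)⟩

lemma zdim : TopologicalSpace.IsTopologicalBasis {U : Set Pt | IsClopen U} :=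
  (isTopologicalBasis_isClopen.isInducing emb_emb.isInducing).of_isOpen_of_subset
    (fun _ h => h.isOpen) (by rintro _ ⟨V, h, rfl⟩; exact h.preimage emb_emb.continuous)

instance : Uncountable C := Cardinal.aleph0_lt_mk_iff.1 (by simpa using Cardinal.aleph0_lt_continuum)

lemma exE : ∃ ε : C → {r // typ r = 0}, Injective ε := by
  have : ∀ w : C, ∃ r, typ r = 0 ∧ ∀ i, r (2 * i) = w i := fun w => by
    let v : C → C := fun u n => if n % 2 = 0 then w (n / 2) else u (n / 2)
    let d : C → KK → ℕ := fun u => Sum.elim (fun q => (v u q.2).toNat) fun _ => 0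
    have hs : ∀ u j, sv pos (d u) j = v u := fun u j => funext fun k => by
      simp only [sv, d, pos, Sum.elim_inl]; cases v u k <;> rfl
    obtain ⟨x, h1, h2⟩ := (bern pos lab).choose_spec C d univ not_countable_univ (fun _ _ _ _ => rfl)
      fun j a => Set.Subsingleton.countable fun u hu u' hu' => funext fun i => by
        have := congrFun ((hs u j).symm.trans (hu.2.1.trans (hu'.2.1.symm.trans (hs u' j)))) (2 * i + 1)
        simpa [v, Nat.add_div] using this
    refine ⟨sv pos x (.inl 0), (h2 _).trans ?_, fun i => ?_⟩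
    · obtain ⟨u, -, h⟩ := Set.Infinite.nonempty fun h => h1 {lab (.inl 0)} h.countable
      exact (h _ (by simp)).symm
    · obtain ⟨u, -, h⟩ := Set.Infinite.nonempty fun h => h1 {pos (.inl 0) (2 * i)} h.countable
      have := congrFun (hs u (.inl 0)) (2 * i)
      simpa [sv, h _ (Finset.mem_singleton_self _), v] using this
  choose ε h1 h2 using this
  exact ⟨fun w => ⟨ε w, h1 w⟩, fun a b e => funext fun i => by
    rw [← h2 a, ← h2 b, show ε a = ε b from congrArg Subtype.val e]⟩

end Pool.Agent.H15.SQ
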