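import Pool.Agent.H15.SQ2

set_option autoImplicit false

namespace Pool.Agent.H15.SQ
open Set Filter Topology Function NL Pt CC

/-- branches carrying a nontrivial top -/
def tops (e : G Pt) : Set C := {r | ∃ h x, e.1 (tp r h x) ≠ e.1 inf}

lemma enum {A : Finset C} {T : Set C} (h : ↑A ⊆ T) {t : C} (ht : t ∈ T) (n : ℕ) :
    ∃ (N : ℕ) (s : ℕ → C), n ≤ N ∧ (∀ j, s j ∈ T) ∧ ∀ a ∈ A, ∃ j < N, s j = a := by
  refine ⟨A.toList.length + n, fun j => A.toList.getD j t, by omega, fun j => ?_, fun a ha => ?_⟩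
  · rcases lt_or_ge j A.toList.length with k | k
    · simp only [List.getD_eq_getElem _ _ k]
      exact h (Finset.mem_toList.1 (List.getElem_mem k))
    · simp only [List.getD_eq_default _ _ k]; exact ht
  · obtain ⟨j, k, e⟩ := List.getElem_of_mem (Finset.mem_toList.2 ha)
    exact ⟨j, by omega, by simp only [List.getD_eq_getElem _ _ k, e]⟩

theorem acc {ι : Type} [Uncountable ι] (e : ι → G Pt) (R : Finset C)
    (dis : ∀ α β r, r ∉ R → r ∈ tops (e α) → r ∈ tops (e β) → α = β) :
    ∃ g : G Pt, tops g ⊆ R ∧ ∀ F, ∃ α, Ag F (e α) g := by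
  classical
  obtain ⟨ε, -⟩ := exE
  have gd := fun α => cont_iff.1 (e α).2
  have : ∀ α, ∃ (m : ℕ) (rc : ℕ → C), ∀ z, (∀ i < m, ¬ In (rc i) z) → (e α).1 z = (e α).1 inf := by
    intro α
    obtain ⟨A, hA⟩ := gd α inf
    obtain ⟨N, s, -, -, h⟩ := enum (subset_univ (A : Set C)) (mem_univ fun _ => true) 0
    exact ⟨N, s, fun z hz => hA z fun a ha => by obtain ⟨j, k, rfl⟩ := h a ha; exact hz j k⟩
  choose m rc hrc using this
  have : ∀ α τ, ∃ (N : ℕ) (s : ℕ → C), (∀ j, s j ∈ TT τ) ∧ ∀ σ : Nd, N ≤ σ.length →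
      (∀ j < N, ¬ On (s j) σ) → (e α).1 (lo τ (some σ)) = (e α).1 (lo τ none) := by
    intro α τ
    obtain ⟨A, h1, n, hA⟩ := gd α (lo τ none)
    obtain ⟨N, s, h2, h3, h⟩ := enum h1 (t := ε fun _ => true) (by simp [TT, (ε _).2]) n
    exact ⟨N, s, h3, fun σ k hz => hA σ (h2.trans k) fun a ha => by
      obtain ⟨j, k, rfl⟩ := h a ha; exact hz j k⟩
  choose N s hs1 hs2 using this
  have : ∀ α r, ∃ n, ∀ h : typ r = 0, ∀ k, n ≤ k → ∀ o,
      (e α).1 (lo (pre r k) o) = (e α).1 (tp r h (col r k o)) := by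
    intro α r
    by_cases h : typ r = 0
    · choose n hn using fun x => gd α (tp r h x)
      exact ⟨Finset.univ.sup n, fun _ k hk o => hn _ k ((Finset.le_sup (Finset.mem_univ _)).trans hk) o rfl⟩
    · exact ⟨0, fun h' => absurd h' h⟩
  choose thr hthr using this
  have : ∀ α r, ∃ n, typ r = 0 → ∀ o, (e α).1 (lo (pre r n) o) = (e α).1 (lo (pre r n) none) := by
    intro α r
    by_cases h : typ r = 0
    swap
    · exact ⟨0, fun h' => absurd h' h⟩
    obtain ⟨y, hy⟩ := (by decide : ∀ φ : ZMod 3 → Bool, ∃ y, φ (y + 1) = φ y) fun x => (e α).1 (tp r h x)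
    refine ⟨3 * thr α r + y.val, fun _ o => ?_⟩
    have : ((3 * thr α r + y.val : ℕ) : ZMod 3) = y := by
      push_cast
      rw [show (3 : ZMod 3) = 0 from rfl]; simp
    rw [hthr α r h _ (by omega), hthr α r h _ (by omega)]
    simp only [col, this, Br, if_false]
    split_ifs
    · exact hy
    · rfl
  choose nn hnn using this
  obtain ⟨⟨b0, pt⟩, hM⟩ := unc not_countable_univ (fun α => ((e α).1 inf, fun r : R => (thr α r,
    fun x => if h : typ r = 0 then (e α).1 (tp r h x) else false))) countable_univ fun _ _ => trivial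
  set M := {α ∈ (univ : Set ι) | _}
  have m1 : ∀ α ∈ M, (e α).1 inf = b0 := fun α hα => congrArg Prod.fst hα.2
  have m2 : ∀ α ∈ M, ∀ r (hr : r ∈ R), thr α r = (pt ⟨r, hr⟩).1 ∧
      ∀ h x, (e α).1 (tp r h x) = (pt ⟨r, hr⟩).2 x := fun α hα r hr => by
    have := congrFun (congrArg Prod.snd hα.2) ⟨r, hr⟩
    refine ⟨congrArg Prod.fst this, fun h x => ?_⟩
    simpa [h] using congrFun (congrArg Prod.snd this) x
  let val : ι → JJ → C := fun α => Sum.elim (rc α) fun p => s α p.1 p.2
  let L : ι → C → ℕ := fun α v => if v ∈ tops (e α) ∧ v ∉ R then nn α v + 1 else typ v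
  let d : ι → KK → ℕ := fun α => Sum.elim (fun q => (val α q.1 q.2).toNat) (Sum.elim
    (fun j => L α (val α j)) (Sum.elim (fun q => ((e α).1 (lo q.1 q.2)).toNat) (Sum.elim (N α)
    fun o => o.elim (m α) fun i => thr α (rc α i))))
  have tn : ∀ b : Bool, (b.toNat == 1) = b := by decide
  have hs : ∀ α j, sv pos (d α) j = val α j := fun α j => funext fun k => tn _
  obtain ⟨x, h1, h2⟩ := (bern pos lab).choose_spec ι d M hM
    (fun α j j' h => congrArg (L α) (by rwa [hs, hs] at h)) fun j v =>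
      Set.Subsingleton.countable fun α hα β hβ => by
        have k : ∀ α, sv pos (d α) j = v → d α (lab j) ≠ typ v → v ∈ tops (e α) ∧ v ∉ R := by
          intro α k1 k2
          by_contra k3
          rw [hs] at k1
          exact k2 (show L α (val α j) = _ by rw [k1]; exact if_neg k3)
        exact dis α β v (k α hα.2.1 hα.2.2).2 (k α hα.2.1 hα.2.2).1 (k β hβ.2.1 hβ.2.2).1
  change ∀ j, typ _ = _ at h2
  let eb : Nd → Option Nd → KK := fun τ o => .inr (.inr (.inl (τ, o)))
  let kN : Nd → KK := fun τ => .inr (.inr (.inr (.inl τ)))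
  let km : Option ℕ → KK := fun o => .inr (.inr (.inr (.inr o)))
  let g : Pt → Bool := fun z => match z with
    | lo τ o => x (eb τ o) == 1
    | tp r _ y => if hr : r ∈ R then (pt ⟨r, hr⟩).2 y else b0
    | inf => b0
  have app : ∀ (F : Finset KK) (H : Finset JJ) (n : ℕ), ∃ α ∈ M, (∀ k ∈ F, d α k = x k) ∧
      (∀ j ∈ H, pre (val α j) n = pre (sv pos x j) n) ∧
      ∀ τ o, eb τ o ∈ F → (e α).1 (lo τ o) = g (lo τ o) := fun F H n => by
    obtain ⟨α, k1, k2⟩ := Set.Infinite.nonempty fun h =>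
      h1 (F ∪ (H ×ˢ Finset.range n).image fun q => pos q.1 q.2) h.countable
    refine ⟨α, k1, fun k hk => k2 k (by simp [hk]), fun j hj => pre_eq.2 fun i hi => ?_,
      fun τ o h => ?_⟩
    · rw [← hs]
      exact congrArg (· == 1) (k2 _ (Finset.mem_union_right _ (Finset.mem_image_of_mem
        (fun q : JJ × ℕ => pos q.1 q.2) (a := (j, i)) (by simp [hj, hi]))))
    · exact (tn _).symm.trans (congrArg (· == 1) (k2 (eb τ o) (by simp [h])))
  have ginf : ∀ τ o, (∀ i < x (km none), ¬ On (sv pos x (.inl i)) τ) → g (lo τ o) = b0 := by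
    intro τ o h
    obtain ⟨α, k1, k2, k3, k4⟩ := app {km none, eb τ o} ((Finset.range (x (km none))).image .inl)
      τ.length
    rw [← k4 τ o (by simp), ← m1 α k1]
    refine hrc α _ fun i hi => ?_
    have hi' : i < x (km none) := k2 (km none) (by simp) ▸ hi
    exact fun k => h i hi' ((on_congr (k3 (.inl i) (by simpa using hi')) le_rfl).1 k)
  have hg : Good g := by
    rintro (⟨τ, _ | σ⟩ | ⟨r, hr, y⟩ | _)
    · by_cases h : ∃ j, sv pos x (.inr (τ, j)) ∉ TT τ
      · obtain ⟨j, hj⟩ := h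
        obtain ⟨k5, k6⟩ := not_not.1 hj
        refine ⟨∅, by simp, 0, fun σ _ _ => ?_⟩
        obtain ⟨α, k1, k2, k3, k4⟩ := app {lab (.inr (τ, j)), eb τ none, eb τ (some σ)} {.inr (τ, j)}
          τ.length
        have k7 : On (s α τ j) τ := (on_congr (k3 (.inr (τ, j)) (by simp)) le_rfl).2 k5
        have k8 : L α (s α τ j) = τ.length + 1 := (k2 (lab (.inr (τ, j))) (by simp)).trans
          ((h2 _).symm.trans k6)
        simp only [L] at k8
        split_ifs at k8 with k9
        · obtain ⟨⟨k10, -⟩, -⟩ := k9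
          have := hnn α _ k10 (some σ)
          rw [Nat.succ.inj k8, k7] at this
          rw [← k4 τ none (by simp), ← k4 τ (some σ) (by simp), this]
        · exact absurd ⟨k7, k8⟩ (hs1 α τ j)
      push Not at h
      refine ⟨(Finset.range (x (kN τ))).image fun j => sv pos x (.inr (τ, j)), ?_, x (kN τ),
        fun σ k5 k6 => ?_⟩
      · intro a ha
        obtain ⟨j, -, rfl⟩ := Finset.mem_image.1 ha
        exact h j
      obtain ⟨α, k1, k2, k3, k4⟩ := app {kN τ, eb τ none, eb τ (some σ)}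
        ((Finset.range (x (kN τ))).image fun j => .inr (τ, j)) σ.length
      have k7 : N α τ = x (kN τ) := k2 (kN τ) (by simp)
      rw [← k4 τ none (by simp), ← k4 τ (some σ) (by simp)]
      refine hs2 α τ σ (k7 ▸ k5) fun j hj k => ?_
      have hj' := Finset.mem_range.2 (k7 ▸ hj)
      exact k6 _ (Finset.mem_image_of_mem _ hj') ((on_congr (k3 (.inr (τ, j))
        (Finset.mem_image_of_mem _ hj')) le_rfl).1 k)
    · trivial
    · by_cases hR : r ∈ R
      · refine ⟨(pt ⟨r, hR⟩).1, fun k hk o hc => ?_⟩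
        obtain ⟨α, k1, -, -, k4⟩ := app {eb (pre r k) o} ∅ 0
        rw [← k4 _ o (by simp), hthr α r hr k ((m2 α k1 r hR).1 ▸ hk), hc, (m2 α k1 r hR).2]
        exact (show g (tp r hr y) = _ from dif_pos hR).symm
      have gt : g (tp r hr y) = b0 := dif_neg hR
      by_cases h : ∃ i, sv pos x (.inl i) = r
      · obtain ⟨i, rfl⟩ := h
        refine ⟨x (km (some i)), fun k hk o _ => ?_⟩
        obtain ⟨n, k5, k6⟩ := ((off hR).and (eventually_ge_atTop k)).exists
        obtain ⟨α, k1, k2, k3, k4⟩ := app {km (some i), lab (.inl i), eb (pre (sv pos x (.inl i)) k) o}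
          {.inl i} n
        have k7 : pre (rc α i) n = _ := k3 (.inl i) (by simp)
        have k8 : L α (rc α i) = 0 := (k2 (lab (.inl i)) (by simp)).trans ((h2 _).symm.trans hr)
        simp only [L] at k8
        split_ifs at k8 with k9
        have k10 : thr α (rc α i) = x (km (some i)) := k2 (km (some i)) (by simp)
        rw [gt, ← k4 _ o (by simp), ← pre_eq.2 fun i hi => pre_eq.1 k7 i (hi.trans_le k6),
          hthr α _ k8 k (k10 ▸ hk), ← m1 α k1]
        by_contra k11
        exact k9 ⟨⟨k8, _, k11⟩, fun k12 => k5 _ k12 (k7 ▸ on_pre _ _)⟩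
      · obtain ⟨n, hn⟩ := eventually_atTop.1 (off (r := r)
          (A := (Finset.range (x (km none))).image fun i => sv pos x (.inl i)) fun k => by
            obtain ⟨i, -, k⟩ := Finset.mem_image.1 k
            exact h ⟨i, k⟩)
        exact ⟨n, fun k hk o _ => (ginf _ o fun i hi => hn k hk _
          (Finset.mem_image_of_mem _ (Finset.mem_range.2 hi))).trans gt.symm⟩
    · refine ⟨R ∪ (Finset.range (x (km none))).image fun i => sv pos x (.inl i), ?_⟩
      rintro (⟨τ, o⟩ | ⟨r, hr, y⟩ | _) k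
      · exact ginf τ o fun i hi => k _ (Finset.mem_union_right _
          (Finset.mem_image_of_mem _ (Finset.mem_range.2 hi)))
      · exact dif_neg fun h => k r (Finset.mem_union_left _ h) rfl
      · rfl
  refine ⟨⟨g, cont_iff.2 hg⟩, ?_, fun F => ?_⟩
  · rintro r ⟨h, y, k⟩
    by_contra hR
    exact k (dif_neg hR)
  let cd : Pt → KK := fun z => match z with
    | lo τ o => eb τ o
    | _ => km none
  obtain ⟨α, ⟨k1, k2⟩, k3⟩ := ne_of_unc (h1 (F.image cd)) (F.countable_toSet.biUnion
    (t := fun z _ => {α | ∃ r h y, z = tp r h y ∧ r ∉ R ∧ r ∈ tops (e α)}) fun z _ =>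
      Set.Subsingleton.countable (by
        rintro α ⟨r, h, y, rfl, k1, k2⟩ β ⟨r', h', y', k3, -, k4⟩
        cases k3
        exact dis α β r k1 k2 k4))
  refine ⟨α, ?_⟩
  rintro (⟨τ, o⟩ | ⟨r, hr, y⟩ | _) hz
  · exact (tn _).symm.trans (congrArg (· == 1) (k2 _ (Finset.mem_image_of_mem cd hz)))
  · by_cases hR : r ∈ R
    · exact ((m2 α k1 r hR).2 hr y).trans (show g (tp r hr y) = _ from dif_pos hR).symm
    · refine Eq.trans ?_ ((m1 α k1).trans (show g (tp r hr y) = _ from dif_neg hR).symm)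
      by_contra k4
      exact k3 (mem_biUnion hz ⟨r, hr, y, rfl, hR, hr, y, k4⟩)
  · exact m1 α k1

lemma lind0 (R : Finset C) : IsLindelof {e : G Pt | tops e ⊆ R} := by
  classical
  let Q := (Nd × Option Nd) ⊕ Option (R × ZMod 3)
  let ι : Q → Pt := Sum.elim (fun q => lo q.1 q.2) fun o => o.elim inf fun q =>
    if h : typ q.1 = 0 then tp q.1 h q.2 else inf
  let ρ : Pt → Q := fun z => match z with
    | lo τ o => .inl (τ, o)
    | tp r _ y => if h : r ∈ R then .inr (some (⟨r, h⟩, y)) else .inr none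
    | inf => .inr none
  rw [Subtype.isLindelof_iff]
  convert (HereditarilyLindelofSpace.isLindelof ((fun e : G Pt => e.1 ∘ ι) '' {e | tops e ⊆ R})).image
    (f := fun u : Q → Bool => u ∘ ρ) (by fun_prop) using 1
  rw [image_image]
  refine image_congr fun e he => funext ?_
  rintro (⟨τ, o⟩ | ⟨r, hr, y⟩ | _)
  · rfl
  · by_cases h : r ∈ R
    · simp [ρ, ι, h, hr]
    · simp only [ρ, ι, h, comp, dite_false, Sum.elim_inr, Option.elim]
      by_contra k
      exact h (he ⟨hr, y, k⟩)
  · rfl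

lemma tops_fin (e : G Pt) : (tops e).Finite := by
  obtain ⟨A, hA⟩ := cont_iff.1 e.2 inf
  refine A.finite_toSet.subset ?_
  rintro r ⟨h, y, k⟩
  by_contra hr
  exact k (hA _ fun a ha e => hr ((show r = a from e) ▸ ha))

theorem lind : LindelofSpace (G Pt) := by
  classical
  have key : ∀ (k : ℕ) (R : Finset C), IsLindelof {e : G Pt | (tops e \ R).ncard ≤ k} := by
    intro k
    induction k with
    | zero =>
      intro R
      convert lind0 R using 3 with e
      rw [Nat.le_zero, ncard_eq_zero (tops_fin e).sdiff, sdiff_eq_empty]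
    | succ k ih =>
      intro R
      refine isLindelof_of_countable_subcover fun U hU hc => ?_
      obtain ⟨t, h1, h2⟩ := (lind0 R).elim_countable_subcover U hU fun e he => hc (by
        simp [sdiff_eq_empty.2 he])
      by_cases h : ∃ S : Set C, S.Countable ∧ ∀ e : G Pt, (tops e \ R).ncard ≤ k + 1 →
          e ∉ ⋃ i ∈ t, U i → ∃ s ∈ S, s ∈ tops e \ R
      · obtain ⟨S, h3, h4⟩ := h
        have h7 : ∀ (e : G Pt) s, tops e \ ↑(insert s R) = (tops e \ R) \ {s} := fun e s => by
          rw [sdiff_sdiff, Finset.coe_insert, union_singleton]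
        obtain ⟨t', h5, h6⟩ := (h3.isLindelof_biUnion fun s _ =>
          ih (insert s R)).elim_countable_subcover U hU (iUnion₂_subset fun s _ e he => hc (by
            have := pred_ncard_le_ncard_sdiff_singleton (tops e \ R) s
            simp only [mem_ofPred_eq, h7] at he ⊢
            omega))
        refine ⟨t ∪ t', h1.union h5, fun e he => ?_⟩
        rw [biUnion_union]
        by_cases h8 : e ∈ ⋃ i ∈ t, U i
        · exact Or.inl h8
        · obtain ⟨s, h8, h9⟩ := h4 e he h8
          refine Or.inr (h6 (mem_biUnion h8 ?_))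
          have := ncard_sdiff_singleton_add_one h9 (tops_fin e).sdiff
          simp only [mem_ofPred_eq, h7] at he ⊢
          omega
      · push Not at h
        obtain ⟨e, he⟩ := Syn.wfc (fun (a : I) (g : Iio a → G Pt) (e : G Pt) =>
          e ∉ ⋃ i ∈ t, U i ∧ ∀ s ∈ ⋃ b, tops (g b), s ∉ tops e \ R) fun a g => by
            have := ((Iic_ct a).mono Iio_subset_Iic_self).to_subtype
            obtain ⟨e, -, h⟩ := h _ (countable_iUnion fun b => (tops_fin (g b)).countable)
            exact ⟨e, h⟩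
        have : Uncountable I := not_countable_univ_iff.1 fun h => by
          obtain ⟨i, hi⟩ := I_bdd h
          exact lt_irrefl _ (hi i trivial)
        obtain ⟨g, h3, h4⟩ := acc e R fun a b r k1 k2 k3 => by
          rcases lt_trichotomy a b with h | h | h
          · exact absurd ⟨k3, k1⟩ ((he b).2 r (mem_iUnion.2 ⟨⟨a, h⟩, k2⟩))
          · exact h
          · exact absurd ⟨k2, k1⟩ ((he a).2 r (mem_iUnion.2 ⟨⟨b, h⟩, k3⟩))
        obtain ⟨F, hF⟩ := bx ((isOpen_biUnion fun i _ => hU i).mem_nhds (h2 h3))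
        obtain ⟨a, ha⟩ := h4 F
        exact absurd (hF _ ha) (he a).1
  refine ⟨?_⟩
  convert isLindelof_iUnion fun k => key k ∅
  exact (eq_univ_of_forall fun e => mem_iUnion.2 ⟨_, show (tops e \ _).ncard ≤ _ from le_rfl⟩).symm

end Pool.Agent.H15.SQ
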