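import Pool.Agent.H15.SQ3

set_option autoImplicit false

namespace Pool.Agent.H15.SQ
open Set Filter Topology Function NL Pt CC

theorem sep' {X : Type} [TopologicalSpace X]
    (dense : ∀ (F : Finset X) (σ : X → Bool), ∃ g : G X, ∀ x ∈ F, g.1 x = σ x)
    [NormalSpace (G X)] {P Q : Set (G X)} (hP : IsClosed P) (hQ : IsClosed Q)
    (h : Disjoint P Q) : ∃ S : Set X, S.Countable ∧
      ∀ g ∈ Q, ∃ F : Finset X, ↑F ⊆ S ∧ ∀ f ∈ P, ¬ Ag F f g := by
  classical
  obtain ⟨U, V, hU, hV, h1, h2, h3⟩ := normal_separation hP hQ h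
  have : ∀ F T : Finset X, ∃ F' : Finset X, (∃ f : G X, ∃ E, (∀ x ∈ F, f.1 x = decide (x ∈ T)) ∧
      ∀ u, Ag E u f → u ∈ U) → ∃ f : G X, (∀ x ∈ F, f.1 x = decide (x ∈ T)) ∧
      ∀ u, Ag F' u f → u ∈ U := fun F T => by
    by_cases h : ∃ f : G X, ∃ E, (∀ x ∈ F, f.1 x = decide (x ∈ T)) ∧ ∀ u, Ag E u f → u ∈ U
    · obtain ⟨f, E, h⟩ := h
      exact ⟨E, fun _ => ⟨f, h⟩⟩
    · exact ⟨∅, fun h' => absurd h' h⟩
  choose φ hφ using this
  obtain ⟨S, hS, h4⟩ := clo (fun F => ⋃ T ∈ F.powerset, (φ F T : Set X)) fun F =>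
    (F.powerset.countable_toSet).biUnion fun T _ => (φ F T).countable_toSet
  refine ⟨S, hS, fun g hg => ?_⟩
  obtain ⟨E, hE⟩ := bx (hV.mem_nhds (h2 hg))
  refine ⟨E.filter (· ∈ S), fun x hx => (Finset.mem_filter.1 hx).2, fun f0 h5 h6 => ?_⟩
  obtain ⟨E0, h7⟩ := bx (hU.mem_nhds (h1 h5))
  have pat : ∀ x ∈ E.filter (· ∈ S), g.1 x =
      decide (x ∈ (E.filter (· ∈ S)).filter fun x => g.1 x = true) := fun x hx => by
    simp only [Finset.mem_filter (s := E.filter (· ∈ S)), hx, true_and, Bool.decide_eq_true]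
  obtain ⟨f, h8, h9⟩ := hφ _ _ ⟨f0, E0, fun x hx => (h6 x hx).trans (pat x hx), h7⟩
  obtain ⟨u, hu⟩ := dense (E ∪ φ (E.filter (· ∈ S)) ((E.filter (· ∈ S)).filter fun x => g.1 x = true))
    fun x => if x ∈ E then g.1 x else f.1 x
  refine disjoint_left.1 h3 (h9 u fun x hx => ?_) (hE u fun x hx => ?_)
  · rw [hu x (Finset.mem_union_right _ hx)]
    split_ifs with h10
    · have : x ∈ E.filter (· ∈ S) := Finset.mem_filter.2 ⟨h10, h4 _ (fun x hx =>
        (Finset.mem_filter.1 hx).2) (mem_biUnion (Finset.mem_powerset.2 (Finset.filter_subset _ _)) hx)⟩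
      exact (pat x this).trans (h8 x this).symm
    · rfl
  · rw [hu x (Finset.mem_union_left _ hx), if_pos hx]

/-- the two halves -/
def ph : Bool → ZMod 3 → Bool := fun b y => decide (y = if b then 1 else 2)

/-- two copies -/
def cp (b : Bool) (z : Pt) : Pt ⊕ Pt := if b then .inl z else .inr z

lemma cp_cont (b : Bool) : Continuous (cp b) := by
  cases b
  exacts [continuous_inr, continuous_inl]

lemma cp_surj (w : Pt ⊕ Pt) : ∃ b z, w = cp b z := by
  rcases w with z | z
  exacts [⟨true, z, rfl⟩, ⟨false, z, rfl⟩]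

/-- the closed discrete family -/
noncomputable def qq (r : {r // typ r = 0}) : G (Pt ⊕ Pt) :=
  ⟨Sum.elim (W r (ph true)) (W r (ph false)),
    (cont_iff.2 (good_W r.2 _)).sumElim (cont_iff.2 (good_W r.2 _))⟩

lemma qq_cp (r : {r // typ r = 0}) (b : Bool) (z : Pt) : (qq r).1 (cp b z) = W r (ph b) z := by
  cases b <;> rfl

lemma qq_cd (g : G (Pt ⊕ Pt)) : ∃ F β, ∀ γ, Ag F (qq γ) g → γ = β := by
  classical
  by_contra! hc
  obtain ⟨ε, -⟩ := exE
  have : ∀ i, ∃ (b : Bool) (F : Finset (Pt ⊕ Pt)), ∀ γ, Ag F (qq γ) g → γ.1 i = b := fun i => by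
    let F := (List.finite_length_eq Bool (i + 1)).toFinset.image fun σ => cp true (lo [] (some σ))
    obtain ⟨γ0, h0, -⟩ := hc F (ε fun _ => true)
    refine ⟨γ0.1 i, F, fun γ h => ?_⟩
    have k : cp true (lo [] (some (pre γ (i + 1)))) ∈ F := Finset.mem_image_of_mem _ (by simp)
    have := (h _ k).trans (h0 _ k).symm
    rw [qq_cp, qq_cp] at this
    have k2 : On γ0 (pre γ (i + 1)) := by
      by_contra k2
      have k3 : ∀ r, On r [] := fun r => rfl
      simp [W, col, Br, on_pre, k2, ph, k3] at this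
    exact (pre_eq.1 (by simpa [On] using k2) i (by omega)).symm
  choose r F0 h0 using this
  have app : ∀ b z, (∀ a h x, z = tp a h x → a = r) →
      ∃ γ : C, γ ≠ r ∧ g.1 (cp b z) = W γ (ph b) z ∧ ((∀ a h x, z ≠ tp a h x) →
        g.1 (cp b z) = W r (ph b) z) := fun b z _ => by
    obtain ⟨n, hn⟩ := (W_loc z).exists
    obtain ⟨γ, k1, k2⟩ := hc (insert (cp b z) ((Finset.range n).biUnion F0))
      (if h : typ r = 0 then ⟨r, h⟩ else ε fun _ => true)
    have k3 := (k1 _ (Finset.mem_insert_self _ _)).symm.trans (qq_cp γ b z)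
    refine ⟨γ, fun e => k2 ?_, k3, fun h => k3.trans (hn _ _ _ (pre_eq.2 fun i hi => h0 i γ
      fun x hx => k1 x (Finset.mem_insert_of_mem (Finset.mem_biUnion.2 ⟨i, by simpa using hi, hx⟩)))
      fun a h' x e => absurd e (h a h' x))⟩
    rw [dif_pos (e ▸ γ.2)]
    exact Subtype.ext e
  have lo' : ∀ b τ o, g.1 (cp b (lo τ o)) = W r (ph b) (lo τ o) := fun b τ o =>
    (app b _ (by simp)).choose_spec.2.2 (by simp)
  have gd := fun b => cont_iff.1 (g.2.comp (cp_cont b))
  rcases h : typ r with _ | n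
  · obtain ⟨n, hn⟩ := gd true (tp r h 1)
    have k : col r (3 * n + 1) none = 1 := by
      simp only [col, Br, if_false]
      push_cast
      rw [show (3 : ZMod 3) = 0 from rfl]; simp
    obtain ⟨γ, k1, k2, -⟩ := app true (tp r h 1) (by rintro _ _ _ ⟨⟩; rfl)
    have := (lo' true _ _).symm.trans ((hn _ (by omega) none k).trans k2)
    simp [W, on_pre, k, k1.symm, ph] at this
  · have : ∀ b, ph b (n + 1) = ph b n := fun b => by
      obtain ⟨A, k1, m, k2⟩ := gd b (lo (pre r n) none)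
      obtain ⟨k, k3, k4⟩ := ((off (A := A) (r := r) fun k => k1 k ⟨on_pre _ _, by simpa using h⟩).and
        (eventually_ge_atTop m)).exists
      have := (lo' b _ _).symm.trans ((k2 (pre r k) (by simpa using k4) k3).trans (lo' b _ _))
      simpa [W, on_pre, col, Br] using this
    exact (by decide : ∀ y : ZMod 3, ¬ (ph true (y + 1) = ph true y ∧ ph false (y + 1) = ph false y))
      n ⟨this _, this _⟩

theorem not_normal : ¬ NormalSpace (G Pt × G Pt) := by
  classical
  intro hN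
  have : NormalSpace (G (Pt ⊕ Pt)) := by
    let h : G (Pt ⊕ Pt) ≃ₜ G Pt × G Pt :=
      { toFun := fun g => (⟨g.1 ∘ .inl, g.2.comp continuous_inl⟩, ⟨g.1 ∘ .inr, g.2.comp continuous_inr⟩)
        invFun := fun p => ⟨Sum.elim p.1.1 p.2.1, p.1.2.sumElim p.2.2⟩
        left_inv := fun g => Subtype.ext (Sum.elim_comp_inl_inr _)
        right_inv := fun p => rfl
        continuous_toFun := by
          refine Continuous.prodMk (Continuous.subtype_mk (continuous_pi fun w => ?_) _)
            (Continuous.subtype_mk (continuous_pi fun w => ?_) _)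
          · exact (continuous_apply (Sum.inl w)).comp continuous_subtype_val
          · exact (continuous_apply (Sum.inr w)).comp continuous_subtype_val
        continuous_invFun := Continuous.subtype_mk (continuous_pi fun w => by
          rcases w with z | z
          · exact (continuous_apply z).comp (continuous_subtype_val.comp continuous_fst)
          · exact (continuous_apply z).comp (continuous_subtype_val.comp continuous_snd)) _ }
    exact h.isClosedEmbedding.normalSpace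
  obtain ⟨ε, hε⟩ := exE
  obtain ⟨e⟩ : Nonempty (C × C ↪ C) := Cardinal.le_def _ _ |>.1 (by simp)
  have uc : ∀ u, ¬ (range fun t => ε (e (u, t))).Countable := fun u h =>
    not_countable_univ ((h.preimage (f := fun t => ε (e (u, t))) fun a b h =>
      congrArg Prod.snd (e.injective (hε h))).mono fun j _ => mem_preimage.2 (mem_range_self j))
  choose δ h1 h2 using fun u => ne_of_unc (uc u)
    (cond (fun (γ : {r // typ r = 0}) k => (γ.1 k).toNat) (range fun t => ε (e (u, t))))
  have dj : ∀ u u' t, δ u' = ε (e (u, t)) → u' = u := fun u u' t h => by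
    obtain ⟨t', h'⟩ := h1 u'
    exact congrArg Prod.fst (e.injective (hε (h'.trans h)))
  have cq : ∀ M, IsClosed (qq '' M) := fun M =>
    cdQ qq M fun g => (qq_cd g).imp fun _ h => h.imp fun _ h γ _ => h γ
  obtain ⟨S, hS, h3⟩ := sep' (fun F σ => by
      obtain ⟨a, ha⟩ := dens (F.preimage .inl Sum.inl_injective.injOn) (σ ∘ .inl)
      obtain ⟨b, hb⟩ := dens (F.preimage .inr Sum.inr_injective.injOn) (σ ∘ .inr)
      refine ⟨⟨Sum.elim a.1 b.1, a.2.sumElim b.2⟩, ?_⟩
      rintro (z | z) hz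
      · exact ha z (Finset.mem_preimage.2 hz)
      · exact hb z (Finset.mem_preimage.2 hz)) (cq (range δ)ᶜ) (cq (range δ)) (by
    rw [disjoint_image_iff fun a b h => by
      obtain ⟨F, β, k⟩ := qq_cd (qq a)
      exact (k a fun _ _ => rfl).trans (k b (by rw [h]; exact fun _ _ => rfl)).symm]
    exact disjoint_compl_left)
  have hE : {γ : {r // typ r = 0} | ∃ b x, cp b (tp γ γ.2 x) ∈ S}.Countable := by
    simp only [ofPred_exists]
    refine countable_iUnion fun b => countable_iUnion fun x => hS.preimage fun a a' h => ?_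
    cases b <;> simpa [cp, Subtype.ext_iff] using h
  obtain ⟨u, -, h4⟩ := ne_of_unc not_countable_univ (hE.preimage (f := δ) fun a b h => by
    obtain ⟨t, ht⟩ := h1 b
    exact dj b a t (h.trans ht.symm))
  obtain ⟨F, h5, h6⟩ := h3 _ ⟨δ u, ⟨u, rfl⟩, rfl⟩
  choose bb zz hz using cp_surj
  obtain ⟨n, hn⟩ := ((eventually_all_finset F).2 fun w _ => W_loc (zz w)).exists
  obtain ⟨γ, ⟨⟨t, rfl⟩, h7⟩, h8⟩ := ne_of_unc (fun h => h2 u ⟨Finset.range n, h, h1 u⟩)
    (hE.insert (δ u))
  refine h6 _ ⟨ε (e (u, t)), ?_, rfl⟩ fun w hw => ?_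
  · rintro ⟨u', h⟩
    obtain rfl := dj u u' t h
    exact h8 (Or.inl h.symm)
  rw [hz w, qq_cp, qq_cp]
  refine hn w hw _ _ _ (pre_eq.2 fun i hi => (by decide : ∀ a b : Bool,
    a.toNat = b.toNat → a = b) _ _ (h7 i (by simpa using hi)))
    fun a h x k => ⟨?_, ?_⟩
  · rintro rfl
    exact h8 (Or.inr ⟨bb w, x, by rw [← k, ← hz]; exact h5 hw⟩)
  · rintro rfl
    exact h4 ⟨bb w, x, by rw [← k, ← hz]; exact h5 hw⟩

theorem main : ∃ (X : Type) (_ : TopologicalSpace X), T35Space X ∧
    TopologicalSpace.IsTopologicalBasis {U : Set X | IsClopen U} ∧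
    LindelofSpace {f : X → Bool // Continuous f} ∧
    ¬ NormalSpace ({f : X → Bool // Continuous f} × {f : X → Bool // Continuous f}) :=
  ⟨Pt, inferInstance, emb_emb.t35Space, zdim, lind, not_normal⟩

end Pool.Agent.H15.SQ
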