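import Mathlib
import Pool.Agent.H15.Psc9

set_option autoImplicit false

namespace Pool.Agent.H15.Psc
open Function Filter Topology BoundedContinuousFunction

lemma norm_add_T {a b : T} (ha : ‖a‖ ≤ 1 / 4) (hb : ‖b‖ ≤ 1 / 4) :
    ‖a‖ + ‖b‖ ≤ max ‖a + b‖ ‖a - b‖ := by
  have key : ∀ t : T, ∃ x : ℝ, (x : T) = t ∧ |x| = ‖t‖ := fun t => by
    obtain ⟨y, rfl⟩ := QuotientAddGroup.mk_surjective t
    refine ⟨y - round y, ?_, by simp [AddCircle.norm_eq]⟩
    rw [AddCircle.coe_sub, (AddCircle.coe_eq_zero_iff (x := (round y : ℝ)) _).2 ⟨round y, by simp⟩,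
      sub_zero]
  obtain ⟨x, rfl, hx⟩ := key a
  obtain ⟨y, rfl, hy⟩ := key b
  rw [← hx] at ha ⊢
  rw [← hy] at hb ⊢
  rw [← AddCircle.coe_add, ← AddCircle.coe_sub, norm_coe_T (by linarith [abs_add_le x y]),
    norm_coe_T (by linarith [abs_sub x y])]
  rcases abs_cases x with h | h <;> rcases abs_cases y with h' | h'
  · exact le_max_of_le_left (by linarith [le_abs_self (x + y)])
  · exact le_max_of_le_right (by linarith [le_abs_self (x - y)])
  · exact le_max_of_le_right (by linarith [neg_abs_le (x - y)])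
  · exact le_max_of_le_left (by linarith [neg_abs_le (x + y)])

/-- an uncountable discrete space -/
def DI : Type := ℝ

instance : TopologicalSpace DI := ⊥
instance : DiscreteTopology DI := ⟨rfl⟩
instance : Uncountable DI := inferInstanceAs (Uncountable ℝ)

/-- bounded functions of countable support -/
def CS : Submodule ℝ (DI →ᵇ ℝ) where
  carrier := {f | (support f).Countable}
  zero_mem' := by simp
  add_mem' := fun {f g} h1 h2 => (h1.union h2).mono (support_add f g)
  smul_mem' := fun c f h => h.mono (support_const_smul_subset c f)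

/-- indicator of a countable set -/
noncomputable def ic (A : Set DI) (hA : A.Countable) : CS :=
  ⟨BoundedContinuousFunction.indicator A (isClopen_discrete A),
    hA.mono (Set.support_indicator_subset (f := 1))⟩

lemma ic_mem {A : Set DI} (hA : A.Countable) {i : DI} (h : i ∈ A) : (ic A hA).1 i = 1 :=
  Set.indicator_of_mem h _

lemma stab (χ : CS →+ T) (hχ : Continuous χ) : ∃ A : Set DI, A.Countable ∧
    ∀ g : CS, (∀ i ∈ A, g.1 i = 0) → χ g = 0 := by
  obtain ⟨ε, ε0, hε⟩ := Metric.continuousAt_iff'.1 (hχ.continuousAt (x := 0)) (1 / 4) (by norm_num)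
    |> Metric.eventually_nhds_iff.1
  have h4 : ∀ g : CS, ‖g.1‖ < ε → ‖χ g‖ ≤ 1 / 4 := fun g hg => by
    simpa using (hε (y := g) ((dist_zero_right g.1).trans_lt hg)).le
  let R := (fun g : CS => ‖χ g‖) '' {g | ‖g.1‖ < ε}
  have hb : BddAbove R := ⟨1 / 4, by rintro _ ⟨g, hg, rfl⟩; exact h4 g hg⟩
  have : ∀ n : ℕ, ∃ g : CS, ‖g.1‖ < ε ∧ sSup R - 1 / (n + 1) < ‖χ g‖ := fun n => by
    obtain ⟨_, ⟨g, hg, rfl⟩, h⟩ := exists_lt_of_lt_csSup (s := R)
      ⟨_, 0, by simpa using ε0, rfl⟩ (sub_lt_self _ (Nat.one_div_pos_of_nat (n := n)))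
    exact ⟨g, hg, h⟩
  choose f f1 f2 using this
  refine ⟨⋃ n, support (f n).1, Set.countable_iUnion fun n => (f n).2, fun g hg => ?_⟩
  have small : ∀ g : CS, (∀ i ∈ ⋃ n, support (f n).1, g.1 i = 0) → ‖g.1‖ < ε → χ g = 0 := by
    intro g hg h
    refine norm_le_zero_iff.1 (le_of_forall_pos_lt_add fun δ hδ => ?_)
    obtain ⟨n, hn⟩ := exists_nat_one_div_lt hδ
    have k : ∀ g : CS, (∀ i ∈ ⋃ n, support (f n).1, g.1 i = 0) → ‖g.1‖ < ε →
        ‖χ (f n) + χ g‖ ≤ sSup R := fun g hg h => le_csSup hb ⟨f n + g, by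
      refine lt_of_le_of_lt ((norm_le (le_max_of_le_left (norm_nonneg _))).2 fun i => ?_)
        (max_lt (f1 n) h)
      show ‖(f n).1 i + g.1 i‖ ≤ _
      by_cases e : (f n).1 i = 0
      · rw [e, zero_add]; exact le_max_of_le_right (norm_coe_le_norm g.1 i)
      · rw [hg i (Set.mem_iUnion.2 ⟨n, e⟩), add_zero]
        exact le_max_of_le_left (norm_coe_le_norm (f n).1 i), congrArg norm (map_add χ _ _)⟩
    have k1 := k g hg h
    have k2 := k (-g) (fun i hi => neg_eq_zero.2 (hg i hi)) ((norm_neg g.1).trans_lt h)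
    rw [show χ (-g) = -χ g from χ.map_neg g, ← sub_eq_add_neg] at k2
    linarith [(norm_add_T (h4 _ (f1 n)) (h4 g h)).trans (max_le k1 k2), f2 n]
  obtain ⟨M, hM⟩ := exists_nat_gt (‖g.1‖ / ε)
  have M0 : (0 : ℝ) < M := lt_of_le_of_lt (by positivity) hM
  have e : g = M • ((M : ℝ)⁻¹ • g) := by
    rw [← Nat.cast_smul_eq_nsmul ℝ, smul_inv_smul₀ M0.ne']
  rw [e, map_nsmul, small _ (fun i hi => by simp [hg i hi]) (by
    rw [Submodule.coe_smul, norm_smul, norm_inv, Real.norm_natCast, inv_mul_lt_iff₀ M0]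
    rwa [div_lt_iff₀ ε0] at hM), smul_zero]

lemma sep_supp {K : Set CS} (hK : TopologicalSpace.IsSeparable K) : ∃ S : Set DI, S.Countable ∧
    ∀ f ∈ K, ∀ i ∉ S, f.1 i = 0 := by
  obtain ⟨c, c1, c2⟩ := hK
  refine ⟨⋃ g ∈ c, support g.1, c1.biUnion fun g _ => g.2, fun f hf i hi => ?_⟩
  refine closure_minimal (t := {f : CS | f.1 i = 0}) (fun g hg => ?_)
    (isClosed_eq ((continuous_eval_const i).comp continuous_subtype_val) continuous_const) (c2 hf)
  by_contra e
  exact hi (Set.mem_iUnion₂.2 ⟨g, hg, e⟩)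

lemma ex_not {S : Set DI} (h : S.Countable) : ∃ i, i ∉ S := by
  by_contra e
  push Not at e
  exact Set.not_countable_univ (Set.eq_univ_of_forall e ▸ h)

lemma nonsep : ¬ TopologicalSpace.SeparableSpace CS := fun h => by
  obtain ⟨S, s1, s2⟩ := sep_supp (TopologicalSpace.isSeparable_univ_iff.2 h)
  obtain ⟨i, hi⟩ := ex_not s1
  exact one_ne_zero ((ic_mem (Set.countable_singleton i) rfl).symm.trans (s2 _ trivial i hi))

theorem exists_psi : ∃ ψ : PontryaginDual (Multiplicative CS) →* Circle, ¬ Continuous ψ ∧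
    ∀ u : ℕ → PontryaginDual (Multiplicative CS), Tendsto u atTop (𝓝 1) →
      Tendsto (ψ ∘ u) atTop (𝓝 1) := by
  have : ∀ χ : PontryaginDual (Multiplicative CS), ∃ (A : Set DI) (hA : A.Countable),
      ∀ B hB, A ⊆ B → χ (.ofAdd (ic B hB)) = χ (.ofAdd (ic A hA)) := fun χ => by
    obtain ⟨A, hA, h⟩ := stab (evd (Multiplicative CS) (.ofMul χ) :)
      (lg.continuous.comp (map_continuous χ))
    refine ⟨A, hA, fun B hB hs => lg.injective (sub_eq_zero.1 ?_)⟩
    refine (map_sub (evd (Multiplicative CS) (.ofMul χ)) _ _).symm.trans (h (ic B hB - ic A hA) fun i hi => ?_)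
    exact sub_eq_zero.2 ((ic_mem hB (hs hi)).trans (ic_mem hA hi).symm)
  choose A hA h using this
  refine ⟨MonoidHom.mk' (fun χ => χ (.ofAdd (ic _ (hA χ)))) fun a b => ?_, fun hc => ?_,
    fun u hu => ?_⟩
  · have c := ((hA (a * b)).union (hA a)).union (hA b)
    rw [← h _ _ c (by grind), ← h a _ c (by grind), ← h b _ c (by grind)]
    rfl
  · let x : DI → PontryaginDual (Multiplicative CS) := fun i =>
      { toFun := fun f => AddCircle.toCircle ((f.toAdd.1 i / 2 : ℝ) : T)
        map_one' := by simp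
        map_mul' := fun a b => by simp [add_div, AddCircle.toCircle_add]
        continuous_toFun := AddCircle.continuous_toCircle.comp ((AddCircle.continuous_mk' 1).comp
          (((continuous_eval_const i).comp continuous_subtype_val).div_const 2)) }
    have t : Tendsto x cocountable (𝓝 1) := by
      refine (ContinuousMonoidHom.isInducing_toContinuousMap _ Circle).tendsto_nhds_iff.2
        (ContinuousMap.tendsto_nhds_compactOpen.2 fun K k U _ hU => ?_)
      obtain ⟨S, s1, s2⟩ := sep_supp (K := K) k.isSeparable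
      refine mem_of_superset (mem_cocountable.2 (by rwa [compl_compl] : Sᶜᶜ.Countable))
        fun i hi f hf => ?_
      have : 1 ∈ U := hU hf
      show AddCircle.toCircle ((f.toAdd.1 i / 2 : ℝ) : T) ∈ U
      rw [show f.toAdd.1 i = 0 from s2 f hf i hi]
      simpa using this
    have := ((lg.continuous.norm.comp hc).tendsto 1).comp t |>.eventually
      (gt_mem_nhds (a := (1 / 2 : ℝ)) (by simp [lg_one]))
    obtain ⟨i, hi⟩ := ex_not (mem_cocountable.1 this)
    have c := (hA (x i)).insert i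
    have e : ‖lg (x i (.ofAdd (ic _ (hA (x i)))))‖ < 1 / 2 := not_not.1 hi
    rw [← h _ _ c (Set.subset_insert _ _), show lg (x i (.ofAdd (ic _ c))) = _ from lg_to _,
      toAdd_ofAdd, ic_mem c (Set.mem_insert _ _), norm_coe_T (by norm_num [abs_of_pos])] at e
    norm_num [abs_of_pos] at e
  · have c := Set.countable_iUnion fun n => hA (u n)
    have := ((continuous_eval_const (F := Multiplicative CS →ₜ* Circle)
      (Multiplicative.ofAdd (ic _ c))).tendsto 1).comp hu
    exact this.congr fun n => h _ _ c (Set.subset_iUnion (fun n => A (u n)) n)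

end Pool.Agent.H15.Psc
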