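import Mathlib

set_option autoImplicit false

namespace Pool.Agent.H15.Sid
open Finset

/-- All edges have `r` vertices. -/
def Uniform {m : ℕ} (r : ℕ) (F : Finset (Finset (Fin m))) : Prop := ∀ e ∈ F, e.card = r

/-- The vertices split into `r` parts and every edge meets each part in exactly one vertex. -/
def Partite {m : ℕ} (r : ℕ) (F : Finset (Finset (Fin m))) : Prop :=
  ∃ part : Fin m → Fin r, ∀ e ∈ F, ∀ i : Fin r, ∃! v, v ∈ e ∧ part v = i

/-- Number of homomorphisms: vertex maps sending every edge of `F` onto an edge of `H`. -/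
def homCount {m n : ℕ} (F : Finset (Finset (Fin m))) (H : Finset (Finset (Fin n))) : ℕ :=
  (univ.filter (fun φ : Fin m → Fin n => ∀ e ∈ F, e.image φ ∈ H)).card

/-- Homomorphism density `t_F(H) = hom(F,H) / v(H)^{v(F)}`. -/
noncomputable def homDensity {m n : ℕ} (F : Finset (Finset (Fin m)))
    (H : Finset (Finset (Fin n))) : ℝ :=
  (homCount F H : ℝ) / (n : ℝ) ^ m

/-- The `r`-graph with `r` vertices and one edge. -/
def oneEdge (r : ℕ) : Finset (Finset (Fin r)) := {univ}

/-- The Sidorenko exponent, as a supremum in the extended reals. -/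
noncomputable def sidExp {m : ℕ} (r : ℕ) (F : Finset (Finset (Fin m))) : EReal :=
  sSup ((fun s : ℝ => (s : EReal)) '' {s : ℝ | 0 ≤ s ∧ ∃ (n : ℕ) (H : Finset (Finset (Fin n))),
    Uniform r H ∧ homDensity F H = homDensity (oneEdge r) H ^ s ∧ 0 < homDensity F H})

end Pool.Agent.H15.Sid
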