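import Pool.Agent.H15.SidDefs
import Pool.Agent.H15.Ent2

set_option autoImplicit false

namespace Pool.Agent.H15.Sid
open Finset Pool.Agent.H15.Ent

theorem main (r : ℕ) (hr : 2 ≤ r) (Δ m : ℕ) (F : Finset (Finset (Fin m))) (hu : Uniform r F)
    (hp : Partite r F) (hΔ : ∀ v : Fin m, (F.filter (fun e => v ∈ e)).card ≤ Δ) :
    sidExp r F ≤ (((cc (Δ * r) r * r : ℕ) * F.card : ℕ) : EReal) := by
  classical
  apply sSup_le
  rintro _ ⟨s, ⟨hs0, n, H, hH, hst, hpos⟩, rfl⟩
  have goal : s ≤ (((cc (Δ * r) r * r : ℕ) * F.card : ℕ) : ℝ) := by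
    have hp0 : 0 ≤ homDensity (oneEdge r) H := by unfold homDensity; positivity
    rcases hp0.eq_or_lt with h0 | hpp
    · by_cases hs : s = 0
      · rw [hs]; positivity
      · rw [hst, ← h0, Real.zero_rpow hs] at hpos
        exact absurd hpos (lt_irrefl _)
    let G : Finset (Fin r → Fin n) := univ.filter (fun φ => ∀ e ∈ oneEdge r, e.image φ ∈ H)
    have hGdef : homDensity (oneEdge r) H = (G.card : ℝ) / (n : ℝ) ^ r := rfl
    have hGmem : ∀ φ, φ ∈ G ↔ univ.image φ ∈ H := by
      intro φ; simp [G, oneEdge]
    have hGne : G.Nonempty := by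
      rw [← card_pos]
      by_contra h
      have : G.card = 0 := by omega
      rw [hGdef, this] at hpp
      simp at hpp
    have hn : 0 < n := by
      obtain ⟨φ, -⟩ := hGne
      exact Fin.pos (φ ⟨0, by omega⟩)
    haveI : Nonempty (Fin n) := ⟨⟨0, hn⟩⟩
    have hp1 : homDensity (oneEdge r) H < 1 := by
      rw [hGdef, div_lt_one (by positivity)]
      have h1 : G.card < (univ : Finset (Fin r → Fin n)).card := by
        apply card_lt_card
        refine ⟨subset_univ _, fun h => ?_⟩
        have h2 := hH _ ((hGmem _).1 (h (mem_univ (fun _ => (⟨0, hn⟩ : Fin n)))))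
        haveI : Nonempty (Fin r) := ⟨⟨0, by omega⟩⟩
        rw [image_const univ_nonempty, card_singleton] at h2
        omega
      rw [card_univ, Fintype.card_pi, prod_const, card_univ, Fintype.card_fin, Fintype.card_fin] at h1
      exact_mod_cast h1
    obtain ⟨part, hpart⟩ := hp
    let N : Fin m → Finset (Fin m) := fun x =>
      ((F.filter (fun e => x ∈ e)).biUnion id).filter (fun y => (part y).val < (part x).val)
    let 𝓔 : Set (Fin r → Fin m) := {ε | (∀ j, part (ε j) = j.rev) ∧ univ.image ε ∈ F}
    let U : Finset (Fin m) := F.biUnion id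
    have hU : U.card ≤ r * F.card :=
      card_biUnion_le.trans ((sum_le_card_nsmul _ _ r (fun e he => (hu e he).le)).trans
        (by rw [smul_eq_mul, mul_comm]))
    have key := count (I := Fin m) (V := Fin n) (fun x => (part x).val) N (Δ * r)
      (fun x y hy => (mem_filter.1 hy).2)
      (fun x => (card_filter_le _ _).trans (card_biUnion_le.trans
        ((sum_le_card_nsmul _ _ r (fun e he => (hu e (mem_filter.1 he).1).le)).trans
          (by rw [smul_eq_mul]; exact Nat.mul_le_mul_right _ (hΔ x)))))
      r G hGne 𝓔 (by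
        intro ε hε j
        simp only [hε.1 j, Fin.val_rev]
        have := j.2
        omega) (by
        intro ε hε j j' hj
        refine mem_filter.2 ⟨mem_biUnion.2 ⟨univ.image ε, mem_filter.2 ⟨hε.2, by simp⟩, by simp⟩, ?_⟩
        rw [hε.1 j, hε.1 j']
        exact Fin.rev_lt_rev.2 hj)
      U (univ.filter (fun φ : Fin m → Fin n => ∀ e ∈ F, e.image φ ∈ H)) (by
        intro φ hφ
        refine mem_filter.2 ⟨mem_univ _, fun e he => ?_⟩
        choose v hv using fun i => (hpart e he i).exists
        have himg : univ.image (fun j : Fin r => v j.rev) = e := by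
          ext x
          simp only [mem_image, mem_univ, true_and]
          constructor
          · rintro ⟨j, rfl⟩; exact (hv _).1
          · intro hx
            refine ⟨(part x).rev, ?_⟩
            rw [Fin.rev_rev]
            exact (hpart e he (part x)).unique (hv _) ⟨hx, rfl⟩
        have h1 := (hGmem _).1 (hφ (fun j => v j.rev) ⟨fun j => (hv _).2, by rw [himg]; exact he⟩)
        rw [← image_image, himg] at h1
        exact h1) (by
        intro φ ψ h
        simp only [mem_filter, mem_univ, true_and]
        refine forall₂_congr (fun e he => ?_)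
        have : e.image φ = e.image ψ :=
          image_congr (fun x hx => h x (mem_biUnion.2 ⟨e, he, hx⟩))
        rw [this])
    simp only [Fintype.card_fin] at key
    have e1 : ((univ.filter (fun φ : Fin m → Fin n => ∀ e ∈ F, e.image φ ∈ H)).card : ℝ) / (n : ℝ) ^ m
        = homDensity F H := rfl
    rw [e1, ← hGdef, hst, Real.log_rpow hpp] at key
    have hl : 0 < - Real.log (homDensity (oneEdge r) H) := by
      have := Real.log_neg hpp hp1; linarith
    have hU' : (U.card : ℝ) ≤ r * F.card := by exact_mod_cast hU
    have h3 : s ≤ cc (Δ * r) r * U.card := by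
      by_contra h4
      push Not at h4
      nlinarith
    push_cast
    have h5 : (cc (Δ * r) r : ℝ) * U.card ≤ cc (Δ * r) r * (r * F.card) := by gcongr
    linarith
  show (s : EReal) ≤ _
  exact_mod_cast goal

end Pool.Agent.H15.Sid
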