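import Mathlib

set_option autoImplicit false

namespace Pool.Agent.H15.Syn

open Function UniqueFactorizationMonoid MvPolynomial

section ext
variable {A B : Type} [CommMonoidWithZero A] [UniqueFactorizationMonoid A]
  [CommMonoidWithZero B] [UniqueFactorizationMonoid B]

/-- additive extension of a function on primes -/
noncomputable def ext (φ : A → ZMod 2) (p : A) : ZMod 2 := ((factors p).map φ).sum

/-- invariance under association -/
def Inv (φ : A → ZMod 2) : Prop := ∀ p q, Associated p q → φ p = φ q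

omit [UniqueFactorizationMonoid A] in
lemma sum_rel {φ : A → ZMod 2} (hφ : Inv φ) {F G : Multiset A} (h : Multiset.Rel Associated F G) :
    (F.map φ).sum = (G.map φ).sum := by
  induction h with
  | zero => rfl
  | cons h _ ih => simp [hφ _ _ h, ih]

lemma ext_mul {φ : A → ZMod 2} (hφ : Inv φ) {p q : A} (hp : p ≠ 0) (hq : q ≠ 0) :
    ext φ (p * q) = ext φ p + ext φ q := by
  rw [ext, sum_rel hφ (factors_mul hp hq)]; simp [ext]

lemma ext_unit (φ : A → ZMod 2) {u : A} (hu : IsUnit u) : ext φ u = 0 := by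
  simp [ext, factors_of_isUnit hu]

lemma ext_prime {φ : A → ZMod 2} (hφ : Inv φ) {p : A} (hp : Prime p) : ext φ p = φ p := by
  obtain ⟨b, hb, h⟩ := factors_eq_singleton_of_irreducible hp.irreducible
  simp [ext, h, hφ _ _ hb]

lemma ext_map [Nontrivial B] (g : A →* B) (hg : ∀ q, Prime q → Prime (g q)) (hg0 : ∀ q, q ≠ 0 → g q ≠ 0)
    {φ : B → ZMod 2} (hφ : Inv φ)
    {ε : A → ZMod 2} (hε : Inv ε) (p : A) : p ≠ 0 → (∀ q, Prime q → q ∣ p → φ (g q) = ε q) →
    ext φ (g p) = ext ε p := by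
  induction p using induction_on_prime with
  | h₁ => exact fun h => absurd rfl h
  | h₂ x hx => intro _ _; rw [ext_unit _ hx, ext_unit _ (hx.map g)]
  | h₃ a q ha hq ih =>
    intro _ h
    rw [map_mul, ext_mul hφ (hg q hq).ne_zero (hg0 a ha), ext_mul hε hq.ne_zero ha,
      ext_prime hφ (hg q hq), ext_prime hε hq, h q hq (dvd_mul_right _ _),
      ih ha fun r hr h' => h r hr (h'.mul_left _)]

lemma ext_add (φ ψ : A → ZMod 2) (p : A) : ext (fun q => φ q + ψ q) p = ext φ p + ext ψ p := by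
  simp [ext, Multiset.sum_map_add]

/-- indicator of an association class -/
noncomputable def ind {A : Type} [Monoid A] (π : A) (x : ZMod 2) (q : A) : ZMod 2 :=
  @ite _ (Associated π q) (Classical.propDecidable _) x 0

omit [UniqueFactorizationMonoid A] in
lemma ind_inv (π : A) (x : ZMod 2) : Inv (ind π x) := fun p q h => by
  have : Associated π p ↔ Associated π q := ⟨fun h' => h'.trans h, fun h' => h'.trans h.symm⟩
  unfold ind
  by_cases c : Associated π p
  · rw [if_pos c, if_pos (this.1 c)]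
  · rw [if_neg c, if_neg fun c' => c (this.2 c')]

lemma ext_ind0 {π p : A} (x : ZMod 2) (h : ¬ π ∣ p) : ext (ind π x) p = 0 := by
  refine Multiset.sum_eq_zero fun y hy => ?_
  obtain ⟨q, hq, rfl⟩ := Multiset.mem_map.1 hy
  exact if_neg fun h' => h (h'.dvd.trans (dvd_of_mem_factors hq))

lemma ext_ind1 {π p : A} (x : ZMod 2) (hπ : Prime π) (h : π ∣ p) (h2 : ¬ π ^ 2 ∣ p) :
    ext (ind π x) p = x := by
  obtain ⟨r, rfl⟩ := h
  have hr : r ≠ 0 := by rintro rfl; simp at h2
  rw [ext_mul (ind_inv _ _) hπ.ne_zero hr, ext_prime (ind_inv _ _) hπ,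
    ext_ind0 x fun h => h2 (by rw [sq]; exact mul_dvd_mul_left _ h)]
  simp [ind]

end ext

section poly
variable {σ τ : Type}

lemma deg_le {p q : MvPolynomial σ ℚ} (h : p ∣ q) (hq : q ≠ 0) (z : σ) :
    degreeOf z p ≤ degreeOf z q := by
  obtain ⟨r, rfl⟩ := h
  rw [degreeOf_mul_eq (left_ne_zero_of_mul hq) (right_ne_zero_of_mul hq)]
  omega

lemma nv_dvd {p q : MvPolynomial σ ℚ} (h : p ∣ q) (hq : q ≠ 0) {z : σ} (hz : z ∉ q.vars) :
    z ∉ p.vars := by
  rw [mem_vars_iff_degreeOf_ne_zero] at hz ⊢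
  have := deg_le h hq z
  omega

lemma nv_mul {p q : MvPolynomial σ ℚ} {z : σ} (hp : z ∉ p.vars) (hq : z ∉ q.vars) :
    z ∉ (p * q).vars := by
  classical
  intro h
  rcases Finset.mem_union.1 (vars_mul p q h) with h | h <;> contradiction

lemma nv_sub {p q : MvPolynomial σ ℚ} {z : σ} (hp : z ∉ p.vars) (hq : z ∉ q.vars) :
    z ∉ (p - q).vars := by
  classical
  intro h
  rcases Finset.mem_union.1 (vars_sub_subset p h) with h | h <;> contradiction

lemma nv_add {p q : MvPolynomial σ ℚ} {z : σ} (hp : z ∉ p.vars) (hq : z ∉ q.vars) :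
    z ∉ (p + q).vars := by
  classical
  intro h
  rcases Finset.mem_union.1 (vars_add_subset p q h) with h | h <;> contradiction

lemma nv_ren (f : σ → τ) (p : MvPolynomial σ ℚ) {z : τ} (h : ∀ x, f x ≠ z) :
    z ∉ (rename f p).vars := fun hz => by
  obtain ⟨x, -, hx⟩ := mem_vars_rename f p hz
  exact h x hx

lemma mem_ren {f : σ → τ} (hf : Injective f) (p : MvPolynomial σ ℚ) (x : σ) :
    f x ∈ (rename f p).vars ↔ x ∈ p.vars := by
  rw [mem_vars_iff_degreeOf_ne_zero, mem_vars_iff_degreeOf_ne_zero, degreeOf_rename_of_injective hf]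

lemma nv_primes (p : MvPolynomial σ ℚ) {z : σ} :
    (∀ q, Prime q → q ∣ p → z ∉ q.vars) → z ∉ p.vars := by
  induction p using induction_on_prime with
  | h₁ => simp
  | h₂ x hx => exact fun _ => nv_dvd hx.dvd one_ne_zero (by simp)
  | h₃ a q _ hq ih =>
    exact fun h => nv_mul (h q hq (dvd_mul_right _ _)) (ih fun r hr h' => h r hr (h'.mul_left _))

lemma prime_ren {f : σ → τ} (hf : Injective f) {p : MvPolynomial σ ℚ} (hp : Prime p) :
    Prime (rename f p) := by
  have : rename f p = rename ((↑) : Set.range f → τ) (renameEquiv ℚ (Equiv.ofInjective f hf) p) := by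
    rw [renameEquiv_apply, rename_rename]; rfl
  rw [this, prime_rename_iff, MulEquiv.prime_iff]
  exact hp

lemma supp_pd {p : MvPolynomial σ ℚ} {j : σ} {m : σ →₀ ℕ} (hm : m ∈ p.support) (h : m j ≠ 0) :
    m - Finsupp.single j 1 ∈ (pderiv j p).support := by
  rw [mem_support_iff, coeff_pderiv, Finsupp.sub_add_single_one_cancel h]
  exact mul_ne_zero (mem_support_iff.1 hm) (Nat.cast_add_one_ne_zero _)

lemma pd_ne {p : MvPolynomial σ ℚ} {j : σ} (h : j ∈ p.vars) : pderiv j p ≠ 0 := by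
  obtain ⟨m, hm, hj⟩ := (mem_vars_iff_mem_support j).1 h
  intro h0
  simpa [h0] using supp_pd hm (Finsupp.mem_support_iff.1 hj)

lemma deg_pd (p : MvPolynomial σ ℚ) (j : σ) : degreeOf j p ≤ degreeOf j (pderiv j p) + 1 := by
  rw [degreeOf_le_iff]
  intro m hm
  by_cases h : m j = 0
  · omega
  · have := monomial_le_degreeOf j (supp_pd hm h)
    simp only [Finsupp.coe_tsub, Pi.sub_apply, Finsupp.single_eq_same] at this
    omega

lemma dvd_pd {p : MvPolynomial σ ℚ} {j : σ} (h : p ∣ pderiv j p) : j ∉ p.vars := by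
  intro hj
  have h1 := deg_le h (pd_ne hj) j
  have h2 : degreeOf j (pderiv j p) < degreeOf j p := by
    rw [degreeOf_lt_iff (Nat.pos_of_ne_zero (mem_vars_iff_degreeOf_ne_zero.1 hj))]
    intro m hm
    rw [mem_support_iff, coeff_pderiv] at hm
    have := monomial_le_degreeOf j (mem_support_iff.2 (left_ne_zero_of_mul hm))
    simp only [Finsupp.coe_add, Pi.add_apply, Finsupp.single_eq_same] at this
    omega
  omega

lemma wr_ne {N D : MvPolynomial σ ℚ} (h : IsRelPrime N D) {j : σ} (hj : j ∈ N.vars ∨ j ∈ D.vars) :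
    pderiv j N * D - N * pderiv j D ≠ 0 := by
  intro h0
  rw [sub_eq_zero] at h0
  rcases hj with hj | hj
  · exact dvd_pd (h.dvd_of_dvd_mul_right ⟨_, h0⟩) hj
  · exact dvd_pd (h.symm.dvd_of_dvd_mul_left ⟨pderiv j N, by rw [← h0, mul_comm]⟩) hj

lemma rp_ren {f : σ → τ} (hf : Injective f) {N D : MvPolynomial σ ℚ} (h : IsRelPrime N D)
    {π : MvPolynomial τ ℚ} (hπ : Prime π) (h1 : π ∣ rename f N) (h2 : π ∣ rename f D) : False := by
  have hv : (π.vars : Set τ) ⊆ Set.range f := by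
    intro z hz
    by_contra hc
    have hc' : ∀ x, f x ≠ z := fun x hx => hc ⟨x, hx⟩
    by_cases hN : N = 0
    · have hD : D ≠ 0 := by
        rintro rfl
        exact not_isUnit_zero (h (hN ▸ dvd_rfl) dvd_rfl)
      exact nv_dvd h2 ((map_ne_zero_iff _ (rename_injective f hf)).2 hD) (nv_ren f D hc') hz
    · exact nv_dvd h1 ((map_ne_zero_iff _ (rename_injective f hf)).2 hN) (nv_ren f N hc') hz
  obtain ⟨q, rfl⟩ := exists_rename_eq_of_vars_subset_range π f hf hv
  have k1 := map_dvd (killCompl hf) h1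
  have k2 := map_dvd (killCompl hf) h2
  simp only [killCompl_rename_app] at k1 k2
  exact hπ.not_isUnit ((h k1 k2).map _)

lemma dvd_pd_of {π W : MvPolynomial σ ℚ} {z : σ} (h : π ∣ W) (h' : z ∉ π.vars ∨ π ^ 2 ∣ W) :
    π ∣ pderiv z W := by
  rcases h' with h' | ⟨r, rfl⟩
  · obtain ⟨r, rfl⟩ := h
    rw [pderiv_mul, pderiv_eq_zero_of_notMem_vars h']; simp
  · rw [sq, mul_assoc, pderiv_mul]
    exact dvd_add ((dvd_mul_right _ _).mul_left _) (dvd_mul_right _ _)

lemma lin_uniq {U π π' : MvPolynomial σ ℚ} {z : σ} (hU : U ≠ 0) (hz : z ∉ (pderiv z U).vars)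
    (hπ : Prime π) (hπ' : Prime π') (h : π ∣ U) (h' : π' ∣ U) (h1 : z ∈ π.vars) (h2 : z ∈ π'.vars) :
    Associated π π' := by
  obtain ⟨u, rfl⟩ := h
  rcases hπ'.dvd_or_dvd h' with k | k
  · exact (hπ'.associated_of_dvd hπ k).symm
  · have e1 := deg_pd (π * u) z
    have e2 := deg_le k (right_ne_zero_of_mul hU) z
    rw [degreeOf_mul_eq hπ.ne_zero (right_ne_zero_of_mul hU)] at e1
    rw [mem_vars_iff_degreeOf_ne_zero] at hz h1 h2
    omega

end poly

section two
variable {R : Type} {n : ℕ}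

/-- first copy -/
def iX : R ⊕ Fin n → R ⊕ Fin n ⊕ Fin n := Sum.map id Sum.inl
/-- second copy -/
def iY : R ⊕ Fin n → R ⊕ Fin n ⊕ Fin n := Sum.map id Sum.inr

lemma iX_inj : Injective (iX (R := R) (n := n)) := Sum.map_injective.2 ⟨injective_id, Sum.inl_injective⟩
lemma iY_inj : Injective (iY (R := R) (n := n)) := Sum.map_injective.2 ⟨injective_id, Sum.inr_injective⟩
lemma iX_ne (x : R ⊕ Fin n) (j : Fin n) : iX x ≠ .inr (.inr j) := by cases x <;> simp [iX]
lemma iY_ne (x : R ⊕ Fin n) (j : Fin n) : iY x ≠ .inr (.inl j) := by cases x <;> simp [iY]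

/-- only root variables -/
def Root (p : MvPolynomial (R ⊕ Fin n ⊕ Fin n) ℚ) : Prop := ∀ z, Sum.inr z ∉ p.vars

/-- diagonal at `i` -/
def Diag (i : Fin n) (p : MvPolynomial (R ⊕ Fin n ⊕ Fin n) ℚ) : Prop :=
  .inr (.inl i) ∈ p.vars ∧ .inr (.inr i) ∈ p.vars ∧ ∀ j, i < j → .inr (.inr j) ∉ p.vars

/-- numerator of a difference of fractions -/
noncomputable def WW (N D N2 D2 : MvPolynomial (R ⊕ Fin n) ℚ) : MvPolynomial (R ⊕ Fin n ⊕ Fin n) ℚ :=
  rename iX N * rename iY D2 - rename iY N2 * rename iX D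

theorem SL {N D N2 D2 : MvPolynomial (R ⊕ Fin n) ℚ} (hND : IsRelPrime N D) (hND2 : IsRelPrime N2 D2)
    {i : Fin n} (h1 : .inr i ∈ N.vars ∨ .inr i ∈ D.vars) (h2 : .inr i ∈ N2.vars ∨ .inr i ∈ D2.vars)
    (h3 : ∀ j, i < j → .inr j ∉ N2.vars ∧ .inr j ∉ D2.vars) :
    WW N D N2 D2 ≠ 0 ∧ (∀ π, Prime π → π ∣ WW N D N2 D2 →
      Root π ∨ (Diag i π ∧ ¬ π ^ 2 ∣ WW N D N2 D2)) ∧ ∃ π, Prime π ∧ π ∣ WW N D N2 D2 ∧ Diag i π := by
  set W := WW N D N2 D2 with hW
  have w1 := (map_ne_zero_iff _ (rename_injective iX iX_inj)).2 (wr_ne hND h1)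
  have w2 := (map_ne_zero_iff _ (rename_injective iY iY_inj)).2 (wr_ne hND2 h2)
  have z1 : ∀ p : MvPolynomial (R ⊕ Fin n) ℚ, pderiv (.inr (.inl i)) (rename iY p) = 0 := fun p =>
    pderiv_eq_zero_of_notMem_vars (nv_ren _ _ fun x => iY_ne x i)
  have z2 : ∀ p : MvPolynomial (R ⊕ Fin n) ℚ, pderiv (.inr (.inr i)) (rename iX p) = 0 := fun p =>
    pderiv_eq_zero_of_notMem_vars (nv_ren _ _ fun x => iX_ne x i)
  have z3 : ∀ p : MvPolynomial (R ⊕ Fin n) ℚ, pderiv (.inr (.inl i)) (rename iX p) =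
    rename iX (pderiv (.inr i) p) := fun p => pderiv_rename iX_inj (.inr i) p
  have z4 : ∀ p : MvPolynomial (R ⊕ Fin n) ℚ, pderiv (.inr (.inr i)) (rename iY p) =
    rename iY (pderiv (.inr i) p) := fun p => pderiv_rename iY_inj (.inr i) p
  have dX : pderiv (.inr (.inl i)) W = rename iX (pderiv (.inr i) N) * rename iY D2 -
      rename iY N2 * rename iX (pderiv (.inr i) D) := by
    simp only [hW, WW, map_sub, pderiv_mul, z1, z3]; ring
  have dY : pderiv (.inr (.inr i)) W = rename iX N * rename iY (pderiv (.inr i) D2) -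
      rename iY (pderiv (.inr i) N2) * rename iX D := by
    simp only [hW, WW, map_sub, pderiv_mul, z2, z4]; ring
  have A1 : ∀ π, Prime π → π ∣ W → π ∣ pderiv (.inr (.inl i)) W → ∀ j, .inr (.inr j) ∉ π.vars := by
    intro π hπ k1 k2 j
    refine nv_dvd ?_ w1 (nv_ren _ _ fun x => iX_ne x j)
    by_contra hc
    refine rp_ren iY_inj hND2 hπ ((hπ.dvd_or_dvd ?_).resolve_right hc)
      ((hπ.dvd_or_dvd ?_).resolve_right hc)
    · convert dvd_sub (k2.mul_left (rename iX N)) (k1.mul_left (rename iX (pderiv (.inr i) N))) using 1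
      rw [dX, hW, WW]; simp only [map_sub, map_mul]; ring
    · convert dvd_sub (k2.mul_left (rename iX D)) (k1.mul_left (rename iX (pderiv (.inr i) D))) using 1
      rw [dX, hW, WW]; simp only [map_sub, map_mul]; ring
  have A2 : ∀ π, Prime π → π ∣ W → π ∣ pderiv (.inr (.inr i)) W → ∀ j, .inr (.inl j) ∉ π.vars := by
    intro π hπ k1 k2 j
    refine nv_dvd ?_ w2 (nv_ren _ _ fun x => iY_ne x j)
    by_contra hc
    refine rp_ren iX_inj hND hπ ((hπ.dvd_or_dvd ?_).resolve_right hc)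
      ((hπ.dvd_or_dvd ?_).resolve_right hc)
    · convert dvd_sub (k1.mul_left (rename iY (pderiv (.inr i) N2))) (k2.mul_left (rename iY N2)) using 1
      rw [dY, hW, WW]; simp only [map_sub, map_mul]; ring
    · convert dvd_sub (k1.mul_left (rename iY (pderiv (.inr i) D2))) (k2.mul_left (rename iY D2)) using 1
      rw [dY, hW, WW]; simp only [map_sub, map_mul]; ring
  have hX : pderiv (.inr (.inl i)) W ≠ 0 := by
    intro h0
    have h00 := congrArg (pderiv (.inr (.inr i))) h0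
    rw [dX] at h0 h00
    simp only [map_sub, pderiv_mul, z2, z4, map_zero] at h00
    have e1 : rename iX (pderiv (.inr i) N) * rename iY (pderiv (.inr i) N2 * D2 - N2 * pderiv (.inr i) D2) = 0 := by
      simp only [map_sub, map_mul]
      linear_combination rename iY (pderiv (.inr i) N2) * h0 - rename iY N2 * h00
    have e2 : rename iX (pderiv (.inr i) D) * rename iY (pderiv (.inr i) N2 * D2 - N2 * pderiv (.inr i) D2) = 0 := by
      simp only [map_sub, map_mul]
      linear_combination rename iY (pderiv (.inr i) D2) * h0 - rename iY D2 * h00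
    apply w1
    simp only [map_sub, map_mul, (mul_eq_zero.1 e1).resolve_right w2, (mul_eq_zero.1 e2).resolve_right w2]
    ring
  have hW0 : W ≠ 0 := fun h => hX (by rw [h, map_zero])
  have main : ∀ π, Prime π → π ∣ W → Root π ∨ (Diag i π ∧ ¬ π ^ 2 ∣ W) := by
    intro π hπ k
    by_cases c1 : .inr (.inl i) ∈ π.vars
    · by_cases c2 : .inr (.inr i) ∈ π.vars
      · refine Or.inr ⟨⟨c1, c2, fun j hj => nv_dvd k hW0 ?_⟩,
          fun h => A1 π hπ k (dvd_pd_of k (Or.inr h)) i c2⟩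
        refine nv_sub (nv_mul (nv_ren _ _ fun x => iX_ne x j) ?_) (nv_mul ?_ (nv_ren _ _ fun x => iX_ne x j))
        · exact fun h => (h3 j hj).2 ((mem_ren iY_inj D2 (.inr j)).1 h)
        · exact fun h => (h3 j hj).1 ((mem_ren iY_inj N2 (.inr j)).1 h)
      · exact absurd c1 (A2 π hπ k (dvd_pd_of k (Or.inl c2)) i)
    · have a1 := A1 π hπ k (dvd_pd_of k (Or.inl c1))
      have a2 := A2 π hπ k (dvd_pd_of k (Or.inl (a1 i)))
      left
      rintro (j | j)
      exacts [a2 j, a1 j]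
  refine ⟨hW0, main, ?_⟩
  by_contra hc
  refine hX (pderiv_eq_zero_of_notMem_vars (nv_primes W fun q hq k => ?_))
  rcases main q hq k with h | h
  · exact h _
  · exact absurd ⟨q, hq, k, h.1⟩ hc

/-- splitting off the unique non-root prime -/
lemma split {W π : MvPolynomial (R ⊕ Fin n ⊕ Fin n) ℚ} (k : π ∣ W)
    (h : ∀ q, Prime q → q ∣ W → Root q ∨ (Associated π q ∧ ¬ q ^ 2 ∣ W)) :
    ∃ W', W = π * W' ∧ Root W' := by
  obtain ⟨W', rfl⟩ := k
  refine ⟨W', rfl, fun z => nv_primes _ fun q hq k => ?_⟩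
  rcases h q hq (k.mul_left _) with h | ⟨h, h'⟩
  · exact h z
  · exact absurd (by rw [sq]; exact mul_dvd_mul h.symm.dvd k) h'

end two

end Pool.Agent.H15.Syn
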