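import Pool.Agent.H15.Syn1
import Pool.Agent.H15.Syn2

set_option autoImplicit false

namespace Pool.Agent.H15.Syn

open Function UniqueFactorizationMonoid MvPolynomial Cardinal

lemma cnt_poly (σ : Type) [Countable σ] : Countable (MvPolynomial σ ℚ) := by
  rw [← mk_le_aleph0_iff]
  exact cardinalMk_le_max.trans (max_le (max_le mk_le_aleph0 mk_le_aleph0) le_rfl)

lemma exists_enc : ∃ e : Associates (MvPolynomial (List Bool × Bool × Bool) ℚ) → ℕ, Injective e := by
  have := cnt_poly (List Bool × Bool × Bool)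
  have : Countable (Associates (MvPolynomial (List Bool × Bool × Bool) ℚ)) :=
    Associates.mk_surjective.countable
  exact exists_injective_nat _

/-- code of a polynomial up to association -/
noncomputable def enc (p : MvPolynomial (List Bool × Bool × Bool) ℚ) : ℕ :=
  exists_enc.choose (Associates.mk p)

lemma enc_eq {p q : MvPolynomial (List Bool × Bool × Bool) ℚ} : enc p = enc q ↔ Associated p q := by
  rw [enc, enc, exists_enc.choose_spec.eq_iff, Associates.mk_eq_mk_iff_associated]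

lemma vars_assoc {σ : Type} {p q : MvPolynomial σ ℚ} (h : Associated p q) : p.vars = q.vars := by
  by_cases hq : q = 0
  · subst hq; rw [(associated_zero_iff_eq_zero _).1 h]
  · ext z
    exact ⟨fun k => by_contra fun c => nv_dvd h.dvd hq c k,
      fun k => by_contra fun c => nv_dvd h.symm.dvd (h.ne_zero_iff.2 hq) c k⟩

/-- families of tuples above a root -/
structure Fam (J : Type) [LinearOrder J] (R : Type) (n : ℕ) where
  ρ : R → J
  hρ : Injective ρ
  a : J → Fin n → J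
  C : Set J
  cof : Cof C
  mono : ∀ α ∈ C, StrictMono (a α)
  lt : ∀ α ∈ C, ∀ i, α < a α i
  root : ∀ α ∈ C, ∀ r, ρ r < α

variable {J : Type} [LinearOrder J] {R : Type} {n : ℕ}

namespace Fam
variable (F : Fam J R n)

/-- instance of the one-tuple variables -/
def j (α : J) : R ⊕ Fin n → J := Sum.elim F.ρ (F.a α)
/-- instance of the two-tuple variables -/
def ι (α β : J) : R ⊕ Fin n ⊕ Fin n → J := Sum.elim F.ρ (Sum.elim (F.a α) (F.a β))
/-- admissible pairs -/
def ok (α β : J) : Prop := α ∈ F.C ∧ β ∈ F.C ∧ ∀ i j, F.a α i < F.a β j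

lemma ι_X (α β : J) : F.ι α β ∘ iX = F.j α := by funext x; cases x <;> rfl
lemma ι_Y (α β : J) : F.ι α β ∘ iY = F.j β := by funext x; cases x <;> rfl

lemma j_inj {α : J} (h : α ∈ F.C) : Injective (F.j α) :=
  F.hρ.sumElim (F.mono α h).injective fun r i => ((F.root α h r).trans (F.lt α h i)).ne

lemma ι_inj {α β : J} (h : F.ok α β) : Injective (F.ι α β) := by
  refine F.hρ.sumElim ((F.mono α h.1).injective.sumElim (F.mono β h.2.1).injective
    fun i j => (h.2.2 i j).ne) ?_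
  rintro r (i | i)
  exacts [((F.root α h.1 r).trans (F.lt α h.1 i)).ne, ((F.root β h.2.1 r).trans (F.lt β h.2.1 i)).ne]

lemma ι_root {p : MvPolynomial (R ⊕ Fin n ⊕ Fin n) ℚ} (hp : Root p) (α β α' β' : J) :
    rename (F.ι α β) p = rename (F.ι α' β') p := by
  refine hom_congr_vars (f₁ := (rename (F.ι α β)).toRingHom) (f₂ := (rename (F.ι α' β')).toRingHom)
    (by ext; simp) ?_ rfl
  rintro (r | z) h -
  · simp [ι]
  · exact absurd h (hp z)

/-- subfamily -/
def sub (C' : Set J) (h : C' ⊆ F.C) (hc : Cof C') : Fam J R n :=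
  ⟨F.ρ, F.hρ, F.a, C', hc, fun α k => F.mono α (h k), fun α k => F.lt α (h k), fun α k => F.root α (h k)⟩

end Fam

namespace Col
variable (Q : Col J)

/-- initial segment of the code of a point -/
def pre (m : ℕ) (v : J) : List Bool := (List.range m).map (Q.s v)

lemma pre_eq {m : ℕ} {v w : J} : Q.pre m v = Q.pre m w ↔ ∀ k < m, Q.s v k = Q.s w k := by
  simp [pre]

/-- collapsing map -/
def rho (γ β : J) (m : ℕ) (v : J) : List Bool × Bool × Bool :=
  (Q.pre m v, decide (v ≤ γ), decide (v ≤ β))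

/-- distinguished pair of variables -/
def Good (V : Finset J) (γ β : J) (m : ℕ) : Prop :=
  γ ∈ V ∧ β ∈ V ∧ γ < β ∧ (∀ v ∈ V, v ≤ β) ∧ (∀ k < m, Q.c γ β k = 0) ∧ Q.c γ β m = 1 ∧
    Q.pre m γ = Q.pre m β ∧ ∀ v ∈ V, v ≠ β → v ≠ γ → Q.pre m v ≠ Q.pre m β

lemma good_uniq {V : Finset J} {γ β γ' β' : J} {m m' : ℕ} (h : Q.Good V γ β m)
    (h' : Q.Good V γ' β' m') : γ = γ' ∧ β = β' ∧ m = m' := by
  obtain ⟨a1, a2, a3, a4, a5, a6, a7, a8⟩ := h
  obtain ⟨b1, b2, b3, b4, b5, b6, b7, b8⟩ := h'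
  obtain rfl : β = β' := le_antisymm (b4 _ a2) (a4 _ b2)
  obtain rfl : γ = γ' := by
    by_contra hc
    rcases le_total m m' with k | k
    · exact a8 γ' b1 b3.ne (Ne.symm hc) (Q.pre_eq.2 fun i hi => Q.pre_eq.1 b7 i (by omega))
    · exact b8 γ a1 a3.ne hc (Q.pre_eq.2 fun i hi => Q.pre_eq.1 a7 i (by omega))
  refine ⟨rfl, rfl, ?_⟩
  rcases lt_trichotomy m m' with k | k | k
  · exact absurd (a6.symm.trans (b5 m k)) (by decide)
  · exact k
  · exact absurd (b6.symm.trans (a5 m' k)) (by decide)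

/-- the sign of a prime -/
noncomputable def phi (p : MvPolynomial J ℚ) : ZMod 2 :=
  @ite _ (∃ γ β m, Q.Good p.vars γ β m ∧ Q.c γ β (m + 1 + enc (rename (Q.rho γ β m) p)) = 1)
    (Classical.propDecidable _) 1 0

lemma phi_inv : Inv Q.phi := fun p q h => by
  have e : ∀ γ β m, enc (rename (Q.rho γ β m) p) = enc (rename (Q.rho γ β m) q) := fun γ β m =>
    enc_eq.2 (h.map _)
  unfold phi
  congr 1
  simp only [vars_assoc h, e]

lemma phi_eq {p : MvPolynomial J ℚ} {γ β : J} {m : ℕ} (h : Q.Good p.vars γ β m) :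
    Q.phi p = Q.c γ β (m + 1 + enc (rename (Q.rho γ β m) p)) := by
  unfold phi
  by_cases c : Q.c γ β (m + 1 + enc (rename (Q.rho γ β m) p)) = 1
  · rw [if_pos ⟨γ, β, m, h, c⟩, c]
  · rw [if_neg]
    · revert c
      generalize Q.c γ β _ = x
      revert x; decide
    · rintro ⟨γ', β', m', h', c'⟩
      obtain ⟨rfl, rfl, rfl⟩ := Q.good_uniq h h'
      exact c c'

include Q in
lemma ne : Nonempty J := by
  obtain ⟨z, -⟩ := Q.bd Empty Empty.elim (by simpa using aleph0_pos.trans Q.hκ)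
  exact ⟨z⟩

theorem CL [Finite R] (F : Fam J R n) (S : Finset (MvPolynomial (R ⊕ Fin n ⊕ Fin n) ℚ))
    (ε : MvPolynomial (R ⊕ Fin n ⊕ Fin n) ℚ → ZMod 2) (hε : Inv ε) :
    ∃ α β, F.ok α β ∧ ∀ π ∈ S, ∀ i, Diag i π → Q.phi (rename (F.ι α β) π) = ε π := by
  classical
  have := Fintype.ofFinite R
  have sep : ∀ α, ∃ m, α ∈ F.C → Injective fun x => Q.pre m (F.j α x) := by
    intro α
    by_cases hα : α ∈ F.C
    · have : ∀ x y, ∃ k, x ≠ y → Q.s (F.j α x) k ≠ Q.s (F.j α y) k := by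
        intro x y
        by_contra hc
        push Not at hc
        exact (hc 0).1 (F.j_inj hα (Q.hs (funext fun k => (hc k).2)))
      choose k hk using this
      refine ⟨Finset.univ.sup (fun p : (R ⊕ Fin n) × (R ⊕ Fin n) => k p.1 p.2) + 1, fun _ x y h => ?_⟩
      by_contra hc
      exact hk x y hc (Q.pre_eq.1 h _ (Nat.lt_succ_of_le (Finset.le_sup
        (f := fun p : (R ⊕ Fin n) × (R ⊕ Fin n) => k p.1 p.2) (Finset.mem_univ (x, y)))))
    · exact ⟨0, fun h => absurd h hα⟩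
  choose m hm using sep
  obtain ⟨⟨m0, t⟩, hC⟩ := Q.ph' (fun α => (m α, fun x => Q.pre (m α) (F.j α x))) F.cof
  have ht : ∀ α ∈ {α | α ∈ F.C ∧ (m α, fun x => Q.pre (m α) (F.j α x)) = (m0, t)},
      ∀ x, Q.pre m0 (F.j α x) = t x := by
    rintro α ⟨-, h⟩ x
    simp only [Prod.mk.injEq] at h
    rw [← h.2, ← h.1]
  have tinj : Injective t := by
    obtain ⟨α, ⟨h1, h⟩, -⟩ := hC Q.ne.some
    simp only [Prod.mk.injEq] at h
    rw [← h.2]; exact hm α h1
  let τ : Fin n → R ⊕ Fin n ⊕ Fin n → List Bool × Bool × Bool := fun i =>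
    Sum.elim (fun r => (t (.inl r), true, true)) (Sum.elim (fun j => (t (.inr j), decide (j ≤ i), true))
      fun j => (t (.inr j), false, decide (j ≤ i)))
  have τinj : ∀ i, Injective (τ i) := by
    rintro i (x | x | x) (y | y | y) h <;>
      simp only [τ, Sum.elim_inl, Sum.elim_inr, Prod.mk.injEq, tinj.eq_iff, Sum.inl.injEq,
        Sum.inr.injEq, reduceCtorEq, false_and] at h ⊢
    · exact h.1
    · exact h.1
    · obtain ⟨rfl, h1, h2⟩ := h
      rw [h1] at h2; cases h2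
    · obtain ⟨rfl, h1, h2⟩ := h
      rw [h2] at h1; cases h1
    · exact h.1
  let cd : Fin n → MvPolynomial (R ⊕ Fin n ⊕ Fin n) ℚ → ℕ := fun i π => enc (rename (τ i) π)
  obtain ⟨α, hα, β, hβ, h1, h2⟩ := Q.hc n F.a _ hC (fun α h => F.mono α h.1) (fun α h => F.lt α h.1)
    (m0 + 1 + (Finset.univ ×ˢ S).sup (fun p => cd p.1 p.2) + 1)
    (fun i k => if k < m0 then 0 else if k = m0 then 1 else
      if ∃ π, k = m0 + 1 + cd i π ∧ ε π = 1 then 1 else 0)
  have hok : F.ok α β := ⟨hα.1, hβ.1, h1⟩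
  refine ⟨α, β, hok, fun π hπ i hd => ?_⟩
  have hρτ : Q.rho (F.a α i) (F.a β i) m0 ∘ F.ι α β = τ i := by
    funext x
    rcases x with r | j | j
    · have e1 := (F.root α hα.1 r).trans (F.lt α hα.1 i)
      simp [rho, τ, Fam.ι, ← ht α hα, Fam.j, e1.le, (e1.trans (h1 i i)).le]
    · simp [rho, τ, Fam.ι, ← ht α hα, Fam.j, (h1 j i).le, (F.mono α hα.1).le_iff_le]
    · simp [rho, τ, Fam.ι, ← ht β hβ, Fam.j, h1 i j, (F.mono β hβ.1).le_iff_le]
  have pX : ∀ j, Q.pre m0 (F.a α j) = t (.inr j) := fun j => ht α hα (.inr j)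
  have pY : ∀ j, Q.pre m0 (F.a β j) = t (.inr j) := fun j => ht β hβ (.inr j)
  have hg : Q.Good (rename (F.ι α β) π).vars (F.a α i) (F.a β i) m0 := by
    refine ⟨(mem_ren (F.ι_inj hok) π (.inr (.inl i))).2 hd.1,
      (mem_ren (F.ι_inj hok) π (.inr (.inr i))).2 hd.2.1, h1 i i, fun v hv => ?_, fun k hk => ?_, ?_,
      by rw [pX, pY], fun v hv c1 c2 c => ?_⟩
    · obtain ⟨x, hx, rfl⟩ := mem_vars_rename _ _ hv
      rcases x with r | j | j
      · exact ((F.root β hβ.1 r).trans (F.lt β hβ.1 i)).le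
      · exact (h1 j i).le
      · exact (F.mono β hβ.1).monotone (not_lt.1 fun h => hd.2.2 j h hx)
    · rw [h2 i k (by omega), if_pos hk]
    · rw [h2 i m0 (by omega), if_neg (lt_irrefl _), if_pos rfl]
    · obtain ⟨x, hx, rfl⟩ := mem_vars_rename _ _ hv
      rw [pY] at c
      rcases x with r | j | j
      · exact absurd (tinj ((ht α hα (.inl r)).symm.trans c)) (by simp)
      · obtain rfl : j = i := by simpa using tinj ((pX j).symm.trans c)
        exact c2 rfl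
      · obtain rfl : j = i := by simpa using tinj ((pY j).symm.trans c)
        exact c1 rfl
  have hle : cd i π ≤ (Finset.univ ×ˢ S).sup (fun p => cd p.1 p.2) :=
    Finset.le_sup (f := fun p : Fin n × _ => cd p.1 p.2) (b := (i, π)) (by simp [hπ])
  rw [Q.phi_eq hg, rename_rename, hρτ, h2 i _ (by change m0 + 1 + cd i π < _; omega),
    if_neg (by omega), if_neg (by omega)]
  by_cases c : ε π = 1
  · rw [if_pos ⟨π, rfl, c⟩, c]
  · rw [if_neg]
    · revert c
      generalize ε π = x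
      revert x; decide
    · rintro ⟨π', k1, k2⟩
      have k3 := (enc_eq.1 (Nat.add_left_cancel k1)).map (killCompl (τinj i))
      simp only [killCompl_rename_app] at k3
      exact c ((hε _ _ k3).trans k2)

/-- sign of a polynomial -/
noncomputable def chi (p : MvPolynomial J ℚ) : ZMod 2 := ext Q.phi p

/-- all prime factors are root or diagonal -/
def Nice (p : MvPolynomial (R ⊕ Fin n ⊕ Fin n) ℚ) : Prop :=
  p ≠ 0 ∧ ∀ q, Prime q → q ∣ p → Root q ∨ ∃ i, Diag i q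

lemma KL [Finite R] (F : Fam J R n) : ∃ ε0 : MvPolynomial (R ⊕ Fin n ⊕ Fin n) ℚ → ZMod 2,
    ∀ p1 p2, Nice p1 → Nice p2 → ∀ π1 π2, ¬ Root π1 → ¬ Root π2 → ∀ x y, ∃ α β, F.ok α β ∧
    ∀ p, p = p1 ∨ p = p2 →
      Q.chi (rename (F.ι α β) p) = ext ε0 p + ext (ind π1 x) p + ext (ind π2 y) p := by
  classical
  let z := Q.ne.some
  refine ⟨fun q => Q.phi (rename (F.ι z z) q), fun p1 p2 h1 h2 π1 π2 r1 r2 x y => ?_⟩
  have hε : Inv fun q => Q.phi (rename (F.ι z z) q) + ind π1 x q + ind π2 y q := fun p q h => by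
    simp only [Q.phi_inv _ _ (h.map (rename (F.ι z z))), ind_inv π1 x _ _ h, ind_inv π2 y _ _ h]
  obtain ⟨α, β, hok, h⟩ := Q.CL F (factors (p1 * p2)).toFinset _ hε
  refine ⟨α, β, hok, fun p hp => ?_⟩
  have hp' : Nice p ∧ p ∣ p1 * p2 := by
    rcases hp with rfl | rfl
    exacts [⟨h1, dvd_mul_right _ _⟩, ⟨h2, dvd_mul_left _ _⟩]
  rw [← ext_add, ← ext_add]
  refine ext_map (rename (F.ι α β)).toMonoidHom (fun q hq => prime_ren (F.ι_inj hok) hq)
    (fun q hq => (map_ne_zero_iff _ (rename_injective _ (F.ι_inj hok))).2 hq) Q.phi_inv hε p hp'.1.1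
    fun q hq k => ?_
  rcases hp'.1.2 q hq k with r | ⟨i, d⟩
  · have n1 : ∀ π w, ¬ Root π → ind π w q = 0 := fun π w hπ =>
      if_neg fun a => hπ fun u => by rw [vars_assoc a]; exact r u
    rw [n1 _ _ r1, n1 _ _ r2, add_zero, add_zero, F.ι_root r z z α β]; rfl
  · obtain ⟨q', hq', a⟩ := exists_mem_factors_of_dvd (mul_ne_zero h1.1 h2.1) hq.irreducible
      (k.trans hp'.2)
    have := h q' (Multiset.mem_toFinset.2 hq') i (by simpa only [Diag, vars_assoc a] using d)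
    exact (Q.phi_inv _ _ (a.map (rename (F.ι α β)))).trans (this.trans (hε _ _ a.symm))

lemma KL1 [Finite R] (F : Fam J R n) {p π : MvPolynomial (R ⊕ Fin n ⊕ Fin n) ℚ} (h : Nice p)
    (hπ : Prime π) (r : ¬ Root π) (d : π ∣ p) (d2 : ¬ π ^ 2 ∣ p) (e : ZMod 2) :
    ∃ α β, F.ok α β ∧ Q.chi (rename (F.ι α β) p) = e := by
  obtain ⟨ε0, H⟩ := Q.KL F
  obtain ⟨α, β, hok, k⟩ := H p p h h π π r r (e - ext ε0 p) 0
  exact ⟨α, β, hok, by rw [k p (Or.inl rfl), ext_ind1 _ hπ d d2, ext_ind1 _ hπ d d2]; ring⟩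

lemma KL2 [Finite R] (F : Fam J R n) {p π p' π' : MvPolynomial (R ⊕ Fin n ⊕ Fin n) ℚ} (h : Nice p)
    (hπ : Prime π) (r : ¬ Root π) (d : π ∣ p) (d2 : ¬ π ^ 2 ∣ p) (h' : Nice p')
    (hπ' : Prime π') (r' : ¬ Root π') (d' : π' ∣ p') (d2' : ¬ π' ^ 2 ∣ p') (nd : ¬ π' ∣ p)
    (e e' : ZMod 2) :
    ∃ α β, F.ok α β ∧ Q.chi (rename (F.ι α β) p) = e ∧ Q.chi (rename (F.ι α β) p') = e' := by
  obtain ⟨ε0, H⟩ := Q.KL F
  obtain ⟨α, β, hok, k⟩ := H p p' h h' π π' r r' (e - ext ε0 p)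
    (e' - ext ε0 p' - ext (ind π (e - ext ε0 p)) p')
  exact ⟨α, β, hok, by rw [k p (Or.inl rfl), ext_ind1 _ hπ d d2, ext_ind0 _ nd]; ring,
    by rw [k p' (Or.inr rfl), ext_ind1 _ hπ' d' d2']; ring⟩

end Col

end Pool.Agent.H15.Syn
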