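import Pool.Agent.H15.Syn3

set_option autoImplicit false

namespace Pool.Agent.H15.Syn

open Function UniqueFactorizationMonoid MvPolynomial Cardinal

variable {J : Type} [LinearOrder J] {R : Type} {n : ℕ}

/-- the field of rational functions -/
abbrev KK (J : Type) := FractionRing (MvPolynomial J ℚ)

/-- the inclusion of polynomials -/
noncomputable abbrev am : MvPolynomial J ℚ →+* KK J := algebraMap _ _

omit [LinearOrder J] in
lemma am_inj : Injective (am (J := J)) := IsFractionRing.injective _ _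

omit [LinearOrder J] in
lemma am_ne {p : MvPolynomial J ℚ} (h : p ≠ 0) : am p ≠ 0 := (map_ne_zero_iff _ am_inj).2 h

/-- numerator -/
noncomputable def nu (z : KK J) : MvPolynomial J ℚ := (IsLocalization.sec (nonZeroDivisors (MvPolynomial J ℚ)) z).1
/-- denominator -/
noncomputable def de (z : KK J) : MvPolynomial J ℚ := (IsLocalization.sec (nonZeroDivisors (MvPolynomial J ℚ)) z).2

omit [LinearOrder J] in
lemma de_ne (z : KK J) : de z ≠ 0 := nonZeroDivisors.coe_ne_zero _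
omit [LinearOrder J] in
lemma nu_de (z : KK J) : z * am (de z) = am (nu z) := IsLocalization.sec_spec _ z

omit [LinearOrder J] in
lemma frac {σ : Type} {g : σ → J} (hg : Injective g) (y : KK J)
    (h1 : ∀ x ∈ (nu y).vars, x ∈ Set.range g) (h2 : ∀ x ∈ (de y).vars, x ∈ Set.range g) :
    ∃ N D : MvPolynomial σ ℚ, IsRelPrime N D ∧ D ≠ 0 ∧ y * am (rename g D) = am (rename g N) := by
  obtain ⟨N, hN⟩ := exists_rename_eq_of_vars_subset_range _ g hg h1
  obtain ⟨D, hD⟩ := exists_rename_eq_of_vars_subset_range _ g hg h2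
  have D0 : D ≠ 0 := by rintro rfl; exact de_ne y (by rw [← hD, map_zero])
  obtain ⟨N', D', c, h, rfl, rfl⟩ := exists_reduced_factors' N D D0
  refine ⟨N', D', h, right_ne_zero_of_mul D0, ?_⟩
  have := nu_de y
  rw [← hN, ← hD] at this
  simp only [map_mul] at this
  refine mul_left_cancel₀ (am_ne ((map_ne_zero_iff _ (rename_injective g hg)).2
    (left_ne_zero_of_mul D0))) ?_
  linear_combination this

omit [LinearOrder J] in
lemma rootrep {k : ℕ} (z : Fin k → KK J) : ∃ R0 : Finset J, ∀ R : Finset J, R0 ⊆ R →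
    ∃ (q : MvPolynomial R ℚ) (p : Fin k → MvPolynomial R ℚ), q ≠ 0 ∧
      ∀ i, z i * am (rename Subtype.val q) = am (rename Subtype.val (p i)) := by
  classical
  obtain ⟨b, hb⟩ := IsLocalization.exist_integer_multiples_of_finite
    (nonZeroDivisors (MvPolynomial J ℚ)) z
  choose p hp using hb
  refine ⟨b.1.vars ∪ Finset.univ.biUnion fun i => (p i).vars, fun R hR => ?_⟩
  obtain ⟨q, hq⟩ := exists_rename_eq_of_vars_subset_range b.1 (Subtype.val : R → J)
    Subtype.val_injective fun x hx => ⟨⟨x, hR (Finset.mem_union_left _ hx)⟩, rfl⟩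
  choose p' hp' using fun i => exists_rename_eq_of_vars_subset_range (p i) (Subtype.val : R → J)
    Subtype.val_injective fun x hx => ⟨⟨x, hR (Finset.mem_union_right _
      (Finset.mem_biUnion.2 ⟨i, Finset.mem_univ _, hx⟩))⟩, rfl⟩
  refine ⟨q, p', ?_, fun i => ?_⟩
  · rintro rfl
    exact nonZeroDivisors.coe_ne_zero b (by rw [← hq, map_zero])
  · rw [hq, hp', hp, Algebra.smul_def, mul_comm]

/-- linear forms -/
noncomputable def Lin (i : Fin n) (q r q2 : MvPolynomial R ℚ) : MvPolynomial (R ⊕ Fin n ⊕ Fin n) ℚ :=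
  WW (rename .inl q * X (.inr i) + rename .inl r) 1 (rename .inl q2 * X (.inr i)) 1

lemma Lin_eq (i : Fin n) (q r q2 : MvPolynomial R ℚ) : Lin i q r q2 =
    rename .inl q * X (.inr (.inl i)) + rename .inl r - rename .inl q2 * X (.inr (.inr i)) := by
  have e1 : (iX ∘ Sum.inl : R → R ⊕ Fin n ⊕ Fin n) = .inl := rfl
  have e2 : (iY ∘ Sum.inl : R → R ⊕ Fin n ⊕ Fin n) = .inl := rfl
  simp only [Lin, WW, map_add, map_mul, map_one, mul_one, rename_rename, rename_X, e1, e2]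
  rfl

lemma root_inl (r : MvPolynomial R ℚ) : Root (n := n) (rename .inl r) := fun _ =>
  nv_ren _ _ fun _ => by simp

lemma inl_ne {τ : Type} {r : MvPolynomial R ℚ} (h : r ≠ 0) : rename (Sum.inl : R → R ⊕ τ) r ≠ 0 :=
  (map_ne_zero_iff _ (rename_injective _ Sum.inl_injective)).2 h

lemma diag_nr {i : Fin n} {π : MvPolynomial (R ⊕ Fin n ⊕ Fin n) ℚ} (h : Diag i π) : ¬ Root π :=
  fun r => r _ h.1

lemma root_dvd {π : MvPolynomial (R ⊕ Fin n ⊕ Fin n) ℚ} {r : MvPolynomial R ℚ} (h : r ≠ 0)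
    (k : π ∣ rename .inl r) : Root π := fun z => nv_dvd k (inl_ne h) (root_inl r z)

lemma LIN (i : Fin n) {q q2 : MvPolynomial R ℚ} (r : MvPolynomial R ℚ) (hq : q ≠ 0) (hq2 : q2 ≠ 0) :
    Col.Nice (Lin i q r q2) ∧ ∃ π, Prime π ∧ π ∣ Lin i q r q2 ∧ Diag i π ∧ ¬ π ^ 2 ∣ Lin i q r q2 ∧
      ∀ π', Prime π' → π' ∣ Lin i q r q2 → Root π' ∨ (Associated π π' ∧ ¬ π' ^ 2 ∣ Lin i q r q2) := by
  have z : ∀ {τ : Type} (p : MvPolynomial R ℚ) (j : τ), pderiv (.inr j) (rename (Sum.inl : R → R ⊕ τ) p) = 0 :=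
    fun p j => pderiv_eq_zero_of_notMem_vars (nv_ren _ _ fun x => by simp)
  obtain ⟨h1, h2, π, h3, h4, h5⟩ := SL (N := rename .inl q * X (.inr i) + rename .inl r) (D := 1)
    (N2 := rename .inl q2 * X (.inr i)) (D2 := 1) isRelPrime_one_right isRelPrime_one_right (i := i)
    (Or.inl (by
      by_contra hc
      have := pderiv_eq_zero_of_notMem_vars hc
      simp only [map_add, pderiv_mul, z, pderiv_X_self, zero_mul, mul_one, zero_add, add_zero] at this
      exact inl_ne hq this))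
    (Or.inl (by
      by_contra hc
      have := pderiv_eq_zero_of_notMem_vars hc
      simp only [pderiv_mul, z, pderiv_X_self, zero_mul, mul_one, zero_add] at this
      exact inl_ne hq2 this))
    (fun j hj => ⟨nv_mul (nv_ren _ _ fun x => by simp) (by simpa using hj.ne'), by simp⟩)
  refine ⟨⟨h1, fun π' k1 k2 => (h2 π' k1 k2).imp_right fun h => ⟨i, h.1⟩⟩, π, h3, h4, h5,
    ((h2 π h3 h4).resolve_left (diag_nr h5)).2, fun π' k1 k2 => (h2 π' k1 k2).imp_right fun h => ⟨?_, h.2⟩⟩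
  refine lin_uniq (z := .inr (.inl i)) h1 ?_ h3 k1 h4 k2 h5.1 h.1.1
  change _ ∉ (pderiv _ (Lin i q r q2)).vars
  rw [Lin_eq]
  simp only [map_sub, map_add, pderiv_mul, z, pderiv_X_self, zero_mul, mul_one, zero_add, add_zero]
  rw [pderiv_X_of_ne (by simp), mul_zero, sub_zero]
  exact root_inl q _

/-- the variables -/
noncomputable abbrev xx (a : J) : KK J := am (X a)

lemma Fam.am_Lin (F : Fam J R n) (α β : J) (i : Fin n) (q r q2 : MvPolynomial R ℚ) :
    am (rename (F.ι α β) (Lin i q r q2)) = am (rename F.ρ q) * xx (F.a α i) + am (rename F.ρ r) -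
      am (rename F.ρ q2) * xx (F.a β i) := by
  have e1 : F.ι α β ∘ Sum.inl = F.ρ := rfl
  simp only [Lin_eq, map_add, map_sub, map_mul, rename_rename, rename_X, e1]
  rfl

lemma Fam.am_WW (F : Fam J R n) (α β : J) (N D N2 D2 : MvPolynomial (R ⊕ Fin n) ℚ) :
    am (rename (F.ι α β) (WW N D N2 D2)) = am (rename (F.j α) N) * am (rename (F.j β) D2) -
      am (rename (F.j β) N2) * am (rename (F.j α) D) := by
  simp only [WW, map_sub, map_mul, rename_rename, F.ι_X, F.ι_Y]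

namespace Col
variable (Q : Col J)

lemma chi_mul {p q : MvPolynomial J ℚ} (hp : p ≠ 0) (hq : q ≠ 0) :
    Q.chi (p * q) = Q.chi p + Q.chi q := ext_mul Q.phi_inv hp hq

/-- sign of a rational function -/
noncomputable def chiK (z : KK J) : ZMod 2 := Q.chi (nu z) + Q.chi (de z)

lemma chiK_div {p q : MvPolynomial J ℚ} (hp : p ≠ 0) (hq : q ≠ 0) {z : KK J}
    (h : z * am q = am p) : Q.chiK z = Q.chi p + Q.chi q := by
  have e : p * de z = nu z * q := am_inj (by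
    rw [map_mul, map_mul, ← h, ← nu_de]; ring)
  have n0 : nu z ≠ 0 := left_ne_zero_of_mul (e ▸ mul_ne_zero hp (de_ne z))
  have := congrArg Q.chi e
  rw [Q.chi_mul hp (de_ne z), Q.chi_mul n0 hq] at this
  rw [chiK]
  revert this
  generalize Q.chi p = a, Q.chi q = b, Q.chi (nu z) = c, Q.chi (de z) = d
  revert a b c d; decide

omit [LinearOrder J] in
lemma nu_ne {z : KK J} (h : z ≠ 0) : nu z ≠ 0 := fun h0 => by
  have := nu_de z
  rw [h0, map_zero] at this
  exact mul_ne_zero h (am_ne (de_ne z)) this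

lemma chiK_mul {z w : KK J} (hz : z ≠ 0) (hw : w ≠ 0) : Q.chiK (z * w) = Q.chiK z + Q.chiK w := by
  rw [Q.chiK_div (mul_ne_zero (nu_ne hz) (nu_ne hw)) (mul_ne_zero (de_ne z) (de_ne w))
    (by rw [map_mul, map_mul, ← nu_de, ← nu_de]; ring), Q.chi_mul (nu_ne hz) (nu_ne hw),
    Q.chi_mul (de_ne z) (de_ne w), chiK, chiK]
  ring

lemma chiK_am {p : MvPolynomial J ℚ} (hp : p ≠ 0) : Q.chiK (am p) = Q.chi p := by
  rw [Q.chiK_div hp one_ne_zero (by simp), chi, chi, ext_unit _ isUnit_one, add_zero]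

lemma chiK_neg_one : Q.chiK (-1) = 0 := by
  have := Q.chiK_am (p := -1) (by simp)
  rw [map_neg, map_one] at this
  rw [this, chi, ext_unit _ isUnit_one.neg]

/-- endomorphisms of the graph of colour `ε` -/
def Hom (ε : ZMod 2) (f : KK J → KK J) : Prop :=
  ∀ v w, v ≠ w → Q.chiK (v - w) = ε → f v ≠ f w ∧ Q.chiK (f v - f w) = ε

variable {Q} {ε : ZMod 2} {f : KK J → KK J}

lemma contra [Finite R] (hf : Q.Hom ε f) (F : Fam J R n)
    {p π p' π' : MvPolynomial (R ⊕ Fin n ⊕ Fin n) ℚ} (h : Nice p)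
    (hπ : Prime π) (r : ¬ Root π) (d : π ∣ p) (d2 : ¬ π ^ 2 ∣ p) (h' : Nice p')
    (hπ' : Prime π') (r' : ¬ Root π') (d' : π' ∣ p') (d2' : ¬ π' ^ 2 ∣ p') (nd : ¬ π' ∣ p)
    (c1 c2 : ZMod 2) (H : ∀ α β, F.ok α β → ∃ v w, v ≠ w ∧
      Q.chiK (v - w) = Q.chi (rename (F.ι α β) p) + c1 ∧
      Q.chiK (f v - f w) = Q.chi (rename (F.ι α β) p') + c2) : False := by
  obtain ⟨α, β, hok, k1, k2⟩ := Q.KL2 F h hπ r d d2 h' hπ' r' d' d2' nd (ε - c1) (ε + 1 - c2)
  obtain ⟨v, w, h1, h2, h3⟩ := H α β hok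
  have := (hf v w h1 (by rw [h2, k1]; ring)).2
  rw [h3, k2] at this
  exact one_ne_zero (α := ZMod 2) (by linear_combination this)

lemma G [Finite R] (hf : Q.Hom ε f) (F : Fam J R n) (i0 : Fin n) (t1 t2 : KK J)
    {q r : MvPolynomial R ℚ} (hq : q ≠ 0) (ht : (t1 - t2) * am (rename F.ρ q) = am (rename F.ρ r))
    {N D N2 D2 : MvPolynomial (R ⊕ Fin n) ℚ} (hND : IsRelPrime N D) (hND2 : IsRelPrime N2 D2)
    (hD : D ≠ 0) (hD2 : D2 ≠ 0) {i : Fin n} (h1 : .inr i ∈ N.vars ∨ .inr i ∈ D.vars)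
    (h2 : .inr i ∈ N2.vars ∨ .inr i ∈ D2.vars)
    (h3 : ∀ j, i < j → .inr j ∉ N2.vars ∧ .inr j ∉ D2.vars) (d1 d2 : ZMod 2)
    (r1 : ∀ α ∈ F.C, f (xx (F.a α i0) + t1) * am (rename (F.j α) D) = am (rename (F.j α) N) ∧
      Q.chi (rename (F.j α) D) = d1)
    (r2 : ∀ α ∈ F.C, f (xx (F.a α i0) + t2) * am (rename (F.j α) D2) = am (rename (F.j α) N2) ∧
      Q.chi (rename (F.j α) D2) = d2) :
    i = i0 ∧ ∃ l : KK J, l ≠ 0 ∧ ∀ α ∈ F.C, ∀ β ∈ F.C,
      (f (xx (F.a α i0) + t1) - f (xx (F.a β i0) + t2)) * am (rename (F.j α) D) *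
        am (rename (F.j β) D2) = l * (xx (F.a α i0) + t1 - (xx (F.a β i0) + t2)) := by
  obtain ⟨w1, w2, π', w3, w4, w5⟩ := SL hND hND2 h1 h2 h3
  obtain ⟨u1, π, u2, u3, u4, u5, u6⟩ := LIN i0 r hq hq
  have q0 : rename F.ρ q ≠ 0 := (map_ne_zero_iff _ (rename_injective _ F.hρ)).2 hq
  have eU : ∀ α β, (xx (F.a α i0) + t1 - (xx (F.a β i0) + t2)) * am (rename F.ρ q) =
      am (rename (F.ι α β) (Lin i0 q r q)) := fun α β => by
    rw [F.am_Lin, ← ht]; ring
  have eW : ∀ α ∈ F.C, ∀ β ∈ F.C, (f (xx (F.a α i0) + t1) - f (xx (F.a β i0) + t2)) *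
      am (rename (F.j α) D * rename (F.j β) D2) = am (rename (F.ι α β) (WW N D N2 D2)) := by
    intro α hα β hβ
    rw [F.am_WW, ← (r1 α hα).1, ← (r2 β hβ).1, map_mul]; ring
  have key : ∀ π', Prime π' → π' ∣ WW N D N2 D2 → Root π' ∨ (Associated π π' ∧ ¬ π' ^ 2 ∣ WW N D N2 D2) := by
    intro π' k1 k2
    by_cases c : Root π'
    · exact Or.inl c
    have k3 := (w2 π' k1 k2).resolve_left c
    refine Or.inr ⟨((u6 π' k1 ?_).resolve_left c).1, k3.2⟩
    by_contra nd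
    refine contra hf F u1 u2 (diag_nr u4) u3 u5 ⟨w1, fun π' k1 k2 => (w2 π' k1 k2).imp_right
      fun h => ⟨i, h.1⟩⟩ k1 c k2 k3.2 nd (Q.chi (rename F.ρ q)) (d1 + d2) fun α β hok => ?_
    have inj := rename_injective (R := ℚ) _ (F.ι_inj hok)
    have n1 := (map_ne_zero_iff _ inj).2 u1.1
    have n2 := (map_ne_zero_iff _ (rename_injective _ (F.j_inj hok.1))).2 hD
    have n3 := (map_ne_zero_iff _ (rename_injective _ (F.j_inj hok.2.1))).2 hD2
    refine ⟨_, _, fun h => ?_, Q.chiK_div n1 q0 (eU α β), ?_⟩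
    · have := eU α β
      rw [h, sub_self, zero_mul] at this
      exact am_ne n1 this.symm
    · rw [Q.chiK_div ((map_ne_zero_iff _ inj).2 w1) (mul_ne_zero n2 n3) (eW α hok.1 β hok.2.1),
        Q.chi_mul n2 n3, (r1 α hok.1).2, (r2 β hok.2.1).2]
  have as := ((key π' w3 w4).resolve_left (diag_nr w5)).1
  refine ⟨?_, ?_⟩
  · have e := vars_assoc as
    rcases lt_trichotomy i i0 with h | h | h
    · exact absurd (e ▸ u4.2.1) (w5.2.2 i0 h)
    · exact h
    · exact absurd (e ▸ w5.2.1) (u4.2.2 i h)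
  obtain ⟨W', e1, s1⟩ := split (as.dvd.trans w4) key
  obtain ⟨U', e2, s2⟩ := split u3 u6
  obtain ⟨α0, β0, hok, -⟩ := Q.KL1 F u1 u2 (diag_nr u4) u3 u5 0
  have inj := rename_injective (R := ℚ) _ (F.ι_inj hok)
  have n1 := am_ne ((map_ne_zero_iff _ inj).2 (right_ne_zero_of_mul (e1 ▸ w1)))
  have n2 := am_ne ((map_ne_zero_iff _ inj).2 (right_ne_zero_of_mul (e2 ▸ u1.1)))
  refine ⟨am (rename (F.ι α0 β0) W') * am (rename F.ρ q) / am (rename (F.ι α0 β0) U'),
    div_ne_zero (mul_ne_zero n1 (am_ne q0)) n2, fun α hα β hβ => ?_⟩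
  have a1 := eU α β
  have a2 := eW α hα β hβ
  rw [e2, map_mul, map_mul, F.ι_root s2 α β α0 β0] at a1
  rw [e1, map_mul, map_mul (rename _), map_mul, F.ι_root s1 α β α0 β0] at a2
  field_simp
  linear_combination am (rename (F.ι α0 β0) U') * a2 - am (rename (F.ι α0 β0) W') * a1

lemma idx [Finite R] (hf : Q.Hom ε f) (F : Fam J R n) (i0 : Fin n) (t : KK J)
    {N D : MvPolynomial (R ⊕ Fin n) ℚ} (hD : D ≠ 0)
    (r1 : ∀ α ∈ F.C, f (xx (F.a α i0) + t) * am (rename (F.j α) D) = am (rename (F.j α) N)) :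
    ∃ i, (.inr i ∈ N.vars ∨ .inr i ∈ D.vars) ∧ ∀ j, i < j → .inr j ∉ N.vars ∧ .inr j ∉ D.vars := by
  classical
  by_cases c : ∃ i, Sum.inr i ∈ N.vars ∨ Sum.inr i ∈ D.vars
  · obtain ⟨i, hi, h⟩ := Set.exists_max_image {i : Fin n | Sum.inr i ∈ N.vars ∨ Sum.inr i ∈ D.vars} id
      (Set.toFinite _) c
    exact ⟨i, hi, fun j hj => not_or.1 fun k => absurd (h j k) (not_le.2 hj)⟩
  exfalso
  push Not at c
  obtain ⟨u1, π, u2, u3, u4, u5, -⟩ := LIN (R := R) i0 0 one_ne_zero one_ne_zero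
  obtain ⟨α, β, hok, k⟩ := Q.KL1 F u1 u2 (diag_nr u4) u3 u5 ε
  have n1 := (map_ne_zero_iff _ (rename_injective (R := ℚ) _ (F.ι_inj hok))).2 u1.1
  have e : xx (F.a α i0) + t - (xx (F.a β i0) + t) = am (rename (F.ι α β) (Lin i0 1 0 1)) := by
    rw [F.am_Lin]; simp
  have cg : ∀ p : MvPolynomial (R ⊕ Fin n) ℚ, (∀ i, .inr i ∉ p.vars) →
      rename (F.j α) p = rename (F.j β) p := fun p hp => by
    refine hom_congr_vars (f₁ := (rename (F.j α)).toRingHom) (f₂ := (rename (F.j β)).toRingHom)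
      (by ext; simp) ?_ rfl
    rintro (r | z) h -
    · simp [Fam.j]
    · exact absurd h (hp z)
  refine (hf _ _ (sub_ne_zero.1 (e ▸ am_ne n1)) (by rw [e, Q.chiK_am n1, k])).1 ?_
  refine mul_right_cancel₀ (am_ne ((map_ne_zero_iff _ (rename_injective _ (F.j_inj hok.1))).2 hD)) ?_
  rw [r1 α hok.1, cg N fun i => (c i).1, cg D fun i => (c i).2, r1 β hok.2.1]

end Col

end Pool.Agent.H15.Syn
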