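import Pool.Agent.H15.Syn4

set_option autoImplicit false

namespace Pool.Agent.H15.Syn

open Function UniqueFactorizationMonoid MvPolynomial Cardinal

variable {J : Type} [LinearOrder J] {R : Type} {n : ℕ}

omit [LinearOrder J] in
lemma xx_inj : Injective (xx (J := J)) := fun _ _ h => X_injective (am_inj h)

namespace Col
variable {Q : Col J} {ε : ZMod 2} {f : KK J → KK J}

lemma JL (hf : Q.Hom ε f) (t : KK J) {A : Set J} (hA : Cof A) :
    ∃ (B : Set J) (d e : J → KK J) (l l' : KK J), B ⊆ A ∧ Cof B ∧ (∀ x ∈ B, d x ≠ 0 ∧ e x ≠ 0) ∧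
      l ≠ 0 ∧ l' ≠ 0 ∧ ∀ x ∈ B, ∀ y ∈ B, (f (xx x + t) - f (xx y)) * d x * e y = l * (xx x + t - xx y) ∧
        (f (xx x) - f (xx y)) * e x * e y = l' * (xx x - xx y) := by
  classical
  obtain ⟨R0, hR0⟩ := rootrep (k := 1) fun _ => t
  obtain ⟨R, n, ξ, a, C, h0, hC, hm, hlt, hr, hξ, hF⟩ := Q.root (fun x => insert x
    (((nu (f (xx x + t))).vars ∪ (de (f (xx x + t))).vars) ∪
      ((nu (f (xx x))).vars ∪ (de (f (xx x))).vars))) hA R0
  obtain ⟨q, r, hq, hqr⟩ := hR0 R h0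
  let F : Fam J R n := ⟨Subtype.val, Subtype.val_injective, a, C, hC, hm, hlt, fun α h r => hr α h r r.2⟩
  have := cnt_poly (R ⊕ Fin n)
  have ex : ∀ α, ∃ z : Option (Fin n × (MvPolynomial (R ⊕ Fin n) ℚ × MvPolynomial (R ⊕ Fin n) ℚ) ×
      (MvPolynomial (R ⊕ Fin n) ℚ × MvPolynomial (R ⊕ Fin n) ℚ) × ZMod 2 × ZMod 2), α ∈ C →
      ∃ i0 N D N2 D2 d1 d2, z = some (i0, (N, D), (N2, D2), d1, d2) ∧ a α i0 = ξ α ∧
        IsRelPrime N D ∧ IsRelPrime N2 D2 ∧ D ≠ 0 ∧ D2 ≠ 0 ∧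
        (f (xx (a α i0) + t) * am (rename (F.j α) D) = am (rename (F.j α) N) ∧
          Q.chi (rename (F.j α) D) = d1) ∧
        (f (xx (a α i0) + 0) * am (rename (F.j α) D2) = am (rename (F.j α) N2) ∧
          Q.chi (rename (F.j α) D2) = d2) := by
    intro α
    by_cases hα : α ∈ C
    swap
    · exact ⟨none, fun h => absurd h hα⟩
    have rg : ∀ x, x ∈ R ∨ x ∈ Set.range (a α) → x ∈ Set.range (F.j α) := by
      rintro x (h | ⟨i, rfl⟩)
      exacts [⟨.inl ⟨x, h⟩, rfl⟩, ⟨.inr i, rfl⟩]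
    obtain ⟨i0, hi0⟩ := (hF α hα _ (Finset.mem_insert_self _ _)).resolve_left
      fun h => lt_asymm (hr α hα _ h) (hξ α hα).2
    obtain ⟨N, D, k1, k2, k3⟩ := frac (F.j_inj hα) (f (xx (ξ α) + t))
      (fun x hx => rg x (hF α hα x (by simp [hx]))) (fun x hx => rg x (hF α hα x (by simp [hx])))
    obtain ⟨N2, D2, m1, m2, m3⟩ := frac (F.j_inj hα) (f (xx (ξ α)))
      (fun x hx => rg x (hF α hα x (by simp [hx]))) (fun x hx => rg x (hF α hα x (by simp [hx])))
    exact ⟨_, fun _ => ⟨i0, N, D, N2, D2, _, _, rfl, hi0, k1, m1, k2, m2, ⟨by rwa [hi0], rfl⟩,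
      by rwa [hi0, add_zero], rfl⟩⟩
  choose g hg using ex
  obtain ⟨z, hz⟩ := Q.ph' g hC
  obtain ⟨α0, ⟨hα0, rfl⟩, -⟩ := hz Q.ne.some
  obtain ⟨i0, N, D, N2, D2, d1, d2, e0, -, p1, p2, p3, p4, -⟩ := hg α0 hα0
  let F' := F.sub _ (fun α h => h.1) hz
  have all : ∀ α ∈ F'.C, a α i0 = ξ α ∧
      (f (xx (a α i0) + t) * am (rename (F.j α) D) = am (rename (F.j α) N) ∧
          Q.chi (rename (F.j α) D) = d1) ∧
        (f (xx (a α i0) + 0) * am (rename (F.j α) D2) = am (rename (F.j α) N2) ∧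
          Q.chi (rename (F.j α) D2) = d2) := by
    rintro α ⟨h1, h2⟩
    obtain ⟨i0', N', D', N2', D2', d1', d2', e0', k1, -, -, -, -, k2⟩ := hg α h1
    rw [h2, e0] at e0'
    simp only [Option.some.injEq, Prod.mk.injEq] at e0'
    obtain ⟨rfl, ⟨rfl, rfl⟩, ⟨rfl, rfl⟩, rfl, rfl⟩ := e0'
    exact ⟨k1, k2⟩
  obtain ⟨i1, a1, a2⟩ := idx hf F' i0 t p3 fun α h => (all α h).2.1.1
  obtain ⟨i2, b1, b2⟩ := idx hf F' i0 0 p4 fun α h => (all α h).2.2.1
  obtain ⟨rfl, -⟩ := G hf F' i0 t t (q := 1) (r := 0) one_ne_zero (by simp) p1 p1 p3 p3 a1 a1 a2 d1 d1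
    (fun α h => (all α h).2.1) (fun α h => (all α h).2.1)
  obtain ⟨rfl, l', hl', H'⟩ := G hf F' i1 0 0 (q := 1) (r := 0) one_ne_zero (by simp) p2 p2 p4 p4
    b1 b1 b2 d2 d2 (fun α h => (all α h).2.2) (fun α h => (all α h).2.2)
  obtain ⟨-, l, hl, H⟩ := G hf F' i2 t 0 (q := q) (r := r 0) hq (by rw [sub_zero]; exact hqr 0)
    p1 p2 p3 p4 a1 b1 b2 d1 d2 (fun α h => (all α h).2.1) (fun α h => (all α h).2.2)
  have ch : ∀ x, ∃ α, x ∈ ξ '' F'.C → α ∈ F'.C ∧ ξ α = x := fun x => by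
    by_cases h : x ∈ ξ '' F'.C
    · obtain ⟨α, h1, h2⟩ := h
      exact ⟨α, fun _ => ⟨h1, h2⟩⟩
    · exact ⟨x, fun h' => absurd h' h⟩
  choose σ hσ using ch
  refine ⟨ξ '' F'.C, fun x => am (rename (F.j (σ x)) D), fun x => am (rename (F.j (σ x)) D2), l, l',
    ?_, fun α => ?_, fun x hx => ?_, hl, hl', fun x hx y hy => ?_⟩
  · rintro _ ⟨α, h, rfl⟩
    exact (hξ α h.1).1
  · obtain ⟨β, h1, h2⟩ := hz α
    exact ⟨_, ⟨β, h1, rfl⟩, h2.trans (hξ β h1.1).2⟩
  · have inj := rename_injective (R := ℚ) _ (F.j_inj (hσ x hx).1.1)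
    exact ⟨am_ne ((map_ne_zero_iff _ inj).2 p3), am_ne ((map_ne_zero_iff _ inj).2 p4)⟩
  · have k1 := H _ (hσ x hx).1 _ (hσ y hy).1
    have k2 := H' _ (hσ x hx).1 _ (hσ y hy).1
    have e1 : F'.a (σ x) i2 = x := (all _ (hσ x hx).1).1.trans (hσ x hx).2
    have e2 : F'.a (σ y) i2 = y := (all _ (hσ y hy).1).1.trans (hσ y hy).2
    rw [e1, e2] at k1 k2
    simp only [add_zero] at k1 k2
    exact ⟨k1, k2⟩

lemma mob (hf : Q.Hom ε f) : ∃ (A : Set J) (a b c d : KK J), Cof A ∧ a * d - b * c ≠ 0 ∧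
    ∀ t, ∃ h, ∀ x ∈ A, h < x → f (xx x + t) * (c * (xx x + t) + d) = a * (xx x + t) + b := by
  obtain ⟨A, a, b, c, d, hA, hd, H⟩ : ∃ (A : Set J) (a b c d : KK J), Cof A ∧ a * d - b * c ≠ 0 ∧
      ∀ x ∈ A, f (xx x) * (c * xx x + d) = a * xx x + b := by
    obtain ⟨B, d0, e, l0, l, -, hB, h1, -, h2, h3⟩ := JL hf 0 Q.cof_univ
    obtain ⟨u, hu, -⟩ := hB Q.ne.some
    obtain ⟨v, hv, huv⟩ := hB u
    have n1 : xx u - xx v ≠ 0 := sub_ne_zero.2 (xx_inj.ne huv.ne)
    refine ⟨B, f (xx u) * e u - f (xx v) * e v, f (xx v) * e v * xx u - f (xx u) * e u * xx v,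
      e u - e v, e v * xx u - e u * xx v, hB, fun h => ?_, fun x hx => ?_⟩
    · refine mul_ne_zero (mul_ne_zero h2 n1) n1 ?_
      linear_combination h - (xx u - xx v) * (h3 u hu v hv).2
    · refine mul_left_cancel₀ (h1 x hx).2 ?_
      linear_combination (xx x - xx v) * (h3 x hx u hu).2 - (xx x - xx u) * (h3 x hx v hv).2
  refine ⟨A, a, b, c, d, hA, hd, fun t => ?_⟩
  by_contra hc
  push Not at hc
  obtain ⟨B, d', e, l, l', sub, hB, h1, -, h2, h3⟩ := JL hf t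
    (A := {x | x ∈ A ∧ f (xx x + t) * (c * (xx x + t) + d) ≠ a * (xx x + t) + b}) fun α => by
      obtain ⟨x, k1, k2, k3⟩ := hc α
      exact ⟨x, ⟨k1, k3⟩, k2⟩
  obtain ⟨u, hu, -⟩ := hB Q.ne.some
  obtain ⟨v, hv, huv⟩ := hB u
  obtain ⟨w, hw, hvw⟩ := hB v
  have n1 : xx u - xx v ≠ 0 := sub_ne_zero.2 (xx_inj.ne huv.ne)
  have n2 : xx u - xx w ≠ 0 := sub_ne_zero.2 (xx_inj.ne (huv.trans hvw).ne)
  have n3 : xx v - xx w ≠ 0 := sub_ne_zero.2 (xx_inj.ne hvw.ne)
  have Hu := H u (sub hu).1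
  have Hv := H v (sub hv).1
  have Hw := H w (sub hw).1
  have m : ∀ x y, f (xx x) * (c * xx x + d) = a * xx x + b → f (xx y) * (c * xx y + d) = a * xx y + b →
      (f (xx x) - f (xx y)) * e x * e y = l' * (xx x - xx y) → xx x - xx y ≠ 0 →
      (a * d - b * c) * e x * e y = l' * (c * xx x + d) * (c * xx y + d) := by
    intro x y k1 k2 k3 k4
    refine mul_left_cancel₀ k4 ?_
    linear_combination (c * xx x + d) * (c * xx y + d) * k3 - e x * e y * (c * xx y + d) * k1 +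
      e x * e y * (c * xx x + d) * k2
  have m1 := m u w Hu Hw (h3 u hu w hw).2 n2
  have m2 := m v w Hv Hw (h3 v hv w hw).2 n3
  have m3 : e u * (c * xx v + d) = e v * (c * xx u + d) := by
    have g0 : l' * (c * xx w + d) ≠ 0 := fun h => mul_ne_zero (mul_ne_zero hd (h1 u hu).2) (h1 w hw).2
      (by rw [m1]; linear_combination (c * xx u + d) * h)
    refine mul_left_cancel₀ g0 ?_
    linear_combination e v * m1 - e u * m2
  refine (sub hu).2 (mul_left_cancel₀ (mul_ne_zero (mul_ne_zero n1 (h1 u hu).1) (h1 u hu).2) ?_)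
  have k1 := (h3 u hu u hu).1
  have k2 := (h3 u hu v hv).1
  set y := f (xx u + t)
  set s := xx u + t
  have k3 : d' u * e u * ((y - f (xx u)) * (c * xx u + d) * (s - xx v) -
      (y - f (xx v)) * (c * xx v + d) * (s - xx u)) = 0 := by
    linear_combination (c * xx u + d) * (s - xx v) * k1 - (c * xx u + d) * (s - xx u) * k2 -
      d' u * (y - f (xx v)) * (s - xx u) * m3
  linear_combination k3 + d' u * e u * (s - xx v) * Hu - d' u * e u * (s - xx u) * Hv

lemma S3 [Finite R] (hf : Q.Hom ε f) (F : Fam J R n) (i : Fin n) {A E c e q : MvPolynomial R ℚ}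
    (hA : A ≠ 0) (hE : E ≠ 0) (hd : A * e - c * E ≠ 0) (hq : q ≠ 0)
    (H : ∀ α β, F.ok α β → ∃ v w, (v - w) * am (rename F.ρ q) = am (rename (F.ι α β) (Lin i q 0 (-q))) ∧
      ((f v - f w) * am (rename (F.ι α β) (Lin i c e (-c))) = am (rename (F.ι α β) (Lin i A E (-A))) ∨
      (f v - f w) * am (rename (F.ι α β) (Lin i A E (-A))) = am (rename (F.ι α β) (Lin i c e (-c))))) :
    False := by
  obtain ⟨u1, π, u2, u3, u4, u5, -⟩ := LIN i 0 hq (neg_ne_zero.2 hq)
  obtain ⟨w1, π', w2, w3, w4, w5, -⟩ := LIN i E hA (neg_ne_zero.2 hA)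
  have n2 : Nice (Lin i c e (-c)) := by
    by_cases h : c = 0
    · subst h
      have e0 : e ≠ 0 := by rintro rfl; simp at hd
      have : Lin i 0 e (-0) = rename .inl e := by simp [Lin_eq]
      rw [this]
      exact ⟨inl_ne e0, fun q _ k => Or.inl (root_dvd e0 k)⟩
    · exact (LIN i e h (neg_ne_zero.2 h)).1
  have nd : ¬ π' ∣ Lin i c e (-c) := fun k => diag_nr w4 (root_dvd hd (by
    convert dvd_sub (k.mul_left (rename .inl A)) (w3.mul_left (rename .inl c)) using 1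
    simp only [Lin_eq, map_sub, map_mul, map_neg]; ring))
  refine contra hf F u1 u2 (diag_nr u4) u3 u5 (p' := Lin i A E (-A) * Lin i c e (-c))
    ⟨mul_ne_zero w1.1 n2.1, fun r hr k => (hr.dvd_or_dvd k).elim (w1.2 r hr) (n2.2 r hr)⟩ w2
    (diag_nr w4) (w3.mul_right _) (fun k => w5 (w2.pow_dvd_of_dvd_mul_right 2 nd k))
    (fun k => diag_nr w4 (root_dvd (mul_ne_zero hq hE) ?_)) (Q.chi (rename F.ρ q)) 0 fun α β hok => ?_
  · convert dvd_sub (w3.mul_left (rename .inl q)) (k.mul_left (rename .inl A)) using 1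
    simp only [Lin_eq, map_mul, map_neg, map_zero]; ring
  obtain ⟨v, w, h1, h2⟩ := H α β hok
  have inj := rename_injective (R := ℚ) _ (F.ι_inj hok)
  have n1 := (map_ne_zero_iff _ inj).2 u1.1
  have n3 := (map_ne_zero_iff _ inj).2 w1.1
  have n4 := (map_ne_zero_iff _ inj).2 n2.1
  refine ⟨v, w, fun h => ?_, Q.chiK_div n1 ((map_ne_zero_iff _ (rename_injective _ F.hρ)).2 hq) h1, ?_⟩
  · rw [h, sub_self, zero_mul] at h1
    exact am_ne n1 h1.symm
  · rw [map_mul, Q.chi_mul n3 n4, add_zero]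
    rcases h2 with h2 | h2
    · exact Q.chiK_div n3 n4 h2
    · rw [add_comm]; exact Q.chiK_div n4 n3 h2

theorem inj (hf : Q.Hom ε f) : Injective f := by
  obtain ⟨A, a, b, c, d, hA, hd, H⟩ := mob hf
  choose h hh using H
  have key : ∀ u, (a - c * f u = 0 ∨ (a - c * f u) * u + (b - d * f u) = 0) ∧ (c = 0 ∨ c * u + d = 0) := by
    intro u
    obtain ⟨R, hR⟩ := rootrep ![a - c * f u, (a - c * f u) * u + (b - d * f u), c, c * u + d]
    obtain ⟨q, p, hq, hp⟩ := hR R subset_rfl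
    have p0 := hp 0
    have p1 := hp 1
    have p2 := hp 2
    have p3 := hp 3
    simp only [Matrix.cons_val_zero, Matrix.cons_val_one, Matrix.cons_val] at p0 p1 p2 p3
    obtain ⟨b0, hb0⟩ := Q.fin_bd R
    choose ξ hξ1 hξ2 using hA
    choose η hη using fun α => Q.up (max (ξ α) (h (xx (ξ α) + u)))
    let F : Fam J R 2 := ⟨Subtype.val, Subtype.val_injective, fun α => ![ξ α, η α], {α | b0 < α},
      fun α => by
        obtain ⟨β, hβ⟩ := Q.up (max α b0)
        exact ⟨β, (le_max_right _ _).trans_lt hβ, (le_max_left _ _).trans_lt hβ⟩,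
      fun α _ => by
        rw [Fin.strictMono_iff_lt_succ]
        intro i; fin_cases i
        exact (le_max_left _ _).trans_lt (hη α),
      fun α _ i => by
        fin_cases i
        exacts [hξ2 α, (hξ2 α).trans ((le_max_left _ _).trans_lt (hη α))],
      fun α hα r => (hb0 r r.2).trans hα⟩
    have q0 : am (rename (Subtype.val : R → J) q) ≠ 0 :=
      am_ne ((map_ne_zero_iff _ (rename_injective _ Subtype.val_injective)).2 hq)
    have nz : ∀ {z : KK J} {r : MvPolynomial R ℚ}, z * am (rename Subtype.val q) =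
        am (rename Subtype.val r) → z ≠ 0 → r ≠ 0 := by
      rintro z _ k1 k2 rfl
      exact mul_ne_zero k2 q0 (by simpa using k1)
    have dd : p 0 * p 3 - p 2 * p 1 ≠ 0 := by
      intro k
      have := congrArg (fun r => am (rename (Subtype.val : R → J) r)) k
      simp only [map_sub, map_mul, map_zero, ← p0, ← p1, ← p2, ← p3] at this
      exact mul_ne_zero (mul_ne_zero hd q0) q0 (by linear_combination this)
    have HH : ∀ α β, F.ok α β → ∃ v,
        (v - u) * am (rename F.ρ q) = am (rename (F.ι α β) (Lin 0 q 0 (-q))) ∧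
        (f v - f u) * am (rename (F.ι α β) (Lin 0 (p 2) (p 3) (-p 2))) =
          am (rename (F.ι α β) (Lin 0 (p 0) (p 1) (-p 0))) := by
      intro α β hok
      have k := hh (xx (ξ α) + u) (ξ β) (hξ1 β) (((le_max_right _ _).trans_lt (hη α)).trans (hok.2.2 1 0))
      refine ⟨xx (ξ β) + (xx (ξ α) + u), ?_, ?_⟩
      · rw [F.am_Lin]
        simp only [F, map_neg, map_zero, Matrix.cons_val_zero]; ring
      · rw [F.am_Lin, F.am_Lin]
        simp only [F, map_neg, Matrix.cons_val_zero, ← p0, ← p1, ← p2, ← p3]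
        linear_combination am (rename (Subtype.val : R → J) q) * k
    constructor
    · by_contra hc
      push Not at hc
      exact S3 hf F 0 (nz p0 hc.1) (nz p1 hc.2) dd hq fun α β hok => by
        obtain ⟨v, k1, k2⟩ := HH α β hok
        exact ⟨v, u, k1, Or.inl k2⟩
    · by_contra hc
      push Not at hc
      exact S3 hf F 0 (nz p2 hc.1) (nz p3 hc.2) (e := p 1) (c := p 0)
        (fun k => dd (by linear_combination -k)) hq fun α β hok => by
        obtain ⟨v, k1, k2⟩ := HH α β hok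
        exact ⟨v, u, k1, Or.inr k2⟩
  obtain rfl : c = 0 := by
    by_contra hc
    have k0 := (key 0).2.resolve_left hc
    have k1 := (key 1).2.resolve_left hc
    exact hc (by linear_combination k1 - k0)
  have a0 : a ≠ 0 := by rintro rfl; simp at hd
  intro u v huv
  have ku := (key u).1.resolve_left (by simpa using a0)
  have kv := (key v).1.resolve_left (by simpa using a0)
  rw [huv] at ku
  exact mul_left_cancel₀ a0 (by linear_combination ku - kv)

variable (Q) in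
lemma nontriv : ∃ z : KK J, z ≠ 0 ∧ Q.chiK z = 1 := by
  choose g hg using Q.up
  let F : Fam J Empty 1 := ⟨Empty.elim, fun x => x.elim, fun α _ => g α, Set.univ, Q.cof_univ,
    fun _ _ => Subsingleton.strictMono _, fun α _ _ => hg α, fun _ _ r => r.elim⟩
  obtain ⟨u1, π, u2, u3, u4, u5, -⟩ := LIN (R := Empty) (0 : Fin 1) 0 one_ne_zero one_ne_zero
  obtain ⟨α, β, hok, k⟩ := Q.KL1 F u1 u2 (diag_nr u4) u3 u5 1
  have n1 := (map_ne_zero_iff _ (rename_injective (R := ℚ) _ (F.ι_inj hok))).2 u1.1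
  exact ⟨_, am_ne n1, by rw [Q.chiK_am n1, k]⟩

end Col

end Pool.Agent.H15.Syn
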