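import Mathlib
import Pool.Agent.H15.TEmb5

set_option autoImplicit false

namespace Pool.Agent.H15.TEmb
open Set Metric Filter Topology unitInterval

section Sec
variable {W Θ : Type*} [TopologicalSpace W] [CompactSpace W]

theorem finite_of_not {π : W → Θ → Bool} (hπ : ∀ ξ, Continuous fun z => π z ξ) {Z : Set W}
    (hZ : IsClosed Z) {H : Set Θ} {τ : Θ → Bool} (h : ¬ ∃ z ∈ Z, ∀ ξ ∈ H, π z ξ = τ ξ) :
    ∃ t : Finset Θ, (∀ b ∈ t, b ∈ H) ∧ ∀ z ∈ Z, ¬ ∀ b ∈ t, π z b = τ b := by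
  classical
  obtain ⟨t, ht⟩ := hZ.isCompact.elim_finite_subfamily_closed
    (fun b : H => {z | π z b = τ b}) (fun b => isClosed_eq (hπ _) continuous_const) (by
      rw [eq_empty_iff_forall_notMem]
      rintro z ⟨hz, hz'⟩
      exact h ⟨z, hz, fun b hb => mem_iInter.1 hz' ⟨b, hb⟩⟩)
  refine ⟨t.image Subtype.val, fun b hb => ?_, fun z hz h2 => ?_⟩
  · obtain ⟨b', -, rfl⟩ := Finset.mem_image.1 hb
    exact b'.2
  · exact eq_empty_iff_forall_notMem.1 ht z ⟨hz, mem_iInter₂.2 fun b hb =>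
      h2 b (Finset.mem_image_of_mem _ hb)⟩

theorem exists_section [T2Space W] (π : W → Θ → Bool) (hπ : ∀ ξ, Continuous fun z => π z ξ)
    (H : Set Θ) (hO : Onto π univ H) (hfin : ∀ τ : Θ → Bool, {z | ∀ ξ ∈ H, π z ξ = τ ξ}.Finite) :
    ∃ (Z : Set W) (A : Set Θ), IsClosed Z ∧ A.Countable ∧ Onto π Z (H \ A) ∧
      ∀ z ∈ Z, ∀ z' ∈ Z, (∀ ξ ∈ H \ A, π z ξ = π z' ξ) → z = z' := by
  classical
  have hcl : ∀ (s : Set Θ) (τ : Θ → Bool), IsClosed {z | ∀ ξ ∈ s, π z ξ = τ ξ} := by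
    intro s τ
    simp only [ofPred_forall]
    exact isClosed_iInter fun ξ => isClosed_iInter fun _ => isClosed_eq (hπ ξ) continuous_const
  obtain ⟨Z0, -, hZ0⟩ := zorn_superset_nonempty {Z : Set W | IsClosed Z ∧ Onto π Z H}
    (fun c hc hch hne => ⟨⋂₀ c, ⟨isClosed_sInter fun s hs => (hc hs).1, fun τ => by
      have : Nonempty c := hne.to_subtype
      have hk : ∀ s : c, IsClosed ((s : Set W) ∩ {z | ∀ ξ ∈ H, π z ξ = τ ξ}) :=
        fun s => (hc s.2).1.inter (hcl _ _)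
      obtain ⟨z, hz⟩ := IsCompact.nonempty_iInter_of_directed_nonempty_isCompact_isClosed
        (fun s : c => (s : Set W) ∩ {z | ∀ ξ ∈ H, π z ξ = τ ξ}) (fun s t => by
          rcases hch.total s.2 t.2 with h | h
          · exact ⟨s, Subset.rfl, inter_subset_inter_left _ h⟩
          · exact ⟨t, inter_subset_inter_left _ h, Subset.rfl⟩)
        (fun s => (hc s.2).2 τ) (fun s => (hk s).isCompact) hk
      rw [mem_iInter] at hz
      obtain ⟨s0⟩ := this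
      exact ⟨z, fun s hs => (hz ⟨s, hs⟩).1, (hz s0).2⟩⟩, fun s hs => sInter_subset_of_mem hs⟩)
    univ ⟨isClosed_univ, hO⟩
  have hZc : IsClosed Z0 := hZ0.1.1
  have hZo : Onto π Z0 H := hZ0.1.2
  let Wd : Set W → Set (Finset Θ × (Θ → Bool)) := fun U =>
    {m | (∀ b ∈ m.1, b ∈ H) ∧ ∀ z ∈ Z0, (∀ b ∈ m.1, π z b = m.2 b) → z ∈ U}
  have L1 : ∀ U, IsOpen U → (Z0 ∩ U).Nonempty → (Wd U).Nonempty := by
    rintro U hU ⟨z0, hz0, hz0'⟩
    have h1 : ¬ Onto π (Z0 ∩ Uᶜ) H := fun h1 =>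
      (hZ0.2 (y := Z0 ∩ Uᶜ) ⟨hZc.inter hU.isClosed_compl, h1⟩ inter_subset_left hz0).2 hz0'
    obtain ⟨τ, hτ⟩ := not_forall.1 h1
    obtain ⟨t, h2, h3⟩ := finite_of_not hπ (hZc.inter hU.isClosed_compl) hτ
    exact ⟨(t, τ), h2, fun z hz h4 => by_contra fun h5 => h3 z ⟨hz, h5⟩ h4⟩
  have L2 : ∀ U, IsOpen U → ∃ A : Set Θ, A.Countable ∧ A ⊆ H ∧ ∀ z ∈ Z0 ∩ U, ∀ τ' : Θ → Bool,
      (∀ a ∈ A, τ' a = π z a) → ∃ z' ∈ Z0 ∩ closure U, ∀ ξ ∈ H, π z' ξ = τ' ξ := by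
    intro U hU
    obtain ⟨M, hM⟩ := zorn_subset {M : Set (Finset Θ × (Θ → Bool)) | M ⊆ Wd U ∧ ∀ m ∈ M, ∀ m' ∈ M,
        ∀ ρ : Θ → Bool, (∀ b ∈ m.1, ρ b = m.2 b) → (∀ b ∈ m'.1, ρ b = m'.2 b) → m = m'}
      (fun c hc hch => ⟨⋃₀ c, ⟨sUnion_subset fun s hs => (hc hs).1, by
        rintro θ ⟨s, hs, hθ⟩ η ⟨t, ht, hη⟩
        rcases hch.total hs ht with h | h
        · exact (hc ht).2 θ (h hθ) η hη
        · exact (hc hs).2 θ hθ η (h hη)⟩, fun s hs => subset_sUnion_of_mem hs⟩)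
    have hMc : M.Countable := by
      by_contra h
      obtain ⟨T, c, h1, h2, h3, -⟩ := blocksU (fun _ => (∅ : Finset Θ)) Prod.snd univ countable_univ
        M Prod.fst h (fun a => by simp) (fun _ _ _ _ => trivial)
      exact h1 (Set.Subsingleton.countable fun m hm m' hm' =>
        hM.1.2 m (h2 hm) m' (h2 hm') c (h3 m hm) (h3 m' hm'))
    refine ⟨⋃ m ∈ M, (m.1 : Set Θ), hMc.biUnion fun m _ => m.1.countable_toSet,
      iUnion₂_subset fun m hm => (hM.1.1 hm).1, fun z hz τ' hτ' => ?_⟩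
    by_contra h
    obtain ⟨G, hG', hG⟩ := finite_of_not hπ (hZc.inter isClosed_closure) h
    obtain ⟨m, hm⟩ := L1 (U ∩ ⋂ b ∈ G, {w | b ∈ (⋃ m ∈ M, (m.1 : Set Θ)) → π w b = τ' b})
      (hU.inter (isOpen_biInter_finset fun b _ => by
        by_cases hb : b ∈ (⋃ m ∈ M, (m.1 : Set Θ))
        · simp only [hb, true_implies]
          exact (isOpen_discrete {τ' b}).preimage (hπ b)
        · simp [hb]))
      ⟨z, hz.1, hz.2, mem_iInter₂.2 fun b _ hb => (hτ' b hb).symm⟩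
    obtain ⟨m', hm', ρ, h1, h2⟩ : ∃ m' ∈ M, ∃ ρ : Θ → Bool, (∀ b ∈ m.1, ρ b = m.2 b) ∧
        ∀ b ∈ m'.1, ρ b = m'.2 b := by
      by_contra h3
      refine h3 ⟨m, hM.2 (y := insert m M) ⟨insert_subset ⟨hm.1, fun w hw h4 => (hm.2 w hw h4).1⟩
        hM.1.1, ?_⟩ (subset_insert _ _) (mem_insert _ _), m.2, fun _ _ => rfl, fun _ _ => rfl⟩
      rintro ζ (rfl | hζ) η (rfl | hη) ρ h4 h5
      · rfl
      · exact (h3 ⟨η, hη, ρ, h4, h5⟩).elim
      · exact (h3 ⟨ζ, hζ, ρ, h5, h4⟩).elim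
      · exact hM.1.2 ζ hζ η hη ρ h4 h5
    obtain ⟨z2, hz2, hz2'⟩ := hZo ρ
    have h3 := (hm.2 z2 hz2 fun b hb => (hz2' b (hm.1 b hb)).trans (h1 b hb)).2
    obtain ⟨z3, hz3, hz3'⟩ := hZo fun b => if b ∈ m'.1 ∨ b ∉ G then m'.2 b else τ' b
    refine hG z3 ⟨hz3, subset_closure ((hM.1.1 hm').2 z3 hz3 fun b hb =>
      (hz3' b ((hM.1.1 hm').1 b hb)).trans (if_pos (Or.inl hb)))⟩ fun b hb => ?_
    rw [hz3' b (hG' b hb)]
    split_ifs with h4
    · have h5 : b ∈ m'.1 := h4.resolve_right (not_not.2 hb)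
      rw [← h2 b h5, ← hz2' b (hG' b hb)]
      exact mem_iInter₂.1 h3 b hb (mem_biUnion hm' h5)
    · rfl
  let fib : (Θ → Bool) → Set W := fun τ => Z0 ∩ {z | ∀ ξ ∈ H, π z ξ = τ ξ}
  have hfib : ∀ τ, (fib τ).Finite := fun τ => (hfin τ).subset inter_subset_right
  have L3 : ∀ τ, ∃ (A : Set Θ) (U : W → Set W), A.Countable ∧ (∀ z, IsClosed (U z)) ∧
      (fib τ).PairwiseDisjoint U ∧ ∀ τ' : Θ → Bool, (∀ a ∈ A, τ' a = τ a) → ∀ z ∈ fib τ,
        (fib τ' ∩ U z).Nonempty := by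
    intro τ
    obtain ⟨U, h1, h2⟩ := (hfib τ).t2_separation
    choose V h3 h4 h5 using fun z => exists_mem_nhds_isClosed_subset ((h1 z).2.mem_nhds (h1 z).1)
    choose A h6 h7 h8 using fun z => L2 (interior (V z)) isOpen_interior
    refine ⟨⋃ z ∈ fib τ, A z, V, (hfib τ).countable.biUnion fun z _ => h6 z, h4,
      h2.mono h5, fun τ' h z hz => ?_⟩
    obtain ⟨z', h9, h10⟩ := h8 z z ⟨hz.1, mem_interior_iff_mem_nhds.2 (h3 z)⟩ τ' fun a ha =>
      (h a (mem_biUnion hz ha)).trans (hz.2 a (h7 z ha)).symm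
    exact ⟨z', ⟨h9.1, h10⟩, closure_minimal interior_subset (h4 z) h9.2⟩
  choose A U hA hU hd hne using L3
  have L4 : ∀ τ τ' : Θ → Bool, (∀ a ∈ A τ, τ' a = τ a) → (fib τ).ncard ≤ (fib τ').ncard ∧
      ∀ z1 ∈ fib τ, ∀ z ∈ fib τ' ∩ U τ z1, ∀ z' ∈ fib τ' ∩ U τ z1, z ≠ z' →
        (fib τ).ncard < (fib τ').ncard := by
    intro τ τ' h
    choose! g hg using hne τ τ' h
    have hinj : InjOn g (fib τ) := fun a ha b hb hab => by
      by_contra h1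
      exact disjoint_left.1 (hd τ ha hb h1) (hg a ha).2 (hab ▸ (hg b hb).2)
    have hsub : g '' fib τ ⊆ fib τ' := by
      rintro _ ⟨a, ha, rfl⟩
      exact (hg a ha).1
    rw [← hinj.ncard_image]
    refine ⟨ncard_le_ncard hsub (hfib τ'), fun z1 hz1 z hz z' hz' hzz => ?_⟩
    have key : ∀ w ∈ fib τ' ∩ U τ z1, w ≠ g z1 → (g '' fib τ).ncard < (fib τ').ncard := by
      intro w hw h1
      refine ncard_lt_ncard ⟨hsub, fun h2 => ?_⟩ (hfib τ')
      obtain ⟨a, ha, rfl⟩ := h2 hw.1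
      have : a ≠ z1 := fun h3 => h1 (h3 ▸ rfl)
      exact disjoint_left.1 (hd τ ha hz1 this) (hg a ha).2 hw.2
    by_cases h1 : z = g z1
    · exact key z' hz' fun h2 => hzz (h1.trans h2.symm)
    · exact key z hz h1
  obtain ⟨τ, B, hB, hAB, hmax⟩ : ∃ (τ : Θ → Bool) (B : Set Θ), B.Countable ∧ A τ ⊆ B ∧
      ∀ τ' : Θ → Bool, (∀ a ∈ B, τ' a = τ a) → (fib τ').ncard ≤ (fib τ).ncard := by
    by_contra h
    push Not at h
    choose! nx h1 h2 using h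
    let s : ℕ → (Θ → Bool) × Set Θ := fun j => Nat.rec (fun _ => false, A fun _ => false)
      (fun _ p => (nx p.1 p.2, p.2 ∪ A (nx p.1 p.2))) j
    have hs : ∀ j, (s j).2.Countable ∧ A (s j).1 ⊆ (s j).2 := by
      intro j
      induction j with
      | zero => exact ⟨hA _, Subset.rfl⟩
      | succ j ih => exact ⟨ih.1.union (hA _), subset_union_right⟩
    have h3 : ∀ j, j ≤ (fib (s j).1).ncard := by
      intro j
      induction j with
      | zero => exact Nat.zero_le _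
      | succ j ih => exact lt_of_le_of_lt ih (h2 _ _ (hs j).1 (hs j).2)
    have h4 : ∀ j k, j ≤ k → (s j).2 ⊆ (s k).2 ∧ ∀ a ∈ (s j).2, (s k).1 a = (s j).1 a := by
      intro j k hjk
      induction k, hjk using Nat.le_induction with
      | base => exact ⟨Subset.rfl, fun _ _ => rfl⟩
      | succ k _ ih => exact ⟨ih.1.trans subset_union_left, fun a ha =>
          (h1 _ _ (hs k).1 (hs k).2 a (ih.1 ha)).trans (ih.2 a ha)⟩
    let τ : Θ → Bool := fun a => if h : ∃ j, a ∈ (s j).2 then (s h.choose).1 a else false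
    have h5 := (L4 (s ((fib τ).ncard + 1)).1 τ fun a ha => by
      have h6 := (hs ((fib τ).ncard + 1)).2 ha
      have h : ∃ j, a ∈ (s j).2 := ⟨(fib τ).ncard + 1, h6⟩
      simp only [τ, dif_pos h]
      rcases le_total h.choose ((fib τ).ncard + 1) with h7 | h7
      · exact ((h4 _ _ h7).2 a h.choose_spec).symm
      · exact (h4 _ _ h7).2 a h6).1
    have := h3 ((fib τ).ncard + 1)
    omega
  obtain ⟨z1, hz1⟩ : (fib τ).Nonempty := hZo τ
  refine ⟨Z0 ∩ U τ z1 ∩ {z | ∀ ξ ∈ H ∩ B, π z ξ = τ ξ}, B, (hZc.inter (hU τ z1)).inter (hcl _ _), hB,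
    fun ρ => ?_, fun z hz z' hz' h => ?_⟩
  · obtain ⟨z, h1, h2⟩ := hne τ (fun a => if a ∈ B then τ a else ρ a)
      (fun a ha => if_pos (hAB ha)) z1 hz1
    exact ⟨z, ⟨⟨h1.1, h2⟩, fun ξ hξ => (h1.2 ξ hξ.1).trans (if_pos hξ.2)⟩,
      fun ξ hξ => (h1.2 ξ hξ.1).trans (if_neg hξ.2)⟩
  · by_contra h1
    let τ' : Θ → Bool := fun a => if a ∈ B then τ a else π z a
    have h2 : ∀ a ∈ B, τ' a = τ a := fun a ha => if_pos ha
    refine absurd ((L4 τ τ' fun a ha => h2 a (hAB ha)).2 z1 hz1 z ⟨⟨hz.1.1, fun ξ hξ => ?_⟩, hz.1.2⟩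
      z' ⟨⟨hz'.1.1, fun ξ hξ => ?_⟩, hz'.1.2⟩ h1) (not_lt.2 (hmax τ' h2))
    · simp only [τ']
      split_ifs with h3
      · exact hz.2 ξ ⟨hξ, h3⟩
      · rfl
    · simp only [τ']
      split_ifs with h3
      · exact hz'.2 ξ ⟨hξ, h3⟩
      · exact (h ξ ⟨hξ, h3⟩).symm

theorem exists_cube [T2Space W] (π : W → Θ → Bool) (hπ : ∀ ξ, Continuous fun z => π z ξ)
    (H : Set Θ) (hO : Onto π univ H) (hfin : ∀ τ : Θ → Bool, {z | ∀ ξ ∈ H, π z ξ = τ ξ}.Finite)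
    {J : Type*} (hJ : ∀ A : Set Θ, A.Countable → ∃ j : J → Θ, Function.Injective j ∧
      ∀ i, j i ∈ H \ A) : ∃ h : (J → Bool) → W, IsEmbedding h := by
  classical
  obtain ⟨Z, A, hZ, hA, hO', hi⟩ := exists_section π hπ H hO hfin
  obtain ⟨j, hj, hj'⟩ := hJ A hA
  let Z' := Z ∩ {z | ∀ ξ ∈ (H \ A) \ range j, π z ξ = false}
  have hZ' : IsClosed Z' := hZ.inter (by
    simp only [ofPred_forall]
    exact isClosed_iInter fun ξ => isClosed_iInter fun _ => isClosed_eq (hπ ξ) continuous_const)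
  have : CompactSpace Z' := isCompact_iff_compactSpace.1 hZ'.isCompact
  let r : Z' → J → Bool := fun z i => π z (j i)
  have hr : Continuous r := continuous_pi fun i => (hπ _).comp continuous_subtype_val
  have hb : Function.Bijective r := by
    refine ⟨fun z z' h => Subtype.ext (hi z z.2.1 z' z'.2.1 fun ξ hξ => ?_), fun ρ => ?_⟩
    · by_cases h1 : ξ ∈ range j
      · obtain ⟨i, rfl⟩ := h1
        exact congrFun h i
      · rw [z.2.2 ξ ⟨hξ, h1⟩, z'.2.2 ξ ⟨hξ, h1⟩]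
    · obtain ⟨z, h1, h2⟩ := hO' (Function.extend j ρ fun _ => false)
      refine ⟨⟨z, h1, fun ξ hξ => (h2 ξ hξ.1).trans (Function.extend_apply' _ _ _ hξ.2)⟩, ?_⟩
      ext i
      exact (h2 _ (hj' i)).trans (hj.extend_apply _ _ _)
  let e := Continuous.homeoOfEquivCompactToT2 (f := Equiv.ofBijective r hb) hr
  exact ⟨fun ρ => (e.symm ρ : W), IsEmbedding.subtypeVal.comp e.symm.isEmbedding⟩

end Sec

end Pool.Agent.H15.TEmb
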