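import Mathlib
import Pool.Agent.H15.TEmb6

set_option autoImplicit false

namespace Pool.Agent.H15.TEmb
open Set Metric Filter Topology unitInterval

section Good
variable {W Θ : Type*} [TopologicalSpace W] [CompactSpace W]

def Good (π : W → Θ → Bool) (Z : Set W) (H : Set Θ) : Prop :=
  IsClosed Z ∧ ¬ H.Countable ∧ Onto π Z H ∧ ∀ z ∈ Z, ∀ z' ∈ Z, ∀ ξ, ξ ∉ H → π z ξ = π z' ξ

omit [CompactSpace W] in
theorem Good.fix {π : W → Θ → Bool} (hπ : ∀ ξ, Continuous fun z => π z ξ) {Z : Set W} {H H' : Set Θ}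
    (h : Good π Z H) (h1 : H' ⊆ H) (h2 : ¬ H'.Countable) (c : Θ → Bool) :
    Good π (Z ∩ {z | ∀ b ∈ H \ H', π z b = c b}) H' := by
  classical
  refine ⟨h.1.inter ?_, h2, fun τ => ?_, fun z hz z' hz' ξ hξ => ?_⟩
  · simp only [ofPred_forall]
    exact isClosed_iInter fun ξ => isClosed_iInter fun _ => isClosed_eq (hπ ξ) continuous_const
  · obtain ⟨z, hz, hz'⟩ := h.2.2.1 fun b => if b ∈ H' then τ b else c b
    exact ⟨z, ⟨hz, fun b hb => (hz' b hb.1).trans (if_neg hb.2)⟩,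
      fun b hb => (hz' b (h1 hb)).trans (if_pos hb)⟩
  · by_cases h3 : ξ ∈ H
    · rw [hz.2 ξ ⟨h3, hξ⟩, hz'.2 ξ ⟨h3, hξ⟩]
    · exact h.2.2.2 z hz.1 z' hz'.1 ξ h3

omit [CompactSpace W] in
theorem Good.sub {π : W → Θ → Bool} {Z Z' : Set W} {H : Set Θ} (h : Good π Z H) (h1 : Z' ⊆ Z)
    (h2 : IsClosed Z') (h3 : Onto π Z' H) : Good π Z' H :=
  ⟨h2, h.2.1, h3, fun z hz z' hz' => h.2.2.2 z (h1 hz) z' (h1 hz')⟩

theorem homog {L : Type*} {π : W → Θ → Bool} (hπ : ∀ ξ, Continuous fun z => π z ξ)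
    (C : L → Set W) (hC : ∀ a, IsClosed (C a)) (Λ : Finset L) {Z : Set W} {H : Set Θ}
    (h : Good π Z H) : ∃ (Z' : Set W) (H' : Set Θ), Z' ⊆ Z ∧ H' ⊆ H ∧ Good π Z' H' ∧
      ∀ a ∈ Λ, Z' ⊆ C a ∨ ∀ z ∈ Z', z ∉ C a := by
  classical
  induction Λ using Finset.induction_on with
  | empty => exact ⟨Z, H, Subset.rfl, Subset.rfl, h, by simp⟩
  | insert a Λ _ ih =>
    obtain ⟨Z', H', h1, h2, h3, h4⟩ := ih
    obtain ⟨Z2, H2, h5, h6, h7, h8⟩ : ∃ (Z2 : Set W) (H2 : Set Θ), Z2 ⊆ Z' ∧ H2 ⊆ H' ∧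
        Good π Z2 H2 ∧ (Z2 ⊆ C a ∨ ∀ z ∈ Z2, z ∉ C a) := by
      by_cases h5 : Onto π (Z' ∩ C a) H'
      · exact ⟨_, H', inter_subset_left, Subset.rfl,
          h3.sub inter_subset_left (h3.1.inter (hC a)) h5, Or.inl inter_subset_right⟩
      · obtain ⟨τ, hτ⟩ := not_forall.1 h5
        obtain ⟨t, h6, h7⟩ := finite_of_not hπ (h3.1.inter (hC a)) hτ
        exact ⟨_, H' \ t, inter_subset_left, sdiff_subset, h3.fix hπ sdiff_subset
          (fun h' => h3.2.1 ((h'.union t.countable_toSet).mono (subset_sdiff_union _ _))) τ,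
          Or.inr fun z hz h8 => h7 z ⟨hz.1, h8⟩ fun b hb => hz.2 b ⟨h6 b hb, fun h9 => h9.2 hb⟩⟩
    refine ⟨Z2, H2, h5.trans h1, h6.trans h2, h7, fun b hb => ?_⟩
    rcases Finset.mem_insert.1 hb with rfl | hb
    · exact h8
    · exact (h4 b hb).imp (fun h9 => h5.trans h9) fun h9 z hz => h9 z (h5 hz)

theorem refine_fix {L : Type*} {π : W → Θ → Bool} (hπ : ∀ ξ, Continuous fun z => π z ξ)
    (i : Bool) (C : Θ → L → Set W) (hC : ∀ ξ a, IsClosed (C ξ a)) (Λ : Finset L) :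
    ∀ (Z : Set W) (H : Set Θ), Good π Z H →
      (∀ ξ ∈ H, ∀ z ∈ Z, π z ξ = i → ∃ a ∈ Λ, z ∈ C ξ a) →
      ∃ (Z' : Set W) (H' : Set Θ) (a : L), a ∈ Λ ∧ Z' ⊆ Z ∧ H' ⊆ H ∧ Good π Z' H' ∧
        ∀ ξ ∈ H', ∀ z ∈ Z', π z ξ = i → z ∈ C ξ a := by
  classical
  have hcl : ∀ ξ b, IsClosed {z | π z ξ = b} := fun ξ b => isClosed_eq (hπ ξ) continuous_const
  induction Λ using Finset.induction_on with
  | empty =>
    intro Z H hG h
    obtain ⟨ξ, hξ⟩ := nonempty_iff_ne_empty.2 fun h : H = ∅ => hG.2.1 (h ▸ countable_empty)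
    obtain ⟨z, hz, hz'⟩ := hG.2.2.1 fun _ => i
    obtain ⟨a, ha, -⟩ := h ξ hξ z hz (hz' ξ hξ)
    simp at ha
  | insert a Λ _ ih =>
    intro Z H hG h
    have hZ := hG.1
    have hH := hG.2.1
    have hO := hG.2.2.1
    let D : Θ → Set W := fun ξ => {z | π z ξ = i → z ∈ C ξ a}
    have hD : ∀ ξ, IsClosed (D ξ) := fun ξ =>
      isClosed_imp ((isOpen_discrete {i}).preimage (hπ ξ)) (hC ξ a)
    have hZ' : ∀ s : Set Θ, IsClosed (Z ∩ ⋂ ξ ∈ s, D ξ) := fun s =>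
      hZ.inter (isClosed_biInter fun ξ _ => hD ξ)
    obtain ⟨S, -, hS⟩ := zorn_subset_nonempty {s : Set Θ | s ⊆ H ∧ Onto π (Z ∩ ⋂ ξ ∈ s, D ξ) H}
      (fun c hc hch hne => ⟨⋃₀ c, ⟨sUnion_subset fun s hs => (hc hs).1, fun τ => by
        have : Nonempty c := hne.to_subtype
        have hk : ∀ s : c, IsClosed ((Z ∩ ⋂ ξ ∈ (s : Set Θ), D ξ) ∩ ⋂ ξ ∈ H, {z | π z ξ = τ ξ}) :=
          fun s => (hZ' s).inter (isClosed_biInter fun ξ _ => hcl ξ _)
        obtain ⟨z, hz⟩ := IsCompact.nonempty_iInter_of_directed_nonempty_isCompact_isClosed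
          (fun s : c => (Z ∩ ⋂ ξ ∈ (s : Set Θ), D ξ) ∩ ⋂ ξ ∈ H, {z | π z ξ = τ ξ}) (fun s t => by
            rcases hch.total s.2 t.2 with h | h
            · exact ⟨t, inter_subset_inter_left _ (inter_subset_inter_right _
                (biInter_subset_biInter_left h)), Subset.rfl⟩
            · exact ⟨s, Subset.rfl, inter_subset_inter_left _ (inter_subset_inter_right _
                (biInter_subset_biInter_left h))⟩)
          (fun s => by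
            obtain ⟨z, hz, hz'⟩ := (hc s.2).2 τ
            exact ⟨z, hz, mem_iInter₂.2 hz'⟩) (fun s => (hk s).isCompact) hk
        rw [mem_iInter] at hz
        obtain ⟨s0⟩ := this
        refine ⟨z, ⟨(hz s0).1.1, mem_iInter₂.2 ?_⟩, mem_iInter₂.1 (hz s0).2⟩
        rintro ξ ⟨s, hs, hξ⟩
        exact mem_iInter₂.1 (hz ⟨s, hs⟩).1.2 ξ hξ⟩, fun s hs => subset_sUnion_of_mem hs⟩)
      ∅ ⟨empty_subset _, by simpa using hO⟩
    have hG' : Good π (Z ∩ ⋂ ξ ∈ S, D ξ) H := hG.sub inter_subset_left (hZ' S) hS.1.2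
    by_cases hSc : ¬ S.Countable
    · exact ⟨_, S, a, Finset.mem_insert_self _ _, fun z hz => hz.1.1, hS.1.1,
        hG'.fix hπ hS.1.1 hSc fun _ => false, fun ξ hξ z hz => mem_iInter₂.1 hz.1.2 ξ hξ⟩
    rw [not_not] at hSc
    have key : ∀ ξ, ∃ (t : Finset Θ) (τ : Θ → Bool), ξ ∈ H \ S → (∀ b ∈ t, b ∈ H ∧ b ≠ ξ) ∧
        ∀ z ∈ Z ∩ ⋂ ξ ∈ S, D ξ, (∀ b ∈ t, π z b = τ b) → π z ξ = i → z ∉ C ξ a := by
      intro ξ
      by_cases hξ : ξ ∉ H \ S
      · exact ⟨∅, fun _ => i, fun h => absurd h hξ⟩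
      rw [not_not] at hξ
      have h1 : ¬ Onto π (Z ∩ ⋂ ζ ∈ insert ξ S, D ζ) H := fun h1 =>
        hξ.2 (hS.2 (y := insert ξ S) ⟨insert_subset hξ.1 hS.1.1, h1⟩ (subset_insert _ _)
          (mem_insert _ _))
      obtain ⟨τ, hτ⟩ := not_forall.1 h1
      obtain ⟨t, ht', ht⟩ := finite_of_not hπ (hZ' (insert ξ S)) hτ
      have hτi : τ ξ = i := by
        by_contra h2
        obtain ⟨z, hz, hz'⟩ := hS.1.2 τ
        refine hτ ⟨z, ⟨hz.1, ?_⟩, hz'⟩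
        rw [biInter_insert]
        exact ⟨fun h3 => absurd ((hz' ξ hξ.1).symm.trans h3) h2, hz.2⟩
      refine ⟨t.erase ξ, τ, fun _ => ⟨fun b hb => ?_, fun z hz h2 h3 h4 => ?_⟩⟩
      · obtain ⟨h2, h3⟩ := Finset.mem_erase.1 hb
        exact ⟨ht' b h3, h2⟩
      · refine ht z ⟨hz.1, ?_⟩ fun b hb => ?_
        · rw [biInter_insert]
          exact ⟨fun _ => h4, hz.2⟩
        · by_cases h5 : b = ξ
          · rw [h5, h3, hτi]
          · exact h2 b (Finset.mem_erase.2 ⟨h5, hb⟩)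
    choose t τ ht using key
    obtain ⟨T, c, hT, hTS, hc, hd⟩ := blocksU (fun ξ : Θ => ({ξ} : Finset Θ)) τ univ countable_univ
      (H \ S) t (fun h => hH ((h.union hSc).mono (subset_sdiff_union H S)))
      (fun a => (countable_singleton a).mono fun ξ hξ => (Finset.mem_singleton.1 hξ.2).symm)
      (fun _ _ _ _ => trivial)
    obtain ⟨Z', H', b, h1, h2, h3, h4⟩ := ih _ T (hG'.fix hπ (fun ξ hξ => (hTS hξ).1) hT c)
      (fun ξ hξ z hz hi => by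
        obtain ⟨b, hb, hb'⟩ := h ξ (hTS hξ).1 z hz.1.1 hi
        rcases Finset.mem_insert.1 hb with rfl | hb
        · refine absurd hb' ((ht ξ (hTS hξ)).2 z hz.1 (fun b' hb'' => ?_) hi)
          have h5 := (ht ξ (hTS hξ)).1 b' hb''
          exact (hz.2 b' ⟨h5.1, fun h6 =>
            (hd b' h6 ξ hξ h5.2 b' (Finset.mem_singleton_self _)).2 hb''⟩).trans (hc ξ hξ b' hb'')
        · exact ⟨b, hb, hb'⟩)
    exact ⟨Z', H', b, Finset.mem_insert_of_mem h1, fun z hz => (h2 hz).1.1,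
      fun ξ hξ => (hTS (h3 hξ)).1, h4⟩

theorem cube_of_fin {X J : Type} {Θ : Type} [TopologicalSpace X] [T2Space X] {π : W → Θ → Bool}
    {Z : Set W} {H : Set Θ} (h : Good π Z H) (q : W → X)
    (hq : Continuous q) (F : Θ → Bool → Set X) (hF : ∀ ξ b, IsClosed (F ξ b))
    (hd : ∀ ξ, Disjoint (F ξ false) (F ξ true)) (hZ : ∀ z ∈ Z, ∀ ξ ∈ H, q z ∈ F ξ (π z ξ))
    (hfin : ∀ τ, (q '' (Z ∩ {z | π z = τ})).Finite) (hJ : Cardinal.mk J = Cardinal.aleph 1) :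
    ∃ h : (J → Bool) → X, IsEmbedding h := by
  classical
  have : CompactSpace (q '' Z) := isCompact_iff_compactSpace.1 (h.1.isCompact.image hq)
  let π' : q '' Z → Θ → Bool := fun x ξ => if ξ ∈ H then decide (x.1 ∈ F ξ true) else false
  have h1 : ∀ (x : q '' Z) z, z ∈ Z → q z = x → ∀ ξ ∈ H, π' x ξ = π z ξ := by
    intro x z hz hx ξ hξ
    have h2 := hZ z hz ξ hξ
    simp only [π', if_pos hξ, ← hx]
    cases h3 : π z ξ
    · rw [h3] at h2
      exact decide_eq_false (disjoint_left.1 (hd ξ) h2)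
    · rw [h3] at h2
      exact decide_eq_true h2
  have h2 : ∀ ξ, Continuous fun x => π' x ξ := by
    intro ξ
    by_cases hξ : ξ ∈ H
    · refine continuous_iff_isClosed.2 fun s _ => ?_
      have : (fun x => π' x ξ) ⁻¹' s = ⋃ b ∈ s, Subtype.val ⁻¹' F ξ b := by
        ext x
        obtain ⟨z, hz, hx⟩ := x.2
        have h3 := hZ z hz ξ hξ
        simp only [mem_preimage, h1 x z hz hx ξ hξ, mem_iUnion, ← hx]
        refine ⟨fun h4 => ⟨_, h4, h3⟩, fun ⟨b, h4, h5⟩ => ?_⟩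
        cases h6 : π z ξ <;> cases b <;> rw [h6] at h3
        · exact h4
        · exact (disjoint_left.1 (hd ξ) h3 h5).elim
        · exact (disjoint_left.1 (hd ξ) h5 h3).elim
        · exact h4
      rw [this]
      exact (toFinite s).isClosed_biUnion fun b _ => (hF ξ b).preimage continuous_subtype_val
    · simp only [π', if_neg hξ]
      exact continuous_const
  obtain ⟨k, hk⟩ := exists_cube π' h2 H (fun τ => by
      obtain ⟨z, hz, hz'⟩ := h.2.2.1 τ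
      exact ⟨⟨q z, z, hz, rfl⟩, trivial, fun ξ hξ => (h1 _ z hz rfl ξ hξ).trans (hz' ξ hξ)⟩)
    (fun τ => by
      obtain ⟨z0, hz0, hz0'⟩ := h.2.2.1 τ
      refine ((hfin (π z0)).preimage Subtype.val_injective.injOn).subset fun x hx => ?_
      obtain ⟨z, hz, hx'⟩ := x.2
      refine ⟨z, ⟨hz, funext fun ξ => ?_⟩, hx'⟩
      by_cases hξ : ξ ∈ H
      · rw [← h1 x z hz hx' ξ hξ, hx ξ hξ, hz0' ξ hξ]
      · exact h.2.2.2 z hz z0 hz0 ξ hξ) (J := J) (fun A hA => by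
      have h3 : ¬ (H \ A).Countable := fun h' => h.2.1 ((h'.union hA).mono (subset_sdiff_union _ _))
      have h4 : Cardinal.mk J ≤ Cardinal.mk (H \ A : Set Θ) := by
        rw [hJ, ← Cardinal.succ_aleph0, Order.succ_le_iff, ← not_le, Cardinal.le_aleph0_iff_set_countable]
        exact h3
      obtain ⟨j⟩ := (Cardinal.le_def _ _).1 h4
      exact ⟨fun i => j i, Subtype.val_injective.comp j.injective, fun i => (j i).2⟩)
  exact ⟨_, IsEmbedding.subtypeVal.comp hk⟩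

end Good

theorem conflict' {X : Type*} [TopologicalSpace X] [T4Space X] {s s' : Set X} (hs : s.Finite)
    (hs' : s'.Finite) (f f' : X → ℝ) {δ : ℝ} (hδ : 0 < δ) (h : ∀ x ∈ s, x ∈ s' → |f x - f' x| < δ) :
    ∃ g : C(X, ℝ), (∀ x ∈ s, g x = f x) ∧ ∀ x ∈ s', |g x - f' x| < δ := by
  classical
  have hu := hs.union hs'
  have := hu.to_subtype
  obtain ⟨g, hg⟩ := ContinuousMap.exists_restrict_eq hu.isClosed
    (⟨fun x : ↥(s ∪ s') => if x.1 ∈ s then f x else f' x, continuous_of_discreteTopology⟩ :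
      C(↥(s ∪ s'), ℝ))
  have hg' : ∀ x ∈ s ∪ s', g x = if x ∈ s then f x else f' x := fun x hx =>
    congrArg (fun k : C(↥(s ∪ s'), ℝ) => k ⟨x, hx⟩) hg
  refine ⟨g, fun x hx => by rw [hg' _ (Or.inl hx), if_pos hx], fun x hx => ?_⟩
  rw [hg' _ (Or.inr hx)]
  split_ifs with h1
  · exact h x h1 hx
  · rwa [sub_self, abs_zero]

def SubC {X : Type*} [TopologicalSpace X] {n : ℕ} (Φ : C(X, ℝ) → Prop) (f : X → ℝ) (δ : ℝ)
    (t : Fin n → X) (P : Finset (Fin n)) : Prop :=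
  ∀ g : C(X, ℝ), (∀ l ∈ P, |g (t l) - f (t l)| < δ) → Φ g

theorem fin_cert {X : Type*} [TopologicalSpace X] [T4Space X] {n : ℕ} (Φ : C(X, ℝ) → Prop)
    (hΦ : ∀ g, ¬ Φ g → ∃ T : Finset X, ∀ g' : C(X, ℝ), (∀ x ∈ T, g' x = g x) → ¬ Φ g')
    (f : X → ℝ) {δ : ℝ} (hδ : 0 < δ) (P : Finset (Fin n)) (l' : Fin n) (hl' : l' ∈ P) :
    {x | ∃ t : Fin n → X, t l' = x ∧ SubC Φ f δ t P ∧ ∀ P' ⊂ P, ¬ SubC Φ f δ t P'}.Finite := by
  classical
  by_contra hS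
  set S := {x | ∃ t : Fin n → X, t l' = x ∧ SubC Φ f δ t P ∧ ∀ P' ⊂ P, ¬ SubC Φ f δ t P'}
  have hne : (cofinite ⊓ 𝓟 S).NeBot := Set.Infinite.cofinite_inf_principal_neBot hS
  let U := Ultrafilter.of (cofinite ⊓ 𝓟 S)
  have hU : (U : Filter X) ≤ cofinite ⊓ 𝓟 S := Ultrafilter.of_le _
  have hUS : ∀ᶠ x in (U : Filter X), x ∈ S := (hU.trans inf_le_right) (mem_principal_self _)
  have hX : ∀ x, ∃ t : Fin n → X, x ∈ S → t l' = x ∧ SubC Φ f δ t P ∧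
      ∀ P' ⊂ P, ¬ SubC Φ f δ t P' := by
    intro x
    by_cases hx : x ∈ S
    · obtain ⟨t, ht⟩ := hx
      exact ⟨t, fun _ => ht⟩
    · exact ⟨fun _ => x, fun h => absurd h hx⟩
  choose t ht using hX
  let P' := P.filter fun l => ∃ c, ∀ᶠ x in (U : Filter X), t x l = c
  have h1 : ∀ l, ∃ c, l ∈ P' → ∀ᶠ x in (U : Filter X), t x l = c := by
    intro l
    by_cases hl : l ∈ P'
    · obtain ⟨c, hc⟩ := (Finset.mem_filter.1 hl).2
      exact ⟨c, fun _ => hc⟩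
    · obtain ⟨x, -⟩ := hUS.exists
      exact ⟨x, fun h => absurd h hl⟩
  choose c hc using h1
  have h2 : ∀ᶠ x in (U : Filter X), ∀ l ∈ P', t x l = c l := (eventually_all_finset _).2 hc
  have h3 : l' ∉ P' := by
    intro h
    have h4 : ∀ᶠ x in (U : Filter X), x ≠ c l' :=
      (hU.trans inf_le_left) (eventually_cofinite_ne (c l'))
    obtain ⟨x, h5, h6, h7⟩ := (hUS.and ((hc l' h).and h4)).exists
    exact h7 ((ht x h5).1.symm.trans h6)
  obtain ⟨x, hx, hx'⟩ := (hUS.and h2).exists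
  refine (ht x hx).2.2 P' ⟨Finset.filter_subset _ _, fun h => h3 (h hl')⟩ fun g hg => ?_
  by_contra h4
  obtain ⟨T, hT⟩ := hΦ g h4
  have h5 : ∀ᶠ x in (U : Filter X), ∀ l ∈ P \ P', ∀ a ∈ T, t x l ≠ a :=
    (eventually_all_finset _).2 fun l hl => (eventually_all_finset _).2 fun a _ =>
      Ultrafilter.eventually_not.2 fun h => (Finset.mem_sdiff.1 hl).2
        (Finset.mem_filter.2 ⟨(Finset.mem_sdiff.1 hl).1, a, h⟩)
  obtain ⟨x', h6, h7, h8⟩ := (hUS.and (h2.and h5)).exists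
  obtain ⟨g', h9, h10⟩ := conflict' T.finite_toSet (P.finite_toSet.image (t x')) g f hδ (by
    rintro a ha ⟨l, hl, rfl⟩
    by_cases h9 : l ∈ P'
    · rw [h7 l h9, ← hx' l h9]
      exact hg l h9
    · exact absurd rfl (h8 l (Finset.mem_sdiff.2 ⟨hl, h9⟩) _ ha))
  exact hT g' h9 ((ht x' h6).2.1 g' fun l hl => h10 _ ⟨l, hl, rfl⟩)

end Pool.Agent.H15.TEmb
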