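import Mathlib
import Pool.Agent.H15.TEmb7

set_option autoImplicit false

namespace Pool.Agent.H15.TEmb
open Set Metric Filter Topology unitInterval

theorem positions2 {W X J Θ : Type} [TopologicalSpace W] [CompactSpace W] [TopologicalSpace X]
    [CompactSpace X] [T2Space X] (hJ : Cardinal.mk J = Cardinal.aleph 1) {n : ℕ} {π : W → Θ → Bool}
    (hπ : ∀ ξ, Continuous fun z => π z ξ) (t : W → Θ → Fin n → X)
    (ht : ∀ ξ l, Continuous fun z => t z ξ l) (f : Θ → C(X, I)) {δ : ℝ} (hδ : 0 < δ)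
    (ψ : (Θ → Bool) → C(X, ℝ) → ℝ) (hψ : ∀ g, Continuous fun τ => ψ τ g)
    (hψ' : ∀ τ g, ¬ 3 / 4 ≤ ψ τ g → ∃ T : Finset X, ∀ g' : C(X, ℝ), (∀ x ∈ T, g' x = g x) →
      ¬ 3 / 4 ≤ ψ τ g') (P : Finset (Fin n)) :
    ∀ (Z : Set W) (H : Set Θ), Good π Z H →
      (∀ z ∈ Z, ∀ ξ ∈ H, ∀ g : C(X, ℝ), (∀ l, |g (t z ξ l) - f ξ (t z ξ l)| < δ) →
        (π z ξ = false → ψ (π z) g ≤ 1 / 4) ∧ (π z ξ = true → 3 / 4 ≤ ψ (π z) g)) →
      (∀ z ∈ Z, ∀ ξ ∈ H, ∀ η ∈ H, π z ξ = false → π z η = true → ∀ l, l ∉ P → ∀ l',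
        t z ξ l = t z η l' → dist (f ξ (t z ξ l)) (f η (t z ξ l)) < δ) →
      ∃ h : (J → Bool) → X, IsEmbedding h := by
  classical
  induction P using Finset.strongInduction with
  | H P ih =>
    intro Z H hG hc h
    obtain ⟨η0, hη0⟩ := nonempty_iff_ne_empty.2 fun h : H = ∅ => hG.2.1 (h ▸ countable_empty)
    let C : Finset (Fin n) → Set W := fun P' =>
      {z | SubC (fun g => 3 / 4 ≤ ψ (π z) g) (fun x => f η0 x) δ (t z η0) P'}
    have hC : ∀ P', IsClosed (C P') := by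
      intro P'
      simp only [C, SubC, ofPred_forall]
      refine isClosed_iInter fun g => ?_
      refine isClosed_imp ?_ (isClosed_le continuous_const ((hψ g).comp (continuous_pi hπ)))
      simp only [ofPred_forall]
      refine isOpen_iInter_of_finite fun l => isOpen_iInter_of_finite fun _ =>
        isOpen_lt ?_ continuous_const
      have := ht η0 l
      fun_prop
    obtain ⟨Z1, H1, h11, h12, h13, h14⟩ := homog hπ C hC Finset.univ (hG.fix hπ (H' := H \ {η0})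
      sdiff_subset (fun h' => hG.2.1 ((h'.union (countable_singleton η0)).mono
        (subset_sdiff_union H _))) fun _ => true)
    have h15 : ∀ z ∈ Z1, π z η0 = true := fun z hz => (h11 hz).2 η0 ⟨hη0, fun h' => h'.2 rfl⟩
    obtain ⟨P0, h16⟩ := exists_minimal_of_wellFoundedLT (fun P' => Z1 ⊆ C P')
      ⟨Finset.univ, fun z hz g hg => (hc z (h11 hz).1 η0 hη0 g fun l =>
        hg l (Finset.mem_univ _)).2 (h15 z hz)⟩
    have h17 : ∀ z ∈ Z1, ∀ P' ⊂ P0, z ∉ C P' := fun z hz P' hP =>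
      (h14 P' (Finset.mem_univ _)).resolve_left (fun h' => hP.2 (h16.2 h' hP.1)) z hz
    obtain ⟨Z2, H2, ⟨l1, l1'⟩, h21, h22, h23, h24, h27⟩ := refine_fix hπ false
      (fun ξ (a : Fin n × Fin n) => {z | t z ξ a.1 = t z η0 a.2})
      (fun ξ a => isClosed_eq (ht _ _) (ht _ _)) (P ×ˢ P0) Z1 H1 h13
      (fun ξ hξ z hz hi => by
        by_contra h1
        push Not at h1
        obtain ⟨g, h2, h3⟩ := conflict' (finite_range (t z ξ)) (P0.finite_toSet.image (t z η0))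
          (fun x => f ξ x) (fun x => f η0 x) hδ (by
            rintro _ ⟨l, rfl⟩ ⟨l', hl', h2⟩
            exact h z (h11 hz).1 ξ (h12 hξ).1 η0 hη0 hi (h15 z hz) l
              (fun hl => h1 (l, l') (Finset.mem_product.2 ⟨hl, hl'⟩) h2.symm) l' h2.symm)
        have h4 := (hc z (h11 hz).1 ξ (h12 hξ).1 g fun l => by
          rw [h2 _ ⟨l, rfl⟩, sub_self, abs_zero]; exact hδ).1 hi
        have h5 : 3 / 4 ≤ ψ (π z) g := h16.1 hz g fun l hl => h3 _ ⟨l, hl, rfl⟩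
        linarith)
    obtain ⟨R, -, hR, hR'⟩ := finite_cover_balls_of_compact (isCompact_univ (X := I))
      (show 0 < δ / 5 by positivity)
    have hcell : ∀ (ξ : Θ) (z : W), ∃ r ∈ hR.toFinset,
        z ∈ {z : W | f ξ (t z η0 l1') ∈ closedBall r (δ / 5)} := by
      intro ξ z
      obtain ⟨r, hr, hr'⟩ := mem_iUnion₂.1 (hR' (mem_univ (f ξ (t z η0 l1'))))
      exact ⟨r, hR.mem_toFinset.2 hr, ball_subset_closedBall hr'⟩
    have hcl : ∀ (ξ : Θ) (r : I), IsClosed {z : W | f ξ (t z η0 l1') ∈ closedBall r (δ / 5)} :=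
      fun ξ r => isClosed_closedBall.preimage ((f ξ).continuous.comp (ht _ _))
    obtain ⟨Z3, H3, r0, -, h32, h33, h34, h37⟩ := refine_fix hπ false _ hcl
      hR.toFinset Z2 H2 h24 fun ξ _ z _ _ => hcell ξ z
    obtain ⟨Z4, H4, r1, -, h42, h43, h44, h47⟩ := refine_fix hπ true _ hcl
      hR.toFinset Z3 H3 h34 fun ξ _ z _ _ => hcell ξ z
    by_cases hd : Disjoint (closedBall r0 (δ / 5)) (closedBall r1 (δ / 5))
    · refine cube_of_fin h44 (fun z => t z η0 l1') (ht _ _)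
        (fun ξ b => f ξ ⁻¹' closedBall (if b = true then r1 else r0) (δ / 5))
        (fun ξ b => isClosed_closedBall.preimage (f ξ).continuous) (fun ξ => hd.preimage _)
        (fun z hz ξ hξ => ?_) (fun τ => ?_) hJ
      · cases h2 : π z ξ
        · exact h37 ξ (h43 hξ) z (h42 hz) h2
        · exact h47 ξ hξ z hz h2
      · refine (fin_cert (fun g => 3 / 4 ≤ ψ τ g) (hψ' τ) (fun x => f η0 x) hδ P0 l1'
          (Finset.mem_product.1 h21).2).subset ?_
        rintro _ ⟨z, ⟨hz, rfl⟩, rfl⟩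
        have h1 := h22 (h32 (h42 hz))
        exact ⟨t z η0, rfl, h16.1 h1, h17 z h1⟩
    · obtain ⟨r, hr0, hr1⟩ := not_disjoint_iff.1 hd
      have a1 : Z4 ⊆ Z := fun z hz => (h11 (h22 (h32 (h42 hz)))).1
      have a2 : H4 ⊆ H := fun ξ hξ => (h12 (h23 (h33 (h43 hξ)))).1
      refine ih (P.erase l1) (Finset.erase_ssubset (Finset.mem_product.1 h21).1) Z4 H4 h44
        (fun z hz ξ hξ => hc z (a1 hz) ξ (a2 hξ)) fun z hz ξ hξ η hη h1 h2 l hl l' h3 => ?_
      by_cases h4 : l = l1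
      · subst h4
        have h5 : t z ξ l = t z η0 l1' := h27 ξ (h33 (h43 hξ)) z (h32 (h42 hz)) h1
        have h6 : dist (f ξ (t z η0 l1')) r0 ≤ δ / 5 := h37 ξ (h43 hξ) z (h42 hz) h1
        have h7 : dist (f η (t z η0 l1')) r1 ≤ δ / 5 := h47 η hη z hz h2
        rw [h5]
        have h8 := dist_triangle4 (f ξ (t z η0 l1')) r0 r (f η (t z η0 l1'))
        have h9 := dist_triangle r r1 (f η (t z η0 l1'))
        rw [mem_closedBall] at hr0 hr1
        rw [dist_comm r0 r] at h8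
        rw [dist_comm r1] at h9
        linarith
      · exact h z (a1 hz) ξ (a2 hξ) η (a2 hη) h1 h2 l
          (fun h5 => hl (Finset.mem_erase.2 ⟨h4, h5⟩)) l' h3

theorem cube_of_temb {X ι J : Type} [TopologicalSpace X] [CompactSpace X] [T2Space X]
    (e : X → ι → I) (he : Continuous e) (h : TEmb e) (hn : ¬ TopologicalSpace.MetrizableSpace X)
    (hJ : Cardinal.mk J = Cardinal.aleph 1) : ∃ h : (J → Bool) → X, IsEmbedding h := by
  obtain ⟨φ, hφ, hext⟩ := h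
  classical
  obtain ⟨Q, hQc, hQ⟩ := TopologicalSpace.exists_countable_dense I
  let lift : C(X, I) → C(X, ℝ) := fun f => ⟨fun x => f x, continuous_subtype_val.comp f.continuous⟩
  let C0 : C(X, I) → ℕ × ℕ → Set (ι → I) := fun f j => {y | ∃ t : Fin j.1 → X, ∀ g : C(X, ℝ),
    (∀ l, |g (t l) - f (t l)| < 1 / (j.2 + 1)) → φ g y ≤ 1 / 4}
  let C1 : C(X, I) → ℕ × ℕ → Set (ι → I) := fun f j => {y | ∃ t : Fin j.1 → X, ∀ g : C(X, ℝ),
    (∀ l, |g (t l) - f (t l)| < 1 / (j.2 + 1)) → 3 / 4 ≤ φ g y}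
  have hop : ∀ (f : C(X, I)) (j : ℕ × ℕ) (g : C(X, ℝ)), IsOpen {z : (ι → I) × (Fin j.1 → X) |
      ∀ l, |g (z.2 l) - f (z.2 l)| < 1 / (j.2 + 1)} := by
    intro f j g
    rw [ofPred_forall]
    exact isOpen_iInter_of_finite fun l => isOpen_lt (by fun_prop) continuous_const
  have hC0 : ∀ f j, IsClosed (C0 f j) := by
    intro f j
    have hc : IsClosed {z : (ι → I) × (Fin j.1 → X) | ∀ g : C(X, ℝ),
        (∀ l, |g (z.2 l) - f (z.2 l)| < 1 / (j.2 + 1)) → φ g z.1 ≤ 1 / 4} := by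
      rw [ofPred_forall]
      exact isClosed_iInter fun g => isClosed_imp (hop f j g)
        (isClosed_le ((φ g).continuous.comp continuous_fst) continuous_const)
    convert isClosedMap_fst_of_compactSpace _ hc using 1
    ext y
    exact ⟨fun ⟨t, ht⟩ => ⟨(y, t), ht, rfl⟩, fun ⟨z, hz, h⟩ => ⟨z.2, h ▸ hz⟩⟩
  have hC1 : ∀ f j, IsClosed (C1 f j) := by
    intro f j
    have hc : IsClosed {z : (ι → I) × (Fin j.1 → X) | ∀ g : C(X, ℝ),
        (∀ l, |g (z.2 l) - f (z.2 l)| < 1 / (j.2 + 1)) → 3 / 4 ≤ φ g z.1} := by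
      rw [ofPred_forall]
      exact isClosed_iInter fun g => isClosed_imp (hop f j g)
        (isClosed_le continuous_const ((φ g).continuous.comp continuous_fst))
    convert isClosedMap_fst_of_compactSpace _ hc using 1
    ext y
    exact ⟨fun ⟨t, ht⟩ => ⟨(y, t), ht, rfl⟩, fun ⟨z, hz, h⟩ => ⟨z.2, h ▸ hz⟩⟩
  have hcov : ∀ (f : C(X, I)) y y', φ (lift f) y < 1 / 8 → 7 / 8 < φ (lift f) y' →
      ∃ j, y ∈ C0 f j ∧ y' ∈ C1 f j := by
    intro f y y' a0 a1
    obtain ⟨T0, m0, hT0⟩ := cp_nhds hφ (lift f) y (show (0 : ℝ) < 1 / 8 by norm_num)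
    obtain ⟨T1, m1, hT1⟩ := cp_nhds hφ (lift f) y' (show (0 : ℝ) < 1 / 8 by norm_num)
    have b0 : (1 : ℝ) / ((max m0 m1 : ℕ) + 1) ≤ 1 / (m0 + 1) :=
      Nat.one_div_le_one_div (le_max_left _ _)
    have b1 : (1 : ℝ) / ((max m0 m1 : ℕ) + 1) ≤ 1 / (m1 + 1) :=
      Nat.one_div_le_one_div (le_max_right _ _)
    refine ⟨((T0 ∪ T1).card, max m0 m1), ⟨fun l => (T0 ∪ T1).equivFin.symm l, fun g h => ?_⟩,
      ⟨fun l => (T0 ∪ T1).equivFin.symm l, fun g h => ?_⟩⟩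
    · have := abs_lt.1 (hT0 g fun x hx => lt_of_lt_of_le (by
        have := h ((T0 ∪ T1).equivFin ⟨x, Finset.mem_union_left _ hx⟩)
        simp only [Equiv.symm_apply_apply] at this
        exact this) b0)
      linarith [this.2]
    · have := abs_lt.1 (hT1 g fun x hx => lt_of_lt_of_le (by
        have := h ((T0 ∪ T1).equivFin ⟨x, Finset.mem_union_right _ hx⟩)
        simp only [Equiv.symm_apply_apply] at this
        exact this) b1)
      linarith [this.1]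
  let V : Set (C(X, I) × X × X) := {θ | θ.1 θ.2.1 = 0 ∧ θ.1 θ.2.2 = 1}
  have hpk : ∀ θ : C(X, I) × X × X, ∃ (j : ℕ × ℕ) (E H : Finset ι) (p w0 w1 : ι → I), θ ∈ V →
      (∀ a ∈ E, e θ.2.1 a ≠ e θ.2.2 a) ∧ (∀ a ∈ E, a ∉ H) ∧ (∀ a ∈ H, p a ∈ Q) ∧
      ∀ y : ι → I, (∀ a ∈ H, y a = p a) →
        ((∀ a ∈ E, y a = w0 a) → y ∈ C0 θ.1 j) ∧ ((∀ a ∈ E, y a = w1 a) → y ∈ C1 θ.1 j) := by
    intro θ
    by_cases hθ : θ ∈ V
    · obtain ⟨j, E, H, p, w0, w1, h⟩ := packageA Q hQ (φ (lift θ.1)) (e θ.2.1) (e θ.2.2)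
        (by rw [hext]; exact congrArg Subtype.val hθ.1) (by rw [hext]; exact congrArg Subtype.val hθ.2)
        _ _ (hC0 θ.1) (hC1 θ.1) (hcov θ.1)
      exact ⟨j, E, H, p, w0, w1, fun _ => h⟩
    · exact ⟨(0, 0), ∅, ∅, 0, 0, 0, fun h => absurd h hθ⟩
  choose j E H p w0 w1 hh using hpk
  have hne : ∀ θ ∈ V, (E θ).Nonempty := by
    intro θ hθ
    by_contra h
    rw [Finset.not_nonempty_iff_eq_empty] at h
    obtain ⟨h0, h1⟩ := (hh θ hθ).2.2.2 (p θ) fun _ _ => rfl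
    obtain ⟨t0, h0⟩ := h0 (by simp [h])
    obtain ⟨t1, h1⟩ := h1 (by simp [h])
    have b : ∀ x, |lift θ.1 x - θ.1 x| < 1 / ((j θ).2 + 1) := fun x => by
      rw [show lift θ.1 x = θ.1 x from rfl, sub_self, abs_zero]; positivity
    linarith [h0 _ fun _ => b _, h1 _ fun _ => b _]
  obtain ⟨S, hS⟩ := zorn_subset {S : Set (C(X, I) × X × X) | S ⊆ V ∧
      ∀ θ ∈ S, ∀ η ∈ S, ∀ a ∈ E θ, a ∈ E η → θ = η}
    (fun c hc hch => ⟨⋃₀ c, ⟨sUnion_subset fun s hs => (hc hs).1, by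
      rintro θ ⟨s, hs, hθ⟩ η ⟨t, ht, hη⟩
      rcases hch.total hs ht with h | h
      · exact (hc ht).2 θ (h hθ) η hη
      · exact (hc hs).2 θ hθ η (h hη)⟩, fun s hs => subset_sUnion_of_mem hs⟩)
  have hSu : ¬ S.Countable := by
    intro h
    obtain ⟨x0, x1, h1, h2⟩ := pair_of_not_metrizable e he hn (⋃ θ ∈ S, (E θ : Set ι))
      (h.biUnion fun θ _ => (E θ).countable_toSet)
    obtain ⟨f, hf0, hf1⟩ := exists_sep (isClosed_singleton (x := x0)) (isClosed_singleton (x := x1))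
      (disjoint_singleton.2 h1)
    have hθ : (f, x0, x1) ∈ V := ⟨hf0 x0 rfl, hf1 x1 rfl⟩
    have h3 : ∀ η ∈ S, ∀ a ∈ E (f, x0, x1), a ∉ E η := fun η hη a ha h =>
      (hh _ hθ).1 a ha (h2 a (mem_biUnion hη h))
    have h4 : (f, x0, x1) ∈ S := hS.2 (y := insert (f, x0, x1) S) ⟨insert_subset hθ hS.1.1, by
      rintro ζ (rfl | hζ) η (rfl | hη) a ha ha'
      · rfl
      · exact (h3 η hη a ha ha').elim
      · exact (h3 ζ hζ a ha' ha).elim
      · exact hS.1.2 ζ hζ η hη a ha ha'⟩ (subset_insert _ _) (mem_insert _ _)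
    obtain ⟨a, ha⟩ := hne _ hθ
    exact h3 _ h4 a ha ha
  obtain ⟨j0, hb⟩ := pigeon S hSu j univ countable_univ fun _ _ => trivial
  obtain ⟨T, c, hT, hTS, hc, hd⟩ := blocksU E p Q hQc _ H hb
    (fun a => Set.Subsingleton.countable fun θ hθ η hη => hS.1.2 θ hθ.1.1 η hη.1.1 a hθ.2 hη.2)
    (fun θ hθ => (hh θ (hS.1.1 hθ.1)).2.2.1)
  have hTV : ∀ θ ∈ T, θ ∈ V := fun θ hθ => hS.1.1 (hTS hθ).1
  have hδ : (0 : ℝ) < 1 / (j0.2 + 1) := by positivity
  let y : ((C(X, I) × X × X) → Bool) → ι → I := fun τ a => if h : ∃ ξ ∈ T, a ∈ E ξ then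
    (if τ h.choose = true then w1 h.choose a else w0 h.choose a) else c a
  have yc : Continuous y := continuous_pi fun a => by
    simp only [y]
    split_ifs with h
    · exact (continuous_of_discreteTopology (f := fun b : Bool =>
        if b = true then w1 h.choose a else w0 h.choose a)).comp (continuous_apply h.choose)
    · exact continuous_const
  refine positions2 (W := ((C(X, I) × X × X) → Bool) × ((C(X, I) × X × X) → Fin j0.1 → X)) hJ
    (π := Prod.fst) (fun ξ => by fun_prop) Prod.snd (fun ξ l => by fun_prop) Prod.fst hδ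
    (fun τ g => φ g (y τ)) (fun g => (φ g).continuous.comp yc) (fun τ g hg => ?_) Finset.univ
    ({z | ∀ ξ, ξ ∉ T → z.1 ξ = false} ∩ {z | ∀ ξ ∈ T, ∀ g : C(X, ℝ),
      (∀ l, |g (z.2 ξ l) - ξ.1 (z.2 ξ l)| < 1 / (j0.2 + 1)) →
        (z.1 ξ = false → φ g (y z.1) ≤ 1 / 4) ∧ (z.1 ξ = true → 3 / 4 ≤ φ g (y z.1))}) T
    ⟨IsClosed.inter ?_ ?_, hT, fun τ => ?_, fun z hz z' hz' ξ hξ => (hz.1 ξ hξ).trans (hz'.1 ξ hξ).symm⟩
    (fun z hz => hz.2) (fun _ _ _ _ _ _ _ _ l hl => absurd (Finset.mem_univ l) hl)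
  · obtain ⟨T', m, hT'⟩ := cp_nhds hφ g (y τ) (sub_pos.2 (not_le.1 hg))
    refine ⟨T', fun g' hg' => not_le.2 ?_⟩
    have := abs_lt.1 (hT' g' fun x hx => by rw [hg' x hx, sub_self, abs_zero]; positivity)
    linarith [this.2]
  · simp only [ofPred_forall]
    exact isClosed_iInter fun ξ => isClosed_iInter fun _ => isClosed_eq (by fun_prop) continuous_const
  · rw [ofPred_forall]
    refine isClosed_iInter fun ξ => ?_
    rw [ofPred_forall]
    refine isClosed_iInter fun _ => ?_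
    rw [ofPred_forall]
    refine isClosed_iInter fun g => isClosed_imp ?_ (IsClosed.and ?_ ?_)
    · rw [ofPred_forall]
      exact isOpen_iInter_of_finite fun l => isOpen_lt (by fun_prop) continuous_const
    · exact isClosed_imp ((isOpen_discrete {false}).preimage (by fun_prop))
        (isClosed_le ((φ g).continuous.comp (yc.comp continuous_fst)) continuous_const)
    · exact isClosed_imp ((isOpen_discrete {true}).preimage (by fun_prop))
        (isClosed_le continuous_const ((φ g).continuous.comp (yc.comp continuous_fst)))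
  · have yH : ∀ τ, ∀ ξ ∈ T, ∀ a ∈ H ξ, y τ a = p ξ a := by
      intro τ ξ hξ a ha
      have : ¬ ∃ ξ ∈ T, a ∈ E ξ := by
        rintro ⟨η, hη, h'⟩
        by_cases h : η = ξ
        · exact (hh _ (hTV η hη)).2.1 a h' (h ▸ ha)
        · exact (hd η hη ξ hξ h a h').2 ha
      simp only [y, dif_neg this]
      exact hc ξ hξ a ha
    have yE : ∀ τ, ∀ ξ ∈ T, ∀ a ∈ E ξ, y τ a = if τ ξ = true then w1 ξ a else w0 ξ a := by
      intro τ ξ hξ a ha
      have h : ∃ ξ ∈ T, a ∈ E ξ := ⟨ξ, hξ, ha⟩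
      have : h.choose = ξ := by
        by_contra h'
        exact (hd _ h.choose_spec.1 ξ hξ h' a h.choose_spec.2).1 ha
      simp only [y, dif_pos h, this]
    have hX : Nonempty X := by
      obtain ⟨θ, -⟩ := nonempty_iff_ne_empty.2 fun h : T = ∅ => hT (h ▸ countable_empty)
      exact ⟨θ.2.1⟩
    have key : ∀ τ ξ, ∃ t : Fin j0.1 → X, ξ ∈ T → ∀ g : C(X, ℝ),
        (∀ l, |g (t l) - ξ.1 (t l)| < 1 / (j0.2 + 1)) →
          (τ ξ = false → φ g (y τ) ≤ 1 / 4) ∧ (τ ξ = true → 3 / 4 ≤ φ g (y τ)) := by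
      intro τ ξ
      by_cases hξ : ξ ∈ T
      · obtain ⟨h0, h1⟩ := (hh ξ (hTV ξ hξ)).2.2.2 (y τ) (yH τ ξ hξ)
        rw [(hTS hξ).2] at h0 h1
        cases hτ : τ ξ
        · obtain ⟨t, ht⟩ := h0 fun a ha => by rw [yE τ ξ hξ a ha, hτ]; simp
          exact ⟨t, fun _ g hg => ⟨fun _ => ht g hg, fun h => by simp at h⟩⟩
        · obtain ⟨t, ht⟩ := h1 fun a ha => by rw [yE τ ξ hξ a ha, hτ]; simp
          exact ⟨t, fun _ g hg => ⟨fun h => by simp at h, fun _ => ht g hg⟩⟩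
      · exact ⟨fun _ => Classical.arbitrary X, fun h => absurd h hξ⟩
    choose t ht using key fun ξ => if ξ ∈ T then τ ξ else false
    exact ⟨(fun ξ => if ξ ∈ T then τ ξ else false, t), ⟨fun ξ hξ => if_neg hξ, ht⟩,
      fun ξ hξ => if_pos hξ⟩

end Pool.Agent.H15.TEmb
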