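import Mathlib
import Pool.Agent.H15.TEmb5

set_option autoImplicit false

namespace Pool.Agent.H15.TEmb
open Set Metric Filter Topology unitInterval

variable {ι K : Type*} [TopologicalSpace K]

theorem coreB [CompactSpace K] (e : K → ι → I) (φ : C(K, Bool) → C(ι → I, ℝ))
    (hφ : ∀ (g : C(K, Bool)) (y : ι → I), ∃ T : Finset K, ∀ g' : C(K, Bool),
      (∀ x ∈ T, g' x = g x) → |φ g' y - φ g y| < 1 / 8)
    (hsep : ∀ A : Set ι, A.Countable → ∃ (g : C(K, Bool)) (x0 x1 : K), φ g (e x0) = 0 ∧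
      φ g (e x1) = 1 ∧ ∀ a ∈ A, e x0 a = e x1 a) : False := by
  classical
  obtain ⟨Q, hQc, hQ⟩ := TopologicalSpace.exists_countable_dense I
  let Θ := {θ : C(K, Bool) × K × K // φ θ.1 (e θ.2.1) = 0 ∧ φ θ.1 (e θ.2.2) = 1}
  choose n E H p w0 w1 hE hEH hp hy using fun θ : Θ => package Q hQ e φ hφ θ.1.1 θ.1.2.1 θ.1.2.2
    θ.2.1 θ.2.2
  have hne : ∀ θ, (E θ).Nonempty := by
    intro θ
    by_contra h
    rw [Finset.not_nonempty_iff_eq_empty] at h
    obtain ⟨h0, h1⟩ := hy θ (p θ) fun _ _ => rfl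
    obtain ⟨t0, h0⟩ := h0 (by simp [h])
    obtain ⟨t1, h1⟩ := h1 (by simp [h])
    linarith [h0 _ fun _ => rfl, h1 _ fun _ => rfl]
  obtain ⟨S, hS⟩ := zorn_subset {S : Set Θ | ∀ θ ∈ S, ∀ η ∈ S, ∀ a ∈ E θ, a ∈ E η → θ = η}
    (fun c hc hch => ⟨⋃₀ c, by
      rintro θ ⟨s, hs, hθ⟩ η ⟨t, ht, hη⟩
      rcases hch.total hs ht with h | h
      · exact hc ht θ (h hθ) η hη
      · exact hc hs θ hθ η (h hη), fun s hs => subset_sUnion_of_mem hs⟩)
  have hSu : ¬ S.Countable := by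
    intro h
    obtain ⟨g, x0, x1, h0, h1, h2⟩ := hsep (⋃ θ ∈ S, (E θ : Set ι))
      (h.biUnion fun θ _ => (E θ).countable_toSet)
    let θ : Θ := ⟨(g, x0, x1), h0, h1⟩
    have h3 : ∀ η ∈ S, ∀ a ∈ E θ, a ∉ E η := fun η hη a ha h =>
      hE θ a ha (h2 a (mem_biUnion hη h))
    have h4 : θ ∈ S := hS.2 (y := insert θ S) (by
      rintro ζ (rfl | hζ) η (rfl | hη) a ha ha'
      · rfl
      · exact (h3 η hη a ha ha').elim
      · exact (h3 ζ hζ a ha' ha).elim
      · exact hS.1 ζ hζ η hη a ha ha') (subset_insert _ _) (mem_insert _ _)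
    obtain ⟨a, ha⟩ := hne θ
    exact h3 θ h4 a ha ha
  obtain ⟨⟨n0, N⟩, hb⟩ := pigeon S hSu (fun θ => (n θ, (H θ).card)) univ countable_univ
    fun _ _ => trivial
  obtain ⟨T, c, hT, hTS, hc, hd⟩ := blocks E p Q hQc ((n0 + 1) ^ n0 + 1) N _ H hb
    (fun a => Set.Subsingleton.countable fun θ hθ η hη => hS.1 θ hθ.1.1 η hη.1.1 a hθ.2 hη.2)
    (fun θ hθ => (congrArg Prod.snd hθ.2).le) (fun θ _ => hp θ)
  let ξ : Fin ((n0 + 1) ^ n0 + 1) → Θ := fun j => (T.equivFinOfCardEq hT).symm j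
  have hξ : ∀ j, ξ j ∈ T := fun j => ((T.equivFinOfCardEq hT).symm j).2
  have hξi : ∀ j j', ξ j = ξ j' → j = j' := fun j j' h =>
    (T.equivFinOfCardEq hT).symm.injective (Subtype.ext h)
  have hn : ∀ j, n (ξ j) = n0 := fun j => congrArg Prod.fst (hTS _ (hξ j)).2
  let y : (Fin ((n0 + 1) ^ n0 + 1) → ℝ) → ι → I := fun z a =>
    if h : ∃ j, a ∈ E (ξ j) then projIcc 0 1 zero_le_one ((w0 (ξ h.choose) a : ℝ) +
      max 0 (min 1 (z h.choose)) * (w1 (ξ h.choose) a - w0 (ξ h.choose) a)) else c a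
  have yc : Continuous y := continuous_pi fun a => by
    simp only [y]
    split_ifs
    · exact continuous_projIcc.comp (by fun_prop)
    · exact continuous_const
  have yH : ∀ z j, ∀ a ∈ H (ξ j), y z a = p (ξ j) a := by
    intro z j a ha
    have : ¬ ∃ j, a ∈ E (ξ j) := by
      rintro ⟨j', hj'⟩
      by_cases h : ξ j' = ξ j
      · exact hEH _ a hj' (h ▸ ha)
      · exact (hd _ (hξ j') _ (hξ j) h a hj').2 ha
    simp only [y, dif_neg this]
    exact hc _ (hξ j) a ha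
  have yE : ∀ z j, ∀ a ∈ E (ξ j), y z a = projIcc 0 1 zero_le_one ((w0 (ξ j) a : ℝ) +
      max 0 (min 1 (z j)) * (w1 (ξ j) a - w0 (ξ j) a)) := by
    intro z j a ha
    have h : ∃ j, a ∈ E (ξ j) := ⟨j, ha⟩
    have : h.choose = j := hξi _ _ (by
      by_contra h'
      exact (hd _ (hξ _) _ (hξ j) h' a h.choose_spec).1 ha)
    simp only [y, dif_pos h, this]
  let G : K → Fin ((n0 + 1) ^ n0 + 1) → Bool := fun x j => (ξ j).1.1 x
  have Gc : Continuous G := continuous_pi fun j => (ξ j).1.1.continuous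
  let lift : ((Fin ((n0 + 1) ^ n0 + 1) → Bool) → Bool) → C(K, Bool) := fun C =>
    ⟨fun x => C (G x), continuous_of_discreteTopology.comp Gc⟩
  refine cert_false n0 (fun j d => d j) (fun C z => φ (lift C) (y z))
    (fun C => (φ _).continuous.comp yc) (fun j z hz => ?_) (fun j z hz => ?_)
  · obtain ⟨t, ht⟩ := (hy (ξ j) (y z) (yH z j)).1 fun a ha => by
      rw [yE z j a ha, max_eq_left (min_le_of_right_le hz), zero_mul, add_zero, projIcc_val]
    refine ⟨fun l => G (t (l.cast (hn j).symm)), fun C hC => ht _ fun l => ?_⟩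
    exact hC (l.cast (hn j))
  · obtain ⟨t, ht⟩ := (hy (ξ j) (y z) (yH z j)).2 fun a ha => by
      rw [yE z j a ha, min_eq_left hz, max_eq_right zero_le_one, one_mul, add_sub_cancel,
        projIcc_val]
    refine ⟨fun l => G (t (l.cast (hn j).symm)), fun C hC => ht _ fun l => ?_⟩
    exact hC (l.cast (hn j))

theorem sep_bits [TotallySeparatedSpace K] (T : Finset K) : ∃ (m : ℕ) (c : Fin m → C(K, Bool)),
    ∀ x ∈ T, ∀ x' ∈ T, (∀ i, c i x = c i x') → x = x' := by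
  have h : ∀ p : K × K, ∃ d : C(K, Bool), d p.1 = d p.2 → p.1 = p.2 := by
    intro p
    by_cases h : p.1 = p.2
    · exact ⟨ContinuousMap.const _ false, fun _ => h⟩
    · obtain ⟨U, hU, h3, h4⟩ := exists_isClopen_of_totally_separated h
      refine ⟨⟨_, (continuous_boolIndicator_iff_isClopen _).2 hU⟩, fun h5 => ?_⟩
      simp only [ContinuousMap.coe_mk, (Set.notMem_iff_boolIndicator _ _).1 h4,
        (Set.mem_iff_boolIndicator _ _).1 h3] at h5
      exact absurd h5 (by simp)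
  choose d hd using h
  refine ⟨(T ×ˢ T).card, fun i => d ((T ×ˢ T).equivFin.symm i), fun x hx x' hx' h => hd (x, x') ?_⟩
  simpa using h ((T ×ˢ T).equivFin ⟨(x, x'), Finset.mem_product.2 ⟨hx, hx'⟩⟩)

theorem dep_countable [CompactSpace K] [TotallySeparatedSpace K] (φ : C(K, ℝ) → C(ι → I, ℝ))
    (hφ : Continuous[cp K, cp (ι → I)] φ) : ∃ A : Set ι, A.Countable ∧
      ∀ f y0 y1, (∀ a ∈ A, y0 a = y1 a) → φ f y0 = φ f y1 := by
  let lift : ∀ m : ℕ, ((Fin m → Bool) → ℚ) → C((Fin m × K) ⊕ (ι → I), Bool) → C(K, ℝ) :=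
    fun m v g => ⟨fun x => v fun i => g (Sum.inl (i, x)), (continuous_of_discreteTopology
      (f := fun β : Fin m → Bool => (v β : ℝ))).comp (continuous_pi fun i => by fun_prop)⟩
  have key : ∀ p : (Σ m : ℕ, (Fin m → Bool) → ℚ) × ℚ × ℚ, ∃ A : Set ι, A.Countable ∧
      ((p.2.1 : ℝ) < p.2.2 → ∀ g y0 y1, φ (lift _ p.1.2 g) y0 ≤ p.2.1 →
        p.2.2 ≤ φ (lift _ p.1.2 g) y1 → ¬ ∀ a ∈ A, y0 a = y1 a) := by
    rintro ⟨⟨m, v⟩, r, s⟩
    by_contra h
    push Not at h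
    have hrs : (0 : ℝ) < s - r := sub_pos.2 (h ∅ countable_empty).1
    let ψ : C((Fin m × K) ⊕ (ι → I), Bool) → C(ι → I, ℝ) := fun g =>
      ⟨fun y => max 0 (min 1 ((φ (lift m v g) y - r) / (s - r))), by fun_prop⟩
    refine coreB (Sum.elim (fun _ => 0) id) ψ (fun g y => ?_) fun A hA => ?_
    · obtain ⟨T, k, hT⟩ := cp_nhds hφ (lift m v g) y (show 0 < (s - r : ℝ) / 8 by positivity)
      classical
      refine ⟨(Finset.univ ×ˢ T).image Sum.inl, fun g' hg => ?_⟩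
      have h1 := hT (lift m v g') fun x hx => by
        have : (fun i => g' (Sum.inl (i, x))) = fun i => g (Sum.inl (i, x)) := funext fun i =>
          hg _ (Finset.mem_image.2 ⟨(i, x), Finset.mem_product.2 ⟨Finset.mem_univ _, hx⟩, rfl⟩)
        simp only [lift, ContinuousMap.coe_mk, this, sub_self, abs_zero]
        positivity
      refine lt_of_le_of_lt (abs_max_sub_max_le_max _ _ _ _) (max_lt (by norm_num)
        (lt_of_le_of_lt (abs_min_sub_min_le_max _ _ _ _) (max_lt (by norm_num) ?_)))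
      rw [← sub_div, sub_sub_sub_cancel_right, abs_div, abs_of_pos hrs, div_lt_iff₀ hrs]
      linarith
    · obtain ⟨-, g, y0, y1, h0, h1, h2⟩ := h A hA
      refine ⟨g, Sum.inr y0, Sum.inr y1, ?_, ?_, h2⟩
      · exact max_eq_left (min_le_of_right_le
          (div_nonpos_of_nonpos_of_nonneg (sub_nonpos.2 h0) hrs.le))
      · show max 0 (min 1 _) = (1 : ℝ)
        rw [min_eq_left ((one_le_div hrs).2 (by simp only [Sum.elim_inr, id]; linarith)),
          max_eq_right zero_le_one]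
  choose A hA hA' using key
  have h1 : ∀ f y0 y1, (∀ a ∈ ⋃ p, A p, y0 a = y1 a) → φ f y1 ≤ φ f y0 := by
    intro f y0 y1 h
    by_contra h1
    obtain ⟨r, h2, h3⟩ := exists_rat_btwn (not_le.1 h1)
    obtain ⟨s, h4, h5⟩ := exists_rat_btwn h3
    obtain ⟨T0, m0, hT0⟩ := cp_nhds hφ f y0 (sub_pos.2 h2)
    obtain ⟨T1, m1, hT1⟩ := cp_nhds hφ f y1 (sub_pos.2 h5)
    classical
    obtain ⟨m, c, hc⟩ := sep_bits (T0 ∪ T1)
    have h6 : ∀ β : Fin m → Bool, ∃ q : ℚ, ∀ x ∈ T0 ∪ T1, (fun i => c i x) = β →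
        |q - f x| < 1 / ((max m0 m1 : ℕ) + 1) := by
      intro β
      by_cases h6 : ∃ x ∈ T0 ∪ T1, (fun i => c i x) = β
      · obtain ⟨x, hx, rfl⟩ := h6
        obtain ⟨q, hq⟩ := exists_rat_near (f x) (show (0 : ℝ) < 1 / ((max m0 m1 : ℕ) + 1) by positivity)
        refine ⟨q, fun x' hx' h7 => ?_⟩
        rw [hc x' hx' x hx (congrFun h7), abs_sub_comm]
        exact hq
      · exact ⟨0, fun x hx h7 => absurd ⟨x, hx, h7⟩ h6⟩
    choose v hv using h6
    let g : C((Fin m × K) ⊕ (ι → I), Bool) := ⟨Sum.elim (fun z => c z.1 z.2) fun _ => false,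
      Continuous.sumElim (continuous_prod_of_discrete_left.2 fun i => (c i).continuous)
        continuous_const⟩
    have h7 := abs_lt.1 (hT0 (lift m v g) fun x hx => lt_of_lt_of_le
      (hv _ x (Finset.mem_union_left _ hx) rfl) (Nat.one_div_le_one_div (le_max_left _ _)))
    have h8 := abs_lt.1 (hT1 (lift m v g) fun x hx => lt_of_lt_of_le
      (hv _ x (Finset.mem_union_right _ hx) rfl) (Nat.one_div_le_one_div (le_max_right _ _)))
    exact hA' (⟨m, v⟩, r, s) h4 g y0 y1 (by linarith [h7.2]) (by linarith [h8.1])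
      fun a ha => h a (mem_iUnion.2 ⟨_, ha⟩)
  exact ⟨_, countable_iUnion hA, fun f y0 y1 h =>
    le_antisymm (h1 f y1 y0 fun a ha => (h a ha).symm) (h1 f y0 y1 h)⟩

theorem network [CompactSpace K] [TotallySeparatedSpace K]
    (φ : {f : K → ℝ // Continuous f} → {g : (ι → I) → ℝ // Continuous g}) (hφ : Continuous φ) :
    ∃ N : Set (Set {g : (ι → I) → ℝ // Continuous g}), N.Countable ∧ ∀ x ∈ range φ,
      ∀ U : Set {g : (ι → I) → ℝ // Continuous g}, IsOpen U → x ∈ U →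
        ∃ n ∈ N, x ∈ n ∧ n ⊆ U ∩ range φ := by
  classical
  have h3 : Continuous[cp K, _] fun f : C(K, ℝ) => (⟨f, f.continuous⟩ : {f : K → ℝ // Continuous f}) :=
    continuous_induced_rng.2 continuous_induced_dom
  have h4 := @Continuous.comp _ _ _ (cp K) _ _ _ _ (continuous_subtype_val.comp hφ) h3
  obtain ⟨A, hA, h⟩ := dep_countable
    (fun f => ⟨(φ ⟨f, f.continuous⟩).1, (φ ⟨f, f.continuous⟩).2⟩) (continuous_induced_rng.2 h4)
  have : Countable A := hA.to_subtype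
  let Ψ : C(A → I, ℝ) → {g : (ι → I) → ℝ // Continuous g} := fun k =>
    ⟨fun y => k fun a => y a, by fun_prop⟩
  have hΨ : Continuous Ψ := Continuous.subtype_mk (continuous_pi fun y => by fun_prop) _
  refine ⟨(fun b => Ψ '' b ∩ range φ) '' TopologicalSpace.countableBasis _,
    (TopologicalSpace.countable_countableBasis _).image _, ?_⟩
  rintro _ ⟨f, rfl⟩ U hU hx
  let k : C(A → I, ℝ) := ⟨fun z => (φ f).1 fun a => if h : a ∈ A then z ⟨a, h⟩ else 0,
    (φ f).2.comp (continuous_pi fun a => by split_ifs <;> fun_prop)⟩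
  have hk : Ψ k = φ f := Subtype.ext (funext fun y =>
    h ⟨f.1, f.2⟩ _ _ fun a ha => dif_pos ha)
  obtain ⟨b, h5, h6, h7⟩ := (TopologicalSpace.isBasis_countableBasis _).exists_subset_of_mem_open
    (a := k) (u := Ψ ⁻¹' U) (by rwa [mem_preimage, hk]) (hU.preimage hΨ)
  exact ⟨_, ⟨b, h5, rfl⟩, ⟨⟨k, h6, hk⟩, f, rfl⟩,
    inter_subset_inter_left _ (image_subset_iff.2 h7)⟩

end Pool.Agent.H15.TEmb
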