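import Mathlib

set_option autoImplicit false

namespace Pool.Agent.H15.TreeDec
open SimpleGraph

theorem path_isTree (m : ℕ) : (pathGraph (m + 1)).IsTree := by
  refine ⟨pathGraph_connected m, ?_⟩
  rw [isAcyclic_iff_forall_adj_isBridge]
  have key : ∀ u v : Fin (m + 1), u.val + 1 = v.val →
      ¬ ((pathGraph (m + 1)).deleteEdges {s(u, v)}).Reachable u v := by
    intro u v huv hr
    have : ∀ a b : Fin (m + 1), ((pathGraph (m + 1)).deleteEdges {s(u, v)}).Reachable a b →
        a.val ≤ u.val → b.val ≤ u.val := by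
      intro a b hab
      obtain ⟨w⟩ := hab
      induction w with
      | nil => exact id
      | @cons x y z h _ ih =>
        intro hx
        apply ih
        rw [deleteEdges_adj, pathGraph_adj] at h
        obtain ⟨h1, h2⟩ := h
        simp only [Set.mem_singleton_iff, Sym2.eq_iff, Fin.ext_iff] at h2
        omega
    have := this u v hr le_rfl
    omega
  intro u v huv
  rw [isBridge_iff]
  have h := pathGraph_adj.1 huv
  rcases h with h | h
  · exact key u v h
  · intro hr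
    apply key v u h
    rw [Sym2.eq_swap]
    exact hr.symm

theorem path_interval_connected {m : ℕ} (S : Set (Fin m)) (lo hi : ℕ) (hlh : lo ≤ hi) (hhi : hi < m)
    (hS : ∀ i : Fin m, i ∈ S ↔ lo ≤ i.val ∧ i.val ≤ hi) : ((pathGraph m).induce S).Connected := by
  have h0 : (⟨lo, by omega⟩ : Fin m) ∈ S := (hS _).2 ⟨le_rfl, hlh⟩
  have key : ∀ d : ℕ, ∀ x : S, x.1.val = lo + d →
      ((pathGraph m).induce S).Reachable ⟨_, h0⟩ x := by
    intro d
    induction d with
    | zero =>
      intro x hx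
      have : x = ⟨_, h0⟩ := by ext; simpa using hx
      rw [this]
    | succ d ih =>
      intro x hx
      have hx2 := (hS _).1 x.2
      have hy : (⟨lo + d, by have := x.1.2; omega⟩ : Fin m) ∈ S := (hS _).2 ⟨by simp, by simp; omega⟩
      refine (ih ⟨_, hy⟩ rfl).trans (Adj.reachable ?_)
      simp only [comap_adj, Function.Embedding.subtype_apply, pathGraph_adj]
      omega
  haveI : Nonempty S := ⟨⟨_, h0⟩⟩
  refine ⟨fun x y => ?_⟩
  have hx := (hS _).1 x.2
  have hy := (hS _).1 y.2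
  exact (key (x.1.val - lo) x (by omega)).symm.trans (key (y.1.val - lo) y (by omega))

theorem reach_of_induce {V : Type} (T : SimpleGraph V) (S : Set V) (x y : V)
    (h : x ∉ S ∨ y ∉ S) (a b : S) (hab : (T.induce S).Reachable a b) :
    (T.deleteEdges {s(x, y)}).Reachable a.1 b.1 := by
  let f : (T.induce S) →g (T.deleteEdges {s(x, y)}) :=
    { toFun := Subtype.val
      map_rel' := by
        intro u v huv
        rw [deleteEdges_adj]
        refine ⟨huv, ?_⟩
        simp only [Set.mem_singleton_iff, Sym2.eq_iff]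
        rintro (⟨rfl, rfl⟩ | ⟨rfl, rfl⟩)
        · rcases h with h | h
          · exact h u.2
          · exact h v.2
        · rcases h with h | h
          · exact h v.2
          · exact h u.2 }
  exact hab.map f

/-- Helly property for three subtrees of a tree. -/
theorem helly3 {V : Type} (T : SimpleGraph V) (hT : T.IsAcyclic) (A B C : Set V)
    (hA : (T.induce A).Connected) (hB : (T.induce B).Connected) (hC : (T.induce C).Connected)
    (p q r : V) (hp : p ∈ A ∧ p ∈ B) (hq : q ∈ A ∧ q ∈ C) (hr : r ∈ B ∧ r ∈ C) :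
    ∃ z, z ∈ A ∧ z ∈ B ∧ z ∈ C := by
  by_contra hno
  have hqB : q ∉ B := fun h => hno ⟨q, hq.1, h, hq.2⟩
  have key : ∀ u v : A, (T.induce A).Walk u v → ∀ hv : v.1 ∈ Bᶜ,
      (∃ hu : u.1 ∈ Bᶜ, (T.induce Bᶜ).Reachable ⟨u.1, hu⟩ ⟨v.1, hv⟩) ∨
      ∃ x y : V, T.Adj x y ∧ x ∈ A ∧ x ∈ B ∧ ∃ hy : y ∈ Bᶜ,
        (T.induce Bᶜ).Reachable ⟨y, hy⟩ ⟨v.1, hv⟩ := by
    intro u v w
    induction w with
    | nil => intro hv; exact Or.inl ⟨hv, Reachable.refl _⟩
    | @cons x y z h _ ih =>
      intro hv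
      rcases ih hv with ⟨hy, hr⟩ | hr
      · by_cases hx : x.1 ∈ B
        · exact Or.inr ⟨x.1, y.1, h, x.2, hx, hy, hr⟩
        · exact Or.inl ⟨hx, (Adj.reachable (show (T.induce Bᶜ).Adj ⟨x.1, hx⟩ ⟨y.1, hy⟩ from h)).trans hr⟩
      · exact Or.inr hr
  obtain ⟨w⟩ := hA.preconnected ⟨p, hp.1⟩ ⟨q, hq.1⟩
  rcases key _ _ w hqB with ⟨hu, -⟩ | ⟨x, y, hxy, hxA, hxB, hy, hyq⟩
  · exact hu hp.2
  · have hxC : x ∉ C := fun h => hno ⟨x, hxA, hxB, h⟩
    have hb := (isAcyclic_iff_forall_adj_isBridge.1 hT) hxy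
    rw [isBridge_iff] at hb
    apply hb
    have r1 := reach_of_induce T B x y (Or.inr hy) ⟨x, hxB⟩ ⟨r, hr.1⟩ (hB.preconnected _ _)
    have r2 := reach_of_induce T C x y (Or.inl hxC) ⟨r, hr.2⟩ ⟨q, hq.2⟩ (hC.preconnected _ _)
    have r3 := reach_of_induce T Bᶜ x y (Or.inl (fun h => h hxB)) _ _ hyq
    exact r1.trans (r2.trans r3.symm)

end Pool.Agent.H15.TreeDec
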