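import Mathlib
import Pool.Agent.H15.Vald1

set_option autoImplicit false

namespace Pool.Agent.H15.Vald
open Set Filter Topology Cardinal Function Sum

variable {Γ K : Type} [LinearOrder K] {L : Set (Γ → ℝ)}

def AA (L : Set (Γ → ℝ)) : Set L := {u | (support u.1).Countable}

def BB (f : L → K) (M : Set (Γ ⊕ K)) : Set L :=
  {u | support u.1 ⊆ inl ⁻¹' M ∧ inr (f u) ∈ M ∧ u ∈ AA L}

def In (c : Finset (Finset (Γ × ℚ × ℚ))) (M : Set (Γ ⊕ K)) : Prop :=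
  ∀ β ∈ c, ∀ t ∈ β, t.1 ∈ inl ⁻¹' M

structure Cl (f : L → K) (M : Set (Γ ⊕ K)) : Prop where
  c1 : ∀ c, In c M → ∀ p q, inr p ∈ M → inr q ∈ M →
    (∃ u ∈ AA L, u.1 ∈ UU c ∧ p < f u ∧ f u < q) → ∃ u ∈ BB f M, u.1 ∈ UU c ∧ p < f u ∧ f u < q
  c2 : ∀ c, In c M → (∃ u ∈ AA L, ∃ v ∈ AA L, u.1 ∈ UU c ∧ v.1 ∉ UU c ∧ ¬ f u < f v) →
    ∃ u ∈ BB f M, ∃ v ∈ BB f M, u.1 ∈ UU c ∧ v.1 ∉ UU c ∧ ¬ f u < f v
  c3 : ∀ c, In c M → ∀ a, IsLUB (f '' {u | u ∈ AA L ∧ u.1 ∈ UU c}) a → inr a ∈ M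

omit [LinearOrder K] in
theorem wit (f : L → K) {u : L} (hu : u ∈ AA L) :
    ∃ o : Set (Γ ⊕ K), o.Countable ∧ ∀ M, o ⊆ M → u ∈ BB f M :=
  ⟨insert (inr (f u)) (inl '' support u.1), (Countable.image hu _).insert _, fun _ h =>
    ⟨fun γ hγ => h (Or.inr ⟨γ, hγ, rfl⟩), h (mem_insert _ _), hu⟩⟩

theorem exists_Phi (f : L → K) : ∃ Φ : Finset (Γ ⊕ K) → Set (Γ ⊕ K), (∀ E, (Φ E).Countable) ∧
    ∀ M, Closed Φ M → Cl f M := by
  classical
  have h1 : ∀ (c : Finset (Finset (Γ × ℚ × ℚ))) (p q : K), ∃ o : Set (Γ ⊕ K), o.Countable ∧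
      ∀ M, o ⊆ M → (∃ u ∈ AA L, u.1 ∈ UU c ∧ p < f u ∧ f u < q) →
        ∃ u ∈ BB f M, u.1 ∈ UU c ∧ p < f u ∧ f u < q := by
    intro c p q
    by_cases h : ∃ u ∈ AA L, u.1 ∈ UU c ∧ p < f u ∧ f u < q
    · obtain ⟨u, hu, h⟩ := h
      obtain ⟨o, h1, h2⟩ := wit f hu
      exact ⟨o, h1, fun M hM _ => ⟨u, h2 M hM, h⟩⟩
    · exact ⟨∅, countable_empty, fun _ _ h' => absurd h' h⟩
  have h2 : ∀ (c : Finset (Finset (Γ × ℚ × ℚ))), ∃ o : Set (Γ ⊕ K), o.Countable ∧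
      ∀ M, o ⊆ M → (∃ u ∈ AA L, ∃ v ∈ AA L, u.1 ∈ UU c ∧ v.1 ∉ UU c ∧ ¬ f u < f v) →
        ∃ u ∈ BB f M, ∃ v ∈ BB f M, u.1 ∈ UU c ∧ v.1 ∉ UU c ∧ ¬ f u < f v := by
    intro c
    by_cases h : ∃ u ∈ AA L, ∃ v ∈ AA L, u.1 ∈ UU c ∧ v.1 ∉ UU c ∧ ¬ f u < f v
    · obtain ⟨u, hu, v, hv, h⟩ := h
      obtain ⟨o, h1, h2⟩ := wit f hu
      obtain ⟨o', h3, h4⟩ := wit f hv
      exact ⟨o ∪ o', h1.union h3, fun M hM _ => ⟨u, h2 M (subset_union_left.trans hM), v,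
        h4 M (subset_union_right.trans hM), h⟩⟩
    · exact ⟨∅, countable_empty, fun _ _ h' => absurd h' h⟩
  choose o1 h11 h12 using h1
  choose o2 h21 h22 using h2
  let o3 : Finset (Finset (Γ × ℚ × ℚ)) → Set (Γ ⊕ K) := fun c =>
    inr '' {a | IsLUB (f '' {u | u ∈ AA L ∧ u.1 ∈ UU c}) a}
  have h31 : ∀ c, (o3 c).Countable := fun c =>
    (Set.Subsingleton.countable fun a ha b hb => IsLUB.unique ha hb).image _
  refine ⟨fun E => ⋃ c ∈ {c | In c (↑E : Set (Γ ⊕ K))}, (o2 c ∪ o3 c) ∪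
    ⋃ p ∈ inr ⁻¹' (↑E : Set (Γ ⊕ K)), ⋃ q ∈ inr ⁻¹' (↑E : Set (Γ ⊕ K)), o1 c p q,
    fun E => ?_, fun M hM => ?_⟩
  · have e1 := E.countable_toSet.preimage (inr_injective (α := Γ) (β := K))
    exact (cnt_code (E.countable_toSet.preimage inl_injective)).biUnion fun c _ =>
      ((h21 c).union (h31 c)).union (e1.biUnion fun p _ => e1.biUnion fun q _ => h11 c p q)
  have key : ∀ c, In c M → ∀ F : Finset (Γ ⊕ K), ↑F ⊆ M → ∃ E : Finset (Γ ⊕ K), ↑E ⊆ M ∧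
      In c (↑E : Set (Γ ⊕ K)) ∧ F ⊆ E := by
    intro c hc F hF
    refine ⟨F ∪ c.biUnion fun β => β.image fun t => inl t.1, fun z hz => ?_,
      fun β hβ t ht => ?_, Finset.subset_union_left⟩
    · rcases Finset.mem_union.1 hz with h | h
      · exact hF h
      · obtain ⟨β, hβ, h⟩ := Finset.mem_biUnion.1 h
        obtain ⟨t, ht, rfl⟩ := Finset.mem_image.1 h
        exact hc β hβ t ht
    · exact Finset.mem_union_right _
        (Finset.mem_biUnion.2 ⟨β, hβ, Finset.mem_image_of_mem _ ht⟩)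
  refine ⟨fun c hc p q hp hq => h12 c p q M ?_, fun c hc => h22 c M ?_, fun c hc a ha => ?_⟩
  · obtain ⟨E, e1, e2, e3⟩ := key c hc {inr p, inr q} (by
      rw [Finset.coe_pair]
      exact pair_subset hp hq)
    refine fun z hz => hM E e1 (mem_biUnion e2 (Or.inr ?_))
    exact mem_biUnion (x := p) (e3 (by simp)) (mem_biUnion (x := q) (e3 (by simp)) hz)
  · obtain ⟨E, e1, e2, _⟩ := key c hc ∅ (by simp)
    exact fun z hz => hM E e1 (mem_biUnion e2 (Or.inl (Or.inl hz)))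
  · obtain ⟨E, e1, e2, _⟩ := key c hc ∅ (by simp)
    exact hM E e1 (mem_biUnion e2 (Or.inl (Or.inr ⟨a, ha, rfl⟩)))

theorem supp_closure {S : Set Γ} {D : Set L} (hD : ∀ u ∈ D, support u.1 ⊆ S) :
    ∀ u ∈ closure D, support u.1 ⊆ S := by
  intro u hu γ hγ
  by_contra h
  have h1 : IsClosed {v : L | v.1 γ = 0} :=
    isClosed_eq ((continuous_apply γ).comp continuous_subtype_val) continuous_const
  exact hγ (closure_minimal (fun v hv => by_contra fun h' => h (hD v hv h')) h1 hu)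

variable [TopologicalSpace K] [OrderTopology K]

theorem dense_pt (hA : Dense (AA L)) {f : L → K} (hf : Continuous f) (hs : Surjective f)
    {p q z : K} (h1 : p < z) (h2 : z < q) : ∃ u ∈ AA L, p < f u ∧ f u < q := by
  obtain ⟨w, rfl⟩ := hs z
  obtain ⟨u, h3, h4⟩ := hA.exists_mem_open (isOpen_Ioo.preimage hf) ⟨w, h1, h2⟩
  exact ⟨u, h3, h4⟩

theorem Cl.pt (hA : Dense (AA L)) {f : L → K} (hf : Continuous f) (hs : Surjective f)
    {M : Set (Γ ⊕ K)} (hM : Cl f M) {p q z : K} (hp : inr p ∈ M) (hq : inr q ∈ M)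
    (h1 : p < z) (h2 : z < q) : ∃ u ∈ BB f M, p < f u ∧ f u < q := by
  obtain ⟨u, h3, h4⟩ := dense_pt hA hf hs h1 h2
  obtain ⟨v, h5, _, h6⟩ := hM.c1 {∅} (by simp [In]) p q hp hq
    ⟨u, h3, ⟨∅, by simp, by simp [Box]⟩, h4⟩
  exact ⟨v, h5, h6⟩

theorem no_gap [CompactSpace K] (hL : IsCompact L) (hA : Dense (AA L)) {f : L → K}
    (hf : Continuous f) (hs : Surjective f) {M : Set (Γ ⊕ K)} (hM : Cl f M) {x a b : K}
    (hx : inr x ∉ M) (hl : ∀ c, inr c ∈ M → c < x → ∃ p, inr p ∈ M ∧ c < p ∧ p < x)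
    (hr : ∀ c, inr c ∈ M → x < c → ∃ p, inr p ∈ M ∧ x < p ∧ p < c) (hab : a < b)
    (ha : ∀ c, inr c ∈ M → c < x → c ≤ a) (hb : ∀ c, inr c ∈ M → x < c → b ≤ c) : False := by
  have := isCompact_iff_compactSpace.1 hL
  have : Nonempty K := ⟨x⟩
  have h0 : closure (BB f M) ⊆ f ⁻¹' (Iic a ∪ Ici b) := by
    refine closure_minimal (fun u hu => ?_) ((isClosed_Iic.union isClosed_Ici).preimage hf)
    rcases lt_trichotomy (f u) x with h | h | h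
    · exact Or.inl (ha _ hu.2.1 h)
    · exact absurd (h ▸ hu.2.1) hx
    · exact Or.inr (hb _ hu.2.1 h)
  have hS := supp_closure (D := BB f M) fun u hu => hu.1
  obtain ⟨c, c1, c2, c3⟩ := sep (L0 := Subtype.val '' (closure (BB f M) ∩ f ⁻¹' Iic a))
    (L1 := Subtype.val '' (closure (BB f M) ∩ f ⁻¹' Ici b))
    ((isClosed_closure.inter (isClosed_Iic.preimage hf)).isCompact.image continuous_subtype_val)
    ((isClosed_closure.inter (isClosed_Ici.preimage hf)).isCompact.image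
      continuous_subtype_val).isClosed
    (by
      rw [disjoint_image_iff Subtype.val_injective]
      exact disjoint_left.2 fun u h1 h2 => absurd (le_trans h2.2 h1.2) (not_le.2 hab))
    (S := inl ⁻¹' M) (by rintro _ ⟨u, h, rfl⟩; exact hS u h.1)
    (by rintro _ ⟨u, h, rfl⟩; exact hS u h.1)
  have d0 : ∀ u ∈ BB f M, f u ≤ a → u.1 ∈ UU c := fun u hu h =>
    c2 ⟨u, ⟨subset_closure hu, h⟩, rfl⟩
  have d1 : ∀ u ∈ BB f M, b ≤ f u → u.1 ∉ UU c := fun u hu h =>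
    c3 _ ⟨u, ⟨subset_closure hu, h⟩, rfl⟩
  have k : ∀ u ∈ AA L, ∀ v ∈ AA L, u.1 ∈ UU c → v.1 ∉ UU c → f u < f v := by
    intro u hu v hv h1 h2
    by_contra h3
    obtain ⟨u, hu, v, hv, h1, h2, h3⟩ := hM.c2 c c1 ⟨u, hu, v, hv, h1, h2, h3⟩
    apply h3
    have e1 : f u ≤ a := (h0 (subset_closure hu)).resolve_right fun h => d1 u hu h h1
    have e2 : b ≤ f v := (h0 (subset_closure hv)).resolve_left fun h => h2 (d0 v hv h)
    exact e1.trans_lt (hab.trans_le e2)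
  obtain ⟨e, he⟩ := exists_lub (f '' {u | u ∈ AA L ∧ u.1 ∈ UU c})
  have he' := hM.c3 c c1 e he
  rcases lt_trichotomy e x with h | h | h
  · obtain ⟨p, p1, p2, p3⟩ := hl e he' h
    obtain ⟨q, q1, q2, q3⟩ := hl p p1 p3
    obtain ⟨u, hu, u1, u2⟩ := hM.pt hA hf hs he' q1 p2 q2
    exact not_le.2 u1 (he.1 ⟨u, ⟨hu.2.2, d0 u hu (u2.le.trans (ha q q1 q3))⟩, rfl⟩)
  · exact hx (h ▸ he')
  · obtain ⟨p, p1, p2, p3⟩ := hr e he' h
    obtain ⟨q, q1, q2, q3⟩ := hr p p1 p2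
    obtain ⟨u, hu, u1, u2⟩ := hM.pt hA hf hs q1 he' q3 p3
    refine not_le.2 u2 (he.2 ?_)
    rintro _ ⟨v, hv, rfl⟩
    exact (k v hv.1 u hu.2.2 hv.2 (d1 u hu ((hb q q1 q2).trans u1.le))).le

omit [OrderTopology K] in
theorem restr (hL : IsCompact L) {f : L → K} (hf : Continuous f) {M : Set (Γ ⊕ K)}
    (hM : Cl f M) {p c : K} (hp : inr p ∈ M) (hc : inr c ∈ M) {u : L} (hu : u ∈ AA L)
    (h1 : p < f u) (h2 : f u < c) : ∃ w : L, w.1 = (inl ⁻¹' M).indicator u.1 ∧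
      f w ∈ closure {z | inr z ∈ M ∧ p < z ∧ z < c} := by
  have h3 : (inl ⁻¹' M).indicator u.1 ∈
      closure (Subtype.val '' {v : L | v ∈ BB f M ∧ p < f v ∧ f v < c}) := by
    refine _root_.mem_closure_iff.2 fun W hW hw => ?_
    obtain ⟨β, b1, b2, b3⟩ := box hW hw (S := inl ⁻¹' M) support_indicator_subset
    obtain ⟨v, v1, ⟨β', v2, v3⟩, v4⟩ := hM.c1 {β} (by simpa [In] using b1) p c hp hc
      ⟨u, hu, ⟨β, by simp, fun t ht => by
        have := b2 t ht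
        rwa [indicator_of_mem (b1 t ht)] at this⟩, h1, h2⟩
    rw [Finset.mem_singleton.1 v2] at v3
    exact ⟨v.1, b3 _ v1.1 v3, v, ⟨v1, v4⟩, rfl⟩
  have h4 : (inl ⁻¹' M).indicator u.1 ∈ L :=
    closure_minimal (by rintro _ ⟨v, _, rfl⟩; exact v.2) hL.isClosed h3
  refine ⟨⟨_, h4⟩, rfl, ?_⟩
  have h5 : (⟨_, h4⟩ : L) ∈ closure {v : L | v ∈ BB f M ∧ p < f v ∧ f v < c} :=
    closure_subtype.2 h3
  exact map_mem_closure hf h5 fun v hv => ⟨hv.1.2.1, hv.2⟩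

theorem cof (hL : IsCompact L) (hA : Dense (AA L)) {f : L → K} (hf : Continuous f)
    (hs : Surjective f) (c : K) : ∃ C : Set K, C ⊆ Iio c ∧ #C ≤ aleph 1 ∧
      ∀ y < c, ∃ p ∈ C, y ≤ p := by
  by_contra hc
  push Not at hc
  have h1 : ∀ C : Set K, C ⊆ Iio c → #C ≤ aleph 1 → ∃ y < c, ∃ y' < y, ∀ p ∈ C, p < y' := by
    intro C h1 h2
    obtain ⟨y', h3, h4⟩ := hc C h1 h2
    obtain ⟨y, h5, h6⟩ := hc {y'} (singleton_subset_iff.2 h3)
      ((le_aleph0_iff_set_countable.2 (countable_singleton _)).trans (by simp))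
    exact ⟨y, h5, y', h6 _ rfl, h4⟩
  have h2 : ∀ Z : Set (Γ ⊕ K), ∃ y, Z.Countable → y < c ∧ ∃ y' < y,
      ∀ p, inr p ∈ Z → p < c → p < y' := by
    intro Z
    by_cases h : Z.Countable
    · obtain ⟨y, h3, y', h4, h5⟩ := h1 (inr ⁻¹' Z ∩ Iio c) inter_subset_right
        ((le_aleph0_iff_set_countable.2 ((h.preimage inr_injective).mono
          inter_subset_left)).trans (by simp))
      exact ⟨y, fun _ => ⟨h3, y', h4, fun p h6 h7 => h5 p ⟨h6, h7⟩⟩⟩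
    · exact ⟨c, fun h' => absurd h' h⟩
  choose y hy using h2
  obtain ⟨Φ, Φ1, Φ2⟩ := exists_Phi f
  obtain ⟨N, hN⟩ := chain Φ Φ1 (inr c) fun Z => inr (y Z)
  obtain ⟨z, z1, z', z2, z3⟩ := h1 (range fun α => y (N α))
    (by rintro _ ⟨α, rfl⟩; exact (hy _ (hN α).1).1) (mk_range_le.trans (by simp))
  obtain ⟨u, hu, u1, u2⟩ := dense_pt hA hf hs z2 z1
  have h3 : ∀ γ : Γ, ∃ α : I, ∀ β, inl γ ∈ N β → inl γ ∈ N α := by
    intro γ
    by_cases h : ∃ β, inl γ ∈ N β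
    · obtain ⟨β, h⟩ := h
      exact ⟨β, fun _ _ => h⟩
    · obtain ⟨α, _⟩ := I_bdd countable_empty
      exact ⟨α, fun β h' => absurd ⟨β, h'⟩ h⟩
  choose r hr using h3
  obtain ⟨α0, _⟩ := I_bdd countable_empty
  obtain ⟨α, hα⟩ := I_bdd ((Countable.image hu r).insert α0)
  obtain ⟨β, hβ⟩ := I_bdd (countable_singleton α)
  have hβ' := (hN β).2.2.2 α (hβ α rfl)
  obtain ⟨w, w1, w2⟩ := restr hL hf (Φ2 _ (hN α).2.1)
    ((hN α).2.2.2 α0 (hα _ (mem_insert _ _))).2 (hN α).2.2.1 hu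
    ((z3 _ ⟨α0, rfl⟩).trans u1) u2
  obtain ⟨w', w3, w4⟩ := restr hL hf (Φ2 _ (hN β).2.1) hβ'.2 (hN β).2.2.1 hu
    ((z3 _ ⟨α, rfl⟩).trans u1) u2
  have e : w = w' := by
    apply Subtype.ext
    rw [w1, w3]
    funext γ
    by_cases h : u.1 γ = 0
    · simp [indicator, h]
    by_cases h' : γ ∈ inl ⁻¹' N β
    · rw [indicator_of_mem h', indicator_of_mem]
      exact ((hN α).2.2.2 _ (hα _ (Or.inr ⟨γ, h, rfl⟩))).1 (hr γ β h')
    · rw [indicator_of_notMem h']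
      exact indicator_of_notMem (s := inl ⁻¹' N α) (fun h'' => h' (hβ'.1 h'')) _
  obtain ⟨_, y', y1, y2⟩ := hy _ (hN α).1
  have e1 : f w ≤ y' :=
    closure_minimal (t := Iic y') (fun p hp => (y2 p hp.1 hp.2.2).le) isClosed_Iic w2
  have e2 : y (N α) ≤ f w' :=
    closure_minimal (t := Ici (y (N α))) (fun p hp => hp.2.1.le) isClosed_Ici w4
  rw [← e] at e2
  exact not_le.2 y1 (e2.trans e1)

theorem main [CompactSpace K] (hL : IsCompact L) (hA : Dense (AA L)) {f : L → K}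
    (hf : Continuous f) (hs : Surjective f) :
    #{x : K | ¬ (𝓝 x).IsCountablyGenerated} ≤ aleph 1 := by
  classical
  choose C C1 C2 C3 using cof hL hA hf hs
  choose D D1 D2 D3 using cof (K := Kᵒᵈ) hL hA (f := f) hf hs
  obtain ⟨Φ, Φ1, Φ2⟩ := exists_Phi f
  have ha : aleph0 ≤ aleph 1 := by simp
  obtain ⟨M, M1, -, M2⟩ := fin_closed ha (∅ : Set (Γ ⊕ K)) (by simp)
    (fun E => Φ E ∪ ⋃ c ∈ inr ⁻¹' (↑E : Set (Γ ⊕ K)), inr '' (C c ∪ D c)) fun E =>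
      small_un ha ((le_aleph0_iff_set_countable.2 (Φ1 E)).trans ha) (small_bU ha
        ((le_aleph0_iff_set_countable.2 (E.countable_toSet.preimage inr_injective)).trans ha)
        fun c _ => mk_image_le.trans (small_un ha (C2 c) (D2 c)))
  refine le_trans (mk_le_mk_of_subset (t := inr ⁻¹' M) fun x hx => ?_)
    ((mk_preimage_of_injective _ _ inr_injective).trans M1)
  by_contra hxM
  have hCD : ∀ c, inr c ∈ M → ∀ p ∈ C c ∪ D c, inr p ∈ M := fun c hc p hp =>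
    M2 {inr c} (by simpa using hc) (Or.inr (mem_biUnion (x := c) (by simp) ⟨p, hp, rfl⟩))
  have h1 : ∀ c, ∃ p, inr c ∈ M → inr p ∈ M ∧ (c < x → c < p ∧ p < x) ∧
      (x < c → x < p ∧ p < c) := by
    intro c
    by_cases hc : inr c ∈ M
    · rcases lt_trichotomy c x with h | h | h
      · obtain ⟨p, p1, p2⟩ := D3 c x h
        have p3 := hCD c hc p (Or.inr p1)
        exact ⟨p, fun _ => ⟨p3, fun _ => ⟨D1 c p1, lt_of_le_of_ne p2 fun h' => hxM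
          (by rw [← h']; exact p3)⟩, fun h' => absurd h' h.not_gt⟩⟩
      · exact absurd (h ▸ hc) hxM
      · obtain ⟨p, p1, p2⟩ := C3 c x h
        have p3 := hCD c hc p (Or.inl p1)
        exact ⟨p, fun _ => ⟨p3, fun h' => absurd h' h.not_gt, fun _ =>
          ⟨lt_of_le_of_ne p2 fun h' => hxM (by rw [h']; exact p3), C1 c p1⟩⟩⟩
    · exact ⟨c, fun h => absurd h hc⟩
  choose ψ hψ using h1
  obtain ⟨N, N1, -, N2⟩ := fin_closed le_rfl (∅ : Set (Γ ⊕ K)) (by simp)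
    (fun E => Φ E ∪ (fun c => inr (ψ c)) '' (inr ⁻¹' (↑E : Set (Γ ⊕ K)))) fun E =>
      le_aleph0_iff_set_countable.2 ((Φ1 E).union
        ((E.countable_toSet.preimage inr_injective).image _))
  have hcl : Cl f (N ∩ M) := Φ2 _ fun E hE => subset_inter
    (subset_union_left.trans (N2 E (hE.trans inter_subset_left)))
    (subset_union_left.trans (M2 E (hE.trans inter_subset_right)))
  have h2 : ∀ c, inr c ∈ N ∩ M → inr (ψ c) ∈ N ∩ M := fun c hc =>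
    ⟨N2 {inr c} (by simpa using hc.1) (Or.inr ⟨c, by simp, rfl⟩), (hψ c hc.2).1⟩
  have hl : ∀ c, inr c ∈ N ∩ M → c < x → ∃ p, inr p ∈ N ∩ M ∧ c < p ∧ p < x :=
    fun c hc h => ⟨ψ c, h2 c hc, (hψ c hc.2).2.1 h⟩
  have hr : ∀ c, inr c ∈ N ∩ M → x < c → ∃ p, inr p ∈ N ∩ M ∧ x < p ∧ p < c :=
    fun c hc h => ⟨ψ c, h2 c hc, (hψ c hc.2).2.2 h⟩
  have hx' : inr x ∉ N ∩ M := fun h => hxM h.2
  refine hx (cg_of (P := inr ⁻¹' (N ∩ M)) (((le_aleph0_iff_set_countable.1 N1).mono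
    inter_subset_left).preimage inr_injective) (fun a h => ?_) fun b h => ?_)
  · by_contra h'
    push Not at h'
    exact no_gap hL hA hf hs hcl hx' hl hr h
      (fun c hc h'' => not_lt.1 fun h3 => not_le.2 h'' (h' c hc h3)) fun c _ h'' => h''.le
  · by_contra h'
    push Not at h'
    exact no_gap hL hA hf hs hcl hx' hl hr h (fun c _ h'' => h''.le) fun c hc h'' => h' c hc h''

end Pool.Agent.H15.Vald
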