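import Mathlib
import Pool.Agent.H15.Vald2

set_option autoImplicit false

namespace Pool.Agent.H15.Vald
open Set Filter Topology Cardinal Function Sum

def LC {K : Type} [LinearOrder K] (x : K) : Prop :=
  ∃ C : Set K, C.Countable ∧ C ⊆ Iio x ∧ ∀ y < x, ∃ p ∈ C, y ≤ p

theorem I_Iic (j : I) : (Iic j).Countable := by
  rw [← Iio_insert]
  exact (I_Iio j).insert _

section crit
variable {L : Type} [LinearOrder L] [TopologicalSpace L] [OrderTopology L] [CompactSpace L]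

omit [CompactSpace L] in
theorem fam (P Q : I → Set L) (hP : ∀ α, (P α).Countable) (hQ : ∀ α, (Q α).Countable)
    (hPQ : ∀ α β, β < α → P β ⊆ Q α) : ∃ (Γ : Type) (g : Γ → C(L, ℝ)),
      (∀ x, (∃ α, ∀ p < x, ∃ z ∈ P α, p ≤ z ∧ z < x) → {γ | g γ x ≠ 0}.Countable) ∧
      ∀ α, ∀ p ∈ P α, ∀ p' ∈ P α, p < p' → ∀ e ∈ Q α, p' ≤ e → IsClosed (Ioi e) →
        (∀ z ∈ Q α, p ≤ z → e ≤ z) → ∃ γ, (∀ x ≤ p, g γ x = 0) ∧ ∀ y, p' ≤ y → y ≤ e →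
          g γ y = 1 := by
  let T : Set (I × L × L × L) := {t | t.2.1 ∈ P t.1 ∧ t.2.2.1 ∈ P t.1 ∧ t.2.2.2 ∈ Q t.1 ∧
    t.2.1 < t.2.2.1 ∧ IsClosed (Ioi t.2.2.2) ∧ ∀ z ∈ Q t.1, t.2.1 ≤ z → t.2.2.2 ≤ z}
  have : ∀ t : T, ∃ g : C(L, ℝ), EqOn g 0 (Iic t.1.2.1 ∪ Ioi t.1.2.2.2) ∧
      EqOn g 1 (Icc t.1.2.2.1 t.1.2.2.2) := by
    intro t
    obtain ⟨g, h1, h2, _⟩ := exists_continuous_zero_one_of_isClosed
      (isClosed_Iic.union t.2.2.2.2.2.1) (isClosed_Icc (a := t.1.2.2.1) (b := t.1.2.2.2))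
      (disjoint_left.2 (by
        rintro z (h | h) h'
        · exact not_le.2 t.2.2.2.2.1 (h'.1.trans h)
        · exact not_le.2 h h'.2))
    exact ⟨g, h1, h2⟩
  choose g g1 g2 using this
  refine ⟨T, g, ?_, fun α p hp p' hp' h1 e he h2 h3 h4 =>
    ⟨⟨(α, p, p', e), hp, hp', he, h1, h3, h4⟩, fun x hx => g1 _ (Or.inl hx),
      fun y h5 h6 => g2 _ ⟨h5, h6⟩⟩⟩
  rintro x ⟨α, hα⟩
  have h1 : (⋃ β ∈ Iic α, ({β} : Set I) ×ˢ P β ×ˢ P β ×ˢ Q β).Countable :=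
    (I_Iic α).biUnion fun β _ => (countable_singleton β).prod ((hP β).prod ((hP β).prod (hQ β)))
  refine (h1.preimage Subtype.val_injective).mono fun t ht => ?_
  have h2 : x ∉ Iic t.1.2.1 ∪ Ioi t.1.2.2.2 := fun h => ht (g1 t h)
  refine mem_biUnion (x := t.1.1) ?_ ⟨rfl, t.2.1, t.2.2.1, t.2.2.2.1⟩
  by_contra h3
  obtain ⟨z, z1, z2, z3⟩ := hα t.1.2.1 (not_le.1 fun h => h2 (Or.inl h))
  exact h2 (Or.inr ((t.2.2.2.2.2.2 z (hPQ _ _ (not_le.1 h3) z1) z2).trans_lt z3))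

omit [TopologicalSpace L] [OrderTopology L] [CompactSpace L] in
theorem lc_idx (P : I → Set L) (hm : Monotone P)
    (ha : ∀ x y, x < y → ∃ α, ∃ p ∈ P α, x ≤ p ∧ p < y) {x : L} (hx : LC x) :
    ∃ α, ∀ p < x, ∃ z ∈ P α, p ≤ z ∧ z < x := by
  obtain ⟨C, h1, h2, h3⟩ := hx
  have : Nonempty I := ⟨(I_bdd countable_empty).choose⟩
  choose! r s h4 h5 h6 using fun y (hy : y ∈ C) => ha y x (h2 hy)
  obtain ⟨α, hα⟩ := I_bdd (h1.image r)
  refine ⟨α, fun p hp => ?_⟩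
  obtain ⟨y, h7, h8⟩ := h3 p hp
  exact ⟨s y, hm (hα _ ⟨y, h7, rfl⟩).le (h4 y h7), h8.trans (h5 y h7), h6 y h7⟩

theorem crit (P Q : I → Set L) (hP : ∀ α, (P α).Countable) (hQ : ∀ α, (Q α).Countable)
    (hm : Monotone P) (hPQ : ∀ α β, β < α → P β ⊆ Q α) (α0 : I)
    (hQP : ∀ α, ∀ p ∈ Q α, ∀ p' ∈ Q α, ∃ β, (β = α0 ∨ β < α) ∧ p ∈ P β ∧ p' ∈ P β)
    (ha : ∀ x y, x < y → ∃ α, ∃ p ∈ P α, ∃ p' ∈ P α, x ≤ p ∧ p < p' ∧ p' ≤ y)
    (hb : ∀ α x y, x < y → (∀ p ∈ Q α, ∀ p' ∈ Q α, x ≤ p → p' ≤ y → p' ≤ p) → ∃ e ∈ Q α,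
      (y ≤ e ∧ IsClosed (Ioi e) ∧ ∀ z ∈ Q α, x ≤ z → e ≤ z) ∨
      (e ≤ x ∧ IsClosed (Iio e) ∧ ∀ z ∈ Q α, z ≤ y → z ≤ e))
    (hA : Dense {x : L | LC x ∧ LC (K := Lᵒᵈ) x}) :
    ∃ (Γ : Type) (h : L → (Γ → ℝ)), IsEmbedding h ∧
      Dense (h ⁻¹' {x | {γ | x γ ≠ 0}.Countable}) := by
  obtain ⟨Γ1, g1, a1, b1⟩ := fam P Q hP hQ hPQ
  obtain ⟨Γ2, g2, a2, b2⟩ := fam (L := Lᵒᵈ) P Q hP hQ hPQ
  have : ∀ t : P α0 × P α0, ∃ g : C(L, ℝ), t.1.1 < t.2.1 → EqOn g 0 (Iic t.1.1) ∧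
      EqOn g 1 (Ici t.2.1) := by
    intro t
    by_cases h : t.1.1 < t.2.1
    · obtain ⟨g, h1, h2, _⟩ := exists_continuous_zero_one_of_isClosed
        (isClosed_Iic (a := t.1.1)) (isClosed_Ici (a := t.2.1))
        (disjoint_left.2 fun z h1 h2 => not_le.2 h (le_trans h2 h1))
      exact ⟨g, fun _ => ⟨h1, h2⟩⟩
    · exact ⟨0, fun h' => absurd h' h⟩
  choose g0 b0 using this
  let h : L → (P α0 × P α0) ⊕ Γ1 ⊕ Γ2 → ℝ := fun x =>
    Sum.elim (fun t => g0 t x) (Sum.elim (fun t => g1 t x) fun t => g2 t x)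
  have hc : Continuous h := by
    refine continuous_pi ?_
    rintro (t | t | t)
    exacts [(g0 t).continuous, (g1 t).continuous, (g2 t).continuous]
  have key : ∀ x y, x < y → h x ≠ h y := by
    intro x y hxy he
    by_cases h0 : ∃ p ∈ P α0, ∃ p' ∈ P α0, x ≤ p ∧ p < p' ∧ p' ≤ y
    · obtain ⟨p, hp, p', hp', h1, h2, h3⟩ := h0
      have h4 := b0 (⟨p, hp⟩, ⟨p', hp'⟩) h2
      have h5 : g0 (⟨p, hp⟩, ⟨p', hp'⟩) x = g0 (⟨p, hp⟩, ⟨p', hp'⟩) y :=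
        congrFun he (inl (⟨p, hp⟩, ⟨p', hp'⟩))
      rw [h4.1 h1, h4.2 h3] at h5
      simp at h5
    obtain ⟨α, ⟨p, hp, p', hp', h1, h2, h3⟩, hmin⟩ := WellFounded.has_min (wellFounded_lt (α := I))
      {α | ∃ p ∈ P α, ∃ p' ∈ P α, x ≤ p ∧ p < p' ∧ p' ≤ y} (ha x y hxy)
    obtain ⟨e, he', ⟨e1, e2, e3⟩ | ⟨e1, e2, e3⟩⟩ := hb α x y hxy (by
      intro q hq q' hq' h4 h5
      by_contra h6
      obtain ⟨β, rfl | hβ, h7, h8⟩ := hQP α q hq q' hq'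
      · exact h0 ⟨q, h7, q', h8, h4, not_le.1 h6, h5⟩
      · exact hmin β ⟨q, h7, q', h8, h4, not_le.1 h6, h5⟩ hβ)
    · obtain ⟨γ, c1, c2⟩ := b1 α p hp p' hp' h2 e he' (h3.trans e1) e2
        fun z hz h => e3 z hz (h1.trans h)
      have h5 : g1 γ x = g1 γ y := congrFun he (inr (inl γ))
      rw [c1 x h1, c2 y h3 e1] at h5
      simp at h5
    · obtain ⟨γ, c1, c2⟩ := b2 α p' hp' p hp h2 e he' (e1.trans h1) e2
        fun z hz h => e3 z hz (le_trans h h3)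
      have h5 : g2 γ x = g2 γ y := congrFun he (inr (inr γ))
      rw [c1 y h3, c2 x h1 e1] at h5
      simp at h5
  have hi : Injective h := by
    intro x y he
    rcases lt_trichotomy x y with h' | h' | h'
    exacts [absurd he (key x y h'), h', absurd he.symm (key y x h')]
  refine ⟨_, h, (hc.isClosedEmbedding hi).isEmbedding, hA.mono fun x hx => ?_⟩
  have c1 := a1 x (lc_idx P hm (fun x y h => by
    obtain ⟨α, p, hp, p', _, h1, h2, h3⟩ := ha x y h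
    exact ⟨α, p, hp, h1, h2.trans_le h3⟩) hx.1)
  have c2 := a2 x (lc_idx (L := Lᵒᵈ) P hm (fun x y h => by
    obtain ⟨α, p, _, p', hp', h1, h2, h3⟩ := ha y x h
    exact ⟨α, p', hp', h3, h1.trans_lt h2⟩) hx.2)
  have := (hP α0).to_subtype
  refine (((countable_range inl).union (c1.image fun t => inr (inl t))).union
    (c2.image fun t => inr (inr t))).mono ?_
  rintro (t | t | t) ht
  exacts [Or.inl (Or.inl ⟨t, rfl⟩), Or.inl (Or.inr ⟨t, ht, rfl⟩), Or.inr ⟨t, ht, rfl⟩]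

end crit

theorem compact_of_lub {L : Type} [LinearOrder L] [TopologicalSpace L] [OrderTopology L]
    (h : ∀ s : Set L, ∃ a, IsLUB s a) : CompactSpace L := by
  refine ⟨isCompact_iff_ultrafilter_le_nhds.2 fun F _ => ?_⟩
  obtain ⟨a, ha⟩ := h {x | Ici x ∈ F}
  refine ⟨a, mem_univ _, ?_⟩
  rw [nhds_eq_order]
  refine le_inf (le_iInf₂ fun l hl => le_principal_iff.2 ?_)
    (le_iInf₂ fun u hu => le_principal_iff.2 ?_)
  · obtain ⟨x, h1, h2, _⟩ := ha.exists_between hl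
    exact mem_of_superset h1 fun z hz => h2.trans_le hz
  · by_contra h1
    have h2 := Ultrafilter.compl_mem_iff_notMem.2 h1
    rw [compl_Iio] at h2
    exact not_le.2 hu (ha.1 h2)

theorem lc_of_cg {K : Type} [LinearOrder K] [TopologicalSpace K] [OrderTopology K] {e : K}
    (h : (𝓝 e).IsCountablyGenerated) : LC e := by
  by_cases h0 : ∃ l, l < e
  · obtain ⟨s, hs⟩ := (𝓝 e).exists_antitone_basis
    choose l h1 h2 using fun n => exists_Ioc_subset_of_mem_nhds (hs.mem n) h0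
    refine ⟨range l, countable_range _, by rintro _ ⟨n, rfl⟩; exact h1 n, fun y hy => ?_⟩
    obtain ⟨n, hn⟩ := hs.mem_iff.1 (Ioi_mem_nhds hy)
    exact ⟨l n, ⟨n, rfl⟩, not_lt.1 fun h3 => lt_irrefl y (hn (h2 n ⟨h3, hy.le⟩))⟩
  · exact ⟨∅, countable_empty, empty_subset _, fun y hy => absurd ⟨y, hy⟩ h0⟩

theorem lc_between {K : Type} [LinearOrder K] [TopologicalSpace K] [OrderTopology K]
    [CompactSpace K] {c l : K} (hc : ¬ LC c) (hl : l < c) : ∃ s, l < s ∧ s < c ∧ LC s := by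
  have : Nonempty K := ⟨c⟩
  have h1 : ∀ y, ∃ y', y < c → y < y' ∧ y' < c := by
    intro y
    by_contra h
    push Not at h
    exact hc ⟨{y}, countable_singleton _, singleton_subset_iff.2 (h y).1,
      fun z hz => ⟨y, rfl, not_lt.1 fun h' => not_le.2 hz ((h z).2 h')⟩⟩
  choose g hg using h1
  have h2 : ∀ n, g^[n] l < c := by
    intro n
    induction n with
    | zero => exact hl
    | succ n ih => rw [iterate_succ_apply']; exact (hg _ ih).2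
  obtain ⟨s, hs⟩ := exists_lub (range fun n => g^[n] l)
  have h3 : ∀ n, g^[n] l < s := fun n =>
    (hg _ (h2 n)).1.trans_le (hs.1 ⟨n + 1, iterate_succ_apply' _ _ _⟩)
  have h4 : LC s := by
    refine ⟨_, countable_range fun n => g^[n] l, by rintro _ ⟨n, rfl⟩; exact h3 n, fun y hy => ?_⟩
    obtain ⟨x, h5, h6, _⟩ := hs.exists_between hy
    exact ⟨x, h5, h6.le⟩
  exact ⟨s, h3 0, lt_of_le_of_ne (hs.2 (by rintro _ ⟨n, rfl⟩; exact (h2 n).le))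
    fun h => hc (h ▸ h4), h4⟩

structure Dbl {K L : Type} [LinearOrder K] [LinearOrder L] (U : K → Prop) (π : L → K)
    (bt tp : K → L) : Prop where
  mono : Monotone π
  pb : ∀ c, π (bt c) = c
  pt : ∀ c, π (tp c) = c
  le : ∀ c, bt c ≤ tp c
  eq : ∀ z, z = bt (π z) ∨ z = tp (π z)
  lt : ∀ c, bt c < tp c ↔ U c

namespace Dbl
variable {K L : Type} [LinearOrder K] [LinearOrder L] {U : K → Prop} {π : L → K} {bt tp : K → L}

theorem dual (h : Dbl U π bt tp) : Dbl (K := Kᵒᵈ) (L := Lᵒᵈ) U π tp bt :=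
  ⟨h.mono.dual, h.pt, h.pb, h.le, fun z => (h.eq z).symm, h.lt⟩

theorem bt_le (h : Dbl U π bt tp) {c : K} {z : L} : bt c ≤ z ↔ c ≤ π z := by
  refine ⟨fun h1 => h.pb c ▸ h.mono h1, fun h1 => ?_⟩
  rcases h1.eq_or_lt with rfl | h1
  · rcases h.eq z with h2 | h2
    · exact h2.ge
    · exact (h.le _).trans h2.ge
  · exact not_lt.1 fun h2 => not_le.2 h1 (h.pb c ▸ h.mono h2.le)

theorem le_tp (h : Dbl U π bt tp) {c : K} {z : L} : z ≤ tp c ↔ π z ≤ c := h.dual.bt_le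

theorem Ioi_bt (h : Dbl U π bt tp) {c : K} (hc : U c) : Ioi (bt c) = Ici (tp c) := by
  ext z
  refine ⟨fun hz => ?_, fun hz => ((h.lt c).2 hc).trans_le hz⟩
  rcases (h.bt_le.1 (le_of_lt hz)).eq_or_lt with rfl | h1
  · exact ((h.eq z).resolve_left (ne_of_gt hz)).ge
  · exact (not_le.1 fun h2 => not_le.2 h1 (h.le_tp.1 h2)).le

theorem lub (h : Dbl U π bt tp) (hK : ∀ s : Set K, ∃ a, IsLUB s a) (s : Set L) :
    ∃ a, IsLUB s a := by
  obtain ⟨a, ha⟩ := hK (π '' s)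
  by_cases h1 : tp a ∈ s
  · exact ⟨tp a, fun z hz => h.le_tp.2 (ha.1 ⟨z, hz, rfl⟩), fun w hw => hw h1⟩
  · refine ⟨bt a, fun z hz => ?_, fun w hw => h.bt_le.2 (ha.2 ?_)⟩
    · rcases (ha.1 ⟨z, hz, rfl⟩).eq_or_lt with rfl | h2
      · exact ((h.eq z).resolve_right fun h3 => h1 (h3 ▸ hz)).le
      · exact (not_le.1 fun h3 => not_le.2 h2 (h.bt_le.1 h3)).le
    · rintro _ ⟨z, hz, rfl⟩
      exact h.mono (hw hz)

theorem lc_bt (h : Dbl U π bt tp) {c : K} (hc : LC c) : LC (bt c) := by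
  obtain ⟨C, h1, h2, h3⟩ := hc
  refine ⟨tp '' C, h1.image _, ?_, fun y hy => ?_⟩
  · rintro _ ⟨p, hp, rfl⟩
    exact not_le.1 fun h4 => not_le.2 (h2 hp) (h.pt p ▸ h.bt_le.1 h4)
  · obtain ⟨p, h4, h5⟩ := h3 (π y) (not_le.1 fun h4 => not_le.2 hy (h.bt_le.2 h4))
    exact ⟨tp p, ⟨p, h4, rfl⟩, h.le_tp.2 h5⟩

theorem rc_bt (h : Dbl U π bt tp) (hU : ∀ c, ¬ U c → LC (K := Kᵒᵈ) c) (c : K) :
    LC (K := Lᵒᵈ) (bt c) := by
  by_cases hc : U c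
  · refine ⟨{tp c}, countable_singleton _, singleton_subset_iff.2 ((h.lt c).2 hc),
      fun y hy => ⟨tp c, rfl, ?_⟩⟩
    have : y ∈ Ioi (bt c) := hy
    rwa [h.Ioi_bt hc] at this
  · have : bt c = tp c := (h.le c).eq_or_lt.resolve_right fun h1 => hc ((h.lt c).1 h1)
    rw [this]
    exact h.dual.lc_bt (hU c hc)

theorem half (h : Dbl U π bt tp) [TopologicalSpace L] [OrderTopology L]
    (hU : ∀ c, ¬ U c → LC c) {Q : Set K}
    (hQ : ∀ e ∈ Q, LC e → ∀ y < e, ∃ p ∈ Q, y ≤ p ∧ p < e) {x y : L}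
    (H : ∀ p ∈ π ⁻¹' Q, ∀ p' ∈ π ⁻¹' Q, x ≤ p → p' ≤ y → p' ≤ p) {e : K} (he : e ∈ Q)
    (h1 : π x < e) (h2 : ∀ z ∈ Q, π x ≤ z → e ≤ z) : ∃ e ∈ π ⁻¹' Q,
      y ≤ e ∧ IsClosed (Ioi e) ∧ ∀ z ∈ π ⁻¹' Q, x ≤ z → e ≤ z := by
  have h3 : U e := by
    by_contra h3
    obtain ⟨p, h4, h5, h6⟩ := hQ e he (hU e h3) _ h1
    exact not_le.2 h6 (h2 p h4 h5)
  have h4 : bt e ∈ π ⁻¹' Q := by rwa [mem_preimage, h.pb]
  have h5 : tp e ∈ π ⁻¹' Q := by rwa [mem_preimage, h.pt]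
  refine ⟨bt e, h4, not_lt.1 fun h6 => ?_, h.Ioi_bt h3 ▸ isClosed_Ici,
    fun z hz h6 => h.bt_le.2 (h2 _ hz (h.mono h6))⟩
  have h7 : y ∈ Ioi (bt e) := h6
  rw [h.Ioi_bt h3] at h7
  exact not_le.2 ((h.lt e).2 h3) (H _ h4 _ h5
    (not_le.1 fun h8 => not_le.2 h1 (h.bt_le.1 h8)).le h7)

theorem near (h : Dbl U π bt tp) [TopologicalSpace K] [OrderTopology K] [CompactSpace K]
    [TopologicalSpace L] [OrderTopology L] (hU : ∀ c, ¬ U c → LC (K := Kᵒᵈ) c) (c : K)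
    {W : Set L} (hW : W ∈ 𝓝 (bt c)) : ∃ z ∈ W, LC z ∧ LC (K := Lᵒᵈ) z := by
  by_cases hc : LC c
  · exact ⟨bt c, mem_of_mem_nhds hW, h.lc_bt hc, h.rc_bt hU c⟩
  have h1 : ∃ l, l < bt c := by
    by_contra h1
    exact hc ⟨∅, countable_empty, empty_subset _, fun y hy => absurd ⟨bt y,
      not_le.1 fun h2 => not_le.2 hy (h.pb y ▸ h.bt_le.1 h2)⟩ h1⟩
  obtain ⟨l, h2, h3⟩ := exists_Ioc_subset_of_mem_nhds hW h1
  obtain ⟨s, h4, h5, h6⟩ := lc_between hc (l := π l)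
    (not_le.1 fun h4 => not_le.2 h2 (h.bt_le.2 h4))
  exact ⟨bt s, h3 ⟨not_le.1 fun h7 => not_le.2 h4 (h.bt_le.1 h7),
    h.bt_le.2 (by rw [h.pb]; exact h5.le)⟩, h.lc_bt h6, h.rc_bt hU s⟩

theorem cont (h : Dbl U π bt tp) [TopologicalSpace K] [OrderTopology K]
    [TopologicalSpace L] [OrderTopology L] : Continuous π := by
  refine OrderTopology.continuous_iff.2 fun a => ⟨?_, ?_⟩
  · have : π ⁻¹' Ioi a = Ioi (tp a) := by
      ext z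
      simp only [mem_preimage, mem_Ioi, ← not_le, h.le_tp]
    rw [this]
    exact isOpen_Ioi
  · have : π ⁻¹' Iio a = Iio (bt a) := by
      ext z
      simp only [mem_preimage, mem_Iio, ← not_le, h.bt_le]
    rw [this]
    exact isOpen_Iio

end Dbl

theorem exists_dbl {K : Type} [LinearOrder K] (U : K → Prop) :
    ∃ (L : Type) (_ : LinearOrder L) (π : L → K) (bt tp : K → L), Dbl U π bt tp := by
  classical
  refine ⟨{z : K ×ₗ Bool // (ofLex z).2 = true → U (ofLex z).1}, inferInstance,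
    fun z => (ofLex z.1).1, fun c => ⟨toLex (c, false), by simp⟩,
    fun c => ⟨toLex (c, decide (U c)), by simp⟩, ⟨fun z w h => ?_, fun _ => rfl, fun _ => rfl,
      fun c => ?_, ?_, fun c => ?_⟩⟩
  · exact Prod.Lex.monotone_fst _ _ h
  · exact Prod.Lex.toLex_le_toLex.2 (Or.inr ⟨rfl, Bool.false_le _⟩)
  · rintro ⟨⟨c, b⟩, hz⟩
    cases b
    · exact Or.inl rfl
    · refine Or.inr (Subtype.ext ?_)
      have : U c := hz rfl
      show _ = toLex (c, decide (U c))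
      rw [decide_eq_true this]
      rfl
  · refine Prod.Lex.toLex_lt_toLex.trans ?_
    by_cases h : U c <;> simp [h]

end Pool.Agent.H15.Vald
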