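import Mathlib
import Pool.Agent.H15.Vald3

set_option autoImplicit false

namespace Pool.Agent.H15.Vald
open Set Filter Topology Cardinal Function Sum

def hull {Z : Type} (Φ : Finset Z → Set Z) (S : Set Z) : Set Z :=
  {z | ∀ M, S ⊆ M → Closed Φ M → z ∈ M}

theorem hull_closed {Z : Type} (Φ : Finset Z → Set Z) (S : Set Z) : Closed Φ (hull Φ S) :=
  fun E hE _ hz M h1 h2 => h2 E (fun _ hw => hE hw M h1 h2) hz

theorem hull_cnt {Z : Type} {Φ : Finset Z → Set Z} (h : ∀ E, (Φ E).Countable) {S : Set Z}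
    (hS : S.Countable) : (hull Φ S).Countable := by
  obtain ⟨M, h1, h2, h3⟩ := fin_closed le_rfl S (le_aleph0_iff_set_countable.2 hS) Φ
    fun E => le_aleph0_iff_set_countable.2 (h E)
  exact (le_aleph0_iff_set_countable.1 h1).mono fun z hz => hz M h2 h3

variable {Γ K : Type} [LinearOrder K] {L : Set (Γ → ℝ)} [TopologicalSpace K] [OrderTopology K]
  [CompactSpace K]

theorem both (hL : IsCompact L) (hA : Dense (AA L)) {f : L → K}
    (hf : Continuous f) (hs : Surjective f) {M : Set (Γ ⊕ K)} (hM : Cl f M) {x : K}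
    (hx : inr x ∉ M) (hl : ∀ c, inr c ∈ M → c < x → ∃ p, inr p ∈ M ∧ c < p ∧ p < x)
    (hr : ∀ c, inr c ∈ M → x < c → ∃ p, inr p ∈ M ∧ x < p ∧ p < c) :
    (∀ a < x, ∃ p ∈ inr ⁻¹' M, a < p ∧ p < x) ∧ ∀ b, x < b → ∃ p ∈ inr ⁻¹' M, x < p ∧ p < b := by
  refine ⟨fun a h => ?_, fun b h => ?_⟩
  · by_contra h'
    push Not at h'
    exact no_gap hL hA hf hs hM hx hl hr h
      (fun c hc h'' => not_lt.1 fun h3 => not_le.2 h'' (h' c hc h3)) fun c _ h'' => h''.le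
  · by_contra h'
    push Not at h'
    exact no_gap hL hA hf hs hM hx hl hr h (fun c _ h'' => h''.le) fun c hc h'' => h' c hc h''

theorem bigM (hL : IsCompact L) (hA : Dense (AA L)) {f : L → K}
    (hf : Continuous f) (hs : Surjective f) : ∃ M : Set K, #M ≤ aleph 1 ∧
      (∀ x, ¬ (𝓝 x).IsCountablyGenerated → x ∈ M) ∧
      ∀ x y, x < y → ∃ p ∈ M, ∃ p' ∈ M, x ≤ p ∧ p < p' ∧ p' ≤ y := by
  classical
  choose C C1 C2 C3 using cof hL hA hf hs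
  choose D D1 D2 D3 using cof (K := Kᵒᵈ) hL hA (f := f) hf hs
  obtain ⟨Φ, Φ1, Φ2⟩ := exists_Phi f
  have ha : aleph0 ≤ aleph 1 := by simp
  obtain ⟨M, M1, -, M2⟩ := fin_closed ha (∅ : Set (Γ ⊕ K)) (by simp)
    (fun E => Φ E ∪ ⋃ c ∈ inr ⁻¹' (↑E : Set (Γ ⊕ K)), inr '' (C c ∪ D c)) fun E =>
      small_un ha ((le_aleph0_iff_set_countable.2 (Φ1 E)).trans ha) (small_bU ha
        ((le_aleph0_iff_set_countable.2 (E.countable_toSet.preimage inr_injective)).trans ha)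
        fun c _ => mk_image_le.trans (small_un ha (C2 c) (D2 c)))
  have hCD : ∀ c, inr c ∈ M → ∀ p ∈ C c ∪ D c, inr p ∈ M := fun c hc p hp =>
    M2 {inr c} (by simpa using hc) (Or.inr (mem_biUnion (x := c) (by simp) ⟨p, hp, rfl⟩))
  have hcl : Cl f M := Φ2 _ fun E hE => subset_union_left.trans (M2 E hE)
  have k1 : ∀ c, inr c ∈ M → ∀ x, c < x → ∃ p, inr p ∈ M ∧ c < p ∧ p ≤ x := fun c hc x h => by
    obtain ⟨p, p1, p2⟩ := D3 c x h
    exact ⟨p, hCD c hc p (Or.inr p1), D1 c p1, p2⟩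
  have k2 : ∀ c, inr c ∈ M → ∀ x, x < c → ∃ p, inr p ∈ M ∧ x ≤ p ∧ p < c := fun c hc x h => by
    obtain ⟨p, p1, p2⟩ := C3 c x h
    exact ⟨p, hCD c hc p (Or.inl p1), p2, C1 c p1⟩
  refine ⟨inr ⁻¹' M ∪ {x | ¬ (𝓝 x).IsCountablyGenerated},
    small_un ha ((mk_preimage_of_injective _ _ inr_injective).trans M1) (main hL hA hf hs),
    fun x hx => Or.inr hx, fun x y hxy => ?_⟩
  by_cases hx : inr x ∈ M
  · obtain ⟨p, h1, h2, h3⟩ := k1 x hx y hxy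
    exact ⟨x, Or.inl hx, p, Or.inl h1, le_rfl, h2, h3⟩
  obtain ⟨p, h1, h2, h3⟩ := (both hL hA hf hs hcl hx (fun c hc h => by
    obtain ⟨p, h1, h2, h3⟩ := k1 c hc x h
    exact ⟨p, h1, h2, lt_of_le_of_ne h3 fun h' => hx (h' ▸ h1)⟩) (fun c hc h => by
    obtain ⟨p, h1, h2, h3⟩ := k2 c hc x h
    exact ⟨p, h1, lt_of_le_of_ne h2 fun h' => hx (h' ▸ h1), h3⟩)).2 y hxy
  obtain ⟨q, h4, h5, h6⟩ := k1 p h1 y h3
  exact ⟨p, Or.inl h1, q, Or.inl h4, h2.le, h5, h6⟩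

theorem lc_choice {K : Type} [LinearOrder K] (c : K) : ∃ C : Set K, C.Countable ∧
    (LC c → ∀ y < c, ∃ p ∈ C, y ≤ p ∧ p < c) := by
  by_cases h : LC c
  · obtain ⟨C, h1, h2, h3⟩ := h
    refine ⟨C, h1, fun _ y hy => ?_⟩
    obtain ⟨p, h4, h5⟩ := h3 y hy
    exact ⟨p, h4, h5, h2 h4⟩
  · exact ⟨∅, countable_empty, fun h' => absurd h' h⟩

theorem main2 (hL : IsCompact L) (hA : Dense (AA L)) {f : L → K}
    (hf : Continuous f) (hs : Surjective f) :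
    ∃ (L : Type) (_ : LinearOrder L) (_ : TopologicalSpace L) (_ : OrderTopology L)
      (_ : CompactSpace L),
      (∃ (Γ : Type) (h : L → (Γ → ℝ)), Topology.IsEmbedding h ∧
        Dense (h ⁻¹' {x | {γ | x γ ≠ 0}.Countable})) ∧
      ∃ g : L → K, Continuous g ∧ Function.Surjective g ∧ Monotone g := by
  classical
  obtain ⟨R, _, π, bt, tp, hD⟩ := exists_dbl fun x : K => ¬ (𝓝 x).IsCountablyGenerated
  let _ : TopologicalSpace R := Preorder.topology R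
  have : OrderTopology R := ⟨rfl⟩
  have : CompactSpace R := by
    rcases isEmpty_or_nonempty K with h | h
    · have : IsEmpty R := ⟨fun z => h.elim (π z)⟩
      infer_instance
    · exact compact_of_lub (hD.lub exists_lub)
  refine ⟨R, inferInstance, inferInstance, inferInstance, inferInstance, ?_, π, hD.cont,
    fun c => ⟨bt c, hD.pb c⟩, hD.mono⟩
  have hU1 : ∀ c : K, ¬ ¬ (𝓝 c).IsCountablyGenerated → LC c := fun c h => lc_of_cg (not_not.1 h)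
  have hU2 : ∀ c : K, ¬ ¬ (𝓝 c).IsCountablyGenerated → LC (K := Kᵒᵈ) c := fun c h =>
    lc_of_cg (K := Kᵒᵈ) (not_not.1 h)
  obtain ⟨M, M1, M2, M3⟩ := bigM hL hA hf hs
  obtain ⟨Φ, Φ1, Φ2⟩ := exists_Phi f
  choose C C1 C2 using lc_choice (K := K)
  choose D D1 D2 using lc_choice (K := Kᵒᵈ)
  let Ψ : Finset (Γ ⊕ K) → Set (Γ ⊕ K) := fun E =>
    Φ E ∪ ⋃ c ∈ inr ⁻¹' (↑E : Set (Γ ⊕ K)), inr '' (C c ∪ D c)
  have Ψ1 : ∀ E, (Ψ E).Countable := fun E => (Φ1 E).union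
    ((E.countable_toSet.preimage inr_injective).biUnion fun c _ => ((C1 c).union (D1 c)).image _)
  obtain ⟨ι⟩ : Nonempty (M ↪ I) := (Cardinal.le_def _ _).1 (M1.trans (by simp))
  let N : I → Set (Γ ⊕ K) := fun α => hull Ψ (inr '' (Subtype.val '' (ι ⁻¹' Iic α)))
  have N1 : ∀ α, (N α).Countable := fun α =>
    hull_cnt Ψ1 ((((I_Iic α).preimage ι.injective).image _).image _)
  have N2 : Monotone N := fun α β h z hz M' h1 h2 => hz M' ((image_mono (image_mono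
    (preimage_mono (Iic_subset_Iic.2 h)))).trans h1) h2
  have N3 : ∀ p ∈ M, ∀ q ∈ M, ∃ α, inr p ∈ N α ∧ inr q ∈ N α := fun p hp q hq =>
    ⟨max (ι ⟨p, hp⟩) (ι ⟨q, hq⟩), fun M' h1 _ => h1 ⟨p, ⟨⟨p, hp⟩, le_max_left (ι ⟨p, hp⟩) (ι ⟨q, hq⟩), rfl⟩, rfl⟩,
      fun M' h1 _ => h1 ⟨q, ⟨⟨q, hq⟩, le_max_right (ι ⟨p, hp⟩) (ι ⟨q, hq⟩), rfl⟩, rfl⟩⟩
  obtain ⟨α0, -⟩ := I_bdd countable_empty
  let Q : I → Set (Γ ⊕ K) := fun α => ⋃ β ∈ insert α0 (Iio α), N β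
  have Q1 : ∀ α, (Q α).Countable := fun α => ((I_Iio α).insert _).biUnion fun β _ => N1 β
  have Q2 : ∀ α, ∀ E : Finset (Γ ⊕ K), ↑E ⊆ Q α → ∃ β ∈ insert α0 (Iio α), ↑E ⊆ N β := by
    intro α E hE
    refine DirectedOn.exists_mem_subset_of_finset_subset_biUnion (insert_nonempty _ _) ?_ hE
    intro β hβ γ hγ
    rcases le_total β γ with h | h
    exacts [⟨γ, hγ, N2 h, le_rfl⟩, ⟨β, hβ, le_rfl, N2 h⟩]
  have Q3 : ∀ α, Closed Ψ (Q α) := fun α E hE => by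
    obtain ⟨β, h1, h2⟩ := Q2 α E hE
    exact (hull_closed Ψ _ E h2).trans (subset_biUnion_of_mem (u := N) h1)
  have hc : ∀ S : Set K, S.Countable → (π ⁻¹' S).Countable := fun S hS =>
    ((hS.image bt).union (hS.image tp)).mono fun z hz =>
      (hD.eq z).imp (fun h => ⟨_, hz, h.symm⟩) fun h => ⟨_, hz, h.symm⟩
  refine crit (fun α => π ⁻¹' (inr ⁻¹' N α)) (fun α => π ⁻¹' (inr ⁻¹' Q α))
    (fun α => hc _ ((N1 α).preimage inr_injective)) (fun α => hc _ ((Q1 α).preimage inr_injective))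
    (fun α β h z hz => N2 h hz) (fun α β h z hz => mem_biUnion (Or.inr h) hz) α0
    (fun α p hp q hq => ?_) (fun x y hxy => ?_) (fun α x y hxy H => ?_) ?_
  · obtain ⟨β, h1, h2⟩ := Q2 α {inr (π p), inr (π q)} (by
      rw [Finset.coe_pair]
      exact pair_subset hp hq)
    exact ⟨β, h1, h2 (by simp), h2 (by simp)⟩
  · rcases (hD.mono hxy.le).eq_or_lt with h | h
    · have h1 : π x ∈ M := M2 _ ((hD.lt _).1 ((hD.bt_le.2 le_rfl).trans_lt
        (hxy.trans_le (hD.le_tp.2 h.ge))))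
      obtain ⟨α, h2, _⟩ := N3 _ h1 _ h1
      exact ⟨α, x, h2, y, by rw [h] at h2; exact h2, le_rfl, hxy, le_rfl⟩
    · obtain ⟨p, hp, q, hq, h1, h2, h3⟩ := M3 _ _ h
      obtain ⟨α, h4, h5⟩ := N3 p hp q hq
      refine ⟨α, tp p, ?_, bt q, ?_, hD.le_tp.2 h1, not_le.1 fun h6 => not_le.2 h2 ?_,
        hD.bt_le.2 h3⟩
      · show inr (π (tp p)) ∈ N α
        rwa [hD.pt]
      · show inr (π (bt q)) ∈ N α
        rwa [hD.pb]
      · exact hD.pt p ▸ hD.bt_le.1 h6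
  · have hCD : ∀ c, inr c ∈ Q α → ∀ p ∈ C c ∪ D c, inr p ∈ Q α := fun c hc p hp =>
      Q3 α {inr c} (by simpa using hc) (Or.inr (mem_biUnion (x := c) (by simp) ⟨p, hp, rfl⟩))
    have hcl : Cl f (Q α) := Φ2 _ fun E hE => subset_union_left.trans (Q3 α E hE)
    have key : (∃ e ∈ inr ⁻¹' Q α, π x < e ∧ ∀ z ∈ inr ⁻¹' Q α, π x ≤ z → e ≤ z) ∨
        ∃ e ∈ inr ⁻¹' Q α, e < π y ∧ ∀ z ∈ inr ⁻¹' Q α, z ≤ π y → z ≤ e := by
      have H' : ∀ z ∈ inr ⁻¹' Q α, ∀ e ∈ inr ⁻¹' Q α, π x ≤ z → e ≤ π y → e ≤ z := by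
        intro z hz e he h1 h2
        have := H (tp z) (by rwa [mem_preimage, hD.pt]) (bt e)
          (by rwa [mem_preimage, hD.pb]) (hD.le_tp.2 h1) (hD.bt_le.2 h2)
        exact hD.pt z ▸ hD.bt_le.1 this
      by_cases h0 : ∃ e ∈ inr ⁻¹' Q α, π x ≤ e ∧ e ≤ π y
      · obtain ⟨e, he, h1, h2⟩ := h0
        rcases h1.eq_or_lt with h1' | h1'
        · rcases h2.eq_or_lt with h2' | h2'
          · exact absurd (H x (by rwa [mem_preimage, h1']) y (by rwa [mem_preimage, ← h2'])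
              le_rfl le_rfl) (not_le.2 hxy)
          · exact Or.inr ⟨e, he, h2', fun z hz h => H' e he z hz h1 h⟩
        · exact Or.inl ⟨e, he, h1', fun z hz h => H' z hz e he h h2⟩
      by_contra h1
      push Not at h0 h1
      have hxy' := hD.mono hxy.le
      have hx : inr (π x) ∉ Q α := fun h => not_le.2 (h0 _ h le_rfl) hxy'
      have hl : ∀ c, inr c ∈ Q α → c < π x → ∃ p, inr p ∈ Q α ∧ c < p ∧ p < π x := by
        intro c hc h
        obtain ⟨p, h2, h3, h4⟩ := h1.2 c hc (h.trans_le hxy')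
        exact ⟨p, h2, h4, not_le.1 fun h5 => not_le.2 (h0 p h2 h5) h3⟩
      have hr : ∀ c, inr c ∈ Q α → π x < c → ∃ p, inr p ∈ Q α ∧ π x < p ∧ p < c := by
        intro c hc h
        obtain ⟨p, h2, h3, h4⟩ := h1.1 c hc h
        exact ⟨p, h2, lt_of_le_of_ne h3 fun h5 => hx (h5 ▸ h2), h4⟩
      have h2 := both hL hA hf hs hcl hx hl hr
      rcases hxy'.eq_or_lt with h | h
      · exact (hD.lt _).1 ((hD.bt_le.2 le_rfl).trans_lt (hxy.trans_le (hD.le_tp.2 h.ge)))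
          (cg_of ((Q1 α).preimage inr_injective) h2.1 h2.2)
      · obtain ⟨p, h3, h4, h5⟩ := h2.2 _ h
        exact lt_asymm h5 (h0 p h3 h4.le)
    rcases key with ⟨e, he, h1, h2⟩ | ⟨e, he, h1, h2⟩
    · obtain ⟨e', h3, h4⟩ := hD.half hU1 (Q := inr ⁻¹' Q α) (fun e he h y hy => by
        obtain ⟨p, h5, h6⟩ := C2 e h y hy
        exact ⟨p, hCD e he p (Or.inl h5), h6⟩) H he h1 h2
      exact ⟨e', h3, Or.inl h4⟩
    · obtain ⟨e', h3, h4⟩ := hD.dual.half hU2 (Q := inr ⁻¹' Q α) (fun e he h y hy => by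
        obtain ⟨p, h5, h6⟩ := D2 e h y hy
        exact ⟨p, hCD e he p (Or.inr h5), h6⟩) (x := y) (y := x)
        (fun p hp p' hp' h5 h6 => H p' hp' p hp h6 h5) he h1 h2
      exact ⟨e', h3, Or.inr h4⟩
  · intro z
    refine mem_closure_iff_nhds.2 fun W hW => ?_
    rcases hD.eq z with h | h
    · rw [h] at hW
      obtain ⟨w, h1, h2⟩ := hD.near hU2 _ hW
      exact ⟨w, h1, h2⟩
    · rw [h] at hW
      have : CompactSpace Kᵒᵈ := ‹CompactSpace K›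
      obtain ⟨w, h1, h2⟩ := hD.dual.near hU1 _ hW
      exact ⟨w, h1, h2.2, h2.1⟩

end Pool.Agent.H15.Vald
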